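import Pool.Agent.DEC.State

/-!
Lemmas about states (`dec_general.md`, section 2): (S1) equivariance, (S2) base change,
ring homomorphisms, continuity.
-/

set_option autoImplicit false

open Matrix

namespace Pool.Agent.DEC

section supp

variable {R I α β γ : Type} [CommRing R] [Fintype I] [DecidableEq I]

omit [DecidableEq I] in
/-- a sum over a type is the sum over the subtype outside which the function vanishes -/
theorem sum_sub_of {M : Type} [AddCommMonoid M] {P : I → Prop} [Fintype {i : I // P i}]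
    (F : I → M) (hF : ∀ i, ¬ P i → F i = 0) : ∑ i, F i = ∑ i : {i : I // P i}, F i.1 := by
  classical
  rw [← Finset.sum_filter_of_ne (p := P) (fun i _ hi => by
    by_contra hP
    exact hi (hF i hP))]
  exact Finset.sum_subtype (Finset.univ.filter P) (fun x => by simp) F

/-- powers of a degree-raising matrix -/
theorem pow_eq_zero_of_deg {deg : I → ℕ} {C : Matrix I I R}
    (hC : ∀ p q, deg p ≤ deg q → C p q = 0) (n : ℕ) :
    ∀ p q, deg p < deg q + n → (C ^ n) p q = 0 := by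
  induction n with
  | zero =>
    intro p q h
    rw [pow_zero, Matrix.one_apply_ne]
    rintro rfl
    omega
  | succ n ih =>
    intro p q h
    rw [pow_succ, Matrix.mul_apply]
    refine Finset.sum_eq_zero fun r _ => ?_
    by_cases h1 : deg r ≤ deg q
    · rw [hC r q h1, mul_zero]
    · rw [ih p r (by omega), zero_mul]

theorem mul_pow_eq_zero_of_deg {deg : I → ℕ} {C : Matrix I I R} {f : Matrix γ I R} {h : γ → ℕ}
    (hC : ∀ p q, deg p ≤ deg q → C p q = 0) (hf : ∀ c q, h c ≤ deg q → f c q = 0)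
    (n : ℕ) (c : γ) (q : I) (hn : h c ≤ deg q + n) : (f * C ^ n) c q = 0 := by
  rw [Matrix.mul_apply]
  refine Finset.sum_eq_zero fun r _ => ?_
  by_cases h1 : h c ≤ deg r
  · rw [hf c r h1, zero_mul]
  · rw [pow_eq_zero_of_deg hC n r q (by omega), mul_zero]

/-- (S1) equivariance -/
theorem evM_equiv {deg : I → ℕ} {h : γ → ℕ} {f : Matrix γ I R} {C : Matrix I I R}
    (hC : ∀ p q, deg p ≤ deg q → C p q = 0) (hf : ∀ c q, h c ≤ deg q → f c q = 0)
    (z : I → R) : evM h f C *ᵥ (C *ᵥ z) = yL h (evM h f C *ᵥ z) := by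
  funext ci
  obtain ⟨c, i⟩ := ci
  have key : ∀ n : ℕ, ∀ w : I → R, (∑ q, (f * C ^ n) c q * (C *ᵥ w) q)
      = ∑ q, (f * C ^ (n + 1)) c q * w q := by
    intro n w
    have h1 : ((f * C ^ n) *ᵥ (C *ᵥ w)) c = ((f * C ^ (n + 1)) *ᵥ w) c := by
      rw [Matrix.mulVec_mulVec, pow_succ, Matrix.mul_assoc]
    simpa only [Matrix.mulVec, dotProduct] using h1
  have hi := i.2
  have hL : (evM h f C *ᵥ (C *ᵥ z)) ⟨c, i⟩
      = ∑ q, (f * C ^ (h c - 1 - (i : ℕ) + 1)) c q * z q := by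
    rw [← key]
    rfl
  rw [hL]
  by_cases h0 : 0 < (i : ℕ)
  · have hR : (yL h (evM h f C *ᵥ z)) ⟨c, i⟩
        = (evM h f C *ᵥ z) ⟨c, ⟨(i : ℕ) - 1, by omega⟩⟩ := by
      simp only [yL, LinearMap.coe_mk, AddHom.coe_mk]
      rw [dif_pos h0]
    rw [hR]
    have e1 : h c - 1 - (i : ℕ) + 1 = h c - 1 - ((i : ℕ) - 1) := by omega
    rw [e1]
    rfl
  · have hR : (yL h (evM h f C *ᵥ z)) ⟨c, i⟩ = 0 := by
      simp only [yL, LinearMap.coe_mk, AddHom.coe_mk]
      rw [dif_neg h0]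
    rw [hR]
    refine Finset.sum_eq_zero fun q _ => ?_
    rw [mul_pow_eq_zero_of_deg hC hf _ c q (by omega), zero_mul]

theorem RM_equiv {σ : Shp I α β} {s : RSt R I α β} (hs : IsSt σ s) (z : I → R) :
    RM σ s *ᵥ (s.1 *ᵥ z) = yL σ.lam (RM σ s *ᵥ z) :=
  evM_equiv hs.c hs.rho z

theorem MM_equiv {σ : Shp I α β} {s : RSt R I α β} (hs : IsSt σ s) (z : I → R) :
    MM σ s *ᵥ (s.1 *ᵥ z) = yL σ.mu (MM σ s *ᵥ z) :=
  evM_equiv hs.c hs.tau z

end supp

section bc

variable {R I α β γ : Type} [CommRing R] [Fintype I] [DecidableEq I]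

omit [Fintype I] in
theorem IsDg.one (σ : Shp I α β) : IsDg σ (1 : Matrix I I R) := by
  intro p q h
  rw [Matrix.one_apply_ne]
  rintro rfl
  exact h rfl

omit [DecidableEq I] in
theorem IsDg.mul {σ : Shp I α β} {h g : Matrix I I R} (hh : IsDg σ h) (hg : IsDg σ g) :
    IsDg σ (h * g) := by
  intro p q hpq
  rw [Matrix.mul_apply]
  refine Finset.sum_eq_zero fun r _ => ?_
  by_cases h1 : σ.deg p = σ.deg r
  · rw [hg r q (by rw [← h1]; exact hpq), mul_zero]
  · rw [hh p r h1, zero_mul]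

/-- the inverse of a block diagonal matrix is block diagonal -/
theorem IsDg.inv {σ : Shp I α β} {h : Matrix I I R} (hh : IsDg σ h) (hu : IsUnit h.det) :
    IsDg σ h⁻¹ := by
  intro p q hpq
  set P : Matrix I I R := Matrix.diagonal (fun r => if σ.deg r = σ.deg p then 1 else 0) with hP
  have hcomm : P * h = h * P := by
    ext r t
    rw [hP, Matrix.diagonal_mul, Matrix.mul_diagonal]
    by_cases h1 : σ.deg r = σ.deg t
    · rw [h1, mul_comm]
    · rw [hh r t h1, mul_zero, zero_mul]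
  have hcomm' : h⁻¹ * P = P * h⁻¹ := by
    have h1 : h⁻¹ * (P * h) * h⁻¹ = h⁻¹ * (h * P) * h⁻¹ := by rw [hcomm]
    have h2 : h⁻¹ * (P * h) * h⁻¹ = h⁻¹ * P := by
      rw [Matrix.mul_assoc, Matrix.mul_assoc, Matrix.mul_nonsing_inv _ hu, Matrix.mul_one]
    have h3 : h⁻¹ * (h * P) * h⁻¹ = P * h⁻¹ := by
      rw [← Matrix.mul_assoc h⁻¹, Matrix.nonsing_inv_mul _ hu, Matrix.one_mul]
    rw [← h2, h1, h3]
  have h4 := congrFun (congrFun hcomm' p) q
  rw [hP, Matrix.diagonal_mul, Matrix.mul_diagonal] at h4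
  rw [if_neg (Ne.symm hpq)] at h4
  simp only [mul_zero, if_true, one_mul] at h4
  exact h4.symm

/-- powers of the conjugate -/
theorem conj_pow_aux (C h : Matrix I I R) (hu : IsUnit h.det) (n : ℕ) :
    h * (h⁻¹ * C * h) ^ n = C ^ n * h := by
  induction n with
  | zero => rw [pow_zero, pow_zero, Matrix.mul_one, Matrix.one_mul]
  | succ n ih =>
    rw [pow_succ, ← Matrix.mul_assoc, ih, pow_succ, Matrix.mul_assoc (C ^ n) h,
      Matrix.mul_assoc h⁻¹, ← Matrix.mul_assoc h, Matrix.mul_nonsing_inv _ hu, Matrix.one_mul,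
      ← Matrix.mul_assoc]

theorem mul_conj_pow (f : Matrix γ I R) (C h : Matrix I I R) (hu : IsUnit h.det) (n : ℕ) :
    (f * h) * (h⁻¹ * C * h) ^ n = (f * C ^ n) * h := by
  rw [Matrix.mul_assoc, conj_pow_aux C h hu, Matrix.mul_assoc]

theorem IsSt.bc {σ : Shp I α β} {s : RSt R I α β} (hs : IsSt σ s) {h : Matrix I I R}
    (hh : IsDg σ h) (hu : IsUnit h.det) : IsSt σ (bc s h) := by
  have hi := hh.inv hu
  refine ⟨?_, ?_, ?_⟩
  · intro p q hpq
    show (h⁻¹ * s.1 * h) p q = 0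
    rw [Matrix.mul_apply]
    refine Finset.sum_eq_zero fun r _ => ?_
    by_cases h1 : σ.deg r = σ.deg q
    · have h2 : (h⁻¹ * s.1) p r = 0 := by
        rw [Matrix.mul_apply]
        refine Finset.sum_eq_zero fun t _ => ?_
        by_cases h3 : σ.deg p = σ.deg t
        · rw [hs.c t r (by omega), mul_zero]
        · rw [hi p t h3, zero_mul]
      rw [h2, zero_mul]
    · rw [hh r q h1, mul_zero]
  · intro a q haq
    show (s.2.1 * h) a q = 0
    rw [Matrix.mul_apply]
    refine Finset.sum_eq_zero fun r _ => ?_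
    by_cases h1 : σ.deg r = σ.deg q
    · rw [hs.rho a r (by omega), zero_mul]
    · rw [hh r q h1, mul_zero]
  · intro a q haq
    show (s.2.2 * h) a q = 0
    rw [Matrix.mul_apply]
    refine Finset.sum_eq_zero fun r _ => ?_
    by_cases h1 : σ.deg r = σ.deg q
    · rw [hs.tau a r (by omega), zero_mul]
    · rw [hh r q h1, mul_zero]

theorem evM_bc (k : γ → ℕ) (f : Matrix γ I R) (C h : Matrix I I R) (hu : IsUnit h.det) :
    evM k (f * h) (h⁻¹ * C * h) = evM k f C * h := by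
  ext ci q
  show ((f * h) * (h⁻¹ * C * h) ^ (k ci.1 - 1 - (ci.2 : ℕ))) ci.1 q = _
  rw [mul_conj_pow f C h hu, Matrix.mul_apply, Matrix.mul_apply]
  rfl

theorem RM_bc (σ : Shp I α β) (s : RSt R I α β) (h : Matrix I I R) (hu : IsUnit h.det) :
    RM σ (bc s h) = RM σ s * h :=
  evM_bc σ.lam s.2.1 s.1 h hu

theorem MM_bc (σ : Shp I α β) (s : RSt R I α β) (h : Matrix I I R) (hu : IsUnit h.det) :
    MM σ (bc s h) = MM σ s * h :=
  evM_bc σ.mu s.2.2 s.1 h hu

/-- `T_j` of the base change -/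
theorem TM_bc (σ : Shp I α β) (s : RSt R I α β) {h : Matrix I I R} (hh : IsDg σ h)
    (hu : IsUnit h.det) (j : ℕ) [Fintype {q : I // σ.deg q = j}] :
    TM σ (bc s h) j = TM σ s j * h.submatrix (Subtype.val : {q : I // σ.deg q = j} → I)
      (Subtype.val : {q : I // σ.deg q = j} → I) := by
  ext b q
  show ((s.2.2 * h) * (h⁻¹ * s.1 * h) ^ (σ.mu b.1 - 1 - j)) b.1 q.1 = _
  rw [mul_conj_pow _ _ h hu, Matrix.mul_apply, Matrix.mul_apply,
    sum_sub_of (P := fun i => σ.deg i = j)]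
  · rfl
  · intro i hi
    rw [hh i q.1 (by rw [q.2]; exact hi), mul_zero]

/-- the part of a block diagonal matrix of degrees at least `j` -/
def hge (σ : Shp I α β) (h : Matrix I I R) (j : ℕ) :
    Matrix {q : I // j ≤ σ.deg q} {q : I // j ≤ σ.deg q} R :=
  h.submatrix Subtype.val Subtype.val

/-- the part of a block diagonal matrix of degree `j` -/
def heq (σ : Shp I α β) (h : Matrix I I R) (j : ℕ) :
    Matrix {q : I // σ.deg q = j} {q : I // σ.deg q = j} R :=
  h.submatrix Subtype.val Subtype.val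

omit [DecidableEq I] in
theorem hge_mul {σ : Shp I α β} {g h : Matrix I I R} (hh : IsDg σ h) (j : ℕ)
    [Fintype {q : I // j ≤ σ.deg q}] : hge σ (g * h) j = hge σ g j * hge σ h j := by
  ext p q
  show (g * h) p.1 q.1 = _
  rw [Matrix.mul_apply, Matrix.mul_apply, sum_sub_of (P := fun i => j ≤ σ.deg i)]
  · rfl
  · intro i hi
    rw [hh i q.1 (by have := q.2; omega), mul_zero]

omit [DecidableEq I] in
theorem heq_mul {σ : Shp I α β} {g h : Matrix I I R} (hh : IsDg σ h) (j : ℕ)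
    [Fintype {q : I // σ.deg q = j}] : heq σ (g * h) j = heq σ g j * heq σ h j := by
  ext p q
  show (g * h) p.1 q.1 = _
  rw [Matrix.mul_apply, Matrix.mul_apply, sum_sub_of (P := fun i => σ.deg i = j)]
  · rfl
  · intro i hi
    rw [hh i q.1 (by rw [q.2]; exact hi), mul_zero]

omit [Fintype I] in
theorem hge_one (σ : Shp I α β) (j : ℕ) : hge σ (1 : Matrix I I R) j = 1 := by
  ext p q
  show (1 : Matrix I I R) p.1 q.1 = _
  by_cases h : p = q
  · rw [h, Matrix.one_apply_eq, Matrix.one_apply_eq]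
  · rw [Matrix.one_apply_ne h, Matrix.one_apply_ne]
    exact fun h' => h (Subtype.ext h')

omit [Fintype I] in
theorem heq_one (σ : Shp I α β) (j : ℕ) : heq σ (1 : Matrix I I R) j = 1 := by
  ext p q
  show (1 : Matrix I I R) p.1 q.1 = _
  by_cases h : p = q
  · rw [h, Matrix.one_apply_eq, Matrix.one_apply_eq]
  · rw [Matrix.one_apply_ne h, Matrix.one_apply_ne]
    exact fun h' => h (Subtype.ext h')

theorem hge_mul_inv {σ : Shp I α β} {h : Matrix I I R} (hh : IsDg σ h) (hu : IsUnit h.det)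
    (j : ℕ) : hge σ h j * hge σ h⁻¹ j = 1 := by
  rw [← hge_mul (hh.inv hu), Matrix.mul_nonsing_inv _ hu, hge_one]

theorem hge_inv_mul {σ : Shp I α β} {h : Matrix I I R} (hh : IsDg σ h) (hu : IsUnit h.det)
    (j : ℕ) : hge σ h⁻¹ j * hge σ h j = 1 := by
  rw [← hge_mul hh, Matrix.nonsing_inv_mul _ hu, hge_one]

theorem heq_mul_inv {σ : Shp I α β} {h : Matrix I I R} (hh : IsDg σ h) (hu : IsUnit h.det)
    (j : ℕ) : heq σ h j * heq σ h⁻¹ j = 1 := by
  rw [← heq_mul (hh.inv hu), Matrix.mul_nonsing_inv _ hu, heq_one]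

theorem heq_inv_mul {σ : Shp I α β} {h : Matrix I I R} (hh : IsDg σ h) (hu : IsUnit h.det)
    (j : ℕ) : heq σ h⁻¹ j * heq σ h j = 1 := by
  rw [← heq_mul hh, Matrix.nonsing_inv_mul _ hu, heq_one]

theorem isUnit_det_hge {σ : Shp I α β} {h : Matrix I I R} (hh : IsDg σ h) (hu : IsUnit h.det)
    (j : ℕ) : IsUnit (hge σ h j).det :=
  Matrix.isUnit_det_of_right_inverse (hge_mul_inv hh hu j)

theorem isUnit_det_heq {σ : Shp I α β} {h : Matrix I I R} (hh : IsDg σ h) (hu : IsUnit h.det)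
    (j : ℕ) : IsUnit (heq σ h j).det :=
  Matrix.isUnit_det_of_right_inverse (heq_mul_inv hh hu j)

theorem hge_inv {σ : Shp I α β} {h : Matrix I I R} (hh : IsDg σ h) (hu : IsUnit h.det)
    (j : ℕ) : hge σ h⁻¹ j = (hge σ h j)⁻¹ :=
  (Matrix.inv_eq_right_inv (hge_mul_inv hh hu j)).symm

theorem heq_inv {σ : Shp I α β} {h : Matrix I I R} (hh : IsDg σ h) (hu : IsUnit h.det)
    (j : ℕ) : heq σ h⁻¹ j = (heq σ h j)⁻¹ :=
  (Matrix.inv_eq_right_inv (heq_mul_inv hh hu j)).symm

/-- `T_j` of the base change, in terms of `heq` -/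
theorem TM_bc' (σ : Shp I α β) (s : RSt R I α β) {h : Matrix I I R} (hh : IsDg σ h)
    (hu : IsUnit h.det) (j : ℕ) : TM σ (bc s h) j = TM σ s j * heq σ h j :=
  TM_bc σ s hh hu j

/-- the row operation belonging to a base change -/
def sgB (σ : Shp I α β) (h : Matrix I I R) (j : ℕ) [DecidableEq {a : α // j + 1 ≤ σ.lam a}] :
    Matrix ({p : I // j + 1 ≤ σ.deg p} ⊕ {a : α // j + 1 ≤ σ.lam a})
      ({p : I // j + 1 ≤ σ.deg p} ⊕ {a : α // j + 1 ≤ σ.lam a}) R :=
  Matrix.fromBlocks (hge σ h (j + 1)) 0 0 1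

omit [DecidableEq I] in
theorem sgB_mul {σ : Shp I α β} {g h : Matrix I I R} (hh : IsDg σ h) (j : ℕ)
    [Fintype {a : α // j + 1 ≤ σ.lam a}] [DecidableEq {a : α // j + 1 ≤ σ.lam a}] :
    sgB σ (g * h) j = sgB σ g j * sgB σ h j := by
  rw [sgB, sgB, sgB, Matrix.fromBlocks_multiply, hge_mul hh]
  simp

omit [Fintype I] in
theorem sgB_one (σ : Shp I α β) (j : ℕ) [DecidableEq {a : α // j + 1 ≤ σ.lam a}] :
    sgB σ (1 : Matrix I I R) j = 1 := by
  rw [sgB, hge_one, Matrix.fromBlocks_one]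

theorem sgB_mul_inv {σ : Shp I α β} {h : Matrix I I R} (hh : IsDg σ h) (hu : IsUnit h.det)
    (j : ℕ) [Fintype {a : α // j + 1 ≤ σ.lam a}] [DecidableEq {a : α // j + 1 ≤ σ.lam a}] :
    sgB σ h j * sgB σ h⁻¹ j = 1 := by
  rw [← sgB_mul (hh.inv hu), Matrix.mul_nonsing_inv _ hu, sgB_one]

theorem sgB_inv_mul {σ : Shp I α β} {h : Matrix I I R} (hh : IsDg σ h) (hu : IsUnit h.det)
    (j : ℕ) [Fintype {a : α // j + 1 ≤ σ.lam a}] [DecidableEq {a : α // j + 1 ≤ σ.lam a}] :
    sgB σ h⁻¹ j * sgB σ h j = 1 := by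
  rw [← sgB_mul hh, Matrix.nonsing_inv_mul _ hu, sgB_one]

theorem det_sgB (σ : Shp I α β) (h : Matrix I I R) (j : ℕ)
    [Fintype {a : α // j + 1 ≤ σ.lam a}] [DecidableEq {a : α // j + 1 ≤ σ.lam a}] :
    (sgB σ h j).det = (hge σ h (j + 1)).det := by
  rw [sgB, Matrix.det_fromBlocks_zero₂₁, Matrix.det_one, mul_one]

/-- `Sig_j` of the base change -/
theorem SigM_bc (σ : Shp I α β) (s : RSt R I α β) {h : Matrix I I R} (hh : IsDg σ h)
    (hu : IsUnit h.det) (j : ℕ) [Fintype {a : α // j + 1 ≤ σ.lam a}]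
    [DecidableEq {a : α // j + 1 ≤ σ.lam a}] :
    SigM σ (bc s h) j = sgB σ h⁻¹ j * SigM σ s j * hge σ h j := by
  rw [Matrix.mul_assoc, SigM, SigM, Matrix.fromRows_mul, sgB, Matrix.fromBlocks_mul_fromRows]
  congr 1
  · rw [Matrix.zero_mul, add_zero, ← Matrix.mul_assoc]
    ext p q
    show (h⁻¹ * s.1 * h) p.1 q.1 = _
    rw [Matrix.mul_apply, Matrix.mul_apply, sum_sub_of (P := fun i => j ≤ σ.deg i)]
    · refine Finset.sum_congr rfl fun i _ => ?_
      have e1 : (h⁻¹ * s.1) p.1 i.1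
          = (hge σ h⁻¹ (j + 1) * s.1.submatrix (Subtype.val : {p : I // j + 1 ≤ σ.deg p} → I)
              (Subtype.val : {q : I // j ≤ σ.deg q} → I) :
              Matrix {p : I // j + 1 ≤ σ.deg p} {q : I // j ≤ σ.deg q} R) p i := by
        rw [Matrix.mul_apply, Matrix.mul_apply, sum_sub_of (P := fun i => j + 1 ≤ σ.deg i)]
        · rfl
        · intro r hr
          rw [(hh.inv hu) p.1 r (by have := p.2; omega), zero_mul]
      rw [e1]
      rfl
    · intro i hi
      rw [hh i q.1 (by have := q.2; omega), mul_zero]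
  · rw [Matrix.zero_mul, zero_add, Matrix.one_mul]
    ext a q
    show (s.2.1 * h) a.1 q.1 = _
    rw [Matrix.mul_apply, Matrix.mul_apply, sum_sub_of (P := fun i => j ≤ σ.deg i)]
    · rfl
    · intro i hi
      rw [hh i q.1 (by have := q.2; omega), mul_zero]

theorem bc_one (s : RSt R I α β) : bc s (1 : Matrix I I R) = s := by
  simp [bc]

theorem bc_bc (s : RSt R I α β) (g h : Matrix I I R) : bc (bc s g) h = bc s (g * h) := by
  simp only [bc, Matrix.mul_inv_rev, Matrix.mul_assoc]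

end bc

section map

variable {R S I α β γ : Type} [CommRing R] [CommRing S] [Fintype I] [DecidableEq I]

omit [Fintype I] [DecidableEq I] in
theorem IsSt.map {σ : Shp I α β} {s : RSt R I α β} (hs : IsSt σ s) (φ : R →+* S) :
    IsSt σ (smap φ s) :=
  ⟨fun p q h => by show φ (s.1 p q) = 0; rw [hs.c p q h, map_zero],
    fun p q h => by show φ (s.2.1 p q) = 0; rw [hs.rho p q h, map_zero],
    fun p q h => by show φ (s.2.2 p q) = 0; rw [hs.tau p q h, map_zero]⟩

omit [Fintype I] [DecidableEq I] in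
theorem IsSt.of_map {σ : Shp I α β} {s : RSt R I α β} {φ : R →+* S}
    (hφ : Function.Injective φ) (hs : IsSt σ (smap φ s)) : IsSt σ s :=
  ⟨fun p q h => hφ (by rw [map_zero]; exact hs.c p q h),
    fun p q h => hφ (by rw [map_zero]; exact hs.rho p q h),
    fun p q h => hφ (by rw [map_zero]; exact hs.tau p q h)⟩

theorem evM_map (φ : R →+* S) (k : γ → ℕ) (f : Matrix γ I R) (C : Matrix I I R) :
    evM k (f.map φ) (C.map φ) = (evM k f C).map φ := by
  ext ci q
  show ((f.map φ) * (C.map φ) ^ (k ci.1 - 1 - (ci.2 : ℕ))) ci.1 q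
    = φ ((f * C ^ (k ci.1 - 1 - (ci.2 : ℕ))) ci.1 q)
  have h1 : (C.map φ) ^ (k ci.1 - 1 - (ci.2 : ℕ)) = (C ^ (k ci.1 - 1 - (ci.2 : ℕ))).map φ := by
    have := map_pow (RingHom.mapMatrix φ) C (k ci.1 - 1 - (ci.2 : ℕ))
    simpa only [RingHom.mapMatrix_apply] using this.symm
  rw [h1, ← Matrix.map_mul]
  rfl

theorem RM_map (φ : R →+* S) (σ : Shp I α β) (s : RSt R I α β) :
    RM σ (smap φ s) = (RM σ s).map φ := evM_map φ σ.lam s.2.1 s.1

theorem MM_map (φ : R →+* S) (σ : Shp I α β) (s : RSt R I α β) :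
    MM σ (smap φ s) = (MM σ s).map φ := evM_map φ σ.mu s.2.2 s.1

omit [Fintype I] [DecidableEq I] in
theorem SigM_map (φ : R →+* S) (σ : Shp I α β) (s : RSt R I α β) (j : ℕ) :
    SigM σ (smap φ s) j = (SigM σ s j).map φ := by
  ext p q
  rcases p with p | a
  · rfl
  · rfl

theorem TM_map (φ : R →+* S) (σ : Shp I α β) (s : RSt R I α β) (j : ℕ) :
    TM σ (smap φ s) j = (TM σ s j).map φ := by
  ext b q
  show ((s.2.2.map φ) * (s.1.map φ) ^ (σ.mu b.1 - 1 - j)) b.1 q.1
    = φ ((s.2.2 * s.1 ^ (σ.mu b.1 - 1 - j)) b.1 q.1)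
  have h1 : (s.1.map φ) ^ (σ.mu b.1 - 1 - j) = (s.1 ^ (σ.mu b.1 - 1 - j)).map φ := by
    have := map_pow (RingHom.mapMatrix φ) s.1 (σ.mu b.1 - 1 - j)
    simpa only [RingHom.mapMatrix_apply] using this.symm
  rw [h1, ← Matrix.map_mul]
  rfl

end map

section cont

variable {R I α β γ : Type} [CommRing R] [TopologicalSpace R] [IsTopologicalRing R]
  [Fintype I] [DecidableEq I]

theorem continuous_evM_row (n : ℕ) :
    Continuous (fun x : Matrix γ I R × Matrix I I R => x.1 * x.2 ^ n) := by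
  have h1 : Continuous (fun x : Matrix γ I R × Matrix I I R => x.2 ^ n) :=
    continuous_snd.pow n
  exact continuous_fst.matrix_mul h1

theorem continuous_RM (σ : Shp I α β) :
    Continuous (fun s : RSt R I α β => RM σ s) := by
  refine continuous_matrix fun ci q => ?_
  have h1 : Continuous (fun s : RSt R I α β => (s.2.1, s.1)) := by fun_prop
  have h2 := (continuous_evM_row (γ := α) (R := R) (I := I)
    (σ.lam ci.1 - 1 - (ci.2 : ℕ))).comp h1
  exact h2.matrix_elem ci.1 q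

theorem continuous_MM (σ : Shp I α β) :
    Continuous (fun s : RSt R I α β => MM σ s) := by
  refine continuous_matrix fun ci q => ?_
  have h1 : Continuous (fun s : RSt R I α β => (s.2.2, s.1)) := by fun_prop
  have h2 := (continuous_evM_row (γ := β) (R := R) (I := I)
    (σ.mu ci.1 - 1 - (ci.2 : ℕ))).comp h1
  exact h2.matrix_elem ci.1 q

theorem continuous_TM (σ : Shp I α β) (j : ℕ) :
    Continuous (fun s : RSt R I α β => TM σ s j) := by
  refine continuous_matrix fun b q => ?_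
  have h1 : Continuous (fun s : RSt R I α β => (s.2.2, s.1)) := by fun_prop
  have h2 := (continuous_evM_row (γ := β) (R := R) (I := I) (σ.mu b.1 - 1 - j)).comp h1
  exact h2.matrix_elem b.1 q.1

omit [CommRing R] [IsTopologicalRing R] [Fintype I] [DecidableEq I] in
theorem continuous_SigM (σ : Shp I α β) (j : ℕ) :
    Continuous (fun s : RSt R I α β => SigM σ s j) := by
  refine continuous_matrix fun p q => ?_
  rcases p with p | a
  · exact (continuous_fst : Continuous (fun s : RSt R I α β => s.1)).matrix_elem p.1 q.1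
  · have h1 : Continuous (fun s : RSt R I α β => s.2.1) := by fun_prop
    exact h1.matrix_elem a.1 q.1

end cont

end Pool.Agent.DEC
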