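import Pool.Agent.DEC.StateA

/-!
States, part C: the determinant `gdet` of a matrix with equally many rows and columns,
its behaviour under base change and scaling (`dec_general.md`, (S5)).
-/

set_option autoImplicit false
set_option linter.unusedSectionVars false

open Matrix

namespace Pool.Agent.DEC

section gd

variable {R : Type} [CommRing R] {m n : Type} [Fintype m] [Fintype n] [DecidableEq n]

theorem gdet_eq (M : Matrix m n R) (h : Fintype.card n = Fintype.card m) :
    gdet M = (M.submatrix (Fintype.equivOfCardEq h) id).det := by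
  rw [gdet, dif_pos h]

theorem gdet_ne (M : Matrix m n R) (h : Fintype.card n ≠ Fintype.card m) : gdet M = 0 := by
  rw [gdet, dif_neg h]

theorem gdet_mul_right (M : Matrix m n R) (N : Matrix n n R) :
    gdet (M * N) = gdet M * N.det := by
  by_cases h : Fintype.card n = Fintype.card m
  · rw [gdet_eq _ h, gdet_eq _ h, submatrix_mul M N _ id id Function.bijective_id,
      submatrix_id_id, det_mul]
  · rw [gdet_ne _ h, gdet_ne _ h, zero_mul]

theorem gdet_mul_left [DecidableEq m] (P : Matrix m m R) (M : Matrix m n R) :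
    gdet (P * M) = P.det * gdet M := by
  by_cases h : Fintype.card n = Fintype.card m
  · rw [gdet_eq _ h, gdet_eq _ h,
      submatrix_mul P M _ (Fintype.equivOfCardEq h) id (Equiv.bijective _), det_mul,
      det_submatrix_equiv_self]
  · rw [gdet_ne _ h, gdet_ne _ h, mul_zero]

theorem gdet_map {R' : Type} [CommRing R'] (f : R →+* R') (M : Matrix m n R) :
    gdet (M.map f) = f (gdet M) := by
  by_cases h : Fintype.card n = Fintype.card m
  · rw [gdet_eq _ h, gdet_eq _ h, RingHom.map_det]
    rfl
  · rw [gdet_ne _ h, gdet_ne _ h, map_zero]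

theorem gdet_isUnit_of_LInv {M : Matrix m n R} (hM : LInv M)
    (h : Fintype.card n = Fintype.card m) : IsUnit (gdet M) := by
  classical
  obtain ⟨Y, hY⟩ := hM
  rw [gdet_eq _ h]
  have h1 : Y.submatrix id (Fintype.equivOfCardEq h) * M.submatrix (Fintype.equivOfCardEq h) id
      = 1 := by
    rw [← submatrix_mul Y M id _ id (Equiv.bijective _), hY]
    rfl
  have h2 := congrArg det h1
  rw [det_mul, det_one, mul_comm] at h2
  exact IsUnit.of_mul_eq_one _ h2

theorem gdet_isUnit_of_RInv [DecidableEq m] {M : Matrix m n R} (hM : RInv M)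
    (h : Fintype.card n = Fintype.card m) : IsUnit (gdet M) := by
  obtain ⟨Y, hY⟩ := hM
  rw [gdet_eq _ h]
  have h1 : M.submatrix (Fintype.equivOfCardEq h) id * Y.submatrix id (Fintype.equivOfCardEq h)
      = 1 := by
    rw [← submatrix_mul M Y _ id _ Function.bijective_id, hY]
    exact submatrix_one_equiv _
  have h2 := congrArg det h1
  rw [det_mul, det_one] at h2
  exact IsUnit.of_mul_eq_one _ h2

theorem gdet_ne_zero_iff {K : Type} [Field K] {M : Matrix m n K}
    (h : Fintype.card n = Fintype.card m) : gdet M ≠ 0 ↔ LInv M := by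
  classical
  constructor
  · intro h0
    rw [gdet_eq _ h] at h0
    obtain ⟨e, he⟩ : ∃ e : n ≃ m, e = Fintype.equivOfCardEq h := ⟨_, rfl⟩
    obtain ⟨N, hN⟩ : ∃ N, N = M.submatrix e id := ⟨_, rfl⟩
    rw [← he, ← hN] at h0
    have h1 : N.submatrix e.symm id = M := by
      ext i j
      simp [hN]
    refine ⟨N⁻¹.submatrix id e.symm, ?_⟩
    have h2 := submatrix_mul N⁻¹ N id e.symm id (Equiv.bijective _)
    rw [nonsing_inv_mul _ (isUnit_iff_ne_zero.mpr h0), h1] at h2
    rw [← h2]
    rfl
  · intro h0
    exact (gdet_isUnit_of_LInv h0 h).ne_zero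

theorem continuous_gdet {K : Type} [CommRing K] [TopologicalSpace K] [IsTopologicalRing K] :
    Continuous (fun M : Matrix m n K => gdet M) := by
  by_cases h : Fintype.card n = Fintype.card m
  · have h1 : (fun M : Matrix m n K => gdet M) =
        fun M => (M.submatrix (Fintype.equivOfCardEq h) id).det := by
      funext M
      exact gdet_eq M h
    rw [h1]
    exact Continuous.matrix_det (continuous_id.matrix_submatrix _ _)
  · have h1 : (fun M : Matrix m n K => gdet M) = fun _ => 0 := by
      funext M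
      exact gdet_ne M h
    rw [h1]
    exact continuous_const

end gd

section sc

variable {R I α β : Type} [CommRing R] [Fintype I] [DecidableEq I] [DecidableEq β]

theorem IsSt.scT {σ : Shp I α β} {s : RSt R I α β} (hs : IsSt σ s) (b : β) (f : R) :
    IsSt σ (scT b f s) := by
  refine ⟨hs.c, hs.rho, fun b' q h => ?_⟩
  simp only [DEC.scT, of_apply]
  split_ifs
  · rw [hs.tau b' q h, mul_zero]
  · exact hs.tau b' q h

theorem SigM_scT (σ : Shp I α β) (s : RSt R I α β) (b : β) (f : R) (j : ℕ) :
    SigM σ (scT b f s) j = SigM σ s j := rfl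

theorem RM_scT (σ : Shp I α β) (s : RSt R I α β) (b : β) (f : R) :
    RM σ (scT b f s) = RM σ s := rfl

theorem scT_mul (b : β) (f : R) (s : RSt R I α β) (C : Matrix I I R) (b' : β) (q : I) :
    ((scT b f s).2.2 * C) b' q = (if b' = b then f else 1) * (s.2.2 * C) b' q := by
  simp only [mul_apply, DEC.scT, of_apply, Finset.mul_sum]
  refine Finset.sum_congr rfl fun p _ => ?_
  split_ifs
  · ring
  · ring

theorem MM_scT (σ : Shp I α β) (s : RSt R I α β) (b : β) (f : R) (c : Blk σ.mu) (q : I) :
    MM σ (scT b f s) c q = (if c.1 = b then f else 1) * MM σ s c q := by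
  simp only [MM, evM, of_apply]
  exact scT_mul b f s _ c.1 q

theorem TM_scT (σ : Shp I α β) (s : RSt R I α β) (b : β) (f : R) (j : ℕ)
    (b' : {b : β // j + 1 ≤ σ.mu b}) (q : {q : I // σ.deg q = j}) :
    TM σ (scT b f s) j b' q = (if b'.1 = b then f else 1) * TM σ s j b' q := by
  simp only [TM, of_apply]
  exact scT_mul b f s _ b'.1 q.1

theorem gdet_TM_scT [Fintype β] (σ : Shp I α β) (s : RSt R I α β) (b : β) (f : R) (j : ℕ) :
    gdet (TM σ (scT b f s) j) = (if j + 1 ≤ σ.mu b then f else 1) * gdet (TM σ s j) := by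
  have h1 : TM σ (scT b f s) j =
      diagonal (fun b' : {b : β // j + 1 ≤ σ.mu b} => if b'.1 = b then f else 1) *
        TM σ s j := by
    ext b' q
    rw [TM_scT, diagonal_mul]
  rw [h1, gdet_mul_left, det_diagonal]
  congr 1
  by_cases hb : j + 1 ≤ σ.mu b
  · rw [if_pos hb, Finset.prod_eq_single ⟨b, hb⟩]
    · simp
    · intro c _ hc
      rw [if_neg]
      intro h
      exact hc (Subtype.ext h)
    · intro h
      exact absurd (Finset.mem_univ _) h
  · rw [if_neg hb]
    refine Finset.prod_eq_one fun c _ => ?_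
    rw [if_neg]
    intro h
    apply hb
    rw [← h]
    exact c.2

end sc

section dg

variable {R I α β : Type} [CommRing R] [Fintype I] [DecidableEq I]

theorem gdet_TM_bc [Fintype β] (σ : Shp I α β) (s : RSt R I α β) {g : Matrix I I R}
    (hg : IsDg σ g) (hu : IsUnit g.det) (j : ℕ) :
    gdet (TM σ (bc s g) j) = gdet (TM σ s j) * (heq σ g j).det := by
  rw [TM_bc' σ s hg hu, gdet_mul_right]

/-- degrees at least `j` = degrees at least `j + 1` and degree `j` -/
def splitE (σ : Shp I α β) (j : ℕ) :
    {q : I // j ≤ σ.deg q} ≃ {q : I // j + 1 ≤ σ.deg q} ⊕ {q : I // σ.deg q = j} where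
  toFun q := if h : j + 1 ≤ σ.deg q.1 then Sum.inl ⟨q.1, h⟩ else
    Sum.inr ⟨q.1, by have := q.2; omega⟩
  invFun := Sum.elim (fun q => ⟨q.1, by have := q.2; omega⟩)
    (fun q => ⟨q.1, by have := q.2; omega⟩)
  left_inv q := by
    by_cases h : j + 1 ≤ σ.deg q.1
    · simp [h]
    · simp [h]
  right_inv q := by
    rcases q with q | q
    · have := q.2
      simp [this]
    · have := q.2
      have h : ¬ j + 1 ≤ σ.deg q.1 := by omega
      simp [h]

theorem det_hge {σ : Shp I α β} {g : Matrix I I R} (hg : IsDg σ g) (j : ℕ) :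
    (hge σ g j).det = (hge σ g (j + 1)).det * (heq σ g j).det := by
  have h1 : (hge σ g j).submatrix (splitE σ j).symm (splitE σ j).symm =
      fromBlocks (hge σ g (j + 1)) 0 0 (heq σ g j) := by
    ext p q
    rcases p with p | p <;> rcases q with q | q
    · rfl
    · have h2 : σ.deg p.1 ≠ σ.deg q.1 := by
        have := p.2
        have := q.2
        omega
      exact hg p.1 q.1 h2
    · have h2 : σ.deg p.1 ≠ σ.deg q.1 := by
        have := p.2
        have := q.2
        omega
      exact hg p.1 q.1 h2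
    · rfl
  rw [← det_submatrix_equiv_self (splitE σ j).symm, h1, det_fromBlocks_zero₂₁]

theorem gdet_SigM_bc [Fintype α] [DecidableEq α] (σ : Shp I α β) (s : RSt R I α β)
    {g : Matrix I I R} (hg : IsDg σ g) (hu : IsUnit g.det) (j : ℕ) :
    gdet (SigM σ (bc s g) j) = gdet (SigM σ s j) * (heq σ g j).det := by
  rw [SigM_bc σ s hg hu, gdet_mul_right, gdet_mul_left, det_sgB, det_hge hg]
  have h1 : (hge σ g⁻¹ (j + 1)).det * (hge σ g (j + 1)).det = 1 := by
    rw [← det_mul, hge_inv_mul hg hu, det_one]
  calc _ = (hge σ g⁻¹ (j + 1)).det * (hge σ g (j + 1)).det *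
        (gdet (SigM σ s j) * (heq σ g j).det) := by ring
    _ = _ := by rw [h1, one_mul]

/-- card of the row index of `SigM` = card of the column index -/
theorem card_SigM [Fintype α] {σ : Shp I α β} {j : ℕ}
    (h : Fintype.card {a : α // j + 1 ≤ σ.lam a} = Fintype.card {q : I // σ.deg q = j}) :
    Fintype.card {q : I // j ≤ σ.deg q} =
      Fintype.card ({p : I // j + 1 ≤ σ.deg p} ⊕ {a : α // j + 1 ≤ σ.lam a}) := by
  rw [Fintype.card_congr (splitE σ j), Fintype.card_sum, Fintype.card_sum, h]

end dg

end Pool.Agent.DEC
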