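import Pool.Agent.DEC.MF
import Pool.Agent.DEC.StateA
import Pool.Agent.DEC.StateC

/-!
# DEC, module C3: from the finite certificate to the open set of states

The abstract part: the quotient of two determinants is close to the prescribed unit.
-/

set_option autoImplicit false

namespace Pool.Agent.DEC.C3

/-- `F S = theta ^ L Dl T` modulo `n ^ c` gives `T / S` close to `F / (Dl theta ^ L)` -/
theorem ratio_close {K : Type*} [Field K] (OO : Subring K) {n : ℕ} (hn : (n : K) ≠ 0) {θ : K}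
    (hθ0 : θ ≠ 0) (hθ : θ⁻¹ ∈ OO) {c c1 e e1 : ℕ} (hc : c1 + e + 2 * e1 ≤ c) {F F' Dl S T : K}
    {L H : ℕ} (hF : F * F' = Dl ^ 2 * θ ^ (2 * L)) (hF' : F' ∈ OO)
    (hDl : ∃ w ∈ OO, Dl * w = (n : K) ^ e1) (hS : ∃ w ∈ OO, S * w = (n : K) ^ e)
    (hcong : ∃ w ∈ OO, θ ^ H * (F * S - θ ^ L * Dl * T) = (n : K) ^ c * w) :
    ∃ w ∈ OO, T / S / (F / (Dl * θ ^ L)) = 1 + (n : K) ^ c1 * w := by
  obtain ⟨a, ha, hDl⟩ := hDl
  obtain ⟨s, hs, hS⟩ := hS
  obtain ⟨w, hw, hcong⟩ := hcong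
  obtain ⟨r, rfl⟩ := Nat.exists_eq_add_of_le hc
  have hDl0 : Dl ≠ 0 := by
    rintro rfl
    rw [zero_mul] at hDl
    exact pow_ne_zero _ hn hDl.symm
  have hS0 : S ≠ 0 := by
    rintro rfl
    rw [zero_mul] at hS
    exact pow_ne_zero _ hn hS.symm
  have ha0 : a ≠ 0 := by
    rintro rfl
    rw [mul_zero] at hDl
    exact pow_ne_zero _ hn hDl.symm
  have hs0 : s ≠ 0 := by
    rintro rfl
    rw [mul_zero] at hS
    exact pow_ne_zero _ hn hS.symm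
  have hF0 : F ≠ 0 := by
    rintro rfl
    rw [zero_mul] at hF
    exact (mul_ne_zero (pow_ne_zero _ hDl0) (pow_ne_zero _ hθ0)) hF.symm
  have hF'0 : F' ≠ 0 := by
    rintro rfl
    rw [mul_zero] at hF
    exact (mul_ne_zero (pow_ne_zero _ hDl0) (pow_ne_zero _ hθ0)) hF.symm
  refine ⟨-((n : K) ^ r * w * F' * a ^ 2 * s * θ⁻¹ ^ (H + 2 * L)), ?_, ?_⟩
  · refine OO.neg_mem (OO.mul_mem (OO.mul_mem (OO.mul_mem (OO.mul_mem (OO.mul_mem ?_ hw) hF')
      (OO.pow_mem ha 2)) hs) (OO.pow_mem hθ _))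
    exact OO.pow_mem (natCast_mem OO n) r
  · -- the value of the difference
    have q1 : T / S / (F / (Dl * θ ^ L)) = 1 - (F * S - θ ^ L * Dl * T) * (F * S)⁻¹ := by
      field_simp
      ring
    have q2 : F * S - θ ^ L * Dl * T = (n : K) ^ (c1 + e + 2 * e1 + r) * w * θ⁻¹ ^ H := by
      rw [← hcong, inv_pow]
      field_simp
    have q3 : (F * S)⁻¹ = F' * a ^ 2 * s * θ⁻¹ ^ (2 * L) * ((n : K) ^ (e + 2 * e1))⁻¹ := by
      have h1 : F * S * (F' * a ^ 2 * s * θ⁻¹ ^ (2 * L)) = (n : K) ^ (e + 2 * e1) := by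
        calc F * S * (F' * a ^ 2 * s * θ⁻¹ ^ (2 * L))
            = (F * F') * (S * s) * a ^ 2 * θ⁻¹ ^ (2 * L) := by ring
          _ = (Dl * a) ^ 2 * (S * s) * (θ ^ (2 * L) * θ⁻¹ ^ (2 * L)) := by rw [hF]; ring
          _ = ((n : K) ^ e1) ^ 2 * (n : K) ^ e := by
              rw [hDl, hS, ← mul_pow, mul_inv_cancel₀ hθ0, one_pow, mul_one]
          _ = (n : K) ^ (e + 2 * e1) := by ring
      have h2 : (n : K) ^ (e + 2 * e1) ≠ 0 := pow_ne_zero _ hn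
      have h3 : F * S ≠ 0 := mul_ne_zero hF0 hS0
      rw [← h1]
      field_simp
    rw [q1, q2, q3]
    have h2 : (n : K) ^ (e + 2 * e1) ≠ 0 := pow_ne_zero _ hn
    have q4 : (n : K) ^ (c1 + e + 2 * e1 + r) = (n : K) ^ c1 * (n : K) ^ r * (n : K) ^ (e + 2 * e1) := by
      ring
    rw [q4]
    have q5 : θ⁻¹ ^ (H + 2 * L) = θ⁻¹ ^ H * θ⁻¹ ^ (2 * L) := pow_add _ _ _
    rw [q5]
    field_simp
    ring

section

variable {S K : Type} [CommRing S] [Field K] [Algebra S K]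

theorem inv_mem_locDT {n : ℕ} {θ : S} (hθ : algebraMap S K θ ≠ 0) :
    (algebraMap S K θ)⁻¹ ∈ locDT S K n θ :=
  ⟨1, one_ne_zero, Nat.coprime_one_left n, 1, 1, by simp [hθ]⟩

theorem mem_locDT {n : ℕ} {θ : S} (x : S) : algebraMap S K x ∈ locDT S K n θ :=
  ⟨1, one_ne_zero, Nat.coprime_one_left n, 0, x, by simp⟩

theorem inv_mem_locOT {n : ℕ} {θ : S} (hθ : algebraMap S K θ ≠ 0) :
    (algebraMap S K θ)⁻¹ ∈ locOT S K n θ :=
  ⟨0, 1, 1, by simp [hθ]⟩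

theorem mem_locOT {n : ℕ} {θ : S} (x : S) : algebraMap S K x ∈ locOT S K n θ :=
  ⟨0, 0, x, by simp⟩

theorem nat_inv_mem_locOT {n : ℕ} {θ : S} (hn : (n : K) ≠ 0) :
    (n : K)⁻¹ ∈ locOT S K n θ :=
  ⟨1, 0, 1, by simp [hn]⟩

/-- one level: the unit and the quotient -/
theorem unit_of_uni {I α β : Type} [Fintype I] [DecidableEq I] [Fintype α] [Fintype β]
    [DecidableEq β] (σ : Shp I α β) (s : RSt S I α β) (j : ℕ) {n : ℕ} (hn : (n : K) ≠ 0) {θ : S}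
    (hθ : algebraMap S K θ ≠ 0) {c c1 e e1 : ℕ} (hc : c1 + e + 2 * e1 ≤ c) {Dl : ℕ}
    (hDl : Dl ∣ n ^ e1)
    (hS : ∃ w ∈ locDT S K n θ,
      gdet (SigM σ (smap (algebraMap S K) s) j) * w = (n : K) ^ e)
    {F F' : S} {L k : ℕ} (hF : F * F' = (Dl : S) ^ 2 * θ ^ (2 * L))
    (hcong : ∃ w, θ ^ k * (F * gdet (SigM σ s j) - θ ^ L * (Dl : S) * gdet (TM σ s j)) =
      ((n ^ c : ℕ) : S) * w) :
    ∃ u : K, u ∈ locOT S K n θ ∧ u⁻¹ ∈ locOT S K n θ ∧ u ≠ 0 ∧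
      ∃ w, Sm n (locDT S K n θ) c1 (w - 1) ∧
        gdet (TM σ (smap (algebraMap S K) s) j) =
          w * u * gdet (SigM σ (smap (algebraMap S K) s) j) := by
  set φ := algebraMap S K with hφ
  have hgS : gdet (SigM σ (smap φ s) j) = φ (gdet (SigM σ s j)) := by
    rw [SigM_map, gdet_map]
  have hgT : gdet (TM σ (smap φ s) j) = φ (gdet (TM σ s j)) := by
    rw [TM_map, gdet_map]
  obtain ⟨a, ha⟩ := hDl
  have ha' : (Dl : K) * (a : K) = (n : K) ^ e1 := by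
    rw [← Nat.cast_mul, ← ha, Nat.cast_pow]
  have hDl0 : (Dl : K) ≠ 0 := by
    intro h
    rw [h, zero_mul] at ha'
    exact pow_ne_zero _ hn ha'.symm
  have hF2 : φ F * φ F' = (Dl : K) ^ 2 * φ θ ^ (2 * L) := by
    rw [← map_mul, hF]
    simp
  have hF0 : φ F ≠ 0 := by
    intro h
    rw [h, zero_mul] at hF2
    exact (mul_ne_zero (pow_ne_zero _ hDl0) (pow_ne_zero _ hθ)) hF2.symm
  have hcong2 : ∃ w ∈ locDT S K n θ, φ θ ^ k * (φ F * φ (gdet (SigM σ s j)) -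
      φ θ ^ L * (Dl : K) * φ (gdet (TM σ s j))) = (n : K) ^ c * w := by
    obtain ⟨w, hw⟩ := hcong
    refine ⟨φ w, mem_locDT w, ?_⟩
    have := congrArg φ hw
    simpa using this
  rw [hgS] at hS
  have hS0 : φ (gdet (SigM σ s j)) ≠ 0 := by
    intro h
    obtain ⟨w, -, hw⟩ := hS
    rw [h, zero_mul] at hw
    exact pow_ne_zero _ hn hw.symm
  obtain ⟨w, hw, hq⟩ := ratio_close (locDT S K n θ) hn hθ (inv_mem_locDT hθ) hc hF2
    (mem_locDT F') ⟨(a : K), natCast_mem _ a, ha'⟩ hS hcong2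
  have hDi : (Dl : K)⁻¹ ∈ locOT S K n θ := by
    have : (Dl : K)⁻¹ = (a : K) * (n : K)⁻¹ ^ e1 := by
      rw [inv_pow, ← ha']
      have ha0 : (a : K) ≠ 0 := by
        intro h
        rw [h, mul_zero] at ha'
        exact pow_ne_zero _ hn ha'.symm
      field_simp
    rw [this]
    exact (locOT S K n θ).mul_mem (natCast_mem _ a)
      ((locOT S K n θ).pow_mem (nat_inv_mem_locOT hn) _)
  have hdiv : ∀ x : S, φ x / ((Dl : K) * φ θ ^ L) ∈ locOT S K n θ := by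
    intro x
    have : φ x / ((Dl : K) * φ θ ^ L) = φ x * ((Dl : K)⁻¹ * (φ θ)⁻¹ ^ L) := by
      rw [inv_pow, div_eq_mul_inv, mul_inv]
    rw [this]
    exact (locOT S K n θ).mul_mem (mem_locOT x)
      ((locOT S K n θ).mul_mem hDi ((locOT S K n θ).pow_mem (inv_mem_locOT hθ) _))
  have hu0 : φ F / ((Dl : K) * φ θ ^ L) ≠ 0 :=
    div_ne_zero hF0 (mul_ne_zero hDl0 (pow_ne_zero _ hθ))
  refine ⟨φ F / ((Dl : K) * φ θ ^ L), hdiv F, ?_, hu0,
    φ (gdet (TM σ s j)) / φ (gdet (SigM σ s j)) / (φ F / ((Dl : K) * φ θ ^ L)), ?_, ?_⟩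
  · have : (φ F / ((Dl : K) * φ θ ^ L))⁻¹ = φ F' / ((Dl : K) * φ θ ^ L) := by
      apply inv_eq_of_mul_eq_one_right
      rw [div_mul_div_comm, hF2]
      have h1 : (Dl : K) * φ θ ^ L ≠ 0 := mul_ne_zero hDl0 (pow_ne_zero _ hθ)
      rw [div_eq_one_iff_eq (mul_ne_zero h1 h1)]
      ring
    rw [this]
    exact hdiv F'
  · exact ⟨w, hw, by rw [hq]; ring⟩
  · rw [hgS, hgT]
    rw [div_mul_cancel₀ _ hu0, div_mul_cancel₀ _ hS0]

end

section

variable {F : Type} {S K : F → Type} [∀ i, CommRing (S i)]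
  [∀ i, Field (K i)] [∀ i, Algebra ℚ (K i)] [∀ i, Algebra (S i) (K i)]
  {I α β : F → Type} [∀ i, Fintype (I i)] [∀ i, DecidableEq (I i)] [∀ i, Fintype (α i)]
  [∀ i, Fintype (β i)] [∀ i, DecidableEq (β i)]

/-- **C3**: the image of a state over the rings `S i`, for which the integral identities give
`Loc`, injectivity, surjectivity and a bound for the determinants, and for which the unit
condition holds modulo `n ^ c`, lies in the set `U_u` for suitable units `u` -/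
theorem inU_of_uni {n : ℕ} (hn : n ≠ 0) {θ : ∀ i, S i}
    (hθ : ∀ i, algebraMap (S i) (K i) (θ i) ≠ 0) (σ : ∀ i, Shp (I i) (α i) (β i))
    (GV : AddSubgroup (∀ i, Blk (σ i).lam → K i)) (GW : AddSubgroup (∀ i, Blk (σ i).mu → K i))
    (s : ∀ i, RSt (S i) (I i) (α i) (β i)) {c c1 e e1 : ℕ} (hc : c1 + e + 2 * e1 ≤ c) {Dl : ℕ}
    (hDl : Dl ∣ n ^ e1) (hst : ∀ i, IsSt (σ i) (s i))
    (hinj : ∀ i, LInv (RM (σ i) (smap (algebraMap (S i) (K i)) (s i))))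
    (hsurj : ∀ i, RInv (MM (σ i) (smap (algebraMap (S i) (K i)) (s i))))
    (hloc : Loc (mR σ fun i => smap (algebraMap (S i) (K i)) (s i))
      (mW σ fun i => smap (algebraMap (S i) (K i)) (s i)) (locAt n GV) (locAt n GW))
    (hS : ∀ i j, Sat (σ i) j → ∃ w ∈ locDT (S i) (K i) n (θ i),
      gdet (SigM (σ i) (smap (algebraMap (S i) (K i)) (s i)) j) * w = (n : K i) ^ e)
    (hU : ∀ i j, Sat (σ i) j → ∃ (F F' : S i) (L k : ℕ),
      F * F' = (Dl : S i) ^ 2 * θ i ^ (2 * L) ∧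
      ∃ w, θ i ^ k * (F * gdet (SigM (σ i) (s i) j) -
        θ i ^ L * (Dl : S i) * gdet (TM (σ i) (s i) j)) = ((n ^ c : ℕ) : S i) * w) :
    ∃ u : ∀ i, ℕ → K i,
      (∀ i j, Sat (σ i) j → u i j ∈ locOT (S i) (K i) n (θ i) ∧
        (u i j)⁻¹ ∈ locOT (S i) (K i) n (θ i) ∧ u i j ≠ 0) ∧
      InU n c1 (fun i => locDT (S i) (K i) n (θ i)) σ GV GW u
        (fun i => smap (algebraMap (S i) (K i)) (s i)) := by
  classical
  have key : ∀ i j, Sat (σ i) j → ∃ u : K i, u ∈ locOT (S i) (K i) n (θ i) ∧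
      u⁻¹ ∈ locOT (S i) (K i) n (θ i) ∧ u ≠ 0 ∧
      ∃ w, Sm n (locDT (S i) (K i) n (θ i)) c1 (w - 1) ∧
        gdet (TM (σ i) (smap (algebraMap (S i) (K i)) (s i)) j) =
          w * u * gdet (SigM (σ i) (smap (algebraMap (S i) (K i)) (s i)) j) := by
    intro i j hj
    have hni : (n : K i) ≠ 0 := by
      rw [← map_natCast (algebraMap ℚ (K i)) n]
      rw [Ne, map_eq_zero_iff _ (algebraMap ℚ (K i)).injective]
      exact Nat.cast_ne_zero.mpr hn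
    obtain ⟨F, F', L, k, hF, hcong⟩ := hU i j hj
    exact unit_of_uni (σ i) (s i) j hni (hθ i) hc hDl (hS i j hj) hF hcong
  choose u hu using key
  refine ⟨fun i j => if h : Sat (σ i) j then u i j h else 1, ?_, ?_⟩
  · intro i j hj
    simp only [dif_pos hj]
    exact ⟨(hu i j hj).1, (hu i j hj).2.1, (hu i j hj).2.2.1⟩
  · refine ⟨fun i => (hst i).map _, hinj, hsurj, hloc, ?_⟩
    intro i j hj
    simp only [dif_pos hj]
    exact (hu i j hj).2.2.2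

end

end Pool.Agent.DEC.C3
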