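import Mathlib

/-!
# MP_59dda0_an, DEC: good frames of lattices

`R` a domain with an element `Q` such that every nonzero ideal `I` contains `y ≠ 0` with
`Q I ⊆ y R` (for `R = ℤ[θ]` this is the box lemma).  Then every finitely generated torsion free
module `X` over `R` has linearly independent vectors `b 0, ..., b (r-1)` with
`Q ^ r X ⊆ ∑ R b i`.
-/

set_option autoImplicit false
set_option linter.unusedSectionVars false

namespace Pool.Agent.DEC

/-- every nonzero ideal is principal up to the factor `Q` -/
def QPrin (R : Type*) [CommRing R] (Q : R) : Prop :=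
  ∀ I : Ideal R, I ≠ ⊥ → ∃ y ∈ I, y ≠ 0 ∧ ∀ z ∈ I, ∃ c, Q * z = c * y

section

variable {R : Type*} [CommRing R] [IsDomain R] [IsNoetherianRing R]

/-- the saturation of the line spanned by `x` -/
def lineSat {X : Type*} [AddCommGroup X] [Module R X] (x : X) : Submodule R X where
  carrier := {z | ∃ a : R, a ≠ 0 ∧ ∃ c : R, a • z = c • x}
  add_mem' := by
    rintro z w ⟨a, ha, c, h⟩ ⟨a', ha', c', h'⟩
    refine ⟨a * a', mul_ne_zero ha ha', a' * c + a * c', ?_⟩
    rw [smul_add, add_smul]
    congr 1
    · rw [mul_comm a a', mul_smul, h, ← mul_smul]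
    · rw [mul_smul, h', ← mul_smul]
  zero_mem' := ⟨1, one_ne_zero, 0, by simp⟩
  smul_mem' := by
    rintro b z ⟨a, ha, c, h⟩
    refine ⟨a, ha, b * c, ?_⟩
    rw [← mul_smul, mul_comm a b, mul_smul, h, ← mul_smul]

theorem mem_lineSat {X : Type*} [AddCommGroup X] [Module R X] {x z : X} :
    z ∈ lineSat (R := R) x ↔ ∃ a : R, a ≠ 0 ∧ ∃ c : R, a • z = c • x := Iff.rfl

/-- the rank one case -/
theorem exists_line {Q : R} (hQ : QPrin R Q) {X : Type*} [AddCommGroup X] [Module R X]
    [Module.Finite R X] [Module.IsTorsionFree R X] {x : X} (hx : x ≠ 0) :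
    ∃ b ∈ lineSat (R := R) x, b ≠ 0 ∧ ∀ z ∈ lineSat (R := R) x, ∃ c : R, Q • z = c • b := by
  classical
  have : IsNoetherian R X := isNoetherian_of_isNoetherianRing_of_finite R X
  -- a common denominator
  obtain ⟨S, hS⟩ := (IsNoetherian.noetherian (lineSat (R := R) x) : (lineSat (R := R) x).FG)
  have hden : ∃ a : R, a ≠ 0 ∧ ∀ z ∈ lineSat (R := R) x, ∃ c : R, a • z = c • x := by
    have h1 : ∀ T : Finset X, (∀ z ∈ T, z ∈ lineSat (R := R) x) →
        ∃ a : R, a ≠ 0 ∧ ∀ z ∈ Submodule.span R (T : Set X), ∃ c : R, a • z = c • x := by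
      intro T
      induction T using Finset.induction_on with
      | empty =>
        intro _
        refine ⟨1, one_ne_zero, ?_⟩
        intro z hz
        rw [Finset.coe_empty, Submodule.span_empty, Submodule.mem_bot] at hz
        exact ⟨0, by simp [hz]⟩
      | insert w T hw ih =>
        intro hT
        obtain ⟨a, ha, h⟩ := ih fun z hz => hT z (Finset.mem_insert_of_mem hz)
        obtain ⟨a', ha', c', h'⟩ := hT w (Finset.mem_insert_self _ _)
        refine ⟨a * a', mul_ne_zero ha ha', ?_⟩
        intro z hz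
        rw [Finset.coe_insert, Submodule.mem_span_insert] at hz
        obtain ⟨s, t, ht, rfl⟩ := hz
        obtain ⟨c, hc⟩ := h t ht
        refine ⟨a * (s * c') + a' * c, ?_⟩
        rw [smul_add, add_smul]
        congr 1
        · rw [mul_smul, smul_comm a' s w, h', ← mul_smul, ← mul_smul, mul_assoc]
        · rw [mul_comm a a', mul_smul, hc, ← mul_smul]
    obtain ⟨a, ha, h⟩ := h1 S fun z hz => by
      rw [← hS]; exact Submodule.subset_span hz
    exact ⟨a, ha, fun z hz => h z (by rw [hS]; exact hz)⟩
  obtain ⟨a, ha, hden⟩ := hden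
  -- the ideal
  let I : Ideal R :=
    { carrier := {c | ∃ z ∈ lineSat (R := R) x, a • z = c • x}
      add_mem' := by
        rintro c c' ⟨z, hz, h⟩ ⟨z', hz', h'⟩
        exact ⟨z + z', add_mem hz hz', by rw [smul_add, add_smul, h, h']⟩
      zero_mem' := ⟨0, zero_mem _, by simp⟩
      smul_mem' := by
        rintro r c ⟨z, hz, h⟩
        exact ⟨r • z, Submodule.smul_mem _ _ hz, by
          rw [smul_comm, h, smul_eq_mul, mul_smul]⟩ }
  have haI : a ∈ I := ⟨x, ⟨1, one_ne_zero, 1, rfl⟩, rfl⟩
  have hI : I ≠ ⊥ := fun h => ha (by rw [h] at haI; exact haI)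
  obtain ⟨y, hyI, hy, hyQ⟩ := hQ I hI
  obtain ⟨b, hb, hab⟩ := hyI
  refine ⟨b, hb, ?_, ?_⟩
  · rintro rfl
    rw [smul_zero] at hab
    exact (smul_ne_zero hy hx) hab.symm
  · intro z hz
    obtain ⟨c, hc⟩ := hden z hz
    obtain ⟨c', hc'⟩ := hyQ c ⟨z, hz, hc⟩
    refine ⟨c', ?_⟩
    have h1 : a • (Q • z) = a • (c' • b) := by
      rw [smul_comm a Q z, hc, ← mul_smul, hc', mul_smul, ← hab, smul_comm]
    exact smul_right_injective X ha h1

/-- good frames, by the number of generators -/
theorem good_frame_aux {Q : R} (hQ : QPrin R Q) : ∀ (n : ℕ) (X : Type _) [AddCommGroup X]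
    [Module R X] [Module.IsTorsionFree R X] (v : Fin n → X),
    Submodule.span R (Set.range v) = ⊤ →
    ∃ (r : ℕ) (b : Fin r → X), r ≤ n ∧ LinearIndependent R b ∧
      ∀ z : X, ∃ c : Fin r → R, Q ^ r • z = ∑ i, c i • b i := by
  intro n
  classical
  induction n with
  | zero =>
    intro X _ _ _ v hv
    refine ⟨0, Fin.elim0, le_rfl, linearIndependent_empty_type, ?_⟩
    intro z
    have : z ∈ (⊤ : Submodule R X) := trivial
    rw [← hv, Set.range_eq_empty, Submodule.span_empty, Submodule.mem_bot] at this
    exact ⟨Fin.elim0, by simp [this]⟩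
  | succ n ih =>
    intro X _ _ _ v hv
    have hfin : Module.Finite R X := ⟨(Finset.univ.image v), by simpa using hv⟩
    by_cases h0 : v 0 = 0
    · -- the first generator is superfluous
      have hv' : Submodule.span R (Set.range fun i : Fin n => v i.succ) = ⊤ := by
        rw [← hv]
        apply le_antisymm
        · exact Submodule.span_mono (by rintro _ ⟨i, rfl⟩; exact ⟨i.succ, rfl⟩)
        · rw [Submodule.span_le]
          rintro _ ⟨i, rfl⟩
          refine Fin.cases ?_ ?_ i
          · rw [h0]; exact zero_mem _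
          · intro j; exact Submodule.subset_span ⟨j, rfl⟩
      obtain ⟨r, b, hr, hb, hz⟩ := ih X (fun i => v i.succ) hv'
      exact ⟨r, b, by omega, hb, hz⟩
    · obtain ⟨b0, hb0, hb0ne, hline⟩ := exists_line hQ h0
      let L : Submodule R X := lineSat (R := R) (v 0)
      have htf : Module.IsTorsionFree R (X ⧸ L) := by
        rw [Module.isTorsionFree_iff_smul_eq_zero]
        intro a z h
        obtain ⟨z, rfl⟩ := Submodule.Quotient.mk_surjective L z
        by_cases ha : a = 0
        · exact Or.inl ha
        · right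
          rw [← Submodule.Quotient.mk_smul, Submodule.Quotient.mk_eq_zero] at h
          obtain ⟨a', ha', c, hc⟩ := h
          rw [Submodule.Quotient.mk_eq_zero]
          exact ⟨a' * a, mul_ne_zero ha' ha, c, by rw [mul_smul, hc]⟩
      have hv' : Submodule.span R (Set.range fun i : Fin n => L.mkQ (v i.succ)) = ⊤ := by
        rw [eq_top_iff]
        rintro z -
        obtain ⟨z, rfl⟩ := Submodule.Quotient.mk_surjective L z
        have hz : z ∈ Submodule.span R (Set.range v) := by rw [hv]; trivial
        have : L.mkQ z ∈ Submodule.map L.mkQ (Submodule.span R (Set.range v)) :=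
          Submodule.mem_map_of_mem hz
        rw [Submodule.map_span] at this
        refine Submodule.span_le.2 ?_ this
        rintro _ ⟨_, ⟨i, rfl⟩, rfl⟩
        refine Fin.cases ?_ ?_ i
        · have : L.mkQ (v 0) = 0 := by
            rw [Submodule.mkQ_apply, Submodule.Quotient.mk_eq_zero]
            exact ⟨1, one_ne_zero, 1, rfl⟩
          rw [this]; exact zero_mem _
        · intro j; exact Submodule.subset_span ⟨j, rfl⟩
      obtain ⟨r, b, hr, hb, hz⟩ := ih (X ⧸ L) (fun i => L.mkQ (v i.succ)) hv'
      -- lifts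
      choose b' hb' using fun i => Submodule.Quotient.mk_surjective L (b i)
      refine ⟨r + 1, Fin.cons b0 b', by omega, ?_, ?_⟩
      · rw [Fintype.linearIndependent_iff]
        intro c hc
        rw [Fin.sum_univ_succ] at hc
        simp only [Fin.cons_zero, Fin.cons_succ] at hc
        have h1 : ∑ i, c (Fin.succ i) • b i = 0 := by
          have h2 := congrArg L.mkQ hc
          rw [map_add, map_smul, map_sum, map_zero] at h2
          have h3 : L.mkQ b0 = 0 := by
            rw [Submodule.mkQ_apply, Submodule.Quotient.mk_eq_zero]; exact hb0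
          rw [h3, smul_zero, zero_add] at h2
          rw [← h2]
          refine Finset.sum_congr rfl fun i _ => ?_
          rw [map_smul, Submodule.mkQ_apply, hb' i]
        have h4 := Fintype.linearIndependent_iff.1 hb _ h1
        simp only [h4, zero_smul, Finset.sum_const_zero, add_zero] at hc
        intro i
        refine Fin.cases ?_ h4 i
        rcases smul_eq_zero.1 hc with h | h
        · exact h
        · exact absurd h hb0ne
      · intro z
        obtain ⟨c, hc⟩ := hz (L.mkQ z)
        have h1 : L.mkQ (Q ^ r • z - ∑ i, c i • b' i) = 0 := by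
          rw [map_sub, map_smul, map_sum, hc, sub_eq_zero]
          refine Finset.sum_congr rfl fun i _ => ?_
          rw [map_smul, Submodule.mkQ_apply, hb' i]
        rw [Submodule.mkQ_apply, Submodule.Quotient.mk_eq_zero] at h1
        obtain ⟨c0, hc0⟩ := hline _ h1
        refine ⟨Fin.cons c0 fun i => Q * c i, ?_⟩
        rw [Fin.sum_univ_succ]
        simp only [Fin.cons_zero, Fin.cons_succ]
        rw [← hc0, smul_sub, Finset.smul_sum, pow_succ, mul_comm, mul_smul]
        simp only [mul_smul]
        abel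

/-- **good frames** -/
theorem good_frame {Q : R} (hQ : QPrin R Q) (X : Type*) [AddCommGroup X]
    [Module R X] [Module.Finite R X] [Module.IsTorsionFree R X] :
    ∃ (r : ℕ) (b : Fin r → X), LinearIndependent R b ∧
      ∀ z : X, ∃ c : Fin r → R, Q ^ r • z = ∑ i, c i • b i := by
  obtain ⟨n, v, hv⟩ := Module.Finite.exists_fin (R := R) (M := X)
  obtain ⟨r, b, -, h⟩ := good_frame_aux hQ n X v hv
  exact ⟨r, b, h⟩

end

end Pool.Agent.DEC
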