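import Pool.Agent.FT.Perron
/-! DEC project (MP_59dda0_an): equality of the entropies of two mixing edge shifts is witnessed by a
positive integer intertwiner, inequality by the row sums of a power. -/
namespace Pool.Agent.DEC
open Matrix Filter Topology
open Pool.Agent.FT (IsPrimitive HasEntropy edgeShift perron_bounds hasEntropy_log cast_pow_entry
  pow_mulVec_eig)

/-- A nonnegative matrix with integer entries. -/
abbrev zM {m n : Type*} (A : Matrix m n ℕ) : Matrix m n ℤ := A.map (Nat.cast : ℕ → ℤ)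

/-- positive real solutions of integer linear equations give positive integer solutions -/
theorem exists_int_pos_sol {ι κ : Type*} [Fintype ι] (c : κ → ι → ℤ) (x : ι → ℝ)
    (hx : ∀ i, 0 < x i) (h : ∀ k, ∑ i, (c k i : ℝ) * x i = 0) :
    ∃ y : ι → ℤ, (∀ i, 0 < y i) ∧ ∀ k, ∑ i, c k i * y i = 0 := by
  classical
  set E : Submodule ℚ ℝ := Submodule.span ℚ (Set.range x) with hE
  have : FiniteDimensional ℚ E := FiniteDimensional.span_of_finite ℚ (Set.finite_range x)
  have hmem : ∀ i, x i ∈ E := fun i => Submodule.subset_span ⟨i, rfl⟩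
  let v : ι → E := fun i => ⟨x i, hmem i⟩
  let bas := Module.finBasis ℚ E
  have hrel : ∀ k, ∑ i, (c k i : ℚ) • v i = 0 := by
    intro k
    apply Subtype.ext
    have := h k
    simp only [Submodule.coe_sum, Submodule.coe_smul, ZeroMemClass.coe_zero, v]
    rw [← this]
    refine Finset.sum_congr rfl fun i _ => ?_
    rw [Rat.smul_def]
    push_cast
    rfl
  -- the coordinates satisfy the equations
  have hcoord : ∀ k t, ∑ i, (c k i : ℚ) * bas.repr (v i) t = 0 := by
    intro k t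
    have := congrArg (fun z => bas.repr z t) (hrel k)
    simpa [Finsupp.finsetSum_apply] using this
  have hsum : ∀ i, x i = ∑ t, ((bas.repr (v i) t : ℚ) : ℝ) * ((bas t : E) : ℝ) := by
    intro i
    have h1 := congrArg (fun z : E => (z : ℝ)) (bas.sum_repr (v i))
    simp only [Submodule.coe_sum, Submodule.coe_smul] at h1
    have h2 : ((v i : E) : ℝ) = x i := rfl
    rw [← h2, ← h1]
    refine Finset.sum_congr rfl fun t _ => ?_
    rw [Rat.smul_def]
  -- a rational point near the basis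
  let U : Set (Fin (Module.finrank ℚ E) → ℝ) :=
    {q | ∀ i, 0 < ∑ t, ((bas.repr (v i) t : ℚ) : ℝ) * q t}
  have hUo : IsOpen U := by
    have : U = ⋂ i, {q | 0 < ∑ t, ((bas.repr (v i) t : ℚ) : ℝ) * q t} := by
      ext q
      simp [U]
    rw [this]
    refine isOpen_iInter_of_finite fun i => ?_
    exact isOpen_lt continuous_const (continuous_finsetSum _ fun t _ =>
      continuous_const.mul (continuous_apply t))
  have hUn : U.Nonempty := ⟨fun t => ((bas t : E) : ℝ), fun i => by rw [← hsum i]; exact hx i⟩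
  have hd : DenseRange (fun (q : Fin (Module.finrank ℚ E) → ℚ) t => ((q t : ℚ) : ℝ)) :=
    DenseRange.piMap fun _ => Rat.denseRange_cast
  obtain ⟨q, hq⟩ := hd.exists_mem_open hUo hUn
  -- the rational solution
  let z : ι → ℚ := fun i => ∑ t, bas.repr (v i) t * q t
  have hz : ∀ i, 0 < z i := by
    intro i
    have := hq i
    have e : ((z i : ℚ) : ℝ) = ∑ t, ((bas.repr (v i) t : ℚ) : ℝ) * ((q t : ℚ) : ℝ) := by
      simp only [z]
      push_cast
      rfl
    rw [← e] at this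
    exact_mod_cast this
  have hz2 : ∀ k, ∑ i, (c k i : ℚ) * z i = 0 := by
    intro k
    simp only [z, Finset.mul_sum]
    rw [Finset.sum_comm]
    refine Finset.sum_eq_zero fun t _ => ?_
    have := hcoord k t
    calc ∑ i, (c k i : ℚ) * (bas.repr (v i) t * q t)
        = (∑ i, (c k i : ℚ) * bas.repr (v i) t) * q t := by
          rw [Finset.sum_mul]
          exact Finset.sum_congr rfl fun i _ => by ring
      _ = 0 := by rw [this, zero_mul]
  -- clear denominators
  let N : ℕ := ∏ i, (z i).den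
  have hN : 0 < N := Finset.prod_pos fun i _ => (z i).den_pos
  have hdvd : ∀ i, (z i).den ∣ N := fun i => Finset.dvd_prod_of_mem _ (Finset.mem_univ i)
  let y : ι → ℤ := fun i => (z i).num * ((N / (z i).den : ℕ) : ℤ)
  have hy : ∀ i, ((y i : ℤ) : ℚ) = z i * N := by
    intro i
    obtain ⟨d, hd⟩ := hdvd i
    have h1 : N / (z i).den = d := by
      rw [hd, Nat.mul_div_cancel_left _ (z i).den_pos]
    simp only [y]
    rw [h1]
    push_cast
    rw [hd]
    push_cast
    have h2 : ((z i).num : ℚ) = z i * (z i).den := (Rat.mul_den_eq_num (z i)).symm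
    rw [h2]
    ring
  refine ⟨y, fun i => ?_, fun k => ?_⟩
  · have h1 : (0 : ℚ) < ((y i : ℤ) : ℚ) := by
      rw [hy i]
      exact mul_pos (hz i) (by exact_mod_cast hN)
    exact_mod_cast h1
  · have h1 : ((∑ i, c k i * y i : ℤ) : ℚ) = 0 := by
      push_cast
      simp only [hy]
      calc ∑ i, (c k i : ℚ) * (z i * N) = (∑ i, (c k i : ℚ) * z i) * N := by
            rw [Finset.sum_mul]
            exact Finset.sum_congr rfl fun i _ => by ring
        _ = 0 := by rw [hz2 k, zero_mul]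
    exact_mod_cast h1

/-- positive real intertwiners of integer matrices give positive integer intertwiners -/
theorem exists_int_intertwiner {a b : ℕ} (A : Matrix (Fin a) (Fin a) ℤ)
    (B : Matrix (Fin b) (Fin b) ℤ) (R0 : Matrix (Fin a) (Fin b) ℝ) (hpos : ∀ i j, 0 < R0 i j)
    (h : A.map (Int.cast : ℤ → ℝ) * R0 = R0 * B.map (Int.cast : ℤ → ℝ)) :
    ∃ R : Matrix (Fin a) (Fin b) ℤ, (∀ i j, 0 < R i j) ∧ A * R = R * B := by
  classical
  have key : ∀ {S : Type} [CommRing S] (A' : Matrix (Fin a) (Fin a) S)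
      (B' : Matrix (Fin b) (Fin b) S) (R : Matrix (Fin a) (Fin b) S) (i : Fin a) (j : Fin b),
      ∑ p : Fin a × Fin b, ((if p.2 = j then A' i p.1 else 0) -
        (if p.1 = i then B' p.2 j else 0)) * R p.1 p.2 = (A' * R) i j - (R * B') i j := by
    intro S _ A' B' R i j
    rw [Fintype.sum_prod_type]
    simp only [sub_mul, ite_mul, zero_mul, Finset.sum_sub_distrib, Matrix.mul_apply]
    congr 1
    · refine Finset.sum_congr rfl fun p _ => ?_
      simp
    · rw [Finset.sum_comm]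
      refine Finset.sum_congr rfl fun q _ => ?_
      simp [mul_comm]
  obtain ⟨y, hy, hy2⟩ := exists_int_pos_sol (ι := Fin a × Fin b) (κ := Fin a × Fin b)
    (fun k p => (if p.2 = k.2 then A k.1 p.1 else 0) - (if p.1 = k.1 then B p.2 k.2 else 0))
    (fun p => R0 p.1 p.2) (fun p => hpos _ _) (fun k => by
      have h1 := key (A.map (Int.cast : ℤ → ℝ)) (B.map (Int.cast : ℤ → ℝ)) R0 k.1 k.2
      rw [h, sub_self] at h1
      rw [← h1]
      refine Finset.sum_congr rfl fun p _ => ?_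
      push_cast
      simp only [Matrix.map_apply])
  refine ⟨Matrix.of fun i j => y (i, j), fun i j => hy _, ?_⟩
  ext i j
  have h1 := key A B (Matrix.of fun i j => y (i, j)) i j
  have h2 := hy2 (i, j)
  simp only [Matrix.of_apply, Prod.mk.eta] at h1 h2
  rw [h2] at h1
  linarith

/-- comparison of exponential growth -/
theorem le_of_pow_le {x y K : ℝ} (hy : 0 < y) (h : ∀ k : ℕ, x ^ k ≤ K * y ^ k) :
    x ≤ y := by
  by_contra hlt
  push Not at hlt
  have h1 : 1 < x / y := (one_lt_div hy).2 hlt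
  obtain ⟨n, hn⟩ := pow_unbounded_of_one_lt K h1
  have h2 := h n
  rw [div_pow, lt_div_iff₀ (pow_pos hy n)] at hn
  linarith

theorem zM_pow {n : ℕ} (A : Matrix (Fin n) (Fin n) ℕ) (k : ℕ) : zM (A ^ k) = zM A ^ k := by
  have := map_pow ((Nat.castRingHom ℤ).mapMatrix (m := Fin n)) A k
  simpa [RingHom.mapMatrix_apply] using this

theorem pow_intertwine {a b : ℕ} {A : Matrix (Fin a) (Fin a) ℤ} {B : Matrix (Fin b) (Fin b) ℤ}
    {R : Matrix (Fin a) (Fin b) ℤ} (h : A * R = R * B) (k : ℕ) : A ^ k * R = R * B ^ k := by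
  induction k with
  | zero => simp
  | succ k ih => rw [pow_succ', Matrix.mul_assoc, ih, ← Matrix.mul_assoc, h, Matrix.mul_assoc,
      ← pow_succ']

/-- sum of all entries -/
def tot {m n : ℕ} (A : Matrix (Fin m) (Fin n) ℤ) : ℤ := ∑ i, ∑ j, A i j

theorem tot_mul_bounds {a b : ℕ} (P : Matrix (Fin a) (Fin a) ℕ) (R : Matrix (Fin a) (Fin b) ℤ)
    (hb : 0 < b) (hR : ∀ i j, 0 < R i j) :
    tot (zM P) ≤ tot (zM P * R) ∧ tot (zM P * R) ≤ tot R * tot (zM P) := by
  have e : tot (zM P * R) = ∑ i, ∑ l, (P i l : ℤ) * ∑ j, R l j := by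
    unfold tot
    refine Finset.sum_congr rfl fun i _ => ?_
    simp only [Matrix.mul_apply, Matrix.map_apply]
    rw [Finset.sum_comm]
    exact Finset.sum_congr rfl fun l _ => (Finset.mul_sum _ _ _).symm
  have h1 : ∀ l, 1 ≤ ∑ j, R l j := by
    intro l
    have h2 : R l ⟨0, hb⟩ ≤ ∑ j, R l j :=
      Finset.single_le_sum (f := fun j => R l j) (fun j _ => (hR l j).le) (Finset.mem_univ _)
    have := hR l ⟨0, hb⟩
    linarith
  have h3 : ∀ l, ∑ j, R l j ≤ tot R := fun l =>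
    Finset.single_le_sum (f := fun l => ∑ j, R l j)
      (fun l _ => Finset.sum_nonneg fun j _ => (hR l j).le) (Finset.mem_univ l)
  rw [e]
  constructor
  · unfold tot
    refine Finset.sum_le_sum fun i _ => Finset.sum_le_sum fun l _ => ?_
    simp only [Matrix.map_apply]
    exact le_mul_of_one_le_right (Int.natCast_nonneg _) (h1 l)
  · unfold tot
    rw [mul_comm, Finset.sum_mul]
    refine Finset.sum_le_sum fun i _ => ?_
    rw [Finset.sum_mul]
    refine Finset.sum_le_sum fun l _ => ?_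
    simp only [Matrix.map_apply]
    exact mul_le_mul_of_nonneg_left (h3 l) (Int.natCast_nonneg _)

theorem tot_transpose {m n : ℕ} (A : Matrix (Fin m) (Fin n) ℤ) : tot A.transpose = tot A := by
  unfold tot
  simp only [Matrix.transpose_apply]
  exact Finset.sum_comm

theorem tot_mul_bounds' {a b : ℕ} (P : Matrix (Fin b) (Fin b) ℕ) (R : Matrix (Fin a) (Fin b) ℤ)
    (ha : 0 < a) (hR : ∀ i j, 0 < R i j) :
    tot (zM P) ≤ tot (R * zM P) ∧ tot (R * zM P) ≤ tot R * tot (zM P) := by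
  have h := tot_mul_bounds P.transpose R.transpose ha (fun i j => hR j i)
  have e1 : zM P.transpose = (zM P).transpose := rfl
  rw [e1, ← Matrix.transpose_mul, tot_transpose, tot_transpose, tot_transpose] at h
  exact h

theorem tot_cast {n : ℕ} (A : Matrix (Fin n) (Fin n) ℕ) :
    ((tot (zM A) : ℤ) : ℝ) = ∑ i, ∑ j, ((A i j : ℕ) : ℝ) := by
  unfold tot
  push_cast
  rfl

/-- a positive integer intertwiner forces equal growth -/
theorem lam_eq_of_int {a b : ℕ} {A : Matrix (Fin a) (Fin a) ℕ} {B : Matrix (Fin b) (Fin b) ℕ}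
    (ha : 0 < a) (hb : 0 < b) {R : Matrix (Fin a) (Fin b) ℤ} (hR : ∀ i j, 0 < R i j)
    (h : zM A * R = R * zM B) {lam mu C C' : ℝ} (hlam : 0 < lam) (hmu : 0 < mu)
    (hA : ∀ k : ℕ, lam ^ k ≤ ∑ i, ∑ j, (((A ^ k) i j : ℕ) : ℝ) ∧
      ∑ i, ∑ j, (((A ^ k) i j : ℕ) : ℝ) ≤ C * lam ^ k)
    (hB : ∀ k : ℕ, mu ^ k ≤ ∑ i, ∑ j, (((B ^ k) i j : ℕ) : ℝ) ∧
      ∑ i, ∑ j, (((B ^ k) i j : ℕ) : ℝ) ≤ C' * mu ^ k) : lam = mu := by
  have hT : 0 ≤ tot R := Finset.sum_nonneg fun i _ => Finset.sum_nonneg fun j _ => (hR i j).le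
  have hT' : (0 : ℝ) ≤ (tot R : ℝ) := by exact_mod_cast hT
  have hk : ∀ k, zM (A ^ k) * R = R * zM (B ^ k) := fun k => by
    rw [zM_pow, zM_pow]
    exact pow_intertwine h k
  have h1 : ∀ k, tot (zM (A ^ k)) ≤ tot R * tot (zM (B ^ k)) := fun k => by
    have h2 := (tot_mul_bounds (A ^ k) R hb hR).1
    rw [hk k] at h2
    exact h2.trans (tot_mul_bounds' (B ^ k) R ha hR).2
  have h1' : ∀ k, tot (zM (B ^ k)) ≤ tot R * tot (zM (A ^ k)) := fun k => by
    have h2 := (tot_mul_bounds' (B ^ k) R ha hR).1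
    rw [← hk k] at h2
    exact h2.trans (tot_mul_bounds (A ^ k) R hb hR).2
  have c1 : ∀ k, ∑ i, ∑ j, (((A ^ k) i j : ℕ) : ℝ) ≤ tot R * ∑ i, ∑ j, (((B ^ k) i j : ℕ) : ℝ) := by
    intro k
    rw [← tot_cast, ← tot_cast]
    exact_mod_cast h1 k
  have c2 : ∀ k, ∑ i, ∑ j, (((B ^ k) i j : ℕ) : ℝ) ≤ tot R * ∑ i, ∑ j, (((A ^ k) i j : ℕ) : ℝ) := by
    intro k
    rw [← tot_cast, ← tot_cast]
    exact_mod_cast h1' k
  apply le_antisymm
  · refine le_of_pow_le (K := tot R * C') hmu fun k => ?_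
    calc lam ^ k ≤ _ := (hA k).1
      _ ≤ _ := c1 k
      _ ≤ tot R * (C' * mu ^ k) := mul_le_mul_of_nonneg_left (hB k).2 hT'
      _ = tot R * C' * mu ^ k := by ring
  · refine le_of_pow_le (K := tot R * C) hlam fun k => ?_
    calc mu ^ k ≤ _ := (hB k).1
      _ ≤ _ := c2 k
      _ ≤ tot R * (C * lam ^ k) := mul_le_mul_of_nonneg_left (hA k).2 hT'
      _ = tot R * C * lam ^ k := by ring

theorem isPrimitive_transpose {n : ℕ} {A : Matrix (Fin n) (Fin n) ℕ} (hA : IsPrimitive A) :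
    IsPrimitive A.transpose := by
  obtain ⟨hn, k, hk, h⟩ := hA
  exact ⟨hn, k, hk, fun i j => by rw [← Matrix.transpose_pow]; exact h j i⟩

/-- **Equal entropy is witnessed by a positive integer intertwiner.** -/
theorem entropy_eq_iff {a b : ℕ} {A : Matrix (Fin a) (Fin a) ℕ} {B : Matrix (Fin b) (Fin b) ℕ}
    (hA : IsPrimitive A) (hB : IsPrimitive B) :
    (∃ h, HasEntropy (edgeShift A) h ∧ HasEntropy (edgeShift B) h) ↔
      ∃ R : Matrix (Fin a) (Fin b) ℤ, (∀ i j, 0 < R i j) ∧ zM A * R = R * zM B := by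
  obtain ⟨lam, C, r, hlam, hC, hr, heig, hbA⟩ := perron_bounds hA
  obtain ⟨mu, C', s, hmu, hC', hs, heig', hbB⟩ := perron_bounds hB
  obtain ⟨nu, C'', l, hnu, hC'', hl, heigl, hbl⟩ := perron_bounds (isPrimitive_transpose hB)
  constructor
  · rintro ⟨h, h1, h2⟩
    have e1 : h = Real.log lam := tendsto_nhds_unique h1 (hasEntropy_log hA hlam hC hbA)
    have e2 : h = Real.log mu := tendsto_nhds_unique h2 (hasEntropy_log hB hmu hC' hbB)
    have e3 : lam = mu := Real.log_injOn_pos (Set.mem_Ioi.2 hlam) (Set.mem_Ioi.2 hmu)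
      (by rw [← e1, ← e2])
    have hsum : ∀ k, ∑ i, ∑ j, (((B.transpose ^ k) i j : ℕ) : ℝ) =
        ∑ i, ∑ j, (((B ^ k) i j : ℕ) : ℝ) := by
      intro k
      rw [← Matrix.transpose_pow, Finset.sum_comm]
      rfl
    have e4 : mu = nu := by
      apply le_antisymm
      · refine le_of_pow_le (K := C'') hnu fun k => ?_
        have := (hbl k).2
        rw [hsum] at this
        exact (hbB k).1.trans this
      · refine le_of_pow_le (K := C') hmu fun k => ?_
        have := (hbl k).1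
        rw [hsum] at this
        exact this.trans (hbB k).2
    refine exists_int_intertwiner (zM A) (zM B) (Matrix.of fun i j => r i * l j)
      (fun i j => mul_pos (hr i) (hl j)) ?_
    have eA : (zM A).map (Int.cast : ℤ → ℝ) = A.map (Nat.cast : ℕ → ℝ) := by
      ext i j
      simp
    have eB : (zM B).map (Int.cast : ℤ → ℝ) = B.map (Nat.cast : ℕ → ℝ) := by
      ext i j
      simp
    rw [eA, eB]
    ext i j
    have h3 := congrFun heig i
    have h4 := congrFun heigl j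
    simp only [Matrix.mulVec, dotProduct, Pi.smul_apply, smul_eq_mul, Matrix.map_apply,
      Matrix.transpose_apply] at h3 h4
    simp only [Matrix.mul_apply, Matrix.of_apply, Matrix.map_apply]
    calc ∑ x, (A i x : ℝ) * (r x * l j) = (∑ x, (A i x : ℝ) * r x) * l j := by
          rw [Finset.sum_mul]
          exact Finset.sum_congr rfl fun x _ => by ring
      _ = r i * (∑ x, (B x j : ℝ) * l x) := by rw [h3, h4, e3, e4]; ring
      _ = ∑ x, r i * l x * (B x j : ℝ) := by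
          rw [Finset.mul_sum]
          exact Finset.sum_congr rfl fun x _ => by ring
  · rintro ⟨R, hR, h⟩
    have e := lam_eq_of_int hA.1 hB.1 hR h hlam hmu hbA hbB
    refine ⟨Real.log lam, hasEntropy_log hA hlam hC hbA, ?_⟩
    rw [e]
    exact hasEntropy_log hB hmu hC' hbB

/-- all row sums of some power of `A` are smaller than all row sums of the same power of `B` -/
def RowLt {a b : ℕ} (A : Matrix (Fin a) (Fin a) ℕ) (B : Matrix (Fin b) (Fin b) ℕ) : Prop :=
  ∃ n : ℕ, ∀ i j, ∑ l, (A ^ n) i l < ∑ l, (B ^ n) j l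

theorem rowSum_eig {n : ℕ} {A : Matrix (Fin n) (Fin n) ℕ} {r : Fin n → ℝ} {lam : ℝ}
    (h : (A.map (Nat.cast : ℕ → ℝ)) *ᵥ r = lam • r) (k : ℕ) (i : Fin n) :
    ∑ l, (((A ^ k) i l : ℕ) : ℝ) * r l = lam ^ k * r i := by
  have := congrFun (pow_mulVec_eig h k) i
  simp only [Matrix.mulVec, dotProduct, Pi.smul_apply, smul_eq_mul] at this
  rw [← this]
  exact Finset.sum_congr rfl fun l _ => by rw [cast_pow_entry]

theorem lam_lt_of_rowLt {a b : ℕ} {A : Matrix (Fin a) (Fin a) ℕ} {B : Matrix (Fin b) (Fin b) ℕ}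
    (ha : 0 < a) (hb : 0 < b) {r : Fin a → ℝ} {s : Fin b → ℝ} {lam mu : ℝ}
    (hmu : 0 < mu) (hr : ∀ i, 0 < r i) (hs : ∀ j, 0 < s j)
    (heA : (A.map (Nat.cast : ℕ → ℝ)) *ᵥ r = lam • r)
    (heB : (B.map (Nat.cast : ℕ → ℝ)) *ᵥ s = mu • s) (h : RowLt A B) : lam < mu := by
  obtain ⟨n, hn⟩ := h
  have : Nonempty (Fin a) := ⟨⟨0, ha⟩⟩
  have : Nonempty (Fin b) := ⟨⟨0, hb⟩⟩
  obtain ⟨i, hi⟩ := Finite.exists_max r
  obtain ⟨j, hj⟩ := Finite.exists_min s
  have h1 : lam ^ n ≤ ∑ l, (((A ^ n) i l : ℕ) : ℝ) := by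
    have h2 := rowSum_eig heA n i
    have h3 : ∑ l, (((A ^ n) i l : ℕ) : ℝ) * r l ≤ (∑ l, (((A ^ n) i l : ℕ) : ℝ)) * r i := by
      rw [Finset.sum_mul]
      exact Finset.sum_le_sum fun l _ => mul_le_mul_of_nonneg_left (hi l) (Nat.cast_nonneg _)
    rw [h2] at h3
    exact le_of_mul_le_mul_right h3 (hr i)
  have h1' : ∑ l, (((B ^ n) j l : ℕ) : ℝ) ≤ mu ^ n := by
    have h2 := rowSum_eig heB n j
    have h3 : (∑ l, (((B ^ n) j l : ℕ) : ℝ)) * s j ≤ ∑ l, (((B ^ n) j l : ℕ) : ℝ) * s l := by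
      rw [Finset.sum_mul]
      exact Finset.sum_le_sum fun l _ => mul_le_mul_of_nonneg_left (hj l) (Nat.cast_nonneg _)
    rw [h2] at h3
    exact le_of_mul_le_mul_right h3 (hs j)
  have h4 : ∑ l, (((A ^ n) i l : ℕ) : ℝ) < ∑ l, (((B ^ n) j l : ℕ) : ℝ) := by
    exact_mod_cast hn i j
  exact lt_of_pow_lt_pow_left₀ n hmu.le (h1.trans_lt (h4.trans_le h1'))

theorem rowLt_of_lam_lt {a b : ℕ} {A : Matrix (Fin a) (Fin a) ℕ} {B : Matrix (Fin b) (Fin b) ℕ}
    {r : Fin a → ℝ} {s : Fin b → ℝ} {lam mu : ℝ}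
    (hlam : 0 < lam) (hr : ∀ i, 0 < r i) (hs : ∀ j, 0 < s j)
    (heA : (A.map (Nat.cast : ℕ → ℝ)) *ᵥ r = lam • r)
    (heB : (B.map (Nat.cast : ℕ → ℝ)) *ᵥ s = mu • s) (h : lam < mu) : RowLt A B := by
  have hmu : 0 < mu := hlam.trans h
  set K : ℝ := (∑ i, r i) * (∑ i, (r i)⁻¹) with hK
  set K' : ℝ := (∑ j, s j) * (∑ j, (s j)⁻¹) with hK'
  have hK0 : 0 ≤ K := mul_nonneg (Finset.sum_nonneg fun i _ => (hr i).le)
    (Finset.sum_nonneg fun i _ => (inv_pos.2 (hr i)).le)
  have hK0' : 0 ≤ K' := mul_nonneg (Finset.sum_nonneg fun i _ => (hs i).le)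
    (Finset.sum_nonneg fun i _ => (inv_pos.2 (hs i)).le)
  have hA : ∀ n i, ∑ l, (((A ^ n) i l : ℕ) : ℝ) ≤ K * lam ^ n := by
    intro n i
    calc ∑ l, (((A ^ n) i l : ℕ) : ℝ)
        = ∑ l, (((A ^ n) i l : ℕ) : ℝ) * r l * (r l)⁻¹ := by
          refine Finset.sum_congr rfl fun l _ => ?_
          rw [mul_assoc, mul_inv_cancel₀ (hr l).ne', mul_one]
      _ ≤ ∑ l, (((A ^ n) i l : ℕ) : ℝ) * r l * ∑ l, (r l)⁻¹ := by
          refine Finset.sum_le_sum fun l _ => mul_le_mul_of_nonneg_left ?_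
            (mul_nonneg (Nat.cast_nonneg _) (hr l).le)
          exact Finset.single_le_sum (f := fun l => (r l)⁻¹) (fun l _ => (inv_pos.2 (hr l)).le)
            (Finset.mem_univ l)
      _ = lam ^ n * r i * ∑ l, (r l)⁻¹ := by rw [← Finset.sum_mul, rowSum_eig heA]
      _ ≤ lam ^ n * (∑ i, r i) * ∑ l, (r l)⁻¹ := by
          refine mul_le_mul_of_nonneg_right (mul_le_mul_of_nonneg_left ?_ (pow_pos hlam n).le)
            (Finset.sum_nonneg fun l _ => (inv_pos.2 (hr l)).le)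
          exact Finset.single_le_sum (f := r) (fun l _ => (hr l).le) (Finset.mem_univ i)
      _ = K * lam ^ n := by rw [hK]; ring
  have hB : ∀ n j, mu ^ n ≤ K' * ∑ l, (((B ^ n) j l : ℕ) : ℝ) := by
    intro n j
    have h1 : mu ^ n = (mu ^ n * s j) * (s j)⁻¹ := by
      rw [mul_assoc, mul_inv_cancel₀ (hs j).ne', mul_one]
    rw [h1, ← rowSum_eig heB]
    calc (∑ l, (((B ^ n) j l : ℕ) : ℝ) * s l) * (s j)⁻¹
        ≤ ((∑ l, (((B ^ n) j l : ℕ) : ℝ)) * ∑ l, s l) * ∑ l, (s l)⁻¹ := by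
          refine mul_le_mul ?_ ?_ (inv_pos.2 (hs j)).le (mul_nonneg
            (Finset.sum_nonneg fun l _ => Nat.cast_nonneg _)
            (Finset.sum_nonneg fun l _ => (hs l).le))
          · rw [Finset.sum_mul]
            refine Finset.sum_le_sum fun l _ => mul_le_mul_of_nonneg_left ?_ (Nat.cast_nonneg _)
            exact Finset.single_le_sum (f := s) (fun l _ => (hs l).le) (Finset.mem_univ l)
          · exact Finset.single_le_sum (f := fun l => (s l)⁻¹)
              (fun l _ => (inv_pos.2 (hs l)).le) (Finset.mem_univ j)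
      _ = K' * ∑ l, (((B ^ n) j l : ℕ) : ℝ) := by rw [hK']; ring
  have h1 : 1 < mu / lam := (one_lt_div hlam).2 h
  obtain ⟨n, hn⟩ := pow_unbounded_of_one_lt (K' * K) h1
  refine ⟨n, fun i j => ?_⟩
  have h2 : K' * K * lam ^ n < mu ^ n := by
    rwa [div_pow, lt_div_iff₀ (pow_pos hlam n)] at hn
  have h3 : K' * ∑ l, (((A ^ n) i l : ℕ) : ℝ) < K' * ∑ l, (((B ^ n) j l : ℕ) : ℝ) :=
    calc K' * ∑ l, (((A ^ n) i l : ℕ) : ℝ) ≤ K' * (K * lam ^ n) :=
          mul_le_mul_of_nonneg_left (hA n i) hK0'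
      _ = K' * K * lam ^ n := by ring
      _ < mu ^ n := h2
      _ ≤ _ := hB n j
  have h4 := lt_of_mul_lt_mul_left h3 hK0'
  exact_mod_cast h4

/-- **Unequal entropy is witnessed by the row sums of a power.** -/
theorem entropy_ne_iff {a b : ℕ} {A : Matrix (Fin a) (Fin a) ℕ} {B : Matrix (Fin b) (Fin b) ℕ}
    (hA : IsPrimitive A) (hB : IsPrimitive B) :
    (¬ ∃ h, HasEntropy (edgeShift A) h ∧ HasEntropy (edgeShift B) h) ↔
      RowLt A B ∨ RowLt B A := by
  obtain ⟨lam, C, r, hlam, hC, hr, heig, hbA⟩ := perron_bounds hA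
  obtain ⟨mu, C', s, hmu, hC', hs, heig', hbB⟩ := perron_bounds hB
  have hiff : (∃ h, HasEntropy (edgeShift A) h ∧ HasEntropy (edgeShift B) h) ↔ lam = mu := by
    constructor
    · rintro ⟨h, h1, h2⟩
      have e1 : h = Real.log lam := tendsto_nhds_unique h1 (hasEntropy_log hA hlam hC hbA)
      have e2 : h = Real.log mu := tendsto_nhds_unique h2 (hasEntropy_log hB hmu hC' hbB)
      exact Real.log_injOn_pos (Set.mem_Ioi.2 hlam) (Set.mem_Ioi.2 hmu) (by rw [← e1, ← e2])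
    · intro e
      refine ⟨Real.log lam, hasEntropy_log hA hlam hC hbA, ?_⟩
      rw [e]
      exact hasEntropy_log hB hmu hC' hbB
  rw [hiff]
  constructor
  · intro hne
    rcases lt_or_gt_of_ne hne with h | h
    · exact Or.inl (rowLt_of_lam_lt hlam hr hs heig heig' h)
    · exact Or.inr (rowLt_of_lam_lt hmu hs hr heig' heig h)
  · rintro (h | h)
    · exact (lam_lt_of_rowLt hA.1 hB.1 hmu hr hs heig heig' h).ne
    · exact (lam_lt_of_rowLt hB.1 hA.1 hlam hs hr heig' heig h).ne'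

end Pool.Agent.DEC
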