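import Pool.Agent.DEC.IntP
/-! DEC project (MP_59dda0_an), computability layer, part 3: integer matrices as lists of lists, with
primitive recursive operations and their correctness. -/
namespace Pool.Agent.DEC
open Primrec

/-- codes of integer matrices: lists of rows -/
abbrev IM := List (List ℤ)

/-- the entry in row `i` and column `j` (zero outside) -/
def ent (L : IM) (i j : ℕ) : ℤ := (L.getD i []).getD j 0

/-- the `n × m` matrix with entries `f i j` -/
def mk (n m : ℕ) (f : ℕ → ℕ → ℤ) : IM :=
  (List.range n).map fun i : ℕ => (List.range m).map fun j : ℕ => f i j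

/-- the matrix of a code -/
def toMat (n m : ℕ) (L : IM) : Matrix (Fin n) (Fin m) ℤ := Matrix.of fun i j => ent L i j

/-- the code of a matrix -/
def ofMat {n m : ℕ} (M : Matrix (Fin n) (Fin m) ℤ) : IM :=
  mk n m fun i j => if h : i < n ∧ j < m then M ⟨i, h.1⟩ ⟨j, h.2⟩ else 0

theorem ent_mk {n m : ℕ} (f : ℕ → ℕ → ℤ) {i j : ℕ} (hi : i < n) (hj : j < m) :
    ent (mk n m f) i j = f i j := by
  unfold ent mk
  simp [List.getD_eq_getElem?_getD, hi, hj]

@[simp] theorem toMat_apply (n m : ℕ) (L : IM) (i : Fin n) (j : Fin m) :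
    toMat n m L i j = ent L i j := rfl

@[simp] theorem toMat_mk (n m : ℕ) (f : ℕ → ℕ → ℤ) :
    toMat n m (mk n m f) = Matrix.of fun (i : Fin n) (j : Fin m) => f i j := by
  ext i j
  simp [ent_mk f i.2 j.2]

@[simp] theorem toMat_ofMat {n m : ℕ} (M : Matrix (Fin n) (Fin m) ℤ) : toMat n m (ofMat M) = M := by
  unfold ofMat
  rw [toMat_mk]
  ext i j
  simp

theorem mk_congr {n m : ℕ} {f g : ℕ → ℕ → ℤ} (h : ∀ i < n, ∀ j < m, f i j = g i j) :
    mk n m f = mk n m g := by
  unfold mk
  refine List.map_congr_left fun i hi => List.map_congr_left fun j hj => ?_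
  exact h i (List.mem_range.1 hi) j (List.mem_range.1 hj)

/-- the normal form of a code -/
def norm (n m : ℕ) (L : IM) : IM := mk n m (ent L)

theorem toMat_norm (n m : ℕ) (L : IM) : toMat n m (norm n m L) = toMat n m L := by
  unfold norm
  rw [toMat_mk]
  rfl

theorem toMat_eq_iff {n m : ℕ} {L M : IM} : toMat n m L = toMat n m M ↔ norm n m L = norm n m M := by
  constructor
  · intro h
    refine mk_congr fun i hi j hj => ?_
    have := congrFun (congrFun h ⟨i, hi⟩) ⟨j, hj⟩
    simpa using this
  · intro h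
    rw [← toMat_norm, h, toMat_norm]

theorem ofMat_mem_mats {n m F : ℕ} (M : Matrix (Fin n) (Fin m) ℤ) (h : ∀ i j, |M i j| ≤ (F : ℤ)) :
    ofMat M ∈ mats n m F := by
  rw [mem_mats]
  unfold ofMat mk
  refine ⟨by simp, fun v hv => ?_⟩
  obtain ⟨i, hi, rfl⟩ := List.mem_map.1 hv
  refine ⟨by simp, fun x hx => ?_⟩
  obtain ⟨j, hj, rfl⟩ := List.mem_map.1 hx
  have hi' := List.mem_range.1 hi
  have hj' := List.mem_range.1 hj
  beta_reduce
  rw [dif_pos (And.intro hi' hj')]
  exact h _ _

theorem abs_ent_le_of_mem_mats {n m F : ℕ} {L : IM} (h : L ∈ mats n m F) (i j : ℕ) :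
    |ent L i j| ≤ F := by
  rw [mem_mats] at h
  unfold ent
  rw [List.getD_eq_getElem?_getD, List.getD_eq_getElem?_getD]
  rcases hi : L[i]? with _ | v
  · simp
  · have hv := h.2 v (List.mem_of_getElem? hi)
    rcases hj : v[j]? with _ | x
    · simp [hj]
    · simp only [Option.getD_some, hj]
      exact hv.2 x (List.mem_of_getElem? hj)

/-- quantification over matrices is quantification over codes -/
theorem exists_mat_iff {n m : ℕ} {Q : Matrix (Fin n) (Fin m) ℤ → Prop} :
    (∃ M, Q M) ↔ ∃ L : IM, Q (toMat n m L) :=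
  ⟨fun ⟨M, hM⟩ => ⟨ofMat M, by rwa [toMat_ofMat]⟩, fun ⟨L, hL⟩ => ⟨_, hL⟩⟩

theorem forall_mat_iff {n m : ℕ} {Q : Matrix (Fin n) (Fin m) ℤ → Prop} :
    (∀ M, Q M) ↔ ∀ L : IM, Q (toMat n m L) :=
  ⟨fun h L => h _, fun h M => by have := h (ofMat M); rwa [toMat_ofMat] at this⟩

/-- bounded quantification over matrices is quantification over a finite list of codes -/
theorem forall_mats_iff {n m F : ℕ} {Q : Matrix (Fin n) (Fin m) ℤ → Prop} :
    (∀ M : Matrix (Fin n) (Fin m) ℤ, (∀ i j, |M i j| ≤ (F : ℤ)) → Q M) ↔ ∀ L ∈ mats n m F, Q (toMat n m L) := by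
  constructor
  · intro h L hL
    exact h _ fun i j => abs_ent_le_of_mem_mats hL i j
  · intro h M hM
    have := h (ofMat M) (ofMat_mem_mats M hM)
    rwa [toMat_ofMat] at this

theorem exists_mats_iff {n m F : ℕ} {Q : Matrix (Fin n) (Fin m) ℤ → Prop} :
    (∃ M : Matrix (Fin n) (Fin m) ℤ, (∀ i j, |M i j| ≤ (F : ℤ)) ∧ Q M) ↔ ∃ L ∈ mats n m F, Q (toMat n m L) := by
  constructor
  · rintro ⟨M, hM, hQ⟩
    exact ⟨ofMat M, ofMat_mem_mats M hM, by rwa [toMat_ofMat]⟩
  · rintro ⟨L, hL, hQ⟩
    exact ⟨_, fun i j => abs_ent_le_of_mem_mats hL i j, hQ⟩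

/-! ### operations -/

def madd (n m : ℕ) (A B : IM) : IM := mk n m fun i j => ent A i j + ent B i j
def msub (n m : ℕ) (A B : IM) : IM := mk n m fun i j => ent A i j - ent B i j
def msmul (n m : ℕ) (c : ℤ) (A : IM) : IM := mk n m fun i j => c * ent A i j
def mmul (n k m : ℕ) (A B : IM) : IM :=
  mk n m fun i j => ∑ l ∈ Finset.range k, ent A i l * ent B l j
def mone (n : ℕ) : IM := mk n n fun i j => if i = j then 1 else 0
def mzero (n m : ℕ) : IM := mk n m fun _ _ => 0
def mtr (n m : ℕ) (A : IM) : IM := mk m n fun i j => ent A j i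
def mpow (n : ℕ) (A : IM) (k : ℕ) : IM := Nat.rec (mone n) (fun _ P => mmul n n n P A) k
def mtrace (n : ℕ) (A : IM) : ℤ := ∑ i ∈ Finset.range n, ent A i i

@[simp] theorem toMat_madd (n m : ℕ) (A B : IM) :
    toMat n m (madd n m A B) = toMat n m A + toMat n m B := by
  unfold madd
  rw [toMat_mk]
  rfl

@[simp] theorem toMat_msub (n m : ℕ) (A B : IM) :
    toMat n m (msub n m A B) = toMat n m A - toMat n m B := by
  unfold msub
  rw [toMat_mk]
  rfl

@[simp] theorem toMat_msmul (n m : ℕ) (c : ℤ) (A : IM) :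
    toMat n m (msmul n m c A) = c • toMat n m A := by
  unfold msmul
  rw [toMat_mk]
  ext i j
  simp

@[simp] theorem toMat_mmul (n k m : ℕ) (A B : IM) :
    toMat n m (mmul n k m A B) = toMat n k A * toMat k m B := by
  unfold mmul
  rw [toMat_mk]
  ext i j
  simp only [Matrix.of_apply, Matrix.mul_apply, toMat_apply]
  exact (Fin.sum_univ_eq_sum_range (fun l => ent A i l * ent B l j) k).symm

@[simp] theorem toMat_mone (n : ℕ) : toMat n n (mone n) = 1 := by
  unfold mone
  rw [toMat_mk]
  ext i j
  simp only [Matrix.of_apply, Matrix.one_apply, Fin.ext_iff]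

@[simp] theorem toMat_mzero (n m : ℕ) : toMat n m (mzero n m) = 0 := by
  unfold mzero
  rw [toMat_mk]
  rfl

@[simp] theorem toMat_mtr (n m : ℕ) (A : IM) :
    toMat m n (mtr n m A) = (toMat n m A).transpose := by
  unfold mtr
  rw [toMat_mk]
  rfl

theorem mpow_succ (n : ℕ) (A : IM) (k : ℕ) : mpow n A (k + 1) = mmul n n n (mpow n A k) A := rfl

@[simp] theorem toMat_mpow (n : ℕ) (A : IM) (k : ℕ) :
    toMat n n (mpow n A k) = toMat n n A ^ k := by
  induction k with
  | zero => exact (toMat_mone n).trans (pow_zero _).symm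
  | succ k ih => rw [mpow_succ, toMat_mmul, ih, pow_succ]

theorem mtrace_eq (n : ℕ) (A : IM) : mtrace n A = (toMat n n A).trace := by
  unfold mtrace Matrix.trace
  simp only [Matrix.diag_apply, toMat_apply]
  exact (Fin.sum_univ_eq_sum_range (fun i => ent A i i) n).symm

/-! ### primitive recursiveness -/

section prim
variable {α : Type*} [Primcodable α] {n k m i j e : α → ℕ} {A B : α → IM} {c : α → ℤ}

theorem primrec_ent : Primrec fun q : IM × ℕ × ℕ => ent q.1 q.2.1 q.2.2 :=
  (Primrec.list_getD (0 : ℤ)).comp ((Primrec.list_getD ([] : List ℤ)).comp fst (fst.comp snd))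
    (snd.comp snd)

theorem pEnt (hA : Primrec A) (hi : Primrec i) (hj : Primrec j) :
    Primrec fun a => ent (A a) (i a) (j a) :=
  primrec_ent.comp (Primrec.pair hA (Primrec.pair hi hj))

theorem pMk {f : α → ℕ → ℕ → ℤ} (hn : Primrec n) (hm : Primrec m)
    (hf : Primrec fun q : α × ℕ × ℕ => f q.1 q.2.1 q.2.2) :
    Primrec fun a => mk (n a) (m a) (f a) := by
  refine Primrec.list_map (f := fun a => List.range (n a))
    (g := fun (a : α) (i : ℕ) => (List.range (m a)).map fun j : ℕ => f a i j)
    (Primrec.list_range.comp hn) ?_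
  refine Primrec.list_map (f := fun p : α × ℕ => List.range (m p.1))
    (g := fun (p : α × ℕ) (j : ℕ) => f p.1 p.2 j) (Primrec.list_range.comp (hm.comp fst)) ?_
  exact hf.comp (Primrec.pair (fst.comp fst) (Primrec.pair (snd.comp fst) snd))

theorem pMadd (hn : Primrec n) (hm : Primrec m) (hA : Primrec A) (hB : Primrec B) :
    Primrec fun a => madd (n a) (m a) (A a) (B a) :=
  pMk hn hm (pAdd (pEnt (hA.comp fst) (fst.comp snd) (snd.comp snd))
    (pEnt (hB.comp fst) (fst.comp snd) (snd.comp snd)))

theorem pMsub (hn : Primrec n) (hm : Primrec m) (hA : Primrec A) (hB : Primrec B) :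
    Primrec fun a => msub (n a) (m a) (A a) (B a) :=
  pMk hn hm (pSub (pEnt (hA.comp fst) (fst.comp snd) (snd.comp snd))
    (pEnt (hB.comp fst) (fst.comp snd) (snd.comp snd)))

theorem pMsmul (hn : Primrec n) (hm : Primrec m) (hc : Primrec c) (hA : Primrec A) :
    Primrec fun a => msmul (n a) (m a) (c a) (A a) :=
  pMk hn hm (pMul (hc.comp fst) (pEnt (hA.comp fst) (fst.comp snd) (snd.comp snd)))

theorem pMmul (hn : Primrec n) (hk : Primrec k) (hm : Primrec m) (hA : Primrec A)
    (hB : Primrec B) : Primrec fun a => mmul (n a) (k a) (m a) (A a) (B a) := by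
  refine pMk hn hm ?_
  refine pSum (n := fun q : α × ℕ × ℕ => k q.1)
    (f := fun (q : α × ℕ × ℕ) (l : ℕ) => ent (A q.1) q.2.1 l * ent (B q.1) l q.2.2)
    (hk.comp fst) ?_
  exact pMul (pEnt (hA.comp (fst.comp fst)) (fst.comp (snd.comp fst)) snd)
    (pEnt (hB.comp (fst.comp fst)) snd (snd.comp (snd.comp fst)))

theorem pMone (hn : Primrec n) : Primrec fun a => mone (n a) :=
  pMk hn hn (Primrec.ite (Primrec.eq.comp (fst.comp snd) (snd.comp snd)) (Primrec.const 1)
    (Primrec.const 0))

theorem pMzero (hn : Primrec n) (hm : Primrec m) : Primrec fun a => mzero (n a) (m a) :=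
  pMk hn hm (Primrec.const 0)

theorem pMtr (hn : Primrec n) (hm : Primrec m) (hA : Primrec A) :
    Primrec fun a => mtr (n a) (m a) (A a) :=
  pMk hm hn (pEnt (hA.comp fst) (snd.comp snd) (fst.comp snd))

theorem pMpow (hn : Primrec n) (hA : Primrec A) (he : Primrec e) :
    Primrec fun a => mpow (n a) (A a) (e a) := by
  refine Primrec.nat_rec' (f := e) (g := fun a => mone (n a))
    (h := fun (a : α) (p : ℕ × IM) => mmul (n a) (n a) (n a) p.2 (A a)) he (pMone hn) ?_
  exact pMmul (hn.comp fst) (hn.comp fst) (hn.comp fst) (snd.comp snd) (hA.comp fst)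

theorem pMtrace (hn : Primrec n) (hA : Primrec A) : Primrec fun a => mtrace (n a) (A a) :=
  pSum (n := n) (f := fun (a : α) (i : ℕ) => ent (A a) i i) hn (pEnt (hA.comp fst) snd snd)

theorem pNorm (hn : Primrec n) (hm : Primrec m) (hA : Primrec A) :
    Primrec fun a => norm (n a) (m a) (A a) :=
  pMk hn hm (pEnt (hA.comp fst) (fst.comp snd) (snd.comp snd))

/-- equality of the matrices of two codes is primitive recursive -/
theorem pMatEq (hn : Primrec n) (hm : Primrec m) (hA : Primrec A) (hB : Primrec B) :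
    PrimrecPred fun a => toMat (n a) (m a) (A a) = toMat (n a) (m a) (B a) := by
  classical
  have h : PrimrecPred fun a => norm (n a) (m a) (A a) = norm (n a) (m a) (B a) :=
    Primrec.eq.comp (pNorm hn hm hA) (pNorm hn hm hB)
  exact h.of_eq fun _ => toMat_eq_iff.symm

/-! the same for computable functions -/

theorem cEnt (hA : Computable A) (hi : Computable i) (hj : Computable j) :
    Computable fun a => ent (A a) (i a) (j a) := by
  have h2 : Computable fun a => (A a, i a, j a) := Computable.pair hA (Computable.pair hi hj)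
  have h3 := primrec_ent.to_comp.comp h2
  exact h3

theorem cMadd (hn : Computable n) (hm : Computable m) (hA : Computable A) (hB : Computable B) :
    Computable fun a => madd (n a) (m a) (A a) (B a) := by
  have h : Primrec fun q : ℕ × ℕ × IM × IM => madd q.1 q.2.1 q.2.2.1 q.2.2.2 :=
    pMadd fst (fst.comp snd) (fst.comp (snd.comp snd)) (snd.comp (snd.comp snd))
  have h2 : Computable fun a => (n a, m a, A a, B a) :=
    Computable.pair hn (Computable.pair hm (Computable.pair hA hB))
  have h3 := h.to_comp.comp h2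
  exact h3

theorem cMsub (hn : Computable n) (hm : Computable m) (hA : Computable A) (hB : Computable B) :
    Computable fun a => msub (n a) (m a) (A a) (B a) := by
  have h : Primrec fun q : ℕ × ℕ × IM × IM => msub q.1 q.2.1 q.2.2.1 q.2.2.2 :=
    pMsub fst (fst.comp snd) (fst.comp (snd.comp snd)) (snd.comp (snd.comp snd))
  have h2 : Computable fun a => (n a, m a, A a, B a) :=
    Computable.pair hn (Computable.pair hm (Computable.pair hA hB))
  have h3 := h.to_comp.comp h2
  exact h3

theorem cMsmul (hn : Computable n) (hm : Computable m) (hc : Computable c) (hA : Computable A) :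
    Computable fun a => msmul (n a) (m a) (c a) (A a) := by
  have h : Primrec fun q : ℕ × ℕ × ℤ × IM => msmul q.1 q.2.1 q.2.2.1 q.2.2.2 :=
    pMsmul fst (fst.comp snd) (fst.comp (snd.comp snd)) (snd.comp (snd.comp snd))
  have h2 : Computable fun a => (n a, m a, c a, A a) :=
    Computable.pair hn (Computable.pair hm (Computable.pair hc hA))
  have h3 := h.to_comp.comp h2
  exact h3

theorem cMmul (hn : Computable n) (hk : Computable k) (hm : Computable m) (hA : Computable A)
    (hB : Computable B) : Computable fun a => mmul (n a) (k a) (m a) (A a) (B a) := by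
  have h : Primrec fun q : ℕ × ℕ × ℕ × IM × IM => mmul q.1 q.2.1 q.2.2.1 q.2.2.2.1 q.2.2.2.2 :=
    pMmul fst (fst.comp snd) (fst.comp (snd.comp snd)) (fst.comp (snd.comp (snd.comp snd)))
      (snd.comp (snd.comp (snd.comp snd)))
  have h2 : Computable fun a => (n a, k a, m a, A a, B a) :=
    Computable.pair hn (Computable.pair hk (Computable.pair hm (Computable.pair hA hB)))
  have h3 := h.to_comp.comp h2
  exact h3

theorem cMone (hn : Computable n) : Computable fun a => mone (n a) := by
  have h : Primrec fun q : ℕ => mone q := pMone Primrec.id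
  have h3 := h.to_comp.comp hn
  exact h3

theorem cMzero (hn : Computable n) (hm : Computable m) : Computable fun a => mzero (n a) (m a) := by
  have h : Primrec fun q : ℕ × ℕ => mzero q.1 q.2 := pMzero fst snd
  have h2 : Computable fun a => (n a, m a) := Computable.pair hn hm
  have h3 := h.to_comp.comp h2
  exact h3

theorem cMtr (hn : Computable n) (hm : Computable m) (hA : Computable A) :
    Computable fun a => mtr (n a) (m a) (A a) := by
  have h : Primrec fun q : ℕ × ℕ × IM => mtr q.1 q.2.1 q.2.2 :=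
    pMtr fst (fst.comp snd) (snd.comp snd)
  have h2 : Computable fun a => (n a, m a, A a) := Computable.pair hn (Computable.pair hm hA)
  have h3 := h.to_comp.comp h2
  exact h3

theorem cMpow (hn : Computable n) (hA : Computable A) (he : Computable e) :
    Computable fun a => mpow (n a) (A a) (e a) := by
  have h : Primrec fun q : ℕ × IM × ℕ => mpow q.1 q.2.1 q.2.2 :=
    pMpow fst (fst.comp snd) (snd.comp snd)
  have h2 : Computable fun a => (n a, A a, e a) := Computable.pair hn (Computable.pair hA he)
  have h3 := h.to_comp.comp h2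
  exact h3

theorem cMtrace (hn : Computable n) (hA : Computable A) :
    Computable fun a => mtrace (n a) (A a) := by
  have h : Primrec fun q : ℕ × IM => mtrace q.1 q.2 := pMtrace fst snd
  have h2 : Computable fun a => (n a, A a) := Computable.pair hn hA
  have h3 := h.to_comp.comp h2
  exact h3

theorem cNorm (hn : Computable n) (hm : Computable m) (hA : Computable A) :
    Computable fun a => norm (n a) (m a) (A a) := by
  have h : Primrec fun q : ℕ × ℕ × IM => norm q.1 q.2.1 q.2.2 :=
    pNorm fst (fst.comp snd) (snd.comp snd)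
  have h2 : Computable fun a => (n a, m a, A a) := Computable.pair hn (Computable.pair hm hA)
  have h3 := h.to_comp.comp h2
  exact h3

theorem re_matEq (hn : Computable n) (hm : Computable m) (hA : Computable A)
    (hB : Computable B) :
    REPred fun a => toMat (n a) (m a) (A a) = toMat (n a) (m a) (B a) :=
  (re_eq (cNorm hn hm hA) (cNorm hn hm hB)).of_eq fun _ => toMat_eq_iff.symm

theorem re_matNe (hn : Computable n) (hm : Computable m) (hA : Computable A)
    (hB : Computable B) :
    REPred fun a => toMat (n a) (m a) (A a) ≠ toMat (n a) (m a) (B a) :=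
  (re_ne (cNorm hn hm hA) (cNorm hn hm hB)).of_eq fun _ => (not_congr toMat_eq_iff).symm

/-- bounded universal quantification over integer matrices -/
theorem re_forall_mats {F : α → ℕ} {Q : (a : α) → Matrix (Fin (n a)) (Fin (m a)) ℤ → Prop}
    (hn : Computable n) (hm : Computable m) (hF : Computable F)
    (hQ : REPred fun q : α × IM => Q q.1 (toMat (n q.1) (m q.1) q.2)) :
    REPred fun a => ∀ M : Matrix (Fin (n a)) (Fin (m a)) ℤ,
      (∀ i j, |M i j| ≤ (F a : ℤ)) → Q a M := by
  have h : Computable fun a => mats (n a) (m a) (F a) := by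
    have h2 : Computable fun a => (n a, m a, F a) := Computable.pair hn (Computable.pair hm hF)
    have h3 := primrec_mats.to_comp.comp h2
    exact h3
  have h4 := re_forall_mem (R := fun (a : α) (L : IM) => Q a (toMat (n a) (m a) L)) hQ h
  exact h4.of_eq fun _ => forall_mats_iff.symm

/-- existential quantification over integer matrices -/
theorem re_exists_mat {Q : (a : α) → Matrix (Fin (n a)) (Fin (m a)) ℤ → Prop}
    (hQ : REPred fun q : α × IM => Q q.1 (toMat (n q.1) (m q.1) q.2)) :
    REPred fun a => ∃ M : Matrix (Fin (n a)) (Fin (m a)) ℤ, Q a M :=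
  (re_exists (R := fun (a : α) (L : IM) => Q a (toMat (n a) (m a) L)) hQ).of_eq
    fun _ => exists_mat_iff.symm

end prim

end Pool.Agent.DEC
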