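import Pool.Agent.FT.Cond
import Pool.Agent.DEC.EntEq
import Pool.Agent.DEC.Mat
/-! DEC project (MP_59dda0_an): the periodic point condition and all conditions of the form
`tr (B ^ n) = 0 → T n` are decided by finitely many `n`; recursive enumerability of the entropy
certificates and of the period condition. -/
namespace Pool.Agent.DEC
open Matrix
open Pool.Agent.FT (IsPrimitive HasEntropy edgeShift Edge src tgt PeriodCondition)

/-! ### periodic points and traces -/

theorem pow_pos_iff {n : ℕ} (A : Matrix (Fin n) (Fin n) ℕ) (k : ℕ) (i j : Fin n) :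
    0 < (A ^ k) i j ↔ ∃ w : ℕ → Fin n, w 0 = i ∧ w k = j ∧ ∀ t < k, 0 < A (w t) (w (t + 1)) := by
  induction k generalizing i with
  | zero =>
    rw [pow_zero, Matrix.one_apply]
    constructor
    · intro h
      split_ifs at h with e
      · exact ⟨fun _ => i, rfl, e, fun t ht => absurd ht (Nat.not_lt_zero t)⟩
      · exact absurd h (lt_irrefl _)
    · rintro ⟨w, h0, h1, -⟩
      rw [if_pos (h0.symm.trans h1)]
      exact one_pos
  | succ k ih =>
    rw [pow_succ', Matrix.mul_apply]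
    constructor
    · intro h
      obtain ⟨l, -, hl⟩ := Finset.exists_ne_zero_of_sum_ne_zero h.ne'
      have h1 : 0 < A i l := Nat.pos_of_ne_zero (left_ne_zero_of_mul hl)
      have h2 : 0 < (A ^ k) l j := Nat.pos_of_ne_zero (right_ne_zero_of_mul hl)
      obtain ⟨w, hw0, hwk, hw⟩ := (ih l).1 h2
      refine ⟨fun t => Nat.casesOn t i w, rfl, hwk, fun t ht => ?_⟩
      cases t with
      | zero =>
        change 0 < A i (w 0)
        rw [hw0]
        exact h1
      | succ t => exact hw t (by omega)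
    · rintro ⟨w, hw0, hwk, hw⟩
      have h1 : 0 < A i (w 1) := by rw [← hw0]; exact hw 0 (Nat.succ_pos k)
      have h2 : 0 < (A ^ k) (w 1) j :=
        (ih (w 1)).2 ⟨fun t => w (t + 1), rfl, hwk, fun t ht => hw (t + 1) (by omega)⟩
      exact lt_of_lt_of_le (Nat.mul_pos h1 h2)
        (Finset.single_le_sum (f := fun l => A i l * (A ^ k) l j) (fun _ _ => Nat.zero_le _)
          (Finset.mem_univ (w 1)))

theorem trace_pos_iff {n : ℕ} (A : Matrix (Fin n) (Fin n) ℕ) :
    A.trace ≠ 0 ↔ ∃ i, 0 < A i i := by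
  unfold Matrix.trace
  constructor
  · intro h
    obtain ⟨i, -, hi⟩ := Finset.exists_ne_zero_of_sum_ne_zero h
    exact ⟨i, Nat.pos_of_ne_zero hi⟩
  · rintro ⟨i, hi⟩ h
    have := (Finset.sum_eq_zero_iff.1 h) i (Finset.mem_univ i)
    rw [Matrix.diag_apply] at this
    omega

/-- points of period `n` exist exactly if the trace of `A ^ n` is not zero -/
theorem exists_periodic_iff {a : ℕ} (A : Matrix (Fin a) (Fin a) ℕ) {n : ℕ} (hn : 0 < n) :
    (∃ x ∈ edgeShift A, ∀ i : ℤ, x (i + n) = x i) ↔ (A ^ n).trace ≠ 0 := by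
  rw [trace_pos_iff]
  constructor
  · rintro ⟨x, hx, hp⟩
    refine ⟨src (x 0), (pow_pos_iff A n _ _).2 ⟨fun t => src (x t), by simp, ?_, fun t _ => ?_⟩⟩
    · have := hp 0
      rw [zero_add] at this
      change src (x n) = src (x 0)
      rw [this]
    · have h1 : tgt (x (t : ℤ)) = src (x ((t : ℤ) + 1)) := hx t
      have h2 : 0 < A (src (x t)) (tgt (x t)) := lt_of_le_of_lt (Nat.zero_le _) (x t).2.2
      rw [h1] at h2
      have e : ((t + 1 : ℕ) : ℤ) = (t : ℤ) + 1 := by push_cast; rfl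
      change 0 < A (src (x (t : ℤ))) (src (x ((t + 1 : ℕ) : ℤ)))
      rw [e]
      exact h2
  · rintro ⟨i, hi⟩
    obtain ⟨w, hw0, hwn, hw⟩ := (pow_pos_iff A n i i).1 hi
    have hnz : (n : ℤ) ≠ 0 := by exact_mod_cast hn.ne'
    let v : ℤ → Fin a := fun t => w (t % n).toNat
    have hv : ∀ t : ℤ, 0 < A (v t) (v (t + 1)) := by
      intro t
      have h1 : 0 ≤ t % (n : ℤ) := Int.emod_nonneg _ hnz
      have h2 : t % (n : ℤ) < n := Int.emod_lt_of_pos _ (by exact_mod_cast hn)
      have h3 : (t % (n : ℤ)).toNat < n := by omega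
      have key := hw _ h3
      rcases eq_or_ne ((t % (n : ℤ)) + 1) n with h | h
      · have e1 : (t + 1) % (n : ℤ) = 0 := by
          rw [Int.add_emod]
          have e2 : t % (n : ℤ) + 1 % (n : ℤ) = t % n + 1 % n := rfl
          rcases eq_or_ne n 1 with e3 | e3
          · subst e3
            simp
          · have e4 : (1 : ℤ) % n = 1 := Int.emod_eq_of_lt (by norm_num) (by omega)
            rw [e4, h, Int.emod_self]
        have e5 : (t % (n : ℤ)).toNat + 1 = n := by omega
        change 0 < A (w (t % (n : ℤ)).toNat) (w ((t + 1) % (n : ℤ)).toNat)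
        rw [e1]
        rw [e5, hwn, ← hw0] at key
        exact key
      · have e4 : (t + 1) % (n : ℤ) = t % n + 1 := by
          have h5 : t % (n : ℤ) + 1 < n := by omega
          rw [Int.add_emod]
          rcases eq_or_ne n 1 with e3 | e3
          · subst e3
            omega
          · have e4 : (1 : ℤ) % n = 1 := Int.emod_eq_of_lt (by norm_num) (by omega)
            rw [e4]
            exact Int.emod_eq_of_lt (by omega) h5
        have e5 : ((t + 1) % (n : ℤ)).toNat = (t % (n : ℤ)).toNat + 1 := by omega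
        change 0 < A (w (t % (n : ℤ)).toNat) (w ((t + 1) % (n : ℤ)).toNat)
        rw [e5]
        exact key
    refine ⟨fun t => ⟨(v t, v (t + 1)), ⟨0, hv t⟩⟩, fun t => rfl, fun t => ?_⟩
    have e1 : ∀ t : ℤ, v (t + n) = v t := fun t => by
      change w ((t + n) % (n : ℤ)).toNat = w (t % (n : ℤ)).toNat
      rw [Int.add_emod_right]
    have e2 : v (t + n + 1) = v (t + 1) := by rw [← e1 (t + 1)]; congr 1; ring
    have key : ∀ (p q p' q' : Fin a) (h : 0 < A p q) (h' : 0 < A p' q'), p = p' → q = q' →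
        (⟨(p, q), ⟨0, h⟩⟩ : Edge A) = ⟨(p', q'), ⟨0, h'⟩⟩ := by
      intro p q p' q' h h' e3 e4
      subst e3
      subst e4
      rfl
    exact key _ _ _ _ _ _ (e1 t) e2

/-- the periodic point condition in terms of traces -/
theorem periodCondition_iff {a b : ℕ} (A : Matrix (Fin a) (Fin a) ℕ)
    (B : Matrix (Fin b) (Fin b) ℕ) :
    PeriodCondition (edgeShift A) (edgeShift B) ↔
      ∀ n : ℕ, 0 < n → (B ^ n).trace = 0 → (A ^ n).trace = 0 := by
  unfold PeriodCondition
  refine forall_congr' fun n => forall_congr' fun hn => ?_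
  rw [exists_periodic_iff A hn, exists_periodic_iff B hn]
  tauto

/-! ### bounded search for periods -/

theorem pow_pos_of_le {n : ℕ} {B : Matrix (Fin n) (Fin n) ℕ} {k : ℕ} (hk : 0 < k)
    (h : ∀ i j, 0 < (B ^ k) i j) {m : ℕ} (hm : k ≤ m) : ∀ i j, 0 < (B ^ m) i j := by
  induction m, hm using Nat.le_induction with
  | base => exact h
  | succ m hm ih =>
    intro i j
    rw [pow_succ, Matrix.mul_apply]
    have h1 : ∃ l, 0 < B l j := by
      obtain ⟨k', rfl⟩ : ∃ k', k = k' + 1 := ⟨k - 1, by omega⟩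
      have h2 := h i j
      rw [pow_succ, Matrix.mul_apply] at h2
      obtain ⟨l, -, hl⟩ := Finset.exists_ne_zero_of_sum_ne_zero h2.ne'
      exact ⟨l, Nat.pos_of_ne_zero (right_ne_zero_of_mul hl)⟩
    obtain ⟨l, hl⟩ := h1
    exact lt_of_lt_of_le (Nat.mul_pos (ih i l) hl)
      (Finset.single_le_sum (f := fun l => (B ^ m) i l * B l j) (fun _ _ => Nat.zero_le _)
        (Finset.mem_univ l))

/-- a condition for all `n ≥ 1` with `tr (B ^ n) = 0` is a condition for `n < k`, where `B ^ k > 0` -/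
theorem forall_trace_iff {b : ℕ} {B : Matrix (Fin b) (Fin b) ℕ} (hB : IsPrimitive B)
    (T : ℕ → Prop) : (∀ n, 0 < n → (B ^ n).trace = 0 → T n) ↔
      ∃ k, 0 < k ∧ (∀ i < b, ∀ j < b, (if h : i < b ∧ j < b then
        ((B ^ k) ⟨i, h.1⟩ ⟨j, h.2⟩) else 0) ≠ 0) ∧
        ∀ n < k, n = 0 ∨ (B ^ n).trace ≠ 0 ∨ T n := by
  obtain ⟨hb, k, hk, hpos⟩ := hB
  constructor
  · intro h
    refine ⟨k, hk, fun i hi j hj => ?_, fun n _ => ?_⟩
    · rw [dif_pos (And.intro hi hj)]
      exact (hpos _ _).ne'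
    · rcases Nat.eq_zero_or_pos n with h0 | h0
      · exact Or.inl h0
      · by_cases h1 : (B ^ n).trace = 0
        · exact Or.inr (Or.inr (h n h0 h1))
        · exact Or.inr (Or.inl h1)
  · rintro ⟨k', hk', hpos', h⟩ n hn htr
    have hp : ∀ i j, 0 < (B ^ k') i j := fun i j => by
      have := hpos' i i.2 j j.2
      rw [dif_pos (And.intro i.2 j.2)] at this
      exact Nat.pos_of_ne_zero this
    rcases Nat.lt_or_ge n k' with h1 | h1
    · rcases h n h1 with h2 | h2 | h2
      · omega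
      · exact absurd htr h2
      · exact h2
    · exact absurd htr ((trace_pos_iff _).2 ⟨⟨0, hb⟩, pow_pos_of_le hk' hp h1 _ _⟩)

/-! ### nonnegative integer matrices of codes -/

/-- the nonnegative integer matrix of a code -/
def natMat (n m : ℕ) (L : IM) : Matrix (Fin n) (Fin m) ℕ := Matrix.of fun i j => (ent L i j).toNat

/-- the code with the negative entries replaced by zero -/
def nrm (n m : ℕ) (L : IM) : IM := mk n m fun i j => ((ent L i j).toNat : ℤ)

theorem toMat_nrm (n m : ℕ) (L : IM) : toMat n m (nrm n m L) = zM (natMat n m L) := by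
  unfold nrm
  rw [toMat_mk]
  rfl

theorem natMat_ofMat {n m : ℕ} (A : Matrix (Fin n) (Fin m) ℕ) : natMat n m (ofMat (zM A)) = A := by
  ext i j
  have h := congrFun (congrFun (toMat_ofMat (zM A)) i) j
  simp only [toMat_apply, Matrix.map_apply] at h
  simp only [natMat, Matrix.of_apply, h, Int.toNat_natCast]

section prim
variable {α : Type*} [Primcodable α]

theorem pNrm {n m : α → ℕ} {A : α → IM} (hn : Primrec n) (hm : Primrec m) (hA : Primrec A) :
    Primrec fun a => nrm (n a) (m a) (A a) := by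
  refine pMk hn hm ?_
  have h : Primrec fun q : α × ℕ × ℕ => ent (A q.1) q.2.1 q.2.2 :=
    pEnt (hA.comp .fst) (Primrec.fst.comp .snd) (Primrec.snd.comp .snd)
  exact primrec_natCast.comp (primrec_toNat.comp h)

theorem cNrm {n m : α → ℕ} {A : α → IM} (hn : Computable n) (hm : Computable m)
    (hA : Computable A) : Computable fun a => nrm (n a) (m a) (A a) := by
  have h : Primrec fun q : ℕ × ℕ × IM => nrm q.1 q.2.1 q.2.2 :=
    pNrm .fst (Primrec.fst.comp .snd) (Primrec.snd.comp .snd)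
  have h2 : Computable fun a => (n a, m a, A a) := Computable.pair hn (Computable.pair hm hA)
  have h3 := h.to_comp.comp h2
  exact h3

theorem forall_fin_iff {n : ℕ} {P : ℕ → Prop} : (∀ i : Fin n, P i) ↔ ∀ i < n, P i :=
  ⟨fun h i hi => h ⟨i, hi⟩, fun h i => h i i.2⟩

theorem exists_fin_iff {n : ℕ} {P : ℕ → Prop} : (∃ i : Fin n, P i) ↔ ∃ i < n, P i :=
  ⟨fun ⟨i, h⟩ => ⟨i, i.2, h⟩, fun ⟨i, hi, h⟩ => ⟨⟨i, hi⟩, h⟩⟩

theorem natMat_pow (n : ℕ) (L : IM) (k : ℕ) (i j : Fin n) :
    (((natMat n n L ^ k) i j : ℕ) : ℤ) = ent (mpow n (nrm n n L) k) i j := by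
  have h : toMat n n (mpow n (nrm n n L) k) = zM (natMat n n L ^ k) := by
    rw [toMat_mpow, toMat_nrm, zM_pow]
  have := congrFun (congrFun h i) j
  simp only [toMat_apply, Matrix.map_apply] at this
  exact this.symm

theorem natMat_trace_pow (n : ℕ) (L : IM) (k : ℕ) :
    (((natMat n n L ^ k).trace : ℕ) : ℤ) = mtrace n (mpow n (nrm n n L) k) := by
  rw [mtrace_eq, toMat_mpow, toMat_nrm, ← zM_pow]
  unfold Matrix.trace
  push_cast
  rfl

/-- `tr (A ^ k) = 0` is decidable -/
theorem re_trace_eq {n k : α → ℕ} {A : α → IM} (hn : Computable n) (hA : Computable A)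
    (hk : Computable k) : REPred fun a => (natMat (n a) (n a) (A a) ^ k a).trace = 0 := by
  have h1 : Computable fun a => mtrace (n a) (mpow (n a) (nrm (n a) (n a) (A a)) (k a)) :=
    cMtrace hn (cMpow hn (cNrm hn hn hA) hk)
  refine (re_eq h1 (Computable.const 0)).of_eq fun a => ?_
  rw [← natMat_trace_pow]
  exact_mod_cast Iff.rfl

theorem re_trace_ne {n k : α → ℕ} {A : α → IM} (hn : Computable n) (hA : Computable A)
    (hk : Computable k) : REPred fun a => (natMat (n a) (n a) (A a) ^ k a).trace ≠ 0 := by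
  have h1 : Computable fun a => mtrace (n a) (mpow (n a) (nrm (n a) (n a) (A a)) (k a)) :=
    cMtrace hn (cMpow hn (cNrm hn hn hA) hk)
  refine (re_ne h1 (Computable.const 0)).of_eq fun a => ?_
  rw [← natMat_trace_pow]
  exact_mod_cast Iff.rfl

/-- primitivity is r.e. -/
theorem re_isPrimitive {n : α → ℕ} {A : α → IM} (hn : Computable n) (hA : Computable A) :
    REPred fun a => IsPrimitive (natMat (n a) (n a) (A a)) := by
  have h1 : REPred fun q : ((α × ℕ) × ℕ) × ℕ =>
      ent (mpow (n q.1.1.1) (nrm (n q.1.1.1) (n q.1.1.1) (A q.1.1.1)) q.1.1.2) q.1.2 q.2 ≠ 0 := by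
    have hn' : Computable fun q : ((α × ℕ) × ℕ) × ℕ => n q.1.1.1 :=
      hn.comp (Computable.fst.comp (Computable.fst.comp Computable.fst))
    have hA' : Computable fun q : ((α × ℕ) × ℕ) × ℕ => A q.1.1.1 :=
      hA.comp (Computable.fst.comp (Computable.fst.comp Computable.fst))
    have hk' : Computable fun q : ((α × ℕ) × ℕ) × ℕ => q.1.1.2 :=
      Computable.snd.comp (Computable.fst.comp Computable.fst)
    have hi' : Computable fun q : ((α × ℕ) × ℕ) × ℕ => q.1.2 :=
      Computable.snd.comp Computable.fst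
    exact re_ne (cEnt (cMpow hn' (cNrm hn' hn' hA') hk') hi' Computable.snd) (Computable.const 0)
  have h2 : REPred fun q : (α × ℕ) × ℕ => ∀ j < n q.1.1,
      ent (mpow (n q.1.1) (nrm (n q.1.1) (n q.1.1) (A q.1.1)) q.1.2) q.2 j ≠ 0 :=
    re_forall_lt (R := fun (q : (α × ℕ) × ℕ) (j : ℕ) =>
      ent (mpow (n q.1.1) (nrm (n q.1.1) (n q.1.1) (A q.1.1)) q.1.2) q.2 j ≠ 0) h1
      (f := fun q => n q.1.1) (hn.comp (Computable.fst.comp Computable.fst))
  have h3 : REPred fun q : α × ℕ => ∀ i < n q.1, ∀ j < n q.1,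
      ent (mpow (n q.1) (nrm (n q.1) (n q.1) (A q.1)) q.2) i j ≠ 0 :=
    re_forall_lt (R := fun (q : α × ℕ) (i : ℕ) => ∀ j < n q.1,
      ent (mpow (n q.1) (nrm (n q.1) (n q.1) (A q.1)) q.2) i j ≠ 0) h2
      (f := fun q => n q.1) (hn.comp Computable.fst)
  have h4 : REPred fun q : α × ℕ => q.2 ≠ 0 := re_ne Computable.snd (Computable.const 0)
  have h5 : REPred fun a : α => ∃ k : ℕ, k ≠ 0 ∧ ∀ i < n a, ∀ j < n a,
      ent (mpow (n a) (nrm (n a) (n a) (A a)) k) i j ≠ 0 :=
    re_exists (R := fun (a : α) (k : ℕ) => k ≠ 0 ∧ ∀ i < n a, ∀ j < n a,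
      ent (mpow (n a) (nrm (n a) (n a) (A a)) k) i j ≠ 0) (re_and h4 h3)
  refine (re_and (re_ne hn (Computable.const 0)) h5).of_eq fun a => ?_
  unfold Pool.Agent.FT.IsPrimitive
  rw [Nat.pos_iff_ne_zero]
  refine and_congr Iff.rfl (exists_congr fun k => ?_)
  rw [Nat.pos_iff_ne_zero]
  refine and_congr Iff.rfl ?_
  rw [← forall_fin_iff (P := fun i => ∀ j < n a, ent (mpow (n a) (nrm (n a) (n a) (A a)) k) i j ≠ 0)]
  refine forall_congr' fun i => ?_
  rw [← forall_fin_iff (P := fun j => ent (mpow (n a) (nrm (n a) (n a) (A a)) k) i j ≠ 0)]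
  refine forall_congr' fun j => ?_
  rw [← natMat_pow, Nat.pos_iff_ne_zero]
  exact_mod_cast Iff.rfl

/-- **Conditions on periods.**  If `T` is r.e. then on the promise that `B` is primitive the
condition `∀ n ≥ 1, tr (B ^ n) = 0 → T n` is r.e. -/
theorem re_forall_trace {b : α → ℕ} {B : α → IM} (hb : Computable b) (hB : Computable B)
    {T : α → ℕ → Prop} (hT : REPred fun p : α × ℕ => T p.1 p.2) :
    REPred fun a => IsPrimitive (natMat (b a) (b a) (B a)) ∧
      ∀ n, 0 < n → (natMat (b a) (b a) (B a) ^ n).trace = 0 → T a n := by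
  have h1 : REPred fun q : ((α × ℕ) × ℕ) × ℕ =>
      ent (mpow (b q.1.1.1) (nrm (b q.1.1.1) (b q.1.1.1) (B q.1.1.1)) q.1.1.2) q.1.2 q.2 ≠ 0 := by
    have hn' : Computable fun q : ((α × ℕ) × ℕ) × ℕ => b q.1.1.1 :=
      hb.comp (Computable.fst.comp (Computable.fst.comp Computable.fst))
    have hA' : Computable fun q : ((α × ℕ) × ℕ) × ℕ => B q.1.1.1 :=
      hB.comp (Computable.fst.comp (Computable.fst.comp Computable.fst))
    have hk' : Computable fun q : ((α × ℕ) × ℕ) × ℕ => q.1.1.2 :=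
      Computable.snd.comp (Computable.fst.comp Computable.fst)
    have hi' : Computable fun q : ((α × ℕ) × ℕ) × ℕ => q.1.2 :=
      Computable.snd.comp Computable.fst
    exact re_ne (cEnt (cMpow hn' (cNrm hn' hn' hA') hk') hi' Computable.snd) (Computable.const 0)
  have h2 : REPred fun q : (α × ℕ) × ℕ => ∀ j < b q.1.1,
      ent (mpow (b q.1.1) (nrm (b q.1.1) (b q.1.1) (B q.1.1)) q.1.2) q.2 j ≠ 0 :=
    re_forall_lt (R := fun (q : (α × ℕ) × ℕ) (j : ℕ) =>
      ent (mpow (b q.1.1) (nrm (b q.1.1) (b q.1.1) (B q.1.1)) q.1.2) q.2 j ≠ 0) h1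
      (f := fun q => b q.1.1) (hb.comp (Computable.fst.comp Computable.fst))
  have h3 : REPred fun q : α × ℕ => ∀ i < b q.1, ∀ j < b q.1,
      ent (mpow (b q.1) (nrm (b q.1) (b q.1) (B q.1)) q.2) i j ≠ 0 :=
    re_forall_lt (R := fun (q : α × ℕ) (i : ℕ) => ∀ j < b q.1,
      ent (mpow (b q.1) (nrm (b q.1) (b q.1) (B q.1)) q.2) i j ≠ 0) h2
      (f := fun q => b q.1) (hb.comp Computable.fst)
  have h4 : REPred fun q : α × ℕ => q.2 ≠ 0 := re_ne Computable.snd (Computable.const 0)
  have h6 : REPred fun q : (α × ℕ) × ℕ => q.2 = 0 ∨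
      (natMat (b q.1.1) (b q.1.1) (B q.1.1) ^ q.2).trace ≠ 0 ∨ T q.1.1 q.2 := by
    have hb' : Computable fun q : (α × ℕ) × ℕ => b q.1.1 :=
      hb.comp (Computable.fst.comp Computable.fst)
    have hB' : Computable fun q : (α × ℕ) × ℕ => B q.1.1 :=
      hB.comp (Computable.fst.comp Computable.fst)
    have hc : Computable fun q : (α × ℕ) × ℕ => (q.1.1, q.2) :=
      Computable.pair (Computable.fst.comp Computable.fst) Computable.snd
    exact re_or (re_eq Computable.snd (Computable.const 0))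
      (re_or (re_trace_ne hb' hB' Computable.snd) (re_comp hT hc))
  have h7 : REPred fun q : α × ℕ => ∀ n < q.2, n = 0 ∨
      (natMat (b q.1) (b q.1) (B q.1) ^ n).trace ≠ 0 ∨ T q.1 n :=
    re_forall_lt (R := fun (q : α × ℕ) (n : ℕ) => n = 0 ∨
      (natMat (b q.1) (b q.1) (B q.1) ^ n).trace ≠ 0 ∨ T q.1 n) h6
      (f := fun q => q.2) Computable.snd
  have h5 : REPred fun a : α => ∃ k : ℕ, k ≠ 0 ∧ (∀ i < b a, ∀ j < b a,
      ent (mpow (b a) (nrm (b a) (b a) (B a)) k) i j ≠ 0) ∧ ∀ n < k, n = 0 ∨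
      (natMat (b a) (b a) (B a) ^ n).trace ≠ 0 ∨ T a n :=
    re_exists (R := fun (a : α) (k : ℕ) => k ≠ 0 ∧ (∀ i < b a, ∀ j < b a,
      ent (mpow (b a) (nrm (b a) (b a) (B a)) k) i j ≠ 0) ∧ ∀ n < k, n = 0 ∨
      (natMat (b a) (b a) (B a) ^ n).trace ≠ 0 ∨ T a n) (re_and h4 (re_and h3 h7))
  refine (re_and (re_isPrimitive hb hB) h5).of_eq fun a => and_congr_right fun hp => ?_
  rw [forall_trace_iff hp (T a)]
  refine exists_congr fun k => ?_
  rw [Nat.pos_iff_ne_zero]
  refine and_congr Iff.rfl (and_congr ?_ Iff.rfl)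
  refine forall_congr' fun i => forall_congr' fun hi => forall_congr' fun j => forall_congr' fun hj => ?_
  rw [dif_pos (And.intro hi hj)]
  have := natMat_pow (b a) (B a) k ⟨i, hi⟩ ⟨j, hj⟩
  rw [← this]
  exact_mod_cast Iff.rfl

/-- the period condition is r.e. (on the promise that `B` is primitive) -/
theorem re_period {a b : α → ℕ} {A B : α → IM} (ha : Computable a) (hb : Computable b)
    (hA : Computable A) (hB : Computable B) :
    REPred fun x => IsPrimitive (natMat (b x) (b x) (B x)) ∧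
      PeriodCondition (edgeShift (natMat (a x) (a x) (A x))) (edgeShift (natMat (b x) (b x) (B x))) := by
  have hT : REPred fun p : α × ℕ => (natMat (a p.1) (a p.1) (A p.1) ^ p.2).trace = 0 :=
    re_trace_eq (ha.comp Computable.fst) (hA.comp Computable.fst) Computable.snd
  refine (re_forall_trace hb hB (T := fun x n => (natMat (a x) (a x) (A x) ^ n).trace = 0)
    hT).of_eq fun x => ?_
  rw [periodCondition_iff]

/-- the failure of the period condition is r.e. -/
theorem re_not_period {a b : α → ℕ} {A B : α → IM} (ha : Computable a) (hb : Computable b)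
    (hA : Computable A) (hB : Computable B) :
    REPred fun x =>
      ¬ PeriodCondition (edgeShift (natMat (a x) (a x) (A x))) (edgeShift (natMat (b x) (b x) (B x))) := by
  have h1 : REPred fun p : α × ℕ => p.2 ≠ 0 ∧ (natMat (b p.1) (b p.1) (B p.1) ^ p.2).trace = 0 ∧
      (natMat (a p.1) (a p.1) (A p.1) ^ p.2).trace ≠ 0 :=
    re_and (re_ne Computable.snd (Computable.const 0))
      (re_and (re_trace_eq (hb.comp Computable.fst) (hB.comp Computable.fst) Computable.snd)
        (re_trace_ne (ha.comp Computable.fst) (hA.comp Computable.fst) Computable.snd))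
  refine (re_exists (R := fun (x : α) (n : ℕ) => n ≠ 0 ∧
    (natMat (b x) (b x) (B x) ^ n).trace = 0 ∧ (natMat (a x) (a x) (A x) ^ n).trace ≠ 0) h1).of_eq
    fun x => ?_
  rw [periodCondition_iff]
  push Not
  refine exists_congr fun n => ?_
  rw [Nat.pos_iff_ne_zero]

/-- the certificate for equal entropy is r.e. -/
theorem re_entropy_eq {a b : α → ℕ} {A B : α → IM} (ha : Computable a) (hb : Computable b)
    (hA : Computable A) (hB : Computable B) :
    REPred fun x => ∃ R : Matrix (Fin (a x)) (Fin (b x)) ℤ, (∀ i j, 0 < R i j) ∧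
      zM (natMat (a x) (a x) (A x)) * R = R * zM (natMat (b x) (b x) (B x)) := by
  refine re_exists_mat ?_
  have ha' : Computable fun q : α × IM => a q.1 := ha.comp Computable.fst
  have hb' : Computable fun q : α × IM => b q.1 := hb.comp Computable.fst
  have hA' : Computable fun q : α × IM => A q.1 := hA.comp Computable.fst
  have hB' : Computable fun q : α × IM => B q.1 := hB.comp Computable.fst
  refine re_and ?_ ?_
  · have h1 : REPred fun q : ((α × IM) × ℕ) × ℕ => 0 < ent q.1.1.2 q.1.2 q.2 :=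
      re_int_lt (Computable.const 0) (cEnt (Computable.snd.comp (Computable.fst.comp
        Computable.fst)) (Computable.snd.comp Computable.fst) Computable.snd)
    have h2 : REPred fun q : (α × IM) × ℕ => ∀ j < b q.1.1, 0 < ent q.1.2 q.2 j :=
      re_forall_lt (R := fun (q : (α × IM) × ℕ) (j : ℕ) => 0 < ent q.1.2 q.2 j) h1
        (f := fun q => b q.1.1) (hb'.comp Computable.fst)
    have h3 : REPred fun q : α × IM => ∀ i < a q.1, ∀ j < b q.1, 0 < ent q.2 i j :=
      re_forall_lt (R := fun (q : α × IM) (i : ℕ) => ∀ j < b q.1, 0 < ent q.2 i j) h2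
        (f := fun q => a q.1) ha'
    refine h3.of_eq fun q => ?_
    rw [← forall_fin_iff (P := fun i => ∀ j < b q.1, 0 < ent q.2 i j)]
    refine forall_congr' fun i => ?_
    rw [← forall_fin_iff (P := fun j => 0 < ent q.2 i j)]
    rfl
  · have h1 : REPred fun q : α × IM =>
        toMat (a q.1) (b q.1) (mmul (a q.1) (a q.1) (b q.1) (nrm (a q.1) (a q.1) (A q.1)) q.2) =
        toMat (a q.1) (b q.1) (mmul (a q.1) (b q.1) (b q.1) q.2 (nrm (b q.1) (b q.1) (B q.1))) :=
      re_matEq ha' hb' (cMmul ha' ha' hb' (cNrm ha' ha' hA') Computable.snd)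
        (cMmul ha' hb' hb' Computable.snd (cNrm hb' hb' hB'))
    refine h1.of_eq fun q => ?_
    rw [toMat_mmul, toMat_mmul, toMat_nrm, toMat_nrm]

/-- the certificate for unequal entropy is r.e. -/
theorem re_rowLt {a b : α → ℕ} {A B : α → IM} (ha : Computable a) (hb : Computable b)
    (hA : Computable A) (hB : Computable B) :
    REPred fun x => RowLt (natMat (a x) (a x) (A x)) (natMat (b x) (b x) (B x)) := by
  have hsum : ∀ {β : Type _} [Primcodable β] {n i k : β → ℕ} {M : β → IM}, Computable n →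
      Computable i → Computable k → Computable M →
      Computable fun x => ∑ l ∈ Finset.range (n x), ent (mpow (n x) (nrm (n x) (n x) (M x)) (k x)) (i x) l := by
    intro β _ n i k M hn hi hk hM
    have h : Primrec fun q : ℕ × ℕ × ℕ × IM =>
        ∑ l ∈ Finset.range q.1, ent (mpow q.1 (nrm q.1 q.1 q.2.2.2) q.2.2.1) q.2.1 l := by
      refine pSum (n := fun q : ℕ × ℕ × ℕ × IM => q.1)
        (f := fun (q : ℕ × ℕ × ℕ × IM) (l : ℕ) =>
          ent (mpow q.1 (nrm q.1 q.1 q.2.2.2) q.2.2.1) q.2.1 l) .fst ?_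
      have e1 : Primrec fun p : (ℕ × ℕ × ℕ × IM) × ℕ => p.1.1 := Primrec.fst.comp .fst
      have e2 : Primrec fun p : (ℕ × ℕ × ℕ × IM) × ℕ => p.1.2.2.2 :=
        Primrec.snd.comp (Primrec.snd.comp (Primrec.snd.comp .fst))
      have e3 : Primrec fun p : (ℕ × ℕ × ℕ × IM) × ℕ => p.1.2.2.1 :=
        Primrec.fst.comp (Primrec.snd.comp (Primrec.snd.comp .fst))
      have e4 : Primrec fun p : (ℕ × ℕ × ℕ × IM) × ℕ => p.1.2.1 :=
        Primrec.fst.comp (Primrec.snd.comp .fst)
      exact pEnt (pMpow e1 (pNrm e1 e1 e2) e3) e4 .snd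
    have h2 : Computable fun x => (n x, i x, k x, M x) :=
      Computable.pair hn (Computable.pair hi (Computable.pair hk hM))
    have h3 := h.to_comp.comp h2
    exact h3
  have h1 : REPred fun q : ((α × ℕ) × ℕ) × ℕ =>
      (∑ l ∈ Finset.range (a q.1.1.1), ent (mpow (a q.1.1.1)
        (nrm (a q.1.1.1) (a q.1.1.1) (A q.1.1.1)) q.1.1.2) q.1.2 l) <
      ∑ l ∈ Finset.range (b q.1.1.1), ent (mpow (b q.1.1.1)
        (nrm (b q.1.1.1) (b q.1.1.1) (B q.1.1.1)) q.1.1.2) q.2 l := by
    have c0 : Computable fun q : ((α × ℕ) × ℕ) × ℕ => q.1.1.1 :=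
      Computable.fst.comp (Computable.fst.comp Computable.fst)
    have ck : Computable fun q : ((α × ℕ) × ℕ) × ℕ => q.1.1.2 :=
      Computable.snd.comp (Computable.fst.comp Computable.fst)
    have ci : Computable fun q : ((α × ℕ) × ℕ) × ℕ => q.1.2 :=
      Computable.snd.comp Computable.fst
    exact re_int_lt (hsum (ha.comp c0) ci ck (hA.comp c0))
      (hsum (hb.comp c0) Computable.snd ck (hB.comp c0))
  have h2 : REPred fun q : (α × ℕ) × ℕ => ∀ j < b q.1.1,
      (∑ l ∈ Finset.range (a q.1.1), ent (mpow (a q.1.1)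
        (nrm (a q.1.1) (a q.1.1) (A q.1.1)) q.1.2) q.2 l) <
      ∑ l ∈ Finset.range (b q.1.1), ent (mpow (b q.1.1)
        (nrm (b q.1.1) (b q.1.1) (B q.1.1)) q.1.2) j l :=
    re_forall_lt (R := fun (q : (α × ℕ) × ℕ) (j : ℕ) =>
      (∑ l ∈ Finset.range (a q.1.1), ent (mpow (a q.1.1)
        (nrm (a q.1.1) (a q.1.1) (A q.1.1)) q.1.2) q.2 l) <
      ∑ l ∈ Finset.range (b q.1.1), ent (mpow (b q.1.1)
        (nrm (b q.1.1) (b q.1.1) (B q.1.1)) q.1.2) j l) h1
      (f := fun q => b q.1.1) (hb.comp (Computable.fst.comp Computable.fst))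
  have h3 : REPred fun q : α × ℕ => ∀ i < a q.1, ∀ j < b q.1,
      (∑ l ∈ Finset.range (a q.1), ent (mpow (a q.1)
        (nrm (a q.1) (a q.1) (A q.1)) q.2) i l) <
      ∑ l ∈ Finset.range (b q.1), ent (mpow (b q.1)
        (nrm (b q.1) (b q.1) (B q.1)) q.2) j l :=
    re_forall_lt (R := fun (q : α × ℕ) (i : ℕ) => ∀ j < b q.1,
      (∑ l ∈ Finset.range (a q.1), ent (mpow (a q.1)
        (nrm (a q.1) (a q.1) (A q.1)) q.2) i l) <
      ∑ l ∈ Finset.range (b q.1), ent (mpow (b q.1)
        (nrm (b q.1) (b q.1) (B q.1)) q.2) j l) h2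
      (f := fun q => a q.1) (ha.comp Computable.fst)
  refine (re_exists (R := fun (x : α) (n : ℕ) => ∀ i < a x, ∀ j < b x,
      (∑ l ∈ Finset.range (a x), ent (mpow (a x) (nrm (a x) (a x) (A x)) n) i l) <
      ∑ l ∈ Finset.range (b x), ent (mpow (b x) (nrm (b x) (b x) (B x)) n) j l) h3).of_eq
      fun x => ?_
  unfold RowLt
  have hs : ∀ (n : ℕ) (M : IM) (k : ℕ) (i : Fin n), ((∑ l, (natMat n n M ^ k) i l : ℕ) : ℤ) =
      ∑ l ∈ Finset.range n, ent (mpow n (nrm n n M) k) i l := by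
    intro n M k i
    push_cast
    rw [← Fin.sum_univ_eq_sum_range (fun l => ent (mpow n (nrm n n M) k) i l) n]
    exact Finset.sum_congr rfl fun l _ => natMat_pow n M k i l
  refine exists_congr fun k => ?_
  rw [← forall_fin_iff (P := fun i => ∀ j < b x,
      (∑ l ∈ Finset.range (a x), ent (mpow (a x) (nrm (a x) (a x) (A x)) k) i l) <
      ∑ l ∈ Finset.range (b x), ent (mpow (b x) (nrm (b x) (b x) (B x)) k) j l)]
  refine forall_congr' fun i => ?_
  rw [← forall_fin_iff (P := fun j =>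
      (∑ l ∈ Finset.range (a x), ent (mpow (a x) (nrm (a x) (a x) (A x)) k) i l) <
      ∑ l ∈ Finset.range (b x), ent (mpow (b x) (nrm (b x) (b x) (B x)) k) j l)]
  refine forall_congr' fun j => ?_
  rw [← hs, ← hs]
  exact_mod_cast Iff.rfl

end prim

end Pool.Agent.DEC
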