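import Pool.Agent.FT.TraceCond
import Pool.Agent.DEC.Per
/-! DEC project (MP_59dda0_an): the trace-dimension condition as the existence of integer matrices. -/
namespace Pool.Agent.DEC
open Matrix
open Pool.Agent.FT (HasEntropy edgeShift Edge src tgt PeriodCondition toQ evRange dimGroup restr
  TraceDimCondition evRange_inj pow_mem_evRange mem_evRange exists_root inv_pow_mem trace_pow_eq
  vecMulLinear_pow)

/-- integer matrix with rational entries -/
abbrev qM {m n : Type*} (A : Matrix m n ℤ) : Matrix m n ℚ := A.map (Int.cast : ℤ → ℚ)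

theorem qM_mul {l m n : Type*} [Fintype m] (A : Matrix l m ℤ) (B : Matrix m n ℤ) :
    qM (A * B) = qM A * qM B := Matrix.map_mul (f := Int.castRingHom ℚ)

theorem qM_one {n : Type*} [Fintype n] [DecidableEq n] : qM (1 : Matrix n n ℤ) = 1 := by
  ext i j
  simp only [Matrix.map_apply, Matrix.one_apply]
  split_ifs <;> simp

theorem qM_pow {n : Type*} [Fintype n] [DecidableEq n] (A : Matrix n n ℤ) (k : ℕ) :
    qM (A ^ k) = qM A ^ k := by
  have := map_pow ((Int.castRingHom ℚ).mapMatrix (m := n)) A k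
  simpa [RingHom.mapMatrix_apply] using this

theorem qM_injective {m n : Type*} {A B : Matrix m n ℤ} (h : qM A = qM B) : A = B := by
  ext i j
  have := congrFun (congrFun h i) j
  simpa using this

theorem toQ_eq {m n : Type} (A : Matrix m n ℕ) : toQ A = qM (zM A) := by
  ext i j
  simp [toQ]

/-- integral vectors -/
def IsInt {n : ℕ} (v : Fin n → ℚ) : Prop := ∃ z : Fin n → ℤ, ∀ j, v j = (z j : ℚ)

theorem isInt_vecMul {n m : ℕ} {v : Fin n → ℚ} (h : IsInt v) (A : Matrix (Fin n) (Fin m) ℤ) :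
    IsInt (v ᵥ* qM A) := by
  obtain ⟨z, hz⟩ := h
  refine ⟨z ᵥ* A, fun j => ?_⟩
  simp only [Matrix.vecMul, dotProduct, Matrix.map_apply]
  push_cast
  exact Finset.sum_congr rfl fun i _ => by rw [hz i]

theorem mem_dimGroup {n : ℕ} (A : Matrix (Fin n) (Fin n) ℕ) (v : Fin n → ℚ) :
    v ∈ dimGroup A ↔ v ∈ evRange A ∧ ∃ k, IsInt (v ᵥ* toQ A ^ k) := Iff.rfl

/-- additivity of the trace -/
theorem trace_ker_add {W V : Type*} [AddCommGroup W] [Module ℚ W] [FiniteDimensional ℚ W]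
    [AddCommGroup V] [Module ℚ V] [FiniteDimensional ℚ V]
    (f : Module.End ℚ W) (g : Module.End ℚ V) (ψ : W →ₗ[ℚ] V) (hψ : Function.Surjective ψ)
    (h : ∀ w, ψ (f w) = g (ψ w)) (U : Submodule ℚ W) (hU : ∀ w, w ∈ U ↔ ψ w = 0)
    (hfU : ∀ w ∈ U, f w ∈ U) :
    LinearMap.trace ℚ W f = LinearMap.trace ℚ U (f.restrict hfU) + LinearMap.trace ℚ V g := by
  obtain ⟨s, hs⟩ := ψ.exists_rightInverse_of_surjective (LinearMap.range_eq_top.2 hψ)
  have hs' : ∀ v, ψ (s v) = v := fun v => LinearMap.congr_fun hs v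
  let p : W →ₗ[ℚ] U := (LinearMap.id - s ∘ₗ ψ).codRestrict U (fun w => by
    rw [hU]
    simp [hs'])
  have hp : ∀ w, ((p w : U) : W) = w - s (ψ w) := fun w => rfl
  have h1 : f = f ∘ₗ (U.subtype ∘ₗ p) + (f ∘ₗ s) ∘ₗ ψ := by
    apply LinearMap.ext
    intro w
    simp only [LinearMap.add_apply, LinearMap.comp_apply, Submodule.subtype_apply, hp, map_sub]
    abel
  have h2 : LinearMap.trace ℚ W (f ∘ₗ (U.subtype ∘ₗ p)) =
      LinearMap.trace ℚ U (f.restrict hfU) := by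
    rw [← LinearMap.comp_assoc, LinearMap.trace_comp_comm']
    congr 1
    apply LinearMap.ext
    intro w
    apply Subtype.ext
    simp only [LinearMap.comp_apply, Submodule.subtype_apply, hp]
    have h3 : ψ (f w) = 0 := (hU _).1 (hfU w w.2)
    rw [h3, map_zero, sub_zero]
    rfl
  have h3 : LinearMap.trace ℚ W ((f ∘ₗ s) ∘ₗ ψ) = LinearMap.trace ℚ V g := by
    rw [LinearMap.trace_comp_comm']
    congr 1
    apply LinearMap.ext
    intro v
    simp only [LinearMap.comp_apply, h, hs']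
  rw [← h2, ← h3, ← map_add, ← h1]

theorem trace_vecMulLinear {n : ℕ} (C : Matrix (Fin n) (Fin n) ℚ) :
    LinearMap.trace ℚ (Fin n → ℚ) C.vecMulLinear = C.trace := by
  rw [← Matrix.mulVecLin_transpose]
  exact (Matrix.trace_toLin'_eq C.transpose).trans (Matrix.trace_transpose C)

theorem trace_qM {n : ℕ} (C : Matrix (Fin n) (Fin n) ℤ) : (qM C).trace = ((C.trace : ℤ) : ℚ) := by
  unfold Matrix.trace
  push_cast
  rfl

theorem trace_zM {n : ℕ} (C : Matrix (Fin n) (Fin n) ℕ) : (zM C).trace = ((C.trace : ℕ) : ℤ) := by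
  unfold Matrix.trace
  push_cast
  rfl

/-- powers of an intertwining relation -/
theorem pow_rel {n k : ℕ} {R : Matrix (Fin n) (Fin k) ℚ} {A : Matrix (Fin k) (Fin k) ℚ}
    {X : Matrix (Fin n) (Fin n) ℚ} (h : R * A = X * R) (l : ℕ) : R * A ^ l = X ^ l * R := by
  induction l with
  | zero => simp
  | succ l ih => rw [pow_succ, ← Matrix.mul_assoc, ih, Matrix.mul_assoc, h, ← Matrix.mul_assoc,
      ← pow_succ]

theorem pow_inv_rel {n : ℕ} {X Y : Matrix (Fin n) (Fin n) ℚ} (h : Y * X = 1) (l : ℕ) :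
    Y ^ l * X ^ l = 1 := by
  induction l with
  | zero => simp
  | succ l ih =>
    rw [pow_succ, pow_succ', Matrix.mul_assoc, ← Matrix.mul_assoc Y X, h, Matrix.one_mul, ih]

/-- the trace of a power on an invariant subspace with a basis -/
theorem trace_restr_pow {a r : ℕ} {A : Matrix (Fin a) (Fin a) ℕ} {R : Matrix (Fin r) (Fin a) ℚ}
    {X : Matrix (Fin r) (Fin r) ℚ} (h1 : R * toQ A = X * R)
    (hinj : Function.Injective (R.vecMulLinear : (Fin r → ℚ) →ₗ[ℚ] (Fin a → ℚ)))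
    (W : Submodule ℚ (Fin a → ℚ)) (hWR : W = LinearMap.range R.vecMulLinear)
    (hW : ∀ w ∈ W, w ᵥ* toQ A ∈ W) (n : ℕ) :
    LinearMap.trace ℚ W ((restr A W hW) ^ n) = (X ^ n).trace := by
  subst hWR
  let e : (Fin r → ℚ) ≃ₗ[ℚ] LinearMap.range R.vecMulLinear :=
    LinearEquiv.ofInjective R.vecMulLinear hinj
  have he : ∀ v, ((e v : LinearMap.range R.vecMulLinear) : Fin a → ℚ) = v ᵥ* R := fun v => rfl
  have key : restr A _ hW = e.conj X.vecMulLinear := by
    apply LinearMap.ext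
    intro w
    obtain ⟨v, rfl⟩ := e.surjective w
    apply Subtype.ext
    rw [LinearEquiv.conj_apply_apply, LinearEquiv.symm_apply_apply, he]
    change (e v : Fin a → ℚ) ᵥ* toQ A = (X.vecMulLinear v) ᵥ* R
    rw [he, Matrix.vecMulLinear_apply, Matrix.vecMul_vecMul, Matrix.vecMul_vecMul, h1]
  have key2 : (restr A _ hW) ^ n = e.conj ((X ^ n).vecMulLinear) := by
    rw [key, ← vecMulLinear_pow]
    exact (map_pow e.conjRingEquiv X.vecMulLinear n).symm
  rw [key2, LinearMap.trace_conj', trace_vecMulLinear]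

/-- **From integer matrices to the trace-dimension condition.** -/
theorem traceDim_of_mats {a b : ℕ} {A : Matrix (Fin a) (Fin a) ℕ} {B : Matrix (Fin b) (Fin b) ℕ}
    {r : ℕ} (R : Matrix (Fin r) (Fin a) ℤ) (R' : Matrix (Fin a) (Fin r) ℤ)
    (X : Matrix (Fin r) (Fin r) ℤ) (m : Matrix (Fin r) (Fin b) ℤ) (T : Matrix (Fin b) (Fin r) ℤ)
    (l : ℕ) (h1 : R * zM A = X * R) (h2 : R * R' = 1) (h3 : m * zM B = X * m)
    (h4 : T * m = zM B ^ l) (h5 : X.det ≠ 0)
    (h6 : ∀ n, 0 < n → (B ^ n).trace = 0 → (X ^ n).trace = 0) : TraceDimCondition A B := by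
  have R1 : qM R * toQ A = qM X * qM R := by rw [toQ_eq, ← qM_mul, h1, qM_mul]
  have R2 : qM R * qM R' = 1 := by rw [← qM_mul, h2, qM_one]
  have R3 : qM m * toQ B = qM X * qM m := by rw [toQ_eq, ← qM_mul, h3, qM_mul]
  have R4 : qM T * qM m = toQ B ^ l := by rw [toQ_eq, ← qM_mul, h4, qM_pow]
  have hdet : (qM X).det ≠ 0 := by
    have e : (qM X).det = ((X.det : ℤ) : ℚ) := ((Int.castRingHom ℚ).map_det X).symm
    rw [e]
    exact_mod_cast h5
  obtain ⟨Y, hYX, hXY⟩ : ∃ Y : Matrix (Fin r) (Fin r) ℚ, Y * qM X = 1 ∧ qM X * Y = 1 :=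
    ⟨(qM X)⁻¹, Matrix.nonsing_inv_mul _ (Ne.isUnit hdet), Matrix.mul_nonsing_inv _ (Ne.isUnit hdet)⟩
  set W : Submodule ℚ (Fin a → ℚ) := LinearMap.range (qM R).vecMulLinear with hWdef
  let ψ : (Fin a → ℚ) →ₗ[ℚ] (Fin b → ℚ) := (qM R' * qM m).vecMulLinear
  have hψ : ∀ v : Fin r → ℚ, ψ (v ᵥ* qM R) = v ᵥ* qM m := by
    intro v
    change (v ᵥ* qM R) ᵥ* (qM R' * qM m) = _
    rw [Matrix.vecMul_vecMul, ← Matrix.mul_assoc, R2, Matrix.one_mul]
  have hmemW : ∀ v : Fin r → ℚ, v ᵥ* qM R ∈ W := fun v => ⟨v, rfl⟩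
  have hW : ∀ w ∈ W, w ᵥ* toQ A ∈ W := by
    rintro _ ⟨v, rfl⟩
    refine ⟨v ᵥ* qM X, ?_⟩
    change (v ᵥ* qM X) ᵥ* qM R = (v ᵥ* qM R) ᵥ* toQ A
    rw [Matrix.vecMul_vecMul, Matrix.vecMul_vecMul, R1]
  have hroot : ∀ (v : Fin r → ℚ) (k : ℕ), v = (v ᵥ* Y ^ k) ᵥ* qM X ^ k := by
    intro v k
    rw [Matrix.vecMul_vecMul, pow_inv_rel hYX, Matrix.vecMul_one]
  have hWe : W ≤ evRange A := by
    rintro _ ⟨v, rfl⟩
    change v ᵥ* qM R ∈ evRange A
    rw [hroot v a, Matrix.vecMul_vecMul, ← pow_rel R1 a, ← Matrix.vecMul_vecMul]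
    exact (mem_evRange A).mpr ⟨_, rfl⟩
  have hint : ∀ w ∈ W, ψ (w ᵥ* toQ A) = ψ w ᵥ* toQ B := by
    rintro _ ⟨v, rfl⟩
    change ψ ((v ᵥ* qM R) ᵥ* toQ A) = ψ (v ᵥ* qM R) ᵥ* toQ B
    rw [Matrix.vecMul_vecMul, R1, ← Matrix.vecMul_vecMul, hψ, hψ, Matrix.vecMul_vecMul,
      Matrix.vecMul_vecMul, R3]
  have hmB : ∀ v : Fin r → ℚ, v ᵥ* qM m ∈ evRange B := by
    intro v
    rw [hroot v b, Matrix.vecMul_vecMul, ← pow_rel R3 b, ← Matrix.vecMul_vecMul]
    exact (mem_evRange B).mpr ⟨_, rfl⟩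
  set U : Submodule ℚ (Fin a → ℚ) := W ⊓ LinearMap.ker ψ with hUdef
  have hU : ∀ w ∈ U, w ᵥ* toQ A ∈ U := by
    rintro w ⟨hw1, hw2⟩
    refine ⟨hW w hw1, ?_⟩
    have hw3 : ψ w = 0 := hw2
    change ψ (w ᵥ* toQ A) = 0
    rw [hint w hw1, hw3, Matrix.zero_vecMul]
  -- the dimension groups
  have hdim : ∀ y, y ∈ dimGroup B ↔ ∃ w ∈ W, w ∈ dimGroup A ∧ ψ w = y := by
    intro y
    constructor
    · rintro ⟨hy, k, z, hz⟩
      let u : Fin r → ℚ := (fun j => (z j : ℚ)) ᵥ* qM T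
      refine ⟨(u ᵥ* Y ^ (k + l)) ᵥ* qM R, hmemW _, ⟨hWe (hmemW _), k + l, ?_⟩, ?_⟩
      · have e : ((u ᵥ* Y ^ (k + l)) ᵥ* qM R) ᵥ* toQ A ^ (k + l) = u ᵥ* qM R := by
          rw [Matrix.vecMul_vecMul, pow_rel R1, ← Matrix.vecMul_vecMul, ← hroot]
        change IsInt _
        rw [e]
        exact isInt_vecMul (isInt_vecMul ⟨z, fun j => rfl⟩ T) R
      · rw [hψ]
        have e1 : ((u ᵥ* Y ^ (k + l)) ᵥ* qM m) ᵥ* toQ B ^ (k + l) = y ᵥ* toQ B ^ (k + l) := by
          rw [Matrix.vecMul_vecMul, pow_rel R3, ← Matrix.vecMul_vecMul, ← hroot]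
          have e2 : y ᵥ* toQ B ^ k = fun j => (z j : ℚ) := funext hz
          rw [pow_add, ← Matrix.vecMul_vecMul, e2]
          change ((fun j => (z j : ℚ)) ᵥ* qM T) ᵥ* qM m = _
          rw [Matrix.vecMul_vecMul, R4]
        have e3 : ((u ᵥ* Y ^ (k + l)) ᵥ* qM m - y) ᵥ* toQ B ^ (k + l) = 0 := by
          rw [Matrix.sub_vecMul, e1, sub_self]
        exact sub_eq_zero.1 (evRange_inj B (Submodule.sub_mem _ (hmB _) hy) e3)
    · rintro ⟨w, ⟨v, rfl⟩, ⟨-, k, z, hz⟩, rfl⟩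
      change ψ (v ᵥ* qM R) ∈ dimGroup B
      rw [hψ, mem_dimGroup]
      refine ⟨hmB v, k, ?_⟩
      have e1 : (v ᵥ* qM R) ᵥ* toQ A ^ k = fun j => (z j : ℚ) := funext hz
      have e2 : (v ᵥ* qM m) ᵥ* toQ B ^ k = ((fun j => (z j : ℚ)) ᵥ* qM R') ᵥ* qM m := by
        rw [← e1]
        simp only [Matrix.vecMul_vecMul]
        rw [pow_rel R3, pow_rel R1, Matrix.mul_assoc, Matrix.mul_assoc, ← Matrix.mul_assoc (qM R),
          R2, Matrix.one_mul]
      rw [e2]
      exact isInt_vecMul (isInt_vecMul ⟨z, fun j => rfl⟩ R') m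
  have hinj : Function.Injective ((qM R).vecMulLinear : (Fin r → ℚ) →ₗ[ℚ] (Fin a → ℚ)) := by
    intro v v' hv
    have hv' : v ᵥ* qM R = v' ᵥ* qM R := hv
    have := congrArg (fun w => w ᵥ* qM R') hv'
    simpa only [Matrix.vecMul_vecMul, R2, Matrix.vecMul_one] using this
  refine ⟨W, U, hW, hU, ψ, inf_le_left, hWe, hint, fun w hw => ?_, hdim, fun n hn htr => ?_⟩
  · exact ⟨fun h => ⟨hw, h⟩, fun h => h.2⟩
  · have t1 : LinearMap.trace ℚ W ((restr A W hW) ^ n) = 0 := by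
      rw [trace_restr_pow R1 hinj W rfl hW n, ← qM_pow, trace_qM, h6 n hn htr]
      simp
    refine ⟨t1, ?_⟩
    -- the exact sequence U -> W -> evRange B
    have hBinv : ∀ w ∈ evRange B, w ᵥ* toQ B ∈ evRange B :=
      fun w hw => Pool.Agent.FT.evRange_inv B hw
    have hψW : ∀ w : W, ψ w ∈ evRange B := by
      rintro ⟨_, v, rfl⟩
      change ψ (v ᵥ* qM R) ∈ evRange B
      rw [hψ]
      exact hmB v
    let ψ' : W →ₗ[ℚ] evRange B := (ψ ∘ₗ W.subtype).codRestrict (evRange B) hψW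
    have hψ' : ∀ w : W, ((ψ' w : evRange B) : Fin b → ℚ) = ψ w := fun w => rfl
    have hsurj : Function.Surjective ψ' := by
      rintro ⟨y, hy⟩
      obtain ⟨y', hy'⟩ : ∃ y' : evRange B, (y' : Fin b → ℚ) ᵥ* toQ B ^ l = y := by
        obtain ⟨w', hw', e⟩ := exists_root B hBinv le_rfl l hy
        exact ⟨⟨w', hw'⟩, e⟩
      refine ⟨⟨((y' : Fin b → ℚ) ᵥ* qM T) ᵥ* qM R, hmemW _⟩, Subtype.ext ?_⟩
      rw [hψ']
      change ψ (((y' : Fin b → ℚ) ᵥ* qM T) ᵥ* qM R) = y
      rw [hψ, Matrix.vecMul_vecMul, R4, hy']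
    have hcomm : ∀ (k : ℕ) (w : W), ψ' (((restr A W hW) ^ k) w) =
        ((restr B (evRange B) hBinv) ^ k) (ψ' w) := by
      intro k
      induction k with
      | zero => intro w; rfl
      | succ k ih =>
        intro w
        rw [pow_succ, pow_succ, Module.End.mul_apply, Module.End.mul_apply, ih]
        congr 1
        apply Subtype.ext
        exact hint w w.2
    let U' : Submodule ℚ W := U.comap W.subtype
    have hU'mem : ∀ w : W, w ∈ U' ↔ ψ' w = 0 := by
      intro w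
      constructor
      · rintro ⟨-, h⟩
        exact Subtype.ext h
      · intro h
        exact ⟨w.2, congrArg Subtype.val h⟩
    have hU'inv : ∀ w ∈ U', ((restr A W hW) ^ n) w ∈ U' := by
      intro w hw
      rw [hU'mem] at hw ⊢
      rw [hcomm, hw, map_zero]
    have t2 := trace_ker_add ((restr A W hW) ^ n) ((restr B (evRange B) hBinv) ^ n) ψ' hsurj
      (hcomm n) U' hU'mem hU'inv
    have t3 : LinearMap.trace ℚ (evRange B) ((restr B (evRange B) hBinv) ^ n) = 0 := by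
      rw [← trace_pow_eq (M := Fin b → ℚ) (W := evRange B) (toQ B).vecMulLinear
        (restr B (evRange B) hBinv) (evRange B).subtype Subtype.val_injective (fun w => rfl) b
        (fun f => ⟨⟨f ᵥ* toQ B ^ b, (mem_evRange B).mpr ⟨f, rfl⟩⟩, by
          rw [vecMulLinear_pow]
          rfl⟩) n hn]
      rw [vecMulLinear_pow, trace_vecMulLinear, toQ_eq, ← qM_pow, trace_qM, ← zM_pow, trace_zM, htr]
      simp
    rw [t1, t3, add_zero] at t2
    -- transport to `U`
    let e : U' ≃ₗ[ℚ] U := Submodule.comapSubtypeEquivOfLe inf_le_left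
    have he : ∀ u : U', ((e u : U) : Fin a → ℚ) = ((u : W) : Fin a → ℚ) := fun u => rfl
    have t4 : (restr A U hU) ^ n = e.conj (((restr A W hW) ^ n).restrict hU'inv) := by
      have hpow : ∀ (k : ℕ) (u : U), ((((restr A U hU) ^ k) u : U) : Fin a → ℚ) =
          (u : Fin a → ℚ) ᵥ* toQ A ^ k := by
        intro k
        induction k with
        | zero => intro u; simp
        | succ k ih =>
          intro u
          rw [pow_succ, Module.End.mul_apply, ih]
          change ((u : Fin a → ℚ) ᵥ* toQ A) ᵥ* toQ A ^ k = _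
          rw [Matrix.vecMul_vecMul, ← pow_succ']
      have hpow' : ∀ (k : ℕ) (u : W), ((((restr A W hW) ^ k) u : W) : Fin a → ℚ) =
          (u : Fin a → ℚ) ᵥ* toQ A ^ k := by
        intro k
        induction k with
        | zero => intro u; simp
        | succ k ih =>
          intro u
          rw [pow_succ, Module.End.mul_apply, ih]
          change ((u : Fin a → ℚ) ᵥ* toQ A) ᵥ* toQ A ^ k = _
          rw [Matrix.vecMul_vecMul, ← pow_succ']
      apply LinearMap.ext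
      intro u
      obtain ⟨u', rfl⟩ := e.surjective u
      apply Subtype.ext
      rw [hpow, LinearEquiv.conj_apply_apply, LinearEquiv.symm_apply_apply, he, he]
      exact (hpow' n (u' : W)).symm
    rw [t4]
    have t5 := LinearMap.trace_conj' (R := ℚ) (M := U') (N := U)
      (((restr A W hW) ^ n).restrict hU'inv) e
    have t6 : LinearMap.trace ℚ U' (((restr A W hW) ^ n).restrict hU'inv) = 0 := t2.symm
    exact t5.trans t6

theorem isInt_pow_mono {b : ℕ} {B : Matrix (Fin b) (Fin b) ℕ} {v : Fin b → ℚ} {k K : ℕ}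
    (h : IsInt (v ᵥ* toQ B ^ k)) (hk : k ≤ K) : IsInt (v ᵥ* toQ B ^ K) := by
  obtain ⟨d, rfl⟩ := Nat.exists_eq_add_of_le hk
  rw [pow_add, ← Matrix.vecMul_vecMul, toQ_eq, ← qM_pow, ← qM_pow]
  rw [toQ_eq, ← qM_pow] at h
  exact isInt_vecMul h _

/-- **From the trace-dimension condition to integer matrices.** -/
theorem mats_of_traceDim {a b : ℕ} {A : Matrix (Fin a) (Fin a) ℕ} {B : Matrix (Fin b) (Fin b) ℕ}
    (h : TraceDimCondition A B) :
    ∃ (r : ℕ) (R : Matrix (Fin r) (Fin a) ℤ) (R' : Matrix (Fin a) (Fin r) ℤ)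
      (X : Matrix (Fin r) (Fin r) ℤ) (m : Matrix (Fin r) (Fin b) ℤ) (T : Matrix (Fin b) (Fin r) ℤ)
      (l : ℕ), R * zM A = X * R ∧ R * R' = 1 ∧ m * zM B = X * m ∧ T * m = zM B ^ l ∧
      X.det ≠ 0 ∧ ∀ n, 0 < n → (B ^ n).trace = 0 → (X ^ n).trace = 0 := by
  classical
  obtain ⟨W, U, hW, hU, ψ, hUW, hWe, hint, hker, hdim, htr⟩ := h
  let ι : (Fin a → ℤ) →ₗ[ℤ] (Fin a → ℚ) :=
    { toFun := fun z i => (z i : ℚ)
      map_add' := fun x y => by
        funext i
        simp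
      map_smul' := fun c x => by
        funext i
        simp }
  have hι : ∀ z i, ι z i = (z i : ℚ) := fun z i => rfl
  let S : Submodule ℤ (Fin a → ℤ) := (W.restrictScalars ℤ).comap ι
  have hS : ∀ z, z ∈ S ↔ ι z ∈ W := fun z => Iff.rfl
  -- the quotient is torsion free, so there is a retraction onto `S`
  have htf : Module.IsTorsionFree ℤ ((Fin a → ℤ) ⧸ S) := by
    constructor
    intro k hk x y hxy
    have hk0 : k ≠ 0 := by
      rintro rfl
      exact absurd (hk.left (show (0 : ℤ) * 0 = 0 * 1 by simp)) (by norm_num)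
    obtain ⟨x, rfl⟩ := Submodule.mkQ_surjective S x
    obtain ⟨y, rfl⟩ := Submodule.mkQ_surjective S y
    have h1 : k • (x - y) ∈ S := by
      have h2 : S.mkQ (k • x) = S.mkQ (k • y) := by
        rw [map_smul, map_smul]
        exact hxy
      rw [smul_sub]
      exact (Submodule.Quotient.eq S).1 h2
    have h3 : x - y ∈ S := by
      rw [hS] at h1 ⊢
      rw [map_smul] at h1
      have h4 : ι (x - y) = ((k : ℚ)⁻¹) • (k • ι (x - y)) := by
        have : (k : ℚ) ≠ 0 := by exact_mod_cast hk0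
        rw [← Int.cast_smul_eq_zsmul ℚ k (ι (x - y)), smul_smul, inv_mul_cancel₀ this, one_smul]
      rw [h4]
      exact W.smul_mem _ h1
    exact (Submodule.Quotient.eq S).2 h3
  obtain ⟨s, hs⟩ := Module.projective_lifting_property S.mkQ LinearMap.id S.mkQ_surjective
  have hs' : ∀ q, S.mkQ (s q) = q := fun q => LinearMap.congr_fun hs q
  let f : (Fin a → ℤ) →ₗ[ℤ] S := (LinearMap.id - s ∘ₗ S.mkQ).codRestrict S (fun z => by
    have : S.mkQ (z - s (S.mkQ z)) = 0 := by rw [map_sub, hs', sub_self]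
    exact (Submodule.Quotient.mk_eq_zero S).1 this)
  have hf : ∀ z : S, f (z : Fin a → ℤ) = z := by
    intro z
    apply Subtype.ext
    change (z : Fin a → ℤ) - s (S.mkQ (z : Fin a → ℤ)) = z
    have : S.mkQ (z : Fin a → ℤ) = 0 := (Submodule.Quotient.mk_eq_zero S).2 z.2
    rw [this, map_zero, sub_zero]
  -- the basis
  let bas := Module.finBasis ℤ S
  let r := Module.finrank ℤ S
  let R : Matrix (Fin r) (Fin a) ℤ := Matrix.of fun i => ((bas i : S) : Fin a → ℤ)
  have hrepr : ∀ z : S, (z : Fin a → ℤ) = (fun j => bas.repr z j) ᵥ* R := by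
    intro z
    funext k
    have h1 := congrArg (fun u : S => (u : Fin a → ℤ) k) (bas.sum_repr z)
    simp only [Submodule.coe_sum, Submodule.coe_smul, Finset.sum_apply, Pi.smul_apply,
      smul_eq_mul] at h1
    rw [← h1]
    rfl
  have hrowW : ∀ i : Fin r, qM R i ∈ W := fun i => (bas i).2
  have hRW : ∀ v : Fin r → ℚ, v ᵥ* qM R ∈ W := by
    intro v
    have : v ᵥ* qM R = ∑ i, v i • qM R i := by
      funext k
      simp [Matrix.vecMul, dotProduct]
    rw [this]
    exact Submodule.sum_mem _ fun i _ => W.smul_mem _ (hrowW i)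
  have hιvec : ∀ z : Fin a → ℤ, ι (z ᵥ* zM A) = ι z ᵥ* toQ A := by
    intro z
    rw [toQ_eq]
    funext k
    rw [hι]
    simp only [Matrix.vecMul, dotProduct, Matrix.map_apply]
    push_cast
    rfl
  have hSA : ∀ z : S, (z : Fin a → ℤ) ᵥ* zM A ∈ S := by
    intro z
    rw [hS, hιvec]
    exact hW _ z.2
  let X : Matrix (Fin r) (Fin r) ℤ := Matrix.of fun i j => bas.repr ⟨_, hSA (bas i)⟩ j
  let R' : Matrix (Fin a) (Fin r) ℤ := Matrix.of fun k j => bas.repr (f (Pi.single k 1)) j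
  have h1 : R * zM A = X * R := by
    have : ∀ i, (R * zM A) i = (X * R) i := by
      intro i
      have e := hrepr ⟨_, hSA (bas i)⟩
      exact e
    exact Matrix.ext fun i j => congrFun (this i) j
  have h2 : R * R' = 1 := by
    ext i j
    have e1 : ((bas i : S) : Fin a → ℤ) = ∑ k, R i k • (Pi.single k 1 : Fin a → ℤ) := by
      funext k
      simp [R, Finset.sum_apply, Pi.single_apply]
    have e2 : f ((bas i : S) : Fin a → ℤ) = ∑ k, R i k • f (Pi.single k 1) := by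
      conv_lhs => rw [e1]
      rw [map_sum]
      exact Finset.sum_congr rfl fun k _ => map_smul _ _ _
    rw [hf] at e2
    have e3 := congrArg (fun u => bas.repr u j) e2
    simp only [map_sum, map_smul, Finsupp.coe_finsetSum, Finset.sum_apply, Finsupp.coe_smul,
      Pi.smul_apply, smul_eq_mul, Module.Basis.repr_self] at e3
    rw [Matrix.one_apply, Matrix.mul_apply]
    rw [Finsupp.single_apply] at e3
    exact e3.symm
  have R1 : qM R * toQ A = qM X * qM R := by rw [toQ_eq, ← qM_mul, h1, qM_mul]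
  have R2 : qM R * qM R' = 1 := by rw [← qM_mul, h2, qM_one]
  -- the images under `ψ`
  have hk1 : ∀ i : Fin r, ∃ k, IsInt (ψ (qM R i) ᵥ* toQ B ^ k) := by
    intro i
    have h3 : ψ (qM R i) ∈ dimGroup B := by
      rw [hdim]
      refine ⟨qM R i, hrowW i, ⟨hWe (hrowW i), 0, R i, fun j => ?_⟩, rfl⟩
      rw [pow_zero, Matrix.vecMul_one]
      rfl
    exact h3.2
  choose k1 hk1 using hk1
  let K := ∑ i, k1 i
  have hK : ∀ i : Fin r, IsInt (ψ (qM R i) ᵥ* toQ B ^ K) := fun i =>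
    isInt_pow_mono (hk1 i) (Finset.single_le_sum (f := k1) (fun _ _ => Nat.zero_le _)
      (Finset.mem_univ i))
  choose z hz using hK
  let m : Matrix (Fin r) (Fin b) ℤ := Matrix.of z
  let Φ : (Fin a → ℚ) →ₗ[ℚ] (Fin b → ℚ) := (toQ B ^ K).vecMulLinear ∘ₗ ψ
  have hΦ : ∀ w, Φ w = ψ w ᵥ* toQ B ^ K := fun w => rfl
  have hΦrow : ∀ i : Fin r, Φ (qM R i) = qM m i := fun i => funext (hz i)
  have hΦv : ∀ v : Fin r → ℚ, Φ (v ᵥ* qM R) = v ᵥ* qM m := by
    intro v
    have e1 : v ᵥ* qM R = ∑ i, v i • qM R i := by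
      funext k
      simp [Matrix.vecMul, dotProduct]
    have e2 : v ᵥ* qM m = ∑ i, v i • qM m i := by
      funext k
      simp [Matrix.vecMul, dotProduct]
    rw [e1, e2, map_sum]
    exact Finset.sum_congr rfl fun i _ => by rw [map_smul, hΦrow]
  have h3 : m * zM B = X * m := by
    apply qM_injective
    rw [qM_mul, qM_mul, ← toQ_eq]
    have : ∀ i, (qM m * toQ B) i = (qM X * qM m) i := by
      intro i
      have e1 : (qM m * toQ B) i = qM m i ᵥ* toQ B := rfl
      have e2 : (qM X * qM m) i = qM X i ᵥ* qM m := rfl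
      have e3 : qM R i ᵥ* toQ A = qM X i ᵥ* qM R := congrFun R1 i
      rw [e1, e2, ← hΦrow, ← hΦv, ← e3, hΦ, hΦ, hint _ (hrowW i), Matrix.vecMul_vecMul,
        Matrix.vecMul_vecMul, ← pow_succ, ← pow_succ']
    exact Matrix.ext fun i j => congrFun (this i) j
  -- generators of the dimension group of `B`
  have hy : ∀ j : Fin b, ∃ w ∈ W, (∃ k, IsInt (w ᵥ* toQ A ^ k)) ∧
      ψ w = (Pi.single j 1 : Fin b → ℚ) ᵥ* toQ B ^ b := by
    intro j
    have h4 : (Pi.single j 1 : Fin b → ℚ) ᵥ* toQ B ^ b ∈ dimGroup B := by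
      refine ⟨(mem_evRange B).mpr ⟨_, rfl⟩, 0, ?_⟩
      change IsInt _
      rw [pow_zero, Matrix.vecMul_one, toQ_eq, ← qM_pow]
      refine isInt_vecMul ⟨Pi.single j 1, fun i => ?_⟩ _
      rcases eq_or_ne i j with rfl | hij
      · simp
      · simp [Pi.single_eq_of_ne hij]
    obtain ⟨w, hw, hw2, hw3⟩ := (hdim _).1 h4
    exact ⟨w, hw, hw2.2, hw3⟩
  choose w hw hwk hwψ using hy
  choose k2 hk2 using hwk
  let K' := ∑ j, k2 j
  have hK' : ∀ j : Fin b, IsInt (w j ᵥ* toQ A ^ K') := fun j =>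
    isInt_pow_mono (hk2 j) (Finset.single_le_sum (f := k2) (fun _ _ => Nat.zero_le _)
      (Finset.mem_univ j))
  choose y hy using hK'
  have hyS : ∀ j, y j ∈ S := by
    intro j
    rw [hS]
    have : ι (y j) = w j ᵥ* toQ A ^ K' := (funext (hy j)).symm
    rw [this]
    exact inv_pow_mem A hW K' (hw j)
  let T : Matrix (Fin b) (Fin r) ℤ := Matrix.of fun j i => bas.repr ⟨y j, hyS j⟩ i
  have hT : ∀ j, qM T j ᵥ* qM R = w j ᵥ* toQ A ^ K' := by
    intro j
    have e1 : y j = T j ᵥ* R := hrepr ⟨y j, hyS j⟩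
    have e2 : ∀ k, (y j k : ℚ) = (qM T j ᵥ* qM R) k := by
      intro k
      rw [e1]
      simp only [Matrix.vecMul, dotProduct, Matrix.map_apply]
      push_cast
      rfl
    funext k
    rw [← e2, hy]
  have hint' : ∀ (k : ℕ), ∀ u ∈ W, ψ (u ᵥ* toQ A ^ k) = ψ u ᵥ* toQ B ^ k := by
    intro k
    induction k with
    | zero => intro u _; simp
    | succ k ih =>
      intro u hu
      rw [pow_succ, ← Matrix.vecMul_vecMul, hint _ (inv_pow_mem A hW k hu), ih u hu,
        Matrix.vecMul_vecMul, ← pow_succ]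
  have h4 : T * m = zM B ^ (b + (K' + K)) := by
    apply qM_injective
    rw [qM_mul, qM_pow, ← toQ_eq]
    have : ∀ j, (qM T * qM m) j = (toQ B ^ (b + (K' + K))) j := by
      intro j
      have e1 : (qM T * qM m) j = qM T j ᵥ* qM m := rfl
      rw [e1, ← hΦv, hT, hΦ, hint' _ _ (hw j), hwψ, Matrix.vecMul_vecMul, Matrix.vecMul_vecMul,
        ← pow_add, ← pow_add, Matrix.single_one_vecMul]
      rfl
    exact Matrix.ext fun i j => congrFun (this i) j
  have hinj : ∀ v : Fin r → ℚ, v ᵥ* qM R = 0 → v = 0 := by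
    intro v hv
    have := congrArg (fun u => u ᵥ* qM R') hv
    simpa only [Matrix.vecMul_vecMul, R2, Matrix.vecMul_one, Matrix.zero_vecMul] using this
  have h5 : X.det ≠ 0 := by
    intro h0
    have hdet : (qM X).det = 0 := by
      have e : (qM X).det = ((X.det : ℤ) : ℚ) := ((Int.castRingHom ℚ).map_det X).symm
      rw [e, h0]
      simp
    obtain ⟨v, hv0, hv⟩ := Matrix.exists_vecMul_eq_zero_iff.2 hdet
    apply hv0
    apply hinj
    refine evRange_inj A (hWe (hRW v)) (k := 1) ?_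
    rw [pow_one, Matrix.vecMul_vecMul, R1, ← Matrix.vecMul_vecMul, hv, Matrix.zero_vecMul]
  have hWR : W = LinearMap.range (qM R).vecMulLinear := by
    apply le_antisymm
    · intro u hu
      -- clear denominators
      let N : ℕ := ∏ i, (u i).den
      have hN : (N : ℚ) ≠ 0 := by
        have : 0 < N := Finset.prod_pos fun i _ => (u i).den_pos
        exact_mod_cast this.ne'
      have hdvd : ∀ i, (u i).den ∣ N := fun i => Finset.dvd_prod_of_mem _ (Finset.mem_univ i)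
      let zu : Fin a → ℤ := fun i => (u i).num * ((N / (u i).den : ℕ) : ℤ)
      have hzu : ι zu = (N : ℚ) • u := by
        funext i
        obtain ⟨d, hd⟩ := hdvd i
        have e1 : N / (u i).den = d := by rw [hd, Nat.mul_div_cancel_left _ (u i).den_pos]
        rw [hι]
        simp only [zu, Pi.smul_apply, smul_eq_mul]
        rw [e1]
        push_cast
        rw [hd]
        push_cast
        have e2 : ((u i).num : ℚ) = u i * (u i).den := (Rat.mul_den_eq_num (u i)).symm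
        rw [e2]
        ring
      have hzS : zu ∈ S := by
        rw [hS, hzu]
        exact W.smul_mem _ hu
      have e3 := hrepr ⟨zu, hzS⟩
      let v : Fin r → ℚ := fun j => ((bas.repr ⟨zu, hzS⟩ j : ℤ) : ℚ)
      have e4 : v ᵥ* qM R = (N : ℚ) • u := by
        rw [← hzu]
        funext k
        rw [hι]
        have e5 := congrFun e3 k
        simp only at e5
        rw [e5]
        simp only [Matrix.vecMul, dotProduct, Matrix.map_apply, v]
        push_cast
        rfl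
      refine ⟨(N : ℚ)⁻¹ • v, ?_⟩
      change ((N : ℚ)⁻¹ • v) ᵥ* qM R = u
      rw [Matrix.smul_vecMul, e4, smul_smul, inv_mul_cancel₀ hN, one_smul]
    · rintro _ ⟨v, rfl⟩
      exact hRW v
  refine ⟨r, R, R', X, m, T, b + (K' + K), h1, h2, h3, h4, h5, fun n hn htrB => ?_⟩
  have hinj' : Function.Injective ((qM R).vecMulLinear : (Fin r → ℚ) →ₗ[ℚ] (Fin a → ℚ)) := by
    rw [injective_iff_map_eq_zero]
    exact hinj
  have t1 := trace_restr_pow R1 hinj' W hWR hW n
  rw [(htr n hn htrB).1, ← qM_pow, trace_qM] at t1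
  exact_mod_cast t1.symm

/-- **The matrix form of the trace-dimension condition.** -/
theorem traceDim_iff {a b : ℕ} (A : Matrix (Fin a) (Fin a) ℕ) (B : Matrix (Fin b) (Fin b) ℕ) :
    TraceDimCondition A B ↔
    ∃ (r : ℕ) (R : Matrix (Fin r) (Fin a) ℤ) (R' : Matrix (Fin a) (Fin r) ℤ)
      (X : Matrix (Fin r) (Fin r) ℤ) (m : Matrix (Fin r) (Fin b) ℤ) (T : Matrix (Fin b) (Fin r) ℤ)
      (l : ℕ), R * zM A = X * R ∧ R * R' = 1 ∧ m * zM B = X * m ∧ T * m = zM B ^ l ∧
      X.det ≠ 0 ∧ ∀ n, 0 < n → (B ^ n).trace = 0 → (X ^ n).trace = 0 :=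
  ⟨mats_of_traceDim, fun ⟨_, R, R', X, m, T, l, h1, h2, h3, h4, h5, h6⟩ =>
    traceDim_of_mats R R' X m T l h1 h2 h3 h4 h5 h6⟩

end Pool.Agent.DEC
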