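import Pool.Agent.DEC.State
import Pool.Agent.DEC.GoodFrame
import Pool.Agent.DEC.MatForm

/-!
# MP_59dda0_an, DEC: reference data and semi-solutions

The interface between the mathematics and the computability part.  A NO-certificate for `(A, B)`
is a pair `(ρ, N)`, `ρ : Ref A B` a reference datum, `N > 0`, with `¬ Semi ρ N`.

* soundness:    `TraceDimCondition A B → Semi ρ 0` for EVERY `ρ`, and `Semi ρ 0 → Semi ρ N`;
* completeness: `∃ ρ N, 0 < N ∧ (Semi ρ N → TraceDimCondition A B)`.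

Conventions: vectors of `V` are functions `Blk lam → R` (coordinates of `y ^ t e_a`), states act
on columns as in `State.lean`; the dimension group of `A` consists of row vectors, `x` acts as
`v ↦ v ᵥ* A`.
-/

set_option autoImplicit false

open Matrix Polynomial

namespace Pool.Agent.DEC

/-- the order `ℤ[θ] = ℤ[x] / (g)` -/
abbrev Lam (g : ℤ[X]) : Type := AdjoinRoot g

/-- multiplication by `x = θ + y` on a sum of blocks -/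
def xL {R γ : Type} [CommRing R] (θ : R) (h : γ → ℕ) : (Blk h → R) →ₗ[R] (Blk h → R) :=
  θ • LinearMap.id + yL h

/-- Reference data for the pair `(A, B)`: the factors `g i` of the nonzero part of the
characteristic polynomials, the heights of the blocks of the two modules, and integral maps
identifying the standard modules with the eventual ranges up to the factor `Δ`. -/
structure Ref {a b : ℕ} (A : Matrix (Fin a) (Fin a) ℕ) (B : Matrix (Fin b) (Fin b) ℕ) where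
  /-- number of factors -/
  f : ℕ
  /-- the factors -/
  g : Fin f → ℤ[X]
  monic : ∀ i, (g i).Monic
  irr : ∀ i, Irreducible (g i)
  inj : Function.Injective g
  g0 : ∀ i, (g i).coeff 0 ≠ 0
  /-- number of blocks of `V` -/
  na : Fin f → ℕ
  /-- number of blocks of `W` -/
  nb : Fin f → ℕ
  lam : ∀ i, Fin (na i) → ℕ
  mu : ∀ i, Fin (nb i) → ℕ
  lam_pos : ∀ i c, 0 < lam i c
  mu_pos : ∀ i c, 0 < mu i c
  /-- the index of the lattices -/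
  Δ : ℕ
  Δ_pos : 0 < Δ
  P : ∀ i, (Blk (lam i) → Lam (g i)) →ₗ[ℤ] (Fin a → ℤ)
  P' : ∀ i, (Fin a → ℤ) →ₗ[ℤ] (Blk (lam i) → Lam (g i))
  P_x : ∀ i v, P i (xL (AdjoinRoot.root (g i)) (lam i) v) = P i v ᵥ* zM A
  P_P : ∀ i v, P' i (P i v) = (Δ : ℤ) • v
  P_ne : ∀ i j v, i ≠ j → P' j (P i v) = 0
  P_sp : ∀ v : Fin a → ℤ, ∑ i, P i (P' i (v ᵥ* zM A ^ a)) = (Δ : ℤ) • (v ᵥ* zM A ^ a)
  Q : ∀ i, (Blk (mu i) → Lam (g i)) →ₗ[ℤ] (Fin b → ℤ)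
  Q' : ∀ i, (Fin b → ℤ) →ₗ[ℤ] (Blk (mu i) → Lam (g i))
  Q_x : ∀ i v, Q i (xL (AdjoinRoot.root (g i)) (mu i) v) = Q i v ᵥ* zM B
  Q_Q : ∀ i v, Q' i (Q i v) = (Δ : ℤ) • v
  Q_ne : ∀ i j v, i ≠ j → Q' j (Q i v) = 0
  Q_sp : ∀ v : Fin b → ℤ, ∑ i, Q i (Q' i (v ᵥ* zM B ^ b)) = (Δ : ℤ) • (v ᵥ* zM B ^ b)
  /-- every ideal of `ℤ[θ]` is principal up to the factor `q` -/
  q : ℕ
  q_pos : 0 < q
  hq : ∀ i, QPrin (Lam (g i)) (q : Lam (g i))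

section

variable {a b : ℕ} {A : Matrix (Fin a) (Fin a) ℕ} {B : Matrix (Fin b) (Fin b) ℕ} (ρ : Ref A B)

namespace Ref

/-- the root `θ` -/
noncomputable abbrev th (i : Fin ρ.f) : Lam (ρ.g i) := AdjoinRoot.root (ρ.g i)

/-- the index `D` of the good frames -/
def D : ℕ := ρ.Δ * ρ.q ^ (a * (a + 1))

/-- the denominator of the units -/
def Dl : ℕ := ρ.D ^ a

/-- the shape of a type -/
abbrev shp {n : Fin ρ.f → ℕ} (deg : ∀ i, Fin (n i) → ℕ) (i : Fin ρ.f) :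
    Shp (Fin (n i)) (Fin (ρ.na i)) (Fin (ρ.nb i)) :=
  ⟨deg i, ρ.lam i, ρ.mu i⟩

/-- states over `ℤ[θ]` of all factors -/
abbrev MSt (n : Fin ρ.f → ℕ) : Type :=
  ∀ i, RSt (Lam (ρ.g i)) (Fin (n i)) (Fin (ρ.na i)) (Fin (ρ.nb i))

/-- the lattice `Γ` of a type -/
abbrev Gam (n : Fin ρ.f → ℕ) : Type := ∀ i, Fin (n i) → Lam (ρ.g i)

/-- the map of a state to the row vectors of `A` -/
noncomputable def GA {n : Fin ρ.f → ℕ} (deg : ∀ i, Fin (n i) → ℕ) (s : ρ.MSt n) (z : ρ.Gam n) :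
    Fin a → ℤ :=
  ∑ i, ρ.P i (RM (ρ.shp deg i) (s i) *ᵥ z i)

/-- the map of a state to the row vectors of `B` -/
noncomputable def GB {n : Fin ρ.f → ℕ} (deg : ∀ i, Fin (n i) → ℕ) (s : ρ.MSt n) (z : ρ.Gam n) :
    Fin b → ℤ :=
  ∑ i, ρ.Q i (MM (ρ.shp deg i) (s i) *ᵥ z i)

end Ref

/-- the trace condition of a type -/
def TrC (n : Fin ρ.f → ℕ) : Prop :=
  ∀ k, 0 < k → (B ^ k).trace = 0 →
    ∑ i, (n i : ℤ) * Algebra.trace ℤ (Lam (ρ.g i)) (ρ.th i ^ k) = 0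

/-- the integral identities of a semi-solution modulo `N` -/
def Ids {n : Fin ρ.f → ℕ} (deg : ∀ i, Fin (n i) → ℕ) (s : ρ.MSt n) (N : ℕ) : Prop :=
  ∃ (R' : (Fin a → ℤ) →ₗ[ℤ] ρ.Gam n) (Ψ : (Fin a → ℤ) →ₗ[ℤ] (Fin b → ℤ))
    (T : (Fin b → ℤ) →ₗ[ℤ] ρ.Gam n) (T' : (Fin b → ℤ) →ₗ[ℤ] (Fin a → ℤ)) (l : ℕ),
    (∀ z, ∃ w, R' (ρ.GA deg s z) = (ρ.D : ℤ) • z + (N : ℤ) • w) ∧
    (∀ z, ∃ w, Ψ (ρ.GA deg s z) = ρ.GB deg s z + (N : ℤ) • w) ∧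
    (∀ w, ∃ u, ρ.GA deg s (T w) = (ρ.D : ℤ) • T' w + (N : ℤ) • u) ∧
    (∀ w, ∃ u, ρ.GB deg s (T w) = (ρ.D : ℤ) • (w ᵥ* zM B ^ l) + (N : ℤ) • u)

/-- the unit condition of a semi-solution modulo `N` -/
def Uni {n : Fin ρ.f → ℕ} (deg : ∀ i, Fin (n i) → ℕ) (s : ρ.MSt n) (N : ℕ) : Prop :=
  ∀ i j, Sat (ρ.shp deg i) j → ∃ (F F' : Lam (ρ.g i)) (L k : ℕ),
    F * F' = (ρ.Dl : Lam (ρ.g i)) ^ 2 * ρ.th i ^ (2 * L) ∧
    ∃ w, ρ.th i ^ k * (F * gdet (SigM (ρ.shp deg i) (s i) j) -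
      ρ.th i ^ L * (ρ.Dl : Lam (ρ.g i)) * gdet (TM (ρ.shp deg i) (s i) j)) =
        (N : Lam (ρ.g i)) * w

/-- semi-solutions modulo `N` -/
def Semi (N : ℕ) : Prop :=
  ∃ (n : Fin ρ.f → ℕ) (deg : ∀ i, Fin (n i) → ℕ) (s : ρ.MSt n),
    (∀ i, n i ≤ a) ∧ (∀ i k, deg i k < a) ∧ TrC ρ n ∧ (∀ i, IsSt (ρ.shp deg i) (s i)) ∧
    Ids ρ deg s N ∧ Uni ρ deg s N

/-- exact semi-solutions are semi-solutions modulo every `N` -/
theorem semi_of_zero {ρ : Ref A B} (h : Semi ρ 0) (N : ℕ) : Semi ρ N := by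
  obtain ⟨n, deg, s, h1, h2, h3, h4, ⟨R', Ψ, T, T', l, e1, e2, e3, e4⟩, h6⟩ := h
  refine ⟨n, deg, s, h1, h2, h3, h4, ⟨R', Ψ, T, T', l, ?_, ?_, ?_, ?_⟩, ?_⟩
  · intro z
    obtain ⟨w, hw⟩ := e1 z
    exact ⟨0, by simpa using hw⟩
  · intro z
    obtain ⟨w, hw⟩ := e2 z
    exact ⟨0, by simpa using hw⟩
  · intro z
    obtain ⟨w, hw⟩ := e3 z
    exact ⟨0, by simpa using hw⟩
  · intro z
    obtain ⟨w, hw⟩ := e4 z
    exact ⟨0, by simpa using hw⟩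
  · intro i j hj
    obtain ⟨F, F', L, k, e, w, hw⟩ := h6 i j hj
    exact ⟨F, F', L, k, e, 0, by simpa using hw⟩

end

end Pool.Agent.DEC
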