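import Mathlib

/-!
# DEC: the order `ℤ[X]/(g)` and the field `ℚ[X]/(g)`

For `g : ℤ[X]` monic, irreducible, `g(0) ≠ 0`: `LamR g = ℤ[X]/(g)`, `KF g = ℚ[X]/(g)`, the
inclusion, the bases of powers of the root, coordinates, and multiplication by the root.
-/

set_option autoImplicit false

open Polynomial

namespace Pool.Agent.DEC

/-- `g` is monic, irreducible, with nonzero constant coefficient. -/
class PolyOK (g : ℤ[X]) : Prop where
  monic : g.Monic
  irr : Irreducible g
  c0 : g.coeff 0 ≠ 0

/-- the polynomial over `ℚ` -/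
noncomputable abbrev gQ (g : ℤ[X]) : ℚ[X] := g.map (Int.castRingHom ℚ)

/-- the order `ℤ[X]/(g)` -/
abbrev LamR (g : ℤ[X]) : Type := AdjoinRoot g

/-- the field `ℚ[X]/(g)` -/
abbrev KF (g : ℤ[X]) : Type := AdjoinRoot (g.map (Int.castRingHom ℚ))

/-- the root in the order -/
noncomputable abbrev thR (g : ℤ[X]) : LamR g := AdjoinRoot.root g

/-- the root in the field -/
noncomputable abbrev thK (g : ℤ[X]) : KF g := AdjoinRoot.root (g.map (Int.castRingHom ℚ))

section basic

variable (g : ℤ[X])

/-- the inclusion of the order in the field -/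
noncomputable def incl : LamR g →+* KF g :=
  AdjoinRoot.map (Int.castRingHom ℚ) g (g.map (Int.castRingHom ℚ)) dvd_rfl

noncomputable instance instAlgLamKF : Algebra (LamR g) (KF g) := (incl g).toAlgebra

theorem algebraMap_eq_incl : algebraMap (LamR g) (KF g) = incl g := rfl

@[simp] theorem algebraMap_mk (q : ℤ[X]) :
    algebraMap (LamR g) (KF g) (AdjoinRoot.mk g q) =
      AdjoinRoot.mk (g.map (Int.castRingHom ℚ)) (q.map (Int.castRingHom ℚ)) := by
  rw [algebraMap_eq_incl, incl, AdjoinRoot.map]
  rw [AdjoinRoot.lift_mk, eval₂_eq_eval_map, ← Polynomial.map_map, ← eval₂_eq_eval_map]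
  exact AdjoinRoot.aeval_eq _

@[simp] theorem algebraMap_root :
    algebraMap (LamR g) (KF g) (AdjoinRoot.root g) =
      AdjoinRoot.root (g.map (Int.castRingHom ℚ)) := by
  have h := algebraMap_mk g X
  rwa [AdjoinRoot.mk_X, Polynomial.map_X, AdjoinRoot.mk_X] at h

instance instTowerIntLamKF : IsScalarTower ℤ (LamR g) (KF g) :=
  IsScalarTower.of_algebraMap_eq' (RingHom.ext_int _ _)

instance instTowerIntRatKF : IsScalarTower ℤ ℚ (KF g) :=
  IsScalarTower.of_algebraMap_eq' (RingHom.ext_int _ _)

end basic

section ok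

variable (g : ℤ[X]) [hg : PolyOK g]

theorem gQ_monic : (g.map (Int.castRingHom ℚ)).Monic := hg.monic.map _

theorem gQ_irreducible : Irreducible (g.map (Int.castRingHom ℚ)) :=
  (hg.monic.irreducible_iff_irreducible_map_fraction_map (K := ℚ)).mp hg.irr

instance instFactIrr : Fact (Irreducible (g.map (Int.castRingHom ℚ))) := ⟨gQ_irreducible g⟩

instance instIsDomainLamR : IsDomain (LamR g) :=
  AdjoinRoot.isDomain_of_prime (hg.irr.prime)

instance instFreeLamR : Module.Free ℤ (LamR g) := hg.monic.free_adjoinRoot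

instance instFiniteLamR : Module.Finite ℤ (LamR g) := hg.monic.finite_adjoinRoot

instance instFiniteKF : Module.Finite ℚ (KF g) := (gQ_monic g).finite_adjoinRoot

instance instCharZeroKF : CharZero (KF g) :=
  charZero_of_injective_algebraMap (algebraMap ℚ (KF g)).injective

theorem algebraMap_injective' : Function.Injective (algebraMap (LamR g) (KF g)) := by
  rw [injective_iff_map_eq_zero]
  intro z
  induction z using AdjoinRoot.induction_on with
  | ih q =>
    intro h
    rw [algebraMap_mk, AdjoinRoot.mk_eq_zero,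
      Polynomial.map_dvd_map _ (RingHom.injective_int (Int.castRingHom ℚ)) hg.monic] at h
    rwa [AdjoinRoot.mk_eq_zero]

instance instFaithfulLamKF : FaithfulSMul (LamR g) (KF g) :=
  (faithfulSMul_iff_algebraMap_injective _ _).mpr (algebraMap_injective' g)

instance instCharZeroLamR : CharZero (LamR g) where
  cast_injective := by
    intro a b h
    have h2 := congrArg (algebraMap (LamR g) (KF g)) h
    simpa using h2

/-- the degree is positive -/
theorem natDegree_pos' : 0 < g.natDegree := by
  by_contra h
  have h0 : g.natDegree = 0 := by omega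
  have h1 := eq_one_of_monic_natDegree_zero hg.monic h0
  have h2 := hg.irr
  rw [h1] at h2
  exact not_irreducible_one h2

theorem thR_ne_zero : thR g ≠ 0 := by
  intro h
  have h1 : aeval (thR g) g = 0 := by
    rw [AdjoinRoot.aeval_eq, AdjoinRoot.mk_self]
  rw [h, ← coeff_zero_eq_aeval_zero'] at h1
  have h2 : ((g.coeff 0 : ℤ) : LamR g) = 0 := by simpa using h1
  exact hg.c0 (by exact_mod_cast h2)

theorem thK_ne_zero : thK g ≠ 0 := by
  intro h
  apply thR_ne_zero g
  apply algebraMap_injective' g
  rw [map_zero, algebraMap_root]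
  exact h

/-- every element of the field is a quotient of an element of the order by a positive integer -/
theorem exists_natCast_mul (z : KF g) :
    ∃ (m : ℕ) (s : LamR g), 0 < m ∧ (m : KF g) * z = algebraMap (LamR g) (KF g) s := by
  induction z using AdjoinRoot.induction_on with
  | ih q =>
    obtain ⟨b, hbm, hb⟩ := IsLocalization.integerNormalization_spec (nonZeroDivisors ℤ) q
    have hb0 : (b : ℤ) ≠ 0 := nonZeroDivisors.ne_zero hbm
    refine ⟨(b : ℤ).natAbs, AdjoinRoot.mk g (C (Int.sign b) *
      IsLocalization.integerNormalization (nonZeroDivisors ℤ) q), Int.natAbs_pos.mpr hb0, ?_⟩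
    rw [algebraMap_mk, Polynomial.map_mul]
    have h1 : (IsLocalization.integerNormalization (nonZeroDivisors ℤ) q).map
        (Int.castRingHom ℚ) = (b : ℤ) • q := hb
    rw [h1, map_mul, Polynomial.map_C, AdjoinRoot.mk_C]
    have h2 : AdjoinRoot.mk (g.map (Int.castRingHom ℚ)) ((b : ℤ) • q) =
        ((b : ℤ) : KF g) * AdjoinRoot.mk (g.map (Int.castRingHom ℚ)) q := by
      rw [zsmul_eq_mul, map_mul, map_intCast]
    rw [h2, ← mul_assoc]
    congr 1
    have h3 : (((b : ℤ).natAbs : ℤ) : KF g) = (Int.sign b : KF g) * (b : ℤ) := by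
      rw [← Int.cast_mul, Int.sign_mul_self_eq_natAbs]
    rw [Int.cast_natCast] at h3
    rw [h3]
    simp

instance instIsFractionRing : IsFractionRing (LamR g) (KF g) where
  map_units y := by
    rw [isUnit_iff_ne_zero]
    intro h
    exact nonZeroDivisors.ne_zero y.2 (algebraMap_injective' g (by rw [h, map_zero]))
  surj z := by
    obtain ⟨m, s, hm, h⟩ := exists_natCast_mul g z
    refine ⟨⟨s, ⟨(m : LamR g), ?_⟩⟩, ?_⟩
    · rw [mem_nonZeroDivisors_iff_ne_zero]
      exact_mod_cast hm.ne'
    · rw [← h, map_natCast, mul_comm]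
  exists_of_eq h := ⟨1, by rw [algebraMap_injective' g h]⟩

/-- the basis of powers of the root, over the integers -/
noncomputable def basS : Module.Basis (Fin g.natDegree) ℤ (LamR g) :=
  AdjoinRoot.powerBasisAux' hg.monic

theorem basS_apply (i : Fin g.natDegree) : basS g i = thR g ^ (i : ℕ) := by
  have h := (AdjoinRoot.powerBasis' hg.monic).basis_eq_pow i
  exact h

theorem natDegree_gQ : (g.map (Int.castRingHom ℚ)).natDegree = g.natDegree :=
  hg.monic.natDegree_map _

/-- the basis of powers of the root, over the rational numbers -/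
noncomputable def basK : Module.Basis (Fin g.natDegree) ℚ (KF g) :=
  (AdjoinRoot.powerBasisAux' (gQ_monic g)).reindex (finCongr (natDegree_gQ g))

theorem basK_apply (i : Fin g.natDegree) : basK g i = thK g ^ (i : ℕ) := by
  rw [basK, Module.Basis.reindex_apply]
  have h := (AdjoinRoot.powerBasis' (gQ_monic g)).basis_eq_pow
    ((finCongr (natDegree_gQ g)).symm i)
  exact h

theorem algebraMap_basS (i : Fin g.natDegree) :
    algebraMap (LamR g) (KF g) (basS g i) = basK g i := by
  rw [basS_apply, basK_apply, map_pow, algebraMap_root]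

/-- coordinates in the field -/
noncomputable def co (z : KF g) (s : Fin g.natDegree) : ℚ := (basK g).repr z s

/-- coordinates in the order -/
noncomputable def coZ (z : LamR g) (s : Fin g.natDegree) : ℤ := (basS g).repr z s

theorem sum_co (z : KF g) : ∑ s, (co g z s) • thK g ^ (s : ℕ) = z := by
  have h := (basK g).sum_repr z
  simp only [basK_apply] at h
  exact h

theorem sum_coZ (z : LamR g) : ∑ s, (coZ g z s) • thR g ^ (s : ℕ) = z := by
  have h := (basS g).sum_repr z
  simp only [basS_apply] at h
  exact h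

theorem co_sum (c : Fin g.natDegree → ℚ) : co g (∑ s, (c s) • thK g ^ (s : ℕ)) = c := by
  have h := (basK g).repr_sum_self c
  simp only [basK_apply] at h
  exact h

theorem coZ_sum (c : Fin g.natDegree → ℤ) : coZ g (∑ s, (c s) • thR g ^ (s : ℕ)) = c := by
  have h := (basS g).repr_sum_self c
  simp only [basS_apply] at h
  exact h

theorem algebraMap_sum (c : Fin g.natDegree → ℤ) :
    algebraMap (LamR g) (KF g) (∑ s, (c s) • thR g ^ (s : ℕ)) =
      ∑ s, ((c s : ℤ) : ℚ) • thK g ^ (s : ℕ) := by
  rw [map_sum]
  refine Finset.sum_congr rfl fun s _ => ?_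
  rw [zsmul_eq_mul, map_mul, map_pow, algebraMap_root, map_intCast, Algebra.smul_def,
    map_intCast]

theorem co_algebraMap (z : LamR g) (s : Fin g.natDegree) :
    co g (algebraMap (LamR g) (KF g) z) s = (coZ g z s : ℤ) := by
  conv_lhs => rw [← sum_coZ g z, algebraMap_sum, co_sum]

/-- an element of the field is in the order iff its coordinates are integers -/
theorem mem_range_iff_co (z : KF g) :
    (∃ s : LamR g, algebraMap (LamR g) (KF g) s = z) ↔ ∀ s, ∃ k : ℤ, co g z s = k := by
  constructor
  · rintro ⟨y, rfl⟩ s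
    exact ⟨_, co_algebraMap g y s⟩
  · intro h
    choose k hk using h
    refine ⟨∑ s, (k s) • thR g ^ (s : ℕ), ?_⟩
    rw [algebraMap_sum, ← sum_co g z]
    exact Finset.sum_congr rfl fun s _ => by rw [hk]

theorem co_add (z w : KF g) : co g (z + w) = co g z + co g w := by
  funext s
  simp [co]

theorem co_smul (q : ℚ) (z : KF g) : co g (q • z) = q • co g z := by
  funext s
  simp [co]

theorem co_zero : co g 0 = 0 := by
  funext s
  simp [co]

theorem co_injective : Function.Injective (co g) := by
  intro z w h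
  rw [← sum_co g z, ← sum_co g w, h]

theorem coZ_add (z w : LamR g) : coZ g (z + w) = coZ g z + coZ g w := by
  funext s
  simp [coZ]

theorem coZ_smul (q : ℤ) (z : LamR g) : coZ g (q • z) = q • coZ g z := by
  funext s
  rw [coZ, map_smul]
  rfl

/-- the coordinates as a linear equivalence -/
noncomputable def coL : KF g ≃ₗ[ℚ] (Fin g.natDegree → ℚ) := (basK g).equivFun

theorem coL_apply (z : KF g) : coL g z = co g z := rfl

/-- the companion matrix of `g` (column convention) -/
def comp {R : Type} [Ring R] (g : ℤ[X]) : Matrix (Fin g.natDegree) (Fin g.natDegree) R :=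
  Matrix.of fun i j => if (i : ℕ) = j + 1 then 1 else
    if (j : ℕ) + 1 = g.natDegree then ((-(g.coeff i) : ℤ) : R) else 0

theorem thR_pow_natDegree :
    thR g ^ g.natDegree = ∑ s : Fin g.natDegree, (-(g.coeff s)) • thR g ^ (s : ℕ) := by
  have h1 : aeval (thR g) g = 0 := by
    rw [AdjoinRoot.aeval_eq, AdjoinRoot.mk_self]
  rw [aeval_eq_sum_range, Finset.sum_range_succ, hg.monic.coeff_natDegree, one_smul,
    Finset.sum_range] at h1
  rw [eq_neg_of_add_eq_zero_right h1, ← Finset.sum_neg_distrib]
  exact Finset.sum_congr rfl fun s _ => by rw [neg_smul]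

/-- multiplication by elements of the order, as integer matrices (column convention) -/
noncomputable def mulS : LamR g →ₐ[ℤ] Matrix (Fin g.natDegree) (Fin g.natDegree) ℤ :=
  Algebra.leftMulMatrix (basS g)

/-- multiplication by elements of the field, as rational matrices (column convention) -/
noncomputable def mulK : KF g →ₐ[ℚ] Matrix (Fin g.natDegree) (Fin g.natDegree) ℚ :=
  Algebra.leftMulMatrix (basK g)

open Matrix in
theorem mulS_mulVec (y z : LamR g) : mulS g y *ᵥ coZ g z = coZ g (y * z) :=
  Algebra.leftMulMatrix_mulVec_repr (basS g) y z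

open Matrix in
theorem mulK_mulVec (y z : KF g) : mulK g y *ᵥ co g z = co g (y * z) :=
  Algebra.leftMulMatrix_mulVec_repr (basK g) y z

theorem mulS_apply (y : LamR g) (i j : Fin g.natDegree) :
    mulS g y i j = coZ g (y * thR g ^ (j : ℕ)) i := by
  rw [mulS, Algebra.leftMulMatrix_eq_repr_mul, basS_apply]
  rfl

theorem mulK_apply (y : KF g) (i j : Fin g.natDegree) :
    mulK g y i j = co g (y * thK g ^ (j : ℕ)) i := by
  rw [mulK, Algebra.leftMulMatrix_eq_repr_mul, basK_apply]
  rfl

theorem mulK_algebraMap (y : LamR g) :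
    mulK g (algebraMap (LamR g) (KF g) y) = (mulS g y).map (Int.cast : ℤ → ℚ) := by
  ext i j
  rw [mulK_apply, Matrix.map_apply, mulS_apply, ← co_algebraMap, map_mul, map_pow, algebraMap_root]

theorem mulS_injective : Function.Injective (mulS g) := Algebra.leftMulMatrix_injective _

theorem mulK_injective : Function.Injective (mulK g) := Algebra.leftMulMatrix_injective _

theorem mulS_thR : mulS g (thR g) = comp g := by
  ext i j
  rw [mulS_apply, ← pow_succ']
  by_cases hj : (j : ℕ) + 1 = g.natDegree
  · rw [hj, thR_pow_natDegree g, coZ_sum]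
    have hi : (i : ℕ) ≠ j + 1 := by
      have := i.2
      omega
    simp only [comp, Matrix.of_apply]
    rw [if_neg hi, if_pos hj]
    simp
  · have hlt : (j : ℕ) + 1 < g.natDegree := by
      have := j.2
      omega
    have h1 : thR g ^ ((j : ℕ) + 1) =
        ∑ s : Fin g.natDegree, (if (s : ℕ) = j + 1 then (1 : ℤ) else 0) • thR g ^ (s : ℕ) := by
      rw [Finset.sum_eq_single (⟨(j : ℕ) + 1, hlt⟩ : Fin g.natDegree)]
      · simp
      · intro s _ hs
        rw [if_neg, zero_smul]
        intro h
        exact hs (Fin.ext h)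
      · intro h
        exact absurd (Finset.mem_univ _) h
    rw [h1, coZ_sum]
    simp only [comp, Matrix.of_apply]
    rw [if_neg hj]

omit hg in
theorem map_comp : (comp g : Matrix (Fin g.natDegree) (Fin g.natDegree) ℤ).map
    (Int.cast : ℤ → ℚ) = comp g := by
  ext i j
  simp only [comp, Matrix.map_apply, Matrix.of_apply]
  split_ifs <;> simp

theorem mulK_thK : mulK g (thK g) = comp g := by
  have h := mulK_algebraMap g (thR g)
  rw [algebraMap_root, mulS_thR, map_comp] at h
  exact h

open Matrix in
theorem coZ_thR_mul (z : LamR g) : coZ g (thR g * z) = comp g *ᵥ coZ g z := by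
  rw [← mulS_thR, mulS_mulVec]

open Matrix in
theorem co_thK_mul (z : KF g) : co g (thK g * z) = comp g *ᵥ co g z := by
  rw [← mulK_thK, mulK_mulVec]

theorem minpoly_thR : minpoly ℤ (thR g) = g := by
  symm
  refine IsIntegrallyClosed.minpoly.unique hg.monic ?_ ?_
  · rw [AdjoinRoot.aeval_eq, AdjoinRoot.mk_self]
  · intro Q hQ hQ0
    rw [AdjoinRoot.aeval_eq, AdjoinRoot.mk_eq_zero] at hQ0
    exact degree_le_of_dvd hQ0 hQ.ne_zero

/-- the norm of the root -/
theorem norm_thR : Algebra.norm ℤ (thR g) = (-1) ^ g.natDegree * g.coeff 0 := by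
  have h := Algebra.PowerBasis.norm_gen_eq_coeff_zero_minpoly
    (AdjoinRoot.powerBasis' hg.monic)
  rw [AdjoinRoot.powerBasis'_gen, AdjoinRoot.powerBasis'_dim, minpoly_thR] at h
  exact h

theorem natAbs_norm_thR : (Algebra.norm ℤ (thR g)).natAbs = (g.coeff 0).natAbs := by
  rw [norm_thR, Int.natAbs_mul, Int.natAbs_pow]
  simp

end ok

end Pool.Agent.DEC
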