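import Pool.Agent.DEC.C3
import Pool.Agent.DEC.Core
import Pool.Agent.DEC.KInst

/-!
# DEC, module C3, in the notation of Core

`InU` for the image of a semi-solution modulo `n ^ c`.
-/

set_option autoImplicit false

open Matrix Polynomial

namespace Pool.Agent.DEC.C3

variable {a b : ℕ} {A : Matrix (Fin a) (Fin a) ℕ} {B : Matrix (Fin b) (Fin b) ℕ}

theorem polyOK (ρ : Ref A B) (i : Fin ρ.f) : PolyOK (ρ.g i) := ⟨ρ.monic i, ρ.irr i, ρ.g0 i⟩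

theorem th_ne_zero (ρ : Ref A B) (i : Fin ρ.f) : ρ.th i ≠ 0 :=
  haveI := polyOK ρ i
  thR_ne_zero (ρ.g i)

theorem Dl_dvd (ρ : Ref A B) {n : ℕ} (hD : ρ.D ∣ n) : ρ.Dl ∣ n ^ a := pow_dvd_pow_of_dvd hD a

/-- a divisor of `D ^ r`, `r ≤ a`, divides `n ^ a` -/
theorem dvd_pow_a {K : Type} [Field K] {D : Subring K} (ρ : Ref A B) {n : ℕ} (hD : ρ.D ∣ n)
    {r : ℕ} (hr : r ≤ a) {x : K} (h : ∃ w ∈ D, w * x = (ρ.D : K) ^ r) :
    ∃ w ∈ D, x * w = (n : K) ^ a := by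
  obtain ⟨w, hw, hx⟩ := h
  obtain ⟨m, rfl⟩ := hD
  obtain ⟨t, rfl⟩ := Nat.exists_eq_add_of_le hr
  refine ⟨w * (m : K) ^ r * ((ρ.D * m : ℕ) : K) ^ t, D.mul_mem (D.mul_mem hw
    (D.pow_mem (natCast_mem D m) r)) (D.pow_mem (natCast_mem D _) t), ?_⟩
  rw [pow_add, show x * (w * (m : K) ^ r * ((ρ.D * m : ℕ) : K) ^ t) =
    (w * x) * (m : K) ^ r * ((ρ.D * m : ℕ) : K) ^ t by ring, hx]
  push_cast
  ring

/-- **C3 in the notation of Core**: a semi-solution modulo `n ^ c` for which `Loc`, injectivity,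
surjectivity and the bound of the determinants hold is in `U_u` for suitable units `u` -/
theorem inU_core (ρ : Ref A B) {K : Fin ρ.f → Type} [∀ i, Field (K i)] [∀ i, Algebra ℚ (K i)]
    [∀ i, Algebra (Lam (ρ.g i)) (K i)] [∀ i, FaithfulSMul (Lam (ρ.g i)) (K i)]
    {n : ℕ} (hn : n ≠ 0) (hD : ρ.D ∣ n) {c c1 : ℕ} (hc : c1 + 3 * a ≤ c)
    {N : Fin ρ.f → ℕ} {deg : ∀ i, Fin (N i) → ℕ} (hN : ∀ i, N i ≤ a) (s : ρ.MSt N)
    (GV : AddSubgroup (∀ i, Blk (ρ.shp deg i).lam → K i))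
    (GW : AddSubgroup (∀ i, Blk (ρ.shp deg i).mu → K i))
    (hst : ∀ i, IsSt (ρ.shp deg i) (s i))
    (hinj : ∀ i, LInv (RM (ρ.shp deg i) (smap (algebraMap (Lam (ρ.g i)) (K i)) (s i))))
    (hsurj : ∀ i, RInv (MM (ρ.shp deg i) (smap (algebraMap (Lam (ρ.g i)) (K i)) (s i))))
    (hloc : Loc (mR (ρ.shp deg) fun i => smap (algebraMap (Lam (ρ.g i)) (K i)) (s i))
      (mW (ρ.shp deg) fun i => smap (algebraMap (Lam (ρ.g i)) (K i)) (s i))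
      (locAt n GV) (locAt n GW))
    (hS : ∀ i j, Sat (ρ.shp deg i) j → ∃ w ∈ locDT (Lam (ρ.g i)) (K i) n (ρ.th i),
      w * gdet (SigM (ρ.shp deg i) (smap (algebraMap (Lam (ρ.g i)) (K i)) (s i)) j) =
        (ρ.D : K i) ^ Fintype.card {q : Fin (N i) // j ≤ deg i q})
    (hU : Uni ρ deg s (n ^ c)) :
    ∃ u : ∀ i, ℕ → K i,
      (∀ i j, Sat (ρ.shp deg i) j → u i j ∈ locOT (Lam (ρ.g i)) (K i) n (ρ.th i) ∧
        (u i j)⁻¹ ∈ locOT (Lam (ρ.g i)) (K i) n (ρ.th i) ∧ u i j ≠ 0) ∧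
      InU n c1 (fun i => locDT (Lam (ρ.g i)) (K i) n (ρ.th i)) (ρ.shp deg) GV GW u
        (fun i => smap (algebraMap (Lam (ρ.g i)) (K i)) (s i)) := by
  refine inU_of_uni hn (θ := fun i => ρ.th i) ?_ (ρ.shp deg) GV GW s (e := a) (e1 := a) ?_
    (Dl_dvd ρ hD) hst hinj hsurj hloc ?_ hU
  · intro i
    rw [Ne, map_eq_zero_iff _ (FaithfulSMul.algebraMap_injective _ _)]
    exact th_ne_zero ρ i
  · omega
  · intro i j hj
    refine dvd_pow_a ρ hD ?_ (hS i j hj)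
    refine le_trans ?_ (hN i)
    exact (Fintype.card_subtype_le _).trans (Fintype.card_fin (N i)).le

end Pool.Agent.DEC.C3
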