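import Pool.Agent.DEC.LG1

/-!
The instance of `Den` for an order `S` (domain, free of finite rank over `ℤ`) in its field of
fractions `K`: `locO = S[1/d]`, `locD = S` localised at the integers prime to `d`.
-/

set_option autoImplicit false
set_option linter.unusedSectionVars false
set_option linter.unusedVariables false

namespace Pool.Agent.DEC

section order

variable {S : Type} [CommRing S] [IsDomain S] [Module.Free ℤ S] [Module.Finite ℤ S]

theorem exists_mul_eq_norm (u : S) : ∃ v : S, u * v = ((Algebra.norm ℤ u : ℤ) : S) := by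
  set f := Algebra.lmul ℤ S u with hf
  have h1 : Polynomial.aeval f f.charpoly = 0 := LinearMap.aeval_self_charpoly f
  have h2 : Polynomial.aeval u f.charpoly = 0 := by
    have h3 : Polynomial.aeval (Algebra.lmul ℤ S u) f.charpoly
        = Algebra.lmul ℤ S (Polynomial.aeval u f.charpoly) := by
      rw [← Polynomial.aeval_algHom_apply]
    rw [← hf, h1] at h3
    have h4 := congrArg (fun g : S →ₗ[ℤ] S => g 1) h3
    simpa using h4.symm
  have h5 := Polynomial.divX_mul_X_add f.charpoly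
  rw [← h5] at h2
  simp only [map_add, map_mul, Polynomial.aeval_X, Polynomial.aeval_C] at h2
  have h6 := LinearMap.det_eq_sign_charpoly_coeff f
  refine ⟨-(((-1 : ℤ) ^ Module.finrank ℤ S : ℤ) : S) * Polynomial.aeval u f.charpoly.divX, ?_⟩
  rw [Algebra.norm_apply, ← hf, h6]
  push_cast
  have h7 : (algebraMap ℤ S) (f.charpoly.coeff 0) = ((f.charpoly.coeff 0 : ℤ) : S) := by simp
  rw [h7] at h2
  linear_combination (-((-1 : S) ^ Module.finrank ℤ S)) * h2

theorem norm_ne_zero' {u : S} (hu : u ≠ 0) : Algebra.norm ℤ u ≠ 0 :=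
  (Algebra.norm_ne_zero_iff_of_basis (Module.Free.chooseBasis ℤ S)).mpr hu

theorem norm_add_mul (m : ℤ) (d : ℕ) (z : S) :
    ∃ k : ℤ, Algebra.norm ℤ ((m : S) + (d : S) * z) = m ^ (Module.finrank ℤ S) + d * k := by
  classical
  let b := Module.Free.chooseBasis ℤ S
  have h1 : Algebra.norm ℤ ((m : S) + (d : S) * z)
      = (Algebra.leftMulMatrix b ((m : S) + (d : S) * z)).det :=
    Algebra.norm_eq_matrix_det b _
  have h2 : Algebra.leftMulMatrix b ((m : S) + (d : S) * z)
      = (m : Matrix _ _ ℤ) + (d : Matrix _ _ ℤ) * Algebra.leftMulMatrix b z := by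
    rw [map_add, map_mul, map_intCast, map_natCast]
  have h3 : (((Algebra.leftMulMatrix b ((m : S) + (d : S) * z)).det : ℤ) : ZMod d)
      = (m : ZMod d) ^ (Module.finrank ℤ S) := by
    have h4 := RingHom.map_det (Int.castRingHom (ZMod d))
      (Algebra.leftMulMatrix b ((m : S) + (d : S) * z))
    rw [eq_intCast] at h4
    rw [h4, h2]
    have h5 : (Int.castRingHom (ZMod d)).mapMatrix
        ((m : Matrix _ _ ℤ) + (d : Matrix _ _ ℤ) * Algebra.leftMulMatrix b z)
        = (m : Matrix (Module.Free.ChooseBasisIndex ℤ S) (Module.Free.ChooseBasisIndex ℤ S)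
          (ZMod d)) := by
      rw [map_add, map_mul, map_intCast, map_natCast, CharP.cast_eq_zero, zero_mul, add_zero]
    rw [h5]
    have h6 : (m : Matrix (Module.Free.ChooseBasisIndex ℤ S) (Module.Free.ChooseBasisIndex ℤ S)
          (ZMod d)) = (m : ZMod d) • (1 : Matrix _ _ (ZMod d)) := by
      rw [← Int.cast_one (R := Matrix (Module.Free.ChooseBasisIndex ℤ S)
        (Module.Free.ChooseBasisIndex ℤ S) (ZMod d))]
      ext i j
      simp [Matrix.intCast_apply, Matrix.one_apply]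
    rw [h6, Matrix.det_smul, Matrix.det_one, mul_one, Module.finrank_eq_card_chooseBasisIndex]
  have h7 : ((m ^ (Module.finrank ℤ S) : ℤ) : ZMod d)
      = (((Algebra.leftMulMatrix b ((m : S) + (d : S) * z)).det : ℤ) : ZMod d) := by
    rw [h3]; push_cast; rfl
  rw [ZMod.intCast_eq_intCast_iff_dvd_sub] at h7
  obtain ⟨k, hk⟩ := h7
  exact ⟨k, by rw [h1]; linarith⟩

end order

theorem exists_split (d : ℕ) (hd : d ≠ 0) : ∀ b : ℕ, b ≠ 0 →
    ∃ b1 b2 q k : ℕ, b = b1 * b2 ∧ d ^ k = b1 * q ∧ b2 ≠ 0 ∧ Nat.Coprime b2 d := by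
  intro b
  induction b using Nat.strong_induction_on with
  | _ b ih =>
    intro hb
    by_cases hc : Nat.Coprime b d
    · exact ⟨1, b, 1, 0, by ring, by simp, hb, hc⟩
    · have hg1 : Nat.gcd b d ≠ 1 := hc
      have hg0 : 0 < Nat.gcd b d := Nat.gcd_pos_of_pos_left _ (Nat.pos_of_ne_zero hb)
      obtain ⟨b', hb'⟩ := Nat.gcd_dvd_left b d
      obtain ⟨d', hd'⟩ := Nat.gcd_dvd_right b d
      have hb'0 : b' ≠ 0 := by rintro rfl; rw [mul_zero] at hb'; exact hb hb'
      have hlt : b' < b := by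
        rw [hb']
        have : 2 ≤ Nat.gcd b d := by omega
        rw [← hb']
        nlinarith [Nat.pos_of_ne_zero hb'0]
      obtain ⟨b1, b2, q, k, h1, h2, h3, h4⟩ := ih b' hlt hb'0
      refine ⟨Nat.gcd b d * b1, b2, d' * q, k + 1, ?_, ?_, h3, h4⟩
      · rw [mul_assoc, ← h1]; exact hb'
      · rw [pow_succ, h2]
        nth_rewrite 1 [hd']
        ring

section inst

variable (S K : Type) [CommRing S] [IsDomain S] [Module.Free ℤ S] [Module.Finite ℤ S]
  [Field K] [Algebra S K] [IsFractionRing S K] (d : ℕ)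

/-- `S[1/d]` in `K` -/
def locO : Subring K where
  carrier := {x | ∃ (k : ℕ) (s : S), (d : K) ^ k * x = algebraMap S K s}
  zero_mem' := ⟨0, 0, by simp⟩
  one_mem' := ⟨0, 1, by simp⟩
  add_mem' := by
    rintro x y ⟨k, s, hs⟩ ⟨l, t, ht⟩
    refine ⟨k + l, (d : S) ^ l * s + (d : S) ^ k * t, ?_⟩
    rw [map_add, map_mul, map_mul, map_pow, map_pow, map_natCast, ← hs, ← ht]
    ring
  mul_mem' := by
    rintro x y ⟨k, s, hs⟩ ⟨l, t, ht⟩
    refine ⟨k + l, s * t, ?_⟩
    rw [map_mul, ← hs, ← ht]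
    ring
  neg_mem' := by
    rintro x ⟨k, s, hs⟩
    exact ⟨k, -s, by rw [map_neg, ← hs]; ring⟩

/-- `S` localised at the integers prime to `d`, in `K` -/
def locD : Subring K where
  carrier := {x | ∃ m : ℕ, m ≠ 0 ∧ Nat.Coprime m d ∧ ∃ s : S, (m : K) * x = algebraMap S K s}
  zero_mem' := ⟨1, one_ne_zero, Nat.coprime_one_left d, 0, by simp⟩
  one_mem' := ⟨1, one_ne_zero, Nat.coprime_one_left d, 1, by simp⟩
  add_mem' := by
    rintro x y ⟨m, hm0, hmd, s, hs⟩ ⟨m', hm0', hmd', t, ht⟩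
    refine ⟨m * m', mul_ne_zero hm0 hm0', Nat.Coprime.mul_left hmd hmd',
      (m' : S) * s + (m : S) * t, ?_⟩
    rw [map_add, map_mul, map_mul, map_natCast, map_natCast, ← hs, ← ht]
    push_cast
    ring
  mul_mem' := by
    rintro x y ⟨m, hm0, hmd, s, hs⟩ ⟨m', hm0', hmd', t, ht⟩
    refine ⟨m * m', mul_ne_zero hm0 hm0', Nat.Coprime.mul_left hmd hmd', s * t, ?_⟩
    rw [map_mul, ← hs, ← ht]
    push_cast
    ring
  neg_mem' := by
    rintro x ⟨m, hm0, hmd, s, hs⟩
    exact ⟨m, hm0, hmd, -s, by rw [map_neg, ← hs]; ring⟩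

variable {S K d}

theorem mem_locO {x : K} : x ∈ locO S K d ↔
    ∃ (k : ℕ) (s : S), (d : K) ^ k * x = algebraMap S K s := Iff.rfl

theorem mem_locD {x : K} : x ∈ locD S K d ↔
    ∃ m : ℕ, m ≠ 0 ∧ Nat.Coprime m d ∧ ∃ s : S, (m : K) * x = algebraMap S K s := Iff.rfl

theorem algebraMap_mem_locO (s : S) : algebraMap S K s ∈ locO S K d := ⟨0, s, by simp⟩

theorem algebraMap_mem_locD (s : S) : algebraMap S K s ∈ locD S K d :=
  ⟨1, one_ne_zero, Nat.coprime_one_left d, s, by simp⟩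

theorem charZeroK (S K : Type) [CommRing S] [IsDomain S] [Module.Free ℤ S] [Module.Finite ℤ S]
    [Field K] [Algebra S K] [IsFractionRing S K] : CharZero K := by
  refine ⟨fun a b hab => ?_⟩
  have h1 : algebraMap S K (a : S) = algebraMap S K (b : S) := by simpa using hab
  have h2 : (a : S) = (b : S) := IsFractionRing.injective S K h1
  have h3 : (algebraMap ℤ S) (a : ℤ) = (algebraMap ℤ S) (b : ℤ) := by simpa using h2
  exact_mod_cast FaithfulSMul.algebraMap_injective ℤ S h3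

theorem cast_natAbs_eq {K : Type} [Field K] (N : ℤ) :
    ((N.natAbs : ℕ) : K) = (N : K) * ((N.sign : ℤ) : K) := by
  rw [← Int.cast_mul, Int.mul_sign_self, Int.cast_natCast]

theorem exists_nat_mul (S : Type) {K : Type} [CommRing S] [IsDomain S] [Module.Free ℤ S]
    [Module.Finite ℤ S] [Field K] [Algebra S K] [IsFractionRing S K] (z : K) :
    ∃ b : ℕ, b ≠ 0 ∧ ∃ a : S, (b : K) * z = algebraMap S K a := by
  obtain ⟨x, y, hy, rfl⟩ := IsFractionRing.div_surjective (A := S) z
  have hy0 : y ≠ 0 := nonZeroDivisors.ne_zero hy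
  obtain ⟨v, hv⟩ := exists_mul_eq_norm y
  have hN := norm_ne_zero' hy0
  have hyK : algebraMap S K y ≠ 0 := by
    rw [Ne, IsFractionRing.to_map_eq_zero_iff]; exact hy0
  have h1 : ((Algebra.norm ℤ y : ℤ) : K) = algebraMap S K y * algebraMap S K v := by
    rw [← map_mul, hv, map_intCast]
  refine ⟨(Algebra.norm ℤ y).natAbs, Int.natAbs_ne_zero.mpr hN,
    (((Algebra.norm ℤ y).sign : ℤ) : S) * (v * x), ?_⟩
  rw [cast_natAbs_eq, h1, map_mul, map_mul, map_intCast]
  field_simp

theorem exists_inv_mod (a b : ℕ) (h : Nat.Coprime a b) : ∃ w t : ℤ, w * a = 1 + b * t := by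
  have h1 : IsCoprime (a : ℤ) (b : ℤ) := Nat.isCoprime_iff_coprime.mpr h
  obtain ⟨x, y, hxy⟩ := h1
  exact ⟨x, -y, by linarith⟩

theorem den_order (hd : 2 ≤ d) : Den d (locO S K d) (locD S K d) := by
  have hcz : CharZero K := charZeroK S K
  have hdK : (d : K) ≠ 0 := by
    rw [Nat.cast_ne_zero]; omega
  have hd0 : d ≠ 0 := by omega
  refine ⟨hdK, ⟨1, 1, by rw [pow_one, mul_inv_cancel₀ hdK, map_one]⟩, ?_, ?_, ?_, ?_⟩
  · -- density
    intro z z0 c n hz0 hn0 hnd
    obtain ⟨b, hb0, a, hba⟩ := exists_nat_mul S z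
    obtain ⟨b1, b2, q, k, hb, hdk, hb20, hb2⟩ := exists_split d hd0 b hb0
    obtain ⟨w, t, hwt⟩ := exists_inv_mod b2 (d ^ (c + k)) (Nat.Coprime.pow_right _ hb2)
    have hb2K : (b2 : K) ≠ 0 := Nat.cast_ne_zero.mpr hb20
    have hb1K : (b1 : K) ≠ 0 := by
      rw [Nat.cast_ne_zero]
      rintro rfl
      rw [zero_mul] at hdk
      exact pow_ne_zero k hd0 hdk
    have hdkK : (d : K) ^ k = (b1 : K) * (q : K) := by exact_mod_cast congrArg (Nat.cast : ℕ → K) hdk
    have hbK : (b1 : K) * (b2 : K) * z = algebraMap S K a := by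
      rw [← hba, hb]; push_cast; ring
    have hwtK : (w : K) * (b2 : K) = 1 + (d : K) ^ (c + k) * (t : K) := by
      have := congrArg (Int.cast : ℤ → K) hwt
      push_cast at this
      exact this
    set z1 : K := (w : K) * (b2 : K) * z with hz1
    have hz1O : z1 ∈ locO S K d := by
      refine ⟨k, (w : S) * (q : S) * a, ?_⟩
      rw [map_mul, map_mul, map_intCast, map_natCast, ← hbK, hdkK, hz1]
      ring
    have hz1D : ∃ w1 ∈ locD S K d, z1 = z + (d : K) ^ c * w1 := by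
      refine ⟨(d : K) ^ k * (t : K) * z, ⟨b2, hb20, hb2, (q : S) * (t : S) * a, ?_⟩, ?_⟩
      · rw [map_mul, map_mul, map_intCast, map_natCast, ← hbK, hdkK]
        ring
      · rw [hz1, hwtK, pow_add]; ring
    obtain ⟨w1, hw1, hz1w⟩ := hz1D
    obtain ⟨k0, s0, hs0⟩ : (z0 - z1) ∈ locO S K d := Subring.sub_mem _ hz0 hz1O
    obtain ⟨e, t', het⟩ := exists_inv_mod (d ^ (c + k0)) n
      (Nat.Coprime.pow_left _ (Nat.Coprime.symm hnd))
    have hetK : (e : K) * (d : K) ^ (c + k0) = 1 + (n : K) * (t' : K) := by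
      have := congrArg (Int.cast : ℤ → K) het
      push_cast at this
      exact this
    have hs0' : algebraMap S K s0 = (d : K) ^ k0 * (z0 - z1) := hs0.symm
    refine ⟨z1 + (d : K) ^ c * algebraMap S K ((e : S) * s0), ?_, ⟨w1 + algebraMap S K ((e : S) * s0),
      Subring.add_mem _ hw1 (algebraMap_mem_locD _), ?_⟩, (t' : K) * (z0 - z1), ?_, ?_⟩
    · refine Subring.add_mem _ hz1O (Subring.mul_mem _ ?_ (algebraMap_mem_locO _))
      exact Subring.pow_mem _ (natCast_mem _ d) c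
    · rw [hz1w]; ring
    · exact Subring.mul_mem _ (intCast_mem _ t') (Subring.sub_mem _ hz0 hz1O)
    · rw [map_mul, map_intCast, hs0']
      have : (d : K) ^ c * ((e : K) * ((d : K) ^ k0 * (z0 - z1)))
          = ((e : K) * (d : K) ^ (c + k0)) * (z0 - z1) := by rw [pow_add]; ring
      rw [this, hetK]
      ring
  · -- units
    rintro u ⟨k, s, hs⟩ hu0
    have hs0 : s ≠ 0 := by
      rintro rfl
      rw [map_zero] at hs
      exact (mul_ne_zero (pow_ne_zero k hdK) hu0) hs
    obtain ⟨v, hv⟩ := exists_mul_eq_norm s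
    have hN := norm_ne_zero' hs0
    obtain ⟨b1, b2, q, j, hb, hdj, hb20, hb2⟩ := exists_split d hd0 (Algebra.norm ℤ s).natAbs
      (Int.natAbs_ne_zero.mpr hN)
    have hb1K : (b1 : K) ≠ 0 := by
      rw [Nat.cast_ne_zero]
      rintro rfl
      rw [zero_mul] at hb
      exact hN (Int.natAbs_eq_zero.mp hb)
    have hdjK : (d : K) ^ j = (b1 : K) * (q : K) := by
      exact_mod_cast congrArg (Nat.cast : ℕ → K) hdj
    have hvK : algebraMap S K s * algebraMap S K v = ((Algebra.norm ℤ s : ℤ) : K) := by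
      rw [← map_mul, hv, map_intCast]
    have hcase : ∃ ε : ℤ, ((Algebra.norm ℤ s : ℤ) : K) * (ε : K) = (b1 : K) * (b2 : K) := by
      refine ⟨(Algebra.norm ℤ s).sign, ?_⟩
      rw [← cast_natAbs_eq, hb]; push_cast; rfl
    obtain ⟨ε, hε⟩ := hcase
    refine ⟨b2, hb20, hb2, (d : K) ^ k * algebraMap S K v * (ε : K) * (b1 : K)⁻¹,
      ⟨j, (d : S) ^ k * v * (ε : S) * (q : S), ?_⟩, ?_⟩
    · rw [map_mul, map_mul, map_mul, map_pow, map_natCast, map_natCast, map_intCast, hdjK]
      field_simp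
    · have h1 : u * ((d : K) ^ k * algebraMap S K v * (ε : K) * (b1 : K)⁻¹)
          = ((d : K) ^ k * u) * algebraMap S K v * (ε : K) * (b1 : K)⁻¹ := by ring
      rw [h1, hs, hvK, hε]
      field_simp
  · -- Jacobson radical
    rintro z ⟨m, hm0, hmd, s, hs⟩
    have hmK : (m : K) ≠ 0 := Nat.cast_ne_zero.mpr hm0
    set u : S := ((m : ℤ) : S) + (d : S) * s with hu
    obtain ⟨k, hk⟩ := norm_add_mul (m : ℤ) d s
    obtain ⟨v, hv⟩ := exists_mul_eq_norm u
    rw [← hu] at hk
    have hcop : Nat.Coprime (Algebra.norm ℤ u).natAbs d := by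
      have h1 : IsCoprime ((m : ℤ) ^ Module.finrank ℤ S) (d : ℤ) :=
        (Nat.isCoprime_iff_coprime.mpr hmd).pow_left
      have h2 : IsCoprime (Algebra.norm ℤ u) (d : ℤ) := by
        rw [hk]; exact h1.add_mul_left_left k
      have h3 := Int.isCoprime_iff_nat_coprime.mp h2
      simpa using h3
    have hN0 : (Algebra.norm ℤ u).natAbs ≠ 0 := by
      intro h0
      rw [h0, Nat.coprime_zero_left] at hcop
      omega
    have huK : algebraMap S K u * algebraMap S K v = ((Algebra.norm ℤ u : ℤ) : K) := by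
      rw [← map_mul, hv, map_intCast]
    have huK2 : algebraMap S K u = (m : K) * (1 + (d : K) * z) := by
      rw [hu, map_add, map_mul, map_intCast, map_natCast, ← hs]
      push_cast
      ring
    have hNK : ((Algebra.norm ℤ u : ℤ) : K) ≠ 0 := by
      rw [Int.cast_ne_zero]
      exact fun h => hN0 (by rw [h]; rfl)
    refine ⟨(m : K) * algebraMap S K v * ((Algebra.norm ℤ u : ℤ) : K)⁻¹,
      ⟨(Algebra.norm ℤ u).natAbs, hN0, hcop, (((Algebra.norm ℤ u).sign : ℤ) : S) * ((m : S) * v),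
        ?_⟩, ?_⟩
    · rw [cast_natAbs_eq, map_mul, map_mul, map_intCast, map_natCast]
      field_simp
    · have h4 : (1 + (d : K) * z) * ((m : K) * algebraMap S K v * ((Algebra.norm ℤ u : ℤ) : K)⁻¹)
          = (((m : K) * (1 + (d : K) * z)) * algebraMap S K v) *
            ((Algebra.norm ℤ u : ℤ) : K)⁻¹ := by ring
      rw [h4, ← huK2, huK, mul_inv_cancel₀ hNK]
  · intro z
    obtain ⟨b, hb0, a, hba⟩ := exists_nat_mul S z
    obtain ⟨b1, b2, q, k, hb, hdk, hb20, hb2⟩ := exists_split d hd0 b hb0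
    refine ⟨k, b2, hb20, hb2, (q : S) * a, ?_⟩
    have hdkK : (d : K) ^ k = (b1 : K) * (q : K) := by exact_mod_cast congrArg (Nat.cast : ℕ → K) hdk
    rw [map_mul, map_natCast, ← hba, hb, hdkK]
    push_cast
    ring

end inst

end Pool.Agent.DEC
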