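import Pool.Agent.DEC.StUnit
import Pool.Agent.DEC.Core

/-!
The same as `StUnit`, for states over a domain `R` (e.g. `R = ℤ[X]/(g)`), without a field.
`(H1)`: for every nonzero integer `e` and `z` with `e ∣ RM z` we have `e ∣ N z`.
Then `det Sig_j ∣ N ^ r`, if `Sig_j` is square; with a right inverse up to `N'` of `T_j` the
quotient of the two determinants is a unit up to `N`, `N'`.
-/

set_option autoImplicit false
set_option linter.unusedSectionVars false

open Matrix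

namespace Pool.Agent.DEC

section gd

variable {R : Type} [CommRing R]

theorem gdet_dvd_of_right {m n : Type} [Fintype m] [Fintype n] [DecidableEq m] [DecidableEq n]
    (hc : Fintype.card n = Fintype.card m) {M : Matrix m n R} {Y : Matrix n m R} {N : R}
    (h : M * Y = N • (1 : Matrix m m R)) : ∃ w, gdet M * w = N ^ Fintype.card n := by
  unfold gdet
  rw [dif_pos hc]
  set e := Fintype.equivOfCardEq hc with he
  refine ⟨(Y.submatrix id e).det, ?_⟩
  rw [← det_mul]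
  have h1 : M.submatrix (e : n → m) id * Y.submatrix id (e : n → m) = N • (1 : Matrix n n R) := by
    rw [← Matrix.submatrix_mul M Y (e : n → m) id (e : n → m) Function.bijective_id, h]
    ext i j
    simp only [Matrix.submatrix_apply, Matrix.smul_apply, Matrix.one_apply, smul_eq_mul,
      EmbeddingLike.apply_eq_iff_eq]
  rw [h1, det_smul, det_one, mul_one]

/-- every nonzero element divides a nonzero integer -/
def NormD (R : Type) [CommRing R] : Prop :=
  ∀ x : R, x ≠ 0 → ∃ (y : R) (e : ℤ), e ≠ 0 ∧ x * y = (e : R)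

/-- a square injective matrix which is injective up to `N` modulo the integers -/
theorem gdet_dvd_of_bound {m n : Type} [Fintype m] [Fintype n] [DecidableEq m] [DecidableEq n]
    [IsDomain R] [CharZero R] (hR : NormD R)
    (hc : Fintype.card n = Fintype.card m) {M : Matrix m n R} {N : R}
    (hinj : ∀ z, M *ᵥ z = 0 → z = 0)
    (hN : ∀ (e : ℤ) (z : n → R), e ≠ 0 → (∀ i, (e : R) ∣ (M *ᵥ z) i) → ∀ q, (e : R) ∣ N * z q) :
    gdet M ≠ 0 ∧ ∃ w, gdet M * w = N ^ Fintype.card n := by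
  unfold gdet
  rw [dif_pos hc]
  set e := Fintype.equivOfCardEq hc with he
  set M' := M.submatrix (e : n → m) id with hM'
  have hMM : ∀ (z : n → R) (i : m), (M *ᵥ z) i = (M' *ᵥ z) (e.symm i) := by
    intro z i
    simp [hM', Matrix.mulVec, dotProduct]
  have hdet : M'.det ≠ 0 := by
    intro h0
    obtain ⟨v, hv, hv0⟩ := Matrix.exists_mulVec_eq_zero_iff.mpr h0
    apply hv
    apply hinj
    funext i
    rw [hMM, hv0]
    rfl
  refine ⟨hdet, ?_⟩
  obtain ⟨y, d, hd, hy⟩ := hR _ hdet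
  have hd0 : (d : R) ≠ 0 := Int.cast_ne_zero.mpr hd
  have hy0 : y ≠ 0 := by
    rintro rfl
    rw [mul_zero] at hy
    exact hd0 hy.symm
  -- the adjugate is divisible by the determinant, up to `N`
  have key : ∀ q i, M'.det ∣ N * M'.adjugate q i := by
    intro q i
    have h1 : ∀ i', (d : R) ∣ (M *ᵥ fun q => y * M'.adjugate q i) i' := by
      intro i'
      have h2 : (M *ᵥ fun q => y * M'.adjugate q i) i' =
          y * (M' * M'.adjugate) (e.symm i') i := by
        rw [hMM, Matrix.mulVec, dotProduct, Matrix.mul_apply, Finset.mul_sum]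
        exact Finset.sum_congr rfl fun k _ => by ring
      rw [h2, Matrix.mul_adjugate, Matrix.smul_apply, smul_eq_mul, ← mul_assoc, mul_comm y, hy]
      exact Dvd.intro _ rfl
    obtain ⟨t, ht⟩ := hN d _ hd h1 q
    refine ⟨t, ?_⟩
    apply mul_left_cancel₀ hy0
    calc y * (N * M'.adjugate q i) = N * (y * M'.adjugate q i) := by ring
      _ = (d : R) * t := ht
      _ = y * (M'.det * t) := by rw [← hy]; ring
  choose W hW using key
  have h3 : (of W) * M' = N • (1 : Matrix n n R) := by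
    have h4 : M'.det • ((of W) * M') = M'.det • (N • (1 : Matrix n n R)) := by
      have h5 : M'.det • (of W) = N • M'.adjugate := by
        ext q i
        simp only [Matrix.smul_apply, of_apply, smul_eq_mul]
        exact (hW q i).symm
      rw [← Matrix.smul_mul, h5, Matrix.smul_mul, Matrix.adjugate_mul, smul_comm]
    ext q i
    have h6 := congrFun (congrFun h4 q) i
    simp only [Matrix.smul_apply, smul_eq_mul] at h6
    exact mul_left_cancel₀ hdet h6
  refine ⟨(of W).det, ?_⟩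
  rw [mul_comm, ← det_mul, h3, det_smul, det_one, mul_one]

end gd

section St

variable {R : Type} [CommRing R] {I α β : Type} [Fintype I] [DecidableEq I]
  {σ : Shp I α β} {s : RSt R I α β}

theorem sigM_boundL (h : IsSt σ s) {N : R}
    (hN : ∀ (e : ℤ) (z : I → R), e ≠ 0 → (∀ v, (e : R) ∣ (RM σ s *ᵥ z) v) →
      ∀ q, (e : R) ∣ N * z q) (j : ℕ) (e : ℤ)
    (z : {q : I // j ≤ σ.deg q} → R) (he : e ≠ 0) (hz : ∀ i, (e : R) ∣ (SigM σ s j *ᵥ z) i) (q) :
    (e : R) ∣ N * z q := by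
  have h1 : ∀ v, (e : R) ∣ (RM σ s *ᵥ ext0 z) v := by
    intro v
    rw [RM_mulVec]
    split_ifs with h0
    · rw [h.sig_rho j z, ext0]
      split_ifs
      · exact hz _
      · exact dvd_zero _
    · rw [h.sig_c j z, Matrix.mulVec, dotProduct]
      refine Finset.dvd_sum fun p _ => Dvd.dvd.mul_left ?_ _
      rw [ext0]
      split_ifs
      · exact hz _
      · exact dvd_zero _
  have h2 := hN e _ he h1 q.1
  simpa only [ext0, q.2, dite_true, Subtype.coe_eta] using h2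

/-- **det Sig_j divides a power of `N`** -/
theorem gdet_sigM_dvdL [IsDomain R] [CharZero R] (hR : NormD R) [Fintype α] [DecidableEq α]
    (h : IsSt σ s) {N : R} (hinj : ∀ z : I → R, RM σ s *ᵥ z = 0 → z = 0)
    (hN : ∀ (e : ℤ) (z : I → R), e ≠ 0 → (∀ v, (e : R) ∣ (RM σ s *ᵥ z) v) →
      ∀ q, (e : R) ∣ N * z q) (j : ℕ)
    (hc : Fintype.card {q : I // j ≤ σ.deg q} =
      Fintype.card ({p : I // j + 1 ≤ σ.deg p} ⊕ {a : α // j + 1 ≤ σ.lam a})) :
    gdet (SigM σ s j) ≠ 0 ∧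
      ∃ w, gdet (SigM σ s j) * w = N ^ Fintype.card {q : I // j ≤ σ.deg q} :=
  gdet_dvd_of_bound hR hc (sigM_inj h hinj j) fun e z he hz q => sigM_boundL h hN j e z he hz q

theorem xL_pow_zero (mu : β → ℕ) (θ : R) (l : ℕ) (w : Blk mu → R) (v : Blk mu)
    (hv : (v.2 : ℕ) = 0) : ((xL θ mu ^ l) w) v = θ ^ l * w v := by
  induction l with
  | zero => simp
  | succ l ih =>
    rw [pow_succ', Module.End.mul_apply]
    simp only [xL, LinearMap.add_apply, LinearMap.smul_apply, LinearMap.id_apply, Pi.add_apply,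
      Pi.smul_apply, smul_eq_mul, yL, LinearMap.coe_mk, AddHom.coe_mk]
    rw [dif_neg (by omega), add_zero]
    change θ * ((xL θ mu ^ l) w) v = _
    rw [ih, pow_succ]
    ring

theorem IsSt.tm_key (h : IsSt σ s) (j : ℕ) (z : I → R) (b : {b : β // j + 1 ≤ σ.mu b}) :
    ∑ q : {q : I // σ.deg q = j}, TM σ s j b q * (s.1 ^ j *ᵥ z) q.1 =
      (MM σ s *ᵥ z) ⟨b.1, ⟨0, by have := b.2; omega⟩⟩ := by
  simp only [TM, of_apply]
  have h1 : ∑ q : {q : I // σ.deg q = j}, (s.2.2 * s.1 ^ (σ.mu b.1 - 1 - j)) b.1 q.1 *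
      (s.1 ^ j *ᵥ z) q.1 = ∑ q : I, (s.2.2 * s.1 ^ (σ.mu b.1 - 1 - j)) b.1 q *
      (s.1 ^ j *ᵥ z) q := by
    refine sum_subtype_of_zero (P := fun q : I => σ.deg q = j) (fun q : I =>
      (s.2.2 * s.1 ^ (σ.mu b.1 - 1 - j)) b.1 q * (s.1 ^ j *ᵥ z) q) ?_
    intro q hq
    rcases lt_or_gt_of_ne hq with hq | hq
    · have h3 : (s.1 ^ j *ᵥ z) q = 0 := by
        rw [Matrix.mulVec, dotProduct]
        refine Finset.sum_eq_zero fun r _ => ?_
        rw [h.pow_zero_of j q r (by omega), zero_mul]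
      rw [h3, mul_zero]
    · rw [h.tau_pow _ _ _ (by have := b.2; omega), zero_mul]
  rw [h1]
  have h2 : ∑ q : I, (s.2.2 * s.1 ^ (σ.mu b.1 - 1 - j)) b.1 q * (s.1 ^ j *ᵥ z) q =
      ((s.2.2 * s.1 ^ (σ.mu b.1 - 1 - j)) *ᵥ (s.1 ^ j *ᵥ z)) b.1 := rfl
  rw [h2, Matrix.mulVec_mulVec, Matrix.mul_assoc, ← pow_add,
    show σ.mu b.1 - 1 - j + j = σ.mu b.1 - 1 from by have := b.2; omega]
  rfl

/-- if `m` is onto `N x^l W`, then `T_j` is onto `N θ^l` -/
theorem exists_right_tmL [DecidableEq β] (h : IsSt σ s) {N θ : R} {l : ℕ}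
    (hY : ∀ w : Blk σ.mu → R, ∃ z : I → R, MM σ s *ᵥ z = N • (xL θ σ.mu ^ l) w)
    (j : ℕ) : ∃ Y : Matrix {q : I // σ.deg q = j} {b : β // j + 1 ≤ σ.mu b} R,
      TM σ s j * Y = (N * θ ^ l) • (1 : Matrix {b : β // j + 1 ≤ σ.mu b} _ R) := by
  choose Z hZ using fun b : {b : β // j + 1 ≤ σ.mu b} =>
    hY (Pi.single ⟨b.1, ⟨0, by have := b.2; omega⟩⟩ 1)
  refine ⟨of fun q b => (s.1 ^ j *ᵥ Z b) q.1, ?_⟩
  ext b b'
  rw [Matrix.mul_apply]
  simp only [of_apply]
  rw [h.tm_key j (Z b') b, hZ b', Pi.smul_apply, xL_pow_zero _ _ _ _ _ rfl, Matrix.smul_apply,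
    smul_eq_mul, smul_eq_mul, mul_assoc]
  congr 2
  obtain ⟨b, hb0⟩ := b
  obtain ⟨b', hb0'⟩ := b'
  by_cases hb : b = b'
  · subst hb
    simp
  · rw [Pi.single_apply, Matrix.one_apply, if_neg, if_neg]
    · rintro h1
      exact hb (congrArg Subtype.val h1)
    · rintro h1
      exact hb (congrArg Sigma.fst h1)

/-- **det T_j divides a power of `N θ^l`** -/
theorem gdet_tm_dvdL [Fintype β] [DecidableEq β] (h : IsSt σ s) {N θ : R} {l : ℕ}
    (hY : ∀ w : Blk σ.mu → R, ∃ z : I → R, MM σ s *ᵥ z = N • (xL θ σ.mu ^ l) w)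
    (j : ℕ)
    (hc : Fintype.card {b : β // j + 1 ≤ σ.mu b} = Fintype.card {q : I // σ.deg q = j}) :
    ∃ w, gdet (TM σ s j) * w = (N * θ ^ l) ^ Fintype.card {q : I // σ.deg q = j} := by
  obtain ⟨Y, hY⟩ := exists_right_tmL h hY j
  exact gdet_dvd_of_right hc.symm hY

/-- **the unit condition in polynomial form**: with `Dl = N ^ m` there are `f`, `f'`, `l'` with
`f f' = Dl^2 θ^(2 l')` and `f det Sig_j = θ^l' Dl det T_j` -/
theorem exists_ff [IsDomain R] {x y w w' N θ : R} {r r' m l : ℕ} (hr : r ≤ m) (hr' : r' ≤ m)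
    (h1 : x * w = N ^ r) (h2 : y * w' = (N * θ ^ l) ^ r') :
    ∃ f f' : R, f * f' = (N ^ m) ^ 2 * (θ ^ (l * r')) ^ 2 ∧
      f * x = θ ^ (l * r') * N ^ m * y := by
  obtain ⟨a, rfl⟩ := Nat.exists_eq_add_of_le hr
  obtain ⟨b, hb⟩ := Nat.exists_eq_add_of_le hr'
  refine ⟨y * w * N ^ a * θ ^ (l * r'), x * w' * N ^ b, ?_, ?_⟩
  · have h3 : y * w * N ^ a * θ ^ (l * r') * (x * w' * N ^ b) =
        (x * w) * (y * w') * (N ^ a * N ^ b) * θ ^ (l * r') := by ring
    rw [h3, h1, h2, mul_pow, ← pow_mul]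
    have h4 : N ^ r * (N ^ r' * θ ^ (l * r')) * (N ^ a * N ^ b) * θ ^ (l * r') =
        (N ^ (r + a)) * (N ^ (r' + b)) * (θ ^ (l * r')) ^ 2 := by
      rw [pow_add, pow_add]
      ring
    rw [h4, ← hb]
    ring
  · have h3 : y * w * N ^ a * θ ^ (l * r') * x = θ ^ (l * r') * ((x * w) * N ^ a) * y := by ring
    rw [h3, h1, ← pow_add]

theorem card_ge (deg : I → ℕ) (j : ℕ) : Fintype.card {q : I // j ≤ deg q} =
    Fintype.card {p : I // j + 1 ≤ deg p} + Fintype.card {q : I // deg q = j} := by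
  rw [← Fintype.card_sum]
  refine Fintype.card_congr ⟨fun q => if h : deg q.1 = j then Sum.inr ⟨q.1, h⟩ else
    Sum.inl ⟨q.1, by have := q.2; omega⟩, fun x => Sum.elim (fun p => ⟨p.1, by
      have := p.2; omega⟩) (fun q => ⟨q.1, q.2.ge⟩) x, ?_, ?_⟩
  · intro q
    dsimp only
    split_ifs <;> rfl
  · rintro (p | q)
    · have h1 : deg p.1 ≠ j := by have := p.2; omega
      simp [h1]
    · simp [q.2]

theorem card_sig [Fintype α] {j : ℕ}
    (hc : Fintype.card {a : α // j + 1 ≤ σ.lam a} = Fintype.card {q : I // σ.deg q = j}) :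
    Fintype.card {q : I // j ≤ σ.deg q} =
      Fintype.card ({p : I // j + 1 ≤ σ.deg p} ⊕ {a : α // j + 1 ≤ σ.lam a}) := by
  rw [Fintype.card_sum, hc]
  exact card_ge σ.deg j

/-- **S3**: the two determinants at a saturated level -/
theorem exists_unit_data [IsDomain R] [CharZero R] (hR : NormD R) [Fintype α] [DecidableEq α]
    [Fintype β] [DecidableEq β] (h : IsSt σ s) {N θ : R} {l m : ℕ}
    (hm : Fintype.card I ≤ m)
    (hinj : ∀ z : I → R, RM σ s *ᵥ z = 0 → z = 0)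
    (hN : ∀ (e : ℤ) (z : I → R), e ≠ 0 → (∀ v, (e : R) ∣ (RM σ s *ᵥ z) v) →
      ∀ q, (e : R) ∣ N * z q)
    (hY : ∀ w : Blk σ.mu → R, ∃ z : I → R, MM σ s *ᵥ z = N • (xL θ σ.mu ^ l) w)
    (j : ℕ) (hsat : Sat σ j) : gdet (SigM σ s j) ≠ 0 ∧
    ∃ (f f' : R) (l' : ℕ), f * f' = (N ^ m) ^ 2 * θ ^ (2 * l') ∧
      f * gdet (SigM σ s j) = θ ^ l' * N ^ m * gdet (TM σ s j) := by
  obtain ⟨hs1, hs2, -⟩ := hsat
  obtain ⟨h0, w, hw⟩ := gdet_sigM_dvdL hR h hinj hN j (card_sig hs1)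
  obtain ⟨w', hw'⟩ := gdet_tm_dvdL h hY j hs2
  obtain ⟨f, f', hf, hf'⟩ := exists_ff ((Fintype.card_subtype_le _).trans hm)
    ((Fintype.card_subtype_le _).trans hm) hw hw'
  refine ⟨h0, f, f', _, ?_, hf'⟩
  rw [hf]
  ring

/-- the congruence of `SEMI` from the congruence of Theorem U -/
theorem unit_cong {x y f F θ Dl N' h : R} {k l' L : ℕ} (hf : f * x = θ ^ l' * Dl * y)
    (hk : θ ^ k * (θ ^ l' * F - θ ^ L * f) = N' * h) :
    θ ^ (k + l') * (F * x - θ ^ L * Dl * y) = N' * (h * x) := by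
  have h1 : θ ^ (k + l') * (F * x - θ ^ L * Dl * y) =
      θ ^ k * (θ ^ l' * F * x - θ ^ L * (θ ^ l' * Dl * y)) := by rw [pow_add]; ring
  rw [h1, ← hf]
  linear_combination x * hk

end St

end Pool.Agent.DEC
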