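import Pool.Agent.DEC.Core
import Pool.Agent.DEC.StUnitL
import Pool.Agent.DEC.DenInst

/-!
Soundness, unit condition: exact identities imply the exact unit condition.
-/

set_option autoImplicit false
set_option linter.unusedSectionVars false

open Matrix Polynomial

namespace Pool.Agent.DEC

theorem normD_of_order (S : Type) [CommRing S] [IsDomain S] [Module.Free ℤ S]
    [Module.Finite ℤ S] : NormD S := by
  intro x hx
  obtain ⟨v, hv⟩ := exists_mul_eq_norm x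
  exact ⟨v, Algebra.norm ℤ x, norm_ne_zero' hx, hv⟩

namespace Ref

variable {a b : ℕ} {A : Matrix (Fin a) (Fin a) ℕ} {B : Matrix (Fin b) (Fin b) ℕ} (ρ : Ref A B)

theorem isDomain (i : Fin ρ.f) : IsDomain (Lam (ρ.g i)) :=
  AdjoinRoot.isDomain_of_prime (ρ.irr i).prime

theorem free (i : Fin ρ.f) : Module.Free ℤ (Lam (ρ.g i)) := (ρ.monic i).free_adjoinRoot

theorem finite (i : Fin ρ.f) : Module.Finite ℤ (Lam (ρ.g i)) := (ρ.monic i).finite_adjoinRoot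

theorem charZero (i : Fin ρ.f) : CharZero (Lam (ρ.g i)) := by
  have := ρ.isDomain i
  have := ρ.free i
  exact charZero_of_injective_algebraMap (FaithfulSMul.algebraMap_injective ℤ (Lam (ρ.g i)))

theorem D_pos : 0 < ρ.D := Nat.mul_pos ρ.Δ_pos (pow_pos ρ.q_pos _)

/-- the part of `GA` at one factor -/
theorem GA_single {n : Fin ρ.f → ℕ} (deg : ∀ i, Fin (n i) → ℕ) (s : ρ.MSt n) (i : Fin ρ.f)
    (z : Fin (n i) → Lam (ρ.g i)) :
    ρ.GA deg s (Pi.single i z) = ρ.P i (RM (ρ.shp deg i) (s i) *ᵥ z) := by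
  unfold GA
  rw [Finset.sum_eq_single i]
  · rw [Pi.single_eq_same]
  · intro j _ hj
    rw [Pi.single_eq_of_ne hj, Matrix.mulVec_zero, map_zero]
  · intro h
    exact absurd (Finset.mem_univ i) h

/-- the component of `GB` at one factor -/
theorem Q'_GB {n : Fin ρ.f → ℕ} (deg : ∀ i, Fin (n i) → ℕ) (s : ρ.MSt n) (i : Fin ρ.f)
    (z : ρ.Gam n) : ρ.Q' i (ρ.GB deg s z) = (ρ.Δ : ℤ) • (MM (ρ.shp deg i) (s i) *ᵥ z i) := by
  unfold GB
  rw [map_sum, Finset.sum_eq_single i]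
  · rw [ρ.Q_Q]
  · intro j _ hj
    exact ρ.Q_ne j i _ hj
  · intro h
    exact absurd (Finset.mem_univ i) h

theorem Q_x_pow (i : Fin ρ.f) (l : ℕ) (v : Blk (ρ.mu i) → Lam (ρ.g i)) :
    ρ.Q i ((xL (ρ.th i) (ρ.mu i) ^ l) v) = ρ.Q i v ᵥ* zM B ^ l := by
  induction l with
  | zero => simp
  | succ l ih =>
    rw [pow_succ', Module.End.mul_apply, ρ.Q_x, ih, Matrix.vecMul_vecMul, ← pow_succ]

end Ref

variable {a b : ℕ} {A : Matrix (Fin a) (Fin a) ℕ} {B : Matrix (Fin b) (Fin b) ℕ} (ρ : Ref A B)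

/-- **exact identities give the exact unit condition** -/
theorem uni_of_ids {n : Fin ρ.f → ℕ} (deg : ∀ i, Fin (n i) → ℕ) (s : ρ.MSt n)
    (hst : ∀ i, IsSt (ρ.shp deg i) (s i)) (hn : ∀ i, n i ≤ a) (h : Ids ρ deg s 0) :
    Uni ρ deg s 0 := by
  obtain ⟨R', Ψ, T, T', l, e1, e2, e3, e4⟩ := h
  intro i j hsat
  have := ρ.isDomain i
  have := ρ.free i
  have := ρ.finite i
  have := ρ.charZero i
  have hD0 : (ρ.D : ℤ) ≠ 0 := by exact_mod_cast ρ.D_pos.ne'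
  have hΔ0 : (ρ.Δ : ℤ) ≠ 0 := by exact_mod_cast ρ.Δ_pos.ne'
  have hcast : ∀ k : ℕ, ((k : ℤ) : Lam (ρ.g i)) = (k : Lam (ρ.g i)) := fun k => by simp
  have e1' : ∀ z : Fin (n i) → Lam (ρ.g i),
      R' (ρ.P i (RM (ρ.shp deg i) (s i) *ᵥ z)) i = (ρ.D : ℤ) • z := by
    intro z
    obtain ⟨w, hw⟩ := e1 (Pi.single i z)
    rw [ρ.GA_single] at hw
    rw [hw]
    simp
  have hinj : ∀ z : Fin (n i) → Lam (ρ.g i), RM (ρ.shp deg i) (s i) *ᵥ z = 0 → z = 0 := by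
    intro z hz
    have h1 := e1' z
    rw [hz, map_zero, map_zero] at h1
    exact (smul_eq_zero.mp h1.symm).resolve_left hD0
  have hN : ∀ (e : ℤ) (z : Fin (n i) → Lam (ρ.g i)), e ≠ 0 →
      (∀ v, (e : Lam (ρ.g i)) ∣ (RM (ρ.shp deg i) (s i) *ᵥ z) v) →
      ∀ q, (e : Lam (ρ.g i)) ∣ (ρ.D : Lam (ρ.g i)) * z q := by
    intro e z he hz q
    choose v hv using hz
    have h1 : RM (ρ.shp deg i) (s i) *ᵥ z = e • v := by
      funext c
      rw [hv c, Pi.smul_apply, zsmul_eq_mul]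
    have h2 := e1' z
    rw [h1, map_smul, map_smul] at h2
    have h3 := congrFun h2 q
    rw [Pi.smul_apply, Pi.smul_apply, Pi.smul_apply, zsmul_eq_mul, zsmul_eq_mul, hcast] at h3
    exact ⟨_, h3.symm⟩
  have hY : ∀ w : Blk (ρ.shp deg i).mu → Lam (ρ.g i), ∃ z : Fin (n i) → Lam (ρ.g i),
      MM (ρ.shp deg i) (s i) *ᵥ z =
        (ρ.D : Lam (ρ.g i)) • (xL (ρ.th i) (ρ.shp deg i).mu ^ l) w := by
    intro w
    obtain ⟨u, hu⟩ := e4 (ρ.Q i w)
    refine ⟨T (ρ.Q i w) i, ?_⟩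
    have h1 := ρ.Q'_GB deg s i (T (ρ.Q i w))
    rw [hu, ← ρ.Q_x_pow i l w] at h1
    simp only [Nat.cast_zero, zero_smul, add_zero, map_smul, ρ.Q_Q] at h1
    rw [smul_comm] at h1
    have h2 := smul_right_injective _ hΔ0 h1
    rw [← h2]
    funext c
    rw [Pi.smul_apply, Pi.smul_apply, zsmul_eq_mul, hcast, smul_eq_mul]
  obtain ⟨-, f, f', l', hf, hf'⟩ := exists_unit_data (normD_of_order (Lam (ρ.g i))) (hst i)
    (N := (ρ.D : Lam (ρ.g i))) (θ := ρ.th i) (l := l) (m := a)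
    (by rw [Fintype.card_fin]; exact hn i) hinj hN hY j hsat
  refine ⟨f, f', l', 0, ?_, 0, ?_⟩
  · rw [hf, Ref.Dl, Nat.cast_pow]
  · rw [hf', Ref.Dl, Nat.cast_pow]
    simp

end Pool.Agent.DEC
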