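import Pool.Agent.DEC.MF
import Pool.Agent.DEC.Core
import Pool.Agent.DEC.SUni
import Pool.Agent.DEC.DenInst

/-!
Completeness, trace part: the trace over `ℚ` of powers of `x = θ + C` on `⨁ K i ^ (I i)`.
-/

set_option autoImplicit false
set_option linter.unusedSectionVars false

open Matrix Polynomial

namespace Pool.Agent.DEC.C6Tr

section tri

variable {R : Type} [CommRing R] {I : Type} [Fintype I] [DecidableEq I]

theorem tri_pow (θ : R) (C : Matrix I I R) (deg : I → ℕ) (hC : ∀ p q, deg p ≤ deg q → C p q = 0)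
    (k : ℕ) (q : I) : ((θ • (1 : Matrix I I R) + C) ^ k) q q = θ ^ k ∧
      ∀ p, p ≠ q → deg p ≤ deg q → ((θ • (1 : Matrix I I R) + C) ^ k) p q = 0 := by
  induction k with
  | zero => exact ⟨by simp, fun p hp _ => by simp [hp]⟩
  | succ k ih =>
    obtain ⟨h1, h2⟩ := ih
    have h3 : ∀ p, deg p ≤ deg q → ((θ • (1 : Matrix I I R) + C) ^ (k + 1)) p q =
        θ * ((θ • (1 : Matrix I I R) + C) ^ k) p q := by
      intro p hp
      rw [pow_succ', Matrix.add_mul, Matrix.add_apply, Matrix.smul_mul, Matrix.one_mul,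
        Matrix.smul_apply, smul_eq_mul, add_eq_left, Matrix.mul_apply]
      refine Finset.sum_eq_zero fun r _ => ?_
      by_cases hr : deg p ≤ deg r
      · rw [hC p r hr, zero_mul]
      · rw [h2 r ?_ (by omega), mul_zero]
        rintro rfl
        omega
    refine ⟨?_, fun p hp hpq => ?_⟩
    · rw [h3 q le_rfl, h1, pow_succ]
      ring
    · rw [h3 p hpq, h2 p hp hpq, mul_zero]

theorem tri_trace (θ : R) (C : Matrix I I R) (deg : I → ℕ)
    (hC : ∀ p q, deg p ≤ deg q → C p q = 0) (k : ℕ) :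
    ((θ • (1 : Matrix I I R) + C) ^ k).trace = Fintype.card I * θ ^ k := by
  rw [Matrix.trace]
  simp only [Matrix.diag_apply, (tri_pow θ C deg hC k _).1]
  rw [Finset.sum_const, Finset.card_univ, nsmul_eq_mul]

end tri

section maps

variable {F : Type} [Fintype F] [DecidableEq F] {K : F → Type} [∀ i, Field (K i)]
  [∀ i, Algebra ℚ (K i)] [∀ i, Module.Finite ℚ (K i)] {I : F → Type} [∀ i, Fintype (I i)]
  [∀ i, DecidableEq (I i)]

theorem mmap_pow (M : ∀ i, Matrix (I i) (I i) (K i)) (k : ℕ) :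
    mmap M ^ k = mmap fun i => M i ^ k := by
  induction k with
  | zero =>
    apply LinearMap.ext
    intro z
    funext i
    simp only [pow_zero, Module.End.one_apply]
    exact (Matrix.one_mulVec (z i)).symm
  | succ k ih =>
    rw [pow_succ', ih]
    apply LinearMap.ext
    intro z
    funext i
    rw [Module.End.mul_apply]
    simp only [mmap, LinearMap.coe_mk, AddHom.coe_mk, Matrix.mulVec_mulVec, pow_succ']

theorem trace_mmap (M : ∀ i, Matrix (I i) (I i) (K i)) :
    LinearMap.trace ℚ (∀ i, I i → K i) (mmap M) = ∑ i, Algebra.trace ℚ (K i) (M i).trace := by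
  classical
  let b := fun i => Module.Free.chooseBasis ℚ (K i)
  rw [LinearMap.trace_eq_matrix_trace ℚ (Pi.basis fun i => Pi.basis fun _ : I i => b i),
    Matrix.trace, Fintype.sum_sigma]
  refine Finset.sum_congr rfl fun i _ => ?_
  rw [Fintype.sum_sigma, Matrix.trace, map_sum]
  refine Finset.sum_congr rfl fun q _ => ?_
  rw [Algebra.trace_eq_matrix_trace (b i), Matrix.trace]
  refine Finset.sum_congr rfl fun t _ => ?_
  rw [Matrix.diag_apply, Matrix.diag_apply, LinearMap.toMatrix_apply, Pi.basis_apply,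
    Pi.basis_repr, Pi.basis_repr, Algebra.leftMulMatrix_eq_repr_mul, Pi.basis_apply]
  congr 1
  change ((b i).repr ((M i *ᵥ (Pi.single i (Pi.single q (b i t)) : ∀ i, I i → K i) i) q)) = _
  rw [Pi.single_eq_same, Matrix.mulVec_single, Matrix.diag_apply]
  rfl

/-- **the trace of `(θ + C)^k`** -/
theorem trace_mmap_tri (θ : ∀ i, K i) (C : ∀ i, Matrix (I i) (I i) (K i)) (deg : ∀ i, I i → ℕ)
    (hC : ∀ i p q, deg i p ≤ deg i q → C i p q = 0) (k : ℕ) :
    LinearMap.trace ℚ (∀ i, I i → K i)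
      ((mmap fun i => θ i • (1 : Matrix (I i) (I i) (K i)) + C i) ^ k) =
      ∑ i, (Fintype.card (I i) : ℚ) * Algebra.trace ℚ (K i) (θ i ^ k) := by
  rw [mmap_pow, trace_mmap]
  refine Finset.sum_congr rfl fun i _ => ?_
  rw [tri_trace (θ i) (C i) (deg i) (hC i) k]
  have h1 : (Fintype.card (I i) : K i) * θ i ^ k = (Fintype.card (I i) : ℕ) • θ i ^ k := by
    rw [nsmul_eq_mul]
  rw [h1, map_nsmul, nsmul_eq_mul]

end maps

section frac

variable (S K : Type) [CommRing S] [IsDomain S] [Module.Free ℤ S] [Module.Finite ℤ S] [Field K]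
  [Algebra ℚ K] [Algebra S K] [IsFractionRing S K]

theorem isLocalization : IsLocalization (Algebra.algebraMapSubmonoid S (nonZeroDivisors ℤ)) K := by
  have hcz : CharZero K := charZeroK S K
  refine ⟨?_, ?_, ?_⟩
  · rintro ⟨y, x, hx, rfl⟩
    have hx0 : x ≠ 0 := nonZeroDivisors.ne_zero hx
    simp only [eq_intCast, map_intCast]
    exact isUnit_iff_ne_zero.mpr (Int.cast_ne_zero.mpr hx0)
  · intro z
    obtain ⟨b, hb, a, ha⟩ := exists_nat_mul S z
    refine ⟨(a, ⟨algebraMap ℤ S b, b, ?_, rfl⟩), ?_⟩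
    · exact mem_nonZeroDivisors_of_ne_zero (by exact_mod_cast hb)
    · simp only [map_natCast]
      rw [mul_comm]
      exact ha
  · intro x y hxy
    exact ⟨1, by rw [IsFractionRing.injective S K hxy]⟩

include S in
theorem finite : Module.Finite ℚ K := by
  have h1 := isLocalization S K
  exact Module.Finite.of_isLocalization ℤ S (nonZeroDivisors ℤ)

theorem trace_eq (x : S) :
    Algebra.trace ℚ K (algebraMap S K x) = ((Algebra.trace ℤ S x : ℤ) : ℚ) := by
  have h1 := isLocalization S K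
  have h2 := Algebra.trace_localization ℤ (nonZeroDivisors ℤ) (S := S) (Rₘ := ℚ) (Sₘ := K) x
  rw [h2]
  rfl

end frac

section final

variable {a b : ℕ} {A : Matrix (Fin a) (Fin a) ℕ} {B : Matrix (Fin b) (Fin b) ℕ} (ρ : Ref A B)
  (K : Fin ρ.f → Type) [∀ i, Field (K i)] [∀ i, Algebra ℚ (K i)]
  [∀ i, Algebra (Lam (ρ.g i)) (K i)] [∀ i, IsFractionRing (Lam (ρ.g i)) (K i)]

/-- **the trace condition of a type gives the trace condition of `x` on `⨁ K i ^ (I i)`** -/
theorem trace_xX {nn : Fin ρ.f → ℕ} (deg : ∀ i, Fin (nn i) → ℕ)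
    (s : MSt K (fun i => Fin (nn i)) (fun i => Fin (ρ.na i)) (fun i => Fin (ρ.nb i)))
    (hst : ∀ i, IsSt (ρ.shp deg i) (s i)) (htr : TrC ρ nn) (k : ℕ) (hk : 0 < k)
    (hB : (B ^ k).trace = 0) :
    LinearMap.trace ℚ (∀ i, Fin (nn i) → K i)
      (xX (fun i => algebraMap (Lam (ρ.g i)) (K i) (ρ.th i)) s ^ k) = 0 := by
  have h1 : ∀ i, Module.Finite ℚ (K i) := fun i => by
    have := ρ.isDomain i
    have := ρ.free i
    have := ρ.finite i
    exact finite (Lam (ρ.g i)) (K i)
  have h2 := trace_mmap_tri (K := K) (I := fun i => Fin (nn i))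
    (fun i => algebraMap (Lam (ρ.g i)) (K i) (ρ.th i)) (fun i => (s i).1) deg
    (fun i => (hst i).c) k
  have h3 : ∀ i, Algebra.trace ℚ (K i) (algebraMap (Lam (ρ.g i)) (K i) (ρ.th i) ^ k) =
      ((Algebra.trace ℤ (Lam (ρ.g i)) (ρ.th i ^ k) : ℤ) : ℚ) := fun i => by
    have := ρ.isDomain i
    have := ρ.free i
    have := ρ.finite i
    rw [← map_pow, trace_eq (Lam (ρ.g i)) (K i)]
    rfl
  have h4 := htr k hk hB
  unfold xX
  rw [h2]
  have h5 : ((∑ i, (nn i : ℤ) * Algebra.trace ℤ (Lam (ρ.g i)) (ρ.th i ^ k) : ℤ) : ℚ) = 0 := by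
    rw [h4, Int.cast_zero]
  rw [← h5, Int.cast_sum]
  refine Finset.sum_congr rfl fun i _ => ?_
  rw [h3 i, Int.cast_mul, Int.cast_natCast, Fintype.card_fin]

end final

end Pool.Agent.DEC.C6Tr
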