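import Pool.Agent.DEC.CDefs
import Pool.Agent.DEC.C6Tr
import Pool.Agent.DEC.StateA

/-!
Completeness, last step: a state over the fields with the exact localisation condition gives the
trace-dimension condition.
-/

set_option autoImplicit false
set_option linter.unusedSectionVars false

open Matrix Polynomial

namespace Pool.Agent.DEC.C6

open Pool.Agent.FT

/-- abstract form: a finite dimensional space `E` with an automorphism `x` and equivariant maps -/
theorem traceDim_of_abs {a b : ℕ} {A : Matrix (Fin a) (Fin a) ℕ} {B : Matrix (Fin b) (Fin b) ℕ}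
    {E : Type} [AddCommGroup E] [Module ℚ E] [Module.Finite ℚ E] (x : E →ₗ[ℚ] E)
    (R : E →ₗ[ℚ] (Fin a → ℚ)) (R' : (Fin a → ℚ) →ₗ[ℚ] E) (m : E →ₗ[ℚ] (Fin b → ℚ))
    (h1 : ∀ z, R' (R z) = z) (h2 : ∀ z, R (x z) = R z ᵥ* toQ A)
    (h3 : ∀ z, m (x z) = m z ᵥ* toQ B) (h4 : ∀ z, R z ∈ evRange A)
    (h5 : ∀ y, y ∈ dimGroup B ↔ ∃ z, R z ∈ dimGroup A ∧ m z = y)
    (h5' : ∀ z, m z ∈ evRange B)
    (h6 : ∀ n, 0 < n → (B ^ n).trace = 0 → LinearMap.trace ℚ E (x ^ n) = 0) :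
    TraceDimCondition A B := by
  have hinj : Function.Injective R := fun z w h => by rw [← h1 z, h, h1]
  set W : Submodule ℚ (Fin a → ℚ) := LinearMap.range R with hWdef
  let ψ : (Fin a → ℚ) →ₗ[ℚ] (Fin b → ℚ) := m ∘ₗ R'
  have hψ : ∀ z, ψ (R z) = m z := fun z => by
    change m (R' (R z)) = m z
    rw [h1]
  have hW : ∀ w ∈ W, w ᵥ* toQ A ∈ W := by
    rintro _ ⟨z, rfl⟩
    exact ⟨x z, h2 z⟩
  have hWe : W ≤ evRange A := by
    rintro _ ⟨z, rfl⟩
    exact h4 z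
  have hint : ∀ w ∈ W, ψ (w ᵥ* toQ A) = ψ w ᵥ* toQ B := by
    rintro _ ⟨z, rfl⟩
    rw [← h2, hψ, hψ, h3]
  set U : Submodule ℚ (Fin a → ℚ) := W ⊓ LinearMap.ker ψ with hUdef
  have hU : ∀ w ∈ U, w ᵥ* toQ A ∈ U := by
    rintro w ⟨hw1, hw2⟩
    refine ⟨hW w hw1, ?_⟩
    have hw3 : ψ w = 0 := hw2
    change ψ (w ᵥ* toQ A) = 0
    rw [hint w hw1, hw3, Matrix.zero_vecMul]
  have hdim : ∀ y, y ∈ dimGroup B ↔ ∃ w ∈ W, w ∈ dimGroup A ∧ ψ w = y := by
    intro y
    rw [h5]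
    constructor
    · rintro ⟨z, hz, rfl⟩
      exact ⟨R z, ⟨z, rfl⟩, hz, hψ z⟩
    · rintro ⟨_, ⟨z, rfl⟩, hz, rfl⟩
      exact ⟨z, hz, (hψ z).symm⟩
  refine ⟨W, U, hW, hU, ψ, inf_le_left, hWe, hint, fun w hw => ?_, hdim, fun n hn htr => ?_⟩
  · exact ⟨fun h => ⟨hw, h⟩, fun h => h.2⟩
  · have t1 : LinearMap.trace ℚ W ((restr A W hW) ^ n) = 0 := by
      let e : E ≃ₗ[ℚ] W := LinearEquiv.ofInjective R hinj
      have he : ∀ z, ((e z : W) : Fin a → ℚ) = R z := fun z => rfl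
      have e1 : (restr A W hW) ^ n = e.conj (x ^ n) := by
        have e2 : ∀ (k : ℕ) (z : E), ((restr A W hW) ^ k) (e z) = e ((x ^ k) z) := by
          intro k
          induction k with
          | zero => intro z; rfl
          | succ k ih =>
            intro z
            rw [pow_succ, pow_succ, Module.End.mul_apply, Module.End.mul_apply, ← ih]
            congr 1
            exact Subtype.ext (h2 z).symm
        apply LinearMap.ext
        intro w
        obtain ⟨z, rfl⟩ := e.surjective w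
        rw [e2, LinearEquiv.conj_apply_apply, LinearEquiv.symm_apply_apply]
      rw [e1, LinearMap.trace_conj', h6 n hn htr]
    refine ⟨t1, ?_⟩
    -- the exact sequence U -> W -> evRange B
    have hBinv : ∀ w ∈ evRange B, w ᵥ* toQ B ∈ evRange B :=
      fun w hw => Pool.Agent.FT.evRange_inv B hw
    have hψW : ∀ w : W, ψ w ∈ evRange B := by
      rintro ⟨_, z, rfl⟩
      change ψ (R z) ∈ evRange B
      rw [hψ]
      exact h5' z
    let ψ' : W →ₗ[ℚ] evRange B := (ψ ∘ₗ W.subtype).codRestrict (evRange B) hψW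
    have hψ' : ∀ w : W, ((ψ' w : evRange B) : Fin b → ℚ) = ψ w := fun w => rfl
    have hsurj : Function.Surjective ψ' := by
      rintro ⟨y, hy⟩
      obtain ⟨N, hN, w, hw⟩ := RefQ.castV_den b y
      have hy' : (N : ℚ) • y ∈ dimGroup B := by
        refine ⟨(evRange B).smul_mem _ hy, 0, w, fun j => ?_⟩
        rw [pow_zero, Matrix.vecMul_one, Nat.cast_smul_eq_nsmul, hw]
        rfl
      obtain ⟨z, -, hz⟩ := (h5 _).1 hy'
      refine ⟨⟨R ((N : ℚ)⁻¹ • z), ⟨_, rfl⟩⟩, Subtype.ext ?_⟩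
      rw [hψ']
      change ψ (R _) = y
      rw [hψ, map_smul, hz, smul_smul, inv_mul_cancel₀ (Nat.cast_ne_zero.2 hN), one_smul]
    have hcomm : ∀ (k : ℕ) (w : W), ψ' (((restr A W hW) ^ k) w) =
        ((restr B (evRange B) hBinv) ^ k) (ψ' w) := by
      intro k
      induction k with
      | zero => intro w; rfl
      | succ k ih =>
        intro w
        rw [pow_succ, pow_succ, Module.End.mul_apply, Module.End.mul_apply, ih]
        congr 1
        apply Subtype.ext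
        exact hint w w.2
    let U' : Submodule ℚ W := U.comap W.subtype
    have hU'mem : ∀ w : W, w ∈ U' ↔ ψ' w = 0 := by
      intro w
      constructor
      · rintro ⟨-, h⟩
        exact Subtype.ext h
      · intro h
        exact ⟨w.2, congrArg Subtype.val h⟩
    have hU'inv : ∀ w ∈ U', ((restr A W hW) ^ n) w ∈ U' := by
      intro w hw
      rw [hU'mem] at hw ⊢
      rw [hcomm, hw, map_zero]
    have t2 := trace_ker_add ((restr A W hW) ^ n) ((restr B (evRange B) hBinv) ^ n) ψ' hsurj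
      (hcomm n) U' hU'mem hU'inv
    have t3 : LinearMap.trace ℚ (evRange B) ((restr B (evRange B) hBinv) ^ n) = 0 := by
      rw [← trace_pow_eq (M := Fin b → ℚ) (W := evRange B) (toQ B).vecMulLinear
        (restr B (evRange B) hBinv) (evRange B).subtype Subtype.val_injective (fun w => rfl) b
        (fun f => ⟨⟨f ᵥ* toQ B ^ b, (mem_evRange B).mpr ⟨f, rfl⟩⟩, by
          rw [vecMulLinear_pow]
          rfl⟩) n hn]
      rw [vecMulLinear_pow, trace_vecMulLinear, toQ_eq, ← qM_pow, trace_qM, ← zM_pow, trace_zM, htr]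
      simp
    rw [t1, t3, add_zero] at t2
    -- transport to `U`
    let e : U' ≃ₗ[ℚ] U := Submodule.comapSubtypeEquivOfLe inf_le_left
    have he : ∀ u : U', ((e u : U) : Fin a → ℚ) = ((u : W) : Fin a → ℚ) := fun u => rfl
    have t4 : (restr A U hU) ^ n = e.conj (((restr A W hW) ^ n).restrict hU'inv) := by
      have hpow : ∀ (k : ℕ) (u : U), ((((restr A U hU) ^ k) u : U) : Fin a → ℚ) =
          (u : Fin a → ℚ) ᵥ* toQ A ^ k := by
        intro k
        induction k with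
        | zero => intro u; simp
        | succ k ih =>
          intro u
          rw [pow_succ, Module.End.mul_apply, ih]
          change ((u : Fin a → ℚ) ᵥ* toQ A) ᵥ* toQ A ^ k = _
          rw [Matrix.vecMul_vecMul, ← pow_succ']
      have hpow' : ∀ (k : ℕ) (u : W), ((((restr A W hW) ^ k) u : W) : Fin a → ℚ) =
          (u : Fin a → ℚ) ᵥ* toQ A ^ k := by
        intro k
        induction k with
        | zero => intro u; simp
        | succ k ih =>
          intro u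
          rw [pow_succ, Module.End.mul_apply, ih]
          change ((u : Fin a → ℚ) ᵥ* toQ A) ᵥ* toQ A ^ k = _
          rw [Matrix.vecMul_vecMul, ← pow_succ']
      apply LinearMap.ext
      intro u
      obtain ⟨u', rfl⟩ := e.surjective u
      apply Subtype.ext
      rw [hpow, LinearEquiv.conj_apply_apply, LinearEquiv.symm_apply_apply, he, he]
      exact (hpow' n (u' : W)).symm
    rw [t4]
    have t5 := LinearMap.trace_conj' (R := ℚ) (M := U') (N := U)
      (((restr A W hW) ^ n).restrict hU'inv) e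
    have t6 : LinearMap.trace ℚ U' (((restr A W hW) ^ n).restrict hU'inv) = 0 := t2.symm
    exact t5.trans t6

section

variable {a b : ℕ} {A : Matrix (Fin a) (Fin a) ℕ} {B : Matrix (Fin b) (Fin b) ℕ} (ρ : Ref A B)
  (K : Fin ρ.f → Type) [∀ i, Field (K i)] [∀ i, Algebra ℚ (K i)]
  [∀ i, Algebra (Lam (ρ.g i)) (K i)] [∀ i, IsFractionRing (Lam (ρ.g i)) (K i)]

open RefQ

theorem mR_x {nn : Fin ρ.f → ℕ} (deg : ∀ i, Fin (nn i) → ℕ) (θ : ∀ i, K i)
    (s : MSt K (fun i => Fin (nn i)) (fun i => Fin (ρ.na i)) (fun i => Fin (ρ.nb i)))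
    (hst : ∀ i, IsSt (ρ.shp deg i) (s i)) (z : ∀ i, Fin (nn i) → K i) :
    mR (fun i => ρ.shp deg i) s (xX θ s z) =
      xM θ ρ.lam (mR (fun i => ρ.shp deg i) s z) := by
  funext i
  change RM (ρ.shp deg i) (s i) *ᵥ ((θ i • (1 : Matrix _ _ (K i)) + (s i).1) *ᵥ z i) =
    θ i • (RM (ρ.shp deg i) (s i) *ᵥ z i) + yL (ρ.lam i) (RM (ρ.shp deg i) (s i) *ᵥ z i)
  rw [Matrix.add_mulVec, Matrix.mulVec_add, Matrix.smul_mulVec, Matrix.one_mulVec,
    Matrix.mulVec_smul, RM_equiv (hst i)]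

theorem mW_x {nn : Fin ρ.f → ℕ} (deg : ∀ i, Fin (nn i) → ℕ) (θ : ∀ i, K i)
    (s : MSt K (fun i => Fin (nn i)) (fun i => Fin (ρ.na i)) (fun i => Fin (ρ.nb i)))
    (hst : ∀ i, IsSt (ρ.shp deg i) (s i)) (z : ∀ i, Fin (nn i) → K i) :
    mW (fun i => ρ.shp deg i) s (xX θ s z) =
      xM θ ρ.mu (mW (fun i => ρ.shp deg i) s z) := by
  funext i
  change MM (ρ.shp deg i) (s i) *ᵥ ((θ i • (1 : Matrix _ _ (K i)) + (s i).1) *ᵥ z i) =
    θ i • (MM (ρ.shp deg i) (s i) *ᵥ z i) + yL (ρ.mu i) (MM (ρ.shp deg i) (s i) *ᵥ z i)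
  rw [Matrix.add_mulVec, Matrix.mulVec_add, Matrix.smul_mulVec, Matrix.one_mulVec,
    Matrix.mulVec_smul, MM_equiv (hst i)]

/-- **C6** -/
theorem traceDim_of_loc {nn : Fin ρ.f → ℕ} (deg : ∀ i, Fin (nn i) → ℕ)
    (s : MSt K (fun i => Fin (nn i)) (fun i => Fin (ρ.na i)) (fun i => Fin (ρ.nb i)))
    (hst : ∀ i, IsSt (ρ.shp deg i) (s i)) (hinj : ∀ i, LInv (RM (ρ.shp deg i) (s i)))
    (hloc : Loc (mR (fun i => ρ.shp deg i) s) (mW (fun i => ρ.shp deg i) s)
      (GVK ρ K) (GWK ρ K)) (htr : TrC ρ nn) : FT.TraceDimCondition A B := by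
  have hΔ : (ρ.Δ : ℚ) ≠ 0 := by exact_mod_cast ρ.Δ_pos.ne'
  have hfin : ∀ i, Module.Finite ℚ (K i) := fun i => by
    have := ρ.isDomain i
    have := ρ.free i
    have := ρ.finite i
    exact C6Tr.finite (Lam (ρ.g i)) (K i)
  choose Y hY using hinj
  have hYR : ∀ z, mmap Y (mR (fun i => ρ.shp deg i) s z) = z := by
    intro z
    funext i
    change Y i *ᵥ (RM (ρ.shp deg i) (s i) *ᵥ z i) = z i
    rw [Matrix.mulVec_mulVec, hY i, Matrix.one_mulVec]
  have hPR : ∀ z : (∀ i, Fin (nn i) → K i), ((ρ.Δ : ℚ)⁻¹ • (mmap Y ∘ₗ ρ.hA.PQ' K))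
      ((ρ.hA.PQ K ρ.gp ∘ₗ mR (fun i => ρ.shp deg i) s) z) = z := by
    intro z
    rw [LinearMap.smul_apply, LinearMap.comp_apply, LinearMap.comp_apply, ρ.hA.PQ'_PQ, map_smul,
      hYR]
    funext i q
    have hcz : CharZero (K i) := by
      have := ρ.isDomain i
      have := ρ.free i
      have := ρ.finite i
      exact charZeroK (Lam (ρ.g i)) (K i)
    have h0 : (ρ.Δ : K i) ≠ 0 := Nat.cast_ne_zero.2 ρ.Δ_pos.ne'
    simp [Algebra.smul_def, Rat.smul_def, h0]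
  refine traceDim_of_abs (E := ∀ i, Fin (nn i) → K i) (xX (thK ρ.g K) s)
    (ρ.hA.PQ K ρ.gp ∘ₗ mR (fun i => ρ.shp deg i) s)
    ((ρ.Δ : ℚ)⁻¹ • (mmap Y ∘ₗ ρ.hA.PQ' K))
    (ρ.hB.PQ K ρ.gp ∘ₗ mW (fun i => ρ.shp deg i) s) hPR ?_ ?_ ?_ ?_ ?_ ?_
  · intro z
    rw [LinearMap.comp_apply, mR_x ρ K deg _ s hst, ρ.hA.PQ_x]
    rfl
  · intro z
    rw [LinearMap.comp_apply, mW_x ρ K deg _ s hst, ρ.hB.PQ_x]
    rfl
  · intro z
    exact ρ.hA.PQ_mem K ρ.gp _
  · intro y
    constructor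
    · intro hy
      have hyE : y ∈ evRange B := hy.1
      have h1 : ρ.hB.PQ K ρ.gp ((ρ.Δ : ℚ)⁻¹ • ρ.hB.PQ' K y) = y := by
        rw [map_smul, ρ.hB.PQ_PQ' K ρ.gp hyE, smul_smul, inv_mul_cancel₀ hΔ, one_smul]
      have h2 : ((ρ.Δ : ℚ)⁻¹ • ρ.hB.PQ' K y) ∈ GWK ρ K := by
        change ρ.hB.PQ K ρ.gp _ ∈ dimGroup B
        rw [h1]
        exact hy
      obtain ⟨z, hz, hz'⟩ := hloc.2 _ h2
      refine ⟨z, hz, ?_⟩
      rw [LinearMap.comp_apply, hz', h1]
    · rintro ⟨z, hz, rfl⟩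
      exact hloc.1 z hz
  · intro z
    exact ρ.hB.PQ_mem K ρ.gp _
  · intro n hn hB
    exact C6Tr.trace_xX ρ K deg s hst htr n hn hB

end

end Pool.Agent.DEC.C6
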