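import Pool.Agent.DEC.RefQ

/-!
# DEC: definitions for the completeness half (helper75)

`stK` : a state over `ℤ[θ]` seen over the fields; `GVK`, `GWK` : the dimension groups in the
coordinates; `GoodN` : the admissible `n`.
-/

set_option autoImplicit false

open Matrix Polynomial

namespace Pool.Agent.DEC

open RefQ

section

variable {a b : ℕ} {A : Matrix (Fin a) (Fin a) ℕ} {B : Matrix (Fin b) (Fin b) ℕ} (ρ : Ref A B)
  (K : Fin ρ.f → Type) [∀ i, Field (K i)] [∀ i, Algebra ℚ (K i)]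
  [∀ i, Algebra (Lam (ρ.g i)) (K i)]

/-- the state over the fields -/
noncomputable def stK {nn : Fin ρ.f → ℕ} (s : ρ.MSt nn) :
    MSt K (fun i => Fin (nn i)) (fun i => Fin (ρ.na i)) (fun i => Fin (ρ.nb i)) :=
  fun i => smap (algebraMap (Lam (ρ.g i)) (K i)) (s i)

/-- `A_i` -/
noncomputable abbrev OK (n : ℕ) (i : Fin ρ.f) : Subring (K i) :=
  locOT (Lam (ρ.g i)) (K i) n (ρ.th i)

/-- `OO_i` -/
noncomputable abbrev DK (n : ℕ) (i : Fin ρ.f) : Subring (K i) :=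
  locDT (Lam (ρ.g i)) (K i) n (ρ.th i)

variable [∀ i, IsFractionRing (Lam (ρ.g i)) (K i)]

/-- the dimension group of `A` in the coordinates of `V` -/
noncomputable abbrev GVK : AddSubgroup (∀ i, Blk (ρ.lam i) → K i) := ρ.hA.GQ K ρ.gp

/-- the dimension group of `B` in the coordinates of `W` -/
noncomputable abbrev GWK : AddSubgroup (∀ i, Blk (ρ.mu i) → K i) := ρ.hB.GQ K ρ.gp

/-- admissible `n` -/
structure GoodN (n : ℕ) : Prop where
  two : 2 ≤ n
  dvd : ρ.D ∣ n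
  nu : ∀ i, (n : K i)⁻¹ ∉ lamT (Lam (ρ.g i)) (K i) (ρ.th i)
  q0 : ∃ q0 : ℕ, q0.Prime ∧ q0 ∣ n ∧ ∀ i, ¬ (q0 : ℤ) ∣ (ρ.g i).coeff 0

end

end Pool.Agent.DEC
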