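import Pool.Agent.DEC.Mat

/-!
DEC project (MP_59dda0_an), computability layer, part 4: codes of the elements of a commutative ring
with primitive recursive operations; sums, products, matrices and determinants over codes.
-/

set_option autoImplicit false

namespace Pool.Agent.DEC

open Primrec

/-- codes `S` of the elements of a commutative ring `R` with primitive recursive operations -/
structure CR (S R : Type) [Primcodable S] [CommRing R] where
  val : S → R
  zero : S
  one : S
  add : S → S → S
  mul : S → S → S
  neg : S → S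
  val_zero : val zero = 0
  val_one : val one = 1
  val_add : ∀ x y, val (add x y) = val x + val y
  val_mul : ∀ x y, val (mul x y) = val x * val y
  val_neg : ∀ x, val (neg x) = - val x
  pr_add : Primrec₂ add
  pr_mul : Primrec₂ mul
  pr_neg : Primrec neg

/-- the integers -/
def CR.int : CR ℤ ℤ where
  val := id
  zero := 0
  one := 1
  add := fun x y => x + y
  mul := fun x y => x * y
  neg := fun x => -x
  val_zero := rfl
  val_one := rfl
  val_add := fun _ _ => rfl
  val_mul := fun _ _ => rfl
  val_neg := fun _ => rfl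
  pr_add := primrec_int_add
  pr_mul := primrec_int_mul
  pr_neg := primrec_int_neg

namespace CR

variable {S R : Type} [Primcodable S] [CommRing R] (c : CR S R)

/-- sum of a list of codes -/
def sumL (l : List S) : S := l.foldr c.add c.zero

/-- product of a list of codes -/
def prodL (l : List S) : S := l.foldr c.mul c.one

theorem val_sumL (l : List S) : c.val (c.sumL l) = (l.map c.val).sum := by
  induction l with
  | nil => exact c.val_zero
  | cons x l ih =>
    change c.val (c.add x (c.sumL l)) = _
    rw [c.val_add, ih, List.map_cons, List.sum_cons]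

theorem val_prodL (l : List S) : c.val (c.prodL l) = (l.map c.val).prod := by
  induction l with
  | nil => exact c.val_one
  | cons x l ih =>
    change c.val (c.mul x (c.prodL l)) = _
    rw [c.val_mul, ih, List.map_cons, List.prod_cons]

theorem pr_sumL : Primrec c.sumL :=
  Primrec.list_foldr (f := fun l : List S => l) (g := fun _ => c.zero)
    (h := fun _ (p : S × S) => c.add p.1 p.2) Primrec.id (Primrec.const _)
    (c.pr_add.comp (fst.comp snd) (snd.comp snd))

theorem pr_prodL : Primrec c.prodL :=
  Primrec.list_foldr (f := fun l : List S => l) (g := fun _ => c.one)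
    (h := fun _ (p : S × S) => c.mul p.1 p.2) Primrec.id (Primrec.const _)
    (c.pr_mul.comp (fst.comp snd) (snd.comp snd))

/-- sum over a range -/
def sumR (n : ℕ) (f : ℕ → S) : S := c.sumL ((List.range n).map f)

/-- product over a range -/
def prodR (n : ℕ) (f : ℕ → S) : S := c.prodL ((List.range n).map f)

theorem val_sumR (n : ℕ) (f : ℕ → S) :
    c.val (c.sumR n f) = ∑ i ∈ Finset.range n, c.val (f i) := by
  unfold sumR
  rw [val_sumL, List.map_map]
  induction n with
  | zero => simp
  | succ n ih =>
    rw [List.range_succ, Finset.sum_range_succ, List.map_append, List.sum_append, ih]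
    simp

theorem val_prodR (n : ℕ) (f : ℕ → S) :
    c.val (c.prodR n f) = ∏ i ∈ Finset.range n, c.val (f i) := by
  unfold prodR
  rw [val_prodL, List.map_map]
  induction n with
  | zero => simp
  | succ n ih =>
    rw [List.range_succ, Finset.prod_range_succ, List.map_append, List.prod_append, ih]
    simp

/-! ### matrices over codes -/

/-- entry of a matrix given as the list of its rows -/
def ent (M : List (List S)) (i j : ℕ) : S := (M.getD i []).getD j c.zero

/-- the matrix with entries `f i j` -/
def tab (n m : ℕ) (f : ℕ → ℕ → S) : List (List S) :=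
  (List.range n).map fun i : ℕ => (List.range m).map fun j : ℕ => f i j

theorem ent_tab {n m : ℕ} (f : ℕ → ℕ → S) {i j : ℕ} (hi : i < n) (hj : j < m) :
    c.ent (tab n m f) i j = f i j := by
  unfold ent tab
  simp [List.getD_eq_getElem?_getD, hi, hj]

/-- the matrix of a code -/
def toM (n m : ℕ) (M : List (List S)) : Matrix (Fin n) (Fin m) R :=
  Matrix.of fun i j => c.val (c.ent M i j)

@[simp] theorem toM_apply (n m : ℕ) (M : List (List S)) (i : Fin n) (j : Fin m) :
    c.toM n m M i j = c.val (c.ent M i j) := rfl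

theorem toM_tab (n m : ℕ) (f : ℕ → ℕ → S) :
    c.toM n m (tab n m f) = Matrix.of fun i j : Fin _ => c.val (f i j) := by
  ext i j
  rw [toM_apply, ent_tab c f i.2 j.2]
  rfl

/-- product -/
def mmul (n k m : ℕ) (A B : List (List S)) : List (List S) :=
  tab n m fun i j => c.sumR k fun l => c.mul (c.ent A i l) (c.ent B l j)

def mone (n : ℕ) : List (List S) := tab n n fun i j => if i = j then c.one else c.zero

def mpow (n : ℕ) (A : List (List S)) (k : ℕ) : List (List S) :=
  Nat.rec (c.mone n) (fun _ P => c.mmul n n n P A) k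

theorem toM_mmul (n k m : ℕ) (A B : List (List S)) :
    c.toM n m (c.mmul n k m A B) = c.toM n k A * c.toM k m B := by
  unfold mmul
  rw [toM_tab]
  ext i j
  rw [Matrix.of_apply, val_sumR, Matrix.mul_apply,
    ← Fin.sum_univ_eq_sum_range (fun l => c.val (c.mul (c.ent A i l) (c.ent B l j)))]
  exact Finset.sum_congr rfl fun l _ => c.val_mul _ _

theorem toM_mone (n : ℕ) : c.toM n n (c.mone n) = 1 := by
  unfold mone
  rw [toM_tab]
  ext i j
  rw [Matrix.of_apply, Matrix.one_apply]
  by_cases h : i = j
  · subst h; simp [c.val_one]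
  · rw [if_neg h, if_neg (fun h2 => h (Fin.ext h2)), c.val_zero]

theorem toM_mpow (n : ℕ) (A : List (List S)) (k : ℕ) :
    c.toM n n (c.mpow n A k) = c.toM n n A ^ k := by
  induction k with
  | zero => exact (c.toM_mone n).trans (pow_zero _).symm
  | succ k ih =>
    change c.toM n n (c.mmul n n n (c.mpow n A k) A) = _
    rw [toM_mmul, ih, pow_succ]

/-! ### determinants -/

/-- the sign of a word (zero if it is not injective) -/
def sgn (n : ℕ) (s : List ℕ) : S :=
  c.prodR n fun i => c.prodR n fun j =>
    if i < j then (if s.getD i 0 < s.getD j 0 then c.one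
      else if s.getD j 0 < s.getD i 0 then c.neg c.one else c.zero) else c.one

/-- the determinant of the `n × n` matrix with entries `f i j` -/
def det (n : ℕ) (f : ℕ → ℕ → S) : S :=
  c.sumL ((words (List.range n) n).map fun s =>
    c.mul (c.sgn n s) (c.prodR n fun i => f (s.getD i 0) i))

/-- words of length `n` over `{0, ..., n-1}` are maps -/
theorem sum_words {M : Type*} [AddCommMonoid M] (n m : ℕ) (F : List ℕ → M) :
    ((words (List.range m) n).map F).sum =
      ∑ s : Fin n → Fin m, F (List.ofFn fun i => (s i : ℕ)) := by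
  have hnd : (words (List.range m) n).Nodup := by
    have : ∀ k, (words (List.range m) k).Nodup := by
      intro k
      induction k with
      | zero => simp [words_zero]
      | succ k ih =>
        rw [words_succ, List.nodup_flatMap]
        refine ⟨fun w _ => List.nodup_range.map fun x y h => (List.cons.inj h).1, ?_⟩
        refine ih.imp ?_
        intro u v huv
        rw [Function.onFun, List.disjoint_left]
        intro z hz1 hz2
        obtain ⟨x, -, rfl⟩ := List.mem_map.1 hz1
        obtain ⟨y, -, h⟩ := List.mem_map.1 hz2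
        exact huv (List.cons.inj h).2.symm
    exact this n
  rw [← List.sum_toFinset F hnd]
  symm
  refine Finset.sum_bij (fun s _ => List.ofFn fun i => (s i : ℕ)) ?_ ?_ ?_ ?_
  · intro s _
    rw [List.mem_toFinset, mem_words]
    refine ⟨by simp, fun x hx => ?_⟩
    rw [List.mem_ofFn] at hx
    obtain ⟨i, rfl⟩ := hx
    exact List.mem_range.2 (s i).2
  · intro s _ s' _ h
    have h2 := List.ofFn_injective h
    funext i
    exact Fin.ext (congrFun h2 i)
  · intro w hw
    rw [List.mem_toFinset, mem_words] at hw
    obtain ⟨hl, hx⟩ := hw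
    refine ⟨fun i => ⟨w[(i : ℕ)]'(by rw [hl]; exact i.2),
      List.mem_range.1 (hx _ (List.getElem_mem _))⟩, Finset.mem_univ _, ?_⟩
    refine List.ext_getElem (by simp [hl]) fun k h1 h2 => ?_
    simp
  · intro s _
    rfl

/-- sum over all maps of an expression which vanishes for non-injective maps -/
theorem sum_perm {M : Type*} [AddCommMonoid M] (n : ℕ) (F : (Fin n → Fin n) → M)
    (hF : ∀ s, ¬ Function.Injective s → F s = 0) :
    ∑ s : Fin n → Fin n, F s = ∑ σ : Equiv.Perm (Fin n), F σ := by
  symm
  refine Finset.sum_bij_ne_zero (fun σ _ _ => (σ : Fin n → Fin n)) (fun _ _ _ => Finset.mem_univ _)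
    ?_ ?_ (fun _ _ _ => rfl)
  · intro σ _ _ τ _ _ h
    exact Equiv.coe_fn_injective h
  · intro s _ hs
    have hinj : Function.Injective s := by
      by_contra h
      exact hs (hF s h)
    exact ⟨Equiv.ofBijective s (Finite.injective_iff_bijective.1 hinj), Finset.mem_univ _, hs, rfl⟩

theorem getD_ofFn {n : ℕ} (s : Fin n → ℕ) (i : Fin n) : (List.ofFn s).getD i 0 = s i := by
  rw [List.getD_eq_getElem _ _ (by simp)]
  simp

theorem val_sgn (n : ℕ) (s : Fin n → Fin n) :
    c.val (c.sgn n (List.ofFn fun i => (s i : ℕ))) =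
      ∏ i : Fin n, ∏ j : Fin n, if i < j then (if s i < s j then (1 : R)
        else if s j < s i then -1 else 0) else 1 := by
  unfold sgn
  rw [val_prodR, ← Fin.prod_univ_eq_prod_range (fun i => c.val (c.prodR n fun j =>
    if i < j then (if (List.ofFn fun i => (s i : ℕ)).getD i 0 <
        (List.ofFn fun i => (s i : ℕ)).getD j 0 then c.one
      else if (List.ofFn fun i => (s i : ℕ)).getD j 0 <
        (List.ofFn fun i => (s i : ℕ)).getD i 0 then c.neg c.one else c.zero) else c.one))]
  refine Finset.prod_congr rfl fun i _ => ?_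
  rw [val_prodR, ← Fin.prod_univ_eq_prod_range (fun j => c.val (
    if (i : ℕ) < j then (if (List.ofFn fun i => (s i : ℕ)).getD i 0 <
        (List.ofFn fun i => (s i : ℕ)).getD j 0 then c.one
      else if (List.ofFn fun i => (s i : ℕ)).getD j 0 <
        (List.ofFn fun i => (s i : ℕ)).getD i 0 then c.neg c.one else c.zero) else c.one))]
  refine Finset.prod_congr rfl fun j _ => ?_
  rw [getD_ofFn, getD_ofFn]
  simp only [Fin.lt_def]
  split_ifs <;> simp [c.val_one, c.val_zero, c.val_neg]

theorem sgn_perm (n : ℕ) (σ : Equiv.Perm (Fin n)) :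
    (∏ i : Fin n, ∏ j : Fin n, if i < j then (if σ i < σ j then (1 : R)
        else if σ j < σ i then -1 else 0) else 1) = ((Equiv.Perm.sign σ : ℤˣ) : ℤ) := by
  rw [Equiv.Perm.sign_eq_prod_prod_Ioi]
  push_cast
  refine Finset.prod_congr rfl fun i _ => ?_
  rw [← Finset.prod_filter_mul_prod_filter_not Finset.univ (fun j => i < j)]
  have h1 : ∏ j ∈ Finset.univ.filter (fun j => ¬ i < j), (if i < j then (if σ i < σ j then (1 : R)
        else if σ j < σ i then -1 else 0) else 1) = 1 := by
    refine Finset.prod_eq_one fun j hj => ?_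
    rw [if_neg (Finset.mem_filter.1 hj).2]
  rw [h1, mul_one]
  have h2 : Finset.univ.filter (fun j => i < j) = Finset.Ioi i := by
    ext j
    simp
  rw [h2]
  refine Finset.prod_congr rfl fun j hj => ?_
  rw [if_pos (Finset.mem_Ioi.1 hj)]
  by_cases h3 : σ i < σ j
  · rw [if_pos h3, if_pos h3]
    simp
  · have h4 : σ j < σ i := lt_of_le_of_ne (not_lt.1 h3) fun h5 =>
      (Finset.mem_Ioi.1 hj).ne' (σ.injective h5)
    rw [if_neg h3, if_pos h4, if_neg h3]
    simp

theorem sgn_eq_zero (n : ℕ) (s : Fin n → Fin n) (hs : ¬ Function.Injective s) :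
    (∏ i : Fin n, ∏ j : Fin n, if i < j then (if s i < s j then (1 : R)
        else if s j < s i then -1 else 0) else 1) = 0 := by
  unfold Function.Injective at hs
  push Not at hs
  obtain ⟨i, j, hij, hne⟩ := hs
  wlog hlt : i < j generalizing i j
  · exact this j i hij.symm hne.symm (lt_of_le_of_ne (not_lt.1 hlt) hne.symm)
  refine Finset.prod_eq_zero (Finset.mem_univ i) (Finset.prod_eq_zero (Finset.mem_univ j) ?_)
  rw [if_pos hlt, hij, if_neg (lt_irrefl _), if_neg (lt_irrefl _)]

/-- the determinant over codes is the determinant -/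
theorem val_det (n : ℕ) (f : ℕ → ℕ → S) :
    c.val (c.det n f) = (Matrix.of fun i j : Fin n => c.val (f i j)).det := by
  unfold det
  rw [val_sumL, List.map_map, sum_words, sum_perm]
  · rw [Matrix.det_apply']
    refine Finset.sum_congr rfl fun σ _ => ?_
    rw [Function.comp_apply, c.val_mul, val_sgn, sgn_perm, val_prodR,
      ← Fin.prod_univ_eq_prod_range
        (fun i => c.val (f ((List.ofFn fun i => (σ i : ℕ)).getD i 0) i))]
    refine congrArg₂ _ rfl (Finset.prod_congr rfl fun i _ => ?_)
    rw [getD_ofFn]
    rfl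
  · intro s hs
    rw [Function.comp_apply, c.val_mul, val_sgn, sgn_eq_zero n s hs, zero_mul]

/-! ### primitive recursiveness -/

section pr

variable {α : Type*} [Primcodable α]

theorem pSumR {n : α → ℕ} {f : α → ℕ → S} (hn : Primrec n) (hf : Primrec₂ f) :
    Primrec fun a => c.sumR (n a) (f a) :=
  c.pr_sumL.comp (Primrec.list_map (list_range.comp hn) hf)

theorem pProdR {n : α → ℕ} {f : α → ℕ → S} (hn : Primrec n) (hf : Primrec₂ f) :
    Primrec fun a => c.prodR (n a) (f a) :=
  c.pr_prodL.comp (Primrec.list_map (list_range.comp hn) hf)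

theorem pAdd {f g : α → S} (hf : Primrec f) (hg : Primrec g) : Primrec fun a => c.add (f a) (g a) :=
  c.pr_add.comp hf hg

theorem pMul {f g : α → S} (hf : Primrec f) (hg : Primrec g) : Primrec fun a => c.mul (f a) (g a) :=
  c.pr_mul.comp hf hg

theorem pNeg {f : α → S} (hf : Primrec f) : Primrec fun a => c.neg (f a) := c.pr_neg.comp hf

theorem pEnt {M : α → List (List S)} {i j : α → ℕ} (hM : Primrec M) (hi : Primrec i)
    (hj : Primrec j) : Primrec fun a => c.ent (M a) (i a) (j a) :=
  (Primrec.list_getD c.zero).comp ((Primrec.list_getD ([] : List S)).comp hM hi) hj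

theorem pTab {n m : α → ℕ} {f : α → ℕ → ℕ → S} (hn : Primrec n) (hm : Primrec m)
    (hf : Primrec fun q : α × ℕ × ℕ => f q.1 q.2.1 q.2.2) :
    Primrec fun a => tab (n a) (m a) (f a) := by
  refine Primrec.list_map (f := fun a => List.range (n a))
    (g := fun (a : α) (i : ℕ) => (List.range (m a)).map fun j : ℕ => f a i j)
    (Primrec.list_range.comp hn) ?_
  refine Primrec.list_map (f := fun p : α × ℕ => List.range (m p.1))
    (g := fun (p : α × ℕ) (j : ℕ) => f p.1 p.2 j) (Primrec.list_range.comp (hm.comp fst)) ?_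
  exact hf.comp (Primrec.pair (fst.comp fst) (Primrec.pair (snd.comp fst) snd))

theorem pMmul {n k m : α → ℕ} {A B : α → List (List S)} (hn : Primrec n) (hk : Primrec k)
    (hm : Primrec m) (hA : Primrec A) (hB : Primrec B) :
    Primrec fun a => c.mmul (n a) (k a) (m a) (A a) (B a) := by
  refine pTab hn hm (f := fun a i j => c.sumR (k a) fun l =>
    c.mul (c.ent (A a) i l) (c.ent (B a) l j)) ?_
  refine c.pSumR (n := fun q : α × ℕ × ℕ => k q.1)
    (f := fun (q : α × ℕ × ℕ) (l : ℕ) => c.mul (c.ent (A q.1) q.2.1 l) (c.ent (B q.1) l q.2.2))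
    (hk.comp fst) ?_
  exact c.pMul (c.pEnt (hA.comp (fst.comp fst)) (fst.comp (snd.comp fst)) snd)
    (c.pEnt (hB.comp (fst.comp fst)) snd (snd.comp (snd.comp fst)))

theorem pMone {n : α → ℕ} (hn : Primrec n) : Primrec fun a => c.mone (n a) :=
  pTab hn hn (f := fun _ i j => if i = j then c.one else c.zero)
    (Primrec.ite (Primrec.eq.comp (fst.comp snd) (snd.comp snd)) (Primrec.const _)
    (Primrec.const _))

theorem pMpow {n e : α → ℕ} {A : α → List (List S)} (hn : Primrec n) (hA : Primrec A)
    (he : Primrec e) : Primrec fun a => c.mpow (n a) (A a) (e a) := by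
  refine Primrec.nat_rec' (f := e) (g := fun a => c.mone (n a))
    (h := fun (a : α) (p : ℕ × List (List S)) => c.mmul (n a) (n a) (n a) p.2 (A a)) he
    (c.pMone hn) ?_
  exact c.pMmul (hn.comp fst) (hn.comp fst) (hn.comp fst) (snd.comp snd) (hA.comp fst)

theorem pSgn {n : α → ℕ} {s : α → List ℕ} (hn : Primrec n) (hs : Primrec s) :
    Primrec fun a => c.sgn (n a) (s a) := by
  refine c.pProdR (n := n) (f := fun a i => c.prodR (n a) fun j =>
    if i < j then (if (s a).getD i 0 < (s a).getD j 0 then c.one
      else if (s a).getD j 0 < (s a).getD i 0 then c.neg c.one else c.zero) else c.one) hn ?_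
  refine c.pProdR (n := fun p : α × ℕ => n p.1) (f := fun (p : α × ℕ) (j : ℕ) =>
    if p.2 < j then (if (s p.1).getD p.2 0 < (s p.1).getD j 0 then c.one
      else if (s p.1).getD j 0 < (s p.1).getD p.2 0 then c.neg c.one else c.zero) else c.one)
    (hn.comp fst) ?_
  have hi : Primrec fun q : (α × ℕ) × ℕ => (s q.1.1).getD q.1.2 0 :=
    (Primrec.list_getD 0).comp (hs.comp (fst.comp fst)) (snd.comp fst)
  have hj : Primrec fun q : (α × ℕ) × ℕ => (s q.1.1).getD q.2 0 :=
    (Primrec.list_getD 0).comp (hs.comp (fst.comp fst)) snd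
  exact Primrec.ite (Primrec.nat_lt.comp (snd.comp fst) snd)
    (Primrec.ite (Primrec.nat_lt.comp hi hj) (Primrec.const _)
      (Primrec.ite (Primrec.nat_lt.comp hj hi) (Primrec.const _) (Primrec.const _)))
    (Primrec.const _)

theorem pDet {n : α → ℕ} {f : α → ℕ → ℕ → S} (hn : Primrec n)
    (hf : Primrec fun q : α × ℕ × ℕ => f q.1 q.2.1 q.2.2) :
    Primrec fun a => c.det (n a) (f a) := by
  refine c.pr_sumL.comp (Primrec.list_map (f := fun a => words (List.range (n a)) (n a))
    (g := fun (a : α) (s : List ℕ) => c.mul (c.sgn (n a) s)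
      (c.prodR (n a) fun i => f a (s.getD i 0) i))
    (primrec_words.comp (list_range.comp hn) hn) ?_)
  refine c.pMul (c.pSgn (hn.comp fst) snd) ?_
  refine c.pProdR (n := fun p : α × List ℕ => n p.1) (f := fun (p : α × List ℕ) (i : ℕ) =>
    f p.1 (p.2.getD i 0) i) (hn.comp fst) ?_
  exact hf.comp (Primrec.pair (fst.comp fst) (Primrec.pair
    ((Primrec.list_getD 0).comp (snd.comp fst) snd) snd))

end pr

end CR

end Pool.Agent.DEC
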