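import Mathlib
/-! DEC project (MP_59dda0_an), computability layer, part 1: closure properties of recursively
enumerable predicates (after helper47's PV toolkit), promise decision, enumeration of words. -/
namespace Pool.Agent.DEC
open Primrec

section RE
variable {α β γ : Type*} [Primcodable α] [Primcodable β] [Primcodable γ]

/-- projections of computable relations are r.e. -/
theorem re_of_exists {q : α → ℕ → Prop} (hq : ComputablePred fun p : α × ℕ => q p.1 p.2) :
    REPred fun a => ∃ n, q a n := by
  classical
  have h : Partrec (fun a ↦ Nat.rfind fun n => Part.some (decide (q a n))) :=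
    Partrec.rfind hq.decide.partrec
  refine h.dom_re.of_eq fun a => ?_
  constructor
  · intro h1
    obtain ⟨n, hn⟩ := Part.dom_iff_mem.1 h1
    have := Nat.rfind_spec hn
    exact ⟨n, by simpa using this⟩
  · rintro ⟨n, hn⟩
    exact Nat.rfind_dom'.2 ⟨n, by simpa using hn, fun _ => trivial⟩

/-- r.e. predicates are projections of primitive recursive relations -/
theorem re_normal {p : α → Prop} (hp : REPred p) :
    ∃ q : α → ℕ → Prop, (PrimrecRel q) ∧ ∀ a, p a ↔ ∃ n, q a n := by
  obtain ⟨c, hc⟩ := Nat.Partrec.Code.exists_code.1 hp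
  refine ⟨fun a n => (Nat.Partrec.Code.evaln n c (Encodable.encode a)).isSome = true, ?_, ?_⟩
  · have h : Primrec fun x : α × ℕ => Nat.Partrec.Code.evaln x.2 c (Encodable.encode x.1) :=
      Nat.Partrec.Code.primrec_evaln.comp
        (Primrec.pair (Primrec.pair snd (Primrec.const c)) (Primrec.encode.comp fst))
    exact Primrec.eq.comp (Primrec.option_isSome.comp h) (Primrec.const true)
  · intro a
    have h1 : (Nat.Partrec.Code.eval c (Encodable.encode a)).Dom ↔ p a := by
      rw [hc]
      simp [Part.assert]
    rw [← h1, Part.dom_iff_mem]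
    constructor
    · rintro ⟨y, hy⟩
      obtain ⟨k, hk⟩ := Nat.Partrec.Code.evaln_complete.1 hy
      exact ⟨k, Option.isSome_iff_exists.2 ⟨y, hk⟩⟩
    · rintro ⟨k, hk⟩
      obtain ⟨y, hy⟩ := Option.isSome_iff_exists.1 hk
      exact ⟨y, Nat.Partrec.Code.evaln_sound hy⟩

theorem re_iff {p : α → Prop} :
    REPred p ↔ ∃ q : α → ℕ → Prop, (PrimrecRel q) ∧ ∀ a, p a ↔ ∃ n, q a n := by
  refine ⟨re_normal, ?_⟩
  rintro ⟨q, hq, h⟩
  exact (re_of_exists (PrimrecPred.computablePred hq)).of_eq fun a => (h a).symm

theorem re_of_primrec {p : α → Prop} (hp : PrimrecPred p) : REPred p := hp.computablePred.to_re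

/-- composition with a computable function -/
theorem re_comp {p : β → Prop} (hp : REPred p) {f : α → β} (hf : Computable f) :
    REPred fun a => p (f a) := Partrec.comp hp hf

theorem computablePred_comp {p : β → Prop} (hp : ComputablePred p) {f : α → β} (hf : Computable f) :
    ComputablePred fun a => p (f a) := by
  classical
  obtain ⟨g, hg, rfl⟩ := ComputablePred.computable_iff.1 hp
  exact ComputablePred.computable_iff.2 ⟨fun a => g (f a), hg.comp hf, rfl⟩

theorem re_and {p q : α → Prop} (hp : REPred p) (hq : REPred q) : REPred fun a => p a ∧ q a := by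
  obtain ⟨P, hP, h1⟩ := re_normal hp
  obtain ⟨Q, hQ, h2⟩ := re_normal hq
  refine re_iff.2 ⟨fun a n => P a n.unpair.1 ∧ Q a n.unpair.2, ?_, ?_⟩
  · exact PrimrecPred.and (hP.comp fst (fst.comp (Primrec.unpair.comp snd)))
      (hQ.comp fst (snd.comp (Primrec.unpair.comp snd)))
  · intro a
    rw [h1, h2]
    constructor
    · rintro ⟨⟨m, hm⟩, ⟨n, hn⟩⟩
      exact ⟨Nat.pair m n, by simpa using hm, by simpa using hn⟩
    · rintro ⟨n, hn1, hn2⟩
      exact ⟨⟨_, hn1⟩, ⟨_, hn2⟩⟩

theorem re_or {p q : α → Prop} (hp : REPred p) (hq : REPred q) : REPred fun a => p a ∨ q a := by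
  obtain ⟨P, hP, h1⟩ := re_normal hp
  obtain ⟨Q, hQ, h2⟩ := re_normal hq
  refine re_iff.2 ⟨fun a n => P a n ∨ Q a n, ?_, ?_⟩
  · exact PrimrecPred.or hP hQ
  · intro a
    rw [h1, h2]
    constructor
    · rintro (⟨m, hm⟩ | ⟨m, hm⟩)
      · exact ⟨m, Or.inl hm⟩
      · exact ⟨m, Or.inr hm⟩
    · rintro ⟨n, hn | hn⟩
      · exact Or.inl ⟨n, hn⟩
      · exact Or.inr ⟨n, hn⟩

/-- existential quantification over a Primcodable type -/
theorem re_exists {R : α → β → Prop} (hR : REPred fun p : α × β => R p.1 p.2) :
    REPred fun a => ∃ b, R a b := by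
  obtain ⟨Q, hQ, h1⟩ := re_normal hR
  refine re_iff.2 ⟨fun a n => ∃ b ∈ ((Encodable.decode (α := β) n.unpair.1).toList : List β), Q (a, b) n.unpair.2, ?_, ?_⟩
  · have h2 : PrimrecRel fun (b : β) (x : α × ℕ) => Q (x.1, b) x.2.unpair.2 :=
      hQ.comp (Primrec.pair (fst.comp snd) fst) (snd.comp (Primrec.unpair.comp (snd.comp snd)))
    exact (h2.exists_mem_list).comp (Primrec.optionToList.comp
      (Primrec.decode.comp (fst.comp (Primrec.unpair.comp snd)))) Primrec.id
  · intro a
    constructor
    · rintro ⟨b, hb⟩
      obtain ⟨n, hn⟩ := (h1 (a, b)).1 hb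
      exact ⟨Nat.pair (Encodable.encode b) n, b, by simp, by simpa using hn⟩
    · rintro ⟨n, b, -, hn⟩
      exact ⟨b, (h1 (a, b)).2 ⟨_, hn⟩⟩

/-- bounded universal quantification over the members of a list -/
theorem re_forall_mem {R : α → β → Prop} (hR : REPred fun p : α × β => R p.1 p.2)
    {f : α → List β} (hf : Computable f) : REPred fun a => ∀ b ∈ f a, R a b := by
  have key : REPred fun p : α × List β => ∀ b ∈ p.2, R p.1 b := by
    obtain ⟨Q, hQ, h1⟩ := re_normal hR
    refine re_iff.2 ⟨fun p n => ∀ b ∈ p.2, ∃ m < n, Q (p.1, b) m, ?_, ?_⟩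
    · have h2 : PrimrecRel fun (m : ℕ) (x : β × ((α × List β) × ℕ)) => Q (x.2.1.1, x.1) m :=
        hQ.comp (Primrec.pair (fst.comp (fst.comp (snd.comp snd))) (fst.comp snd)) fst
      have h3 : PrimrecRel fun (b : β) (y : (α × List β) × ℕ) => ∃ m < y.2, Q (y.1.1, b) m :=
        (h2.exists_mem_list.comp (list_range.comp (snd.comp snd)) Primrec.id).of_eq (by simp)
      exact h3.forall_mem_list.comp (snd.comp fst) Primrec.id
    · rintro ⟨a, l⟩
      constructor
      · intro h
        have h2 : ∀ b ∈ l, ∃ n, Q (a, b) n := fun b hb => (h1 (a, b)).1 (h b hb)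
        clear h
        induction l with
        | nil => exact ⟨0, by simp⟩
        | cons c l ih =>
          obtain ⟨N, hN⟩ := ih fun b hb => h2 b (List.mem_cons_of_mem _ hb)
          obtain ⟨n, hn⟩ := h2 c List.mem_cons_self
          refine ⟨max N (n + 1), ?_⟩
          intro b hb
          rcases List.mem_cons.1 hb with rfl | hb
          · exact ⟨n, lt_of_lt_of_le (Nat.lt_succ_self _) (le_max_right _ _), hn⟩
          · obtain ⟨m, hm, hQm⟩ := hN b hb
            exact ⟨m, lt_of_lt_of_le hm (le_max_left _ _), hQm⟩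
      · rintro ⟨n, hn⟩ b hb
        obtain ⟨m, -, hm⟩ := hn b hb
        exact (h1 (a, b)).2 ⟨m, hm⟩
  exact (re_comp key (f := fun a => (a, f a)) (Computable.pair Computable.id hf)).of_eq fun a => Iff.rfl

/-- bounded universal quantification over the numbers below a computable bound -/
theorem re_forall_lt {R : α → ℕ → Prop} (hR : REPred fun p : α × ℕ => R p.1 p.2)
    {f : α → ℕ} (hf : Computable f) : REPred fun a => ∀ i < f a, R a i :=
  (re_forall_mem hR (f := fun a => List.range (f a)) (list_range.to_comp.comp hf)).of_eq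
    fun a => by simp

/-- bounded existential quantification over the members of a list -/
theorem re_exists_mem {R : α → β → Prop} (hR : REPred fun p : α × β => R p.1 p.2)
    {f : α → List β} (hf : Computable f) : REPred fun a => ∃ b ∈ f a, R a b := by
  classical
  have h1 : REPred fun p : (α × List β) × β => p.2 ∈ p.1.2 := by
    refine re_of_primrec ?_
    have h2 : PrimrecRel fun (b c : β) => b = c := Primrec.eq
    have h3 : PrimrecRel fun (l : List β) (c : β) => ∃ b ∈ l, b = c := h2.exists_mem_list
    exact (h3.comp (snd.comp fst) snd).of_eq (by simp)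
  have h4 : REPred fun p : (α × List β) × β => p.2 ∈ p.1.2 ∧ R p.1.1 p.2 :=
    re_and h1 (re_comp (f := fun p : (α × List β) × β => (p.1.1, p.2)) hR
      (Primrec.pair (fst.comp fst) snd).to_comp)
  exact (re_comp (re_exists (R := fun (p : α × List β) (b : β) => b ∈ p.2 ∧ R p.1 b) h4)
    (f := fun a => (a, f a)) (Computable.pair Computable.id hf)).of_eq fun a => Iff.rfl

/-- equality of two computable functions is r.e. (even decidable) -/
theorem re_eq {f g : α → β} (hf : Computable f) (hg : Computable g) :
    REPred fun a => f a = g a := by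
  classical
  have h : PrimrecPred fun p : β × β => p.1 = p.2 := Primrec.eq.comp fst snd
  exact re_comp (re_of_primrec h) (Computable.pair hf hg)

/-- inequality of two computable functions is r.e. (even decidable) -/
theorem re_ne {f g : α → β} (hf : Computable f) (hg : Computable g) :
    REPred fun a => f a ≠ g a := by
  classical
  have h : PrimrecPred fun p : β × β => p.1 ≠ p.2 := (Primrec.eq.comp fst snd).not
  exact re_comp (re_of_primrec h) (Computable.pair hf hg)

/-- a constant truth value is r.e. -/
theorem re_const (p : Prop) : REPred fun _ : α => p := by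
  classical
  by_cases h : p
  · exact (re_eq (Computable.const (α := α) (0 : ℕ)) (Computable.const 0)).of_eq fun a => by
      simp [h]
  · exact (re_ne (Computable.const (α := α) (0 : ℕ)) (Computable.const 0)).of_eq fun a => by
      simp [h]

/-- decidable from r.e. and co-r.e., where the two halves are given by certificates -/
theorem computablePred_of_certs {p : α → Prop} {Yes No : α → β → Prop}
    (hY : REPred fun x : α × β => Yes x.1 x.2) (hN : REPred fun x : α × β => No x.1 x.2)
    (h1 : ∀ a, p a ↔ ∃ b, Yes a b) (h2 : ∀ a, ¬ p a ↔ ∃ b, No a b) : ComputablePred p :=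
  ComputablePred.computable_iff_re_compl_re'.2
    ⟨(re_exists hY).of_eq fun a => (h1 a).symm, (re_exists hN).of_eq fun a => (h2 a).symm⟩

/-- **Promise decision.**  If `Y` and `N` are r.e. then a partial recursive function decides between
them: on every input on which exactly one of the two holds it halts with the right answer. -/
theorem promise_decision {Y N : α → Prop} (hY : REPred Y) (hN : REPred N) :
    ∃ f : α →. Bool, Partrec f ∧
      (∀ a, Y a → ¬ N a → f a = Part.some true) ∧ (∀ a, N a → ¬ Y a → f a = Part.some false) := by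
  obtain ⟨k, pk, hk⟩ := Partrec.merge' (hY.map (Computable.const true).to₂)
    (hN.map (Computable.const false).to₂)
  have hmem : ∀ a b, b ∈ k a → (b = true ∧ Y a) ∨ (b = false ∧ N a) := by
    intro a b hb
    have := (hk a).1 b hb
    simp only [Part.mem_map_iff, Part.mem_assert_iff, Part.mem_some_iff, exists_prop,
      and_true, exists_const] at this
    rcases this with ⟨h, e⟩ | ⟨h, e⟩
    · exact Or.inl ⟨e.symm, h⟩
    · exact Or.inr ⟨e.symm, h⟩
  have hdom : ∀ a, Y a ∨ N a → (k a).Dom := by
    intro a h
    refine (hk a).2.2 ?_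
    rcases h with h | h
    · left
      simpa [Part.assert] using h
    · right
      simpa [Part.assert] using h
  refine ⟨k, pk, fun a hy hn => ?_, fun a hn hy => ?_⟩
  · obtain ⟨b, hb⟩ := Part.dom_iff_mem.1 (hdom a (Or.inl hy))
    rcases hmem a b hb with ⟨rfl, -⟩ | ⟨-, h⟩
    · exact Part.eq_some_iff.2 hb
    · exact absurd h hn
  · obtain ⟨b, hb⟩ := Part.dom_iff_mem.1 (hdom a (Or.inr hn))
    rcases hmem a b hb with ⟨-, h⟩ | ⟨rfl, -⟩
    · exact absurd h hy
    · exact Part.eq_some_iff.2 hb

/-- Promise decision, in the form used at the end: `Q` is the question, `P` the promise. -/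
theorem promise_decides {P Q Y N : α → Prop} (hY : REPred Y) (hN : REPred N)
    (h1 : ∀ a, P a → (Y a ↔ Q a)) (h2 : ∀ a, P a → (N a ↔ ¬ Q a)) :
    ∃ f : α →. Bool, Partrec f ∧ ∀ a, P a → ((Q a → f a = Part.some true) ∧
      (¬ Q a → f a = Part.some false)) := by
  obtain ⟨f, hf, hf1, hf2⟩ := promise_decision hY hN
  refine ⟨f, hf, fun a ha => ⟨fun hq => ?_, fun hq => ?_⟩⟩
  · exact hf1 a ((h1 a ha).2 hq) fun hn => (h2 a ha).1 hn hq
  · exact hf2 a ((h2 a ha).2 hq) fun hy => hq ((h1 a ha).1 hy)

end RE

section Words
variable {β : Type*}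

/-- all words of length `n` over the alphabet `S` (with repetitions if `S` has repetitions) -/
def words (S : List β) (n : ℕ) : List (List β) :=
  Nat.rec [[]] (fun _ W => W.flatMap fun w => S.map fun x => x :: w) n

theorem words_zero (S : List β) : words S 0 = [[]] := rfl

theorem words_succ (S : List β) (n : ℕ) :
    words S (n + 1) = (words S n).flatMap fun w => S.map fun x => x :: w := rfl

theorem mem_words (S : List β) (n : ℕ) (w : List β) :
    w ∈ words S n ↔ w.length = n ∧ ∀ x ∈ w, x ∈ S := by
  induction n generalizing w with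
  | zero =>
    rw [words_zero, List.mem_singleton]
    constructor
    · rintro rfl
      simp
    · rintro ⟨h, -⟩
      exact List.length_eq_zero_iff.1 h
  | succ n ih =>
    rw [words_succ]
    simp only [List.mem_flatMap, List.mem_map]
    constructor
    · rintro ⟨v, hv, x, hx, rfl⟩
      obtain ⟨h1, h2⟩ := (ih v).1 hv
      refine ⟨by simp [h1], fun y hy => ?_⟩
      rcases List.mem_cons.1 hy with rfl | hy
      · exact hx
      · exact h2 y hy
    · rintro ⟨h1, h2⟩
      cases w with
      | nil => simp at h1
      | cons x v =>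
        refine ⟨v, (ih v).2 ⟨by simpa using h1, fun y hy => h2 y (List.mem_cons_of_mem _ hy)⟩, x,
          h2 x List.mem_cons_self, rfl⟩

theorem primrec_words [Primcodable β] : Primrec₂ (words : List β → ℕ → List (List β)) := by
  refine Primrec₂.of_eq (f := fun (S : List β) (n : ℕ) =>
    (Nat.rec [[]] (fun _ W => W.flatMap fun w => S.map fun x => x :: w) n : List (List β))) ?_
    (fun S n => rfl)
  refine Primrec.nat_rec (f := fun _ : List β => ([[]] : List (List β)))
    (g := fun (S : List β) (p : ℕ × List (List β)) => p.2.flatMap fun w => S.map fun x => x :: w)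
    (Primrec.const _) ?_
  refine Primrec.list_flatMap (f := fun q : List β × (ℕ × List (List β)) => q.2.2)
    (g := fun (q : List β × (ℕ × List (List β))) (w : List β) => q.1.map fun x => x :: w)
    (snd.comp snd) ?_
  refine Primrec.list_map (f := fun q : (List β × (ℕ × List (List β))) × List β => q.1.1)
    (g := fun (q : (List β × (ℕ × List (List β))) × List β) (x : β) => x :: q.2)
    (fst.comp fst) ?_
  exact Primrec.list_cons.comp snd (snd.comp fst)

end Words

end Pool.Agent.DEC
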