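import Pool.Agent.DEC.CompleteOf
import Pool.Agent.DEC.C6

/-!
# DEC: the completeness half (helper75)
-/

set_option autoImplicit false

open Matrix Polynomial

namespace Pool.Agent.DEC.Complete

variable {a b : ℕ} {A : Matrix (Fin a) (Fin a) ℕ} {B : Matrix (Fin b) (Fin b) ℕ}

/-- **the completeness half**: for every reference datum there is `N > 0` such that semi-solutions
of level `N` give the dimension condition with traces -/
theorem complete (ρ : Ref A B) : ∃ N : ℕ, 0 < N ∧ (Semi ρ N → FT.TraceDimCondition A B) := by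
  have : ∀ i, PolyOK (ρ.g i) := fun i => ⟨ρ.monic i, ρ.irr i, ρ.g0 i⟩
  exact CompleteOf.complete_of ρ (fun i => KF (ρ.g i))
    (fun deg s h1 h2 h3 h4 => C6.traceDim_of_loc ρ _ deg s h1 h2 h3 h4)

end Pool.Agent.DEC.Complete
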