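import Pool.Agent.DEC.C3b
import Pool.Agent.DEC.CDefs

/-!
# DEC, module C3: `inU_of_semi`, from the statement `tst` (C2)
-/

set_option autoImplicit false

open Matrix Polynomial

namespace Pool.Agent.DEC.InUn

open RefQ

variable {a b : ℕ} {A : Matrix (Fin a) (Fin a) ℕ} {B : Matrix (Fin b) (Fin b) ℕ} (ρ : Ref A B)
  (K : Fin ρ.f → Type) [∀ i, Field (K i)] [∀ i, Algebra ℚ (K i)]
  [∀ i, Algebra (Lam (ρ.g i)) (K i)] [∀ i, IsFractionRing (Lam (ρ.g i)) (K i)]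

/-- **C3** from **C2** (the hypothesis `tst`) -/
theorem inU_of_tst {n : ℕ} (hn : GoodN ρ K n)
    (tst : ∃ c0 e : ℕ, ∀ c, c0 ≤ c →
      ∀ (nn : Fin ρ.f → ℕ) (deg : ∀ i, Fin (nn i) → ℕ) (s : ρ.MSt nn), (∀ i, nn i ≤ a) →
      (∀ i, IsSt (ρ.shp deg i) (s i)) → Ids ρ deg s (n ^ c) →
      (∀ i, LInv (RM (ρ.shp deg i) (stK ρ K s i))) ∧
      (∀ i, RInv (MM (ρ.shp deg i) (stK ρ K s i))) ∧
      Loc (mR (fun i => ρ.shp deg i) (stK ρ K s)) (mW (fun i => ρ.shp deg i) (stK ρ K s))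
        (locAt n (GVK ρ K)) (locAt n (GWK ρ K)) ∧
      ∀ i j, Sat (ρ.shp deg i) j → ∃ w ∈ DK ρ K n i,
        gdet (SigM (ρ.shp deg i) (stK ρ K s i) j) * w = (n : K i) ^ e) :
    ∃ c1 : ℕ, ∀ c, c1 ≤ c →
    ∀ (nn : Fin ρ.f → ℕ) (deg : ∀ i, Fin (nn i) → ℕ) (s : ρ.MSt nn), (∀ i, nn i ≤ a) →
    (∀ i, IsSt (ρ.shp deg i) (s i)) → Ids ρ deg s (n ^ c) → Uni ρ deg s (n ^ c) →
    ∃ u : ∀ i, ℕ → K i,
      (∀ i j, Sat (ρ.shp deg i) j →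
        u i j ∈ OK ρ K n i ∧ (u i j)⁻¹ ∈ OK ρ K n i ∧ u i j ≠ 0) ∧
      InU n 3 (DK ρ K n) (fun i => ρ.shp deg i) (GVK ρ K) (GWK ρ K) u (stK ρ K s) := by
  obtain ⟨c0, e, h⟩ := tst
  refine ⟨c0 + (3 + e + 2 * a), fun c hc nn deg s hna hst hids huni => ?_⟩
  obtain ⟨h1, h2, h3, h4⟩ := h c (by omega) nn deg s hna hst hids
  have hn0 : n ≠ 0 := by have := hn.two; omega
  exact C3.inU_of_uni (S := fun i => Lam (ρ.g i)) (K := K) hn0 (θ := fun i => ρ.th i)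
    (fun i => by
      rw [Ne, map_eq_zero_iff _ (IsFractionRing.injective (Lam (ρ.g i)) (K i))]
      exact C3.th_ne_zero ρ i)
    (fun i => ρ.shp deg i) (GVK ρ K) (GWK ρ K) s (c := c) (c1 := 3) (e := e) (e1 := a)
    (by omega) (C3.Dl_dvd ρ hn.dvd) hst h1 h2 h3 h4 huni

end Pool.Agent.DEC.InUn
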