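import Mathlib

/-!
Strong approximation in abstract form.  `R` is a commutative ring, `A` a commutative topological
ring, `ι : R → A` has dense range and nonzero elements of `R` become units of `A`.
Examples: `R = O_K[1/n]`, `A = K` with the topology of the places above `n`, or the product of
the completions at these places.
-/

open Topology Matrix

namespace Pool.Agent.DEC

set_option linter.unusedSectionVars false

variable {R A : Type*} [CommRing R] [CommRing A] [TopologicalSpace A] [IsTopologicalRing A]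

/-- dense range, nonzero elements are units, arbitrarily small nonzero elements -/
structure SAData (ι : R →+* A) : Prop where
  dense : DenseRange ι
  unit : ∀ a : R, a ≠ 0 → IsUnit (ι a)
  small : ∀ U ∈ 𝓝 (0 : A), ∃ a : R, a ≠ 0 ∧ ι a ∈ U

namespace SAData

variable {ι : R →+* A}

theorem exists_ne (h : SAData ι) {x : A} {U : Set A} (hU : U ∈ 𝓝 x) :
    ∃ a : R, a ≠ 0 ∧ ι a ∈ U := by
  obtain ⟨V, hVU, hVo, hxV⟩ := mem_nhds_iff.mp hU
  obtain ⟨r, hr⟩ := h.dense.exists_mem_open hVo ⟨x, hxV⟩
  by_cases h0 : r = 0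
  · subst h0
    rw [map_zero] at hr
    obtain ⟨a, ha, haV⟩ := h.small V (hVo.mem_nhds hr)
    exact ⟨a, ha, hVU haV⟩
  · exact ⟨r, h0, hVU hr⟩

theorem exists_mul (h : SAData ι) {a : R} (ha : a ≠ 0) (b : R) {x : A} {U : Set A}
    (hU : U ∈ 𝓝 x) : ∃ t : R, ι (b + a * t) ∈ U := by
  obtain ⟨u, hu⟩ := h.unit a ha
  have hc : Continuous (fun t : A => ι b + ι a * t) := by fun_prop
  have hx : (fun t : A => ι b + ι a * t) (↑u⁻¹ * (x - ι b)) = x := by
    simp only []
    rw [← hu, ← mul_assoc, Units.mul_inv, one_mul]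
    ring
  obtain ⟨V, hVU, hVo, hxV⟩ := mem_nhds_iff.mp hU
  have hne : ((fun t : A => ι b + ι a * t) ⁻¹' V).Nonempty :=
    ⟨↑u⁻¹ * (x - ι b), by
      change (fun t : A => ι b + ι a * t) (↑u⁻¹ * (x - ι b)) ∈ V
      rw [hx]; exact hxV⟩
  obtain ⟨t, ht⟩ := h.dense.exists_mem_open (hVo.preimage hc) hne
  refine ⟨t, hVU ?_⟩
  rw [map_add, map_mul]
  exact ht

/-- approximation of a vector -/
theorem exists_vec (h : SAData ι) {n : Type*} [Finite n] {x : n → A} {U : Set (n → A)}
    (hU : U ∈ 𝓝 x) : ∃ v : n → R, (fun j => ι (v j)) ∈ U := by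
  obtain ⟨V, hVU, hVo, hxV⟩ := mem_nhds_iff.mp hU
  have hd : DenseRange (fun v : n → R => (fun j => ι (v j))) := by
    have := DenseRange.piMap (fun _ : n => h.dense)
    exact this
  obtain ⟨v, hv⟩ := hd.exists_mem_open hVo ⟨x, hxV⟩
  exact ⟨v, hVU hv⟩

/-- approximation of a matrix -/
theorem exists_mat (h : SAData ι) {m n : Type*} [Finite m] [Finite n] {X : Matrix m n A}
    {U : Set (Matrix m n A)} (hU : U ∈ 𝓝 X) : ∃ M : Matrix m n R, M.map ι ∈ U := by
  obtain ⟨V, hVU, hVo, hxV⟩ := mem_nhds_iff.mp hU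
  have hd : DenseRange (fun v : m → n → R => (fun i j => ι (v i j) : m → n → A)) := by
    have h1 : DenseRange (fun v : n → R => (fun j => ι (v j))) :=
      DenseRange.piMap (fun _ : n => h.dense)
    exact DenseRange.piMap (fun _ : m => h1)
  obtain ⟨v, hv⟩ := hd.exists_mem_open hVo ⟨X, hxV⟩
  exact ⟨Matrix.of v, hVU hv⟩

end SAData

/-- transvection-like matrix `1 + u w` -/
def tv {n : Type*} [DecidableEq n] (u w : n → R) : Matrix n n R := 1 + vecMulVec u w

theorem vecMul_tv {n : Type*} [Fintype n] [DecidableEq n] (x u w : n → R) :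
    x ᵥ* tv u w = x + (x ⬝ᵥ u) • w := by
  ext j
  simp [tv, vecMul_add, vecMul_vecMulVec]

theorem det_tv {n : Type*} [Fintype n] [DecidableEq n] (u w : n → R) (h : w ⬝ᵥ u = 0) :
    (tv u w).det = 1 := by
  have := Matrix.det_one_add_replicateCol_mul_replicateRow (ι := Unit) u w
  rw [← Matrix.vecMulVec_eq] at this
  rw [tv, this, h, add_zero]

/-- **Core.**  `f : m ↪ n`, `s` a set of rows, some column `k0` is not in `f '' s`.  Every matrix
over `A` is approximated by matrices over `R` whose rows in `s` can be turned into the unit rows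
`e_(f i)` by column operations of determinant one. -/
theorem SAData.core {ι : R →+* A} (h : SAData ι) {m n : Type*} [Fintype m] [DecidableEq m]
    [Fintype n] [DecidableEq n] (f : m ↪ n) (k0 : n) (s : Finset m) (hk0 : ∀ i ∈ s, f i ≠ k0)
    (X : Matrix m n A) {U : Set (Matrix m n A)} (hU : U ∈ 𝓝 X) :
    ∃ M : Matrix m n R, M.map ι ∈ U ∧ ∃ E : Matrix n n R, E.det = 1 ∧
      ∀ i ∈ s, (M * E) i = Pi.single (f i) 1 := by
  induction s using Finset.induction_on generalizing U with
  | empty =>
    obtain ⟨M, hM⟩ := h.exists_mat hU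
    exact ⟨M, hM, 1, det_one, by simp⟩
  | insert i s his ih =>
    obtain ⟨V, hVU, hVo, hXV⟩ := mem_nhds_iff.mp hU
    obtain ⟨M, hM, E, hE, hrows⟩ := ih (fun j hj => hk0 j (Finset.mem_insert_of_mem hj))
      (hVo.mem_nhds hXV)
    have hik : f i ≠ k0 := hk0 i (Finset.mem_insert_self i s)
    have hki : k0 ≠ f i := hik.symm
    have hEu : IsUnit E.det := by rw [hE]; exact isUnit_one
    have hEE : E⁻¹ * E = 1 := Matrix.nonsing_inv_mul E hEu
    have hEE' : E * E⁻¹ = 1 := Matrix.mul_nonsing_inv E hEu
    set v : n → R := (M * E) i with hv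
    have hvM : v ᵥ* E⁻¹ = M i := by
      have : v = M i ᵥ* E := by
        rw [hv]; exact (Matrix.mul_apply_eq_vecMul M E i)
      rw [this, vecMul_vecMul, hEE', vecMul_one]
    let g : A × A → Matrix m n A := fun z => (M.map ι).updateRow i
      ((Function.update (Function.update (fun j => ι (v j)) (f i) z.1) k0 z.2) ᵥ* (E⁻¹).map ι)
    have hg : Continuous g := by
      refine Continuous.matrix_updateRow i continuous_const ?_
      refine Continuous.matrix_vecMul ?_ continuous_const
      have h1 : Continuous (fun z : A × A =>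
          Function.update (fun j => ι (v j)) (f i) z.1) :=
        Continuous.update continuous_const (f i) continuous_fst
      exact Continuous.update h1 k0 continuous_snd
    have hmapvec : ∀ w : n → R, (fun j => ι (w j)) ᵥ* (E⁻¹).map ι
        = fun j => ι ((w ᵥ* E⁻¹) j) := by
      intro w
      ext j
      simp [vecMul, dotProduct]
    have hmapupd : ∀ w : n → R, (M.map ι).updateRow i (fun j => ι (w j))
        = (M.updateRow i w).map ι := by
      intro w
      exact (Matrix.map_updateRow ..).symm
    have hgR : ∀ a b : R, g (ι a, ι b) = (M.updateRow i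
        ((Function.update (Function.update v (f i) a) k0 b) ᵥ* E⁻¹)).map ι := by
      intro a b
      rw [← hmapupd, ← hmapvec]
      simp only [g]
      congr 2
      ext j
      by_cases h1 : j = k0
      · subst h1; simp
      · by_cases h2 : j = f i
        · subst h2; simp [h1]
        · simp [h1, h2]
    have hg0 : g (ι (v (f i)), ι (v k0)) ∈ V := by
      rw [hgR]
      have : (Function.update (Function.update v (f i) (v (f i))) k0 (v k0)) = v := by
        simp
      rw [this, hvM, Matrix.updateRow_eq_self]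
      exact hM
    have hgn : g ⁻¹' V ∈ 𝓝 (ι (v (f i)), ι (v k0)) := hg.continuousAt.preimage_mem_nhds
      (hVo.mem_nhds hg0)
    rw [nhds_prod_eq, Filter.mem_prod_iff] at hgn
    obtain ⟨N0, hN0, N1, hN1, hNN⟩ := hgn
    obtain ⟨a, ha, haN⟩ := h.exists_ne hN0
    obtain ⟨t, htN⟩ := h.exists_mul ha 1 hN1
    have hV' : g (ι a, ι (1 + a * t)) ∈ V := hNN ⟨haN, htN⟩
    rw [hgR] at hV'
    set v' : n → R := Function.update (Function.update v (f i) a) k0 (1 + a * t) with hv'
    have hv'k : v' k0 = 1 + a * t := by simp [hv']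
    have hv'i : v' (f i) = a := by simp [hv', hik]
    set M' : Matrix m n R := M.updateRow i (v' ᵥ* E⁻¹) with hM'
    -- the three column operations
    let T1 : Matrix n n R := tv (Pi.single (f i) 1) (-t • Pi.single k0 1)
    let x1 : n → R := v' + (-(t * a)) • Pi.single k0 1
    have hx1 : v' ᵥ* T1 = x1 := by
      rw [vecMul_tv, dotProduct_single, hv'i, mul_one, smul_smul]
      simp only [x1]
      congr 2
      ring
    have hx1k : x1 k0 = 1 := by
      simp only [x1, Pi.add_apply, Pi.smul_apply, hv'k, Pi.single_eq_same, smul_eq_mul]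
      ring
    have hx1i : x1 (f i) = a := by
      simp [x1, hv'i, Pi.single_eq_of_ne hik]
    let T2 : Matrix n n R := tv (Pi.single k0 1) ((1 - a) • Pi.single (f i) 1)
    let x2 : n → R := x1 + (1 - a) • Pi.single (f i) 1
    have hx2 : x1 ᵥ* T2 = x2 := by
      rw [vecMul_tv, dotProduct_single, hx1k, mul_one, one_smul]
    have hx2i : x2 (f i) = 1 := by
      simp [x2, hx1i]
    let T3 : Matrix n n R := tv (Pi.single (f i) 1) (Pi.single (f i) 1 - x2)
    have hx3 : x2 ᵥ* T3 = Pi.single (f i) 1 := by
      rw [vecMul_tv, dotProduct_single, hx2i, mul_one, one_smul]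
      abel
    have hT1 : T1.det = 1 := det_tv _ _ (by
      rw [dotProduct_single]; simp [Pi.single_eq_of_ne hik])
    have hT2 : T2.det = 1 := det_tv _ _ (by
      rw [dotProduct_single]; simp [Pi.single_eq_of_ne hki])
    have hT3 : T3.det = 1 := det_tv _ _ (by
      rw [dotProduct_single]; simp [hx2i])
    refine ⟨M', hVU hV', E * T1 * T2 * T3, ?_, ?_⟩
    · simp [det_mul, hE, hT1, hT2, hT3]
    · intro j hj
      have hassoc : (M' * (E * T1 * T2 * T3)) j = (((M' * E) j ᵥ* T1) ᵥ* T2) ᵥ* T3 := by
        rw [← Matrix.mul_assoc, ← Matrix.mul_assoc, ← Matrix.mul_assoc]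
        rw [Matrix.mul_apply_eq_vecMul, Matrix.mul_apply_eq_vecMul, Matrix.mul_apply_eq_vecMul]
      rw [hassoc]
      rcases Finset.mem_insert.mp hj with rfl | hjs
      · have hrow : (M' * E) j = v' := by
          rw [Matrix.mul_apply_eq_vecMul, hM', Matrix.updateRow_self, vecMul_vecMul, hEE,
            vecMul_one]
        rw [hrow, hx1, hx2, hx3]
      · have hji : j ≠ i := by rintro rfl; exact his hjs
        have hfji : f j ≠ f i := fun e => hji (f.injective e)
        have hfjk : f j ≠ k0 := hk0 j (Finset.mem_insert_of_mem hjs)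
        have hrow : (M' * E) j = Pi.single (f j) 1 := by
          rw [Matrix.mul_apply_eq_vecMul, hM', Matrix.updateRow_ne hji,
            ← Matrix.mul_apply_eq_vecMul]
          exact hrows j hjs
        have hT : ∀ (k : n) (w : n → R), k ≠ f j →
            (Pi.single (f j) (1 : R) : n → R) ᵥ* tv (Pi.single k 1) w = Pi.single (f j) 1 := by
          intro k w hk
          rw [vecMul_tv, dotProduct_single, Pi.single_eq_of_ne hk, zero_mul, zero_smul, add_zero]
        rw [hrow, hT _ _ hfji.symm, hT _ _ hfjk.symm, hT _ _ hfji.symm]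

/-- the rows `e_(f i)` -/
def stdMat {m n : Type*} [DecidableEq n] (f : m → n) : Matrix m n R :=
  Matrix.of fun i => Pi.single (f i) 1

theorem stdMat_mul_transpose {m n : Type*} [DecidableEq m] [Fintype n] [DecidableEq n]
    (f : m ↪ n) : (stdMat f : Matrix m n R) * (stdMat f : Matrix m n R)ᵀ = 1 := by
  ext i j
  rw [Matrix.mul_apply', Matrix.one_apply]
  change (Pi.single (f i) (1 : R) : n → R) ⬝ᵥ (fun k => (Pi.single (f j) (1 : R) : n → R) k) = _
  rw [single_one_dotProduct]
  by_cases hij : i = j
  · subst hij; simp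
  · rw [if_neg hij, Pi.single_eq_of_ne]
    exact fun e => hij (f.injective e)

/-- **(SA1)** If some column `k0` is not used by `f : m ↪ n` (so `|m| < |n|`), the matrices over
`R` which are taken to the standard matrix `stdMat f` by column operations of determinant one are
dense in the matrices over `A`. -/
theorem SAData.sa1 {ι : R →+* A} (h : SAData ι) {m n : Type*} [Fintype m] [DecidableEq m]
    [Fintype n] [DecidableEq n] (f : m ↪ n) (k0 : n) (hk0 : ∀ i, f i ≠ k0)
    (X : Matrix m n A) {U : Set (Matrix m n A)} (hU : U ∈ 𝓝 X) :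
    ∃ M : Matrix m n R, M.map ι ∈ U ∧ ∃ E : Matrix n n R, E.det = 1 ∧ M * E = stdMat f := by
  obtain ⟨M, hM, E, hE, hr⟩ := h.core f k0 Finset.univ (fun i _ => hk0 i) X hU
  refine ⟨M, hM, E, hE, ?_⟩
  ext i j
  rw [hr i (Finset.mem_univ i)]
  rfl

/-- (SA1), right invertible matrices are dense if there are more columns than rows -/
theorem SAData.right_inv {ι : R →+* A} (h : SAData ι) {m n : Type*} [Fintype m] [DecidableEq m]
    [Fintype n] [DecidableEq n] (hc : Fintype.card m < Fintype.card n)
    (X : Matrix m n A) {U : Set (Matrix m n A)} (hU : U ∈ 𝓝 X) :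
    ∃ M : Matrix m n R, M.map ι ∈ U ∧ ∃ N : Matrix n m R, M * N = 1 := by
  obtain ⟨f⟩ := Function.Embedding.nonempty_of_card_le hc.le
  have : ∃ k0, k0 ∉ Finset.univ.map f := by
    by_contra hcon
    push Not at hcon
    have h1 : (Finset.univ.map f) = Finset.univ := Finset.eq_univ_iff_forall.mpr hcon
    have h2 := congrArg Finset.card h1
    rw [Finset.card_map, Finset.card_univ, Finset.card_univ] at h2
    omega
  obtain ⟨k0, hk0⟩ := this
  obtain ⟨M, hM, E, -, hME⟩ := h.sa1 f k0 (fun i hi => hk0 (by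
    rw [Finset.mem_map]; exact ⟨i, Finset.mem_univ i, hi⟩)) X hU
  refine ⟨M, hM, E * (stdMat f : Matrix m n R)ᵀ, ?_⟩
  rw [← Matrix.mul_assoc, hME, stdMat_mul_transpose]

/-- (SA1), left invertible matrices are dense if there are more rows than columns -/
theorem SAData.left_inv {ι : R →+* A} (h : SAData ι) {m n : Type*} [Fintype m] [DecidableEq m]
    [Fintype n] [DecidableEq n] (hc : Fintype.card n < Fintype.card m)
    (X : Matrix m n A) {U : Set (Matrix m n A)} (hU : U ∈ 𝓝 X) :
    ∃ M : Matrix m n R, M.map ι ∈ U ∧ ∃ N : Matrix n m R, N * M = 1 := by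
  have hU' : (fun Y : Matrix n m A => Yᵀ) ⁻¹' U ∈ 𝓝 Xᵀ := by
    have hcont : Continuous (fun Y : Matrix n m A => Yᵀ) := Continuous.matrix_transpose continuous_id
    refine hcont.continuousAt.preimage_mem_nhds ?_
    rw [transpose_transpose]
    exact hU
  obtain ⟨M, hM, N, hN⟩ := h.right_inv hc Xᵀ hU'
  refine ⟨Mᵀ, ?_, Nᵀ, ?_⟩
  · have : (Mᵀ).map ι = (M.map ι)ᵀ := rfl
    rw [this]; exact hM
  · rw [← transpose_mul, hN, transpose_one]

/-- (SA1) for columns -/
theorem SAData.sa1' {ι : R →+* A} (h : SAData ι) {m n : Type*} [Fintype m] [DecidableEq m]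
    [Fintype n] [DecidableEq n] (f : n ↪ m) (k0 : m) (hk0 : ∀ i, f i ≠ k0)
    (X : Matrix m n A) {U : Set (Matrix m n A)} (hU : U ∈ 𝓝 X) :
    ∃ M : Matrix m n R, M.map ι ∈ U ∧ ∃ E : Matrix m m R, E.det = 1 ∧
      E * M = (stdMat f : Matrix n m R)ᵀ := by
  have hU' : (fun Y : Matrix n m A => Yᵀ) ⁻¹' U ∈ 𝓝 Xᵀ := by
    have hcont : Continuous (fun Y : Matrix n m A => Yᵀ) := Continuous.matrix_transpose continuous_id
    refine hcont.continuousAt.preimage_mem_nhds ?_
    rw [transpose_transpose]
    exact hU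
  obtain ⟨M, hM, E, hE, hME⟩ := h.sa1 f k0 hk0 Xᵀ hU'
  refine ⟨Mᵀ, ?_, Eᵀ, ?_, ?_⟩
  · have : (Mᵀ).map ι = (M.map ι)ᵀ := rfl
    rw [this]; exact hM
  · rw [det_transpose, hE]
  · rw [← transpose_mul, hME]

theorem det_rows_single {n : Type*} [Fintype n] [DecidableEq n] (i0 : n) (Y : Matrix n n R)
    (hY : ∀ j, j ≠ i0 → Y j = Pi.single j 1) : Y.det = Y i0 i0 := by
  have : Y = tv (Pi.single i0 1) (Y i0 - Pi.single i0 1) := by
    ext j k
    rw [tv, Matrix.add_apply, vecMulVec_apply]
    by_cases hj : j = i0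
    · subst hj
      rw [Pi.single_eq_same, one_mul, Pi.sub_apply, Matrix.one_apply, Pi.single_apply]
      by_cases hk : j = k
      · subst hk; simp
      · simp [hk, Ne.symm hk]
    · rw [hY j hj, Pi.single_eq_of_ne hj, zero_mul, add_zero, Matrix.one_apply, Pi.single_apply]
      simp [eq_comm]
  have h2 := Matrix.det_one_add_replicateCol_mul_replicateRow (ι := Unit)
    (Pi.single i0 (1 : R) : n → R) (Y i0 - Pi.single i0 1)
  rw [← Matrix.vecMulVec_eq] at h2
  rw [this, tv, h2, dotProduct_single]
  simp [vecMulVec_apply]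

/-- continuity of the inverse at units of `A` -/
def InvCont (A : Type*) [CommRing A] [TopologicalSpace A] : Prop :=
  ∀ x : A, IsUnit x → (∀ᶠ y in 𝓝 x, IsUnit y) ∧ ContinuousAt Ring.inverse x

/-- **(SA2)** a square matrix over `A` whose determinant is a nonzero element `u` of `R` is
approximated by matrices over `R` of determinant `u`. -/
theorem SAData.sa2 {ι : R →+* A} (h : SAData ι) (hinv : InvCont A) {n : Type*} [Fintype n]
    [DecidableEq n] [Nonempty n] (u : R) (hu0 : u ≠ 0) (X : Matrix n n A) (hX : X.det = ι u)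
    {U : Set (Matrix n n A)} (hU : U ∈ 𝓝 X) :
    ∃ M : Matrix n n R, M.map ι ∈ U ∧ M.det = u := by
  obtain ⟨i0⟩ := (inferInstance : Nonempty n)
  obtain ⟨V, hVU, hVo, hXV⟩ := mem_nhds_iff.mp hU
  have hunit : IsUnit (ι u) := h.unit u hu0
  -- the correction of the last row
  let dY : Matrix n n A → A := fun Y => (Y.updateRow i0 (X i0)).det
  have hdY : Continuous dY := by
    refine Continuous.matrix_det ?_
    exact Continuous.matrix_updateRow i0 continuous_id continuous_const
  have hdX : dY X = ι u := by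
    simp only [dY]
    rw [Matrix.updateRow_eq_self, hX]
  let H : Matrix n n A → Matrix n n A := fun Y =>
    Y.updateRow i0 ((ι u * Ring.inverse (dY Y)) • X i0)
  have hHX : H X = X := by
    simp only [H]
    rw [hdX, Ring.mul_inverse_cancel _ hunit, one_smul, Matrix.updateRow_eq_self]
  have hHc : ContinuousAt H X := by
    have h1 : ContinuousAt (fun Y => Ring.inverse (dY Y)) X := by
      have h2 := (hinv (ι u) hunit).2
      rw [← hdX] at h2
      exact ContinuousAt.comp (g := Ring.inverse) h2 hdY.continuousAt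
    have h3 : ContinuousAt (fun Y => (ι u * Ring.inverse (dY Y)) • X i0) X :=
      (continuousAt_const.mul h1).smul continuousAt_const
    have h4 : Continuous (fun z : Matrix n n A × (n → A) => z.1.updateRow i0 z.2) :=
      Continuous.matrix_updateRow i0 continuous_fst continuous_snd
    exact ContinuousAt.comp (g := fun z : Matrix n n A × (n → A) => z.1.updateRow i0 z.2)
      (f := fun Y => (Y, (ι u * Ring.inverse (dY Y)) • X i0)) h4.continuousAt
      (continuousAt_id.prodMk h3)
  have hU1 : H ⁻¹' V ∈ 𝓝 X := hHc.preimage_mem_nhds (by rw [hHX]; exact hVo.mem_nhds hXV)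
  have hU2 : {Y | IsUnit (dY Y)} ∈ 𝓝 X := by
    have := (hinv (ι u) hunit).1
    rw [← hdX] at this
    exact hdY.continuousAt.eventually this
  obtain ⟨M, hM, E, hE, hrows⟩ := h.core (Function.Embedding.refl n) i0 (Finset.univ.erase i0)
    (fun i hi => by
      simp only [Function.Embedding.refl_apply]
      exact (Finset.mem_erase.mp hi).1) X (Filter.inter_mem hU1 hU2)
  obtain ⟨hMV, hMu⟩ := hM
  have hEu : IsUnit E.det := by rw [hE]; exact isUnit_one
  have hEE : E⁻¹ * E = 1 := Matrix.nonsing_inv_mul E hEu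
  have hEE' : E * E⁻¹ = 1 := Matrix.mul_nonsing_inv E hEu
  have hEEm : E.map ι * (E⁻¹).map ι = 1 := by
    rw [← Matrix.map_mul, hEE', Matrix.map_one _ (map_zero ι) (map_one ι)]
  have hrow : ∀ j, j ≠ i0 → (M * E) j = Pi.single j 1 := by
    intro j hj
    have := hrows j (Finset.mem_erase.mpr ⟨hj, Finset.mem_univ j⟩)
    exact this
  -- the target row in the new basis
  set c : A := ι u * Ring.inverse (dY (M.map ι)) with hc
  set y : n → A := (c • X i0) ᵥ* E.map ι with hy
  have hyrow : y ᵥ* (E⁻¹).map ι = c • X i0 := by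
    rw [hy, vecMul_vecMul, hEEm, vecMul_one]
  have hHdet : (H (M.map ι)).det = ι u := by
    simp only [H]
    rw [det_updateRow_smul]
    change ι u * Ring.inverse (dY (M.map ι)) * dY (M.map ι) = ι u
    rw [mul_assoc, Ring.inverse_mul_cancel _ hMu, mul_one]
  have hEmdet : (E.map ι).det = 1 := by
    have := RingHom.map_det ι E
    rw [hE, map_one] at this
    exact this.symm
  have hyi0 : y i0 = ι u := by
    have h1 : (H (M.map ι) * E.map ι).det = ι u := by
      rw [det_mul, hHdet, hEmdet, mul_one]
    have h2 : ∀ j, j ≠ i0 → (H (M.map ι) * E.map ι) j = Pi.single j 1 := by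
      intro j hj
      rw [Matrix.mul_apply_eq_vecMul]
      simp only [H]
      rw [Matrix.updateRow_ne hj]
      have h3 := hrow j hj
      rw [Matrix.mul_apply_eq_vecMul] at h3
      ext k
      have h4 := congrArg ι (congrFun h3 k)
      rw [Pi.single_apply] at h4
      rw [Pi.single_apply]
      have h5 : ((M.map ι) j ᵥ* E.map ι) k = ι ((M j ᵥ* E) k) := by
        simp [vecMul, dotProduct]
      rw [h5, h4]
      split_ifs <;> simp
    rw [det_rows_single i0 _ h2] at h1
    rw [← h1, Matrix.mul_apply_eq_vecMul]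
    simp only [H]
    rw [Matrix.updateRow_self]
  -- approximate the other coordinates of `y`
  let g : (n → A) → Matrix n n A := fun z =>
    (M.map ι).updateRow i0 ((Function.update z i0 (ι u)) ᵥ* (E⁻¹).map ι)
  have hg : Continuous g := by
    refine Continuous.matrix_updateRow i0 continuous_const ?_
    refine Continuous.matrix_vecMul ?_ continuous_const
    exact Continuous.update continuous_id i0 continuous_const
  have hgy : g y ∈ V := by
    simp only [g]
    rw [← hyi0, Function.update_eq_self, hyrow]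
    exact hMV
  obtain ⟨z, hz⟩ := h.exists_vec (hg.continuousAt.preimage_mem_nhds (hVo.mem_nhds hgy))
  refine ⟨M.updateRow i0 ((Function.update z i0 u) ᵥ* E⁻¹), hVU ?_, ?_⟩
  · have : (M.updateRow i0 ((Function.update z i0 u) ᵥ* E⁻¹)).map ι = g (fun j => ι (z j)) := by
      simp only [g]
      rw [Matrix.map_updateRow]
      congr 1
      ext j
      have h6 : Function.update (fun j => ι (z j)) i0 (ι u) = fun j => ι (Function.update z i0 u j) := by
        ext k
        by_cases hk : k = i0
        · subst hk; simp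
        · simp [hk]
      rw [h6]
      simp [vecMul, dotProduct]
    rw [this]
    exact hz
  · have h7 : (M.updateRow i0 ((Function.update z i0 u) ᵥ* E⁻¹) * E).det = u := by
      rw [det_rows_single i0]
      · rw [Matrix.mul_apply_eq_vecMul, Matrix.updateRow_self, vecMul_vecMul, hEE, vecMul_one,
          Function.update_self]
      · intro j hj
        rw [Matrix.mul_apply_eq_vecMul, Matrix.updateRow_ne hj, ← Matrix.mul_apply_eq_vecMul]
        exact hrow j hj
    rwa [det_mul, hE, mul_one] at h7

/-- (SA2), version with an open set of determinants -/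
theorem SAData.sa2' {ι : R →+* A} (h : SAData ι) (hinv : InvCont A) {n : Type*} [Fintype n]
    [DecidableEq n] [Nonempty n] (X : Matrix n n A) (hX : IsUnit X.det)
    {U : Set (Matrix n n A)} (hU : U ∈ 𝓝 X) :
    ∃ W ∈ 𝓝 X.det, ∀ u : R, u ≠ 0 → ι u ∈ W →
      ∃ M : Matrix n n R, M.map ι ∈ U ∧ M.det = u := by
  obtain ⟨i0⟩ := (inferInstance : Nonempty n)
  obtain ⟨V, hVU, hVo, hXV⟩ := mem_nhds_iff.mp hU
  let G : A → Matrix n n A := fun c => X.updateRow i0 ((c * Ring.inverse X.det) • X i0)
  have hG : Continuous G := by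
    refine Continuous.matrix_updateRow i0 continuous_const ?_
    exact (continuous_id.mul continuous_const).smul continuous_const
  have hG0 : G X.det = X := by
    simp only [G]
    rw [Ring.mul_inverse_cancel _ hX, one_smul, Matrix.updateRow_eq_self]
  refine ⟨G ⁻¹' V, hG.continuousAt.preimage_mem_nhds (by rw [hG0]; exact hVo.mem_nhds hXV), ?_⟩
  intro u hu0 hu
  have hdet : (G (ι u)).det = ι u := by
    simp only [G]
    rw [det_updateRow_smul, Matrix.updateRow_eq_self, mul_assoc, Ring.inverse_mul_cancel _ hX,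
      mul_one]
  exact h.sa2 hinv u hu0 (G (ι u)) hdet (Filter.mem_of_superset (hVo.mem_nhds hu) hVU)

end Pool.Agent.DEC
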