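import Mathlib

/-!
Orders `S` (domains, free of finite rank over `ℤ`, e.g. `AdjoinRoot g`) become principal ideal
rings after inverting a suitable natural number.  No Dedekind domains, no class groups: the
elements of minimal norm do it.  Density of `n^c S` modulo nonzero ideals.
-/

open scoped nonZeroDivisors

namespace Pool.Agent.DEC

variable (S : Type*) [CommRing S] [IsDomain S] [Module.Free ℤ S] [Module.Finite ℤ S]

theorem exists_almost_gen :
    ∃ M : ℕ, 0 < M ∧ ∀ I : Ideal S, ∃ b ∈ I, ∀ a ∈ I, ∃ q : S, (M : S) * a = q * b := by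
  classical
  let bS := Module.Free.chooseBasis ℤ S
  have halg : Algebra.IsAlgebraic ℤ S := inferInstance
  let adm := AbsoluteValue.absIsAdmissible
  set P : ℤ := ∏ m ∈ ClassGroup.finsetApprox bS adm, m with hP
  have hP0 : P ≠ 0 := by
    intro h0
    have := ClassGroup.prod_finsetApprox_ne_zero bS adm
    rw [← hP, h0, map_zero] at this
    exact this rfl
  refine ⟨P.natAbs, Int.natAbs_pos.mpr hP0, fun I => ?_⟩
  by_cases hI : I = ⊥
  · refine ⟨0, I.zero_mem, fun a ha => ⟨0, ?_⟩⟩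
    rw [hI, Ideal.mem_bot] at ha
    rw [ha]; simp
  obtain ⟨b, hbI, hb0, hmin⟩ := ClassGroup.exists_min AbsoluteValue.abs
    (⟨I, mem_nonZeroDivisors_iff_ne_zero.mpr hI⟩ : (Ideal S)⁰)
  refine ⟨b, hbI, fun a ha => ?_⟩
  obtain ⟨q, r, hr, hlt⟩ := ClassGroup.exists_mem_finset_approx' bS adm a hb0
  have h0 : r • a - q * b = 0 := hmin _ (I.sub_mem (by
    rw [zsmul_eq_mul]; exact I.mul_mem_left _ ha) (I.mul_mem_left _ hbI)) hlt
  obtain ⟨t, ht⟩ : r ∣ P := Finset.dvd_prod_of_mem _ hr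
  obtain ⟨s, hs⟩ : P ∣ (P.natAbs : ℤ) := (Int.dvd_natAbs_self : P ∣ (P.natAbs : ℤ))
  refine ⟨((t * s : ℤ) : S) * q, ?_⟩
  have h1 : (r : S) * a = q * b := by
    rw [← zsmul_eq_mul]; exact sub_eq_zero.mp h0
  have h2 : ((P.natAbs : ℕ) : S) = ((r : ℤ) : S) * ((t * s : ℤ) : S) := by
    have : ((P.natAbs : ℕ) : S) = (((P.natAbs : ℕ) : ℤ) : S) := (Int.cast_natCast _).symm
    rw [this, hs, ht]
    push_cast
    ring
  rw [h2]
  calc (r : S) * ((t * s : ℤ) : S) * a = ((t * s : ℤ) : S) * ((r : S) * a) := by ring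
    _ = ((t * s : ℤ) : S) * q * b := by rw [h1]; ring

/-- **PID.** For every order `S` there is `M > 0` such that the localization of `S` at the powers
of `n` is a principal ideal ring for every multiple `n` of `M`. -/
theorem exists_isPrincipalIdealRing_away :
    ∃ M : ℕ, 0 < M ∧ ∀ n : ℕ, M ∣ n → ∀ (L : Type _) [CommRing L] [Algebra S L]
      [IsLocalization.Away (n : S) L], IsPrincipalIdealRing L := by
  obtain ⟨M, hM, h⟩ := exists_almost_gen S
  refine ⟨M, hM, ?_⟩
  intro n hn L _ _ _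
  have hnu : IsUnit (algebraMap S L (n : S)) := IsLocalization.Away.algebraMap_isUnit (n : S)
  have hMu : IsUnit (algebraMap S L (M : S)) := by
    obtain ⟨k, hk⟩ := hn
    refine isUnit_of_mul_isUnit_left (y := algebraMap S L (k : S)) ?_
    rw [← map_mul]
    rw [hk] at hnu
    push_cast at hnu ⊢
    exact hnu
  constructor
  intro J
  obtain ⟨b, hb, hgen⟩ := h (J.comap (algebraMap S L))
  refine ⟨⟨algebraMap S L b, ?_⟩⟩
  apply le_antisymm
  · intro y hy
    obtain ⟨k, a, hka⟩ := IsLocalization.Away.surj (n : S) y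
    have haJ : a ∈ J.comap (algebraMap S L) := by
      rw [Ideal.mem_comap, ← hka]
      exact J.mul_mem_right _ hy
    obtain ⟨q, hq⟩ := hgen a haJ
    obtain ⟨u, hu⟩ := hMu
    obtain ⟨v, hv⟩ := hnu
    have h1 : algebraMap S L (M : S) * algebraMap S L a = algebraMap S L q * algebraMap S L b := by
      rw [← map_mul, hq, map_mul]
    rw [Submodule.mem_span_singleton]
    refine ⟨↑(v⁻¹) ^ k * ↑(u⁻¹) * algebraMap S L q, ?_⟩
    rw [smul_eq_mul, mul_assoc, ← h1, ← hu, ← hka, ← hv]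
    have e1 : (↑(u⁻¹) : L) * ↑u = 1 := Units.inv_mul u
    have e2 : (↑(v⁻¹) : L) ^ k * (↑v) ^ k = 1 := by
      rw [← mul_pow, Units.inv_mul, one_pow]
    calc (↑(v⁻¹) : L) ^ k * ↑(u⁻¹) * (↑u * (y * (↑v) ^ k))
        = (↑(u⁻¹) * ↑u) * ((↑(v⁻¹) : L) ^ k * (↑v) ^ k) * y := by ring
      _ = y := by rw [e1, e2]; ring
  · rw [Submodule.span_le, Set.singleton_subset_iff]
    exact hb

variable {S}

/-- **Density.** `n ^ c S` and a nonzero ideal of the localization at the powers of `n` span. -/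
theorem exists_approx_away (n : ℕ) (L : Type*) [CommRing L] [Algebra S L]
    [IsLocalization.Away (n : S) L] (a : L) (ha : a ≠ 0) (c : ℕ) (x : L) :
    ∃ (y : S) (z : L), x = (n : L) ^ c * algebraMap S L y + a * z := by
  by_cases hn0 : n = 0
  · -- then `L` is trivial
    exfalso
    subst hn0
    have h0 : IsUnit (algebraMap S L ((0 : ℕ) : S)) := IsLocalization.Away.algebraMap_isUnit _
    rw [Nat.cast_zero, map_zero, isUnit_zero_iff] at h0
    exact ha (by rw [← mul_one a, ← h0, mul_zero])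
  obtain ⟨l, a0, hl⟩ := IsLocalization.Away.surj (n : S) a
  obtain ⟨k, x0, hk⟩ := IsLocalization.Away.surj (n : S) x
  have hnu : IsUnit (algebraMap S L (n : S)) := IsLocalization.Away.algebraMap_isUnit (n : S)
  obtain ⟨v, hv⟩ := hnu
  have ha0 : a0 ≠ 0 := by
    rintro rfl
    rw [map_zero, ← hv] at hl
    have : a * ((↑v : L) ^ l * (↑(v⁻¹) : L) ^ l) = 0 := by rw [← mul_assoc, hl, zero_mul]
    rw [← mul_pow, Units.mul_inv, one_pow, mul_one] at this
    exact ha this
  have hfin : Finite (S ⧸ Ideal.span {a0}) := Ideal.finiteQuotientOfFreeOfNeBot _ (by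
    rw [Ne, Ideal.span_singleton_eq_bot]; exact ha0)
  -- two equal powers of `n` modulo `a0`
  obtain ⟨i, j, hij, hpow⟩ := Finite.exists_ne_map_eq_of_infinite
    (fun i : ℕ => (Ideal.Quotient.mk (Ideal.span {a0}) ((n : S) ^ i)))
  wlog hlt : i < j generalizing i j
  · exact this j i hij.symm hpow.symm (by omega)
  obtain ⟨d, hd, rfl⟩ : ∃ d, 0 < d ∧ j = i + d := ⟨j - i, by omega, by omega⟩
  have hstep : ∀ t : ℕ, ∃ w : S, (n : S) ^ i - (n : S) ^ (i + d * t) = a0 * w := by
    intro t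
    induction t with
    | zero => exact ⟨0, by simp⟩
    | succ t ih =>
      obtain ⟨w, hw⟩ := ih
      have h1 := (Ideal.Quotient.eq.mp hpow)
      obtain ⟨w', hw'⟩ := Ideal.mem_span_singleton'.mp h1
      refine ⟨w + w' * (n : S) ^ (d * t), ?_⟩
      have e : (n : S) ^ (i + d * (t + 1)) = (n : S) ^ (i + d) * (n : S) ^ (d * t) := by
        rw [← pow_add]; congr 1; ring
      have e2 : (n : S) ^ (i + d * t) = (n : S) ^ i * (n : S) ^ (d * t) := by rw [← pow_add]
      rw [e]
      rw [e2] at hw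
      linear_combination hw + hw' * (-(n : S) ^ (d * t))
  obtain ⟨w, hw⟩ := hstep (k + c)
  have hkc : k + c ≤ d * (k + c) := Nat.le_mul_of_pos_left _ hd
  -- the approximation
  refine ⟨(n : S) ^ (d * (k + c) - (k + c)) * x0,
    (↑(v⁻¹) : L) ^ (k + i) * ((↑v : L) ^ l * algebraMap S L w) * algebraMap S L x0, ?_⟩
  have hvn : (n : L) = (↑v : L) := by rw [hv]; simp
  have e1 : (↑v : L) ^ (k + i) * (↑(v⁻¹) : L) ^ (k + i) = 1 := by
    rw [← mul_pow, Units.mul_inv, one_pow]
  have hx : x * (↑v : L) ^ k = algebraMap S L x0 := by rw [hv]; exact hk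
  have hal : a * (↑v : L) ^ l = algebraMap S L a0 := by rw [hv]; exact hl
  have hw2 : (↑v : L) ^ i - (↑v : L) ^ (i + d * (k + c)) = algebraMap S L a0 * algebraMap S L w := by
    rw [← map_mul, ← hw, hv]
    simp
  -- multiply by the unit `v ^ (k + i)`
  have hcancel : ∀ p q : L, (↑v : L) ^ (k + i) * p = (↑v : L) ^ (k + i) * q → p = q := by
    intro p q hpq
    have := congrArg (fun r => (↑(v⁻¹) : L) ^ (k + i) * r) hpq
    simp only [← mul_assoc] at this
    rw [← mul_pow, Units.inv_mul, one_pow, one_mul, one_mul] at this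
    exact this
  apply hcancel
  rw [hvn, map_mul, map_pow, ← hv]
  have e3 : (↑v : L) ^ (k + i) * x = (↑v : L) ^ i * algebraMap S L x0 := by
    rw [← hx, pow_add]; ring
  have e4 : (↑v : L) ^ (k + i) * ((↑v : L) ^ c * ((↑v : L) ^ (d * (k + c) - (k + c)) *
      algebraMap S L x0)) = (↑v : L) ^ (i + d * (k + c)) * algebraMap S L x0 := by
    rw [← mul_assoc, ← mul_assoc, ← pow_add, ← pow_add]
    congr 2
    omega
  have e5 : (↑v : L) ^ (k + i) * (a * ((↑(v⁻¹) : L) ^ (k + i) *
      ((↑v : L) ^ l * algebraMap S L w) * algebraMap S L x0))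
      = algebraMap S L a0 * algebraMap S L w * algebraMap S L x0 := by
    calc _ = ((↑v : L) ^ (k + i) * (↑(v⁻¹) : L) ^ (k + i)) * (a * (↑v : L) ^ l) *
        algebraMap S L w * algebraMap S L x0 := by ring
      _ = _ := by rw [e1, hal, one_mul]
  rw [mul_add, e3, e4, e5, ← hw2]
  ring

end Pool.Agent.DEC
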