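import Pool.Agent.DEC.DenInst
import Pool.Agent.DEC.SA
import Pool.Agent.DEC.SInt

/-!
The topology on `K` given by `Den d O D`: neighbourhoods of zero `d ^ c D`.
It makes `K` a Hausdorff topological field in which `O` is dense (`SAData`).
For an order `S` the ring `locO S K d = S[1/d]` is a principal ideal ring for suitable `d`.
-/

set_option autoImplicit false
set_option linter.unusedSectionVars false
set_option linter.style.haveILetI false

open Topology

namespace Pool.Agent.DEC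

variable {K : Type} [Field K] {d : ℕ} {O D : Subring K}

/-- the additive subgroup `d ^ c D` -/
def smSub (d : ℕ) (D : Subring K) (c : ℕ) : AddSubgroup K where
  carrier := {z | Sm d D c z}
  zero_mem' := Sm.zero c
  add_mem' := fun ha hb => ha.add hb
  neg_mem' := fun ha => ha.neg

theorem mem_smSub {c : ℕ} {z : K} : z ∈ smSub d D c ↔ Sm d D c z := Iff.rfl

theorem Den.basis (h : Den d O D) : RingSubgroupsBasis (smSub d D) := by
  refine RingSubgroupsBasis.of_comm _ ?_ ?_ ?_
  · intro i j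
    refine ⟨max i j, fun z hz => ?_⟩
    exact ⟨Sm.mono (le_max_left i j) hz, Sm.mono (le_max_right i j) hz⟩
  · intro i
    refine ⟨i, ?_⟩
    rintro _ ⟨x, hx, y, hy, rfl⟩
    obtain ⟨b, hb, rfl⟩ := hy
    exact Sm.mul_mem hx (D.mul_mem (D.pow_mem (natCast_mem D d) i) hb)
  · intro x i
    obtain ⟨k, hk⟩ := h.exh x
    refine ⟨i + k, ?_⟩
    intro y hy
    rw [Set.mem_preimage]
    have : Sm d D i (y * x) := Sm.mul hy hk
    rw [mul_comm] at this
    exact this

/-- the topology -/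
@[reducible]
def Den.top (h : Den d O D) : TopologicalSpace K := h.basis.topology

theorem Den.isTopologicalRing (h : Den d O D) : @IsTopologicalRing K h.top _ :=
  h.basis.toRingFilterBasis.isTopologicalRing

/-- dictionary: neighbourhoods -/
theorem Den.mem_nhds (h : Den d O D) (x : K) (U : Set K) :
    U ∈ @nhds K h.top x ↔ ∃ c : ℕ, ∀ z, Sm d D c (z - x) → z ∈ U := by
  rw [(h.basis.hasBasis_nhds x).mem_iff]
  simp only [true_and]
  rfl

theorem Den.sm_inter (h : Den d O D) {z : K} (hz : ∀ c, Sm d D c z) : z = 0 := by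
  by_contra hz0
  obtain ⟨k, hk⟩ := h.exh z⁻¹
  obtain ⟨w, hw, hzw⟩ := hz (k + 1)
  have hdk : (d : K) ^ k ≠ 0 := pow_ne_zero k h.dne
  have h1 : (1 : K) = (d : K) * (w * ((d : K) ^ k * z⁻¹)) := by
    have h2 : z * z⁻¹ = 1 := mul_inv_cancel₀ hz0
    calc (1 : K) = z * z⁻¹ := h2.symm
      _ = ((d : K) ^ (k + 1) * w) * z⁻¹ := by rw [← hzw]
      _ = (d : K) * (w * ((d : K) ^ k * z⁻¹)) := by ring
  obtain ⟨w', -, hw'⟩ := h.jac (-(w * ((d : K) ^ k * z⁻¹))) (D.neg_mem (D.mul_mem hw hk))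
  have h3 : (1 : K) + (d : K) * -(w * ((d : K) ^ k * z⁻¹)) = 0 := by
    rw [mul_neg, ← h1]; ring
  rw [h3, zero_mul] at hw'
  exact zero_ne_one hw'

theorem Den.t2 (h : Den d O D) : @T2Space K h.top := by
  letI := h.top
  haveI := h.isTopologicalRing
  have h1 : T1Space K := by
    apply IsTopologicalAddGroup.t1Space
    rw [← isOpen_compl_iff, isOpen_iff_mem_nhds]
    intro x hx
    rw [h.mem_nhds]
    by_contra hcon
    push Not at hcon
    apply hx
    rw [Set.mem_singleton_iff]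
    apply h.sm_inter
    intro c
    obtain ⟨z, hz, hz0⟩ := hcon c
    rw [Set.notMem_compl_iff, Set.mem_singleton_iff] at hz0
    rw [hz0, zero_sub] at hz
    have := hz.neg
    rwa [neg_neg] at this
  infer_instance

/-- `O` is dense in `K` -/
theorem Den.saData (h : Den d O D) : letI := h.top; SAData O.subtype := by
  letI := h.top
  refine ⟨?_, ?_, ?_⟩
  · intro x
    rw [mem_closure_iff_nhds]
    intro U hU
    rw [h.mem_nhds] at hU
    obtain ⟨c, hc⟩ := hU
    obtain ⟨z', hz', ⟨w, hw, hzw⟩, -⟩ := h.dens x 0 c 1 O.zero_mem one_ne_zero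
      (Nat.coprime_one_left d)
    exact ⟨z', hc z' ⟨w, hw, by rw [hzw]; ring⟩, ⟨z', hz'⟩, rfl⟩
  · intro a ha
    have : O.subtype a ≠ 0 := by
      intro h0
      exact ha (Subtype.ext h0)
    exact isUnit_iff_ne_zero.mpr this
  · intro U hU
    rw [h.mem_nhds] at hU
    obtain ⟨c, hc⟩ := hU
    refine ⟨⟨(d : K) ^ c, O.pow_mem (natCast_mem O d) c⟩, ?_, ?_⟩
    · intro h0
      exact pow_ne_zero c h.dne (congrArg Subtype.val h0)
    · exact hc _ ⟨1, D.one_mem, by simp⟩

theorem Den.invCont (h : Den d O D) : letI := h.top; InvCont K := by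
  letI := h.top
  intro x hx
  have hx0 : x ≠ 0 := hx.ne_zero
  obtain ⟨k, hk⟩ := h.exh x⁻¹
  have key : ∀ (c : ℕ) (y : K), Sm d D (k + 1 + (c + k)) (y - x) →
      y ≠ 0 ∧ Sm d D c (y⁻¹ - x⁻¹) := by
    rintro c y ⟨w, hw, hyw⟩
    set z : K := (d : K) ^ (c + k) * (w * ((d : K) ^ k * x⁻¹)) with hz
    have hzD : z ∈ D := D.mul_mem (D.pow_mem (natCast_mem D d) _) (D.mul_mem hw hk)
    obtain ⟨w', hw', hww⟩ := h.jac z hzD
    have hy : y = x * (1 + (d : K) * z) := by
      have h1 : y = x + (d : K) ^ (k + 1 + (c + k)) * w := by rw [← hyw]; ring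
      rw [h1, hz]
      have h2 : x * x⁻¹ = 1 := mul_inv_cancel₀ hx0
      calc x + (d : K) ^ (k + 1 + (c + k)) * w
          = x + (x * x⁻¹) * ((d : K) ^ (k + 1 + (c + k)) * w) := by rw [h2, one_mul]
        _ = _ := by ring
    have hu0 : 1 + (d : K) * z ≠ 0 := by
      intro h0
      rw [h0, zero_mul] at hww
      exact zero_ne_one hww
    refine ⟨by rw [hy]; exact mul_ne_zero hx0 hu0, ?_⟩
    have hinv : (1 + (d : K) * z)⁻¹ = w' := by
      rw [inv_eq_iff_eq_inv]
      exact eq_inv_of_mul_eq_one_left hww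
    have h3 : y⁻¹ - x⁻¹ = (d : K) ^ c * (-((d : K) * (w * ((d : K) ^ k * x⁻¹)) * w' *
        ((d : K) ^ k * x⁻¹))) := by
      have h4 : w' - 1 = -((d : K) * z * w') := by
        have : w' * (1 + (d : K) * z) = 1 := by rw [mul_comm]; exact hww
        linear_combination this
      rw [hy, mul_inv, hinv]
      calc x⁻¹ * w' - x⁻¹ = x⁻¹ * (w' - 1) := by ring
        _ = x⁻¹ * (-((d : K) * z * w')) := by rw [h4]
        _ = _ := by rw [hz]; ring
    refine ⟨_, ?_, h3⟩
    exact D.neg_mem (D.mul_mem (D.mul_mem (D.mul_mem (natCast_mem D d) (D.mul_mem hw hk)) hw') hk)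
  refine ⟨?_, ?_⟩
  · rw [Filter.Eventually, h.mem_nhds]
    exact ⟨k + 1 + (0 + k), fun y hy => isUnit_iff_ne_zero.mpr (key 0 y hy).1⟩
  · rw [Ring.inverse_eq_inv']
    intro U hU
    rw [h.mem_nhds] at hU
    obtain ⟨c, hc⟩ := hU
    rw [Filter.mem_map, h.mem_nhds]
    exact ⟨k + 1 + (c + k), fun y hy => hc _ (key c y hy).2⟩

section order

variable (S K : Type) [CommRing S] [IsDomain S] [Module.Free ℤ S] [Module.Finite ℤ S]
  [Field K] [Algebra S K] [IsFractionRing S K] (d : ℕ)

/-- `S → S[1/d]` -/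
def toLocO : S →+* locO S K d :=
  (algebraMap S K).codRestrict (locO S K d) (fun s => algebraMap_mem_locO s)

@[reducible]
def locOAlgebra : Algebra S (locO S K d) := (toLocO S K d).toAlgebra

theorem locO_isLocalization (hd : d ≠ 0) :
    letI := locOAlgebra S K d; IsLocalization.Away (d : S) (locO S K d) := by
  letI := locOAlgebra S K d
  have hcz : CharZero K := charZeroK S K
  have hdK : (d : K) ≠ 0 := Nat.cast_ne_zero.mpr hd
  have hval : ∀ s : S, ((algebraMap S (locO S K d) s : locO S K d) : K) = algebraMap S K s :=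
    fun s => rfl
  refine ⟨?_, ?_, ?_⟩
  · rintro ⟨_, k, rfl⟩
    have hmem : ((d : K) ^ k)⁻¹ ∈ locO S K d := ⟨k, 1, by
      rw [mul_inv_cancel₀ (pow_ne_zero k hdK), map_one]⟩
    refine IsUnit.of_mul_eq_one ⟨((d : K) ^ k)⁻¹, hmem⟩ ?_
    apply Subtype.ext
    change algebraMap S K ((d : S) ^ k) * ((d : K) ^ k)⁻¹ = 1
    rw [map_pow, map_natCast, mul_inv_cancel₀ (pow_ne_zero k hdK)]
  · rintro ⟨z, k, s, hs⟩
    refine ⟨(s, ⟨(d : S) ^ k, k, rfl⟩), ?_⟩
    apply Subtype.ext
    change z * algebraMap S K ((d : S) ^ k) = algebraMap S K s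
    rw [map_pow, map_natCast, ← hs, mul_comm]
  · intro x y hxy
    refine ⟨1, ?_⟩
    have : algebraMap S K x = algebraMap S K y := by
      rw [← hval x, ← hval y, hxy]
    rw [IsFractionRing.injective S K this]

/-- `S[1/d]` is a principal ideal ring for all multiples `d` of some `M` -/
theorem exists_pid_locO : ∃ M : ℕ, 0 < M ∧ ∀ d : ℕ, d ≠ 0 → M ∣ d →
    IsPrincipalIdealRing (locO S K d) := by
  obtain ⟨M, hM, h⟩ := exists_isPrincipalIdealRing_away S
  refine ⟨M, hM, fun d hd hMd => ?_⟩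
  letI := locOAlgebra S K d
  haveI := locO_isLocalization S K d hd
  exact h d hMd (locO S K d)

/-- `K` is the field of fractions of `S[1/d]` -/
theorem locO_isFractionRing : IsFractionRing (locO S K d) K := by
  refine ⟨?_, ?_, ?_⟩
  · rintro ⟨y, hy⟩
    have : (y : K) ≠ 0 := by
      intro h0
      exact nonZeroDivisors.ne_zero hy (Subtype.ext h0)
    exact isUnit_iff_ne_zero.mpr this
  · intro z
    obtain ⟨x, y, hy, rfl⟩ := IsFractionRing.div_surjective (A := S) z
    have hyK : algebraMap S K y ≠ 0 := by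
      rw [Ne, IsFractionRing.to_map_eq_zero_iff]; exact nonZeroDivisors.ne_zero hy
    refine ⟨(⟨algebraMap S K x, algebraMap_mem_locO x⟩,
      ⟨⟨algebraMap S K y, algebraMap_mem_locO y⟩, ?_⟩), ?_⟩
    · rw [mem_nonZeroDivisors_iff_ne_zero]
      intro h0
      exact hyK (congrArg Subtype.val h0)
    · change algebraMap S K x / algebraMap S K y * algebraMap S K y = algebraMap S K x
      field_simp
  · intro x y hxy
    refine ⟨1, ?_⟩
    have : (x : K) = (y : K) := hxy
    rw [Subtype.ext this]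

end order

end Pool.Agent.DEC
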