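import Pool.Agent.DEC.State

/-!
States, section 2 (S3) of `dec_general.md`: injectivity of `RM` and of the matrices `SigM`,
surjectivity of `MM` and of the matrices `TM`.
-/

set_option autoImplicit false
set_option linter.unusedSectionVars false

open Matrix

namespace Pool.Agent.DEC

section basic

variable {R I α β γ : Type} [CommRing R] [Fintype I] [DecidableEq I]

/-- powers of a matrix which raises degrees -/
theorem stb_pow {deg : I → ℕ} {C : Matrix I I R} (hC : ∀ p q, deg p ≤ deg q → C p q = 0) (n : ℕ) :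
    ∀ p q, deg p < deg q + n → (C ^ n) p q = 0 := by
  induction n with
  | zero =>
    intro p q h
    have hne : p ≠ q := by rintro rfl; omega
    rw [pow_zero, Matrix.one_apply_ne hne]
  | succ n ih =>
    intro p q h
    rw [pow_succ, Matrix.mul_apply]
    refine Finset.sum_eq_zero fun r _ => ?_
    by_cases h1 : deg p < deg r + n
    · rw [ih p r h1, zero_mul]
    · rw [hC r q (by omega), mul_zero]

/-- a row which sees only degrees below `m`, multiplied by a power -/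
theorem stb_row {deg : I → ℕ} {C : Matrix I I R} (hC : ∀ p q, deg p ≤ deg q → C p q = 0)
    {f : Matrix γ I R} {c : γ} {m : ℕ} (hf : ∀ q, m ≤ deg q → f c q = 0) (n : ℕ) (q : I)
    (h : m ≤ deg q + n) : (f * C ^ n) c q = 0 := by
  rw [Matrix.mul_apply]
  refine Finset.sum_eq_zero fun r _ => ?_
  by_cases h1 : m ≤ deg r
  · rw [hf r h1, zero_mul]
  · rw [stb_pow hC n r q (by omega), mul_zero]

theorem stb_evM_apply (h : γ → ℕ) (f : Matrix γ I R) (C : Matrix I I R) (z : I → R)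
    (ci : Blk h) : (evM h f C *ᵥ z) ci = ((f * C ^ (h ci.1 - 1 - (ci.2 : ℕ))) *ᵥ z) ci.1 := rfl

/-- the map to the blocks is equivariant -/
theorem stb_equiv {h : γ → ℕ} {deg : I → ℕ} {C : Matrix I I R} {f : Matrix γ I R}
    (hC : ∀ p q, deg p ≤ deg q → C p q = 0) (hf : ∀ c q, h c ≤ deg q → f c q = 0) (z : I → R) :
    evM h f C *ᵥ (C *ᵥ z) = yL h (evM h f C *ᵥ z) := by
  funext ci
  obtain ⟨c, i⟩ := ci
  rw [stb_evM_apply, Matrix.mulVec_mulVec, Matrix.mul_assoc, ← pow_succ]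
  show _ = if hi : 0 < (i : ℕ) then (evM h f C *ᵥ z) ⟨c, ⟨i - 1, by omega⟩⟩ else 0
  split_ifs with hi
  · rw [stb_evM_apply]
    have e : h c - 1 - (i : ℕ) + 1 = h c - 1 - ((i : ℕ) - 1) := by
      have := i.2
      omega
    simp only
    rw [e]
  · rw [Matrix.mulVec, dotProduct]
    refine Finset.sum_eq_zero fun q _ => ?_
    simp only
    rw [stb_row hC (hf c) _ q (by have := i.2; omega), zero_mul]

/-- iterated form -/
theorem stb_equiv_pow {h : γ → ℕ} {deg : I → ℕ} {C : Matrix I I R} {f : Matrix γ I R}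
    (hC : ∀ p q, deg p ≤ deg q → C p q = 0) (hf : ∀ c q, h c ≤ deg q → f c q = 0) (n : ℕ)
    (z : I → R) : evM h f C *ᵥ ((C ^ n) *ᵥ z) = ((yL h) ^ n) (evM h f C *ᵥ z) := by
  induction n with
  | zero => simp
  | succ n ih =>
    rw [pow_succ', ← Matrix.mulVec_mulVec, stb_equiv hC hf, ih, pow_succ', Module.End.mul_apply]

/-- the powers of `y` -/
theorem stb_yL_pow (h : γ → ℕ) (n : ℕ) : ∀ (v : Blk h → R) (c : γ) (i : Fin (h c)),
    ((yL h) ^ n) v ⟨c, i⟩ = if hi : n ≤ (i : ℕ) then v ⟨c, ⟨i - n, by omega⟩⟩ else 0 := by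
  induction n with
  | zero => intro v c i; simp
  | succ n ih =>
    intro v c i
    rw [pow_succ', Module.End.mul_apply]
    show (if hi : 0 < (i : ℕ) then (((yL h) ^ n) v) ⟨c, ⟨i - 1, by omega⟩⟩ else 0) = _
    by_cases h1 : n + 1 ≤ (i : ℕ)
    · rw [dif_pos (by omega), dif_pos h1, ih, dif_pos (by simp only; omega)]
      congr 2
      ext
      simp only
      omega
    · rw [dif_neg h1]
      by_cases h2 : 0 < (i : ℕ)
      · rw [dif_pos h2, ih, dif_neg (by simp only; omega)]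
      · rw [dif_neg h2]

/-- extension by zero -/
def stb_ext {p : I → Prop} [DecidablePred p] (z : {q : I // p q} → R) (q : I) : R :=
  if h : p q then z ⟨q, h⟩ else 0

theorem stb_ext_mem {p : I → Prop} [DecidablePred p] (z : {q : I // p q} → R) (q : {q : I // p q}) :
    stb_ext z q.1 = z q := by
  unfold stb_ext
  rw [dif_pos q.2]

theorem stb_ext_not {p : I → Prop} [DecidablePred p] (z : {q : I // p q} → R) {q : I}
    (h : ¬ p q) : stb_ext z q = 0 := dif_neg h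

/-- sums over all indices and over a subtype -/
theorem stb_sum {p : I → Prop} [DecidablePred p] (g z : I → R) (hz : ∀ q, ¬ p q → g q * z q = 0) :
    ∑ q, g q * z q = ∑ q : {q : I // p q}, g q.1 * z q.1 := by
  rw [← Finset.sum_subtype (Finset.univ.filter p) (fun x => by simp) (fun q => g q * z q)]
  rw [Finset.sum_filter]
  refine Finset.sum_congr rfl fun q _ => ?_
  split_ifs with h
  · rfl
  · exact hz q h

end basic

section state

variable {R I α β : Type} [CommRing R] [Fintype I] [DecidableEq I] {σ : Shp I α β} {s : RSt R I α β}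

theorem stb_RM_last (σ : Shp I α β) (s : RSt R I α β) (z : I → R) (a : α) (ha : σ.lam a - 1 < σ.lam a) :
    (RM σ s *ᵥ z) ⟨a, ⟨σ.lam a - 1, ha⟩⟩ = (s.2.1 *ᵥ z) a := by
  show (evM σ.lam s.2.1 s.1 *ᵥ z) _ = _
  rw [stb_evM_apply]
  simp only [Nat.sub_self, pow_zero, Matrix.mul_one]

theorem stb_C_mem (hs : IsSt σ s) {j : ℕ} {z : I → R} (hz : ∀ q, σ.deg q < j → z q = 0) :
    ∀ q, σ.deg q < j + 1 → (s.1 *ᵥ z) q = 0 := by
  intro q hq
  rw [Matrix.mulVec, dotProduct]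
  refine Finset.sum_eq_zero fun r _ => ?_
  by_cases h : σ.deg r < j
  · rw [hz r h, mul_zero]
  · rw [hs.c q r (by omega), zero_mul]

theorem stb_Cpow_mem (hs : IsSt σ s) (z : I → R) (j : ℕ) :
    ∀ q, σ.deg q < j → ((s.1 ^ j) *ᵥ z) q = 0 := by
  induction j with
  | zero => intro q hq; omega
  | succ j ih =>
    rw [pow_succ', ← Matrix.mulVec_mulVec]
    exact stb_C_mem hs ih

/-- `SigM` applied to the restriction of a vector in `E_j` -/
theorem stb_Sig_apply (j : ℕ) {z : I → R} (hz : ∀ q, σ.deg q < j → z q = 0) :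
    SigM σ s j *ᵥ (fun q => z q.1) =
      Sum.elim (fun p => (s.1 *ᵥ z) p.1) (fun a => (s.2.1 *ᵥ z) a.1) := by
  have h1 : ∀ g : I → R, ∀ q, ¬ j ≤ σ.deg q → g q * z q = 0 := fun g q hq => by
    rw [hz q (by omega), mul_zero]
  funext x
  rcases x with p | a
  · exact (stb_sum (s.1 p.1) z (h1 _)).symm
  · exact (stb_sum (s.2.1 a.1) z (h1 _)).symm

theorem RM_left_of_SigM [Fintype α] (hs : IsSt σ s)
    (h : ∀ j, ∃ Y : Matrix {q : I // j ≤ σ.deg q}
      ({p : I // j + 1 ≤ σ.deg p} ⊕ {a : α // j + 1 ≤ σ.lam a}) R, Y * SigM σ s j = 1) :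
    ∃ Y : Matrix I (Blk σ.lam) R, Y * RM σ s = 1 := by
  classical
  have hbd : ∃ N, ∀ q, σ.deg q < N :=
    ⟨Finset.univ.sup σ.deg + 1, fun q => Nat.lt_succ_of_le (Finset.le_sup (Finset.mem_univ q))⟩
  obtain ⟨N, hN⟩ := hbd
  have key : ∀ n j : ℕ, N ≤ j + n → ∃ L : (Blk σ.lam → R) →ₗ[R] (I → R), ∀ z : I → R,
      (∀ q, σ.deg q < j → z q = 0) → L (RM σ s *ᵥ z) = z := by
    intro n
    induction n with
    | zero =>
      intro j hj
      refine ⟨0, fun z hz => ?_⟩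
      funext q
      rw [hz q (lt_of_lt_of_le (hN q) (by omega))]
      rfl
    | succ n ih =>
      intro j hj
      obtain ⟨L, hL⟩ := ih (j + 1) (by omega)
      obtain ⟨Y, hY⟩ := h j
      let S : (Blk σ.lam → R) →ₗ[R]
          (({p : I // j + 1 ≤ σ.deg p} ⊕ {a : α // j + 1 ≤ σ.lam a}) → R) :=
        LinearMap.pi (Sum.elim (fun p => LinearMap.proj p.1 ∘ₗ L ∘ₗ yL σ.lam)
          (fun a => LinearMap.proj ⟨a.1, ⟨σ.lam a.1 - 1, by have := a.2; omega⟩⟩))
      let L' : (Blk σ.lam → R) →ₗ[R] (I → R) :=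
        LinearMap.pi (fun q => if hq : j ≤ σ.deg q then
          LinearMap.proj (⟨q, hq⟩ : {q : I // j ≤ σ.deg q}) ∘ₗ (Matrix.mulVecLin Y) ∘ₗ S else 0)
      refine ⟨L', fun z hz => ?_⟩
      have hS : S (RM σ s *ᵥ z) = SigM σ s j *ᵥ (fun q => z q.1) := by
        rw [stb_Sig_apply j hz]
        funext x
        rcases x with p | a
        · show L (yL σ.lam (RM σ s *ᵥ z)) p.1 = (s.1 *ᵥ z) p.1
          have h1 : yL σ.lam (RM σ s *ᵥ z) = RM σ s *ᵥ (s.1 *ᵥ z) :=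
            (stb_equiv hs.c hs.rho z).symm
          rw [h1, hL _ (stb_C_mem hs hz)]
        · exact stb_RM_last σ s z a.1 _
      funext q
      show (if hq : j ≤ σ.deg q then
        LinearMap.proj (⟨q, hq⟩ : {q : I // j ≤ σ.deg q}) ∘ₗ (Matrix.mulVecLin Y) ∘ₗ S else 0 :
          (Blk σ.lam → R) →ₗ[R] R) (RM σ s *ᵥ z) = z q
      split_ifs with hq
      · show (Y *ᵥ (S (RM σ s *ᵥ z))) ⟨q, hq⟩ = z q
        rw [hS, Matrix.mulVec_mulVec, hY, Matrix.one_mulVec]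
      · rw [hz q (by omega)]
        rfl
  obtain ⟨L, hL⟩ := key N 0 (by omega)
  refine ⟨LinearMap.toMatrix' L, ?_⟩
  have h1 : L ∘ₗ Matrix.toLin' (RM σ s) = LinearMap.id := by
    refine LinearMap.ext fun z => ?_
    exact hL z fun q hq => absurd hq (by omega)
  have h2 := congrArg LinearMap.toMatrix' h1
  rwa [LinearMap.toMatrix'_comp, LinearMap.toMatrix'_toLin', LinearMap.toMatrix'_id] at h2

theorem TM_right_of_MM [Fintype β] [DecidableEq β] (hs : IsSt σ s)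
    (h : ∃ Y : Matrix I (Blk σ.mu) R, MM σ s * Y = 1) (j : ℕ) :
    ∃ Y : Matrix {q : I // σ.deg q = j} {b : β // j + 1 ≤ σ.mu b} R, TM σ s j * Y = 1 := by
  rw [← Matrix.mulVec_surjective_iff_exists_right_inverse] at h ⊢
  intro w
  obtain ⟨z, hz⟩ := h (fun bi => if hb : j + 1 ≤ σ.mu bi.1 then
    (if (bi.2 : ℕ) = 0 then w ⟨bi.1, hb⟩ else 0) else 0)
  refine ⟨fun q => ((s.1 ^ j) *ᵥ z) q.1, ?_⟩
  funext b
  have e1 := congrFun (stb_equiv_pow hs.c hs.tau j z) ⟨b.1, ⟨j, b.2⟩⟩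
  have e2 : evM σ.mu s.2.2 s.1 *ᵥ z = MM σ s *ᵥ z := rfl
  rw [e2, hz, stb_yL_pow, dif_pos (by simp), stb_evM_apply] at e1
  simp only [Nat.sub_self, if_true] at e1
  rw [dif_pos b.2] at e1
  rw [← e1]
  show ∑ q : {q : I // σ.deg q = j}, (s.2.2 * s.1 ^ (σ.mu b.1 - 1 - j)) b.1 q.1 *
    ((s.1 ^ j) *ᵥ z) q.1 = ∑ q, (s.2.2 * s.1 ^ (σ.mu b.1 - 1 - j)) b.1 q * ((s.1 ^ j) *ᵥ z) q
  refine (stb_sum ((s.2.2 * s.1 ^ (σ.mu b.1 - 1 - j)) b.1) ((s.1 ^ j) *ᵥ z) fun q hq => ?_).symm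
  by_cases h1 : σ.deg q < j
  · rw [stb_Cpow_mem hs z j q h1, mul_zero]
  · rw [stb_row hs.c (hs.tau b.1) _ q (by have := b.2; omega), zero_mul]

theorem MM_right_of_TM [Fintype β] [DecidableEq β] (hs : IsSt σ s) (hmu : ∀ b, 1 ≤ σ.mu b)
    (h : ∃ Y : Matrix {q : I // σ.deg q = 0} {b : β // 0 + 1 ≤ σ.mu b} R, TM σ s 0 * Y = 1) :
    ∃ Y : Matrix I (Blk σ.mu) R, MM σ s * Y = 1 := by
  rw [← Matrix.mulVec_surjective_iff_exists_right_inverse] at h ⊢
  have step : ∀ w : Blk σ.mu → R, ∃ (z : I → R) (w' : Blk σ.mu → R),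
      w = MM σ s *ᵥ z + yL σ.mu w' := by
    intro w
    obtain ⟨z0, hz0⟩ := h (fun b => w ⟨b.1, ⟨0, hmu b.1⟩⟩)
    let z : I → R := stb_ext z0
    refine ⟨z, fun bi => if hi : (bi.2 : ℕ) + 1 < σ.mu bi.1 then
      w ⟨bi.1, ⟨bi.2 + 1, hi⟩⟩ - (MM σ s *ᵥ z) ⟨bi.1, ⟨bi.2 + 1, hi⟩⟩ else 0, ?_⟩
    funext bi
    obtain ⟨b, i⟩ := bi
    show w ⟨b, i⟩ = (MM σ s *ᵥ z) ⟨b, i⟩ + (if hi : 0 < (i : ℕ) then
      (if hi : (i : ℕ) - 1 + 1 < σ.mu b then
      w ⟨b, ⟨(i : ℕ) - 1 + 1, hi⟩⟩ - (MM σ s *ᵥ z) ⟨b, ⟨(i : ℕ) - 1 + 1, hi⟩⟩ else 0) else 0)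
    by_cases hi : 0 < (i : ℕ)
    · have h1 : (i : ℕ) - 1 + 1 < σ.mu b := by have := i.2; omega
      rw [dif_pos hi, dif_pos h1]
      have h2 : (⟨(i : ℕ) - 1 + 1, h1⟩ : Fin (σ.mu b)) = i := by
        ext
        simp only
        omega
      rw [h2]
      ring
    · have h0 : i = ⟨0, hmu b⟩ := by
        ext
        simp only
        omega
      subst h0
      rw [dif_neg hi, add_zero]
      have e := congrFun hz0 ⟨b, hmu b⟩
      simp only at e
      rw [← e]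
      show ∑ q : {q : I // σ.deg q = 0}, (s.2.2 * s.1 ^ (σ.mu b - 1 - 0)) b q.1 * z0 q =
        ∑ q, (s.2.2 * s.1 ^ (σ.mu b - 1 - 0)) b q * z q
      rw [stb_sum ((s.2.2 * s.1 ^ (σ.mu b - 1 - 0)) b) z (p := fun q => σ.deg q = 0)]
      · refine Finset.sum_congr rfl fun q _ => ?_
        rw [show z q.1 = z0 q from stb_ext_mem z0 q]
      · intro q hq
        rw [show z q = 0 from stb_ext_not z0 hq, mul_zero]
  have iter : ∀ (n : ℕ) (w : Blk σ.mu → R), ∃ (z : I → R) (w' : Blk σ.mu → R),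
      w = MM σ s *ᵥ z + ((yL σ.mu) ^ n) w' := by
    intro n
    induction n with
    | zero => intro w; exact ⟨0, w, by simp⟩
    | succ n ih =>
      intro w
      obtain ⟨z, w', hw⟩ := ih w
      obtain ⟨z', w'', hw'⟩ := step w'
      refine ⟨z + (s.1 ^ n) *ᵥ z', w'', ?_⟩
      have e1 : MM σ s *ᵥ ((s.1 ^ n) *ᵥ z') = ((yL σ.mu) ^ n) (MM σ s *ᵥ z') :=
        stb_equiv_pow hs.c hs.tau n z'
      rw [Matrix.mulVec_add, e1, hw, pow_succ, Module.End.mul_apply, add_assoc, ← map_add, ← hw']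
  intro w
  have hbd : ∃ N, ∀ b, σ.mu b ≤ N :=
    ⟨Finset.univ.sup σ.mu, fun b => Finset.le_sup (Finset.mem_univ b)⟩
  obtain ⟨N, hN⟩ := hbd
  obtain ⟨z, w', hw⟩ := iter N w
  refine ⟨z, ?_⟩
  have h0 : ((yL σ.mu) ^ N) w' = 0 := by
    funext bi
    obtain ⟨b, i⟩ := bi
    rw [stb_yL_pow, dif_neg (by have := i.2; have := hN b; omega)]
    rfl
  rw [hw, h0, add_zero]

end state

section field

variable {K I α β : Type} [Field K] [Fintype I] [DecidableEq I] {σ : Shp I α β} {s : RSt K I α β}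

/-- an injective matrix over a field has a left inverse -/
theorem stb_left_of_inj {m n : Type} [Fintype m] [Fintype n] [DecidableEq n] (M : Matrix m n K)
    (h : ∀ z, M *ᵥ z = 0 → z = 0) : ∃ Y : Matrix n m K, Y * M = 1 := by
  classical
  obtain ⟨g, hg⟩ := (Matrix.toLin' M).exists_leftInverse_of_injective
    (LinearMap.ker_eq_bot'.2 h)
  refine ⟨LinearMap.toMatrix' g, ?_⟩
  have h2 := congrArg LinearMap.toMatrix' hg
  rwa [LinearMap.toMatrix'_comp, LinearMap.toMatrix'_toLin', LinearMap.toMatrix'_id] at h2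

theorem SigM_left_of_RM [Fintype α] (hs : IsSt σ s)
    (h : ∃ Y : Matrix I (Blk σ.lam) K, Y * RM σ s = 1) (j : ℕ) :
    ∃ Y : Matrix {q : I // j ≤ σ.deg q}
      ({p : I // j + 1 ≤ σ.deg p} ⊕ {a : α // j + 1 ≤ σ.lam a}) K, Y * SigM σ s j = 1 := by
  obtain ⟨Y, hY⟩ := h
  have hinj : ∀ z, RM σ s *ᵥ z = 0 → z = 0 := fun z hz => by
    rw [← Matrix.one_mulVec z, ← hY, ← Matrix.mulVec_mulVec, hz, Matrix.mulVec_zero]
  refine stb_left_of_inj _ fun z0 hz0 => ?_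
  let z : I → K := stb_ext z0
  have hz : ∀ q, σ.deg q < j → z q = 0 := fun q hq => stb_ext_not z0 (by omega)
  have hr : (fun q : {q : I // j ≤ σ.deg q} => z q.1) = z0 := funext fun q => stb_ext_mem z0 q
  have e1 := stb_Sig_apply (s := s) j hz
  rw [hr, hz0] at e1
  have hC : s.1 *ᵥ z = 0 := by
    funext p
    by_cases hp : j + 1 ≤ σ.deg p
    · exact (congrFun e1 (Sum.inl ⟨p, hp⟩)).symm
    · exact stb_C_mem hs hz p (by omega)
  have hrho : s.2.1 *ᵥ z = 0 := by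
    funext a
    by_cases ha : j + 1 ≤ σ.lam a
    · exact (congrFun e1 (Sum.inr ⟨a, ha⟩)).symm
    · rw [Matrix.mulVec, dotProduct]
      refine Finset.sum_eq_zero fun q _ => ?_
      by_cases hq : σ.deg q < j
      · rw [hz q hq, mul_zero]
      · rw [hs.rho a q (by omega), zero_mul]
  have hR : RM σ s *ᵥ z = 0 := by
    funext ai
    show (evM σ.lam s.2.1 s.1 *ᵥ z) ai = 0
    rw [stb_evM_apply]
    rcases Nat.eq_zero_or_pos (σ.lam ai.1 - 1 - (ai.2 : ℕ)) with h0 | h0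
    · rw [h0, pow_zero, Matrix.mul_one, hrho]
      rfl
    · obtain ⟨n, hn⟩ : ∃ n, σ.lam ai.1 - 1 - (ai.2 : ℕ) = n + 1 := ⟨_, (Nat.succ_pred_eq_of_pos h0).symm⟩
      rw [hn, pow_succ, ← Matrix.mul_assoc, ← Matrix.mulVec_mulVec, hC, Matrix.mulVec_zero]
      rfl
  have h3 := hinj z hR
  rw [← hr, h3]
  rfl

end field

section inv

variable {α β I : Type} [Fintype I] [DecidableEq I] {σ : Shp I α β}

/-- (S3) (a) -/
theorem SigM_LInv {K : Type} [Field K] {s : RSt K I α β} [Fintype α] (hs : IsSt σ s)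
    (h : LInv (RM σ s)) (j : ℕ) : LInv (SigM σ s j) :=
  SigM_left_of_RM hs h j

/-- (S3) (b) -/
theorem RM_LInv {R : Type} [CommRing R] {s : RSt R I α β} [Fintype α] (hs : IsSt σ s)
    (h : ∀ j, LInv (SigM σ s j)) : LInv (RM σ s) :=
  RM_left_of_SigM hs h

/-- (S3) (c) -/
theorem TM_RInv {R : Type} [CommRing R] {s : RSt R I α β} [Fintype β] [DecidableEq β]
    (hs : IsSt σ s) (h : RInv (MM σ s)) (j : ℕ) : RInv (TM σ s j) :=
  TM_right_of_MM hs h j

/-- (S3) (d) -/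
theorem MM_RInv {R : Type} [CommRing R] {s : RSt R I α β} [Fintype β] [DecidableEq β]
    (hs : IsSt σ s) (hmu : ∀ b, 1 ≤ σ.mu b) (h : RInv (TM σ s 0)) : RInv (MM σ s) :=
  MM_right_of_TM hs hmu h

end inv

end Pool.Agent.DEC
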