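import Pool.Agent.DEC.MF
import Pool.Agent.DEC.StateB
import Pool.Agent.DEC.StateC
import Pool.Agent.DEC.DenTop

/-!
# DEC, block ST3: several fields, the condition localised at `n`

In the types of `MF.lean`. `D i` are subrings of `K i` (`n ^ c D i` the neighbourhoods of zero).

* `LocTop.loc_of_close` : `LOC` is kept by states near `s` (no topology).
* `open_loc` : (U1), one component moving, in the topology `(hD i0).top`.
* `LocTop.loc_bc`, `LocTop.update_bc`, `LocTop.scale`, `LocTop.update_scT` : (U2), (U4).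
* `LocTop.of_inv`, `LocTop.glueA` : (L4).
-/

set_option autoImplicit false
set_option linter.unusedSectionVars false
set_option linter.style.haveILetI false

open Topology Matrix

namespace Pool.Agent.DEC.LocTop

open Pool.Agent.DEC

section maps

variable {ι : Type} {K : ι → Type} [∀ i, Field (K i)] [∀ i, Algebra ℚ (K i)]
  {I J X : ι → Type} [∀ i, Fintype (I i)] [∀ i, Fintype (J i)]

theorem mmap_apply (M : ∀ i, Matrix (X i) (I i) (K i)) (z : ∀ i, I i → K i) (i : ι) :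
    mmap M z i = M i *ᵥ z i := rfl

theorem mmap_comp (M : ∀ i, Matrix (X i) (I i) (K i)) (N : ∀ i, Matrix (I i) (J i) (K i)) :
    mmap M ∘ₗ mmap N = mmap fun i => M i * N i := by
  apply LinearMap.ext
  intro z
  funext i
  rw [LinearMap.comp_apply, mmap_apply, mmap_apply, mmap_apply, mulVec_mulVec]

theorem mmap_surjective [∀ i, Fintype (X i)] [∀ i, DecidableEq (X i)]
    {M : ∀ i, Matrix (X i) (I i) (K i)} (h : ∀ i, RInv (M i)) : Function.Surjective (mmap M) := by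
  choose Y hY using h
  intro w
  refine ⟨mmap Y w, ?_⟩
  funext i
  rw [mmap_apply, mmap_apply, mulVec_mulVec, hY, one_mulVec]

theorem mmap_injective [∀ i, Fintype (X i)] [∀ i, DecidableEq (I i)]
    {M : ∀ i, Matrix (X i) (I i) (K i)} (h : ∀ i, LInv (M i)) : Function.Injective (mmap M) := by
  choose Y hY using h
  intro z z' hz
  funext i
  have h1 := congrFun hz i
  rw [mmap_apply, mmap_apply] at h1
  have h2 := congrArg (fun v => Y i *ᵥ v) h1
  simpa only [mulVec_mulVec, hY, one_mulVec] using h2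

/-- the families with coordinates in `D i` -/
def boxD (D : ∀ i, Subring (K i)) (X : ι → Type) : AddSubgroup (∀ i, X i → K i) where
  carrier := {v | ∀ i c, v i c ∈ D i}
  zero_mem' := fun i _ => (D i).zero_mem
  add_mem' := fun ha hb i c => (D i).add_mem (ha i c) (hb i c)
  neg_mem' := fun ha i c => (D i).neg_mem (ha i c)

theorem mem_boxD {D : ∀ i, Subring (K i)} {v : ∀ i, X i → K i} :
    v ∈ boxD D X ↔ ∀ i c, v i c ∈ D i := Iff.rfl

theorem nsmul_apply' (k : ℕ) (v : ∀ i, X i → K i) (i : ι) (c : X i) :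
    (k • v) i c = (k : K i) * v i c := by
  rw [Pi.smul_apply, Pi.smul_apply, nsmul_eq_mul]

theorem mmap_box {D : ∀ i, Subring (K i)} {n l : ℕ} {M : ∀ i, Matrix (X i) (I i) (K i)}
    (hM : ∀ i a b, (n : K i) ^ l * M i a b ∈ D i) {z : ∀ i, I i → K i} (hz : z ∈ boxD D I) :
    n ^ l • mmap M z ∈ boxD D X := by
  intro i c
  rw [nsmul_apply', mmap_apply, Matrix.mulVec, dotProduct, Finset.mul_sum]
  refine (D i).sum_mem fun q _ => ?_
  rw [← mul_assoc]
  push_cast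
  exact (D i).mul_mem (hM i c q) (hz i q)

/-- closeness of matrices gives closeness of the maps -/
theorem mmap_close {D : ∀ i, Subring (K i)} {n c : ℕ} {M M' : ∀ i, Matrix (X i) (I i) (K i)}
    (hM : ∀ i a b, Sm n (D i) c (M' i a b - M i a b)) {z : ∀ i, I i → K i}
    (hz : z ∈ boxD D I) : ∃ v ∈ boxD D X, (mmap M' - mmap M) z = n ^ c • v := by
  have h1 : ∀ i (a : X i), Sm n (D i) c ((M' i *ᵥ z i) a - (M i *ᵥ z i) a) := by
    intro i a
    have h2 : (M' i *ᵥ z i) a - (M i *ᵥ z i) a = ∑ b, (M' i a b - M i a b) * z i b := by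
      rw [Matrix.mulVec, Matrix.mulVec, dotProduct, dotProduct, ← Finset.sum_sub_distrib]
      exact Finset.sum_congr rfl fun b _ => by ring
    rw [h2]
    exact Sm.sum fun b _ => (hM i a b).mul_mem (hz i b)
  choose v hv hv2 using h1
  refine ⟨v, hv, ?_⟩
  funext i a
  rw [nsmul_apply', LinearMap.sub_apply, Pi.sub_apply, Pi.sub_apply, mmap_apply, mmap_apply,
    hv2 i a]
  push_cast
  rfl

end maps

section top

variable {K : Type} [Field K] [TopologicalSpace K] {n : ℕ} {D : Subring K}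

omit [TopologicalSpace K] in
theorem exists_pow_matD (hexh : ∀ z : K, ∃ k : ℕ, (n : K) ^ k * z ∈ D) {p q : Type} [Fintype p]
    [Fintype q] (Y : Matrix p q K) : ∃ l : ℕ, ∀ l' ≥ l, ∀ a b, (n : K) ^ l' * Y a b ∈ D := by
  have h1 : ∀ ab : p × q, ∃ k : ℕ, (n : K) ^ k * Y ab.1 ab.2 ∈ D := fun ab => hexh _
  obtain ⟨l, hl⟩ := exists_pow_fin (fun (ab : p × q) k => (n : K) ^ k * Y ab.1 ab.2 ∈ D)
    (fun ab e e' hee he => by
      obtain ⟨j, rfl⟩ := Nat.exists_eq_add_of_le hee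
      rw [add_comm, pow_add, mul_assoc]
      exact D.mul_mem (D.pow_mem (natCast_mem D n) j) he) h1
  refine ⟨l, fun l' hl' a b => ?_⟩
  obtain ⟨j, rfl⟩ := Nat.exists_eq_add_of_le hl'
  rw [add_comm, pow_add, mul_assoc]
  exact D.mul_mem (D.pow_mem (natCast_mem D n) j) (hl (a, b))

theorem near_mat (hT : ∀ (x : K) (c : ℕ), {z | Sm n D c (z - x)} ∈ 𝓝 x) {Z : Type}
    [TopologicalSpace Z] {p q : Type} [Finite p] [Finite q] {f : Z → Matrix p q K}
    (hf : Continuous f) (s : Z) (c : ℕ) : ∀ᶠ s' in 𝓝 s, ∀ a b, Sm n D c (f s' a b - f s a b) := by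
  rw [Filter.eventually_all]
  intro a
  rw [Filter.eventually_all]
  intro b
  have h1 : Continuous fun s' => f s' a b := hf.matrix_elem a b
  exact h1.continuousAt (hT (f s a b) c)

theorem near_linv [IsTopologicalRing K] [T2Space K] {Z : Type} [TopologicalSpace Z] {p q : Type}
    [Fintype p] [Fintype q] [DecidableEq q] {f : Z → Matrix p q K} (hf : Continuous f) {s : Z}
    (hs : LInv (f s)) : ∀ᶠ s' in 𝓝 s, LInv (f s') := by
  obtain ⟨Y, hY⟩ := hs
  have h1 : Continuous fun s' => (Y * f s').det :=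
    Continuous.matrix_det (Continuous.matrix_mul continuous_const hf)
  have h2 : (Y * f s).det ≠ 0 := by rw [hY, det_one]; exact one_ne_zero
  filter_upwards [h1.continuousAt.eventually_ne h2] with s' hs'
  refine ⟨(Y * f s')⁻¹ * Y, ?_⟩
  rw [Matrix.mul_assoc, nonsing_inv_mul _ (isUnit_iff_ne_zero.2 hs')]

theorem near_rinv [IsTopologicalRing K] [T2Space K] {Z : Type} [TopologicalSpace Z] {p q : Type}
    [Fintype p] [Fintype q] [DecidableEq p] {f : Z → Matrix p q K} (hf : Continuous f) {s : Z}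
    (hs : RInv (f s)) : ∀ᶠ s' in 𝓝 s, RInv (f s') := by
  obtain ⟨Y, hY⟩ := hs
  have h1 : Continuous fun s' => (f s' * Y).det :=
    Continuous.matrix_det (Continuous.matrix_mul hf continuous_const)
  have h2 : (f s * Y).det ≠ 0 := by rw [hY, det_one]; exact one_ne_zero
  filter_upwards [h1.continuousAt.eventually_ne h2] with s' hs'
  refine ⟨Y * (f s' * Y)⁻¹, ?_⟩
  rw [← Matrix.mul_assoc, mul_nonsing_inv _ (isUnit_iff_ne_zero.2 hs')]

end top

section states

variable {ι : Type} {K : ι → Type} [∀ i, Field (K i)] [∀ i, Algebra ℚ (K i)]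
  {I α β γ : ι → Type} [∀ i, Fintype (I i)] [∀ i, DecidableEq (I i)] [∀ i, Fintype (α i)]
  [∀ i, Fintype (β i)] [∀ i, DecidableEq (β i)]

/-- `LOC(s)` for several fields -/
abbrev LocS (σ : ∀ i, Shp (I i) (α i) (β i)) (s : MSt K I α β)
    (U : AddSubgroup (∀ i, Blk (σ i).lam → K i)) (Y : AddSubgroup (∀ i, Blk (σ i).mu → K i)) :
    Prop :=
  Loc (mR σ s) (mW σ s) U Y

/-- the data of the subgroup `U` (`V_n` or `W_n`): `x = θ + y`, `n ^ l1 V_OO ≤ U ≤ n ^ (-l1) V_OO` -/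
structure LData (n l1 : ℕ) (D : ∀ i, Subring (K i)) (θ : ∀ i, K i) (h : ∀ i, γ i → ℕ)
    (t : (∀ i, Blk (h i) → K i) ≃ₗ[ℚ] (∀ i, Blk (h i) → K i))
    (U : AddSubgroup (∀ i, Blk (h i) → K i)) : Prop where
  lfg : LFG n t U
  ht : ∀ v i, t v i = θ i • v i + yL (h i) (v i)
  le : ∀ v ∈ boxD D (fun i => Blk (h i)), n ^ l1 • v ∈ U
  ge : ∀ v ∈ U, n ^ l1 • v ∈ boxD D (fun i => Blk (h i))

omit [∀ i, Algebra ℚ (K i)] [∀ i, Fintype (α i)] [∀ i, Fintype (β i)] [∀ i, DecidableEq (β i)] in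
theorem isUnit_x {θ : ∀ i, K i} (hθ : ∀ i, θ i ≠ 0) {σ : ∀ i, Shp (I i) (α i) (β i)}
    {s : ∀ i, RSt (K i) (I i) (α i) (β i)} (hs : ∀ i, IsSt (σ i) (s i)) (i : ι) :
    IsUnit (θ i • (1 : Matrix (I i) (I i) (K i)) + (s i).1).det := by
  rw [← Matrix.isUnit_iff_isUnit_det]
  have hnil : IsNilpotent (s i).1 := by
    refine ⟨Finset.univ.sup (σ i).deg + 1, ?_⟩
    ext p q
    have h1 : (σ i).deg p ≤ Finset.univ.sup (σ i).deg := Finset.le_sup (Finset.mem_univ p)
    rw [Matrix.zero_apply]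
    exact pow_eq_zero_of_deg (hs i).c _ p q (by omega)
  refine hnil.isUnit_add_left_of_commute ?_ ?_
  · rw [Matrix.isUnit_iff_isUnit_det, det_smul, det_one, mul_one]
    exact isUnit_iff_ne_zero.2 (pow_ne_zero _ (hθ i))
  · exact (Commute.one_right _).smul_right _

/-- the action of `x` on the coefficients -/
noncomputable def tEq {θ : ∀ i, K i} (hθ : ∀ i, θ i ≠ 0) {σ : ∀ i, Shp (I i) (α i) (β i)}
    {s : ∀ i, RSt (K i) (I i) (α i) (β i)} (hs : ∀ i, IsSt (σ i) (s i)) :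
    (∀ i, I i → K i) ≃ₗ[ℚ] (∀ i, I i → K i) :=
  LinearEquiv.ofLinearMap (mmap fun i => θ i • (1 : Matrix (I i) (I i) (K i)) + (s i).1)
    (mmap fun i => (θ i • (1 : Matrix (I i) (I i) (K i)) + (s i).1)⁻¹)
    (by
      rw [mmap_comp]
      apply LinearMap.ext
      intro z
      funext i
      rw [mmap_apply, mul_nonsing_inv _ (isUnit_x hθ hs i), one_mulVec]
      rfl)
    (by
      rw [mmap_comp]
      apply LinearMap.ext
      intro z
      funext i
      rw [mmap_apply, nonsing_inv_mul _ (isUnit_x hθ hs i), one_mulVec]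
      rfl)

theorem tEq_apply {θ : ∀ i, K i} (hθ : ∀ i, θ i ≠ 0) {σ : ∀ i, Shp (I i) (α i) (β i)}
    {s : ∀ i, RSt (K i) (I i) (α i) (β i)} (hs : ∀ i, IsSt (σ i) (s i)) (z : ∀ i, I i → K i)
    (i : ι) : tEq hθ hs z i = θ i • z i + (s i).1 *ᵥ z i := by
  change (θ i • (1 : Matrix (I i) (I i) (K i)) + (s i).1) *ᵥ z i = _
  rw [add_mulVec, smul_mulVec, one_mulVec]

/-- **(U1)** without topology: the condition is kept by states with close matrices -/
theorem loc_of_close {n l l1 : ℕ} (hn : n ≠ 0) [Fintype ι] {D : ∀ i, Subring (K i)}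
    (hexh : ∀ i (z : K i), ∃ k : ℕ, (n : K i) ^ k * z ∈ D i) {θ : ∀ i, K i}
    (hθ : ∀ i, θ i ≠ 0) {σ : ∀ i, Shp (I i) (α i) (β i)}
    {tV : (∀ i, Blk (σ i).lam → K i) ≃ₗ[ℚ] (∀ i, Blk (σ i).lam → K i)}
    {tW : (∀ i, Blk (σ i).mu → K i) ≃ₗ[ℚ] (∀ i, Blk (σ i).mu → K i)}
    {U : AddSubgroup (∀ i, Blk (σ i).lam → K i)} {Y : AddSubgroup (∀ i, Blk (σ i).mu → K i)}
    (hU : LData n l1 D θ (fun i => (σ i).lam) tV U) (hY : LData n l1 D θ (fun i => (σ i).mu) tW Y)
    {s s' : ∀ i, RSt (K i) (I i) (α i) (β i)} (hst : ∀ i, IsSt (σ i) (s' i))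
    {Z : ∀ i, Matrix (I i) (Blk (σ i).lam) (K i)} (hZ : ∀ i, Z i * RM (σ i) (s i) = 1)
    (hl : ∀ i a b, (n : K i) ^ l * Z i a b ∈ D i) (hM' : ∀ i, RInv (MM (σ i) (s' i)))
    (hc1 : ∀ i a b, Sm n (D i) (l + 2 * l1 + 1) (RM (σ i) (s' i) a b - RM (σ i) (s i) a b))
    (hc2 : ∀ i a b, Sm n (D i) (l + 2 * l1 + 1) (MM (σ i) (s' i) a b - MM (σ i) (s i) a b))
    (hL : LocS σ s U Y) : LocS σ s' U Y := by
  have hB : ∀ z : ∀ i, I i → K i, mR σ s z ∈
      boxD D (fun i => Blk (σ i).lam) → mW σ s z ∈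
      boxD D (fun i => Blk (σ i).mu) → n ^ l • z ∈ boxD D I := by
    intro z hz _
    have h1 := mmap_box (M := Z) hl hz
    have h2 : mmap Z (mR σ s z) = z := by
      funext i
      rw [mmap_apply]
      change Z i *ᵥ (RM (σ i) (s i) *ᵥ z i) = z i
      rw [mulVec_mulVec, hZ, one_mulVec]
    rwa [h2] at h1
  obtain ⟨-, h1, h2⟩ := Loc.small (R := mR σ s) (R' := mR σ s') (m := mW σ s)
    (m' := mW σ s') hn le_rfl hU.le hU.ge hY.le hY.ge hB
    (fun z hz => mmap_close hc1 hz) (fun z hz => mmap_close hc2 hz) hL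
  refine (Loc.perturb hn (tEq hθ hst) (tV := tV) (tW := tW) ?_ ?_ hU.lfg ?_ hY.lfg hL h1 h2
    (mmap_surjective hM')).2
  · intro z
    funext i
    change RM (σ i) (s' i) *ᵥ (tEq hθ hst z i) = _
    rw [tEq_apply, hU.ht, mulVec_add, mulVec_smul, RM_equiv (hst i)]
    rfl
  · intro z
    funext i
    change MM (σ i) (s' i) *ᵥ (tEq hθ hst z i) = _
    rw [tEq_apply, hY.ht, mulVec_add, mulVec_smul, MM_equiv (hst i)]
    rfl
  · intro v
    obtain ⟨k, hk⟩ : ∃ k : ℕ, ∀ i, ∀ c, (n : K i) ^ k * v i c ∈ D i := by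
      obtain ⟨k, hk⟩ := exists_pow_fin (fun (i : ι) k => ∀ k' ≥ k, ∀ c,
        (n : K i) ^ k' * v i c ∈ D i) (fun i e e' hee he k' hk' => he k' (le_trans hee hk'))
        (fun i => by
          obtain ⟨k, hk⟩ := exists_pow_matD (hexh i) (Matrix.of fun (_ : Unit) c => v i c)
          exact ⟨k, fun k' hk' c => hk k' hk' () c⟩)
      exact ⟨k, fun i => hk i k le_rfl⟩
    refine ⟨l1 + k, ?_⟩
    rw [pow_add, mul_smul]
    apply hU.le
    intro i c
    rw [nsmul_apply']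
    push_cast
    exact hk i c

/-- bounded left inverses -/
theorem exists_bdd_left [Fintype ι] {n : ℕ} {D : ∀ i, Subring (K i)}
    (hexh : ∀ i (z : K i), ∃ k : ℕ, (n : K i) ^ k * z ∈ D i) {σ : ∀ i, Shp (I i) (α i) (β i)}
    {s : ∀ i, RSt (K i) (I i) (α i) (β i)} (hR : ∀ i, LInv (RM (σ i) (s i))) :
    ∃ (Z : ∀ i, Matrix (I i) (Blk (σ i).lam) (K i)) (l : ℕ),
      (∀ i, Z i * RM (σ i) (s i) = 1) ∧ ∀ i a b, (n : K i) ^ l * Z i a b ∈ D i := by
  choose Z hZ using hR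
  obtain ⟨l, hl⟩ := exists_pow_fin
    (fun (i : ι) l => ∀ l' ≥ l, ∀ a b, (n : K i) ^ l' * Z i a b ∈ D i)
    (fun i e e' hee he l' hl' => he l' (le_trans hee hl'))
    (fun i => exists_pow_matD (hexh i) (Z i))
  exact ⟨Z, l, hZ, fun i => hl i l le_rfl⟩

/-! ### (U2), (U4): base change and scaling -/

/-- base change -/
theorem loc_bc {σ : ∀ i, Shp (I i) (α i) (β i)}
    {U : AddSubgroup (∀ i, Blk (σ i).lam → K i)} {Y : AddSubgroup (∀ i, Blk (σ i).mu → K i)}
    {s : ∀ i, RSt (K i) (I i) (α i) (β i)} (hL : LocS σ s U Y)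
    (g : ∀ i, Matrix (I i) (I i) (K i)) (hg : ∀ i, IsUnit (g i).det) :
    LocS σ (fun i => DEC.bc (s i) (g i)) U Y := by
  have h1 : Function.Surjective (mmap g) :=
    mmap_surjective fun i => ⟨(g i)⁻¹, mul_nonsing_inv _ (hg i)⟩
  have h2 := Loc.comp_right (show Loc (mmap fun i => RM (σ i) (s i))
    (mmap fun i => MM (σ i) (s i)) U Y from hL) (mmap g) h1
  rw [mmap_comp, mmap_comp] at h2
  unfold LocS mR mW
  have e1 : (fun i => RM (σ i) (DEC.bc (s i) (g i))) = fun i => RM (σ i) (s i) * g i :=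
    funext fun i => RM_bc (σ i) (s i) (g i) (hg i)
  have e2 : (fun i => MM (σ i) (DEC.bc (s i) (g i))) = fun i => MM (σ i) (s i) * g i :=
    funext fun i => MM_bc (σ i) (s i) (g i) (hg i)
  rw [e1, e2]
  exact h2

/-- base change of one component -/
theorem update_bc [DecidableEq ι] {σ : ∀ i, Shp (I i) (α i) (β i)}
    {U : AddSubgroup (∀ i, Blk (σ i).lam → K i)} {Y : AddSubgroup (∀ i, Blk (σ i).mu → K i)}
    {s : ∀ i, RSt (K i) (I i) (α i) (β i)} (hL : LocS σ s U Y) (i : ι)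
    (g : Matrix (I i) (I i) (K i)) (hg : IsUnit g.det) :
    LocS σ (Function.update s i (DEC.bc (s i) g)) U Y := by
  have h1 := loc_bc hL (Function.update (fun j => (1 : Matrix (I j) (I j) (K j))) i g) (fun j => by
    by_cases h : j = i
    · subst h; rw [Function.update_self]; exact hg
    · rw [Function.update_of_ne h, det_one]; exact isUnit_one)
  have e : (fun j => DEC.bc (s j)
      (Function.update (fun j => (1 : Matrix (I j) (I j) (K j))) i g j)) =
      Function.update s i (DEC.bc (s i) g) := by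
    funext j
    by_cases h : j = i
    · subst h; rw [Function.update_self, Function.update_self]
    · rw [Function.update_of_ne h, Function.update_of_ne h, bc_one]
  rwa [e] at h1

omit [∀ i, Algebra ℚ (K i)] in
/-- inverses of elements near to `1` -/
theorem Sm_inv {n : ℕ} {i : ι} {D : Subring (K i)}
    (hjac : ∀ z ∈ D, ∃ w ∈ D, (1 + (n : K i) * z) * w = 1) {c : ℕ} (hc : 1 ≤ c) {f : K i}
    (hf : Sm n D c (f - 1)) : f ≠ 0 ∧ f⁻¹ ∈ D ∧ Sm n D c (f⁻¹ - 1) := by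
  obtain ⟨w0, hw0, h1⟩ := hf
  obtain ⟨k, rfl⟩ := Nat.exists_eq_add_of_le hc
  obtain ⟨w, hw, h2⟩ := hjac ((n : K i) ^ k * w0)
    (D.mul_mem (D.pow_mem (natCast_mem D n) k) hw0)
  have h3 : f = 1 + (n : K i) * ((n : K i) ^ k * w0) := by
    rw [← mul_assoc, ← pow_succ', add_comm k 1, ← h1]; ring
  rw [← h3] at h2
  have hf0 : f ≠ 0 := left_ne_zero_of_mul_eq_one h2
  have hfw : f⁻¹ = w := inv_eq_of_mul_eq_one_right h2
  refine ⟨hf0, hfw ▸ hw, -(w0 * w), D.neg_mem (D.mul_mem hw0 hw), ?_⟩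
  rw [hfw]
  have h4 : w - 1 = -((f - 1) * w) := by rw [sub_mul, h2]; ring
  rw [h4, h1]; ring

omit [∀ i, DecidableEq (β i)] [∀ i, Fintype (β i)] [∀ i, Fintype (I i)] [∀ i, DecidableEq (I i)]
  [∀ i, Fintype (α i)] in
/-- scaling of the coordinates by elements near to `1` preserves `U` -/
theorem scale_mem {n l1 : ℕ} {D : ∀ i, Subring (K i)} {h : ∀ i, γ i → ℕ}
    {U : AddSubgroup (∀ i, Blk (h i) → K i)}
    (hle : ∀ v ∈ boxD D (fun i => Blk (h i)), n ^ l1 • v ∈ U)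
    (hge : ∀ v ∈ U, n ^ l1 • v ∈ boxD D (fun i => Blk (h i))) {φ : ∀ i, γ i → K i}
    (hφ : ∀ i b, Sm n (D i) (2 * l1 + 1) (φ i b - 1)) {v w : ∀ i, Blk (h i) → K i}
    (hv : v ∈ U) (hw : ∀ i c, w i c = φ i c.1 * v i c) : w ∈ U := by
  choose a ha ha2 using hφ
  have h1 : w = v + n • (n ^ l1 • fun i c => a i c.1 * ((n ^ l1 • v) i c)) := by
    funext i c
    rw [Pi.add_apply, Pi.add_apply, nsmul_apply', nsmul_apply', nsmul_apply', hw]
    have h2 : φ i c.1 = 1 + (n : K i) ^ (2 * l1 + 1) * a i c.1 := by rw [← ha2]; ring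
    rw [h2]
    push_cast
    ring
  rw [h1]
  refine U.add_mem hv (U.nsmul_mem (hle _ fun i c => ?_) _)
  exact (D i).mul_mem (ha i c.1) (hge v hv i c)

/-- **(L1)** scaling of the blocks of `W` -/
theorem scale {n l1 : ℕ} {D : ∀ i, Subring (K i)} {σ : ∀ i, Shp (I i) (α i) (β i)}
    {U : AddSubgroup (∀ i, Blk (σ i).lam → K i)} {Y : AddSubgroup (∀ i, Blk (σ i).mu → K i)}
    (hle : ∀ v ∈ boxD D (fun i => Blk (σ i).mu), n ^ l1 • v ∈ Y)
    (hge : ∀ v ∈ Y, n ^ l1 • v ∈ boxD D (fun i => Blk (σ i).mu)) {φ : ∀ i, β i → K i}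
    (h0 : ∀ i b, φ i b ≠ 0) (h1 : ∀ i b, Sm n (D i) (2 * l1 + 1) (φ i b - 1))
    (h2 : ∀ i b, Sm n (D i) (2 * l1 + 1) ((φ i b)⁻¹ - 1))
    {s s' : ∀ i, RSt (K i) (I i) (α i) (β i)}
    (hRM : ∀ i, RM (σ i) (s' i) = RM (σ i) (s i))
    (hMM : ∀ i c q, MM (σ i) (s' i) c q = φ i c.1 * MM (σ i) (s i) c q)
    (hL : LocS σ s U Y) : LocS σ s' U Y := by
  classical
  let F : ∀ i, Matrix (Blk (σ i).mu) (Blk (σ i).mu) (K i) := fun i => diagonal fun c => φ i c.1
  let G : ∀ i, Matrix (Blk (σ i).mu) (Blk (σ i).mu) (K i) := fun i =>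
    diagonal fun c => (φ i c.1)⁻¹
  have hF : ∀ v i c, mmap F v i c = φ i c.1 * v i c := fun v i c => by
    rw [mmap_apply, mulVec_diagonal]
  have hG : ∀ v i c, mmap G v i c = (φ i c.1)⁻¹ * v i c := fun v i c => by
    rw [mmap_apply, mulVec_diagonal]
  have h3 := Loc.comp_left (show Loc (mmap fun i => RM (σ i) (s i))
    (mmap fun i => MM (σ i) (s i)) U Y from hL) (mmap F) (fun w hw => scale_mem hle hge h1 hw (hF w)) (mmap G)
    (fun w hw => scale_mem (φ := fun i b => (φ i b)⁻¹) hle hge h2 hw (hG w)) (fun w => by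
      funext i c
      rw [hF, hG, ← mul_assoc, mul_inv_cancel₀ (h0 i c.1), one_mul])
  rw [mmap_comp] at h3
  unfold LocS mR mW
  have e1 : (fun i => RM (σ i) (s' i)) = fun i => RM (σ i) (s i) := funext hRM
  have e2 : (fun i => MM (σ i) (s' i)) = fun i => F i * MM (σ i) (s i) := by
    funext i
    ext c q
    rw [hMM, diagonal_mul]
  rw [e1, e2]
  exact h3

/-- **(L1)** scaling of one block in one component -/
theorem update_scT [DecidableEq ι] {n l1 : ℕ} {D : ∀ i, Subring (K i)}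
    {σ : ∀ i, Shp (I i) (α i) (β i)} {U : AddSubgroup (∀ i, Blk (σ i).lam → K i)}
    {Y : AddSubgroup (∀ i, Blk (σ i).mu → K i)}
    (hle : ∀ v ∈ boxD D (fun i => Blk (σ i).mu), n ^ l1 • v ∈ Y)
    (hge : ∀ v ∈ Y, n ^ l1 • v ∈ boxD D (fun i => Blk (σ i).mu))
    {s : ∀ i, RSt (K i) (I i) (α i) (β i)} (hL : LocS σ s U Y) (i : ι) (b : β i) {f : K i}
    (hjac : ∀ z ∈ D i, ∃ w ∈ D i, (1 + (n : K i) * z) * w = 1)
    (hf : Sm n (D i) (2 * l1 + 1) (f - 1)) : LocS σ (Function.update s i (scT b f (s i))) U Y := by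
  obtain ⟨hf0, -, hf2⟩ := Sm_inv hjac (by omega) hf
  let φ : ∀ j, β j → K j := Function.update (fun j _ => (1 : K j)) i
    (fun b' => if b' = b then f else 1)
  have hφi : ∀ b', φ i b' = if b' = b then f else 1 := fun b' => by
    simp only [φ, Function.update_self]
  have hφj : ∀ j, j ≠ i → ∀ b', φ j b' = 1 := fun j hj b' => by
    simp only [φ, Function.update_of_ne hj]
  refine scale (φ := φ) hle hge ?_ ?_ ?_ ?_ ?_ hL
  · intro j b'
    by_cases hj : j = i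
    · subst hj; rw [hφi]; split_ifs; exacts [hf0, one_ne_zero]
    · rw [hφj j hj]; exact one_ne_zero
  · intro j b'
    by_cases hj : j = i
    · subst hj; rw [hφi]; split_ifs
      · exact hf
      · rw [sub_self]; exact Sm.zero _
    · rw [hφj j hj, sub_self]; exact Sm.zero _
  · intro j b'
    by_cases hj : j = i
    · subst hj; rw [hφi]; split_ifs
      · exact hf2
      · rw [inv_one, sub_self]; exact Sm.zero _
    · rw [hφj j hj, inv_one, sub_self]; exact Sm.zero _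
  · intro j
    by_cases hj : j = i
    · subst hj; rw [Function.update_self, RM_scT]
    · rw [Function.update_of_ne hj]
  · intro j c q
    by_cases hj : j = i
    · subst hj; rw [Function.update_self, MM_scT, hφi]
    · rw [Function.update_of_ne hj, hφj j hj, one_mul]

/-! ### (L4) -/

/-- states over subrings whose matrices are invertible on one side -/
theorem of_inv {A : ι → Type} [∀ i, CommRing (A i)] (e : ∀ i, A i →+* K i)
    {σ : ∀ i, Shp (I i) (α i) (β i)} {s : ∀ i, RSt (A i) (I i) (α i) (β i)}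
    (hR : ∀ i, LInv (RM (σ i) (s i))) (hM : ∀ i, RInv (MM (σ i) (s i))) :
    LocS σ (fun i => smap (e i) (s i)) (boxD (fun i => (e i).range) (fun i => Blk (σ i).lam))
      (boxD (fun i => (e i).range) (fun i => Blk (σ i).mu)) := by
  have hbox : ∀ {X X' : ι → Type} [∀ i, Fintype (X i)] (N : ∀ i, Matrix (X' i) (X i) (A i))
      (v : ∀ i, X i → K i), v ∈ boxD (fun i => (e i).range) X →
      mmap (fun i => (N i).map (e i)) v ∈ boxD (fun i => (e i).range) X' := by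
    intro X X' _ N v hv i c
    rw [mmap_apply, Matrix.mulVec, dotProduct]
    refine sum_mem fun q _ => (e i).range.mul_mem ⟨N i c q, rfl⟩ (hv i q)
  have e1 : (fun i => RM (σ i) (smap (e i) (s i))) = fun i => (RM (σ i) (s i)).map (e i) :=
    funext fun i => RM_map (e i) (σ i) (s i)
  have e2 : (fun i => MM (σ i) (smap (e i) (s i))) = fun i => (MM (σ i) (s i)).map (e i) :=
    funext fun i => MM_map (e i) (σ i) (s i)
  unfold LocS mR mW
  rw [e1, e2]
  choose Z hZ using hR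
  choose T hT using hM
  refine ⟨fun z hz => ?_, fun y hy => ?_⟩
  · have h1 := hbox Z _ hz
    have h2 : mmap (fun i => (Z i).map (e i)) (mmap (fun i => (RM (σ i) (s i)).map (e i)) z)
        = z := by
      funext i
      rw [mmap_apply, mmap_apply, mulVec_mulVec, ← Matrix.map_mul, hZ,
        Matrix.map_one _ (map_zero _) (map_one _), one_mulVec]
    rw [h2] at h1
    exact hbox _ _ h1
  · refine ⟨mmap (fun i => (T i).map (e i)) y, hbox _ _ (hbox T y hy), ?_⟩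
    funext i
    rw [mmap_apply, mmap_apply, mulVec_mulVec, ← Matrix.map_mul, hT,
      Matrix.map_one _ (map_zero _) (map_one _), one_mulVec]

/-- **(L4)** for states -/
theorem glueA {n : ℕ} {A : ι → Type} [∀ i, CommRing (A i)] (e : ∀ i, A i →+* K i)
    {σ : ∀ i, Shp (I i) (α i) (β i)} {s : ∀ i, RSt (A i) (I i) (α i) (β i)}
    (hst : ∀ i, IsSt (σ i) (s i)) (hmu : ∀ i b, 1 ≤ (σ i).mu b)
    (hR : ∀ i j, LInv (SigM (σ i) (s i) j)) (hM : ∀ i, RInv (TM (σ i) (s i) 0))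
    {U : AddSubgroup (∀ i, Blk (σ i).lam → K i)} {Y : AddSubgroup (∀ i, Blk (σ i).mu → K i)}
    (hU : away n U = boxD (fun i => (e i).range) (fun i => Blk (σ i).lam))
    (hY : away n Y = boxD (fun i => (e i).range) (fun i => Blk (σ i).mu))
    (hL : LocS σ (fun i => smap (e i) (s i)) (locAt n U) (locAt n Y)) :
    LocS σ (fun i => smap (e i) (s i)) U Y := by
  refine Loc.glue hL ?_
  rw [hU, hY]
  exact of_inv e (fun i => RM_left_of_SigM (hst i) (hR i))
    (fun i => MM_right_of_TM (hst i) (hmu i) (hM i))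

end states

/-! ### The rings of `MF.lean` -/

section rings

variable {S K : Type} [CommRing S] [Field K] [Algebra S K] {n : ℕ} {θ : S}

theorem lamT_le {x : K} (hx : x ∈ locOT S K 1 θ) : x ∈ locDT S K n θ := by
  obtain ⟨k, h, s, hs⟩ := hx
  refine ⟨1, one_ne_zero, Nat.coprime_one_left n, h, s, ?_⟩
  rw [← hs]
  simp

theorem of_mul_lamT {m : ℕ} (hm : m ≠ 0) (hmn : m.Coprime n) {x : K}
    (hx : (m : K) * x ∈ locOT S K 1 θ) : x ∈ locDT S K n θ := by
  obtain ⟨k, h, s, hs⟩ := hx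
  refine ⟨m, hm, hmn, h, s, ?_⟩
  rw [← hs]
  simp only [Nat.cast_one, one_pow, one_mul]
  ring

theorem exists_mul_lamT {x : K} (hx : x ∈ locDT S K n θ) :
    ∃ m : ℕ, m ≠ 0 ∧ m.Coprime n ∧ (m : K) * x ∈ locOT S K 1 θ := by
  obtain ⟨m, hm, hmn, h, s, hs⟩ := hx
  refine ⟨m, hm, hmn, 0, h, s, ?_⟩
  rw [← hs]
  simp only [Nat.cast_one, one_pow, one_mul]
  ring

end rings

section lamt

variable {F : Type} [Fintype F] {S K : F → Type} [∀ i, CommRing (S i)] [∀ i, Field (K i)]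
  [∀ i, Algebra ℚ (K i)] [∀ i, Algebra (S i) (K i)] {γ : F → Type} [∀ i, Fintype (γ i)]

/-- a common multiplier prime to `n` -/
theorem exists_common {n : ℕ} {θ : ∀ i, S i} {h : ∀ i, γ i → ℕ} {v : ∀ i, Blk (h i) → K i}
    (hv : v ∈ boxD (fun i => locDT (S i) (K i) n (θ i)) (fun i => Blk (h i))) :
    ∃ m : ℕ, m ≠ 0 ∧ m.Coprime n ∧
      m • v ∈ boxD (fun i => locOT (S i) (K i) 1 (θ i)) (fun i => Blk (h i)) := by
  classical
  have h1 : ∀ ic : (Σ i, Blk (h i)), ∃ m : ℕ, m ≠ 0 ∧ m.Coprime n ∧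
      (m : K ic.1) * v ic.1 ic.2 ∈ locOT (S ic.1) (K ic.1) 1 (θ ic.1) :=
    fun ic => exists_mul_lamT (hv ic.1 ic.2)
  choose m hm0 hmn hm using h1
  refine ⟨∏ ic, m ic, Finset.prod_ne_zero_iff.2 fun ic _ => hm0 ic,
    Nat.Coprime.prod_left fun ic _ => hmn ic, fun i c => ?_⟩
  rw [nsmul_apply', ← Finset.mul_prod_erase Finset.univ m (Finset.mem_univ ⟨i, c⟩)]
  have h2 : ((m ⟨i, c⟩ * ∏ x ∈ Finset.univ.erase (⟨i, c⟩ : Σ i, Blk (h i)), m x : ℕ) : K i) *
      v i c = ((∏ x ∈ Finset.univ.erase (⟨i, c⟩ : Σ i, Blk (h i)), m x : ℕ) : K i) *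
      ((m ⟨i, c⟩ : K i) * v i c) := by push_cast; ring
  rw [h2]
  exact Subring.mul_mem _ (natCast_mem _ _) (hm ⟨i, c⟩)

/-- the sandwich for the localisation at `n` -/
theorem lData {n l1 : ℕ} {θ : ∀ i, S i} {h : ∀ i, γ i → ℕ}
    {t : (∀ i, Blk (h i) → K i) ≃ₗ[ℚ] (∀ i, Blk (h i) → K i)}
    (ht : ∀ v, t v = xM (fun i => algebraMap (S i) (K i) (θ i)) h v)
    {G : AddSubgroup (∀ i, Blk (h i) → K i)}
    (h1 : ∀ v : ∀ i, Blk (h i) → K i,
      (∀ i c, v i c ∈ locOT (S i) (K i) 1 (θ i)) → v ∈ G)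
    (h2 : ∀ v ∈ G, ∀ i c, (n ^ l1 • v) i c ∈ locOT (S i) (K i) 1 (θ i))
    (hG : LFG n t (locAt n G)) :
    LData n l1 (fun i => locDT (S i) (K i) n (θ i))
      (fun i => algebraMap (S i) (K i) (θ i)) h t (locAt n G) := by
  refine ⟨hG, fun v i => ?_, fun v hv => ?_, ?_⟩
  · rw [ht]; rfl
  · obtain ⟨m, hm, hmn, hmv⟩ := exists_common hv
    exact AddSubgroup.nsmul_mem _ (show v ∈ locAt n G from ⟨m, hm, hmn, h1 _ hmv⟩) _
  · rintro v ⟨m, hm, hmn, hmv⟩ i c
    apply of_mul_lamT hm hmn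
    have h3 := h2 _ hmv i c
    rwa [smul_comm, nsmul_apply'] at h3

end lamt

end Pool.Agent.DEC.LocTop

namespace Pool.Agent.DEC

open LocTop

variable {F : Type} [Fintype F] [DecidableEq F] {S K : F → Type} [∀ i, CommRing (S i)]
  [∀ i, Field (K i)] [∀ i, Algebra ℚ (K i)] [∀ i, Algebra (S i) (K i)]
  {I α β : F → Type} [∀ i, Fintype (I i)] [∀ i, DecidableEq (I i)] [∀ i, Fintype (α i)]
  [∀ i, Fintype (β i)] [∀ i, DecidableEq (β i)]

/-- **(U1)** one component moving -/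
theorem open_loc {n : ℕ} (hn : n ≠ 0) {θ : ∀ i, S i}
    (hθ : ∀ i, algebraMap (S i) (K i) (θ i) ≠ 0)
    (hD : ∀ i, Den n (locOT (S i) (K i) n (θ i)) (locDT (S i) (K i) n (θ i)))
    {σ : ∀ i, Shp (I i) (α i) (β i)}
    {GV : AddSubgroup (∀ i, Blk (σ i).lam → K i)} {GW : AddSubgroup (∀ i, Blk (σ i).mu → K i)}
    {l1 : ℕ}
    (hV1 : ∀ v : ∀ i, Blk (σ i).lam → K i,
      (∀ i c, v i c ∈ locOT (S i) (K i) 1 (θ i)) → v ∈ GV)
    (hV2 : ∀ v ∈ GV, ∀ i c, (n ^ l1 • v) i c ∈ locOT (S i) (K i) 1 (θ i))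
    (hW1 : ∀ v : ∀ i, Blk (σ i).mu → K i,
      (∀ i c, v i c ∈ locOT (S i) (K i) 1 (θ i)) → v ∈ GW)
    (hW2 : ∀ v ∈ GW, ∀ i c, (n ^ l1 • v) i c ∈ locOT (S i) (K i) 1 (θ i))
    {xV : (∀ i, Blk (σ i).lam → K i) ≃ₗ[ℚ] (∀ i, Blk (σ i).lam → K i)}
    {xW : (∀ i, Blk (σ i).mu → K i) ≃ₗ[ℚ] (∀ i, Blk (σ i).mu → K i)}
    (hxV : ∀ v, xV v = xM (fun i => algebraMap (S i) (K i) (θ i)) (fun i => (σ i).lam) v)
    (hxW : ∀ v, xW v = xM (fun i => algebraMap (S i) (K i) (θ i)) (fun i => (σ i).mu) v)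
    (hGV : LFG n xV (locAt n GV)) (hGW : LFG n xW (locAt n GW))
    {s : MSt K I α β} (hst : ∀ i, IsSt (σ i) (s i)) (hR : ∀ i, LInv (RM (σ i) (s i)))
    (hM : ∀ i, RInv (MM (σ i) (s i))) (hL : Loc (mR σ s) (mW σ s) (locAt n GV) (locAt n GW))
    (i0 : F) : letI : TopologicalSpace (K i0) := (hD i0).top
    ∃ N ∈ 𝓝 (s i0), ∀ x ∈ N, IsSt (σ i0) x → RInv (MM (σ i0) x) →
      Loc (mR σ (Function.update s i0 x)) (mW σ (Function.update s i0 x))
        (locAt n GV) (locAt n GW) := by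
  letI : TopologicalSpace (K i0) := (hD i0).top
  haveI : IsTopologicalRing (K i0) := (hD i0).isTopologicalRing
  obtain ⟨Z, l, hZ, hl⟩ := exists_bdd_left (fun i => (hD i).exh) hR
  have hT : ∀ (x : K i0) (c : ℕ), {z | Sm n (locDT (S i0) (K i0) n (θ i0)) c (z - x)} ∈ 𝓝 x :=
    fun x c => ((hD i0).mem_nhds x _).2 ⟨c, fun z hz => hz⟩
  refine ⟨{x | (∀ a b, Sm n (locDT (S i0) (K i0) n (θ i0)) (l + 2 * l1 + 1)
      (RM (σ i0) x a b - RM (σ i0) (s i0) a b)) ∧
    (∀ a b, Sm n (locDT (S i0) (K i0) n (θ i0)) (l + 2 * l1 + 1)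
      (MM (σ i0) x a b - MM (σ i0) (s i0) a b))}, ?_, ?_⟩
  · exact Filter.Eventually.and (near_mat hT (continuous_RM (σ i0)) (s i0) _)
      (near_mat hT (continuous_MM (σ i0)) (s i0) _)
  · rintro x ⟨hx1, hx2⟩ hxst hxM
    refine loc_of_close (l := l) hn (fun i => (hD i).exh) hθ (lData hxV hV1 hV2 hGV)
      (lData hxW hW1 hW2 hGW) ?_ hZ hl ?_ ?_ ?_ hL
    · intro i
      by_cases h : i = i0
      · subst h; rw [Function.update_self]; exact hxst
      · rw [Function.update_of_ne h]; exact hst i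
    · intro i
      by_cases h : i = i0
      · subst h; rw [Function.update_self]; exact hxM
      · rw [Function.update_of_ne h]; exact hM i
    · intro i a b
      by_cases h : i = i0
      · subst h; rw [Function.update_self]; exact hx1 a b
      · rw [Function.update_of_ne h, sub_self]; exact Sm.zero _
    · intro i a b
      by_cases h : i = i0
      · subst h; rw [Function.update_self]; exact hx2 a b
      · rw [Function.update_of_ne h, sub_self]; exact Sm.zero _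

end Pool.Agent.DEC
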