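import Mathlib

/-!
# DEC, LG1: dense subrings of a number field and unimodular rows

`K` is a field, `O` a subring containing `1/d` (for example `Z[1/d][t]/g`), `D` a subring of
`d`-local elements (for example `Z_(d)[t]/g`).  `Den d O D` collects the properties which are used.
-/

set_option autoImplicit false

open scoped BigOperators
open Matrix Polynomial

namespace Pool.Agent.DEC

/-- `O` is dense in `K` for the `d`-adic topology given by `D`, with congruences prime to `d` -/
structure Den {K : Type} [Field K] (d : ℕ) (O D : Subring K) : Prop where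
  dne : (d : K) ≠ 0
  inv : (d : K)⁻¹ ∈ O
  dens : ∀ (z z0 : K) (c n : ℕ), z0 ∈ O → n ≠ 0 → Nat.Coprime n d →
    ∃ z' ∈ O, (∃ w ∈ D, z' = z + (d : K) ^ c * w) ∧ ∃ w' ∈ O, z' = z0 + (n : K) * w'
  unit : ∀ u ∈ O, u ≠ 0 → ∃ n : ℕ, n ≠ 0 ∧ Nat.Coprime n d ∧ ∃ v ∈ O, u * v = (n : K)
  jac : ∀ z ∈ D, ∃ w ∈ D, (1 + (d : K) * z) * w = 1
  exh : ∀ z : K, ∃ k : ℕ, (d : K) ^ k * z ∈ D

section Sm0

variable {K : Type} [CommRing K] {d : ℕ} {D : Subring K}

/-- `z` is divisible by `d ^ c` in `D` -/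
def Sm (d : ℕ) (D : Subring K) (c : ℕ) (z : K) : Prop := ∃ w ∈ D, z = (d : K) ^ c * w

lemma Sm.zero (c : ℕ) : Sm d D c 0 := ⟨0, D.zero_mem, by simp⟩

lemma Sm.add {c : ℕ} {x y : K} (hx : Sm d D c x) (hy : Sm d D c y) : Sm d D c (x + y) := by
  obtain ⟨a, ha, rfl⟩ := hx
  obtain ⟨b, hb, rfl⟩ := hy
  exact ⟨a + b, D.add_mem ha hb, by ring⟩

lemma Sm.neg {c : ℕ} {x : K} (hx : Sm d D c x) : Sm d D c (-x) := by
  obtain ⟨a, ha, rfl⟩ := hx
  exact ⟨-a, D.neg_mem ha, by ring⟩

lemma Sm.sub {c : ℕ} {x y : K} (hx : Sm d D c x) (hy : Sm d D c y) : Sm d D c (x - y) := by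
  rw [sub_eq_add_neg]
  exact hx.add hy.neg

lemma Sm.sum {ι : Type} {c : ℕ} {s : Finset ι} {f : ι → K} (h : ∀ i ∈ s, Sm d D c (f i)) :
    Sm d D c (∑ i ∈ s, f i) := by
  classical
  induction s using Finset.induction_on with
  | empty => simpa using Sm.zero c
  | insert i s hi ih =>
    rw [Finset.sum_insert hi]
    exact (h i (Finset.mem_insert_self i s)).add
      (ih fun j hj => h j (Finset.mem_insert_of_mem hj))

lemma Sm.mul_mem {c : ℕ} {x y : K} (hx : Sm d D c x) (hy : y ∈ D) : Sm d D c (x * y) := by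
  obtain ⟨a, ha, rfl⟩ := hx
  exact ⟨a * y, D.mul_mem ha hy, by ring⟩

lemma Sm.mono {c c' : ℕ} (h : c' ≤ c) {x : K} (hx : Sm d D c x) : Sm d D c' x := by
  obtain ⟨a, ha, rfl⟩ := hx
  obtain ⟨k, rfl⟩ := Nat.exists_eq_add_of_le h
  refine ⟨(d : K) ^ k * a, D.mul_mem (D.pow_mem (natCast_mem D d) k) ha, ?_⟩
  rw [pow_add, mul_assoc]

lemma Sm.mul {c k : ℕ} {x y : K} (hx : Sm d D (c + k) x) (hy : (d : K) ^ k * y ∈ D) :
    Sm d D c (x * y) := by
  obtain ⟨a, ha, rfl⟩ := hx
  refine ⟨a * ((d : K) ^ k * y), D.mul_mem ha hy, ?_⟩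
  rw [pow_add]
  ring

end Sm0

section Sm

variable {K : Type} [Field K] {d : ℕ} {O D : Subring K}

lemma Den.exh_fin (h : Den d O D) {ι : Type} (s : Finset ι) (f : ι → K) :
    ∃ k : ℕ, ∀ i ∈ s, ∀ m, k ≤ m → (d : K) ^ m * f i ∈ D := by
  classical
  choose k hk using fun i => h.exh (f i)
  refine ⟨s.sup k, fun i hi m hm => ?_⟩
  have h1 : k i ≤ m := (Finset.le_sup hi).trans hm
  obtain ⟨l, rfl⟩ := Nat.exists_eq_add_of_le h1
  rw [pow_add, mul_comm ((d : K) ^ k i), mul_assoc]
  exact D.mul_mem (D.pow_mem (natCast_mem D d) l) (hk i)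

/-- multiplication by a fixed element is continuous -/
lemma Den.mul_left (h : Den d O D) (y : K) : ∃ k : ℕ, ∀ c x, Sm d D (c + k) x →
    Sm d D c (x * y) := by
  obtain ⟨k, hk⟩ := h.exh y
  exact ⟨k, fun c x hx => hx.mul hk⟩

/-- the product with a fixed matrix is continuous -/
lemma Den.vecMul (h : Den d O D) {m n : Type} [Fintype m] [Fintype n] (M : Matrix m n K) :
    ∃ k : ℕ, ∀ (c : ℕ) (v : m → K), (∀ i, Sm d D (c + k) (v i)) →
      ∀ j, Sm d D c ((v ᵥ* M) j) := by
  obtain ⟨k, hk⟩ := h.exh_fin (Finset.univ : Finset (m × n)) (fun x => M x.1 x.2)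
  refine ⟨k, fun c v hv j => ?_⟩
  rw [Matrix.vecMul, dotProduct]
  exact Sm.sum fun i _ => (hv i).mul (hk (i, j) (Finset.mem_univ _) k le_rfl)

/-- the determinant is continuous -/
lemma Den.det (h : Den d O D) {n : Type} [Fintype n] [DecidableEq n] (M : Matrix n n K) :
    ∃ k : ℕ, ∀ (c : ℕ) (N : Matrix n n K), (∀ i j, Sm d D (c + k) (N i j - M i j)) →
      Sm d D c (N.det - M.det) := by
  obtain ⟨k, hk⟩ := h.exh_fin (Finset.univ : Finset (n × n)) (fun x => M x.1 x.2)
  refine ⟨k * Fintype.card n, fun c N hN => ?_⟩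
  have hM' : ∀ i j, (d : K) ^ k * M i j ∈ D := fun i j => hk (i, j) (Finset.mem_univ _) k le_rfl
  choose E hE hNE using hN
  set MD : Matrix n n D := of fun i j => ⟨(d : K) ^ k * M i j, hM' i j⟩ with hMD
  set ED : Matrix n n D := of fun i j => ⟨E i j, hE i j⟩ with hED
  set e := c + k * Fintype.card n + k with he
  set ND : Matrix n n D := MD + ((d : D) ^ e) • ED with hND
  have h1 : MD.map D.subtype = (d : K) ^ k • M := by
    ext i j
    simp [hMD]
  have h2 : ND.map D.subtype = (d : K) ^ k • N := by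
    ext i j
    have h3 : N i j = M i j + (d : K) ^ (c + k * Fintype.card n) * E i j := by
      rw [← hNE i j]
      ring
    rw [Matrix.smul_apply, h3]
    simp only [hND, hMD, hED, Matrix.map_apply, Matrix.add_apply, Matrix.smul_apply, of_apply,
      Subring.subtype_apply, Subring.coe_add, smul_eq_mul, Subring.coe_mul, Subring.coe_pow,
      Subring.coe_natCast]
    rw [he, pow_add (d : K) (c + k * Fintype.card n) k]
    ring
  have h4 : ∃ w : D, ND.det = MD.det + (d : D) ^ e * w := by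
    have h5 : (Ideal.Quotient.mk (Ideal.span {(d : D) ^ e})).mapMatrix ND =
        (Ideal.Quotient.mk (Ideal.span {(d : D) ^ e})).mapMatrix MD := by
      ext i j
      rw [RingHom.mapMatrix_apply, RingHom.mapMatrix_apply, Matrix.map_apply, Matrix.map_apply,
        Ideal.Quotient.eq, Ideal.mem_span_singleton]
      refine ⟨ED i j, ?_⟩
      simp only [hND, Matrix.add_apply, Matrix.smul_apply, smul_eq_mul]
      ring
    have h6 := congrArg Matrix.det h5
    rw [← RingHom.map_det, ← RingHom.map_det, Ideal.Quotient.eq, Ideal.mem_span_singleton] at h6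
    obtain ⟨w, hw⟩ := h6
    exact ⟨w, by rw [← hw]; ring⟩
  obtain ⟨w, hw⟩ := h4
  have h7 := congrArg D.subtype hw
  rw [map_add, map_mul, map_pow, RingHom.map_det, RingHom.map_det, RingHom.mapMatrix_apply,
    RingHom.mapMatrix_apply, h1, h2, det_smul, det_smul, map_natCast] at h7
  refine ⟨(d : K) ^ k * (w : K), D.mul_mem (D.pow_mem (natCast_mem D d) k) w.2, ?_⟩
  have h8 : ((d : K) ^ k) ^ Fintype.card n ≠ 0 := pow_ne_zero _ (pow_ne_zero _ h.dne)
  apply mul_left_cancel₀ h8
  rw [mul_sub, h7, he, ← pow_mul]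
  simp only [Subring.subtype_apply]
  rw [pow_add, pow_add]
  ring

/-- elements close to a unit are invertible, with control -/
lemma Den.near_unit (h : Den d O D) (u : K) (hu : u ≠ 0) : ∃ k : ℕ, ∀ (c : ℕ) (x : K),
    Sm d D (c + k) (x - u) → x ≠ 0 ∧ Sm d D c (u / x - 1) := by
  obtain ⟨k, hk⟩ := h.exh u⁻¹
  refine ⟨k + 1, fun c x hx => ?_⟩
  obtain ⟨a, ha, hxa⟩ := hx
  have h1 : x = u * (1 + (d : K) * ((d : K) ^ c * (a * ((d : K) ^ k * u⁻¹)))) := by
    have h2 : x = u + (d : K) ^ (c + (k + 1)) * a := by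
      rw [← hxa]
      ring
    rw [h2, mul_add, mul_one]
    congr 1
    rw [pow_add, pow_succ]
    field_simp
  have h3 : (d : K) ^ c * (a * ((d : K) ^ k * u⁻¹)) ∈ D :=
    D.mul_mem (D.pow_mem (natCast_mem D d) c) (D.mul_mem ha hk)
  obtain ⟨w, hw, hw1⟩ := h.jac _ h3
  set y := a * ((d : K) ^ k * u⁻¹) with hy
  have hyD : y ∈ D := D.mul_mem ha hk
  have h4 : (1 + (d : K) * ((d : K) ^ c * y)) ≠ 0 := by
    intro h0
    rw [h0, zero_mul] at hw1
    exact zero_ne_one hw1
  have hx0 : x ≠ 0 := by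
    rw [h1]
    exact mul_ne_zero hu h4
  refine ⟨hx0, -(y * (d : K) * w), D.neg_mem (D.mul_mem (D.mul_mem hyD (natCast_mem D d)) hw), ?_⟩
  have h5 : u / x = w := by
    rw [div_eq_iff hx0, h1]
    calc u = u * ((1 + (d : K) * ((d : K) ^ c * y)) * w) := by rw [hw1, mul_one]
      _ = w * (u * (1 + (d : K) * ((d : K) ^ c * y))) := by ring
  rw [h5]
  have h6 : w = 1 - (d : K) * ((d : K) ^ c * y) * w := by
    have := hw1
    linear_combination this
  calc w - 1 = - ((d : K) * ((d : K) ^ c * y) * w) := by linear_combination h6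
    _ = (d : K) ^ c * -(y * (d : K) * w) := by ring

end Sm

section P

variable {K : Type} [Field K] {d : ℕ} {O D : Subring K}

/-- Lemma P, the row: a row near `η` which can be completed -/
lemma Den.row (h : Den d O D) {n : Type} [DecidableEq n] {a b : n} (hab : a ≠ b)
    (η : n → K) (c : ℕ) : ∃ (ξ : n → O) (z : O),
      (∀ j, Sm d D c ((ξ j : K) - η j)) ∧ ξ b = 1 + ξ a * z := by
  have happ : ∀ (z z0 : K) (n : ℕ), z0 ∈ O → n ≠ 0 → Nat.Coprime n d →
      ∃ z' : O, Sm d D c ((z' : K) - z) ∧ ∃ w' ∈ O, (z' : K) = z0 + (n : K) * w' := by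
    intro z z0 n h0 h1 h2
    obtain ⟨z', hz', ⟨w, hw, e1⟩, e2⟩ := h.dens z z0 c n h0 h1 h2
    exact ⟨⟨z', hz'⟩, ⟨w, hw, by show z' - z = _; rw [e1]; ring⟩, e2⟩
  obtain ⟨ua, hua, hua0⟩ : ∃ ua : O, Sm d D c ((ua : K) - η a) ∧ ua ≠ 0 := by
    obtain ⟨z', hz', -⟩ := happ (η a) 0 1 O.zero_mem one_ne_zero (Nat.coprime_one_left d)
    by_cases h0 : z' = 0
    · refine ⟨(d : O) ^ c, ?_, ?_⟩
      · have h1 : ((((d : O) ^ c : O) : K) - η a) = (d : K) ^ c * 1 + ((z' : K) - η a) := by
          rw [h0]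
          simp only [Subring.coe_pow, Subring.coe_natCast, Subring.coe_zero]
          ring
        rw [h1]
        exact Sm.add ⟨1, D.one_mem, rfl⟩ hz'
      · intro h1
        have h2 := congrArg (fun x : O => (x : K)) h1
        simp only [Subring.coe_pow, Subring.coe_natCast, Subring.coe_zero] at h2
        exact pow_ne_zero c h.dne h2
    · exact ⟨z', hz', h0⟩
  obtain ⟨n, hn0, hn, v, hv, huv⟩ := h.unit ua ua.2 (fun h0 => hua0 (Subtype.ext h0))
  obtain ⟨ub, hub, w', hw', hub2⟩ := happ (η b) 1 n O.one_mem hn0 hn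
  choose ζ hζ _ using fun j => happ (η j) 0 1 O.zero_mem one_ne_zero (Nat.coprime_one_left d)
  refine ⟨fun j => if j = a then ua else if j = b then ub else ζ j, ⟨v, hv⟩ * ⟨w', hw'⟩,
    fun j => ?_, ?_⟩
  · show Sm d D c (((if j = a then ua else if j = b then ub else ζ j : O) : K) - η j)
    split_ifs with h1 h2
    · rw [h1]
      exact hua
    · rw [h2]
      exact hub
    · exact hζ j
  · show (if b = a then ua else if b = b then ub else ζ b) =
      1 + (if a = a then ua else if a = b then ub else ζ a) * (⟨v, hv⟩ * ⟨w', hw'⟩)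
    rw [if_neg hab.symm, if_pos rfl, if_pos rfl]
    apply Subtype.ext
    simp only [Subring.coe_add, Subring.coe_one, Subring.coe_mul]
    rw [hub2, ← huv]
    ring

/-- approximation of a row -/
lemma Den.approx (h : Den d O D) {n : Type} (η : n → K) (c : ℕ) : ∃ ξ : n → O,
    ∀ j, Sm d D c ((ξ j : K) - η j) := by
  have : ∀ j, ∃ z : O, Sm d D c ((z : K) - η j) := by
    intro j
    obtain ⟨z', hz', ⟨w, hw, e1⟩, -⟩ := h.dens (η j) 0 c 1 O.zero_mem one_ne_zero
      (Nat.coprime_one_left d)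
    exact ⟨⟨z', hz'⟩, w, hw, by show z' - η j = _; rw [e1]; ring⟩
  choose ξ hξ using this
  exact ⟨ξ, hξ⟩

/-- Lemma P, the completion (explicit, over any commutative ring) -/
lemma exists_completion {R n : Type} [CommRing R] [Fintype n] [DecidableEq n] {a b : n}
    (hab : a ≠ b) (ξ : n → R) (z : R) (hz : ξ b = 1 + ξ a * z) : ∃ η : Matrix n n R,
      η.det = 1 ∧ (∀ j, η a j = ξ j) ∧ (∀ i, i ≠ a → i ≠ b → ∀ j, η i j = (1 : Matrix n n R) i j) ∧
      ∀ j, j ≠ a → j ≠ b → η b j = 0 := by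
  set v0 : n → R := fun j => if j = a then 1 else if j = b then 0 else ξ j with hv0
  set T := transvection a b (1 : R) * transvection b a (ξ a - 1) * transvection a b z with hT
  have hdT : T.det = 1 := by
    rw [hT, det_mul, det_mul, det_transvection_of_ne _ _ hab, det_transvection_of_ne _ _ hab.symm,
      det_transvection_of_ne _ _ hab]
    ring
  have htr : ∀ (i j : n) (c : R) (v : n → R) (k : n), (v ᵥ* transvection i j c) k =
      v k + if k = j then c * v i else 0 := by
    intro i j c v k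
    rw [transvection, Matrix.vecMul_add, Matrix.vecMul_one, Pi.add_apply]
    congr 1
    simp only [Matrix.vecMul, dotProduct, Matrix.single_apply]
    by_cases hk : k = j
    · rw [if_pos hk]
      subst hk
      rw [Finset.sum_eq_single i]
      · simp [mul_comm]
      · intro l _ hl
        simp [Ne.symm hl]
      · intro hl
        exact absurd (Finset.mem_univ _) hl
    · rw [if_neg hk]
      refine Finset.sum_eq_zero fun l _ => ?_
      have : ¬ (i = l ∧ j = k) := fun h => hk h.2.symm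
      simp [this]
  have hrow : ∀ v : n → R, ∀ k, (v ᵥ* T) k =
      if k = a then ξ a * v a + (ξ a - 1) * v b else
      if k = b then v b + v a + z * (ξ a * v a + (ξ a - 1) * v b) else v k := by
    intro v k
    rw [hT, ← Matrix.vecMul_vecMul, ← Matrix.vecMul_vecMul]
    simp only [htr]
    by_cases hka : k = a
    · subst hka
      simp only [if_pos, if_neg hab, if_neg hab.symm, if_true]
      ring
    · by_cases hkb : k = b
      · subst hkb
        simp only [if_neg hka, if_true, if_neg hab]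
        ring
      · simp only [if_neg hka, if_neg hkb]
        ring
  refine ⟨(1 : Matrix n n R).updateRow a v0 * T, ?_, ?_, ?_, ?_⟩
  · rw [det_mul, hdT, mul_one]
    have h1 : v0 = ∑ k, v0 k • (1 : Matrix n n R) k := by
      funext j
      rw [Finset.sum_apply]
      simp only [Pi.smul_apply, smul_eq_mul, Matrix.one_apply, mul_ite, mul_one, mul_zero]
      rw [Finset.sum_ite_eq' Finset.univ j, if_pos (Finset.mem_univ _)]
    have h2 := det_updateRow_sum (1 : Matrix n n R) a v0
    rw [← h1, det_one] at h2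
    rw [h2]
    simp [hv0]
  · intro j
    have h1 : ((1 : Matrix n n R).updateRow a v0 * T) a j = (v0 ᵥ* T) j := by
      rw [Matrix.mul_apply_eq_vecMul, Matrix.updateRow_self]
    rw [h1, hrow]
    by_cases hja : j = a
    · subst hja
      simp [hv0, hab.symm]
    · by_cases hjb : j = b
      · subst hjb
        simp only [if_neg hja, if_true, hv0, if_neg hab.symm]
        rw [hz]
        ring
      · simp [hja, hjb, hv0]
  · intro i hia hib j
    have h1 : ((1 : Matrix n n R).updateRow a v0 * T) i j = (((1 : Matrix n n R) i) ᵥ* T) j := by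
      rw [Matrix.mul_apply_eq_vecMul, Matrix.updateRow_ne hia]
    rw [h1, hrow]
    have h2 : (1 : Matrix n n R) i a = 0 := Matrix.one_apply_ne hia
    have h3 : (1 : Matrix n n R) i b = 0 := Matrix.one_apply_ne hib
    rw [h2, h3]
    by_cases hja : j = a
    · subst hja
      simp [h2]
    · by_cases hjb : j = b
      · subst hjb
        simp [hja, h3]
      · simp [hja, hjb]
  · intro j hja hjb
    have h1 : ((1 : Matrix n n R).updateRow a v0 * T) b j = (((1 : Matrix n n R) b) ᵥ* T) j := by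
      rw [Matrix.mul_apply_eq_vecMul, Matrix.updateRow_ne hab.symm]
    rw [h1, hrow, if_neg hja, if_neg hjb]
    exact Matrix.one_apply_ne (Ne.symm hjb)

end P

end Pool.Agent.DEC
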