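import Pool.Agent.DEC.LocN

/-!
# DEC, block ST3: the condition localised at `n` for pairs of linear maps

`R : E → V`, `m : E → W` are `ℚ`-linear, `U ≤ V`, `Y ≤ W` subgroups. `Loc R m U Y` says
`m (R⁻¹ U) = Y`. In the application `U = V_n`, `Y = W_n` are the localisations at `n` of the
dimension groups.

* `Loc.perturb` (L2): the condition is kept by maps `R'`, `m'` near `R`, `m`.
* `Loc.small` (L3): congruences modulo `n ^ c` give the hypotheses of (L2).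
* `Loc.comp_right`, `Loc.comp_left` (L1): base change and scaling.
* `Loc.glue` (L4).
-/

set_option autoImplicit false
set_option linter.unusedSectionVars false

namespace Pool.Agent.DEC

variable {E V W : Type*} [AddCommGroup E] [Module ℚ E] [AddCommGroup V] [Module ℚ V]
  [AddCommGroup W] [Module ℚ W]

/-- `m (R⁻¹ U) = Y` -/
def Loc (R : E →ₗ[ℚ] V) (m : E →ₗ[ℚ] W) (U : AddSubgroup V) (Y : AddSubgroup W) : Prop :=
  (∀ z, R z ∈ U → m z ∈ Y) ∧ ∀ y ∈ Y, ∃ z, R z ∈ U ∧ m z = y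

theorem loc_iff_good {R : E →ₗ[ℚ] V} {m : E →ₗ[ℚ] W} {U : AddSubgroup V} {Y : AddSubgroup W} :
    Loc R m U Y ↔ GoodRel (LinearMap.range (R.prod m)) U Y := by
  constructor
  · rintro ⟨h1, h2⟩
    refine ⟨?_, fun y hy => ?_⟩
    · rintro x ⟨z, rfl⟩ hx
      exact h1 z hx
    · obtain ⟨z, hz, rfl⟩ := h2 y hy
      exact ⟨R z, hz, z, rfl⟩
  · rintro ⟨h1, h2⟩
    refine ⟨fun z hz => h1 (R z, m z) ⟨z, rfl⟩ hz, fun y hy => ?_⟩
    obtain ⟨u, hu, z, hz⟩ := h2 y hy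
    have h3 : R z = u := congrArg Prod.fst hz
    exact ⟨z, h3 ▸ hu, congrArg Prod.snd hz⟩

/-- **(L4)** gluing -/
theorem Loc.glue {n : ℕ} {R : E →ₗ[ℚ] V} {m : E →ₗ[ℚ] W} {U : AddSubgroup V}
    {Y : AddSubgroup W} (h1 : Loc R m (locAt n U) (locAt n Y))
    (h2 : Loc R m (away n U) (away n Y)) : Loc R m U Y :=
  loc_iff_good.2 ((loc_iff_good.1 h1).glue (loc_iff_good.1 h2))

theorem Loc.locAt {n : ℕ} {R : E →ₗ[ℚ] V} {m : E →ₗ[ℚ] W} {U : AddSubgroup V}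
    {Y : AddSubgroup W} (h : Loc R m U Y) : Loc R m (locAt n U) (DEC.locAt n Y) :=
  loc_iff_good.2 (loc_iff_good.1 h).locAt

theorem Loc.away {n : ℕ} (hn : n ≠ 0) {R : E →ₗ[ℚ] V} {m : E →ₗ[ℚ] W} {U : AddSubgroup V}
    {Y : AddSubgroup W} (h : Loc R m U Y) : Loc R m (away n U) (DEC.away n Y) :=
  loc_iff_good.2 ((loc_iff_good.1 h).away hn)

/-! ### (L1) -/

/-- base change -/
theorem Loc.comp_right {E' : Type*} [AddCommGroup E'] [Module ℚ E'] {R : E →ₗ[ℚ] V}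
    {m : E →ₗ[ℚ] W} {U : AddSubgroup V} {Y : AddSubgroup W} (h : Loc R m U Y)
    (g : E' →ₗ[ℚ] E) (hg : Function.Surjective g) : Loc (R ∘ₗ g) (m ∘ₗ g) U Y := by
  refine ⟨fun z hz => h.1 _ hz, fun y hy => ?_⟩
  obtain ⟨z, hz, rfl⟩ := h.2 y hy
  obtain ⟨z', rfl⟩ := hg z
  exact ⟨z', hz, rfl⟩

/-- automorphisms of `W` and `V` which preserve `Y` and `U` -/
theorem Loc.comp_left {R : E →ₗ[ℚ] V} {m : E →ₗ[ℚ] W} {U : AddSubgroup V} {Y : AddSubgroup W}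
    (h : Loc R m U Y) (F : W →ₗ[ℚ] W) (hF : ∀ w ∈ Y, F w ∈ Y) (G : W →ₗ[ℚ] W)
    (hG : ∀ w ∈ Y, G w ∈ Y) (hFG : ∀ w, F (G w) = w) : Loc R (F ∘ₗ m) U Y := by
  refine ⟨fun z hz => hF _ (h.1 z hz), fun y hy => ?_⟩
  obtain ⟨z, hz, hz2⟩ := h.2 (G y) (hG y hy)
  exact ⟨z, hz, by rw [LinearMap.comp_apply, hz2, hFG]⟩

/-! ### (L3) -/

theorem nsmul_cancel {n : ℕ} (hn : n ≠ 0) {v w : V} (h : n • v = n • w) : v = w := by
  rw [← Nat.cast_smul_eq_nsmul ℚ, ← Nat.cast_smul_eq_nsmul ℚ] at h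
  exact smul_right_injective V (by exact_mod_cast hn : (n : ℚ) ≠ 0) h

theorem small_aux {n l l1 c : ℕ} (hn : n ≠ 0) (hc : l + 2 * l1 + 1 ≤ c) {D : E →ₗ[ℚ] V}
    {U UO : AddSubgroup V} {EO : AddSubgroup E} (hU : ∀ v ∈ UO, n ^ l1 • v ∈ U)
    (hD : ∀ z ∈ EO, ∃ v ∈ UO, D z = n ^ c • v) {z : E} (hz : n ^ (l + l1) • z ∈ EO) :
    ∃ v ∈ U, D z = n • v := by
  obtain ⟨v, hv, h1⟩ := hD _ hz
  obtain ⟨k, rfl⟩ := Nat.exists_eq_add_of_le hc
  refine ⟨n ^ k • (n ^ l1 • v), U.nsmul_mem (hU v hv) _, ?_⟩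
  rw [map_nsmul] at h1
  apply nsmul_cancel (pow_ne_zero (l + l1) hn)
  rw [h1, smul_smul, smul_smul, smul_smul]
  congr 1
  ring

/-- **(L3)** -/
theorem Loc.small {n l l1 c : ℕ} (hn : n ≠ 0) (hc : l + 2 * l1 + 1 ≤ c)
    {R R' : E →ₗ[ℚ] V} {m m' : E →ₗ[ℚ] W} {U UO : AddSubgroup V} {Y YO : AddSubgroup W}
    {EO : AddSubgroup E} (hU1 : ∀ v ∈ UO, n ^ l1 • v ∈ U) (hU2 : ∀ v ∈ U, n ^ l1 • v ∈ UO)
    (hY1 : ∀ v ∈ YO, n ^ l1 • v ∈ Y) (hY2 : ∀ v ∈ Y, n ^ l1 • v ∈ YO)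
    (hB : ∀ z, R z ∈ UO → m z ∈ YO → n ^ l • z ∈ EO)
    (hcR : ∀ z ∈ EO, ∃ v ∈ UO, (R' - R) z = n ^ c • v)
    (hcm : ∀ z ∈ EO, ∃ v ∈ YO, (m' - m) z = n ^ c • v) (h : Loc R m U Y) :
    (∀ z, R z ∈ U → n ^ (l + l1) • z ∈ EO) ∧
    (∀ z, R z ∈ U → ∃ v ∈ U, (R' - R) z = n • v) ∧
    (∀ z, R z ∈ U → ∃ v ∈ Y, (m' - m) z = n • v) := by
  have h1 : ∀ z, R z ∈ U → n ^ (l + l1) • z ∈ EO := by
    intro z hz
    have h2 := hB (n ^ l1 • z) (by rw [map_nsmul]; exact hU2 _ hz)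
      (by rw [map_nsmul]; exact hY2 _ (h.1 z hz))
    rwa [smul_smul, ← pow_add] at h2
  exact ⟨h1, fun z hz => small_aux hn hc hU1 hcR (h1 z hz),
    fun z hz => small_aux hn hc hY1 hcm (h1 z hz)⟩

/-! ### (L2) -/

/-- `Y` is the localisation at `n` of a finitely generated module over `ℤ[t, 1/t]` -/
structure LFG (n : ℕ) (tW : W ≃ₗ[ℚ] W) (Y : AddSubgroup W) : Prop where
  div : ∀ (m : ℕ) (w : W), m ≠ 0 → m.Coprime n → m • w ∈ Y → w ∈ Y
  stab : ∀ w, tW w ∈ Y ↔ w ∈ Y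
  fg : ∃ Y0 : AddSubgroup W, Y0.FG ∧ Y0 ≤ Y ∧
    ∀ w ∈ Y, ∃ k m : ℕ, m ≠ 0 ∧ m.Coprime n ∧ m • (tW^[k]) w ∈ Y0

theorem LFG.stab_pow {n : ℕ} {tW : W ≃ₗ[ℚ] W} {Y : AddSubgroup W} (h : LFG n tW Y) (k : ℕ)
    (w : W) : (tW^[k]) w ∈ Y ↔ w ∈ Y := by
  induction k generalizing w with
  | zero => exact Iff.rfl
  | succ k ih => rw [Function.iterate_succ_apply, ih, h.stab]

/-- the localisation of the union of the `t⁻ᵏ G0`, `G0` finitely generated -/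
theorem lfg_locAt {n : ℕ} {tW : W ≃ₗ[ℚ] W} {G G0 : AddSubgroup W} (hG0 : G0.FG)
    (hG : ∀ w, w ∈ G ↔ ∃ k : ℕ, (tW^[k]) w ∈ G0) (hst : ∀ w ∈ G0, tW w ∈ G0) :
    LFG n tW (locAt n G) := by
  have hn : ∀ (j a : ℕ) (w : W), (tW^[j]) (a • w) = a • (tW^[j]) w := by
    intro j a
    induction j with
    | zero => intro w; rfl
    | succ j ih =>
      intro w
      rw [Function.iterate_succ_apply, Function.iterate_succ_apply, map_nsmul, ih]
  have hGt : ∀ w, tW w ∈ G ↔ w ∈ G := by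
    intro w
    rw [hG, hG]
    constructor
    · rintro ⟨k, hk⟩
      exact ⟨k + 1, by rwa [Function.iterate_succ_apply]⟩
    · rintro ⟨k, hk⟩
      refine ⟨k, ?_⟩
      rw [← Function.iterate_succ_apply, Function.iterate_succ_apply']
      exact hst _ hk
  refine ⟨?_, ?_, G0, hG0, ?_, ?_⟩
  · rintro m w hm hmn ⟨k, hk, hkn, hw⟩
    exact ⟨k * m, mul_ne_zero hk hm, Nat.Coprime.mul_left hkn hmn, by rwa [mul_smul]⟩
  · intro w
    constructor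
    · rintro ⟨k, hk, hkn, hw⟩
      exact ⟨k, hk, hkn, by rwa [← map_nsmul, hGt] at hw⟩
    · rintro ⟨k, hk, hkn, hw⟩
      exact ⟨k, hk, hkn, by rwa [← map_nsmul, hGt]⟩
  · intro w hw
    exact le_locAt n G ((hG w).2 ⟨0, hw⟩)
  · rintro w ⟨k, hk, hkn, hw⟩
    obtain ⟨j, hj⟩ := (hG _).1 hw
    exact ⟨j, k, hk, hkn, by rwa [hn] at hj⟩

/-- every vector is in `n⁻ᵏ U` for some `k` -/
theorem exists_pow_locAt {n : ℕ} {G : AddSubgroup W} (hG : ∀ w, ∃ D : ℕ, D ≠ 0 ∧ D • w ∈ G)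
    (w : W) : ∃ k : ℕ, n ^ k • w ∈ locAt n G := by
  obtain ⟨D, hD, hw⟩ := hG w
  obtain ⟨e, m, hm, hmn, c, hc⟩ := exists_pow_mul n D hD
  refine ⟨e, m, hm, hmn, ?_⟩
  rw [smul_smul, mul_comm, hc, mul_comm, mul_smul]
  exact G.nsmul_mem hw c

/-- the values of `m'` on `R'⁻¹ U` -/
def imU (R : E →ₗ[ℚ] V) (m : E →ₗ[ℚ] W) (U : AddSubgroup V) : AddSubgroup W where
  carrier := {w | ∃ z, R z ∈ U ∧ m z = w}
  zero_mem' := ⟨0, by rw [map_zero]; exact U.zero_mem, map_zero m⟩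
  add_mem' := by
    rintro a b ⟨z, hz, rfl⟩ ⟨z', hz', rfl⟩
    exact ⟨z + z', by rw [map_add]; exact U.add_mem hz hz', map_add m z z'⟩
  neg_mem' := by
    rintro a ⟨z, hz, rfl⟩
    exact ⟨-z, by rw [map_neg]; exact U.neg_mem hz, map_neg m z⟩

theorem LFG.pow_mem {n : ℕ} {tW : W ≃ₗ[ℚ] W} {Y : AddSubgroup W} (h : LFG n tW Y)
    {Q : AddSubgroup W} (hdiv : ∀ (m : ℕ) (w : W), m ≠ 0 → m.Coprime n → m • w ∈ Q → w ∈ Q)
    (hst : ∀ w, tW w ∈ Q → w ∈ Q) (hpow : ∀ w ∈ Y, ∃ k : ℕ, n ^ k • w ∈ Q) :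
    ∃ k : ℕ, ∀ w ∈ Y, n ^ k • w ∈ Q := by
  obtain ⟨Y0, ⟨S, hS⟩, hle, hY⟩ := h.fg
  have h1 : ∀ s : S, ∃ k : ℕ, n ^ k • (s : W) ∈ Q := fun s => hpow _ (hle (by
    rw [← hS]; exact AddSubgroup.subset_closure s.2))
  obtain ⟨k, hk⟩ := exists_pow_fin (fun (s : S) k => n ^ k • (s : W) ∈ Q)
    (fun s e e' hee he => by
      obtain ⟨j, rfl⟩ := Nat.exists_eq_add_of_le hee
      rw [add_comm, pow_add, mul_smul]
      exact Q.nsmul_mem he _) h1
  refine ⟨k, fun w hw => ?_⟩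
  have h2 : ∀ w ∈ Y0, n ^ k • w ∈ Q := by
    intro w hw
    rw [← hS] at hw
    induction hw using AddSubgroup.closure_induction with
    | mem s hs => exact hk ⟨s, hs⟩
    | zero => rw [smul_zero]; exact Q.zero_mem
    | add a b _ _ ha hb => rw [smul_add]; exact Q.add_mem ha hb
    | neg a _ ha => rw [smul_neg]; exact Q.neg_mem ha
  obtain ⟨j, m, hm, hmn, hw2⟩ := hY w hw
  have h3 := h2 _ hw2
  have h4 : n ^ k • (m • (tW^[j]) w) = (tW^[j]) (m • (n ^ k • w)) := by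
    have h5 : ∀ (j : ℕ) (a : ℕ) (w : W), (tW^[j]) (a • w) = a • (tW^[j]) w := by
      intro j a
      induction j with
      | zero => intro w; rfl
      | succ j ih => intro w; rw [Function.iterate_succ_apply, Function.iterate_succ_apply,
          map_nsmul, ih]
    rw [h5, h5, smul_comm]
  rw [h4] at h3
  have h6 : ∀ (j : ℕ) (w : W), (tW^[j]) w ∈ Q → w ∈ Q := by
    intro j
    induction j with
    | zero => intro w hw; exact hw
    | succ j ih =>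
      intro w hw
      rw [Function.iterate_succ_apply] at hw
      exact hst _ (ih _ hw)
  exact hdiv m _ hm hmn (h6 j _ h3)

/-- **(L2)** the condition is kept near `(R, m)` -/
theorem Loc.perturb {n : ℕ} (hn : n ≠ 0) {R R' : E →ₗ[ℚ] V} {m m' : E →ₗ[ℚ] W}
    (tE : E ≃ₗ[ℚ] E) {tV : V ≃ₗ[ℚ] V} {tW : W ≃ₗ[ℚ] W} (hR : ∀ z, R' (tE z) = tV (R' z))
    (hm : ∀ z, m' (tE z) = tW (m' z)) {U : AddSubgroup V} {Y : AddSubgroup W}
    (hU : LFG n tV U) (hUn : ∀ v, ∃ k : ℕ, n ^ k • v ∈ U) (hY : LFG n tW Y)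
    (h : Loc R m U Y) (h1 : ∀ z, R z ∈ U → ∃ v ∈ U, (R' - R) z = n • v)
    (h2 : ∀ z, R z ∈ U → ∃ w ∈ Y, (m' - m) z = n • w) (hs : Function.Surjective m') :
    (∀ z, R' z ∈ U ↔ R z ∈ U) ∧ Loc R' m' U Y := by
  have hL : ∀ z, R' z ∈ U ↔ R z ∈ U := by
    intro z
    constructor
    · intro hz
      have key : ∀ k : ℕ, R (n ^ k • z) ∈ U → R z ∈ U := by
        intro k
        induction k with
        | zero => intro hk; rwa [pow_zero, one_smul] at hk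
        | succ k ih =>
          intro hk
          apply ih
          obtain ⟨v, hv, hv2⟩ := h1 _ hk
          have h3 : n • R (n ^ k • z) = n • (n ^ k • R' z - v) := by
            rw [LinearMap.sub_apply, map_nsmul, map_nsmul] at hv2
            rw [map_nsmul, smul_sub, ← hv2, smul_smul, smul_smul, pow_succ']
            abel
          rw [nsmul_cancel hn h3]
          exact U.sub_mem (U.nsmul_mem hz _) hv
      obtain ⟨k, hk⟩ := hUn (R z)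
      exact key k (by rw [map_nsmul]; exact hk)
    · intro hz
      obtain ⟨v, hv, hv2⟩ := h1 z hz
      have h3 : R' z = R z + n • v := by rw [← hv2, LinearMap.sub_apply]; abel
      rw [h3]
      exact U.add_mem hz (U.nsmul_mem hv n)
  refine ⟨hL, ?_, ?_⟩
  · intro z hz
    have hz' := (hL z).1 hz
    obtain ⟨w, hw, hw2⟩ := h2 z hz'
    have h3 : m' z = m z + n • w := by rw [← hw2, LinearMap.sub_apply]; abel
    rw [h3]
    exact Y.add_mem (h.1 z hz') (Y.nsmul_mem hw n)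
  · have hdiv : ∀ (k : ℕ) (w : W), k ≠ 0 → k.Coprime n → k • w ∈ imU R' m' U →
        w ∈ imU R' m' U := by
      rintro k w hk hkn ⟨z, hz, hz2⟩
      refine ⟨(k : ℚ)⁻¹ • z, hU.div k _ hk hkn ?_, ?_⟩
      · rw [← map_nsmul, inv_nsmul hk]; exact hz
      · apply nsmul_cancel hk
        rw [← map_nsmul, inv_nsmul hk, hz2]
    have hst : ∀ w, tW w ∈ imU R' m' U → w ∈ imU R' m' U := by
      rintro w ⟨z, hz, hz2⟩
      refine ⟨tE.symm z, ?_, ?_⟩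
      · rw [← hU.stab, ← hR, LinearEquiv.apply_symm_apply]; exact hz
      · apply tW.injective
        rw [← hm, LinearEquiv.apply_symm_apply, hz2]
    have hpow : ∀ w ∈ Y, ∃ k : ℕ, n ^ k • w ∈ imU R' m' U := by
      intro w _
      obtain ⟨z, rfl⟩ := hs w
      obtain ⟨k, hk⟩ := hUn (R' z)
      exact ⟨k, n ^ k • z, by rw [map_nsmul]; exact hk, map_nsmul m' _ z⟩
    obtain ⟨k, hk⟩ := hY.pow_mem hdiv hst hpow
    have hrep : ∀ j : ℕ, ∀ y ∈ Y, ∃ w ∈ Y, y - n ^ j • w ∈ imU R' m' U := by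
      intro j
      induction j with
      | zero =>
        intro y hy
        exact ⟨y, hy, by rw [pow_zero, one_smul, sub_self]; exact AddSubgroup.zero_mem _⟩
      | succ j ih =>
        intro y hy
        obtain ⟨w, hw, hw2⟩ := ih y hy
        obtain ⟨z, hz, rfl⟩ := h.2 w hw
        obtain ⟨w', hw', hw3⟩ := h2 z hz
        refine ⟨-w', Y.neg_mem hw', ?_⟩
        have h3 : y - n ^ (j + 1) • (-w') = (y - n ^ j • m z) + n ^ j • m' z := by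
          have h4 : m' z = m z + n • w' := by rw [← hw3, LinearMap.sub_apply]; abel
          rw [h4, pow_succ, mul_smul, smul_add, smul_neg, smul_neg]
          abel
        have h5 : m' z ∈ imU R' m' U := ⟨z, (hL z).2 hz, rfl⟩
        rw [h3]
        exact AddSubgroup.add_mem _ hw2 (AddSubgroup.nsmul_mem _ h5 _)
    intro y hy
    obtain ⟨w, hw, hw2⟩ := hrep k y hy
    have h3 : y = (y - n ^ k • w) + n ^ k • w := by abel
    have h4 : y ∈ imU R' m' U := by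
      rw [h3]
      exact AddSubgroup.add_mem _ hw2 (hk w hw)
    exact h4

end Pool.Agent.DEC
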