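import Pool.Agent.DEC.State
import Pool.Agent.DEC.Loc
import Pool.Agent.DEC.LG1

/-!
# DEC: several fields (definitions only)

`F` the finite set of fields `K i` with generators `θ i`, `σ i` the shape (degrees, heights) at `i`.
A (multi-)state is a family `s i : RSt (K i) (I i) (α i) (β i)`.
`mR σ s : X → V`, `mW σ s : X → W` the maps, `xM θ h` the action of `x = θ + y`.
`locOT`, `locDT` : the rings `S[1/θ][1/n]` and `S[1/θ]` localised at the integers prime to `n`.
-/

set_option autoImplicit false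

open Matrix

namespace Pool.Agent.DEC

section rings

variable (S K : Type) [CommRing S] [Field K] [Algebra S K] (n : ℕ) (θ : S)

/-- `A = S[1/θ, 1/n]` in `K` -/
def locOT : Subring K where
  carrier := {x | ∃ (k h : ℕ) (s : S), (n : K) ^ k * algebraMap S K θ ^ h * x = algebraMap S K s}
  zero_mem' := ⟨0, 0, 0, by simp⟩
  one_mem' := ⟨0, 0, 1, by simp⟩
  add_mem' := by
    rintro x y ⟨k, h, s, hs⟩ ⟨l, e, t, ht⟩
    refine ⟨k + l, h + e, (n : S) ^ l * θ ^ e * s + (n : S) ^ k * θ ^ h * t, ?_⟩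
    simp only [map_add, map_mul, map_pow, map_natCast]
    rw [← hs, ← ht]
    ring
  mul_mem' := by
    rintro x y ⟨k, h, s, hs⟩ ⟨l, e, t, ht⟩
    refine ⟨k + l, h + e, s * t, ?_⟩
    rw [map_mul, ← hs, ← ht]
    ring
  neg_mem' := by
    rintro x ⟨k, h, s, hs⟩
    exact ⟨k, h, -s, by rw [map_neg, ← hs]; ring⟩

/-- `OO`: `S[1/θ]` localised at the integers prime to `n`, in `K` -/
def locDT : Subring K where
  carrier := {x | ∃ m : ℕ, m ≠ 0 ∧ Nat.Coprime m n ∧ ∃ (h : ℕ) (s : S),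
    (m : K) * algebraMap S K θ ^ h * x = algebraMap S K s}
  zero_mem' := ⟨1, one_ne_zero, Nat.coprime_one_left n, 0, 0, by simp⟩
  one_mem' := ⟨1, one_ne_zero, Nat.coprime_one_left n, 0, 1, by simp⟩
  add_mem' := by
    rintro x y ⟨m, hm0, hmd, h, s, hs⟩ ⟨m', hm0', hmd', e, t, ht⟩
    refine ⟨m * m', mul_ne_zero hm0 hm0', Nat.Coprime.mul_left hmd hmd', h + e,
      (m' : S) * θ ^ e * s + (m : S) * θ ^ h * t, ?_⟩
    simp only [map_add, map_mul, map_pow, map_natCast]
    rw [← hs, ← ht]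
    push_cast
    ring
  mul_mem' := by
    rintro x y ⟨m, hm0, hmd, h, s, hs⟩ ⟨m', hm0', hmd', e, t, ht⟩
    refine ⟨m * m', mul_ne_zero hm0 hm0', Nat.Coprime.mul_left hmd hmd', h + e, s * t, ?_⟩
    rw [map_mul, ← hs, ← ht]
    push_cast
    ring
  neg_mem' := by
    rintro x ⟨m, hm0, hmd, h, s, hs⟩
    exact ⟨m, hm0, hmd, h, -s, by rw [map_neg, ← hs]; ring⟩

/-- `S[1/θ]` in `K` -/
abbrev lamT : Subring K := locOT S K 1 θ

end rings

/-- all coordinates in the subrings `D i` -/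
def InR {F : Type} {K : F → Type} [∀ i, Field (K i)] {γ : F → Type} {h : ∀ i, γ i → ℕ}
    (D : ∀ i, Subring (K i)) (v : ∀ i, Blk (h i) → K i) : Prop := ∀ i c, v i c ∈ D i

section maps

variable {F : Type} {K : F → Type} [∀ i, Field (K i)] [∀ i, Algebra ℚ (K i)]

/-- a family of matrices as a `ℚ`-linear map (column vectors) -/
def mmap {m n : F → Type} [∀ i, Fintype (n i)] (M : ∀ i, Matrix (m i) (n i) (K i)) :
    (∀ i, n i → K i) →ₗ[ℚ] (∀ i, m i → K i) where
  toFun z := fun i => M i *ᵥ z i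
  map_add' z w := by
    funext i
    exact Matrix.mulVec_add (M i) (z i) (w i)
  map_smul' q z := by
    funext i j
    have h := congrFun (Matrix.mulVec_smul (M i) (algebraMap ℚ (K i) q) (z i)) j
    have e1 : algebraMap ℚ (K i) q • z i = (q • z) i := by
      funext l
      simp [Algebra.smul_def]
    rw [e1] at h
    rw [h]
    simp [Algebra.smul_def]

/-- `x = θ + y` on `⨁ K i ^ blocks` -/
def xM {γ : F → Type} (θ : ∀ i, K i) (h : ∀ i, γ i → ℕ) :
    (∀ i, Blk (h i) → K i) →ₗ[ℚ] (∀ i, Blk (h i) → K i) where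
  toFun v := fun i => θ i • v i + yL (h i) (v i)
  map_add' v w := by
    funext i
    simp only [Pi.add_apply, map_add, smul_add]
    abel
  map_smul' q v := by
    funext i j
    have e1 : (q • v) i = algebraMap ℚ (K i) q • v i := by
      funext l
      simp [Algebra.smul_def]
    rw [e1, map_smul]
    simp [Algebra.smul_def]
    ring

variable {I α β : F → Type} [∀ i, Fintype (I i)] [∀ i, DecidableEq (I i)]

/-- multi-states -/
abbrev MSt (K I α β : F → Type) : Type := ∀ i, RSt (K i) (I i) (α i) (β i)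

/-- the map `R : X → V` -/
def mR (σ : ∀ i, Shp (I i) (α i) (β i)) (s : MSt K I α β) :
    (∀ i, I i → K i) →ₗ[ℚ] (∀ i, Blk (σ i).lam → K i) := mmap fun i => RM (σ i) (s i)

/-- the map `m : X → W` -/
def mW (σ : ∀ i, Shp (I i) (α i) (β i)) (s : MSt K I α β) :
    (∀ i, I i → K i) →ₗ[ℚ] (∀ i, Blk (σ i).mu → K i) := mmap fun i => MM (σ i) (s i)

/-- the operator `x = θ + C` on `X` -/
def xX (θ : ∀ i, K i) (s : MSt K I α β) : (∀ i, I i → K i) →ₗ[ℚ] (∀ i, I i → K i) :=
  mmap fun i => θ i • (1 : Matrix (I i) (I i) (K i)) + (s i).1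

variable [∀ i, Fintype (α i)] [∀ i, Fintype (β i)] [∀ i, DecidableEq (β i)]

/-- the set `U_u` of `dec_general.md`, section 5.  `D i` = `OO_i`, `c` = `c1`; `GV`, `GW` the
dimension groups in the coordinates `V`, `W`. -/
structure InU (n c : ℕ) (D : ∀ i, Subring (K i)) (σ : ∀ i, Shp (I i) (α i) (β i))
    (GV : AddSubgroup (∀ i, Blk (σ i).lam → K i)) (GW : AddSubgroup (∀ i, Blk (σ i).mu → K i))
    (u : ∀ i, ℕ → K i) (s : MSt K I α β) : Prop where
  st : ∀ i, IsSt (σ i) (s i)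
  inj : ∀ i, LInv (RM (σ i) (s i))
  surj : ∀ i, RInv (MM (σ i) (s i))
  loc : Loc (mR σ s) (mW σ s) (locAt n GV) (locAt n GW)
  unit : ∀ i j, Sat (σ i) j → ∃ w, Sm n (D i) c (w - 1) ∧
    gdet (TM (σ i) (s i) j) = w * u i j * gdet (SigM (σ i) (s i) j)

end maps

end Pool.Agent.DEC
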