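import Pool.Agent.DEC.DenTop
import Pool.Agent.DEC.MF

/-!
The instance of `Den` for the rings with `1 / θ`.  `S` is an order (domain, free of finite rank
over `ℤ`), `K` its field of fractions, `θ : S` nonzero, `d ≥ 2` an integer which is not a unit of
`S[1/θ]`.

* `locOT S K 1 θ = S[1/θ]`;
* `locOT S K d θ = S[1/(d θ)]`;
* `locDT S K d θ = S[1/θ]` localised at the integers prime to `d`.

The theorems (R1)-(R4) of `dec_general.md`, section 1.
-/

set_option autoImplicit false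
set_option linter.unusedSectionVars false
set_option linter.unusedVariables false

open Topology

namespace Pool.Agent.DEC.STopT

/-! ### (R4): `1 + d ^ c D`, `c ≥ 1`, is a group -/

section grp

variable {K : Type} [Field K] {d : ℕ} {O D : Subring K}

theorem one_mem_grp (c : ℕ) : Sm d D c ((1 : K) - 1) := by
  rw [sub_self]
  exact Sm.zero c

theorem mem_of_grp {c : ℕ} {w : K} (hw : Sm d D c (w - 1)) : w ∈ D := by
  obtain ⟨a, ha, haw⟩ := hw
  have : w = 1 + (d : K) ^ c * a := by rw [← haw]; ring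
  rw [this]
  exact D.add_mem D.one_mem (D.mul_mem (D.pow_mem (natCast_mem D d) c) ha)

theorem mul_grp {c : ℕ} {w w' : K} (hw : Sm d D c (w - 1)) (hw' : Sm d D c (w' - 1)) :
    Sm d D c (w * w' - 1) := by
  have : w * w' - 1 = (w - 1) * w' + (w' - 1) := by ring
  rw [this]
  exact (hw.mul_mem (mem_of_grp hw')).add hw'

theorem inv_grp (h : Den d O D) {c : ℕ} (hc : 1 ≤ c) {w : K} (hw : Sm d D c (w - 1)) :
    w ≠ 0 ∧ w⁻¹ ∈ D ∧ Sm d D c (w⁻¹ - 1) := by
  obtain ⟨a, ha, haw⟩ := hw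
  obtain ⟨e, rfl⟩ : ∃ e, c = e + 1 := ⟨c - 1, by omega⟩
  have h1 : w = 1 + (d : K) * ((d : K) ^ e * a) := by
    have : w = 1 + (d : K) ^ (e + 1) * a := by rw [← haw]; ring
    rw [this]; ring
  obtain ⟨v, hv, hwv⟩ := h.jac _ (D.mul_mem (D.pow_mem (natCast_mem D d) e) ha)
  rw [← h1] at hwv
  have hw0 : w ≠ 0 := by
    rintro rfl
    rw [zero_mul] at hwv
    exact zero_ne_one hwv
  have hinv : w⁻¹ = v := inv_eq_of_mul_eq_one_right hwv
  refine ⟨hw0, by rw [hinv]; exact hv, -(a * v), D.neg_mem (D.mul_mem ha hv), ?_⟩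
  rw [hinv]
  have h2 : v = 1 - (d : K) ^ (e + 1) * a * v := by
    have h3 : w = 1 + (d : K) ^ (e + 1) * a := by rw [← haw]; ring
    rw [h3] at hwv
    linear_combination hwv
  calc v - 1 = - ((d : K) ^ (e + 1) * a * v) := by linear_combination h2
    _ = (d : K) ^ (e + 1) * -(a * v) := by ring

theorem div_grp (h : Den d O D) {c : ℕ} (hc : 1 ≤ c) {w w' : K} (hw : Sm d D c (w - 1))
    (hw' : Sm d D c (w' - 1)) : Sm d D c (w / w' - 1) := by
  rw [div_eq_mul_inv]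
  exact mul_grp hw (inv_grp h hc hw').2.2

end grp

section basic

variable {S K : Type} [CommRing S] [IsDomain S] [Module.Free ℤ S] [Module.Finite ℤ S]
  [Field K] [Algebra S K] [IsFractionRing S K] {θ : S} {d : ℕ}

theorem mem_tilS {x : K} : x ∈ locOT S K 1 θ ↔
    ∃ (h : ℕ) (s : S), (algebraMap S K θ) ^ h * x = algebraMap S K s := by
  constructor
  · rintro ⟨k, h, s, hs⟩
    exact ⟨h, s, by simpa using hs⟩
  · rintro ⟨h, s, hs⟩
    exact ⟨0, h, s, by simpa using hs⟩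

theorem mem_locOT {x : K} : x ∈ locOT S K d θ ↔
    ∃ (k h : ℕ) (s : S), (d : K) ^ k * (algebraMap S K θ) ^ h * x = algebraMap S K s := Iff.rfl

theorem mem_locDT {x : K} : x ∈ locDT S K d θ ↔
    ∃ m : ℕ, m ≠ 0 ∧ Nat.Coprime m d ∧ ∃ (h : ℕ) (s : S),
      (m : K) * (algebraMap S K θ) ^ h * x = algebraMap S K s := Iff.rfl

theorem tilS_le_locOT : locOT S K 1 θ ≤ locOT S K d θ := by
  intro x hx
  obtain ⟨h, s, hs⟩ := mem_tilS.mp hx
  exact ⟨0, h, s, by rw [pow_zero, one_mul, hs]⟩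

theorem tilS_le_locDT : locOT S K 1 θ ≤ locDT S K d θ := by
  intro x hx
  obtain ⟨h, s, hs⟩ := mem_tilS.mp hx
  exact ⟨1, one_ne_zero, Nat.coprime_one_left d, h, s, by rw [Nat.cast_one, one_mul, hs]⟩

theorem locO_le_locOT : locO S K d ≤ locOT S K d θ := by
  rintro x ⟨k, s, hs⟩
  exact ⟨k, 0, s, by rw [pow_zero, mul_one, hs]⟩

theorem locD_le_locDT : locD S K d ≤ locDT S K d θ := by
  rintro x ⟨m, hm0, hmd, s, hs⟩
  exact ⟨m, hm0, hmd, 0, s, by rw [pow_zero, mul_one, hs]⟩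

theorem algebraMap_mem_tilS (s : S) : algebraMap S K s ∈ locOT S K 1 θ :=
  mem_tilS.mpr ⟨0, s, by simp⟩

theorem algebraMap_mem_locOT (s : S) : algebraMap S K s ∈ locOT S K d θ :=
  tilS_le_locOT (algebraMap_mem_tilS s)

theorem algebraMap_mem_locDT (s : S) : algebraMap S K s ∈ locDT S K d θ :=
  tilS_le_locDT (algebraMap_mem_tilS s)

theorem algebraMap_ne_zero' {s : S} (hs : s ≠ 0) : algebraMap S K s ≠ 0 := by
  rw [Ne, IsFractionRing.to_map_eq_zero_iff]; exact hs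

theorem inv_mem_tilS (hθ : θ ≠ 0) : (algebraMap S K θ)⁻¹ ∈ locOT S K 1 θ :=
  mem_tilS.mpr ⟨1, 1, by rw [pow_one, map_one, mul_inv_cancel₀ (algebraMap_ne_zero' hθ)]⟩

theorem inv_mem_locOT (hθ : θ ≠ 0) : (algebraMap S K θ)⁻¹ ∈ locOT S K d θ :=
  tilS_le_locOT (inv_mem_tilS hθ)

theorem inv_mem_locDT (hθ : θ ≠ 0) : (algebraMap S K θ)⁻¹ ∈ locDT S K d θ :=
  tilS_le_locDT (inv_mem_tilS hθ)

/-- `A = Λ~[1/d]` -/
theorem mem_locOT_iff {x : K} : x ∈ locOT S K d θ ↔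
    ∃ k : ℕ, (d : K) ^ k * x ∈ locOT S K 1 θ := by
  constructor
  · rintro ⟨k, h, s, hs⟩
    exact ⟨k, mem_tilS.mpr ⟨h, s, by rw [← hs]; ring⟩⟩
  · rintro ⟨k, hx⟩
    obtain ⟨h, s, hs⟩ := mem_tilS.mp hx
    exact ⟨k, h, s, by rw [← hs]; ring⟩

/-- `OO`, with `T` the integers prime to `d` -/
theorem mem_locDT_iff {x : K} : x ∈ locDT S K d θ ↔
    ∃ m : ℕ, m ≠ 0 ∧ Nat.Coprime m d ∧ (m : K) * x ∈ locOT S K 1 θ := by
  constructor
  · rintro ⟨m, hm0, hmd, h, s, hs⟩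
    exact ⟨m, hm0, hmd, mem_tilS.mpr ⟨h, s, by rw [← hs]; ring⟩⟩
  · rintro ⟨m, hm0, hmd, hx⟩
    obtain ⟨h, s, hs⟩ := mem_tilS.mp hx
    exact ⟨m, hm0, hmd, h, s, by rw [← hs]; ring⟩

theorem natCast_inv_mem_locDT {m : ℕ} (hm0 : m ≠ 0) (hm : Nat.Coprime m d) :
    (m : K)⁻¹ ∈ locDT S K d θ := by
  have hcz : CharZero K := charZeroK S K
  rw [mem_locDT_iff]
  refine ⟨m, hm0, hm, ?_⟩
  rw [mul_inv_cancel₀ (Nat.cast_ne_zero.mpr hm0)]
  exact Subring.one_mem _

theorem natCast_inv_mem_locOT (hd : d ≠ 0) : (d : K)⁻¹ ∈ locOT S K d θ := by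
  have hcz : CharZero K := charZeroK S K
  rw [mem_locOT_iff]
  refine ⟨1, ?_⟩
  rw [pow_one, mul_inv_cancel₀ (Nat.cast_ne_zero.mpr hd)]
  exact Subring.one_mem _

/-- every integer prime to `d` divides an integer `≡ 1 mod d` -/
theorem exists_mul_modEq_one (hd : 2 ≤ d) {m : ℕ} (hm : Nat.Coprime m d) :
    ∃ m' : ℕ, m' ≠ 0 ∧ m * m' % d = 1 := by
  obtain ⟨y, -, hy⟩ := Nat.exists_mul_mod_eq_one_of_coprime hm (by omega : 1 < d)
  refine ⟨y, ?_, hy⟩
  rintro rfl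
  rw [mul_zero, Nat.zero_mod] at hy
  omega

/-- `OO`, with `T` the integers `≡ 1 mod d` -/
theorem mem_locDT_iff_one (hd : 2 ≤ d) {x : K} : x ∈ locDT S K d θ ↔
    ∃ t : ℕ, t % d = 1 ∧ (t : K) * x ∈ locOT S K 1 θ := by
  rw [mem_locDT_iff]
  constructor
  · rintro ⟨m, hm0, hmd, hx⟩
    obtain ⟨m', -, hm'⟩ := exists_mul_modEq_one hd hmd
    refine ⟨m * m', hm', ?_⟩
    have : ((m * m' : ℕ) : K) * x = (m' : K) * ((m : K) * x) := by push_cast; ring
    rw [this]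
    exact Subring.mul_mem _ (natCast_mem _ m') hx
  · rintro ⟨t, ht, hx⟩
    refine ⟨t, ?_, ?_, hx⟩
    · rintro rfl
      rw [Nat.zero_mod] at ht
      omega
    · have h1 : Nat.gcd d t = Nat.gcd (t % d) d := (Nat.gcd_rec d t)
      rw [Nat.coprime_iff_gcd_eq_one, Nat.gcd_comm, h1, ht, Nat.gcd_one_left]

/-- `OO`, with `T` the integers `≡ 1 mod d` -/
theorem mem_locDT_iff_int (hd : 2 ≤ d) {x : K} : x ∈ locDT S K d θ ↔
    ∃ t : ℤ, t ≠ 0 ∧ (d : ℤ) ∣ t - 1 ∧ (t : K) * x ∈ locOT S K 1 θ := by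
  rw [mem_locDT_iff]
  constructor
  · rintro ⟨m, hm0, hmd, hx⟩
    obtain ⟨m', hm'0, hm'⟩ := exists_mul_modEq_one hd hmd
    refine ⟨((m * m' : ℕ) : ℤ), ?_, ?_, ?_⟩
    · exact_mod_cast mul_ne_zero hm0 hm'0
    · have h1 := Nat.div_add_mod (m * m') d
      rw [hm'] at h1
      refine ⟨((m * m' / d : ℕ) : ℤ), ?_⟩
      have h2 := congrArg (Nat.cast : ℕ → ℤ) h1
      rw [Nat.cast_add, Nat.cast_mul d] at h2
      push_cast at h2 ⊢
      linarith
    · have : (((m * m' : ℕ) : ℤ) : K) * x = (m' : K) * ((m : K) * x) := by push_cast; ring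
      rw [this]
      exact Subring.mul_mem _ (natCast_mem _ m') hx
  · rintro ⟨t, ht0, ht, hx⟩
    refine ⟨t.natAbs, Int.natAbs_ne_zero.mpr ht0, ?_, ?_⟩
    · have h1 : IsCoprime t (d : ℤ) := by
        obtain ⟨y, hy⟩ := ht
        exact ⟨1, -y, by linarith⟩
      have h2 := Int.isCoprime_iff_nat_coprime.mp h1
      simpa using h2
    · rw [cast_natAbs_eq, mul_comm (t : K), mul_assoc]
      exact Subring.mul_mem _ (intCast_mem _ _) hx

/-! ### (R2) -/

theorem mem_tilS_of_coprime_mul {m : ℕ} (hm : Nat.Coprime m d) {k : ℕ} {z : K}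
    (h1 : (m : K) * z ∈ locOT S K 1 θ) (h2 : (d : K) ^ k * z ∈ locOT S K 1 θ) : z ∈ locOT S K 1 θ := by
  obtain ⟨w, t, hwt⟩ := exists_inv_mod m (d ^ k) (Nat.Coprime.pow_right _ hm)
  have hwtK : (w : K) * (m : K) = 1 + (d : K) ^ k * (t : K) := by
    have := congrArg (Int.cast : ℤ → K) hwt
    push_cast at this
    exact this
  have : z = (w : K) * ((m : K) * z) - (t : K) * ((d : K) ^ k * z) := by
    linear_combination (-z) * hwtK
  rw [this]
  exact Subring.sub_mem _ (Subring.mul_mem _ (intCast_mem _ _) h1)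
    (Subring.mul_mem _ (intCast_mem _ _) h2)

/-- (R2), first part: `A ∩ OO = Λ~` -/
theorem locOT_inf_locDT (hd : d ≠ 0) : locOT S K d θ ⊓ locDT S K d θ = locOT S K 1 θ := by
  apply le_antisymm
  · rintro x ⟨h1, h2⟩
    obtain ⟨k, hk⟩ := mem_locOT_iff.mp h1
    obtain ⟨m, -, hmd, hm⟩ := mem_locDT_iff.mp h2
    exact mem_tilS_of_coprime_mul hmd hm hk
  · exact le_inf tilS_le_locOT tilS_le_locDT

theorem mem_tilS_of_mem (hd : d ≠ 0) {x : K} (h1 : x ∈ locOT S K d θ) (h2 : x ∈ locDT S K d θ) :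
    x ∈ locOT S K 1 θ := by
  rw [← locOT_inf_locDT hd]
  exact ⟨h1, h2⟩

/-- (R2), second part: `d ^ c OO ∩ A = d ^ c Λ~` -/
theorem R2 (hd : d ≠ 0) {c : ℕ} {x : K} (h1 : x ∈ locOT S K d θ)
    (h2 : Sm d (locDT S K d θ) c x) : Sm d (locOT S K 1 θ) c x := by
  obtain ⟨w, hw, hxw⟩ := h2
  refine ⟨w, mem_tilS_of_mem hd ?_ hw, hxw⟩
  obtain ⟨k, hk⟩ := mem_locOT_iff.mp h1
  rw [mem_locOT_iff]
  exact ⟨k + c, by rw [pow_add, mul_assoc, ← hxw]; exact hk⟩

theorem sm_tilS_iff (hd : d ≠ 0) {c : ℕ} {x : K} :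
    Sm d (locOT S K 1 θ) c x ↔ x ∈ locOT S K 1 θ ∧ Sm d (locDT S K d θ) c x := by
  constructor
  · rintro ⟨w, hw, rfl⟩
    exact ⟨Subring.mul_mem _ (Subring.pow_mem _ (natCast_mem _ d) c) hw, w, tilS_le_locDT hw, rfl⟩
  · rintro ⟨h1, h2⟩
    exact R2 hd (tilS_le_locOT h1) h2

/-! ### the assumption: `d` is not a unit of `S[1/θ]` -/

theorem norm_natCast (m : ℕ) :
    Algebra.norm ℤ (m : S) = (m : ℤ) ^ Module.finrank ℤ S := by
  have h1 : ((m : ℕ) : S) = algebraMap ℤ S (m : ℤ) := by simp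
  rw [h1, Algebra.norm_algebraMap_of_basis (Module.Free.chooseBasis ℤ S),
    Module.finrank_eq_card_chooseBasisIndex]

/-- if `d` has a divisor `m ≠ 1` prime to `N θ` then `d` is not a unit of `S[1/θ]` -/
theorem not_dvd_pow_of_coprime {m : ℕ} (hm1 : m ≠ 1) (hmd : m ∣ d)
    (hm : Nat.Coprime m (Algebra.norm ℤ θ).natAbs) (h : ℕ) : ¬ (d : S) ∣ θ ^ h := by
  rintro ⟨y, hy⟩
  have h1 := congrArg (Algebra.norm ℤ) hy
  rw [map_pow, map_mul, norm_natCast] at h1
  have hpos : 0 < Module.finrank ℤ S := Module.finrank_pos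
  have h2 : m ∣ ((Algebra.norm ℤ θ) ^ h).natAbs := by
    rw [h1, Int.natAbs_mul, Int.natAbs_pow, Int.natAbs_natCast]
    exact Dvd.dvd.mul_right (hmd.trans (dvd_pow_self d hpos.ne')) _
  rw [Int.natAbs_pow] at h2
  exact hm1 (Nat.Coprime.eq_one_of_dvd (Nat.Coprime.pow_right _ hm) h2)

/-- if `1 + |N θ|` divides `d` then `d` is not a unit of `S[1/θ]` -/
theorem not_dvd_pow (hθ : θ ≠ 0) (hd : 1 + (Algebra.norm ℤ θ).natAbs ∣ d) (h : ℕ) :
    ¬ (d : S) ∣ θ ^ h := by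
  refine not_dvd_pow_of_coprime (m := 1 + (Algebra.norm ℤ θ).natAbs) ?_ hd ?_ h
  · have h5 : (Algebra.norm ℤ θ).natAbs ≠ 0 := Int.natAbs_ne_zero.mpr (norm_ne_zero' hθ)
    omega
  · rw [Nat.coprime_add_self_left]
    exact Nat.coprime_one_left _

/-- if a prime `q ∣ d` does not divide `N θ` then `d` is not a unit of `S[1/θ]` -/
theorem not_dvd_pow_of_prime {q : ℕ} (hq : q.Prime) (hqd : q ∣ d)
    (hqN : ¬ (q : ℤ) ∣ Algebra.norm ℤ θ) (h : ℕ) : ¬ (d : S) ∣ θ ^ h := by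
  refine not_dvd_pow_of_coprime hq.one_lt.ne' hqd ?_ h
  rw [Nat.Prime.coprime_iff_not_dvd hq]
  intro h1
  exact hqN (Int.natCast_dvd.mpr h1)

/-- the assumption, in `K` -/
theorem inv_notMem_iff (hd0 : d ≠ 0) : (d : K)⁻¹ ∉ locOT S K 1 θ ↔ ∀ h, ¬ (d : S) ∣ θ ^ h := by
  have hcz : CharZero K := charZeroK S K
  have hdK : (d : K) ≠ 0 := Nat.cast_ne_zero.mpr hd0
  constructor
  · rintro hn h ⟨s, hs⟩
    apply hn
    rw [mem_tilS]
    refine ⟨h, s, ?_⟩
    rw [← map_pow, hs, map_mul, map_natCast]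
    field_simp
  · intro hnd hx
    obtain ⟨h, s, hs⟩ := mem_tilS.mp hx
    apply hnd h
    refine ⟨s, IsFractionRing.injective S K ?_⟩
    rw [map_mul, map_natCast, ← hs, map_pow]
    field_simp

theorem inv_notMem (hd0 : d ≠ 0) (hθ : θ ≠ 0) (hd : 1 + (Algebra.norm ℤ θ).natAbs ∣ d) :
    (d : K)⁻¹ ∉ locOT S K 1 θ := (inv_notMem_iff hd0).mpr (not_dvd_pow hθ hd)

theorem inv_notMem_of_prime (hd0 : d ≠ 0) {q : ℕ} (hq : q.Prime) (hqd : q ∣ d)
    (hqN : ¬ (q : ℤ) ∣ Algebra.norm ℤ θ) : (d : K)⁻¹ ∉ locOT S K 1 θ :=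
  (inv_notMem_iff hd0).mpr (not_dvd_pow_of_prime hq hqd hqN)

theorem one_add_ne_zero (hd0 : d ≠ 0) (hnu : (d : K)⁻¹ ∉ locOT S K 1 θ) {z : K}
    (hz : z ∈ locDT S K d θ) : 1 + (d : K) * z ≠ 0 := by
  have hcz : CharZero K := charZeroK S K
  have hdK : (d : K) ≠ 0 := Nat.cast_ne_zero.mpr hd0
  intro h0
  apply hnu
  obtain ⟨m, hm0, hmd, hm⟩ := mem_locDT_iff.mp hz
  have h1 : z = -(d : K)⁻¹ := by
    have h2 : (d : K) * z = (d : K) * -(d : K)⁻¹ := by
      rw [mul_neg, mul_inv_cancel₀ hdK]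
      linear_combination h0
    exact mul_left_cancel₀ hdK h2
  refine mem_tilS_of_coprime_mul hmd (k := 1) ?_ ?_
  · have h3 := Subring.neg_mem _ hm
    rw [h1, mul_neg, neg_neg] at h3
    exact h3
  · rw [pow_one, mul_inv_cancel₀ hdK]
    exact Subring.one_mem _

/-! ### (R1) -/

theorem exists_split_int (hd : d ≠ 0) {N : ℤ} (hN : N ≠ 0) :
    ∃ (m k : ℕ) (q : ℤ), m ≠ 0 ∧ Nat.Coprime m d ∧ (d : ℤ) ^ k * m = N * q := by
  obtain ⟨b1, b2, q, k, hb, hdk, hb20, hb2⟩ := exists_split d hd N.natAbs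
    (Int.natAbs_ne_zero.mpr hN)
  refine ⟨b2, k, N.sign * q, hb20, hb2, ?_⟩
  have h1 : ((d ^ k : ℕ) : ℤ) = ((b1 * q : ℕ) : ℤ) := by rw [hdk]
  have h2 : ((N.natAbs : ℕ) : ℤ) = ((b1 * b2 : ℕ) : ℤ) := by rw [hb]
  push_cast at h1 h2
  have h3 : |N| = N * N.sign := by rw [Int.mul_sign_self, Int.natCast_natAbs]
  rw [h1, ← mul_assoc, ← h3, h2]
  ring

/-- (R1) for `S`: every nonzero `b` divides some `d ^ k m`, `m` prime to `d` -/
theorem exists_mul_eq_pow_mul (hd : d ≠ 0) {b : S} (hb : b ≠ 0) :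
    ∃ (k m : ℕ), m ≠ 0 ∧ Nat.Coprime m d ∧ ∃ b' : S, b * b' = (d : S) ^ k * (m : S) := by
  obtain ⟨v, hv⟩ := exists_mul_eq_norm b
  obtain ⟨m, k, q, hm0, hmd, hq⟩ := exists_split_int hd (norm_ne_zero' hb)
  refine ⟨k, m, hm0, hmd, v * (q : S), ?_⟩
  have h1 := congrArg (Int.cast : ℤ → S) hq
  push_cast at h1
  rw [h1, ← hv]
  ring

/-- (R1): every nonzero `b ∈ S[1/θ]` divides some `d ^ k m`, `m` prime to `d` -/
theorem R1 (hd : d ≠ 0) (hθ : θ ≠ 0) {b : K} (hb : b ∈ locOT S K 1 θ) (hb0 : b ≠ 0) :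
    ∃ (k m : ℕ), m ≠ 0 ∧ Nat.Coprime m d ∧ ∃ b' ∈ locOT S K 1 θ, b * b' = (d : K) ^ k * (m : K) := by
  obtain ⟨h, s, hs⟩ := mem_tilS.mp hb
  have hθK : algebraMap S K θ ≠ 0 := algebraMap_ne_zero' hθ
  have hs0 : s ≠ 0 := by
    rintro rfl
    rw [map_zero] at hs
    exact mul_ne_zero (pow_ne_zero h hθK) hb0 hs
  obtain ⟨k, m, hm0, hmd, b', hb'⟩ := exists_mul_eq_pow_mul hd hs0
  refine ⟨k, m, hm0, hmd, (algebraMap S K θ) ^ h * algebraMap S K b', ?_, ?_⟩
  · have H : algebraMap S K (θ ^ h * b') ∈ locOT S K 1 θ := algebraMap_mem_tilS _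
    rwa [map_mul, map_pow] at H
  · have h1 := congrArg (algebraMap S K) hb'
    rw [map_mul, map_mul, map_pow, map_natCast, map_natCast] at h1
    rw [← h1, ← hs]
    ring

/-- (R1), with `t ≡ 1 mod d` -/
theorem R1_one (hd : 2 ≤ d) (hθ : θ ≠ 0) {b : K} (hb : b ∈ locOT S K 1 θ) (hb0 : b ≠ 0) :
    ∃ (k t : ℕ), t % d = 1 ∧ ∃ b' ∈ locOT S K 1 θ, b * b' = (d : K) ^ k * (t : K) := by
  have hd0 : d ≠ 0 := by omega
  obtain ⟨k, m, hm0, hmd, b', hb', h⟩ := R1 hd0 hθ hb hb0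
  obtain ⟨m', -, hm'⟩ := exists_mul_modEq_one hd hmd
  refine ⟨k, m * m', hm', b' * (m' : K), Subring.mul_mem _ hb' (natCast_mem _ _), ?_⟩
  rw [← mul_assoc, h]
  push_cast
  ring

/-! ### the instance -/

/-- elements of `1 + d OO` are units -/
theorem jac (hd : 2 ≤ d) (hθ : θ ≠ 0) (hnu : (d : K)⁻¹ ∉ locOT S K 1 θ) {z : K}
    (hz : z ∈ locDT S K d θ) : ∃ w ∈ locDT S K d θ, (1 + (d : K) * z) * w = 1 := by
  have hcz : CharZero K := charZeroK S K
  have hd0 : d ≠ 0 := by omega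
  have hdK : (d : K) ≠ 0 := Nat.cast_ne_zero.mpr hd0
  have hθK : algebraMap S K θ ≠ 0 := algebraMap_ne_zero' hθ
  have hne := one_add_ne_zero hd0 hnu hz
  obtain ⟨m, hm0, hmd, hm⟩ := mem_locDT_iff.mp hz
  have hmK : (m : K) ≠ 0 := Nat.cast_ne_zero.mpr hm0
  -- the element `u = m (1 + d z)` of `Λ~`
  set u : K := (m : K) * (1 + (d : K) * z) with hu
  have huT : u ∈ locOT S K 1 θ := by
    have : u = (m : K) + (d : K) * ((m : K) * z) := by rw [hu]; ring
    rw [this]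
    exact Subring.add_mem _ (natCast_mem _ _) (Subring.mul_mem _ (natCast_mem _ _) hm)
  obtain ⟨k, m2, hm20, hm2d, u', hu', huu⟩ := R1 hd0 hθ huT (mul_ne_zero hmK hne)
  have hm2K : (m2 : K) ≠ 0 := Nat.cast_ne_zero.mpr hm20
  -- `u ≡ m mod d`, so `d ^ k` is invertible mod `u` up to `m ^ k`
  obtain ⟨y, hy, hyk⟩ : ∃ y ∈ locOT S K 1 θ, (m : K) ^ k = u * y + (-((m : K) * z)) ^ k * (d : K) ^ k := by
    have h1 : ((m : K)) = u + (-((m : K) * z)) * (d : K) := by rw [hu]; ring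
    have key : ∀ j : ℕ, ∃ y ∈ locOT S K 1 θ,
        (m : K) ^ j = u * y + (-((m : K) * z)) ^ j * (d : K) ^ j := by
      intro j
      induction j with
      | zero => exact ⟨0, Subring.zero_mem _, by simp⟩
      | succ j ih =>
        obtain ⟨y, hy, hyj⟩ := ih
        refine ⟨(m : K) ^ j + (-((m : K) * z)) * (d : K) * y, ?_, ?_⟩
        · exact Subring.add_mem _ (Subring.pow_mem _ (natCast_mem _ _) _)
            (Subring.mul_mem _ (Subring.mul_mem _ (Subring.neg_mem _ hm) (natCast_mem _ _)) hy)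
        · have h2 : (m : K) ^ (j + 1) = (m : K) ^ j * (m : K) := pow_succ _ _
          rw [h2]
          nth_rewrite 2 [h1]
          rw [mul_add]
          have h3 : (m : K) ^ j * (-((m : K) * z) * (d : K))
              = (u * y + (-((m : K) * z)) ^ j * (d : K) ^ j) * (-((m : K) * z) * (d : K)) := by
            rw [← hyj]
          rw [h3]
          ring
    exact key k
  -- the inverse
  have hfin : u * (y * (m2 : K) + (-((m : K) * z)) ^ k * u') = (m : K) ^ k * (m2 : K) := by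
    rw [hyk]
    linear_combination (-((m : K) * z)) ^ k * huu
  refine ⟨(m : K) * (y * (m2 : K) + (-((m : K) * z)) ^ k * u') * ((m : K) ^ k * (m2 : K))⁻¹,
    ?_, ?_⟩
  · rw [mem_locDT_iff]
    refine ⟨m ^ k * m2, mul_ne_zero (pow_ne_zero _ hm0) hm20,
      Nat.Coprime.mul_left (Nat.Coprime.pow_left _ hmd) hm2d, ?_⟩
    have : ((m ^ k * m2 : ℕ) : K) * ((m : K) * (y * (m2 : K) + (-((m : K) * z)) ^ k * u') *
        ((m : K) ^ k * (m2 : K))⁻¹) = (m : K) * (y * (m2 : K) + (-((m : K) * z)) ^ k * u') := by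
      push_cast
      field_simp
    rw [this]
    exact Subring.mul_mem _ (natCast_mem _ _) (Subring.add_mem _
      (Subring.mul_mem _ hy (natCast_mem _ _))
      (Subring.mul_mem _ (Subring.pow_mem _ (Subring.neg_mem _ hm) _) hu'))
  · have h1 : (1 + (d : K) * z) * ((m : K) * (y * (m2 : K) + (-((m : K) * z)) ^ k * u') *
        ((m : K) ^ k * (m2 : K))⁻¹)
        = (u * (y * (m2 : K) + (-((m : K) * z)) ^ k * u')) * ((m : K) ^ k * (m2 : K))⁻¹ := by
      rw [hu]; ring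
    rw [h1, hfin, mul_inv_cancel₀ (mul_ne_zero (pow_ne_zero _ hmK) hm2K)]

/-- **The instance.** -/
theorem den (hd : 2 ≤ d) (hθ : θ ≠ 0) (hnu : (d : K)⁻¹ ∉ locOT S K 1 θ) :
    Den d (locOT S K d θ) (locDT S K d θ) := by
  have hcz : CharZero K := charZeroK S K
  have hd0 : d ≠ 0 := by omega
  have hdK : (d : K) ≠ 0 := Nat.cast_ne_zero.mpr hd0
  have hθK : algebraMap S K θ ≠ 0 := algebraMap_ne_zero' hθ
  have h0 := den_order (S := S) (K := K) hd
  refine ⟨hdK, locO_le_locOT h0.inv, ?_, ?_, fun z hz => jac hd hθ hnu hz, ?_⟩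
  · intro z z0 c n hz0 hn0 hnd'
    -- first approximate `z` in `S[1/d]`
    obtain ⟨z1, hz1, ⟨w1, hw1, e1⟩, -⟩ := h0.dens z 0 c 1 (Subring.zero_mem _) one_ne_zero
      (Nat.coprime_one_left d)
    have hz1O : z1 ∈ locOT S K d θ := locO_le_locOT hz1
    have hdiff : z0 - z1 ∈ locOT S K d θ := Subring.sub_mem _ hz0 hz1O
    obtain ⟨k0, hk0⟩ := mem_locOT_iff.mp hdiff
    obtain ⟨e, t', het⟩ := exists_inv_mod (d ^ (c + k0)) n
      (Nat.Coprime.pow_left _ (Nat.Coprime.symm hnd'))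
    have hetK : (e : K) * (d : K) ^ (c + k0) = 1 + (n : K) * (t' : K) := by
      have := congrArg (Int.cast : ℤ → K) het
      push_cast at this
      exact this
    refine ⟨z1 + (d : K) ^ c * ((e : K) * ((d : K) ^ k0 * (z0 - z1))), ?_,
      ⟨w1 + (e : K) * ((d : K) ^ k0 * (z0 - z1)), ?_, ?_⟩, (t' : K) * (z0 - z1), ?_, ?_⟩
    · exact Subring.add_mem _ hz1O (Subring.mul_mem _ (Subring.pow_mem _ (natCast_mem _ d) c)
        (Subring.mul_mem _ (intCast_mem _ e) (tilS_le_locOT hk0)))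
    · exact Subring.add_mem _ (locD_le_locDT hw1)
        (Subring.mul_mem _ (intCast_mem _ e) (tilS_le_locDT hk0))
    · rw [e1]; ring
    · exact Subring.mul_mem _ (intCast_mem _ t') hdiff
    · have : (d : K) ^ c * ((e : K) * ((d : K) ^ k0 * (z0 - z1)))
          = ((e : K) * (d : K) ^ (c + k0)) * (z0 - z1) := by rw [pow_add]; ring
      rw [this, hetK]
      ring
  · intro u hu hu0
    obtain ⟨k, hk⟩ := mem_locOT_iff.mp hu
    obtain ⟨j, m, hm0, hmd, b', hb', hbb⟩ := R1 hd0 hθ hk (mul_ne_zero (pow_ne_zero k hdK) hu0)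
    refine ⟨m, hm0, hmd, (d : K) ^ k * b' * ((d : K)⁻¹) ^ j, ?_, ?_⟩
    · exact Subring.mul_mem _ (Subring.mul_mem _ (Subring.pow_mem _ (natCast_mem _ d) k)
        (tilS_le_locOT hb')) (Subring.pow_mem _ (locO_le_locOT h0.inv) j)
    · have h1 : u * ((d : K) ^ k * b' * ((d : K)⁻¹) ^ j)
          = ((d : K) ^ k * u * b') * ((d : K)⁻¹) ^ j := by ring
      rw [h1, hbb, inv_pow]
      field_simp
  · intro z
    obtain ⟨k, hk⟩ := h0.exh z
    exact ⟨k, locD_le_locDT hk⟩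

/-- the instance for `1 + |N θ|` dividing `d` -/
theorem den' (hd0 : d ≠ 0) (hθ : θ ≠ 0) (hd : 1 + (Algebra.norm ℤ θ).natAbs ∣ d) :
    Den d (locOT S K d θ) (locDT S K d θ) := by
  refine den ?_ hθ (inv_notMem hd0 hθ hd)
  have h1 := Int.natAbs_ne_zero.mpr (norm_ne_zero' hθ)
  have h2 := Nat.le_of_dvd (Nat.pos_of_ne_zero hd0) hd
  omega

/-! ### `A` is a principal ideal ring for suitable `d`, and `K` is its field of fractions -/

variable (S K θ)

theorem exists_pid : ∃ M : ℕ, 0 < M ∧ ∀ d : ℕ, d ≠ 0 → M ∣ d →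
    IsPrincipalIdealRing (locOT S K d θ) := by
  obtain ⟨M, hM, H⟩ := exists_pid_locO S K
  refine ⟨M, hM, fun d hd hMd => ?_⟩
  have hpid : IsPrincipalIdealRing (locO S K d) := H d hd hMd
  have hcz : CharZero K := charZeroK S K
  constructor
  intro J
  let ι : locO S K d →+* locOT S K d θ := Subring.inclusion locO_le_locOT
  obtain ⟨b, hb⟩ := (hpid.principal (J.comap ι)).principal
  refine ⟨⟨ι b, ?_⟩⟩
  have hbJ : b ∈ J.comap ι := by rw [hb]; exact Submodule.mem_span_singleton_self b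
  apply le_antisymm
  · rintro ⟨x, k, h, s, hs⟩ hx
    -- `y = (d ^ k θ ^ h) x` lies in `locO`
    let y : locO S K d := ⟨algebraMap S K s, algebraMap_mem_locO s⟩
    have hy : y ∈ J.comap ι := by
      rw [Ideal.mem_comap]
      have h1 : ι y = (⟨(d : K) ^ k * (algebraMap S K θ) ^ h, by
          exact Subring.mul_mem _ (Subring.pow_mem _ (natCast_mem _ d) k)
            (Subring.pow_mem _ (algebraMap_mem_locOT θ) h)⟩ : locOT S K d θ) *
          ⟨x, k, h, s, hs⟩ := Subtype.ext hs.symm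
      rw [h1]
      exact J.mul_mem_left _ hx
    rw [hb, Submodule.mem_span_singleton] at hy
    obtain ⟨a, ha⟩ := hy
    have haK : (a : K) * (b : K) = algebraMap S K s := congrArg Subtype.val ha
    by_cases hx0 : x = 0
    · subst hx0
      exact Submodule.zero_mem _
    · rw [Submodule.mem_span_singleton]
      by_cases hθ : θ = 0
      · -- then `K = locOT` contains all inverses or `h = 0`
        by_cases hh : h = 0
        · subst hh
          refine ⟨⟨((d : K)⁻¹) ^ k * (a : K), ?_⟩, ?_⟩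
          · exact Subring.mul_mem _ (Subring.pow_mem _ (locO_le_locOT
              ⟨1, 1, by rw [pow_one, map_one, mul_inv_cancel₀ (Nat.cast_ne_zero.mpr hd)]⟩) k)
              (locO_le_locOT a.2)
          · apply Subtype.ext
            change ((d : K)⁻¹) ^ k * (a : K) * (b : K) = x
            have hdK : (d : K) ≠ 0 := Nat.cast_ne_zero.mpr hd
            rw [mul_assoc, haK, ← hs, pow_zero, mul_one, inv_pow]
            field_simp
        · -- `s = 0`
          refine ⟨⟨x * (b : K)⁻¹, 0, h, 0, ?_⟩, ?_⟩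
          · rw [hθ, map_zero, zero_pow hh]; simp
          · apply Subtype.ext
            change x * (b : K)⁻¹ * (b : K) = x
            have hb0 : (b : K) ≠ 0 := by
              intro hb0
              -- `J.comap ι = 0` but `x⁻¹`-multiples are in `J`
              have h1 : (1 : locO S K d) ∈ J.comap ι := by
                rw [Ideal.mem_comap, map_one]
                have h2 : (1 : locOT S K d θ) = ⟨x⁻¹, 0, h, 0, by
                    rw [hθ, map_zero, zero_pow hh]; simp⟩ * ⟨x, k, h, s, hs⟩ := by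
                  apply Subtype.ext
                  change (1 : K) = x⁻¹ * x
                  rw [inv_mul_cancel₀ hx0]
                rw [h2]
                exact J.mul_mem_left _ hx
              rw [hb, Submodule.mem_span_singleton] at h1
              obtain ⟨c, hc⟩ := h1
              have h3 : (c : K) * (b : K) = 1 := congrArg Subtype.val hc
              rw [hb0, mul_zero] at h3
              exact zero_ne_one h3
            rw [mul_assoc, inv_mul_cancel₀ hb0, mul_one]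
      · have hdK : (d : K) ≠ 0 := Nat.cast_ne_zero.mpr hd
        have hθK : algebraMap S K θ ≠ 0 := algebraMap_ne_zero' hθ
        refine ⟨⟨((d : K)⁻¹) ^ k * ((algebraMap S K θ)⁻¹) ^ h * (a : K), ?_⟩, ?_⟩
        · exact Subring.mul_mem _ (Subring.mul_mem _ (Subring.pow_mem _ (locO_le_locOT
            ⟨1, 1, by rw [pow_one, map_one, mul_inv_cancel₀ hdK]⟩) k)
            (Subring.pow_mem _ (inv_mem_locOT hθ) h)) (locO_le_locOT a.2)
        · apply Subtype.ext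
          change ((d : K)⁻¹) ^ k * ((algebraMap S K θ)⁻¹) ^ h * (a : K) * (b : K) = x
          rw [mul_assoc, haK, ← hs]
          simp only [inv_pow]
          field_simp
  · rw [Submodule.span_le, Set.singleton_subset_iff]
    exact hbJ

variable (d)

/-- `K` is the field of fractions of `S[1/(d θ)]` -/
theorem isFractionRing : IsFractionRing (locOT S K d θ) K := by
  refine ⟨?_, ?_, ?_⟩
  · rintro ⟨y, hy⟩
    have : (y : K) ≠ 0 := by
      intro h0
      exact nonZeroDivisors.ne_zero hy (Subtype.ext h0)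
    exact isUnit_iff_ne_zero.mpr this
  · intro z
    obtain ⟨x, y, hy, rfl⟩ := IsFractionRing.div_surjective (A := S) z
    have hyK : algebraMap S K y ≠ 0 := by
      rw [Ne, IsFractionRing.to_map_eq_zero_iff]; exact nonZeroDivisors.ne_zero hy
    refine ⟨(⟨algebraMap S K x, algebraMap_mem_locOT x⟩,
      ⟨⟨algebraMap S K y, algebraMap_mem_locOT y⟩, ?_⟩), ?_⟩
    · rw [mem_nonZeroDivisors_iff_ne_zero]
      intro h0
      exact hyK (congrArg Subtype.val h0)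
    · change algebraMap S K x / algebraMap S K y * algebraMap S K y = algebraMap S K x
      field_simp
  · intro x y hxy
    refine ⟨1, ?_⟩
    have : (x : K) = (y : K) := hxy
    rw [Subtype.ext this]

end basic

end Pool.Agent.DEC.STopT
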