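import Pool.Agent.DEC.SAStep

/-!
The level step of the global step (Theorem SA of dec_general.md) as a pure matrix theorem.
-/

set_option autoImplicit false
set_option linter.unusedSectionVars false

open Topology Matrix

namespace Pool.Agent.DEC

namespace GStep

/-! ### left and right invertible matrices -/

section inv

variable {R : Type*} [CommRing R]

/-- left invertible -/
def LI {m n : Type*} [Fintype m] [DecidableEq n] (X : Matrix m n R) : Prop :=
  ∃ N : Matrix n m R, N * X = 1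

/-- right invertible -/
def RI {m n : Type*} [Fintype n] [DecidableEq m] (X : Matrix m n R) : Prop :=
  ∃ N : Matrix n m R, X * N = 1

theorem LI.sub {m m' n : Type*} [Fintype m] [Fintype m'] [DecidableEq n] {X : Matrix m n R}
    (h : LI X) (e : m' ≃ m) : LI (X.submatrix e id) := by
  obtain ⟨N, hN⟩ := h
  refine ⟨N.submatrix id e, ?_⟩
  rw [submatrix_mul_equiv N X id e id, hN, submatrix_id_id]

theorem LI.of_sub {m m' n : Type*} [Fintype m] [Fintype m'] [DecidableEq n] {X : Matrix m n R}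
    (e : m' ≃ m) (h : LI (X.submatrix e id)) : LI X := by
  have := h.sub e.symm
  simpa using this

theorem RI.sub {m m' n : Type*} [DecidableEq m] [DecidableEq m'] [Fintype n] {X : Matrix m n R}
    (h : RI X) (e : m' ≃ m) : RI (X.submatrix e id) := by
  obtain ⟨N, hN⟩ := h
  refine ⟨N.submatrix id e, ?_⟩
  have : X.submatrix e id * N.submatrix id e = (X * N).submatrix e e := rfl
  rw [this, hN, submatrix_one_equiv]

theorem LI.mul {m m' n : Type*} [Fintype m] [DecidableEq m] [Fintype m'] [DecidableEq m']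
    [DecidableEq n] {X : Matrix m n R} (h : LI X) (g : Matrix m' m R) (g' : Matrix m m' R)
    (hg : g' * g = 1) : LI (g * X) := by
  obtain ⟨N, hN⟩ := h
  refine ⟨N * g', ?_⟩
  rw [Matrix.mul_assoc, ← Matrix.mul_assoc g' g X, hg, Matrix.one_mul, hN]

theorem LI.of_mul {m m' n : Type*} [Fintype m] [DecidableEq m] [Fintype m'] [DecidableEq m']
    [DecidableEq n] {X : Matrix m n R} (g : Matrix m' m R) (h : LI (g * X)) : LI X := by
  obtain ⟨N, hN⟩ := h
  exact ⟨N * g, by rw [Matrix.mul_assoc, hN]⟩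

theorem LI.block {a b c : Type*} [Fintype a] [DecidableEq a] [Fintype b] [DecidableEq b]
    [Fintype c] [DecidableEq c] (X : Matrix a b R) (N : Matrix c b R) (h : LI N) :
    LI (fromBlocks (1 : Matrix a a R) X 0 N) := by
  obtain ⟨L, hL⟩ := h
  refine ⟨fromBlocks 1 (-(X * L)) 0 L, ?_⟩
  rw [fromBlocks_multiply, ← fromBlocks_one]
  congr 1
  · simp
  · rw [Matrix.one_mul, Matrix.neg_mul, Matrix.mul_assoc, hL, Matrix.mul_one, add_neg_cancel]
  · simp
  · rw [Matrix.zero_mul, zero_add, hL]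

theorem LI.of_block {a b c : Type*} [Fintype a] [DecidableEq a] [Fintype b] [DecidableEq b]
    [Fintype c] [DecidableEq c] (X : Matrix a b R) (N : Matrix c b R)
    (h : LI (fromBlocks (1 : Matrix a a R) X 0 N)) : LI N := by
  obtain ⟨L, hL⟩ := h
  rw [← fromBlocks_toBlocks L, fromBlocks_multiply, ← fromBlocks_one, fromBlocks_inj] at hL
  obtain ⟨-, -, h3, h4⟩ := hL
  rw [Matrix.mul_one, Matrix.mul_zero, add_zero] at h3
  rw [h3, Matrix.zero_mul, zero_add] at h4
  exact ⟨_, h4⟩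

end inv

/-! ### completion over a principal ideal domain -/

section compl

variable {R : Type*} [CommRing R] [IsDomain R] [IsPrincipalIdealRing R]

theorem complete_col {m n : Type*} [Fintype m] [DecidableEq m] [Fintype n] [DecidableEq n]
    (X : Matrix m n R) (h : LI X) :
    ∃ (t : ℕ) (g : Matrix (n ⊕ Fin t) m R) (g' : Matrix m (n ⊕ Fin t) R),
      g * g' = 1 ∧ g' * g = 1 ∧ g * X = fromRows 1 0 := by
  classical
  obtain ⟨L, hL⟩ := h
  set p := Matrix.mulVecLin X with hp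
  set l := Matrix.mulVecLin L with hl
  have hlp : ∀ x, l (p x) = x := by
    intro x
    simp only [hp, hl, Matrix.mulVecLin_apply, Matrix.mulVec_mulVec, hL, Matrix.one_mulVec]
  let K0 := LinearMap.ker l
  let e : ((n → R) × K0) ≃ₗ[R] (m → R) :=
    LinearEquiv.ofLinearMap (p.coprod K0.subtype)
      (l.prod (LinearMap.codRestrict K0 (LinearMap.id - p.comp l) (by
        intro m
        simp only [K0, LinearMap.mem_ker, LinearMap.sub_apply, LinearMap.id_apply,
          LinearMap.comp_apply, map_sub, hlp, sub_self])))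
      (by
        refine LinearMap.ext fun m => ?_
        simp)
      (by
        refine LinearMap.ext fun m => ?_
        obtain ⟨x, k, hk⟩ := m
        have hk' : l k = 0 := hk
        refine Prod.ext ?_ (Subtype.ext ?_)
        · simp [hlp, hk']
        · simp [hlp, hk'])
  obtain ⟨t, bK⟩ := Submodule.basisOfPid (Pi.basisFun R m) K0
  let b : Module.Basis (n ⊕ Fin t) R (m → R) := ((Pi.basisFun R n).prod bK).map e
  have hb : ∀ j i, b (Sum.inl j) i = X i j := by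
    intro j i
    simp [b, e, hp]
  refine ⟨t, b.toMatrix (Pi.basisFun R m), (Pi.basisFun R m).toMatrix b,
    Module.Basis.toMatrix_mul_toMatrix_flip _ _, Module.Basis.toMatrix_mul_toMatrix_flip _ _, ?_⟩
  have hX : ∀ F : Matrix (n ⊕ Fin t) n R, F = fromRows 1 0 →
      X = (Pi.basisFun R m).toMatrix b * F := by
    rintro F rfl
    ext i j
    rw [Matrix.mul_apply, Fintype.sum_sum_type]
    simp [Module.Basis.toMatrix_apply, hb, Matrix.one_apply]
  have key : ∀ F : Matrix (n ⊕ Fin t) n R, F = fromRows 1 0 →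
      b.toMatrix (Pi.basisFun R m) * X = F := by
    intro F hF
    conv_lhs => rw [hX F hF]
    rw [← Matrix.mul_assoc, Module.Basis.toMatrix_mul_toMatrix_flip, Matrix.one_mul]
  exact key _ rfl

/-- completion of a right invertible matrix -/
theorem complete_row {m n : Type*} [Fintype m] [DecidableEq m] [Fintype n] [DecidableEq n]
    (X : Matrix m n R) (h : RI X) :
    ∃ (t : ℕ) (g : Matrix n (m ⊕ Fin t) R) (g' : Matrix (m ⊕ Fin t) n R),
      g * g' = 1 ∧ g' * g = 1 ∧ X * g = fromCols 1 0 := by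
  obtain ⟨N, hN⟩ := h
  obtain ⟨t, g, g', h1, h2, h3⟩ := complete_col Xᵀ ⟨Nᵀ, by rw [← transpose_mul, hN, transpose_one]⟩
  refine ⟨t, gᵀ, g'ᵀ, ?_, ?_, ?_⟩
  · rw [← transpose_mul, h2, transpose_one]
  · rw [← transpose_mul, h1, transpose_one]
  · have h4 := congrArg transpose h3
    rw [transpose_mul, transpose_transpose, transpose_fromRows, transpose_one,
      transpose_zero] at h4
    exact h4

end compl

/-! ### determinants up to units of `R` -/

section det

variable {R K : Type*} [CommRing R] [CommRing K] {ι : R →+* K}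

theorem det_mul_unit {a a' b : Type*} [Fintype a] [DecidableEq a] [Fintype a'] [DecidableEq a']
    [Fintype b] [DecidableEq b] (g : Matrix a' a R) (g' : Matrix a a' R) (hg : g * g' = 1)
    (M : Matrix a b K) (e : b ≃ a) (e' : b ≃ a') :
    ∃ v : R, IsUnit v ∧ ((g.map ι * M).submatrix e' id).det = ι v * (M.submatrix e id).det := by
  refine ⟨(g.submatrix e' e).det, ?_, ?_⟩
  · have h1 : g.submatrix e' e * g'.submatrix e e' = 1 := by
      rw [submatrix_mul_equiv g g' e' e e', hg, submatrix_one_equiv]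
    have h2 := congrArg det h1
    rw [det_mul, det_one] at h2
    exact IsUnit.of_mul_eq_one _ h2
  · have h3 : (g.map ι * M).submatrix e' id = (g.submatrix e' e).map ι * M.submatrix e id := by
      rw [← submatrix_mul_equiv (g.map ι) M e' e id]
      rfl
    rw [h3, det_mul, RingHom.map_det]
    rfl

theorem det_blk1 {a b c : Type*} [Fintype a] [DecidableEq a] [Fintype b] [DecidableEq b]
    [Fintype c] [DecidableEq c] (X : Matrix a b K) (N : Matrix c b K) (e : b ≃ c) :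
    ((fromBlocks (1 : Matrix a a K) X 0 N).submatrix (Equiv.sumCongr (Equiv.refl a) e) id).det
      = (N.submatrix e id).det := by
  have : (fromBlocks (1 : Matrix a a K) X 0 N).submatrix (Equiv.sumCongr (Equiv.refl a) e) id
      = fromBlocks (1 : Matrix a a K) X 0 (N.submatrix e id) := by
    ext (i | i) (j | j) <;> rfl
  rw [this, det_fromBlocks_zero₂₁, det_one, one_mul]

end det

/-! ### the row transformation -/

section transform

/-- renaming of the rows -/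
def rho (E Q1 W Q2 V : Type*) : (E ⊕ Q1) ⊕ ((W ⊕ Q2) ⊕ V) ≃ E ⊕ (W ⊕ (Q2 ⊕ (Q1 ⊕ V))) where
  toFun := fun z => match z with
    | Sum.inl (Sum.inl e) => Sum.inl e
    | Sum.inl (Sum.inr q) => Sum.inr (Sum.inr (Sum.inr (Sum.inl q)))
    | Sum.inr (Sum.inl (Sum.inl w)) => Sum.inr (Sum.inl w)
    | Sum.inr (Sum.inl (Sum.inr q)) => Sum.inr (Sum.inr (Sum.inl q))
    | Sum.inr (Sum.inr v) => Sum.inr (Sum.inr (Sum.inr (Sum.inr v)))
  invFun := fun z => match z with
    | Sum.inl e => Sum.inl (Sum.inl e)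
    | Sum.inr (Sum.inr (Sum.inr (Sum.inl q))) => Sum.inl (Sum.inr q)
    | Sum.inr (Sum.inl w) => Sum.inr (Sum.inl (Sum.inl w))
    | Sum.inr (Sum.inr (Sum.inl q)) => Sum.inr (Sum.inl (Sum.inr q))
    | Sum.inr (Sum.inr (Sum.inr (Sum.inr v))) => Sum.inr (Sum.inr v)
  left_inv := by rintro ((e | q) | ((w | q) | v)) <;> rfl
  right_inv := by rintro (e | (w | (q | (q | v)))) <;> rfl

variable {B : Type*} [CommRing B]
variable {P E1 D1 D0 Vk Wk1 Q1 Q2 : Type*}
  [Fintype P] [DecidableEq P] [Fintype E1] [DecidableEq E1] [Fintype D1] [DecidableEq D1]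
  [Fintype D0] [DecidableEq D0] [Fintype Vk] [DecidableEq Vk] [Fintype Wk1] [DecidableEq Wk1]
  [Fintype Q1] [DecidableEq Q1] [Fintype Q2] [DecidableEq Q2]

/-- the row operation -/
def G1 (g : Matrix (E1 ⊕ Q1) P B) (k' : Matrix (Wk1 ⊕ Q2) D1 B) :
    Matrix ((E1 ⊕ Q1) ⊕ ((Wk1 ⊕ Q2) ⊕ Vk)) (P ⊕ (D1 ⊕ Vk)) B :=
  fromBlocks g 0 0 (fromBlocks k' 0 0 1)

theorem transform (g : Matrix (E1 ⊕ Q1) P B) (Sg : Matrix P E1 B) (hgS : g * Sg = fromRows 1 0)
    (k' : Matrix (Wk1 ⊕ Q2) D1 B) (x : Matrix P D0 B) (Dm : Matrix D1 D0 B)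
    (rh : Matrix Vk D0 B) (xa : Matrix E1 D0 B) (xb : Matrix Q1 D0 B) (hx : g * x = fromRows xa xb)
    (c1 : Matrix Wk1 D0 B) (dd : Matrix Q2 D0 B) (hd : k' * Dm = fromRows c1 dd) :
    (G1 g k' : Matrix ((E1 ⊕ Q1) ⊕ ((Wk1 ⊕ Q2) ⊕ Vk)) (P ⊕ (D1 ⊕ Vk)) B) *
      fromBlocks Sg x 0 (fromRows Dm rh)
    = (fromBlocks 1 xa 0 (fromRows c1 (fromRows dd (fromRows xb rh)))).submatrix
      (rho E1 Q1 Wk1 Q2 Vk) id := by
  have h1 : (fromBlocks k' 0 0 1 : Matrix ((Wk1 ⊕ Q2) ⊕ Vk) (D1 ⊕ Vk) B) * fromRows Dm rh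
      = fromRows (k' * Dm) rh := by
    rw [← fromRows_fromCols_eq_fromBlocks, fromRows_mul, fromCols_mul_fromRows,
      fromCols_mul_fromRows]
    simp
  rw [G1, fromBlocks_multiply, h1, hgS, hx, hd]
  ext ((i | i) | ((i | i) | i)) (j | j) <;> simp [rho]

/-- the inverse row operation -/
def G1i (g' : Matrix P (E1 ⊕ Q1) B) (k : Matrix D1 (Wk1 ⊕ Q2) B) :
    Matrix (P ⊕ (D1 ⊕ Vk)) ((E1 ⊕ Q1) ⊕ ((Wk1 ⊕ Q2) ⊕ Vk)) B :=
  fromBlocks g' 0 0 (fromBlocks k 0 0 1)

theorem G1_left (g : Matrix (E1 ⊕ Q1) P B) (g' : Matrix P (E1 ⊕ Q1) B) (hg : g' * g = 1)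
    (k' : Matrix (Wk1 ⊕ Q2) D1 B) (k : Matrix D1 (Wk1 ⊕ Q2) B) (hk : k * k' = 1) :
    (G1i g' k : Matrix (P ⊕ (D1 ⊕ Vk)) ((E1 ⊕ Q1) ⊕ ((Wk1 ⊕ Q2) ⊕ Vk)) B) *
      (G1 g k' : Matrix ((E1 ⊕ Q1) ⊕ ((Wk1 ⊕ Q2) ⊕ Vk)) (P ⊕ (D1 ⊕ Vk)) B) = 1 := by
  rw [G1, G1i, fromBlocks_multiply, fromBlocks_multiply]
  simp only [Matrix.mul_zero, Matrix.zero_mul, add_zero, zero_add, hg, hk, Matrix.one_mul]
  rw [fromBlocks_one, fromBlocks_one]

theorem G1_right (g : Matrix (E1 ⊕ Q1) P B) (g' : Matrix P (E1 ⊕ Q1) B) (hg : g * g' = 1)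
    (k' : Matrix (Wk1 ⊕ Q2) D1 B) (k : Matrix D1 (Wk1 ⊕ Q2) B) (hk : k' * k = 1) :
    (G1 g k' : Matrix ((E1 ⊕ Q1) ⊕ ((Wk1 ⊕ Q2) ⊕ Vk)) (P ⊕ (D1 ⊕ Vk)) B) *
      (G1i g' k : Matrix (P ⊕ (D1 ⊕ Vk)) ((E1 ⊕ Q1) ⊕ ((Wk1 ⊕ Q2) ⊕ Vk)) B) = 1 := by
  rw [G1, G1i, fromBlocks_multiply, fromBlocks_multiply]
  simp only [Matrix.mul_zero, Matrix.zero_mul, add_zero, zero_add, hg, hk, Matrix.one_mul]
  rw [fromBlocks_one, fromBlocks_one]

end transform

theorem fromCols_one_zero_mul {B : Type*} [CommRing B] {a c r : Type*} [Fintype a] [DecidableEq a]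
    [Fintype c] (M : Matrix a r B) (Z : Matrix c r B) :
    (fromCols 1 0 : Matrix a (a ⊕ c) B) * fromRows M Z = M := by
  rw [fromCols_mul_fromRows, Matrix.one_mul, Matrix.zero_mul, add_zero]

/-! ### the step -/

section step

theorem continuous_fromRows {K : Type*} [TopologicalSpace K] {m1 m2 n : Type*} :
    Continuous (fun z : Matrix m1 n K × Matrix m2 n K => fromRows z.1 z.2) := by
  refine continuous_matrix ?_
  rintro (i | i) j
  · exact (continuous_fst.matrix_elem i j)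
  · exact (continuous_snd.matrix_elem i j)

theorem continuous_toRows₁ {K : Type*} [TopologicalSpace K] {m1 m2 n : Type*} :
    Continuous (fun z : Matrix (m1 ⊕ m2) n K => z.toRows₁) :=
  continuous_matrix fun i j => continuous_id.matrix_elem (Sum.inl i) j

theorem continuous_toRows₂ {K : Type*} [TopologicalSpace K] {m1 m2 n : Type*} :
    Continuous (fun z : Matrix (m1 ⊕ m2) n K => z.toRows₂) :=
  continuous_matrix fun i j => continuous_id.matrix_elem (Sum.inr i) j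

theorem map_fromRows' {R K : Type*} [CommRing R] [CommRing K] (ι : R →+* K) {m1 m2 n : Type*}
    (X : Matrix m1 n R) (Y : Matrix m2 n R) :
    (fromRows X Y).map ι = fromRows (X.map ι) (Y.map ι) := by
  ext (i | i) j <;> rfl

variable {R K : Type*} [CommRing R] [IsDomain R] [IsPrincipalIdealRing R] [Field K]
  [TopologicalSpace K] [IsTopologicalRing K] {ι : R →+* K}

variable {P E1 D1 D0 Vk Wk1 Wk : Type*}
  [Fintype P] [DecidableEq P] [Fintype E1] [DecidableEq E1] [Fintype D1] [DecidableEq D1]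
  [Fintype D0] [DecidableEq D0] [Fintype Vk] [DecidableEq Vk] [Fintype Wk1] [DecidableEq Wk1]
  [Fintype Wk] [DecidableEq Wk]

/-- **The level step** `j + 1 → j` of Theorem SA. -/
theorem level_step (h : SAData ι) (hinv : InvCont K)
    (Sg : Matrix P E1 R) (hSg : LI Sg) (T1 : Matrix Wk1 D1 R) (hT1 : RI T1)
    (x : Matrix P D0 K) (Dm : Matrix D1 D0 K) (rh : Matrix Vk D0 K) (t : Matrix Wk D0 K)
    (hL : LI (fromBlocks (Sg.map ι) x 0 (fromRows Dm rh)))
    (hR : RI (fromRows t (T1.map ι * Dm)))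
    (hD : Nonempty Wk → Nonempty (E1 ⊕ D0 ≃ P ⊕ (D1 ⊕ Vk)) → Nonempty (D0 ≃ Wk ⊕ Wk1) →
      ∃ (e : E1 ⊕ D0 ≃ P ⊕ (D1 ⊕ Vk)) (e' : D0 ≃ Wk ⊕ Wk1) (u : R), IsUnit u ∧
        ((fromRows t (T1.map ι * Dm)).submatrix e' id).det =
          ι u * ((fromBlocks (Sg.map ι) x 0 (fromRows Dm rh)).submatrix e id).det) :
    ∃ G : Matrix D0 D0 K, IsUnit G.det ∧ ∀ U ∈ 𝓝 (x * G, Dm * G, rh * G, t * G),
      ∃ (x' : Matrix P D0 R) (D' : Matrix D1 D0 R) (r' : Matrix Vk D0 R) (t' : Matrix Wk D0 R),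
        (x'.map ι, D'.map ι, r'.map ι, t'.map ι) ∈ U ∧
        LI (fromBlocks Sg x' 0 (fromRows D' r')) ∧ RI (fromRows t' (T1 * D')) := by
  obtain ⟨q1, g, g', hgg, hgg', hgS⟩ := complete_col Sg hSg
  obtain ⟨q2, k, k', hkk, hkk', hTk⟩ := complete_row T1 hT1
  -- images over `K`
  have hggK : g.map ι * g'.map ι = 1 := by
    rw [← Matrix.map_mul, hgg, Matrix.map_one _ (map_zero ι) (map_one ι)]
  have hggK' : g'.map ι * g.map ι = 1 := by
    rw [← Matrix.map_mul, hgg', Matrix.map_one _ (map_zero ι) (map_one ι)]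
  have hkkK : k.map ι * k'.map ι = 1 := by
    rw [← Matrix.map_mul, hkk, Matrix.map_one _ (map_zero ι) (map_one ι)]
  have hkkK' : k'.map ι * k.map ι = 1 := by
    rw [← Matrix.map_mul, hkk', Matrix.map_one _ (map_zero ι) (map_one ι)]
  have hgSK : g.map ι * Sg.map ι = fromRows 1 0 := by
    rw [← Matrix.map_mul, hgS, map_fromRows', Matrix.map_one _ (map_zero ι) (map_one ι),
      Matrix.map_zero _ (map_zero ι)]
  have hTkK : T1.map ι * k.map ι = fromCols 1 0 := by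
    rw [← Matrix.map_mul, hTk, map_fromCols, Matrix.map_one _ (map_zero ι) (map_one ι),
      Matrix.map_zero _ (map_zero ι)]
  obtain ⟨xa, xb, hx⟩ : ∃ (xa : Matrix E1 D0 K) (xb : Matrix (Fin q1) D0 K),
      g.map ι * x = fromRows xa xb := ⟨_, _, (fromRows_toRows _).symm⟩
  obtain ⟨c1, dd, hd⟩ : ∃ (c1 : Matrix Wk1 D0 K) (dd : Matrix (Fin q2) D0 K),
      k'.map ι * Dm = fromRows c1 dd := ⟨_, _, (fromRows_toRows _).symm⟩
  have hTD : T1.map ι * Dm = c1 := by
    calc T1.map ι * Dm = T1.map ι * ((k.map ι * k'.map ι) * Dm) := by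
          rw [hkkK, Matrix.one_mul]
      _ = (T1.map ι * k.map ι) * (k'.map ι * Dm) := by
          rw [Matrix.mul_assoc, Matrix.mul_assoc]
      _ = c1 := by rw [hTkK, hd, fromCols_one_zero_mul]
  have htrans := transform (Vk := Vk) (g.map ι) (Sg.map ι) hgSK (k'.map ι) x Dm rh xa xb hx c1 dd hd
  -- the hypotheses of `sa3`
  have hL3 : LI (fromRows c1 (fromRows dd (fromRows xb rh))) := by
    have h1 := hL.mul (G1 (g.map ι) (k'.map ι)) _
      (G1_left (Vk := Vk) (g.map ι) (g'.map ι) hggK' (k'.map ι) (k.map ι) hkkK)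
    rw [htrans] at h1
    exact LI.of_block _ _ (LI.of_sub _ h1)
  rw [hTD] at hR hD
  have hR3 : RI (fromRows c1 t) := by
    have h1 := hR.sub (Equiv.sumComm Wk1 Wk)
    have h2 : (fromRows t c1).submatrix (Equiv.sumComm Wk1 Wk) id = fromRows c1 t := by
      ext (i | i) j <;> rfl
    rwa [h2] at h1
  have hmapG1 : (G1 g k' : Matrix ((E1 ⊕ Fin q1) ⊕ ((Wk1 ⊕ Fin q2) ⊕ Vk))
      (P ⊕ (D1 ⊕ Vk)) R).map ι = G1 (g.map ι) (k'.map ι) := by
    rw [G1, G1, fromBlocks_map, fromBlocks_map, Matrix.map_one _ (map_zero ι) (map_one ι)]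
    simp only [Matrix.map_zero _ (map_zero ι)]
  have hP : Nonempty (P ≃ E1 ⊕ Fin q1) := by
    have h1 := card_le_of_inv _ _ hggK
    have h2 := card_le_of_inv _ _ hggK'
    exact ⟨Fintype.equivOfCardEq (le_antisymm (by omega) (by omega))⟩
  have hD1 : Nonempty (D1 ≃ Wk1 ⊕ Fin q2) := by
    have h1 := card_le_of_inv _ _ hkkK
    have h2 := card_le_of_inv _ _ hkkK'
    exact ⟨Fintype.equivOfCardEq (le_antisymm (by omega) (by omega))⟩
  have hD3 : Nonempty (D0 ≃ Wk1 ⊕ (Fin q2 ⊕ (Fin q1 ⊕ Vk))) → Nonempty (D0 ≃ Wk1 ⊕ Wk) →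
      ∃ (e : D0 ≃ Wk1 ⊕ (Fin q2 ⊕ (Fin q1 ⊕ Vk))) (e' : D0 ≃ Wk1 ⊕ Wk) (u : R), IsUnit u ∧
        ((fromRows c1 t).submatrix e' id).det =
          ι u * ((fromRows c1 (fromRows dd (fromRows xb rh))).submatrix e id).det := by
    rintro ⟨e3⟩ ⟨e4⟩
    rcases isEmpty_or_nonempty Wk with hWk | hWk
    · -- no new rows of `t`: both matrices are `c1`
      have hc1 := Fintype.card_congr e3
      have hc2 := Fintype.card_congr e4
      rw [Fintype.card_sum, Fintype.card_eq_zero (α := Wk)] at hc2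
      rw [Fintype.card_sum] at hc1
      have hE : IsEmpty (Fin q2 ⊕ (Fin q1 ⊕ Vk)) := Fintype.card_eq_zero_iff.mp (by omega)
      obtain ⟨e0⟩ : Nonempty (D0 ≃ Wk1) := ⟨Fintype.equivOfCardEq (by omega)⟩
      refine ⟨e0.trans (Equiv.sumEmpty Wk1 _).symm, e0.trans (Equiv.sumEmpty Wk1 _).symm, 1,
        isUnit_one, ?_⟩
      rw [map_one, one_mul]
      congr 1
    obtain ⟨f1⟩ := hP
    obtain ⟨f2⟩ := hD1
    obtain ⟨e, e', u, hu, hdet⟩ := hD hWk
      ⟨((Equiv.sumCongr (Equiv.refl E1) e3).trans (rho E1 (Fin q1) Wk1 (Fin q2) Vk).symm).trans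
        (Equiv.sumCongr f1.symm (Equiv.sumCongr f2.symm (Equiv.refl Vk)))⟩
      ⟨e4.trans (Equiv.sumComm Wk1 Wk)⟩
    obtain ⟨v, hv, hvdet⟩ := det_mul_unit (ι := ι)
      (G1 g k' : Matrix ((E1 ⊕ Fin q1) ⊕ ((Wk1 ⊕ Fin q2) ⊕ Vk)) (P ⊕ (D1 ⊕ Vk)) R)
      (G1i g' k) (G1_right g g' hgg k' k hkk')
      (fromBlocks (Sg.map ι) x 0 (fromRows Dm rh)) e
      ((Equiv.sumCongr (Equiv.refl E1) e3).trans (rho E1 (Fin q1) Wk1 (Fin q2) Vk).symm)
    rw [hmapG1, htrans] at hvdet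
    have h6 : ((fromBlocks (1 : Matrix E1 E1 K) xa 0
        (fromRows c1 (fromRows dd (fromRows xb rh)))).submatrix
        (rho E1 (Fin q1) Wk1 (Fin q2) Vk) id).submatrix
        ((Equiv.sumCongr (Equiv.refl E1) e3).trans (rho E1 (Fin q1) Wk1 (Fin q2) Vk).symm) id
        = (fromBlocks (1 : Matrix E1 E1 K) xa 0
        (fromRows c1 (fromRows dd (fromRows xb rh)))).submatrix
          (Equiv.sumCongr (Equiv.refl E1) e3) id := by
      ext i j
      simp
    rw [h6, det_blk1] at hvdet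
    obtain ⟨w, hw⟩ := hv
    refine ⟨e3, e'.trans (Equiv.sumComm Wk Wk1), u * ↑(w⁻¹), hu.mul (Units.isUnit _), ?_⟩
    have h7 : (fromRows c1 t).submatrix (e'.trans (Equiv.sumComm Wk Wk1)) id
        = (fromRows t c1).submatrix e' id := by
      ext i j
      simp only [submatrix_apply, Equiv.trans_apply, id]
      rcases e' i with i' | i' <;> rfl
    rw [h7, hdet, hvdet, ← hw, map_mul]
    have h8 : ι ↑(w⁻¹) * ι ↑w = 1 := by rw [← map_mul, Units.inv_mul, map_one]
    linear_combination (-(ι u * ((fromBlocks (Sg.map ι) x 0 (fromRows Dm rh)).submatrix e id).det)) * h8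
  obtain ⟨G, hG, H⟩ := h.sa3 hinv c1 (fromRows dd (fromRows xb rh)) t hL3 hR3 hD3
  refine ⟨G, hG, fun U hU => ?_⟩
  -- the reconstruction map
  let Φ : Matrix E1 D0 K × (Matrix Wk1 D0 K × Matrix (Fin q2 ⊕ (Fin q1 ⊕ Vk)) D0 K ×
      Matrix Wk D0 K) → Matrix P D0 K × Matrix D1 D0 K × Matrix Vk D0 K × Matrix Wk D0 K :=
    fun z => (g'.map ι * fromRows z.1 z.2.2.1.toRows₂.toRows₁,
      k.map ι * fromRows z.2.1 z.2.2.1.toRows₁, z.2.2.1.toRows₂.toRows₂, z.2.2.2)
  have hΦ : Continuous Φ := by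
    have hm1 : Continuous (fun z : Matrix E1 D0 K × (Matrix Wk1 D0 K ×
        Matrix (Fin q2 ⊕ (Fin q1 ⊕ Vk)) D0 K × Matrix Wk D0 K) => z.2.2.1) := by fun_prop
    have h1 := continuous_toRows₁.comp hm1
    have h2 := continuous_toRows₂.comp hm1
    have h3 := continuous_toRows₁.comp h2
    have h4 := continuous_toRows₂.comp h2
    refine Continuous.prodMk ?_ (Continuous.prodMk ?_ (Continuous.prodMk h4 (by fun_prop)))
    · exact continuous_const.matrix_mul (continuous_fromRows.comp (continuous_fst.prodMk h3))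
    · refine continuous_const.matrix_mul (continuous_fromRows.comp (Continuous.prodMk ?_ h1))
      fun_prop
  have hΦ0 : Φ (xa * G, (c1 * G, fromRows dd (fromRows xb rh) * G, t * G))
      = (x * G, Dm * G, rh * G, t * G) := by
    simp only [Φ, fromRows_mul, toRows₁_fromRows, toRows₂_fromRows]
    have h1 : g'.map ι * fromRows (xa * G) (xb * G) = x * G := by
      rw [← fromRows_mul, ← hx, ← Matrix.mul_assoc, ← Matrix.mul_assoc, hggK', Matrix.one_mul]
    have h2 : k.map ι * fromRows (c1 * G) (dd * G) = Dm * G := by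
      rw [← fromRows_mul, ← hd, ← Matrix.mul_assoc, ← Matrix.mul_assoc, hkkK, Matrix.one_mul]
    rw [h1, h2]
  have hpre : Φ ⁻¹' U ∈ 𝓝 (xa * G, (c1 * G, fromRows dd (fromRows xb rh) * G, t * G)) :=
    hΦ.continuousAt.preimage_mem_nhds (by rw [hΦ0]; exact hU)
  rw [nhds_prod_eq, Filter.mem_prod_iff] at hpre
  obtain ⟨N0, hN0, N1, hN1, hNN⟩ := hpre
  obtain ⟨xa', hxa'⟩ := h.exists_mat hN0
  obtain ⟨M2, M1, T, hM, hML, hMR⟩ := H N1 hN1
  refine ⟨g' * fromRows xa' M1.toRows₂.toRows₁, k * fromRows M2 M1.toRows₁,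
    M1.toRows₂.toRows₂, T, ?_, ?_, ?_⟩
  · have h1 := hNN (Set.mk_mem_prod hxa' hM)
    have h2 : Φ (xa'.map ι, (M2.map ι, M1.map ι, T.map ι))
        = ((g' * fromRows xa' M1.toRows₂.toRows₁).map ι, (k * fromRows M2 M1.toRows₁).map ι,
          M1.toRows₂.toRows₂.map ι, T.map ι) := by
      simp only [Φ]
      rw [Matrix.map_mul, Matrix.map_mul, map_fromRows', map_fromRows']
      rfl
    rw [← h2]
    exact h1
  · have h3 := transform (Vk := Vk) g Sg hgS k' (g' * fromRows xa' M1.toRows₂.toRows₁)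
      (k * fromRows M2 M1.toRows₁) M1.toRows₂.toRows₂ xa' M1.toRows₂.toRows₁
      (by rw [← Matrix.mul_assoc, hgg, Matrix.one_mul]) M2 M1.toRows₁
      (by rw [← Matrix.mul_assoc, hkk', Matrix.one_mul])
    refine LI.of_mul (G1 g k') ?_
    rw [h3, fromRows_toRows, fromRows_toRows]
    exact (LI.block _ _ hML).sub _
  · have h4 : T1 * (k * fromRows M2 M1.toRows₁) = M2 := by
      rw [← Matrix.mul_assoc, hTk, fromCols_one_zero_mul]
    rw [h4]
    have h5 := RI.sub (X := fromRows M2 T) hMR (Equiv.sumComm Wk Wk1)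
    have h6 : (fromRows M2 T).submatrix (Equiv.sumComm Wk Wk1) id = fromRows T M2 := by
      ext (i | i) j <;> rfl
    rwa [h6] at h5

end step

end GStep

end Pool.Agent.DEC
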