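import Pool.Agent.DEC.StateSA0
import Pool.Agent.DEC.GStep
import Pool.Agent.DEC.StateB

/-!
Theorem SA of `dec_general.md` (section 3): a set of states over `K` which is open and stable under
base change and contains suitable scalings contains a state over `R` with all `Sig_j` left
invertible and all `T_j` right invertible.
-/

set_option autoImplicit false
set_option linter.unusedSectionVars false

open Matrix Topology

namespace Pool.Agent.DEC.StateSA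

section agr

variable {R K I α β : Type} [CommRing R] [CommRing K] [Fintype I] [DecidableEq I]

/-- `s` agrees with the image of `sR` in the columns of degree at least `i` -/
structure Agr (ι : R →+* K) (σ : Shp I α β) (i : ℕ) (s : RSt K I α β) (sR : RSt R I α β) :
    Prop where
  c : ∀ p q, i ≤ σ.deg q → s.1 p q = ι (sR.1 p q)
  rho : ∀ a q, i ≤ σ.deg q → s.2.1 a q = ι (sR.2.1 a q)
  tau : ∀ b q, i ≤ σ.deg q → s.2.2 b q = ι (sR.2.2 b q)

variable {ι : R →+* K} {σ : Shp I α β} {i j : ℕ} {s : RSt K I α β} {sR : RSt R I α β}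

theorem Agr.mono (h : Agr ι σ i s sR) (hij : i ≤ j) : Agr ι σ j s sR :=
  ⟨fun p q hq => h.c p q (hij.trans hq), fun a q hq => h.rho a q (hij.trans hq),
    fun b q hq => h.tau b q (hij.trans hq)⟩

theorem Agr.sig (h : Agr ι σ i s sR) : SigM σ s i = (SigM σ sR i).map ι := by
  ext p q
  rcases p with p | a
  · exact h.c _ _ q.2
  · exact h.rho _ _ q.2

theorem Agr.tm (hs : IsSt σ s) (h : Agr ι σ i s sR) : TM σ s i = (TM σ sR i).map ι := by
  ext b q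
  have h1 : (s.2.2 * s.1 ^ (σ.mu b.1 - 1 - i)) b.1 q.1 =
      (sR.2.2.map ι * sR.1.map ι ^ (σ.mu b.1 - 1 - i)) b.1 q.1 :=
    pow_congr hs.c (fun p q hq => h.c p q hq) (fun b q hq => h.tau b q hq) _ _ _ q.2.ge
  have h2 : sR.2.2.map ι * sR.1.map ι ^ (σ.mu b.1 - 1 - i) =
      (sR.2.2 * sR.1 ^ (σ.mu b.1 - 1 - i)).map ι := by
    rw [Matrix.map_mul, Matrix.map_pow]
  show (s.2.2 * s.1 ^ (σ.mu b.1 - 1 - i)) b.1 q.1 = ι ((sR.2.2 * sR.1 ^ (σ.mu b.1 - 1 - i)) b.1 q.1)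
  rw [h1, h2]
  rfl

theorem Agr.rep (h : Agr ι σ (j + 1) s sR) (z : ColD R σ j) :
    Agr ι σ j (rep σ j s (mapD ι z)) (rep σ j sR z) := by
  refine ⟨fun p q hq => ?_, fun a q hq => ?_, fun b q hq => ?_⟩
  · by_cases hqj : σ.deg q = j
    · show rpl σ.deg j s.1 (mkC σ j (mapD ι z).1.1 (mapD ι z).1.2.1) p q =
        ι (rpl σ.deg j sR.1 (mkC σ j z.1.1 z.1.2.1) p q)
      rw [rpl_eq p ⟨q, hqj⟩, rpl_eq p ⟨q, hqj⟩]
      show (if h : σ.deg p = j + 1 then ι (z.1.2.1 ⟨p, h⟩ ⟨q, hqj⟩) else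
        if h' : j + 1 + 1 ≤ σ.deg p then ι (z.1.1 (Sum.inl ⟨p, h'⟩) ⟨q, hqj⟩) else 0) =
        ι (if h : σ.deg p = j + 1 then z.1.2.1 ⟨p, h⟩ ⟨q, hqj⟩ else
        if h' : j + 1 + 1 ≤ σ.deg p then z.1.1 (Sum.inl ⟨p, h'⟩) ⟨q, hqj⟩ else 0)
      split_ifs
      · rfl
      · rfl
      · exact (map_zero ι).symm
    · exact (rpl_ne p hqj).trans ((h.c p q (by omega)).trans (congrArg ι (rpl_ne p hqj).symm))
  · by_cases hqj : σ.deg q = j
    · show rpl σ.deg j s.2.1 (mkR σ j (mapD ι z).1.1 (mapD ι z).1.2.2.1) a q =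
        ι (rpl σ.deg j sR.2.1 (mkR σ j z.1.1 z.1.2.2.1) a q)
      rw [rpl_eq a ⟨q, hqj⟩, rpl_eq a ⟨q, hqj⟩]
      show (if h : σ.lam a = j + 1 then ι (z.1.2.2.1 ⟨a, h⟩ ⟨q, hqj⟩) else
        if h' : j + 1 + 1 ≤ σ.lam a then ι (z.1.1 (Sum.inr ⟨a, h'⟩) ⟨q, hqj⟩) else 0) =
        ι (if h : σ.lam a = j + 1 then z.1.2.2.1 ⟨a, h⟩ ⟨q, hqj⟩ else
        if h' : j + 1 + 1 ≤ σ.lam a then z.1.1 (Sum.inr ⟨a, h'⟩) ⟨q, hqj⟩ else 0)
      split_ifs
      · rfl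
      · rfl
      · exact (map_zero ι).symm
    · exact (rpl_ne a hqj).trans ((h.rho a q (by omega)).trans (congrArg ι (rpl_ne a hqj).symm))
  · by_cases hqj : σ.deg q = j
    · show rpl σ.deg j s.2.2 (mkT σ j (mapD ι z).1.2.2.2 (mapD ι z).2) b q =
        ι (rpl σ.deg j sR.2.2 (mkT σ j z.1.2.2.2 z.2) b q)
      rw [rpl_eq b ⟨q, hqj⟩, rpl_eq b ⟨q, hqj⟩]
      show (if h : σ.mu b = j + 1 then ι (z.1.2.2.2 ⟨b, h⟩ ⟨q, hqj⟩) else
        if h' : j + 1 + 1 ≤ σ.mu b then ι (z.2 ⟨b, h'⟩ ⟨q, hqj⟩) else 0) =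
        ι (if h : σ.mu b = j + 1 then z.1.2.2.2 ⟨b, h⟩ ⟨q, hqj⟩ else
        if h' : j + 1 + 1 ≤ σ.mu b then z.2 ⟨b, h'⟩ ⟨q, hqj⟩ else 0)
      split_ifs
      · rfl
      · rfl
      · exact (map_zero ι).symm
    · exact (rpl_ne b hqj).trans ((h.tau b q (by omega)).trans (congrArg ι (rpl_ne b hqj).symm))

end agr

/-! ### the induction -/

section main

variable {R K : Type} [CommRing R] [IsDomain R] [IsPrincipalIdealRing R] [Field K]
  [TopologicalSpace K] [IsTopologicalRing K] {ι : R →+* K} {I α β : Type} [Fintype I]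
  [DecidableEq I] [Fintype α] [DecidableEq α] [Fintype β] [DecidableEq β]

/-- the statement of the induction -/
def PSt (ι : R →+* K) (σ : Shp I α β) (U : Set (RSt K I α β)) (j : ℕ) : Prop :=
  ∃ s ∈ U, ∃ sR : RSt R I α β, IsSt σ sR ∧ Agr ι σ j s sR ∧
    (∀ i, j ≤ i → LInv (SigM σ sR i)) ∧ ∀ i, j ≤ i → RInv (TM σ sR i)

/-- the determinant condition at the level `j` -/
def DetU (ι : R →+* K) (σ : Shp I α β) (s : RSt K I α β) (j : ℕ) : Prop :=
  ∃ u : R, IsUnit u ∧ gdet (TM σ s j) = ι u * gdet (SigM σ s j)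

/-- start of the induction -/
theorem pst_top (σ : Shp I α β) (U : Set (RSt K I α β))
    (U3 : ∀ s ∈ U, ∀ j, RInv (TM σ s j)) (hne : U.Nonempty) :
    ∃ j, PSt ι σ U j := by
  obtain ⟨s, hs⟩ := hne
  obtain ⟨J, hJ⟩ : ∃ J, ∀ q, σ.deg q < J := by
    refine ⟨(Finset.univ.sup σ.deg) + 1, fun q => Nat.lt_succ_of_le ?_⟩
    exact Finset.le_sup (Finset.mem_univ q)
  refine ⟨J, s, hs, 0, ⟨fun _ _ _ => rfl, fun _ _ _ => rfl, fun _ _ _ => rfl⟩,
    ⟨fun p q hq => absurd (hJ q) (by omega), fun p q hq => absurd (hJ q) (by omega),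
      fun p q hq => absurd (hJ q) (by omega)⟩, fun i hi => ?_, fun i hi => ?_⟩
  · have : IsEmpty {q : I // i ≤ σ.deg q} := ⟨fun q => absurd (hJ q.1) (by have := q.2; omega)⟩
    exact ⟨0, Subsingleton.elim _ _⟩
  · have h1 : IsEmpty {q : I // σ.deg q = i} := ⟨fun q => absurd (hJ q.1) (by have := q.2; omega)⟩
    obtain ⟨Y, hY⟩ := U3 s hs i
    have h2 : IsEmpty {b : β // i + 1 ≤ σ.mu b} := by
      refine ⟨fun b => ?_⟩
      have h3 := congrFun (congrFun hY b) b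
      rw [Matrix.mul_apply, Matrix.one_apply_eq, Finset.univ_eq_empty, Finset.sum_empty] at h3
      exact zero_ne_one h3
    exact ⟨0, Subsingleton.elim _ _⟩

theorem linv_sub {R' m n m' n' : Type} [CommRing R'] [Fintype m] [Fintype m'] [Fintype n]
    [DecidableEq n] [DecidableEq n'] {M : Matrix m n R'} (h : LInv M) (er : m' ≃ m)
    (ec : n' ≃ n) : LInv (M.submatrix er ec) := by
  obtain ⟨Y, hY⟩ := h
  refine ⟨Y.submatrix ec er, ?_⟩
  rw [submatrix_mul_equiv Y M ec er ec, hY, submatrix_one_equiv]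

theorem linv_of_sub {R' m n m' n' : Type} [CommRing R'] [Fintype m] [Fintype m'] [Fintype n]
    [Fintype n'] [DecidableEq n] [DecidableEq n'] {M : Matrix m n R'} (er : m' ≃ m)
    (ec : n' ≃ n) (h : LInv (M.submatrix er ec)) : LInv M := by
  have := linv_sub h er.symm ec.symm
  simpa using this

theorem rinv_sub {R' m n m' : Type} [CommRing R'] [Fintype n]
    [DecidableEq m] [DecidableEq m'] {M : Matrix m n R'} (h : RInv M) (er : m' ≃ m) :
    RInv (M.submatrix er id) := by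
  obtain ⟨Y, hY⟩ := h
  refine ⟨Y.submatrix id er, ?_⟩
  have h1 : M.submatrix er id * Y.submatrix id er = (M * Y).submatrix er er := rfl
  rw [h1, hY, submatrix_one_equiv]

theorem rinv_of_sub {R' m n m' : Type} [CommRing R'] [Fintype n]
    [DecidableEq m] [DecidableEq m'] {M : Matrix m n R'} (er : m' ≃ m)
    (h : RInv (M.submatrix er id)) : RInv M := by
  have := rinv_sub h er.symm
  simpa using this

theorem gdet_eq {R' m n : Type} [CommRing R'] [Fintype m] [Fintype n] [DecidableEq n]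
    (M : Matrix m n R') (h : Fintype.card n = Fintype.card m) :
    gdet M = (M.submatrix (Fintype.equivOfCardEq h) id).det := dif_pos h

/-- `gdet` of a reindexed matrix as a determinant -/
theorem gdet_sub {R' m n m' n' : Type} [CommRing R'] [Fintype m] [Fintype n] [DecidableEq n]
    [Fintype m'] [Fintype n'] [DecidableEq n'] (M : Matrix m n R')
    (h : Fintype.card n = Fintype.card m) (er : m' ≃ m) (ec : n' ≃ n) :
    ∃ e : n' ≃ m', ((M.submatrix er ec).submatrix e id).det = gdet M := by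
  refine ⟨ec.trans ((Fintype.equivOfCardEq h).trans er.symm), ?_⟩
  rw [gdet_eq M h, ← det_submatrix_equiv_self ec (M.submatrix (Fintype.equivOfCardEq h) id)]
  congr 1
  ext i j
  simp

/-- one step of the induction -/
theorem pst_step (h : SAData ι) (hinv : InvCont K) (σ : Shp I α β) (U : Set (RSt K I α β))
    (U0 : ∀ s ∈ U, IsSt σ s)
    (U1 : ∀ s ∈ U, ∃ N ∈ 𝓝 s, ∀ s' ∈ N, IsSt σ s' → s' ∈ U)
    (U2 : ∀ s ∈ U, ∀ g : Matrix I I K, IsDg σ g → IsUnit g.det → bc s g ∈ U)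
    (U3 : ∀ s ∈ U, ∀ j, LInv (SigM σ s j) ∧ RInv (TM σ s j))
    (U4 : ∀ j, Sat σ j → ∀ s ∈ U, ∃ s' ∈ U, s'.1 = s.1 ∧ s'.2.1 = s.2.1 ∧
      (∀ b q, j < σ.deg q → s'.2.2 b q = s.2.2 b q) ∧ DetU ι σ s' j)
    (j : ℕ) (hP : PSt ι σ U (j + 1)) : PSt ι σ U j := by
  obtain ⟨s0, hs0, sR, hsR, hA, hS, hT⟩ := hP
  obtain ⟨s, hs, hA', hdet⟩ : ∃ s ∈ U, Agr ι σ (j + 1) s sR ∧ (Sat σ j → DetU ι σ s j) := by
    by_cases hsat : Sat σ j
    · obtain ⟨s', hs', e1, e2, e3, e4⟩ := U4 j hsat s0 hs0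
      refine ⟨s', hs', ⟨fun p q hq => ?_, fun a q hq => ?_, fun b q hq => ?_⟩, fun _ => e4⟩
      · rw [e1]; exact hA.c p q hq
      · rw [e2]; exact hA.rho a q hq
      · rw [e3 b q (by omega)]; exact hA.tau b q hq
    · exact ⟨s0, hs0, hA, fun h => absurd h hsat⟩
  have hst := U0 s hs
  have hsig : SigM σ s (j + 1) = (SigM σ sR (j + 1)).map ι := hA'.sig
  have htm : TM σ s (j + 1) = (TM σ sR (j + 1)).map ι := hA'.tm hst
  have hL : GStep.LI (fromBlocks ((SigM σ sR (j + 1)).map ι) (xM σ s j) 0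
      (fromRows (dM σ s j) (rM σ s j))) := by
    rw [← hsig, ← SigM_blk σ hst j]
    exact linv_sub (U3 s hs j).1 _ _
  have hR : GStep.RI (fromRows (tM σ s j) ((TM σ sR (j + 1)).map ι * dM σ s j)) := by
    rw [← htm, ← TM_blk σ hst j]
    exact rinv_sub (U3 s hs j).2 _
  have hD : Nonempty {b : β // σ.mu b = j + 1} →
      Nonempty ({q : I // j + 1 ≤ σ.deg q} ⊕ {q : I // σ.deg q = j} ≃
        ({p : I // j + 1 + 1 ≤ σ.deg p} ⊕ {a : α // j + 1 + 1 ≤ σ.lam a}) ⊕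
        ({p : I // σ.deg p = j + 1} ⊕ {a : α // σ.lam a = j + 1})) →
      Nonempty ({q : I // σ.deg q = j} ≃ {b : β // σ.mu b = j + 1} ⊕
        {b : β // j + 1 + 1 ≤ σ.mu b}) →
      ∃ (e : {q : I // j + 1 ≤ σ.deg q} ⊕ {q : I // σ.deg q = j} ≃
        ({p : I // j + 1 + 1 ≤ σ.deg p} ⊕ {a : α // j + 1 + 1 ≤ σ.lam a}) ⊕
        ({p : I // σ.deg p = j + 1} ⊕ {a : α // σ.lam a = j + 1}))
        (e' : {q : I // σ.deg q = j} ≃ {b : β // σ.mu b = j + 1} ⊕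
        {b : β // j + 1 + 1 ≤ σ.mu b}) (u : R), IsUnit u ∧
        ((fromRows (tM σ s j) ((TM σ sR (j + 1)).map ι * dM σ s j)).submatrix e' id).det =
          ι u * ((fromBlocks ((SigM σ sR (j + 1)).map ι) (xM σ s j) 0
            (fromRows (dM σ s j) (rM σ s j))).submatrix e id).det := by
    rintro ⟨b⟩ ⟨f⟩ ⟨f'⟩
    have c1 := Fintype.card_congr (f.trans (rowE σ j))
    rw [Fintype.card_sum, Fintype.card_sum] at c1
    have c2 := Fintype.card_congr (f'.trans ((Equiv.sumComm _ _).trans (lvE σ.mu (j + 1))))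
    have hsat : Sat σ j := ⟨by omega, c2.symm, b.1, b.2⟩
    obtain ⟨u, hu, hud⟩ := hdet hsat
    have c3 : Fintype.card {q : I // j ≤ σ.deg q} =
        Fintype.card ({p : I // j + 1 ≤ σ.deg p} ⊕ {a : α // j + 1 ≤ σ.lam a}) := by
      rw [← Fintype.card_congr (lvE σ.deg j), Fintype.card_sum, Fintype.card_sum]
      omega
    obtain ⟨e, he⟩ := gdet_sub (SigM σ s j) c3 (rowE σ j) (lvE σ.deg j)
    obtain ⟨e', he'⟩ := gdet_sub (TM σ s j) c2 ((Equiv.sumComm _ _).trans (lvE σ.mu (j + 1)))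
      (Equiv.refl _)
    refine ⟨e, e', u, hu, ?_⟩
    rw [← hsig, ← htm, ← SigM_blk σ hst j, ← TM_blk σ hst j, he]
    rw [← hud, ← he']
    rfl
  obtain ⟨G, hG, H⟩ := GStep.level_step h hinv (SigM σ sR (j + 1)) (hS (j + 1) le_rfl)
    (TM σ sR (j + 1)) (hT (j + 1) le_rfl) (xM σ s j) (dM σ s j) (rM σ s j) (tM σ s j) hL hR hD
  obtain ⟨s1, hs1d⟩ : ∃ s1, s1 = bc s (dgE σ.deg j G) := ⟨_, rfl⟩
  have hs1 : s1 ∈ U := by
    rw [hs1d]
    exact U2 s hs _ (dgE_isDg σ j G) (by rw [dgE_det]; exact hG)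
  obtain ⟨N, hN, hNU⟩ := U1 s1 hs1
  have hst1 := U0 s1 hs1
  have hA1 : Agr ι σ (j + 1) s1 sR := by
    refine ⟨fun p q hq => ?_, fun a q hq => ?_, fun b q hq => ?_⟩
    · rw [hs1d, bc_c_gt hst hG p q (by omega)]; exact hA'.c p q hq
    · rw [hs1d, bc_rho_gt a q (by omega)]; exact hA'.rho a q hq
    · rw [hs1d, bc_tau_gt b q (by omega)]; exact hA'.tau b q hq
  have e1 : colD σ s1 j = ((xM σ s j * G, dM σ s j * G, rM σ s j * G, tM σ s j * G),
      wM σ s j * G) := by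
    rw [colD, hs1d, xM_bc hst hG, dM_bc hst hG, rM_bc, tM_bc, wM_bc]
  have hpre := (rep_cont σ j s1).continuousAt.preimage_mem_nhds (x := colD σ s1 j)
    (by rw [rep_self hst1]; exact hN)
  rw [e1] at hpre
  obtain ⟨N1, hN1, N2, hN2, hNN⟩ := mem_nhds_prod_iff.1 hpre
  obtain ⟨w', hw'⟩ := h.exists_mat hN2
  obtain ⟨x', D', r', t', hU, hLI, hRI⟩ := H N1 hN1
  obtain ⟨z, hz⟩ : ∃ z : ColD R σ j, z = ((x', D', r', t'), w') := ⟨_, rfl⟩
  have hzU : rep σ j s1 (mapD ι z) ∈ N := by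
    have k1 : (((x'.map ι, D'.map ι, r'.map ι, t'.map ι), w'.map ι) : ColD K σ j) ∈ N1 ×ˢ N2 :=
      Set.mk_mem_prod hU hw'
    have k2 := hNN k1
    have k3 : mapD ι z = (((x'.map ι, D'.map ι, r'.map ι, t'.map ι), w'.map ι) : ColD K σ j) := by
      rw [hz]; rfl
    rw [k3]
    exact k2
  have z1 : z.1.1 = x' := by rw [hz]
  have z2 : z.1.2.1 = D' := by rw [hz]
  have z3 : z.1.2.2.1 = r' := by rw [hz]
  have z4 : z.1.2.2.2 = t' := by rw [hz]
  have hstR : IsSt σ (rep σ j sR z) := rep_isSt hsR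
  have hSc : ∀ i, j + 1 ≤ i → SigM σ (rep σ j sR z) i = SigM σ sR i := fun i hi =>
    SigM_congr (fun p q hq => rpl_ne p (by omega)) (fun a q hq => rpl_ne a (by omega))
  have hTc : ∀ i, j + 1 ≤ i → TM σ (rep σ j sR z) i = TM σ sR i := fun i hi =>
    TM_congr hstR (fun p q hq => rpl_ne p (by omega)) (fun a q hq => rpl_ne a (by omega))
  refine ⟨rep σ j s1 (mapD ι z), hNU _ hzU (rep_isSt hst1), rep σ j sR z, hstR, hA1.rep z,
    fun i hi => ?_, fun i hi => ?_⟩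
  · rcases hi.eq_or_lt with rfl | hi
    · have e2 := SigM_blk σ hstR j
      rw [hSc _ le_rfl, xM_rep, dM_rep, rM_rep, z1, z2, z3] at e2
      rw [← e2] at hLI
      exact linv_of_sub _ _ hLI
    · rw [hSc i hi]; exact hS i hi
  · rcases hi.eq_or_lt with rfl | hi
    · have e2 := TM_blk σ hstR j
      rw [hTc _ le_rfl, dM_rep, tM_rep, z2, z4] at e2
      rw [← e2] at hRI
      exact rinv_of_sub _ hRI
    · rw [hTc i hi]; exact hT i hi

/-- **Theorem SA**, abstract form -/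
theorem sa_abs (h : SAData ι) (hinv : InvCont K) (σ : Shp I α β) (U : Set (RSt K I α β))
    (U0 : ∀ s ∈ U, IsSt σ s)
    (U1 : ∀ s ∈ U, ∃ N ∈ 𝓝 s, ∀ s' ∈ N, IsSt σ s' → s' ∈ U)
    (U2 : ∀ s ∈ U, ∀ g : Matrix I I K, IsDg σ g → IsUnit g.det → bc s g ∈ U)
    (U3 : ∀ s ∈ U, ∀ j, LInv (SigM σ s j) ∧ RInv (TM σ s j))
    (U4 : ∀ j, Sat σ j → ∀ s ∈ U, ∃ s' ∈ U, s'.1 = s.1 ∧ s'.2.1 = s.2.1 ∧
      (∀ b q, j < σ.deg q → s'.2.2 b q = s.2.2 b q) ∧ DetU ι σ s' j)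
    (hne : U.Nonempty) :
    ∃ s : RSt R I α β, IsSt σ s ∧ smap ι s ∈ U ∧ (∀ j, LInv (SigM σ s j)) ∧
      ∀ j, RInv (TM σ s j) := by
  obtain ⟨J, hJ⟩ := pst_top (ι := ι) σ U (fun s hs j => (U3 s hs j).2) hne
  have h0 : PSt ι σ U 0 := by
    induction J with
    | zero => exact hJ
    | succ J ih => exact ih (pst_step h hinv σ U U0 U1 U2 U3 U4 J hJ)
  obtain ⟨s, hs, sR, hsR, hA, hS, hT⟩ := h0
  refine ⟨sR, hsR, ?_, fun j => hS j (Nat.zero_le j), fun j => hT j (Nat.zero_le j)⟩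
  have h1 : smap ι sR = s := by
    refine Prod.ext ?_ (Prod.ext ?_ ?_)
    · ext p q; exact (hA.c p q (Nat.zero_le _)).symm
    · ext a q; exact (hA.rho a q (Nat.zero_le _)).symm
    · ext b q; exact (hA.tau b q (Nat.zero_le _)).symm
  rw [h1]
  exact hs

end main

end Pool.Agent.DEC.StateSA

namespace Pool.Agent.DEC

open StateSA

variable {R K : Type} [CommRing R] [IsDomain R] [IsPrincipalIdealRing R] [Field K]
  [TopologicalSpace K] [IsTopologicalRing K] {ι : R →+* K} {I α β : Type} [Fintype I]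
  [DecidableEq I] [Fintype α] [DecidableEq α] [Fintype β] [DecidableEq β]

/-- **Theorem SA** of `dec_general.md` (section 3) -/
theorem sa_state (h : SAData ι) (hinv : InvCont K) (σ : Shp I α β) (U : Set (RSt K I α β))
    (U0 : ∀ s ∈ U, IsSt σ s)
    (U1 : ∀ s ∈ U, ∃ N ∈ 𝓝 s, ∀ s' ∈ N, IsSt σ s' → s' ∈ U)
    (U2 : ∀ s ∈ U, ∀ g : Matrix I I K, IsDg σ g → IsUnit g.det → bc s g ∈ U)
    (U3 : ∀ s ∈ U, LInv (RM σ s) ∧ RInv (MM σ s))
    (U4 : ∀ j, Sat σ j → ∃ b, σ.mu b = j + 1 ∧ ∀ s ∈ U, ∃ f : K, f ≠ 0 ∧ scT b f s ∈ U ∧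
      ∃ u : R, IsUnit u ∧
        gdet (TM σ (scT b f s) j) = ι u * gdet (SigM σ (scT b f s) j))
    (hne : U.Nonempty) :
    ∃ s : RSt R I α β, IsSt σ s ∧ smap ι s ∈ U ∧ (∀ j, LInv (SigM σ s j)) ∧
      ∀ j, RInv (TM σ s j) := by
  refine sa_abs h hinv σ U U0 U1 U2 (fun s hs j => ?_) (fun j hj s hs => ?_) hne
  · exact ⟨SigM_left_of_RM (U0 s hs) (U3 s hs).1 j, TM_right_of_MM (U0 s hs) (U3 s hs).2 j⟩
  · obtain ⟨b, hb, H⟩ := U4 j hj
    obtain ⟨f, -, hf, hu⟩ := H s hs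
    refine ⟨scT b f s, hf, rfl, rfl, fun b' q hq => ?_, hu⟩
    show (if b' = b then f * s.2.2 b' q else s.2.2 b' q) = s.2.2 b' q
    split_ifs with hbb
    · rw [hbb, (U0 s hs).tau b q (by omega), mul_zero]
    · rfl

end Pool.Agent.DEC
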