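import Pool.Agent.DEC.MF
import Pool.Agent.DEC.StateC

/-! (U2) of `dec_general.md`: the set `InU` is stable under base change. -/

set_option autoImplicit false
set_option linter.unusedSectionVars false

open Matrix

namespace Pool.Agent.DEC

section aux

variable {R I m : Type} [CommRing R] [Fintype I] [DecidableEq I]

theorem LInv.mul_right {M : Matrix m I R} [Fintype m] (h : LInv M) {g : Matrix I I R}
    (hg : IsUnit g.det) : LInv (M * g) := by
  obtain ⟨Y, hY⟩ := h
  refine ⟨g⁻¹ * Y, ?_⟩
  calc g⁻¹ * Y * (M * g) = g⁻¹ * (Y * M) * g := by simp only [Matrix.mul_assoc]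
    _ = 1 := by rw [hY, Matrix.mul_one, nonsing_inv_mul _ hg]

theorem RInv.mul_right {M : Matrix m I R} [DecidableEq m] (h : RInv M) {g : Matrix I I R}
    (hg : IsUnit g.det) : RInv (M * g) := by
  obtain ⟨Y, hY⟩ := h
  refine ⟨g⁻¹ * Y, ?_⟩
  calc M * g * (g⁻¹ * Y) = M * (g * g⁻¹) * Y := by simp only [Matrix.mul_assoc]
    _ = 1 := by rw [mul_nonsing_inv _ hg, Matrix.mul_one, hY]

end aux

section maps

variable {F : Type} [DecidableEq F] {K : F → Type} [∀ i, Field (K i)] [∀ i, Algebra ℚ (K i)]
  {I α β : F → Type} [∀ i, Fintype (I i)] [∀ i, DecidableEq (I i)]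

theorem mR_bc (σ : ∀ i, Shp (I i) (α i) (β i)) (s : MSt K I α β) (i0 : F)
    {g : Matrix (I i0) (I i0) (K i0)} (hu : IsUnit g.det) :
    mR σ (Function.update s i0 (bc (s i0) g)) =
      mR σ s ∘ₗ mmap (Function.update (fun i => (1 : Matrix (I i) (I i) (K i))) i0 g) := by
  refine LinearMap.ext fun z => ?_
  funext i
  by_cases h : i = i0
  · subst h
    change RM (σ i) (Function.update s i (bc (s i) g) i) *ᵥ z i = RM (σ i) (s i) *ᵥ
      (Function.update (fun i => (1 : Matrix (I i) (I i) (K i))) i g i *ᵥ z i)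
    rw [Function.update_self, Function.update_self, RM_bc _ _ _ hu, mulVec_mulVec]
  · change RM (σ i) (Function.update s i0 (bc (s i0) g) i) *ᵥ z i = RM (σ i) (s i) *ᵥ
      (Function.update (fun i => (1 : Matrix (I i) (I i) (K i))) i0 g i *ᵥ z i)
    rw [Function.update_of_ne h, Function.update_of_ne h, one_mulVec]

theorem mW_bc (σ : ∀ i, Shp (I i) (α i) (β i)) (s : MSt K I α β) (i0 : F)
    {g : Matrix (I i0) (I i0) (K i0)} (hu : IsUnit g.det) :
    mW σ (Function.update s i0 (bc (s i0) g)) =
      mW σ s ∘ₗ mmap (Function.update (fun i => (1 : Matrix (I i) (I i) (K i))) i0 g) := by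
  refine LinearMap.ext fun z => ?_
  funext i
  by_cases h : i = i0
  · subst h
    change MM (σ i) (Function.update s i (bc (s i) g) i) *ᵥ z i = MM (σ i) (s i) *ᵥ
      (Function.update (fun i => (1 : Matrix (I i) (I i) (K i))) i g i *ᵥ z i)
    rw [Function.update_self, Function.update_self, MM_bc _ _ _ hu, mulVec_mulVec]
  · change MM (σ i) (Function.update s i0 (bc (s i0) g) i) *ᵥ z i = MM (σ i) (s i) *ᵥ
      (Function.update (fun i => (1 : Matrix (I i) (I i) (K i))) i0 g i *ᵥ z i)
    rw [Function.update_of_ne h, Function.update_of_ne h, one_mulVec]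

theorem mmap_update_surj (i0 : F) {g : Matrix (I i0) (I i0) (K i0)} (hu : IsUnit g.det) :
    Function.Surjective
      (mmap (Function.update (fun i => (1 : Matrix (I i) (I i) (K i))) i0 g)) := by
  intro z
  refine ⟨fun i => Function.update (fun i => (1 : Matrix (I i) (I i) (K i))) i0 g⁻¹ i *ᵥ z i, ?_⟩
  funext i
  by_cases h : i = i0
  · subst h
    change Function.update (fun i => (1 : Matrix (I i) (I i) (K i))) i g i *ᵥ
      (Function.update (fun i => (1 : Matrix (I i) (I i) (K i))) i g⁻¹ i *ᵥ z i) = z i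
    rw [Function.update_self, Function.update_self, mulVec_mulVec, mul_nonsing_inv _ hu,
      one_mulVec]
  · change Function.update (fun i => (1 : Matrix (I i) (I i) (K i))) i0 g i *ᵥ
      (Function.update (fun i => (1 : Matrix (I i) (I i) (K i))) i0 g⁻¹ i *ᵥ z i) = z i
    rw [Function.update_of_ne h, Function.update_of_ne h, one_mulVec, one_mulVec]

variable [∀ i, Fintype (α i)] [∀ i, Fintype (β i)] [∀ i, DecidableEq (α i)]
  [∀ i, DecidableEq (β i)]

/-- **(U2)** -/
theorem InU.bc {n c : ℕ} {D : ∀ i, Subring (K i)} {σ : ∀ i, Shp (I i) (α i) (β i)}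
    {GV : AddSubgroup (∀ i, Blk (σ i).lam → K i)} {GW : AddSubgroup (∀ i, Blk (σ i).mu → K i)}
    {u : ∀ i, ℕ → K i} {s : MSt K I α β} (hs : InU n c D σ GV GW u s) (i0 : F)
    {g : Matrix (I i0) (I i0) (K i0)} (hg : IsDg (σ i0) g) (hu : IsUnit g.det) :
    InU n c D σ GV GW u (Function.update s i0 (DEC.bc (s i0) g)) := by
  refine ⟨fun i => ?_, fun i => ?_, fun i => ?_, ?_, fun i j hj => ?_⟩
  · by_cases h : i = i0
    · subst h
      rw [Function.update_self]
      exact (hs.st i).bc hg hu
    · rw [Function.update_of_ne h]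
      exact hs.st i
  · by_cases h : i = i0
    · subst h
      rw [Function.update_self, RM_bc _ _ _ hu]
      exact (hs.inj i).mul_right hu
    · rw [Function.update_of_ne h]
      exact hs.inj i
  · by_cases h : i = i0
    · subst h
      rw [Function.update_self, MM_bc _ _ _ hu]
      exact (hs.surj i).mul_right hu
    · rw [Function.update_of_ne h]
      exact hs.surj i
  · rw [mR_bc σ s i0 hu, mW_bc σ s i0 hu]
    exact hs.loc.comp_right _ (mmap_update_surj i0 hu)
  · by_cases h : i = i0
    · subst h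
      rw [Function.update_self, gdet_TM_bc _ _ hg hu, gdet_SigM_bc _ _ hg hu]
      obtain ⟨w, hw, h1⟩ := hs.unit i j hj
      exact ⟨w, hw, by rw [h1]; ring⟩
    · rw [Function.update_of_ne h]
      exact hs.unit i j hj

end maps

end Pool.Agent.DEC
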