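import Pool.Agent.DEC.T1Away

/-!
# DEC, Theorem 1: the condition (U4) (helper23)

Scaling one block `b` of `W` by an element `f` of `1 + n ^ c OO`.
-/

set_option autoImplicit false
set_option linter.unusedSectionVars false

open Matrix

namespace Pool.Agent.DEC

section sm

variable {K : Type} [Field K] {n c : ℕ} {O D : Subring K}

theorem sm_mul {x y : K} (hx : Sm n D c (x - 1)) (hy : Sm n D c (y - 1)) :
    Sm n D c (x * y - 1) := by
  obtain ⟨a, ha, ha'⟩ := hx
  obtain ⟨b, hb, hb'⟩ := hy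
  refine ⟨a * y + b, D.add_mem (D.mul_mem ha ?_) hb, ?_⟩
  · have : y = 1 + (n : K) ^ c * b := by rw [← hb']; ring
    rw [this]
    exact D.add_mem D.one_mem (D.mul_mem (pow_mem (natCast_mem _ n) c) hb)
  · have e1 : x * y - 1 = (x - 1) * y + (y - 1) := by ring
    rw [e1, ha', hb']
    ring

theorem sm_inv (hD : Den n O D) (hc : 1 ≤ c) {x : K} (hx : Sm n D c (x - 1)) :
    x ≠ 0 ∧ Sm n D c (x⁻¹ - 1) := by
  obtain ⟨a, ha, ha'⟩ := hx
  obtain ⟨e, rfl⟩ := Nat.exists_eq_add_of_le hc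
  obtain ⟨w, hw, hw1⟩ := hD.jac ((n : K) ^ e * a) (D.mul_mem (pow_mem (natCast_mem _ n) e) ha)
  have hx1 : x = 1 + (n : K) * ((n : K) ^ e * a) := by
    have : x = 1 + (x - 1) := by ring
    rw [this, ha']
    ring
  rw [← hx1] at hw1
  have hx0 : x ≠ 0 := by
    rintro rfl
    rw [zero_mul] at hw1
    exact zero_ne_one hw1
  refine ⟨hx0, -(a * w), D.neg_mem (D.mul_mem ha hw), ?_⟩
  have h2 : x⁻¹ = w := (eq_inv_of_mul_eq_one_right hw1).symm
  have h3 : w - 1 = -((x - 1) * w) := by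
    have : (x - 1) * w = x * w - w := by ring
    rw [this, hw1]
    ring
  rw [h2, h3, ha']
  ring

end sm

section fam

variable {F : Type} [Fintype F] [DecidableEq F] {S K : F → Type} [∀ i, CommRing (S i)]
  [∀ i, Field (K i)] [∀ i, Algebra ℚ (K i)] [∀ i, Algebra (S i) (K i)]

/-- multiplication of the block `b` in the component `i0` by `f` -/
def scW {γ : F → Type} [∀ i, DecidableEq (γ i)] (h : ∀ i, γ i → ℕ) (i0 : F) (b : γ i0)
    (f : K i0) : (∀ i, Blk (h i) → K i) →ₗ[ℚ] (∀ i, Blk (h i) → K i) where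
  toFun w := Function.update w i0 fun c => (if c.1 = b then f else 1) * w i0 c
  map_add' v w := by
    funext i
    by_cases hi : i = i0
    · subst hi
      simp only [Function.update_self, Pi.add_apply]
      funext c
      simp only [Pi.add_apply]
      ring
    · simp only [Function.update_of_ne hi, Pi.add_apply]
  map_smul' q w := by
    funext i
    by_cases hi : i = i0
    · subst hi
      simp only [Function.update_self, Pi.smul_apply]
      funext c
      simp only [Pi.smul_apply, Algebra.smul_def, RingHom.id_apply]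
      ring
    · simp only [Function.update_of_ne hi, Pi.smul_apply, RingHom.id_apply]

theorem scW_apply {γ : F → Type} [∀ i, DecidableEq (γ i)] (h : ∀ i, γ i → ℕ) (i0 : F)
    (b : γ i0) (f : K i0) (w : ∀ i, Blk (h i) → K i) :
    scW h i0 b f w = Function.update w i0 fun c => (if c.1 = b then f else 1) * w i0 c := rfl

theorem scW_inv {γ : F → Type} [∀ i, DecidableEq (γ i)] (h : ∀ i, γ i → ℕ) (i0 : F)
    (b : γ i0) {f g : K i0} (hfg : f * g = 1) (w : ∀ i, Blk (h i) → K i) :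
    scW h i0 b f (scW h i0 b g w) = w := by
  rw [scW_apply, scW_apply]
  funext i
  by_cases hi : i = i0
  · subst hi
    simp only [Function.update_self]
    funext c
    split_ifs
    · rw [← mul_assoc, hfg, one_mul]
    · rw [one_mul, one_mul]
  · simp only [Function.update_of_ne hi]

/-- an element of `locDT` has a multiple in `lamT` -/
theorem locDT_mul {S K : Type} [CommRing S] [Field K] [Algebra S K] {n : ℕ} {θ : S} {x : K}
    (hx : x ∈ locDT S K n θ) :
    ∃ m : ℕ, m ≠ 0 ∧ m.Coprime n ∧ (m : K) * x ∈ lamT S K θ := by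
  obtain ⟨m, hm, hmn, h, s, hs⟩ := hx
  refine ⟨m, hm, hmn, 0, h, s, ?_⟩
  rw [← hs]
  simp only [Nat.cast_one, one_pow, one_mul]
  ring

/-- a common multiplier for a family -/
theorem exists_common {ι : Type} (t : Finset ι) {n : ℕ} (P : ι → ℕ → Prop)
    (hP : ∀ i m k, P i m → P i (k * m)) (h : ∀ i, ∃ m : ℕ, m ≠ 0 ∧ m.Coprime n ∧ P i m) :
    ∃ m : ℕ, m ≠ 0 ∧ m.Coprime n ∧ ∀ i ∈ t, P i m := by
  classical
  induction t using Finset.induction_on with
  | empty => exact ⟨1, one_ne_zero, Nat.coprime_one_left n, fun i hi => absurd hi (Finset.notMem_empty i)⟩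
  | insert a t ha ih =>
    obtain ⟨m, hm, hmn, hPm⟩ := ih
    obtain ⟨k, hk, hkn, hPk⟩ := h a
    refine ⟨m * k, mul_ne_zero hm hk, Nat.Coprime.mul_left hmn hkn, fun i hi => ?_⟩
    rcases Finset.mem_insert.1 hi with rfl | hi
    · exact hP _ _ m hPk
    · rw [mul_comm]
      exact hP _ _ k (hPm i hi)

/-- the group `locAt n GW` is stable under multiplication of a block by `f ∈ 1 + n ^ c OO` -/
theorem scW_mem {γ : F → Type} [∀ i, Fintype (γ i)] [∀ i, DecidableEq (γ i)] {h : ∀ i, γ i → ℕ}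
    {n c l1 : ℕ} (hc : l1 ≤ c) {θ : ∀ i, S i} {G : AddSubgroup (∀ i, Blk (h i) → K i)}
    (h1 : ∀ v, InR (fun i => lamT (S i) (K i) (θ i)) v → v ∈ G)
    (h2 : ∀ v ∈ G, InR (fun i => lamT (S i) (K i) (θ i)) (n ^ l1 • v))
    (i0 : F) (b : γ i0) {f : K i0} (hf : Sm n (locDT (S i0) (K i0) n (θ i0)) c (f - 1))
    {w : ∀ i, Blk (h i) → K i} (hw : w ∈ locAt n G) : scW h i0 b f w ∈ locAt n G := by
  obtain ⟨m, hm, hmn, hmw⟩ := hw
  obtain ⟨x, hx, hx'⟩ := hf
  obtain ⟨k, hk, hkn, hkx⟩ := locDT_mul hx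
  refine ⟨k * m, mul_ne_zero hk hm, Nat.Coprime.mul_left hkn hmn, ?_⟩
  -- the difference
  have h3 : (k * m) • scW h i0 b f w = (k * m) • w + (k * m) • (scW h i0 b f w - w) := by
    rw [← smul_add]
    congr 1
    abel
  rw [h3]
  refine G.add_mem ?_ (h1 _ fun i c' => ?_)
  · rw [mul_smul]
    exact G.nsmul_mem hmw k
  · by_cases hi : i = i0
    · subst hi
      have e1 : ((k * m) • (scW h i b f w - w)) i c' =
          (if c'.1 = b then (n : K i) ^ (c - l1) * ((k : K i) * x) * ((n : K i) ^ l1 * ((m : K i) * w i c'))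
            else 0) := by
        show (k * m) • (scW h i b f w i c' - w i c') = _
        rw [scW_apply, Function.update_self, nsmul_eq_mul]
        split_ifs with hcb
        · have e2 : f = 1 + (n : K i) ^ c * x := by rw [← hx']; ring
          obtain ⟨e, rfl⟩ := Nat.exists_eq_add_of_le hc
          rw [e2, Nat.add_sub_cancel_left, pow_add]
          push_cast
          ring
        · rw [one_mul, sub_self, mul_zero]
      rw [e1]
      split_ifs
      · refine (lamT (S i) (K i) (θ i)).mul_mem ((lamT (S i) (K i) (θ i)).mul_mem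
          (pow_mem (natCast_mem _ n) _) hkx) ?_
        have h4 := h2 _ hmw i c'
        have e3 : (n ^ l1 • m • w) i c' = (n : K i) ^ l1 * ((m : K i) * w i c') := by
          show n ^ l1 • (m • w i c') = _
          rw [nsmul_eq_mul, nsmul_eq_mul]
          push_cast
          ring
        rwa [e3] at h4
      · exact (lamT (S i) (K i) (θ i)).zero_mem
    · have e1 : ((k * m) • (scW h i0 b f w - w)) i c' = 0 := by
        show (k * m) • (scW h i0 b f w i c' - w i c') = _
        rw [scW_apply, Function.update_of_ne hi, sub_self, smul_zero]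
      rw [e1]
      exact (lamT (S i) (K i) (θ i)).zero_mem

end fam

section main

variable {F : Type} [Fintype F] [DecidableEq F] {S K : F → Type} [∀ i, CommRing (S i)]
  [∀ i, Field (K i)] [∀ i, Algebra ℚ (K i)] [∀ i, Algebra (S i) (K i)]
  {I α β : F → Type} [∀ i, Fintype (I i)] [∀ i, DecidableEq (I i)] [∀ i, Fintype (α i)]
  [∀ i, DecidableEq (α i)] [∀ i, Fintype (β i)] [∀ i, DecidableEq (β i)]

/-- a property of all components after an update -/
theorem forall_update {P : F → Type} (Q : ∀ i, P i → Prop) (s : ∀ i, P i) (i0 : F) (x : P i0)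
    (h : ∀ i, i ≠ i0 → Q i (s i)) (h0 : Q i0 x) (i : F) : Q i (Function.update s i0 x i) := by
  by_cases hi : i = i0
  · subst hi
    rwa [Function.update_self]
  · rw [Function.update_of_ne hi]
    exact h i hi

theorem mR_scT (σ : ∀ i, Shp (I i) (α i) (β i)) (s : MSt K I α β) (i0 : F) (b : β i0)
    (f : K i0) : mR σ (Function.update s i0 (scT b f (s i0))) = mR σ s := by
  refine LinearMap.ext fun z => ?_
  funext i
  show RM (σ i) (Function.update s i0 (scT b f (s i0)) i) *ᵥ z i = RM (σ i) (s i) *ᵥ z i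
  congr 1
  by_cases hi : i = i0
  · subst hi
    rw [Function.update_self]
    rfl
  · rw [Function.update_of_ne hi]

theorem mW_scT (σ : ∀ i, Shp (I i) (α i) (β i)) (s : MSt K I α β) (i0 : F) (b : β i0)
    (f : K i0) : mW σ (Function.update s i0 (scT b f (s i0))) =
      scW (fun i => (σ i).mu) i0 b f ∘ₗ mW σ s := by
  refine LinearMap.ext fun z => ?_
  rw [LinearMap.comp_apply, scW_apply]
  funext i
  by_cases hi : i = i0
  · subst hi
    rw [Function.update_self]
    funext c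
    show (MM (σ i) (Function.update s i (scT b f (s i)) i) *ᵥ z i) c =
      (if c.1 = b then f else 1) * (MM (σ i) (s i) *ᵥ z i) c
    rw [Function.update_self]
    simp only [mulVec, dotProduct, Finset.mul_sum]
    refine Finset.sum_congr rfl fun q _ => ?_
    rw [MM_scT]
    ring
  · rw [Function.update_of_ne hi]
    show MM (σ i) (Function.update s i0 (scT b f (s i0)) i) *ᵥ z i = MM (σ i) (s i) *ᵥ z i
    rw [Function.update_of_ne hi]

theorem RInv_MM_scT {K I α β : Type} [Field K] [Fintype I] [DecidableEq I] [Fintype β]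
    [DecidableEq β] (σ : Shp I α β) (s : RSt K I α β) (b : β) {f : K} (hf : f ≠ 0)
    (h : RInv (MM σ s)) : RInv (MM σ (scT b f s)) := by
  obtain ⟨Y, hY⟩ := h
  refine ⟨Y * diagonal (fun c : Blk σ.mu => if c.1 = b then f⁻¹ else 1), ?_⟩
  have h1 : MM σ (scT b f s) = diagonal (fun c : Blk σ.mu => if c.1 = b then f else 1) * MM σ s := by
    ext c q
    rw [MM_scT, diagonal_mul]
  rw [h1, Matrix.mul_assoc, ← Matrix.mul_assoc (MM σ s), hY, Matrix.one_mul,
    diagonal_mul_diagonal]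
  rw [← diagonal_one]
  congr 1
  funext c
  split_ifs
  · exact mul_inv_cancel₀ hf
  · exact one_mul 1

/-- **(U4)** -/
theorem inU_scT {n c l1 : ℕ} (hc : l1 ≤ c) (hc1 : 1 ≤ c) {θ : ∀ i, S i}
    (hD : ∀ i, Den n (locOT (S i) (K i) n (θ i)) (locDT (S i) (K i) n (θ i)))
    (σ : ∀ i, Shp (I i) (α i) (β i))
    {GV : AddSubgroup (∀ i, Blk (σ i).lam → K i)} {GW : AddSubgroup (∀ i, Blk (σ i).mu → K i)}
    (hW1 : ∀ v, InR (fun i => lamT (S i) (K i) (θ i)) v → v ∈ GW)
    (hW2 : ∀ v ∈ GW, InR (fun i => lamT (S i) (K i) (θ i)) (n ^ l1 • v))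
    {u : ∀ i, ℕ → K i}
    (hu : ∀ i j, Sat (σ i) j → u i j ∈ locOT (S i) (K i) n (θ i) ∧
      (u i j)⁻¹ ∈ locOT (S i) (K i) n (θ i) ∧ u i j ≠ 0)
    (i0 : F) (j : ℕ) (hj : Sat (σ i0) j) :
    ∃ b, (σ i0).mu b = j + 1 ∧ ∀ s : MSt K I α β,
      InU n c (fun i => locDT (S i) (K i) n (θ i)) σ GV GW u s →
      ∃ f : K i0, f ≠ 0 ∧
        InU n c (fun i => locDT (S i) (K i) n (θ i)) σ GV GW u
          (Function.update s i0 (scT b f (s i0))) ∧
        ∃ w : locOT (S i0) (K i0) n (θ i0), IsUnit w ∧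
          gdet (TM (σ i0) (scT b f (s i0)) j) =
            (locOT (S i0) (K i0) n (θ i0)).subtype w * gdet (SigM (σ i0) (scT b f (s i0)) j) := by
  obtain ⟨b, hb⟩ := hj.2.2
  refine ⟨b, hb, fun s hs => ?_⟩
  obtain ⟨w, hw, hw'⟩ := hs.unit i0 j hj
  obtain ⟨hw0, hwi⟩ := sm_inv (hD i0) hc1 hw
  have hf0 : w⁻¹ ≠ 0 := inv_ne_zero hw0
  obtain ⟨hu1, hu2, hu3⟩ := hu i0 j hj
  refine ⟨w⁻¹, hf0, ⟨?_, ?_, ?_, ?_, ?_⟩, ⟨u i0 j, hu1⟩, ?_, ?_⟩
  · exact forall_update (fun i x => IsSt (σ i) x) s i0 _ (fun i _ => hs.st i)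
      ((hs.st i0).scT b w⁻¹)
  · refine forall_update (fun i x => LInv (RM (σ i) x)) s i0 _ (fun i _ => hs.inj i) ?_
    rw [RM_scT]
    exact hs.inj i0
  · exact forall_update (fun i x => RInv (MM (σ i) x)) s i0 _ (fun i _ => hs.surj i)
      (RInv_MM_scT (σ i0) (s i0) b hf0 (hs.surj i0))
  · rw [mR_scT, mW_scT]
    exact hs.loc.comp_left _ (fun y hy => scW_mem hc hW1 hW2 i0 b hwi hy)
      (scW (fun i => (σ i).mu) i0 b w) (fun y hy => scW_mem hc hW1 hW2 i0 b hw hy)
      (scW_inv _ i0 b (inv_mul_cancel₀ hw0))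
  · intro i j' hj'
    by_cases hi : i = i0
    · subst hi
      rw [Function.update_self, gdet_TM_scT, SigM_scT]
      obtain ⟨w', hw1, hw2⟩ := hs.unit i j' hj'
      by_cases hb' : j' + 1 ≤ (σ i).mu b
      · rw [if_pos hb']
        refine ⟨w⁻¹ * w', sm_mul hwi hw1, ?_⟩
        rw [hw2]
        ring
      · rw [if_neg hb', one_mul]
        exact ⟨w', hw1, hw2⟩
    · rw [Function.update_of_ne hi]
      exact hs.unit i j' hj'
  · refine IsUnit.of_mul_eq_one ⟨(u i0 j)⁻¹, hu2⟩ (Subtype.ext ?_)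
    show u i0 j * (u i0 j)⁻¹ = 1
    exact mul_inv_cancel₀ hu3
  · rw [gdet_TM_scT, if_pos hb.ge, SigM_scT, hw']
    show w⁻¹ * (w * u i0 j * _) = u i0 j * _
    rw [← mul_assoc, ← mul_assoc, inv_mul_cancel₀ hw0, one_mul]

end main

end Pool.Agent.DEC
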