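import Pool.Agent.DEC.T1U1
import Pool.Agent.DEC.T1U2
import Pool.Agent.DEC.T1U4
import Pool.Agent.DEC.LocTop
import Pool.Agent.DEC.StateSA
import Pool.Agent.DEC.STopT

/-! Theorem 1 of `dec_general.md` (section 5). -/

set_option autoImplicit false
set_option linter.unusedSectionVars false

open Matrix Topology

namespace Pool.Agent.DEC

variable {F : Type} [Fintype F] [DecidableEq F] {S K : F → Type} [∀ i, CommRing (S i)]
  [∀ i, IsDomain (S i)] [∀ i, Module.Free ℤ (S i)] [∀ i, Module.Finite ℤ (S i)]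
  [∀ i, Field (K i)] [∀ i, Algebra ℚ (K i)] [∀ i, Algebra (S i) (K i)]
  [∀ i, IsFractionRing (S i) (K i)]
  {I α β : F → Type} [∀ i, Fintype (I i)] [∀ i, DecidableEq (I i)] [∀ i, Fintype (α i)]
  [∀ i, DecidableEq (α i)] [∀ i, Fintype (β i)] [∀ i, DecidableEq (β i)]

/-- **Theorem 1**, with all the information on the new state -/
theorem thm1_full (n : ℕ) (hn : 2 ≤ n) (θ : ∀ i, S i) (hθ : ∀ i, θ i ≠ 0)
    (hpid : ∀ i, IsPrincipalIdealRing (locOT (S i) (K i) n (θ i)))
    (hnu : ∀ i, (n : K i)⁻¹ ∉ lamT (S i) (K i) (θ i))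
    (σ : ∀ i, Shp (I i) (α i) (β i)) (hmu : ∀ i b, 1 ≤ (σ i).mu b)
    (GV : AddSubgroup (∀ i, Blk (σ i).lam → K i)) (GW : AddSubgroup (∀ i, Blk (σ i).mu → K i))
    (l1 : ℕ)
    (hV1 : ∀ v, InR (fun i => lamT (S i) (K i) (θ i)) v → v ∈ GV)
    (hV2 : ∀ v ∈ GV, InR (fun i => lamT (S i) (K i) (θ i)) (n ^ l1 • v))
    (hW1 : ∀ v, InR (fun i => lamT (S i) (K i) (θ i)) v → v ∈ GW)
    (hW2 : ∀ v ∈ GW, InR (fun i => lamT (S i) (K i) (θ i)) (n ^ l1 • v))
    (xV : (∀ i, Blk (σ i).lam → K i) ≃ₗ[ℚ] (∀ i, Blk (σ i).lam → K i))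
    (xW : (∀ i, Blk (σ i).mu → K i) ≃ₗ[ℚ] (∀ i, Blk (σ i).mu → K i))
    (hxV : ∀ v, xV v = xM (fun i => algebraMap (S i) (K i) (θ i)) (fun i => (σ i).lam) v)
    (hxW : ∀ v, xW v = xM (fun i => algebraMap (S i) (K i) (θ i)) (fun i => (σ i).mu) v)
    (hGV : LFG n xV (locAt n GV)) (hGW : LFG n xW (locAt n GW))
    (u : ∀ i, ℕ → K i)
    (hu : ∀ i j, Sat (σ i) j → u i j ∈ locOT (S i) (K i) n (θ i) ∧
      (u i j)⁻¹ ∈ locOT (S i) (K i) n (θ i) ∧ u i j ≠ 0)
    (s : MSt K I α β)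
    (hs : InU n (2 * l1 + 1) (fun i => locDT (S i) (K i) n (θ i)) σ GV GW u s) :
    ∃ s' : MSt K I α β, (∀ i, IsSt (σ i) (s' i)) ∧ (∀ i, LInv (RM (σ i) (s' i))) ∧
      (∀ i, RInv (MM (σ i) (s' i))) ∧ Loc (mR σ s') (mW σ s') GV GW := by
  have hD : ∀ i, Den n (locOT (S i) (K i) n (θ i)) (locDT (S i) (K i) n (θ i)) :=
    fun i => STopT.den hn (hθ i) (hnu i)
  have hθK : ∀ i, algebraMap (S i) (K i) (θ i) ≠ 0 := fun i h0 => hθ i
    ((IsFractionRing.injective (S i) (K i)) (by rw [h0, map_zero]))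
  -- one field
  have step : ∀ (i0 : F) (s : MSt K I α β),
      InU n (2 * l1 + 1) (fun i => locDT (S i) (K i) n (θ i)) σ GV GW u s →
      ∃ t : RSt (locOT (S i0) (K i0) n (θ i0)) (I i0) (α i0) (β i0), IsSt (σ i0) t ∧
        InU n (2 * l1 + 1) (fun i => locDT (S i) (K i) n (θ i)) σ GV GW u
          (Function.update s i0 (smap (locOT (S i0) (K i0) n (θ i0)).subtype t)) ∧
        (∀ j, LInv (SigM (σ i0) t j)) ∧ ∀ j, RInv (TM (σ i0) t j) := by
    intro i0 s hs
    let _ := (hD i0).top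
    have := (hD i0).isTopologicalRing
    have := (hD i0).t2
    have := hpid i0
    refine sa_state (hD i0).saData (hD i0).invCont (σ i0)
      {x | InU n (2 * l1 + 1) (fun i => locDT (S i) (K i) n (θ i)) σ GV GW u
        (Function.update s i0 x)} ?_ ?_ ?_ ?_ ?_ ⟨s i0, by
          simp only [Set.mem_ofPred_eq, Function.update_eq_self]
          exact hs⟩
    · intro x hx
      have h1 := InU.st hx i0
      rwa [Function.update_self] at h1
    · intro x hx
      have hx' : InU n (2 * l1 + 1) (fun i => locDT (S i) (K i) n (θ i)) σ GV GW u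
        (Function.update s i0 x) := hx
      obtain ⟨N1, hN1, H1⟩ := open_loc (l1 := l1) (by omega) hθK hD hV1 hV2 hW1 hW2 hxV hxW
        hGV hGW hx'.st hx'.inj hx'.surj hx'.loc i0
      have hst := hx'.st i0
      have hinj := hx'.inj i0
      have hsurj := hx'.surj i0
      have hunit := hx'.unit i0
      rw [Function.update_self] at hN1 hst hinj hsurj hunit
      have H2 := eventually_state (hD i0) (fun j hj => (hu i0 j hj).2.2) hst hinj hsurj hunit
      refine ⟨_, Filter.inter_mem hN1 H2, ?_⟩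
      rintro y ⟨hy1, hy2⟩ hyst
      obtain ⟨hy3, hy4, hy5⟩ := hy2
      have h3 := H1 y hy1 hyst hy4
      rw [Function.update_idem] at h3
      refine ⟨?_, ?_, ?_, h3, ?_⟩
      · intro i
        by_cases hi : i = i0
        · subst hi
          rw [Function.update_self]
          exact hyst
        · have := hx'.st i
          rw [Function.update_of_ne hi] at this ⊢
          exact this
      · intro i
        by_cases hi : i = i0
        · subst hi
          rw [Function.update_self]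
          exact hy3
        · have := hx'.inj i
          rw [Function.update_of_ne hi] at this ⊢
          exact this
      · intro i
        by_cases hi : i = i0
        · subst hi
          rw [Function.update_self]
          exact hy4
        · have := hx'.surj i
          rw [Function.update_of_ne hi] at this ⊢
          exact this
      · intro i
        by_cases hi : i = i0
        · subst hi
          rw [Function.update_self]
          exact hy5
        · have := hx'.unit i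
          rw [Function.update_of_ne hi] at this ⊢
          exact this
    · intro x hx g hg hgu
      have h1 := InU.bc hx i0 (g := g) hg hgu
      rw [Function.update_self, Function.update_idem] at h1
      exact h1
    · intro x hx
      have h1 := InU.inj hx i0
      have h2 := InU.surj hx i0
      rw [Function.update_self] at h1 h2
      exact ⟨h1, h2⟩
    · intro j hj
      obtain ⟨b, hb, H⟩ := inU_scT (n := n) (c := 2 * l1 + 1) (l1 := l1) (by omega) (by omega)
        hD σ (GV := GV) hW1 hW2 hu i0 j hj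
      refine ⟨b, hb, fun x hx => ?_⟩
      obtain ⟨f, hf, h1, w, hw, h2⟩ := H _ hx
      rw [Function.update_self] at h1 h2
      rw [Function.update_idem] at h1
      exact ⟨f, hf, h1, w, hw, h2⟩
  -- all fields
  have all : ∀ T : Finset F, ∃ s : MSt K I α β,
      InU n (2 * l1 + 1) (fun i => locDT (S i) (K i) n (θ i)) σ GV GW u s ∧
      ∀ i ∈ T, ∃ t : RSt (locOT (S i) (K i) n (θ i)) (I i) (α i) (β i), IsSt (σ i) t ∧
        s i = smap (locOT (S i) (K i) n (θ i)).subtype t ∧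
        (∀ j, LInv (SigM (σ i) t j)) ∧ ∀ j, RInv (TM (σ i) t j) := by
    intro T
    induction T using Finset.induction_on with
    | empty => exact ⟨s, hs, fun i hi => absurd hi (Finset.notMem_empty i)⟩
    | insert a T ha ih =>
      obtain ⟨s1, hs1, H1⟩ := ih
      obtain ⟨t, ht, htU, hS, hT⟩ := step a s1 hs1
      refine ⟨_, htU, fun i hi => ?_⟩
      by_cases hia : i = a
      · subst hia
        exact ⟨t, ht, by rw [Function.update_self], hS, hT⟩
      · rcases Finset.mem_insert.1 hi with h | h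
        · exact absurd h hia
        · obtain ⟨t', h1, h2, h3⟩ := H1 i h
          exact ⟨t', h1, by rw [Function.update_of_ne hia]; exact h2, h3⟩
  obtain ⟨s', hs', H⟩ := all Finset.univ
  choose t ht1 ht2 ht3 ht4 using fun i => H i (Finset.mem_univ i)
  obtain ⟨h1, h2, h3, h4⟩ := loc_away_of_levels (by omega) σ hmu hV1 hV2 hW1 hW2 t ht1 ht3 ht4 ht2
  exact ⟨s', h1, h2, h3, Loc.glue hs'.loc h4⟩

/-- **Theorem 1** -/
theorem thm1 (n : ℕ) (hn : 2 ≤ n) (θ : ∀ i, S i) (hθ : ∀ i, θ i ≠ 0)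
    (hpid : ∀ i, IsPrincipalIdealRing (locOT (S i) (K i) n (θ i)))
    (hnu : ∀ i, (n : K i)⁻¹ ∉ lamT (S i) (K i) (θ i))
    (σ : ∀ i, Shp (I i) (α i) (β i)) (hmu : ∀ i b, 1 ≤ (σ i).mu b)
    (GV : AddSubgroup (∀ i, Blk (σ i).lam → K i)) (GW : AddSubgroup (∀ i, Blk (σ i).mu → K i))
    (l1 : ℕ)
    (hV1 : ∀ v, InR (fun i => lamT (S i) (K i) (θ i)) v → v ∈ GV)
    (hV2 : ∀ v ∈ GV, InR (fun i => lamT (S i) (K i) (θ i)) (n ^ l1 • v))
    (hW1 : ∀ v, InR (fun i => lamT (S i) (K i) (θ i)) v → v ∈ GW)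
    (hW2 : ∀ v ∈ GW, InR (fun i => lamT (S i) (K i) (θ i)) (n ^ l1 • v))
    (xV : (∀ i, Blk (σ i).lam → K i) ≃ₗ[ℚ] (∀ i, Blk (σ i).lam → K i))
    (xW : (∀ i, Blk (σ i).mu → K i) ≃ₗ[ℚ] (∀ i, Blk (σ i).mu → K i))
    (hxV : ∀ v, xV v = xM (fun i => algebraMap (S i) (K i) (θ i)) (fun i => (σ i).lam) v)
    (hxW : ∀ v, xW v = xM (fun i => algebraMap (S i) (K i) (θ i)) (fun i => (σ i).mu) v)
    (hGV : LFG n xV (locAt n GV)) (hGW : LFG n xW (locAt n GW))
    (u : ∀ i, ℕ → K i)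
    (hu : ∀ i j, Sat (σ i) j → u i j ∈ locOT (S i) (K i) n (θ i) ∧
      (u i j)⁻¹ ∈ locOT (S i) (K i) n (θ i) ∧ u i j ≠ 0)
    (s : MSt K I α β)
    (hs : InU n (2 * l1 + 1) (fun i => locDT (S i) (K i) n (θ i)) σ GV GW u s) :
    ∃ s' : MSt K I α β, (∀ i, IsSt (σ i) (s' i)) ∧ (∀ i, LInv (RM (σ i) (s' i))) ∧
      Loc (mR σ s') (mW σ s') GV GW := by
  obtain ⟨s', h1, h2, -, h4⟩ := thm1_full n hn θ hθ hpid hnu σ hmu GV GW l1 hV1 hV2 hW1 hW2 xV xW
    hxV hxW hGV hGW u hu s hs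
  exact ⟨s', h1, h2, h4⟩

end Pool.Agent.DEC
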