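import Pool.Agent.DEC.CDefs
import Pool.Agent.DEC.T1

/-!
# DEC: Theorem 1 for a reference datum

The instance of `thm1` for the fields, shapes and dimension groups of a reference datum.
-/

set_option autoImplicit false

open Matrix Polynomial

namespace Pool.Agent.DEC.Th1

open RefQ

variable {a b : ℕ} {A : Matrix (Fin a) (Fin a) ℕ} {B : Matrix (Fin b) (Fin b) ℕ} (ρ : Ref A B)
  (K : Fin ρ.f → Type) [∀ i, Field (K i)] [∀ i, Algebra ℚ (K i)]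
  [∀ i, Algebra (Lam (ρ.g i)) (K i)] [∀ i, IsFractionRing (Lam (ρ.g i)) (K i)]

/-- Theorem 1 in the types of `Ref` -/
theorem thm1' {n : ℕ} (hn : GoodN ρ K n) (hpid : ∀ i, IsPrincipalIdealRing (OK ρ K n i))
    {nn : Fin ρ.f → ℕ} (deg : ∀ i, Fin (nn i) → ℕ) (u : ∀ i, ℕ → K i)
    (hu : ∀ i j, Sat (ρ.shp deg i) j →
      u i j ∈ OK ρ K n i ∧ (u i j)⁻¹ ∈ OK ρ K n i ∧ u i j ≠ 0)
    (s : MSt K (fun i => Fin (nn i)) (fun i => Fin (ρ.na i)) (fun i => Fin (ρ.nb i)))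
    (hs : InU n 3 (DK ρ K n) (fun i => ρ.shp deg i) (GVK ρ K) (GWK ρ K) u s) :
    ∃ s' : MSt K (fun i => Fin (nn i)) (fun i => Fin (ρ.na i)) (fun i => Fin (ρ.nb i)),
      (∀ i, IsSt (ρ.shp deg i) (s' i)) ∧ (∀ i, LInv (RM (ρ.shp deg i) (s' i))) ∧
      Loc (mR (fun i => ρ.shp deg i) s') (mW (fun i => ρ.shp deg i) s') (GVK ρ K) (GWK ρ K) := by
  have i1 : ∀ i, IsDomain (Lam (ρ.g i)) := fun i => isDomain_lam (ρ.irr i)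
  have i2 : ∀ i, Module.Free ℤ (Lam (ρ.g i)) := fun i => (ρ.monic i).free_adjoinRoot
  have i3 : ∀ i, Module.Finite ℤ (Lam (ρ.g i)) := fun i => (ρ.monic i).finite_adjoinRoot
  have hΔ : ρ.Δ ∣ n := (Dvd.intro _ rfl : ρ.Δ ∣ ρ.D).trans hn.dvd
  exact thm1 (S := fun i => Lam (ρ.g i)) (K := K) n hn.two (fun i => ρ.th i)
    (fun i => root_ne (ρ.monic i) (ρ.irr i) (ρ.g0 i)) hpid hn.nu (fun i => ρ.shp deg i)
    (fun i c => ρ.mu_pos i c) (GVK ρ K) (GWK ρ K) 1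
    (fun v hv => ρ.hA.mem_GQ_of_inR K ρ.gp hv)
    (fun v hv => ρ.hA.inR_of_mem_GQ' K ρ.gp hΔ hv)
    (fun v hv => ρ.hB.mem_GQ_of_inR K ρ.gp hv)
    (fun v hv => ρ.hB.inR_of_mem_GQ' K ρ.gp hΔ hv)
    (xA K ρ.gp ρ.lam) (xA K ρ.gp ρ.mu) (fun v => rfl) (fun v => rfl)
    (ρ.hA.lfg K ρ.gp ρ.Δ_pos n) (ρ.hB.lfg K ρ.gp ρ.Δ_pos n) u hu s hs

end Pool.Agent.DEC.Th1
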