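import Pool.Agent.DEC.Tst
import Pool.Agent.DEC.CDefs
import Pool.Agent.DEC.StateB
import Pool.Agent.DEC.StateC

/-!
# DEC, module TST (C2), in the types of `Core.lean`

`Ids ρ deg s (n ^ c)`, `ρ.D ∣ n`, a prime `q ∣ n` prime to all `g i (0)`, `c ≥ 3`:
the condition localised at `n`, `R` injective, `m` surjective, and `det Sig_j` divides a power
of `ρ.D` in the localised order.
-/

set_option autoImplicit false
set_option linter.unusedSectionVars false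

open Matrix Polynomial
open Pool.Agent.FT (toQ)

namespace Pool.Agent.DEC.TstB

open RefQ Tst

section emb

variable {f : ℕ} {g : Fin f → ℤ[X]} (K : Fin f → Type) [∀ i, Field (K i)]
  [∀ i, Algebra (Lam (g i)) (K i)] (γ : Fin f → Type)

/-- the embedding of the integral vectors -/
noncomputable def jG : (∀ i, γ i → Lam (g i)) →+ (∀ i, γ i → K i) where
  toFun w := fun i c => algebraMap (Lam (g i)) (K i) (w i c)
  map_zero' := by
    funext i c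
    simp
  map_add' v w := by
    funext i c
    simp

variable {K γ}

theorem jG_apply (w : ∀ i, γ i → Lam (g i)) (i : Fin f) (c : γ i) :
    jG K γ w i c = algebraMap (Lam (g i)) (K i) (w i c) := rfl

variable [∀ i, Fintype (γ i)]

theorem jG_den [∀ i, IsFractionRing (Lam (g i)) (K i)] (hm : ∀ i, (g i).Monic)
    (hirr : ∀ i, Irreducible (g i)) (v : ∀ i, γ i → K i) :
    ∃ m : ℕ, m ≠ 0 ∧ m • v ∈ (jG (g := g) K γ).range := by
  have h1 : ∀ (i : Fin f) (c : γ i), ∃ b : ℕ, b ≠ 0 ∧ ∃ a : Lam (g i),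
      (b : K i) * v i c = algebraMap (Lam (g i)) (K i) a := by
    intro i c
    have := isDomain_lam (hirr i)
    have := (hm i).free_adjoinRoot
    have := (hm i).finite_adjoinRoot
    exact exists_nat_mul (Lam (g i)) (v i c)
  choose b hb a ha using h1
  refine ⟨∏ i, ∏ c, b i c, Finset.prod_ne_zero_iff.2 fun i _ => Finset.prod_ne_zero_iff.2
    fun c _ => hb i c, ?_⟩
  have h2 : ∀ i c, ∃ e : ℕ, ∏ i, ∏ c, b i c = e * b i c := by
    intro i c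
    obtain ⟨e, he⟩ := (Finset.dvd_prod_of_mem (b i) (Finset.mem_univ c)).trans
      (Finset.dvd_prod_of_mem (fun i => ∏ c, b i c) (Finset.mem_univ i))
    exact ⟨e, by rw [he, mul_comm]⟩
  choose e he using h2
  refine ⟨fun i c => (e i c : Lam (g i)) * a i c, ?_⟩
  funext i c
  rw [jG_apply, map_mul, map_natCast, ← ha, ← mul_assoc, ← Nat.cast_mul, ← he]
  simp

theorem jG_fg (hm : ∀ i, (g i).Monic) : (jG (g := g) K γ).range.FG := by
  have : ∀ i, Module.Finite ℤ (Lam (g i)) := fun i => (hm i).finite_adjoinRoot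
  have h1 : ((jG (g := g) K γ).toIntLinearMap.range).FG := by
    rw [LinearMap.range_eq_map]
    exact Module.Finite.fg_top.map _
  rw [Submodule.fg_iff_addSubgroup_fg] at h1
  exact h1

end emb

/-- the root divides the constant coefficient -/
theorem root_mul (g : ℤ[X]) : ∃ e : Lam g, AdjoinRoot.root g * e = ((g.coeff 0 : ℤ) : Lam g) := by
  have h := congrArg (AdjoinRoot.mk g) (divX_mul_X_add g)
  rw [AdjoinRoot.mk_self, map_add, map_mul, AdjoinRoot.mk_X] at h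
  refine ⟨-(AdjoinRoot.mk g g.divX), ?_⟩
  have h2 : AdjoinRoot.mk g (C (g.coeff 0)) = ((g.coeff 0 : ℤ) : Lam g) := by
    rw [← map_intCast (AdjoinRoot.mk g)]
    rfl
  rw [h2] at h
  linear_combination -h

section xl

variable {f : ℕ} {g : Fin f → ℤ[X]} {γ : Fin f → Type} [∀ i, Fintype (γ i)]

/-- `y` on the lattice -/
noncomputable def yy (h : ∀ i, γ i → ℕ) (w : ∀ i, Blk (h i) → Lam (g i)) :
    ∀ i, Blk (h i) → Lam (g i) := fun i => yL (h i) (w i)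

/-- `x` on the lattice -/
noncomputable def xx (h : ∀ i, γ i → ℕ) (w : ∀ i, Blk (h i) → Lam (g i)) :
    ∀ i, Blk (h i) → Lam (g i) := fun i => xL (AdjoinRoot.root (g i)) (h i) (w i)

theorem yy_iter (h : ∀ i, γ i → ℕ) (k : ℕ) (w : ∀ i, Blk (h i) → Lam (g i)) (i : Fin f) :
    (yy h)^[k] w i = ((yL (h i)) ^ k) (w i) := by
  induction k generalizing w with
  | zero => rfl
  | succ k ih =>
    rw [Function.iterate_succ_apply, ih, pow_succ]
    rfl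

theorem yy_nil (h : ∀ i, γ i → ℕ) : ∃ k : ℕ, ∀ w : ∀ i, Blk (h i) → Lam (g i),
    (yy h)^[k] w = 0 := by
  obtain ⟨M, hM⟩ : ∃ M : ℕ, ∀ i c, h i c ≤ M :=
    ⟨Finset.univ.sup fun i => Finset.univ.sup fun c : γ i => h i c,
      fun i c => (Finset.le_sup (f := fun c : γ i => h i c) (Finset.mem_univ c)).trans
        (Finset.le_sup (f := fun i => Finset.univ.sup fun c : γ i => h i c) (Finset.mem_univ i))⟩
  refine ⟨M, fun w => ?_⟩
  funext i c
  obtain ⟨c, t⟩ := c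
  rw [yy_iter, stb_yL_pow, dif_neg]
  · rfl
  · have := t.2
    have := hM i c
    omega

theorem yy_smul (h : ∀ i, γ i → ℕ) (k : ℕ) (e : ∀ i, Lam (g i))
    (w : ∀ i, Blk (h i) → Lam (g i)) :
    (yy h)^[k] (fun i => e i • w i) = fun i => e i • (yy h)^[k] w i := by
  funext i
  rw [yy_iter, yy_iter, map_smul]

/-- `g0 ^ h w` is in the image of `x` -/
theorem exists_xx (h : ∀ i, γ i → ℕ) {g0 : ℤ} (hg0 : ∀ i, (g i).coeff 0 ∣ g0)
    (w : ∀ i, Blk (h i) → Lam (g i)) :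
    ∃ (k : ℕ) (w' : ∀ i, Blk (h i) → Lam (g i)), xx h w' = g0 ^ k • w := by
  have he : ∀ i, ∃ e : Lam (g i), AdjoinRoot.root (g i) * e = ((g0 : ℤ) : Lam (g i)) := by
    intro i
    obtain ⟨e, he⟩ := root_mul (g i)
    obtain ⟨c, hc⟩ := hg0 i
    refine ⟨e * (c : Lam (g i)), ?_⟩
    rw [← mul_assoc, he, hc]
    push_cast
    rfl
  choose e he using he
  have key : ∀ (M : ℕ) (w : ∀ i, Blk (h i) → Lam (g i)), (yy h)^[M] w = 0 →
      ∃ (k : ℕ) (w' : ∀ i, Blk (h i) → Lam (g i)), xx h w' = g0 ^ k • w := by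
    intro M
    induction M with
    | zero =>
      intro w hw
      refine ⟨0, 0, ?_⟩
      have hw' : w = 0 := hw
      rw [hw']
      funext i
      show xL _ (h i) 0 = _
      rw [map_zero, smul_zero]
      rfl
    | succ M ih =>
      intro w hw
      rw [Function.iterate_succ_apply] at hw
      obtain ⟨k, w2, hw2⟩ := ih (yy h (fun i => e i • w i)) (by
        rw [← Function.iterate_succ_apply, yy_smul, Function.iterate_succ_apply, hw]
        funext i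
        show e i • (0 : Blk (h i) → Lam (g i)) = 0
        rw [smul_zero])
      refine ⟨k + 1, fun i => g0 ^ k • (e i • w i) - w2 i, ?_⟩
      funext i
      show xL _ (h i) (g0 ^ k • (e i • w i) - w2 i) = g0 ^ (k + 1) • w i
      have h2 : xL (AdjoinRoot.root (g i)) (h i) (w2 i) = g0 ^ k • yL (h i) (e i • w i) :=
        congrFun hw2 i
      rw [map_sub, h2, map_zsmul]
      have h3 : xL (AdjoinRoot.root (g i)) (h i) (e i • w i) =
          (AdjoinRoot.root (g i) * e i) • w i + yL (h i) (e i • w i) := by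
        rw [mul_smul]
        rfl
      rw [h3, he, smul_add, add_sub_cancel_right, pow_succ, mul_smul, Int.cast_smul_eq_zsmul]
  obtain ⟨M, hM⟩ := yy_nil (g := g) h
  exact key M w (hM w)

theorem exists_xx_iter (h : ∀ i, γ i → ℕ) {g0 : ℤ} (hg0 : ∀ i, (g i).coeff 0 ∣ g0) (l : ℕ)
    (w : ∀ i, Blk (h i) → Lam (g i)) :
    ∃ (k : ℕ) (w' : ∀ i, Blk (h i) → Lam (g i)), (xx h)^[l] w' = g0 ^ k • w := by
  induction l generalizing w with
  | zero => exact ⟨0, w, by rw [pow_zero, one_smul]; rfl⟩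
  | succ l ih =>
    obtain ⟨k, w1, h1⟩ := exists_xx h hg0 w
    obtain ⟨k', w2, h2⟩ := ih w1
    refine ⟨k' + k, w2, ?_⟩
    rw [Function.iterate_succ_apply', h2]
    have h3 : xx h (g0 ^ k' • w1) = g0 ^ k' • xx h w1 := by
      funext i
      show xL _ (h i) (g0 ^ k' • w1 i) = g0 ^ k' • xL _ (h i) (w1 i)
      rw [map_zsmul]
    rw [h3, h1, smul_smul, ← pow_add]

end xl

section st

variable {f : ℕ} {g : Fin f → ℤ[X]} {K : Fin f → Type} [∀ i, Field (K i)] [∀ i, Algebra ℚ (K i)]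
  [∀ i, Algebra (Lam (g i)) (K i)] {na nb nn : Fin f → ℕ}
  {σ : ∀ i, Shp (Fin (nn i)) (Fin (na i)) (Fin (nb i))}

/-- `x = θ + C` on `X` -/
theorem xX_bij {θ : ∀ i, K i} (hθ : ∀ i, θ i ≠ 0)
    {s : MSt K (fun i => Fin (nn i)) (fun i => Fin (na i)) (fun i => Fin (nb i))}
    (hs : ∀ i, IsSt (σ i) (s i)) : Function.Bijective (xX θ s) := by
  have hnil : ∀ i, IsNilpotent (s i).1 := by
    intro i
    refine ⟨(Finset.univ.sup (σ i).deg) + 1, ?_⟩
    ext p q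
    rw [pow_eq_zero_of_deg (hs i).c _ p q]
    · rfl
    · have := Finset.le_sup (f := (σ i).deg) (Finset.mem_univ p)
      omega
  have hu : ∀ i, IsUnit (θ i • (1 : Matrix (Fin (nn i)) (Fin (nn i)) (K i)) + (s i).1) := by
    intro i
    have h1 : IsUnit (θ i • (1 : Matrix (Fin (nn i)) (Fin (nn i)) (K i))) := by
      refine ⟨⟨θ i • 1, (θ i)⁻¹ • 1, ?_, ?_⟩, rfl⟩
      · rw [smul_mul_smul_comm, mul_one, mul_inv_cancel₀ (hθ i), one_smul]
      · rw [smul_mul_smul_comm, mul_one, inv_mul_cancel₀ (hθ i), one_smul]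
    refine (hnil i).isUnit_add_left_of_commute h1 ?_
    exact (Commute.one_right _).smul_right _
  choose U hU using fun i => (hu i).exists_right_inv
  have hU' : ∀ i, U i * (θ i • (1 : Matrix (Fin (nn i)) (Fin (nn i)) (K i)) + (s i).1) = 1 :=
    fun i => mul_eq_one_comm.1 (hU i)
  constructor
  · intro z w h
    funext i
    have h1 : (θ i • (1 : Matrix (Fin (nn i)) (Fin (nn i)) (K i)) + (s i).1) *ᵥ z i =
        (θ i • (1 : Matrix (Fin (nn i)) (Fin (nn i)) (K i)) + (s i).1) *ᵥ w i := congrFun h i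
    have h2 := congrArg (fun v => U i *ᵥ v) h1
    simp only [mulVec_mulVec, hU', one_mulVec] at h2
    exact h2
  · intro w
    refine ⟨fun i => U i *ᵥ w i, ?_⟩
    funext i
    show (θ i • (1 : Matrix (Fin (nn i)) (Fin (nn i)) (K i)) + (s i).1) *ᵥ (U i *ᵥ w i) = w i
    rw [mulVec_mulVec, hU, one_mulVec]

/-- `x = θ + C` as an automorphism -/
noncomputable def xEq {θ : ∀ i, K i} (hθ : ∀ i, θ i ≠ 0)
    {s : MSt K (fun i => Fin (nn i)) (fun i => Fin (na i)) (fun i => Fin (nb i))}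
    (hs : ∀ i, IsSt (σ i) (s i)) : (∀ i, Fin (nn i) → K i) ≃ₗ[ℚ] (∀ i, Fin (nn i) → K i) :=
  LinearEquiv.ofBijective (xX θ s) (xX_bij hθ hs)

theorem mR_xX {θ : ∀ i, K i}
    {s : MSt K (fun i => Fin (nn i)) (fun i => Fin (na i)) (fun i => Fin (nb i))}
    (hs : ∀ i, IsSt (σ i) (s i)) (z : ∀ i, Fin (nn i) → K i) :
    mR σ s (xX θ s z) = xM θ (fun i => (σ i).lam) (mR σ s z) := by
  funext i
  show RM (σ i) (s i) *ᵥ ((θ i • (1 : Matrix (Fin (nn i)) (Fin (nn i)) (K i)) + (s i).1) *ᵥ z i)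
    = θ i • (RM (σ i) (s i) *ᵥ z i) + yL (σ i).lam (RM (σ i) (s i) *ᵥ z i)
  rw [add_mulVec, mulVec_add, RM_equiv (hs i), smul_mulVec, one_mulVec, mulVec_smul]

theorem mW_xX {θ : ∀ i, K i}
    {s : MSt K (fun i => Fin (nn i)) (fun i => Fin (na i)) (fun i => Fin (nb i))}
    (hs : ∀ i, IsSt (σ i) (s i)) (z : ∀ i, Fin (nn i) → K i) :
    mW σ s (xX θ s z) = xM θ (fun i => (σ i).mu) (mW σ s z) := by
  funext i
  show MM (σ i) (s i) *ᵥ ((θ i • (1 : Matrix (Fin (nn i)) (Fin (nn i)) (K i)) + (s i).1) *ᵥ z i)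
    = θ i • (MM (σ i) (s i) *ᵥ z i) + yL (σ i).mu (MM (σ i) (s i) *ᵥ z i)
  rw [add_mulVec, mulVec_add, MM_equiv (hs i), smul_mulVec, one_mulVec, mulVec_smul]

theorem LInv_of_inj {s : MSt K (fun i => Fin (nn i)) (fun i => Fin (na i)) (fun i => Fin (nb i))}
    (h : Function.Injective (mR σ s)) (i : Fin f) : LInv (RM (σ i) (s i)) := by
  refine stb_left_of_inj _ fun z hz => ?_
  have h1 : mR σ s (Pi.single i z) = 0 := by
    funext j
    show RM (σ j) (s j) *ᵥ (Pi.single i z : ∀ i, Fin (nn i) → K i) j = 0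
    by_cases hj : j = i
    · subst hj
      rw [Pi.single_eq_same, hz]
    · rw [Pi.single_eq_of_ne hj, mulVec_zero]
  have h2 := (injective_iff_map_eq_zero _).1 h _ h1
  have h3 := congrFun h2 i
  rwa [Pi.single_eq_same] at h3

theorem RInv_of_surj {s : MSt K (fun i => Fin (nn i)) (fun i => Fin (na i)) (fun i => Fin (nb i))}
    (h : Function.Surjective (mW σ s)) (i : Fin f) : RInv (MM (σ i) (s i)) := by
  have h1 : ∀ w : Blk (σ i).mu → K i, ∃ z, MM (σ i) (s i) *ᵥ z = w := by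
    intro w
    obtain ⟨z, hz⟩ := h (Pi.single i w)
    refine ⟨z i, ?_⟩
    have h2 := congrFun hz i
    rw [Pi.single_eq_same] at h2
    exact h2
  choose F hF using h1
  refine ⟨Matrix.of fun q c => F (Pi.single c 1) q, ?_⟩
  ext p c
  have h2 := congrFun (hF (Pi.single c 1)) p
  rw [Matrix.one_apply]
  have h3 : (Pi.single c (1 : K i) : Blk (σ i).mu → K i) p = if p = c then 1 else 0 := by
    rw [Pi.single_apply]
  rw [h3] at h2
  exact h2

end st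

section main

variable {a b : ℕ} {A : Matrix (Fin a) (Fin a) ℕ} {B : Matrix (Fin b) (Fin b) ℕ} (ρ : Ref A B)
  (K : Fin ρ.f → Type) [∀ i, Field (K i)] [∀ i, Algebra ℚ (K i)]
  [∀ i, Algebra (Lam (ρ.g i)) (K i)]

theorem mR_jG {nn : Fin ρ.f → ℕ} (deg : ∀ i, Fin (nn i) → ℕ) (s : ρ.MSt nn) (z : ρ.Gam nn) :
    mR (fun i => ρ.shp deg i) (stK ρ K s) (jG K (fun i => Fin (nn i)) z) =
      ioM K ρ.lam (fun i => RM (ρ.shp deg i) (s i) *ᵥ z i) := by
  funext i c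
  show (RM (ρ.shp deg i) (smap (algebraMap (Lam (ρ.g i)) (K i)) (s i)) *ᵥ
    (algebraMap (Lam (ρ.g i)) (K i) ∘ z i)) c = algebraMap (Lam (ρ.g i)) (K i)
      ((RM (ρ.shp deg i) (s i) *ᵥ z i) c)
  rw [RM_map]
  exact (RingHom.map_mulVec _ _ _ _).symm

theorem mW_jG {nn : Fin ρ.f → ℕ} (deg : ∀ i, Fin (nn i) → ℕ) (s : ρ.MSt nn) (z : ρ.Gam nn) :
    mW (fun i => ρ.shp deg i) (stK ρ K s) (jG K (fun i => Fin (nn i)) z) =
      ioM K ρ.mu (fun i => MM (ρ.shp deg i) (s i) *ᵥ z i) := by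
  funext i c
  show (MM (ρ.shp deg i) (smap (algebraMap (Lam (ρ.g i)) (K i)) (s i)) *ᵥ
    (algebraMap (Lam (ρ.g i)) (K i) ∘ z i)) c = algebraMap (Lam (ρ.g i)) (K i)
      ((MM (ρ.shp deg i) (s i) *ᵥ z i) c)
  rw [MM_map]
  exact (RingHom.map_mulVec _ _ _ _).symm

variable [∀ i, IsFractionRing (Lam (ρ.g i)) (K i)]

theorem GVK_eq : GVK ρ K = GG A (ρ.hA.PQ K ρ.gp) := by
  ext v
  rw [mem_GG, ρ.hA.mem_GQ]
  rfl

theorem GWK_eq : GWK ρ K = GG B (ρ.hB.PQ K ρ.gp) := by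
  ext v
  rw [mem_GG, ρ.hB.mem_GQ]
  rfl

theorem D_ne : ρ.D ≠ 0 := by
  have h1 := ρ.Δ_pos
  have h2 := pow_pos ρ.q_pos (a * (a + 1))
  exact (Nat.mul_pos h1 h2).ne'

theorem Δ_dvd_D : ρ.Δ ∣ ρ.D := Dvd.intro _ rfl

/-- bounded denominators -/
theorem bound_core {n N : ℕ} (hn : n ≠ 0) (hN : ρ.D * n ∣ N) {nn : Fin ρ.f → ℕ}
    {deg : ∀ i, Fin (nn i) → ℕ} {s : ρ.MSt nn} {R' : (Fin a → ℤ) →ₗ[ℤ] ρ.Gam nn}
    (h1 : ∀ z, ∃ w, R' (ρ.GA deg s z) = (ρ.D : ℤ) • z + (N : ℤ) • w)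
    {v : ∀ i, Fin (nn i) → K i}
    (hv : NI n (ρ.hA.PQ K ρ.gp (mR (fun i => ρ.shp deg i) (stK ρ K s) v))) :
    ρ.D • v ∈ locAt n (jG (g := ρ.g) K (fun i => Fin (nn i))).range :=
  bound (jE := jG K (fun i => Fin (nn i))) (GA := ρ.GA deg s) (jG_den ρ.monic ρ.irr)
    (fun z => by rw [mR_jG, ρ.hA.PQ_io]; rfl) hn (D_ne ρ) hN (R' := R') h1 hv

theorem loc_core {n N : ℕ} (hn : 2 ≤ n) (hN : ρ.Δ * ρ.D * n ∣ N) {q : ℕ} (hq : q.Prime)
    (hqn : q ∣ n) (hq0 : ∀ i, ¬ (q : ℤ) ∣ (ρ.g i).coeff 0)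
    {nn : Fin ρ.f → ℕ} {deg : ∀ i, Fin (nn i) → ℕ} {s : ρ.MSt nn}
    (hst : ∀ i, IsSt (ρ.shp deg i) (s i)) (h : Ids ρ deg s N) :
    Function.Injective (mR (fun i => ρ.shp deg i) (stK ρ K s)) ∧
    Function.Surjective (mW (fun i => ρ.shp deg i) (stK ρ K s)) ∧
    Loc (mR (fun i => ρ.shp deg i) (stK ρ K s)) (mW (fun i => ρ.shp deg i) (stK ρ K s))
      (locAt n (GVK ρ K)) (locAt n (GWK ρ K)) := by
  obtain ⟨R', Ψ, T, T', l, h1, h2, h3, h4⟩ := h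
  have hN' : ρ.D * n ∣ N := (Dvd.intro_left ρ.Δ (by ring)).trans hN
  have hθ := thK_ne K ρ.monic ρ.irr ρ.g0
  have hstK : ∀ i, IsSt (ρ.shp deg i) (stK ρ K s i) := fun i => (hst i).map _
  have hGA : ∀ z, ρ.hA.PQ K ρ.gp (mR (fun i => ρ.shp deg i) (stK ρ K s)
      (jG K (fun i => Fin (nn i)) z)) = cV (ρ.GA deg s z) := by
    intro z
    rw [mR_jG, ρ.hA.PQ_io]
    rfl
  have hGB : ∀ z, ρ.hB.PQ K ρ.gp (mW (fun i => ρ.shp deg i) (stK ρ K s)
      (jG K (fun i => Fin (nn i)) z)) = cV (ρ.GB deg s z) := by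
    intro z
    rw [mW_jG, ρ.hB.PQ_io]
    rfl
  have hE := jG_den (K := K) (γ := fun i => Fin (nn i)) ρ.monic ρ.irr
  have hi : Function.Injective (mR (fun i => ρ.shp deg i) (stK ρ K s)) :=
    inj (jE := jG K (fun i => Fin (nn i))) (GA := ρ.GA deg s) (jG_fg ρ.monic) hE hGA hn (D_ne ρ)
      hN' (R' := R') h1
  have hgd : ∀ i, (ρ.g i).coeff 0 ∣ ∏ i, (ρ.g i).coeff 0 := fun i =>
    Finset.dvd_prod_of_mem (fun i => (ρ.g i).coeff 0) (Finset.mem_univ i)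
  have hx := exists_xx_iter (g := ρ.g) ρ.mu hgd l
  have hs : Function.Surjective (mW (fun i => ρ.shp deg i) (stK ρ K s)) := by
    refine surj_of_ids (jE := jG K (fun i => Fin (nn i))) (jW := ioM K ρ.mu)
      (Λ := ∀ i, Blk (ρ.mu i) → Lam (ρ.g i)) (Δ := ρ.Δ) (D := ρ.D) (n := n) (N := N) (l := l)
      (q := q) (T := T) (GB := ρ.GB deg s) (Qs := (ρ.hB.S).toIntLinearMap)
      (Q' := (ρ.hB.S').toIntLinearMap) (xL := xx ρ.mu)
      (mL := fun z i => MM (ρ.shp deg i) (s i) *ᵥ z i) (g0 := ∏ i, (ρ.g i).coeff 0)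
      ?_ ?_ ρ.Δ_pos.ne' ?_ ?_ ?_ ?_ (D_ne ρ) hN hq.two_le hqn ?_ ?_ h4
    · intro v
      obtain ⟨m, hm, w, hw⟩ := exists_den ρ.monic ρ.irr ρ.mu v
      exact ⟨m, hm, w, hw.symm⟩
    · exact jG_fg (K := K) (γ := fun i => Blk (ρ.mu i)) ρ.monic
    · intro w
      have := ρ.hB.S'_S w
      rw [natCast_zsmul]
      exact this
    · intro w
      show ∑ i, ρ.Q i (xL (AdjoinRoot.root (ρ.g i)) (ρ.mu i) (w i)) =
        (∑ i, ρ.Q i (w i)) ᵥ* zM B
      rw [Matrix.sum_vecMul]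
      exact Finset.sum_congr rfl fun i _ => ρ.Q_x i (w i)
    · intro z
      exact mW_jG ρ K deg s z
    · intro z
      rfl
    · refine IsCoprime.prod_left fun i _ => ?_
      rw [isCoprime_comm]
      exact ((Nat.prime_iff_prime_int.1 hq).irreducible.coprime_iff_not_dvd).2 (hq0 i)
    · intro w
      exact hx w
  refine ⟨hi, hs, ?_⟩
  rw [GVK_eq, GWK_eq]
  refine loc_of_ids (jE := jG K (fun i => Fin (nn i))) (GA := ρ.GA deg s) (GB := ρ.GB deg s)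
    (xV := xA K ρ.gp ρ.lam) (xW := xA K ρ.gp ρ.mu) (xE := xEq hθ hstK) (D := ρ.D) (n := n)
    (N := N) (l := l) (R' := R') (Ψ := Ψ) (T := T) (T' := T') hE ?_ ?_
    (ρ.hB.PQ_injective K ρ.gp ρ.Δ_pos) ?_ ?_ hGA hGB (by omega) (D_ne ρ) hN' h1 h2 h3 h4 hs
  · intro v
    exact ρ.hA.PQ_x K ρ.gp v
  · intro v
    exact ρ.hB.PQ_x K ρ.gp v
  · intro z
    exact mR_xX hstK z
  · intro z
    exact mW_xX hstK z

/-- `R z` is integral if `Sig_j z` is a unit vector -/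
theorem RM_int {nn : Fin ρ.f → ℕ} {deg : ∀ i, Fin (nn i) → ℕ} {s : ρ.MSt nn} (i : Fin ρ.f)
    (hst : IsSt (ρ.shp deg i) (s i)) (j : ℕ) {z : Fin (nn i) → K i}
    (hz : ∀ q, deg i q < j → z q = 0)
    (hS : ∀ p, ∃ u, (SigM (ρ.shp deg i) (stK ρ K s i) j *ᵥ (fun q => z q.1)) p =
      algebraMap (Lam (ρ.g i)) (K i) u) :
    ∃ w : Blk (ρ.lam i) → Lam (ρ.g i), ∀ c, (RM (ρ.shp deg i) (stK ρ K s i) *ᵥ z) c =
      algebraMap (Lam (ρ.g i)) (K i) (w c) := by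
  have hstK : IsSt (ρ.shp deg i) (stK ρ K s i) := hst.map _
  have e1 := stb_Sig_apply (s := stK ρ K s i) (σ := ρ.shp deg i) j hz
  rw [e1] at hS
  have hC : ∀ p, ∃ u, ((stK ρ K s i).1 *ᵥ z) p = algebraMap (Lam (ρ.g i)) (K i) u := by
    intro p
    by_cases hp : j + 1 ≤ deg i p
    · exact hS (Sum.inl ⟨p, hp⟩)
    · exact ⟨0, by rw [map_zero]; exact stb_C_mem hstK hz p (by
        show deg i p < j + 1
        omega)⟩
  have hrho : ∀ c, ∃ u, ((stK ρ K s i).2.1 *ᵥ z) c = algebraMap (Lam (ρ.g i)) (K i) u := by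
    intro c
    by_cases hc : j + 1 ≤ ρ.lam i c
    · exact hS (Sum.inr ⟨c, hc⟩)
    · refine ⟨0, ?_⟩
      rw [map_zero, Matrix.mulVec, dotProduct]
      refine Finset.sum_eq_zero fun q _ => ?_
      by_cases hq : deg i q < j
      · rw [hz q hq, mul_zero]
      · rw [hstK.rho c q (by
          show ρ.lam i c ≤ deg i q
          omega), zero_mul]
  choose u hu using hC
  have key : ∀ ci, ∃ w, (RM (ρ.shp deg i) (stK ρ K s i) *ᵥ z) ci =
      algebraMap (Lam (ρ.g i)) (K i) w := by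
    intro ci
    rw [show (RM (ρ.shp deg i) (stK ρ K s i) *ᵥ z) ci =
      (((stK ρ K s i).2.1 * (stK ρ K s i).1 ^ (ρ.lam i ci.1 - 1 - (ci.2 : ℕ))) *ᵥ z) ci.1 from
      stb_evM_apply _ _ _ _ _]
    rcases Nat.eq_zero_or_pos (ρ.lam i ci.1 - 1 - (ci.2 : ℕ)) with h0 | h0
    · rw [h0, pow_zero, Matrix.mul_one]
      exact hrho ci.1
    · obtain ⟨k, hk⟩ : ∃ k, ρ.lam i ci.1 - 1 - (ci.2 : ℕ) = k + 1 :=
        ⟨_, (Nat.succ_pred_eq_of_pos h0).symm⟩
      rw [hk, pow_succ, ← Matrix.mul_assoc, ← Matrix.mulVec_mulVec]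
      refine ⟨(((s i).2.1 * (s i).1 ^ k) *ᵥ u) ci.1, ?_⟩
      rw [RingHom.map_mulVec]
      have h2 : (stK ρ K s i).1 *ᵥ z = algebraMap (Lam (ρ.g i)) (K i) ∘ u := funext hu
      rw [h2]
      congr 2
      rw [Matrix.map_mul]
      congr 1
      have h3 := map_pow (RingHom.mapMatrix (algebraMap (Lam (ρ.g i)) (K i))) (s i).1 k
      exact h3.symm
  choose w hw using key
  exact ⟨w, hw⟩

theorem inv_int {n N : ℕ} (hn : n ≠ 0) (hN : ρ.D * n ∣ N) {nn : Fin ρ.f → ℕ}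
    {deg : ∀ i, Fin (nn i) → ℕ} {s : ρ.MSt nn} {R' : (Fin a → ℤ) →ₗ[ℤ] ρ.Gam nn}
    (h1 : ∀ z, ∃ w, R' (ρ.GA deg s z) = (ρ.D : ℤ) • z + (N : ℤ) • w) (i : Fin ρ.f)
    (hst : IsSt (ρ.shp deg i) (s i)) (j : ℕ) {z : Fin (nn i) → K i}
    (hz : ∀ q, deg i q < j → z q = 0)
    (hS : ∀ p, ∃ u, (SigM (ρ.shp deg i) (stK ρ K s i) j *ᵥ (fun q => z q.1)) p =
      algebraMap (Lam (ρ.g i)) (K i) u) (q : Fin (nn i)) :
    (ρ.D : K i) * z q ∈ DK ρ K n i := by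
  obtain ⟨w, hw⟩ := RM_int ρ K i hst j hz hS
  have h2 : mR (fun i => ρ.shp deg i) (stK ρ K s) (Pi.single i z) =
      ioM K ρ.lam (Pi.single i w) := by
    funext i' c
    show (RM (ρ.shp deg i') (stK ρ K s i') *ᵥ (Pi.single i z : ∀ i, Fin (nn i) → K i) i') c =
      algebraMap (Lam (ρ.g i')) (K i')
        ((Pi.single i w : ∀ i, Blk (ρ.lam i) → Lam (ρ.g i)) i' c)
    by_cases hi : i' = i
    · subst hi
      rw [Pi.single_eq_same, Pi.single_eq_same, hw]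
    · rw [Pi.single_eq_of_ne hi, Pi.single_eq_of_ne hi, mulVec_zero, Pi.zero_apply,
        Pi.zero_apply, map_zero]
  have h3 : NI n (ρ.hA.PQ K ρ.gp (mR (fun i => ρ.shp deg i) (stK ρ K s) (Pi.single i z))) := by
    rw [h2, ρ.hA.PQ_io]
    exact NI_cV n _
  obtain ⟨t, ht, htn, w', hw'⟩ := bound_core ρ K hn hN h1 h3
  refine ⟨t, ht, htn, 0, w' i q, ?_⟩
  have h4 := congrFun (congrFun hw' i) q
  rw [jG_apply] at h4
  rw [h4, pow_zero, mul_one]
  show (t : K i) * ((ρ.D : K i) * z q) =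
    (t • (ρ.D • (Pi.single i z : ∀ i, Fin (nn i) → K i) i q))
  rw [Pi.single_eq_same, nsmul_eq_mul, nsmul_eq_mul]

theorem sig_core {n N : ℕ} (hn : n ≠ 0) (hN : ρ.D * n ∣ N) {nn : Fin ρ.f → ℕ}
    {deg : ∀ i, Fin (nn i) → ℕ} {s : ρ.MSt nn} {R' : (Fin a → ℤ) →ₗ[ℤ] ρ.Gam nn}
    (h1 : ∀ z, ∃ w, R' (ρ.GA deg s z) = (ρ.D : ℤ) • z + (N : ℤ) • w) (i : Fin ρ.f)
    (hst : IsSt (ρ.shp deg i) (s i)) (hinj : LInv (RM (ρ.shp deg i) (stK ρ K s i))) (j : ℕ)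
    (hcard : Fintype.card {q : Fin (nn i) // j ≤ (ρ.shp deg i).deg q} =
      Fintype.card ({p : Fin (nn i) // j + 1 ≤ (ρ.shp deg i).deg p} ⊕
        {c : Fin (ρ.na i) // j + 1 ≤ (ρ.shp deg i).lam c})) :
    ∃ w ∈ DK ρ K n i, w * gdet (SigM (ρ.shp deg i) (stK ρ K s i) j) =
      (ρ.D : K i) ^ Fintype.card {q : Fin (nn i) // j ≤ (ρ.shp deg i).deg q} := by
  classical
  have hstK : IsSt (ρ.shp deg i) (stK ρ K s i) := hst.map _
  obtain ⟨Y, hY⟩ := SigM_LInv hstK hinj j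
  set S := SigM (ρ.shp deg i) (stK ρ K s i) j with hSdef
  let e := Fintype.equivOfCardEq hcard
  have hY' : Y.submatrix id e * S.submatrix e id = 1 := by
    rw [← submatrix_mul Y S id e id e.bijective, hY]
    rfl
  have hSY' : S.submatrix e id * Y.submatrix id e = 1 := mul_eq_one_comm.1 hY'
  have hSY : S * Y = 1 := by
    rw [← submatrix_mul S Y e id e Function.bijective_id] at hSY'
    have h2 := congrArg (fun M => M.submatrix e.symm e.symm) hSY'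
    simp only [submatrix_submatrix, Equiv.self_comp_symm, submatrix_id_id] at h2
    rw [h2]
    exact submatrix_one_equiv e.symm
  have hmem : ∀ q p, (ρ.D : K i) * Y q p ∈ DK ρ K n i := by
    intro q p
    let z0 : {q : Fin (nn i) // j ≤ (ρ.shp deg i).deg q} → K i := fun q => Y q p
    let z : Fin (nn i) → K i := stb_ext z0
    have hz : ∀ q, deg i q < j → z q = 0 := fun q hq => stb_ext_not z0 (by
      show ¬ j ≤ deg i q
      omega)
    have hr : (fun q : {q : Fin (nn i) // j ≤ (ρ.shp deg i).deg q} => z q.1) = z0 :=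
      funext fun q => stb_ext_mem z0 q
    have h2 := inv_int ρ K hn hN h1 i hst j (z := z) hz (by
      intro p'
      have h3 : (S *ᵥ (fun q => z q.1)) p' = (S * Y) p' p := by
        rw [hr]
        rfl
      rw [← hSdef, h3, hSY, Matrix.one_apply]
      split_ifs
      · exact ⟨1, by rw [map_one]⟩
      · exact ⟨0, by rw [map_zero]⟩) q.1
    have h3 : z q.1 = Y q p := stb_ext_mem z0 q
    rwa [h3] at h2
  let N' : Matrix {q : Fin (nn i) // j ≤ (ρ.shp deg i).deg q}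
      {q : Fin (nn i) // j ≤ (ρ.shp deg i).deg q} (DK ρ K n i) :=
    Matrix.of fun q q' => ⟨(ρ.D : K i) * Y q (e q'), hmem q (e q')⟩
  refine ⟨(N'.det : K i), N'.det.2, ?_⟩
  have h2 : (N'.det : K i) = ((ρ.D : K i) • Y.submatrix id e).det := by
    have h3 := (DK ρ K n i).subtype.map_det N'
    have h4 : (DK ρ K n i).subtype N'.det = (N'.det : K i) := rfl
    rw [← h4, h3]
    rfl
  rw [h2, gdet_eq _ hcard, ← det_mul, Matrix.smul_mul, hY', det_smul, det_one, mul_one]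

/-- **C2** -/
theorem tst_core {n : ℕ} (hn : 2 ≤ n) (hD : ρ.D ∣ n)
    (hq : ∃ q0 : ℕ, q0.Prime ∧ q0 ∣ n ∧ ∀ i, ¬ (q0 : ℤ) ∣ (ρ.g i).coeff 0) :
    ∃ c0 e : ℕ, ∀ c, c0 ≤ c →
    ∀ (nn : Fin ρ.f → ℕ) (deg : ∀ i, Fin (nn i) → ℕ) (s : ρ.MSt nn), (∀ i, nn i ≤ a) →
    (∀ i, IsSt (ρ.shp deg i) (s i)) → Ids ρ deg s (n ^ c) →
    (∀ i, LInv (RM (ρ.shp deg i) (stK ρ K s i))) ∧
    (∀ i, RInv (MM (ρ.shp deg i) (stK ρ K s i))) ∧
    Loc (mR (fun i => ρ.shp deg i) (stK ρ K s)) (mW (fun i => ρ.shp deg i) (stK ρ K s))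
      (locAt n (GVK ρ K)) (locAt n (GWK ρ K)) ∧
    ∀ i j, Sat (ρ.shp deg i) j → ∃ w ∈ DK ρ K n i,
      gdet (SigM (ρ.shp deg i) (stK ρ K s i) j) * w = (n : K i) ^ e := by
  obtain ⟨q, hqp, hqn, hq0⟩ := hq
  refine ⟨3, a, fun c hc nn deg s hna hst h => ?_⟩
  have hN : ρ.Δ * ρ.D * n ∣ n ^ c := by
    have h1 : ρ.Δ * ρ.D * n ∣ n ^ 3 := by
      have h2 : n ^ 3 = n * n * n := by ring
      rw [h2]
      exact Nat.mul_dvd_mul (Nat.mul_dvd_mul ((Δ_dvd_D ρ).trans hD) hD) dvd_rfl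
    exact h1.trans (pow_dvd_pow n hc)
  have hN' : ρ.D * n ∣ n ^ c := (Dvd.intro_left ρ.Δ (by ring)).trans hN
  obtain ⟨hi, hs, hl⟩ := loc_core ρ K hn hN hqp hqn hq0 hst h
  have hinj := fun i => LInv_of_inj hi i
  refine ⟨hinj, fun i => RInv_of_surj hs i, hl, fun i j hj => ?_⟩
  obtain ⟨R', Ψ, T, T', l, h1, -⟩ := h
  obtain ⟨w, hw, hw2⟩ := sig_core ρ K (by omega) hN' h1 i (hst i) (hinj i) j (card_SigM hj.1)
  obtain ⟨r, rfl⟩ := hD
  have hcard : Fintype.card {q : Fin (nn i) // j ≤ (ρ.shp deg i).deg q} ≤ a := by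
    refine (Fintype.card_subtype_le _).trans ?_
    rw [Fintype.card_fin]
    exact hna i
  obtain ⟨d, hd⟩ := Nat.exists_eq_add_of_le hcard
  refine ⟨w * ((ρ.D : K i) ^ d * (r : K i) ^ a), ?_, ?_⟩
  · exact (DK ρ K (ρ.D * r) i).mul_mem hw ((DK ρ K (ρ.D * r) i).mul_mem
      (pow_mem (natCast_mem _ _) _) (pow_mem (natCast_mem _ _) _))
  · have h5 : gdet (SigM (ρ.shp deg i) (stK ρ K s i) j) * (w * ((ρ.D : K i) ^ d * (r : K i) ^ a)) =
        (w * gdet (SigM (ρ.shp deg i) (stK ρ K s i) j)) * ((ρ.D : K i) ^ d * (r : K i) ^ a) := by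
      ring
    rw [h5, hw2]
    push_cast
    rw [mul_pow, ← mul_assoc, ← pow_add, ← hd]

end main

end Pool.Agent.DEC.TstB

namespace Pool.Agent.DEC

/-- **C2**, in the form of the completeness chain -/
theorem tst {a b : ℕ} {A : Matrix (Fin a) (Fin a) ℕ} {B : Matrix (Fin b) (Fin b) ℕ} (ρ : Ref A B)
    (K : Fin ρ.f → Type) [∀ i, Field (K i)] [∀ i, Algebra ℚ (K i)]
    [∀ i, Algebra (Lam (ρ.g i)) (K i)] [∀ i, IsFractionRing (Lam (ρ.g i)) (K i)]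
    {n : ℕ} (hn : GoodN ρ K n) : ∃ c0 e : ℕ, ∀ c, c0 ≤ c →
    ∀ (nn : Fin ρ.f → ℕ) (deg : ∀ i, Fin (nn i) → ℕ) (s : ρ.MSt nn), (∀ i, nn i ≤ a) →
    (∀ i, IsSt (ρ.shp deg i) (s i)) → Ids ρ deg s (n ^ c) →
    (∀ i, LInv (RM (ρ.shp deg i) (stK ρ K s i))) ∧
    (∀ i, RInv (MM (ρ.shp deg i) (stK ρ K s i))) ∧
    Loc (mR (fun i => ρ.shp deg i) (stK ρ K s)) (mW (fun i => ρ.shp deg i) (stK ρ K s))
      (locAt n (GVK ρ K)) (locAt n (GWK ρ K)) ∧
    ∀ i j, Sat (ρ.shp deg i) j → ∃ w ∈ DK ρ K n i,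
      gdet (SigM (ρ.shp deg i) (stK ρ K s i) j) * w = (n : K i) ^ e :=
  TstB.tst_core ρ K hn.two hn.dvd hn.q0

end Pool.Agent.DEC
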