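import Pool.Agent.DEC.GoodN
import Pool.Agent.DEC.TstB
import Pool.Agent.DEC.InUn
import Pool.Agent.DEC.Thm1
import Pool.Agent.DEC.KInst

/-!
# DEC: the completeness half, from `traceDim_of_loc` (helper75)

`complete_of` : for every reference datum there is `N > 0` such that semi-solutions of level `N`
give the dimension condition, if the states with `Loc` (over the fields) do.
-/

set_option autoImplicit false

open Matrix Polynomial

namespace Pool.Agent.DEC.CompleteOf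

open RefQ

variable {a b : ℕ} {A : Matrix (Fin a) (Fin a) ℕ} {B : Matrix (Fin b) (Fin b) ℕ} (ρ : Ref A B)
  (K : Fin ρ.f → Type) [∀ i, Field (K i)] [∀ i, Algebra ℚ (K i)]
  [∀ i, Algebra (Lam (ρ.g i)) (K i)] [∀ i, IsFractionRing (Lam (ρ.g i)) (K i)]

/-- the completeness half, from C6 -/
theorem complete_of
    (traceDim_of_loc : ∀ {nn : Fin ρ.f → ℕ} (deg : ∀ i, Fin (nn i) → ℕ)
      (s : MSt K (fun i => Fin (nn i)) (fun i => Fin (ρ.na i)) (fun i => Fin (ρ.nb i))),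
      (∀ i, IsSt (ρ.shp deg i) (s i)) → (∀ i, LInv (RM (ρ.shp deg i) (s i))) →
      Loc (mR (fun i => ρ.shp deg i) s) (mW (fun i => ρ.shp deg i) s) (GVK ρ K) (GWK ρ K) →
      TrC ρ nn → FT.TraceDimCondition A B) :
    ∃ N : ℕ, 0 < N ∧ (Semi ρ N → FT.TraceDimCondition A B) := by
  obtain ⟨n, hn, hpid⟩ := GN.exists_goodN ρ K
  obtain ⟨c1, h1⟩ := InUn.inU_of_tst ρ K hn (tst ρ K hn)
  refine ⟨n ^ c1, pow_pos (by have := hn.two; omega) _, ?_⟩
  rintro ⟨nn, deg, s, hna, -, htr, hst, hids, huni⟩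
  obtain ⟨u, hu, hs⟩ := h1 c1 le_rfl nn deg s hna hst hids huni
  obtain ⟨s', k1, k2, k3⟩ := Th1.thm1' ρ K hn hpid deg u hu _ hs
  exact traceDim_of_loc deg s' k1 k2 k3 htr

end Pool.Agent.DEC.CompleteOf
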