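import Pool.Agent.DEC.Glue
import Pool.Agent.FTO.Final

/-!
DEC project (MP_59dda0_an): the criterion for factor codes (`FTO.fto_iff`) in the form used by the
glue.
-/

set_option autoImplicit false

namespace Pool.Agent.DEC

theorem criterion : Criterion := by
  intro a b A B hA hB h
  rw [← FT.dimTrace_iff]
  exact FTO.fto_iff A B hA hB h

end Pool.Agent.DEC
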