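import Pool.Agent.DEC.UInst
import Pool.Agent.DEC.GoodFrame

/-!
# DEC, block U: Theorem U with polynomials of small degree, the constants are primitive recursive
-/

set_option autoImplicit false

open scoped BigOperators
open Polynomial

namespace Pool.Agent.DEC.UB

section Poly

variable {g : ℤ[X]}

/-- every ideal of `ℤ[X] / (g)` is principal up to `q` -/
theorem qPrin_of (hg : g.Monic) (hirr : Irreducible g) {q : ℕ} (hq : 0 < q)
    (h : uQ (HB g) g.natDegree ∣ q) : QPrin (AdjoinRoot g) (q : AdjoinRoot g) := by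
  intro I hI
  have hdom := isDomain_root g hirr
  obtain ⟨y, hy, hy0, hI'⟩ := almost_principal_root hg hirr (le_refl (HB g)) I hI
  obtain ⟨e, rfl⟩ := h
  refine ⟨y, hy, hy0, ?_⟩
  intro z hz
  obtain ⟨c, hc⟩ := hI' z hz
  refine ⟨e * c, ?_⟩
  push_cast
  have e1 : (uQ (HB g) g.natDegree : AdjoinRoot g) * e * z =
      e * ((uQ (HB g) g.natDegree : AdjoinRoot g) * z) := by ring
  rw [e1, hc]
  ring

theorem degree_small (c : Fin g.natDegree → ℤ) (hd : 0 < g.natDegree) :
    (∑ i, C (c i) * X ^ (i : ℕ) : ℤ[X]).natDegree < g.natDegree := by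
  refine lt_of_le_of_lt (natDegree_sum_le_of_forall_le Finset.univ _ (n := g.natDegree - 1) ?_) (by omega)
  intro i _
  refine (natDegree_C_mul_X_pow_le _ _).trans ?_
  have := i.2
  omega

theorem coeff_small (c : Fin g.natDegree → ℤ) (k : ℕ) :
    (∑ i, C (c i) * X ^ (i : ℕ) : ℤ[X]).coeff k = if h : k < g.natDegree then c ⟨k, h⟩ else 0 := by
  rw [finsetSum_coeff]
  simp only [coeff_C_mul, coeff_X_pow]
  split_ifs with h
  · rw [Finset.sum_eq_single ⟨k, h⟩]
    · simp
    · intro j _ hj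
      have : k ≠ (j : ℕ) := fun e => hj (Fin.ext e.symm)
      simp [this]
    · simp
  · apply Finset.sum_eq_zero
    intro j _
    have : k ≠ (j : ℕ) := by
      have := j.2
      omega
    simp [this]

/-- Theorem U with polynomials. -/
theorem units_ex (hg : g.Monic) (hirr : Irreducible g) (h0 : g.coeff 0 ≠ 0) {H : ℕ}
    (hH : HB g ≤ H) {Dl N : ℕ} (hDl : 0 < Dl) (hN : 0 < N)
    {F F' : AdjoinRoot g} {L : ℕ}
    (hF : F * F' = (Dl : AdjoinRoot g) ^ 2 * AdjoinRoot.root g ^ (2 * L)) :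
    ∃ p p' : ℤ[X], p.natDegree < g.natDegree ∧ p'.natDegree < g.natDegree ∧
      (∀ k, |p.coeff k| ≤ uB H g.natDegree (g.coeff 0).natAbs Dl N) ∧
      (∀ k, |p'.coeff k| ≤ uB H g.natDegree (g.coeff 0).natAbs Dl N) ∧
      AdjoinRoot.mk g p * AdjoinRoot.mk g p' = (Dl : AdjoinRoot g) ^ 2 *
        AdjoinRoot.root g ^ (2 * uL H g.natDegree (g.coeff 0).natAbs Dl N) ∧
      ∀ K, N ^ g.natDegree ≤ K → ∃ w, AdjoinRoot.root g ^ K *
        (AdjoinRoot.root g ^ L * AdjoinRoot.mk g p -
          AdjoinRoot.root g ^ uL H g.natDegree (g.coeff 0).natAbs Dl N * F) = N * w := by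
  have hd := natDegree_pos' g hg hirr
  obtain ⟨c, c', h1, h2, h3, h4⟩ := units_mod hg hirr h0 hH hDl hN hF
  have key : ∀ c : Fin g.natDegree → ℤ,
      (∀ i, |c i| ≤ (uB H g.natDegree (g.coeff 0).natAbs Dl N : ℤ)) →
      ∀ k, |(∑ i, C (c i) * X ^ (i : ℕ) : ℤ[X]).coeff k| ≤
        (uB H g.natDegree (g.coeff 0).natAbs Dl N : ℤ) := by
    intro c hc k
    rw [coeff_small]
    split_ifs with h
    · exact hc _
    · rw [abs_zero]
      exact Int.natCast_nonneg _
  exact ⟨_, _, degree_small c hd, degree_small c' hd, key c h1, key c' h2, h3, h4⟩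

end Poly

section Prim

variable {α : Type*} [Primcodable α]

theorem prPow {f g : α → ℕ} (hf : Primrec f) (hg : Primrec g) : Primrec fun a => f a ^ g a :=
  (Primrec₂.unpaired'.1 Nat.Primrec.pow).comp hf hg

theorem prMul {f g : α → ℕ} (hf : Primrec f) (hg : Primrec g) : Primrec fun a => f a * g a :=
  Primrec.nat_mul.comp hf hg

theorem prAdd {f g : α → ℕ} (hf : Primrec f) (hg : Primrec g) : Primrec fun a => f a + g a :=
  Primrec.nat_add.comp hf hg

theorem prSub {f g : α → ℕ} (hf : Primrec f) (hg : Primrec g) : Primrec fun a => f a - g a :=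
  Primrec.nat_sub.comp hf hg

theorem prFact {f : α → ℕ} (hf : Primrec f) : Primrec fun a => (f a).factorial := by
  have h1 : Primrec Nat.factorial := by
    have h2 : Primrec₂ fun (n : ℕ) (p : ℕ × ℕ) => (p.1 + 1) * p.2 :=
      Primrec.nat_mul.comp (Primrec.succ.comp (Primrec.fst.comp Primrec.snd))
        (Primrec.snd.comp Primrec.snd)
    have h3 := Primrec.nat_rec (α := ℕ) (f := fun _ => 1) (g := fun _ p => (p.1 + 1) * p.2)
      (Primrec.const 1) h2
    have h4 : Primrec fun n : ℕ => Nat.rec (motive := fun _ => ℕ) 1 (fun k r => (k + 1) * r) n :=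
      h3.comp Primrec.id Primrec.id
    refine h4.of_eq fun n => ?_
    induction n with
    | zero => rfl
    | succ k ih => rw [Nat.factorial_succ, ← ih]
  exact h1.comp hf

variable {H d g0 Dl N : α → ℕ}

theorem pr_uK (hH : Primrec H) (hd : Primrec d) : Primrec fun a => uK (H a) (d a) :=
  prMul (prMul (Primrec.const 16) hd) (prPow hH hd)

theorem pr_uQ (hH : Primrec H) (hd : Primrec d) : Primrec fun a => uQ (H a) (d a) :=
  prFact (prPow (pr_uK hH hd) hd)

theorem pr_uD (hH : Primrec H) (hd : Primrec d) (h0 : Primrec g0) (hDl : Primrec Dl) :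
    Primrec fun a => uD (H a) (d a) (g0 a) (Dl a) :=
  prMul (pr_uQ hH hd) (prMul hDl h0)

theorem pr_uM (hH : Primrec H) (hd : Primrec d) (h0 : Primrec g0) (hDl : Primrec Dl) :
    Primrec fun a => uM (H a) (d a) (g0 a) (Dl a) := by
  have hk := pr_uK hH hd
  have hd1 := prSub hd (Primrec.const 1)
  have hp := prPow hk hd1
  exact prAdd (prAdd (prAdd (prMul (prMul hk h0) hp) (prMul (prMul (Primrec.const 2) hk) hp))
    (prMul (prPow hDl (Primrec.const 2)) hp)) (prPow hH hd1)

theorem pr_uP (hH : Primrec H) (hd : Primrec d) (hDl : Primrec Dl) (hN : Primrec N) :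
    Primrec fun a => uP (H a) (d a) (Dl a) (N a) :=
  prPow (prMul hN (prMul (pr_uQ hH hd) (prPow hDl (Primrec.const 2)))) hd

theorem pr_uL (hH : Primrec H) (hd : Primrec d) (h0 : Primrec g0) (hDl : Primrec Dl)
    (hN : Primrec N) : Primrec fun a => uL (H a) (d a) (g0 a) (Dl a) (N a) := by
  have hD := pr_uD hH hd h0 hDl
  have hP := pr_uP hH hd hDl hN
  exact prAdd (prPow (prPow hD hP) hd) (prPow (prPow (prMul hD (pr_uM hH hd h0 hDl)) (prMul hP hd)) hd)

theorem pr_uB (hH : Primrec H) (hd : Primrec d) (h0 : Primrec g0) (hDl : Primrec Dl)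
    (hN : Primrec N) : Primrec fun a => uB (H a) (d a) (g0 a) (Dl a) (N a) := by
  have hD := pr_uD hH hd h0 hDl
  have hP := pr_uP hH hd hDl hN
  exact prMul (prMul (prFact hd) (prPow hH (prMul hd hd)))
    (prMul (prMul (prMul (prPow hH (pr_uL hH hd h0 hDl hN)) hDl) (prPow hD hP))
      (prPow (prMul hD (pr_uM hH hd h0 hDl)) (prMul hP hd)))

end Prim

end Pool.Agent.DEC.UB
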