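import Pool.Agent.DEC.Std8
import Pool.Agent.DEC.UPoly

/-!
# DEC, module C1: existence of reference data
-/

namespace Pool.Agent.DEC.ExRef

open Polynomial Matrix Pool.Agent.DEC DECStd

/-- **C1**: reference data exist for every pair of matrices. -/
theorem exists_ref {a b : ℕ} (A : Matrix (Fin a) (Fin a) ℕ) (B : Matrix (Fin b) (Fin b) ℕ) :
    ∃ ρ : Ref A B, ∀ i, UB.uQ (UB.HB (ρ.g i)) (ρ.g i).natDegree ∣ ρ.q := by
  classical
  set MA : Matrix (Fin a) (Fin a) ℤ := (zM A)ᵀ with hMA
  set MB : Matrix (Fin b) (Fin b) ℤ := (zM B)ᵀ with hMB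
  obtain ⟨f, g, hg, hirr, hinj, hg0, hdiv⟩ := exists_factors (MA.charpoly * MB.charpoly)
    ((Matrix.charpoly_monic MA).mul (Matrix.charpoly_monic MB))
  have hA := hdiv MA.charpoly (Matrix.charpoly_monic MA) (dvd_mul_right _ _)
  have hB := hdiv MB.charpoly (Matrix.charpoly_monic MB) (dvd_mul_left _ _)
  rw [Matrix.charpoly_natDegree_eq_dim, Fintype.card_fin] at hA hB
  obtain ⟨na, lam, P, n1, hlam, hn1, hPx, hP⟩ := exists_half (zM A) g hg hirr a hA
  obtain ⟨nb, mu, Q, n2, hmu, hn2, hQx, hQ⟩ := exists_half (zM B) g hg hirr b hB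
  obtain ⟨P', hPP, hPne, hPsp⟩ := hP (n1 * n2) (by positivity) (dvd_mul_right _ _)
  obtain ⟨Q', hQQ, hQne, hQsp⟩ := hQ (n1 * n2) (by positivity) (dvd_mul_left _ _)
  have hqpos : 0 < ∏ i, UB.uQ (UB.HB (g i)) (g i).natDegree :=
    Finset.prod_pos fun i _ => Nat.factorial_pos _
  have hqdvd : ∀ i, UB.uQ (UB.HB (g i)) (g i).natDegree ∣
      ∏ i, UB.uQ (UB.HB (g i)) (g i).natDegree := fun i => Finset.dvd_prod_of_mem _ (Finset.mem_univ i)
  exact ⟨{ f := f
           g := g
           monic := hg
           irr := hirr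
           inj := hinj
           g0 := hg0
           na := na
           nb := nb
           lam := lam
           mu := mu
           lam_pos := hlam
           mu_pos := hmu
           Δ := n1 * n2
           Δ_pos := by positivity
           P := P
           P' := P'
           P_x := hPx
           P_P := hPP
           P_ne := hPne
           P_sp := hPsp
           Q := Q
           Q' := Q'
           Q_x := hQx
           Q_Q := hQQ
           Q_ne := hQne
           Q_sp := hQsp
           q := ∏ i, UB.uQ (UB.HB (g i)) (g i).natDegree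
           q_pos := hqpos
           hq := fun i => UB.qPrin_of (hg i) (hirr i) hqpos (hqdvd i) }, hqdvd⟩

end Pool.Agent.DEC.ExRef
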