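import Pool.Agent.FT.Cover

/-!
# DEC, finite-to-one factor codes: gluing, homoclinic pairs, periodic points

A factor code between edge shifts of primitive matrices has finite fibres if and only if there is
no pair of different points with the same image which agree outside of a finite set.
-/

set_option autoImplicit false

open Filter Topology Matrix

namespace Pool.Agent.DEC.Fn

open Pool.Agent.FT

variable {a b : ℕ} {A : Matrix (Fin a) (Fin a) ℕ} {B : Matrix (Fin b) (Fin b) ℕ}

/-! ### gluing -/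

/-- `x'` on `[s, t)`, `x` elsewhere -/
def glueF (x x' : ℤ → Edge A) (s t : ℤ) : ℤ → Edge A := fun i => if s ≤ i ∧ i < t then x' i else x i

theorem glueF_mem {x x' : ℤ → Edge A} (hx : x ∈ edgeShift A) (hx' : x' ∈ edgeShift A) {s t : ℤ}
    (h1 : x (s - 1) = x' (s - 1)) (h2 : x t = x' t) : glueF x x' s t ∈ edgeShift A := by
  intro i
  unfold glueF
  by_cases hi : s ≤ i ∧ i < t
  · rw [if_pos hi]
    by_cases hi1 : s ≤ i + 1 ∧ i + 1 < t
    · rw [if_pos hi1]
      exact hx' i
    · rw [if_neg hi1]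
      obtain rfl : t = i + 1 := by omega
      rw [h2]
      exact hx' i
  · rw [if_neg hi]
    by_cases hi1 : s ≤ i + 1 ∧ i + 1 < t
    · rw [if_pos hi1]
      obtain rfl : i = s - 1 := by omega
      rw [h1]
      exact hx' (s - 1)
    · rw [if_neg hi1]
      exact hx i

/-- the code `φ` has the window `[-N, N]` -/
def Window (φ : edgeShift A → edgeShift B) (N : ℕ) : Prop :=
  ∀ (j : ℤ) (x x' : edgeShift A), (∀ i : ℤ, j - N ≤ i → i ≤ j + N → x.1 i = x'.1 i) →
    (φ x).1 j = (φ x').1 j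

theorem exists_win {φ : edgeShift A → edgeShift B} (hφ : IsFactorCode φ) :
    ∃ N : ℕ, 0 < N ∧ Window φ N := by
  obtain ⟨N, hN⟩ := exists_window hφ
  refine ⟨N + 1, Nat.succ_pos N, fun j x x' h => ?_⟩
  have h1 := hN (trans x j) (trans x' j) fun i hi hi' => by
    rw [trans_apply, trans_apply]
    refine h _ ?_ ?_
    · push_cast
      omega
    · push_cast
      omega
  rw [commutes_trans hφ, commutes_trans hφ, trans_apply, trans_apply, zero_add] at h1
  exact h1

/-- gluing of points -/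
theorem exists_glue {φ : edgeShift A → edgeShift B} {N : ℕ} (hN0 : 0 < N) (hN : Window φ N)
    (x x' : edgeShift A) {s t : ℤ} (_hst : s ≤ t)
    (h1 : ∀ i, s - 2 * N ≤ i → i < s → x.1 i = x'.1 i)
    (h2 : ∀ i, t ≤ i → i < t + 2 * N → x.1 i = x'.1 i) :
    ∃ z : edgeShift A, (∀ i, s ≤ i → i < t → z.1 i = x'.1 i) ∧
      (∀ i, (i < s ∨ t ≤ i) → z.1 i = x.1 i) ∧
      ∀ j, ((φ z).1 j = (φ x).1 j ∧ (j < s - N ∨ t + N ≤ j)) ∨
        ((φ z).1 j = (φ x').1 j ∧ s - N ≤ j ∧ j < t + N) := by
  have hz := glueF_mem x.2 x'.2 (h1 (s - 1) (by omega) (by omega)) (h2 t le_rfl (by omega))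
  refine ⟨⟨glueF x.1 x'.1 s t, hz⟩, fun i hi hi' => if_pos ⟨hi, hi'⟩,
    fun i hi => if_neg (by omega), fun j => ?_⟩
  by_cases hj : s - N ≤ j ∧ j < t + N
  · right
    refine ⟨hN j _ _ fun i hi hi' => ?_, hj⟩
    show glueF x.1 x'.1 s t i = x'.1 i
    unfold glueF
    split_ifs with h
    · rfl
    · rcases lt_or_ge i s with h3 | h3
      · exact h1 i (by omega) h3
      · exact h2 i (by omega) (by omega)
  · left
    refine ⟨hN j _ _ fun i hi hi' => ?_, by omega⟩
    exact if_neg (by omega)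

/-- a pair of different points with the same image which agree outside of `[s, t)` -/
def Pair (φ : edgeShift A → edgeShift B) : Prop :=
  ∃ (x x' : edgeShift A) (s t : ℤ), s ≤ t ∧ x ≠ x' ∧ (∀ i, i < s → x.1 i = x'.1 i) ∧
    (∀ i, t ≤ i → x.1 i = x'.1 i) ∧ φ x = φ x'

/-- no pairs: finite fibres -/
theorem finite_of_no_pair {φ : edgeShift A → edgeShift B} (hφ : IsFactorCode φ)
    (h : ¬ Pair φ) (y : edgeShift B) : {x | φ x = y}.Finite := by
  classical
  by_contra hinf
  have hinf' : {x | φ x = y}.Infinite := hinf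
  obtain ⟨N, hN0, hN⟩ := exists_win hφ
  obtain ⟨T, hT, hcard⟩ := hinf'.exists_subset_card_eq
    (Fintype.card ((Fin (2 * N) → Edge A) × (Fin (2 * N) → Edge A)) + 1)
  have hdiff : ∀ p : edgeShift A × edgeShift A, ∃ i : ℤ, p.1 ≠ p.2 → p.1.1 i ≠ p.2.1 i := by
    intro p
    by_cases hp : p.1 = p.2
    · exact ⟨0, fun h' => absurd hp h'⟩
    · have : ∃ i, p.1.1 i ≠ p.2.1 i := by
        by_contra hcon
        push Not at hcon
        exact hp (Subtype.ext (funext hcon))
      obtain ⟨i, hi⟩ := this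
      exact ⟨i, fun _ => hi⟩
  choose d hd using hdiff
  let n : ℕ := (T ×ˢ T).sup (fun p => (d p).natAbs) + 1
  have hn : ∀ x ∈ T, ∀ x' ∈ T, -(n : ℤ) ≤ d (x, x') ∧ d (x, x') < n := by
    intro x hx x' hx'
    have h1 : (d (x, x')).natAbs ≤ (T ×ˢ T).sup (fun p => (d p).natAbs) :=
      Finset.le_sup (f := fun p => (d p).natAbs) (Finset.mem_product.2 ⟨hx, hx'⟩)
    have h2 : (d (x, x')).natAbs < n := Nat.lt_succ_of_le h1
    omega
  obtain ⟨x, hx, x', hx', hne, heq⟩ := Finset.exists_ne_map_eq_of_card_lt_of_maps_to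
    (s := T) (t := (Finset.univ : Finset ((Fin (2 * N) → Edge A) × (Fin (2 * N) → Edge A))))
    (f := fun x => (fun k => x.1 (-(n : ℤ) - 2 * N + (k : ℕ)), fun k => x.1 ((n : ℤ) + (k : ℕ))))
    (by rw [Finset.card_univ, hcard]; exact Nat.lt_succ_self _) (fun _ _ => Finset.mem_univ _)
  have e1 : ∀ i : ℤ, -(n : ℤ) - 2 * N ≤ i → i < -(n : ℤ) → x.1 i = x'.1 i := by
    intro i hi hi'
    have h1 := congrFun (congrArg Prod.fst heq) ⟨(i + n + 2 * N).toNat, by omega⟩
    simp only at h1
    have h2 : -(n : ℤ) - 2 * N + ((i + n + 2 * N).toNat : ℕ) = i := by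
      rw [Int.toNat_of_nonneg (by omega)]
      ring
    rwa [h2] at h1
  have e2 : ∀ i : ℤ, (n : ℤ) ≤ i → i < (n : ℤ) + 2 * N → x.1 i = x'.1 i := by
    intro i hi hi'
    have h1 := congrFun (congrArg Prod.snd heq) ⟨(i - n).toNat, by omega⟩
    simp only at h1
    have h2 : (n : ℤ) + ((i - n).toNat : ℕ) = i := by
      rw [Int.toNat_of_nonneg (by omega)]
      ring
    rwa [h2] at h1
  obtain ⟨z, hz1, hz2, hz3⟩ := exists_glue hN0 hN x x' (s := -(n : ℤ)) (t := n) (by omega) e1 e2
  have hxy : φ x = y := hT hx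
  have hxy' : φ x' = y := hT hx'
  refine h ⟨x, z, -(n : ℤ), n, by omega, ?_, fun i hi => (hz2 i (Or.inl hi)).symm,
    fun i hi => (hz2 i (Or.inr hi)).symm, ?_⟩
  · intro hxz
    obtain ⟨hd1, hd2⟩ := hn x hx x' hx'
    have h1 := hz1 _ hd1 hd2
    rw [← hxz] at h1
    exact hd (x, x') hne h1
  · apply Subtype.ext
    funext j
    rcases hz3 j with h1 | h1
    · exact h1.1.symm
    · rw [h1.1, hxy, hxy']

/-! ### periodic points -/

theorem exists_path {k : ℕ} {i j : Fin a} (h : (A ^ (k + 1)) i j ≠ 0) :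
    ∃ w : ℕ → Edge A, src (w 0) = i ∧ (∀ t, t < k → tgt (w t) = src (w (t + 1))) ∧
      tgt (w k) = j := by
  induction k generalizing i with
  | zero =>
    rw [zero_add, pow_one] at h
    exact ⟨fun _ => ⟨(i, j), ⟨0, Nat.pos_of_ne_zero h⟩⟩, rfl, fun t ht => absurd ht (Nat.not_lt_zero _),
      rfl⟩
  | succ k ih =>
    rw [pow_succ', Matrix.mul_apply] at h
    obtain ⟨m, _, hm⟩ := Finset.exists_ne_zero_of_sum_ne_zero h
    obtain ⟨w, h0, h1, h2⟩ := ih (right_ne_zero_of_mul hm)
    refine ⟨fun t => if t = 0 then ⟨(i, m), ⟨0, Nat.pos_of_ne_zero (left_ne_zero_of_mul hm)⟩⟩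
      else w (t - 1), rfl, fun t ht => ?_, ?_⟩
    · rcases Nat.eq_zero_or_pos t with rfl | ht0
      · simp only [if_true, zero_add, one_ne_zero, if_false, Nat.sub_self]
        exact h0.symm
      · simp only [ht0.ne', if_false, Nat.succ_ne_zero, Nat.add_sub_cancel]
        have h3 := h1 (t - 1) (by omega)
        rwa [Nat.sub_add_cancel ht0] at h3
    · simp only [Nat.succ_ne_zero, if_false, Nat.add_sub_cancel]
      exact h2

theorem per_ext {n : ℕ} (hn : 0 < n) (c : ℕ → Edge A)
    (h1 : ∀ j, j + 1 < n → tgt (c j) = src (c (j + 1))) (h2 : tgt (c (n - 1)) = src (c 0)) :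
    ∃ z : edgeShift A, (∀ i, z.1 (i + n) = z.1 i) ∧ ∀ j : ℕ, j < n → z.1 j = c j := by
  have hn' : (0 : ℤ) < n := by exact_mod_cast hn
  refine ⟨⟨fun i => c ((i % n).toNat), fun i => ?_⟩, fun i => ?_, fun j hj => ?_⟩
  · show tgt (c ((i % n).toNat)) = src (c (((i + 1) % n).toNat))
    have h3 := Int.emod_nonneg i hn'.ne'
    have h4 := Int.emod_lt_of_pos i hn'
    have h5 : (i + 1) % n = (i % n + 1) % n := by rw [Int.emod_add_emod]
    obtain ⟨j, hj⟩ : ∃ j : ℕ, i % n = j := ⟨(i % n).toNat, (Int.toNat_of_nonneg h3).symm⟩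
    rw [h5, hj]
    rw [hj] at h3 h4
    rw [Int.toNat_natCast]
    by_cases hj1 : j + 1 < n
    · have h6 : ((j : ℤ) + 1) % n = ((j + 1 : ℕ) : ℤ) := by
        rw [Int.emod_eq_of_lt (by omega) (by omega)]
        push_cast
        ring
      rw [h6, Int.toNat_natCast]
      exact h1 j hj1
    · have h6 : ((j : ℤ) + 1) % n = 0 := by
        have : (j : ℤ) + 1 = n := by omega
        rw [this, Int.emod_self]
      rw [h6, Int.toNat_zero]
      have : j = n - 1 := by omega
      rw [this]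
      exact h2
  · show c (((i + n) % n).toNat) = c ((i % n).toNat)
    rw [Int.add_emod_right]
  · show c (((j : ℤ) % n).toNat) = c j
    rw [Int.emod_eq_of_lt (by omega) (by omega), Int.toNat_natCast]

theorem exists_periodic (hA : IsPrimitive A) (x : edgeShift A) (u : ℤ) (L : ℕ) :
    ∃ (n : ℕ) (z : edgeShift A), L < n ∧ (∀ i, z.1 (i + n) = z.1 i) ∧
      ∀ i, u ≤ i → i < u + L → z.1 i = x.1 i := by
  obtain ⟨_, k, hk, hpos⟩ := hA
  obtain ⟨k, rfl⟩ := Nat.exists_eq_succ_of_ne_zero hk.ne'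
  obtain ⟨w, w0, w1, w2⟩ := exists_path (hpos (tgt (x.1 (u + L))) (src (x.1 u))).ne'
  let c : ℕ → Edge A := fun j => if j < L + 1 then x.1 (u + j) else w (j - (L + 1))
  obtain ⟨z, hz1, hz2⟩ := per_ext (n := L + 1 + (k + 1)) (by omega) c (fun j hj => by
    simp only [c]
    by_cases h1 : j + 1 < L + 1
    · rw [if_pos (by omega), if_pos h1]
      have h := x.2 (u + j)
      rw [h]
      push_cast
      ring_nf
    · by_cases h2 : j < L + 1
      · obtain rfl : j = L := by omega
        rw [if_pos h2, if_neg h1, Nat.sub_self, w0]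
      · rw [if_neg h2, if_neg h1]
        have h := w1 (j - (L + 1)) (by omega)
        rw [h]
        congr 2
        omega) (by
    simp only [c]
    rw [if_neg (by omega), if_pos (Nat.succ_pos L)]
    have h : L + 1 + (k + 1) - 1 - (L + 1) = k := by omega
    rw [h, w2]
    simp)
  refine ⟨L + 1 + (k + 1), trans z (-u), by omega, fun i => ?_, fun i hi hi' => ?_⟩
  · rw [trans_apply, trans_apply, ← hz1 (i + -u)]
    exact congrArg z.1 (by ring)
  · rw [trans_apply]
    have h1 := hz2 (i + -u).toNat (by omega)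
    rw [Int.toNat_of_nonneg (by omega)] at h1
    rw [h1]
    simp only [c]
    rw [if_pos (by omega), Int.toNat_of_nonneg (by omega)]
    exact congrArg x.1 (by ring)

theorem per_mul {z : edgeShift A} {n : ℕ} (h : ∀ i, z.1 (i + n) = z.1 i) (k : ℕ) (i : ℤ) :
    z.1 (i + k * n) = z.1 i := by
  induction k with
  | zero => simp
  | succ k ih =>
    rw [← ih, ← h (i + k * n)]
    exact congrArg z.1 (by push_cast; ring)

/-- finite fibres: no pairs -/
theorem no_pair_of_finite (hA : IsPrimitive A) {φ : edgeShift A → edgeShift B}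
    (hφ : IsFactorCode φ) (hfin : ∀ y, {x | φ x = y}.Finite) : ¬ Pair φ := by
  classical
  rintro ⟨x, x', s, t, hst, hne, h1, h2, heq⟩
  obtain ⟨N, hN0, hN⟩ := exists_win hφ
  have hdiff : ∃ i, x.1 i ≠ x'.1 i := by
    by_contra hcon
    push Not at hcon
    exact hne (Subtype.ext (funext hcon))
  obtain ⟨i0, hi0⟩ := hdiff
  have hi0s : s ≤ i0 := by
    by_contra hcon
    exact hi0 (h1 i0 (by omega))
  have hi0t : i0 < t := by
    by_contra hcon
    exact hi0 (h2 i0 (by omega))
  obtain ⟨n, z, hn, hz, hzx⟩ := exists_periodic hA x (s - 2 * N) ((t - s).toNat + 4 * N)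
  have hL : (((t - s).toNat + 4 * N : ℕ) : ℤ) = t - s + 4 * N := by
    push_cast
    rw [Int.toNat_of_nonneg (by omega)]
  have hnL : t - s + 4 * N < n := by
    rw [← hL]
    exact_mod_cast hn
  -- the copies
  have hcopy : ∀ (k : ℕ) (i : ℤ), s - 2 * N + k * n ≤ i → i < t + 2 * N + k * n →
      z.1 i = x.1 (i - k * n) := by
    intro k i hi hi'
    rw [← hzx (i - k * n) (by omega) (by rw [hL]; omega), ← per_mul hz k (i - k * n)]
    exact congrArg z.1 (by ring)
  have hglue : ∀ k : ℕ, ∃ y : edgeShift A, (∀ i, s + k * n ≤ i → i < t + k * n →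
      y.1 i = x'.1 (i - k * n)) ∧ (∀ i, (i < s + k * n ∨ t + k * n ≤ i) → y.1 i = z.1 i) ∧
      φ y = φ z := by
    intro k
    obtain ⟨y, hy1, hy2, hy3⟩ := exists_glue hN0 hN z (trans x' (-(k * n))) (s := s + k * n)
      (t := t + k * n) (by omega) (fun i hi hi' => by
        rw [hcopy k i (by omega) (by omega), trans_apply, h1 _ (by omega)]
        rfl) (fun i hi hi' => by
        rw [hcopy k i (by omega) (by omega), trans_apply, h2 _ (by omega)]
        rfl)
    refine ⟨y, fun i hi hi' => by rw [hy1 i hi hi', trans_apply]; rfl, hy2, ?_⟩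
    apply Subtype.ext
    funext j
    rcases hy3 j with h3 | h3
    · exact h3.1
    · rw [h3.1]
      have h4 : (φ z).1 j = (φ (trans x (-(k * n)))).1 j := hN j _ _ fun i hi hi' => by
        rw [hcopy k i (by omega) (by omega), trans_apply]
        rfl
      rw [h4, commutes_trans hφ, commutes_trans hφ, heq]
  choose y hy1 hy2 hy3 using hglue
  have hyz : ∀ k, (y k).1 (i0 + k * n) ≠ z.1 (i0 + k * n) := by
    intro k
    rw [hy1 k _ (by omega) (by omega), hcopy k _ (by omega) (by omega), add_sub_cancel_right]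
    exact hi0.symm
  have hinj : Function.Injective y := by
    intro k l hkl
    by_contra hne'
    apply hyz k
    rw [hkl]
    apply hy2
    rcases Nat.lt_or_gt_of_ne hne' with h3 | h3
    · left
      have : (k : ℤ) * n + n ≤ l * n := by
        have : ((k + 1 : ℕ) : ℤ) * n ≤ l * n := by
          exact_mod_cast Nat.mul_le_mul_right n h3
        push_cast at this
        linarith
      omega
    · right
      have : (l : ℤ) * n + n ≤ k * n := by
        have : ((l + 1 : ℕ) : ℤ) * n ≤ k * n := by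
          exact_mod_cast Nat.mul_le_mul_right n h3
        push_cast at this
        linarith
      omega
  have hsub : Set.range y ⊆ {x | φ x = φ z} := by
    rintro _ ⟨k, rfl⟩
    exact hy3 k
  exact (Set.infinite_range_of_injective hinj) ((hfin (φ z)).subset hsub)

end Pool.Agent.DEC.Fn
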