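import Pool.Agent.DEC.FinB

/-!
# DEC, finite-to-one factor codes and entropy

Equal entropy: no pairs (by `Pool.FTO.no_diamond`). No pairs: equal entropy (counting words).
-/

set_option autoImplicit false

open Filter Topology Matrix

namespace Pool.Agent.DEC.Fn

open Pool.Agent.FT Pool.FTO

/-! ### unique lifts -/

section lifts

variable {V W : Type} [Fintype V] [DecidableEq V] [DecidableEq W] {E : Matrix V V ℕ} {π : V → W}

/-- the word of the labels -/
def lab (π : V → W) : ℕ → (ℕ → V) → List W
  | 0, _ => []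
  | m + 1, w => π (w 1) :: lab π m (fun k => w (k + 1))

omit [Fintype V] [DecidableEq V] [DecidableEq W] in
theorem lab_congr {w w' : ℕ → V} {m : ℕ} (h : ∀ k, k ≤ m → π (w k) = π (w' k)) :
    lab π m w = lab π m w' := by
  induction m generalizing w w' with
  | zero => rfl
  | succ m ih =>
    rw [lab, lab, h 1 (by omega), ih fun k hk => h (k + 1) (by omega)]

theorem mat_path {w : ℕ → V} {m : ℕ} (h : ∀ k, k < m → E (w k) (w (k + 1)) ≠ 0) :
    mat E π (π (w 0)) (lab π m w) (w 0) (w m) ≠ 0 := by
  induction m generalizing w with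
  | zero =>
    rw [lab, mat_nil, fibP, Matrix.diagonal_apply_eq, if_pos rfl]
    exact one_ne_zero
  | succ m ih =>
    rw [lab, mat_cons_apply, if_pos rfl]
    intro h0
    have h1 := (Finset.sum_eq_zero_iff.mp h0) (w 1) (Finset.mem_univ _)
    rcases Nat.mul_eq_zero.1 h1 with h2 | h2
    · exact h 0 (Nat.succ_pos m) h2
    · exact ih (w := fun k => w (k + 1)) (fun k hk => h (k + 1) (by omega)) h2

/-- without diamonds lifts with the same ends are equal -/
theorem lift_unique (hd : ∀ j l u v, mat E π j l u v ≤ 1) {w w' : ℕ → V} {m : ℕ}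
    (h : ∀ k, k < m → E (w k) (w (k + 1)) ≠ 0) (h' : ∀ k, k < m → E (w' k) (w' (k + 1)) ≠ 0)
    (hl : ∀ k, k ≤ m → π (w k) = π (w' k)) (h0 : w 0 = w' 0) (hm : w m = w' m) :
    ∀ k, k ≤ m → w k = w' k := by
  induction m generalizing w w' with
  | zero =>
    intro k hk
    obtain rfl : k = 0 := by omega
    exact h0
  | succ m ih =>
    have h1 : w 1 = w' 1 := by
      by_contra hne
      have e1 := hd (π (w 0)) (lab π (m + 1) w) (w 0) (w (m + 1))
      rw [lab, mat_cons_apply, if_pos rfl] at e1
      have e2 := mat_path (E := E) (π := π) (w := fun k => w (k + 1)) (m := m)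
        fun k hk => h (k + 1) (by omega)
      have e3 := mat_path (E := E) (π := π) (w := fun k => w' (k + 1)) (m := m)
        fun k hk => h' (k + 1) (by omega)
      simp only [zero_add] at e2 e3
      rw [← hl 1 (by omega), ← hm, ← lab_congr (w := fun k => w (k + 1))
        fun k hk => hl (k + 1) (by omega)] at e3
      have e4 : ∑ z ∈ {w 1, w' 1}, E (w 0) z * mat E π (π (w 1)) (lab π m fun k => w (k + 1)) z
          (w (m + 1)) ≤ 1 :=
        le_trans (Finset.sum_le_sum_of_subset (Finset.subset_univ _)) e1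
      rw [Finset.sum_pair hne] at e4
      have e5 : E (w 0) (w 1) ≠ 0 := h 0 (Nat.succ_pos m)
      have e6 : E (w 0) (w' 1) ≠ 0 := by
        rw [h0]
        exact h' 0 (Nat.succ_pos m)
      have e7 := Nat.mul_pos (Nat.pos_of_ne_zero e5) (Nat.pos_of_ne_zero e2)
      have e8 := Nat.mul_pos (Nat.pos_of_ne_zero e6) (Nat.pos_of_ne_zero e3)
      omega
    intro k hk
    rcases Nat.eq_zero_or_pos k with rfl | hk0
    · exact h0
    · have h2 := ih (w := fun k => w (k + 1)) (w' := fun k => w' (k + 1))
        (fun k hk => h (k + 1) (by omega)) (fun k hk => h' (k + 1) (by omega))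
        (fun k hk => hl (k + 1) (by omega)) h1 hm (k - 1) (by omega)
      simp only [Nat.sub_add_cancel hk0] at h2
      exact h2

end lifts

/-! ### equal entropy: no diamonds -/

/-- a graph map onto from the windows, equal entropy: no diamonds (the proof of
`FT.exists_gcover`) -/
theorem gcover_of {a b : ℕ} {A : Matrix (Fin a) (Fin a) ℕ}
    {B : Matrix (Fin b) (Fin b) ℕ} (hA : IsPrimitive A) (hB : IsPrimitive B)
    (hent : ∃ h, HasEntropy (edgeShift A) h ∧ HasEntropy (edgeShift B) h) {p : ℕ}
    (π : Win A p → Edge B) (hom : ∀ u v, winE A p u v ≠ 0 → lineF B (π u) (π v) ≠ 0)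
    (surj : ∀ j l, Legal (lineF B) j l → mat (winE A p) π j l ≠ 0) :
    GCover (winE A p) π (lineF B) := by
  classical
  have F01 : ∀ j k, lineF B j k ≤ 1 := fun j k => by
    rw [lineF]; split_ifs <;> omega
  obtain ⟨lam, c, r, hlam, hc, hr, hAr, hcnt⟩ := perron_data hA hB hent
  refine ⟨F01, hom, surj, ?_, ?_⟩
  · intro j l u v
    have : Nonempty (Win A p) := ⟨u⟩
    refine no_diamond (winE A p) π (lineF B) F01 surj (fun w => r (tgt (w.1 (Fin.last p)))) (fun w => hr _)
      lam hlam ?_ ?_ (min (c / lam) 1) (lt_min (div_pos hc hlam) one_pos) ?_ j l u v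
    · intro u
      have h1 : ∀ v : Win A p, r (tgt (v.1 (Fin.last p))) = ∑ i, (winX A p v i : ℝ) * r i := by
        intro v
        simp only [winX, Nat.cast_ite, Nat.cast_one, Nat.cast_zero, ite_mul, one_mul, zero_mul]
        rw [Finset.sum_ite_eq Finset.univ, if_pos (Finset.mem_univ _)]
      have h2 : ∀ i, ∑ v, (winE A p u v : ℝ) * (winX A p v i : ℝ) =
          (A (tgt (u.1 (Fin.last p))) i : ℝ) := by
        intro i
        have h3 := congrFun (congrFun (winEX (A := A) (p := p)) u) i
        rw [Matrix.mul_apply, Matrix.mul_apply] at h3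
        simp only [winX, ite_mul, one_mul, zero_mul] at h3
        rw [Finset.sum_ite_eq Finset.univ, if_pos (Finset.mem_univ _)] at h3
        rw [← h3]
        push_cast
        simp only [winX, Nat.cast_ite, Nat.cast_one, Nat.cast_zero]
      have h4 : ∑ v, (winE A p u v : ℝ) * r (tgt (v.1 (Fin.last p))) =
          ∑ i, (∑ v, (winE A p u v : ℝ) * (winX A p v i : ℝ)) * r i := by
        simp_rw [h1, Finset.mul_sum, Finset.sum_mul]
        rw [Finset.sum_comm]
        exact Finset.sum_congr rfl fun i _ => Finset.sum_congr rfl fun v _ => by ring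
      rw [h4]
      simp_rw [h2]
      have h5 := congrFun hAr (tgt (u.1 (Fin.last p)))
      simp only [Matrix.mulVec, dotProduct, Matrix.map_apply, Pi.smul_apply, smul_eq_mul] at h5
      exact h5
    · obtain ⟨_, k, _, hk⟩ := hA
      exact ⟨k + (p + 1), fun x y => by rw [winE_pow_apply]; exact hk _ _⟩
    · intro n
      cases n with
      | zero =>
        rw [pow_zero, mul_one, pow_zero]
        have h1 : ∑ j : Edge B, ∑ k : Edge B, (((1 : Matrix (Edge B) (Edge B) ℕ) j k : ℕ) : ℝ) =
            Fintype.card (Edge B) := by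
          simp [Matrix.one_apply]
        rw [h1]
        have h2 : 0 < Fintype.card (Edge B) := Fintype.card_pos_iff.mpr ⟨π u⟩
        have h3 : (1 : ℝ) ≤ Fintype.card (Edge B) := by exact_mod_cast h2
        exact (min_le_right _ _).trans h3
      | succ n =>
        choose ei hei using exists_in hB
        choose eo heo using exists_out hB
        have h1 : ∑ i, ∑ j, (((B ^ n) i j : ℕ) : ℝ) ≤
            ∑ e : Edge B, ∑ e' : Edge B, (((lineF B ^ (n + 1)) e e' : ℕ) : ℝ) := by
          simp_rw [lineF_apply]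
          have hinj : Function.Injective ei := fun i j h => by rw [← hei i, ← hei j, h]
          have hinj' : Function.Injective eo := fun i j h => by rw [← heo i, ← heo j, h]
          calc ∑ i, ∑ j, (((B ^ n) i j : ℕ) : ℝ)
              ≤ ∑ i, ∑ e' : Edge B, (((B ^ n) i (src e') : ℕ) : ℝ) := by
                refine Finset.sum_le_sum fun i _ => ?_
                have h2 : ∑ j, (((B ^ n) i j : ℕ) : ℝ) =
                    ∑ e' ∈ Finset.univ.map ⟨eo, hinj'⟩, (((B ^ n) i (src e') : ℕ) : ℝ) := by
                  rw [Finset.sum_map]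
                  exact Finset.sum_congr rfl fun j _ => by
                    rw [Function.Embedding.coeFn_mk, heo]
                rw [h2]
                exact Finset.sum_le_sum_of_subset_of_nonneg (Finset.subset_univ _)
                  fun _ _ _ => Nat.cast_nonneg _
            _ ≤ ∑ e : Edge B, ∑ e' : Edge B, (((B ^ n) (tgt e) (src e') : ℕ) : ℝ) := by
                have h2 : ∑ i, ∑ e' : Edge B, (((B ^ n) i (src e') : ℕ) : ℝ) =
                    ∑ e ∈ Finset.univ.map ⟨ei, hinj⟩, ∑ e' : Edge B,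
                      (((B ^ n) (tgt e) (src e') : ℕ) : ℝ) := by
                  rw [Finset.sum_map]
                  exact Finset.sum_congr rfl fun j _ => by
                    rw [Function.Embedding.coeFn_mk, hei]
                rw [h2]
                exact Finset.sum_le_sum_of_subset_of_nonneg (Finset.subset_univ _)
                  fun _ _ _ => Finset.sum_nonneg fun _ _ => Nat.cast_nonneg _
        have h3 := hcnt n
        have h4 : min (c / lam) 1 * lam ^ (n + 1) ≤ c * lam ^ n := by
          have h5 : min (c / lam) 1 * lam ^ (n + 1) ≤ c / lam * lam ^ (n + 1) :=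
            mul_le_mul_of_nonneg_right (min_le_left _ _) (pow_nonneg hlam.le _)
          have h6 : c / lam * lam ^ (n + 1) = c * lam ^ n := by
            rw [pow_succ]; field_simp
          linarith
        linarith
  · intro e e'
    obtain ⟨_, k, _, hk⟩ := hB
    apply legal_of_pow (lineF B) (k + 1) e e'
    rw [lineF_apply]
    exact (hk _ _).ne'

variable {a b : ℕ} {A : Matrix (Fin a) (Fin a) ℕ} {B : Matrix (Fin b) (Fin b) ℕ}

theorem exists_winOf (hA : IsPrimitive A) {p : ℕ} (w : Win A p) :
    ∃ x : edgeShift A, winOf p x.1 x.2 0 = w := by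
  obtain ⟨x, hx, h⟩ := exists_extend hA (p + 1) w.1 fun i hi => w.2 _ _ rfl
  refine ⟨⟨x, hx⟩, Subtype.ext (funext fun k => ?_)⟩
  show x (0 + ((k : ℕ) : ℤ)) = w.1 k
  rw [zero_add, h]

/-- the label of a window -/
theorem exists_label (hA : IsPrimitive A) {φ : edgeShift A → edgeShift B} (hφ : IsFactorCode φ)
    {N : ℕ} (hN : Window φ N) : ∃ π : Win A (2 * N) → Edge B, ∀ (x : edgeShift A) (i : ℤ),
      π (winOf (2 * N) x.1 x.2 i) = (φ x).1 (i + N) := by
  choose g hg using fun w : Win A (2 * N) => exists_winOf hA w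
  refine ⟨fun w => (φ (g w)).1 N, fun x i => ?_⟩
  have h1 : (φ (g (winOf (2 * N) x.1 x.2 i))).1 (N : ℤ) = (φ (trans x i)).1 (N : ℤ) := by
    refine hN _ _ _ fun j hj hj' => ?_
    have h2 := congrFun (congrArg Subtype.val (hg (winOf (2 * N) x.1 x.2 i)))
      ⟨j.toNat, by omega⟩
    have h3 : (g (winOf (2 * N) x.1 x.2 i)).1 (0 + ((j.toNat : ℕ) : ℤ)) =
      x.1 (i + ((j.toNat : ℕ) : ℤ)) := h2
    rw [Int.toNat_of_nonneg (by omega), zero_add] at h3
    rw [h3, trans_apply]
    exact congrArg x.1 (by ring)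
  refine h1.trans ?_
  rw [commutes_trans hφ, trans_apply]
  exact congrArg (φ x).1 (by ring)

theorem gcover_label (hA : IsPrimitive A) (hB : IsPrimitive B)
    (hent : ∃ h, HasEntropy (edgeShift A) h ∧ HasEntropy (edgeShift B) h)
    {φ : edgeShift A → edgeShift B} (hφ : IsFactorCode φ) {N : ℕ}
    {π : Win A (2 * N) → Edge B} (hπ : ∀ (x : edgeShift A) (i : ℤ),
      π (winOf (2 * N) x.1 x.2 i) = (φ x).1 (i + N)) : GCover (winE A (2 * N)) π (lineF B) := by
  classical
  refine gcover_of hA hB hent π ?_ ?_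
  · intro u v huv
    have hov : Ov 1 u v := by
      by_contra hn
      exact huv (if_neg hn)
    obtain ⟨x, hx, h0, h1⟩ := exists_point hA hov
    have h2 := (φ ⟨x, hx⟩).2 (0 + N)
    have h3 : tgt (π u) = src (π v) := by
      rw [← h0, ← h1, hπ ⟨x, hx⟩ 0, hπ ⟨x, hx⟩ 1, h2]
      exact congrArg (fun j => src ((φ ⟨x, hx⟩).1 j)) (by ring)
    rw [lineF, if_pos h3]
    exact one_ne_zero
  · intro e l hl
    obtain ⟨y, hy, hyl⟩ := exists_extend hB (e :: l).length (fun k => (e :: l)[k])
      (fun i h => legal_path hl i h)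
    obtain ⟨x, hx⟩ := hφ.surjective (trans ⟨y, hy⟩ (-N))
    have h1 : ∀ i : ℤ, π (winOf (2 * N) x.1 x.2 i) = y i := by
      intro i
      rw [hπ, hx, trans_apply]
      exact congrArg y (by ring)
    have h2 := mat_winOf π x.1 x.2 l e 0 (by
      rw [h1]
      have h3 := hyl ⟨0, by simp⟩
      simpa using h3) (fun k hk => by
      rw [h1]
      have h3 := hyl ⟨k + 1, by simpa using hk⟩
      simp only [Fin.getElem_fin, List.getElem_cons_succ] at h3
      rw [← h3]
      congr 1
      push_cast
      ring)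
    intro h3
    rw [h3] at h2
    exact h2 rfl

/-- equal entropy: no pairs -/
theorem no_pair_of_ent (hA : IsPrimitive A) (hB : IsPrimitive B)
    (hent : ∃ h, HasEntropy (edgeShift A) h ∧ HasEntropy (edgeShift B) h)
    {φ : edgeShift A → edgeShift B} (hφ : IsFactorCode φ) : ¬ Pair φ := by
  classical
  rintro ⟨x, x', s, t, hst, hne, h1, h2, heq⟩
  obtain ⟨N, hN0, hN⟩ := exists_win hφ
  obtain ⟨π, hπ⟩ := exists_label hA hφ hN
  have hG := gcover_label hA hB hent hφ hπ
  apply hne
  let i0 : ℤ := s - 2 * N - 1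
  have hE : ∀ (x : edgeShift A) (k : ℕ), winE A (2 * N) (winOf (2 * N) x.1 x.2 (i0 + k))
      (winOf (2 * N) x.1 x.2 (i0 + ((k + 1 : ℕ) : ℤ))) ≠ 0 := by
    intro x k
    have h3 : i0 + ((k + 1 : ℕ) : ℤ) = i0 + k + 1 := by push_cast; ring
    rw [h3]
    have h4 : winE A (2 * N) (winOf (2 * N) x.1 x.2 (i0 + k))
      (winOf (2 * N) x.1 x.2 (i0 + k + 1)) = 1 := if_pos (ov_winOf x.1 x.2 _)
    rw [h4]
    exact one_ne_zero
  have hends : ∀ i : ℤ, (i + 2 * N < s ∨ t ≤ i) →
      winOf (2 * N) x.1 x.2 i = winOf (2 * N) x'.1 x'.2 i := by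
    intro i hi
    apply Subtype.ext
    funext k
    show x.1 (i + ((k : ℕ) : ℤ)) = x'.1 (i + ((k : ℕ) : ℤ))
    have hk := k.2
    rcases hi with hi | hi
    · exact h1 _ (by omega)
    · exact h2 _ (by omega)
  have hm : ((t - i0).toNat : ℤ) = t - i0 := Int.toNat_of_nonneg (by omega)
  have key := lift_unique hG.diam (w := fun k => winOf (2 * N) x.1 x.2 (i0 + (k : ℕ)))
    (w' := fun k => winOf (2 * N) x'.1 x'.2 (i0 + (k : ℕ))) (m := (t - i0).toNat)
    (fun k _ => hE x k) (fun k _ => hE x' k) (fun k _ => by rw [hπ, hπ, heq])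
    (hends _ (by left; push_cast; omega)) (hends _ (by right; omega))
  apply Subtype.ext
  funext i
  rcases lt_or_ge i s with h3 | h3
  · exact h1 i h3
  · rcases lt_or_ge i t with h4 | h4
    · have h5 := key (i - i0).toNat (by omega)
      have h6 : i0 + (((i - i0).toNat : ℕ) : ℤ) = i := by
        rw [Int.toNat_of_nonneg (by omega)]
        ring
      simp only [h6] at h5
      have h7 := congrFun (congrArg Subtype.val h5) 0
      have h8 : x.1 (i + (((0 : Fin (2 * N + 1)) : ℕ) : ℤ)) =
        x'.1 (i + (((0 : Fin (2 * N + 1)) : ℕ) : ℤ)) := h7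
      simpa using h8
    · exact h2 i h4

end Pool.Agent.DEC.Fn
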