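import Mathlib

/-!
# Deciding finite-to-one factor codes between mixing shifts of finite type (MP_59dda0_an)

The statement of the final theorem in the words of the problem: the input is a pair of finite
alphabets and finite lists of forbidden words.
-/

set_option autoImplicit false

namespace Pool.Agent.DEC

/-- A finite presentation of a shift of finite type: the size of the alphabet
`{0, ..., a - 1}` and the list of the forbidden words. -/
abbrev Pres : Type := ℕ × List (List ℕ)

/-- The word `w` occurs in `x` at the place `i`. -/
def OccursAt {a : ℕ} (w : List ℕ) (x : ℤ → Fin a) (i : ℤ) : Prop :=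
  ∀ (k : ℕ) (h : k < w.length), (x (i + k) : ℕ) = w[k]

/-- The shift of finite type presented by `P`: the sequences in which no forbidden word occurs. -/
def sft (P : Pres) : Set (ℤ → Fin P.1) :=
  {x | ∀ w ∈ P.2, ∀ i : ℤ, ¬ OccursAt w x i}

/-- The shift map. -/
def shift {α : Type} (x : ℤ → α) : ℤ → α := fun i => x (i + 1)

/-- `X` is mixing: for all nonempty (relatively) open subsets `X ∩ U`, `X ∩ V` there is `N` such
that for all `n ≥ N` the `n`-th image of `X ∩ U` under the shift meets `X ∩ V`. -/
def IsMixing {α : Type} [TopologicalSpace α] (X : Set (ℤ → α)) : Prop :=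
  ∀ U V : Set (ℤ → α), IsOpen U → IsOpen V → (X ∩ U).Nonempty → (X ∩ V).Nonempty →
    ∃ N : ℕ, ∀ n ≥ N, ((shift^[n] '' (X ∩ U)) ∩ (X ∩ V)).Nonempty

/-- A factor code from `X` onto `Y`: continuous, surjective and shift commuting (if `x'` is the
shift of `x` then `φ x'` is the shift of `φ x`). -/
structure IsFactorCode {α β : Type} [TopologicalSpace α] [TopologicalSpace β]
    {X : Set (ℤ → α)} {Y : Set (ℤ → β)} (φ : X → Y) : Prop where
  continuous : Continuous φ
  surjective : Function.Surjective φ
  commutes : ∀ x x' : X, x'.1 = shift x.1 → (φ x').1 = shift (φ x).1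

/-- There is a finite-to-one factor code from `X` onto `Y`. -/
def FiniteFactor {α β : Type} [TopologicalSpace α] [TopologicalSpace β]
    (X : Set (ℤ → α)) (Y : Set (ℤ → β)) : Prop :=
  ∃ φ : X → Y, IsFactorCode φ ∧ ∀ y : Y, {x : X | φ x = y}.Finite

/-- The final theorem: there is a total computable function which decides, for every pair of
presentations of mixing shifts of finite type, whether a finite-to-one factor code exists. -/
def FinalStatement : Prop :=
  ∃ f : Pres × Pres → Bool, Computable f ∧
    ∀ P Q : Pres, IsMixing (sft P) → IsMixing (sft Q) →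
      (f (P, Q) = true ↔ FiniteFactor (sft P) (sft Q))

end Pool.Agent.DEC
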