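import Pool.Agent.DEC.FinC
import Pool.Agent.DEC.Stmt

/-!
# DEC, finite-to-one factor codes: no pairs implies equal entropy; the final equivalence
-/

set_option autoImplicit false

open Filter Topology Matrix

namespace Pool.Agent.DEC.Fn

variable {a b : ℕ} {A : Matrix (Fin a) (Fin a) ℕ} {B : Matrix (Fin b) (Fin b) ℕ}

section count

open Pool.Agent.FT

theorem exists_pt (hA : FT.IsPrimitive A) : ∃ _ : edgeShift A, True := by
  obtain ⟨x, hx, _⟩ := exists_extend hA 0 (fun i => i.elim0) fun i hi => absurd hi (Nat.not_lt_zero _)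
  exact ⟨⟨x, hx⟩, trivial⟩

/-- the words of length `n` -/
def words {α : Type} (X : Set (ℤ → α)) (n : ℕ) : Set (Fin n → α) :=
  {w | ∃ x ∈ X, ∀ i : Fin n, w i = x (i : ℕ)}

theorem exists_lift_word (hA : FT.IsPrimitive A) (n : ℕ) :
    ∃ g : (Fin n → Edge A) → edgeShift A, ∀ v ∈ words (edgeShift A) n,
      ∀ i : Fin n, v i = (g v).1 (i : ℕ) := by
  classical
  obtain ⟨x0, _⟩ := exists_pt hA
  have h : ∀ v : Fin n → Edge A, ∃ x : edgeShift A, v ∈ words (edgeShift A) n →
      ∀ i : Fin n, v i = x.1 (i : ℕ) := by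
    intro v
    by_cases hv : v ∈ words (edgeShift A) n
    · obtain ⟨x, hx, h⟩ := hv
      exact ⟨⟨x, hx⟩, fun _ => h⟩
    · exact ⟨x0, fun h => absurd h hv⟩
  choose g hg using h
  exact ⟨g, hg⟩

/-- words of the image are images of words -/
theorem count_le (hB : FT.IsPrimitive B) {φ : edgeShift A → edgeShift B}
    (hφ : FT.IsFactorCode φ) {N : ℕ} (hN : Window φ N) (n : ℕ) :
    blockCount (edgeShift B) n ≤ blockCount (edgeShift A) (n + 2 * N) := by
  classical
  obtain ⟨g, hg⟩ := exists_lift_word hB n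
  choose f hf using fun w : Fin n → Edge B => hφ.surjective (trans (g w) (-N))
  refine Set.ncard_le_ncard_of_injOn (fun w => fun i : Fin (n + 2 * N) => (f w).1 (i : ℕ))
    (fun w _ => ⟨(f w).1, (f w).2, fun i => rfl⟩) ?_ (Set.toFinite _)
  intro w hw w' hw' heq
  funext k
  rw [hg w hw k, hg w' hw' k]
  have h1 : (φ (f w)).1 (k + N : ℤ) = (φ (f w')).1 (k + N : ℤ) := by
    refine hN _ _ _ fun i hi hi' => ?_
    have h2 := congrFun heq ⟨i.toNat, by have := k.2; omega⟩
    simp only at h2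
    rwa [Int.toNat_of_nonneg (by omega)] at h2
  rw [hf, hf, trans_apply, trans_apply, add_neg_cancel_right] at h1
  exact h1

/-- without pairs, a word is determined by its image and its ends -/
theorem count_ge (hA : FT.IsPrimitive A) {φ : edgeShift A → edgeShift B}
    {N : ℕ} (hN0 : 0 < N) (hN : Window φ N) (hp : ¬ Pair φ) (n : ℕ) :
    blockCount (edgeShift A) (n + 2 * N) ≤ blockCount (edgeShift B) n *
      Nat.card ((Fin (2 * N) → Edge A) × (Fin (2 * N) → Edge A)) := by
  classical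
  obtain ⟨g, hg⟩ := exists_lift_word hA (n + 2 * N)
  have h0 : (words (edgeShift B) n ×ˢ
      (Set.univ : Set ((Fin (2 * N) → Edge A) × (Fin (2 * N) → Edge A)))).ncard =
      blockCount (edgeShift B) n * Nat.card ((Fin (2 * N) → Edge A) × (Fin (2 * N) → Edge A)) := by
    rw [Set.ncard_prod, Set.ncard_univ]
    rfl
  rw [← h0]
  refine Set.ncard_le_ncard_of_injOn (fun v => (fun k : Fin n => (φ (g v)).1 (k + N : ℤ),
    (fun k : Fin (2 * N) => v ⟨k, by omega⟩, fun k : Fin (2 * N) => v ⟨n + k, by omega⟩)))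
    (fun v _ => ⟨⟨(trans (φ (g v)) N).1, (trans (φ (g v)) N).2, fun k => rfl⟩, Set.mem_univ _⟩)
    ?_ (Set.toFinite _)
  intro v hv v' hv' heq
  simp only [Prod.mk.injEq] at heq
  obtain ⟨h1, h2, h3⟩ := heq
  have hx := hg v hv
  have hx' := hg v' hv'
  have e1 : ∀ i : ℕ, i < 2 * N → (g v).1 i = (g v').1 i := by
    intro i hi
    have h4 := congrFun h2 ⟨i, hi⟩
    simp only at h4
    rw [hx, hx'] at h4
    exact h4
  have e2 : ∀ i : ℕ, n ≤ i → i < n + 2 * N → (g v).1 i = (g v').1 i := by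
    intro i hi hi'
    have h4 := congrFun h3 ⟨i - n, by omega⟩
    simp only at h4
    rw [hx, hx'] at h4
    simp only [Nat.add_sub_cancel' hi] at h4
    exact h4
  funext k
  rw [hx, hx']
  by_cases hk1 : (k : ℕ) < 2 * N
  · exact e1 _ hk1
  by_cases hk2 : n ≤ (k : ℕ)
  · exact e2 _ hk2 k.2
  obtain ⟨z, hz1, hz2, hz3⟩ := exists_glue hN0 hN (g v) (g v') (s := 2 * N) (t := n) (by omega)
    (fun i hi hi' => by
      have h4 := e1 i.toNat (by omega)
      rwa [Int.toNat_of_nonneg (by omega)] at h4)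
    (fun i hi hi' => by
      have h4 := e2 i.toNat (by omega) (by omega)
      rwa [Int.toNat_of_nonneg (by omega)] at h4)
  by_contra hne
  apply hp
  refine ⟨g v, z, 2 * N, n, by omega, ?_, fun i hi => (hz2 i (Or.inl hi)).symm,
    fun i hi => (hz2 i (Or.inr hi)).symm, ?_⟩
  · intro hgz
    apply hne
    rw [hgz]
    exact hz1 _ (by omega) (by omega)
  · apply Subtype.ext
    funext j
    rcases hz3 j with h4 | h4
    · exact h4.1.symm
    · rw [h4.1]
      have h5 := congrFun h1 ⟨(j - N).toNat, by omega⟩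
      simp only at h5
      rw [Int.toNat_of_nonneg (by omega), sub_add_cancel] at h5
      exact h5

theorem le_of_pow_le {x y C : ℝ} (hx : 0 < x) (hy : 0 < y) (hC : 0 < C)
    (h : ∀ n : ℕ, 0 < n → x ^ n ≤ C * y ^ n) : x ≤ y := by
  by_contra hcon
  push Not at hcon
  have h1 : Tendsto (fun k : ℕ => (y / x) ^ k) atTop (𝓝 0) :=
    tendsto_pow_atTop_nhds_zero_of_lt_one (div_nonneg hy.le hx.le) ((div_lt_one hx).2 hcon)
  obtain ⟨k, hk, hk0⟩ := ((h1.eventually_lt_const (inv_pos.2 hC)).and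
    (eventually_gt_atTop 0)).exists
  have h2 := h k hk0
  rw [div_pow, div_lt_iff₀ (pow_pos hx k), inv_mul_eq_div, lt_div_iff₀ hC] at hk
  linarith

/-- no pairs: equal entropy -/
theorem ent_of_no_pair (hA : FT.IsPrimitive A) (hB : FT.IsPrimitive B)
    {φ : edgeShift A → edgeShift B} (hφ : FT.IsFactorCode φ) (hp : ¬ Pair φ) :
    ∃ h, HasEntropy (edgeShift A) h ∧ HasEntropy (edgeShift B) h := by
  obtain ⟨N, hN0, hN⟩ := exists_win hφ
  obtain ⟨lam, C, r, hlam, hC, _, _, hbA⟩ := perron_bounds hA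
  obtain ⟨mu, C', s, hmu, hC', _, _, hbB⟩ := perron_bounds hB
  have hcA : ∀ n, 0 < n → (blockCount (edgeShift A) n : ℝ) = ∑ i, ∑ j, (((A ^ n) i j : ℕ) : ℝ) := by
    intro n hn
    rw [blockCount_edgeShift hA hn]
    push_cast
    rfl
  have hcB : ∀ n, 0 < n → (blockCount (edgeShift B) n : ℝ) = ∑ i, ∑ j, (((B ^ n) i j : ℕ) : ℝ) := by
    intro n hn
    rw [blockCount_edgeShift hB hn]
    push_cast
    rfl
  have h1 : mu ≤ lam := by
    refine le_of_pow_le (C := C * lam ^ (2 * N)) hmu hlam (mul_pos hC (pow_pos hlam _))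
      fun n hn => ?_
    have h2 : (blockCount (edgeShift B) n : ℝ) ≤ blockCount (edgeShift A) (n + 2 * N) := by
      exact_mod_cast count_le hB hφ hN n
    rw [hcB n hn, hcA _ (by omega)] at h2
    have h3 := (hbB n).1
    have h4 := (hbA (n + 2 * N)).2
    rw [pow_add lam n (2 * N)] at h4
    linarith
  have h2 : lam ≤ mu := by
    have hK : 0 ≤ (Nat.card ((Fin (2 * N) → Edge A) × (Fin (2 * N) → Edge A)) : ℝ) :=
      Nat.cast_nonneg _
    set K : ℝ := (Nat.card ((Fin (2 * N) → Edge A) × (Fin (2 * N) → Edge A)) : ℝ) with hKdef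
    have hl : 0 < lam ^ (2 * N) := pow_pos hlam _
    refine le_of_pow_le (C := C' * (K + 1) / lam ^ (2 * N)) hlam hmu
      (div_pos (mul_pos hC' (by linarith)) hl) fun n hn => ?_
    have h2 : (blockCount (edgeShift A) (n + 2 * N) : ℝ) ≤ blockCount (edgeShift B) n * K := by
      rw [hKdef]
      exact_mod_cast count_ge hA hN0 hN hp n
    rw [hcB n hn, hcA _ (by omega)] at h2
    have h3 := (hbA (n + 2 * N)).1
    have h4 := (hbB n).2
    have h5 : (∑ i, ∑ j, (((B ^ n) i j : ℕ) : ℝ)) * K ≤ C' * mu ^ n * (K + 1) := by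
      have h6 : (∑ i, ∑ j, (((B ^ n) i j : ℕ) : ℝ)) * K ≤ C' * mu ^ n * K :=
        mul_le_mul_of_nonneg_right h4 hK
      have h7 : 0 ≤ C' * mu ^ n := mul_nonneg hC'.le (pow_nonneg hmu.le _)
      nlinarith
    rw [pow_add lam n (2 * N)] at h3
    rw [div_mul_eq_mul_div, le_div_iff₀ hl]
    linarith
  obtain rfl := le_antisymm h1 h2
  exact ⟨_, hasEntropy_log hA hlam hC hbA, hasEntropy_log hB hmu hC' hbB⟩

/-- **finite-to-one factor codes**: a factor code has finite fibres if and only if the entropies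
are equal -/
theorem finite_iff_ent (hA : FT.IsPrimitive A) (hB : FT.IsPrimitive B)
    {φ : edgeShift A → edgeShift B} (hφ : FT.IsFactorCode φ) :
    (∀ y, {x | φ x = y}.Finite) ↔
      ∃ h, HasEntropy (edgeShift A) h ∧ HasEntropy (edgeShift B) h :=
  ⟨fun h => ent_of_no_pair hA hB hφ (no_pair_of_finite hA hφ h),
    fun h => finite_of_no_pair hφ (no_pair_of_ent hA hB h hφ)⟩

theorem finite_iff (hA : FT.IsPrimitive A) (hB : FT.IsPrimitive B) :
    (∃ φ : edgeShift A → edgeShift B, FT.IsFactorCode φ ∧ ∀ y, {x | φ x = y}.Finite) ↔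
      (∃ h, HasEntropy (edgeShift A) h ∧ HasEntropy (edgeShift B) h) ∧
        ∃ φ : edgeShift A → edgeShift B, FT.IsFactorCode φ := by
  constructor
  · rintro ⟨φ, hφ, hfin⟩
    exact ⟨(finite_iff_ent hA hB hφ).1 hfin, φ, hφ⟩
  · rintro ⟨hent, φ, hφ⟩
    exact ⟨φ, hφ, (finite_iff_ent hA hB hφ).2 hent⟩

end count

/-- the two definitions of factor codes -/
theorem isFactorCode_iff {α β : Type} [TopologicalSpace α] [TopologicalSpace β] {X : Set (ℤ → α)}
    {Y : Set (ℤ → β)} (φ : X → Y) : IsFactorCode φ ↔ FT.IsFactorCode φ := by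
  constructor
  · intro h
    exact ⟨h.continuous, h.surjective, fun x x' hx i =>
      congrFun (h.commutes x x' (funext hx)) i⟩
  · intro h
    exact ⟨h.continuous, h.surjective, fun x x' hx =>
      funext (h.commutes x x' fun i => congrFun hx i)⟩

/-- **finite-to-one factor codes between edge shifts of primitive matrices** exist if and only if
the entropies are equal and there is a factor code -/
theorem finiteFactor_iff (hA : FT.IsPrimitive A) (hB : FT.IsPrimitive B) :
    FiniteFactor (FT.edgeShift A) (FT.edgeShift B) ↔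
      (∃ h, FT.HasEntropy (FT.edgeShift A) h ∧ FT.HasEntropy (FT.edgeShift B) h) ∧
        ∃ φ : FT.edgeShift A → FT.edgeShift B, FT.IsFactorCode φ := by
  rw [← finite_iff hA hB]
  unfold FiniteFactor
  simp only [isFactorCode_iff]

end Pool.Agent.DEC.Fn
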