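import Pool.Agent.DEC.PRef
import Pool.Agent.DEC.UPoly

/-!
DEC project (MP_59dda0_an), P side: valid codes of reference data, with the constant of the box
lemma.
-/

set_option autoImplicit false

open Matrix Polynomial

namespace Pool.Agent.DEC.PRefQ

open PD PolyC PLam PSide PRef

/-- the constant of the box lemma -/
def qf (g : ℤ[X]) : ℕ :=
  let d := g.natDegree
  let H := 1 + ∑ i ∈ Finset.range d, (g.coeff i).natAbs
  Nat.factorial ((16 * d * H ^ d) ^ d)

theorem qf_eq (g : ℤ[X]) : qf g = UB.uQ (UB.HB g) g.natDegree := rfl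

theorem qf_pos (g : ℤ[X]) : 0 < qf g := Nat.factorial_pos _

theorem qf_monP (G : List ℤ) : qf (monP G) = qOfC G := by
  unfold qf qOfC
  have h1 : (monP G).natDegree = G.length := monP_natDegree G
  have h2 : ∑ i ∈ Finset.range (monP G).natDegree, ((monP G).coeff i).natAbs =
      ∑ i ∈ Finset.range G.length, (G.getD i 0).natAbs := by
    rw [h1]
    refine Finset.sum_congr rfl fun i hi => ?_
    rw [coeff_eq (G := G) rfl (Finset.mem_range.1 hi)]
  simp only [h1]
  rw [← h2, h1]

theorem qprin_qf (g : ℤ[X]) (hg : g.Monic) (hirr : Irreducible g) :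
    QPrin (Lam g) ((qf g : ℕ) : Lam g) :=
  UB.qPrin_of hg hirr (qf_pos g) (dvd_refl _)

/-- **valid codes** -/
theorem valid_iff {a b : ℕ} {LA LB : IM} {c : RC} :
    Valid a b LA LB c ↔
    ∃ ρ : Ref (natMat a a LA) (natMat b b LB), Codes c ρ ∧ ∀ i, qf (ρ.g i) ∣ ρ.q :=
  PRef.valid_iff qf_monP qprin_qf

end Pool.Agent.DEC.PRefQ
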