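import Mathlib

/-!
`ℚ[X] → ∏ K_i[Y]/Y^h`, `X ↦ θ_i + Y`, is onto (`θ_i` generators of number fields with distinct
minimal polynomials), and the operator form of this statement.
-/

set_option autoImplicit false

open Polynomial

namespace Pool.Agent.DEC.Hens

section one

variable {K : Type*} [Field K] [Algebra ℚ K]

/-- the substitution `X ↦ X + θ` -/
noncomputable def sh (θ : K) : ℚ[X] →ₐ[ℚ] K[X] := aeval (X + C θ : K[X])

theorem sh_eq (θ : K) (F : ℚ[X]) :
    sh θ F = (F.map (algebraMap ℚ K)).comp (X + C θ) := by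
  rw [sh, aeval_def, comp, eval₂_map]
  rfl

theorem sh_X (θ : K) : sh θ X = X + C θ := by simp [sh]

theorem coeff_zero_sh (θ : K) (F : ℚ[X]) : (sh θ F).coeff 0 = aeval θ F := by
  rw [coeff_zero_eq_eval_zero, sh_eq, eval_comp, eval_map_algebraMap]
  simp

theorem sh_dvd (θ : K) {a b : ℚ[X]} (hab : a ∣ b) : sh θ a ∣ sh θ b := by
  obtain ⟨c, rfl⟩ := hab
  exact ⟨sh θ c, map_mul (sh θ) a c⟩

/-- `p (θ + X)` is divisible by `X` -/
theorem X_dvd_sh (θ : K) {F : ℚ[X]} (hF : aeval θ F = 0) : (X : K[X]) ∣ sh θ F := by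
  rw [X_dvd_iff, coeff_zero_sh, hF]

theorem X_pow_dvd_sh (θ : K) {F : ℚ[X]} (hF : aeval θ F = 0) (h : ℕ) :
    (X : K[X]) ^ h ∣ sh θ (F ^ h) := by
  rw [map_pow]
  exact pow_dvd_pow_of_dvd (X_dvd_sh θ hF) h

/-- Newton: a polynomial `F` with `p ^ h ∣ p (F)` and `X - F` nilpotent modulo `p ^ h` -/
theorem newton (p : ℚ[X]) (hsep : IsCoprime p (derivative p)) (h : ℕ) :
    ∃ F : ℚ[X], p ^ h ∣ p.comp F ∧ ∃ m : ℕ, p ^ h ∣ (X - F) ^ m := by
  have h1 : IsNilpotent (aeval (AdjoinRoot.root (p ^ h)) p) := by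
    refine ⟨h, ?_⟩
    rw [AdjoinRoot.aeval_eq, ← map_pow, AdjoinRoot.mk_eq_zero]
  have h2 : IsUnit (aeval (AdjoinRoot.root (p ^ h)) (derivative p)) := by
    rw [AdjoinRoot.aeval_eq]
    obtain ⟨u, v, huv⟩ := (hsep.symm.pow_right : IsCoprime (derivative p) (p ^ h))
    have : AdjoinRoot.mk (p ^ h) (derivative p) * AdjoinRoot.mk (p ^ h) u = 1 := by
      rw [← map_mul, ← map_one (AdjoinRoot.mk (p ^ h)), AdjoinRoot.mk_eq_mk]
      exact ⟨-v, by linear_combination huv⟩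
    exact IsUnit.of_mul_eq_one _ this
  obtain ⟨r, ⟨hr1, hr2⟩, -⟩ := existsUnique_nilpotent_sub_and_aeval_eq_zero h1 h2
  obtain ⟨F, rfl⟩ := AdjoinRoot.mk_surjective r
  refine ⟨F, ?_, ?_⟩
  · have : aeval (AdjoinRoot.mk (p ^ h) F) p = AdjoinRoot.mk (p ^ h) (p.comp F) := by
      have : aeval (AdjoinRoot.mk (p ^ h) F) p = (AdjoinRoot.mkₐ (p ^ h)) (aeval F p) := by
        rw [← aeval_algHom_apply]
        rfl
      rw [this, comp_eq_aeval]
      rfl
    rw [this, AdjoinRoot.mk_eq_zero] at hr2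
    exact hr2
  · obtain ⟨m, hm⟩ := hr1
    refine ⟨m, ?_⟩
    rw [← AdjoinRoot.mk_eq_zero, map_pow, map_sub, AdjoinRoot.mk_X]
    exact hm

theorem exists_theta_aux {θ : K} {p : ℚ[X]} (hirr : Irreducible p)
    (hsep : IsCoprime p (derivative p)) (hroot : aeval θ p = 0)
    (hroot' : aeval θ (derivative p) ≠ 0) {h : ℕ} (hpos : 0 < h) :
    ∃ F : ℚ[X], (X : K[X]) ^ h ∣ sh θ F - C θ := by
  obtain ⟨F, h3, m, hm⟩ := newton p hsep h
  have h4 : p ∣ X - F := hirr.prime.dvd_of_dvd_pow ((dvd_pow_self p hpos.ne').trans hm)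
  refine ⟨F, ?_⟩
  have h5 : (X : K[X]) ^ h ∣ sh θ (p.comp F) :=
    (X_pow_dvd_sh θ hroot h).trans (sh_dvd θ h3)
  have h6 : (X : K[X]) ∣ sh θ F - C θ := by
    have h7 : (X : K[X]) ∣ sh θ (X - F) := (X_dvd_sh θ hroot).trans (sh_dvd θ h4)
    rw [map_sub, sh_X] at h7
    have h8 : sh θ F - C θ = X - (X + C θ - sh θ F) := by ring
    rw [h8]
    exact dvd_sub_self_left.mpr h7
  obtain ⟨k, hk⟩ := binomExpansion (p.map (algebraMap ℚ K[X])) (C θ) (sh θ F - C θ)
  have h9 : (p.map (algebraMap ℚ K[X])).eval (C θ + (sh θ F - C θ)) = sh θ (p.comp F) := by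
    rw [eval_map_algebraMap, add_sub_cancel, comp_eq_aeval, aeval_algHom_apply]
  have h10 : (p.map (algebraMap ℚ K[X])).eval (C θ) = 0 := by
    rw [eval_map_algebraMap]
    have := aeval_algebraMap_apply K[X] θ p
    rw [hroot, map_zero] at this
    exact this
  have h11 : ((p.map (algebraMap ℚ K[X])).derivative).eval (C θ)
      = C (aeval θ (derivative p)) := by
    rw [derivative_map, eval_map_algebraMap]
    exact aeval_algebraMap_apply K[X] θ (derivative p)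
  rw [h9, h10, h11, zero_add] at hk
  have h12 : sh θ (p.comp F) =
      (C (aeval θ (derivative p)) + k * (sh θ F - C θ)) * (sh θ F - C θ) := by
    rw [hk]; ring
  rw [h12] at h5
  have h14 : IsCoprime ((X : K[X]) ^ h) (C (aeval θ (derivative p)) + k * (sh θ F - C θ)) := by
    apply IsCoprime.pow_left
    rw [(prime_X : Prime (X : K[X])).irreducible.coprime_iff_not_dvd]
    intro hd
    have : (X : K[X]) ∣ C (aeval θ (derivative p)) := by
      have h15 := dvd_sub hd (h6.mul_left k)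
      rwa [add_sub_cancel_right] at h15
    rw [X_dvd_iff, coeff_C_zero] at this
    exact hroot' this
  exact h14.dvd_of_dvd_mul_left h5

/-- a polynomial in `x` which is `θ` modulo `Y ^ h` -/
theorem exists_theta {θ : K} (hint : IsIntegral ℚ θ) (h : ℕ) :
    ∃ F : ℚ[X], (X : K[X]) ^ h ∣ sh θ F - C θ := by
  rcases Nat.eq_zero_or_pos h with rfl | hpos
  · exact ⟨0, by simp⟩
  have hirr : Irreducible (minpoly ℚ θ) := minpoly.irreducible hint
  exact exists_theta_aux hirr hirr.separable (minpoly.aeval ℚ θ)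
    (hirr.separable.aeval_derivative_ne_zero (minpoly.aeval ℚ θ)) hpos

/-- one field: the map is onto -/
theorem onto_one {θ : K} (hint : IsIntegral ℚ θ)
    (hgen : Function.Surjective (aeval θ : ℚ[X] → K)) (h : ℕ) (g : K[X]) :
    ∃ F : ℚ[X], (X : K[X]) ^ h ∣ sh θ F - g := by
  obtain ⟨T, hT⟩ := exists_theta hint h
  have hC : ∀ c : K, ∃ F : ℚ[X], (X : K[X]) ^ h ∣ sh θ F - C c := by
    intro c
    obtain ⟨q, rfl⟩ := hgen c
    refine ⟨q.comp T, ?_⟩
    have h1 : sh θ (q.comp T) = (q.map (algebraMap ℚ K[X])).eval (sh θ T) := by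
      rw [eval_map_algebraMap, comp_eq_aeval, aeval_algHom_apply]
    have h2 : C (aeval θ q) = (q.map (algebraMap ℚ K[X])).eval (C θ) := by
      rw [eval_map_algebraMap]
      exact (aeval_algebraMap_apply K[X] θ q).symm
    rw [h1, h2]
    exact hT.trans (sub_dvd_eval_sub _ _ _)
  have hX : ∃ F : ℚ[X], (X : K[X]) ^ h ∣ sh θ F - X := by
    refine ⟨X - T, ?_⟩
    rw [map_sub, sh_X]
    have : X + C θ - sh θ T - X = -(sh θ T - C θ) := by ring
    rw [this]
    exact (dvd_neg).mpr hT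
  have hmul : ∀ g₁ g₂ : K[X], (∃ F : ℚ[X], (X : K[X]) ^ h ∣ sh θ F - g₁) →
      (∃ F : ℚ[X], (X : K[X]) ^ h ∣ sh θ F - g₂) →
      (∃ F : ℚ[X], (X : K[X]) ^ h ∣ sh θ F - g₁ * g₂) := by
    rintro g₁ g₂ ⟨F₁, h₁⟩ ⟨F₂, h₂⟩
    refine ⟨F₁ * F₂, ?_⟩
    have : sh θ (F₁ * F₂) - g₁ * g₂ =
        (sh θ F₁ - g₁) * sh θ F₂ + g₁ * (sh θ F₂ - g₂) := by
      rw [map_mul]; ring
    rw [this]
    exact dvd_add (h₁.mul_right _) (h₂.mul_left _)
  have hadd : ∀ g₁ g₂ : K[X], (∃ F : ℚ[X], (X : K[X]) ^ h ∣ sh θ F - g₁) →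
      (∃ F : ℚ[X], (X : K[X]) ^ h ∣ sh θ F - g₂) →
      (∃ F : ℚ[X], (X : K[X]) ^ h ∣ sh θ F - (g₁ + g₂)) := by
    rintro g₁ g₂ ⟨F₁, h₁⟩ ⟨F₂, h₂⟩
    refine ⟨F₁ + F₂, ?_⟩
    have : sh θ (F₁ + F₂) - (g₁ + g₂) = (sh θ F₁ - g₁) + (sh θ F₂ - g₂) := by
      rw [map_add]; ring
    rw [this]
    exact dvd_add h₁ h₂
  have hpow : ∀ n : ℕ, ∃ F : ℚ[X], (X : K[X]) ^ h ∣ sh θ F - X ^ n := by
    intro n
    induction n with
    | zero => exact ⟨1, by simp⟩
    | succ n ih => rw [pow_succ]; exact hmul _ _ ih hX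
  induction g using Polynomial.induction_on' with
  | add p q hp hq => exact hadd p q hp hq
  | monomial n a =>
    rw [← C_mul_X_pow_eq_monomial]
    exact hmul _ _ (hC a) (hpow n)

end one

section many

variable {ι : Type*} [Fintype ι] [DecidableEq ι] {K : ι → Type*} [∀ i, Field (K i)]
  [∀ i, Algebra ℚ (K i)]

/-- **several fields: the map is onto.** -/
theorem onto (θ : ∀ i, K i) (hint : ∀ i, IsIntegral ℚ (θ i))
    (hgen : ∀ i, Function.Surjective (aeval (θ i) : ℚ[X] → K i))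
    (hdis : ∀ i j, i ≠ j → minpoly ℚ (θ i) ≠ minpoly ℚ (θ j)) (h : ℕ) (g : ∀ i, (K i)[X]) :
    ∃ F : ℚ[X], ∀ i, (X : (K i)[X]) ^ h ∣ sh (θ i) F - g i := by
  classical
  choose F hF using fun i => onto_one (hint i) (hgen i) h (g i)
  have hirr : ∀ i, Irreducible (minpoly ℚ (θ i)) := fun i => minpoly.irreducible (hint i)
  have hcop : ∀ i j, i ≠ j → IsCoprime (minpoly ℚ (θ i)) (minpoly ℚ (θ j)) := by
    intro i j hij
    rw [(hirr i).coprime_iff_not_dvd]
    intro hd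
    exact hdis i j hij (eq_of_monic_of_associated (minpoly.monic (hint i)) (minpoly.monic (hint j))
      ((hirr i).associated_of_dvd (hirr j) hd))
  have hE : ∀ i, ∃ E : ℚ[X], minpoly ℚ (θ i) ^ h ∣ E - 1 ∧
      ∀ j, j ≠ i → minpoly ℚ (θ j) ^ h ∣ E := by
    intro i
    have hc : IsCoprime (minpoly ℚ (θ i) ^ h)
        (∏ j ∈ Finset.univ.erase i, minpoly ℚ (θ j) ^ h) := by
      apply IsCoprime.prod_right
      intro j hj
      exact (hcop i j (Finset.ne_of_mem_erase hj).symm).pow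
    obtain ⟨a, b, hab⟩ := hc
    refine ⟨b * ∏ j ∈ Finset.univ.erase i, minpoly ℚ (θ j) ^ h, ⟨-a, ?_⟩, ?_⟩
    · linear_combination hab
    · intro j hj
      exact (Finset.dvd_prod_of_mem _ (Finset.mem_erase.mpr ⟨hj, Finset.mem_univ j⟩)).mul_left b
  choose E hE1 hE0 using hE
  refine ⟨∑ i, E i * F i, fun j => ?_⟩
  rw [map_sum, ← Finset.add_sum_erase _ _ (Finset.mem_univ j)]
  have hd1 : (X : (K j)[X]) ^ h ∣ sh (θ j) (E j) - 1 := by
    have := (X_pow_dvd_sh (θ j) (minpoly.aeval ℚ (θ j)) h).trans (sh_dvd (θ j) (hE1 j))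
    rwa [map_sub, map_one] at this
  have hd2 : (X : (K j)[X]) ^ h ∣ sh (θ j) (E j * F j) - g j := by
    have : sh (θ j) (E j * F j) - g j
        = (sh (θ j) (E j) - 1) * sh (θ j) (F j) + (sh (θ j) (F j) - g j) := by
      rw [map_mul]; ring
    rw [this]
    exact dvd_add (hd1.mul_right _) (hF j)
  have hd3 : (X : (K j)[X]) ^ h ∣ ∑ i ∈ Finset.univ.erase j, sh (θ j) (E i * F i) := by
    apply Finset.dvd_sum
    intro i hi
    rw [map_mul]
    exact (((X_pow_dvd_sh (θ j) (minpoly.aeval ℚ (θ j)) h).trans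
      (sh_dvd (θ j) (hE0 i j (Finset.ne_of_mem_erase hi).symm)))).mul_right _
  have : sh (θ j) (E j * F j) + ∑ i ∈ Finset.univ.erase j, sh (θ j) (E i * F i) - g j
      = (sh (θ j) (E j * F j) - g j) + ∑ i ∈ Finset.univ.erase j, sh (θ j) (E i * F i) := by
    ring
  rw [this]
  exact dvd_add hd2 hd3

end many

section op

variable {K : Type*} [Field K] [Algebra ℚ K] {V : Type*} [AddCommGroup V] [Module ℚ V]
  [Module K V] [IsScalarTower ℚ K V]

/-- restriction of scalars as a homomorphism of `ℚ`-algebras -/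
def rs : Module.End K V →ₐ[ℚ] Module.End ℚ V where
  toFun f := f.restrictScalars ℚ
  map_one' := rfl
  map_mul' _ _ := rfl
  map_zero' := rfl
  map_add' _ _ := rfl
  commutes' r := by
    ext v
    simp [algebraMap_smul]

/-- operator form: `x = θ + y` with `y ^ h = 0`, then `F x = g y` -/
theorem aeval_op (θ : K) (y : Module.End K V) {h : ℕ} (hy : y ^ h = 0) {F : ℚ[X]} {g : K[X]}
    (hF : (X : K[X]) ^ h ∣ sh θ F - g) :
    aeval ((θ • (1 : Module.End K V) + y).restrictScalars ℚ : Module.End ℚ V) F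
      = (aeval y g).restrictScalars ℚ := by
  have h1 : aeval y (sh θ F) = aeval y g := by
    obtain ⟨q, hq⟩ := hF
    have : sh θ F = g + X ^ h * q := by rw [← hq]; ring
    rw [this, map_add, map_mul, map_pow, aeval_X, hy, zero_mul, add_zero]
  have h2 : aeval y (sh θ F) = aeval (θ • (1 : Module.End K V) + y) F := by
    have h3 : (aeval y : K[X] →ₐ[K] Module.End K V) (sh θ F)
        = ((aeval y : K[X] →ₐ[K] Module.End K V).restrictScalars ℚ) (aeval (X + C θ) F) := rfl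
    rw [h3, ← aeval_algHom_apply]
    congr 1
    have : ((aeval y : K[X] →ₐ[K] Module.End K V).restrictScalars ℚ) (X + C θ)
        = y + algebraMap K (Module.End K V) θ := by
      simp
    rw [this, Algebra.algebraMap_eq_smul_one, add_comm]
  have h4 : aeval ((θ • (1 : Module.End K V) + y).restrictScalars ℚ : Module.End ℚ V) F
      = rs (aeval (θ • (1 : Module.End K V) + y) F) := by
    rw [← aeval_algHom_apply]
    rfl
  rw [h4, ← h2, h1]
  rfl

end op

end Pool.Agent.DEC.Hens
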