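import Pool.Agent.DEC.Core
import Pool.Agent.DEC.Hens
import Pool.Agent.DEC.KInst

/-!
The integral form of `Hens`: integer polynomials in `x = θ + y` which act as `c θ`, or as the
projector (times an integer) on one of the factors.
-/

set_option autoImplicit false

open Matrix Polynomial

namespace Pool.Agent.DEC.HensZ

/-! ### operators over a commutative ring -/

section op

variable {R : Type} [CommRing R] {M : Type} [AddCommGroup M] [Module R M]

theorem pow_restrict (x : Module.End R M) (n : ℕ) (v : M) :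
    ((x.restrictScalars ℤ : Module.End ℤ M) ^ n) v = (x ^ n) v := by
  induction n generalizing v with
  | zero => rfl
  | succ n ih =>
    rw [pow_succ, pow_succ, Module.End.mul_apply, Module.End.mul_apply, ih]
    rfl

theorem aeval_restrict (x : Module.End R M) (H : ℤ[X]) (v : M) :
    aeval (x.restrictScalars ℤ : Module.End ℤ M) H v
      = aeval x (H.map (Int.castRingHom R)) v := by
  rw [aeval_eq_sum_range' (n := H.natDegree + 1) (by omega),
    aeval_eq_sum_range' (n := H.natDegree + 1)
      (Nat.lt_succ_of_le natDegree_map_le)]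
  rw [LinearMap.sum_apply, LinearMap.sum_apply]
  refine Finset.sum_congr rfl fun n _ => ?_
  rw [LinearMap.smul_apply, LinearMap.smul_apply, pow_restrict, coeff_map]
  exact (Int.cast_smul_eq_zsmul R (H.coeff n) ((x ^ n) v)).symm

theorem aeval_shift (θ : R) (y : Module.End R M) {e : ℕ} (hy : y ^ e = 0) {H G : R[X]}
    (hH : (X : R[X]) ^ e ∣ H.comp (X + C θ) - G) :
    aeval (θ • (LinearMap.id : M →ₗ[R] M) + y) H = aeval y G := by
  obtain ⟨q, hq⟩ := hH
  have h1 : H.comp (X + C θ) = G + X ^ e * q := by rw [← hq]; ring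
  have h2 : aeval y (H.comp (X + C θ)) = aeval (aeval y (X + C θ)) H := by
    rw [aeval_comp]
  have h3 : aeval y (X + C θ : R[X]) = θ • (LinearMap.id : M →ₗ[R] M) + y := by
    rw [map_add, aeval_X, aeval_C, Algebra.algebraMap_eq_smul_one, add_comm]
    rfl
  rw [← h3, ← h2, h1, map_add, map_mul, map_pow, aeval_X, hy, zero_mul, add_zero]

end op

/-! ### nilpotency of `yL` -/

section yl

variable {R γ : Type} [CommRing R] (h : γ → ℕ)

theorem yL_pow_apply (n : ℕ) (v : Blk h → R) (c : γ) (i : ℕ) (hi : i < h c) :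
    ((yL h : Module.End R (Blk h → R)) ^ n) v ⟨c, ⟨i, hi⟩⟩
      = if hn : n ≤ i then v ⟨c, ⟨i - n, by omega⟩⟩ else 0 := by
  induction n generalizing i with
  | zero => simp
  | succ n ih =>
    rw [pow_succ', Module.End.mul_apply]
    by_cases h0 : 0 < i
    · have h1 : yL h (((yL h : Module.End R (Blk h → R)) ^ n) v) ⟨c, ⟨i, hi⟩⟩
          = ((yL h : Module.End R (Blk h → R)) ^ n) v ⟨c, ⟨i - 1, by omega⟩⟩ := by
        simp [yL, h0]
      rw [h1, ih (i - 1) (by omega)]
      by_cases hn : n ≤ i - 1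
      · rw [dif_pos hn, dif_pos (by omega)]
        congr 2
        apply Fin.ext
        simp only
        omega
      · rw [dif_neg hn, dif_neg (by omega)]
    · have h1 : yL h (((yL h : Module.End R (Blk h → R)) ^ n) v) ⟨c, ⟨i, hi⟩⟩ = 0 := by
        simp [yL, h0]
      rw [h1, dif_neg (by omega)]

theorem yL_pow_zero {e : ℕ} (he : ∀ c, h c ≤ e) :
    (yL h : Module.End R (Blk h → R)) ^ e = 0 := by
  refine LinearMap.ext fun v => ?_
  funext ⟨c, ⟨i, hi⟩⟩
  rw [yL_pow_apply, dif_neg (by have := he c; omega)]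
  rfl

end yl

/-! ### clearing denominators -/

section clear

theorem exists_int (F : ℚ[X]) : ∃ (H : ℤ[X]) (c : ℤ), c ≠ 0 ∧
    H.map (Int.castRingHom ℚ) = C (c : ℚ) * F := by
  obtain ⟨b, hbm, hb⟩ := IsLocalization.integerNormalization_spec (nonZeroDivisors ℤ) F
  refine ⟨IsLocalization.integerNormalization (nonZeroDivisors ℤ) F, b,
    nonZeroDivisors.ne_zero hbm, ?_⟩
  have h1 : (IsLocalization.integerNormalization (nonZeroDivisors ℤ) F).map
        (Int.castRingHom ℚ) = (b : ℤ) • F := hb
  rw [h1, zsmul_eq_mul]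
  simp

variable {g : ℤ[X]}

theorem incl_inj (hg : g.Monic) : Function.Injective (incl g) := by
  rw [injective_iff_map_eq_zero]
  intro z
  induction z using AdjoinRoot.induction_on with
  | ih q =>
    intro h
    rw [← algebraMap_eq_incl, algebraMap_mk, AdjoinRoot.mk_eq_zero,
      Polynomial.map_dvd_map _ (RingHom.injective_int (Int.castRingHom ℚ)) hg] at h
    rwa [AdjoinRoot.mk_eq_zero]

/-- descent of a congruence from the field to the order -/
theorem descend (hg : g.Monic) (e : ℕ) (P : (Lam g)[X])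
    (h : (X : (KF g)[X]) ^ e ∣ P.map (incl g)) : (X : (Lam g)[X]) ^ e ∣ P := by
  rw [X_pow_dvd_iff] at h ⊢
  intro d hd
  have := h d hd
  rw [coeff_map] at this
  exact incl_inj hg (by rw [this, map_zero])

theorem incl_root : incl g (AdjoinRoot.root g) = AdjoinRoot.root (g.map (Int.castRingHom ℚ)) :=
  algebraMap_root g

theorem map_shift (φ : ℚ →+* KF g) (H : ℤ[X]) :
    ((H.map (Int.castRingHom (Lam g))).comp (X + C (AdjoinRoot.root g))).map (incl g)
      = ((H.map (Int.castRingHom ℚ)).map φ).comp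
          (X + C (AdjoinRoot.root (g.map (Int.castRingHom ℚ)))) := by
  rw [Polynomial.map_comp, Polynomial.map_map, Polynomial.map_map, Polynomial.map_add,
    Polynomial.map_X, Polynomial.map_C, incl_root]
  have h1 : (incl g).comp (Int.castRingHom (Lam g))
      = φ.comp (Int.castRingHom ℚ) := RingHom.ext_int _ _
  rw [h1]

end clear

section field

variable {g : ℤ[X]}

theorem gQ_irr (hg : g.Monic) (hirr : Irreducible g) :
    Irreducible (g.map (Int.castRingHom ℚ)) :=
  (hg.irreducible_iff_irreducible_map_fraction_map (K := ℚ)).mp hirr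

theorem surj_aeval (p : ℚ[X]) : Function.Surjective
    (aeval (AdjoinRoot.root p) : ℚ[X] → AdjoinRoot p) := by
  intro z
  obtain ⟨q, rfl⟩ := AdjoinRoot.mk_surjective z
  exact ⟨q, by rw [AdjoinRoot.aeval_eq]⟩

theorem int_root {p : ℚ[X]} (hp : p.Monic) : IsIntegral ℚ (AdjoinRoot.root p) :=
  ⟨p, hp, AdjoinRoot.eval₂_root p⟩

theorem minpoly_root' {p : ℚ[X]} [Fact (Irreducible p)] (hi : Irreducible p) (hp : p.Monic) :
    minpoly ℚ (AdjoinRoot.root p) = p := by
  symm
  refine minpoly.eq_of_irreducible_of_monic hi ?_ hp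
  rw [aeval_def]
  have h1 : (algebraMap ℚ (AdjoinRoot p)) = AdjoinRoot.of p := Subsingleton.elim _ _
  rw [h1]
  exact AdjoinRoot.eval₂_root p

end field

/-- **an integer polynomial in `x` which acts as `c θ`** -/
theorem hens {g : ℤ[X]} (hg : g.Monic) (hirr : Irreducible g) (e : ℕ) :
    ∃ (H : ℤ[X]) (c : ℤ), c ≠ 0 ∧ ∀ (γ : Type) (h : γ → ℕ), (∀ x, h x ≤ e) →
      ∀ v : Blk h → Lam g,
        aeval ((xL (AdjoinRoot.root g) h).restrictScalars ℤ) H v
          = c • (AdjoinRoot.root g • v) := by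
  have : Fact (Irreducible (g.map (Int.castRingHom ℚ))) := ⟨gQ_irr hg hirr⟩
  obtain ⟨F, hF⟩ := Hens.exists_theta (int_root (hg.map (Int.castRingHom ℚ))) e
  obtain ⟨H, c, hc, hH⟩ := exists_int F
  refine ⟨H, c, hc, ?_⟩
  have hd : (X : (Lam g)[X]) ^ e ∣
      (H.map (Int.castRingHom (Lam g))).comp (X + C (AdjoinRoot.root g))
        - C ((c : Lam g) * AdjoinRoot.root g) := by
    apply descend hg
    rw [Polynomial.map_sub, map_shift (algebraMap ℚ (KF g)), hH, Polynomial.map_mul, mul_comp,
      Polynomial.map_C, C_comp, Polynomial.map_C, map_mul, map_intCast (incl g), incl_root, C_mul]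
    rw [Hens.sh_eq] at hF
    have h1 := hF.mul_left (C ((c : ℤ) : KF g))
    rw [mul_sub] at h1
    have h2 : (algebraMap ℚ (KF g)) (c : ℚ) = ((c : ℤ) : KF g) := by simp
    rw [h2]
    exact h1
  intro γ h he v
  rw [aeval_restrict, xL, aeval_shift _ _ (yL_pow_zero h he) hd, aeval_C]
  rw [Module.algebraMap_end_apply, mul_smul]
  exact Int.cast_smul_eq_zsmul (Lam g) c _

/-- **integer polynomials in `x` which are multiples of the projectors on the factors** -/
theorem split {f : ℕ} {g : Fin f → ℤ[X]} (hg : ∀ i, (g i).Monic)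
    (hirr : ∀ i, Irreducible (g i)) (hinj : Function.Injective g) (e : ℕ) (i : Fin f) :
    ∃ (F : ℤ[X]) (c : ℤ), c ≠ 0 ∧ ∀ (j : Fin f) (γ : Type) (h : γ → ℕ), (∀ x, h x ≤ e) →
      ∀ v : Blk h → Lam (g j),
        aeval ((xL (AdjoinRoot.root (g j)) h).restrictScalars ℤ) F v
          = if j = i then c • v else 0 := by
  have : ∀ i, Fact (Irreducible ((g i).map (Int.castRingHom ℚ))) :=
    fun i => ⟨gQ_irr (hg i) (hirr i)⟩
  obtain ⟨F, hF⟩ := Hens.onto (K := fun i => KF (g i))
    (fun i => AdjoinRoot.root ((g i).map (Int.castRingHom ℚ)))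
    (fun i => int_root ((hg i).map _)) (fun i => surj_aeval _)
    (by
      intro i j hij heq
      have hi := minpoly_root' (gQ_irr (hg i) (hirr i)) ((hg i).map (Int.castRingHom ℚ))
      have hj := minpoly_root' (gQ_irr (hg j) (hirr j)) ((hg j).map (Int.castRingHom ℚ))
      have heq2 := hi.symm.trans (heq.trans hj)
      exact hij (hinj (Polynomial.map_injective _
        (RingHom.injective_int (Int.castRingHom ℚ)) heq2))) e
    (fun j => if j = i then 1 else 0)
  obtain ⟨H, c, hc, hH⟩ := exists_int F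
  refine ⟨H, c, hc, ?_⟩
  intro j γ h he v
  have hd : (X : (Lam (g j))[X]) ^ e ∣
      (H.map (Int.castRingHom (Lam (g j)))).comp (X + C (AdjoinRoot.root (g j)))
        - C (if j = i then (c : Lam (g j)) else 0) := by
    apply descend (hg j)
    have hFj := hF j
    rw [Hens.sh_eq] at hFj
    rw [Polynomial.map_sub, map_shift (algebraMap ℚ (KF (g j))), hH, Polynomial.map_mul,
      mul_comp, Polynomial.map_C, C_comp, Polynomial.map_C]
    have h1 := hFj.mul_left (C ((c : ℤ) : KF (g j)))
    rw [mul_sub] at h1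
    have h2 : (algebraMap ℚ (KF (g j))) (c : ℚ) = ((c : ℤ) : KF (g j)) := by simp
    rw [h2]
    by_cases hji : j = i
    · rw [if_pos hji] at h1 ⊢
      rw [map_intCast (incl (g j))]
      rw [mul_one] at h1
      exact h1
    · rw [if_neg hji] at h1 ⊢
      rw [map_zero, C_0]
      rw [mul_zero] at h1
      exact h1
  rw [aeval_restrict, xL, aeval_shift _ _ (yL_pow_zero h he) hd, aeval_C,
    Module.algebraMap_end_apply]
  by_cases hji : j = i
  · rw [if_pos hji, if_pos hji]
    exact Int.cast_smul_eq_zsmul (Lam (g j)) c _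
  · rw [if_neg hji, if_neg hji, zero_smul]

end Pool.Agent.DEC.HensZ
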