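import Pool.Agent.DEC.Core
import Pool.Agent.DEC.SUni

/-!
Soundness, trace condition: the trace of `θ + C` on the lattice `Γ`.
-/

set_option autoImplicit false
set_option linter.unusedSectionVars false

open Matrix Polynomial

namespace Pool.Agent.DEC.S2Tr

section one

variable {R : Type} [CommRing R] {n : ℕ}

/-- `θ + C` as an additive map -/
def fL (θ : R) (C : Matrix (Fin n) (Fin n) R) : (Fin n → R) →ₗ[ℤ] (Fin n → R) where
  toFun z := θ • z + C *ᵥ z
  map_add' z w := by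
    rw [smul_add, Matrix.mulVec_add]
    abel
  map_smul' c z := by
    have h1 : C *ᵥ (c • z) = c • (C *ᵥ z) := Matrix.mulVec_smul C c z
    rw [h1, smul_comm θ c z, ← smul_add]
    rfl

theorem fL_pow_single (θ : R) (C : Matrix (Fin n) (Fin n) R) (deg : Fin n → ℕ)
    (hC : ∀ p q, deg p ≤ deg q → C p q = 0) (q : Fin n) (v : R) (k : ℕ) :
    ((fL θ C ^ k) (Pi.single q v)) q = θ ^ k * v ∧
      ∀ p, p ≠ q → deg p ≤ deg q → ((fL θ C ^ k) (Pi.single q v)) p = 0 := by
  induction k with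
  | zero =>
    refine ⟨by simp, fun p hp _ => by simp [hp]⟩
  | succ k ih =>
    obtain ⟨h1, h2⟩ := ih
    set w := (fL θ C ^ k) (Pi.single q v) with hw
    have h3 : ∀ p, deg p ≤ deg q → ((fL θ C ^ (k + 1)) (Pi.single q v)) p = θ * w p := by
      intro p hp
      rw [pow_succ', Module.End.mul_apply, ← hw]
      change θ * w p + (C *ᵥ w) p = θ * w p
      rw [add_eq_left, Matrix.mulVec, dotProduct]
      refine Finset.sum_eq_zero fun r _ => ?_
      by_cases hr : deg p ≤ deg r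
      · rw [hC p r hr, zero_mul]
      · rw [h2 r ?_ (by omega), mul_zero]
        rintro rfl
        omega
    refine ⟨?_, fun p hp hpq => ?_⟩
    · rw [h3 q le_rfl, h1, pow_succ]
      ring
    · rw [h3 p hpq, h2 p hp hpq, mul_zero]

/-- the trace of `(θ + C)^k` -/
theorem trace_fL [Module.Free ℤ R] [Module.Finite ℤ R] (θ : R) (C : Matrix (Fin n) (Fin n) R)
    (deg : Fin n → ℕ) (hC : ∀ p q, deg p ≤ deg q → C p q = 0) (k : ℕ) :
    LinearMap.trace ℤ (Fin n → R) (fL θ C ^ k) = (n : ℤ) * Algebra.trace ℤ R (θ ^ k) := by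
  classical
  let b := Module.Free.chooseBasis ℤ R
  rw [LinearMap.trace_eq_matrix_trace ℤ (Pi.basis fun _ : Fin n => b), Matrix.trace]
  rw [Fintype.sum_sigma]
  have h1 : ∀ q : Fin n, ∑ t, (LinearMap.toMatrix (Pi.basis fun _ : Fin n => b)
      (Pi.basis fun _ : Fin n => b) (fL θ C ^ k)).diag ⟨q, t⟩ = Algebra.trace ℤ R (θ ^ k) := by
    intro q
    rw [Algebra.trace_eq_matrix_trace b, Matrix.trace]
    refine Finset.sum_congr rfl fun t _ => ?_
    rw [Matrix.diag_apply, Matrix.diag_apply, LinearMap.toMatrix_apply, Pi.basis_apply,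
      Pi.basis_repr, (fL_pow_single θ C deg hC q (b t) k).1, Algebra.leftMulMatrix_eq_repr_mul]
  rw [Finset.sum_congr rfl fun q _ => h1 q, Finset.sum_const, Finset.card_univ, Fintype.card_fin,
    nsmul_eq_mul]

end one

section pi

variable {F : Type} [Fintype F] [DecidableEq F] {M : F → Type} [∀ i, AddCommGroup (M i)]
  [∀ i, Module.Free ℤ (M i)] [∀ i, Module.Finite ℤ (M i)]

/-- a family of additive maps -/
def piMap (G : ∀ i, M i →ₗ[ℤ] M i) : (∀ i, M i) →ₗ[ℤ] (∀ i, M i) where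
  toFun z := fun i => G i (z i)
  map_add' z w := by
    funext i
    exact map_add (G i) (z i) (w i)
  map_smul' c z := by
    funext i
    exact map_smul (G i) c (z i)

theorem piMap_pow (G : ∀ i, M i →ₗ[ℤ] M i) (k : ℕ) :
    piMap G ^ k = piMap fun i => G i ^ k := by
  induction k with
  | zero => rfl
  | succ k ih =>
    rw [pow_succ', ih]
    ext z i
    simp only [Module.End.mul_apply, piMap, LinearMap.coe_mk, AddHom.coe_mk, pow_succ',
      LinearMap.comp_apply]

theorem trace_piMap (G : ∀ i, M i →ₗ[ℤ] M i) :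
    LinearMap.trace ℤ (∀ i, M i) (piMap G) = ∑ i, LinearMap.trace ℤ (M i) (G i) := by
  classical
  let b := fun i => Module.Free.chooseBasis ℤ (M i)
  rw [LinearMap.trace_eq_matrix_trace ℤ (Pi.basis b), Matrix.trace, Fintype.sum_sigma]
  refine Finset.sum_congr rfl fun i _ => ?_
  rw [LinearMap.trace_eq_matrix_trace ℤ (b i), Matrix.trace]
  refine Finset.sum_congr rfl fun t _ => ?_
  rw [Matrix.diag_apply, Matrix.diag_apply, LinearMap.toMatrix_apply, Pi.basis_apply,
    Pi.basis_repr, LinearMap.toMatrix_apply]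
  change ((b i).repr (G i ((Pi.single i (b i t) : ∀ i, M i) i))) t = _
  rw [Pi.single_eq_same]

end pi

theorem trace_vecMul_pow {r : ℕ} (X : Matrix (Fin r) (Fin r) ℤ) (k : ℕ) :
    LinearMap.trace ℤ (Fin r → ℤ) (X.vecMulLinear ^ k) = (X ^ k).trace := by
  have h1 : X.vecMulLinear ^ k = Matrix.toLin' (X ^ k)ᵀ := by
    apply LinearMap.ext
    intro z
    rw [Matrix.toLin'_apply, Matrix.mulVec_transpose]
    induction k with
    | zero => simp
    | succ k ih =>
      rw [pow_succ', Module.End.mul_apply, ih, Matrix.vecMulLinear_apply, Matrix.vecMul_vecMul,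
        ← pow_succ]
  rw [h1, Matrix.trace_toLin'_eq, Matrix.trace_transpose]

end Pool.Agent.DEC.S2Tr

namespace Pool.Agent.DEC

open S2Tr

/-- **the trace condition from an isomorphism over `ℚ`** -/
theorem trC_of_iso {a b : ℕ} {A : Matrix (Fin a) (Fin a) ℕ} {B : Matrix (Fin b) (Fin b) ℕ}
    (ρ : Ref A B) {n : Fin ρ.f → ℕ} (deg : ∀ i, Fin (n i) → ℕ) (s : ρ.MSt n)
    (hst : ∀ i, IsSt (ρ.shp deg i) (s i)) {r : ℕ} (X : Matrix (Fin r) (Fin r) ℤ) {D : ℤ}
    (hD : D ≠ 0) (L : (Fin r → ℤ) →ₗ[ℤ] ρ.Gam n) (H : ρ.Gam n →ₗ[ℤ] (Fin r → ℤ))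
    (h1 : ∀ z, H (L z) = D • z) (h2 : ∀ z, L (H z) = D • z)
    (hX : ∀ z i, L (z ᵥ* X) i = ρ.th i • L z i + (s i).1 *ᵥ L z i)
    (hB : ∀ k, 0 < k → (B ^ k).trace = 0 → (X ^ k).trace = 0) : TrC ρ n := by
  intro k hk hBk
  have hfree : ∀ i, Module.Free ℤ (Lam (ρ.g i)) := ρ.free
  have hfin : ∀ i, Module.Finite ℤ (Lam (ρ.g i)) := ρ.finite
  set f : ρ.Gam n →ₗ[ℤ] ρ.Gam n := piMap fun i => fL (ρ.th i) (s i).1 with hf
  have e1 : ∀ z, L (X.vecMulLinear z) = f (L z) := by
    intro z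
    funext i
    exact hX z i
  have e2' : ∀ (m : ℕ) z, L ((X.vecMulLinear ^ m) z) = (f ^ m) (L z) := by
    intro m z
    induction m with
    | zero => simp
    | succ m ih =>
      rw [pow_succ', pow_succ', Module.End.mul_apply, Module.End.mul_apply, e1, ih]
  have e2 := e2' k
  have e3 : LinearMap.trace ℤ _ (X.vecMulLinear ^ k) = LinearMap.trace ℤ _ (f ^ k) := by
    have t1 : (X.vecMulLinear ^ k) ∘ₗ (H ∘ₗ L) = D • (X.vecMulLinear ^ k) := by
      apply LinearMap.ext
      intro z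
      simp only [LinearMap.comp_apply, h1, map_smul, LinearMap.smul_apply]
    have t2 : (L ∘ₗ (X.vecMulLinear ^ k)) ∘ₗ H = D • (f ^ k) := by
      apply LinearMap.ext
      intro z
      simp only [LinearMap.comp_apply, e2, h2, map_smul, LinearMap.smul_apply]
    have t3 := LinearMap.trace_comp_comm' (R := ℤ) ((X.vecMulLinear ^ k) ∘ₗ H) L
    rw [LinearMap.comp_assoc, t1, ← LinearMap.comp_assoc, t2, map_smul, map_smul] at t3
    exact smul_right_injective ℤ hD t3.symm
  rw [trace_vecMul_pow, hB k hk hBk, hf, piMap_pow, trace_piMap] at e3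
  rw [e3]
  refine Finset.sum_congr rfl fun i _ => ?_
  exact (trace_fL (ρ.th i) (s i).1 (deg i) (hst i).c k).symm

end Pool.Agent.DEC
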