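import Pool.Agent.DEC.S2
import Pool.Agent.DEC.S2Tr
import Pool.Agent.DEC.HensZ

/-!
# MP_59dda0_an, DEC: soundness of the semi-solutions
-/

set_option autoImplicit false

open Matrix Polynomial

namespace Pool.Agent.DEC.Sound

variable {a b : ℕ} {A : Matrix (Fin a) (Fin a) ℕ} {B : Matrix (Fin b) (Fin b) ℕ}

/-- a bound of all heights -/
def ht (ρ : Ref A B) : ℕ := (∑ i, ∑ c, ρ.lam i c) + ∑ i, ∑ c, ρ.mu i c

theorem lam_le_ht (ρ : Ref A B) (i : Fin ρ.f) (c : Fin (ρ.na i)) : ρ.lam i c ≤ ht ρ := by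
  have h1 : ρ.lam i c ≤ ∑ c, ρ.lam i c :=
    Finset.single_le_sum (f := fun c => ρ.lam i c) (fun _ _ => Nat.zero_le _) (Finset.mem_univ c)
  have h2 : ∑ c, ρ.lam i c ≤ ∑ i, ∑ c, ρ.lam i c :=
    Finset.single_le_sum (f := fun i => ∑ c, ρ.lam i c) (fun _ _ => Nat.zero_le _)
      (Finset.mem_univ i)
  unfold ht
  omega

theorem mu_le_ht (ρ : Ref A B) (i : Fin ρ.f) (c : Fin (ρ.nb i)) : ρ.mu i c ≤ ht ρ := by
  have h1 : ρ.mu i c ≤ ∑ c, ρ.mu i c :=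
    Finset.single_le_sum (f := fun c => ρ.mu i c) (fun _ _ => Nat.zero_le _) (Finset.mem_univ c)
  have h2 : ∑ c, ρ.mu i c ≤ ∑ i, ∑ c, ρ.mu i c :=
    Finset.single_le_sum (f := fun i => ∑ c, ρ.mu i c) (fun _ _ => Nat.zero_le _)
      (Finset.mem_univ i)
  unfold ht
  omega

theorem hensH (ρ : Ref A B) : S2.HensH ρ := by
  intro i
  obtain ⟨H, c, hc, h⟩ := HensZ.hens (ρ.monic i) (ρ.irr i) (ht ρ)
  exact ⟨H, c, hc, h _ _ (lam_le_ht ρ i), h _ _ (mu_le_ht ρ i)⟩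

theorem hensF (ρ : Ref A B) : S2.HensF ρ := by
  intro i
  obtain ⟨F, c, hc, h⟩ := HensZ.split ρ.monic ρ.irr ρ.inj (ht ρ) i
  exact ⟨F, c, hc, fun j => ⟨h j _ _ (lam_le_ht ρ j), h j _ _ (mu_le_ht ρ j)⟩⟩

/-- **soundness**: a solution gives an exact semi-solution, for every reference datum -/
theorem sound (ρ : Ref A B) (h : FT.TraceDimCondition A B) : Semi ρ 0 :=
  S2.sound_of ρ (hensH ρ) (hensF ρ)
    (fun deg s hst _ X _ hD L H h1 h2 hX hB => trC_of_iso ρ deg s hst X hD L H h1 h2 hX hB) h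

end Pool.Agent.DEC.Sound
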