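import Pool.Agent.DEC.Complete
import Pool.Agent.DEC.Sound
import Pool.Agent.DEC.ExRef
import Pool.Agent.DEC.PRefQ

/-!
# DEC: the certificates for the failure of the dimension condition with traces (helper75)

`¬ TraceDimCondition A B` holds if and only if there are a reference datum `ρ` (with `qOf (g i)`
dividing `q`) and `N > 0` without semi-solutions of level `N`.
-/

set_option autoImplicit false

open Matrix Polynomial

namespace Pool.Agent.DEC.NoTD

variable {a b : ℕ}

theorem not_traceDim_iff (A : Matrix (Fin a) (Fin a) ℕ) (B : Matrix (Fin b) (Fin b) ℕ) :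
    ¬ FT.TraceDimCondition A B ↔
      ∃ (ρ : Ref A B) (N : ℕ), (∀ i, PRefQ.qf (ρ.g i) ∣ ρ.q) ∧ 0 < N ∧ ¬ Semi ρ N := by
  constructor
  · intro h
    obtain ⟨ρ, hρ⟩ := ExRef.exists_ref A B
    obtain ⟨N, hN, hs⟩ := Complete.complete ρ
    exact ⟨ρ, N, hρ, hN, fun h' => h (hs h')⟩
  · rintro ⟨ρ, N, -, -, hs⟩ h
    exact hs (semi_of_zero (Sound.sound ρ h) N)

end Pool.Agent.DEC.NoTD
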