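import Pool.Agent.DEC.PMain
import Pool.Agent.DEC.NoTD
import Pool.Agent.DEC.CritInst

/-!
# Finite-to-one factor codes between mixing shifts of finite type are decidable (MP_59dda0_an)
-/

set_option autoImplicit false

namespace Pool.Agent.DEC

/-- **The final theorem.**  There is a total computable function which decides, for all pairs of
presentations of mixing shifts of finite type, whether a finite-to-one factor code exists. -/
theorem final : FinalStatement :=
  PMain.final criterion (fun A B => NoTD.not_traceDim_iff A B)

end Pool.Agent.DEC
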