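import Pool.Agent.DEC.Mat
/-! DEC project (MP_59dda0_an), computability layer, part 4: primitive recursive predicates with
bounded quantifiers over lists, integer matrices modulo `N`, functions on `Fin r`. -/
namespace Pool.Agent.DEC.PPred
open Primrec Pool.Agent.DEC

section basic
variable {α β : Type*} [Primcodable α] [Primcodable β]

theorem pComp {p : β → Prop} (hp : PrimrecPred p) {f : α → β} (hf : Primrec f) :
    PrimrecPred fun a => p (f a) := hp.comp hf

theorem pAnd {p q : α → Prop} (hp : PrimrecPred p) (hq : PrimrecPred q) :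
    PrimrecPred fun a => p a ∧ q a := hp.and hq

theorem pOr {p q : α → Prop} (hp : PrimrecPred p) (hq : PrimrecPred q) :
    PrimrecPred fun a => p a ∨ q a := hp.or hq

theorem pNot {p : α → Prop} (hp : PrimrecPred p) : PrimrecPred fun a => ¬ p a := hp.not

theorem pImp {p q : α → Prop} (hp : PrimrecPred p) (hq : PrimrecPred q) :
    PrimrecPred fun a => p a → q a :=
  (hp.not.or hq).of_eq fun a => by tauto

theorem pIff {p q : α → Prop} (hp : PrimrecPred p) (hq : PrimrecPred q) :
    PrimrecPred fun a => (p a ↔ q a) :=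
  ((pImp hp hq).and (pImp hq hp)).of_eq fun a => by tauto

theorem pConst (p : Prop) : PrimrecPred fun _ : α => p := by
  classical
  by_cases h : p
  · exact (Primrec.eq.comp (Primrec.const (α := α) (0 : ℕ)) (Primrec.const 0)).of_eq
      fun a => by simp [h]
  · exact ((Primrec.eq.comp (Primrec.const (α := α) (0 : ℕ)) (Primrec.const 0)).not).of_eq
      fun a => by simp [h]

theorem pEq {f g : α → β} (hf : Primrec f) (hg : Primrec g) : PrimrecPred fun a => f a = g a :=
  Primrec.eq.comp hf hg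

theorem pNe {f g : α → β} (hf : Primrec f) (hg : Primrec g) : PrimrecPred fun a => f a ≠ g a :=
  (Primrec.eq.comp hf hg).not

theorem pNatLe {f g : α → ℕ} (hf : Primrec f) (hg : Primrec g) : PrimrecPred fun a => f a ≤ g a :=
  Primrec.nat_le.comp hf hg

theorem pNatLt {f g : α → ℕ} (hf : Primrec f) (hg : Primrec g) : PrimrecPred fun a => f a < g a :=
  Primrec.nat_lt.comp hf hg

theorem pIntLe {f g : α → ℤ} (hf : Primrec f) (hg : Primrec g) : PrimrecPred fun a => f a ≤ g a :=
  primrec_int_le.comp hf hg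

theorem pIntLt {f g : α → ℤ} (hf : Primrec f) (hg : Primrec g) : PrimrecPred fun a => f a < g a :=
  primrec_int_lt.comp hf hg

/-- bounded universal quantification over a list -/
theorem pAll {R : α → β → Prop} (hR : PrimrecPred fun p : α × β => R p.1 p.2) {f : α → List β}
    (hf : Primrec f) : PrimrecPred fun a => ∀ b ∈ f a, R a b := by
  have h2 : PrimrecRel fun (b : β) (a : α) => R a b := hR.comp (Primrec.pair snd fst)
  have h3 : PrimrecRel fun (l : List β) (a : α) => ∀ b ∈ l, R a b := h2.forall_mem_list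
  exact PrimrecRel.comp h3 hf Primrec.id

/-- bounded existential quantification over a list -/
theorem pEx {R : α → β → Prop} (hR : PrimrecPred fun p : α × β => R p.1 p.2) {f : α → List β}
    (hf : Primrec f) : PrimrecPred fun a => ∃ b ∈ f a, R a b := by
  have h2 : PrimrecRel fun (b : β) (a : α) => R a b := hR.comp (Primrec.pair snd fst)
  have h3 : PrimrecRel fun (l : List β) (a : α) => ∃ b ∈ l, R a b := h2.exists_mem_list
  exact PrimrecRel.comp h3 hf Primrec.id

/-- bounded universal quantification over numbers -/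
theorem pAllLt {R : α → ℕ → Prop} (hR : PrimrecPred fun p : α × ℕ => R p.1 p.2) {f : α → ℕ}
    (hf : Primrec f) : PrimrecPred fun a => ∀ i < f a, R a i :=
  (pAll hR (f := fun a => List.range (f a)) (list_range.comp hf)).of_eq fun a => by simp

/-- bounded existential quantification over numbers -/
theorem pExLt {R : α → ℕ → Prop} (hR : PrimrecPred fun p : α × ℕ => R p.1 p.2) {f : α → ℕ}
    (hf : Primrec f) : PrimrecPred fun a => ∃ i < f a, R a i :=
  (pEx hR (f := fun a => List.range (f a)) (list_range.comp hf)).of_eq fun a => by simp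

/-- quantification over `Fin (f a)` -/
theorem pAllFin {R : α → ℕ → Prop} (hR : PrimrecPred fun p : α × ℕ => R p.1 p.2) {f : α → ℕ}
    (hf : Primrec f) : PrimrecPred fun a => ∀ i : Fin (f a), R a i :=
  (pAllLt hR hf).of_eq fun _ => ⟨fun h i => h i i.2, fun h i hi => h ⟨i, hi⟩⟩

theorem pExFin {R : α → ℕ → Prop} (hR : PrimrecPred fun p : α × ℕ => R p.1 p.2) {f : α → ℕ}
    (hf : Primrec f) : PrimrecPred fun a => ∃ i : Fin (f a), R a i :=
  (pExLt hR hf).of_eq fun _ => ⟨fun ⟨i, hi, h⟩ => ⟨⟨i, hi⟩, h⟩, fun ⟨i, h⟩ => ⟨i, i.2, h⟩⟩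

/-- divisibility by a natural number -/
theorem pDvd {N : α → ℕ} {z : α → ℤ} (hN : Primrec N) (hz : Primrec z) :
    PrimrecPred fun a => (N a : ℤ) ∣ z a := by
  have h : PrimrecPred fun a => (z a).natAbs % N a = 0 :=
    pEq (Primrec.nat_mod.comp (primrec_natAbs.comp hz) hN) (Primrec.const 0)
  exact h.of_eq fun a => by
    rw [Int.natCast_dvd, Nat.dvd_iff_mod_eq_zero]

theorem pIte {c : α → Prop} [DecidablePred c] {f g : α → β} (hc : PrimrecPred c)
    (hf : Primrec f) (hg : Primrec g) : Primrec fun a => if c a then f a else g a :=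
  Primrec.ite hc hf hg

/-- finite sums of integers over a list -/
theorem pSumList {f : α → List β} {g : α → β → ℤ} (hf : Primrec f) (hg : Primrec₂ g) :
    Primrec fun a => ((f a).map (g a)).sum :=
  primrec_int_sum.comp (Primrec.list_map hf hg)

theorem pProdRange {n : α → ℕ} {f : α → ℕ → ℤ} (hn : Primrec n) (hf : Primrec₂ f) :
    Primrec fun a => ∏ i ∈ Finset.range (n a), f a i := by
  have h : Primrec fun a => (Nat.rec (1 : ℤ) (fun i P => P * f a i) (n a) : ℤ) :=
    Primrec.nat_rec' (f := n) (g := fun _ => (1 : ℤ)) (h := fun (a : α) (p : ℕ × ℤ) =>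
      p.2 * f a p.1) hn (Primrec.const 1)
      (pMul (snd.comp snd) (hf.comp fst (fst.comp snd)))
  refine h.of_eq fun a => ?_
  induction n a with
  | zero => simp
  | succ k ih =>
    rw [Finset.prod_range_succ, ← ih]

theorem pNatSumRange {n : α → ℕ} {f : α → ℕ → ℕ} (hn : Primrec n) (hf : Primrec₂ f) :
    Primrec fun a => ∑ i ∈ Finset.range (n a), f a i := by
  have h : Primrec fun a => (Nat.rec (0 : ℕ) (fun i P => P + f a i) (n a) : ℕ) :=
    Primrec.nat_rec' (f := n) (g := fun _ => (0 : ℕ)) (h := fun (a : α) (p : ℕ × ℕ) =>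
      p.2 + f a p.1) hn (Primrec.const 0)
      (Primrec.nat_add.comp (snd.comp snd) (hf.comp fst (fst.comp snd)))
  refine h.of_eq fun a => ?_
  induction n a with
  | zero => simp
  | succ k ih =>
    rw [Finset.sum_range_succ, ← ih]

theorem pNatProdRange {n : α → ℕ} {f : α → ℕ → ℕ} (hn : Primrec n) (hf : Primrec₂ f) :
    Primrec fun a => ∏ i ∈ Finset.range (n a), f a i := by
  have h : Primrec fun a => (Nat.rec (1 : ℕ) (fun i P => P * f a i) (n a) : ℕ) :=
    Primrec.nat_rec' (f := n) (g := fun _ => (1 : ℕ)) (h := fun (a : α) (p : ℕ × ℕ) =>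
      p.2 * f a p.1) hn (Primrec.const 1)
      (Primrec.nat_mul.comp (snd.comp snd) (hf.comp fst (fst.comp snd)))
  refine h.of_eq fun a => ?_
  induction n a with
  | zero => simp
  | succ k ih =>
    rw [Finset.prod_range_succ, ← ih]

theorem primrec_factorial : Primrec Nat.factorial := by
  have h : Primrec fun n : ℕ => ∏ i ∈ Finset.range n, (i + 1) :=
    pNatProdRange (f := fun _ i => i + 1) Primrec.id (Primrec.succ.comp snd)
  exact h.of_eq fun n => Finset.prod_range_add_one_eq_factorial n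

end basic

/-! ### quantifiers over functions and matrices -/

section words
variable {β : Type*}

theorem getD_ofFn {r : ℕ} (f : Fin r → β) (d : β) (i : Fin r) :
    (List.ofFn f).getD i d = f i := by
  rw [List.getD_eq_getElem?_getD, List.getElem?_ofFn]
  simp

theorem getD_mem {S : List β} {r : ℕ} {L : List β} (hL : L ∈ words S r) (d : β) {i : ℕ}
    (hi : i < r) : L.getD i d ∈ S := by
  rw [mem_words] at hL
  rw [List.getD_eq_getElem?_getD, List.getElem?_eq_getElem (by rw [hL.1]; exact hi)]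
  exact hL.2 _ (List.getElem_mem _)

/-- functions on `Fin r` with values in a list are words -/
theorem exists_fn_iff {S : List β} {r : ℕ} (d : β) {Q : (Fin r → β) → Prop} :
    (∃ f : Fin r → β, (∀ i, f i ∈ S) ∧ Q f) ↔ ∃ L ∈ words S r, Q fun i => L.getD i d := by
  constructor
  · rintro ⟨f, hf, hQ⟩
    refine ⟨List.ofFn f, (mem_words _ _ _).2 ⟨List.length_ofFn, fun x hx => ?_⟩, ?_⟩
    · obtain ⟨i, rfl⟩ := (List.mem_ofFn' f x).1 hx
      exact hf i
    · have : (fun i : Fin r => (List.ofFn f).getD i d) = f := funext fun i => getD_ofFn f d i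
      rw [this]
      exact hQ
  · rintro ⟨L, hL, hQ⟩
    exact ⟨_, fun i => getD_mem hL d i.2, hQ⟩

theorem forall_fn_iff {S : List β} {r : ℕ} (d : β) {Q : (Fin r → β) → Prop} :
    (∀ f : Fin r → β, (∀ i, f i ∈ S) → Q f) ↔ ∀ L ∈ words S r, Q fun i => L.getD i d := by
  constructor
  · intro h L hL
    exact h _ fun i => getD_mem hL d i.2
  · intro h f hf
    have h2 := h (List.ofFn f) ((mem_words _ _ _).2 ⟨List.length_ofFn, fun x hx => by
      obtain ⟨i, rfl⟩ := (List.mem_ofFn' f x).1 hx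
      exact hf i⟩)
    have : (fun i : Fin r => (List.ofFn f).getD i d) = f := funext fun i => getD_ofFn f d i
    rwa [this] at h2

end words

/-- the integers `0, ..., N - 1` -/
def seg (N : ℕ) : List ℤ := (List.range N).map fun i : ℕ => (i : ℤ)

theorem mem_seg (N : ℕ) (z : ℤ) : z ∈ seg N ↔ 0 ≤ z ∧ z < N := by
  unfold seg
  simp only [List.mem_map, List.mem_range]
  constructor
  · rintro ⟨i, hi, rfl⟩
    omega
  · rintro ⟨h1, h2⟩
    exact ⟨z.toNat, by omega, by omega⟩

theorem primrec_seg : Primrec seg :=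
  Primrec.list_map (f := fun N : ℕ => List.range N) (g := fun (_ i : ℕ) => (i : ℤ))
    Primrec.list_range (primrec_natCast.comp snd)

/-- the `n × m` matrices with entries `0, ..., N - 1` -/
def matsN (n m N : ℕ) : List IM := words (words (seg N) m) n

theorem primrec_matsN : Primrec fun p : ℕ × ℕ × ℕ => matsN p.1 p.2.1 p.2.2 :=
  primrec_words.comp (primrec_words.comp (primrec_seg.comp (snd.comp snd)) (fst.comp snd)) fst

theorem pMatsN {α : Type*} [Primcodable α] {n m N : α → ℕ} (hn : Primrec n) (hm : Primrec m)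
    (hN : Primrec N) : Primrec fun a => matsN (n a) (m a) (N a) := by
  have h := primrec_matsN.comp (Primrec.pair hn (Primrec.pair hm hN))
  exact h

theorem mem_matsN {n m N : ℕ} {M : IM} :
    M ∈ matsN n m N ↔ M.length = n ∧ ∀ v ∈ M, v.length = m ∧ ∀ x ∈ v, 0 ≤ x ∧ x < (N : ℤ) := by
  unfold matsN
  rw [mem_words]
  simp only [mem_words, mem_seg]

theorem ofMat_mem_matsN {n m N : ℕ} (M : Matrix (Fin n) (Fin m) ℤ)
    (h : ∀ i j, 0 ≤ M i j ∧ M i j < (N : ℤ)) : ofMat M ∈ matsN n m N := by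
  rw [mem_matsN]
  unfold ofMat mk
  refine ⟨by simp, fun v hv => ?_⟩
  obtain ⟨i, hi, rfl⟩ := List.mem_map.1 hv
  refine ⟨by simp, fun x hx => ?_⟩
  obtain ⟨j, hj, rfl⟩ := List.mem_map.1 hx
  have hi' := List.mem_range.1 hi
  have hj' := List.mem_range.1 hj
  beta_reduce
  rw [dif_pos (And.intro hi' hj')]
  exact h _ _

theorem ent_of_mem_matsN {n m N : ℕ} {L : IM} (h : L ∈ matsN n m N) {i j : ℕ} (hi : i < n)
    (hj : j < m) : 0 ≤ ent L i j ∧ ent L i j < (N : ℤ) := by
  have h1 : L.getD i [] ∈ words (seg N) m := getD_mem h [] hi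
  have h2 : (L.getD i []).getD j 0 ∈ seg N := getD_mem h1 0 hj
  exact (mem_seg _ _).1 h2

theorem exists_matsN_iff {n m N : ℕ} {Q : Matrix (Fin n) (Fin m) ℤ → Prop} :
    (∃ M : Matrix (Fin n) (Fin m) ℤ, (∀ i j, 0 ≤ M i j ∧ M i j < (N : ℤ)) ∧ Q M) ↔
      ∃ L ∈ matsN n m N, Q (toMat n m L) := by
  constructor
  · rintro ⟨M, hM, hQ⟩
    exact ⟨ofMat M, ofMat_mem_matsN M hM, by rwa [toMat_ofMat]⟩
  · rintro ⟨L, hL, hQ⟩
    exact ⟨_, fun i j => ent_of_mem_matsN hL i.2 j.2, hQ⟩

theorem forall_matsN_iff {n m N : ℕ} {Q : Matrix (Fin n) (Fin m) ℤ → Prop} :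
    (∀ M : Matrix (Fin n) (Fin m) ℤ, (∀ i j, 0 ≤ M i j ∧ M i j < (N : ℤ)) → Q M) ↔
      ∀ L ∈ matsN n m N, Q (toMat n m L) := by
  constructor
  · intro h L hL
    exact h _ fun i j => ent_of_mem_matsN hL i.2 j.2
  · intro h M hM
    have := h (ofMat M) (ofMat_mem_matsN M hM)
    rwa [toMat_ofMat] at this

/-! ### congruences of matrices -/

/-- congruence of integer matrices modulo `N` -/
def MCong {m n : Type*} (N : ℕ) (A B : Matrix m n ℤ) : Prop := ∀ i j, (N : ℤ) ∣ A i j - B i j

section prim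
variable {α : Type*} [Primcodable α] {n m N : α → ℕ} {A B : α → IM}

theorem pMCong (hN : Primrec N) (hn : Primrec n) (hm : Primrec m) (hA : Primrec A)
    (hB : Primrec B) :
    PrimrecPred fun a => MCong (N a) (toMat (n a) (m a) (A a)) (toMat (n a) (m a) (B a)) := by
  have h1 : PrimrecPred fun q : (α × ℕ) × ℕ =>
      (N q.1.1 : ℤ) ∣ ent (A q.1.1) q.1.2 q.2 - ent (B q.1.1) q.1.2 q.2 :=
    pDvd (hN.comp (fst.comp fst)) (pSub (pEnt (hA.comp (fst.comp fst)) (snd.comp fst) snd)
      (pEnt (hB.comp (fst.comp fst)) (snd.comp fst) snd))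
  have h2 : PrimrecPred fun q : α × ℕ => ∀ j : Fin (m q.1),
      (N q.1 : ℤ) ∣ ent (A q.1) q.2 j - ent (B q.1) q.2 j :=
    pAllFin (R := fun (q : α × ℕ) (j : ℕ) => (N q.1 : ℤ) ∣ ent (A q.1) q.2 j - ent (B q.1) q.2 j)
      h1 (f := fun q => m q.1) (hm.comp fst)
  exact pAllFin (R := fun (a : α) (i : ℕ) => ∀ j : Fin (m a),
      (N a : ℤ) ∣ ent (A a) i j - ent (B a) i j) h2 hn

end prim

/-! ### the final shell -/

/-- negation of a bounded search with an unbounded outer existential: r.e. -/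
theorem re_exists_not {α β : Type*} [Primcodable α] [Primcodable β] {V S : α → β → Prop}
    (hV : PrimrecPred fun p : α × β => V p.1 p.2) (hS : PrimrecPred fun p : α × β => S p.1 p.2) :
    REPred fun a => ∃ b, V a b ∧ ¬ S a b :=
  re_exists (R := fun a b => V a b ∧ ¬ S a b) (re_of_primrec (hV.and hS.not))

end Pool.Agent.DEC.PPred
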