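import Pool.Agent.DEC.StateC
import Pool.Agent.DEC.CR
import Pool.Agent.DEC.PPred

/-!
DEC project (MP_59dda0_an), computability layer: the determinants `gdet` (`State.lean`) of the
matrices `SigM` and `TM` of a state over codes, up to sign; enumeration of subtypes of `Fin n`.
-/

set_option autoImplicit false

namespace Pool.Agent.DEC.GDet

open Matrix Primrec Pool.Agent.DEC Pool.Agent.DEC.PPred

/-! ### enumeration of subtypes of `Fin n` -/

/-- the numbers below `n` with `p` -/
def sel (n : ℕ) (p : ℕ → Prop) [DecidablePred p] : List ℕ :=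
  (List.range n).filter (fun i => decide (p i))

section sel

variable (n : ℕ) (p : ℕ → Prop) [DecidablePred p]

theorem mem_sel {i : ℕ} : i ∈ sel n p ↔ i < n ∧ p i := by
  unfold sel
  simp

theorem nodup_sel : (sel n p).Nodup := List.nodup_range.filter _

/-- the enumeration -/
noncomputable def enumE : Fin (sel n p).length ≃ {i : Fin n // p i} :=
  Equiv.ofBijective (fun k => ⟨⟨(sel n p)[(k : ℕ)], ((mem_sel n p).1 (List.getElem_mem _)).1⟩,
    ((mem_sel n p).1 (List.getElem_mem _)).2⟩) (by
    constructor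
    · intro k l h
      have h1 : (sel n p)[(k : ℕ)] = (sel n p)[(l : ℕ)] :=
        congrArg (fun z : {i : Fin n // p i} => ((z.1 : Fin n) : ℕ)) h
      exact Fin.ext ((nodup_sel n p).getElem_inj_iff.1 h1)
    · rintro ⟨i, hi⟩
      obtain ⟨k, hk, h⟩ := List.mem_iff_getElem.1 ((mem_sel n p).2 ⟨i.2, hi⟩)
      exact ⟨⟨k, hk⟩, Subtype.ext (Fin.ext h)⟩)

theorem enumE_apply (k : Fin (sel n p).length) :
    ((enumE n p k).1 : ℕ) = (sel n p).getD k 0 := by
  rw [List.getD_eq_getElem _ _ k.2]
  rfl

theorem card_sel [Fintype {i : Fin n // p i}] :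
    Fintype.card {i : Fin n // p i} = (sel n p).length := by
  rw [← Fintype.card_congr (enumE n p), Fintype.card_fin]

end sel

theorem pSel {α : Type*} [Primcodable α] {n : α → ℕ} {p : α → ℕ → Prop}
    [∀ a, DecidablePred (p a)] (hn : Primrec n) (hp : PrimrecPred fun q : α × ℕ => p q.1 q.2) :
    Primrec fun a => sel (n a) (p a) := by
  classical
  have h : Primrec fun a => (List.range (n a)).filterMap
      fun i => if p a i then some i else none := by
    refine Primrec.listFilterMap (list_range.comp hn) ?_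
    exact Primrec.ite hp (Primrec.option_some.comp snd) (Primrec.const none)
  refine h.of_eq fun a => ?_
  unfold sel
  rw [← List.filterMap_eq_filter]
  refine congrArg (fun f => List.filterMap f (List.range (n a))) ?_
  funext i
  by_cases hi : p a i <;> simp [hi, Option.guard]

/-! ### `gdet` up to sign -/

section gd

variable {R : Type} [CommRing R] {M N : Type} [Fintype M] [Fintype N] [DecidableEq N]

theorem gdet_submatrix (A : Matrix M N R) {r : ℕ} (e : Fin r ≃ M) (f : Fin r ≃ N) :
    (A.submatrix e f).det = gdet A ∨ (A.submatrix e f).det = - gdet A := by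
  have h : Fintype.card N = Fintype.card M :=
    (Fintype.card_congr f).symm.trans (Fintype.card_congr e)
  rw [gdet_eq _ h]
  obtain ⟨E, hE⟩ : ∃ E : N ≃ M, E = Fintype.equivOfCardEq h := ⟨_, rfl⟩
  rw [← hE]
  obtain ⟨π, hπ⟩ : ∃ π : Equiv.Perm N, π = f.symm.trans (e.trans E.symm) := ⟨_, rfl⟩
  have h1 : A.submatrix e f = ((A.submatrix E id).submatrix π id).submatrix f f := by
    ext i j
    simp [hπ]
  rw [h1, det_submatrix_equiv_self, det_permute]
  rcases Int.units_eq_one_or (Equiv.Perm.sign π) with h | h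
  · left
    simp [h]
  · right
    simp [h]

variable {S : Type} [Primcodable S] (c : CR S R)

/-- code of `gdet` of the matrix with `m` rows, `n` columns and entries `f i k` -/
def cG (m n : ℕ) (f : ℕ → ℕ → S) : S := if m = n then c.det n f else c.zero

theorem val_cG (A : Matrix M N R) {m n : ℕ} (e : Fin m ≃ M) (g : Fin n ≃ N) (f : ℕ → ℕ → S)
    (hf : ∀ (i : Fin m) (k : Fin n), c.val (f i k) = A (e i) (g k)) :
    c.val (cG c m n f) = gdet A ∨ c.val (cG c m n f) = - gdet A := by
  unfold cG
  by_cases h : m = n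
  · subst h
    rw [if_pos rfl, c.val_det]
    have h1 : (Matrix.of fun i j : Fin m => c.val (f i j)) = A.submatrix e g := by
      ext i k
      exact hf i k
    rw [h1]
    exact gdet_submatrix A e g
  · left
    rw [if_neg h, c.val_zero, gdet_ne]
    intro h2
    refine h ?_
    have h3 := Fintype.card_congr e
    have h4 := Fintype.card_congr g
    rw [Fintype.card_fin] at h3 h4
    rw [h3, h4, h2]

theorem pCG {α : Type*} [Primcodable α] {m n : α → ℕ} {f : α → ℕ → ℕ → S} (hm : Primrec m)
    (hn : Primrec n) (hf : Primrec fun q : α × ℕ × ℕ => f q.1 q.2.1 q.2.2) :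
    Primrec fun a => cG c (m a) (n a) (f a) :=
  Primrec.ite (Primrec.eq.comp hm hn) (c.pDet hn hf) (Primrec.const _)

end gd

/-! ### shapes and states over codes -/

/-- the shape given by three lists -/
def shp (r x z : ℕ) (dl ll ml : List ℕ) : Shp (Fin r) (Fin x) (Fin z) where
  deg i := dl.getD i 0
  lam i := ll.getD i 0
  mu i := ml.getD i 0

section st

variable {R S : Type} [CommRing R] [Primcodable S] (c : CR S R)

/-- the state given by three codes of matrices -/
def stC (r x z : ℕ) (C rho tau : List (List S)) : RSt R (Fin r) (Fin x) (Fin z) :=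
  (c.toM r r C, c.toM x r rho, c.toM z r tau)

/-- code of the determinant of `SigM` up to sign -/
def cSig (r x : ℕ) (dl ll : List ℕ) (C rho : List (List S)) (j : ℕ) : S :=
  cG c ((sel r fun p => j + 1 ≤ dl.getD p 0).length + (sel x fun a => j + 1 ≤ ll.getD a 0).length)
    (sel r fun q => j ≤ dl.getD q 0).length fun i k =>
      if i < (sel r fun p => j + 1 ≤ dl.getD p 0).length then
        c.ent C ((sel r fun p => j + 1 ≤ dl.getD p 0).getD i 0)
          ((sel r fun q => j ≤ dl.getD q 0).getD k 0)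
      else c.ent rho ((sel x fun a => j + 1 ≤ ll.getD a 0).getD
          (i - (sel r fun p => j + 1 ≤ dl.getD p 0).length) 0)
          ((sel r fun q => j ≤ dl.getD q 0).getD k 0)

theorem val_cSig (r x z : ℕ) (dl ll ml : List ℕ) (C rho tau : List (List S)) (j : ℕ)
    [Fintype ({p : Fin r // j + 1 ≤ (shp r x z dl ll ml).deg p} ⊕
      {a : Fin x // j + 1 ≤ (shp r x z dl ll ml).lam a})]
    [Fintype {q : Fin r // j ≤ (shp r x z dl ll ml).deg q}]
    [DecidableEq {q : Fin r // j ≤ (shp r x z dl ll ml).deg q}] :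
    c.val (cSig c r x dl ll C rho j) =
        gdet (SigM (shp r x z dl ll ml) (stC c r x z C rho tau) j) ∨
      c.val (cSig c r x dl ll C rho j) =
        - gdet (SigM (shp r x z dl ll ml) (stC c r x z C rho tau) j) := by
  unfold cSig
  refine val_cG c (SigM (shp r x z dl ll ml) (stC c r x z C rho tau) j)
    (finSumFinEquiv.symm.trans (Equiv.sumCongr
      (enumE r fun p => j + 1 ≤ dl.getD p 0) (enumE x fun a => j + 1 ≤ ll.getD a 0)))
    (enumE r fun q => j ≤ dl.getD q 0) _ ?_
  intro i k
  refine Fin.addCases ?_ ?_ i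
  · intro i
    rw [if_pos (by rw [Fin.val_castAdd]; exact i.2)]
    rw [Equiv.trans_apply, finSumFinEquiv_symm_apply_castAdd]
    change _ = c.val (c.ent C ((enumE r fun p => j + 1 ≤ dl.getD p 0) i).1
      ((enumE r fun q => j ≤ dl.getD q 0) k).1)
    rw [enumE_apply, enumE_apply, Fin.val_castAdd]
  · intro i
    rw [if_neg (by rw [Fin.val_natAdd]; omega)]
    rw [Equiv.trans_apply, finSumFinEquiv_symm_apply_natAdd]
    change _ = c.val (c.ent rho ((enumE x fun a => j + 1 ≤ ll.getD a 0) i).1
      ((enumE r fun q => j ≤ dl.getD q 0) k).1)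
    rw [enumE_apply, enumE_apply, Fin.val_natAdd, Nat.add_sub_cancel_left]

/-- code of the determinant of `TM` up to sign -/
def cT (r z : ℕ) (dl ml : List ℕ) (C tau : List (List S)) (j : ℕ) : S :=
  cG c (sel z fun b => j + 1 ≤ ml.getD b 0).length (sel r fun q => dl.getD q 0 = j).length
    fun i k => c.ent (c.mmul z r r tau
        (c.mpow r C (ml.getD ((sel z fun b => j + 1 ≤ ml.getD b 0).getD i 0) 0 - 1 - j)))
      ((sel z fun b => j + 1 ≤ ml.getD b 0).getD i 0)
      ((sel r fun q => dl.getD q 0 = j).getD k 0)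

theorem val_cT (r x z : ℕ) (dl ll ml : List ℕ) (C rho tau : List (List S)) (j : ℕ)
    [Fintype {b : Fin z // j + 1 ≤ (shp r x z dl ll ml).mu b}]
    [Fintype {q : Fin r // (shp r x z dl ll ml).deg q = j}]
    [DecidableEq {q : Fin r // (shp r x z dl ll ml).deg q = j}] :
    c.val (cT c r z dl ml C tau j) =
        gdet (TM (shp r x z dl ll ml) (stC c r x z C rho tau) j) ∨
      c.val (cT c r z dl ml C tau j) =
        - gdet (TM (shp r x z dl ll ml) (stC c r x z C rho tau) j) := by
  unfold cT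
  refine val_cG c (TM (shp r x z dl ll ml) (stC c r x z C rho tau) j)
    (enumE z fun b => j + 1 ≤ ml.getD b 0) (enumE r fun q => dl.getD q 0 = j) _ ?_
  intro i k
  rw [← enumE_apply, ← enumE_apply, ← CR.toM_apply, CR.toM_mmul, CR.toM_mpow]
  rfl

/-- `Sat` over codes -/
theorem sat_iff (r x z : ℕ) (dl ll ml : List ℕ) (j : ℕ) :
    Sat (shp r x z dl ll ml) j ↔
      (sel x fun a => j + 1 ≤ ll.getD a 0).length = (sel r fun q => dl.getD q 0 = j).length ∧
      (sel z fun b => j + 1 ≤ ml.getD b 0).length = (sel r fun q => dl.getD q 0 = j).length ∧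
      ∃ b < z, ml.getD b 0 = j + 1 := by
  have h1 : Fintype.card {a : Fin x // j + 1 ≤ (shp r x z dl ll ml).lam a} =
      (sel x fun a => j + 1 ≤ ll.getD a 0).length := card_sel x fun a => j + 1 ≤ ll.getD a 0
  have h2 : Fintype.card {b : Fin z // j + 1 ≤ (shp r x z dl ll ml).mu b} =
      (sel z fun b => j + 1 ≤ ml.getD b 0).length := card_sel z fun b => j + 1 ≤ ml.getD b 0
  have h3 : Fintype.card {q : Fin r // (shp r x z dl ll ml).deg q = j} =
      (sel r fun q => dl.getD q 0 = j).length := card_sel r fun q => dl.getD q 0 = j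
  unfold Sat
  rw [h1, h2, h3]
  refine and_congr_right fun _ => and_congr_right fun _ => ?_
  exact ⟨fun ⟨b, h⟩ => ⟨b, b.2, h⟩, fun ⟨b, hb, h⟩ => ⟨⟨b, hb⟩, h⟩⟩

/-- the support conditions of a state over codes -/
theorem isSt_iff (r x z : ℕ) (dl ll ml : List ℕ) (C rho tau : List (List S)) :
    IsSt (shp r x z dl ll ml) (stC c r x z C rho tau) ↔
      (∀ p < r, ∀ q < r, dl.getD p 0 ≤ dl.getD q 0 → c.val (c.ent C p q) = 0) ∧
      (∀ a < x, ∀ q < r, ll.getD a 0 ≤ dl.getD q 0 → c.val (c.ent rho a q) = 0) ∧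
      (∀ b < z, ∀ q < r, ml.getD b 0 ≤ dl.getD q 0 → c.val (c.ent tau b q) = 0) := by
  constructor
  · intro h
    exact ⟨fun p hp q hq hh => h.c ⟨p, hp⟩ ⟨q, hq⟩ hh, fun p hp q hq hh => h.rho ⟨p, hp⟩ ⟨q, hq⟩ hh,
      fun p hp q hq hh => h.tau ⟨p, hp⟩ ⟨q, hq⟩ hh⟩
  · rintro ⟨h1, h2, h3⟩
    exact ⟨fun p q hh => h1 p p.2 q q.2 hh, fun p q hh => h2 p p.2 q q.2 hh,
      fun p q hh => h3 p p.2 q q.2 hh⟩

/-! ### primitive recursiveness -/

section pr

variable {α : Type*} [Primcodable α]

theorem pNatGetD {l : α → List ℕ} {i : α → ℕ} (hl : Primrec l) (hi : Primrec i) :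
    Primrec fun a => (l a).getD (i a) 0 := (Primrec.list_getD (0 : ℕ)).comp hl hi

theorem pSelGe {n j : α → ℕ} {l : α → List ℕ} (hn : Primrec n) (hl : Primrec l)
    (hj : Primrec j) : Primrec fun a => sel (n a) fun p => j a ≤ (l a).getD p 0 :=
  pSel hn (Primrec.nat_le.comp (hj.comp fst) (pNatGetD (hl.comp fst) snd))

theorem pSelEq {n j : α → ℕ} {l : α → List ℕ} (hn : Primrec n) (hl : Primrec l)
    (hj : Primrec j) : Primrec fun a => sel (n a) fun p => (l a).getD p 0 = j a :=
  pSel hn (Primrec.eq.comp (pNatGetD (hl.comp fst) snd) (hj.comp fst))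

theorem pCSig {r x j : α → ℕ} {dl ll : α → List ℕ} {C rho : α → List (List S)} (hr : Primrec r)
    (hx : Primrec x) (hd : Primrec dl) (hll : Primrec ll) (hC : Primrec C) (hrho : Primrec rho)
    (hj : Primrec j) :
    Primrec fun a => cSig c (r a) (x a) (dl a) (ll a) (C a) (rho a) (j a) := by
  have h1 : Primrec fun a => sel (r a) fun p => j a + 1 ≤ (dl a).getD p 0 :=
    pSelGe (j := fun a => j a + 1) hr hd (Primrec.succ.comp hj)
  have h2 : Primrec fun a => sel (x a) fun p => j a + 1 ≤ (ll a).getD p 0 :=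
    pSelGe (j := fun a => j a + 1) hx hll (Primrec.succ.comp hj)
  have h3 : Primrec fun a => sel (r a) fun p => j a ≤ (dl a).getD p 0 := pSelGe hr hd hj
  unfold cSig
  refine pCG c (Primrec.nat_add.comp (list_length.comp h1) (list_length.comp h2))
    (list_length.comp h3) ?_
  have hi : Primrec fun q : α × ℕ × ℕ => q.2.1 := fst.comp snd
  have hk : Primrec fun q : α × ℕ × ℕ => q.2.2 := snd.comp snd
  refine Primrec.ite (Primrec.nat_lt.comp hi (list_length.comp (h1.comp fst))) ?_ ?_
  · exact c.pEnt (hC.comp fst) (pNatGetD (h1.comp fst) hi) (pNatGetD (h3.comp fst) hk)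
  · exact c.pEnt (hrho.comp fst) (pNatGetD (h2.comp fst) (Primrec.nat_sub.comp hi
      (list_length.comp (h1.comp fst)))) (pNatGetD (h3.comp fst) hk)

theorem pCT {r z j : α → ℕ} {dl ml : α → List ℕ} {C tau : α → List (List S)} (hr : Primrec r)
    (hz : Primrec z) (hd : Primrec dl) (hm : Primrec ml) (hC : Primrec C) (htau : Primrec tau)
    (hj : Primrec j) :
    Primrec fun a => cT c (r a) (z a) (dl a) (ml a) (C a) (tau a) (j a) := by
  have h1 : Primrec fun a => sel (z a) fun p => j a + 1 ≤ (ml a).getD p 0 :=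
    pSelGe (j := fun a => j a + 1) hz hm (Primrec.succ.comp hj)
  have h3 : Primrec fun a => sel (r a) fun p => (dl a).getD p 0 = j a := pSelEq hr hd hj
  unfold cT
  refine pCG c (list_length.comp h1) (list_length.comp h3) ?_
  have hi : Primrec fun q : α × ℕ × ℕ => q.2.1 := fst.comp snd
  have hk : Primrec fun q : α × ℕ × ℕ => q.2.2 := snd.comp snd
  have hb : Primrec fun q : α × ℕ × ℕ =>
      (sel (z q.1) fun p => j q.1 + 1 ≤ (ml q.1).getD p 0).getD q.2.1 0 :=
    pNatGetD (h1.comp fst) hi
  refine c.pEnt ?_ hb (pNatGetD (h3.comp fst) hk)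
  refine c.pMmul (hz.comp fst) (hr.comp fst) (hr.comp fst) (htau.comp fst) ?_
  refine c.pMpow (hr.comp fst) (hC.comp fst) ?_
  exact Primrec.nat_sub.comp (Primrec.nat_sub.comp (pNatGetD (hm.comp fst) hb)
    (Primrec.const 1)) (hj.comp fst)

theorem pSat {r x z j : α → ℕ} {dl ll ml : α → List ℕ} (hr : Primrec r) (hx : Primrec x)
    (hz : Primrec z) (hd : Primrec dl) (hl : Primrec ll) (hm : Primrec ml) (hj : Primrec j) :
    PrimrecPred fun a => Sat (shp (r a) (x a) (z a) (dl a) (ll a) (ml a)) (j a) := by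
  have h1 : Primrec fun a => sel (x a) fun p => j a + 1 ≤ (ll a).getD p 0 :=
    pSelGe (j := fun a => j a + 1) hx hl (Primrec.succ.comp hj)
  have h2 : Primrec fun a => sel (z a) fun p => j a + 1 ≤ (ml a).getD p 0 :=
    pSelGe (j := fun a => j a + 1) hz hm (Primrec.succ.comp hj)
  have h3 : Primrec fun a => sel (r a) fun p => (dl a).getD p 0 = j a := pSelEq hr hd hj
  have h := pAnd (pEq (list_length.comp h1) (list_length.comp h3))
    (pAnd (pEq (list_length.comp h2) (list_length.comp h3))
      (pExLt (R := fun a b => (ml a).getD b 0 = j a + 1)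
        (pEq (pNatGetD (hm.comp fst) snd) (Primrec.succ.comp (hj.comp fst))) hz))
  exact h.of_eq fun a => (sat_iff _ _ _ _ _ _ _).symm

end pr

end st

end Pool.Agent.DEC.GDet
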