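import Pool.Agent.DEC.Red4

/-!
DEC project (MP_59dda0_an): the final statement from recursively enumerable certificates for
primitive matrices of equal entropy.
-/

set_option autoImplicit false
set_option linter.unusedSimpArgs false

namespace Pool.Agent.DEC

open Primrec
open Pool.Agent.FT (IsPrimitive HasEntropy edgeShift PeriodCondition)

/-- the matrix of a code `(size, list of rows)` -/
abbrev cM (c : ℕ × IM) : Matrix (Fin c.1) (Fin c.1) ℕ := natMat c.1 c.1 c.2

/-- equal entropy -/
def SameEnt {a b : ℕ} (A : Matrix (Fin a) (Fin a) ℕ) (B : Matrix (Fin b) (Fin b) ℕ) : Prop :=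
  ∃ h, HasEntropy (edgeShift A) h ∧ HasEntropy (edgeShift B) h

/-- there is a factor code -/
def HasCode {a b : ℕ} (A : Matrix (Fin a) (Fin a) ℕ) (B : Matrix (Fin b) (Fin b) ℕ) : Prop :=
  ∃ φ : edgeShift A → edgeShift B, FT.IsFactorCode φ

/-- finite-to-one = equal entropy (proved in DEC/Fin) -/
def FinIff : Prop :=
  ∀ {a b : ℕ} (A : Matrix (Fin a) (Fin a) ℕ) (B : Matrix (Fin b) (Fin b) ℕ),
    IsPrimitive A → IsPrimitive B →
    ((∃ φ : edgeShift A → edgeShift B, FT.IsFactorCode φ ∧ ∀ y, {x | φ x = y}.Finite) ↔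
      SameEnt A B ∧ HasCode A B)

/-- positive integer intertwiner -/
def PosInt {a b : ℕ} (A : Matrix (Fin a) (Fin a) ℕ) (B : Matrix (Fin b) (Fin b) ℕ) : Prop :=
  ∃ R : Matrix (Fin a) (Fin b) ℤ, (∀ i j, 0 < R i j) ∧ zM A * R = R * zM B

theorem final_of_certs (hF : FinIff) {Yes No : (ℕ × IM) × (ℕ × IM) → Prop}
    (hY : REPred Yes) (hN : REPred No)
    (h : ∀ c d : ℕ × IM, IsPrimitive (cM c) → IsPrimitive (cM d) → SameEnt (cM c) (cM d) →
      (Yes (c, d) ↔ HasCode (cM c) (cM d)) ∧ (No (c, d) ↔ ¬ HasCode (cM c) (cM d))) :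
    FinalStatement := by
  classical
  -- the predicate on pairs of codes
  set p : (ℕ × IM) × (ℕ × IM) → Prop := fun e => (e.1.1 = 0 ∧ e.2.1 = 0) ∨
    (IsPrimitive (cM e.1) ∧ IsPrimitive (cM e.2) ∧ PosInt (cM e.1) (cM e.2) ∧ Yes e) with hp
  set q : (ℕ × IM) × (ℕ × IM) → Prop := fun e => (e.1.1 = 0 ∧ e.2.1 ≠ 0) ∨
    ((e.1.1 ≠ 0 ∧ e.2.1 = 0) ∨
    ((e.1.1 ≠ 0 ∧ ¬ IsPrimitive (cM e.1)) ∨
    ((e.2.1 ≠ 0 ∧ ¬ IsPrimitive (cM e.2)) ∨
    ((IsPrimitive (cM e.1) ∧ IsPrimitive (cM e.2) ∧
      (RowLt (cM e.1) (cM e.2) ∨ RowLt (cM e.2) (cM e.1))) ∨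
    (IsPrimitive (cM e.1) ∧ IsPrimitive (cM e.2) ∧ PosInt (cM e.1) (cM e.2) ∧ No e))))) with hq
  have c11 : Computable fun e : (ℕ × IM) × (ℕ × IM) => e.1.1 :=
    Computable.fst.comp Computable.fst
  have c12 : Computable fun e : (ℕ × IM) × (ℕ × IM) => e.1.2 :=
    Computable.snd.comp Computable.fst
  have c21 : Computable fun e : (ℕ × IM) × (ℕ × IM) => e.2.1 :=
    Computable.fst.comp Computable.snd
  have c22 : Computable fun e : (ℕ × IM) × (ℕ × IM) => e.2.2 :=
    Computable.snd.comp Computable.snd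
  have r1 : REPred fun e : (ℕ × IM) × (ℕ × IM) => IsPrimitive (cM e.1) :=
    re_isPrimitive c11 c12
  have r2 : REPred fun e : (ℕ × IM) × (ℕ × IM) => IsPrimitive (cM e.2) :=
    re_isPrimitive c21 c22
  have r3 : REPred fun e : (ℕ × IM) × (ℕ × IM) => PosInt (cM e.1) (cM e.2) :=
    re_entropy_eq c11 c21 c12 c22
  have r4 : REPred fun e : (ℕ × IM) × (ℕ × IM) => RowLt (cM e.1) (cM e.2) :=
    re_rowLt c11 c21 c12 c22
  have r5 : REPred fun e : (ℕ × IM) × (ℕ × IM) => RowLt (cM e.2) (cM e.1) :=
    re_rowLt c21 c11 c22 c12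
  have r6 : REPred fun e : (ℕ × IM) × (ℕ × IM) => ¬ IsPrimitive (cM e.1) :=
    re_not_isPrimitive c11 c12
  have r7 : REPred fun e : (ℕ × IM) × (ℕ × IM) => ¬ IsPrimitive (cM e.2) :=
    re_not_isPrimitive c21 c22
  have z : Computable fun _ : (ℕ × IM) × (ℕ × IM) => 0 := Computable.const 0
  have rp : REPred p := re_or (re_and (re_eq c11 z) (re_eq c21 z))
    (re_and r1 (re_and r2 (re_and r3 hY)))
  have rq : REPred q := re_or (re_and (re_eq c11 z) (re_ne c21 z))
    (re_or (re_and (re_ne c11 z) (re_eq c21 z))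
    (re_or (re_and (re_ne c11 z) r6)
    (re_or (re_and (re_ne c21 z) r7)
    (re_or (re_and r1 (re_and r2 (re_or r4 r5)))
    (re_and r1 (re_and r2 (re_and r3 hN)))))))
  -- positive size
  have hprim0 : ∀ c : ℕ × IM, IsPrimitive (cM c) → c.1 ≠ 0 := fun c hc => hc.1.ne'
  have hpq : ∀ e, ¬ p e ↔ q e := by
    rintro ⟨c, d⟩
    by_cases hc : IsPrimitive (cM c)
    · by_cases hd : IsPrimitive (cM d)
      · have hc0 := hprim0 c hc
        have hd0 := hprim0 d hd
        by_cases hs : SameEnt (cM c) (cM d)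
        · have h1 : PosInt (cM c) (cM d) := (entropy_eq_iff hc hd).1 hs
          have h2 : ¬ (RowLt (cM c) (cM d) ∨ RowLt (cM d) (cM c)) := fun h2 =>
            (entropy_ne_iff hc hd).2 h2 hs
          obtain ⟨h3, h4⟩ := h c d hc hd hs
          simp only [hp, hq, hc, hd, hc0, hd0, h1, h2, true_and, false_and, false_or,
            not_true_eq_false, and_false, and_true, ne_eq, not_false_eq_true]
          rw [h3, h4]
        · have h1 : ¬ PosInt (cM c) (cM d) := fun h1 => hs ((entropy_eq_iff hc hd).2 h1)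
          have h2 : RowLt (cM c) (cM d) ∨ RowLt (cM d) (cM c) := (entropy_ne_iff hc hd).1 hs
          simp only [hp, hq, hc, hd, hc0, hd0, h1, h2, true_and, false_and, false_or, or_false,
            not_true_eq_false, and_false, and_true, ne_eq, not_false_eq_true]
      · by_cases hd0 : d.1 = 0
        · have hc0 := hprim0 c hc
          simp only [hp, hq, hc, hd, hc0, hd0, true_and, false_and, false_or, or_false,
            not_true_eq_false, and_false, and_true, ne_eq, not_false_eq_true]
        · simp only [hp, hq, hc, hd, hd0, true_and, false_and, false_or, or_false,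
            not_true_eq_false, and_false, and_true, ne_eq, not_false_eq_true, true_or, or_true]
    · by_cases hc0 : c.1 = 0
      · by_cases hd0 : d.1 = 0
        · simp only [hp, hq, hc, hc0, hd0, true_and, false_and, false_or, or_false,
            not_true_eq_false, and_false, and_true, ne_eq, not_false_eq_true]
        · simp only [hp, hq, hc, hc0, hd0, true_and, false_and, false_or, or_false,
            not_true_eq_false, and_false, and_true, ne_eq, not_false_eq_true, true_or]
      · simp only [hp, hq, hc, hc0, true_and, false_and, false_or, or_false,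
            not_true_eq_false, and_false, and_true, ne_eq, not_false_eq_true, true_or, or_true]
  have hpc : ComputablePred p :=
    ComputablePred.computable_iff_re_compl_re'.2 ⟨rp, rq.of_eq fun e => (hpq e).symm⟩
  obtain ⟨g, hg, hgp⟩ := ComputablePred.computable_iff.1 hpc
  refine ⟨fun PQ => g (red PQ.1, red PQ.2), ?_, ?_⟩
  · exact hg.comp (Computable.pair (pRed.to_comp.comp Computable.fst)
      (pRed.to_comp.comp Computable.snd))
  · intro P Q hP hQ
    have h1 : (g (red P, red Q) = true) ↔ p (red P, red Q) := by rw [hgp]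
    change g (red P, red Q) = true ↔ _
    rw [h1]
    have hA : AA P = cM (red P) := rfl
    have hB : AA Q = cM (red Q) := rfl
    by_cases hP0 : (red P).1 = 0
    · by_cases hQ0 : (red Q).1 = 0
      · exact ⟨fun _ => finiteFactor_of_empty hP0 hQ0, fun _ => Or.inl ⟨hP0, hQ0⟩⟩
      · constructor
        · rintro (⟨-, h2⟩ | ⟨h2, -⟩)
          · exact absurd h2 hQ0
          · exact absurd hP0 (hprim0 _ h2)
        · intro h2
          exact absurd ((red_zero_iff_of_finiteFactor h2).1 hP0) hQ0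
    · by_cases hQ0 : (red Q).1 = 0
      · constructor
        · rintro (⟨h2, -⟩ | ⟨-, h2, -⟩)
          · exact absurd h2 hP0
          · exact absurd hQ0 (hprim0 _ h2)
        · intro h2
          exact absurd ((red_zero_iff_of_finiteFactor h2).2 hQ0) hP0
      · have pA : IsPrimitive (cM (red P)) := primitive_of_mixing hP (Nat.pos_of_ne_zero hP0)
        have pB : IsPrimitive (cM (red Q)) := primitive_of_mixing hQ (Nat.pos_of_ne_zero hQ0)
        rw [finiteFactor_iff_AA, finiteFactor_edge_iff, hA, hB, hF _ _ pA pB]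
        constructor
        · rintro (⟨h2, -⟩ | ⟨-, -, h2, h3⟩)
          · exact absurd h2 hP0
          · have hs : SameEnt (cM (red P)) (cM (red Q)) := (entropy_eq_iff pA pB).2 h2
            exact ⟨hs, (h _ _ pA pB hs).1.1 h3⟩
        · rintro ⟨hs, h2⟩
          exact Or.inr ⟨pA, pB, (entropy_eq_iff pA pB).1 hs, (h _ _ pA pB hs).1.2 h2⟩

/-- the criterion of the project FTO -/
def Criterion : Prop :=
  ∀ {a b : ℕ} (A : Matrix (Fin a) (Fin a) ℕ) (B : Matrix (Fin b) (Fin b) ℕ),
    IsPrimitive A → IsPrimitive B → SameEnt A B →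
    (HasCode A B ↔ FT.TraceDimCondition A B ∧ PeriodCondition (edgeShift A) (edgeShift B))

/-- The final statement from r.e. certificates for the dimension condition with traces. -/
theorem final_of_trace_certs (hF : FinIff) (hC : Criterion)
    {Yes No : (ℕ × IM) × (ℕ × IM) → Prop} (hY : REPred Yes) (hN : REPred No)
    (h : ∀ c d : ℕ × IM, IsPrimitive (cM c) → IsPrimitive (cM d) → SameEnt (cM c) (cM d) →
      (Yes (c, d) ↔ FT.TraceDimCondition (cM c) (cM d)) ∧
      (No (c, d) ↔ ¬ FT.TraceDimCondition (cM c) (cM d))) : FinalStatement := by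
  have c11 : Computable fun e : (ℕ × IM) × (ℕ × IM) => e.1.1 :=
    Computable.fst.comp Computable.fst
  have c12 : Computable fun e : (ℕ × IM) × (ℕ × IM) => e.1.2 :=
    Computable.snd.comp Computable.fst
  have c21 : Computable fun e : (ℕ × IM) × (ℕ × IM) => e.2.1 :=
    Computable.fst.comp Computable.snd
  have c22 : Computable fun e : (ℕ × IM) × (ℕ × IM) => e.2.2 :=
    Computable.snd.comp Computable.snd
  have r1 : REPred fun e : (ℕ × IM) × (ℕ × IM) => IsPrimitive (cM e.2) ∧
      PeriodCondition (edgeShift (cM e.1)) (edgeShift (cM e.2)) := re_period c11 c21 c12 c22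
  have r2 : REPred fun e : (ℕ × IM) × (ℕ × IM) =>
      ¬ PeriodCondition (edgeShift (cM e.1)) (edgeShift (cM e.2)) :=
    re_not_period c11 c21 c12 c22
  refine final_of_certs hF (re_and hY r1) (re_or hN r2) ?_
  intro c d hc hd hs
  obtain ⟨h1, h2⟩ := h c d hc hd hs
  rw [hC _ _ hc hd hs]
  constructor
  · dsimp only
    rw [h1]
    tauto
  · dsimp only
    rw [h2]
    tauto

end Pool.Agent.DEC
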