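import Pool.Agent.DEC.Glue
import Pool.Agent.DEC.FinD

/-!
DEC project (MP_59dda0_an): the glue with the theorem on finite-to-one codes.
-/

set_option autoImplicit false

namespace Pool.Agent.DEC

open Pool.Agent.FT (IsPrimitive HasEntropy edgeShift PeriodCondition)

theorem finIff : FinIff := by
  intro a b A B hA hB
  rw [← finiteFactor_edge_iff]
  exact Fn.finiteFactor_iff hA hB

/-- The final statement from r.e. certificates for the dimension condition with traces and the
criterion. -/
theorem final_of (hC : Criterion)
    {Yes No : (ℕ × IM) × (ℕ × IM) → Prop} (hY : REPred Yes) (hN : REPred No)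
    (h : ∀ c d : ℕ × IM, IsPrimitive (cM c) → IsPrimitive (cM d) → SameEnt (cM c) (cM d) →
      (Yes (c, d) ↔ FT.TraceDimCondition (cM c) (cM d)) ∧
      (No (c, d) ↔ ¬ FT.TraceDimCondition (cM c) (cM d))) : FinalStatement :=
  final_of_trace_certs finIff hC hY hN h

end Pool.Agent.DEC
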