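import Pool.Agent.DEC.CDefs
import Pool.Agent.DEC.STopT

/-!
Existence of admissible `n` (helper32): `GN` of the completeness half.
-/

set_option autoImplicit false
set_option linter.unusedSectionVars false

open Matrix Polynomial

namespace Pool.Agent.DEC.GN

open RefQ

variable {a b : ℕ} {A : Matrix (Fin a) (Fin a) ℕ} {B : Matrix (Fin b) (Fin b) ℕ} (ρ : Ref A B)

theorem isDomain (i : Fin ρ.f) : IsDomain (Lam (ρ.g i)) :=
  AdjoinRoot.isDomain_of_prime (ρ.irr i).prime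

theorem free (i : Fin ρ.f) : Module.Free ℤ (Lam (ρ.g i)) := (ρ.monic i).free_adjoinRoot

theorem finite (i : Fin ρ.f) : Module.Finite ℤ (Lam (ρ.g i)) := (ρ.monic i).finite_adjoinRoot

theorem th_ne (i : Fin ρ.f) : ρ.th i ≠ 0 := root_ne (ρ.monic i) (ρ.irr i) (ρ.g0 i)

theorem D_pos : 0 < ρ.D := Nat.mul_pos ρ.Δ_pos (pow_pos ρ.q_pos _)

variable (K : Fin ρ.f → Type) [∀ i, Field (K i)] [∀ i, Algebra ℚ (K i)]
  [∀ i, Algebra (Lam (ρ.g i)) (K i)] [∀ i, IsFractionRing (Lam (ρ.g i)) (K i)]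

/-- a prime which divides no `g i (0)` -/
theorem exists_prime : ∃ q0 : ℕ, q0.Prime ∧ ∀ i, ¬ ((q0 : ℤ) ∣ (ρ.g i).coeff 0) := by
  obtain ⟨q0, hq, hp⟩ := Nat.exists_infinite_primes
    ((∑ i, ((ρ.g i).coeff 0).natAbs) + 1)
  refine ⟨q0, hp, fun i hi => ?_⟩
  have h1 := Int.natCast_dvd.mp hi
  have h2 : 0 < ((ρ.g i).coeff 0).natAbs := Int.natAbs_pos.mpr (ρ.g0 i)
  have h3 := Nat.le_of_dvd h2 h1
  have h4 : ((ρ.g i).coeff 0).natAbs ≤ ∑ i, ((ρ.g i).coeff 0).natAbs :=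
    Finset.single_le_sum (f := fun i => ((ρ.g i).coeff 0).natAbs) (fun _ _ => Nat.zero_le _)
      (Finset.mem_univ i)
  omega

/-- the admissible `n`: all multiples of some `M > 0` -/
theorem exists_goodN_dvd : ∃ M : ℕ, 0 < M ∧ ∀ n : ℕ, 0 < n → M ∣ n →
    GoodN ρ K n ∧ ∀ i, IsPrincipalIdealRing (OK ρ K n i) := by
  have hM : ∀ i, ∃ M : ℕ, 0 < M ∧ ∀ d : ℕ, d ≠ 0 → M ∣ d →
      IsPrincipalIdealRing (locOT (Lam (ρ.g i)) (K i) d (ρ.th i)) := by
    intro i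
    have := isDomain ρ i
    have := free ρ i
    have := finite ρ i
    exact STopT.exists_pid (Lam (ρ.g i)) (K i) (ρ.th i)
  choose M hM0 hM using hM
  obtain ⟨q0, hq0, hq0i⟩ := exists_prime ρ
  let e : Fin ρ.f → ℕ := fun i => 1 + (Algebra.norm ℤ (ρ.th i)).natAbs
  refine ⟨q0 * ρ.D * (∏ i, M i) * (∏ i, e i), ?_, ?_⟩
  · refine Nat.mul_pos (Nat.mul_pos (Nat.mul_pos hq0.pos (D_pos ρ)) ?_) ?_
    · exact Finset.prod_pos fun i _ => hM0 i
    · exact Finset.prod_pos fun i _ => Nat.add_pos_left Nat.one_pos _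
  · intro n hn hdvd
    have h2 : q0 ∣ n := (Dvd.intro (ρ.D * (∏ i, M i) * (∏ i, e i)) (by ring)).trans hdvd
    have hD : ρ.D ∣ n := (Dvd.intro_left (q0 * (∏ i, M i) * (∏ i, e i)) (by ring)).trans hdvd
    have hMi : ∀ i, M i ∣ n := fun i =>
      (Finset.dvd_prod_of_mem M (Finset.mem_univ i)).trans
        ((Dvd.intro_left (q0 * ρ.D * (∏ i, e i)) (by ring)).trans hdvd)
    have hei : ∀ i, e i ∣ n := fun i =>
      (Finset.dvd_prod_of_mem e (Finset.mem_univ i)).trans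
        ((Dvd.intro_left (q0 * ρ.D * (∏ i, M i)) (by ring)).trans hdvd)
    refine ⟨⟨hq0.two_le.trans (Nat.le_of_dvd hn h2), hD, ?_, ⟨q0, hq0, h2, hq0i⟩⟩, ?_⟩
    · intro i
      have := isDomain ρ i
      have := free ρ i
      have := finite ρ i
      exact STopT.inv_notMem hn.ne' (th_ne ρ i) (hei i)
    · intro i
      exact hM i n hn.ne' (hMi i)

/-- GN -/
theorem exists_goodN : ∃ n, GoodN ρ K n ∧ ∀ i, IsPrincipalIdealRing (OK ρ K n i) := by
  obtain ⟨M, hM, h⟩ := exists_goodN_dvd ρ K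
  exact ⟨M, h M hM dvd_rfl⟩

/-- the instance of `Den` -/
theorem den {n : ℕ} (hn : GoodN ρ K n) (i : Fin ρ.f) : Den n (OK ρ K n i) (DK ρ K n i) := by
  have := isDomain ρ i
  have := free ρ i
  have := finite ρ i
  exact STopT.den hn.two (th_ne ρ i) (hn.nu i)

end Pool.Agent.DEC.GN
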