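import Pool.Agent.DEC.Comp
/-! DEC project (MP_59dda0_an), computability layer, part 2: primitive recursive operations on the
integers, sums of lists, natural powers. -/
namespace Pool.Agent.DEC
open Primrec

theorem encode_natCast (n : ℕ) : Encodable.encode (n : ℤ) = 2 * n := rfl

theorem encode_negSucc (n : ℕ) : Encodable.encode (Int.negSucc n) = 2 * n + 1 := rfl

theorem primrec_natCast : Primrec fun n : ℕ => (n : ℤ) := by
  rw [← Primrec.encode_iff]
  exact (Primrec.nat_mul.comp (Primrec.const 2) Primrec.id).of_eq fun n => rfl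

theorem primrec_negSucc : Primrec Int.negSucc := by
  rw [← Primrec.encode_iff]
  exact (Primrec.succ.comp (Primrec.nat_mul.comp (Primrec.const 2) Primrec.id)).of_eq fun n => rfl

theorem primrec_toNat : Primrec Int.toNat := by
  have h : Primrec fun z : ℤ => if Encodable.encode z % 2 = 0 then Encodable.encode z / 2 else 0 :=
    Primrec.ite (Primrec.eq.comp (Primrec.nat_mod.comp Primrec.encode (Primrec.const 2))
      (Primrec.const 0)) (Primrec.nat_div.comp Primrec.encode (Primrec.const 2)) (Primrec.const 0)
  refine h.of_eq fun z => ?_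
  rcases z with n | n
  · have e : Encodable.encode (Int.ofNat n) = 2 * n := rfl
    rw [e]
    simp
  · rw [encode_negSucc]
    have : (2 * n + 1) % 2 = 1 := by omega
    simp [this]

theorem primrec_negToNat : Primrec fun z : ℤ => (-z).toNat := by
  have h : Primrec fun z : ℤ => if Encodable.encode z % 2 = 0 then 0
      else Encodable.encode z / 2 + 1 :=
    Primrec.ite (Primrec.eq.comp (Primrec.nat_mod.comp Primrec.encode (Primrec.const 2))
      (Primrec.const 0)) (Primrec.const 0)
      (Primrec.succ.comp (Primrec.nat_div.comp Primrec.encode (Primrec.const 2)))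
  refine h.of_eq fun z => ?_
  rcases z with n | n
  · have e : Encodable.encode (Int.ofNat n) = 2 * n := rfl
    rw [e]
    simp
  · rw [encode_negSucc]
    have h1 : (2 * n + 1) % 2 = 1 := by omega
    have h2 : (2 * n + 1) / 2 = n := by omega
    rw [h1, h2, Int.neg_negSucc]
    simp

theorem primrec_subNat : Primrec₂ fun a b : ℕ => (a : ℤ) - (b : ℤ) := by
  have h1 : Primrec fun p : ℕ × ℕ => p.1 - p.2 := Primrec.nat_sub.comp fst snd
  have h2 : Primrec fun p : ℕ × ℕ => p.2 - p.1 := Primrec.nat_sub.comp snd fst
  have h3 : Primrec fun p : ℕ × ℕ => p.2 - p.1 - 1 := Primrec.nat_sub.comp h2 (Primrec.const 1)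
  have h : Primrec fun p : ℕ × ℕ => if p.2 ≤ p.1 then ((p.1 - p.2 : ℕ) : ℤ)
      else Int.negSucc (p.2 - p.1 - 1) :=
    Primrec.ite (Primrec.nat_le.comp snd fst) (primrec_natCast.comp h1) (primrec_negSucc.comp h3)
  refine h.of_eq fun p => ?_
  obtain ⟨a, b⟩ := p
  dsimp only
  split_ifs with h1
  · push_cast [h1]
    rfl
  · rw [Int.negSucc_eq]
    have h2 : ((b - a - 1 : ℕ) : ℤ) = (b : ℤ) - a - 1 := by omega
    rw [h2]
    ring

theorem int_eq_sub (z : ℤ) : z = (z.toNat : ℤ) - ((-z).toNat : ℤ) := by omega

theorem primrec_int_add : Primrec₂ fun x y : ℤ => x + y := by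
  have h : Primrec fun p : ℤ × ℤ => ((p.1.toNat + p.2.toNat : ℕ) : ℤ) -
      (((-p.1).toNat + (-p.2).toNat : ℕ) : ℤ) :=
    primrec_subNat.comp (Primrec.nat_add.comp (primrec_toNat.comp fst) (primrec_toNat.comp snd))
      (Primrec.nat_add.comp (primrec_negToNat.comp fst) (primrec_negToNat.comp snd))
  refine h.of_eq fun p => ?_
  push_cast
  omega

theorem primrec_int_neg : Primrec fun x : ℤ => -x :=
  (primrec_subNat.comp primrec_negToNat primrec_toNat).of_eq fun z => by omega

theorem primrec_int_sub : Primrec₂ fun x y : ℤ => x - y :=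
  (primrec_int_add.comp fst (primrec_int_neg.comp snd)).of_eq fun _ => (sub_eq_add_neg _ _).symm

theorem primrec_int_mul : Primrec₂ fun x y : ℤ => x * y := by
  have h : Primrec fun p : ℤ × ℤ =>
      ((p.1.toNat * p.2.toNat + (-p.1).toNat * (-p.2).toNat : ℕ) : ℤ) -
      ((p.1.toNat * (-p.2).toNat + (-p.1).toNat * p.2.toNat : ℕ) : ℤ) :=
    primrec_subNat.comp
      (Primrec.nat_add.comp
        (Primrec.nat_mul.comp (primrec_toNat.comp fst) (primrec_toNat.comp snd))
        (Primrec.nat_mul.comp (primrec_negToNat.comp fst) (primrec_negToNat.comp snd)))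
      (Primrec.nat_add.comp
        (Primrec.nat_mul.comp (primrec_toNat.comp fst) (primrec_negToNat.comp snd))
        (Primrec.nat_mul.comp (primrec_negToNat.comp fst) (primrec_toNat.comp snd)))
  refine h.of_eq fun p => ?_
  obtain ⟨x, y⟩ := p
  dsimp only
  conv_rhs => rw [int_eq_sub x, int_eq_sub y]
  push_cast
  ring

theorem primrec_natAbs : Primrec Int.natAbs :=
  (Primrec.nat_add.comp primrec_toNat primrec_negToNat).of_eq fun z => by omega

theorem primrec_int_le : PrimrecRel fun x y : ℤ => x ≤ y := by
  have h : PrimrecPred fun p : ℤ × ℤ => (p.1 - p.2).toNat = 0 :=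
    Primrec.eq.comp (primrec_toNat.comp primrec_int_sub) (Primrec.const 0)
  exact h.of_eq fun p => by
    obtain ⟨x, y⟩ := p
    dsimp only
    omega

theorem primrec_int_lt : PrimrecRel fun x y : ℤ => x < y := by
  have h : PrimrecPred fun p : ℤ × ℤ => ¬ (p.2 ≤ p.1) := (primrec_int_le.comp snd fst).not
  exact h.of_eq fun p => by
    obtain ⟨x, y⟩ := p
    dsimp only
    omega

theorem primrec_nat_pow : Primrec₂ fun a b : ℕ => a ^ b := by
  have h : Primrec₂ fun (a b : ℕ) => (Nat.rec 1 (fun _ r => r * a) b : ℕ) :=
    Primrec.nat_rec (f := fun _ : ℕ => 1) (g := fun (a : ℕ) (p : ℕ × ℕ) => p.2 * a)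
      (Primrec.const 1) (Primrec.nat_mul.comp (snd.comp snd) fst)
  refine h.of_eq fun a b => ?_
  induction b with
  | zero => rfl
  | succ b ih =>
    change (Nat.rec 1 (fun _ r => r * a) b : ℕ) * a = a ^ (b + 1)
    rw [ih, pow_succ]

theorem primrec_int_pow : Primrec₂ fun (a : ℤ) (b : ℕ) => a ^ b := by
  have h : Primrec₂ fun (a : ℤ) (b : ℕ) => (Nat.rec 1 (fun _ r => r * a) b : ℤ) :=
    Primrec.nat_rec (f := fun _ : ℤ => (1 : ℤ)) (g := fun (a : ℤ) (p : ℕ × ℤ) => p.2 * a)
      (Primrec.const 1) (primrec_int_mul.comp (snd.comp snd) fst)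
  refine h.of_eq fun a b => ?_
  induction b with
  | zero => simp
  | succ b ih =>
    change (Nat.rec 1 (fun _ r => r * a) b : ℤ) * a = a ^ (b + 1)
    rw [ih, pow_succ]

/-! composed forms -/

section comp
variable {α : Type*} [Primcodable α] {f g : α → ℤ} {e : α → ℕ}

theorem pAdd (hf : Primrec f) (hg : Primrec g) : Primrec fun a => f a + g a :=
  primrec_int_add.comp hf hg

theorem pSub (hf : Primrec f) (hg : Primrec g) : Primrec fun a => f a - g a :=
  primrec_int_sub.comp hf hg

theorem pMul (hf : Primrec f) (hg : Primrec g) : Primrec fun a => f a * g a :=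
  primrec_int_mul.comp hf hg

theorem pNeg (hf : Primrec f) : Primrec fun a => - f a := primrec_int_neg.comp hf

theorem pPow (hf : Primrec f) (he : Primrec e) : Primrec fun a => f a ^ e a :=
  primrec_int_pow.comp hf he

theorem cAdd (hf : Computable f) (hg : Computable g) : Computable fun a => f a + g a :=
  primrec_int_add.to_comp.comp hf hg

theorem cSub (hf : Computable f) (hg : Computable g) : Computable fun a => f a - g a :=
  primrec_int_sub.to_comp.comp hf hg

theorem cMul (hf : Computable f) (hg : Computable g) : Computable fun a => f a * g a :=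
  primrec_int_mul.to_comp.comp hf hg

theorem cNeg (hf : Computable f) : Computable fun a => - f a := primrec_int_neg.to_comp.comp hf

theorem cPow (hf : Computable f) (he : Computable e) : Computable fun a => f a ^ e a :=
  primrec_int_pow.to_comp.comp hf he

theorem re_int_le (hf : Computable f) (hg : Computable g) : REPred fun a => f a ≤ g a :=
  re_comp (p := fun p : ℤ × ℤ => p.1 ≤ p.2) (re_of_primrec primrec_int_le) (Computable.pair hf hg)

theorem re_int_lt (hf : Computable f) (hg : Computable g) : REPred fun a => f a < g a :=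
  re_comp (p := fun p : ℤ × ℤ => p.1 < p.2) (re_of_primrec primrec_int_lt) (Computable.pair hf hg)

end comp

/-! sums of lists and finite sums -/

theorem primrec_int_sum : Primrec fun l : List ℤ => l.sum :=
  (Primrec.list_foldr (f := fun l : List ℤ => l) (g := fun _ => (0 : ℤ))
    (h := fun _ (p : ℤ × ℤ) => p.1 + p.2) Primrec.id (Primrec.const 0)
    (primrec_int_add.comp (fst.comp snd) (snd.comp snd))).of_eq fun l => by
      induction l with
      | nil => rfl
      | cons x l ih =>
        simp only [List.foldr_cons, List.sum_cons]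
        rw [ih]

theorem primrec_nat_sum : Primrec fun l : List ℕ => l.sum :=
  (Primrec.list_foldr (f := fun l : List ℕ => l) (g := fun _ => (0 : ℕ))
    (h := fun _ (p : ℕ × ℕ) => p.1 + p.2) Primrec.id (Primrec.const 0)
    (Primrec.nat_add.comp (fst.comp snd) (snd.comp snd))).of_eq fun l => by
      induction l with
      | nil => rfl
      | cons x l ih =>
        simp only [List.foldr_cons, List.sum_cons]
        rw [ih]

theorem sum_map_range (n : ℕ) (f : ℕ → ℤ) :
    ((List.range n).map f).sum = ∑ i ∈ Finset.range n, f i := by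
  induction n with
  | zero => simp
  | succ n ih => rw [List.range_succ, Finset.sum_range_succ, List.map_append, List.sum_append, ih]; simp

section comp2
variable {α : Type*} [Primcodable α] {n : α → ℕ} {f : α → ℕ → ℤ}

/-- finite sums with a primitive recursive number of terms -/
theorem pSum (hn : Primrec n) (hf : Primrec₂ f) :
    Primrec fun a => ∑ i ∈ Finset.range (n a), f a i :=
  (primrec_int_sum.comp (Primrec.list_map (Primrec.list_range.comp hn) hf)).of_eq
    fun _ => sum_map_range _ _

end comp2

/-- the list of all integers of absolute value at most `F` -/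
def ball (F : ℕ) : List ℤ := (List.range (2 * F + 1)).map fun i : ℕ => (i : ℤ) - (F : ℤ)

theorem mem_ball (F : ℕ) (z : ℤ) : z ∈ ball F ↔ |z| ≤ F := by
  unfold ball
  simp only [List.mem_map, List.mem_range]
  rw [abs_le]
  constructor
  · rintro ⟨i, hi, rfl⟩
    omega
  · rintro ⟨h1, h2⟩
    exact ⟨(z + F).toNat, by omega, by omega⟩

theorem primrec_ball : Primrec ball :=
  Primrec.list_map (f := fun F : ℕ => List.range (2 * F + 1))
    (g := fun (F i : ℕ) => (i : ℤ) - (F : ℤ))
    (Primrec.list_range.comp (Primrec.succ.comp (Primrec.nat_mul.comp (Primrec.const 2)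
      Primrec.id))) (primrec_subNat.comp snd fst)

/-- all integer vectors (as lists) of length `n` with entries of absolute value at most `F` -/
def vecs (n F : ℕ) : List (List ℤ) := words (ball F) n

theorem mem_vecs (n F : ℕ) (v : List ℤ) : v ∈ vecs n F ↔ v.length = n ∧ ∀ x ∈ v, |x| ≤ F := by
  unfold vecs
  rw [mem_words]
  simp only [mem_ball]

theorem primrec_vecs : Primrec₂ vecs := primrec_words.comp (primrec_ball.comp snd) fst

/-- all integer `n × m` matrices (as lists of rows) with entries of absolute value at most `F` -/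
def mats (n m F : ℕ) : List (List (List ℤ)) := words (vecs m F) n

theorem mem_mats (n m F : ℕ) (M : List (List ℤ)) :
    M ∈ mats n m F ↔ M.length = n ∧ ∀ v ∈ M, v.length = m ∧ ∀ x ∈ v, |x| ≤ F := by
  unfold mats
  rw [mem_words]
  simp only [mem_vecs]

theorem primrec_mats : Primrec fun p : ℕ × ℕ × ℕ => mats p.1 p.2.1 p.2.2 :=
  primrec_words.comp (primrec_vecs.comp (fst.comp snd) (snd.comp snd)) fst

end Pool.Agent.DEC
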