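import Pool.Agent.DEC.IntP
/-! DEC project (MP_59dda0_an), computability layer: irreducibility over `ℚ` of monic integral
polynomials is recursively enumerable.  A polynomial is coded by the list of its coefficients. -/
namespace Pool.Agent.DEC.Irr
open Polynomial Pool.Agent.DEC

/-- the polynomial of a code -/
noncomputable def toP (l : List ℤ) : ℤ[X] :=
  ∑ i ∈ Finset.range l.length, C (l.getD i 0) * X ^ i

theorem coeff_toP (l : List ℤ) (i : ℕ) : (toP l).coeff i = l.getD i 0 := by
  unfold toP
  rw [finsetSum_coeff]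
  simp only [coeff_C_mul_X_pow]
  rw [Finset.sum_ite_eq]
  by_cases h : i < l.length
  · rw [if_pos (Finset.mem_range.2 h)]
  · rw [if_neg (fun h1 => h (Finset.mem_range.1 h1)), List.getD_eq_default _ _ (not_lt.1 h)]

/-- the code of length `n` of a polynomial -/
def ofP (n : ℕ) (p : ℤ[X]) : List ℤ := (List.range n).map fun i => p.coeff i

theorem toP_ofP {n : ℕ} {p : ℤ[X]} (h : ∀ i, n ≤ i → p.coeff i = 0) : toP (ofP n p) = p := by
  ext i
  rw [coeff_toP]
  unfold ofP
  by_cases hi : i < n
  · simp [List.getD_eq_getElem?_getD, hi]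
  · rw [List.getD_eq_default _ _ (by simpa using not_lt.1 hi), h i (not_lt.1 hi)]

theorem ofP_mem_vecs {n F : ℕ} {p : ℤ[X]} (h : ∀ i, |p.coeff i| ≤ (F : ℤ)) :
    ofP n p ∈ vecs n F := by
  rw [mem_vecs]
  unfold ofP
  refine ⟨by simp, fun x hx => ?_⟩
  obtain ⟨i, -, rfl⟩ := List.mem_map.1 hx
  exact h i

/-- the coefficients of the product of two codes -/
def cmul (u v : List ℤ) (i : ℕ) : ℤ := ∑ j ∈ Finset.range (i + 1), u.getD j 0 * v.getD (i - j) 0

theorem coeff_mul_toP (u v : List ℤ) (i : ℕ) : (toP u * toP v).coeff i = cmul u v i := by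
  rw [coeff_mul, Finset.Nat.sum_antidiagonal_eq_sum_range_succ_mk]
  unfold cmul
  refine Finset.sum_congr rfl fun j _ => ?_
  rw [coeff_toP, coeff_toP]

theorem mul_ne_iff (u v l : List ℤ) : toP u * toP v ≠ toP l ↔ ∃ i : ℕ, cmul u v i ≠ l.getD i 0 := by
  rw [Ne, Polynomial.ext_iff, not_forall]
  refine exists_congr fun i => ?_
  rw [coeff_mul_toP, coeff_toP]

theorem ne_one_iff (l : List ℤ) :
    toP l ≠ 1 ↔ ∃ i : ℕ, l.getD i 0 ≠ if i = 0 then 1 else 0 := by
  rw [Ne, Polynomial.ext_iff, not_forall]
  refine exists_congr fun i => ?_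
  rw [coeff_toP, coeff_one]

theorem natDegree_zero_iff (l : List ℤ) :
    (toP l).natDegree = 0 ↔ ∀ i < l.length, i = 0 ∨ l.getD i 0 = 0 := by
  constructor
  · intro h i _
    by_cases h0 : i = 0
    · exact Or.inl h0
    · right
      rw [← coeff_toP]
      exact coeff_eq_zero_of_natDegree_lt (by omega)
  · intro h
    refine Nat.eq_zero_of_le_zero (natDegree_le_iff_coeff_eq_zero.2 fun i hi => ?_)
    rw [coeff_toP]
    by_cases h1 : i < l.length
    · exact (h i h1).resolve_left (by omega)
    · exact List.getD_eq_default _ _ (not_lt.1 h1)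

theorem monic_iff (l : List ℤ) :
    (toP l).Monic ↔ ∃ d : ℕ, l.getD d 0 = 1 ∧ ∀ i < l.length, i ≤ d ∨ l.getD i 0 = 0 := by
  constructor
  · intro h
    refine ⟨(toP l).natDegree, ?_, fun i _ => ?_⟩
    · rw [← coeff_toP]
      exact h
    · by_cases h1 : i ≤ (toP l).natDegree
      · exact Or.inl h1
      · right
        rw [← coeff_toP]
        exact coeff_eq_zero_of_natDegree_lt (by omega)
  · rintro ⟨d, h1, h2⟩
    refine monic_of_natDegree_le_of_coeff_eq_one d ?_ (by rw [coeff_toP, h1])
    refine natDegree_le_iff_coeff_eq_zero.2 fun i hi => ?_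
    rw [coeff_toP]
    by_cases h3 : i < l.length
    · exact (h2 i h3).resolve_left (by omega)
    · exact List.getD_eq_default _ _ (not_lt.1 h3)

/-- the sum of the absolute values of the coefficients -/
def sabs (l : List ℤ) : ℕ := (l.map Int.natAbs).sum

theorem natAbs_getD_le (l : List ℤ) (i : ℕ) : (l.getD i 0).natAbs ≤ sabs l := by
  unfold sabs
  rw [List.getD_eq_getElem?_getD]
  rcases hi : l[i]? with _ | x
  · simp
  · simp only [Option.getD_some]
    exact List.single_le_sum (fun _ _ => Nat.zero_le _) _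
      (List.mem_map.2 ⟨x, List.mem_of_getElem? hi, rfl⟩)

/-- a bound for the coefficients of the monic factors -/
def bd (l : List ℤ) : ℕ := (sabs l + 1) ^ l.length * 2 ^ l.length

theorem root_bound (l : List ℤ) (hm : (toP l).Monic) {z : ℂ}
    (hz : ((toP l).map (Int.castRingHom ℂ)).IsRoot z) : ‖z‖ ≤ (sabs l : ℝ) + 1 := by
  have hm' : ((toP l).map (Int.castRingHom ℂ)).Monic := hm.map _
  have h1 := IsRoot.norm_lt_cauchyBound hm'.ne_zero hz
  have h2 : cauchyBound ((toP l).map (Int.castRingHom ℂ)) ≤ (sabs l : NNReal) + 1 := by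
    unfold cauchyBound
    rw [hm'.leadingCoeff, nnnorm_one, div_one]
    gcongr
    refine Finset.sup_le fun i _ => ?_
    rw [coeff_map, coeff_toP]
    have h3 := natAbs_getD_le l i
    rw [← NNReal.coe_le_coe, coe_nnnorm]
    simp only [eq_intCast, NNReal.coe_natCast]
    rw [Complex.norm_intCast, ← Int.cast_abs, Int.abs_eq_natAbs, Int.cast_natCast]
    exact_mod_cast h3
  have h4 := (NNReal.coe_lt_coe.2 h1).le.trans (NNReal.coe_le_coe.2 h2)
  rw [coe_nnnorm] at h4
  simpa using h4

theorem natDegree_le_length (l : List ℤ) : (toP l).natDegree ≤ l.length := by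
  refine natDegree_le_iff_coeff_eq_zero.2 fun i hi => ?_
  rw [coeff_toP]
  exact List.getD_eq_default _ _ hi.le

theorem coeff_bound (l : List ℤ) (hm : (toP l).Monic) {f g : ℤ[X]} (hf : f.Monic)
    (hfg : f * g = toP l) (i : ℕ) : |f.coeff i| ≤ (bd l : ℤ) := by
  have hd : f.natDegree ≤ l.length := by
    refine le_trans ?_ (natDegree_le_length l)
    refine natDegree_le_of_dvd ⟨g, hfg.symm⟩ hm.ne_zero
  have hm' : (f.map (Int.castRingHom ℂ)).Monic := hf.map _
  have h1 := coeff_bdd_of_roots_le (B := (sabs l : ℝ) + 1) (d := l.length) (RingHom.id ℂ) hm'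
    (IsAlgClosed.splits _) (by rw [hf.natDegree_map]; exact hd) (fun z hz => ?_) i
  · rw [map_id, coeff_map] at h1
    simp only [eq_intCast] at h1
    rw [Complex.norm_intCast, max_eq_left (by linarith [(sabs l).cast_nonneg (α := ℝ)])] at h1
    have h2 : ((l.length).choose (l.length / 2) : ℝ) ≤ 2 ^ l.length := by
      exact_mod_cast Nat.choose_le_two_pow _ _
    have h3 : (|(f.coeff i : ℝ)|) ≤ (bd l : ℝ) := by
      refine h1.trans ?_
      unfold bd
      push_cast
      exact mul_le_mul_of_nonneg_left h2 (by positivity)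
    exact_mod_cast h3
  · rw [map_id] at hz
    refine root_bound l hm ?_
    have h2 := (mem_roots'.1 hz).2
    rw [← hfg, Polynomial.map_mul, IsRoot, eval_mul, h2, zero_mul]

/-- irreducibility as a finite check -/
theorem irr_iff (l : List ℤ) :
    ((toP l).Monic ∧ Irreducible ((toP l).map (Int.castRingHom ℚ))) ↔
      (toP l).Monic ∧ toP l ≠ 1 ∧ ∀ u ∈ vecs (l.length + 1) (bd l), ∀ v ∈ vecs (l.length + 1) (bd l),
        toP u * toP v ≠ toP l ∨ ((toP u).natDegree = 0 ∨ (toP v).natDegree = 0) := by
  refine and_congr_right fun hm => ?_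
  have hG : Irreducible (toP l) ↔ Irreducible ((toP l).map (Int.castRingHom ℚ)) :=
    hm.irreducible_iff_irreducible_map_fraction_map (K := ℚ)
  rw [← hG]
  constructor
  · intro h
    refine ⟨fun h1 => h.not_isUnit (by rw [h1]; exact isUnit_one), fun u _ v _ => ?_⟩
    by_cases huv : toP u * toP v = toP l
    · right
      rcases h.isUnit_or_isUnit huv.symm with h1 | h1
      · exact Or.inl (natDegree_eq_zero_of_isUnit h1)
      · exact Or.inr (natDegree_eq_zero_of_isUnit h1)
    · exact Or.inl huv
  · rintro ⟨h1, h2⟩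
    rw [hm.irreducible_iff_natDegree]
    refine ⟨h1, fun f g hf hg hfg => ?_⟩
    have hF := coeff_bound l hm hf hfg
    have hG := coeff_bound l hm hg (by rw [mul_comm]; exact hfg)
    have hdf : f.natDegree ≤ l.length :=
      (natDegree_le_of_dvd ⟨g, hfg.symm⟩ hm.ne_zero).trans (natDegree_le_length l)
    have hdg : g.natDegree ≤ l.length :=
      (natDegree_le_of_dvd ⟨f, by rw [mul_comm]; exact hfg.symm⟩ hm.ne_zero).trans
        (natDegree_le_length l)
    have h3 := h2 (ofP (l.length + 1) f) (ofP_mem_vecs hF) (ofP (l.length + 1) g) (ofP_mem_vecs hG)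
    rw [toP_ofP (fun i hi => coeff_eq_zero_of_natDegree_lt (by omega)),
      toP_ofP (fun i hi => coeff_eq_zero_of_natDegree_lt (by omega))] at h3
    exact h3.resolve_left (fun h => h hfg)

/-! ### recursive enumerability -/

section re
variable {α : Type*} [Primcodable α]

theorem cGet {l : α → List ℤ} {i : α → ℕ} (hl : Computable l) (hi : Computable i) :
    Computable fun a => (l a).getD (i a) 0 := by
  have h : Computable fun p : List ℤ × ℕ => p.1.getD p.2 0 :=
    ((Primrec.list_getD (0 : ℤ)).comp Primrec.fst Primrec.snd).to_comp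
  have h2 : Computable fun a => (l a, i a) := Computable.pair hl hi
  have h3 := h.comp h2
  exact h3

theorem cLen {l : α → List ℤ} (hl : Computable l) : Computable fun a => (l a).length := by
  have h := (Primrec.list_length (α := ℤ)).to_comp.comp hl
  exact h

theorem primrec_cmul : Primrec fun q : List ℤ × List ℤ × ℕ => cmul q.1 q.2.1 q.2.2 := by
  refine pSum (n := fun q : List ℤ × List ℤ × ℕ => q.2.2 + 1)
    (f := fun (q : List ℤ × List ℤ × ℕ) (j : ℕ) => q.1.getD j 0 * q.2.1.getD (q.2.2 - j) 0)
    (Primrec.succ.comp (Primrec.snd.comp Primrec.snd)) ?_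
  refine pMul (f := fun p : (List ℤ × List ℤ × ℕ) × ℕ => p.1.1.getD p.2 0)
    (g := fun p : (List ℤ × List ℤ × ℕ) × ℕ => p.1.2.1.getD (p.1.2.2 - p.2) 0) ?_ ?_
  · exact (Primrec.list_getD (0 : ℤ)).comp (Primrec.fst.comp Primrec.fst) Primrec.snd
  · exact (Primrec.list_getD (0 : ℤ)).comp (Primrec.fst.comp (Primrec.snd.comp Primrec.fst))
      (Primrec.nat_sub.comp (Primrec.snd.comp (Primrec.snd.comp Primrec.fst)) Primrec.snd)

theorem primrec_bd : Primrec bd := by
  have h1 : Primrec sabs :=
    primrec_nat_sum.comp (Primrec.list_map Primrec.id (primrec_natAbs.comp Primrec.snd).to₂)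
  exact Primrec.nat_mul.comp
    (primrec_nat_pow.comp (Primrec.succ.comp h1) Primrec.list_length)
    (primrec_nat_pow.comp (Primrec.const 2) Primrec.list_length)

theorem re_monic {l : α → List ℤ} (hl : Computable l) : REPred fun a => (toP (l a)).Monic := by
  have h1 : REPred fun p : (α × ℕ) × ℕ => p.2 ≤ p.1.2 ∨ (l p.1.1).getD p.2 0 = 0 :=
    re_or (re_of_primrec (Primrec.nat_le.comp Primrec.snd (Primrec.snd.comp Primrec.fst)))
      (re_eq (cGet (hl.comp (Computable.fst.comp Computable.fst)) Computable.snd)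
        (Computable.const 0))
  have h2 : REPred fun p : α × ℕ => (l p.1).getD p.2 0 = 1 ∧
      ∀ i < (l p.1).length, i ≤ p.2 ∨ (l p.1).getD i 0 = 0 :=
    re_and (re_eq (cGet (hl.comp Computable.fst) Computable.snd) (Computable.const 1))
      (re_forall_lt (R := fun (p : α × ℕ) (i : ℕ) => i ≤ p.2 ∨ (l p.1).getD i 0 = 0) h1
        (cLen (hl.comp Computable.fst)))
  exact (re_exists (R := fun (a : α) (d : ℕ) => (l a).getD d 0 = 1 ∧
    ∀ i < (l a).length, i ≤ d ∨ (l a).getD i 0 = 0) h2).of_eq fun a => (monic_iff _).symm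

theorem re_ne_one {l : α → List ℤ} (hl : Computable l) : REPred fun a => toP (l a) ≠ 1 := by
  have hc : Computable fun p : α × ℕ => (if p.2 = 0 then 1 else 0 : ℤ) := by
    have h : Primrec fun p : α × ℕ => (if p.2 = 0 then 1 else 0 : ℤ) :=
      Primrec.ite (Primrec.eq.comp Primrec.snd (Primrec.const 0)) (Primrec.const 1)
        (Primrec.const 0)
    exact h.to_comp
  exact (re_exists (R := fun (a : α) (i : ℕ) => (l a).getD i 0 ≠ if i = 0 then 1 else 0)
    (re_ne (cGet (hl.comp Computable.fst) Computable.snd) hc)).of_eq fun a => (ne_one_iff _).symm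

theorem re_natDegree_zero {l : α → List ℤ} (hl : Computable l) :
    REPred fun a => (toP (l a)).natDegree = 0 := by
  have h1 : REPred fun p : α × ℕ => p.2 = 0 ∨ (l p.1).getD p.2 0 = 0 :=
    re_or (re_eq Computable.snd (Computable.const 0))
      (re_eq (cGet (hl.comp Computable.fst) Computable.snd) (Computable.const 0))
  exact (re_forall_lt (R := fun (a : α) (i : ℕ) => i = 0 ∨ (l a).getD i 0 = 0) h1
    (cLen hl)).of_eq fun a => (natDegree_zero_iff _).symm

theorem re_mul_ne {u v l : α → List ℤ} (hu : Computable u) (hv : Computable v)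
    (hl : Computable l) : REPred fun a => toP (u a) * toP (v a) ≠ toP (l a) := by
  have hc : Computable fun p : α × ℕ => cmul (u p.1) (v p.1) p.2 := by
    have h2 : Computable fun p : α × ℕ => (u p.1, v p.1, p.2) :=
      Computable.pair (hu.comp Computable.fst)
        (Computable.pair (hv.comp Computable.fst) Computable.snd)
    have h3 := primrec_cmul.to_comp.comp h2
    exact h3
  exact (re_exists (R := fun (a : α) (i : ℕ) => cmul (u a) (v a) i ≠ (l a).getD i 0)
    (re_ne hc (cGet (hl.comp Computable.fst) Computable.snd))).of_eq fun a =>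
      (mul_ne_iff _ _ _).symm

/-- **irreducibility of monic integral polynomials is recursively enumerable** -/
theorem re_irr {l : α → List ℤ} (hl : Computable l) :
    REPred fun a => (toP (l a)).Monic ∧ Irreducible ((toP (l a)).map (Int.castRingHom ℚ)) := by
  have hv : Computable fun a => vecs ((l a).length + 1) (bd (l a)) := by
    have h : Primrec fun w : List ℤ => vecs (w.length + 1) (bd w) :=
      primrec_vecs.comp (Primrec.succ.comp Primrec.list_length) primrec_bd
    have h3 := h.to_comp.comp hl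
    exact h3
  have h3 : REPred fun p : (α × List ℤ) × List ℤ => toP p.1.2 * toP p.2 ≠ toP (l p.1.1) ∨
      ((toP p.1.2).natDegree = 0 ∨ (toP p.2).natDegree = 0) :=
    re_or (re_mul_ne (Computable.snd.comp Computable.fst) Computable.snd
      (hl.comp (Computable.fst.comp Computable.fst)))
      (re_or (re_natDegree_zero (Computable.snd.comp Computable.fst))
        (re_natDegree_zero Computable.snd))
  have h4 : REPred fun p : α × List ℤ => ∀ v ∈ vecs ((l p.1).length + 1) (bd (l p.1)),
      toP p.2 * toP v ≠ toP (l p.1) ∨ ((toP p.2).natDegree = 0 ∨ (toP v).natDegree = 0) :=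
    re_forall_mem (R := fun (p : α × List ℤ) (v : List ℤ) => toP p.2 * toP v ≠ toP (l p.1) ∨
      ((toP p.2).natDegree = 0 ∨ (toP v).natDegree = 0)) h3 (hv.comp Computable.fst)
  have h5 : REPred fun a => ∀ u ∈ vecs ((l a).length + 1) (bd (l a)),
      ∀ v ∈ vecs ((l a).length + 1) (bd (l a)),
      toP u * toP v ≠ toP (l a) ∨ ((toP u).natDegree = 0 ∨ (toP v).natDegree = 0) :=
    re_forall_mem (R := fun (a : α) (u : List ℤ) => ∀ v ∈ vecs ((l a).length + 1) (bd (l a)),
      toP u * toP v ≠ toP (l a) ∨ ((toP u).natDegree = 0 ∨ (toP v).natDegree = 0)) h4 hv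
  exact (re_and (re_monic hl) (re_and (re_ne_one hl) h5)).of_eq fun a => (irr_iff _).symm

end re

end Pool.Agent.DEC.Irr
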