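import Mathlib

/-!
# DEC, block L5: gluing and openness

`I ≤ V × W` is a `ℚ`-subspace, `U ≤ V` and `Y ≤ W` are subgroups. `GoodRel I U Y` says that the pure
subgroup `M = {u ∈ U : (u, w) ∈ I for some w}` is mapped by the relation `I` into and onto `Y`.

* `GoodRel.glue`: it is enough to check this in the localisation at `n` and away from `n`.
* `GoodRel.open'`: the condition localised at `n` is open in the `n`-adic topology, for subspaces `I`
  which are stable under bijections `tV`, `tW`, where `U`, `Y` are the unions of the `t⁻ᵏ U0`,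
  `t⁻ᵏ Y0`, with `U0`, `Y0` finitely generated.
-/

set_option autoImplicit false
set_option linter.unusedSectionVars false

namespace Pool.Agent.DEC

variable {V W : Type*} [AddCommGroup V] [Module ℚ V] [AddCommGroup W] [Module ℚ W]

/-- `I` relates `U` onto `Y` -/
structure GoodRel (I : Submodule ℚ (V × W)) (U : AddSubgroup V) (Y : AddSubgroup W) : Prop where
  vg : ∀ x ∈ I, x.1 ∈ U → x.2 ∈ Y
  wg : ∀ y ∈ Y, ∃ u ∈ U, (u, y) ∈ I

/-- the localisation at `n`: `ℤ_(n) U` -/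
def locAt (n : ℕ) (U : AddSubgroup V) : AddSubgroup V where
  carrier := {v | ∃ m : ℕ, m ≠ 0 ∧ m.Coprime n ∧ m • v ∈ U}
  zero_mem' := ⟨1, one_ne_zero, Nat.coprime_one_left n, by rw [smul_zero]; exact U.zero_mem⟩
  add_mem' := by
    rintro a b ⟨m, hm, hmn, ha⟩ ⟨k, hk, hkn, hb⟩
    refine ⟨m * k, mul_ne_zero hm hk, Nat.Coprime.mul_left hmn hkn, ?_⟩
    rw [smul_add]
    refine U.add_mem ?_ ?_
    · rw [mul_comm, mul_smul]; exact U.nsmul_mem ha k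
    · rw [mul_smul]; exact U.nsmul_mem hb m
  neg_mem' := by
    rintro a ⟨m, hm, hmn, ha⟩
    exact ⟨m, hm, hmn, by rw [smul_neg]; exact U.neg_mem ha⟩

/-- the localisation away from `n`: `ℤ[1/n] U` -/
def away (n : ℕ) (U : AddSubgroup V) : AddSubgroup V where
  carrier := {v | ∃ k : ℕ, n ^ k • v ∈ U}
  zero_mem' := ⟨0, by rw [smul_zero]; exact U.zero_mem⟩
  add_mem' := by
    rintro a b ⟨m, ha⟩ ⟨k, hb⟩
    refine ⟨m + k, ?_⟩
    rw [smul_add]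
    refine U.add_mem ?_ ?_
    · rw [add_comm, pow_add, mul_smul]; exact U.nsmul_mem ha _
    · rw [pow_add, mul_smul]; exact U.nsmul_mem hb _
  neg_mem' := by
    rintro a ⟨m, ha⟩
    exact ⟨m, by rw [smul_neg]; exact U.neg_mem ha⟩

theorem mem_locAt {n : ℕ} {U : AddSubgroup V} {v : V} :
    v ∈ locAt n U ↔ ∃ m : ℕ, m ≠ 0 ∧ m.Coprime n ∧ m • v ∈ U := Iff.rfl

theorem mem_away {n : ℕ} {U : AddSubgroup V} {v : V} :
    v ∈ away n U ↔ ∃ k : ℕ, n ^ k • v ∈ U := Iff.rfl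

theorem le_locAt (n : ℕ) (U : AddSubgroup V) : U ≤ locAt n U := fun v hv =>
  ⟨1, one_ne_zero, Nat.coprime_one_left n, by rwa [one_smul]⟩

theorem le_away (n : ℕ) (U : AddSubgroup V) : U ≤ away n U := fun v hv =>
  ⟨0, by rwa [pow_zero, one_smul]⟩

theorem bez {m n k : ℕ} (h : m.Coprime n) : ∃ a b : ℤ, a * m + b * (n ^ k : ℕ) = 1 := by
  have h1 : IsCoprime (m : ℤ) ((n ^ k : ℕ) : ℤ) :=
    Nat.isCoprime_iff_coprime.2 (Nat.Coprime.pow_right k h)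
  obtain ⟨a, b, hab⟩ := h1
  exact ⟨a, b, hab⟩

theorem mem_of_loc_away {n : ℕ} {U : AddSubgroup V} {v : V} (h1 : v ∈ locAt n U)
    (h2 : v ∈ away n U) : v ∈ U := by
  obtain ⟨m, -, hmn, hm⟩ := h1
  obtain ⟨k, hk⟩ := h2
  obtain ⟨a, b, hab⟩ := bez (k := k) hmn
  have e : v = a • (m • v) + b • (n ^ k • v) := by
    rw [← natCast_zsmul v m, ← natCast_zsmul v (n ^ k), smul_smul, smul_smul, ← add_smul, hab,
      one_smul]
  rw [e]
  exact U.add_mem (U.zsmul_mem hm a) (U.zsmul_mem hk b)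

/-- **gluing** -/
theorem GoodRel.glue {n : ℕ} {I : Submodule ℚ (V × W)} {U : AddSubgroup V} {Y : AddSubgroup W}
    (h1 : GoodRel I (locAt n U) (locAt n Y)) (h2 : GoodRel I (away n U) (away n Y)) : GoodRel I U Y := by
  refine ⟨fun x hx hu => mem_of_loc_away (h1.vg x hx (le_locAt n U hu))
    (h2.vg x hx (le_away n U hu)), fun y hy => ?_⟩
  obtain ⟨v1, ⟨m, -, hmn, hm⟩, hv1⟩ := h1.wg y (le_locAt n Y hy)
  obtain ⟨v2, ⟨k, hk⟩, hv2⟩ := h2.wg y (le_away n Y hy)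
  obtain ⟨a, b, hab⟩ := bez (k := k) hmn
  refine ⟨a • (m • v1) + b • (n ^ k • v2), U.add_mem (U.zsmul_mem hm a) (U.zsmul_mem hk b), ?_⟩
  have e : (a • (m • v1) + b • (n ^ k • v2), y) =
      a • (m • (v1, y)) + b • (n ^ k • (v2, y)) := by
    rw [Prod.smul_mk, Prod.smul_mk, Prod.smul_mk, Prod.smul_mk, Prod.mk_add_mk]
    congr 1
    rw [← natCast_zsmul y m, ← natCast_zsmul y (n ^ k), smul_smul, smul_smul, ← add_smul, hab,
      one_smul]
  rw [e]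
  exact add_mem (zsmul_mem (nsmul_mem hv1 m) a) (zsmul_mem (nsmul_mem hv2 _) b)

theorem inv_nsmul {m : ℕ} (hm : m ≠ 0) (v : V) : m • ((m : ℚ)⁻¹ • v) = v := by
  rw [← Nat.cast_smul_eq_nsmul ℚ, smul_smul, mul_inv_cancel₀ (by exact_mod_cast hm), one_smul]

theorem GoodRel.scale {m : ℕ} (hm : m ≠ 0) {I : Submodule ℚ (V × W)} {U : AddSubgroup V}
    {Y : AddSubgroup W} (h : GoodRel I U Y) {y : W} (hy : m • y ∈ Y) :
    ∃ u, m • u ∈ U ∧ (u, y) ∈ I := by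
  obtain ⟨u, hu, hI⟩ := h.wg _ hy
  refine ⟨(m : ℚ)⁻¹ • u, by rwa [inv_nsmul hm], ?_⟩
  have h1 := I.smul_mem (m : ℚ)⁻¹ hI
  rw [Prod.smul_mk] at h1
  convert h1 using 2
  rw [← Nat.cast_smul_eq_nsmul ℚ, smul_smul, inv_mul_cancel₀ (by exact_mod_cast hm), one_smul]

/-- converse of the gluing, at `n` -/
theorem GoodRel.locAt {n : ℕ} {I : Submodule ℚ (V × W)} {U : AddSubgroup V} {Y : AddSubgroup W}
    (h : GoodRel I U Y) : GoodRel I (locAt n U) (DEC.locAt n Y) := by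
  refine ⟨?_, ?_⟩
  · rintro x hx ⟨m, hm, hmn, hu⟩
    exact ⟨m, hm, hmn, h.vg (m • x) (nsmul_mem hx m) hu⟩
  · rintro y ⟨m, hm, hmn, hy⟩
    obtain ⟨u, hu, hI⟩ := h.scale hm hy
    exact ⟨u, ⟨m, hm, hmn, hu⟩, hI⟩

/-- converse of the gluing, away from `n` -/
theorem GoodRel.away {n : ℕ} (hn : n ≠ 0) {I : Submodule ℚ (V × W)} {U : AddSubgroup V}
    {Y : AddSubgroup W} (h : GoodRel I U Y) : GoodRel I (away n U) (DEC.away n Y) := by
  refine ⟨?_, ?_⟩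
  · rintro x hx ⟨k, hu⟩
    exact ⟨k, h.vg (n ^ k • x) (nsmul_mem hx _) hu⟩
  · rintro y ⟨k, hy⟩
    obtain ⟨u, hu, hI⟩ := h.scale (pow_ne_zero k hn) hy
    exact ⟨u, ⟨k, hu⟩, hI⟩

theorem good_iff {n : ℕ} (hn : n ≠ 0) {I : Submodule ℚ (V × W)} {U : AddSubgroup V}
    {Y : AddSubgroup W} : GoodRel I U Y ↔
      GoodRel I (locAt n U) (DEC.locAt n Y) ∧ GoodRel I (away n U) (DEC.away n Y) :=
  ⟨fun h => ⟨h.locAt, h.away hn⟩, fun h => h.1.glue h.2⟩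

end Pool.Agent.DEC
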