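import Pool.Agent.DEC.LocG

/-!
# DEC, block L5: openness of the condition localised at `n`
-/

set_option autoImplicit false
set_option linter.unusedSectionVars false

namespace Pool.Agent.DEC

variable {V W : Type*} [AddCommGroup V] [Module ℚ V] [AddCommGroup W] [Module ℚ W]

/-- `ℤ_(n)` -/
def Zl (n : ℕ) : Subring ℚ where
  carrier := {q | ∃ m : ℕ, m ≠ 0 ∧ m.Coprime n ∧ ∃ z : ℤ, (m : ℚ) * q = z}
  mul_mem' := by
    rintro a b ⟨m, hm, hmn, z, hz⟩ ⟨k, hk, hkn, y, hy⟩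
    refine ⟨m * k, mul_ne_zero hm hk, Nat.Coprime.mul_left hmn hkn, z * y, ?_⟩
    push_cast
    rw [← hz, ← hy]; ring
  one_mem' := ⟨1, one_ne_zero, Nat.coprime_one_left n, 1, by norm_num⟩
  add_mem' := by
    rintro a b ⟨m, hm, hmn, z, hz⟩ ⟨k, hk, hkn, y, hy⟩
    refine ⟨m * k, mul_ne_zero hm hk, Nat.Coprime.mul_left hmn hkn, z * k + y * m, ?_⟩
    push_cast
    rw [← hz, ← hy]; ring
  zero_mem' := ⟨1, one_ne_zero, Nat.coprime_one_left n, 0, by norm_num⟩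
  neg_mem' := by
    rintro a ⟨m, hm, hmn, z, hz⟩
    exact ⟨m, hm, hmn, -z, by push_cast; rw [← hz]; ring⟩

theorem mem_Zl {n : ℕ} {q : ℚ} :
    q ∈ Zl n ↔ ∃ m : ℕ, m ≠ 0 ∧ m.Coprime n ∧ ∃ z : ℤ, (m : ℚ) * q = z := Iff.rfl

theorem nat_mem_Zl (n k : ℕ) : (k : ℚ) ∈ Zl n := natCast_mem (Zl n) k

theorem pow_mem_Zl (n k : ℕ) : (n : ℚ) ^ k ∈ Zl n := pow_mem (nat_mem_Zl n n) k

theorem smul_locAt {n : ℕ} {q : ℚ} (hq : q ∈ Zl n) {U : AddSubgroup V} {v : V}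
    (hv : v ∈ locAt n U) : q • v ∈ locAt n U := by
  obtain ⟨m, hm, hmn, z, hz⟩ := hq
  obtain ⟨k, hk, hkn, hv⟩ := hv
  refine ⟨m * k, mul_ne_zero hm hk, Nat.Coprime.mul_left hmn hkn, ?_⟩
  have e : (m * k) • (q • v) = z • (k • v) := by
    rw [← Nat.cast_smul_eq_nsmul ℚ, ← Nat.cast_smul_eq_nsmul ℚ, ← Int.cast_smul_eq_zsmul ℚ,
      smul_smul, smul_smul]
    congr 1
    push_cast
    rw [← hz]; ring
  rw [e]
  exact U.zsmul_mem hv z

theorem Zl_mono {n e e' : ℕ} (h : e ≤ e') {q : ℚ} (hq : (n : ℚ) ^ e * q ∈ Zl n) :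
    (n : ℚ) ^ e' * q ∈ Zl n := by
  obtain ⟨k, rfl⟩ := Nat.exists_eq_add_of_le h
  have : (n : ℚ) ^ (e + k) * q = (n : ℚ) ^ k * ((n : ℚ) ^ e * q) := by rw [pow_add]; ring
  rw [this]
  exact mul_mem (pow_mem_Zl n k) hq

theorem exists_pow_mul (n D : ℕ) (hD : D ≠ 0) : ∃ e m : ℕ, m ≠ 0 ∧ m.Coprime n ∧ D ∣ n ^ e * m := by
  induction D using Nat.strong_induction_on with
  | _ D ih =>
    by_cases hg : D.gcd n = 1
    · exact ⟨0, D, hD, hg, by rw [pow_zero, one_mul]⟩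
    · obtain ⟨D', hD'⟩ := Nat.gcd_dvd_left D n
      have hg0 : D.gcd n ≠ 0 := Nat.gcd_ne_zero_left hD
      have hD'0 : D' ≠ 0 := by
        rintro rfl
        rw [mul_zero] at hD'
        exact hD hD'
      have hlt : D' < D := by
        have h2 : 2 ≤ D.gcd n := by omega
        calc D' < 2 * D' := by omega
          _ ≤ D.gcd n * D' := Nat.mul_le_mul_right _ h2
          _ = D := hD'.symm
      obtain ⟨e, m, hm, hmn, hd⟩ := ih D' hlt hD'0
      refine ⟨e + 1, m, hm, hmn, ?_⟩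
      rw [hD', pow_succ, mul_comm (n ^ e) n, mul_assoc]
      exact Nat.mul_dvd_mul (Nat.gcd_dvd_right D n) hd

theorem exists_pow_mem (n : ℕ) (q : ℚ) : ∃ e : ℕ, (n : ℚ) ^ e * q ∈ Zl n := by
  obtain ⟨e, m, hm, hmn, k, hk⟩ := exists_pow_mul n q.den q.den_nz
  refine ⟨e, m, hm, hmn, k * q.num, ?_⟩
  have h1 : (n : ℚ) ^ e * m = q.den * k := by exact_mod_cast hk
  have h2 : (q.den : ℚ) * q = q.num := by rw [mul_comm]; exact_mod_cast Rat.mul_den_eq_num q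
  push_cast
  calc (m : ℚ) * ((n : ℚ) ^ e * q) = ((n : ℚ) ^ e * m) * q := by ring
    _ = k * (q.den * q) := by rw [h1]; ring
    _ = k * q.num := by rw [h2]

theorem exists_pow_fin {ι : Type*} [Fintype ι] (P : ι → ℕ → Prop)
    (hP : ∀ i e e', e ≤ e' → P i e → P i e') (h : ∀ i, ∃ e, P i e) : ∃ e, ∀ i, P i e := by
  choose e he using h
  exact ⟨Finset.univ.sup e, fun i => hP i _ _ (Finset.le_sup (Finset.mem_univ i)) (he i)⟩

theorem exists_pow_all {ι : Type*} [Fintype ι] (n : ℕ) (x : ι → ℚ) :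
    ∃ e : ℕ, ∀ i, (n : ℚ) ^ e * x i ∈ Zl n :=
  exists_pow_fin (fun i e => (n : ℚ) ^ e * x i ∈ Zl n) (fun _ _ _ h h' => Zl_mono h h')
    fun i => exists_pow_mem n (x i)

/-- functionals are bounded on finitely generated groups -/
theorem func_bdd {n : ℕ} (f : V →ₗ[ℚ] ℚ) {U0 : AddSubgroup V} (hU0 : U0.FG) :
    ∃ e : ℕ, ∀ v ∈ locAt n U0, (n : ℚ) ^ e * f v ∈ Zl n := by
  obtain ⟨S, hS⟩ := hU0
  obtain ⟨D, hD⟩ : ∃ D : ℕ, D = ∏ s ∈ S, (f s).den := ⟨_, rfl⟩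
  have hD0 : D ≠ 0 := by rw [hD]; exact Finset.prod_ne_zero_iff.2 fun s _ => (f s).den_nz
  have h1 : ∀ v ∈ U0, ∃ z : ℤ, (D : ℚ) * f v = z := by
    intro v hv
    rw [← hS] at hv
    induction hv using AddSubgroup.closure_induction with
    | mem s hs =>
      obtain ⟨k, hk⟩ : (f s).den ∣ D := hD ▸ Finset.dvd_prod_of_mem _ hs
      refine ⟨k * (f s).num, ?_⟩
      have h2 : ((f s).den : ℚ) * f s = (f s).num := by
        rw [mul_comm]; exact_mod_cast Rat.mul_den_eq_num (f s)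
      rw [hk]
      push_cast
      rw [← h2]; ring
    | zero => exact ⟨0, by simp⟩
    | add a b _ _ ha hb =>
      obtain ⟨z, hz⟩ := ha
      obtain ⟨y, hy⟩ := hb
      exact ⟨z + y, by rw [map_add, mul_add, hz, hy]; push_cast; rfl⟩
    | neg a _ ha =>
      obtain ⟨z, hz⟩ := ha
      exact ⟨-z, by rw [map_neg, mul_neg, hz]; push_cast; rfl⟩
  obtain ⟨e, m, hm, hmn, k, hk⟩ := exists_pow_mul n D hD0
  refine ⟨e, ?_⟩
  rintro v ⟨m', hm', hmn', hv⟩
  obtain ⟨z, hz⟩ := h1 _ hv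
  refine ⟨m * m', mul_ne_zero hm hm', Nat.Coprime.mul_left hmn hmn', k * z, ?_⟩
  have h3 : (n : ℚ) ^ e * m = D * k := by exact_mod_cast hk
  have h4 : f (m' • v) = m' * f v := by
    rw [← Nat.cast_smul_eq_nsmul ℚ, map_smul, smul_eq_mul]
  rw [h4] at hz
  push_cast
  calc (m : ℚ) * m' * ((n : ℚ) ^ e * f v) = ((n : ℚ) ^ e * m) * (m' * f v) := by ring
    _ = k * (D * (m' * f v)) := by rw [h3]; ring
    _ = k * z := by rw [hz]

/-- the coefficients of the vectors of a lattice are bounded -/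
theorem bdd {ι : Type*} [Fintype ι] {n : ℕ} {b : ι → V} (hb : LinearIndependent ℚ b)
    {U0 : AddSubgroup V} (hU0 : U0.FG) : ∃ e : ℕ, ∀ x : ι → ℚ,
      (∑ i, x i • b i) ∈ locAt n U0 → ∀ i, (n : ℚ) ^ e * x i ∈ Zl n := by
  classical
  have hinj : LinearMap.ker (Fintype.linearCombination ℚ b) = ⊥ := by
    rw [LinearMap.ker_eq_bot]
    exact linearIndependent_iff_injective_fintypeLinearCombination.1 hb
  obtain ⟨g, hg⟩ := LinearMap.exists_leftInverse_of_injective _ hinj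
  have hg' : ∀ x : ι → ℚ, g (∑ i, x i • b i) = x := by
    intro x
    have := LinearMap.congr_fun hg x
    rwa [LinearMap.comp_apply, Fintype.linearCombination_apply, LinearMap.id_apply] at this
  obtain ⟨e, he⟩ := exists_pow_fin
    (fun (i : ι) e => ∀ v ∈ locAt n U0, (n : ℚ) ^ e * (g v) i ∈ Zl n)
    (fun _ _ _ h h' v hv => Zl_mono h (h' v hv))
    (fun i => func_bdd ((LinearMap.proj i).comp g) hU0)
  refine ⟨e, fun x hx i => ?_⟩
  have := he i _ hx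
  rwa [hg'] at this

theorem sum_mem_locAt {ι : Type*} [Fintype ι] {n : ℕ} {U0 : AddSubgroup V} {x : ι → ℚ}
    {w : ι → V} (hx : ∀ i, x i ∈ Zl n) (hw : ∀ i, w i ∈ locAt n U0) :
    ∑ i, x i • w i ∈ locAt n U0 :=
  sum_mem fun i _ => smul_locAt (hx i) (hw i)

/-- the coefficients remain bounded near a family -/
theorem pert {ι : Type*} [Fintype ι] {n : ℕ} {b w : ι → V} {U0 : AddSubgroup V} {e c : ℕ}
    (hec : e < c) (hbd : ∀ x : ι → ℚ, (∑ i, x i • b i) ∈ locAt n U0 →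
      ∀ i, (n : ℚ) ^ e * x i ∈ Zl n) (hw : ∀ i, w i ∈ locAt n U0) (x : ι → ℚ)
    (hx : ∑ i, x i • (b i + (n : ℚ) ^ c • w i) ∈ locAt n U0) :
    ∀ i, (n : ℚ) ^ e * x i ∈ Zl n := by
  have key : ∀ (r : ℚ) , r ∈ Zl n → (∀ i, (n : ℚ) ^ c * (r * x i) ∈ Zl n) →
      ∀ i, (n : ℚ) ^ e * (r * x i) ∈ Zl n := by
    intro r hr hri
    apply hbd (fun i => r * x i)
    have h1 : ∑ i, (r * x i) • b i = r • ∑ i, x i • (b i + (n : ℚ) ^ c • w i)
        - ∑ i, ((n : ℚ) ^ c * (r * x i)) • w i := by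
      rw [Finset.smul_sum, ← Finset.sum_sub_distrib]
      refine Finset.sum_congr rfl fun i _ => ?_
      module
    rw [h1]
    exact sub_mem (smul_locAt hr hx) (sum_mem_locAt hri hw)
  have main : ∀ j : ℕ, (∀ i, (n : ℚ) ^ j * x i ∈ Zl n) → ∀ i, (n : ℚ) ^ e * x i ∈ Zl n := by
    intro j
    induction j using Nat.strong_induction_on with
    | _ j ih =>
      intro hj
      rcases Nat.lt_or_ge c j with hcj | hcj
      · apply ih (e + (j - c)) (by omega)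
        intro i
        have h2 := key ((n : ℚ) ^ (j - c)) (pow_mem_Zl n _) (fun i => by
          have h3 : (n : ℚ) ^ c * ((n : ℚ) ^ (j - c) * x i) = (n : ℚ) ^ j * x i := by
            rw [← mul_assoc, ← pow_add, Nat.add_sub_cancel' hcj.le]
          rw [h3]; exact hj i) i
        rwa [← mul_assoc, ← pow_add] at h2
      · intro i
        have h2 := key 1 (one_mem _) (fun i => by
          rw [one_mul]; exact Zl_mono hcj (hj i)) i
        rwa [one_mul] at h2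
  obtain ⟨j, hj⟩ := exists_pow_all n x
  exact main j hj

end Pool.Agent.DEC
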