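import Pool.Agent.DEC.Core
import Pool.Agent.DEC.StateA
import Pool.Agent.DEC.PPred

/-!
# MP_59dda0_an, DEC: the integral identities of a semi-solution as integer matrices
-/

set_option autoImplicit false

open Matrix Polynomial

namespace Pool.Agent.DEC.P0

open Pool.Agent.DEC.PPred (MCong)

section lin

variable {a b : ℕ} {A : Matrix (Fin a) (Fin a) ℕ} {B : Matrix (Fin b) (Fin b) ℕ} (ρ : Ref A B)
  {n : Fin ρ.f → ℕ} (deg : ∀ i, Fin (n i) → ℕ) (s : ρ.MSt n)

/-- linear version of `Ref.GA` -/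
noncomputable def GAl : ρ.Gam n →ₗ[ℤ] (Fin a → ℤ) :=
  ∑ i, (ρ.P i) ∘ₗ ((Matrix.mulVecLin (RM (ρ.shp deg i) (s i))).restrictScalars ℤ) ∘ₗ
    (LinearMap.proj i)

/-- linear version of `Ref.GB` -/
noncomputable def GBl : ρ.Gam n →ₗ[ℤ] (Fin b → ℤ) :=
  ∑ i, (ρ.Q i) ∘ₗ ((Matrix.mulVecLin (MM (ρ.shp deg i) (s i))).restrictScalars ℤ) ∘ₗ
    (LinearMap.proj i)

theorem GAl_apply (z : ρ.Gam n) : GAl ρ deg s z = ρ.GA deg s z := by
  simp [GAl, Ref.GA, LinearMap.sum_apply]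

theorem GBl_apply (z : ρ.Gam n) : GBl ρ deg s z = ρ.GB deg s z := by
  simp [GBl, Ref.GB, LinearMap.sum_apply]

end lin

/-- matrix of a linear map defined on integral vectors -/
def matOf {J : Type} [Fintype J] [DecidableEq J] {K : Type} (f : (J → ℤ) →ₗ[ℤ] (K → ℤ)) :
    Matrix K J ℤ :=
  of fun x j => f (Pi.single j 1) x

theorem matOf_mulVec {J : Type} [Fintype J] [DecidableEq J] {K : Type}
    (f : (J → ℤ) →ₗ[ℤ] (K → ℤ)) (v : J → ℤ) : matOf f *ᵥ v = f v := by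
  funext x
  conv_rhs => rw [← Finset.univ_sum_single v]
  rw [map_sum, Finset.sum_apply]
  unfold mulVec dotProduct
  refine Finset.sum_congr rfl fun j _ => ?_
  change f (Pi.single j 1) x * v j = _
  have : Pi.single j (v j) = (v j) • (Pi.single j 1 : J → ℤ) := by
    rw [← Pi.single_smul]; simp
  rw [this, map_smul]
  simp [mul_comm]

theorem matOf_comp {J K L : Type} [Fintype J] [DecidableEq J] [Fintype K] [DecidableEq K]
    (g : (K → ℤ) →ₗ[ℤ] (L → ℤ)) (f : (J → ℤ) →ₗ[ℤ] (K → ℤ)) :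
    matOf (g ∘ₗ f) = matOf g * matOf f := by
  ext x j
  have h := congrFun (matOf_mulVec g (f (Pi.single j 1))) x
  change g (f (Pi.single j 1)) x = _
  rw [← h]
  rfl

/-- a divisible difference of matrices, vector form -/
theorem mcong_iff {J K : Type} [Fintype J] [DecidableEq J] (N : ℕ) (X Y : Matrix K J ℤ) :
    MCong N X Y ↔ ∀ v : J → ℤ, ∃ u : K → ℤ, X *ᵥ v = Y *ᵥ v + (N : ℤ) • u := by
  constructor
  · intro h v
    choose w hw using h
    refine ⟨fun x => ∑ j, w x j * v j, ?_⟩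
    funext x
    simp only [mulVec, dotProduct, Pi.add_apply, Pi.smul_apply, smul_eq_mul, Finset.mul_sum]
    rw [← Finset.sum_add_distrib]
    refine Finset.sum_congr rfl fun j _ => ?_
    have := hw x j
    linear_combination (v j) * this
  · intro h x j
    obtain ⟨u, hu⟩ := h (Pi.single j 1)
    have := congrFun hu x
    simp only [mulVec_single_one, Pi.add_apply, Pi.smul_apply, smul_eq_mul, col_apply] at this
    exact ⟨u x, by rw [this]; ring⟩

section gen

variable {a b : ℕ} {A : Matrix (Fin a) (Fin a) ℕ} {B : Matrix (Fin b) (Fin b) ℕ} (ρ : Ref A B)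
  {n : Fin ρ.f → ℕ} (deg : ∀ i, Fin (n i) → ℕ) (s : ρ.MSt n)
  {J : Type} [Fintype J] [DecidableEq J]
  (β : (J → ℤ) →ₗ[ℤ] ρ.Gam n) (γ : ρ.Gam n →ₗ[ℤ] (J → ℤ))

/-- matrix of `GA` -/
noncomputable def RG : Matrix (Fin a) J ℤ := matOf (GAl ρ deg s ∘ₗ β)

/-- matrix of `GB` -/
noncomputable def MG : Matrix (Fin b) J ℤ := matOf (GBl ρ deg s ∘ₗ β)

theorem RG_apply (x : Fin a) (j : J) :
    RG ρ deg s β x j = ρ.GA deg s (β (Pi.single j 1)) x := by
  simp [RG, matOf, GAl_apply]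

theorem MG_apply (x : Fin b) (j : J) :
    MG ρ deg s β x j = ρ.GB deg s (β (Pi.single j 1)) x := by
  simp [MG, matOf, GBl_apply]

theorem RG_mulVec (v : J → ℤ) : RG ρ deg s β *ᵥ v = ρ.GA deg s (β v) := by
  rw [RG, matOf_mulVec]
  exact GAl_apply ρ deg s (β v)

theorem MG_mulVec (v : J → ℤ) : MG ρ deg s β *ᵥ v = ρ.GB deg s (β v) := by
  rw [MG, matOf_mulVec]
  exact GBl_apply ρ deg s (β v)


/-- **Integral identities as integer matrices.** -/
theorem ids_iff (h : ∀ z, β (γ z) = z) (N : ℕ) :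
    Ids ρ deg s N ↔
      ∃ (R' : Matrix J (Fin a) ℤ) (Ψ : Matrix (Fin b) (Fin a) ℤ) (T : Matrix J (Fin b) ℤ)
        (T' : Matrix (Fin a) (Fin b) ℤ) (l : ℕ),
        MCong N (R' * RG ρ deg s β) ((ρ.D : ℤ) • matOf (γ ∘ₗ β)) ∧
        MCong N (Ψ * RG ρ deg s β) (MG ρ deg s β) ∧
        MCong N (RG ρ deg s β * T) ((ρ.D : ℤ) • T') ∧
        MCong N (MG ρ deg s β * T) ((ρ.D : ℤ) • ((zM B) ^ l)ᵀ) := by
  constructor
  · rintro ⟨R', Ψ, T, T', l, e1, e2, e3, e4⟩
    refine ⟨matOf (γ ∘ₗ R'), matOf Ψ, matOf (γ ∘ₗ T), matOf T', l, ?_, ?_, ?_, ?_⟩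
    · rw [mcong_iff]
      intro v
      obtain ⟨w, hw⟩ := e1 (β v)
      refine ⟨γ w, ?_⟩
      rw [← mulVec_mulVec, RG_mulVec, matOf_mulVec, smul_mulVec, matOf_mulVec,
        LinearMap.comp_apply, hw, map_add, map_smul, map_smul, LinearMap.comp_apply]
    · rw [mcong_iff]
      intro v
      obtain ⟨w, hw⟩ := e2 (β v)
      refine ⟨w, ?_⟩
      rw [← mulVec_mulVec, RG_mulVec, matOf_mulVec, hw, MG_mulVec]
    · rw [mcong_iff]
      intro v
      obtain ⟨w, hw⟩ := e3 v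
      refine ⟨w, ?_⟩
      rw [← mulVec_mulVec, matOf_mulVec, RG_mulVec, LinearMap.comp_apply, h, hw, smul_mulVec,
        matOf_mulVec]
    · rw [mcong_iff]
      intro v
      obtain ⟨w, hw⟩ := e4 v
      refine ⟨w, ?_⟩
      rw [← mulVec_mulVec, matOf_mulVec, MG_mulVec, LinearMap.comp_apply, h, hw, smul_mulVec,
        mulVec_transpose]
  · rintro ⟨R', Ψ, T, T', l, e1, e2, e3, e4⟩
    rw [mcong_iff] at e1 e2 e3 e4
    refine ⟨β ∘ₗ mulVecLin R', mulVecLin Ψ, β ∘ₗ mulVecLin T, mulVecLin T', l, ?_, ?_, ?_, ?_⟩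
    · intro z
      obtain ⟨u, hu⟩ := e1 (γ z)
      refine ⟨β u, ?_⟩
      rw [← mulVec_mulVec, RG_mulVec, h, smul_mulVec, matOf_mulVec, LinearMap.comp_apply, h] at hu
      rw [LinearMap.comp_apply, mulVecLin_apply, hu, map_add, map_smul, map_smul, h]
    · intro z
      obtain ⟨u, hu⟩ := e2 (γ z)
      refine ⟨u, ?_⟩
      rw [← mulVec_mulVec, RG_mulVec, MG_mulVec, h] at hu
      rw [mulVecLin_apply, hu]
    · intro w
      obtain ⟨u, hu⟩ := e3 w
      refine ⟨u, ?_⟩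
      rw [← mulVec_mulVec, RG_mulVec, smul_mulVec] at hu
      rw [LinearMap.comp_apply, mulVecLin_apply, mulVecLin_apply, hu]
    · intro w
      obtain ⟨u, hu⟩ := e4 w
      refine ⟨u, ?_⟩
      rw [← mulVec_mulVec, MG_mulVec, smul_mulVec, mulVec_transpose] at hu
      rw [LinearMap.comp_apply, mulVecLin_apply, hu]

end gen

/-! ### coordinates in `ℤ[θ]` -/

section coord

variable {g : ℤ[X]} (hg : g.Monic)

/-- the coordinate of `z` at `θ ^ t` -/
noncomputable def co (t : ℕ) : Lam g →ₗ[ℤ] ℤ :=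
  (Polynomial.lcoeff ℤ t) ∘ₗ (AdjoinRoot.modByMonicHom hg)

theorem co_mk (t : ℕ) (p : ℤ[X]) : co hg t (AdjoinRoot.mk g p) = (p %ₘ g).coeff t := by
  simp [co]

theorem co_of_le {t : ℕ} (ht : g.natDegree ≤ t) (z : Lam g) : co hg t z = 0 := by
  obtain ⟨p, rfl⟩ := AdjoinRoot.mk_surjective z
  rw [co_mk]
  by_cases h1 : g = 1
  · rw [h1, modByMonic_one, coeff_zero]
  · exact coeff_eq_zero_of_natDegree_lt (lt_of_lt_of_le (natDegree_modByMonic_lt p hg h1) ht)

theorem sum_co (z : Lam g) :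
    z = ∑ t ∈ Finset.range g.natDegree, (co hg t z) • (AdjoinRoot.root g) ^ t := by
  obtain ⟨p, rfl⟩ := AdjoinRoot.mk_surjective z
  have h1 : AdjoinRoot.mk g p = AdjoinRoot.mk g (p %ₘ g) := by
    rw [AdjoinRoot.mk_eq_mk]
    have := modByMonic_add_div p g
    exact ⟨p /ₘ g, by linear_combination -this⟩
  have h2 : p %ₘ g = ∑ t ∈ Finset.range g.natDegree, C ((p %ₘ g).coeff t) * X ^ t := by
    by_cases h1 : g = 1
    · simp [h1]
    · exact (p %ₘ g).as_sum_range_C_mul_X_pow' (natDegree_modByMonic_lt p hg h1)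
  conv_lhs => rw [h1, h2]
  rw [map_sum]
  refine Finset.sum_congr rfl fun t _ => ?_
  rw [co_mk, map_mul, map_pow, AdjoinRoot.mk_X, AdjoinRoot.mk_C, zsmul_eq_mul]
  simp

theorem co_root_pow {t u : ℕ} (hu : u < g.natDegree) :
    co hg t ((AdjoinRoot.root g) ^ u) = if t = u then 1 else 0 := by
  have : (AdjoinRoot.root g) ^ u = AdjoinRoot.mk g (X ^ u) := by simp
  rw [this, co_mk, (modByMonic_eq_self_iff hg).2, coeff_X_pow]
  rw [degree_X_pow, degree_eq_natDegree hg.ne_zero]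
  exact_mod_cast hu

theorem co_sum {t : ℕ} (ht : t < g.natDegree) (c : ℕ → ℤ) :
    co hg t (∑ u ∈ Finset.range g.natDegree, c u • (AdjoinRoot.root g) ^ u) = c t := by
  rw [map_sum, Finset.sum_eq_single t]
  · rw [map_smul, co_root_pow hg ht]; simp
  · intro u hu hne
    rw [map_smul, co_root_pow hg (Finset.mem_range.1 hu), if_neg hne.symm]; simp
  · intro h; exact absurd (Finset.mem_range.2 ht) h

end coord

/-! ### padded indices -/

/-- factor of an index -/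
def iI (a dm j : ℕ) : ℕ := j / (a * dm)
/-- frame of an index -/
def iQ (a dm j : ℕ) : ℕ := j / dm % a
/-- power of `θ` of an index -/
def iT (dm j : ℕ) : ℕ := j % dm
/-- the index of `θ ^ t` in the frame `q` of the factor `i` -/
def idx (a dm i q t : ℕ) : ℕ := (i * a + q) * dm + t

theorem idx_lt {f a dm i q t : ℕ} (hi : i < f) (hq : q < a) (ht : t < dm) :
    idx a dm i q t < f * (a * dm) := by
  unfold idx
  calc (i * a + q) * dm + t < (i * a + q + 1) * dm := by nlinarith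
    _ ≤ ((i + 1) * a) * dm := by
        apply Nat.mul_le_mul_right
        nlinarith
    _ ≤ (f * a) * dm := by
        apply Nat.mul_le_mul_right
        exact Nat.mul_le_mul_right _ hi
    _ = f * (a * dm) := by ring

theorem iT_idx {a dm i q t : ℕ} (ht : t < dm) : iT dm (idx a dm i q t) = t := by
  unfold iT idx
  rw [Nat.add_comm, Nat.add_mul_mod_self_right, Nat.mod_eq_of_lt ht]

theorem idx_div {a dm i q t : ℕ} (ht : t < dm) : idx a dm i q t / dm = i * a + q := by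
  unfold idx
  have h : 0 < dm := by omega
  rw [Nat.add_comm, Nat.add_mul_div_right _ _ h, Nat.div_eq_of_lt ht, zero_add]

theorem iQ_idx {a dm i q t : ℕ} (hq : q < a) (ht : t < dm) : iQ a dm (idx a dm i q t) = q := by
  unfold iQ
  rw [idx_div ht, Nat.add_comm, Nat.add_mul_mod_self_right, Nat.mod_eq_of_lt hq]

theorem iI_idx {a dm i q t : ℕ} (hq : q < a) (ht : t < dm) : iI a dm (idx a dm i q t) = i := by
  unfold iI
  have h : 0 < a := by omega
  rw [Nat.mul_comm a dm, ← Nat.div_div_eq_div_mul, idx_div ht, Nat.add_comm,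
    Nat.add_mul_div_right _ _ h, Nat.div_eq_of_lt hq, zero_add]

theorem idx_of (a dm j : ℕ) : idx a dm (iI a dm j) (iQ a dm j) (iT dm j) = j := by
  unfold idx iI iQ iT
  rw [Nat.mul_comm a dm, ← Nat.div_div_eq_div_mul]
  have h1 : j / dm / a * a + j / dm % a = j / dm := by
    rw [Nat.mul_comm]; exact Nat.div_add_mod _ _
  rw [h1, Nat.mul_comm]
  exact Nat.div_add_mod _ _

theorem iI_lt {f a dm j : ℕ} (h : j < f * (a * dm)) : iI a dm j < f := by
  unfold iI
  exact Nat.div_lt_of_lt_mul (by rwa [Nat.mul_comm] at h)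

/-- value of an integral vector at an arbitrary index -/
def vN {M : ℕ} (v : Fin M → ℤ) (k : ℕ) : ℤ := if h : k < M then v ⟨k, h⟩ else 0

theorem vN_single {M : ℕ} (j : Fin M) (k : ℕ) :
    vN (Pi.single j (1 : ℤ)) k = if k = j then 1 else 0 := by
  unfold vN
  by_cases h : k < M
  · rw [dif_pos h]
    by_cases h' : k = j
    · subst h'; simp
    · rw [if_neg h', Pi.single_apply, if_neg]
      intro h2; exact h' (by rw [← h2])
  · rw [dif_neg h, if_neg]
    intro h'; exact h (h' ▸ j.2)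

section pad

variable {a b : ℕ} {A : Matrix (Fin a) (Fin a) ℕ} {B : Matrix (Fin b) (Fin b) ℕ} (ρ : Ref A B)
  {n : Fin ρ.f → ℕ} (deg : ∀ i, Fin (n i) → ℕ) (s : ρ.MSt n) (dm : ℕ)

/-- the parametrization of `Gam n` by integral vectors -/
noncomputable def beta : (Fin (ρ.f * (a * dm)) → ℤ) →ₗ[ℤ] ρ.Gam n where
  toFun v := fun i q => ∑ t ∈ Finset.range (ρ.g i).natDegree, vN v (idx a dm i q t) • ρ.th i ^ t
  map_add' v w := by
    funext i q
    simp only [Pi.add_apply]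
    rw [← Finset.sum_add_distrib]
    refine Finset.sum_congr rfl fun t _ => ?_
    have : vN (v + w) (idx a dm i q t) = vN v (idx a dm i q t) + vN w (idx a dm i q t) := by
      unfold vN; split_ifs <;> simp
    rw [this, add_smul]
  map_smul' c v := by
    funext i q
    simp only [Pi.smul_apply, RingHom.id_apply]
    rw [Finset.smul_sum]
    refine Finset.sum_congr rfl fun t _ => ?_
    have : vN (c • v) (idx a dm i q t) = c * vN v (idx a dm i q t) := by
      unfold vN; split_ifs <;> simp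
    rw [this, mul_smul]

/-- an index is valid -/
def Valid (n : Fin ρ.f → ℕ) (j : ℕ) : Prop :=
  ∃ h : iI a dm j < ρ.f, iQ a dm j < n ⟨iI a dm j, h⟩ ∧
    iT dm j < (ρ.g ⟨iI a dm j, h⟩).natDegree

/-- the coordinates of a vector of `Gam n` -/
noncomputable def gamma : ρ.Gam n →ₗ[ℤ] (Fin (ρ.f * (a * dm)) → ℤ) where
  toFun z := fun j =>
    if h : iQ a dm j < n ⟨iI a dm j, iI_lt j.2⟩ then
      co (ρ.monic ⟨iI a dm j, iI_lt j.2⟩) (iT dm j) (z ⟨iI a dm j, iI_lt j.2⟩ ⟨iQ a dm j, h⟩)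
    else 0
  map_add' v w := by
    funext j
    simp only [Pi.add_apply]
    split_ifs
    · rw [map_add]
    · simp
  map_smul' c v := by
    funext j
    simp only [Pi.smul_apply, RingHom.id_apply]
    split_ifs
    · rw [map_smul]
    · simp

variable {dm}

theorem gamma_apply {ρ : Ref A B} {n : Fin ρ.f → ℕ} (z : ρ.Gam n) {j : ℕ}
    (hj : j < ρ.f * (a * dm)) {i : Fin ρ.f} {q : Fin (n i)} {t : ℕ} (hi : iI a dm j = i)
    (hq : iQ a dm j = q) (ht : iT dm j = t) :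
    gamma ρ dm z ⟨j, hj⟩ = co (ρ.monic i) t (z i q) := by
  obtain ⟨i, hi'⟩ := i
  obtain ⟨q, hq'⟩ := q
  simp only at hi hq
  subst hi hq ht
  change (if h : _ then _ else _) = _
  rw [dif_pos hq']

theorem beta_gamma (hn : ∀ i, n i ≤ a) (hd : ∀ i, (ρ.g i).natDegree ≤ dm) (z : ρ.Gam n) :
    beta ρ dm (gamma ρ dm z) = z := by
  funext i q
  conv_rhs => rw [sum_co (ρ.monic i) (z i q)]
  change ∑ t ∈ Finset.range (ρ.g i).natDegree, _ = _
  refine Finset.sum_congr rfl fun t ht => ?_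
  have ht' := Finset.mem_range.1 ht
  have h1 : (q : ℕ) < a := lt_of_lt_of_le q.2 (hn i)
  have h2 : t < dm := lt_of_lt_of_le ht' (hd i)
  have h3 := idx_lt i.2 h1 h2
  congr 1
  unfold vN
  rw [dif_pos h3]
  exact gamma_apply z h3 (iI_idx h1 h2) (iQ_idx h1 h2) (iT_idx h2)

theorem beta_single (hn : ∀ i, n i ≤ a) (hd : ∀ i, (ρ.g i).natDegree ≤ dm)
    (j : Fin (ρ.f * (a * dm))) {i : Fin ρ.f} (hi : iI a dm j = i) {q : Fin (n i)}
    (hq : iQ a dm j = q) (ht : iT dm j < (ρ.g i).natDegree) :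
    beta ρ dm (Pi.single j 1) = (Pi.single i (Pi.single q (ρ.th i ^ iT dm j)) : ρ.Gam n) := by
  funext i' q'
  change ∑ t ∈ Finset.range (ρ.g i').natDegree, vN (Pi.single j (1 : ℤ)) _ • _ = _
  have key : ∀ t ∈ Finset.range (ρ.g i').natDegree,
      vN (Pi.single j (1 : ℤ)) (idx a dm i' q' t) • ρ.th i' ^ t =
      if (i' = i ∧ (q' : ℕ) = q ∧ t = iT dm j) then ρ.th i' ^ t else 0 := by
    intro t ht'
    have ht'' := Finset.mem_range.1 ht'
    have h1 : (q' : ℕ) < a := lt_of_lt_of_le q'.2 (hn i')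
    have h2 : t < dm := lt_of_lt_of_le ht'' (hd i')
    rw [vN_single]
    by_cases h : idx a dm i' q' t = j
    · have e1 : i' = i := by
        apply Fin.ext
        rw [← hi, ← h, iI_idx h1 h2]
      have e2 : (q' : ℕ) = q := by rw [← hq, ← h, iQ_idx h1 h2]
      have e3 : t = iT dm j := by rw [← h, iT_idx h2]
      rw [if_pos h, if_pos ⟨e1, e2, e3⟩, one_smul]
    · rw [if_neg h, if_neg, zero_smul]
      rintro ⟨e1, e2, e3⟩
      apply h
      have e1' : (i' : ℕ) = i := congrArg Fin.val e1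
      rw [e1', e2, e3, ← hi, ← hq, idx_of]
  rw [Finset.sum_congr rfl key]
  by_cases hi' : i' = i
  · subst hi'
    rw [Pi.single_eq_same]
    by_cases hq' : q' = q
    · subst hq'
      rw [Pi.single_eq_same]
      rw [Finset.sum_eq_single (iT dm j)]
      · simp
      · intro t _ hne
        rw [if_neg]; rintro ⟨-, -, h⟩; exact hne h
      · intro h; exact absurd (Finset.mem_range.2 ht) h
    · rw [Pi.single_eq_of_ne hq']
      refine Finset.sum_eq_zero fun t _ => ?_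
      rw [if_neg]; rintro ⟨-, h, -⟩; exact hq' (Fin.ext h)
  · rw [Pi.single_eq_of_ne hi']
    simp only [Pi.zero_apply]
    refine Finset.sum_eq_zero fun t _ => ?_
    rw [if_neg]; rintro ⟨h, -, -⟩; exact hi' h

theorem beta_single_invalid (hn : ∀ i, n i ≤ a) (hd : ∀ i, (ρ.g i).natDegree ≤ dm)
    (j : Fin (ρ.f * (a * dm))) (h : ¬ Valid ρ dm n j) :
    beta ρ dm (Pi.single j 1) = (0 : ρ.Gam n) := by
  funext i' q'
  change ∑ t ∈ Finset.range (ρ.g i').natDegree, vN (Pi.single j (1 : ℤ)) _ • _ = _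
  refine Finset.sum_eq_zero fun t ht' => ?_
  have ht'' := Finset.mem_range.1 ht'
  have h1 : (q' : ℕ) < a := lt_of_lt_of_le q'.2 (hn i')
  have h2 : t < dm := lt_of_lt_of_le ht'' (hd i')
  rw [vN_single, if_neg, zero_smul]
  intro e
  apply h
  have e1 : iI a dm j = i' := by rw [← e, iI_idx h1 h2]
  have e2 : iQ a dm j = q' := by rw [← e, iQ_idx h1 h2]
  have e3 : iT dm j = t := by rw [← e, iT_idx h2]
  refine ⟨by rw [e1]; exact i'.2, ?_⟩
  have e1' : (⟨iI a dm j, by rw [e1]; exact i'.2⟩ : Fin ρ.f) = i' := Fin.ext e1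
  rw [e1', e2, e3]
  exact ⟨q'.2, ht''⟩

/-- the coordinates of the basis vectors -/
theorem gammaBeta (hn : ∀ i, n i ≤ a) (hd : ∀ i, (ρ.g i).natDegree ≤ dm) [DecidablePred (Valid ρ dm n)] :
    matOf (gamma ρ dm ∘ₗ beta ρ (n := n) dm) =
      Matrix.diagonal fun j : Fin (ρ.f * (a * dm)) => if Valid ρ dm n j then (1 : ℤ) else 0 := by
  ext j' j
  change gamma ρ dm (beta ρ dm (Pi.single j 1)) j' = _
  by_cases hj : Valid ρ dm n j
  · obtain ⟨h0, h1, h2⟩ := hj
    rw [beta_single ρ hn hd j (i := ⟨_, h0⟩) rfl (q := ⟨_, h1⟩) rfl h2]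
    by_cases hjj : j' = j
    · subst hjj
      rw [diagonal_apply_eq, if_pos ⟨h0, h1, h2⟩]
      have := gamma_apply (ρ := ρ) (dm := dm)
        (Pi.single ⟨_, h0⟩ (Pi.single ⟨_, h1⟩ (ρ.th ⟨_, h0⟩ ^ iT dm j')) : ρ.Gam n)
        j'.2 (i := ⟨_, h0⟩) (q := ⟨_, h1⟩) rfl rfl rfl
      rw [Pi.single_eq_same, Pi.single_eq_same, co_root_pow _ h2, if_pos rfl] at this
      exact this
    · rw [diagonal_apply_ne _ hjj]
      by_cases hI : iI a dm j' = iI a dm j
      · have e : (⟨iI a dm j', iI_lt j'.2⟩ : Fin ρ.f) = ⟨iI a dm j, h0⟩ := Fin.ext hI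
        by_cases h3 : iQ a dm j' < n ⟨iI a dm j, h0⟩
        · have := gamma_apply (ρ := ρ) (dm := dm)
            (Pi.single ⟨_, h0⟩ (Pi.single ⟨_, h1⟩ (ρ.th ⟨_, h0⟩ ^ iT dm j)) : ρ.Gam n)
            j'.2 (i := ⟨_, h0⟩) (q := ⟨_, h3⟩) hI rfl rfl
          refine this.trans ?_
          rw [Pi.single_eq_same]
          by_cases hq : iQ a dm j' = iQ a dm j
          · have h4 : iT dm j' ≠ iT dm j := by
              intro h5
              apply hjj
              apply Fin.ext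
              rw [← idx_of a dm j', ← idx_of a dm j, h5, hq, hI]
            have h6 : (⟨iQ a dm j', h3⟩ : Fin (n ⟨iI a dm j, h0⟩)) = ⟨iQ a dm j, h1⟩ := Fin.ext hq
            rw [h6, Pi.single_eq_same, co_root_pow _ h2, if_neg h4]
          · rw [Pi.single_eq_of_ne, map_zero]
            intro h6
            exact hq (congrArg Fin.val h6)
        · change (if h : _ then _ else _) = _
          rw [dif_neg]
          rw [e]; exact h3
      · change (if h : _ then _ else _) = _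
        split_ifs with h3
        · rw [Pi.single_eq_of_ne]
          · simp
          · intro h; exact hI (congrArg Fin.val h)
        · rfl
  · rw [beta_single_invalid ρ hn hd j hj, map_zero]
    by_cases hjj : j' = j
    · subst hjj
      rw [diagonal_apply_eq, if_neg hj]; rfl
    · rw [diagonal_apply_ne _ hjj]; rfl

end pad

/-! ### entries -/

section entries

variable {a b : ℕ} {A : Matrix (Fin a) (Fin a) ℕ} {B : Matrix (Fin b) (Fin b) ℕ} (ρ : Ref A B)
  {n : Fin ρ.f → ℕ} (deg : ∀ i, Fin (n i) → ℕ) (s : ρ.MSt n)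

/-- the integer matrix of `P i` -/
noncomputable def Pm (i : Fin ρ.f) (x : Fin a) (c : Blk (ρ.lam i)) (u : ℕ) : ℤ :=
  ρ.P i (Pi.single c (ρ.th i ^ u)) x

/-- the integer matrix of `Q i` -/
noncomputable def Qm (i : Fin ρ.f) (x : Fin b) (c : Blk (ρ.mu i)) (u : ℕ) : ℤ :=
  ρ.Q i (Pi.single c (ρ.th i ^ u)) x

theorem single_expand {g : ℤ[X]} (hg : g.Monic) {C : Type} [Fintype C] [DecidableEq C]
    (v : C → Lam g) :
    v = ∑ c, ∑ u ∈ Finset.range g.natDegree,
      co hg u (v c) • (Pi.single c (AdjoinRoot.root g ^ u) : C → Lam g) := by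
  conv_lhs => rw [← Finset.univ_sum_single v]
  refine Finset.sum_congr rfl fun c _ => ?_
  conv_lhs => rw [sum_co hg (v c)]
  funext c'
  by_cases h : c' = c
  · subst h
    simp [Finset.sum_apply]
  · simp [Finset.sum_apply, Pi.single_eq_of_ne h]

theorem P_apply (i : Fin ρ.f) (v : Blk (ρ.lam i) → Lam (ρ.g i)) (x : Fin a) :
    ρ.P i v x = ∑ c, ∑ u ∈ Finset.range (ρ.g i).natDegree,
      co (ρ.monic i) u (v c) * Pm ρ i x c u := by
  conv_lhs => rw [single_expand (ρ.monic i) v]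
  simp only [map_sum, map_smul, Finset.sum_apply, Pi.smul_apply, smul_eq_mul]
  rfl

theorem Q_apply (i : Fin ρ.f) (v : Blk (ρ.mu i) → Lam (ρ.g i)) (x : Fin b) :
    ρ.Q i v x = ∑ c, ∑ u ∈ Finset.range (ρ.g i).natDegree,
      co (ρ.monic i) u (v c) * Qm ρ i x c u := by
  conv_lhs => rw [single_expand (ρ.monic i) v]
  simp only [map_sum, map_smul, Finset.sum_apply, Pi.smul_apply, smul_eq_mul]
  rfl

theorem GA_single (i : Fin ρ.f) (q : Fin (n i)) (z : Lam (ρ.g i)) (x : Fin a) :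
    ρ.GA deg s (Pi.single i (Pi.single q z)) x =
      ∑ c, ∑ u ∈ Finset.range (ρ.g i).natDegree,
        co (ρ.monic i) u (RM (ρ.shp deg i) (s i) c q * z) * Pm ρ i x c u := by
  unfold Ref.GA
  rw [Finset.sum_eq_single i]
  · rw [Pi.single_eq_same, mulVec_single, P_apply]
    simp
  · intro k _ hk
    rw [Pi.single_eq_of_ne hk, mulVec_zero, map_zero]
  · intro h; exact absurd (Finset.mem_univ _) h

theorem GB_single (i : Fin ρ.f) (q : Fin (n i)) (z : Lam (ρ.g i)) (x : Fin b) :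
    ρ.GB deg s (Pi.single i (Pi.single q z)) x =
      ∑ c, ∑ u ∈ Finset.range (ρ.g i).natDegree,
        co (ρ.monic i) u (MM (ρ.shp deg i) (s i) c q * z) * Qm ρ i x c u := by
  unfold Ref.GB
  rw [Finset.sum_eq_single i]
  · rw [Pi.single_eq_same, mulVec_single, Q_apply]
    simp
  · intro k _ hk
    rw [Pi.single_eq_of_ne hk, mulVec_zero, map_zero]
  · intro h; exact absurd (Finset.mem_univ _) h

/-- **Entries of the matrix of `GA`**: the state is the image of a state over `ℤ[X]`. -/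
theorem RG_entry {dm : ℕ} (hn : ∀ i, n i ≤ a) (hd : ∀ i, (ρ.g i).natDegree ≤ dm)
    (j : Fin (ρ.f * (a * dm))) {i : Fin ρ.f} (hi : iI a dm j = i) {q : Fin (n i)}
    (hq : iQ a dm j = q) (ht : iT dm j < (ρ.g i).natDegree)
    (sX : RSt ℤ[X] (Fin (n i)) (Fin (ρ.na i)) (Fin (ρ.nb i)))
    (hs : s i = smap (AdjoinRoot.mk (ρ.g i)) sX) (x : Fin a) :
    RG ρ deg s (beta ρ dm) x j = ∑ c, ∑ u ∈ Finset.range (ρ.g i).natDegree,
      ((RM (ρ.shp deg i) sX c q * X ^ iT dm j) %ₘ ρ.g i).coeff u * Pm ρ i x c u := by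
  rw [RG_apply, beta_single ρ hn hd j hi hq ht, GA_single, hs, RM_map]
  refine Finset.sum_congr rfl fun c _ => Finset.sum_congr rfl fun u _ => ?_
  rw [map_apply, show ρ.th i = AdjoinRoot.mk (ρ.g i) X from (AdjoinRoot.mk_X).symm, ← map_pow,
    ← map_mul, co_mk]

theorem MG_entry {dm : ℕ} (hn : ∀ i, n i ≤ a) (hd : ∀ i, (ρ.g i).natDegree ≤ dm)
    (j : Fin (ρ.f * (a * dm))) {i : Fin ρ.f} (hi : iI a dm j = i) {q : Fin (n i)}
    (hq : iQ a dm j = q) (ht : iT dm j < (ρ.g i).natDegree)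
    (sX : RSt ℤ[X] (Fin (n i)) (Fin (ρ.na i)) (Fin (ρ.nb i)))
    (hs : s i = smap (AdjoinRoot.mk (ρ.g i)) sX) (x : Fin b) :
    MG ρ deg s (beta ρ dm) x j = ∑ c, ∑ u ∈ Finset.range (ρ.g i).natDegree,
      ((MM (ρ.shp deg i) sX c q * X ^ iT dm j) %ₘ ρ.g i).coeff u * Qm ρ i x c u := by
  rw [MG_apply, beta_single ρ hn hd j hi hq ht, GB_single, hs, MM_map]
  refine Finset.sum_congr rfl fun c _ => Finset.sum_congr rfl fun u _ => ?_
  rw [map_apply, show ρ.th i = AdjoinRoot.mk (ρ.g i) X from (AdjoinRoot.mk_X).symm, ← map_pow,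
    ← map_mul, co_mk]

theorem RG_invalid {dm : ℕ} (hn : ∀ i, n i ≤ a) (hd : ∀ i, (ρ.g i).natDegree ≤ dm)
    (j : Fin (ρ.f * (a * dm))) (h : ¬ Valid ρ dm n j) (x : Fin a) :
    RG ρ deg s (beta ρ dm) x j = 0 := by
  rw [RG_apply, beta_single_invalid ρ hn hd j h, ← GAl_apply, map_zero]; rfl

theorem MG_invalid {dm : ℕ} (hn : ∀ i, n i ≤ a) (hd : ∀ i, (ρ.g i).natDegree ≤ dm)
    (j : Fin (ρ.f * (a * dm))) (h : ¬ Valid ρ dm n j) (x : Fin b) :
    MG ρ deg s (beta ρ dm) x j = 0 := by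
  rw [MG_apply, beta_single_invalid ρ hn hd j h, ← GBl_apply, map_zero]; rfl

/-- **The integral identities on padded integer matrices.** -/
theorem ids_iff_pad {dm : ℕ} (hn : ∀ i, n i ≤ a) (hd : ∀ i, (ρ.g i).natDegree ≤ dm)
    [DecidablePred (Valid ρ dm n)] (N : ℕ) :
    Ids ρ deg s N ↔
      ∃ (R' : Matrix (Fin (ρ.f * (a * dm))) (Fin a) ℤ) (Ψ : Matrix (Fin b) (Fin a) ℤ)
        (T : Matrix (Fin (ρ.f * (a * dm))) (Fin b) ℤ) (T' : Matrix (Fin a) (Fin b) ℤ) (l : ℕ),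
        MCong N (R' * RG ρ deg s (beta ρ dm))
          ((ρ.D : ℤ) • diagonal fun j : Fin (ρ.f * (a * dm)) =>
            if Valid ρ dm n j then (1 : ℤ) else 0) ∧
        MCong N (Ψ * RG ρ deg s (beta ρ dm)) (MG ρ deg s (beta ρ dm)) ∧
        MCong N (RG ρ deg s (beta ρ dm) * T) ((ρ.D : ℤ) • T') ∧
        MCong N (MG ρ deg s (beta ρ dm) * T) ((ρ.D : ℤ) • ((zM B) ^ l)ᵀ) := by
  rw [ids_iff ρ deg s (beta ρ dm) (gamma ρ dm) (beta_gamma ρ hn hd) N, gammaBeta ρ hn hd]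

end entries

end Pool.Agent.DEC.P0
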