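import Mathlib

/-!
Pigeonhole lemmas for the reduction modulo `N`: powers of a matrix modulo `N`, and elements killed
by a power of an operator on a finite set.
-/

set_option autoImplicit false

namespace Pool.Agent.DEC

/-- in a finite monoid every power is a power with exponent below the cardinality -/
theorem exists_pow_lt {G : Type*} [Monoid G] [Fintype G] (x : G) (l : ℕ) :
    ∃ l' < Fintype.card G, x ^ l' = x ^ l := by
  induction l using Nat.strong_induction_on with
  | _ l ih =>
    rcases lt_or_ge l (Fintype.card G) with h | h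
    · exact ⟨l, h, rfl⟩
    · have h1 : ¬ Function.Injective (fun i : Fin (Fintype.card G + 1) => x ^ (i : ℕ)) := by
        intro hinj
        have := Fintype.card_le_of_injective _ hinj
        simp at this
      rw [Function.not_injective_iff] at h1
      obtain ⟨a, b, hab, hne⟩ := h1
      wlog hlt : a < b generalizing a b
      · exact this b a hab.symm hne.symm (lt_of_le_of_ne (not_lt.mp hlt) hne.symm)
      have hlt' : (a : ℕ) < b := hlt
      have hb : (b : ℕ) ≤ l := by have := b.isLt; omega
      obtain ⟨l', hl', he⟩ := ih ((a : ℕ) + (l - b)) (by omega)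
      refine ⟨l', hl', he.trans ?_⟩
      have e1 : x ^ l = x ^ (b : ℕ) * x ^ (l - b) := by
        rw [← pow_add]; congr 1; omega
      have hab' : x ^ (a : ℕ) = x ^ (b : ℕ) := hab
      rw [pow_add, hab', ← e1]

/-- a point sent to a fixed point by some iterate is sent there by the iterate of order the
cardinality -/
theorem iterate_card {X : Type*} [Fintype X] (f : X → X) {o : X} (ho : f o = o) {x : X} {m : ℕ}
    (h : f^[m] x = o) : f^[Fintype.card X] x = o := by
  classical
  have hex : ∃ m, f^[m] x = o := ⟨m, h⟩
  set k := Nat.find hex with hk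
  have hkx : f^[k] x = o := Nat.find_spec hex
  have hfix : ∀ j, f^[j] o = o := fun j => Function.iterate_fixed ho j
  have hge : ∀ j, k ≤ j → f^[j] x = o := by
    intro j hj
    have : j = (j - k) + k := by omega
    rw [this, Function.iterate_add_apply, hkx, hfix]
  rcases le_or_gt k (Fintype.card X) with h1 | h1
  · exact hge _ h1
  · exfalso
    have hinj : Function.Injective (fun i : Fin (k + 1) => f^[(i : ℕ)] x) := by
      intro a b hab
      by_contra hne
      wlog hlt : a < b generalizing a b
      · exact this hab.symm (fun e => hne e.symm) (lt_of_le_of_ne (not_lt.mp hlt)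
          (fun e => hne e.symm))
      have hlt' : (a : ℕ) < b := hlt
      have hab' : f^[(a : ℕ)] x = f^[(b : ℕ)] x := hab
      have hbk : (b : ℕ) ≤ k := by have := b.isLt; omega
      have h2 : f^[(k - b) + (a : ℕ)] x = o := by
        rw [Function.iterate_add_apply, hab', ← Function.iterate_add_apply]
        have : k - (b : ℕ) + b = k := by omega
        rw [this, hkx]
      exact Nat.find_min hex (by omega) h2
    have := Fintype.card_le_of_injective _ hinj
    simp at this
    omega

/-- powers of an integer matrix modulo `N` -/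
theorem exists_mat_pow_lt (b N : ℕ) (hN : 0 < N) (B : Matrix (Fin b) (Fin b) ℤ) (l : ℕ) :
    ∃ l' < N ^ (b ^ 2), ∀ i j, (N : ℤ) ∣ (B ^ l') i j - (B ^ l) i j := by
  have : NeZero N := ⟨hN.ne'⟩
  obtain ⟨l', hl', he⟩ := exists_pow_lt (B.map (Int.castRingHom (ZMod N))) l
  refine ⟨l', ?_, fun i j => ?_⟩
  · have : Fintype.card (Matrix (Fin b) (Fin b) (ZMod N)) = N ^ (b ^ 2) := by
      rw [show Fintype.card (Matrix (Fin b) (Fin b) (ZMod N)) =
        Fintype.card (Fin b → Fin b → ZMod N) from rfl]
      simp [ZMod.card, ← pow_mul, sq]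
    omega
  · have h1 := congrFun (congrFun he i) j
    rw [← Matrix.map_pow, ← Matrix.map_pow, Matrix.map_apply, Matrix.map_apply] at h1
    rw [← ZMod.intCast_zmod_eq_zero_iff_dvd]
    push_cast
    simpa [sub_eq_zero] using h1

/-- coordinates modulo `N` -/
noncomputable def crdN {R : Type*} [CommRing R] {d : ℕ} (b : Module.Basis (Fin d) ℤ R) (N : ℕ)
    (z : R) : Fin d → ZMod N := fun i => ((b.repr z i : ℤ) : ZMod N)

theorem crdN_eq_zero {R : Type*} [CommRing R] {d : ℕ} (b : Module.Basis (Fin d) ℤ R) (N : ℕ)
    (z : R) : crdN b N z = 0 ↔ ∃ w, z = N * w := by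
  constructor
  · intro h
    have h1 : ∀ i, (N : ℤ) ∣ b.repr z i := fun i => by
      rw [← ZMod.intCast_zmod_eq_zero_iff_dvd]
      exact congrFun h i
    choose c hc using h1
    refine ⟨∑ i, c i • b i, ?_⟩
    rw [← b.sum_repr z, Finset.mul_sum]
    refine Finset.sum_congr rfl fun i _ => ?_
    rw [hc i, zsmul_eq_mul, zsmul_eq_mul]
    push_cast
    ring
  · rintro ⟨w, rfl⟩
    funext i
    have : (N : R) * w = (N : ℤ) • w := by simp
    simp only [crdN, this, map_smul, Finsupp.smul_apply, smul_eq_mul, Pi.zero_apply]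
    push_cast
    simp

theorem crdN_mul {R : Type*} [CommRing R] {d : ℕ} (b : Module.Basis (Fin d) ℤ R) (N : ℕ)
    (t z : R) : crdN b N (t * z) =
      ((Algebra.leftMulMatrix b t).map (Int.castRingHom (ZMod N))).mulVec (crdN b N z) := by
  funext i
  have h1 := congrFun (Algebra.leftMulMatrix_mulVec_repr b t z) i
  simp only [crdN, Matrix.mulVec, dotProduct, Matrix.map_apply]
  rw [← h1]
  simp only [Matrix.mulVec, dotProduct]
  push_cast
  simp

/-- an element of an order of rank `d` killed modulo `N` by a power of `t` is killed modulo `N` by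
the power `t ^ (N ^ d)` -/
theorem kill_pow {R : Type*} [CommRing R] {d : ℕ} (b : Module.Basis (Fin d) ℤ R) {N : ℕ}
    (hN : 0 < N) (t z : R) {m : ℕ} (h : ∃ w, t ^ m * z = N * w) :
    ∃ w, t ^ (N ^ d) * z = N * w := by
  have : NeZero N := ⟨hN.ne'⟩
  set f : (Fin d → ZMod N) → (Fin d → ZMod N) := fun v =>
    ((Algebra.leftMulMatrix b t).map (Int.castRingHom (ZMod N))).mulVec v with hf
  have hit : ∀ j, f^[j] (crdN b N z) = crdN b N (t ^ j * z) := by
    intro j
    induction j with
    | zero => simp
    | succ j ih =>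
      rw [Function.iterate_succ_apply', ih, pow_succ', mul_assoc, crdN_mul b N t]
  have h0 : f 0 = 0 := by simp [hf]
  have h1 : f^[m] (crdN b N z) = 0 := by rw [hit, crdN_eq_zero]; exact h
  have h2 := iterate_card f h0 h1
  have hc : Fintype.card (Fin d → ZMod N) = N ^ d := by simp [ZMod.card]
  rw [hc, hit, crdN_eq_zero] at h2
  exact h2

end Pool.Agent.DEC
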