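import Pool.Agent.DEC.Core
import Pool.Agent.DEC.StateC
import Pool.Agent.DEC.Pig

/-!
# MP_59dda0_an, DEC, computability side: reduction of the data of a semi-solution modulo `N`

States are replaced by the images of polynomial states with coefficients in `[0, N)`, integer
matrices by matrices with entries in `[0, N)`, the exponent `l` by an exponent below `N ^ (b ^ 2)`.
-/

set_option autoImplicit false
set_option linter.unusedSectionVars false

open Matrix Polynomial

namespace Pool.Agent.DEC.PB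

section cong

variable {R I α β : Type} [CommRing R]

/-- congruence of states -/
structure SEq (N : R) (s s' : RSt R I α β) : Prop where
  c : ∀ p q, N ∣ s.1 p q - s'.1 p q
  rho : ∀ a q, N ∣ s.2.1 a q - s'.2.1 a q
  tau : ∀ b q, N ∣ s.2.2 b q - s'.2.2 b q

theorem SEq.symm {N : R} {s s' : RSt R I α β} (h : SEq N s s') : SEq N s' s :=
  ⟨fun p q => by rw [← neg_sub]; exact (h.c p q).neg_right,
    fun p q => by rw [← neg_sub]; exact (h.rho p q).neg_right,
    fun p q => by rw [← neg_sub]; exact (h.tau p q).neg_right⟩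

/-- reduction modulo `N` -/
abbrev quo (N : R) : R →+* R ⧸ Ideal.span {N} := Ideal.Quotient.mk (Ideal.span {N})

theorem quo_eq {N x y : R} : quo N x = quo N y ↔ N ∣ x - y := by
  rw [Ideal.Quotient.eq, Ideal.mem_span_singleton]

theorem SEq.smap_eq {N : R} {s s' : RSt R I α β} (h : SEq N s s') :
    smap (quo N) s = smap (quo N) s' := by
  have h1 : s.1.map (quo N) = s'.1.map (quo N) := by
    ext p q
    exact quo_eq.2 (h.c p q)
  have h2 : s.2.1.map (quo N) = s'.2.1.map (quo N) := by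
    ext p q
    exact quo_eq.2 (h.rho p q)
  have h3 : s.2.2.map (quo N) = s'.2.2.map (quo N) := by
    ext p q
    exact quo_eq.2 (h.tau p q)
  show (s.1.map (quo N), s.2.1.map (quo N), s.2.2.map (quo N)) = _
  rw [h1, h2, h3]
  rfl

variable [Fintype I] [DecidableEq I]

theorem SEq.RM {N : R} {s s' : RSt R I α β} (h : SEq N s s') (σ : Shp I α β) (c : Blk σ.lam)
    (q : I) : N ∣ RM σ s c q - RM σ s' c q := by
  rw [← quo_eq]
  have h1 := congrFun (congrFun (RM_map (quo N) σ s) c) q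
  have h2 := congrFun (congrFun (RM_map (quo N) σ s') c) q
  rw [h.smap_eq] at h1
  exact (h1.symm.trans h2 :)

theorem SEq.MM {N : R} {s s' : RSt R I α β} (h : SEq N s s') (σ : Shp I α β) (c : Blk σ.mu)
    (q : I) : N ∣ MM σ s c q - MM σ s' c q := by
  rw [← quo_eq]
  have h1 := congrFun (congrFun (MM_map (quo N) σ s) c) q
  have h2 := congrFun (congrFun (MM_map (quo N) σ s') c) q
  rw [h.smap_eq] at h1
  exact (h1.symm.trans h2 :)

theorem SEq.gdet_SigM [Fintype α] {N : R} {s s' : RSt R I α β} (h : SEq N s s')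
    (σ : Shp I α β) (j : ℕ) : N ∣ gdet (SigM σ s j) - gdet (SigM σ s' j) := by
  rw [← quo_eq, ← gdet_map, ← gdet_map, ← SigM_map, ← SigM_map, h.smap_eq]

theorem SEq.gdet_TM [Fintype β] {N : R} {s s' : RSt R I α β} (h : SEq N s s')
    (σ : Shp I α β) (j : ℕ) : N ∣ gdet (TM σ s j) - gdet (TM σ s' j) := by
  rw [← quo_eq, ← gdet_map, ← gdet_map, ← TM_map, ← TM_map, h.smap_eq]

/-- congruent matrices applied to a vector -/
theorem mulVec_cong {γ : Type} {N : R} {X Y : Matrix γ I R} (h : ∀ c q, N ∣ X c q - Y c q)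
    (z : I → R) : ∃ v : γ → R, X *ᵥ z = Y *ᵥ z + N • v := by
  choose e he using h
  refine ⟨of e *ᵥ z, ?_⟩
  funext c
  simp only [Matrix.mulVec, dotProduct, Pi.add_apply, Pi.smul_apply, smul_eq_mul, of_apply,
    Finset.mul_sum, ← Finset.sum_add_distrib]
  refine Finset.sum_congr rfl fun q _ => ?_
  have := he c q
  linear_combination z q * this

end cong

section red

/-- the reduced representative of an element of `ℤ[x] / (g)` -/
noncomputable def redP {g : ℤ[X]} (hg : g.Monic) (N : ℕ) (x : AdjoinRoot g) : ℤ[X] :=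
  ∑ k ∈ Finset.range g.natDegree,
    Polynomial.monomial k ((AdjoinRoot.modByMonicHom hg x).coeff k % (N : ℤ))

theorem redP_coeff {g : ℤ[X]} (hg : g.Monic) (N : ℕ) (x : AdjoinRoot g) (k : ℕ) :
    (redP hg N x).coeff k =
      if k < g.natDegree then (AdjoinRoot.modByMonicHom hg x).coeff k % (N : ℤ) else 0 := by
  unfold redP
  rw [Polynomial.finsetSum_coeff]
  simp only [Polynomial.coeff_monomial]
  rw [Finset.sum_ite_eq']
  simp only [Finset.mem_range]

theorem redP_zero {g : ℤ[X]} (hg : g.Monic) (N : ℕ) : redP hg N 0 = 0 := by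
  ext k
  rw [redP_coeff, map_zero]
  simp

theorem redP_degree {g : ℤ[X]} (hg : g.Monic) (N : ℕ) (x : AdjoinRoot g) :
    (redP hg N x).degree < g.degree := by
  rw [Polynomial.degree_eq_natDegree hg.ne_zero, Polynomial.degree_lt_iff_coeff_zero]
  intro k hk
  rw [redP_coeff, if_neg (by omega)]

theorem redP_bd {g : ℤ[X]} (hg : g.Monic) {N : ℕ} (hN : 0 < N) (x : AdjoinRoot g) (k : ℕ) :
    0 ≤ (redP hg N x).coeff k ∧ (redP hg N x).coeff k < N := by
  rw [redP_coeff]
  split_ifs
  · exact ⟨Int.emod_nonneg _ (by omega), Int.emod_lt_of_pos _ (by omega)⟩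
  · exact ⟨le_rfl, by omega⟩

theorem redP_cong {g : ℤ[X]} (hg : g.Monic) (N : ℕ) (x : AdjoinRoot g) :
    (N : AdjoinRoot g) ∣ x - AdjoinRoot.mk g (redP hg N x) := by
  have h1 : AdjoinRoot.mk g (AdjoinRoot.modByMonicHom hg x) = x := AdjoinRoot.mk_leftInverse hg x
  have h2 : Polynomial.C (N : ℤ) ∣ AdjoinRoot.modByMonicHom hg x - redP hg N x := by
    rw [Polynomial.C_dvd_iff_dvd_coeff]
    intro k
    rw [Polynomial.coeff_sub, redP_coeff]
    split_ifs with hk
    · exact Int.dvd_self_sub_emod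
    · have h3 : (AdjoinRoot.modByMonicHom hg x).coeff k = 0 := by
        obtain ⟨p, rfl⟩ := AdjoinRoot.mk_surjective x
        rw [AdjoinRoot.modByMonicHom_mk]
        refine Polynomial.coeff_eq_zero_of_degree_lt ?_
        refine lt_of_lt_of_le (Polynomial.degree_modByMonic_lt p hg) ?_
        rw [Polynomial.degree_eq_natDegree hg.ne_zero]
        exact_mod_cast not_lt.1 hk
      rw [h3, sub_zero]
      exact dvd_zero _
  have h4 := map_dvd (AdjoinRoot.mk g) h2
  rw [map_sub, h1] at h4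
  simpa using h4

variable {I α β : Type}

/-- the reduced state -/
theorem redS_SEq {g : ℤ[X]} (hg : g.Monic) (N : ℕ) (s : RSt (AdjoinRoot g) I α β) :
    SEq (N : AdjoinRoot g) s (smap (AdjoinRoot.mk g) (smap (redP hg N) s)) :=
  ⟨fun _ _ => redP_cong hg N _, fun _ _ => redP_cong hg N _, fun _ _ => redP_cong hg N _⟩

theorem redS_IsSt {g : ℤ[X]} (hg : g.Monic) (N : ℕ) {σ : Shp I α β}
    {s : RSt (AdjoinRoot g) I α β} (hs : IsSt σ s) : IsSt σ (smap (redP hg N) s) :=
  ⟨fun p q h => by show redP hg N (s.1 p q) = 0; rw [hs.c p q h, redP_zero],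
    fun p q h => by show redP hg N (s.2.1 p q) = 0; rw [hs.rho p q h, redP_zero],
    fun p q h => by show redP hg N (s.2.2 p q) = 0; rw [hs.tau p q h, redP_zero]⟩

/-- polynomial state with reduced entries -/
structure RedS (g : ℤ[X]) (N : ℕ) (s : RSt ℤ[X] I α β) : Prop where
  c : ∀ p q, (s.1 p q).degree < g.degree ∧ ∀ k, 0 ≤ (s.1 p q).coeff k ∧ (s.1 p q).coeff k < N
  rho : ∀ a q, (s.2.1 a q).degree < g.degree ∧
    ∀ k, 0 ≤ (s.2.1 a q).coeff k ∧ (s.2.1 a q).coeff k < N
  tau : ∀ b q, (s.2.2 b q).degree < g.degree ∧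
    ∀ k, 0 ≤ (s.2.2 b q).coeff k ∧ (s.2.2 b q).coeff k < N

theorem redS_RedS {g : ℤ[X]} (hg : g.Monic) {N : ℕ} (hN : 0 < N) (s : RSt (AdjoinRoot g) I α β) :
    RedS g N (smap (redP hg N) s) :=
  ⟨fun _ _ => ⟨redP_degree hg N _, redP_bd hg hN _⟩, fun _ _ => ⟨redP_degree hg N _, redP_bd hg hN _⟩,
    fun _ _ => ⟨redP_degree hg N _, redP_bd hg hN _⟩⟩

end red

end Pool.Agent.DEC.PB
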