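import Pool.Agent.DEC.PB1

/-!
# MP_59dda0_an, DEC, computability side: reduced semi-solutions
-/

set_option autoImplicit false
set_option linter.unusedSectionVars false

open Matrix Polynomial

namespace Pool.Agent.DEC.PB

section ids

variable {a b : ℕ} {A : Matrix (Fin a) (Fin a) ℕ} {B : Matrix (Fin b) (Fin b) ℕ} (ρ : Ref A B)
  {n : Fin ρ.f → ℕ} (deg : ∀ i, Fin (n i) → ℕ)

theorem GA_cong {s s' : ρ.MSt n} {N : ℕ} (h : ∀ i, SEq (N : Lam (ρ.g i)) (s i) (s' i))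
    (z : ρ.Gam n) : ∃ w, ρ.GA deg s z = ρ.GA deg s' z + (N : ℤ) • w := by
  have h1 : ∀ i, ∃ v : Blk (ρ.lam i) → Lam (ρ.g i), RM (ρ.shp deg i) (s i) *ᵥ z i =
      RM (ρ.shp deg i) (s' i) *ᵥ z i + (N : Lam (ρ.g i)) • v :=
    fun i => mulVec_cong ((h i).RM (ρ.shp deg i)) (z i)
  choose v hv using h1
  refine ⟨∑ i, ρ.P i (v i), ?_⟩
  unfold Ref.GA
  rw [Finset.smul_sum, ← Finset.sum_add_distrib]
  refine Finset.sum_congr rfl fun i _ => ?_
  have h2 : (N : Lam (ρ.g i)) • v i = (N : ℤ) • v i := by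
    funext c
    simp [zsmul_eq_mul]
  rw [hv i, h2, map_add, map_smul]

theorem GB_cong {s s' : ρ.MSt n} {N : ℕ} (h : ∀ i, SEq (N : Lam (ρ.g i)) (s i) (s' i))
    (z : ρ.Gam n) : ∃ w, ρ.GB deg s z = ρ.GB deg s' z + (N : ℤ) • w := by
  have h1 : ∀ i, ∃ v : Blk (ρ.mu i) → Lam (ρ.g i), MM (ρ.shp deg i) (s i) *ᵥ z i =
      MM (ρ.shp deg i) (s' i) *ᵥ z i + (N : Lam (ρ.g i)) • v :=
    fun i => mulVec_cong ((h i).MM (ρ.shp deg i)) (z i)
  choose v hv using h1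
  refine ⟨∑ i, ρ.Q i (v i), ?_⟩
  unfold Ref.GB
  rw [Finset.smul_sum, ← Finset.sum_add_distrib]
  refine Finset.sum_congr rfl fun i _ => ?_
  have h2 : (N : Lam (ρ.g i)) • v i = (N : ℤ) • v i := by
    funext c
    simp [zsmul_eq_mul]
  rw [hv i, h2, map_add, map_smul]

theorem Ids_cong {s s' : ρ.MSt n} {N : ℕ} (h : ∀ i, SEq (N : Lam (ρ.g i)) (s i) (s' i))
    (hI : Ids ρ deg s N) : Ids ρ deg s' N := by
  have h' : ∀ i, SEq (N : Lam (ρ.g i)) (s' i) (s i) := fun i => (h i).symm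
  obtain ⟨R', Ψ, T, T', l, h1, h2, h3, h4⟩ := hI
  refine ⟨R', Ψ, T, T', l, fun z => ?_, fun z => ?_, fun w => ?_, fun w => ?_⟩
  · obtain ⟨w, hw⟩ := h1 z
    obtain ⟨u, hu⟩ := GA_cong ρ deg h' z
    refine ⟨w + R' u, ?_⟩
    rw [hu, map_add, hw, map_smul, smul_add, add_assoc]
  · obtain ⟨w, hw⟩ := h2 z
    obtain ⟨u, hu⟩ := GA_cong ρ deg h' z
    obtain ⟨u', hu'⟩ := GB_cong ρ deg h z
    refine ⟨u' + w + Ψ u, ?_⟩
    rw [hu, map_add, hw, hu', map_smul, smul_add, smul_add]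
    abel
  · obtain ⟨u, hu⟩ := h3 w
    obtain ⟨u', hu'⟩ := GA_cong ρ deg h' (T w)
    refine ⟨u + u', ?_⟩
    rw [hu', hu, smul_add, add_assoc]
  · obtain ⟨u, hu⟩ := h4 w
    obtain ⟨u', hu'⟩ := GB_cong ρ deg h' (T w)
    refine ⟨u + u', ?_⟩
    rw [hu', hu, smul_add, add_assoc]

theorem Uni_cong {s s' : ρ.MSt n} {N : ℕ} (h : ∀ i, SEq (N : Lam (ρ.g i)) (s i) (s' i))
    (hI : Uni ρ deg s N) : Uni ρ deg s' N := by
  intro i j hj
  obtain ⟨F, F', L, k, e, w, hw⟩ := hI i j hj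
  obtain ⟨u, hu⟩ := (h i).gdet_SigM (ρ.shp deg i) j
  obtain ⟨v, hv⟩ := (h i).gdet_TM (ρ.shp deg i) j
  refine ⟨F, F', L, k, e, w - ρ.th i ^ k * (F * u - ρ.th i ^ L * (ρ.Dl : Lam (ρ.g i)) * v), ?_⟩
  linear_combination hw - ρ.th i ^ k * F * hu + ρ.th i ^ k * ρ.th i ^ L * (ρ.Dl : Lam (ρ.g i)) * hv

/-- reduction of the states -/
theorem semi_iff_red {N : ℕ} (hN : 0 < N) : Semi ρ N ↔
    ∃ (n : Fin ρ.f → ℕ) (deg : ∀ i, Fin (n i) → ℕ)
      (s : ∀ i, RSt ℤ[X] (Fin (n i)) (Fin (ρ.na i)) (Fin (ρ.nb i))),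
      (∀ i, n i ≤ a) ∧ (∀ i k, deg i k < a) ∧ TrC ρ n ∧ (∀ i, IsSt (ρ.shp deg i) (s i)) ∧
      (∀ i, RedS (ρ.g i) N (s i)) ∧
      Ids ρ deg (fun i => smap (AdjoinRoot.mk (ρ.g i)) (s i)) N ∧
      Uni ρ deg (fun i => smap (AdjoinRoot.mk (ρ.g i)) (s i)) N := by
  constructor
  · rintro ⟨n, deg, s, h1, h2, h3, h4, h5, h6⟩
    have hc : ∀ i, SEq (N : Lam (ρ.g i)) (s i)
        (smap (AdjoinRoot.mk (ρ.g i)) (smap (redP (ρ.monic i) N) (s i))) :=
      fun i => redS_SEq (ρ.monic i) N (s i)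
    exact ⟨n, deg, fun i => smap (redP (ρ.monic i) N) (s i), h1, h2, h3,
      fun i => redS_IsSt (ρ.monic i) N (h4 i), fun i => redS_RedS (ρ.monic i) hN (s i),
      Ids_cong ρ deg hc h5, Uni_cong ρ deg hc h6⟩
  · rintro ⟨n, deg, s, h1, h2, h3, h4, -, h5, h6⟩
    exact ⟨n, deg, fun i => smap (AdjoinRoot.mk (ρ.g i)) (s i), h1, h2, h3,
      fun i => (h4 i).map _, h5, h6⟩

end ids

section mats

variable {l m n : Type} [Fintype l] [Fintype m] [Fintype n]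

/-- congruence of integer matrices -/
def MEq {m n : Type} (N : ℕ) (X Y : Matrix m n ℤ) : Prop := ∀ i j, (N : ℤ) ∣ X i j - Y i j

theorem MEq.refl' (N : ℕ) (X : Matrix m n ℤ) : MEq N X X := fun i j => by simp

theorem MEq.symm {N : ℕ} {X Y : Matrix m n ℤ} (h : MEq N X Y) : MEq N Y X := fun i j => by
  rw [← neg_sub]
  exact (h i j).neg_right

theorem MEq.trans {N : ℕ} {X Y Z : Matrix m n ℤ} (h : MEq N X Y) (h' : MEq N Y Z) :
    MEq N X Z := fun i j => by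
  have := dvd_add (h i j) (h' i j)
  rwa [sub_add_sub_cancel] at this

theorem MEq.mul {N : ℕ} {X X' : Matrix l m ℤ} {Y Y' : Matrix m n ℤ} (h : MEq N X X')
    (h' : MEq N Y Y') : MEq N (X * Y) (X' * Y') := fun i j => by
  rw [Matrix.mul_apply, Matrix.mul_apply, ← Finset.sum_sub_distrib]
  refine Finset.dvd_sum fun k _ => ?_
  have e : X i k * Y k j - X' i k * Y' k j =
      (X i k - X' i k) * Y k j + X' i k * (Y k j - Y' k j) := by ring
  rw [e]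
  exact dvd_add ((h i k).mul_right _) ((h' k j).mul_left _)

theorem MEq.smul {N : ℕ} {X Y : Matrix m n ℤ} (h : MEq N X Y) (D : ℤ) :
    MEq N (D • X) (D • Y) := fun i j => by
  rw [Matrix.smul_apply, Matrix.smul_apply, ← smul_sub, smul_eq_mul]
  exact (h i j).mul_left _

theorem MEq.transpose {N : ℕ} {X Y : Matrix m n ℤ} (h : MEq N X Y) : MEq N Xᵀ Yᵀ :=
  fun i j => h j i

/-- the matrix with entries reduced modulo `N` -/
def rMat {m n : Type} (N : ℕ) (X : Matrix m n ℤ) : Matrix m n ℤ := of fun i j => X i j % (N : ℤ)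

/-- entries in `[0, N)` -/
def MBd {m n : Type} (N : ℕ) (X : Matrix m n ℤ) : Prop := ∀ i j, 0 ≤ X i j ∧ X i j < N

theorem rMat_cong {m n : Type} (N : ℕ) (X : Matrix m n ℤ) : MEq N (rMat N X) X := fun i j => by
  rw [← neg_sub]
  exact (Int.dvd_self_sub_emod).neg_right

theorem rMat_bd {m n : Type} {N : ℕ} (hN : 0 < N) (X : Matrix m n ℤ) : MBd N (rMat N X) :=
  fun _ _ => ⟨Int.emod_nonneg _ (by omega), Int.emod_lt_of_pos _ (by omega)⟩

/-- the matrix form of the identities of a semi-solution, with unbounded data -/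
def MIds {a b : ℕ} {J : Type} [Fintype J] (N : ℕ) (D : ℤ) (RG : Matrix (Fin a) J ℤ)
    (mG : Matrix (Fin b) J ℤ) (E : Matrix J J ℤ) (B : Matrix (Fin b) (Fin b) ℤ)
    (R' : Matrix J (Fin a) ℤ) (Ψ : Matrix (Fin b) (Fin a) ℤ) (T : Matrix J (Fin b) ℤ)
    (T' : Matrix (Fin a) (Fin b) ℤ) (l : ℕ) : Prop :=
  MEq N (R' * RG) (D • E) ∧ MEq N (Ψ * RG) mG ∧ MEq N (RG * T) (D • T') ∧
    MEq N (mG * T) (D • (B ^ l)ᵀ)

/-- the data can be chosen bounded -/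
theorem mIds_bounded {a b : ℕ} {J : Type} [Fintype J] {N : ℕ} (hN : 0 < N) (D : ℤ)
    (RG : Matrix (Fin a) J ℤ) (mG : Matrix (Fin b) J ℤ) (E : Matrix J J ℤ)
    (B : Matrix (Fin b) (Fin b) ℤ) :
    (∃ R' Ψ T T' l, MIds N D RG mG E B R' Ψ T T' l) ↔
      ∃ R' Ψ T T' l, MBd N R' ∧ MBd N Ψ ∧ MBd N T ∧ MBd N T' ∧ l < N ^ (b ^ 2) ∧
        MIds N D RG mG E B R' Ψ T T' l := by
  constructor
  · rintro ⟨R', Ψ, T, T', l, h1, h2, h3, h4⟩
    obtain ⟨l', hl', he⟩ := exists_mat_pow_lt b N hN B l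
    have he' : MEq N (B ^ l) (B ^ l') := MEq.symm he
    refine ⟨rMat N R', rMat N Ψ, rMat N T, rMat N T', l', rMat_bd hN _, rMat_bd hN _,
      rMat_bd hN _, rMat_bd hN _, hl', ?_, ?_, ?_, ?_⟩
    · exact ((rMat_cong N R').mul (MEq.refl' N RG)).trans h1
    · exact ((rMat_cong N Ψ).mul (MEq.refl' N RG)).trans h2
    · exact (((MEq.refl' N RG).mul (rMat_cong N T)).trans h3).trans
        ((rMat_cong N T').symm.smul D)
    · exact (((MEq.refl' N mG).mul (rMat_cong N T)).trans h4).trans (he'.transpose.smul D)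
  · rintro ⟨R', Ψ, T, T', l, -, -, -, -, -, h⟩
    exact ⟨R', Ψ, T, T', l, h⟩

end mats

section sign

variable {R m n : Type} [CommRing R] [Fintype m] [Fintype n] [DecidableEq n]

/-- `gdet` is the determinant along any bijection, up to sign -/
theorem gdet_sign (M : Matrix m n R) (e : n ≃ m) :
    gdet M = (M.submatrix e id).det ∨ gdet M = -(M.submatrix e id).det := by
  have hc : Fintype.card n = Fintype.card m := Fintype.card_congr e
  rw [gdet_eq M hc]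
  have h1 : M.submatrix (Fintype.equivOfCardEq hc) id =
      (M.submatrix e id).submatrix ((Fintype.equivOfCardEq hc).trans e.symm) id := by
    ext i j
    simp
  rw [h1, Matrix.det_permute]
  rcases Int.units_eq_one_or (Equiv.Perm.sign ((Fintype.equivOfCardEq hc).trans e.symm))
    with h | h
  · left
    rw [h]
    simp
  · right
    rw [h]
    simp

end sign

end Pool.Agent.DEC.PB
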