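import Pool.Agent.DEC.PDefs
import Pool.Agent.DEC.UPoly

/-!
DEC project (MP_59dda0_an), P side: the bounds of Theorem U and the constant `qOf` on the codes
`G` (`g = monP G`), and their primitive recursiveness.
-/

set_option autoImplicit false

namespace Pool.Agent.DEC.PBd

open Primrec Polynomial Pool.Agent.DEC Pool.Agent.DEC.PolyC Pool.Agent.DEC.UB

/-- the height bound of the polynomial with code `G` -/
def cHB (G : List ℤ) : ℕ := 1 + ∑ i ∈ Finset.range G.length, (G.getD i 0).natAbs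

theorem coeff_monP (G : List ℤ) {i : ℕ} (hi : i < G.length) : (monP G).coeff i = G.getD i 0 := by
  unfold monP
  rw [coeff_add, coeff_X_pow, if_neg hi.ne, zero_add, coeff_toP]

theorem coeff_zero_monP (G : List ℤ) (hG : 0 < G.length) : (monP G).coeff 0 = G.getD 0 0 :=
  coeff_monP G hG

theorem HB_monP (G : List ℤ) : HB (monP G) = cHB G := by
  unfold HB cHB
  rw [monP_natDegree]
  exact congrArg _ (Finset.sum_congr rfl fun i hi => by rw [coeff_monP G (Finset.mem_range.1 hi)])

/-- the constant of the box lemma; `CoreIF.qOf g` is by definition `uQ (HB g) g.natDegree` -/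
def cQof (G : List ℤ) : ℕ := uQ (cHB G) G.length

theorem uQ_monP (G : List ℤ) : uQ (HB (monP G)) (monP G).natDegree = cQof G := by
  rw [HB_monP, monP_natDegree]
  rfl

/-- the exponent of Theorem U -/
def cUL (G : List ℤ) (Dl N : ℕ) : ℕ := uL (cHB G) G.length (G.getD 0 0).natAbs Dl N

/-- the coefficient bound of Theorem U -/
def cUB (G : List ℤ) (Dl N : ℕ) : ℕ := uB (cHB G) G.length (G.getD 0 0).natAbs Dl N

/-- Theorem U for the polynomial with code `G` -/
theorem units_code {G : List ℤ} (hirr : Irreducible (monP G)) (h0 : (monP G).coeff 0 ≠ 0)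
    {Dl N : ℕ} (hDl : 0 < Dl) (hN : 0 < N) {F F' : AdjoinRoot (monP G)} {L : ℕ}
    (hF : F * F' = (Dl : AdjoinRoot (monP G)) ^ 2 * AdjoinRoot.root (monP G) ^ (2 * L)) :
    ∃ p p' : ℤ[X], p.degree < G.length ∧ p'.degree < G.length ∧
      (∀ k, |p.coeff k| ≤ (cUB G Dl N : ℤ)) ∧ (∀ k, |p'.coeff k| ≤ (cUB G Dl N : ℤ)) ∧
      AdjoinRoot.mk (monP G) p * AdjoinRoot.mk (monP G) p' =
        (Dl : AdjoinRoot (monP G)) ^ 2 * AdjoinRoot.root (monP G) ^ (2 * cUL G Dl N) ∧
      ∀ K, N ^ G.length ≤ K → ∃ w, AdjoinRoot.root (monP G) ^ K *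
        (AdjoinRoot.root (monP G) ^ L * AdjoinRoot.mk (monP G) p -
          AdjoinRoot.root (monP G) ^ cUL G Dl N * F) = N * w := by
  have hlen : 0 < G.length := by
    have := natDegree_pos' (monP G) (monP_monic G) hirr
    rwa [monP_natDegree] at this
  have hc := coeff_zero_monP G hlen
  obtain ⟨p, p', h1, h2, h3, h4, h5, h6⟩ :=
    units_ex (monP_monic G) hirr h0 (le_of_eq (HB_monP G)) hDl hN hF
  rw [monP_natDegree, hc] at h3 h4 h5 h6
  rw [monP_natDegree] at h1 h2
  exact ⟨p, p', degree_le_natDegree.trans_lt (by exact_mod_cast h1),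
    degree_le_natDegree.trans_lt (by exact_mod_cast h2), h3, h4, h5, h6⟩

section pr

variable {α : Type*} [Primcodable α] {G : α → List ℤ} {Dl N : α → ℕ}

theorem pCHB (hG : Primrec G) : Primrec fun x => cHB (G x) := by
  refine Primrec.nat_add.comp (Primrec.const 1) ?_
  exact PPred.pNatSumRange (n := fun x => (G x).length) (f := fun x i => ((G x).getD i 0).natAbs)
    (Primrec.list_length.comp hG) (primrec_natAbs.comp (pGetD (hG.comp fst) snd))

theorem pG0 (hG : Primrec G) : Primrec fun x => ((G x).getD 0 0).natAbs :=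
  primrec_natAbs.comp (pGetD hG (Primrec.const 0))

theorem pCQof (hG : Primrec G) : Primrec fun x => cQof (G x) :=
  pr_uQ (pCHB hG) (Primrec.list_length.comp hG)

theorem pCUL (hG : Primrec G) (hDl : Primrec Dl) (hN : Primrec N) :
    Primrec fun x => cUL (G x) (Dl x) (N x) :=
  pr_uL (pCHB hG) (Primrec.list_length.comp hG) (pG0 hG) hDl hN

theorem pCUB (hG : Primrec G) (hDl : Primrec Dl) (hN : Primrec N) :
    Primrec fun x => cUB (G x) (Dl x) (N x) :=
  pr_uB (pCHB hG) (Primrec.list_length.comp hG) (pG0 hG) hDl hN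

/-- `uQ (HB (monP G)) (monP G).natDegree ∣ q` (this is `qOf (monP G) ∣ q`) is primitive
recursive -/
theorem pQofDvd {q : α → ℕ} (hG : Primrec G) (hq : Primrec q) :
    PrimrecPred fun x => uQ (HB (monP (G x))) (monP (G x)).natDegree ∣ q x := by
  have h : PrimrecPred fun x => q x % cQof (G x) = 0 :=
    Primrec.eq.comp (Primrec.nat_mod.comp hq (pCQof hG)) (Primrec.const 0)
  exact h.of_eq fun x => by rw [uQ_monP, Nat.dvd_iff_mod_eq_zero]

theorem pCD {a : α → ℕ} {c : α → PD.RC} (ha : Primrec a) (hc : Primrec c) :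
    Primrec fun x => PD.cD (a x) (c x) :=
  prMul (fst.comp (snd.comp hc)) (prPow (snd.comp (snd.comp hc)) (prMul ha (Primrec.succ.comp ha)))

theorem pCDl {a : α → ℕ} {c : α → PD.RC} (ha : Primrec a) (hc : Primrec c) :
    Primrec fun x => PD.cDl (a x) (c x) := prPow (pCD ha hc) ha

/-- all the constants of the code of a reference datum -/
theorem pUBc {a : α → ℕ} {c : α → PD.RC} {i N : α → ℕ} (ha : Primrec a) (hc : Primrec c)
    (hi : Primrec i) (hN : Primrec N) :
    Primrec fun x => cUB (PD.cG (c x) (i x)) (PD.cDl (a x) (c x)) (N x) :=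
  pCUB (PD.pCG hc hi) (pCDl ha hc) hN

theorem pULc {a : α → ℕ} {c : α → PD.RC} {i N : α → ℕ} (ha : Primrec a) (hc : Primrec c)
    (hi : Primrec i) (hN : Primrec N) :
    Primrec fun x => cUL (PD.cG (c x) (i x)) (PD.cDl (a x) (c x)) (N x) :=
  pCUL (PD.pCG hc hi) (pCDl ha hc) hN

end pr

end Pool.Agent.DEC.PBd
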