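import Pool.Agent.DEC.PolyC

/-!
DEC project (MP_59dda0_an), computability layer, part 6: remainders as polynomials, powers of `X`,
the matrix of the multiplication modulo a monic polynomial.
-/

set_option autoImplicit false

namespace Pool.Agent.DEC.PolyC

open Primrec Polynomial

theorem toP_pmod (G l : List ℤ) : toP (pmod G l) = toP l %ₘ monP G := by
  obtain ⟨q, hq⟩ := dvd_sub_pmod G l
  refine ((div_modByMonic_unique q (toP (pmod G l)) (monP_monic G) ⟨?_, ?_⟩).2).symm
  · rw [← hq]
    ring
  · rw [monP_degree]
    exact (degree_toP_lt _).trans_le (by exact_mod_cast pmod_length_le G l)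

theorem coeff_mod (G l : List ℤ) (i : ℕ) :
    (toP l %ₘ monP G).coeff i = (pmod G l).getD i 0 := by
  rw [← toP_pmod, coeff_toP]

/-- the code of `X ^ k` -/
def xpw (k : ℕ) : List ℤ := tabl (k + 1) fun i => if i = k then 1 else 0

@[simp] theorem toP_xpw (k : ℕ) : toP (xpw k) = X ^ k := by
  ext i
  unfold xpw
  rw [coeff_tabl, coeff_X_pow]
  by_cases h : i = k
  · subst h; simp
  · simp [h]

theorem pXpw : Primrec xpw :=
  pTabl (n := fun k : ℕ => k + 1) (f := fun (k i : ℕ) => if i = k then 1 else 0)
    Primrec.succ (Primrec.ite (Primrec.eq.comp snd fst) (Primrec.const 1) (Primrec.const 0))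

/-- the code of a constant -/
def pcst (a : ℤ) : List ℤ := [a]

@[simp] theorem toP_pcst (a : ℤ) : toP (pcst a) = C a := by simp [pcst]

theorem pPcst : Primrec pcst := Primrec.list_cons.comp Primrec.id (Primrec.const [])

def psub (l m : List ℤ) : List ℤ := padd l (pneg m)

@[simp] theorem toP_psub (l m : List ℤ) : toP (psub l m) = toP l - toP m := by
  unfold psub
  rw [toP_padd, toP_pneg, sub_eq_add_neg]

theorem pPsub : Primrec₂ psub := pPadd.comp fst (pPneg.comp snd)

/-- entry of the matrix of the multiplication by `z` in the basis `1, x, .., x^(d-1)` of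
`ℤ[x]/(monP G)`: the coefficient of `x^i` in `z * x^j` -/
def mulE (G z : List ℤ) (i j : ℕ) : ℤ := (pmod G (pmul z (xpw j))).getD i 0

theorem mulE_eq (G z : List ℤ) (i j : ℕ) :
    mulE G z i j = ((toP z * X ^ j) %ₘ monP G).coeff i := by
  unfold mulE
  rw [← coeff_mod, toP_pmul, toP_xpw]

section pr

variable {α : Type*} [Primcodable α]

theorem pMulE {G z : α → List ℤ} {i j : α → ℕ} (hG : Primrec G) (hz : Primrec z)
    (hi : Primrec i) (hj : Primrec j) :
    Primrec fun a => mulE (G a) (z a) (i a) (j a) :=
  pGetD (pPmod.comp hG (pPmul.comp hz (pXpw.comp hj))) hi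

/-- equality of polynomials is primitive recursive -/
theorem pPolyEq {l m : α → List ℤ} (hl : Primrec l) (hm : Primrec m) :
    PrimrecPred fun a => toP (l a) = toP (m a) := by
  have h : PrimrecPred fun a => ∀ i ∈ List.range (max (l a).length (m a).length),
      (l a).getD i 0 = (m a).getD i 0 := by
    have h1 : PrimrecRel fun (i : ℕ) (a : α) => (l a).getD i 0 = (m a).getD i 0 :=
      Primrec.eq.comp (pGetD (hl.comp snd) fst) (pGetD (hm.comp snd) fst)
    exact (h1.forall_mem_list).comp (list_range.comp (Primrec.nat_max.comp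
      (list_length.comp hl) (list_length.comp hm))) Primrec.id
  exact h.of_eq fun a => by
    constructor
    · intro h1
      ext i
      rw [coeff_toP, coeff_toP]
      by_cases hi : i < max (l a).length (m a).length
      · exact h1 i (List.mem_range.2 hi)
      · rw [getD_of_le (by omega), getD_of_le (by omega)]
    · intro h1 i _
      rw [← coeff_toP, ← coeff_toP, h1]

end pr

end Pool.Agent.DEC.PolyC
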