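import Pool.Agent.DEC.Core
import Pool.Agent.DEC.PolyD
import Pool.Agent.DEC.PPred

/-!
DEC project (MP_59dda0_an), P side: the common definitions on codes.

* `RC`: codes of reference data, read by `getD` with natural indices;
* `Codes c ρ`: the code `c` describes the reference datum `ρ`;
* types `ty : List (List ℕ)`, states `st : List (PM × PM × PM)` (polynomial entries as lists);
* `GAe`, `GBe`: the integer matrices of the maps `GA`, `GB` of `Core.lean`;
* `IdsC`: the four families of congruences.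
-/

set_option autoImplicit false

namespace Pool.Agent.DEC

open Primrec Polynomial

/-- entry `(a, q)` of `F * C ^ k` over codes (`C` of size `r`) -/
def CR.evE {S R : Type} [Primcodable S] [CommRing R] (c : CR S R) (r k : ℕ)
    (F C : List (List S)) (a q : ℕ) : S :=
  c.sumR r fun p => c.mul (c.ent F a p) (c.ent (c.mpow r C k) p q)

theorem CR.val_evE {S R : Type} [Primcodable S] [CommRing R] (c : CR S R) {x r : ℕ} (k : ℕ)
    (F C : List (List S)) (a : Fin x) (q : Fin r) :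
    c.val (c.evE r k F C a q) = (c.toM x r F * c.toM r r C ^ k) a q := by
  unfold CR.evE
  rw [c.val_sumR, Matrix.mul_apply,
    ← Fin.sum_univ_eq_sum_range (fun p => c.val (c.mul (c.ent F a p) (c.ent (c.mpow r C k) p q)))]
  refine Finset.sum_congr rfl fun p _ => ?_
  rw [c.val_mul, ← c.toM_mpow]
  rfl

theorem CR.pEvE {S R : Type} [Primcodable S] [CommRing R] (c : CR S R) {α : Type*}
    [Primcodable α] {r k a q : α → ℕ} {F C : α → List (List S)} (hr : Primrec r) (hk : Primrec k)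
    (hF : Primrec F) (hC : Primrec C) (ha : Primrec a) (hq : Primrec q) :
    Primrec fun x => c.evE (r x) (k x) (F x) (C x) (a x) (q x) := by
  refine c.pSumR (n := r) (f := fun x p => c.mul (c.ent (F x) (a x) p)
    (c.ent (c.mpow (r x) (C x) (k x)) p (q x))) hr ?_
  exact c.pMul (c.pEnt (hF.comp fst) (ha.comp fst) snd)
    (c.pEnt (c.pMpow (hr.comp fst) (hC.comp fst) (hk.comp fst)) snd (hq.comp fst))

namespace PD

open PolyC

/-- code of a factor: `G` (`g = monP G`), heights `lam`, `mu`, the matrices `P, P', Q, Q'` -/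
abbrev FC : Type := List ℤ × List ℕ × List ℕ × IM × IM × IM × IM

/-- code of a reference datum: factors, `Δ`, `q` -/
abbrev RC : Type := List FC × ℕ × ℕ

/-- matrices with polynomial entries -/
abbrev PM : Type := List (List (List ℤ))

/-- codes of states of all factors -/
abbrev SC : Type := List (PM × PM × PM)

/-- codes of types: the list of the degrees for every factor -/
abbrev TC : Type := List (List ℕ)

def fac (c : RC) (i : ℕ) : FC := c.1.getD i ([], [], [], [], [], [], [])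
def cG (c : RC) (i : ℕ) : List ℤ := (fac c i).1
def cLa (c : RC) (i : ℕ) : List ℕ := (fac c i).2.1
def cMu (c : RC) (i : ℕ) : List ℕ := (fac c i).2.2.1
def cP (c : RC) (i : ℕ) : IM := (fac c i).2.2.2.1
def cP' (c : RC) (i : ℕ) : IM := (fac c i).2.2.2.2.1
def cQ (c : RC) (i : ℕ) : IM := (fac c i).2.2.2.2.2.1
def cQ' (c : RC) (i : ℕ) : IM := (fac c i).2.2.2.2.2.2

/-- the storage index of three coordinates -/
def ix (i j k : ℕ) : ℕ := Nat.pair i (Nat.pair j k)

/-- the coordinates of an element of `ℤ[x]/(g)` in the power basis -/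
noncomputable def co {g : ℤ[X]} (hg : g.Monic) (z : Lam g) (s : ℕ) : ℤ :=
  (AdjoinRoot.modByMonicHom hg z).coeff s

variable {a b : ℕ} {A : Matrix (Fin a) (Fin a) ℕ} {B : Matrix (Fin b) (Fin b) ℕ}

/-- the code `c` describes the reference datum `ρ` -/
structure Codes (c : RC) (ρ : Ref A B) : Prop where
  nf : c.1.length = ρ.f
  g : ∀ i : Fin ρ.f, monP (cG c i) = ρ.g i
  na : ∀ i : Fin ρ.f, (cLa c i).length = ρ.na i
  nb : ∀ i : Fin ρ.f, (cMu c i).length = ρ.nb i
  lam : ∀ (i : Fin ρ.f) (k : Fin (ρ.na i)), (cLa c i).getD k 0 = ρ.lam i k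
  mu : ∀ (i : Fin ρ.f) (k : Fin (ρ.nb i)), (cMu c i).getD k 0 = ρ.mu i k
  Δ : c.2.1 = ρ.Δ
  q : c.2.2 = ρ.q
  P : ∀ (i : Fin ρ.f) (k : Blk (ρ.lam i)) (s : ℕ), s < (cG c i).length → ∀ r : Fin a,
    ρ.P i (Pi.single k (ρ.th i ^ s)) r = ent (cP c i) (ix k.1 k.2 s) r
  P' : ∀ (i : Fin ρ.f) (k : Blk (ρ.lam i)) (s : ℕ), s < (cG c i).length → ∀ r : Fin a,
    co (ρ.monic i) (ρ.P' i (Pi.single r 1) k) s = ent (cP' c i) r (ix k.1 k.2 s)
  Q : ∀ (i : Fin ρ.f) (k : Blk (ρ.mu i)) (s : ℕ), s < (cG c i).length → ∀ r : Fin b,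
    ρ.Q i (Pi.single k (ρ.th i ^ s)) r = ent (cQ c i) (ix k.1 k.2 s) r
  Q' : ∀ (i : Fin ρ.f) (k : Blk (ρ.mu i)) (s : ℕ), s < (cG c i).length → ∀ r : Fin b,
    co (ρ.monic i) (ρ.Q' i (Pi.single r 1) k) s = ent (cQ' c i) r (ix k.1 k.2 s)

/-! ### types and states -/

/-- number of basis elements of the type -/
def tn (ty : TC) (i : ℕ) : ℕ := (ty.getD i []).length

/-- degrees -/
def td (ty : TC) (i q : ℕ) : ℕ := (ty.getD i []).getD q 0

def sC (st : SC) (i : ℕ) : PM := (st.getD i ([], [], [])).1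
def sR (st : SC) (i : ℕ) : PM := (st.getD i ([], [], [])).2.1
def sT (st : SC) (i : ℕ) : PM := (st.getD i ([], [], [])).2.2

/-- the state over `ℤ[x]/(g)` with the given code -/
noncomputable def stOf (g : ℤ[X]) (n x z : ℕ) (st : SC) (i : ℕ) :
    RSt (Lam g) (Fin n) (Fin x) (Fin z) :=
  (Matrix.of fun p q => AdjoinRoot.mk g (toP (CR.poly.ent (sC st i) p q)),
   Matrix.of fun p q => AdjoinRoot.mk g (toP (CR.poly.ent (sR st i) p q)),
   Matrix.of fun p q => AdjoinRoot.mk g (toP (CR.poly.ent (sT st i) p q)))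

/-- entry `((k, t), q)` of `RM` as a polynomial -/
noncomputable def rmE (c : RC) (ty : TC) (st : SC) (i k t q : ℕ) : List ℤ :=
  CR.poly.evE (tn ty i) ((cLa c i).getD k 0 - 1 - t) (sR st i) (sC st i) k q

/-- entry `((k, t), q)` of `MM` as a polynomial -/
noncomputable def mmE (c : RC) (ty : TC) (st : SC) (i k t q : ℕ) : List ℤ :=
  CR.poly.evE (tn ty i) ((cMu c i).getD k 0 - 1 - t) (sT st i) (sC st i) k q

/-- coordinate `r` of `GA (θ ^ s e_(i, q))` -/
noncomputable def GAe (c : RC) (ty : TC) (st : SC) (i q s r : ℕ) : ℤ :=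
  ∑ k ∈ Finset.range (cLa c i).length, ∑ t ∈ Finset.range ((cLa c i).getD k 0),
    ∑ s' ∈ Finset.range (cG c i).length,
      mulE (cG c i) (rmE c ty st i k t q) s' s * ent (cP c i) (ix k t s') r

/-- coordinate `r` of `GB (θ ^ s e_(i, q))` -/
noncomputable def GBe (c : RC) (ty : TC) (st : SC) (i q s r : ℕ) : ℤ :=
  ∑ k ∈ Finset.range (cMu c i).length, ∑ t ∈ Finset.range ((cMu c i).getD k 0),
    ∑ s' ∈ Finset.range (cG c i).length,
      mulE (cG c i) (mmE c ty st i k t q) s' s * ent (cQ c i) (ix k t s') r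

/-- the index `D` -/
def cD (a : ℕ) (c : RC) : ℕ := c.2.1 * c.2.2 ^ (a * (a + 1))

/-- the denominator of the units -/
def cDl (a : ℕ) (c : RC) : ℕ := cD a c ^ a

/-- the first family: `R' (GA z) = D z` -/
def E1 (a : ℕ) (c : RC) (ty : TC) (st : SC) (R' : IM) (N : ℕ) : Prop :=
  ∀ i < c.1.length, ∀ q < tn ty i, ∀ s < (cG c i).length,
    ∀ i' < c.1.length, ∀ q' < tn ty i', ∀ s' < (cG c i').length,
      (N : ℤ) ∣ (∑ r ∈ Finset.range a, GAe c ty st i q s r * ent R' r (ix i' q' s')) -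
        (if i = i' ∧ q = q' ∧ s = s' then (cD a c : ℤ) else 0)

/-- the second family: `Ψ (GA z) = GB z` -/
def E2 (a b : ℕ) (c : RC) (ty : TC) (st : SC) (Ps : IM) (N : ℕ) : Prop :=
  ∀ i < c.1.length, ∀ q < tn ty i, ∀ s < (cG c i).length, ∀ r' < b,
    (N : ℤ) ∣ (∑ r ∈ Finset.range a, GAe c ty st i q s r * ent Ps r r') - GBe c ty st i q s r'

/-- the third family: `GA (T w) = D T' w` -/
def E3 (a b : ℕ) (c : RC) (ty : TC) (st : SC) (T T' : IM) (N : ℕ) : Prop :=
  ∀ w < b, ∀ r < a,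
    (N : ℤ) ∣ (∑ i ∈ Finset.range c.1.length, ∑ q ∈ Finset.range (tn ty i),
      ∑ s ∈ Finset.range (cG c i).length, ent T w (ix i q s) * GAe c ty st i q s r) -
        (cD a c : ℤ) * ent T' w r

/-- the fourth family: `GB (T w) = D w B ^ l`; `Bl` is the code of `B ^ l` -/
def E4 (a b : ℕ) (c : RC) (ty : TC) (st : SC) (T Bl : IM) (N : ℕ) : Prop :=
  ∀ w < b, ∀ r < b,
    (N : ℤ) ∣ (∑ i ∈ Finset.range c.1.length, ∑ q ∈ Finset.range (tn ty i),
      ∑ s ∈ Finset.range (cG c i).length, ent T w (ix i q s) * GBe c ty st i q s r) -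
        (cD a c : ℤ) * ent Bl w r

/-- the support conditions of the state -/
def StC (c : RC) (ty : TC) (st : SC) : Prop :=
  ∀ i < c.1.length,
    (∀ p < tn ty i, ∀ q < tn ty i, td ty i p ≤ td ty i q →
      monP (cG c i) ∣ toP (CR.poly.ent (sC st i) p q)) ∧
    (∀ k < (cLa c i).length, ∀ q < tn ty i, (cLa c i).getD k 0 ≤ td ty i q →
      monP (cG c i) ∣ toP (CR.poly.ent (sR st i) k q)) ∧
    (∀ k < (cMu c i).length, ∀ q < tn ty i, (cMu c i).getD k 0 ≤ td ty i q →
      monP (cG c i) ∣ toP (CR.poly.ent (sT st i) k q))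

/-! ### primitive recursiveness -/

section pr

variable {α : Type*} [Primcodable α]

theorem pFac {c : α → RC} {i : α → ℕ} (hc : Primrec c) (hi : Primrec i) :
    Primrec fun x => fac (c x) (i x) :=
  (Primrec.list_getD (([], [], [], [], [], [], []) : FC)).comp (fst.comp hc) hi

theorem pCG {c : α → RC} {i : α → ℕ} (hc : Primrec c) (hi : Primrec i) :
    Primrec fun x => cG (c x) (i x) := fst.comp (pFac hc hi)

theorem pCLa {c : α → RC} {i : α → ℕ} (hc : Primrec c) (hi : Primrec i) :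
    Primrec fun x => cLa (c x) (i x) := fst.comp (snd.comp (pFac hc hi))

theorem pCMu {c : α → RC} {i : α → ℕ} (hc : Primrec c) (hi : Primrec i) :
    Primrec fun x => cMu (c x) (i x) := fst.comp (snd.comp (snd.comp (pFac hc hi)))

theorem pCP {c : α → RC} {i : α → ℕ} (hc : Primrec c) (hi : Primrec i) :
    Primrec fun x => cP (c x) (i x) :=
  fst.comp (snd.comp (snd.comp (snd.comp (pFac hc hi))))

theorem pCP' {c : α → RC} {i : α → ℕ} (hc : Primrec c) (hi : Primrec i) :
    Primrec fun x => cP' (c x) (i x) :=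
  fst.comp (snd.comp (snd.comp (snd.comp (snd.comp (pFac hc hi)))))

theorem pCQ {c : α → RC} {i : α → ℕ} (hc : Primrec c) (hi : Primrec i) :
    Primrec fun x => cQ (c x) (i x) :=
  fst.comp (snd.comp (snd.comp (snd.comp (snd.comp (snd.comp (pFac hc hi))))))

theorem pCQ' {c : α → RC} {i : α → ℕ} (hc : Primrec c) (hi : Primrec i) :
    Primrec fun x => cQ' (c x) (i x) :=
  snd.comp (snd.comp (snd.comp (snd.comp (snd.comp (snd.comp (pFac hc hi))))))

theorem pIx {i j k : α → ℕ} (hi : Primrec i) (hj : Primrec j) (hk : Primrec k) :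
    Primrec fun x => ix (i x) (j x) (k x) :=
  Primrec₂.natPair.comp hi (Primrec₂.natPair.comp hj hk)

theorem pTn {ty : α → TC} {i : α → ℕ} (ht : Primrec ty) (hi : Primrec i) :
    Primrec fun x => tn (ty x) (i x) :=
  list_length.comp ((Primrec.list_getD ([] : List ℕ)).comp ht hi)

theorem pTd {ty : α → TC} {i q : α → ℕ} (ht : Primrec ty) (hi : Primrec i) (hq : Primrec q) :
    Primrec fun x => td (ty x) (i x) (q x) :=
  (Primrec.list_getD 0).comp ((Primrec.list_getD ([] : List ℕ)).comp ht hi) hq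

theorem pSg {st : α → SC} {i : α → ℕ} (hs : Primrec st) (hi : Primrec i) :
    Primrec fun x => (st x).getD (i x) ([], [], []) :=
  (Primrec.list_getD (([], [], []) : PM × PM × PM)).comp hs hi

theorem pSC {st : α → SC} {i : α → ℕ} (hs : Primrec st) (hi : Primrec i) :
    Primrec fun x => sC (st x) (i x) := fst.comp (pSg hs hi)

theorem pSR {st : α → SC} {i : α → ℕ} (hs : Primrec st) (hi : Primrec i) :
    Primrec fun x => sR (st x) (i x) := fst.comp (snd.comp (pSg hs hi))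

theorem pST {st : α → SC} {i : α → ℕ} (hs : Primrec st) (hi : Primrec i) :
    Primrec fun x => sT (st x) (i x) := snd.comp (snd.comp (pSg hs hi))

theorem pNatGetD {l : α → List ℕ} {i : α → ℕ} (hl : Primrec l) (hi : Primrec i) :
    Primrec fun x => (l x).getD (i x) 0 := (Primrec.list_getD 0).comp hl hi

theorem pRmE {c : α → RC} {ty : α → TC} {st : α → SC} {i k t q : α → ℕ} (hc : Primrec c)
    (hty : Primrec ty) (hst : Primrec st) (hi : Primrec i) (hk : Primrec k) (ht : Primrec t)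
    (hq : Primrec q) : Primrec fun x => rmE (c x) (ty x) (st x) (i x) (k x) (t x) (q x) :=
  CR.poly.pEvE (pTn hty hi) (Primrec.nat_sub.comp (Primrec.nat_sub.comp
    (pNatGetD (pCLa hc hi) hk) (Primrec.const 1)) ht) (pSR hst hi) (pSC hst hi) hk hq

theorem pMmE {c : α → RC} {ty : α → TC} {st : α → SC} {i k t q : α → ℕ} (hc : Primrec c)
    (hty : Primrec ty) (hst : Primrec st) (hi : Primrec i) (hk : Primrec k) (ht : Primrec t)
    (hq : Primrec q) : Primrec fun x => mmE (c x) (ty x) (st x) (i x) (k x) (t x) (q x) :=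
  CR.poly.pEvE (pTn hty hi) (Primrec.nat_sub.comp (Primrec.nat_sub.comp
    (pNatGetD (pCMu hc hi) hk) (Primrec.const 1)) ht) (pST hst hi) (pSC hst hi) hk hq

theorem pGAe {c : α → RC} {ty : α → TC} {st : α → SC} {i q s r : α → ℕ} (hc : Primrec c)
    (hty : Primrec ty) (hst : Primrec st) (hi : Primrec i) (hq : Primrec q) (hs : Primrec s)
    (hr : Primrec r) : Primrec fun x => GAe (c x) (ty x) (st x) (i x) (q x) (s x) (r x) := by
  unfold GAe
  refine pSum (n := fun x => (cLa (c x) (i x)).length) (f := fun x k =>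
    ∑ t ∈ Finset.range ((cLa (c x) (i x)).getD k 0), ∑ s' ∈ Finset.range (cG (c x) (i x)).length,
      mulE (cG (c x) (i x)) (rmE (c x) (ty x) (st x) (i x) k t (q x)) s' (s x) *
        ent (cP (c x) (i x)) (ix k t s') (r x)) (list_length.comp (pCLa hc hi)) ?_
  refine pSum (n := fun y : α × ℕ => (cLa (c y.1) (i y.1)).getD y.2 0) (f := fun y t =>
    ∑ s' ∈ Finset.range (cG (c y.1) (i y.1)).length,
      mulE (cG (c y.1) (i y.1)) (rmE (c y.1) (ty y.1) (st y.1) (i y.1) y.2 t (q y.1)) s' (s y.1) *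
        ent (cP (c y.1) (i y.1)) (ix y.2 t s') (r y.1))
    (pNatGetD (pCLa (hc.comp fst) (hi.comp fst)) snd) ?_
  refine pSum (n := fun z : (α × ℕ) × ℕ => (cG (c z.1.1) (i z.1.1)).length) (f := fun z s' =>
      mulE (cG (c z.1.1) (i z.1.1)) (rmE (c z.1.1) (ty z.1.1) (st z.1.1) (i z.1.1) z.1.2 z.2
        (q z.1.1)) s' (s z.1.1) * ent (cP (c z.1.1) (i z.1.1)) (ix z.1.2 z.2 s') (r z.1.1))
    (list_length.comp (pCG (hc.comp (fst.comp fst)) (hi.comp (fst.comp fst)))) ?_
  have f3 : Primrec fun w : ((α × ℕ) × ℕ) × ℕ => w.1.1.1 := fst.comp (fst.comp fst)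
  have hk : Primrec fun w : ((α × ℕ) × ℕ) × ℕ => w.1.1.2 := snd.comp (fst.comp fst)
  have ht : Primrec fun w : ((α × ℕ) × ℕ) × ℕ => w.1.2 := snd.comp fst
  exact primrec_int_mul.comp
    (pMulE (pCG (hc.comp f3) (hi.comp f3)) (pRmE (hc.comp f3) (hty.comp f3) (hst.comp f3)
      (hi.comp f3) hk ht (hq.comp f3)) snd (hs.comp f3))
    (pEnt (pCP (hc.comp f3) (hi.comp f3)) (pIx hk ht snd) (hr.comp f3))

theorem pGBe {c : α → RC} {ty : α → TC} {st : α → SC} {i q s r : α → ℕ} (hc : Primrec c)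
    (hty : Primrec ty) (hst : Primrec st) (hi : Primrec i) (hq : Primrec q) (hs : Primrec s)
    (hr : Primrec r) : Primrec fun x => GBe (c x) (ty x) (st x) (i x) (q x) (s x) (r x) := by
  unfold GBe
  refine pSum (n := fun x => (cMu (c x) (i x)).length) (f := fun x k =>
    ∑ t ∈ Finset.range ((cMu (c x) (i x)).getD k 0), ∑ s' ∈ Finset.range (cG (c x) (i x)).length,
      mulE (cG (c x) (i x)) (mmE (c x) (ty x) (st x) (i x) k t (q x)) s' (s x) *
        ent (cQ (c x) (i x)) (ix k t s') (r x)) (list_length.comp (pCMu hc hi)) ?_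
  refine pSum (n := fun y : α × ℕ => (cMu (c y.1) (i y.1)).getD y.2 0) (f := fun y t =>
    ∑ s' ∈ Finset.range (cG (c y.1) (i y.1)).length,
      mulE (cG (c y.1) (i y.1)) (mmE (c y.1) (ty y.1) (st y.1) (i y.1) y.2 t (q y.1)) s' (s y.1) *
        ent (cQ (c y.1) (i y.1)) (ix y.2 t s') (r y.1))
    (pNatGetD (pCMu (hc.comp fst) (hi.comp fst)) snd) ?_
  refine pSum (n := fun z : (α × ℕ) × ℕ => (cG (c z.1.1) (i z.1.1)).length) (f := fun z s' =>
      mulE (cG (c z.1.1) (i z.1.1)) (mmE (c z.1.1) (ty z.1.1) (st z.1.1) (i z.1.1) z.1.2 z.2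
        (q z.1.1)) s' (s z.1.1) * ent (cQ (c z.1.1) (i z.1.1)) (ix z.1.2 z.2 s') (r z.1.1))
    (list_length.comp (pCG (hc.comp (fst.comp fst)) (hi.comp (fst.comp fst)))) ?_
  have f3 : Primrec fun w : ((α × ℕ) × ℕ) × ℕ => w.1.1.1 := fst.comp (fst.comp fst)
  have hk : Primrec fun w : ((α × ℕ) × ℕ) × ℕ => w.1.1.2 := snd.comp (fst.comp fst)
  have ht : Primrec fun w : ((α × ℕ) × ℕ) × ℕ => w.1.2 := snd.comp fst
  exact primrec_int_mul.comp
    (pMulE (pCG (hc.comp f3) (hi.comp f3)) (pMmE (hc.comp f3) (hty.comp f3) (hst.comp f3)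
      (hi.comp f3) hk ht (hq.comp f3)) snd (hs.comp f3))
    (pEnt (pCQ (hc.comp f3) (hi.comp f3)) (pIx hk ht snd) (hr.comp f3))

end pr

end PD

end Pool.Agent.DEC
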