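import Pool.Agent.DEC.PDefs
import Pool.Agent.DEC.Pig

/-!
DEC project (MP_59dda0_an), P side: the congruences `E1`, ..., `E4` are primitive recursive, and the
matrices in them can be reduced modulo `N`.
-/

set_option autoImplicit false

namespace Pool.Agent.DEC.PD

open Primrec Polynomial PolyC

/-! ### the congruences depend on the matrices only modulo `N` -/

theorem dvd_sub_of_sum {N : ℤ} {n : ℕ} {f g : ℕ → ℤ} (h : ∀ i < n, N ∣ f i - g i) :
    N ∣ ∑ i ∈ Finset.range n, f i - ∑ i ∈ Finset.range n, g i := by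
  rw [← Finset.sum_sub_distrib]
  exact Finset.dvd_sum fun i hi => h i (Finset.mem_range.1 hi)

theorem dvd_trans_sub {N x y z : ℤ} (h : N ∣ x - y) (h' : N ∣ x - z) : N ∣ y - z := by
  have := dvd_sub h' h
  have e : x - z - (x - y) = y - z := by ring
  rwa [e] at this

theorem dvd_trans_sub' {N x y : ℤ} (h : N ∣ x) (e : x = y) : N ∣ y := e ▸ h

/-- the number of columns which contains all storage indices -/
def cols (c : RC) (ty : TC) : ℕ :=
  ix c.1.length (∑ i ∈ Finset.range c.1.length, tn ty i)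
    (∑ i ∈ Finset.range c.1.length, (cG c i).length)

theorem ix_lt_cols {c : RC} {ty : TC} {i q s : ℕ} (hi : i < c.1.length) (hq : q < tn ty i)
    (hs : s < (cG c i).length) : ix i q s < cols c ty := by
  have h1 : tn ty i ≤ ∑ i ∈ Finset.range c.1.length, tn ty i :=
    Finset.single_le_sum (f := fun i => tn ty i) (fun _ _ => Nat.zero_le _) (Finset.mem_range.2 hi)
  have h2 : (cG c i).length ≤ ∑ i ∈ Finset.range c.1.length, (cG c i).length :=
    Finset.single_le_sum (f := fun i => (cG c i).length) (fun _ _ => Nat.zero_le _)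
      (Finset.mem_range.2 hi)
  unfold cols ix
  exact (Nat.pair_lt_pair_left _ hi).trans
    (Nat.pair_lt_pair_right _ ((Nat.pair_lt_pair_left _ (hq.trans_le h1)).trans
      (Nat.pair_lt_pair_right _ (hs.trans_le h2))))

/-- reduction of the entries modulo `N` -/
def redN (n m N : ℕ) (L : IM) : IM := mk n m fun i j => ent L i j % (N : ℤ)

theorem redN_mem {n m N : ℕ} (hN : 0 < N) (L : IM) : redN n m N L ∈ PPred.matsN n m N := by
  rw [PPred.mem_matsN]
  unfold redN mk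
  refine ⟨by simp, fun v hv => ?_⟩
  obtain ⟨i, -, rfl⟩ := List.mem_map.1 hv
  refine ⟨by simp, fun x hx => ?_⟩
  obtain ⟨j, -, rfl⟩ := List.mem_map.1 hx
  have h : (0 : ℤ) < N := by exact_mod_cast hN
  exact ⟨Int.emod_nonneg _ h.ne', Int.emod_lt_of_pos _ h⟩

theorem redN_dvd {n m N : ℕ} (L : IM) {i j : ℕ} (hi : i < n) (hj : j < m) :
    (N : ℤ) ∣ ent L i j - ent (redN n m N L) i j := by
  unfold redN
  rw [ent_mk _ hi hj]
  exact Int.dvd_self_sub_emod

section congr

variable {a b : ℕ} {c : RC} {ty : TC} {st : SC} {N : ℕ}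

theorem dvd_mul_sub {N x y z : ℤ} (h : N ∣ y - z) : N ∣ x * y - x * z := by
  rw [← mul_sub]
  exact h.mul_left x

theorem dvd_mul_sub' {N x y z : ℤ} (h : N ∣ y - z) : N ∣ y * x - z * x := by
  rw [← sub_mul]
  exact h.mul_right x

theorem E1_red {R' : IM} (h : E1 a c ty st R' N) :
    E1 a c ty st (redN a (cols c ty) N R') N := by
  intro i hi q hq s hs i' hi' q' hq' s' hs'
  refine dvd_trans_sub ?_ (h i hi q hq s hs i' hi' q' hq' s' hs')
  exact dvd_sub_of_sum fun r hr => dvd_mul_sub (redN_dvd R' hr (ix_lt_cols hi' hq' hs'))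

theorem E2_red {Ps : IM} (h : E2 a b c ty st Ps N) : E2 a b c ty st (redN a b N Ps) N := by
  intro i hi q hq s hs r' hr'
  refine dvd_trans_sub ?_ (h i hi q hq s hs r' hr')
  exact dvd_sub_of_sum fun r hr => dvd_mul_sub (redN_dvd Ps hr hr')

theorem sum3_red {T : IM} {w : ℕ} (hw : w < b) (f : ℕ → ℕ → ℕ → ℤ) :
    (N : ℤ) ∣ (∑ i ∈ Finset.range c.1.length, ∑ q ∈ Finset.range (tn ty i),
      ∑ s ∈ Finset.range (cG c i).length, ent T w (ix i q s) * f i q s) -
      (∑ i ∈ Finset.range c.1.length, ∑ q ∈ Finset.range (tn ty i),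
      ∑ s ∈ Finset.range (cG c i).length, ent (redN b (cols c ty) N T) w (ix i q s) * f i q s) :=
  dvd_sub_of_sum fun _ hi => dvd_sub_of_sum fun _ hq => dvd_sub_of_sum fun _ hs =>
    dvd_mul_sub' (redN_dvd T hw (ix_lt_cols hi hq hs))

theorem E3_red {T T' : IM} (h : E3 a b c ty st T T' N) :
    E3 a b c ty st (redN b (cols c ty) N T) (redN b a N T') N := by
  intro w hw r hr
  have h1 := h w hw r hr
  have h2 := sum3_red (c := c) (ty := ty) (N := N) (T := T) hw fun i q s => GAe c ty st i q s r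
  have h3 : (N : ℤ) ∣ (cD a c : ℤ) * ent T' w r - (cD a c : ℤ) * ent (redN b a N T') w r :=
    dvd_mul_sub (redN_dvd T' hw hr)
  have h4 := dvd_add (dvd_sub h1 h2) h3
  refine (dvd_trans_sub' h4 ?_)
  ring

theorem E4_red {T Bl : IM} (h : E4 a b c ty st T Bl N) :
    E4 a b c ty st (redN b (cols c ty) N T) Bl N := by
  intro w hw r hr
  exact dvd_trans_sub (sum3_red hw fun i q s => GBe c ty st i q s r) (h w hw r hr)

theorem E4_congr {T Bl Bl' : IM} (h : E4 a b c ty st T Bl N)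
    (hB : ∀ w < b, ∀ r < b, (N : ℤ) ∣ ent Bl w r - ent Bl' w r) : E4 a b c ty st T Bl' N := by
  intro w hw r hr
  have h1 := dvd_add (h w hw r hr) ((hB w hw r hr).mul_left (cD a c : ℤ))
  refine (dvd_trans_sub' h1 ?_)
  ring

end congr

/-- the matrices and the exponent can be bounded -/
theorem ids_bdd {a b : ℕ} {c : RC} {ty : TC} {st : SC} {N : ℕ} (hN : 0 < N) (Bm : IM) :
    (∃ (R' Ps T T' : IM) (l : ℕ), E1 a c ty st R' N ∧ E2 a b c ty st Ps N ∧
      E3 a b c ty st T T' N ∧ E4 a b c ty st T (mpow b Bm l) N) ↔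
    (∃ R' ∈ PPred.matsN a (cols c ty) N, E1 a c ty st R' N) ∧
    (∃ Ps ∈ PPred.matsN a b N, E2 a b c ty st Ps N) ∧
    (∃ T ∈ PPred.matsN b (cols c ty) N, (∃ T' ∈ PPred.matsN b a N, E3 a b c ty st T T' N) ∧
      ∃ l < N ^ (b ^ 2), E4 a b c ty st T (mpow b Bm l) N) := by
  constructor
  · rintro ⟨R', Ps, T, T', l, h1, h2, h3, h4⟩
    refine ⟨⟨_, redN_mem hN R', E1_red h1⟩, ⟨_, redN_mem hN Ps, E2_red h2⟩, _, redN_mem hN T,
      ⟨_, redN_mem hN T', E3_red h3⟩, ?_⟩
    obtain ⟨l', hl', he⟩ := exists_mat_pow_lt b N hN (toMat b b Bm) l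
    refine ⟨l', hl', E4_congr (E4_red h4) fun w hw r hr => ?_⟩
    have h5 := he ⟨w, hw⟩ ⟨r, hr⟩
    rw [← toMat_mpow, ← toMat_mpow] at h5
    simp only [toMat_apply] at h5
    rw [← dvd_neg]
    have e : -(ent (mpow b Bm l) w r - ent (mpow b Bm l') w r) =
      ent (mpow b Bm l') w r - ent (mpow b Bm l) w r := by ring
    rw [e]
    exact h5
  · rintro ⟨⟨R', -, h1⟩, ⟨Ps, -, h2⟩, T, -, ⟨T', -, h3⟩, l, -, h4⟩
    exact ⟨R', Ps, T, T', l, h1, h2, h3, h4⟩

/-- the bounded form of the identities -/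
def IdsB (a b : ℕ) (c : RC) (ty : TC) (st : SC) (Bm : IM) (N : ℕ) : Prop :=
  (∃ R' ∈ PPred.matsN a (cols c ty) N, E1 a c ty st R' N) ∧
    (∃ Ps ∈ PPred.matsN a b N, E2 a b c ty st Ps N) ∧
    (∃ T ∈ PPred.matsN b (cols c ty) N, (∃ T' ∈ PPred.matsN b a N, E3 a b c ty st T T' N) ∧
      ∃ l < N ^ (b ^ 2), E4 a b c ty st T (mpow b Bm l) N)

end Pool.Agent.DEC.PD
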