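import Pool.Agent.DEC.PIds

/-!
DEC project (MP_59dda0_an), P side: the congruences `E1`, ..., `E4` are primitive recursive.
-/

set_option autoImplicit false

namespace Pool.Agent.DEC.PD

open Primrec Polynomial PolyC

/-! ### primitive recursiveness -/

section pr

variable {α : Type*} [Primcodable α] {a b : α → ℕ} {c : α → RC} {ty : α → TC} {st : α → SC}
  {N : α → ℕ}

theorem pNf (hc : Primrec c) : Primrec fun x => (c x).1.length := list_length.comp (fst.comp hc)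

theorem pDeg {i : α → ℕ} (hc : Primrec c) (hi : Primrec i) :
    Primrec fun x => (cG (c x) (i x)).length := list_length.comp (pCG hc hi)

theorem pCols (hc : Primrec c) (hty : Primrec ty) : Primrec fun x => cols (c x) (ty x) :=
  pIx (pNf hc)
    (PPred.pNatSumRange (f := fun x i => tn (ty x) i) (pNf hc) (pTn (hty.comp fst) snd))
    (PPred.pNatSumRange (f := fun x i => (cG (c x) i).length) (pNf hc)
      (pDeg (hc.comp fst) snd))

theorem pCD (ha : Primrec a) (hc : Primrec c) : Primrec fun x => cD (a x) (c x) :=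
  Primrec.nat_mul.comp (fst.comp (snd.comp hc))
    (primrec_nat_pow.comp (snd.comp (snd.comp hc))
      (Primrec.nat_mul.comp ha (Primrec.succ.comp ha)))

theorem pCDl (ha : Primrec a) (hc : Primrec c) : Primrec fun x => cDl (a x) (c x) :=
  primrec_nat_pow.comp (pCD ha hc) ha

theorem pE1 {R' : α → IM} (ha : Primrec a) (hc : Primrec c) (hty : Primrec ty)
    (hst : Primrec st) (hR : Primrec R') (hN : Primrec N) :
    PrimrecPred fun x => E1 (a x) (c x) (ty x) (st x) (R' x) (N x) := by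
  unfold E1
  have g1 : Primrec fun x : α × ℕ => x.1 := fst
  have g2 : Primrec fun x : (α × ℕ) × ℕ => x.1.1 := fst.comp fst
  have g3 : Primrec fun x : ((α × ℕ) × ℕ) × ℕ => x.1.1.1 := fst.comp (fst.comp fst)
  have g4 : Primrec fun x : (((α × ℕ) × ℕ) × ℕ) × ℕ => x.1.1.1.1 :=
    fst.comp (fst.comp (fst.comp fst))
  have g5 : Primrec fun x : ((((α × ℕ) × ℕ) × ℕ) × ℕ) × ℕ => x.1.1.1.1.1 :=
    fst.comp (fst.comp (fst.comp (fst.comp fst)))
  have g6 : Primrec fun x : (((((α × ℕ) × ℕ) × ℕ) × ℕ) × ℕ) × ℕ => x.1.1.1.1.1.1 :=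
    fst.comp (fst.comp (fst.comp (fst.comp (fst.comp fst))))
  refine PPred.pAllLt (f := fun x => (c x).1.length) (R := fun (x : α) (i : ℕ) => ∀ q < tn (ty x) i,
    ∀ s < (cG (c x) i).length, ∀ i' < (c x).1.length, ∀ q' < tn (ty x) i',
    ∀ s' < (cG (c x) i').length,
      (N x : ℤ) ∣ (∑ r ∈ Finset.range (a x), GAe (c x) (ty x) (st x) i q s r *
        ent (R' x) r (ix i' q' s')) - (if i = i' ∧ q = q' ∧ s = s' then (cD (a x) (c x) : ℤ)
        else 0)) ?_ (pNf hc)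
  refine PPred.pAllLt (f := fun y : α × ℕ => tn (ty y.1) y.2) (R := fun (y : α × ℕ) (q : ℕ) =>
    ∀ s < (cG (c y.1) y.2).length, ∀ i' < (c y.1).1.length, ∀ q' < tn (ty y.1) i',
    ∀ s' < (cG (c y.1) i').length,
      (N y.1 : ℤ) ∣ (∑ r ∈ Finset.range (a y.1), GAe (c y.1) (ty y.1) (st y.1) y.2 q s r *
        ent (R' y.1) r (ix i' q' s')) - (if y.2 = i' ∧ q = q' ∧ s = s' then
        (cD (a y.1) (c y.1) : ℤ) else 0)) ?_ (pTn (hty.comp g1) snd)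
  refine PPred.pAllLt (f := fun y : (α × ℕ) × ℕ => (cG (c y.1.1) y.1.2).length) (R := fun (y : (α × ℕ) × ℕ) (s : ℕ) =>
    ∀ i' < (c y.1.1).1.length, ∀ q' < tn (ty y.1.1) i', ∀ s' < (cG (c y.1.1) i').length,
      (N y.1.1 : ℤ) ∣ (∑ r ∈ Finset.range (a y.1.1), GAe (c y.1.1) (ty y.1.1) (st y.1.1) y.1.2
        y.2 s r * ent (R' y.1.1) r (ix i' q' s')) - (if y.1.2 = i' ∧ y.2 = q' ∧ s = s' then
        (cD (a y.1.1) (c y.1.1) : ℤ) else 0)) ?_ (pDeg (hc.comp g2) (snd.comp fst))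
  refine PPred.pAllLt (f := fun y : ((α × ℕ) × ℕ) × ℕ => (c y.1.1.1).1.length)
    (R := fun (y : ((α × ℕ) × ℕ) × ℕ) (i' : ℕ) => ∀ q' < tn (ty y.1.1.1) i', ∀ s' < (cG (c y.1.1.1) i').length,
      (N y.1.1.1 : ℤ) ∣ (∑ r ∈ Finset.range (a y.1.1.1), GAe (c y.1.1.1) (ty y.1.1.1)
        (st y.1.1.1) y.1.1.2 y.1.2 y.2 r * ent (R' y.1.1.1) r (ix i' q' s')) -
        (if y.1.1.2 = i' ∧ y.1.2 = q' ∧ y.2 = s' then
        (cD (a y.1.1.1) (c y.1.1.1) : ℤ) else 0)) ?_ (pNf (hc.comp g3))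
  refine PPred.pAllLt (f := fun y : (((α × ℕ) × ℕ) × ℕ) × ℕ => tn (ty y.1.1.1.1) y.2)
    (R := fun (y : (((α × ℕ) × ℕ) × ℕ) × ℕ) (q' : ℕ) => ∀ s' < (cG (c y.1.1.1.1) y.2).length,
      (N y.1.1.1.1 : ℤ) ∣ (∑ r ∈ Finset.range (a y.1.1.1.1), GAe (c y.1.1.1.1) (ty y.1.1.1.1)
        (st y.1.1.1.1) y.1.1.1.2 y.1.1.2 y.1.2 r * ent (R' y.1.1.1.1) r (ix y.2 q' s')) -
        (if y.1.1.1.2 = y.2 ∧ y.1.1.2 = q' ∧ y.1.2 = s' then
        (cD (a y.1.1.1.1) (c y.1.1.1.1) : ℤ) else 0)) ?_ (pTn (hty.comp g4) snd)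
  refine PPred.pAllLt (f := fun y : ((((α × ℕ) × ℕ) × ℕ) × ℕ) × ℕ =>
      (cG (c y.1.1.1.1.1) y.1.2).length)
    (R := fun (y : ((((α × ℕ) × ℕ) × ℕ) × ℕ) × ℕ) (s' : ℕ) =>
      (N y.1.1.1.1.1 : ℤ) ∣ (∑ r ∈ Finset.range (a y.1.1.1.1.1), GAe (c y.1.1.1.1.1)
        (ty y.1.1.1.1.1) (st y.1.1.1.1.1) y.1.1.1.1.2 y.1.1.1.2 y.1.1.2 r *
        ent (R' y.1.1.1.1.1) r (ix y.1.2 y.2 s')) -
        (if y.1.1.1.1.2 = y.1.2 ∧ y.1.1.1.2 = y.2 ∧ y.1.1.2 = s' then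
        (cD (a y.1.1.1.1.1) (c y.1.1.1.1.1) : ℤ) else 0)) ?_
    (pDeg (hc.comp g5) (snd.comp fst))
  -- the coordinates of the seven-fold context
  have ci : Primrec fun x : (((((α × ℕ) × ℕ) × ℕ) × ℕ) × ℕ) × ℕ => x.1.1.1.1.1.2 :=
    snd.comp (fst.comp (fst.comp (fst.comp (fst.comp fst))))
  have cq : Primrec fun x : (((((α × ℕ) × ℕ) × ℕ) × ℕ) × ℕ) × ℕ => x.1.1.1.1.2 :=
    snd.comp (fst.comp (fst.comp (fst.comp fst)))
  have cs : Primrec fun x : (((((α × ℕ) × ℕ) × ℕ) × ℕ) × ℕ) × ℕ => x.1.1.1.2 :=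
    snd.comp (fst.comp (fst.comp fst))
  have ci' : Primrec fun x : (((((α × ℕ) × ℕ) × ℕ) × ℕ) × ℕ) × ℕ => x.1.1.2 :=
    snd.comp (fst.comp fst)
  have cq' : Primrec fun x : (((((α × ℕ) × ℕ) × ℕ) × ℕ) × ℕ) × ℕ => x.1.2 := snd.comp fst
  have cs' : Primrec fun x : (((((α × ℕ) × ℕ) × ℕ) × ℕ) × ℕ) × ℕ => x.2 := snd
  refine PPred.pDvd (hN.comp g6) (primrec_int_sub.comp ?_ ?_)
  · refine pSum (n := fun x : (((((α × ℕ) × ℕ) × ℕ) × ℕ) × ℕ) × ℕ => a x.1.1.1.1.1.1)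
      (f := fun (x : (((((α × ℕ) × ℕ) × ℕ) × ℕ) × ℕ) × ℕ) (r : ℕ) => GAe (c x.1.1.1.1.1.1) (ty x.1.1.1.1.1.1) (st x.1.1.1.1.1.1) x.1.1.1.1.1.2
        x.1.1.1.1.2 x.1.1.1.2 r * ent (R' x.1.1.1.1.1.1) r (ix x.1.1.2 x.1.2 x.2))
      (ha.comp g6) ?_
    have k : Primrec fun x : ((((((α × ℕ) × ℕ) × ℕ) × ℕ) × ℕ) × ℕ) × ℕ => x.1.1.1.1.1.1.1 :=
      g6.comp fst
    exact primrec_int_mul.comp
      (pGAe (hc.comp k) (hty.comp k) (hst.comp k) (ci.comp fst) (cq.comp fst) (cs.comp fst) snd)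
      (pEnt (hR.comp k) snd (pIx (ci'.comp fst) (cq'.comp fst) (cs'.comp fst)))
  · exact Primrec.ite ((PPred.pEq ci ci').and ((PPred.pEq cq cq').and (PPred.pEq cs cs')))
      (primrec_natCast.comp (pCD (ha.comp g6) (hc.comp g6))) (Primrec.const 0)

theorem pE2 {Ps : α → IM} (ha : Primrec a) (hb : Primrec b) (hc : Primrec c)
    (hty : Primrec ty) (hst : Primrec st) (hP : Primrec Ps) (hN : Primrec N) :
    PrimrecPred fun x => E2 (a x) (b x) (c x) (ty x) (st x) (Ps x) (N x) := by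
  unfold E2
  have g1 : Primrec fun x : α × ℕ => x.1 := fst
  have g2 : Primrec fun x : (α × ℕ) × ℕ => x.1.1 := fst.comp fst
  have g3 : Primrec fun x : ((α × ℕ) × ℕ) × ℕ => x.1.1.1 := fst.comp (fst.comp fst)
  have g4 : Primrec fun x : (((α × ℕ) × ℕ) × ℕ) × ℕ => x.1.1.1.1 :=
    fst.comp (fst.comp (fst.comp fst))
  refine PPred.pAllLt (f := fun x => (c x).1.length) (R := fun (x : α) (i : ℕ) => ∀ q < tn (ty x) i,
    ∀ s < (cG (c x) i).length, ∀ r' < b x,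
      (N x : ℤ) ∣ (∑ r ∈ Finset.range (a x), GAe (c x) (ty x) (st x) i q s r *
        ent (Ps x) r r') - GBe (c x) (ty x) (st x) i q s r') ?_ (pNf hc)
  refine PPred.pAllLt (f := fun y : α × ℕ => tn (ty y.1) y.2) (R := fun (y : α × ℕ) (q : ℕ) =>
    ∀ s < (cG (c y.1) y.2).length, ∀ r' < b y.1,
      (N y.1 : ℤ) ∣ (∑ r ∈ Finset.range (a y.1), GAe (c y.1) (ty y.1) (st y.1) y.2 q s r *
        ent (Ps y.1) r r') - GBe (c y.1) (ty y.1) (st y.1) y.2 q s r') ?_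
    (pTn (hty.comp g1) snd)
  refine PPred.pAllLt (f := fun y : (α × ℕ) × ℕ => (cG (c y.1.1) y.1.2).length) (R := fun (y : (α × ℕ) × ℕ) (s : ℕ) =>
    ∀ r' < b y.1.1,
      (N y.1.1 : ℤ) ∣ (∑ r ∈ Finset.range (a y.1.1), GAe (c y.1.1) (ty y.1.1) (st y.1.1) y.1.2
        y.2 s r * ent (Ps y.1.1) r r') -
        GBe (c y.1.1) (ty y.1.1) (st y.1.1) y.1.2 y.2 s r') ?_
    (pDeg (hc.comp g2) (snd.comp fst))
  refine PPred.pAllLt (f := fun y : ((α × ℕ) × ℕ) × ℕ => b y.1.1.1) (R := fun (y : ((α × ℕ) × ℕ) × ℕ) (r' : ℕ) =>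
      (N y.1.1.1 : ℤ) ∣ (∑ r ∈ Finset.range (a y.1.1.1), GAe (c y.1.1.1) (ty y.1.1.1)
        (st y.1.1.1) y.1.1.2 y.1.2 y.2 r * ent (Ps y.1.1.1) r r') -
        GBe (c y.1.1.1) (ty y.1.1.1) (st y.1.1.1) y.1.1.2 y.1.2 y.2 r') ?_ (hb.comp g3)
  have ci : Primrec fun x : (((α × ℕ) × ℕ) × ℕ) × ℕ => x.1.1.1.2 :=
    snd.comp (fst.comp (fst.comp fst))
  have cq : Primrec fun x : (((α × ℕ) × ℕ) × ℕ) × ℕ => x.1.1.2 := snd.comp (fst.comp fst)
  have cs : Primrec fun x : (((α × ℕ) × ℕ) × ℕ) × ℕ => x.1.2 := snd.comp fst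
  have cr : Primrec fun x : (((α × ℕ) × ℕ) × ℕ) × ℕ => x.2 := snd
  refine PPred.pDvd (hN.comp g4) (primrec_int_sub.comp ?_ ?_)
  · refine pSum (n := fun x : (((α × ℕ) × ℕ) × ℕ) × ℕ => a x.1.1.1.1)
      (f := fun (x : (((α × ℕ) × ℕ) × ℕ) × ℕ) (r : ℕ) => GAe (c x.1.1.1.1) (ty x.1.1.1.1) (st x.1.1.1.1) x.1.1.1.2
        x.1.1.2 x.1.2 r * ent (Ps x.1.1.1.1) r x.2)
      (ha.comp g4) ?_
    have k : Primrec fun x : ((((α × ℕ) × ℕ) × ℕ) × ℕ) × ℕ => x.1.1.1.1.1 := g4.comp fst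
    exact primrec_int_mul.comp
      (pGAe (hc.comp k) (hty.comp k) (hst.comp k) (ci.comp fst) (cq.comp fst) (cs.comp fst) snd)
      (pEnt (hP.comp k) snd (cr.comp fst))
  · exact pGBe (hc.comp g4) (hty.comp g4) (hst.comp g4) ci cq cs cr

/-- the threefold sum in `E3`, `E4` -/
theorem pSum3 {β : Type*} [Primcodable β] {c : β → RC} {ty : β → TC} {T : β → IM} {w : β → ℕ}
    {f : β → ℕ → ℕ → ℕ → ℤ} (hc : Primrec c) (hty : Primrec ty) (hT : Primrec T)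
    (hw : Primrec w) (hf : Primrec fun x : β × ℕ × ℕ × ℕ => f x.1 x.2.1 x.2.2.1 x.2.2.2) :
    Primrec fun x => ∑ i ∈ Finset.range (c x).1.length, ∑ q ∈ Finset.range (tn (ty x) i),
      ∑ s ∈ Finset.range (cG (c x) i).length, ent (T x) (w x) (ix i q s) * f x i q s := by
  refine pSum (n := fun x => (c x).1.length) (f := fun (x : β) (i : ℕ) => ∑ q ∈ Finset.range (tn (ty x) i),
      ∑ s ∈ Finset.range (cG (c x) i).length, ent (T x) (w x) (ix i q s) * f x i q s)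
    (pNf hc) ?_
  refine pSum (n := fun y : β × ℕ => tn (ty y.1) y.2) (f := fun (y : β × ℕ) (q : ℕ) =>
      ∑ s ∈ Finset.range (cG (c y.1) y.2).length, ent (T y.1) (w y.1) (ix y.2 q s) *
        f y.1 y.2 q s) (pTn (hty.comp fst) snd) ?_
  refine pSum (n := fun y : (β × ℕ) × ℕ => (cG (c y.1.1) y.1.2).length) (f := fun (y : (β × ℕ) × ℕ) (s : ℕ) =>
      ent (T y.1.1) (w y.1.1) (ix y.1.2 y.2 s) * f y.1.1 y.1.2 y.2 s)
    (pDeg (hc.comp (fst.comp fst)) (snd.comp fst)) ?_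
  have k : Primrec fun x : ((β × ℕ) × ℕ) × ℕ => x.1.1.1 := fst.comp (fst.comp fst)
  have ci : Primrec fun x : ((β × ℕ) × ℕ) × ℕ => x.1.1.2 := snd.comp (fst.comp fst)
  have cq : Primrec fun x : ((β × ℕ) × ℕ) × ℕ => x.1.2 := snd.comp fst
  refine primrec_int_mul.comp (pEnt (hT.comp k) (hw.comp k) (pIx ci cq snd)) ?_
  exact hf.comp (Primrec.pair k (Primrec.pair ci (Primrec.pair cq snd)))

theorem pE3 {T T' : α → IM} (ha : Primrec a) (hb : Primrec b) (hc : Primrec c)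
    (hty : Primrec ty) (hst : Primrec st) (hT : Primrec T) (hT' : Primrec T') (hN : Primrec N) :
    PrimrecPred fun x => E3 (a x) (b x) (c x) (ty x) (st x) (T x) (T' x) (N x) := by
  unfold E3
  refine PPred.pAllLt (f := fun x => b x) (R := fun (x : α) (w : ℕ) => ∀ r < a x,
    (N x : ℤ) ∣ (∑ i ∈ Finset.range (c x).1.length, ∑ q ∈ Finset.range (tn (ty x) i),
      ∑ s ∈ Finset.range (cG (c x) i).length, ent (T x) w (ix i q s) *
        GAe (c x) (ty x) (st x) i q s r) - (cD (a x) (c x) : ℤ) * ent (T' x) w r) ?_ hb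
  refine PPred.pAllLt (f := fun y : α × ℕ => a y.1) (R := fun (y : α × ℕ) (r : ℕ) =>
    (N y.1 : ℤ) ∣ (∑ i ∈ Finset.range (c y.1).1.length, ∑ q ∈ Finset.range (tn (ty y.1) i),
      ∑ s ∈ Finset.range (cG (c y.1) i).length, ent (T y.1) y.2 (ix i q s) *
        GAe (c y.1) (ty y.1) (st y.1) i q s r) -
          (cD (a y.1) (c y.1) : ℤ) * ent (T' y.1) y.2 r) ?_ (ha.comp fst)
  have k : Primrec fun x : (α × ℕ) × ℕ => x.1.1 := fst.comp fst
  refine PPred.pDvd (hN.comp k) (primrec_int_sub.comp ?_ ?_)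
  · refine pSum3 (c := fun x : (α × ℕ) × ℕ => c x.1.1) (ty := fun x => ty x.1.1)
      (T := fun x => T x.1.1) (w := fun x => x.1.2)
      (f := fun x i q s => GAe (c x.1.1) (ty x.1.1) (st x.1.1) i q s x.2)
      (hc.comp k) (hty.comp k) (hT.comp k) (snd.comp fst) ?_
    exact pGAe (hc.comp (k.comp fst)) (hty.comp (k.comp fst)) (hst.comp (k.comp fst))
      (fst.comp snd) (fst.comp (snd.comp snd)) (snd.comp (snd.comp snd)) (snd.comp fst)
  · exact primrec_int_mul.comp (primrec_natCast.comp (pCD (ha.comp k) (hc.comp k)))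
      (pEnt (hT'.comp k) (snd.comp fst) snd)

theorem pE4 {T Bl : α → IM} (ha : Primrec a) (hb : Primrec b) (hc : Primrec c)
    (hty : Primrec ty) (hst : Primrec st) (hT : Primrec T) (hB : Primrec Bl) (hN : Primrec N) :
    PrimrecPred fun x => E4 (a x) (b x) (c x) (ty x) (st x) (T x) (Bl x) (N x) := by
  unfold E4
  refine PPred.pAllLt (f := fun x => b x) (R := fun (x : α) (w : ℕ) => ∀ r < b x,
    (N x : ℤ) ∣ (∑ i ∈ Finset.range (c x).1.length, ∑ q ∈ Finset.range (tn (ty x) i),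
      ∑ s ∈ Finset.range (cG (c x) i).length, ent (T x) w (ix i q s) *
        GBe (c x) (ty x) (st x) i q s r) - (cD (a x) (c x) : ℤ) * ent (Bl x) w r) ?_ hb
  refine PPred.pAllLt (f := fun y : α × ℕ => b y.1) (R := fun (y : α × ℕ) (r : ℕ) =>
    (N y.1 : ℤ) ∣ (∑ i ∈ Finset.range (c y.1).1.length, ∑ q ∈ Finset.range (tn (ty y.1) i),
      ∑ s ∈ Finset.range (cG (c y.1) i).length, ent (T y.1) y.2 (ix i q s) *
        GBe (c y.1) (ty y.1) (st y.1) i q s r) -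
          (cD (a y.1) (c y.1) : ℤ) * ent (Bl y.1) y.2 r) ?_ (hb.comp fst)
  have k : Primrec fun x : (α × ℕ) × ℕ => x.1.1 := fst.comp fst
  refine PPred.pDvd (hN.comp k) (primrec_int_sub.comp ?_ ?_)
  · refine pSum3 (c := fun x : (α × ℕ) × ℕ => c x.1.1) (ty := fun x => ty x.1.1)
      (T := fun x => T x.1.1) (w := fun x => x.1.2)
      (f := fun x i q s => GBe (c x.1.1) (ty x.1.1) (st x.1.1) i q s x.2)
      (hc.comp k) (hty.comp k) (hT.comp k) (snd.comp fst) ?_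
    exact pGBe (hc.comp (k.comp fst)) (hty.comp (k.comp fst)) (hst.comp (k.comp fst))
      (fst.comp snd) (fst.comp (snd.comp snd)) (snd.comp (snd.comp snd)) (snd.comp fst)
  · exact primrec_int_mul.comp (primrec_natCast.comp (pCD (ha.comp k) (hc.comp k)))
      (pEnt (hB.comp k) (snd.comp fst) snd)

theorem pStC (hc : Primrec c) (hty : Primrec ty) (hst : Primrec st) :
    PrimrecPred fun x => StC (c x) (ty x) (st x) := by
  unfold StC
  refine PPred.pAllLt (f := fun x => (c x).1.length) (R := fun (x : α) (i : ℕ) =>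
    (∀ p < tn (ty x) i, ∀ q < tn (ty x) i, td (ty x) i p ≤ td (ty x) i q →
      monP (cG (c x) i) ∣ toP (CR.poly.ent (sC (st x) i) p q)) ∧
    (∀ k < (cLa (c x) i).length, ∀ q < tn (ty x) i, (cLa (c x) i).getD k 0 ≤ td (ty x) i q →
      monP (cG (c x) i) ∣ toP (CR.poly.ent (sR (st x) i) k q)) ∧
    (∀ k < (cMu (c x) i).length, ∀ q < tn (ty x) i, (cMu (c x) i).getD k 0 ≤ td (ty x) i q →
      monP (cG (c x) i) ∣ toP (CR.poly.ent (sT (st x) i) k q))) ?_ (pNf hc)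
  have g1 : Primrec fun x : α × ℕ => x.1 := fst
  have g2 : Primrec fun x : (α × ℕ) × ℕ => x.1.1 := fst.comp fst
  have g3 : Primrec fun x : ((α × ℕ) × ℕ) × ℕ => x.1.1.1 := fst.comp (fst.comp fst)
  have ci : Primrec fun x : ((α × ℕ) × ℕ) × ℕ => x.1.1.2 := snd.comp (fst.comp fst)
  have cp : Primrec fun x : ((α × ℕ) × ℕ) × ℕ => x.1.2 := snd.comp fst
  have cq : Primrec fun x : ((α × ℕ) × ℕ) × ℕ => x.2 := snd
  refine PrimrecPred.and ?_ (PrimrecPred.and ?_ ?_)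
  · refine PPred.pAllLt (f := fun y : α × ℕ => tn (ty y.1) y.2) (R := fun (y : α × ℕ) (p : ℕ) =>
      ∀ q < tn (ty y.1) y.2, td (ty y.1) y.2 p ≤ td (ty y.1) y.2 q →
      monP (cG (c y.1) y.2) ∣ toP (CR.poly.ent (sC (st y.1) y.2) p q)) ?_
      (pTn (hty.comp g1) snd)
    refine PPred.pAllLt (f := fun y : (α × ℕ) × ℕ => tn (ty y.1.1) y.1.2) (R := fun (y : (α × ℕ) × ℕ) (q : ℕ) =>
      td (ty y.1.1) y.1.2 y.2 ≤ td (ty y.1.1) y.1.2 q →
      monP (cG (c y.1.1) y.1.2) ∣ toP (CR.poly.ent (sC (st y.1.1) y.1.2) y.2 q)) ?_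
      (pTn (hty.comp g2) (snd.comp fst))
    exact PPred.pImp (PPred.pNatLe (pTd (hty.comp g3) ci cp) (pTd (hty.comp g3) ci cq))
      (PolyC.pDvd (pCG (hc.comp g3) ci) (CR.poly.pEnt (pSC (hst.comp g3) ci) cp cq))
  · refine PPred.pAllLt (f := fun y : α × ℕ => (cLa (c y.1) y.2).length) (R := fun (y : α × ℕ) (p : ℕ) =>
      ∀ q < tn (ty y.1) y.2, (cLa (c y.1) y.2).getD p 0 ≤ td (ty y.1) y.2 q →
      monP (cG (c y.1) y.2) ∣ toP (CR.poly.ent (sR (st y.1) y.2) p q)) ?_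
      (list_length.comp (pCLa (hc.comp g1) snd))
    refine PPred.pAllLt (f := fun y : (α × ℕ) × ℕ => tn (ty y.1.1) y.1.2) (R := fun (y : (α × ℕ) × ℕ) (q : ℕ) =>
      (cLa (c y.1.1) y.1.2).getD y.2 0 ≤ td (ty y.1.1) y.1.2 q →
      monP (cG (c y.1.1) y.1.2) ∣ toP (CR.poly.ent (sR (st y.1.1) y.1.2) y.2 q)) ?_
      (pTn (hty.comp g2) (snd.comp fst))
    exact PPred.pImp (PPred.pNatLe (pNatGetD (pCLa (hc.comp g3) ci) cp) (pTd (hty.comp g3) ci cq))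
      (PolyC.pDvd (pCG (hc.comp g3) ci) (CR.poly.pEnt (pSR (hst.comp g3) ci) cp cq))
  · refine PPred.pAllLt (f := fun y : α × ℕ => (cMu (c y.1) y.2).length) (R := fun (y : α × ℕ) (p : ℕ) =>
      ∀ q < tn (ty y.1) y.2, (cMu (c y.1) y.2).getD p 0 ≤ td (ty y.1) y.2 q →
      monP (cG (c y.1) y.2) ∣ toP (CR.poly.ent (sT (st y.1) y.2) p q)) ?_
      (list_length.comp (pCMu (hc.comp g1) snd))
    refine PPred.pAllLt (f := fun y : (α × ℕ) × ℕ => tn (ty y.1.1) y.1.2) (R := fun (y : (α × ℕ) × ℕ) (q : ℕ) =>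
      (cMu (c y.1.1) y.1.2).getD y.2 0 ≤ td (ty y.1.1) y.1.2 q →
      monP (cG (c y.1.1) y.1.2) ∣ toP (CR.poly.ent (sT (st y.1.1) y.1.2) y.2 q)) ?_
      (pTn (hty.comp g2) (snd.comp fst))
    exact PPred.pImp (PPred.pNatLe (pNatGetD (pCMu (hc.comp g3) ci) cp) (pTd (hty.comp g3) ci cq))
      (PolyC.pDvd (pCG (hc.comp g3) ci) (CR.poly.pEnt (pST (hst.comp g3) ci) cp cq))

theorem pIdsB {Bm : α → IM} (ha : Primrec a) (hb : Primrec b) (hc : Primrec c)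
    (hty : Primrec ty) (hst : Primrec st) (hB : Primrec Bm) (hN : Primrec N) :
    PrimrecPred fun x => IdsB (a x) (b x) (c x) (ty x) (st x) (Bm x) (N x) := by
  unfold IdsB
  have f2 : Primrec fun x : (α × IM) × IM => x.1.1 := fst.comp fst
  have f3 : Primrec fun x : (α × IM) × ℕ => x.1.1 := fst.comp fst
  refine PrimrecPred.and ?_ (PrimrecPred.and ?_ ?_)
  · exact PPred.pEx (R := fun x R' => E1 (a x) (c x) (ty x) (st x) R' (N x))
      (f := fun x => PPred.matsN (a x) (cols (c x) (ty x)) (N x))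
      (pE1 (ha.comp fst) (hc.comp fst) (hty.comp fst) (hst.comp fst) snd (hN.comp fst))
      (PPred.pMatsN ha (pCols hc hty) hN)
  · exact PPred.pEx (R := fun (x : α) (Ps : IM) => E2 (a x) (b x) (c x) (ty x) (st x) Ps (N x))
      (f := fun x => PPred.matsN (a x) (b x) (N x))
      (pE2 (ha.comp fst) (hb.comp fst) (hc.comp fst) (hty.comp fst) (hst.comp fst) snd
        (hN.comp fst)) (PPred.pMatsN ha hb hN)
  · refine PPred.pEx (R := fun (x : α) (T : IM) => (∃ T' ∈ PPred.matsN (b x) (a x) (N x),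
        E3 (a x) (b x) (c x) (ty x) (st x) T T' (N x)) ∧
        ∃ l < N x ^ (b x ^ 2), E4 (a x) (b x) (c x) (ty x) (st x) T
          (mpow (b x) (Bm x) l) (N x))
      (f := fun x => PPred.matsN (b x) (cols (c x) (ty x)) (N x)) ?_
      (PPred.pMatsN hb (pCols hc hty) hN)
    refine PrimrecPred.and ?_ ?_
    · exact PPred.pEx (R := fun (y : α × IM) T' => E3 (a y.1) (b y.1) (c y.1) (ty y.1) (st y.1)
          y.2 T' (N y.1)) (f := fun y => PPred.matsN (b y.1) (a y.1) (N y.1))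
        (pE3 (ha.comp f2) (hb.comp f2) (hc.comp f2) (hty.comp f2) (hst.comp f2)
          (snd.comp fst) snd (hN.comp f2))
        (PPred.pMatsN (hb.comp fst) (ha.comp fst) (hN.comp fst))
    · exact PPred.pExLt (R := fun (y : α × IM) l => E4 (a y.1) (b y.1) (c y.1) (ty y.1)
          (st y.1) y.2 (mpow (b y.1) (Bm y.1) l) (N y.1)) (f := fun y => N y.1 ^ (b y.1 ^ 2))
        (pE4 (ha.comp f3) (hb.comp f3) (hc.comp f3) (hty.comp f3) (hst.comp f3)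
          (snd.comp fst) (pMpow (hb.comp f3) (hB.comp f3) snd) (hN.comp f3))
        (primrec_nat_pow.comp (hN.comp fst) (primrec_nat_pow.comp (hb.comp fst)
          (Primrec.const 2)))

end pr

end Pool.Agent.DEC.PD
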