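import Pool.Agent.DEC.Core

/-!
DEC project (MP_59dda0_an), P side: coordinates in `ℤ[θ] = AdjoinRoot g` (`g` monic), linear maps
between sums of blocks and `ℤ ^ a` as integer matrices.
-/

set_option autoImplicit false

open Matrix Polynomial

namespace Pool.Agent.DEC.PLam

/-! ### coordinates -/

section coord

variable {g : ℤ[X]} (hg : g.Monic)

/-- the coordinates with respect to `1, θ, θ ^ 2, ...` -/
noncomputable def lcf (z : Lam g) (u : ℕ) : ℤ := (AdjoinRoot.modByMonicHom hg z).coeff u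

theorem lcf_mk (p : ℤ[X]) (u : ℕ) : lcf hg (AdjoinRoot.mk g p) u = (p %ₘ g).coeff u := rfl

theorem lcf_add (z w : Lam g) (u : ℕ) : lcf hg (z + w) u = lcf hg z u + lcf hg w u := by
  unfold lcf
  rw [map_add, coeff_add]

theorem lcf_smul (n : ℤ) (z : Lam g) (u : ℕ) : lcf hg (n • z) u = n * lcf hg z u := by
  unfold lcf
  rw [map_smul, coeff_smul, smul_eq_mul]

theorem lcf_intCast_mul (n : ℤ) (z : Lam g) (u : ℕ) :
    lcf hg ((n : Lam g) * z) u = n * lcf hg z u := by
  rw [← zsmul_eq_mul, lcf_smul]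

theorem lcf_natCast_mul (n : ℕ) (z : Lam g) (u : ℕ) :
    lcf hg ((n : Lam g) * z) u = n * lcf hg z u := by
  have := lcf_intCast_mul hg (n : ℤ) z u
  rwa [Int.cast_natCast] at this

theorem lcf_zero (u : ℕ) : lcf hg (0 : Lam g) u = 0 := by
  unfold lcf
  rw [map_zero, coeff_zero]

theorem lcf_neg (z : Lam g) (u : ℕ) : lcf hg (-z) u = - lcf hg z u := by
  unfold lcf
  rw [map_neg, coeff_neg]

theorem lcf_sub (z w : Lam g) (u : ℕ) : lcf hg (z - w) u = lcf hg z u - lcf hg w u := by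
  unfold lcf
  rw [map_sub, coeff_sub]

theorem lcf_sum {ι : Type} (s : Finset ι) (f : ι → Lam g) (u : ℕ) :
    lcf hg (∑ i ∈ s, f i) u = ∑ i ∈ s, lcf hg (f i) u := by
  unfold lcf
  rw [map_sum, finsetSum_coeff]

theorem lcf_of_ge (z : Lam g) {u : ℕ} (h : g.natDegree ≤ u) : lcf hg z u = 0 := by
  obtain ⟨p, rfl⟩ := AdjoinRoot.mk_surjective z
  rw [lcf_mk]
  refine coeff_eq_zero_of_degree_lt ((degree_modByMonic_lt p hg).trans_le ?_)
  exact degree_le_natDegree.trans (by exact_mod_cast h)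

include hg in
theorem sum_lcf (z : Lam g) :
    ∑ u ∈ Finset.range g.natDegree, lcf hg z u • AdjoinRoot.root g ^ u = z := by
  obtain ⟨p, rfl⟩ := AdjoinRoot.mk_surjective z
  have h2 : AdjoinRoot.mk g (p %ₘ g) = AdjoinRoot.mk g p :=
    AdjoinRoot.mk_leftInverse hg (AdjoinRoot.mk g p)
  conv_rhs => rw [← h2, ← sum_modByMonic_coeff hg (degree_le_natDegree (p := g))]
  rw [map_sum, ← Fin.sum_univ_eq_sum_range
    (fun u => lcf hg (AdjoinRoot.mk g p) u • AdjoinRoot.root g ^ u)]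
  refine Finset.sum_congr rfl fun u _ => ?_
  rw [lcf_mk, ← C_mul_X_pow_eq_monomial, map_mul, map_pow, AdjoinRoot.mk_X, AdjoinRoot.mk_C,
    zsmul_eq_mul]
  congr 1

theorem lcf_ext {z w : Lam g} (h : ∀ u < g.natDegree, lcf hg z u = lcf hg w u) : z = w := by
  rw [← sum_lcf hg z, ← sum_lcf hg w]
  exact Finset.sum_congr rfl fun u hu => by rw [h u (Finset.mem_range.1 hu)]

theorem lcf_ext_iff {z w : Lam g} : z = w ↔ ∀ u < g.natDegree, lcf hg z u = lcf hg w u :=
  ⟨fun h u _ => by rw [h], lcf_ext hg⟩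

theorem lcf_pow {s : ℕ} (hs : s < g.natDegree) (u : ℕ) :
    lcf hg (AdjoinRoot.root g ^ s) u = if u = s then 1 else 0 := by
  have h1 : AdjoinRoot.root g ^ s = AdjoinRoot.mk g (X ^ s) := by
    rw [map_pow, AdjoinRoot.mk_X]
  have h2 : (X ^ s : ℤ[X]) %ₘ g = X ^ s := by
    rw [modByMonic_eq_self_iff hg, degree_X_pow, degree_eq_natDegree hg.ne_zero]
    exact_mod_cast hs
  rw [h1, lcf_mk, h2, coeff_X_pow]

theorem lcf_comb (c : ℕ → ℤ) (u : ℕ) :
    lcf hg (∑ s ∈ Finset.range g.natDegree, c s • AdjoinRoot.root g ^ s) u =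
      if u < g.natDegree then c u else 0 := by
  rw [lcf_sum]
  have h : ∀ s ∈ Finset.range g.natDegree, lcf hg (c s • AdjoinRoot.root g ^ s) u =
      if u = s then c s else 0 := by
    intro s hs
    rw [lcf_smul, lcf_pow hg (Finset.mem_range.1 hs)]
    split_ifs <;> simp
  rw [Finset.sum_congr rfl h, Finset.sum_ite_eq]
  simp

theorem exists_smul_iff (N : ℤ) (z : Lam g) :
    (∃ w : Lam g, z = N • w) ↔ ∀ u, N ∣ lcf hg z u := by
  constructor
  · rintro ⟨w, rfl⟩ u
    rw [lcf_smul]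
    exact dvd_mul_right _ _
  · intro h
    choose c hc using h
    refine ⟨∑ s ∈ Finset.range g.natDegree, c s • AdjoinRoot.root g ^ s, lcf_ext hg ?_⟩
    intro u hu
    rw [lcf_smul, lcf_comb, if_pos hu, hc u]

theorem exists_natCast_mul_iff (N : ℕ) (z : Lam g) :
    (∃ w : Lam g, z = (N : Lam g) * w) ↔ ∀ u, (N : ℤ) ∣ lcf hg z u := by
  rw [← exists_smul_iff hg]
  refine exists_congr fun w => ?_
  rw [zsmul_eq_mul, Int.cast_natCast]

include hg in
theorem root_pow_natDegree : AdjoinRoot.root g ^ g.natDegree =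
    - ∑ s ∈ Finset.range g.natDegree, g.coeff s • AdjoinRoot.root g ^ s := by
  have h := AdjoinRoot.eval₂_root g
  rw [eval₂_eq_sum_range, Finset.sum_range_succ, hg.coeff_natDegree, map_one, one_mul] at h
  have h2 : ∀ s, (AdjoinRoot.of g) (g.coeff s) * AdjoinRoot.root g ^ s =
      g.coeff s • AdjoinRoot.root g ^ s := by
    intro s
    rw [zsmul_eq_mul]
    congr 1
  simp_rw [h2] at h
  rw [eq_neg_iff_add_eq_zero, add_comm]
  exact h

end coord

/-! ### linear maps -/

section maps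

variable {g : ℤ[X]} (hg : g.Monic) {ι M : Type} [Fintype ι] [DecidableEq ι] [AddCommGroup M]

include hg in
theorem sum_single (v : ι → Lam g) :
    ∑ c, ∑ s ∈ Finset.range g.natDegree,
      lcf hg (v c) s • (Pi.single c (AdjoinRoot.root g ^ s) : ι → Lam g) = v := by
  conv_rhs => rw [← Finset.univ_sum_single v]
  refine Finset.sum_congr rfl fun c _ => ?_
  conv_rhs => rw [← sum_lcf hg (v c)]
  have h := map_sum (AddMonoidHom.single (fun _ : ι => Lam g) c)
    (fun s => lcf hg (v c) s • AdjoinRoot.root g ^ s) (Finset.range g.natDegree)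
  rw [AddMonoidHom.single_apply] at h
  rw [h]
  refine Finset.sum_congr rfl fun s _ => ?_
  rw [map_zsmul, AddMonoidHom.single_apply]

include hg in
theorem map_eq (P : (ι → Lam g) →ₗ[ℤ] M) (v : ι → Lam g) :
    P v = ∑ c, ∑ s ∈ Finset.range g.natDegree,
      lcf hg (v c) s • P (Pi.single c (AdjoinRoot.root g ^ s)) := by
  conv_lhs => rw [← sum_single hg v]
  simp_rw [map_sum, map_smul]

include hg in
theorem hom_ext {P Q : (ι → Lam g) →ₗ[ℤ] M}
    (h : ∀ c, ∀ s < g.natDegree, P (Pi.single c (AdjoinRoot.root g ^ s)) =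
      Q (Pi.single c (AdjoinRoot.root g ^ s))) : P = Q := by
  refine LinearMap.ext fun v => ?_
  rw [map_eq hg P, map_eq hg Q]
  exact Finset.sum_congr rfl fun c _ => Finset.sum_congr rfl fun s hs => by
    rw [h c s (Finset.mem_range.1 hs)]

/-- the linear map with given values on the basis -/
noncomputable def mkOut (p : ι → ℕ → M) : (ι → Lam g) →ₗ[ℤ] M where
  toFun v := ∑ c, ∑ s ∈ Finset.range g.natDegree, lcf hg (v c) s • p c s
  map_add' v w := by
    simp_rw [Pi.add_apply, lcf_add, add_smul, Finset.sum_add_distrib]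
  map_smul' n v := by
    simp_rw [Pi.smul_apply, lcf_smul, mul_smul, Finset.smul_sum, RingHom.id_apply]

theorem mkOut_single (p : ι → ℕ → M) (c : ι) {s : ℕ} (hs : s < g.natDegree) :
    mkOut hg p (Pi.single c (AdjoinRoot.root g ^ s)) = p c s := by
  change ∑ c', ∑ s' ∈ Finset.range g.natDegree,
    lcf hg ((Pi.single c (AdjoinRoot.root g ^ s) : ι → Lam g) c') s' • p c' s' = _
  rw [Finset.sum_eq_single c]
  · rw [Pi.single_eq_same, Finset.sum_eq_single s]
    · rw [lcf_pow hg hs, if_pos rfl, one_smul]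
    · intro s' _ h
      rw [lcf_pow hg hs, if_neg h, zero_smul]
    · intro h
      exact absurd (Finset.mem_range.2 hs) h
  · intro c' _ h
    rw [Pi.single_eq_of_ne h]
    exact Finset.sum_eq_zero fun s' _ => by rw [lcf_zero, zero_smul]
  · intro h
    exact absurd (Finset.mem_univ c) h

/-- the linear map to a sum of blocks with given coordinates -/
noncomputable def mkIn (g : ℤ[X]) {a : ℕ} (p : Fin a → ι → ℕ → ℤ) :
    (Fin a → ℤ) →ₗ[ℤ] (ι → Lam g) where
  toFun w c := ∑ s ∈ Finset.range g.natDegree, (∑ x, w x * p x c s) • AdjoinRoot.root g ^ s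
  map_add' v w := by
    funext c
    simp_rw [Pi.add_apply, add_mul, Finset.sum_add_distrib, add_smul, Finset.sum_add_distrib]
  map_smul' n v := by
    funext c
    simp_rw [Pi.smul_apply, RingHom.id_apply, smul_eq_mul, mul_assoc, ← Finset.mul_sum, mul_smul,
      Finset.smul_sum]

omit [Fintype ι] [DecidableEq ι] in
theorem lcf_mkIn {a : ℕ} (p : Fin a → ι → ℕ → ℤ) (w : Fin a → ℤ) (c : ι) (u : ℕ) :
    lcf hg (mkIn g p w c) u = if u < g.natDegree then ∑ x, w x * p x c u else 0 := by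
  change lcf hg (∑ s ∈ Finset.range g.natDegree,
    (∑ x, w x * p x c s) • AdjoinRoot.root g ^ s) u = _
  rw [lcf_comb]

omit [Fintype ι] [DecidableEq ι] in
theorem lcf_mkIn_single {a : ℕ} (p : Fin a → ι → ℕ → ℤ) (x : Fin a) (c : ι) {u : ℕ}
    (hu : u < g.natDegree) : lcf hg (mkIn g p (Pi.single x 1) c) u = p x c u := by
  rw [lcf_mkIn, if_pos hu, Finset.sum_eq_single x]
  · rw [Pi.single_eq_same, one_mul]
  · intro y _ h
    rw [Pi.single_eq_of_ne h, zero_mul]
  · intro h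
    exact absurd (Finset.mem_univ x) h

omit [Fintype ι] [DecidableEq ι] in
/-- coordinates of a linear map out of `ℤ ^ a` -/
theorem lcf_map {a : ℕ} (P : (Fin a → ℤ) →ₗ[ℤ] (ι → Lam g)) (w : Fin a → ℤ) (c : ι) (u : ℕ) :
    lcf hg (P w c) u = ∑ x, w x * lcf hg (P (Pi.single x 1) c) u := by
  have h : w = ∑ x, w x • (Pi.single x 1 : Fin a → ℤ) := by
    funext y
    simp [Finset.sum_apply, Pi.single_apply]
  conv_lhs => rw [h]
  rw [map_sum, Finset.sum_apply, lcf_sum]
  refine Finset.sum_congr rfl fun x _ => ?_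
  rw [map_smul, Pi.smul_apply, lcf_smul]

/-- values of a linear map to `ℤ ^ a` -/
theorem map_apply {a : ℕ} (P : (ι → Lam g) →ₗ[ℤ] (Fin a → ℤ)) (v : ι → Lam g) (x : Fin a) :
    P v x = ∑ c, ∑ s ∈ Finset.range g.natDegree,
      lcf hg (v c) s * P (Pi.single c (AdjoinRoot.root g ^ s)) x := by
  rw [map_eq hg P v, Finset.sum_apply]
  refine Finset.sum_congr rfl fun c _ => ?_
  rw [Finset.sum_apply]
  exact Finset.sum_congr rfl fun s _ => rfl

end maps

/-! ### multiplication by `x` -/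

section xl

variable {g : ℤ[X]} {γ : Type} [DecidableEq γ]

theorem xL_single (h : γ → ℕ) (c : γ) (t : Fin (h c)) (z : Lam g) :
    xL (AdjoinRoot.root g) h (Pi.single ⟨c, t⟩ z) =
      Pi.single ⟨c, t⟩ (AdjoinRoot.root g * z) +
        (if ht : (t : ℕ) + 1 < h c then Pi.single ⟨c, ⟨t + 1, ht⟩⟩ z else 0) := by
  funext ⟨c', t'⟩
  change AdjoinRoot.root g * (Pi.single (⟨c, t⟩ : Blk h) z : Blk h → Lam g) ⟨c', t'⟩ +
    (if hi : 0 < (t' : ℕ) then
      (Pi.single (⟨c, t⟩ : Blk h) z : Blk h → Lam g) ⟨c', ⟨t' - 1, by omega⟩⟩ else 0) =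
    (Pi.single (⟨c, t⟩ : Blk h) (AdjoinRoot.root g * z) : Blk h → Lam g) ⟨c', t'⟩ +
      (if ht : (t : ℕ) + 1 < h c then (Pi.single ⟨c, ⟨t + 1, ht⟩⟩ z : Blk h → Lam g) else 0)
        ⟨c', t'⟩
  congr 1
  · by_cases e : (⟨c', t'⟩ : Blk h) = ⟨c, t⟩
    · rw [e, Pi.single_eq_same, Pi.single_eq_same]
    · rw [Pi.single_eq_of_ne e, Pi.single_eq_of_ne e, mul_zero]
  · by_cases ec : c' = c
    · subst ec
      by_cases hi : 0 < (t' : ℕ)
      · rw [dif_pos hi]
        by_cases et : (t' : ℕ) = t + 1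
        · have h1 : (t : ℕ) + 1 < h c' := by omega
          have e1 : (⟨c', ⟨t' - 1, by omega⟩⟩ : Blk h) = ⟨c', t⟩ := by
            congr 1
            apply Fin.ext
            simp only
            omega
          have e2 : (⟨c', t'⟩ : Blk h) = ⟨c', ⟨t + 1, h1⟩⟩ := by
            congr 1
            apply Fin.ext
            exact et
          rw [dif_pos h1, e1, e2, Pi.single_eq_same, Pi.single_eq_same]
        · have e1 : (⟨c', ⟨t' - 1, by omega⟩⟩ : Blk h) ≠ ⟨c', t⟩ := by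
            intro e
            have := eq_of_heq (Sigma.mk.inj e).2
            have := congrArg Fin.val this
            simp only at this
            omega
          rw [Pi.single_eq_of_ne e1]
          split_ifs with h1
          · rw [Pi.single_eq_of_ne]
            intro e
            have := eq_of_heq (Sigma.mk.inj e).2
            exact et (congrArg Fin.val this)
          · rfl
      · rw [dif_neg hi]
        split_ifs with h1
        · rw [Pi.single_eq_of_ne]
          intro e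
          have := eq_of_heq (Sigma.mk.inj e).2
          have := congrArg Fin.val this
          simp only at this
          omega
        · rfl
    · have n1 : ∀ x y, (⟨c', x⟩ : Blk h) ≠ ⟨c, y⟩ := fun x y e => ec (Sigma.mk.inj e).1
      have l1 : (if hi : 0 < (t' : ℕ) then
          (Pi.single (⟨c, t⟩ : Blk h) z : Blk h → Lam g) ⟨c', ⟨t' - 1, by omega⟩⟩ else 0) = 0 := by
        split_ifs
        · rw [Pi.single_eq_of_ne (n1 _ _)]
        · rfl
      rw [l1]
      split_ifs with h1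
      · rw [Pi.single_eq_of_ne (n1 _ _)]
      · rfl

theorem xL_single_pow (hg : g.Monic) (h : γ → ℕ) (c : γ) (t : Fin (h c)) {s : ℕ}
    (hs : s < g.natDegree) :
    xL (AdjoinRoot.root g) h (Pi.single ⟨c, t⟩ (AdjoinRoot.root g ^ s)) =
      (if s + 1 < g.natDegree then Pi.single ⟨c, t⟩ (AdjoinRoot.root g ^ (s + 1)) else
        - ∑ u ∈ Finset.range g.natDegree,
          g.coeff u • (Pi.single ⟨c, t⟩ (AdjoinRoot.root g ^ u) : Blk h → Lam g)) +
        (if ht : (t : ℕ) + 1 < h c then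
          Pi.single ⟨c, ⟨t + 1, ht⟩⟩ (AdjoinRoot.root g ^ s) else 0) := by
  rw [xL_single]
  congr 1
  rw [← pow_succ']
  split_ifs with h1
  · rfl
  · have h2 : s + 1 = g.natDegree := by omega
    rw [h2, root_pow_natDegree hg]
    have h3 := map_sum (AddMonoidHom.single (fun _ : Blk h => Lam g) ⟨c, t⟩)
      (fun s => g.coeff s • AdjoinRoot.root g ^ s) (Finset.range g.natDegree)
    rw [AddMonoidHom.single_apply] at h3
    rw [Pi.single_neg, h3]
    congr 1
    refine Finset.sum_congr rfl fun s _ => ?_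
    rw [map_zsmul, AddMonoidHom.single_apply]

end xl

/-! ### the identities of a reference datum -/

section ids

variable {a : ℕ}

theorem comp_iff {g g' : ℤ[X]} (hg : g.Monic) (hg' : g'.Monic) {ι ι' : Type} [Fintype ι]
    [DecidableEq ι] [Fintype ι'] [DecidableEq ι'] (P : (ι → Lam g) →ₗ[ℤ] (Fin a → ℤ))
    (P' : (Fin a → ℤ) →ₗ[ℤ] (ι' → Lam g')) (L : (ι → Lam g) →ₗ[ℤ] (ι' → Lam g')) :
    (∀ v, P' (P v) = L v) ↔ ∀ c, ∀ s < g.natDegree, ∀ c', ∀ s' < g'.natDegree,
      ∑ k, P (Pi.single c (AdjoinRoot.root g ^ s)) k * lcf hg' (P' (Pi.single k 1) c') s' =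
        lcf hg' (L (Pi.single c (AdjoinRoot.root g ^ s)) c') s' := by
  constructor
  · intro h c s _ c' s' _
    rw [← h, lcf_map hg' P']
  · intro h v
    have h2 : P'.comp P = L := by
      refine hom_ext hg fun c s hs => ?_
      funext c'
      refine lcf_ext hg' fun s' hs' => ?_
      rw [← h c s hs c' s' hs', LinearMap.comp_apply, lcf_map hg' P']
    rw [← h2, LinearMap.comp_apply]

theorem P_P_iff {g : ℤ[X]} (hg : g.Monic) {ι : Type} [Fintype ι] [DecidableEq ι] (Δ : ℤ)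
    (P : (ι → Lam g) →ₗ[ℤ] (Fin a → ℤ)) (P' : (Fin a → ℤ) →ₗ[ℤ] (ι → Lam g)) :
    (∀ v, P' (P v) = Δ • v) ↔ ∀ c, ∀ s < g.natDegree, ∀ c', ∀ s' < g.natDegree,
      ∑ k, P (Pi.single c (AdjoinRoot.root g ^ s)) k * lcf hg (P' (Pi.single k 1) c') s' =
        if c' = c ∧ s' = s then Δ else 0 := by
  rw [show (∀ v, P' (P v) = Δ • v) ↔
      ∀ v, P' (P v) = (Δ • LinearMap.id : (ι → Lam g) →ₗ[ℤ] (ι → Lam g)) v from Iff.rfl,
    comp_iff hg hg]
  refine forall₂_congr fun c s => forall₂_congr fun hs c' => forall₂_congr fun s' hs' => ?_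
  have h : lcf hg ((Δ • LinearMap.id : (ι → Lam g) →ₗ[ℤ] (ι → Lam g))
      (Pi.single c (AdjoinRoot.root g ^ s)) c') s' = if c' = c ∧ s' = s then Δ else 0 := by
    change lcf hg (Δ • (Pi.single c (AdjoinRoot.root g ^ s) : ι → Lam g) c') s' = _
    rw [lcf_smul]
    by_cases e : c' = c
    · subst e
      rw [Pi.single_eq_same, lcf_pow hg hs]
      by_cases e2 : s' = s
      · rw [if_pos e2, if_pos ⟨rfl, e2⟩, mul_one]
      · rw [if_neg e2, if_neg (fun h => e2 h.2), mul_zero]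
    · rw [Pi.single_eq_of_ne e, lcf_zero, mul_zero, if_neg (fun h => e h.1)]
  rw [h]

theorem P_ne_iff {g g' : ℤ[X]} (hg : g.Monic) (hg' : g'.Monic) {ι ι' : Type} [Fintype ι]
    [DecidableEq ι] [Fintype ι'] [DecidableEq ι'] (P : (ι → Lam g) →ₗ[ℤ] (Fin a → ℤ))
    (P' : (Fin a → ℤ) →ₗ[ℤ] (ι' → Lam g')) :
    (∀ v, P' (P v) = 0) ↔ ∀ c, ∀ s < g.natDegree, ∀ c', ∀ s' < g'.natDegree,
      ∑ k, P (Pi.single c (AdjoinRoot.root g ^ s)) k * lcf hg' (P' (Pi.single k 1) c') s' = 0 := by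
  rw [show (∀ v, P' (P v) = 0) ↔
      ∀ v, P' (P v) = (0 : (ι → Lam g) →ₗ[ℤ] (ι' → Lam g')) v from Iff.rfl, comp_iff hg hg']
  refine forall₂_congr fun c s => forall₂_congr fun hs c' => forall₂_congr fun s' hs' => ?_
  rw [LinearMap.zero_apply, Pi.zero_apply, lcf_zero]

theorem P_x_iff {g : ℤ[X]} (hg : g.Monic) {γ : Type} [Fintype γ] [DecidableEq γ] (h : γ → ℕ)
    (P : (Blk h → Lam g) →ₗ[ℤ] (Fin a → ℤ)) (M : Matrix (Fin a) (Fin a) ℤ) :
    (∀ v, P (xL (AdjoinRoot.root g) h v) = P v ᵥ* M) ↔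
      ∀ (c : γ) (t : Fin (h c)), ∀ s < g.natDegree, ∀ x,
        (if s + 1 < g.natDegree then P (Pi.single ⟨c, t⟩ (AdjoinRoot.root g ^ (s + 1))) x else
          - ∑ u ∈ Finset.range g.natDegree,
            g.coeff u * P (Pi.single ⟨c, t⟩ (AdjoinRoot.root g ^ u)) x) +
          (if ht : (t : ℕ) + 1 < h c then
            P (Pi.single ⟨c, ⟨t + 1, ht⟩⟩ (AdjoinRoot.root g ^ s)) x else 0) =
        ∑ k, P (Pi.single ⟨c, t⟩ (AdjoinRoot.root g ^ s)) k * M k x := by
  have key : ∀ (c : γ) (t : Fin (h c)), ∀ s < g.natDegree, ∀ x,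
      P (xL (AdjoinRoot.root g) h (Pi.single ⟨c, t⟩ (AdjoinRoot.root g ^ s))) x =
      (if s + 1 < g.natDegree then P (Pi.single ⟨c, t⟩ (AdjoinRoot.root g ^ (s + 1))) x else
          - ∑ u ∈ Finset.range g.natDegree,
            g.coeff u * P (Pi.single ⟨c, t⟩ (AdjoinRoot.root g ^ u)) x) +
          (if ht : (t : ℕ) + 1 < h c then
            P (Pi.single ⟨c, ⟨t + 1, ht⟩⟩ (AdjoinRoot.root g ^ s)) x else 0) := by
    intro c t s hs x
    rw [xL_single_pow hg h c t hs, map_add, Pi.add_apply]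
    congr 1
    · split_ifs
      · rfl
      · rw [map_neg, map_sum, Pi.neg_apply, Finset.sum_apply]
        congr 1
        refine Finset.sum_congr rfl fun u _ => ?_
        rw [map_smul, Pi.smul_apply, smul_eq_mul]
    · split_ifs
      · rfl
      · rw [map_zero, Pi.zero_apply]
  constructor
  · intro hv c t s hs x
    rw [← key c t s hs x, hv]
    rfl
  · intro hv v
    have h2 : P.comp ((xL (AdjoinRoot.root g) h).restrictScalars ℤ) =
        (Matrix.toLin' Mᵀ).comp P := by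
      refine hom_ext hg fun c s hs => ?_
      obtain ⟨c, t⟩ := c
      funext x
      have h3 := hv c t s hs x
      rw [← key c t s hs x] at h3
      rw [LinearMap.comp_apply, LinearMap.comp_apply, Matrix.toLin'_apply,
        Matrix.mulVec_transpose]
      exact h3
    have h4 := LinearMap.congr_fun h2 v
    rw [LinearMap.comp_apply, LinearMap.comp_apply, Matrix.toLin'_apply,
      Matrix.mulVec_transpose] at h4
    exact h4

theorem P_sp_iff {f : ℕ} {g : Fin f → ℤ[X]} (hg : ∀ i, (g i).Monic) {ι : Fin f → Type}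
    [∀ i, Fintype (ι i)] [∀ i, DecidableEq (ι i)] (Δ : ℤ)
    (P : ∀ i, (ι i → Lam (g i)) →ₗ[ℤ] (Fin a → ℤ))
    (P' : ∀ i, (Fin a → ℤ) →ₗ[ℤ] (ι i → Lam (g i))) (M : Matrix (Fin a) (Fin a) ℤ) :
    (∀ v : Fin a → ℤ, ∑ i, P i (P' i (v ᵥ* M)) = Δ • (v ᵥ* M)) ↔ ∀ r x,
      ∑ i, ∑ c, ∑ s ∈ Finset.range (g i).natDegree,
        (∑ k, M r k * lcf (hg i) (P' i (Pi.single k 1) c) s) *
          P i (Pi.single c (AdjoinRoot.root (g i) ^ s)) x = Δ * M r x := by
  have key : ∀ r x, (∑ i, P i (P' i ((Pi.single r 1 : Fin a → ℤ) ᵥ* M))) x =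
      ∑ i, ∑ c, ∑ s ∈ Finset.range (g i).natDegree,
        (∑ k, M r k * lcf (hg i) (P' i (Pi.single k 1) c) s) *
          P i (Pi.single c (AdjoinRoot.root (g i) ^ s)) x := by
    intro r x
    rw [Finset.sum_apply]
    refine Finset.sum_congr rfl fun i _ => ?_
    rw [map_apply (hg i)]
    refine Finset.sum_congr rfl fun c _ => Finset.sum_congr rfl fun s _ => ?_
    rw [lcf_map (hg i)]
    congr 1
    refine Finset.sum_congr rfl fun k _ => ?_
    rw [Matrix.single_one_vecMul]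
    rfl
  constructor
  · intro h r x
    rw [← key, h, Matrix.single_one_vecMul]
    rfl
  · intro h v
    have h1 : ∀ r, ∑ i, P i (P' i ((Pi.single r 1 : Fin a → ℤ) ᵥ* M)) =
        Δ • ((Pi.single r 1 : Fin a → ℤ) ᵥ* M) := by
      intro r
      funext x
      rw [key, h, Matrix.single_one_vecMul]
      rfl
    have h2 : (∑ i, (P i).comp (P' i)).comp (Matrix.toLin' Mᵀ) = Δ • Matrix.toLin' Mᵀ := by
      refine LinearMap.pi_ext' fun r => LinearMap.ext_ring ?_
      have h3 := h1 r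
      rw [LinearMap.comp_apply, LinearMap.comp_apply, LinearMap.comp_apply, LinearMap.single_apply,
        LinearMap.smul_apply, Matrix.toLin'_apply, Matrix.mulVec_transpose, LinearMap.sum_apply]
      exact h3
    have h4 := LinearMap.congr_fun h2 v
    rw [LinearMap.comp_apply, LinearMap.smul_apply, Matrix.toLin'_apply,
      Matrix.mulVec_transpose, LinearMap.sum_apply] at h4
    exact h4

end ids

end Pool.Agent.DEC.PLam
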