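import Pool.Agent.DEC.PDefs

/-!
DEC project (MP_59dda0_an), P side: every reference datum has a code.
-/

set_option autoImplicit false

open Polynomial

namespace Pool.Agent.DEC.PRefC

open PD PolyC

/-- a code with prescribed entries in prescribed rows -/
theorem exists_rows {ι : Type} [Finite ι] (e : ι → ℕ) (he : Function.Injective e) (n : ℕ)
    (F : ι → Fin n → ℤ) : ∃ L : IM, ∀ (x : ι) (j : Fin n), ent L (e x) j = F x j := by
  classical
  obtain ⟨M, hM⟩ := (Set.finite_range e).bddAbove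
  refine ⟨mk (M + 1) n fun r j => if h : (∃ x, e x = r) ∧ j < n then
    F h.1.choose ⟨j, h.2⟩ else 0, ?_⟩
  intro x j
  have h1 : e x < M + 1 := Nat.lt_succ_of_le (hM ⟨x, rfl⟩)
  rw [ent_mk _ h1 j.2]
  have h2 : (∃ y, e y = e x) ∧ (j : ℕ) < n := ⟨⟨x, rfl⟩, j.2⟩
  rw [dif_pos h2]
  have h3 : h2.1.choose = x := he h2.1.choose_spec
  rw [h3]

/-- a code with prescribed entries in prescribed columns -/
theorem exists_cols {ι : Type} [Finite ι] (e : ι → ℕ) (he : Function.Injective e) (n : ℕ)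
    (F : ι → Fin n → ℤ) : ∃ L : IM, ∀ (x : ι) (j : Fin n), ent L j (e x) = F x j := by
  classical
  obtain ⟨M, hM⟩ := (Set.finite_range e).bddAbove
  refine ⟨mk n (M + 1) fun j r => if h : (∃ x, e x = r) ∧ j < n then
    F h.1.choose ⟨j, h.2⟩ else 0, ?_⟩
  intro x j
  have h1 : e x < M + 1 := Nat.lt_succ_of_le (hM ⟨x, rfl⟩)
  rw [ent_mk _ j.2 h1]
  have h2 : (∃ y, e y = e x) ∧ (j : ℕ) < n := ⟨⟨x, rfl⟩, j.2⟩
  rw [dif_pos h2]
  have h3 : h2.1.choose = x := he h2.1.choose_spec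
  rw [h3]

/-- the storage index of a basis vector -/
def bix {γ : Type} (e : γ → ℕ) {h : γ → ℕ} {d : ℕ} (x : Blk h × Fin d) : ℕ :=
  ix (e x.1.1) x.1.2 x.2

theorem bix_injective {γ : Type} {e : γ → ℕ} (he : Function.Injective e) {h : γ → ℕ} {d : ℕ} :
    Function.Injective (bix e : Blk h × Fin d → ℕ) := by
  rintro ⟨⟨k, t⟩, s⟩ ⟨⟨k', t'⟩, s'⟩ hx
  simp only [bix, ix, Nat.pair_eq_pair] at hx
  obtain ⟨h1, h2, h3⟩ := hx
  have h4 := he h1
  subst h4
  have h5 : t = t' := Fin.ext h2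
  have h6 : s = s' := Fin.ext h3
  rw [h5, h6]

variable {a b : ℕ} {A : Matrix (Fin a) (Fin a) ℕ} {B : Matrix (Fin b) (Fin b) ℕ}

/-- every reference datum has a code -/
theorem exists_codes (ρ : Ref A B) : ∃ c : RC, Codes c ρ := by
  classical
  choose G hG using fun i : Fin ρ.f => exists_monP (ρ.monic i)
  choose LP hLP using fun i : Fin ρ.f => exists_rows
    (bix (fun k : Fin (ρ.na i) => (k : ℕ)) : Blk (ρ.lam i) × Fin (G i).length → ℕ)
    (bix_injective Fin.val_injective) a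
    (fun x r => ρ.P i (Pi.single x.1 (ρ.th i ^ (x.2 : ℕ))) r)
  choose LP' hLP' using fun i : Fin ρ.f => exists_cols
    (bix (fun k : Fin (ρ.na i) => (k : ℕ)) : Blk (ρ.lam i) × Fin (G i).length → ℕ)
    (bix_injective Fin.val_injective) a
    (fun x r => co (ρ.monic i) (ρ.P' i (Pi.single r 1) x.1) (x.2 : ℕ))
  choose LQ hLQ using fun i : Fin ρ.f => exists_rows
    (bix (fun k : Fin (ρ.nb i) => (k : ℕ)) : Blk (ρ.mu i) × Fin (G i).length → ℕ)
    (bix_injective Fin.val_injective) b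
    (fun x r => ρ.Q i (Pi.single x.1 (ρ.th i ^ (x.2 : ℕ))) r)
  choose LQ' hLQ' using fun i : Fin ρ.f => exists_cols
    (bix (fun k : Fin (ρ.nb i) => (k : ℕ)) : Blk (ρ.mu i) × Fin (G i).length → ℕ)
    (bix_injective Fin.val_injective) b
    (fun x r => co (ρ.monic i) (ρ.Q' i (Pi.single r 1) x.1) (x.2 : ℕ))
  set Fs : Fin ρ.f → FC := fun i =>
    (G i, List.ofFn (ρ.lam i), List.ofFn (ρ.mu i), LP i, LP' i, LQ i, LQ' i) with hFs
  set c : RC := (List.ofFn Fs, ρ.Δ, ρ.q) with hc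
  have hfac : ∀ i : Fin ρ.f, fac c i = Fs i := by
    intro i
    show (List.ofFn Fs).getD (i : ℕ) _ = Fs i
    rw [List.getD_eq_getElem _ _ (by rw [List.length_ofFn]; exact i.2), List.getElem_ofFn]
  have hcG : ∀ i : Fin ρ.f, cG c i = G i := fun i => by rw [cG, hfac i]
  have hcLa : ∀ i : Fin ρ.f, cLa c i = List.ofFn (ρ.lam i) := fun i => by rw [cLa, hfac i]
  have hcMu : ∀ i : Fin ρ.f, cMu c i = List.ofFn (ρ.mu i) := fun i => by rw [cMu, hfac i]
  have hcP : ∀ i : Fin ρ.f, cP c i = LP i := fun i => by rw [cP, hfac i]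
  have hcP' : ∀ i : Fin ρ.f, cP' c i = LP' i := fun i => by rw [cP', hfac i]
  have hcQ : ∀ i : Fin ρ.f, cQ c i = LQ i := fun i => by rw [cQ, hfac i]
  have hcQ' : ∀ i : Fin ρ.f, cQ' c i = LQ' i := fun i => by rw [cQ', hfac i]
  refine ⟨c, ?_, ?_, ?_, ?_, ?_, ?_, rfl, rfl, ?_, ?_, ?_, ?_⟩
  · exact List.length_ofFn
  · intro i
    rw [hcG, hG]
  · intro i
    rw [hcLa, List.length_ofFn]
  · intro i
    rw [hcMu, List.length_ofFn]
  · intro i k
    rw [hcLa, List.getD_eq_getElem _ _ (by rw [List.length_ofFn]; exact k.2),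
      List.getElem_ofFn]
  · intro i k
    rw [hcMu, List.getD_eq_getElem _ _ (by rw [List.length_ofFn]; exact k.2),
      List.getElem_ofFn]
  · intro i k s hs r
    rw [hcG] at hs
    rw [hcP]
    exact (hLP i (k, ⟨s, hs⟩) r).symm
  · intro i k s hs r
    rw [hcG] at hs
    rw [hcP']
    exact (hLP' i (k, ⟨s, hs⟩) r).symm
  · intro i k s hs r
    rw [hcG] at hs
    rw [hcQ]
    exact (hLQ i (k, ⟨s, hs⟩) r).symm
  · intro i k s hs r
    rw [hcG] at hs
    rw [hcQ']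
    exact (hLQ' i (k, ⟨s, hs⟩) r).symm

end Pool.Agent.DEC.PRefC
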