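import Pool.Agent.DEC.PSemC

/-!
DEC project (MP_59dda0_an), P side: the finite search of `PSemC.semi_codes` is primitive recursive.
-/

set_option autoImplicit false

namespace Pool.Agent.DEC.PSemR

open Primrec Polynomial Pool.Agent.DEC Pool.Agent.DEC.PolyC Pool.Agent.DEC.PD
  Pool.Agent.DEC.PPred Pool.Agent.DEC.PSemC

/-- the finite search -/
def SemiC (a b : ℕ) (LB : IM) (c : RC) (k0 N : ℕ) : Prop :=
  ∃ ty ∈ tys a c, ∃ st ∈ sts c ty N,
    TrC8.trCc b k0 LB (cGs c) (tns ty) ∧ StC c ty st ∧ IdsC a b LB c ty st N ∧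
    PUniC2.UC a c ty st N (fun i => PBd.cUB (cG c i) (cDl a c) N)
      (fun i => PBd.cUL (cG c i) (cDl a c) N)

section pr

variable {α : Type*} [Primcodable α]

theorem pCGs {c : α → RC} (hc : Primrec c) : Primrec fun x => cGs (c x) :=
  Primrec.list_map (fst.comp hc) (fst.comp snd)

theorem pTns {ty : α → TC} (ht : Primrec ty) : Primrec fun x => tns (ty x) :=
  Primrec.list_map ht (list_length.comp snd)

theorem pTys {a : α → ℕ} {c : α → RC} (ha : Primrec a) (hc : Primrec c) :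
    Primrec fun x => tys (a x) (c x) :=
  Types8.pTypes (list_length.comp (fst.comp hc)) ha ha

theorem pSts {c : α → RC} {ty : α → TC} {N : α → ℕ} (hc : Primrec c) (ht : Primrec ty)
    (hN : Primrec N) : Primrec fun x => sts (c x) (ty x) (N x) := by
  refine Types8.pPiLists (f := fun x => (c x).1.length) (L := fun x i =>
    Types8.stL (Types8.pols (cG (c x) i).length (N x)) (tn (ty x) i)
      (cLa (c x) i).length (cMu (c x) i).length) (list_length.comp (fst.comp hc)) ?_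
  exact Types8.pStL (Types8.pPols (list_length.comp (PD.pCG (hc.comp fst) snd)) (hN.comp fst))
    (pTn (ht.comp fst) snd) (list_length.comp (pCLa (hc.comp fst) snd))
    (list_length.comp (pCMu (hc.comp fst) snd))

/-- entries of polynomial matrices -/
theorem pPEnt {M : α → PM} {i j : α → ℕ} (hM : Primrec M) (hi : Primrec i) (hj : Primrec j) :
    Primrec fun x => CR.poly.ent (M x) (i x) (j x) := CR.poly.pEnt hM hi hj

theorem pStC {c : α → RC} {ty : α → TC} {st : α → SC} (hc : Primrec c) (ht : Primrec ty)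
    (hst : Primrec st) : PrimrecPred fun x => StC (c x) (ty x) (st x) := by
  unfold StC
  refine pAllLt (R := fun x i =>
    (∀ p < tn (ty x) i, ∀ q < tn (ty x) i, td (ty x) i p ≤ td (ty x) i q →
      monP (cG (c x) i) ∣ toP (CR.poly.ent (sC (st x) i) p q)) ∧
    (∀ k < (cLa (c x) i).length, ∀ q < tn (ty x) i, (cLa (c x) i).getD k 0 ≤ td (ty x) i q →
      monP (cG (c x) i) ∣ toP (CR.poly.ent (sR (st x) i) k q)) ∧
    (∀ k < (cMu (c x) i).length, ∀ q < tn (ty x) i, (cMu (c x) i).getD k 0 ≤ td (ty x) i q →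
      monP (cG (c x) i) ∣ toP (CR.poly.ent (sT (st x) i) k q))) ?_
    (list_length.comp (fst.comp hc))
  have hx : Primrec fun q : ((α × ℕ) × ℕ) × ℕ => q.1.1.1 := fst.comp (fst.comp fst)
  have hi : Primrec fun q : ((α × ℕ) × ℕ) × ℕ => q.1.1.2 := snd.comp (fst.comp fst)
  have hp : Primrec fun q : ((α × ℕ) × ℕ) × ℕ => q.1.2 := snd.comp fst
  have hty : Primrec fun q : ((α × ℕ) × ℕ) × ℕ => ty q.1.1.1 := ht.comp hx
  have hsx : Primrec fun q : ((α × ℕ) × ℕ) × ℕ => st q.1.1.1 := hst.comp hx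
  have hcx : Primrec fun q : ((α × ℕ) × ℕ) × ℕ => c q.1.1.1 := hc.comp hx
  refine pAnd ?_ (pAnd ?_ ?_)
  · refine pAllLt (R := fun (p : α × ℕ) (p' : ℕ) => ∀ q < tn (ty p.1) p.2,
      td (ty p.1) p.2 p' ≤ td (ty p.1) p.2 q →
        monP (cG (c p.1) p.2) ∣ toP (CR.poly.ent (sC (st p.1) p.2) p' q)) ?_
      (pTn (ht.comp fst) snd)
    refine pAllLt (R := fun (p : (α × ℕ) × ℕ) (q : ℕ) =>
      td (ty p.1.1) p.1.2 p.2 ≤ td (ty p.1.1) p.1.2 q →
        monP (cG (c p.1.1) p.1.2) ∣ toP (CR.poly.ent (sC (st p.1.1) p.1.2) p.2 q)) ?_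
      (pTn (ht.comp (fst.comp fst)) (snd.comp fst))
    exact pImp (pNatLe (pTd hty hi hp) (pTd hty hi snd))
      (PolyC.pDvd (PD.pCG hcx hi) (pPEnt (pSC hsx hi) hp snd))
  · refine pAllLt (R := fun (p : α × ℕ) (k : ℕ) => ∀ q < tn (ty p.1) p.2,
      (cLa (c p.1) p.2).getD k 0 ≤ td (ty p.1) p.2 q →
        monP (cG (c p.1) p.2) ∣ toP (CR.poly.ent (sR (st p.1) p.2) k q)) ?_
      (list_length.comp (pCLa (hc.comp fst) snd))
    refine pAllLt (R := fun (p : (α × ℕ) × ℕ) (q : ℕ) =>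
      (cLa (c p.1.1) p.1.2).getD p.2 0 ≤ td (ty p.1.1) p.1.2 q →
        monP (cG (c p.1.1) p.1.2) ∣ toP (CR.poly.ent (sR (st p.1.1) p.1.2) p.2 q)) ?_
      (pTn (ht.comp (fst.comp fst)) (snd.comp fst))
    exact pImp (pNatLe (PD.pNatGetD (pCLa hcx hi) hp) (pTd hty hi snd))
      (PolyC.pDvd (PD.pCG hcx hi) (pPEnt (pSR hsx hi) hp snd))
  · refine pAllLt (R := fun (p : α × ℕ) (k : ℕ) => ∀ q < tn (ty p.1) p.2,
      (cMu (c p.1) p.2).getD k 0 ≤ td (ty p.1) p.2 q →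
        monP (cG (c p.1) p.2) ∣ toP (CR.poly.ent (sT (st p.1) p.2) k q)) ?_
      (list_length.comp (pCMu (hc.comp fst) snd))
    refine pAllLt (R := fun (p : (α × ℕ) × ℕ) (q : ℕ) =>
      (cMu (c p.1.1) p.1.2).getD p.2 0 ≤ td (ty p.1.1) p.1.2 q →
        monP (cG (c p.1.1) p.1.2) ∣ toP (CR.poly.ent (sT (st p.1.1) p.1.2) p.2 q)) ?_
      (pTn (ht.comp (fst.comp fst)) (snd.comp fst))
    exact pImp (pNatLe (PD.pNatGetD (pCMu hcx hi) hp) (pTd hty hi snd))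
      (PolyC.pDvd (PD.pCG hcx hi) (pPEnt (pST hsx hi) hp snd))

/-- the arguments of the finite search: `(a, b, LB, c, k0, N)` -/
abbrev Arg : Type := ℕ × ℕ × IM × RC × ℕ × ℕ

/-- **The finite search is primitive recursive**, given that `IdsC` is. -/
theorem pSemiC (hI : PrimrecPred fun q : (Arg × TC) × SC =>
      IdsC q.1.1.1 q.1.1.2.1 q.1.1.2.2.1 q.1.1.2.2.2.1 q.1.2 q.2 q.1.1.2.2.2.2.2) :
    PrimrecPred fun x : Arg => SemiC x.1 x.2.1 x.2.2.1 x.2.2.2.1 x.2.2.2.2.1 x.2.2.2.2.2 := by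
  have a1 : Primrec fun x : Arg => x.1 := fst
  have a2 : Primrec fun x : Arg => x.2.1 := fst.comp snd
  have a3 : Primrec fun x : Arg => x.2.2.1 := fst.comp (snd.comp snd)
  have a4 : Primrec fun x : Arg => x.2.2.2.1 := fst.comp (snd.comp (snd.comp snd))
  have a5 : Primrec fun x : Arg => x.2.2.2.2.1 := fst.comp (snd.comp (snd.comp (snd.comp snd)))
  have a6 : Primrec fun x : Arg => x.2.2.2.2.2 := snd.comp (snd.comp (snd.comp (snd.comp snd)))
  unfold SemiC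
  refine pEx (R := fun (x : Arg) (ty : TC) => ∃ st ∈ sts x.2.2.2.1 ty x.2.2.2.2.2,
    TrC8.trCc x.2.1 x.2.2.2.2.1 x.2.2.1 (cGs x.2.2.2.1) (tns ty) ∧ StC x.2.2.2.1 ty st ∧
      IdsC x.1 x.2.1 x.2.2.1 x.2.2.2.1 ty st x.2.2.2.2.2 ∧
      PUniC2.UC x.1 x.2.2.2.1 ty st x.2.2.2.2.2
        (fun i => PBd.cUB (cG x.2.2.2.1 i) (cDl x.1 x.2.2.2.1) x.2.2.2.2.2)
        (fun i => PBd.cUL (cG x.2.2.2.1 i) (cDl x.1 x.2.2.2.1) x.2.2.2.2.2)) ?_ (pTys a1 a4)
  refine pEx (R := fun (p : Arg × TC) (st : SC) =>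
    TrC8.trCc p.1.2.1 p.1.2.2.2.2.1 p.1.2.2.1 (cGs p.1.2.2.2.1) (tns p.2) ∧
      StC p.1.2.2.2.1 p.2 st ∧
      IdsC p.1.1 p.1.2.1 p.1.2.2.1 p.1.2.2.2.1 p.2 st p.1.2.2.2.2.2 ∧
      PUniC2.UC p.1.1 p.1.2.2.2.1 p.2 st p.1.2.2.2.2.2
        (fun i => PBd.cUB (cG p.1.2.2.2.1 i) (cDl p.1.1 p.1.2.2.2.1) p.1.2.2.2.2.2)
        (fun i => PBd.cUL (cG p.1.2.2.2.1 i) (cDl p.1.1 p.1.2.2.2.1) p.1.2.2.2.2.2)) ?_
    (pSts (a4.comp fst) snd (a6.comp fst))
  have hx : Primrec fun q : (Arg × TC) × SC => q.1.1 := fst.comp fst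
  have hty : Primrec fun q : (Arg × TC) × SC => q.1.2 := snd.comp fst
  have hst : Primrec fun q : (Arg × TC) × SC => q.2 := snd
  refine pAnd ?_ (pAnd ?_ (pAnd hI ?_))
  · exact TrC8.pTrCc (a2.comp hx) (a5.comp hx) (a3.comp hx) (pCGs (a4.comp hx)) (pTns hty)
  · exact pStC (a4.comp hx) hty hst
  · refine PUniC2.pUC (Bi := fun (q : (Arg × TC) × SC) i =>
        PBd.cUB (cG q.1.1.2.2.2.1 i) (cDl q.1.1.1 q.1.1.2.2.2.1) q.1.1.2.2.2.2.2)
      (Li := fun (q : (Arg × TC) × SC) i =>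
        PBd.cUL (cG q.1.1.2.2.2.1 i) (cDl q.1.1.1 q.1.1.2.2.2.1) q.1.1.2.2.2.2.2)
      (a1.comp hx) (a4.comp hx) hty hst (a6.comp hx) ?_ ?_
    · exact PBd.pCUB (PD.pCG ((a4.comp hx).comp fst) snd)
        (PUniC2.pCDl ((a1.comp hx).comp fst) ((a4.comp hx).comp fst)) ((a6.comp hx).comp fst)
    · exact PBd.pCUL (PD.pCG ((a4.comp hx).comp fst) snd)
        (PUniC2.pCDl ((a1.comp hx).comp fst) ((a4.comp hx).comp fst)) ((a6.comp hx).comp fst)

end pr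

end Pool.Agent.DEC.PSemR
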