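import Pool.Agent.DEC.Mat

/-!
# MP_59dda0_an, DEC: tools for primitive recursive predicates

Bounded quantifiers over numbers, factorials, divisibility, sums.
-/

set_option autoImplicit false

namespace Pool.Agent.DEC.PTool

open Primrec

section
variable {α β : Type*} [Primcodable α] [Primcodable β]

/-- bounded universal quantifier -/
theorem pAllLt {n : α → ℕ} {p : α → ℕ → Prop} (hn : Primrec n)
    (hp : PrimrecPred fun q : α × ℕ => p q.1 q.2) : PrimrecPred fun a => ∀ i < n a, p a i := by
  have h1 : PrimrecRel fun (i : ℕ) (a : α) => p a i := hp.comp (Primrec.pair snd fst)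
  have h2 := h1.forall_mem_list.comp (Primrec.list_range.comp hn) Primrec.id
  exact h2.of_eq fun a => by simp

/-- bounded existential quantifier -/
theorem pExLt {n : α → ℕ} {p : α → ℕ → Prop} (hn : Primrec n)
    (hp : PrimrecPred fun q : α × ℕ => p q.1 q.2) : PrimrecPred fun a => ∃ i < n a, p a i := by
  have h1 : PrimrecRel fun (i : ℕ) (a : α) => p a i := hp.comp (Primrec.pair snd fst)
  have h2 := h1.exists_mem_list.comp (Primrec.list_range.comp hn) Primrec.id
  exact h2.of_eq fun a => by simp

/-- implication -/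
theorem pImp {p q : α → Prop} (hp : PrimrecPred p) (hq : PrimrecPred q) :
    PrimrecPred fun a => p a → q a :=
  ((hp.not).or hq).of_eq fun a => by
    constructor
    · rintro (h | h) h'
      · exact absurd h' h
      · exact h
    · intro h
      by_cases h' : p a
      · exact Or.inr (h h')
      · exact Or.inl h'

/-- equivalence -/
theorem pIff {p q : α → Prop} (hp : PrimrecPred p) (hq : PrimrecPred q) :
    PrimrecPred fun a => (p a ↔ q a) :=
  ((pImp hp hq).and (pImp hq hp)).of_eq fun a => by
    constructor
    · rintro ⟨h1, h2⟩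
      exact ⟨h1, h2⟩
    · rintro ⟨h1, h2⟩
      exact ⟨h1, h2⟩

theorem pEqZ {f g : α → ℤ} (hf : Primrec f) (hg : Primrec g) : PrimrecPred fun a => f a = g a :=
  Primrec.eq.comp hf hg

theorem pEqN {f g : α → ℕ} (hf : Primrec f) (hg : Primrec g) : PrimrecPred fun a => f a = g a :=
  Primrec.eq.comp hf hg

theorem pLtN {f g : α → ℕ} (hf : Primrec f) (hg : Primrec g) : PrimrecPred fun a => f a < g a :=
  Primrec.nat_lt.comp hf hg

theorem pLeN {f g : α → ℕ} (hf : Primrec f) (hg : Primrec g) : PrimrecPred fun a => f a ≤ g a :=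
  Primrec.nat_le.comp hf hg

/-- divisibility of natural numbers -/
theorem pDvdN {f g : α → ℕ} (hf : Primrec f) (hg : Primrec g) : PrimrecPred fun a => f a ∣ g a := by
  have h : PrimrecPred fun a => g a % f a = 0 :=
    Primrec.eq.comp (Primrec.nat_mod.comp hg hf) (Primrec.const 0)
  exact h.of_eq fun a => (Nat.dvd_iff_mod_eq_zero).symm

/-- divisibility of integers by a natural number -/
theorem pDvdZ {f : α → ℕ} {g : α → ℤ} (hf : Primrec f) (hg : Primrec g) :
    PrimrecPred fun a => (f a : ℤ) ∣ g a := by
  have h := pDvdN hf (primrec_natAbs.comp hg)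
  exact h.of_eq fun a => Int.natCast_dvd.symm

/-- factorial -/
theorem pFact {f : α → ℕ} (hf : Primrec f) : Primrec fun a => Nat.factorial (f a) := by
  have h0 : Primrec Nat.factorial := by
    have h : Primrec fun n : ℕ => (Nat.rec 1 (fun k r => (k + 1) * r) n : ℕ) := by
      refine Primrec.nat_rec' (f := fun n : ℕ => n) (g := fun _ => 1)
        (h := fun (_ : ℕ) (p : ℕ × ℕ) => (p.1 + 1) * p.2) Primrec.id (Primrec.const 1) ?_
      exact Primrec.nat_mul.comp (Primrec.succ.comp (fst.comp snd)) (snd.comp snd)
    refine h.of_eq fun n => ?_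
    induction n with
    | zero => rfl
    | succ n ih => rw [Nat.factorial_succ, ← ih]
  exact h0.comp hf

theorem pPowN {f g : α → ℕ} (hf : Primrec f) (hg : Primrec g) : Primrec fun a => f a ^ g a :=
  primrec_nat_pow.comp hf hg

theorem pMulN {f g : α → ℕ} (hf : Primrec f) (hg : Primrec g) : Primrec fun a => f a * g a :=
  Primrec.nat_mul.comp hf hg

theorem pAddN {f g : α → ℕ} (hf : Primrec f) (hg : Primrec g) : Primrec fun a => f a + g a :=
  Primrec.nat_add.comp hf hg

/-- sums of natural numbers over ranges -/
theorem pSumN {n : α → ℕ} {f : α → ℕ → ℕ} (hn : Primrec n)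
    (hf : Primrec fun q : α × ℕ => f q.1 q.2) :
    Primrec fun a => ∑ i ∈ Finset.range (n a), f a i := by
  have h : Primrec fun a => (((List.range (n a)).map fun i => f a i).sum : ℕ) :=
    primrec_nat_sum.comp (Primrec.list_map (Primrec.list_range.comp hn) hf)
  refine h.of_eq fun a => ?_
  induction n a with
  | zero => simp
  | succ k ih => rw [List.range_succ, List.map_append, List.sum_append, ih,
      Finset.sum_range_succ]; simp

/-- sums of integers over ranges (tuple form) -/
theorem pSumZ {n : α → ℕ} {f : α → ℕ → ℤ} (hn : Primrec n)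
    (hf : Primrec fun q : α × ℕ => f q.1 q.2) :
    Primrec fun a => ∑ i ∈ Finset.range (n a), f a i :=
  pSum (n := n) (f := f) hn hf

theorem pIteZ {p : α → Prop} [DecidablePred p] {f g : α → ℤ} (hp : PrimrecPred p)
    (hf : Primrec f) (hg : Primrec g) : Primrec fun a => if p a then f a else g a :=
  Primrec.ite hp hf hg

theorem pIteN {p : α → Prop} [DecidablePred p] {f g : α → ℕ} (hp : PrimrecPred p)
    (hf : Primrec f) (hg : Primrec g) : Primrec fun a => if p a then f a else g a :=
  Primrec.ite hp hf hg

theorem pGetD {γ : Type*} [Primcodable γ] {l : α → List γ} {i : α → ℕ} (c : γ) (hl : Primrec l)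
    (hi : Primrec i) : Primrec fun a => (l a).getD (i a) c :=
  (Primrec.list_getD c).comp hl hi

theorem pPair3 {f g h : α → ℕ} (hf : Primrec f) (hg : Primrec g) (hh : Primrec h) :
    Primrec fun a => Nat.pair (f a) (Nat.pair (g a) (h a)) :=
  Primrec₂.natPair.comp hf (Primrec₂.natPair.comp hg hh)

end

end Pool.Agent.DEC.PTool
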