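import Pool.Agent.DEC.PValid
import Pool.Agent.DEC.PTool
import Pool.Agent.DEC.Irr

/-!
# MP_59dda0_an, DEC, P side: the valid codes of reference data form a primitive recursive set

`pIrr`: irreducibility of `monP G` is a bounded check; `pValid`: `Valid` is primitive recursive.
-/

set_option autoImplicit false

namespace Pool.Agent.DEC.PValidRE

open Primrec Polynomial PD PolyC PTool

section
variable {α : Type*} [Primcodable α]

/-! ### irreducibility -/

/-- the list of all coefficients of `monP G` -/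
def full (G : List ℤ) : List ℤ := G ++ [1]

theorem full_getD (G : List ℤ) (i : ℕ) :
    (full G).getD i 0 = (if i = G.length then 1 else 0) + G.getD i 0 := by
  unfold full
  rcases lt_trichotomy i G.length with h | h | h
  · rw [List.getD_append _ _ _ _ h, if_neg h.ne, zero_add]
  · subst h
    rw [List.getD_append_right _ _ _ _ le_rfl, Nat.sub_self, if_pos rfl,
      List.getD_eq_default G _ le_rfl]
    rfl
  · rw [List.getD_append_right _ _ _ _ h.le, if_neg h.ne', List.getD_eq_default G _ h.le,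
      List.getD_eq_default _ _ (by simp; omega)]
    rfl

theorem toP_full (G : List ℤ) : Irr.toP (full G) = monP G := by
  ext i
  rw [Irr.coeff_toP, full_getD]
  unfold monP
  rw [coeff_add, coeff_X_pow, coeff_toP]

theorem toP_eq (l : List ℤ) : Irr.toP l = toP l := by
  ext i
  rw [Irr.coeff_toP, coeff_toP]

theorem irr_monP (G : List ℤ) : Irreducible (monP G) ↔
    toP (full G) ≠ toP [1] ∧
      ∀ u ∈ vecs ((full G).length + 1) (Irr.bd (full G)),
        ∀ v ∈ vecs ((full G).length + 1) (Irr.bd (full G)),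
          toP (pmul u v) ≠ toP (full G) ∨ ((∀ i < u.length, i = 0 ∨ u.getD i 0 = 0) ∨
            (∀ i < v.length, i = 0 ∨ v.getD i 0 = 0)) := by
  have hm : (Irr.toP (full G)).Monic := by rw [toP_full]; exact monP_monic G
  have h1 := Irr.irr_iff (full G)
  have hG : Irreducible (Irr.toP (full G)) ↔
      Irreducible ((Irr.toP (full G)).map (Int.castRingHom ℚ)) :=
    hm.irreducible_iff_irreducible_map_fraction_map (K := ℚ)
  rw [← hG] at h1
  have h2 : Irreducible (monP G) ↔ (Irr.toP (full G)).Monic ∧ Irreducible (Irr.toP (full G)) := by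
    rw [toP_full]
    exact ⟨fun h => ⟨monP_monic G, h⟩, fun h => h.2⟩
  rw [h2, h1, and_iff_right hm]
  have h3 : toP [(1 : ℤ)] = 1 := by simp
  rw [h3, ← toP_eq]
  refine and_congr_right fun _ => forall_congr' fun u => forall_congr' fun _ =>
    forall_congr' fun v => forall_congr' fun _ => ?_
  rw [toP_pmul, ← toP_eq, ← toP_eq, Irr.natDegree_zero_iff, Irr.natDegree_zero_iff]

theorem pFull : Primrec full := list_append.comp Primrec.id (Primrec.const [1])

theorem pDeg0 {u : α → List ℤ} (hu : Primrec u) :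
    PrimrecPred fun x => ∀ i < (u x).length, i = 0 ∨ (u x).getD i 0 = 0 :=
  PTool.pAllLt (p := fun x i => i = 0 ∨ (u x).getD i 0 = 0) (list_length.comp hu)
    ((Primrec.eq.comp snd (Primrec.const 0)).or
      (Primrec.eq.comp (PolyC.pGetD (hu.comp fst) snd) (Primrec.const 0)))

/-- irreducibility of monic polynomials is a primitive recursive predicate of the code -/
theorem pIrr {G : α → List ℤ} (hG : Primrec G) :
    PrimrecPred fun x => Irreducible (monP (G x)) := by
  have hF : Primrec fun x => full (G x) := pFull.comp hG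
  have hv : Primrec fun x => vecs ((full (G x)).length + 1) (Irr.bd (full (G x))) :=
    primrec_vecs.comp (Primrec.succ.comp (list_length.comp hF)) (Irr.primrec_bd.comp hF)
  have h1 : PrimrecPred fun x => toP (full (G x)) ≠ toP [1] :=
    (pPolyEq hF (Primrec.const [1])).not
  have h2 : PrimrecPred fun p : (α × List ℤ) × List ℤ =>
      toP (pmul p.1.2 p.2) ≠ toP (full (G p.1.1)) ∨
        ((∀ i < p.1.2.length, i = 0 ∨ p.1.2.getD i 0 = 0) ∨
          (∀ i < p.2.length, i = 0 ∨ p.2.getD i 0 = 0)) :=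
    ((pPolyEq (pPmul.comp (snd.comp fst) snd) (hF.comp (fst.comp fst))).not).or
      ((pDeg0 (snd.comp fst)).or (pDeg0 snd))
  have h3 : PrimrecPred fun p : α × List ℤ =>
      ∀ v ∈ vecs ((full (G p.1)).length + 1) (Irr.bd (full (G p.1))),
        toP (pmul p.2 v) ≠ toP (full (G p.1)) ∨
        ((∀ i < p.2.length, i = 0 ∨ p.2.getD i 0 = 0) ∨
          (∀ i < v.length, i = 0 ∨ v.getD i 0 = 0)) :=
    PPred.pAll (R := fun (p : α × List ℤ) (v : List ℤ) =>
      toP (pmul p.2 v) ≠ toP (full (G p.1)) ∨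
        ((∀ i < p.2.length, i = 0 ∨ p.2.getD i 0 = 0) ∨
          (∀ i < v.length, i = 0 ∨ v.getD i 0 = 0))) h2 (hv.comp fst)
  have h4 : PrimrecPred fun x => ∀ u ∈ vecs ((full (G x)).length + 1) (Irr.bd (full (G x))),
      ∀ v ∈ vecs ((full (G x)).length + 1) (Irr.bd (full (G x))),
        toP (pmul u v) ≠ toP (full (G x)) ∨
        ((∀ i < u.length, i = 0 ∨ u.getD i 0 = 0) ∨
          (∀ i < v.length, i = 0 ∨ v.getD i 0 = 0)) :=
    PPred.pAll (R := fun (x : α) (u : List ℤ) =>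
      ∀ v ∈ vecs ((full (G x)).length + 1) (Irr.bd (full (G x))),
        toP (pmul u v) ≠ toP (full (G x)) ∨
        ((∀ i < u.length, i = 0 ∨ u.getD i 0 = 0) ∨
          (∀ i < v.length, i = 0 ∨ v.getD i 0 = 0))) h3 hv
  exact (h1.and h4).of_eq fun x => (irr_monP (G x)).symm

/-! ### the constant of the box lemma -/

theorem pQofC {G : α → List ℤ} (hG : Primrec G) : Primrec fun x => qOfC (G x) := by
  unfold qOfC
  have hl : Primrec fun x => (G x).length := list_length.comp hG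
  refine pFact (pPowN (pMulN (pMulN (Primrec.const 16) hl) (pPowN (pAddN (Primrec.const 1)
    (pSumN (f := fun x i => ((G x).getD i 0).natAbs) hl ?_)) hl)) hl)
  exact primrec_natAbs.comp (PolyC.pGetD (hG.comp fst) snd)

/-! ### the identities of a side -/

theorem pBodyX {G : α → List ℤ} {h : α → List ℕ} {P M : α → IM} {a k t s r : α → ℕ}
    (hG : Primrec G) (hh : Primrec h) (hP : Primrec P) (hM : Primrec M) (ha : Primrec a)
    (hk : Primrec k) (ht : Primrec t) (hs : Primrec s) (hr : Primrec r) :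
    PrimrecPred fun x =>
      (if s x + 1 < (G x).length then ent (P x) (ix (k x) (t x) (s x + 1)) (r x) else
        - ∑ u ∈ Finset.range (G x).length, (G x).getD u 0 * ent (P x) (ix (k x) (t x) u) (r x)) +
      (if t x + 1 < (h x).getD (k x) 0 then ent (P x) (ix (k x) (t x + 1) (s x)) (r x) else 0) =
        ∑ r' ∈ Finset.range (a x), ent (P x) (ix (k x) (t x) (s x)) r' * ent (M x) r' (r x) := by
  refine pEqZ (primrec_int_add.comp (pIteZ ?_ ?_ ?_) (pIteZ ?_ ?_ ?_)) ?_
  · exact pLtN (Primrec.succ.comp hs) (list_length.comp hG)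
  · exact pEnt hP (pIx hk ht (Primrec.succ.comp hs)) hr
  · refine primrec_int_neg.comp (pSumZ (f := fun x u =>
      (G x).getD u 0 * ent (P x) (ix (k x) (t x) u) (r x)) (list_length.comp hG) ?_)
    exact primrec_int_mul.comp (PolyC.pGetD (hG.comp fst) snd)
      (pEnt (hP.comp fst) (pIx (hk.comp fst) (ht.comp fst) snd) (hr.comp fst))
  · exact pLtN (Primrec.succ.comp ht) (pNatGetD hh hk)
  · exact pEnt hP (pIx hk (Primrec.succ.comp ht) hs) hr
  · exact Primrec.const 0
  · refine pSumZ (f := fun x r' => ent (P x) (ix (k x) (t x) (s x)) r' * ent (M x) r' (r x)) ha ?_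
    exact primrec_int_mul.comp
      (pEnt (hP.comp fst) (pIx (hk.comp fst) (ht.comp fst) (hs.comp fst)) snd)
      (pEnt (hM.comp fst) snd (hr.comp fst))

theorem pBodyP {P P' : α → IM} {a Dl i k t s i' k' t' s' : α → ℕ}
    (hP : Primrec P) (hP' : Primrec P') (ha : Primrec a) (hD : Primrec Dl)
    (hi : Primrec i) (hk : Primrec k) (ht : Primrec t) (hs : Primrec s)
    (hi' : Primrec i') (hk' : Primrec k') (ht' : Primrec t') (hs' : Primrec s') :
    PrimrecPred fun x =>
      ∑ r ∈ Finset.range (a x), ent (P x) (ix (k x) (t x) (s x)) r *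
        ent (P' x) r (ix (k' x) (t' x) (s' x)) =
        if i x = i' x ∧ k x = k' x ∧ t x = t' x ∧ s x = s' x then (Dl x : ℤ) else 0 := by
  refine pEqZ (pSumZ (f := fun x r => ent (P x) (ix (k x) (t x) (s x)) r *
        ent (P' x) r (ix (k' x) (t' x) (s' x))) ha ?_) (pIteZ ?_ ?_ (Primrec.const 0))
  · exact primrec_int_mul.comp
      (pEnt (hP.comp fst) (pIx (hk.comp fst) (ht.comp fst) (hs.comp fst)) snd)
      (pEnt (hP'.comp fst) snd (pIx (hk'.comp fst) (ht'.comp fst) (hs'.comp fst)))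
  · exact (pEqN hi hi').and ((pEqN hk hk').and ((pEqN ht ht').and (pEqN hs hs')))
  · exact primrec_natCast.comp hD

theorem pBodySp {G : α → ℕ → List ℤ} {h : α → ℕ → List ℕ} {P P' : α → ℕ → IM} {Ma : α → IM}
    {a f Dl r z : α → ℕ} (hG : Primrec₂ G) (hh : Primrec₂ h) (hP : Primrec₂ P)
    (hP' : Primrec₂ P') (hM : Primrec Ma) (ha : Primrec a) (hf : Primrec f) (hD : Primrec Dl)
    (hr : Primrec r) (hz : Primrec z) :
    PrimrecPred fun x =>
      ∑ i ∈ Finset.range (f x), ∑ k ∈ Finset.range (h x i).length,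
        ∑ t ∈ Finset.range ((h x i).getD k 0), ∑ s ∈ Finset.range (G x i).length,
          (∑ r' ∈ Finset.range (a x), ent (Ma x) (r x) r' * ent (P' x i) r' (ix k t s)) *
            ent (P x i) (ix k t s) (z x) = (Dl x : ℤ) * ent (Ma x) (r x) (z x) := by
  refine pEqZ (pSumZ (f := fun x i => ∑ k ∈ Finset.range (h x i).length,
        ∑ t ∈ Finset.range ((h x i).getD k 0), ∑ s ∈ Finset.range (G x i).length,
          (∑ r' ∈ Finset.range (a x), ent (Ma x) (r x) r' * ent (P' x i) r' (ix k t s)) *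
            ent (P x i) (ix k t s) (z x)) hf ?_)
    (primrec_int_mul.comp (primrec_natCast.comp hD) (pEnt hM hr hz))
  have h1 : Primrec fun y : α × ℕ => h y.1 y.2 := hh.comp fst snd
  have g1 : Primrec fun y : α × ℕ => G y.1 y.2 := hG.comp fst snd
  have p1 : Primrec fun y : α × ℕ => P y.1 y.2 := hP.comp fst snd
  have q1 : Primrec fun y : α × ℕ => P' y.1 y.2 := hP'.comp fst snd
  refine pSumZ (n := fun y : α × ℕ => (h y.1 y.2).length) (f := fun (y : α × ℕ) k =>
        ∑ t ∈ Finset.range ((h y.1 y.2).getD k 0), ∑ s ∈ Finset.range (G y.1 y.2).length,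
          (∑ r' ∈ Finset.range (a y.1), ent (Ma y.1) (r y.1) r' *
            ent (P' y.1 y.2) r' (ix k t s)) *
            ent (P y.1 y.2) (ix k t s) (z y.1)) (list_length.comp h1) ?_
  refine pSumZ (n := fun y : (α × ℕ) × ℕ => (h y.1.1 y.1.2).getD y.2 0)
    (f := fun (y : (α × ℕ) × ℕ) t => ∑ s ∈ Finset.range (G y.1.1 y.1.2).length,
          (∑ r' ∈ Finset.range (a y.1.1), ent (Ma y.1.1) (r y.1.1) r' *
            ent (P' y.1.1 y.1.2) r' (ix y.2 t s)) *
            ent (P y.1.1 y.1.2) (ix y.2 t s) (z y.1.1)) (pNatGetD (h1.comp fst) snd) ?_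
  refine pSumZ (n := fun y : ((α × ℕ) × ℕ) × ℕ => (G y.1.1.1 y.1.1.2).length)
    (f := fun (y : ((α × ℕ) × ℕ) × ℕ) s =>
          (∑ r' ∈ Finset.range (a y.1.1.1), ent (Ma y.1.1.1) (r y.1.1.1) r' *
            ent (P' y.1.1.1 y.1.1.2) r' (ix y.1.2 y.2 s)) *
            ent (P y.1.1.1 y.1.1.2) (ix y.1.2 y.2 s) (z y.1.1.1))
    (list_length.comp (g1.comp (fst.comp fst))) ?_
  have f3 : Primrec fun w : (((α × ℕ) × ℕ) × ℕ) × ℕ => w.1.1.1 := fst.comp (fst.comp fst)
  have f4 : Primrec fun w : (((α × ℕ) × ℕ) × ℕ) × ℕ => w.1.1.1.1 := fst.comp f3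
  have hk : Primrec fun w : (((α × ℕ) × ℕ) × ℕ) × ℕ => w.1.1.2 := snd.comp (fst.comp fst)
  have ht : Primrec fun w : (((α × ℕ) × ℕ) × ℕ) × ℕ => w.1.2 := snd.comp fst
  refine primrec_int_mul.comp ?_ (pEnt (p1.comp f3) (pIx hk ht snd) (hz.comp f4))
  refine pSumZ (n := fun y : (((α × ℕ) × ℕ) × ℕ) × ℕ => a y.1.1.1.1)
    (f := fun (y : (((α × ℕ) × ℕ) × ℕ) × ℕ) r' => ent (Ma y.1.1.1.1) (r y.1.1.1.1) r' *
            ent (P' y.1.1.1.1 y.1.1.1.2) r' (ix y.1.1.2 y.1.2 y.2)) (ha.comp f4) ?_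
  exact primrec_int_mul.comp (pEnt (hM.comp (f4.comp fst)) (hr.comp (f4.comp fst)) snd)
    (pEnt (q1.comp (f3.comp fst)) snd (pIx (hk.comp fst) (ht.comp fst) (snd.comp fst)))

theorem sideC_iff {a : ℕ} {M Ma : ℕ → ℕ → ℤ} {f : ℕ}
    {G : ℕ → List ℤ} {h : ℕ → List ℕ} {P P' : ℕ → IM} {Dl : ℕ} :
    SideC a M Ma f G h P P' Dl ↔
      (∀ i < f, ∀ k < (h i).length, 0 < (h i).getD k 0) ∧
      (∀ i < f, ∀ k < (h i).length, ∀ t < (h i).getD k 0, ∀ s < (G i).length, ∀ r < a,
        (if s + 1 < (G i).length then ent (P i) (ix k t (s + 1)) r else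
          - ∑ u ∈ Finset.range (G i).length, (G i).getD u 0 * ent (P i) (ix k t u) r) +
        (if t + 1 < (h i).getD k 0 then ent (P i) (ix k (t + 1) s) r else 0) =
          ∑ r' ∈ Finset.range a, ent (P i) (ix k t s) r' * M r' r) ∧
      (∀ i < f, ∀ k < (h i).length, ∀ t < (h i).getD k 0, ∀ s < (G i).length,
        ∀ i' < f, ∀ k' < (h i').length, ∀ t' < (h i').getD k' 0, ∀ s' < (G i').length,
          ∑ r ∈ Finset.range a, ent (P i) (ix k t s) r * ent (P' i') r (ix k' t' s') =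
            if i = i' ∧ k = k' ∧ t = t' ∧ s = s' then (Dl : ℤ) else 0) ∧
      (∀ r < a, ∀ x < a, ∑ i ∈ Finset.range f, ∑ k ∈ Finset.range (h i).length,
        ∑ t ∈ Finset.range ((h i).getD k 0), ∑ s ∈ Finset.range (G i).length,
          (∑ r' ∈ Finset.range a, Ma r r' * ent (P' i) r' (ix k t s)) * ent (P i) (ix k t s) x =
            (Dl : ℤ) * Ma r x) :=
  ⟨fun H => ⟨H.pos, H.x, H.p, H.sp⟩, fun H => ⟨H.1, H.2.1, H.2.2.1, H.2.2.2⟩⟩

theorem pSideC {a f Dl : α → ℕ} {M Ma : α → IM} {G : α → ℕ → List ℤ} {h : α → ℕ → List ℕ}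
    {P P' : α → ℕ → IM} (ha : Primrec a) (hM : Primrec M) (hMa : Primrec Ma) (hf : Primrec f)
    (hG : Primrec₂ G) (hh : Primrec₂ h) (hP : Primrec₂ P) (hP' : Primrec₂ P')
    (hD : Primrec Dl) :
    PrimrecPred fun x =>
      SideC (a x) (ent (M x)) (ent (Ma x)) (f x) (G x) (h x) (P x) (P' x) (Dl x) := by
  have h1 : Primrec fun y : α × ℕ => h y.1 y.2 := hh.comp fst snd
  have g1 : Primrec fun y : α × ℕ => G y.1 y.2 := hG.comp fst snd
  have p1 : Primrec fun y : α × ℕ => P y.1 y.2 := hP.comp fst snd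
  have q1 : Primrec fun y : α × ℕ => P' y.1 y.2 := hP'.comp fst snd
  refine PrimrecPred.of_eq (PrimrecPred.and ?_ (PrimrecPred.and ?_ (PrimrecPred.and ?_ ?_)))
    fun x => (sideC_iff (a := a x) (M := ent (M x)) (Ma := ent (Ma x)) (f := f x) (G := G x)
      (h := h x) (P := P x) (P' := P' x) (Dl := Dl x)).symm
  · refine PTool.pAllLt hf ?_
    refine PTool.pAllLt (list_length.comp h1) ?_
    exact pLtN (Primrec.const 0) (pNatGetD (h1.comp fst) snd)
  · refine PTool.pAllLt hf ?_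
    refine PTool.pAllLt (list_length.comp h1) ?_
    refine PTool.pAllLt (pNatGetD (h1.comp fst) snd) ?_
    refine PTool.pAllLt (list_length.comp (g1.comp (fst.comp fst))) ?_
    refine PTool.pAllLt (ha.comp (fst.comp (fst.comp (fst.comp fst)))) ?_
    have f4 : Primrec fun w : ((((α × ℕ) × ℕ) × ℕ) × ℕ) × ℕ => w.1.1.1.1 :=
      fst.comp (fst.comp (fst.comp fst))
    have hk : Primrec fun w : ((((α × ℕ) × ℕ) × ℕ) × ℕ) × ℕ => w.1.1.1.2 :=
      snd.comp (fst.comp (fst.comp fst))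
    have ht : Primrec fun w : ((((α × ℕ) × ℕ) × ℕ) × ℕ) × ℕ => w.1.1.2 :=
      snd.comp (fst.comp fst)
    have hs : Primrec fun w : ((((α × ℕ) × ℕ) × ℕ) × ℕ) × ℕ => w.1.2 := snd.comp fst
    exact pBodyX (g1.comp f4) (h1.comp f4) (p1.comp f4) (hM.comp (fst.comp f4))
      (ha.comp (fst.comp f4)) hk ht hs snd
  · refine PTool.pAllLt hf ?_
    refine PTool.pAllLt (list_length.comp h1) ?_
    refine PTool.pAllLt (pNatGetD (h1.comp fst) snd) ?_
    refine PTool.pAllLt (list_length.comp (g1.comp (fst.comp fst))) ?_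
    have f1 : Primrec fun w : (((α × ℕ) × ℕ) × ℕ) × ℕ => w.1.1.1.1 :=
      fst.comp (fst.comp (fst.comp fst))
    have hi0 : Primrec fun w : (((α × ℕ) × ℕ) × ℕ) × ℕ => w.1.1.1 := fst.comp (fst.comp fst)
    have hk0 : Primrec fun w : (((α × ℕ) × ℕ) × ℕ) × ℕ => w.1.1.2 := snd.comp (fst.comp fst)
    have ht0 : Primrec fun w : (((α × ℕ) × ℕ) × ℕ) × ℕ => w.1.2 := snd.comp fst
    refine PTool.pAllLt (hf.comp f1) ?_
    have h2 : Primrec fun v : ((((α × ℕ) × ℕ) × ℕ) × ℕ) × ℕ => h v.1.1.1.1.1 v.2 :=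
      hh.comp (f1.comp fst) snd
    have g2 : Primrec fun v : ((((α × ℕ) × ℕ) × ℕ) × ℕ) × ℕ => G v.1.1.1.1.1 v.2 :=
      hG.comp (f1.comp fst) snd
    have q2 : Primrec fun v : ((((α × ℕ) × ℕ) × ℕ) × ℕ) × ℕ => P' v.1.1.1.1.1 v.2 :=
      hP'.comp (f1.comp fst) snd
    refine PTool.pAllLt (list_length.comp h2) ?_
    refine PTool.pAllLt (pNatGetD (h2.comp fst) snd) ?_
    refine PTool.pAllLt (list_length.comp (g2.comp (fst.comp fst))) ?_
    have F4 : Primrec fun w : (((((((α × ℕ) × ℕ) × ℕ) × ℕ) × ℕ) × ℕ) × ℕ) × ℕ => w.1.1.1.1 :=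
      fst.comp (fst.comp (fst.comp fst))
    have F3 : Primrec fun w : (((((((α × ℕ) × ℕ) × ℕ) × ℕ) × ℕ) × ℕ) × ℕ) × ℕ => w.1.1.1 :=
      fst.comp (fst.comp fst)
    exact pBodyP (p1.comp (hi0.comp F4)) (q2.comp F3)
      (ha.comp (f1.comp F4)) (hD.comp (f1.comp F4)) (snd.comp (hi0.comp F4)) (hk0.comp F4)
      (ht0.comp F4) (snd.comp F4) (snd.comp F3) (snd.comp (fst.comp fst)) (snd.comp fst) snd
  · refine PTool.pAllLt ha ?_
    refine PTool.pAllLt (ha.comp fst) ?_
    have F2 : Primrec fun w : (α × ℕ) × ℕ => w.1.1 := fst.comp fst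
    exact pBodySp (G := fun w : (α × ℕ) × ℕ => G w.1.1) (h := fun w : (α × ℕ) × ℕ => h w.1.1)
      (P := fun w : (α × ℕ) × ℕ => P w.1.1) (P' := fun w : (α × ℕ) × ℕ => P' w.1.1)
      (hG.comp (F2.comp fst) snd) (hh.comp (F2.comp fst) snd) (hP.comp (F2.comp fst) snd)
      (hP'.comp (F2.comp fst) snd) (hMa.comp F2) (ha.comp F2) (hf.comp F2) (hD.comp F2)
      (snd.comp fst) snd

theorem valid_iff {a b : ℕ} {LA LB : IM} {c : RC} : Valid a b LA LB c ↔
    (∀ i < c.1.length, Irreducible (monP (cG c i))) ∧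
    (∀ i < c.1.length, ∀ j < i, cG c i ≠ cG c j) ∧
    (∀ i < c.1.length, (cG c i).getD 0 0 ≠ 0) ∧ 0 < c.2.1 ∧ 0 < c.2.2 ∧
    (∀ i < c.1.length, qOfC (cG c i) ∣ c.2.2) ∧
    SideC a (ent (nrm a a LA)) (ent (mpow a (nrm a a LA) a)) c.1.length (cG c) (cLa c) (cP c)
      (cP' c) c.2.1 ∧
    SideC b (ent (nrm b b LB)) (ent (mpow b (nrm b b LB) b)) c.1.length (cG c) (cMu c) (cQ c)
      (cQ' c) c.2.1 :=
  ⟨fun H => ⟨H.irr, H.inj, H.g0, H.Δ, H.q, H.hq, H.V, H.W⟩,
    fun ⟨h1, h2, h3, h4, h5, h6, h7, h8⟩ => ⟨h1, h2, h3, h4, h5, h6, h7, h8⟩⟩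

/-- **the valid codes of reference data form a primitive recursive set** -/
theorem pValid {a b : α → ℕ} {LA LB : α → IM} {c : α → RC} (ha : Primrec a) (hb : Primrec b)
    (hA : Primrec LA) (hB : Primrec LB) (hc : Primrec c) :
    PrimrecPred fun x => Valid (a x) (b x) (LA x) (LB x) (c x) := by
  have hl : Primrec fun x => (c x).1.length := list_length.comp (fst.comp hc)
  have hg : Primrec fun y : α × ℕ => cG (c y.1) y.2 := pCG (hc.comp fst) snd
  have hD : Primrec fun x => (c x).2.1 := fst.comp (snd.comp hc)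
  have hq : Primrec fun x => (c x).2.2 := snd.comp (snd.comp hc)
  refine PrimrecPred.of_eq (PrimrecPred.and (PTool.pAllLt hl (pIrr hg))
    (PrimrecPred.and ?_ (PrimrecPred.and ?_ (PrimrecPred.and
    (pLtN (Primrec.const 0) hD) (PrimrecPred.and (pLtN (Primrec.const 0) hq)
    (PrimrecPred.and ?_ (PrimrecPred.and ?_ ?_))))))) fun x => valid_iff.symm
  · refine PTool.pAllLt hl ?_
    refine PTool.pAllLt snd ?_
    exact (Primrec.eq.comp (hg.comp fst) (pCG (hc.comp (fst.comp fst)) snd)).not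
  · refine PTool.pAllLt hl ?_
    exact (Primrec.eq.comp (PolyC.pGetD hg (Primrec.const 0)) (Primrec.const 0)).not
  · refine PTool.pAllLt hl ?_
    exact pDvdN (pQofC hg) (hq.comp fst)
  · exact pSideC (G := fun x i => cG (c x) i) (h := fun x i => cLa (c x) i)
      (P := fun x i => cP (c x) i) (P' := fun x i => cP' (c x) i) ha (pNrm ha ha hA)
      (pMpow ha (pNrm ha ha hA) ha) hl hg (pCLa (hc.comp fst) snd) (pCP (hc.comp fst) snd)
      (pCP' (hc.comp fst) snd) hD
  · exact pSideC (G := fun x i => cG (c x) i) (h := fun x i => cMu (c x) i)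
      (P := fun x i => cQ (c x) i) (P' := fun x i => cQ' (c x) i) hb (pNrm hb hb hB)
      (pMpow hb (pNrm hb hb hB) hb) hl hg (pCMu (hc.comp fst) snd) (pCQ (hc.comp fst) snd)
      (pCQ' (hc.comp fst) snd) hD

/-- the same on one tuple -/
theorem primrec_valid : PrimrecPred fun x : ℕ × ℕ × IM × IM × RC =>
    Valid x.1 x.2.1 x.2.2.1 x.2.2.2.1 x.2.2.2.2 :=
  pValid fst (fst.comp snd) (fst.comp (snd.comp snd)) (fst.comp (snd.comp (snd.comp snd)))
    (snd.comp (snd.comp (snd.comp snd)))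

/-- the same, with computable parameters -/
theorem re_valid {a b : α → ℕ} {LA LB : α → IM} {c : α → RC} (ha : Computable a)
    (hb : Computable b) (hA : Computable LA) (hB : Computable LB) (hc : Computable c) :
    REPred fun x => Valid (a x) (b x) (LA x) (LB x) (c x) :=
  (re_comp (f := fun x => (a x, b x, LA x, LB x, c x)) (re_of_primrec primrec_valid)
    (Computable.pair ha (Computable.pair hb (Computable.pair hA (Computable.pair hB hc)))))

end

end Pool.Agent.DEC.PValidRE
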