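import Pool.Agent.DEC.MatForm
/-! DEC project (MP_59dda0_an): the trace-dimension condition is recursively enumerable (for
primitive `B`). -/
namespace Pool.Agent.DEC.YesRE
open Matrix Pool.Agent.DEC
open Pool.Agent.FT (TraceDimCondition)

variable {α : Type*} [Primcodable α] {a b : α → ℕ} {A B : α → IM}

/-- the witnesses: `r`, `l`, `N` and the list of the matrices `R, R', X, m, T, X'` -/
abbrev Wit := ℕ × ℕ × ℤ × List IM

/-- the `i`-th matrix of a witness -/
def wm (w : Wit) (i : ℕ) : IM := w.2.2.2.getD i []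

/-- the finite part of the conditions -/
def Fin1 (a b : ℕ) (A B : IM) (w : Wit) : Prop :=
  toMat w.1 a (mmul w.1 a a (wm w 0) (nrm a a A)) = toMat w.1 a (mmul w.1 w.1 a (wm w 2) (wm w 0)) ∧
  toMat w.1 w.1 (mmul w.1 a w.1 (wm w 0) (wm w 1)) = toMat w.1 w.1 (mone w.1) ∧
  toMat w.1 b (mmul w.1 b b (wm w 3) (nrm b b B)) = toMat w.1 b (mmul w.1 w.1 b (wm w 2) (wm w 3)) ∧
  toMat b b (mmul b w.1 b (wm w 4) (wm w 3)) = toMat b b (mpow b (nrm b b B) w.2.1) ∧
  w.2.2.1 ≠ 0 ∧
  toMat w.1 w.1 (mmul w.1 w.1 w.1 (wm w 2) (wm w 5)) =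
    toMat w.1 w.1 (msmul w.1 w.1 w.2.2.1 (mone w.1))

/-- the certificate -/
def Yes (a b : ℕ) (A B : IM) : Prop :=
  ∃ w : Wit, Fin1 a b A B w ∧ (Pool.Agent.FT.IsPrimitive (natMat b b B) ∧
    ∀ n, 0 < n → (natMat b b B ^ n).trace = 0 → mtrace w.1 (mpow w.1 (wm w 2) n) = 0)

theorem cWm {β : Type*} [Primcodable β] {w : β → Wit} (hw : Computable w) (i : ℕ) :
    Computable fun x => wm (w x) i := by
  have h : Primrec fun w : Wit => wm w i :=
    (Primrec.list_getD ([] : IM)).comp (Primrec.snd.comp (Primrec.snd.comp Primrec.snd))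
      (Primrec.const i)
  have h2 := h.to_comp.comp hw
  exact h2

theorem re_fin1 (ha : Computable a) (hb : Computable b) (hA : Computable A) (hB : Computable B) :
    REPred fun q : α × Wit => Fin1 (a q.1) (b q.1) (A q.1) (B q.1) q.2 := by
  have ha' : Computable fun q : α × Wit => a q.1 := ha.comp Computable.fst
  have hb' : Computable fun q : α × Wit => b q.1 := hb.comp Computable.fst
  have hA' : Computable fun q : α × Wit => A q.1 := hA.comp Computable.fst
  have hB' : Computable fun q : α × Wit => B q.1 := hB.comp Computable.fst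
  have hw : Computable fun q : α × Wit => q.2 := Computable.snd
  have hr : Computable fun q : α × Wit => q.2.1 := Computable.fst.comp hw
  have hl : Computable fun q : α × Wit => q.2.2.1 := Computable.fst.comp (Computable.snd.comp hw)
  have hN : Computable fun q : α × Wit => q.2.2.2.1 :=
    Computable.fst.comp (Computable.snd.comp (Computable.snd.comp hw))
  refine re_and (re_matEq hr ha' (cMmul hr ha' ha' (cWm hw 0) (cNrm ha' ha' hA'))
    (cMmul hr hr ha' (cWm hw 2) (cWm hw 0))) ?_
  refine re_and (re_matEq hr hr (cMmul hr ha' hr (cWm hw 0) (cWm hw 1)) (cMone hr)) ?_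
  refine re_and (re_matEq hr hb' (cMmul hr hb' hb' (cWm hw 3) (cNrm hb' hb' hB'))
    (cMmul hr hr hb' (cWm hw 2) (cWm hw 3))) ?_
  refine re_and (re_matEq hb' hb' (cMmul hb' hr hb' (cWm hw 4) (cWm hw 3))
    (cMpow hb' (cNrm hb' hb' hB') hl)) ?_
  refine re_and (re_ne hN (Computable.const 0)) ?_
  exact re_matEq hr hr (cMmul hr hr hr (cWm hw 2) (cWm hw 5)) (cMsmul hr hr hN (cMone hr))

/-- **YES is recursively enumerable.** -/
theorem re_yes (ha : Computable a) (hb : Computable b) (hA : Computable A) (hB : Computable B) :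
    REPred fun x => Yes (a x) (b x) (A x) (B x) := by
  have hb' : Computable fun q : α × Wit => b q.1 := hb.comp Computable.fst
  have hB' : Computable fun q : α × Wit => B q.1 := hB.comp Computable.fst
  have hT : REPred fun p : (α × Wit) × ℕ =>
      mtrace p.1.2.1 (mpow p.1.2.1 (wm p.1.2 2) p.2) = 0 := by
    have hw : Computable fun p : (α × Wit) × ℕ => p.1.2 := Computable.snd.comp Computable.fst
    have hr : Computable fun p : (α × Wit) × ℕ => p.1.2.1 := Computable.fst.comp hw
    exact re_eq (cMtrace hr (cMpow hr (cWm hw 2) Computable.snd)) (Computable.const 0)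
  have h1 := re_forall_trace (α := α × Wit) (b := fun q => b q.1) (B := fun q => B q.1) hb' hB'
    (T := fun q n => mtrace q.2.1 (mpow q.2.1 (wm q.2 2) n) = 0) hT
  exact re_exists (R := fun (x : α) (w : Wit) => Fin1 (a x) (b x) (A x) (B x) w ∧
    (Pool.Agent.FT.IsPrimitive (natMat (b x) (b x) (B x)) ∧
    ∀ n, 0 < n → (natMat (b x) (b x) (B x) ^ n).trace = 0 →
      mtrace w.1 (mpow w.1 (wm w 2) n) = 0)) (re_and (re_fin1 ha hb hA hB) h1)

/-- the certificate is right for primitive `B` -/
theorem yes_iff (a b : ℕ) (A B : IM) (hB : Pool.Agent.FT.IsPrimitive (natMat b b B)) :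
    Yes a b A B ↔ TraceDimCondition (natMat a a A) (natMat b b B) := by
  rw [traceDim_iff]
  constructor
  · rintro ⟨w, ⟨h1, h2, h3, h4, h5, h6⟩, -, h7⟩
    refine ⟨w.1, toMat w.1 a (wm w 0), toMat a w.1 (wm w 1), toMat w.1 w.1 (wm w 2),
      toMat w.1 b (wm w 3), toMat b w.1 (wm w 4), w.2.1, ?_, ?_, ?_, ?_, ?_, ?_⟩
    · rw [toMat_mmul, toMat_mmul, toMat_nrm] at h1
      exact h1
    · rw [toMat_mmul, toMat_mone] at h2
      exact h2
    · rw [toMat_mmul, toMat_mmul, toMat_nrm] at h3
      exact h3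
    · rw [toMat_mmul, toMat_mpow, toMat_nrm] at h4
      exact h4
    · intro h0
      rw [toMat_mmul, toMat_msmul, toMat_mone] at h6
      have h8 := congrArg Matrix.det h6
      rw [Matrix.det_mul, h0, zero_mul, Matrix.det_smul, Matrix.det_one, mul_one] at h8
      exact absurd h8.symm (pow_ne_zero _ h5)
    · intro n hn htr
      have h8 := h7 n hn htr
      rw [mtrace_eq, toMat_mpow] at h8
      exact h8
  · rintro ⟨r, R, R', X, m, T, l, h1, h2, h3, h4, h5, h6⟩
    refine ⟨(r, l, X.det, [ofMat R, ofMat R', ofMat X, ofMat m, ofMat T, ofMat X.adjugate]),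
      ⟨?_, ?_, ?_, ?_, h5, ?_⟩, hB, fun n hn htr => ?_⟩
    · change toMat r a (mmul r a a (ofMat R) (nrm a a A)) = toMat r a (mmul r r a (ofMat X) (ofMat R))
      rw [toMat_mmul, toMat_mmul, toMat_nrm, toMat_ofMat, toMat_ofMat]
      exact h1
    · change toMat r r (mmul r a r (ofMat R) (ofMat R')) = toMat r r (mone r)
      rw [toMat_mmul, toMat_mone, toMat_ofMat, toMat_ofMat]
      exact h2
    · change toMat r b (mmul r b b (ofMat m) (nrm b b B)) = toMat r b (mmul r r b (ofMat X) (ofMat m))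
      rw [toMat_mmul, toMat_mmul, toMat_nrm, toMat_ofMat, toMat_ofMat]
      exact h3
    · change toMat b b (mmul b r b (ofMat T) (ofMat m)) = toMat b b (mpow b (nrm b b B) l)
      rw [toMat_mmul, toMat_mpow, toMat_nrm, toMat_ofMat, toMat_ofMat]
      exact h4
    · change toMat r r (mmul r r r (ofMat X) (ofMat X.adjugate)) =
        toMat r r (msmul r r X.det (mone r))
      rw [toMat_mmul, toMat_msmul, toMat_mone, toMat_ofMat, toMat_ofMat]
      exact Matrix.mul_adjugate X
    · change mtrace r (mpow r (ofMat X) n) = 0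
      rw [mtrace_eq, toMat_mpow, toMat_ofMat]
      exact h6 n hn htr

end Pool.Agent.DEC.YesRE
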