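import Pool.Agent.DEC.PIdsR
import Pool.Agent.DEC.PSemR
import Pool.Agent.DEC.PRefQ
import Pool.Agent.DEC.PRefC
import Pool.Agent.DEC.PValidRE
import Pool.Agent.DEC.YesRE
import Pool.Agent.DEC.Glue2

/-!
DEC project (MP_59dda0_an), P side: the NO-certificates are recursively enumerable; the final
statement from the two halves of the mathematical part.
-/

set_option autoImplicit false

namespace Pool.Agent.DEC.PMain

open Primrec Pool.Agent.DEC Pool.Agent.DEC.PD Pool.Agent.DEC.PSemR Pool.Agent.DEC.PSemC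
open Pool.Agent.FT (IsPrimitive HasEntropy edgeShift)

/-- the bounded search for the identities is primitive recursive (for `0 < N`) -/
theorem idsC_iff {a b : ℕ} {LB : IM} {c : RC} {ty : TC} {st : SC} {N : ℕ} (hN : 0 < N) :
    IdsC a b LB c ty st N ↔ IdsB a b c ty st LB N := ids_bdd hN LB

/-- the finite search, all data bounded -/
def SemiD (a b : ℕ) (LB : IM) (c : RC) (k0 N : ℕ) : Prop :=
  ∃ ty ∈ tys a c, ∃ st ∈ sts c ty N,
    TrC8.trCc b k0 LB (cGs c) (tns ty) ∧ StC c ty st ∧ IdsB a b c ty st LB N ∧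
    PUniC2.UC a c ty st N (fun i => PBd.cUB (cG c i) (cDl a c) N)
      (fun i => PBd.cUL (cG c i) (cDl a c) N)

theorem semiC_iff {a b : ℕ} {LB : IM} {c : RC} {k0 N : ℕ} (hN : 0 < N) :
    SemiC a b LB c k0 N ↔ SemiD a b LB c k0 N := by
  unfold SemiC SemiD
  simp only [idsC_iff hN]

theorem pSemiD : PrimrecPred fun x : Arg =>
    SemiD x.1 x.2.1 x.2.2.1 x.2.2.2.1 x.2.2.2.2.1 x.2.2.2.2.2 := by
  have a1 : Primrec fun x : Arg => x.1 := fst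
  have a2 : Primrec fun x : Arg => x.2.1 := fst.comp snd
  have a3 : Primrec fun x : Arg => x.2.2.1 := fst.comp (snd.comp snd)
  have a4 : Primrec fun x : Arg => x.2.2.2.1 := fst.comp (snd.comp (snd.comp snd))
  have a5 : Primrec fun x : Arg => x.2.2.2.2.1 := fst.comp (snd.comp (snd.comp (snd.comp snd)))
  have a6 : Primrec fun x : Arg => x.2.2.2.2.2 := snd.comp (snd.comp (snd.comp (snd.comp snd)))
  unfold SemiD
  refine PPred.pEx (R := fun (x : Arg) (ty : TC) => ∃ st ∈ sts x.2.2.2.1 ty x.2.2.2.2.2,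
    TrC8.trCc x.2.1 x.2.2.2.2.1 x.2.2.1 (cGs x.2.2.2.1) (tns ty) ∧ StC x.2.2.2.1 ty st ∧
      IdsB x.1 x.2.1 x.2.2.2.1 ty st x.2.2.1 x.2.2.2.2.2 ∧
      PUniC2.UC x.1 x.2.2.2.1 ty st x.2.2.2.2.2
        (fun i => PBd.cUB (cG x.2.2.2.1 i) (cDl x.1 x.2.2.2.1) x.2.2.2.2.2)
        (fun i => PBd.cUL (cG x.2.2.2.1 i) (cDl x.1 x.2.2.2.1) x.2.2.2.2.2)) ?_ (pTys a1 a4)
  refine PPred.pEx (R := fun (p : Arg × TC) (st : SC) =>
    TrC8.trCc p.1.2.1 p.1.2.2.2.2.1 p.1.2.2.1 (cGs p.1.2.2.2.1) (tns p.2) ∧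
      StC p.1.2.2.2.1 p.2 st ∧
      IdsB p.1.1 p.1.2.1 p.1.2.2.2.1 p.2 st p.1.2.2.1 p.1.2.2.2.2.2 ∧
      PUniC2.UC p.1.1 p.1.2.2.2.1 p.2 st p.1.2.2.2.2.2
        (fun i => PBd.cUB (cG p.1.2.2.2.1 i) (cDl p.1.1 p.1.2.2.2.1) p.1.2.2.2.2.2)
        (fun i => PBd.cUL (cG p.1.2.2.2.1 i) (cDl p.1.1 p.1.2.2.2.1) p.1.2.2.2.2.2)) ?_
    (pSts (a4.comp fst) snd (a6.comp fst))
  have hx : Primrec fun q : (Arg × TC) × SC => q.1.1 := fst.comp fst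
  have hty : Primrec fun q : (Arg × TC) × SC => q.1.2 := snd.comp fst
  have hst : Primrec fun q : (Arg × TC) × SC => q.2 := snd
  refine PPred.pAnd ?_ (PPred.pAnd ?_ (PPred.pAnd ?_ ?_))
  · exact TrC8.pTrCc (a2.comp hx) (a5.comp hx) (a3.comp hx) (pCGs (a4.comp hx)) (pTns hty)
  · exact PSemR.pStC (a4.comp hx) hty hst
  · exact pIdsB (a1.comp hx) (a2.comp hx) (a4.comp hx) hty hst (a3.comp hx) (a6.comp hx)
  · refine PUniC2.pUC (Bi := fun (q : (Arg × TC) × SC) i =>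
        PBd.cUB (cG q.1.1.2.2.2.1 i) (cDl q.1.1.1 q.1.1.2.2.2.1) q.1.1.2.2.2.2.2)
      (Li := fun (q : (Arg × TC) × SC) i =>
        PBd.cUL (cG q.1.1.2.2.2.1 i) (cDl q.1.1.1 q.1.1.2.2.2.1) q.1.1.2.2.2.2.2)
      (a1.comp hx) (a4.comp hx) hty hst (a6.comp hx) ?_ ?_
    · exact PBd.pCUB (PD.pCG ((a4.comp hx).comp fst) snd)
        (PUniC2.pCDl ((a1.comp hx).comp fst) ((a4.comp hx).comp fst)) ((a6.comp hx).comp fst)
    · exact PBd.pCUL (PD.pCG ((a4.comp hx).comp fst) snd)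
        (PUniC2.pCDl ((a1.comp hx).comp fst) ((a4.comp hx).comp fst)) ((a6.comp hx).comp fst)

/-- the NO-predicate on pairs of codes -/
def No (e : (ℕ × IM) × (ℕ × IM)) : Prop :=
  ∃ x : RC × ℕ × ℕ, Valid e.1.1 e.2.1 e.1.2 e.2.2 x.1 ∧
    TrC8.posC e.2.1 (nrm e.2.1 e.2.1 e.2.2) x.2.1 ∧ 0 < x.2.2 ∧
    ¬ SemiD e.1.1 e.2.1 (nrm e.2.1 e.2.1 e.2.2) x.1 x.2.1 x.2.2

theorem re_no : REPred No := by
  unfold No
  refine re_exists (R := fun (e : (ℕ × IM) × (ℕ × IM)) (x : RC × ℕ × ℕ) =>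
    Valid e.1.1 e.2.1 e.1.2 e.2.2 x.1 ∧
    TrC8.posC e.2.1 (nrm e.2.1 e.2.1 e.2.2) x.2.1 ∧ 0 < x.2.2 ∧
    ¬ SemiD e.1.1 e.2.1 (nrm e.2.1 e.2.1 e.2.2) x.1 x.2.1 x.2.2) (re_of_primrec ?_)
  have e11 : Primrec fun p : ((ℕ × IM) × (ℕ × IM)) × (RC × ℕ × ℕ) => p.1.1.1 :=
    fst.comp (fst.comp fst)
  have e12 : Primrec fun p : ((ℕ × IM) × (ℕ × IM)) × (RC × ℕ × ℕ) => p.1.1.2 :=
    snd.comp (fst.comp fst)
  have e21 : Primrec fun p : ((ℕ × IM) × (ℕ × IM)) × (RC × ℕ × ℕ) => p.1.2.1 :=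
    fst.comp (snd.comp fst)
  have e22 : Primrec fun p : ((ℕ × IM) × (ℕ × IM)) × (RC × ℕ × ℕ) => p.1.2.2 :=
    snd.comp (snd.comp fst)
  have x1 : Primrec fun p : ((ℕ × IM) × (ℕ × IM)) × (RC × ℕ × ℕ) => p.2.1 := fst.comp snd
  have x2 : Primrec fun p : ((ℕ × IM) × (ℕ × IM)) × (RC × ℕ × ℕ) => p.2.2.1 :=
    fst.comp (snd.comp snd)
  have x3 : Primrec fun p : ((ℕ × IM) × (ℕ × IM)) × (RC × ℕ × ℕ) => p.2.2.2 :=
    snd.comp (snd.comp snd)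
  have hB : Primrec fun p : ((ℕ × IM) × (ℕ × IM)) × (RC × ℕ × ℕ) =>
      nrm p.1.2.1 p.1.2.1 p.1.2.2 := pNrm e21 e21 e22
  refine PPred.pAnd (PValidRE.pValid e11 e21 e12 e22 x1) (PPred.pAnd (TrC8.pPosC e21 hB x2)
    (PPred.pAnd (PPred.pNatLt (Primrec.const 0) x3) (PPred.pNot ?_)))
  exact pSemiD.comp (Primrec.pair e11 (Primrec.pair e21 (Primrec.pair hB
    (Primrec.pair x1 (Primrec.pair x2 x3)))))

/-- the mathematical content of the NO-certificates (soundness and completeness) -/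
def NoIff : Prop :=
  ∀ {a b : ℕ} (A : Matrix (Fin a) (Fin a) ℕ) (B : Matrix (Fin b) (Fin b) ℕ),
    ¬ FT.TraceDimCondition A B ↔ ∃ (ρ : Ref A B) (N : ℕ),
      (∀ i, PRefQ.qf (ρ.g i) ∣ ρ.q) ∧ 0 < N ∧ ¬ Semi ρ N

theorem no_iff (H : NoIff) (c d : ℕ × IM) (hd : IsPrimitive (cM d)) :
    No (c, d) ↔ ¬ FT.TraceDimCondition (cM c) (cM d) := by
  have hLB : toMat d.1 d.1 (nrm d.1 d.1 d.2) = zM (cM d) := toMat_nrm _ _ _
  rw [H]
  constructor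
  · rintro ⟨⟨rc, k0, N⟩, hv, hp, hN, hs⟩
    obtain ⟨ρ, hc, hq⟩ := PRefQ.valid_iff.1 hv
    refine ⟨ρ, N, hq, hN, fun h => hs ?_⟩
    exact (semiC_iff hN).1 ((semi_codes hc hLB hp hN).1 h)
  · rintro ⟨ρ, N, hq, hN, hs⟩
    obtain ⟨rc, hc⟩ := PRefC.exists_codes ρ
    obtain ⟨k0, hp⟩ := TrC8.exists_posC hd hLB
    refine ⟨⟨rc, k0, N⟩, PRefQ.valid_iff.2 ⟨ρ, hc, hq⟩, hp, hN, fun h => hs ?_⟩
    exact (semi_codes hc hLB hp hN).2 ((semiC_iff hN).2 h)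

/-- the YES-predicate on pairs of codes -/
def Yes (e : (ℕ × IM) × (ℕ × IM)) : Prop := YesRE.Yes e.1.1 e.2.1 e.1.2 e.2.2

theorem re_yes : REPred Yes :=
  YesRE.re_yes (Computable.fst.comp Computable.fst) (Computable.fst.comp Computable.snd)
    (Computable.snd.comp Computable.fst) (Computable.snd.comp Computable.snd)

/-- **Finite-to-one factor codes between mixing shifts of finite type are decidable**, from the
criterion and the two halves of the theory of the NO-certificates. -/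
theorem final (hC : Criterion) (H : NoIff) : FinalStatement := by
  refine final_of hC re_yes re_no ?_
  intro c d _ hd _
  exact ⟨YesRE.yes_iff _ _ _ _ hd, no_iff H c d hd⟩

end Pool.Agent.DEC.PMain
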