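import Pool.Agent.DEC.PolyC
import Pool.Agent.DEC.PPred

/-!
DEC project (MP_59dda0_an), computability layer: the constant `qOf` of the box lemma on codes of
monic polynomials.
-/

set_option autoImplicit false

namespace Pool.Agent.DEC.PQof

open Primrec Polynomial Pool.Agent.DEC Pool.Agent.DEC.PolyC

/-- `1 + ∑ |G_i|` -/
def hC (G : List ℤ) : ℕ := 1 + (G.map Int.natAbs).sum

/-- the constant of the box lemma for the monic polynomial with the code `G` -/
def qC (G : List ℤ) : ℕ := Nat.factorial ((16 * G.length * hC G ^ G.length) ^ G.length)

theorem sum_getD (G : List ℤ) :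
    ∑ i ∈ Finset.range G.length, (G.getD i 0).natAbs = (G.map Int.natAbs).sum := by
  induction G with
  | nil => simp
  | cons x G ih =>
    rw [List.length_cons, Finset.sum_range_succ']
    simp only [List.getD_cons_succ, List.getD_cons_zero, List.map_cons, List.sum_cons]
    rw [ih, add_comm]

theorem coeff_monP_of_lt (G : List ℤ) {i : ℕ} (hi : i < G.length) :
    (monP G).coeff i = G.getD i 0 := by
  unfold monP
  rw [coeff_add, coeff_X_pow, if_neg (by omega), zero_add, coeff_toP]

/-- the explicit form of the constant, literally as in `CoreIF.qOf` -/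
theorem qC_eq (G : List ℤ) :
    (let d := (monP G).natDegree
     let H := 1 + ∑ i ∈ Finset.range d, ((monP G).coeff i).natAbs
     Nat.factorial ((16 * d * H ^ d) ^ d)) = qC G := by
  have h : ∑ i ∈ Finset.range G.length, ((monP G).coeff i).natAbs = (G.map Int.natAbs).sum := by
    rw [← sum_getD]
    refine Finset.sum_congr rfl fun i hi => ?_
    rw [coeff_monP_of_lt G (Finset.mem_range.1 hi)]
  simp only [monP_natDegree]
  rw [h]
  rfl

theorem primrec_hC : Primrec hC :=
  Primrec.nat_add.comp (Primrec.const 1)
    (primrec_nat_sum.comp (Primrec.list_map Primrec.id (primrec_natAbs.comp Primrec.snd).to₂))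

theorem primrec_qC : Primrec qC := by
  have hL : Primrec fun G : List ℤ => G.length := Primrec.list_length
  have h1 : Primrec fun G : List ℤ => 16 * G.length * hC G ^ G.length :=
    Primrec.nat_mul.comp (Primrec.nat_mul.comp (Primrec.const 16) hL)
      (primrec_nat_pow.comp primrec_hC hL)
  exact PPred.primrec_factorial.comp (primrec_nat_pow.comp h1 hL)

/-- the version for a parameter -/
theorem pQC {α : Type*} [Primcodable α] {G : α → List ℤ} (hG : Primrec G) :
    Primrec fun a => qC (G a) := primrec_qC.comp hG

end Pool.Agent.DEC.PQof
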