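import Pool.Agent.DEC.PSide

/-!
DEC project (MP_59dda0_an), P side: a code is valid if and only if it is the code of a reference
datum.
-/

set_option autoImplicit false

open Matrix Polynomial

namespace Pool.Agent.DEC.PRef

open PD PolyC PLam PSide

theorem monP_injective : Function.Injective monP := by
  intro G G' h
  have hl : G.length = G'.length := by
    rw [← monP_natDegree G, ← monP_natDegree G', h]
  refine List.ext_getElem hl fun i hi hi' => ?_
  have h1 := coeff_eq (G := G) rfl hi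
  have h2 := coeff_eq (G := G') rfl hi'
  rw [h] at h1
  rw [h1] at h2
  rwa [List.getD_eq_getElem _ _ hi, List.getD_eq_getElem _ _ hi'] at h2

theorem length_pos_of_irreducible {G : List ℤ} (h : Irreducible (monP G)) : 0 < G.length := by
  rcases Nat.eq_zero_or_pos G.length with h0 | h0
  · exfalso
    have : G = [] := List.length_eq_zero_iff.1 h0
    subst this
    apply h.not_isUnit
    have e : monP [] = 1 := by simp [monP]
    rw [e]
    exact isUnit_one
  · exact h0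

theorem qprin_of_dvd {R : Type} [CommRing R] {q q' : ℕ} (h : QPrin R (q : R)) (hd : q ∣ q') :
    QPrin R (q' : R) := by
  obtain ⟨m, rfl⟩ := hd
  intro I hI
  obtain ⟨y, hy, hy0, hz⟩ := h I hI
  refine ⟨y, hy, hy0, fun z hzI => ?_⟩
  obtain ⟨c, hc⟩ := hz z hzI
  refine ⟨(m : R) * c, ?_⟩
  rw [mul_assoc, ← hc]
  push_cast
  ring

section

variable {a b : ℕ} {LA LB : IM}

theorem ent_nrm (a : ℕ) (LA : IM) (i j : Fin a) :
    ent (nrm a a LA) i j = zM (natMat a a LA) i j := by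
  rw [← toMat_nrm]
  rfl

theorem ent_pow (a : ℕ) (LA : IM) (k : ℕ) (i j : Fin a) :
    ent (mpow a (nrm a a LA) k) i j = (zM (natMat a a LA) ^ k) i j := by
  rw [← toMat_nrm, ← toMat_mpow]
  rfl

/-- codes of reference data are valid -/
theorem valid_of_codes {qf : ℤ[X] → ℕ} (hqf : ∀ G : List ℤ, qf (monP G) = qOfC G)
    {ρ : Ref (natMat a a LA) (natMat b b LB)} {c : RC} (h : Codes c ρ)
    (hq : ∀ i, qf (ρ.g i) ∣ ρ.q) : Valid a b LA LB c := by
  have hirr : ∀ i < c.1.length, Irreducible (monP (cG c i)) := by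
    intro i hi
    rw [h.nf] at hi
    rw [h.g ⟨i, hi⟩]
    exact ρ.irr _
  refine ⟨hirr, ?_, ?_, ?_, ?_, ?_, ?_, ?_⟩
  · intro i hi j hj e
    rw [h.nf] at hi
    have e1 := h.g ⟨i, hi⟩
    have e2 := h.g ⟨j, hj.trans hi⟩
    simp only at e1 e2
    rw [e, e2] at e1
    have e3 := congrArg Fin.val (ρ.inj e1)
    simp only at e3
    omega
  · intro i hi
    have h0 := length_pos_of_irreducible (hirr i hi)
    rw [← coeff_eq (G := cG c i) rfl h0]
    rw [h.nf] at hi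
    rw [h.g ⟨i, hi⟩]
    exact ρ.g0 _
  · rw [h.Δ]
    exact ρ.Δ_pos
  · rw [h.q]
    exact ρ.q_pos
  · intro i hi
    rw [h.nf] at hi
    rw [← hqf, h.g ⟨i, hi⟩, h.q]
    exact hq _
  · rw [h.nf, h.Δ]
    exact (side_iff ρ.monic (ent_nrm a LA) (ent_pow a LA a) h.g h.na h.lam h.P h.P' ρ.Δ).2
      ⟨ρ.lam_pos, ρ.P_x, ρ.P_P, ρ.P_ne, ρ.P_sp⟩
  · rw [h.nf, h.Δ]
    exact (side_iff ρ.monic (ent_nrm b LB) (ent_pow b LB b) h.g h.nb h.mu h.Q h.Q' ρ.Δ).2
      ⟨ρ.mu_pos, ρ.Q_x, ρ.Q_Q, ρ.Q_ne, ρ.Q_sp⟩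

/-- valid codes are codes of reference data -/
theorem exists_of_valid {qf : ℤ[X] → ℕ} (hqf : ∀ G : List ℤ, qf (monP G) = qOfC G)
    (HQ : ∀ g : ℤ[X], g.Monic → Irreducible g → QPrin (Lam g) ((qf g : ℕ) : Lam g)) {c : RC}
    (h : Valid a b LA LB c) :
    ∃ ρ : Ref (natMat a a LA) (natMat b b LB), Codes c ρ ∧ ∀ i, qf (ρ.g i) ∣ ρ.q := by
  set g : Fin c.1.length → ℤ[X] := fun i => monP (cG c i) with hg
  have hmon : ∀ i, (g i).Monic := fun i => monP_monic _
  have hdeg : ∀ i, (g i).natDegree = (cG c i).length := fun i => monP_natDegree _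
  set lam : ∀ i : Fin c.1.length, Fin (cLa c i).length → ℕ := fun i k => (cLa c i).getD k 0
    with hlam
  set mu : ∀ i : Fin c.1.length, Fin (cMu c i).length → ℕ := fun i k => (cMu c i).getD k 0
    with hmu
  set P : ∀ i, (Blk (lam i) → Lam (g i)) →ₗ[ℤ] (Fin a → ℤ) := fun i =>
    mkOut (hmon i) fun k s r => ent (cP c i) (ix k.1 k.2 s) r with hPdef
  set P' : ∀ i, (Fin a → ℤ) →ₗ[ℤ] (Blk (lam i) → Lam (g i)) := fun i =>
    mkIn (g i) fun r k s => ent (cP' c i) r (ix k.1 k.2 s) with hP'def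
  set Q : ∀ i, (Blk (mu i) → Lam (g i)) →ₗ[ℤ] (Fin b → ℤ) := fun i =>
    mkOut (hmon i) fun k s r => ent (cQ c i) (ix k.1 k.2 s) r with hQdef
  set Q' : ∀ i, (Fin b → ℤ) →ₗ[ℤ] (Blk (mu i) → Lam (g i)) := fun i =>
    mkIn (g i) fun r k s => ent (cQ' c i) r (ix k.1 k.2 s) with hQ'def
  have hP : ∀ (i : Fin c.1.length) (k : Blk (lam i)) (s : ℕ), s < (cG c i).length →
      ∀ r : Fin a, P i (Pi.single k (AdjoinRoot.root (g i) ^ s)) r =
        ent (cP c i) (ix k.1 k.2 s) r := by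
    intro i k s hs r
    rw [hPdef]
    exact congrFun (mkOut_single (hmon i) _ k (by rw [hdeg]; exact hs)) r
  have hP' : ∀ (i : Fin c.1.length) (k : Blk (lam i)) (s : ℕ), s < (cG c i).length →
      ∀ r : Fin a, lcf (hmon i) (P' i (Pi.single r 1) k) s =
        ent (cP' c i) r (ix k.1 k.2 s) := by
    intro i k s hs r
    rw [hP'def]
    exact lcf_mkIn_single (hmon i) _ r k (by rw [hdeg]; exact hs)
  have hQ : ∀ (i : Fin c.1.length) (k : Blk (mu i)) (s : ℕ), s < (cG c i).length →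
      ∀ r : Fin b, Q i (Pi.single k (AdjoinRoot.root (g i) ^ s)) r =
        ent (cQ c i) (ix k.1 k.2 s) r := by
    intro i k s hs r
    rw [hQdef]
    exact congrFun (mkOut_single (hmon i) _ k (by rw [hdeg]; exact hs)) r
  have hQ' : ∀ (i : Fin c.1.length) (k : Blk (mu i)) (s : ℕ), s < (cG c i).length →
      ∀ r : Fin b, lcf (hmon i) (Q' i (Pi.single r 1) k) s =
        ent (cQ' c i) r (ix k.1 k.2 s) := by
    intro i k s hs r
    rw [hQ'def]
    exact lcf_mkIn_single (hmon i) _ r k (by rw [hdeg]; exact hs)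
  obtain ⟨v1, v2, v3, v4, v5⟩ := (side_iff (G := cG c) (h := cLa c) (Pc := cP c) (Pc' := cP' c)
    hmon (ent_nrm a LA) (ent_pow a LA a) (fun i => rfl) (fun i => rfl) (fun i k => rfl) hP hP'
    c.2.1).1 h.V
  obtain ⟨w1, w2, w3, w4, w5⟩ := (side_iff (G := cG c) (h := cMu c) (Pc := cQ c) (Pc' := cQ' c)
    hmon (ent_nrm b LB) (ent_pow b LB b) (fun i => rfl) (fun i => rfl) (fun i k => rfl) hQ hQ'
    c.2.1).1 h.W
  have hinj : Function.Injective g := by
    intro i j hij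
    have e := monP_injective hij
    by_contra hne
    rcases lt_or_gt_of_ne hne with h1 | h1
    · exact h.inj j j.2 i h1 e.symm
    · exact h.inj i i.2 j h1 e
  have hg0 : ∀ i, (g i).coeff 0 ≠ 0 := by
    intro i
    have h0 := length_pos_of_irreducible (h.irr i i.2)
    rw [coeff_eq (G := cG c i) rfl h0]
    exact h.g0 i i.2
  refine ⟨⟨c.1.length, g, hmon, fun i => h.irr i i.2, hinj, hg0, fun i => (cLa c i).length,
    fun i => (cMu c i).length, lam, mu, v1, w1, c.2.1, h.Δ, P, P', v2, v3, v4, v5,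
    Q, Q', w2, w3, w4, w5, c.2.2, h.q, fun i => ?_⟩, ?_, ?_⟩
  · refine qprin_of_dvd (HQ (g i) (hmon i) (h.irr i i.2)) ?_
    rw [hg, hqf]
    exact h.hq i i.2
  · exact ⟨rfl, fun i => rfl, fun i => rfl, fun i => rfl, fun i k => rfl, fun i k => rfl, rfl, rfl,
      hP, hP', hQ, hQ'⟩
  · intro i
    have e := h.hq i i.2
    rw [← hqf] at e
    exact e

/-- **valid codes** -/
theorem valid_iff {qf : ℤ[X] → ℕ} (hqf : ∀ G : List ℤ, qf (monP G) = qOfC G)
    (HQ : ∀ g : ℤ[X], g.Monic → Irreducible g → QPrin (Lam g) ((qf g : ℕ) : Lam g)) {c : RC} :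
    Valid a b LA LB c ↔
    ∃ ρ : Ref (natMat a a LA) (natMat b b LB), Codes c ρ ∧ ∀ i, qf (ρ.g i) ∣ ρ.q :=
  ⟨exists_of_valid hqf HQ, fun ⟨_, h, hq⟩ => valid_of_codes hqf h hq⟩

end

end Pool.Agent.DEC.PRef
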