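import Pool.Agent.DEC.PDefs
import Pool.Agent.DEC.PLam

/-!
DEC project (MP_59dda0_an), P side: the integer matrices `GAe`, `GBe` of a coded state are the
matrices of the maps `GA`, `GB` of `Core.lean`.
-/

set_option autoImplicit false

open Matrix Polynomial

namespace Pool.Agent.DEC.PSem1

open Pool.Agent.DEC Pool.Agent.DEC.PolyC Pool.Agent.DEC.PD

/-- the two names of the coordinates -/
theorem co_eq_lcf {g : ℤ[X]} (hg : g.Monic) (z : Lam g) (s : ℕ) : co hg z s = PLam.lcf hg z s :=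
  rfl

/-- sums over the coordinates of blocks as nested sums over ranges -/
theorem sum_blk {n : ℕ} {h : Fin n → ℕ} {L : List ℕ} (hL : L.length = n)
    (hh : ∀ k : Fin n, L.getD k 0 = h k) (F : ℕ → ℕ → ℤ) :
    ∑ c : Blk h, F c.1 c.2 =
      ∑ k ∈ Finset.range L.length, ∑ t ∈ Finset.range (L.getD k 0), F k t := by
  rw [Fintype.sum_sigma, hL, Finset.sum_range]
  refine Finset.sum_congr rfl fun k _ => ?_
  rw [hh k, Finset.sum_range]

/-- the entries of `F * C ^ e` of coded matrices -/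
theorem ev_mk (g : ℤ[X]) {x r : ℕ} (e : ℕ) (F C : PM) (a : Fin x) (q : Fin r) :
    ((Matrix.of fun (p : Fin x) (q : Fin r) =>
        (AdjoinRoot.mk g (toP (CR.poly.ent F p q)) : Lam g)) *
      (Matrix.of fun (p q : Fin r) =>
        (AdjoinRoot.mk g (toP (CR.poly.ent C p q)) : Lam g)) ^ e) a q =
      AdjoinRoot.mk g (toP (CR.poly.evE r e F C a q)) := by
  have h := CR.poly.val_evE (x := x) (r := r) e F C a q
  have h1 : toP (CR.poly.evE r e F C a q) =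
      (CR.poly.toM x r F * CR.poly.toM r r C ^ e) a q := h
  have h2 : (CR.poly.toM x r F * CR.poly.toM r r C ^ e).map (AdjoinRoot.mk g) =
      (CR.poly.toM x r F).map (AdjoinRoot.mk g) *
        (CR.poly.toM r r C).map (AdjoinRoot.mk g) ^ e := by
    rw [Matrix.map_mul, Matrix.map_pow]
  rw [h1]
  have h3 := congrFun (congrFun h2 a) q
  rw [Matrix.map_apply] at h3
  rw [h3]
  rfl

variable {a b : ℕ} {A : Matrix (Fin a) (Fin a) ℕ} {B : Matrix (Fin b) (Fin b) ℕ}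

/-- `GA` of a vector supported in one factor -/
theorem GA_single (ρ : Ref A B) {n : Fin ρ.f → ℕ} (deg : ∀ i, Fin (n i) → ℕ) (s : ρ.MSt n)
    (i : Fin ρ.f) (v : Fin (n i) → Lam (ρ.g i)) :
    ρ.GA deg s (Pi.single i v) = ρ.P i (RM (ρ.shp deg i) (s i) *ᵥ v) := by
  unfold Ref.GA
  rw [Finset.sum_eq_single i]
  · rw [Pi.single_eq_same]
  · intro j _ hj
    rw [Pi.single_eq_of_ne hj, Matrix.mulVec_zero, map_zero]
  · intro h
    exact absurd (Finset.mem_univ i) h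

/-- `GB` of a vector supported in one factor -/
theorem GB_single (ρ : Ref A B) {n : Fin ρ.f → ℕ} (deg : ∀ i, Fin (n i) → ℕ) (s : ρ.MSt n)
    (i : Fin ρ.f) (v : Fin (n i) → Lam (ρ.g i)) :
    ρ.GB deg s (Pi.single i v) = ρ.Q i (MM (ρ.shp deg i) (s i) *ᵥ v) := by
  unfold Ref.GB
  rw [Finset.sum_eq_single i]
  · rw [Pi.single_eq_same]
  · intro j _ hj
    rw [Pi.single_eq_of_ne hj, Matrix.mulVec_zero, map_zero]
  · intro h
    exact absurd (Finset.mem_univ i) h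

theorem lcf_mul_pow (G : List ℤ) {g : ℤ[X]} (hG : monP G = g) (hg : g.Monic) (z : List ℤ)
    (u s : ℕ) :
    PLam.lcf hg ((AdjoinRoot.mk g (toP z) : Lam g) * AdjoinRoot.root g ^ s) u = mulE G z u s := by
  subst hG
  rw [mulE_eq, ← PLam.lcf_mk hg, map_mul, map_pow, AdjoinRoot.mk_X]

variable {c : RC} {ρ : Ref A B} {ty : TC} {n : Fin ρ.f → ℕ} {deg : ∀ i, Fin (n i) → ℕ}
  {st : SC} {s : ρ.MSt n}

/-- the entries of `RM` of a coded state -/
theorem RM_apply (hc : Codes c ρ) (hn : ∀ i : Fin ρ.f, tn ty i = n i) (i : Fin ρ.f)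
    (hs : s i = stOf (ρ.g i) (n i) (ρ.na i) (ρ.nb i) st i) (k : Blk (ρ.lam i)) (q : Fin (n i)) :
    RM (ρ.shp deg i) (s i) k q = AdjoinRoot.mk (ρ.g i) (toP (rmE c ty st i k.1 k.2 q)) := by
  have h := ev_mk (ρ.g i) (x := ρ.na i) (r := n i) (ρ.lam i k.1 - 1 - (k.2 : ℕ))
    (sR st i) (sC st i) k.1 q
  unfold rmE
  rw [hn i, hc.lam i k.1, ← h, hs]
  rfl

/-- the entries of `MM` of a coded state -/
theorem MM_apply (hc : Codes c ρ) (hn : ∀ i : Fin ρ.f, tn ty i = n i) (i : Fin ρ.f)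
    (hs : s i = stOf (ρ.g i) (n i) (ρ.na i) (ρ.nb i) st i) (k : Blk (ρ.mu i)) (q : Fin (n i)) :
    MM (ρ.shp deg i) (s i) k q = AdjoinRoot.mk (ρ.g i) (toP (mmE c ty st i k.1 k.2 q)) := by
  have h := ev_mk (ρ.g i) (x := ρ.nb i) (r := n i) (ρ.mu i k.1 - 1 - (k.2 : ℕ))
    (sT st i) (sC st i) k.1 q
  unfold mmE
  rw [hn i, hc.mu i k.1, ← h, hs]
  rfl

/-- the matrix of `GA` -/
theorem GA_eq (hc : Codes c ρ) (hn : ∀ i : Fin ρ.f, tn ty i = n i) (i : Fin ρ.f)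
    (hs : s i = stOf (ρ.g i) (n i) (ρ.na i) (ρ.nb i) st i) (q : Fin (n i)) (s' : ℕ) (r : Fin a) :
    ρ.GA deg s (Pi.single i (Pi.single q (ρ.th i ^ s'))) r = GAe c ty st i q s' r := by
  rw [GA_single, PLam.map_apply (ρ.monic i)]
  unfold GAe
  rw [← sum_blk (hc.na i) (hc.lam i) (fun k t => ∑ s'' ∈ Finset.range (cG c i).length,
      mulE (cG c i) (rmE c ty st i k t q) s'' s' * ent (cP c i) (ix k t s'') r)]
  refine Finset.sum_congr rfl fun k _ => ?_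
  have hd : (ρ.g i).natDegree = (cG c i).length := by rw [← hc.g i, monP_natDegree]
  rw [hd]
  refine Finset.sum_congr rfl fun u hu => ?_
  rw [Matrix.mulVec_single, hc.P i k u (Finset.mem_range.1 hu) r]
  congr 1
  rw [← lcf_mul_pow (cG c i) (hc.g i) (ρ.monic i) (rmE c ty st i k.1 k.2 q) u s',
    ← RM_apply (deg := deg) hc hn i hs k q]
  rfl

/-- the matrix of `GB` -/
theorem GB_eq (hc : Codes c ρ) (hn : ∀ i : Fin ρ.f, tn ty i = n i) (i : Fin ρ.f)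
    (hs : s i = stOf (ρ.g i) (n i) (ρ.na i) (ρ.nb i) st i) (q : Fin (n i)) (s' : ℕ) (r : Fin b) :
    ρ.GB deg s (Pi.single i (Pi.single q (ρ.th i ^ s'))) r = GBe c ty st i q s' r := by
  rw [GB_single, PLam.map_apply (ρ.monic i)]
  unfold GBe
  rw [← sum_blk (hc.nb i) (hc.mu i) (fun k t => ∑ s'' ∈ Finset.range (cG c i).length,
      mulE (cG c i) (mmE c ty st i k t q) s'' s' * ent (cQ c i) (ix k t s'') r)]
  refine Finset.sum_congr rfl fun k _ => ?_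
  have hd : (ρ.g i).natDegree = (cG c i).length := by rw [← hc.g i, monP_natDegree]
  rw [hd]
  refine Finset.sum_congr rfl fun u hu => ?_
  rw [Matrix.mulVec_single, hc.Q i k u (Finset.mem_range.1 hu) r]
  congr 1
  rw [← lcf_mul_pow (cG c i) (hc.g i) (ρ.monic i) (mmE c ty st i k.1 k.2 q) u s',
    ← MM_apply (deg := deg) hc hn i hs k q]
  rfl

/-- the support conditions of a coded state -/
theorem isSt_iff (hc : Codes c ρ) (hn : ∀ i : Fin ρ.f, tn ty i = n i)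
    (hd : ∀ (i : Fin ρ.f) (q : Fin (n i)), td ty i q = deg i q)
    (hs : ∀ i : Fin ρ.f, s i = stOf (ρ.g i) (n i) (ρ.na i) (ρ.nb i) st i) :
    (∀ i, IsSt (ρ.shp deg i) (s i)) ↔ StC c ty st := by
  have key : ∀ (i : Fin ρ.f) (l : List ℤ),
      (AdjoinRoot.mk (ρ.g i) (toP l) : Lam (ρ.g i)) = 0 ↔ monP (cG c i) ∣ toP l := by
    intro i l
    rw [AdjoinRoot.mk_eq_zero, hc.g i]
  constructor
  · intro h i hi
    have hi' : i < ρ.f := by rw [← hc.nf]; exact hi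
    have h1 := h ⟨i, hi'⟩
    rw [hs ⟨i, hi'⟩] at h1
    have hn' : tn ty i = n ⟨i, hi'⟩ := hn ⟨i, hi'⟩
    have hla : (cLa c i).length = ρ.na ⟨i, hi'⟩ := hc.na ⟨i, hi'⟩
    have hmu : (cMu c i).length = ρ.nb ⟨i, hi'⟩ := hc.nb ⟨i, hi'⟩
    refine ⟨?_, ?_, ?_⟩
    · intro p hp q hq hpq
      rw [hn'] at hp hq
      refine (key ⟨i, hi'⟩ _).1 (h1.c ⟨p, hp⟩ ⟨q, hq⟩ ?_)
      have e1 := hd ⟨i, hi'⟩ ⟨p, hp⟩
      have e2 := hd ⟨i, hi'⟩ ⟨q, hq⟩
      change deg _ _ ≤ deg _ _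
      rw [← e1, ← e2]
      exact hpq
    · intro k hk q hq hkq
      rw [hn'] at hq
      rw [hla] at hk
      refine (key ⟨i, hi'⟩ _).1 (h1.rho ⟨k, hk⟩ ⟨q, hq⟩ ?_)
      have e1 := hc.lam ⟨i, hi'⟩ ⟨k, hk⟩
      have e2 := hd ⟨i, hi'⟩ ⟨q, hq⟩
      change ρ.lam _ _ ≤ deg _ _
      rw [← e1, ← e2]
      exact hkq
    · intro k hk q hq hkq
      rw [hn'] at hq
      rw [hmu] at hk
      refine (key ⟨i, hi'⟩ _).1 (h1.tau ⟨k, hk⟩ ⟨q, hq⟩ ?_)
      have e1 := hc.mu ⟨i, hi'⟩ ⟨k, hk⟩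
      have e2 := hd ⟨i, hi'⟩ ⟨q, hq⟩
      change ρ.mu _ _ ≤ deg _ _
      rw [← e1, ← e2]
      exact hkq
  · intro h i
    obtain ⟨h1, h2, h3⟩ := h i (by rw [hc.nf]; exact i.2)
    rw [hs i]
    refine ⟨fun p q hpq => ?_, fun k q hkq => ?_, fun k q hkq => ?_⟩
    · refine (key i _).2 (h1 p (by rw [hn i]; exact p.2) q (by rw [hn i]; exact q.2) ?_)
      rw [hd, hd]
      exact hpq
    · refine (key i _).2 (h2 k (by rw [hc.na i]; exact k.2) q (by rw [hn i]; exact q.2) ?_)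
      rw [hd, hc.lam]
      exact hkq
    · refine (key i _).2 (h3 k (by rw [hc.nb i]; exact k.2) q (by rw [hn i]; exact q.2) ?_)
      rw [hd, hc.mu]
      exact hkq

end Pool.Agent.DEC.PSem1
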