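import Pool.Agent.DEC.P0
import Pool.Agent.DEC.PDefs

/-!
DEC project (MP_59dda0_an), P side: the integral identities `Ids` as the congruences `E1`, ..., `E4`
of codes.
-/

set_option autoImplicit false

open Matrix Polynomial

namespace Pool.Agent.DEC.PSem2

open Pool.Agent.DEC Pool.Agent.DEC.PPred Pool.Agent.DEC.PolyC Pool.Agent.DEC.PD

/-! ### storage of matrices -/

/-- every family `X x r` is stored in an integer matrix code, with the column indices `key x` -/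
theorem exists_im {J : Type} [Fintype J] (m : ℕ) (key : J → ℕ) (hkey : Function.Injective key)
    (X : J → Fin m → ℤ) : ∃ L : IM, ∀ (x : J) (r : Fin m), ent L r (key x) = X x r := by
  classical
  refine ⟨mk m (∑ x, key x + 1) fun r k => if h : r < m then
    ∑ x : J, (if key x = k then X x ⟨r, h⟩ else 0) else 0, fun x r => ?_⟩
  have hk : key x < ∑ x, key x + 1 :=
    Nat.lt_succ_of_le (Finset.single_le_sum (f := key) (fun _ _ => Nat.zero_le _)
      (Finset.mem_univ x))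
  rw [ent_mk _ r.2 hk, dif_pos r.2, Finset.sum_eq_single x]
  · rw [if_pos rfl]
  · intro y _ hy
    rw [if_neg fun h => hy (hkey h)]
  · intro h
    exact absurd (Finset.mem_univ x) h

theorem exists_im_iff {J : Type} [Fintype J] (m : ℕ) (key : J → ℕ)
    (hkey : Function.Injective key) (Q : Matrix J (Fin m) ℤ → Prop) :
    (∃ X, Q X) ↔ ∃ L : IM, Q (of fun x r => ent L r (key x)) := by
  constructor
  · rintro ⟨X, hX⟩
    obtain ⟨L, hL⟩ := exists_im m key hkey X
    refine ⟨L, ?_⟩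
    have h : (of fun x (r : Fin m) => ent L r (key x)) = X := by
      ext x r
      exact hL x r
    rw [h]
    exact hX
  · rintro ⟨L, hL⟩
    exact ⟨_, hL⟩

section main

variable {a b : ℕ} {A : Matrix (Fin a) (Fin a) ℕ} {B : Matrix (Fin b) (Fin b) ℕ}

/-- the index set of the power basis of `Γ` -/
abbrev J (ρ : Ref A B) (n : Fin ρ.f → ℕ) : Type :=
  Σ i : Fin ρ.f, Fin (n i) × Fin (ρ.g i).natDegree

/-- the storage index -/
def key {ρ : Ref A B} {n : Fin ρ.f → ℕ} (x : J ρ n) : ℕ := ix x.1 x.2.1 x.2.2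

theorem ix_inj {i j k i' j' k' : ℕ} (h : ix i j k = ix i' j' k') : i = i' ∧ j = j' ∧ k = k' := by
  unfold ix at h
  obtain ⟨h1, h2⟩ := Nat.pair_eq_pair.1 h
  obtain ⟨h3, h4⟩ := Nat.pair_eq_pair.1 h2
  exact ⟨h1, h3, h4⟩

theorem J_ext {ρ : Ref A B} {n : Fin ρ.f → ℕ} {x y : J ρ n} (h1 : (x.1 : ℕ) = y.1)
    (h2 : (x.2.1 : ℕ) = y.2.1) (h3 : (x.2.2 : ℕ) = y.2.2) : x = y := by
  obtain ⟨i, q, t⟩ := x
  obtain ⟨i', q', t'⟩ := y
  have h4 : i = i' := Fin.ext h1
  subst h4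
  have h5 : q = q' := Fin.ext h2
  have h6 : t = t' := Fin.ext h3
  rw [h5, h6]

theorem key_injective {ρ : Ref A B} {n : Fin ρ.f → ℕ} :
    Function.Injective (key : J ρ n → ℕ) := by
  intro x y h
  obtain ⟨h1, h2, h3⟩ := ix_inj h
  exact J_ext h1 h2 h3

/-- the parametrization of `Γ` by integral vectors -/
noncomputable def beta (ρ : Ref A B) (n : Fin ρ.f → ℕ) : (J ρ n → ℤ) →ₗ[ℤ] ρ.Gam n where
  toFun v := fun i q => ∑ t : Fin (ρ.g i).natDegree, v ⟨i, q, t⟩ • ρ.th i ^ (t : ℕ)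
  map_add' v w := by
    funext i q
    simp only [Pi.add_apply, add_smul, Finset.sum_add_distrib]
  map_smul' c v := by
    funext i q
    simp only [Pi.smul_apply, RingHom.id_apply, Finset.smul_sum, smul_eq_mul, mul_smul]

/-- coordinates -/
noncomputable def gamma (ρ : Ref A B) (n : Fin ρ.f → ℕ) : ρ.Gam n →ₗ[ℤ] (J ρ n → ℤ) where
  toFun z := fun x => P0.co (ρ.monic x.1) x.2.2 (z x.1 x.2.1)
  map_add' v w := by
    funext x
    simp only [Pi.add_apply, map_add]
  map_smul' c v := by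
    funext x
    simp only [Pi.smul_apply, RingHom.id_apply, map_smul]

theorem beta_gamma (ρ : Ref A B) (n : Fin ρ.f → ℕ) (z : ρ.Gam n) :
    beta ρ n (gamma ρ n z) = z := by
  funext i q
  change ∑ t : Fin (ρ.g i).natDegree, P0.co (ρ.monic i) t (z i q) • ρ.th i ^ (t : ℕ) = z i q
  rw [Fin.sum_univ_eq_sum_range (fun t => P0.co (ρ.monic i) t (z i q) • ρ.th i ^ t)]
  exact (P0.sum_co (ρ.monic i) (z i q)).symm

theorem gamma_beta (ρ : Ref A B) (n : Fin ρ.f → ℕ) (v : J ρ n → ℤ) :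
    gamma ρ n (beta ρ n v) = v := by
  funext x
  obtain ⟨i, q, t⟩ := x
  change P0.co (ρ.monic i) t (∑ u : Fin (ρ.g i).natDegree, v ⟨i, q, u⟩ • ρ.th i ^ (u : ℕ)) = _
  rw [map_sum, Finset.sum_eq_single t]
  · rw [map_smul, P0.co_root_pow (ρ.monic i) t.2, if_pos rfl, smul_eq_mul, mul_one]
  · intro u _ hu
    rw [map_smul, P0.co_root_pow (ρ.monic i) u.2, if_neg (fun h => hu (Fin.ext h.symm)),
      smul_zero]
  · intro h
    exact absurd (Finset.mem_univ t) h

theorem matOf_one (ρ : Ref A B) (n : Fin ρ.f → ℕ) :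
    P0.matOf (gamma ρ n ∘ₗ beta ρ n) = 1 := by
  ext x y
  change gamma ρ n (beta ρ n (Pi.single y 1)) x = _
  rw [gamma_beta, Matrix.one_apply, Pi.single_apply]

theorem beta_single (ρ : Ref A B) (n : Fin ρ.f → ℕ) (x : J ρ n) :
    beta ρ n (Pi.single x 1) = Pi.single x.1 (Pi.single x.2.1 (ρ.th x.1 ^ (x.2.2 : ℕ))) := by
  obtain ⟨i, q, t⟩ := x
  funext i' q'
  change ∑ u : Fin (ρ.g i').natDegree,
    (Pi.single (⟨i, q, t⟩ : J ρ n) (1 : ℤ) : J ρ n → ℤ) ⟨i', q', u⟩ • ρ.th i' ^ (u : ℕ) = _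
  by_cases hi : i' = i
  · subst hi
    rw [Pi.single_eq_same]
    by_cases hq : q' = q
    · subst hq
      rw [Pi.single_eq_same, Finset.sum_eq_single t]
      · rw [Pi.single_eq_same, one_smul]
      · intro u _ hu
        rw [Pi.single_eq_of_ne, zero_smul]
        intro h
        have h2 := eq_of_heq (Sigma.mk.inj h).2
        exact hu (Prod.mk.inj h2).2
      · intro h
        exact absurd (Finset.mem_univ t) h
    · rw [Pi.single_eq_of_ne hq]
      refine Finset.sum_eq_zero fun u _ => ?_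
      rw [Pi.single_eq_of_ne, zero_smul]
      intro h
      have h2 := eq_of_heq (Sigma.mk.inj h).2
      exact hq (Prod.mk.inj h2).1
  · rw [Pi.single_eq_of_ne hi, Pi.zero_apply]
    refine Finset.sum_eq_zero fun u _ => ?_
    rw [Pi.single_eq_of_ne, zero_smul]
    intro h
    exact hi (Sigma.mk.inj h).1

variable {ρ : Ref A B} {c : RC} (hc : Codes c ρ) {n : Fin ρ.f → ℕ} {ty : TC}
  (hn : ∀ i : Fin ρ.f, tn ty i = n i)

include hc in
theorem length_cG (i : Fin ρ.f) : (cG c i).length = (ρ.g i).natDegree := by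
  rw [← hc.g i, monP_natDegree]

include hc hn in
theorem forall_J (Q : ℕ → ℕ → ℕ → Prop) :
    (∀ x : J ρ n, Q x.1 x.2.1 x.2.2) ↔
      ∀ i < c.1.length, ∀ q < tn ty i, ∀ t < (cG c i).length, Q i q t := by
  rw [hc.nf]
  constructor
  · intro h i hi q hq t ht
    rw [hn ⟨i, hi⟩] at hq
    rw [length_cG hc ⟨i, hi⟩] at ht
    exact h ⟨⟨i, hi⟩, ⟨q, hq⟩, ⟨t, ht⟩⟩
  · rintro h ⟨i, q, t⟩
    refine h i i.2 q ?_ t ?_
    · rw [hn i]
      exact q.2
    · rw [length_cG hc i]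
      exact t.2

include hc hn in
theorem sum_J {M : Type} [AddCommMonoid M] (Q : ℕ → ℕ → ℕ → M) :
    ∑ x : J ρ n, Q x.1 x.2.1 x.2.2 =
      ∑ i ∈ Finset.range c.1.length, ∑ q ∈ Finset.range (tn ty i),
        ∑ t ∈ Finset.range (cG c i).length, Q i q t := by
  rw [hc.nf, Fintype.sum_sigma, ← Fin.sum_univ_eq_sum_range
    (fun i => ∑ q ∈ Finset.range (tn ty i), ∑ t ∈ Finset.range (cG c i).length, Q i q t)]
  refine Finset.sum_congr rfl fun i _ => ?_
  rw [Fintype.sum_prod_type, hn i, length_cG hc i, ← Fin.sum_univ_eq_sum_range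
    (fun q => ∑ t ∈ Finset.range (ρ.g i).natDegree, Q i q t)]
  refine Finset.sum_congr rfl fun q _ => ?_
  rw [← Fin.sum_univ_eq_sum_range (fun t => Q i q t)]

include hc in
theorem cD_eq : cD a c = ρ.D := by
  unfold cD Ref.D
  rw [hc.Δ, hc.q]

/-- **The integral identities over codes.** -/
theorem ids_iff_codes {deg : ∀ i, Fin (n i) → ℕ} {s : ρ.MSt n} {st : SC}
    (hc : Codes c ρ) (hn : ∀ i : Fin ρ.f, tn ty i = n i)
    (hGA : ∀ (i : Fin ρ.f) (q : Fin (n i)) (t : ℕ), t < (ρ.g i).natDegree → ∀ r : Fin a,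
      ρ.GA deg s (Pi.single i (Pi.single q (ρ.th i ^ t))) r = GAe c ty st i q t r)
    (hGB : ∀ (i : Fin ρ.f) (q : Fin (n i)) (t : ℕ), t < (ρ.g i).natDegree → ∀ r : Fin b,
      ρ.GB deg s (Pi.single i (Pi.single q (ρ.th i ^ t))) r = GBe c ty st i q t r)
    (BB : IM) (hB : toMat b b BB = zM B) (N : ℕ) :
    Ids ρ deg s N ↔ ∃ (R' Ps T T' : IM) (l : ℕ), E1 a c ty st R' N ∧ E2 a b c ty st Ps N ∧
      E3 a b c ty st T T' N ∧ E4 a b c ty st T (mpow b BB l) N := by
  rw [P0.ids_iff ρ deg s (beta ρ n) (gamma ρ n) (beta_gamma ρ n) N, matOf_one]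
  have hRG : ∀ r x, P0.RG ρ deg s (beta ρ n) r x = GAe c ty st x.1 x.2.1 x.2.2 r := by
    intro r x
    rw [P0.RG_apply, beta_single, hGA _ _ _ x.2.2.2]
  have hMG : ∀ r x, P0.MG ρ deg s (beta ρ n) r x = GBe c ty st x.1 x.2.1 x.2.2 r := by
    intro r x
    rw [P0.MG_apply, beta_single, hGB _ _ _ x.2.2.2]
  have k1 : ∀ R' : IM, MCong N ((of fun (x : J ρ n) (r : Fin a) => ent R' r (key x)) *
      P0.RG ρ deg s (beta ρ n)) ((ρ.D : ℤ) • (1 : Matrix (J ρ n) (J ρ n) ℤ)) ↔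
      E1 a c ty st R' N := by
    intro R'
    have e : ∀ x' x : J ρ n, ((of fun (x : J ρ n) (r : Fin a) => ent R' r (key x)) *
        P0.RG ρ deg s (beta ρ n)) x' x - ((ρ.D : ℤ) • (1 : Matrix (J ρ n) (J ρ n) ℤ)) x' x =
        (∑ r ∈ Finset.range a, GAe c ty st x.1 x.2.1 x.2.2 r *
          ent R' r (ix x'.1 x'.2.1 x'.2.2)) -
        (if (x.1 : ℕ) = x'.1 ∧ (x.2.1 : ℕ) = x'.2.1 ∧ (x.2.2 : ℕ) = x'.2.2
          then (cD a c : ℤ) else 0) := by
      intro x' x
      rw [Matrix.mul_apply, ← Fin.sum_univ_eq_sum_range (fun r => GAe c ty st x.1 x.2.1 x.2.2 r *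
          ent R' r (ix x'.1 x'.2.1 x'.2.2)), Matrix.smul_apply, Matrix.one_apply, cD_eq hc]
      congr 1
      · refine Finset.sum_congr rfl fun r _ => ?_
        rw [hRG, mul_comm]
        rfl
      · by_cases h : x' = x
        · subst h
          rw [if_pos rfl, if_pos ⟨rfl, rfl, rfl⟩, smul_eq_mul, mul_one]
        · rw [if_neg h, if_neg fun h2 => h (J_ext h2.1 h2.2.1 h2.2.2).symm, smul_zero]
    unfold MCong E1
    rw [← forall_J hc hn fun i q t => ∀ i' < c.1.length, ∀ q' < tn ty i',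
      ∀ t' < (cG c i').length, (N : ℤ) ∣ (∑ r ∈ Finset.range a, GAe c ty st i q t r *
        ent R' r (ix i' q' t')) - (if i = i' ∧ q = q' ∧ t = t' then (cD a c : ℤ) else 0),
      forall_comm]
    refine forall_congr' fun x => ?_
    rw [← forall_J hc hn fun i' q' t' => (N : ℤ) ∣ (∑ r ∈ Finset.range a,
      GAe c ty st x.1 x.2.1 x.2.2 r * ent R' r (ix i' q' t')) -
        (if (x.1 : ℕ) = i' ∧ (x.2.1 : ℕ) = q' ∧ (x.2.2 : ℕ) = t' then (cD a c : ℤ) else 0)]
    refine forall_congr' fun x' => ?_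
    rw [e x' x]
  have k2 : ∀ Ps : IM, MCong N ((of fun (x : Fin b) (r : Fin a) => ent Ps r (x : ℕ)) *
      P0.RG ρ deg s (beta ρ n)) (P0.MG ρ deg s (beta ρ n)) ↔ E2 a b c ty st Ps N := by
    intro Ps
    unfold MCong E2
    rw [← forall_J hc hn fun i q t => ∀ r' < b, (N : ℤ) ∣ (∑ r ∈ Finset.range a,
      GAe c ty st i q t r * ent Ps r r') - GBe c ty st i q t r', forall_comm]
    refine forall_congr' fun x => ?_
    have e : ∀ r' : Fin b, ((of fun (x : Fin b) (r : Fin a) => ent Ps r (x : ℕ)) *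
        P0.RG ρ deg s (beta ρ n)) r' x - P0.MG ρ deg s (beta ρ n) r' x =
        (∑ r ∈ Finset.range a, GAe c ty st x.1 x.2.1 x.2.2 r * ent Ps r r') -
          GBe c ty st x.1 x.2.1 x.2.2 r' := by
      intro r'
      rw [Matrix.mul_apply, hMG, ← Fin.sum_univ_eq_sum_range
        (fun r => GAe c ty st x.1 x.2.1 x.2.2 r * ent Ps r r')]
      congr 1
      refine Finset.sum_congr rfl fun r _ => ?_
      rw [hRG, mul_comm]
      rfl
    exact ⟨fun h r' hr' => by rw [← e ⟨r', hr'⟩]; exact h ⟨r', hr'⟩,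
      fun h r' => by rw [e r']; exact h r' r'.2⟩
  have k3 : ∀ T T' : IM, MCong N (P0.RG ρ deg s (beta ρ n) *
      (of fun (x : J ρ n) (r : Fin b) => ent T r (key x)))
      ((ρ.D : ℤ) • (of fun (x : Fin a) (r : Fin b) => ent T' r (x : ℕ))) ↔
      E3 a b c ty st T T' N := by
    intro T T'
    unfold MCong E3
    rw [forall_comm]
    have e : ∀ (w : Fin b) (r : Fin a), (P0.RG ρ deg s (beta ρ n) *
        (of fun (x : J ρ n) (r : Fin b) => ent T r (key x))) r w -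
        ((ρ.D : ℤ) • (of fun (x : Fin a) (r : Fin b) => ent T' r (x : ℕ))) r w =
        (∑ i ∈ Finset.range c.1.length, ∑ q ∈ Finset.range (tn ty i),
          ∑ t ∈ Finset.range (cG c i).length, ent T w (ix i q t) * GAe c ty st i q t r) -
        (cD a c : ℤ) * ent T' w r := by
      intro w r
      rw [Matrix.mul_apply, ← sum_J hc hn fun i q t => ent T w (ix i q t) * GAe c ty st i q t r,
        cD_eq hc]
      congr 1
      refine Finset.sum_congr rfl fun x _ => ?_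
      rw [hRG, mul_comm]
      rfl
    exact ⟨fun h w hw r hr => by rw [← e ⟨w, hw⟩ ⟨r, hr⟩]; exact h ⟨w, hw⟩ ⟨r, hr⟩,
      fun h w r => by rw [e w r]; exact h w w.2 r r.2⟩
  have k4 : ∀ (T : IM) (l : ℕ), MCong N (P0.MG ρ deg s (beta ρ n) *
      (of fun (x : J ρ n) (r : Fin b) => ent T r (key x))) ((ρ.D : ℤ) • ((zM B) ^ l)ᵀ) ↔
      E4 a b c ty st T (mpow b BB l) N := by
    intro T l
    unfold MCong E4
    rw [forall_comm]
    have hl : toMat b b (mpow b BB l) = (zM B) ^ l := by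
      rw [toMat_mpow, hB]
    have e : ∀ (w : Fin b) (r : Fin b), (P0.MG ρ deg s (beta ρ n) *
        (of fun (x : J ρ n) (r : Fin b) => ent T r (key x))) r w -
        ((ρ.D : ℤ) • ((zM B) ^ l)ᵀ) r w =
        (∑ i ∈ Finset.range c.1.length, ∑ q ∈ Finset.range (tn ty i),
          ∑ t ∈ Finset.range (cG c i).length, ent T w (ix i q t) * GBe c ty st i q t r) -
        (cD a c : ℤ) * ent (mpow b BB l) w r := by
      intro w r
      rw [Matrix.mul_apply, ← sum_J hc hn fun i q t => ent T w (ix i q t) * GBe c ty st i q t r,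
        cD_eq hc, ← hl]
      congr 1
      refine Finset.sum_congr rfl fun x _ => ?_
      rw [hMG, mul_comm]
      rfl
    exact ⟨fun h w hw r hr => by rw [← e ⟨w, hw⟩ ⟨r, hr⟩]; exact h ⟨w, hw⟩ ⟨r, hr⟩,
      fun h w r => by rw [e w r]; exact h w w.2 r r.2⟩
  constructor
  · rintro ⟨R', Ψ, T, T', l, e1, e2, e3, e4⟩
    obtain ⟨LR, hLR⟩ := exists_im a (key : J ρ n → ℕ) key_injective R'
    obtain ⟨LP, hLP⟩ := exists_im a (fun x : Fin b => (x : ℕ)) Fin.val_injective Ψ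
    obtain ⟨LT, hLT⟩ := exists_im b (key : J ρ n → ℕ) key_injective T
    obtain ⟨LT', hLT'⟩ := exists_im b (fun x : Fin a => (x : ℕ)) Fin.val_injective T'
    have f1 : (of fun (x : J ρ n) (r : Fin a) => ent LR r (key x)) = R' := by
      ext x r; exact hLR x r
    have f2 : (of fun (x : Fin b) (r : Fin a) => ent LP r (x : ℕ)) = Ψ := by
      ext x r; exact hLP x r
    have f3 : (of fun (x : J ρ n) (r : Fin b) => ent LT r (key x)) = T := by
      ext x r; exact hLT x r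
    have f4 : (of fun (x : Fin a) (r : Fin b) => ent LT' r (x : ℕ)) = T' := by
      ext x r; exact hLT' x r
    refine ⟨LR, LP, LT, LT', l, (k1 LR).1 ?_, (k2 LP).1 ?_, (k3 LT LT').1 ?_, (k4 LT l).1 ?_⟩
    · rw [f1]; exact e1
    · rw [f2]; exact e2
    · rw [f3, f4]; exact e3
    · rw [f3]; exact e4
  · rintro ⟨R', Ps, T, T', l, e1, e2, e3, e4⟩
    exact ⟨_, _, _, _, l, (k1 R').2 e1, (k2 Ps).2 e2, (k3 T T').2 e3, (k4 T l).2 e4⟩

end main

end Pool.Agent.DEC.PSem2
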