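import Pool.Agent.DEC.CR

/-!
DEC project (MP_59dda0_an), computability layer, part 5: integer polynomials as lists of
coefficients, reduction modulo a monic polynomial.
-/

set_option autoImplicit false

namespace Pool.Agent.DEC

open Primrec Polynomial

namespace PolyC

/-- the polynomial with the given list of coefficients -/
noncomputable def toP (l : List ℤ) : ℤ[X] := l.foldr (fun a p => C a + X * p) 0

@[simp] theorem toP_nil : toP [] = 0 := rfl

@[simp] theorem toP_cons (a : ℤ) (l : List ℤ) : toP (a :: l) = C a + X * toP l := rfl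

theorem coeff_toP (l : List ℤ) (i : ℕ) : (toP l).coeff i = l.getD i 0 := by
  induction l generalizing i with
  | nil => simp
  | cons a l ih =>
    rw [toP_cons]
    cases i with
    | zero => simp
    | succ i =>
      rw [coeff_add, coeff_X_mul, ih, coeff_C_succ, zero_add]
      rfl

/-- the list of the values of a function -/
def tabl (n : ℕ) (f : ℕ → ℤ) : List ℤ := (List.range n).map f

theorem tabl_getD (n : ℕ) (f : ℕ → ℤ) (i : ℕ) : (tabl n f).getD i 0 = if i < n then f i else 0 := by
  unfold tabl
  rw [List.getD_eq_getElem?_getD]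
  by_cases h : i < n
  · simp [h]
  · simp [h]

@[simp] theorem tabl_length (n : ℕ) (f : ℕ → ℤ) : (tabl n f).length = n := by simp [tabl]

theorem coeff_tabl (n : ℕ) (f : ℕ → ℤ) (i : ℕ) :
    (toP (tabl n f)).coeff i = if i < n then f i else 0 := by
  rw [coeff_toP, tabl_getD]

theorem getD_of_le {l : List ℤ} {i : ℕ} (h : l.length ≤ i) : l.getD i 0 = 0 := by
  rw [List.getD_eq_getElem?_getD, List.getElem?_eq_none h]
  rfl

/-- a code of a polynomial -/
noncomputable def ofP (p : ℤ[X]) : List ℤ := tabl (p.natDegree + 1) p.coeff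

@[simp] theorem toP_ofP (p : ℤ[X]) : toP (ofP p) = p := by
  ext i
  unfold ofP
  rw [coeff_tabl]
  split_ifs with h
  · rfl
  · exact (coeff_eq_zero_of_natDegree_lt (by omega)).symm

def padd (l m : List ℤ) : List ℤ :=
  tabl (max l.length m.length) fun i => l.getD i 0 + m.getD i 0

theorem toP_padd (l m : List ℤ) : toP (padd l m) = toP l + toP m := by
  ext i
  unfold padd
  rw [coeff_tabl, coeff_add, coeff_toP, coeff_toP]
  split_ifs with h
  · rfl
  · rw [getD_of_le (by omega), getD_of_le (by omega), add_zero]

def pneg (l : List ℤ) : List ℤ := tabl l.length fun i => - l.getD i 0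

theorem toP_pneg (l : List ℤ) : toP (pneg l) = - toP l := by
  ext i
  unfold pneg
  rw [coeff_tabl, coeff_neg, coeff_toP]
  split_ifs with h
  · rfl
  · rw [getD_of_le (by omega), neg_zero]

def pmul (l m : List ℤ) : List ℤ :=
  tabl (l.length + m.length) fun i => ∑ j ∈ Finset.range (i + 1), l.getD j 0 * m.getD (i - j) 0

theorem toP_pmul (l m : List ℤ) : toP (pmul l m) = toP l * toP m := by
  ext i
  unfold pmul
  rw [coeff_tabl, coeff_mul, Finset.Nat.sum_antidiagonal_eq_sum_range_succ_mk]
  simp only [coeff_toP]
  split_ifs with h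
  · rfl
  · symm
    refine Finset.sum_eq_zero fun j hj => ?_
    rw [Finset.mem_range] at hj
    by_cases h1 : l.length ≤ j
    · rw [getD_of_le h1, zero_mul]
    · rw [getD_of_le (l := m) (by omega), mul_zero]

section pr

variable {α : Type*} [Primcodable α]

theorem pTabl {n : α → ℕ} {f : α → ℕ → ℤ} (hn : Primrec n) (hf : Primrec₂ f) :
    Primrec fun a => tabl (n a) (f a) := Primrec.list_map (list_range.comp hn) hf

theorem pGetD {l : α → List ℤ} {i : α → ℕ} (hl : Primrec l) (hi : Primrec i) :
    Primrec fun a => (l a).getD (i a) 0 := (Primrec.list_getD (0 : ℤ)).comp hl hi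

theorem pPadd : Primrec₂ padd :=
  pTabl (n := fun p : List ℤ × List ℤ => max p.1.length p.2.length)
    (f := fun (p : List ℤ × List ℤ) (i : ℕ) => p.1.getD i 0 + p.2.getD i 0)
    (Primrec.nat_max.comp (list_length.comp fst) (list_length.comp snd))
    (primrec_int_add.comp (pGetD (fst.comp fst) snd) (pGetD (snd.comp fst) snd))

theorem pPneg : Primrec pneg :=
  pTabl (n := fun p : List ℤ => p.length) (f := fun (p : List ℤ) (i : ℕ) => - p.getD i 0)
    list_length (primrec_int_neg.comp (pGetD fst snd))

theorem pPmul : Primrec₂ pmul := by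
  refine pTabl (n := fun p : List ℤ × List ℤ => p.1.length + p.2.length)
    (f := fun (p : List ℤ × List ℤ) (i : ℕ) =>
      ∑ j ∈ Finset.range (i + 1), p.1.getD j 0 * p.2.getD (i - j) 0)
    (Primrec.nat_add.comp (list_length.comp fst) (list_length.comp snd)) ?_
  refine pSum (n := fun q : (List ℤ × List ℤ) × ℕ => q.2 + 1)
    (f := fun (q : (List ℤ × List ℤ) × ℕ) (j : ℕ) => q.1.1.getD j 0 * q.1.2.getD (q.2 - j) 0)
    (Primrec.succ.comp snd) ?_
  exact primrec_int_mul.comp (pGetD (fst.comp (fst.comp fst)) snd)
    (pGetD (snd.comp (fst.comp fst)) (Primrec.nat_sub.comp (snd.comp fst) snd))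

end pr

end PolyC

open PolyC in
/-- polynomials -/
noncomputable def CR.poly : CR (List ℤ) ℤ[X] where
  val := toP
  zero := []
  one := [1]
  add := padd
  mul := pmul
  neg := pneg
  val_zero := rfl
  val_one := by simp
  val_add := toP_padd
  val_mul := toP_pmul
  val_neg := toP_pneg
  pr_add := pPadd
  pr_mul := pPmul
  pr_neg := pPneg

namespace PolyC

/-! ### reduction modulo a monic polynomial -/

/-- the monic polynomial with lower coefficients `G` -/
noncomputable def monP (G : List ℤ) : ℤ[X] := X ^ G.length + toP G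

theorem degree_toP_lt (G : List ℤ) : (toP G).degree < G.length := by
  rw [degree_lt_iff_coeff_zero]
  intro m hm
  rw [coeff_toP, getD_of_le hm]

theorem monP_monic (G : List ℤ) : (monP G).Monic := monic_X_pow_add (degree_toP_lt G)

theorem monP_natDegree (G : List ℤ) : (monP G).natDegree = G.length := by
  refine natDegree_eq_of_degree_eq_some ?_
  unfold monP
  rw [degree_add_eq_left_of_degree_lt, degree_X_pow]
  rw [degree_X_pow]
  exact degree_toP_lt G

theorem monP_degree (G : List ℤ) : (monP G).degree = G.length := by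
  rw [degree_eq_natDegree (monP_monic G).ne_zero, monP_natDegree]

/-- every monic polynomial has a code -/
theorem exists_monP {p : ℤ[X]} (hp : p.Monic) : ∃ G : List ℤ, monP G = p := by
  refine ⟨tabl p.natDegree p.coeff, ?_⟩
  ext i
  unfold monP
  rw [coeff_add, coeff_X_pow, coeff_tabl, tabl_length]
  rcases lt_trichotomy i p.natDegree with h | h | h
  · rw [if_neg h.ne, if_pos h, zero_add]
  · subst h
    rw [if_pos rfl, if_neg (lt_irrefl _), add_zero]
    exact hp.coeff_natDegree.symm
  · rw [if_neg h.ne', if_neg h.not_gt, add_zero]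
    exact (coeff_eq_zero_of_natDegree_lt h).symm

/-- one Horner step: `a + X v` modulo the monic polynomial -/
def hstep (G : List ℤ) (a : ℤ) (v : List ℤ) : List ℤ :=
  tabl G.length fun i => (if i = 0 then a else v.getD (i - 1) 0) -
    v.getD (G.length - 1) 0 * G.getD i 0

/-- the remainder modulo the monic polynomial -/
def pmod (G : List ℤ) (l : List ℤ) : List ℤ := l.foldr (hstep G) []

@[simp] theorem pmod_nil (G : List ℤ) : pmod G [] = [] := rfl

theorem pmod_cons (G : List ℤ) (a : ℤ) (l : List ℤ) :
    pmod G (a :: l) = hstep G a (pmod G l) := rfl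

theorem pmod_length_le (G l : List ℤ) : (pmod G l).length ≤ G.length := by
  cases l with
  | nil => simp
  | cons a l => rw [pmod_cons]; simp [hstep]

theorem toP_hstep (G : List ℤ) (hG : 0 < G.length) (a : ℤ) (v : List ℤ)
    (hv : v.length ≤ G.length) :
    toP (hstep G a v) = C a + X * toP v - C (v.getD (G.length - 1) 0) * monP G := by
  ext i
  unfold hstep monP
  rw [coeff_tabl, coeff_sub, coeff_add, coeff_C_mul, coeff_add, coeff_X_pow, coeff_toP G]
  rcases Nat.eq_zero_or_pos i with rfl | hi
  · rw [if_pos hG, if_pos rfl, if_neg hG.ne]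
    simp
  · obtain ⟨j, rfl⟩ : ∃ j, i = j + 1 := ⟨i - 1, by omega⟩
    rw [coeff_X_mul, coeff_toP, coeff_C]
    by_cases h : j + 1 < G.length
    · rw [if_pos h, if_neg (by omega), if_neg (by omega), if_neg (by omega)]
      simp
    · rw [if_neg h]
      by_cases h2 : j + 1 = G.length
      · rw [if_pos h2, if_neg (by omega), getD_of_le (l := G) (by omega)]
        have : G.length - 1 = j := by omega
        rw [this]
        ring
      · rw [if_neg h2, if_neg (by omega), getD_of_le (l := G) (by omega),
          getD_of_le (l := v) (by omega)]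
        ring

theorem dvd_sub_pmod (G l : List ℤ) : monP G ∣ toP l - toP (pmod G l) := by
  rcases Nat.eq_zero_or_pos G.length with h0 | h0
  · have : monP G = 1 := by
      rw [List.length_eq_zero_iff.1 h0]
      simp [monP]
    rw [this]
    exact one_dvd _
  · induction l with
    | nil => simp
    | cons a l ih =>
      rw [pmod_cons, toP_hstep G h0 a _ (pmod_length_le G l), toP_cons]
      have : C a + X * toP l - (C a + X * toP (pmod G l) -
          C ((pmod G l).getD (G.length - 1) 0) * monP G) =
          X * (toP l - toP (pmod G l)) + C ((pmod G l).getD (G.length - 1) 0) * monP G := by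
        ring
      rw [this]
      exact dvd_add (ih.mul_left _) (dvd_mul_left _ _)

theorem toP_eq_zero_iff (l : List ℤ) (n : ℕ) (h : l.length ≤ n) :
    toP l = 0 ↔ ∀ i < n, l.getD i 0 = 0 := by
  constructor
  · intro h1 i _
    rw [← coeff_toP, h1, coeff_zero]
  · intro h1
    ext i
    rw [coeff_toP, coeff_zero]
    by_cases hi : i < n
    · exact h1 i hi
    · exact getD_of_le (by omega)

/-- divisibility by the monic polynomial modulo `N` is read off from the remainder -/
theorem dvd_mod_iff (G l : List ℤ) (N : ℤ) :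
    (∃ h : ℤ[X], monP G ∣ toP l - C N * h) ↔ ∀ i < G.length, N ∣ (pmod G l).getD i 0 := by
  obtain ⟨q, hq⟩ := dvd_sub_pmod G l
  have hdeg : (toP (pmod G l)).degree < (monP G).degree := by
    rw [monP_degree]
    exact (degree_toP_lt _).trans_le (by exact_mod_cast pmod_length_le G l)
  constructor
  · rintro ⟨h, q', hq'⟩
    have h1 : toP (pmod G l) - C N * (h %ₘ monP G) =
        monP G * (q' - q + C N * (h /ₘ monP G)) := by
      have h2 := modByMonic_add_div h (monP G)
      have h3 : toP (pmod G l) = toP l - monP G * q := by rw [← hq]; ring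
      rw [h3]
      have h4 : toP l = C N * h + monP G * q' := by rw [← hq']; ring
      rw [h4]
      nth_rewrite 1 [← h2]
      ring
    have h5 : (toP (pmod G l) - C N * (h %ₘ monP G)).degree < (monP G).degree := by
      refine (degree_sub_le _ _).trans_lt (max_lt hdeg ?_)
      rcases eq_or_ne N 0 with rfl | hN
      · simp only [map_zero, zero_mul, degree_zero]
        exact bot_lt_iff_ne_bot.2 (degree_ne_bot.2 (monP_monic G).ne_zero)
      · exact ((degree_C_mul hN).le.trans_lt (degree_modByMonic_lt _ (monP_monic G)))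
    have h6 : toP (pmod G l) - C N * (h %ₘ monP G) = 0 := by
      by_contra hne
      exact absurd h5 (not_lt.2 (degree_le_of_dvd ⟨_, h1⟩ hne))
    intro i _
    rw [← coeff_toP, sub_eq_zero.1 h6, coeff_C_mul]
    exact dvd_mul_right _ _
  · intro h
    have h1 : ∀ i, N ∣ (toP (pmod G l)).coeff i := by
      intro i
      rw [coeff_toP]
      by_cases hi : i < G.length
      · exact h i hi
      · rw [getD_of_le ((pmod_length_le G l).trans (by omega))]
        exact dvd_zero _
    obtain ⟨h', hh'⟩ := (C_dvd_iff_dvd_coeff N _).2 h1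
    refine ⟨h', q, ?_⟩
    rw [← hq, hh']

/-- divisibility by the monic polynomial -/
theorem dvd_iff (G l : List ℤ) :
    monP G ∣ toP l ↔ ∀ i < G.length, (pmod G l).getD i 0 = 0 := by
  have h := dvd_mod_iff G l 0
  simp only [map_zero, zero_mul, sub_zero, exists_const, zero_dvd_iff] at h
  exact h

section pr

variable {α : Type*} [Primcodable α]

theorem pHstep : Primrec fun q : List ℤ × ℤ × List ℤ => hstep q.1 q.2.1 q.2.2 := by
  refine pTabl (n := fun q : List ℤ × ℤ × List ℤ => q.1.length)
    (f := fun (q : List ℤ × ℤ × List ℤ) (i : ℕ) => (if i = 0 then q.2.1 else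
      q.2.2.getD (i - 1) 0) - q.2.2.getD (q.1.length - 1) 0 * q.1.getD i 0)
    (list_length.comp fst) ?_
  have h1 : Primrec fun r : (List ℤ × ℤ × List ℤ) × ℕ => r.1.2.2 := snd.comp (snd.comp fst)
  refine primrec_int_sub.comp (Primrec.ite (Primrec.eq.comp snd (Primrec.const 0))
    (fst.comp (snd.comp fst)) (pGetD h1 (Primrec.nat_sub.comp snd (Primrec.const 1)))) ?_
  exact primrec_int_mul.comp (pGetD h1 (Primrec.nat_sub.comp
    (list_length.comp (fst.comp fst)) (Primrec.const 1))) (pGetD (fst.comp fst) snd)

theorem pPmod : Primrec₂ pmod := by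
  unfold pmod
  refine Primrec.list_foldr (f := fun p : List ℤ × List ℤ => p.2) (g := fun _ => ([] : List ℤ))
    (h := fun (p : List ℤ × List ℤ) (q : ℤ × List ℤ) => hstep p.1 q.1 q.2) snd
    (Primrec.const _) ?_
  exact pHstep.comp (Primrec.pair (fst.comp fst) (Primrec.pair (fst.comp snd) (snd.comp snd)))

theorem pDvdInt : PrimrecRel fun a b : ℤ => a ∣ b := by
  have h : PrimrecPred fun p : ℤ × ℤ => p.2.natAbs % p.1.natAbs = 0 :=
    Primrec.eq.comp (Primrec.nat_mod.comp (primrec_natAbs.comp snd) (primrec_natAbs.comp fst))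
      (Primrec.const 0)
  exact h.of_eq fun p => by
    change p.2.natAbs % p.1.natAbs = 0 ↔ p.1 ∣ p.2
    rw [← Int.natAbs_dvd_natAbs, Nat.dvd_iff_mod_eq_zero]

/-- `monP G` divides `toP l` modulo `N` -/
theorem pDvdMod {G l : α → List ℤ} {N : α → ℤ} (hG : Primrec G) (hl : Primrec l)
    (hN : Primrec N) :
    PrimrecPred fun a => ∃ h : ℤ[X], monP (G a) ∣ toP (l a) - C (N a) * h := by
  have h : PrimrecPred fun a => ∀ i ∈ List.range (G a).length,
      N a ∣ (pmod (G a) (l a)).getD i 0 := by
    have h1 : PrimrecRel fun (i : ℕ) (a : α) => N a ∣ (pmod (G a) (l a)).getD i 0 :=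
      pDvdInt.comp (hN.comp snd) (pGetD (pPmod.comp (hG.comp snd) (hl.comp snd)) fst)
    exact (h1.forall_mem_list).comp (list_range.comp (list_length.comp hG)) Primrec.id
  exact h.of_eq fun a => by
    rw [dvd_mod_iff]
    simp only [List.mem_range]

theorem pDvd {G l : α → List ℤ} (hG : Primrec G) (hl : Primrec l) :
    PrimrecPred fun a => monP (G a) ∣ toP (l a) :=
  (pDvdMod hG hl (Primrec.const 0)).of_eq fun a => by simp

end pr

end PolyC

end Pool.Agent.DEC
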