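import Pool.Agent.DEC.Core
import Pool.Agent.DEC.PolyC
import Pool.Agent.DEC.PPred

/-!
DEC project (MP_59dda0_an), computability layer: the trace condition of a type over codes.

* `trX G k` is the trace of `θ ^ k` on `ℤ[x] / (monP G)`, computed by the companion matrix;
* `trC_iff`: for a primitive `B` the trace condition is a bounded condition.
-/

set_option autoImplicit false

open Matrix Polynomial

namespace Pool.Agent.DEC.TrC8

open Primrec Pool.Agent.DEC PolyC

/-- the companion matrix (multiplication by `x` on the power basis) -/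
def comp (G : List ℤ) : IM :=
  mk G.length G.length fun i j =>
    if j + 1 = G.length then - G.getD i 0 else if i = j + 1 then 1 else 0

/-- the trace of `θ ^ k` -/
def trX (G : List ℤ) (k : ℕ) : ℤ := mtrace G.length (mpow G.length (comp G) k)

theorem pComp {α : Type*} [Primcodable α] {G : α → List ℤ} (hG : Primrec G) :
    Primrec fun a => comp (G a) := by
  refine pMk (n := fun a => (G a).length) (m := fun a => (G a).length)
    (f := fun (a : α) (i j : ℕ) => if j + 1 = (G a).length then - (G a).getD i 0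
      else if i = j + 1 then 1 else 0) (list_length.comp hG) (list_length.comp hG) ?_
  have h1 : Primrec fun q : α × ℕ × ℕ => q.2.2 + 1 := Primrec.succ.comp (snd.comp snd)
  refine Primrec.ite (Primrec.eq.comp h1 (list_length.comp (hG.comp fst))) ?_ ?_
  · exact primrec_int_neg.comp (pGetD (hG.comp fst) (fst.comp snd))
  · exact Primrec.ite (Primrec.eq.comp (fst.comp snd) h1) (Primrec.const 1) (Primrec.const 0)

theorem pTrX {α : Type*} [Primcodable α] {G : α → List ℤ} {k : α → ℕ} (hG : Primrec G)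
    (hk : Primrec k) : Primrec fun a => trX (G a) (k a) :=
  pMtrace (list_length.comp hG) (pMpow (list_length.comp hG) (pComp hG) hk)

theorem toP_eq_sum (G : List ℤ) :
    toP G = ∑ i ∈ Finset.range G.length, C (G.getD i 0) * X ^ i := by
  ext m
  rw [coeff_toP, finsetSum_coeff]
  simp only [coeff_C_mul, coeff_X_pow, mul_ite, mul_one, mul_zero]
  by_cases h : m < G.length
  · rw [Finset.sum_eq_single m]
    · simp
    · intro b _ hb
      rw [if_neg (fun h => hb h.symm)]
    · intro h'
      exact absurd (Finset.mem_range.2 h) h'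
  · rw [getD_of_le (not_lt.1 h), Finset.sum_eq_zero]
    intro i hi
    rw [if_neg]
    rw [Finset.mem_range] at hi
    omega

/-- the relation of the top power of the root -/
theorem root_pow_length (G : List ℤ) :
    AdjoinRoot.root (monP G) ^ G.length =
      ∑ i ∈ Finset.range G.length, (- G.getD i 0) • AdjoinRoot.root (monP G) ^ i := by
  have h : AdjoinRoot.mk (monP G) (monP G) = 0 := AdjoinRoot.mk_self
  have h2 : AdjoinRoot.mk (monP G) (X ^ G.length + toP G) = 0 := h
  rw [toP_eq_sum, map_add, map_pow, AdjoinRoot.mk_X, map_sum] at h2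
  rw [eq_neg_of_add_eq_zero_left h2, ← Finset.sum_neg_distrib]
  refine Finset.sum_congr rfl fun i _ => ?_
  rw [map_mul, map_pow, AdjoinRoot.mk_X, neg_smul, zsmul_eq_mul, AdjoinRoot.mk_C]
  simp

theorem dim_eq (G : List ℤ) : (AdjoinRoot.powerBasis' (monP_monic G)).dim = G.length :=
  monP_natDegree G

/-- the matrix of the multiplication by `θ` in the power basis is the companion matrix -/
theorem leftMul_root (G : List ℤ) :
    (Algebra.leftMulMatrix ((AdjoinRoot.powerBasis' (monP_monic G)).basis)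
      (AdjoinRoot.root (monP G))).submatrix (Fin.cast (dim_eq G).symm)
        (Fin.cast (dim_eq G).symm) = toMat G.length G.length (comp G) := by
  set pb := AdjoinRoot.powerBasis' (monP_monic G) with hpb
  have hb : ∀ j : Fin pb.dim, pb.basis j = AdjoinRoot.root (monP G) ^ (j : ℕ) := by
    intro j
    rw [pb.basis_eq_pow]
    rfl
  have hdim : pb.dim = G.length := dim_eq G
  unfold comp
  rw [toMat_mk]
  ext i j
  rw [Matrix.submatrix_apply, Algebra.leftMulMatrix_eq_repr_mul, hb, ← pow_succ', Matrix.of_apply,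
    Fin.val_cast]
  by_cases hj : (j : ℕ) + 1 = G.length
  · rw [if_pos hj, hj, root_pow_length, Finset.sum_range, map_sum, Finsupp.finsetSum_apply]
    have h3 : ∀ k : Fin G.length, (pb.basis.repr ((- G.getD k 0) •
        AdjoinRoot.root (monP G) ^ (k : ℕ))) (Fin.cast (dim_eq G).symm i) =
        if k = i then - G.getD k 0 else 0 := by
      intro k
      have h4 : AdjoinRoot.root (monP G) ^ (k : ℕ) = pb.basis (Fin.cast hdim.symm k) := by
        rw [hb]
        rfl
      rw [h4, map_zsmul, Finsupp.smul_apply, Module.Basis.repr_self, Finsupp.single_apply]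
      by_cases hki : k = i
      · subst hki
        simp
      · rw [if_neg hki, if_neg]
        · simp
        · intro h5
          apply hki
          have := congrArg Fin.val h5
          exact Fin.ext this
    rw [Finset.sum_congr rfl fun k _ => h3 k]
    simp
  · rw [if_neg hj]
    have hlt : (j : ℕ) + 1 < G.length := by omega
    have h4 : AdjoinRoot.root (monP G) ^ ((j : ℕ) + 1) =
        pb.basis (Fin.cast hdim.symm ⟨(j : ℕ) + 1, hlt⟩) := by
      rw [hb]
      rfl
    rw [h4, Module.Basis.repr_self, Finsupp.single_apply]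
    refine if_congr ?_ rfl rfl
    constructor
    · intro h5
      have := congrArg Fin.val h5
      exact this.symm
    · intro h5
      exact Fin.ext h5.symm

theorem trace_root_pow (G : List ℤ) (k : ℕ) :
    Algebra.trace ℤ (Lam (monP G)) (AdjoinRoot.root (monP G) ^ k) = trX G k := by
  rw [Algebra.trace_eq_matrix_trace (AdjoinRoot.powerBasis' (monP_monic G)).basis, map_pow]
  unfold trX
  rw [mtrace_eq, toMat_mpow, ← leftMul_root]
  set M := Algebra.leftMulMatrix ((AdjoinRoot.powerBasis' (monP_monic G)).basis)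
      (AdjoinRoot.root (monP G))
  let e : Fin G.length ≃ Fin (AdjoinRoot.powerBasis' (monP_monic G)).dim :=
    finCongr (dim_eq G).symm
  have h : ∀ m : ℕ, (M.submatrix e e) ^ m = (M ^ m).submatrix e e := by
    intro m
    induction m with
    | zero => simp
    | succ m ih => rw [pow_succ, ih, pow_succ, Matrix.submatrix_mul_equiv]
  have h2 := h k
  change _ = Matrix.trace ((M.submatrix e e) ^ k)
  rw [h2]
  unfold Matrix.trace
  exact (Equiv.sum_comp e fun i => (M ^ k) i i).symm

/-! ### positivity of the traces of a primitive matrix -/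

/-- the powers of a matrix with a positive power have no zero rows -/
theorem exists_pos_row {b : ℕ} {B : Matrix (Fin b) (Fin b) ℕ} {k : ℕ} (hk : 0 < k)
    (hB : ∀ i j, 0 < (B ^ k) i j) (m : ℕ) (i : Fin b) : ∃ j, 0 < (B ^ m) i j := by
  induction m with
  | zero => exact ⟨i, by simp⟩
  | succ m ih =>
    obtain ⟨j, hj⟩ := ih
    have h1 : ∃ l, 0 < B j l := by
      by_contra h
      push Not at h
      have h2 := hB j i
      obtain ⟨k', rfl⟩ : ∃ k', k = k' + 1 := ⟨k - 1, by omega⟩
      rw [pow_succ', Matrix.mul_apply] at h2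
      rw [Finset.sum_eq_zero] at h2
      · exact lt_irrefl _ h2
      · intro l _
        rw [Nat.le_zero.1 (h l), zero_mul]
    obtain ⟨l, hl⟩ := h1
    refine ⟨l, ?_⟩
    rw [pow_succ, Matrix.mul_apply]
    exact lt_of_lt_of_le (Nat.mul_pos hj hl)
      (Finset.single_le_sum (f := fun x => (B ^ m) i x * B x l) (fun _ _ => Nat.zero_le _)
        (Finset.mem_univ j))

theorem pos_of_le {b : ℕ} {B : Matrix (Fin b) (Fin b) ℕ} {k : ℕ} (hk : 0 < k)
    (hB : ∀ i j, 0 < (B ^ k) i j) {m : ℕ} (hm : k ≤ m) (i j : Fin b) : 0 < (B ^ m) i j := by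
  obtain ⟨r, rfl⟩ : ∃ r, m = r + k := ⟨m - k, by omega⟩
  obtain ⟨l, hl⟩ := exists_pos_row hk hB r i
  rw [pow_add, Matrix.mul_apply]
  exact lt_of_lt_of_le (Nat.mul_pos hl (hB l j))
    (Finset.single_le_sum (f := fun x => (B ^ r) i x * (B ^ k) x j) (fun _ _ => Nat.zero_le _)
      (Finset.mem_univ l))

theorem trace_pos {b : ℕ} (hb : 0 < b) {B : Matrix (Fin b) (Fin b) ℕ} {k : ℕ} (hk : 0 < k)
    (hB : ∀ i j, 0 < (B ^ k) i j) {m : ℕ} (hm : k ≤ m) : (B ^ m).trace ≠ 0 := by
  intro h
  unfold Matrix.trace at h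
  rw [Finset.sum_eq_zero_iff] at h
  have h1 := h ⟨0, hb⟩ (Finset.mem_univ _)
  have h2 := pos_of_le hk hB hm ⟨0, hb⟩ ⟨0, hb⟩
  rw [Matrix.diag_apply] at h1
  omega

/-! ### the coded trace condition -/

/-- the code of the matrix has a positive `k`-th power -/
def posC (b : ℕ) (LB : IM) (k : ℕ) : Prop :=
  0 < b ∧ 0 < k ∧ ∀ i < b, ∀ j < b, 0 < ent (mpow b LB k) i j

/-- the trace condition over codes -/
def trCc (b k0 : ℕ) (LB : IM) (Gs : List (List ℤ)) (ns : List ℕ) : Prop :=
  ∀ k < k0, 0 < k → mtrace b (mpow b LB k) = 0 →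
    ∑ i ∈ Finset.range Gs.length, ((ns.getD i 0 : ℕ) : ℤ) * trX (Gs.getD i []) k = 0

section pr

variable {α : Type*} [Primcodable α]

theorem pPosC {b k : α → ℕ} {LB : α → IM} (hb : Primrec b) (hL : Primrec LB) (hk : Primrec k) :
    PrimrecPred fun a => posC (b a) (LB a) (k a) := by
  refine (PPred.pNatLt (Primrec.const 0) hb).and ((PPred.pNatLt (Primrec.const 0) hk).and ?_)
  refine PPred.pAllLt (R := fun a i => ∀ j < b a, 0 < ent (mpow (b a) (LB a) (k a)) i j) ?_ hb
  refine PPred.pAllLt (α := α × ℕ) (R := fun (p : α × ℕ) (j : ℕ) =>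
    0 < ent (mpow (b p.1) (LB p.1) (k p.1)) p.2 j) ?_ (hb.comp fst)
  exact PPred.pIntLt (Primrec.const 0) (pEnt (pMpow (hb.comp (fst.comp fst))
    (hL.comp (fst.comp fst)) (hk.comp (fst.comp fst))) (snd.comp fst) snd)

theorem pTrCc {b k0 : α → ℕ} {LB : α → IM} {Gs : α → List (List ℤ)} {ns : α → List ℕ}
    (hb : Primrec b) (hk : Primrec k0) (hL : Primrec LB) (hG : Primrec Gs) (hn : Primrec ns) :
    PrimrecPred fun a => trCc (b a) (k0 a) (LB a) (Gs a) (ns a) := by
  refine PPred.pAllLt (R := fun a k => 0 < k → mtrace (b a) (mpow (b a) (LB a) k) = 0 →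
    ∑ i ∈ Finset.range (Gs a).length, (((ns a).getD i 0 : ℕ) : ℤ) * trX ((Gs a).getD i []) k = 0)
    ?_ hk
  refine PPred.pImp (PPred.pNatLt (Primrec.const 0) snd) (PPred.pImp (PPred.pEq
    (pMtrace (hb.comp fst) (pMpow (hb.comp fst) (hL.comp fst) snd)) (Primrec.const 0)) ?_)
  refine PPred.pEq ?_ (Primrec.const 0)
  refine pSum (n := fun p : α × ℕ => (Gs p.1).length) (f := fun (p : α × ℕ) (i : ℕ) =>
    (((ns p.1).getD i 0 : ℕ) : ℤ) * trX ((Gs p.1).getD i []) p.2)
    (list_length.comp (hG.comp fst)) ?_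
  refine primrec_int_mul.comp (primrec_natCast.comp
    ((Primrec.list_getD 0).comp (hn.comp (fst.comp fst)) snd)) ?_
  exact pTrX ((Primrec.list_getD ([] : List ℤ)).comp (hG.comp (fst.comp fst)) snd) (snd.comp fst)

end pr

/-- the trace condition of a type is the coded trace condition -/
theorem trC_iff {a b : ℕ} {A : Matrix (Fin a) (Fin a) ℕ} {B : Matrix (Fin b) (Fin b) ℕ}
    (ρ : Ref A B) (n : Fin ρ.f → ℕ) {k0 : ℕ} {LB : IM} {Gs : List (List ℤ)} {ns : List ℕ}
    (hLB : toMat b b LB = zM B) (hpos : posC b LB k0) (hf : Gs.length = ρ.f)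
    (hG : ∀ i : Fin ρ.f, monP (Gs.getD i []) = ρ.g i) (hn : ∀ i : Fin ρ.f, ns.getD i 0 = n i) :
    TrC ρ n ↔ trCc b k0 LB Gs ns := by
  have hpow : ∀ k, toMat b b (mpow b LB k) = zM (B ^ k) := by
    intro k
    rw [toMat_mpow, hLB]
    unfold zM
    exact (Matrix.map_pow B (Nat.castRingHom ℤ) k).symm
  have htr : ∀ k, mtrace b (mpow b LB k) = ((B ^ k).trace : ℤ) := by
    intro k
    rw [mtrace_eq, hpow]
    unfold zM Matrix.trace
    simp
  have hB : ∀ i j, 0 < (B ^ k0) i j := by
    intro i j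
    have h1 := hpos.2.2 i i.2 j j.2
    have h2 := congrFun (congrFun (hpow k0) i) j
    rw [toMat_apply] at h2
    rw [h2] at h1
    unfold zM at h1
    simpa using h1
  have hs : ∀ k, ∑ i, (n i : ℤ) * Algebra.trace ℤ (Lam (ρ.g i)) (ρ.th i ^ k) =
      ∑ i ∈ Finset.range Gs.length, ((ns.getD i 0 : ℕ) : ℤ) * trX (Gs.getD i []) k := by
    intro k
    rw [hf, ← Fin.sum_univ_eq_sum_range
      (fun i => ((ns.getD i 0 : ℕ) : ℤ) * trX (Gs.getD i []) k)]
    refine Finset.sum_congr rfl fun i _ => ?_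
    rw [hn i, ← trace_root_pow]
    congr 1
    have h1 : ∀ {p q : ℤ[X]}, p = q → Algebra.trace ℤ (Lam p) (AdjoinRoot.root p ^ k) =
        Algebra.trace ℤ (Lam q) (AdjoinRoot.root q ^ k) := by
      rintro p _ rfl
      rfl
    exact h1 (hG i).symm
  unfold TrC trCc
  constructor
  · intro h k _ hk0 hk1
    rw [← hs]
    refine h k hk0 ?_
    rw [htr] at hk1
    exact_mod_cast hk1
  · intro h k hk0 hk1
    by_cases hk2 : k < k0
    · rw [hs]
      exact h k hk2 hk0 (by rw [htr, hk1]; rfl)
    · exact absurd hk1 (trace_pos hpos.1 hpos.2.1 hB (not_lt.1 hk2))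

/-- a primitive matrix has a positive power, over codes -/
theorem exists_posC {b : ℕ} {B : Matrix (Fin b) (Fin b) ℕ} (hB : FT.IsPrimitive B) {LB : IM}
    (hLB : toMat b b LB = zM B) : ∃ k0, posC b LB k0 := by
  obtain ⟨hb, k, hk, hp⟩ := hB
  refine ⟨k, hb, hk, fun i hi j hj => ?_⟩
  have hpow : toMat b b (mpow b LB k) = zM (B ^ k) := by
    rw [toMat_mpow, hLB]
    unfold zM
    exact (Matrix.map_pow B (Nat.castRingHom ℤ) k).symm
  have h2 := congrFun (congrFun hpow ⟨i, hi⟩) ⟨j, hj⟩
  rw [toMat_apply] at h2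
  rw [h2]
  unfold zM
  simpa using hp ⟨i, hi⟩ ⟨j, hj⟩

end Pool.Agent.DEC.TrC8
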