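import Pool.Agent.DEC.PPred
import Pool.Agent.DEC.CR
import Pool.Agent.DEC.PolyC

/-!
DEC project (MP_59dda0_an), computability layer: finite enumerations.

* `piLists f L`: all lists `w` of length `f` with `w_i ∈ L i` (families indexed by `Fin f`);
* `tyL e a`: all lists of length at most `a` with entries below `e` (types);
* `matL S n m`: all `n × m` matrices with entries in the list `S`;
* `stL S r x z`: all triples of matrices (states) with entries in `S`.
Each comes with: membership, primitive recursiveness, and the translation of the quantifiers over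
functions / matrices / states into quantifiers over the lists.
-/

set_option autoImplicit false

namespace Pool.Agent.DEC.Types8

open Primrec Pool.Agent.DEC Pool.Agent.DEC.PPred

/-! ### families -/

section Pi
variable {β : Type*}

/-- all lists `w` of length `f` with `w_i ∈ L i` -/
def piLists (f : ℕ) (L : ℕ → List β) : List (List β) :=
  Nat.rec [[]] (fun i W => W.flatMap fun w => (L i).map fun x => w ++ [x]) f

theorem piLists_zero (L : ℕ → List β) : piLists 0 L = [[]] := rfl

theorem piLists_succ (f : ℕ) (L : ℕ → List β) :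
    piLists (f + 1) L = (piLists f L).flatMap fun w => (L f).map fun x => w ++ [x] := rfl

theorem mem_piLists (f : ℕ) (L : ℕ → List β) (w : List β) :
    w ∈ piLists f L ↔ w.length = f ∧ ∀ (i : ℕ) (h : i < w.length), w[i] ∈ L i := by
  induction f generalizing w with
  | zero =>
    rw [piLists_zero, List.mem_singleton]
    constructor
    · rintro rfl
      exact ⟨rfl, fun i h => absurd h (Nat.not_lt_zero _)⟩
    · rintro ⟨h, -⟩
      exact List.length_eq_zero_iff.1 h
  | succ f ih =>
    rw [piLists_succ]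
    simp only [List.mem_flatMap, List.mem_map]
    constructor
    · rintro ⟨v, hv, x, hx, rfl⟩
      obtain ⟨h1, h2⟩ := (ih v).1 hv
      refine ⟨by simp [h1], fun i hi => ?_⟩
      rw [List.getElem_append]
      split_ifs with h
      · exact h2 i h
      · have hi' : i = f := by
          rw [List.length_append, h1] at hi
          have : ([x] : List β).length = 1 := rfl
          omega
        subst hi'
        simpa using hx
    · rintro ⟨h1, h2⟩
      have hne : w ≠ [] := by
        rintro rfl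
        simp at h1
      refine ⟨w.dropLast, (ih _).2 ⟨by simp [h1], fun i hi => ?_⟩, w.getLast hne, ?_,
        List.dropLast_append_getLast hne⟩
      · rw [List.getElem_dropLast]
        exact h2 i (by rw [List.length_dropLast] at hi; omega)
      · rw [List.getLast_eq_getElem]
        have := h2 (w.length - 1) (by omega)
        have e : w.length - 1 = f := by omega
        rw [← e]
        exact this

theorem getD_mem_pi {f : ℕ} {L : ℕ → List β} {w : List β} (hw : w ∈ piLists f L) (d : β) {i : ℕ}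
    (hi : i < f) : w.getD i d ∈ L i := by
  rw [mem_piLists] at hw
  rw [List.getD_eq_getElem?_getD, List.getElem?_eq_getElem (by rw [hw.1]; exact hi)]
  exact hw.2 i _

theorem length_pi {f : ℕ} {L : ℕ → List β} {w : List β} (hw : w ∈ piLists f L) : w.length = f :=
  ((mem_piLists _ _ _).1 hw).1

theorem ofFn_mem_pi {f : ℕ} {L : ℕ → List β} (g : Fin f → β) (hg : ∀ i : Fin f, g i ∈ L i) :
    List.ofFn g ∈ piLists f L := by
  rw [mem_piLists]
  refine ⟨List.length_ofFn, fun i hi => ?_⟩
  rw [List.getElem_ofFn]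
  exact hg ⟨i, by rw [List.length_ofFn] at hi; exact hi⟩

/-- families are the elements of `piLists` -/
theorem exists_pi_iff {f : ℕ} {L : ℕ → List β} (d : β) {Q : (Fin f → β) → Prop} :
    (∃ g : Fin f → β, (∀ i : Fin f, g i ∈ L i) ∧ Q g) ↔
      ∃ w ∈ piLists f L, Q fun i => w.getD i d := by
  constructor
  · rintro ⟨g, hg, hQ⟩
    refine ⟨List.ofFn g, ofFn_mem_pi g hg, ?_⟩
    have : (fun i : Fin f => (List.ofFn g).getD i d) = g := funext fun i => getD_ofFn g d i
    rw [this]
    exact hQ
  · rintro ⟨w, hw, hQ⟩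
    exact ⟨_, fun i => getD_mem_pi hw d i.2, hQ⟩

theorem forall_pi_iff {f : ℕ} {L : ℕ → List β} (d : β) {Q : (Fin f → β) → Prop} :
    (∀ g : Fin f → β, (∀ i : Fin f, g i ∈ L i) → Q g) ↔
      ∀ w ∈ piLists f L, Q fun i => w.getD i d := by
  constructor
  · intro h w hw
    exact h _ fun i => getD_mem_pi hw d i.2
  · intro h g hg
    have h2 := h (List.ofFn g) (ofFn_mem_pi g hg)
    have : (fun i : Fin f => (List.ofFn g).getD i d) = g := funext fun i => getD_ofFn g d i
    rwa [this] at h2

/-- dependent families: `T i` a type for every `i`, `dec i` the decoding; every admissible element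
of `T i` (predicate `A i`) has a code in `L i` and conversely. -/
theorem exists_dep_iff {f : ℕ} {L : ℕ → List β} {T : Fin f → Type*} (dec : ∀ i : Fin f, β → T i)
    {A : ∀ i : Fin f, T i → Prop} (d : β) (h : ∀ (i : Fin f) (t : T i), A i t ↔ ∃ x ∈ L i, dec i x = t)
    {Q : (∀ i, T i) → Prop} :
    (∃ g : ∀ i, T i, (∀ i, A i (g i)) ∧ Q g) ↔
      ∃ w ∈ piLists f L, Q fun i => dec i (w.getD i d) := by
  constructor
  · rintro ⟨g, hg, hQ⟩
    choose x hx1 hx2 using fun i => (h i (g i)).1 (hg i)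
    refine ⟨List.ofFn x, ofFn_mem_pi x hx1, ?_⟩
    have : (fun i : Fin f => dec i ((List.ofFn x).getD i d)) = g := funext fun i => by
      rw [getD_ofFn]
      exact hx2 i
    rw [this]
    exact hQ
  · rintro ⟨w, hw, hQ⟩
    exact ⟨_, fun i => (h i _).2 ⟨_, getD_mem_pi hw d i.2, rfl⟩, hQ⟩

theorem forall_dep_iff {f : ℕ} {L : ℕ → List β} {T : Fin f → Type*} (dec : ∀ i : Fin f, β → T i)
    {A : ∀ i : Fin f, T i → Prop} (d : β) (h : ∀ (i : Fin f) (t : T i), A i t ↔ ∃ x ∈ L i, dec i x = t)
    {Q : (∀ i, T i) → Prop} :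
    (∀ g : ∀ i, T i, (∀ i, A i (g i)) → Q g) ↔
      ∀ w ∈ piLists f L, Q fun i => dec i (w.getD i d) := by
  have := exists_dep_iff (f := f) (L := L) dec (A := A) d h (Q := fun g => ¬ Q g)
  constructor
  · intro h1 w hw
    exact h1 _ fun i => (h i _).2 ⟨_, getD_mem_pi hw d i.2, rfl⟩
  · intro h1 g hg
    by_contra hQ
    obtain ⟨w, hw, hn⟩ := this.1 ⟨g, hg, hQ⟩
    exact hn (h1 w hw)

end Pi

section PiPrim
variable {α β : Type*} [Primcodable α] [Primcodable β]

theorem pPiLists {f : α → ℕ} {L : α → ℕ → List β} (hf : Primrec f)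
    (hL : Primrec fun p : α × ℕ => L p.1 p.2) : Primrec fun a => piLists (f a) (L a) := by
  have h := Primrec.nat_rec' (f := f) (g := fun _ : α => ([[]] : List (List β)))
    (h := fun (a : α) (p : ℕ × List (List β)) =>
      p.2.flatMap fun w => (L a p.1).map fun x => w ++ [x]) hf (Primrec.const _) ?_
  · exact h.of_eq fun a => rfl
  · refine Primrec.list_flatMap (f := fun q : α × (ℕ × List (List β)) => q.2.2)
      (g := fun (q : α × (ℕ × List (List β))) (w : List β) =>
        (L q.1 q.2.1).map fun x => w ++ [x]) (snd.comp snd) ?_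
    refine Primrec.list_map (f := fun q : (α × (ℕ × List (List β))) × List β => L q.1.1 q.1.2.1)
      (g := fun (q : (α × (ℕ × List (List β))) × List β) (x : β) => q.2 ++ [x]) ?_ ?_
    · exact hL.comp (Primrec.pair (fst.comp fst) (fst.comp (snd.comp fst)))
    · exact Primrec.list_append.comp (snd.comp fst)
        (Primrec.list_cons.comp snd (Primrec.const []))

/-- bounded quantification over families -/
theorem pExPi {P : α → List β → Prop} (hP : PrimrecPred fun p : α × List β => P p.1 p.2)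
    {f : α → ℕ} {L : α → ℕ → List β} (hf : Primrec f)
    (hL : Primrec fun p : α × ℕ => L p.1 p.2) :
    PrimrecPred fun a => ∃ w ∈ piLists (f a) (L a), P a w :=
  pEx hP (pPiLists hf hL)

theorem pAllPi {P : α → List β → Prop} (hP : PrimrecPred fun p : α × List β => P p.1 p.2)
    {f : α → ℕ} {L : α → ℕ → List β} (hf : Primrec f)
    (hL : Primrec fun p : α × ℕ => L p.1 p.2) :
    PrimrecPred fun a => ∀ w ∈ piLists (f a) (L a), P a w :=
  pAll hP (pPiLists hf hL)

end PiPrim

/-! ### types -/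

/-- all lists of naturals `< e` of length `≤ a` -/
def tyL (e a : ℕ) : List (List ℕ) :=
  (List.range (a + 1)).flatMap fun r => words (List.range e) r

theorem mem_tyL (e a : ℕ) (l : List ℕ) : l ∈ tyL e a ↔ l.length ≤ a ∧ ∀ x ∈ l, x < e := by
  unfold tyL
  simp only [List.mem_flatMap, List.mem_range, mem_words]
  constructor
  · rintro ⟨r, hr, h1, h2⟩
    exact ⟨by omega, h2⟩
  · rintro ⟨h1, h2⟩
    exact ⟨l.length, by omega, rfl, h2⟩

theorem primrec_tyL : Primrec₂ tyL := by
  refine Primrec.list_flatMap (f := fun p : ℕ × ℕ => List.range (p.2 + 1))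
    (g := fun (p : ℕ × ℕ) (r : ℕ) => words (List.range p.1) r)
    (Primrec.list_range.comp (Primrec.succ.comp snd)) ?_
  exact primrec_words.comp (Primrec.list_range.comp (fst.comp fst)) snd

/-- the size of the type with code `l` -/
abbrev ln (w : List (List ℕ)) (i : ℕ) : ℕ := (w.getD i []).length

/-- the degrees of the type with code `l` -/
abbrev dg (w : List (List ℕ)) (i q : ℕ) : ℕ := (w.getD i []).getD q 0

/-- families of types: sizes `r i ≤ a`, degrees `deg i q < e` -/
theorem exists_type_iff {f e a : ℕ}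
    {Q : (r : Fin f → ℕ) → (∀ i : Fin f, Fin (r i) → ℕ) → Prop} :
    (∃ (r : Fin f → ℕ) (deg : ∀ i : Fin f, Fin (r i) → ℕ), (∀ i, r i ≤ a) ∧
        (∀ i q, deg i q < e) ∧ Q r deg) ↔
      ∃ w ∈ piLists f (fun _ => tyL e a), Q (fun i => ln w i) (fun i q => dg w i q) := by
  constructor
  · rintro ⟨r, deg, hr, hdeg, hQ⟩
    refine ⟨List.ofFn fun i => List.ofFn (deg i), ofFn_mem_pi _ fun i => ?_, ?_⟩
    · rw [mem_tyL]
      refine ⟨by rw [List.length_ofFn]; exact hr i, fun x hx => ?_⟩
      obtain ⟨q, rfl⟩ := (List.mem_ofFn' _ x).1 hx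
      exact hdeg i q
    · have h1 : (fun i : Fin f => ln (List.ofFn fun i => List.ofFn (deg i)) i) = r := by
        funext i
        unfold ln
        rw [getD_ofFn, List.length_ofFn]
      have h2 : ∀ (r' : Fin f → ℕ) (h : r' = r) (deg' : ∀ i : Fin f, Fin (r' i) → ℕ),
          (∀ i (q : Fin (r' i)), deg' i q = deg i ⟨q, by rw [← h]; exact q.2⟩) → Q r' deg' := by
        rintro r' rfl deg' h
        have : deg' = deg := funext fun i => funext fun q => h i q
        rw [this]
        exact hQ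
      refine h2 _ h1 _ fun i q => ?_
      have hi := congrFun h1 i
      unfold dg
      rw [getD_ofFn]
      exact getD_ofFn (deg i) 0 ⟨q, by rw [← hi]; exact q.2⟩
  · rintro ⟨w, hw, hQ⟩
    refine ⟨_, _, fun i => ?_, fun i q => ?_, hQ⟩
    · exact ((mem_tyL _ _ _).1 (getD_mem_pi hw [] i.2)).1
    · have h := ((mem_tyL _ _ _).1 (getD_mem_pi hw [] i.2)).2
      unfold dg
      rw [List.getD_eq_getElem?_getD, List.getElem?_eq_getElem q.2]
      exact h _ (List.getElem_mem _)

theorem forall_type_iff {f e a : ℕ}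
    {Q : (r : Fin f → ℕ) → (∀ i : Fin f, Fin (r i) → ℕ) → Prop} :
    (∀ (r : Fin f → ℕ) (deg : ∀ i : Fin f, Fin (r i) → ℕ), (∀ i, r i ≤ a) →
        (∀ i q, deg i q < e) → Q r deg) ↔
      ∀ w ∈ piLists f (fun _ => tyL e a), Q (fun i => ln w i) (fun i q => dg w i q) := by
  have h := exists_type_iff (f := f) (e := e) (a := a) (Q := fun r deg => ¬ Q r deg)
  constructor
  · intro h1 w hw
    by_contra hn
    obtain ⟨r, deg, h2, h3, h4⟩ := h.2 ⟨w, hw, hn⟩
    exact h4 (h1 r deg h2 h3)
  · intro h1 r deg h2 h3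
    by_contra hn
    obtain ⟨w, hw, h4⟩ := h.1 ⟨r, deg, h2, h3, hn⟩
    exact h4 (h1 w hw)

section ty
variable {α : Type*} [Primcodable α]

theorem pTyL {e a : α → ℕ} (he : Primrec e) (ha : Primrec a) : Primrec fun x => tyL (e x) (a x) :=
  primrec_tyL.comp he ha

theorem pTypes {f e a : α → ℕ} (hf : Primrec f) (he : Primrec e) (ha : Primrec a) :
    Primrec fun x => piLists (f x) (fun _ => tyL (e x) (a x)) :=
  pPiLists (L := fun x _ => tyL (e x) (a x)) hf (pTyL (he.comp fst) (ha.comp fst))

theorem pLn {w : α → List (List ℕ)} {i : α → ℕ} (hw : Primrec w) (hi : Primrec i) :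
    Primrec fun x => ln (w x) (i x) :=
  Primrec.list_length.comp ((Primrec.list_getD []).comp hw hi)

theorem pDg {w : α → List (List ℕ)} {i q : α → ℕ} (hw : Primrec w) (hi : Primrec i)
    (hq : Primrec q) : Primrec fun x => dg (w x) (i x) (q x) :=
  (Primrec.list_getD 0).comp ((Primrec.list_getD []).comp hw hi) hq

end ty

/-! ### matrices and states with entries in a list -/

section mat
variable {β : Type*}

/-- all `n × m` matrices (lists of rows) with entries in `S` -/
def matL (S : List β) (n m : ℕ) : List (List (List β)) := words (words S m) n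

theorem mem_matL {S : List β} {n m : ℕ} {M : List (List β)} :
    M ∈ matL S n m ↔ M.length = n ∧ ∀ v ∈ M, v.length = m ∧ ∀ x ∈ v, x ∈ S := by
  unfold matL
  rw [mem_words]
  simp only [mem_words]

theorem ent_mem_matL {S : List β} {n m : ℕ} {M : List (List β)} (h : M ∈ matL S n m) (d : β)
    {i j : ℕ} (hi : i < n) (hj : j < m) : (M.getD i []).getD j d ∈ S :=
  getD_mem (getD_mem h [] hi) d hj

/-- all triples of matrices of the sizes of a state with entries in `S` -/
def stL (S : List β) (r x z : ℕ) : List (List (List β) × List (List β) × List (List β)) :=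
  (matL S r r).flatMap fun A => (matL S x r).flatMap fun B => (matL S z r).map fun D => (A, B, D)

theorem mem_stL {S : List β} {r x z : ℕ} {s : List (List β) × List (List β) × List (List β)} :
    s ∈ stL S r x z ↔ s.1 ∈ matL S r r ∧ s.2.1 ∈ matL S x r ∧ s.2.2 ∈ matL S z r := by
  obtain ⟨A, B, D⟩ := s
  unfold stL
  simp only [List.mem_flatMap, List.mem_map, Prod.mk.injEq]
  constructor
  · rintro ⟨A', hA, B', hB, D', hD, rfl, rfl, rfl⟩
    exact ⟨hA, hB, hD⟩
  · rintro ⟨hA, hB, hD⟩
    exact ⟨A, hA, B, hB, D, hD, rfl, rfl, rfl⟩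

end mat

section matPrim
variable {α β : Type*} [Primcodable α] [Primcodable β]

theorem pWords {S : α → List β} {n : α → ℕ} (hS : Primrec S) (hn : Primrec n) :
    Primrec fun a => words (S a) (n a) := primrec_words.comp hS hn

theorem pMatL {S : α → List β} {n m : α → ℕ} (hS : Primrec S) (hn : Primrec n)
    (hm : Primrec m) : Primrec fun a => matL (S a) (n a) (m a) := pWords (pWords hS hm) hn

theorem pStL {S : α → List β} {r x z : α → ℕ} (hS : Primrec S) (hr : Primrec r)
    (hx : Primrec x) (hz : Primrec z) : Primrec fun a => stL (S a) (r a) (x a) (z a) := by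
  refine Primrec.list_flatMap (f := fun a : α => matL (S a) (r a) (r a))
    (g := fun (a : α) (A : List (List β)) => (matL (S a) (x a) (r a)).flatMap fun B =>
      (matL (S a) (z a) (r a)).map fun D => (A, B, D)) (pMatL hS hr hr) ?_
  refine Primrec.list_flatMap (f := fun q : α × List (List β) => matL (S q.1) (x q.1) (r q.1))
    (g := fun (q : α × List (List β)) (B : List (List β)) =>
      (matL (S q.1) (z q.1) (r q.1)).map fun D => (q.2, B, D))
    (pMatL (hS.comp fst) (hx.comp fst) (hr.comp fst)) ?_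
  refine Primrec.list_map
    (f := fun q : (α × List (List β)) × List (List β) => matL (S q.1.1) (z q.1.1) (r q.1.1))
    (g := fun (q : (α × List (List β)) × List (List β)) (D : List (List β)) => (q.1.2, q.2, D))
    (pMatL (hS.comp (fst.comp fst)) (hz.comp (fst.comp fst)) (hr.comp (fst.comp fst))) ?_
  exact Primrec.pair (snd.comp (fst.comp fst)) (Primrec.pair (snd.comp fst) snd)

/-- the polynomials of degree `< d` with coefficients `0, ..., N - 1` (lists of length `d`) -/
def pols (d N : ℕ) : List (List ℤ) := words (seg N) d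

theorem mem_pols {d N : ℕ} {l : List ℤ} :
    l ∈ pols d N ↔ l.length = d ∧ ∀ x ∈ l, 0 ≤ x ∧ x < (N : ℤ) := by
  unfold pols
  rw [mem_words]
  simp only [mem_seg]

theorem pPols {d N : α → ℕ} (hd : Primrec d) (hN : Primrec N) :
    Primrec fun a => pols (d a) (N a) := pWords (primrec_seg.comp hN) hd

end matPrim

/-! ### translation: matrices and states over a ring with codes -/

section codes
variable {S R : Type} [Primcodable S] [CommRing R] (c : CR S R)

/-- a code of a matrix with prescribed codes of the entries -/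
theorem toM_tab_ent {n m : ℕ} (M : Matrix (Fin n) (Fin m) R) (L : List S)
    (h : ∀ i j, ∃ x ∈ L, c.val x = M i j) : ∃ N ∈ matL L n m, c.toM n m N = M := by
  choose x hx1 hx2 using h
  refine ⟨List.ofFn fun i => List.ofFn fun j => x i j, ?_, ?_⟩
  · rw [mem_matL]
    refine ⟨List.length_ofFn, fun v hv => ?_⟩
    obtain ⟨i, rfl⟩ := (List.mem_ofFn' _ v).1 hv
    refine ⟨List.length_ofFn, fun y hy => ?_⟩
    obtain ⟨j, rfl⟩ := (List.mem_ofFn' _ y).1 hy
    exact hx1 i j
  · ext i j
    rw [CR.toM_apply]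
    unfold CR.ent
    rw [getD_ofFn, getD_ofFn]
    exact hx2 i j

theorem mat_iff {n m : ℕ} (L : List S) (M : Matrix (Fin n) (Fin m) R) :
    (∀ i j, ∃ x ∈ L, c.val x = M i j) ↔ ∃ N ∈ matL L n m, c.toM n m N = M := by
  constructor
  · exact toM_tab_ent c M L
  · rintro ⟨N, hN, rfl⟩ i j
    exact ⟨c.ent N i j, ent_mem_matL hN _ i.2 j.2, rfl⟩

theorem exists_matL_iff {n m : ℕ} {L : List S} {Q : Matrix (Fin n) (Fin m) R → Prop} :
    (∃ M : Matrix (Fin n) (Fin m) R, (∀ i j, ∃ x ∈ L, c.val x = M i j) ∧ Q M) ↔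
      ∃ N ∈ matL L n m, Q (c.toM n m N) := by
  constructor
  · rintro ⟨M, hM, hQ⟩
    obtain ⟨N, hN, rfl⟩ := (mat_iff c L M).1 hM
    exact ⟨N, hN, hQ⟩
  · rintro ⟨N, hN, hQ⟩
    exact ⟨_, (mat_iff c L _).2 ⟨N, hN, rfl⟩, hQ⟩

theorem forall_matL_iff {n m : ℕ} {L : List S} {Q : Matrix (Fin n) (Fin m) R → Prop} :
    (∀ M : Matrix (Fin n) (Fin m) R, (∀ i j, ∃ x ∈ L, c.val x = M i j) → Q M) ↔
      ∀ N ∈ matL L n m, Q (c.toM n m N) := by
  constructor
  · intro h N hN
    exact h _ ((mat_iff c L _).2 ⟨N, hN, rfl⟩)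
  · intro h M hM
    obtain ⟨N, hN, rfl⟩ := (mat_iff c L M).1 hM
    exact h N hN

/-- the state of a triple of codes -/
def toSt (r x z : ℕ) (s : List (List S) × List (List S) × List (List S)) :
    Matrix (Fin r) (Fin r) R × Matrix (Fin x) (Fin r) R × Matrix (Fin z) (Fin r) R :=
  (c.toM r r s.1, c.toM x r s.2.1, c.toM z r s.2.2)

/-- all entries of a triple of matrices are values of elements of `L` -/
def EntIn (L : List S) {r x z : ℕ}
    (s : Matrix (Fin r) (Fin r) R × Matrix (Fin x) (Fin r) R × Matrix (Fin z) (Fin r) R) : Prop :=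
  (∀ p q, ∃ y ∈ L, c.val y = s.1 p q) ∧ (∀ p q, ∃ y ∈ L, c.val y = s.2.1 p q) ∧
    ∀ p q, ∃ y ∈ L, c.val y = s.2.2 p q

theorem st_iff {r x z : ℕ} (L : List S)
    (s : Matrix (Fin r) (Fin r) R × Matrix (Fin x) (Fin r) R × Matrix (Fin z) (Fin r) R) :
    EntIn c L s ↔ ∃ t ∈ stL L r x z, toSt c r x z t = s := by
  constructor
  · rintro ⟨h1, h2, h3⟩
    obtain ⟨A, hA, e1⟩ := (mat_iff c L _).1 h1
    obtain ⟨B, hB, e2⟩ := (mat_iff c L _).1 h2
    obtain ⟨D, hD, e3⟩ := (mat_iff c L _).1 h3
    exact ⟨(A, B, D), mem_stL.2 ⟨hA, hB, hD⟩, Prod.ext e1 (Prod.ext e2 e3)⟩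
  · rintro ⟨t, ht, rfl⟩
    obtain ⟨h1, h2, h3⟩ := mem_stL.1 ht
    exact ⟨(mat_iff c L _).2 ⟨_, h1, rfl⟩, (mat_iff c L _).2 ⟨_, h2, rfl⟩,
      (mat_iff c L _).2 ⟨_, h3, rfl⟩⟩

/-- families of states with entries in prescribed lists -/
theorem exists_states_iff {f : ℕ} (r x z : ℕ → ℕ) (L : ℕ → List S)
    {Q : (∀ i : Fin f, Matrix (Fin (r i)) (Fin (r i)) R × Matrix (Fin (x i)) (Fin (r i)) R ×
      Matrix (Fin (z i)) (Fin (r i)) R) → Prop} :
    (∃ s : ∀ i : Fin f, Matrix (Fin (r i)) (Fin (r i)) R × Matrix (Fin (x i)) (Fin (r i)) R ×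
        Matrix (Fin (z i)) (Fin (r i)) R, (∀ i : Fin f, EntIn c (L i) (s i)) ∧ Q s) ↔
      ∃ w ∈ piLists f (fun i => stL (L i) (r i) (x i) (z i)),
        Q fun i => toSt c (r i) (x i) (z i) (w.getD i ([], [], [])) :=
  exists_dep_iff (L := fun i => stL (L i) (r i) (x i) (z i))
    (dec := fun i : Fin f => toSt c (r i) (x i) (z i)) (A := fun i s => EntIn c (L i) s)
    ([], [], []) fun i s => st_iff c (L i) s

theorem forall_states_iff {f : ℕ} (r x z : ℕ → ℕ) (L : ℕ → List S)
    {Q : (∀ i : Fin f, Matrix (Fin (r i)) (Fin (r i)) R × Matrix (Fin (x i)) (Fin (r i)) R ×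
      Matrix (Fin (z i)) (Fin (r i)) R) → Prop} :
    (∀ s : ∀ i : Fin f, Matrix (Fin (r i)) (Fin (r i)) R × Matrix (Fin (x i)) (Fin (r i)) R ×
        Matrix (Fin (z i)) (Fin (r i)) R, (∀ i : Fin f, EntIn c (L i) (s i)) → Q s) ↔
      ∀ w ∈ piLists f (fun i => stL (L i) (r i) (x i) (z i)),
        Q fun i => toSt c (r i) (x i) (z i) (w.getD i ([], [], [])) :=
  forall_dep_iff (L := fun i => stL (L i) (r i) (x i) (z i))
    (dec := fun i : Fin f => toSt c (r i) (x i) (z i)) (A := fun i s => EntIn c (L i) s)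
    ([], [], []) fun i s => st_iff c (L i) s

end codes

/-! ### polynomials -/

section pol
open Polynomial PolyC

theorem list_of_coeff (p : ℤ[X]) {d : ℕ} (h : p.degree < d) : toP (tabl d p.coeff) = p := by
  ext i
  rw [coeff_tabl]
  split_ifs with hi
  · rfl
  · exact (coeff_eq_zero_of_degree_lt (lt_of_lt_of_le h (by exact_mod_cast not_lt.1 hi))).symm

theorem degree_toP_lt' (l : List ℤ) : (toP l).degree < l.length := by
  rw [degree_lt_iff_coeff_zero]
  intro i hi
  rw [coeff_toP, getD_of_le hi]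

/-- polynomials of degree `< d` with coefficients in a set `P` -/
theorem exists_pol_iff' {d : ℕ} {L : List ℤ} {p : ℤ[X]} :
    (∃ y ∈ words L d, toP y = p) ↔ p.degree < d ∧ ∀ i < d, p.coeff i ∈ L := by
  constructor
  · rintro ⟨y, hy, rfl⟩
    have hl := ((mem_words _ _ _).1 hy).1
    refine ⟨by rw [← hl]; exact degree_toP_lt' y, fun i hi => ?_⟩
    rw [coeff_toP]
    exact getD_mem hy 0 hi
  · rintro ⟨h1, h2⟩
    refine ⟨tabl d p.coeff, (mem_words _ _ _).2 ⟨tabl_length _ _, fun x hx => ?_⟩,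
      list_of_coeff p h1⟩
    unfold tabl at hx
    obtain ⟨i, hi, rfl⟩ := List.mem_map.1 hx
    exact h2 i (List.mem_range.1 hi)

theorem exists_pols_iff {d N : ℕ} {p : ℤ[X]} :
    (∃ y ∈ pols d N, CR.poly.val y = p) ↔
      p.degree < d ∧ ∀ i < d, 0 ≤ p.coeff i ∧ p.coeff i < (N : ℤ) := by
  refine (exists_pol_iff' (L := seg N)).trans ?_
  simp only [mem_seg]

theorem exists_vecs_iff {d F : ℕ} {p : ℤ[X]} :
    (∃ y ∈ vecs d F, CR.poly.val y = p) ↔
      p.degree < d ∧ ∀ i < d, |p.coeff i| ≤ (F : ℤ) := by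
  refine (exists_pol_iff' (L := ball F)).trans ?_
  simp only [mem_ball]

end pol

end Pool.Agent.DEC.Types8
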