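import Pool.Agent.DEC.PUniC2
import Pool.Agent.DEC.PSem1
import Pool.Agent.DEC.PSem2
import Pool.Agent.DEC.PB2
import Pool.Agent.DEC.PBd
import Pool.Agent.DEC.TrC8
import Pool.Agent.DEC.Types8

/-!
DEC project (MP_59dda0_an), P side: semi-solutions modulo `N` over codes.
-/

set_option autoImplicit false

open Matrix Polynomial

namespace Pool.Agent.DEC.PSemC

open Pool.Agent.DEC Pool.Agent.DEC.PolyC Pool.Agent.DEC.PD

/-- the list of the polynomials -/
def cGs (c : RC) : List (List ℤ) := c.1.map fun x => x.1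

/-- the list of the sizes of a type -/
def tns (ty : TC) : List ℕ := ty.map List.length

theorem cGs_length (c : RC) : (cGs c).length = c.1.length := by
  unfold cGs
  rw [List.length_map]

theorem cGs_getD (c : RC) (i : ℕ) : (cGs c).getD i [] = cG c i := by
  unfold cGs cG fac
  rw [List.getD_eq_getElem?_getD, List.getD_eq_getElem?_getD, List.getElem?_map]
  cases c.1[i]? with
  | none => rfl
  | some x => rfl

theorem tns_getD (ty : TC) (i : ℕ) : (tns ty).getD i 0 = tn ty i := by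
  unfold tns tn
  rw [List.getD_eq_getElem?_getD, List.getD_eq_getElem?_getD, List.getElem?_map]
  cases ty[i]? with
  | none => rfl
  | some x => rfl

theorem getD_ofFn {β : Type*} {n : ℕ} (f : Fin n → β) (d : β) (i : Fin n) :
    (List.ofFn f).getD i d = f i := by
  rw [List.getD_eq_getElem _ _ (by simp)]
  simp

/-- the code of a reduced polynomial -/
theorem exists_pols {G : List ℤ} {N : ℕ} {p : ℤ[X]} (hp : p.degree < (monP G).degree)
    (hc : ∀ k, 0 ≤ p.coeff k ∧ p.coeff k < N) :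
    tabl G.length p.coeff ∈ Types8.pols G.length N ∧ toP (tabl G.length p.coeff) = p := by
  constructor
  · rw [Types8.mem_pols]
    refine ⟨tabl_length _ _, fun x hx => ?_⟩
    unfold tabl at hx
    obtain ⟨i, -, rfl⟩ := List.mem_map.1 hx
    exact hc i
  · ext i
    rw [coeff_tabl]
    split_ifs with hi
    · rfl
    · rw [monP_degree] at hp
      exact (coeff_eq_zero_of_degree_lt (hp.trans_le (by exact_mod_cast not_lt.1 hi))).symm

/-- the code of a matrix of reduced polynomials -/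
def matC (G : List ℤ) {n m : ℕ} (M : Matrix (Fin n) (Fin m) ℤ[X]) : PM :=
  List.ofFn fun i => List.ofFn fun j => tabl G.length (M i j).coeff

theorem matC_mem {G : List ℤ} {N n m : ℕ} {M : Matrix (Fin n) (Fin m) ℤ[X]}
    (h : ∀ i j, (M i j).degree < (monP G).degree ∧
      ∀ k, 0 ≤ (M i j).coeff k ∧ (M i j).coeff k < N) :
    matC G M ∈ Types8.matL (Types8.pols G.length N) n m := by
  rw [Types8.mem_matL]
  unfold matC
  refine ⟨List.length_ofFn, fun v hv => ?_⟩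
  obtain ⟨i, rfl⟩ := (List.mem_ofFn' _ v).1 hv
  refine ⟨List.length_ofFn, fun y hy => ?_⟩
  obtain ⟨j, rfl⟩ := (List.mem_ofFn' _ y).1 hy
  exact (exists_pols (h i j).1 (h i j).2).1

theorem matC_ent {G : List ℤ} {N n m : ℕ} {M : Matrix (Fin n) (Fin m) ℤ[X]}
    (h : ∀ i j, (M i j).degree < (monP G).degree ∧
      ∀ k, 0 ≤ (M i j).coeff k ∧ (M i j).coeff k < N) (i : Fin n) (j : Fin m) :
    toP (CR.poly.ent (matC G M) i j) = M i j := by
  unfold CR.ent matC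
  rw [getD_ofFn, getD_ofFn]
  exact (exists_pols (h i j).1 (h i j).2).2

variable {a b : ℕ} {A : Matrix (Fin a) (Fin a) ℕ} {B : Matrix (Fin b) (Fin b) ℕ}
  {ρ : Ref A B} {c : RC}

/-- the types -/
def tys (a : ℕ) (c : RC) : List TC := Types8.piLists c.1.length fun _ => Types8.tyL a a

/-- the reduced states of a type -/
def sts (c : RC) (ty : TC) (N : ℕ) : List SC :=
  Types8.piLists c.1.length fun i => Types8.stL (Types8.pols (cG c i).length N) (tn ty i)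
    (cLa c i).length (cMu c i).length

/-- codes of types -/
theorem exists_ty (hc : Codes c ρ) {n : Fin ρ.f → ℕ} (deg : ∀ i, Fin (n i) → ℕ)
    (hn : ∀ i, n i ≤ a) (hd : ∀ i k, deg i k < a) :
    ∃ ty ∈ tys a c, (∀ i : Fin ρ.f, tn ty i = n i) ∧
      ∀ (i : Fin ρ.f) (q : Fin (n i)), td ty i q = deg i q := by
  refine ⟨List.ofFn fun i => List.ofFn (deg i), ?_, fun i => ?_, fun i q => ?_⟩
  · unfold tys
    rw [hc.nf]
    refine Types8.ofFn_mem_pi _ fun i => ?_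
    rw [Types8.mem_tyL]
    refine ⟨by rw [List.length_ofFn]; exact hn i, fun x hx => ?_⟩
    obtain ⟨q, rfl⟩ := (List.mem_ofFn' _ x).1 hx
    exact hd i q
  · unfold tn
    rw [getD_ofFn, List.length_ofFn]
  · unfold td
    rw [getD_ofFn, getD_ofFn]

/-- codes of reduced states -/
theorem exists_st (hc : Codes c ρ) {n : Fin ρ.f → ℕ} {ty : TC}
    (hn : ∀ i : Fin ρ.f, tn ty i = n i) {N : ℕ}
    (s : ∀ i, RSt ℤ[X] (Fin (n i)) (Fin (ρ.na i)) (Fin (ρ.nb i)))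
    (hs : ∀ i, PB.RedS (ρ.g i) N (s i)) :
    ∃ st ∈ sts c ty N, ∀ i : Fin ρ.f, smap (AdjoinRoot.mk (ρ.g i)) (s i) =
      stOf (ρ.g i) (n i) (ρ.na i) (ρ.nb i) st i := by
  have h1 : ∀ (i : Fin ρ.f) p q, ((s i).1 p q).degree < (monP (cG c i)).degree ∧
      ∀ k, 0 ≤ ((s i).1 p q).coeff k ∧ ((s i).1 p q).coeff k < N := by
    intro i
    rw [hc.g i]
    exact (hs i).c
  have h2 : ∀ (i : Fin ρ.f) p q, ((s i).2.1 p q).degree < (monP (cG c i)).degree ∧
      ∀ k, 0 ≤ ((s i).2.1 p q).coeff k ∧ ((s i).2.1 p q).coeff k < N := by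
    intro i
    rw [hc.g i]
    exact (hs i).rho
  have h3 : ∀ (i : Fin ρ.f) p q, ((s i).2.2 p q).degree < (monP (cG c i)).degree ∧
      ∀ k, 0 ≤ ((s i).2.2 p q).coeff k ∧ ((s i).2.2 p q).coeff k < N := by
    intro i
    rw [hc.g i]
    exact (hs i).tau
  refine ⟨List.ofFn fun i : Fin ρ.f => (matC (cG c i) (s i).1, matC (cG c i) (s i).2.1,
    matC (cG c i) (s i).2.2), ?_, fun i => ?_⟩
  · unfold sts
    rw [hc.nf]
    refine Types8.ofFn_mem_pi _ fun i => ?_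
    rw [Types8.mem_stL, hn i, hc.na i, hc.nb i]
    exact ⟨matC_mem (h1 i), matC_mem (h2 i), matC_mem (h3 i)⟩
  · unfold stOf sC sR sT
    rw [getD_ofFn]
    refine Prod.ext ?_ (Prod.ext ?_ ?_)
    · ext p q
      change AdjoinRoot.mk (ρ.g i) ((s i).1 p q) = AdjoinRoot.mk (ρ.g i) (toP _)
      rw [matC_ent (h1 i)]
    · ext p q
      change AdjoinRoot.mk (ρ.g i) ((s i).2.1 p q) = AdjoinRoot.mk (ρ.g i) (toP _)
      rw [matC_ent (h2 i)]
    · ext p q
      change AdjoinRoot.mk (ρ.g i) ((s i).2.2 p q) = AdjoinRoot.mk (ρ.g i) (toP _)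
      rw [matC_ent (h3 i)]

theorem Dl_pos (ρ : Ref A B) : 0 < ρ.Dl := by
  unfold Ref.Dl Ref.D
  exact pow_pos (mul_pos ρ.Δ_pos (pow_pos ρ.q_pos _)) _

/-- the bounds for the units -/
theorem HU {G : List ℤ} {g : ℤ[X]} (hG : monP G = g) (hirr : Irreducible g)
    (h0 : g.coeff 0 ≠ 0) {Dl N : ℕ} (hDl : 0 < Dl) (hN : 0 < N) (F F' : Lam g) (L : ℕ)
    (hF : F * F' = (Dl : Lam g) ^ 2 * AdjoinRoot.root g ^ (2 * L)) :
    ∃ (F1 F1' : Lam g) (L1 : ℕ), PUni.Bd g (PBd.cUB G Dl N) F1 ∧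
      PUni.Bd g (PBd.cUB G Dl N) F1' ∧ L1 ≤ PBd.cUL G Dl N ∧
      F1 * F1' = (Dl : Lam g) ^ 2 * AdjoinRoot.root g ^ (2 * L1) ∧
      ∃ (k : ℕ) (w : Lam g), AdjoinRoot.root g ^ k *
        (AdjoinRoot.root g ^ L * F1 - AdjoinRoot.root g ^ L1 * F) = (N : Lam g) * w := by
  subst hG
  obtain ⟨p, p', h1, h2, h3, h4, h5, h6⟩ := PBd.units_code hirr h0 hDl hN hF
  obtain ⟨w, hw⟩ := h6 _ le_rfl
  refine ⟨_, _, PBd.cUL G Dl N, ⟨p, ?_, h3, rfl⟩, ⟨p', ?_, h4, rfl⟩, le_rfl, h5, _, w, hw⟩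
  · rw [monP_degree]
    exact h1
  · rw [monP_degree]
    exact h2

/-- the unit condition of a coded state over codes -/
theorem uni_iff (hc : Codes c ρ) {n : Fin ρ.f → ℕ} {ty : TC} {deg : ∀ i, Fin (n i) → ℕ}
    (hn : ∀ i : Fin ρ.f, tn ty i = n i)
    (hd : ∀ (i : Fin ρ.f) (q : Fin (n i)), td ty i q = deg i q) (st : SC) {N : ℕ}
    (hN : 0 < N) {s : ρ.MSt n}
    (hs : ∀ i, s i = stOf (ρ.g i) (n i) (ρ.na i) (ρ.nb i) st i) :
    Uni ρ deg s N ↔ PUniC2.UC a c ty st N (fun i => PBd.cUB (cG c i) (cDl a c) N)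
      (fun i => PBd.cUL (cG c i) (cDl a c) N) := by
  rw [← PUniC2.uni_codes hc hn hd st N, PUni.uni_iff]
  refine forall_congr' fun i => forall_congr' fun j => imp_congr_right fun _ => ?_
  rw [PUniC2.cDl_eq hc, ← hs i]
  exact PUni.ucond_iff_of (ρ.monic i) hN (HU (hc.g i) (ρ.irr i) (ρ.g0 i) (Dl_pos ρ) hN) _ _

/-- the integral identities over codes -/
def IdsC (a b : ℕ) (LB : IM) (c : RC) (ty : TC) (st : SC) (N : ℕ) : Prop :=
  ∃ (R' Ps T T' : IM) (l : ℕ), E1 a c ty st R' N ∧ E2 a b c ty st Ps N ∧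
    E3 a b c ty st T T' N ∧ E4 a b c ty st T (mpow b LB l) N

theorem ids_iff (hc : Codes c ρ) {n : Fin ρ.f → ℕ} {ty : TC} {deg : ∀ i, Fin (n i) → ℕ}
    (hn : ∀ i : Fin ρ.f, tn ty i = n i) (st : SC) {N : ℕ} {s : ρ.MSt n}
    (hs : ∀ i, s i = stOf (ρ.g i) (n i) (ρ.na i) (ρ.nb i) st i) {LB : IM}
    (hLB : toMat b b LB = zM B) : Ids ρ deg s N ↔ IdsC a b LB c ty st N :=
  PSem2.ids_iff_codes hc hn (fun i q t _ r => PSem1.GA_eq hc hn i (hs i) q t r)
    (fun i q t _ r => PSem1.GB_eq hc hn i (hs i) q t r) LB hLB N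

/-- **Semi-solutions modulo `N` over codes.** -/
theorem semi_codes (hc : Codes c ρ) {LB : IM} (hLB : toMat b b LB = zM B) {k0 : ℕ}
    (hpos : TrC8.posC b LB k0) {N : ℕ} (hN : 0 < N) :
    Semi ρ N ↔ ∃ ty ∈ tys a c, ∃ st ∈ sts c ty N,
      TrC8.trCc b k0 LB (cGs c) (tns ty) ∧ StC c ty st ∧ IdsC a b LB c ty st N ∧
      PUniC2.UC a c ty st N (fun i => PBd.cUB (cG c i) (cDl a c) N)
        (fun i => PBd.cUL (cG c i) (cDl a c) N) := by
  have htr : ∀ (n : Fin ρ.f → ℕ) (ty : TC), (∀ i : Fin ρ.f, tn ty i = n i) →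
      (TrC ρ n ↔ TrC8.trCc b k0 LB (cGs c) (tns ty)) := fun n ty hn =>
    TrC8.trC_iff ρ n hLB hpos (by rw [cGs_length, hc.nf])
      (fun i => by rw [cGs_getD, hc.g i]) (fun i => by rw [tns_getD, hn i])
  constructor
  · intro h
    obtain ⟨n, deg, s, h1, h2, h3, h4, h5, h6, h7⟩ := (PB.semi_iff_red ρ hN).1 h
    obtain ⟨ty, hty, hn, hd⟩ := exists_ty hc deg h1 h2
    obtain ⟨st, hst, hs⟩ := exists_st hc hn s h5
    refine ⟨ty, hty, st, hst, (htr n ty hn).1 h3, ?_, ?_, ?_⟩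
    · exact (PSem1.isSt_iff hc hn hd hs).1 fun i => (h4 i).map _
    · exact (ids_iff hc hn st hs hLB).1 h6
    · exact (uni_iff hc hn hd st hN hs).1 h7
  · rintro ⟨ty, hty, st, -, h3, h4, h6, h7⟩
    refine ⟨fun i => tn ty i, fun i q => td ty i q,
      fun i => stOf (ρ.g i) (tn ty i) (ρ.na i) (ρ.nb i) st i, fun i => ?_, fun i q => ?_,
      (htr _ ty fun _ => rfl).2 h3, ?_, ?_, ?_⟩
    · unfold tys at hty
      exact ((Types8.mem_tyL _ _ _).1 (Types8.getD_mem_pi hty [] (by rw [hc.nf]; exact i.2))).1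
    · unfold tys at hty
      have h := ((Types8.mem_tyL _ _ _).1
        (Types8.getD_mem_pi hty [] (i := i) (by rw [hc.nf]; exact i.2))).2
      change (ty.getD i []).getD q 0 < a
      rw [List.getD_eq_getElem?_getD, List.getElem?_eq_getElem q.2]
      exact h _ (List.getElem_mem _)
    · exact (PSem1.isSt_iff hc (fun _ => rfl) (fun _ _ => rfl) (fun _ => rfl)).2 h4
    · exact (ids_iff hc (fun _ => rfl) st (fun _ => rfl) hLB).2 h6
    · exact (uni_iff hc (fun _ => rfl) (fun _ _ => rfl) st hN (fun _ => rfl)).2 h7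

end Pool.Agent.DEC.PSemC
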