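import Pool.Agent.DEC.PValid
import Pool.Agent.DEC.PLam

/-!
DEC project (MP_59dda0_an), P side: the identities of one side of a reference datum are the
identities `SideC` on codes.
-/

set_option autoImplicit false

open Matrix Polynomial

namespace Pool.Agent.DEC.PSide

open PD PolyC PLam

/-! ### quantifiers and sums -/

theorem all_blk {n : ℕ} {lam : Fin n → ℕ} {l : List ℕ} (hn : l.length = n)
    (hl : ∀ k : Fin n, l.getD k 0 = lam k) {p : ℕ → ℕ → Prop} :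
    (∀ k < l.length, ∀ t < l.getD k 0, p k t) ↔ ∀ k : Blk lam, p k.1 k.2 := by
  constructor
  · intro h k
    exact h k.1 (by rw [hn]; exact k.1.2) k.2 (by rw [hl]; exact k.2.2)
  · intro h k hk t ht
    have hk' : k < n := by rw [← hn]; exact hk
    have ht' : t < lam ⟨k, hk'⟩ := by
      rw [← hl ⟨k, hk'⟩]
      exact ht
    exact h ⟨⟨k, hk'⟩, ⟨t, ht'⟩⟩

theorem sum_blk {n : ℕ} {lam : Fin n → ℕ} {l : List ℕ} (hn : l.length = n)
    (hl : ∀ k : Fin n, l.getD k 0 = lam k) {M : Type} [AddCommMonoid M] (F : ℕ → ℕ → M) :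
    ∑ k ∈ Finset.range l.length, ∑ t ∈ Finset.range (l.getD k 0), F k t =
      ∑ k : Blk lam, F k.1 k.2 := by
  rw [Fintype.sum_sigma, hn, ← Fin.sum_univ_eq_sum_range
    (fun k => ∑ t ∈ Finset.range (l.getD k 0), F k t)]
  refine Finset.sum_congr rfl fun k _ => ?_
  rw [hl, ← Fin.sum_univ_eq_sum_range (fun t => F k t)]

theorem blk_eq_iff {n : ℕ} {lam : Fin n → ℕ} (k k' : Blk lam) :
    k = k' ↔ (k.1 : ℕ) = k'.1 ∧ (k.2 : ℕ) = k'.2 := by
  obtain ⟨k, t⟩ := k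
  obtain ⟨k', t'⟩ := k'
  constructor
  · intro e
    cases e
    exact ⟨rfl, rfl⟩
  · rintro ⟨e1, e2⟩
    have e1' : k = k' := Fin.ext e1
    subst e1'
    have e2' : t = t' := Fin.ext e2
    subst e2'
    rfl

section side

variable {a f : ℕ} {g : Fin f → ℤ[X]} (hg : ∀ i, (g i).Monic) {n : Fin f → ℕ}
  {lam : ∀ i, Fin (n i) → ℕ} {G : ℕ → List ℤ} {h : ℕ → List ℕ} {Pc Pc' : ℕ → IM}
  {M Ma : ℕ → ℕ → ℤ} {A : Matrix (Fin a) (Fin a) ℤ}
  {P : ∀ i, (Blk (lam i) → Lam (g i)) →ₗ[ℤ] (Fin a → ℤ)}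
  {P' : ∀ i, (Fin a → ℤ) →ₗ[ℤ] (Blk (lam i) → Lam (g i))}

theorem natDegree_eq {G : List ℤ} {g : ℤ[X]} (hG : monP G = g) : g.natDegree = G.length := by
  rw [← hG]
  exact natDegree_eq_of_degree_eq_some (monP_degree G)

theorem coeff_eq {G : List ℤ} {g : ℤ[X]} (hG : monP G = g) {u : ℕ} (hu : u < G.length) :
    g.coeff u = G.getD u 0 := by
  rw [← hG]
  unfold monP
  rw [coeff_add, coeff_X_pow, coeff_toP, if_neg hu.ne, zero_add]

include hg in
theorem x_iff (hM : ∀ i j : Fin a, M i j = A i j)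
    (hG : ∀ i : Fin f, monP (G i) = g i) (hn : ∀ i : Fin f, (h i).length = n i)
    (hl : ∀ (i : Fin f) (k : Fin (n i)), (h i).getD k 0 = lam i k)
    (hP : ∀ (i : Fin f) (k : Blk (lam i)) (s : ℕ), s < (G i).length → ∀ r : Fin a,
      P i (Pi.single k (AdjoinRoot.root (g i) ^ s)) r = ent (Pc i) (ix k.1 k.2 s) r) (i : Fin f) :
    (∀ k < (h i).length, ∀ t < (h i).getD k 0, ∀ s < (G i).length, ∀ r < a,
      (if s + 1 < (G i).length then ent (Pc i) (ix k t (s + 1)) r else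
        - ∑ u ∈ Finset.range (G i).length, (G i).getD u 0 * ent (Pc i) (ix k t u) r) +
      (if t + 1 < (h i).getD k 0 then ent (Pc i) (ix k (t + 1) s) r else 0) =
        ∑ r' ∈ Finset.range a, ent (Pc i) (ix k t s) r' * M r' r) ↔
    ∀ v, P i (xL (AdjoinRoot.root (g i)) (lam i) v) = P i v ᵥ* A := by
  have hd : (g i).natDegree = (G i).length := natDegree_eq (hG i)
  rw [P_x_iff (hg i) (lam i) (P i) A]
  rw [all_blk (hn i) (hl i) (p := fun k t => ∀ s < (G i).length, ∀ r < a,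
      (if s + 1 < (G i).length then ent (Pc i) (ix k t (s + 1)) r else
        - ∑ u ∈ Finset.range (G i).length, (G i).getD u 0 * ent (Pc i) (ix k t u) r) +
      (if t + 1 < (h i).getD k 0 then ent (Pc i) (ix k (t + 1) s) r else 0) =
        ∑ r' ∈ Finset.range a, ent (Pc i) (ix k t s) r' * M r' r)]
  rw [Sigma.forall]
  refine forall_congr' fun k => forall_congr' fun t => ?_
  rw [hd]
  refine forall_congr' fun s => forall_congr' fun hs => ?_
  have key : ∀ r : Fin a,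
      ((if s + 1 < (G i).length then ent (Pc i) (ix k t (s + 1)) r else
        - ∑ u ∈ Finset.range (G i).length, (G i).getD u 0 * ent (Pc i) (ix k t u) r) +
      (if (t : ℕ) + 1 < (h i).getD k 0 then ent (Pc i) (ix k (t + 1) s) r else 0) =
        ∑ r' ∈ Finset.range a, ent (Pc i) (ix k t s) r' * M r' r) ↔
      ((if s + 1 < (G i).length then
          P i (Pi.single ⟨k, t⟩ (AdjoinRoot.root (g i) ^ (s + 1))) r else
          - ∑ u ∈ Finset.range (G i).length,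
            (g i).coeff u * P i (Pi.single ⟨k, t⟩ (AdjoinRoot.root (g i) ^ u)) r) +
          (if ht : (t : ℕ) + 1 < lam i k then
            P i (Pi.single ⟨k, ⟨t + 1, ht⟩⟩ (AdjoinRoot.root (g i) ^ s)) r else 0) =
        ∑ r', P i (Pi.single ⟨k, t⟩ (AdjoinRoot.root (g i) ^ s)) r' * A r' r) := by
    intro r
    have e1 : (if s + 1 < (G i).length then ent (Pc i) (ix k t (s + 1)) r else
        - ∑ u ∈ Finset.range (G i).length, (G i).getD u 0 * ent (Pc i) (ix k t u) r) =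
        (if s + 1 < (G i).length then
          P i (Pi.single ⟨k, t⟩ (AdjoinRoot.root (g i) ^ (s + 1))) r else
          - ∑ u ∈ Finset.range (G i).length,
            (g i).coeff u * P i (Pi.single ⟨k, t⟩ (AdjoinRoot.root (g i) ^ u)) r) := by
      split_ifs with h1
      · rw [hP i ⟨k, t⟩ _ h1]
      · congr 1
        refine Finset.sum_congr rfl fun u hu => ?_
        rw [coeff_eq (hG i) (Finset.mem_range.1 hu), hP i ⟨k, t⟩ _ (Finset.mem_range.1 hu)]
    have e2 : (if (t : ℕ) + 1 < (h i).getD k 0 then ent (Pc i) (ix k (t + 1) s) r else 0) =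
        (if ht : (t : ℕ) + 1 < lam i k then
            P i (Pi.single ⟨k, ⟨t + 1, ht⟩⟩ (AdjoinRoot.root (g i) ^ s)) r else 0) := by
      rw [hl]
      split_ifs with h1
      · rw [hP i ⟨k, ⟨t + 1, h1⟩⟩ s hs]
      · rfl
    have e3 : ∑ r' ∈ Finset.range a, ent (Pc i) (ix k t s) r' * M r' r =
        ∑ r', P i (Pi.single ⟨k, t⟩ (AdjoinRoot.root (g i) ^ s)) r' * A r' r := by
      rw [← Fin.sum_univ_eq_sum_range (fun r' => ent (Pc i) (ix k t s) r' * M r' r)]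
      refine Finset.sum_congr rfl fun r' _ => ?_
      rw [hP i ⟨k, t⟩ s hs, hM]
    rw [e1, e2, e3]
  exact ⟨fun h r => (key r).1 (h r r.2), fun h r hr => (key ⟨r, hr⟩).2 (h ⟨r, hr⟩)⟩

theorem p_iff (hG : ∀ i : Fin f, monP (G i) = g i) (hn : ∀ i : Fin f, (h i).length = n i)
    (hl : ∀ (i : Fin f) (k : Fin (n i)), (h i).getD k 0 = lam i k)
    (hP : ∀ (i : Fin f) (k : Blk (lam i)) (s : ℕ), s < (G i).length → ∀ r : Fin a,
      P i (Pi.single k (AdjoinRoot.root (g i) ^ s)) r = ent (Pc i) (ix k.1 k.2 s) r)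
    (hP' : ∀ (i : Fin f) (k : Blk (lam i)) (s : ℕ), s < (G i).length → ∀ r : Fin a,
      lcf (hg i) (P' i (Pi.single r 1) k) s = ent (Pc' i) r (ix k.1 k.2 s)) (Dl : ℕ)
    (i i' : Fin f) :
    (∀ k < (h i).length, ∀ t < (h i).getD k 0, ∀ s < (G i).length,
      ∀ k' < (h i').length, ∀ t' < (h i').getD k' 0, ∀ s' < (G i').length,
      ∑ r ∈ Finset.range a, ent (Pc i) (ix k t s) r * ent (Pc' i') r (ix k' t' s') =
        if (i : ℕ) = i' ∧ k = k' ∧ t = t' ∧ s = s' then (Dl : ℤ) else 0) ↔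
    ((i = i' → ∀ v, P' i (P i v) = (Dl : ℤ) • v) ∧ (i ≠ i' → ∀ v, P' i' (P i v) = 0)) := by
  have hd : ∀ j : Fin f, (g j).natDegree = (G j).length := fun j => natDegree_eq (hG j)
  have h1 : ∀ (k : Blk (lam i)) (s : ℕ), s < (G i).length → ∀ (k' : Blk (lam i')) (s' : ℕ),
      s' < (G i').length →
      ∑ r ∈ Finset.range a, ent (Pc i) (ix k.1 k.2 s) r * ent (Pc' i') r (ix k'.1 k'.2 s') =
        ∑ r : Fin a, P i (Pi.single k (AdjoinRoot.root (g i) ^ s)) r *
          lcf (hg i') (P' i' (Pi.single r 1) k') s' := by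
    intro k s hs k' s' hs'
    rw [← Fin.sum_univ_eq_sum_range
      (fun r => ent (Pc i) (ix k.1 k.2 s) r * ent (Pc' i') r (ix k'.1 k'.2 s'))]
    refine Finset.sum_congr rfl fun r _ => ?_
    rw [hP i k s hs, hP' i' k' s' hs']
  have h2 : (∀ k < (h i).length, ∀ t < (h i).getD k 0, ∀ s < (G i).length,
      ∀ k' < (h i').length, ∀ t' < (h i').getD k' 0, ∀ s' < (G i').length,
      ∑ r ∈ Finset.range a, ent (Pc i) (ix k t s) r * ent (Pc' i') r (ix k' t' s') =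
        if (i : ℕ) = i' ∧ k = k' ∧ t = t' ∧ s = s' then (Dl : ℤ) else 0) ↔
      ∀ (k : Blk (lam i)) (s : ℕ), s < (G i).length → ∀ (k' : Blk (lam i')) (s' : ℕ),
      s' < (G i').length → ∑ r : Fin a, P i (Pi.single k (AdjoinRoot.root (g i) ^ s)) r *
          lcf (hg i') (P' i' (Pi.single r 1) k') s' =
        if (i : ℕ) = i' ∧ (k.1 : ℕ) = k'.1 ∧ (k.2 : ℕ) = k'.2 ∧ s = s' then (Dl : ℤ) else 0 := by
    rw [all_blk (hn i) (hl i) (p := fun k t => ∀ s < (G i).length,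
      ∀ k' < (h i').length, ∀ t' < (h i').getD k' 0, ∀ s' < (G i').length,
      ∑ r ∈ Finset.range a, ent (Pc i) (ix k t s) r * ent (Pc' i') r (ix k' t' s') =
        if (i : ℕ) = i' ∧ k = k' ∧ t = t' ∧ s = s' then (Dl : ℤ) else 0)]
    refine forall_congr' fun k => forall_congr' fun s => forall_congr' fun hs => ?_
    rw [all_blk (hn i') (hl i') (p := fun k' t' => ∀ s' < (G i').length,
      ∑ r ∈ Finset.range a, ent (Pc i) (ix k.1 k.2 s) r * ent (Pc' i') r (ix k' t' s') =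
        if (i : ℕ) = i' ∧ (k.1 : ℕ) = k' ∧ (k.2 : ℕ) = t' ∧ s = s' then (Dl : ℤ) else 0)]
    refine forall_congr' fun k' => forall_congr' fun s' => forall_congr' fun hs' => ?_
    rw [h1 k s hs k' s' hs']
  rw [h2]
  by_cases e : i = i'
  · subst e
    have h3 : ((i = i → ∀ v, P' i (P i v) = (Dl : ℤ) • v) ∧ (i ≠ i → ∀ v, P' i (P i v) = 0)) ↔
        ∀ v, P' i (P i v) = (Dl : ℤ) • v :=
      ⟨fun h => h.1 rfl, fun h => ⟨fun _ => h, fun h' => absurd rfl h'⟩⟩
    rw [h3, P_P_iff (hg i), hd]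
    refine forall_congr' fun k => forall_congr' fun s => forall_congr' fun hs =>
      forall_congr' fun k' => forall_congr' fun s' => forall_congr' fun hs' => ?_
    have h4 : ((i : ℕ) = i ∧ (k.1 : ℕ) = k'.1 ∧ (k.2 : ℕ) = k'.2 ∧ s = s') ↔
        (k' = k ∧ s' = s) := by
      rw [blk_eq_iff]
      constructor
      · rintro ⟨-, h5, h6, h7⟩
        exact ⟨⟨h5.symm, h6.symm⟩, h7.symm⟩
      · rintro ⟨⟨h5, h6⟩, h7⟩
        exact ⟨rfl, h5.symm, h6.symm, h7.symm⟩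
    rw [if_congr h4 rfl rfl]
  · have h3 : ((i = i' → ∀ v, P' i (P i v) = (Dl : ℤ) • v) ∧
        (i ≠ i' → ∀ v, P' i' (P i v) = 0)) ↔ ∀ v, P' i' (P i v) = 0 :=
      ⟨fun h => h.2 e, fun h => ⟨fun h' => absurd h' e, fun _ => h⟩⟩
    rw [h3, P_ne_iff (hg i) (hg i'), hd, hd]
    refine forall_congr' fun k => forall_congr' fun s => forall_congr' fun hs =>
      forall_congr' fun k' => forall_congr' fun s' => forall_congr' fun hs' => ?_
    rw [if_neg (fun h5 => e (Fin.ext h5.1))]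

theorem sp_iff (hMa : ∀ i j : Fin a, Ma i j = (A ^ a) i j)
    (hG : ∀ i : Fin f, monP (G i) = g i) (hn : ∀ i : Fin f, (h i).length = n i)
    (hl : ∀ (i : Fin f) (k : Fin (n i)), (h i).getD k 0 = lam i k)
    (hP : ∀ (i : Fin f) (k : Blk (lam i)) (s : ℕ), s < (G i).length → ∀ r : Fin a,
      P i (Pi.single k (AdjoinRoot.root (g i) ^ s)) r = ent (Pc i) (ix k.1 k.2 s) r)
    (hP' : ∀ (i : Fin f) (k : Blk (lam i)) (s : ℕ), s < (G i).length → ∀ r : Fin a,
      lcf (hg i) (P' i (Pi.single r 1) k) s = ent (Pc' i) r (ix k.1 k.2 s)) (Dl : ℕ) :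
    (∀ r < a, ∀ x < a, ∑ i ∈ Finset.range f, ∑ k ∈ Finset.range (h i).length,
      ∑ t ∈ Finset.range ((h i).getD k 0), ∑ s ∈ Finset.range (G i).length,
        (∑ r' ∈ Finset.range a, Ma r r' * ent (Pc' i) r' (ix k t s)) *
          ent (Pc i) (ix k t s) x = (Dl : ℤ) * Ma r x) ↔
    ∀ v : Fin a → ℤ, ∑ i, P i (P' i (v ᵥ* A ^ a)) = (Dl : ℤ) • (v ᵥ* A ^ a) := by
  rw [P_sp_iff hg]
  have key : ∀ r x : Fin a, (∑ i ∈ Finset.range f, ∑ k ∈ Finset.range (h i).length,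
      ∑ t ∈ Finset.range ((h i).getD k 0), ∑ s ∈ Finset.range (G i).length,
        (∑ r' ∈ Finset.range a, Ma r r' * ent (Pc' i) r' (ix k t s)) *
          ent (Pc i) (ix k t s) x) =
      ∑ i, ∑ c, ∑ s ∈ Finset.range (g i).natDegree,
        (∑ k, (A ^ a) r k * lcf (hg i) (P' i (Pi.single k 1) c) s) *
          P i (Pi.single c (AdjoinRoot.root (g i) ^ s)) x := by
    intro r x
    rw [← Fin.sum_univ_eq_sum_range (fun i => ∑ k ∈ Finset.range (h i).length,
      ∑ t ∈ Finset.range ((h i).getD k 0), ∑ s ∈ Finset.range (G i).length,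
        (∑ r' ∈ Finset.range a, Ma r r' * ent (Pc' i) r' (ix k t s)) *
          ent (Pc i) (ix k t s) x)]
    refine Finset.sum_congr rfl fun i _ => ?_
    rw [sum_blk (hn i) (hl i) (fun k t => ∑ s ∈ Finset.range (G i).length,
        (∑ r' ∈ Finset.range a, Ma r r' * ent (Pc' i) r' (ix k t s)) *
          ent (Pc i) (ix k t s) x)]
    refine Finset.sum_congr rfl fun k _ => ?_
    rw [natDegree_eq (hG i)]
    refine Finset.sum_congr rfl fun s hs => ?_
    rw [hP i k s (Finset.mem_range.1 hs), ← Fin.sum_univ_eq_sum_range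
      (fun r' => Ma r r' * ent (Pc' i) r' (ix k.1 k.2 s))]
    congr 1
    refine Finset.sum_congr rfl fun r' _ => ?_
    rw [hMa, hP' i k s (Finset.mem_range.1 hs)]
  constructor
  · intro h1 r x
    rw [← key, h1 r r.2 x x.2, hMa]
  · intro h1 r hr x hx
    have h2 := h1 ⟨r, hr⟩ ⟨x, hx⟩
    rw [← key, ← hMa] at h2
    exact h2

/-- the identities on codes are the identities of the linear maps -/
theorem side_iff (hM : ∀ i j : Fin a, M i j = A i j) (hMa : ∀ i j : Fin a, Ma i j = (A ^ a) i j)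
    (hG : ∀ i : Fin f, monP (G i) = g i) (hn : ∀ i : Fin f, (h i).length = n i)
    (hl : ∀ (i : Fin f) (k : Fin (n i)), (h i).getD k 0 = lam i k)
    (hP : ∀ (i : Fin f) (k : Blk (lam i)) (s : ℕ), s < (G i).length → ∀ r : Fin a,
      P i (Pi.single k (AdjoinRoot.root (g i) ^ s)) r = ent (Pc i) (ix k.1 k.2 s) r)
    (hP' : ∀ (i : Fin f) (k : Blk (lam i)) (s : ℕ), s < (G i).length → ∀ r : Fin a,
      lcf (hg i) (P' i (Pi.single r 1) k) s = ent (Pc' i) r (ix k.1 k.2 s)) (Dl : ℕ) :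
    SideC a M Ma f G h Pc Pc' Dl ↔
      (∀ i c, 0 < lam i c) ∧
      (∀ i v, P i (xL (AdjoinRoot.root (g i)) (lam i) v) = P i v ᵥ* A) ∧
      (∀ i v, P' i (P i v) = (Dl : ℤ) • v) ∧ (∀ i j v, i ≠ j → P' j (P i v) = 0) ∧
      (∀ v : Fin a → ℤ, ∑ i, P i (P' i (v ᵥ* A ^ a)) = (Dl : ℤ) • (v ᵥ* A ^ a)) := by
  have hx := x_iff hg hM hG hn hl hP
  have hp := p_iff hg hG hn hl hP hP' Dl
  have hs := sp_iff hg hMa hG hn hl hP hP' Dl
  constructor
  · intro H
    refine ⟨?_, ?_, ?_, ?_, ?_⟩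
    · intro i c
      rw [← hl]
      exact H.pos i i.2 c (by rw [hn]; exact c.2)
    · intro i
      exact (hx i).1 (H.x i i.2)
    · intro i
      exact ((hp i i).1 fun k hk t ht s hs' k' hk' t' ht' s' hs'' =>
        H.p i i.2 k hk t ht s hs' i i.2 k' hk' t' ht' s' hs'').1 rfl
    · intro i j v hij
      exact ((hp i j).1 fun k hk t ht s hs' k' hk' t' ht' s' hs'' =>
        H.p i i.2 k hk t ht s hs' j j.2 k' hk' t' ht' s' hs'').2 hij v
    · exact hs.1 H.sp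
  · rintro ⟨h1, h2, h3, h4, h5⟩
    refine ⟨?_, ?_, ?_, ?_⟩
    · intro i hi k hk
      have hk' : k < n ⟨i, hi⟩ := by
        rw [← hn ⟨i, hi⟩]
        exact hk
      have e := hl ⟨i, hi⟩ ⟨k, hk'⟩
      have e2 := h1 ⟨i, hi⟩ ⟨k, hk'⟩
      rw [← e] at e2
      exact e2
    · intro i hi
      exact (hx ⟨i, hi⟩).2 (h2 ⟨i, hi⟩)
    · intro i hi k hk t ht s hs' i' hi' k' hk' t' ht' s' hs''
      exact (hp ⟨i, hi⟩ ⟨i', hi'⟩).2 ⟨fun _ => h3 ⟨i, hi⟩, fun hne v => h4 _ _ v hne⟩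
        k hk t ht s hs' k' hk' t' ht' s' hs''
    · exact hs.2 h5

end side

end Pool.Agent.DEC.PSide
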