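import Pool.Agent.DEC.PolyD
import Pool.Agent.DEC.PPred
import Pool.Agent.DEC.Per
import Pool.Agent.DEC.PDefs

/-!
DEC project (MP_59dda0_an), computability layer: traces of powers of the root of a monic
polynomial, and the trace condition `TrC` on codes.
-/

set_option autoImplicit false

namespace Pool.Agent.DEC.PTr

open Primrec Polynomial Pool.Agent.DEC Pool.Agent.DEC.PolyC Pool.Agent.DEC.PPred

/-- trace of the multiplication by `z` on `ℤ[x]/(monP G)` -/
def trE (G z : List ℤ) : ℤ := ∑ s ∈ Finset.range G.length, mulE G z s s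

/-- the trace of an element of the order given by a polynomial -/
theorem trace_mk {g : ℤ[X]} (hg : g.Monic) (p : ℤ[X]) :
    Algebra.trace ℤ (AdjoinRoot g) (AdjoinRoot.mk g p) =
      ∑ s ∈ Finset.range g.natDegree, ((p * X ^ s) %ₘ g).coeff s := by
  rw [Algebra.trace_eq_matrix_trace (AdjoinRoot.powerBasisAux' hg), Matrix.trace,
    Finset.sum_range]
  refine Finset.sum_congr rfl fun i _ => ?_
  rw [Matrix.diag_apply, Algebra.leftMulMatrix_eq_repr_mul,
    AdjoinRoot.powerBasisAux'_repr_apply_to_fun]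
  have h1 : AdjoinRoot.powerBasisAux' hg i = AdjoinRoot.mk g (X ^ (i : ℕ)) := by
    have h2 := (AdjoinRoot.powerBasis' hg).basis_eq_pow i
    rw [AdjoinRoot.powerBasis'_gen] at h2
    rw [map_pow, AdjoinRoot.mk_X]
    exact h2
  rw [h1, ← map_mul, AdjoinRoot.modByMonicHom_mk]

theorem trace_code (G z : List ℤ) :
    Algebra.trace ℤ (AdjoinRoot (monP G)) (AdjoinRoot.mk (monP G) (toP z)) = trE G z := by
  rw [trace_mk (monP_monic G), monP_natDegree]
  unfold trE
  exact Finset.sum_congr rfl fun s _ => (mulE_eq G z s s).symm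

theorem trace_root_pow (G : List ℤ) (k : ℕ) :
    Algebra.trace ℤ (AdjoinRoot (monP G)) (AdjoinRoot.root (monP G) ^ k) = trE G (xpw k) := by
  have h : AdjoinRoot.mk (monP G) (toP (xpw k)) = AdjoinRoot.root (monP G) ^ k := by
    rw [toP_xpw, map_pow, AdjoinRoot.mk_X]
  rw [← trace_code, h]

section pr
variable {α : Type*} [Primcodable α]

theorem pTrE {G z : α → List ℤ} (hG : Primrec G) (hz : Primrec z) :
    Primrec fun a => trE (G a) (z a) := by
  refine pSum (n := fun a => (G a).length) (f := fun a s => mulE (G a) (z a) s s)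
    (Primrec.list_length.comp hG) ?_
  exact pMulE (hG.comp fst) (hz.comp fst) snd snd

end pr

/-- the trace condition on codes: `f` factors with codes `G i`, multiplicities `n i` -/
def TrCode (f : ℕ) (G : ℕ → List ℤ) (n : ℕ → ℕ) (b : ℕ) (B : IM) : Prop :=
  ∀ k, 0 < k → (natMat b b B ^ k).trace = 0 →
    ∑ i ∈ Finset.range f, (n i : ℤ) * trE (G i) (xpw k) = 0

theorem not_trCode_iff (f : ℕ) (G : ℕ → List ℤ) (n : ℕ → ℕ) (b : ℕ) (B : IM) :
    ¬ TrCode f G n b B ↔ ∃ k, (0 < k ∧ mtrace b (mpow b (nrm b b B) k) = 0) ∧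
      ¬ ∑ i ∈ Finset.range f, (n i : ℤ) * trE (G i) (xpw k) = 0 := by
  unfold TrCode
  push Not
  refine exists_congr fun k => ?_
  rw [← natMat_trace_pow, and_assoc, Nat.cast_eq_zero]

section pr
variable {α : Type*} [Primcodable α]

/-- the failure of the trace condition is recursively enumerable -/
theorem re_not_trCode {f b : α → ℕ} {G : α → ℕ → List ℤ} {n : α → ℕ → ℕ} {B : α → IM}
    (hf : Primrec f) (hG : Primrec fun p : α × ℕ => G p.1 p.2)
    (hn : Primrec fun p : α × ℕ => n p.1 p.2) (hb : Primrec b) (hB : Primrec B) :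
    REPred fun a => ¬ TrCode (f a) (G a) (n a) (b a) (B a) := by
  have h1 : Primrec fun p : α × ℕ => mtrace (b p.1) (mpow (b p.1)
      (nrm (b p.1) (b p.1) (B p.1)) p.2) :=
    pMtrace (hb.comp fst) (pMpow (hb.comp fst) (pNrm (hb.comp fst) (hb.comp fst) (hB.comp fst)) snd)
  have h2 : Primrec fun p : α × ℕ =>
      ∑ i ∈ Finset.range (f p.1), (n p.1 i : ℤ) * trE (G p.1 i) (xpw p.2) := by
    refine pSum (n := fun p : α × ℕ => f p.1)
      (f := fun (p : α × ℕ) (i : ℕ) => (n p.1 i : ℤ) * trE (G p.1 i) (xpw p.2))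
      (hf.comp fst) ?_
    have e : Primrec fun q : (α × ℕ) × ℕ => (q.1.1, q.2) := Primrec.pair (fst.comp fst) snd
    exact pMul (primrec_natCast.comp (hn.comp e)) (pTrE (hG.comp e) (pXpw.comp (snd.comp fst)))
  have h3 : PrimrecPred fun p : α × ℕ => (0 < p.2 ∧ mtrace (b p.1) (mpow (b p.1)
      (nrm (b p.1) (b p.1) (B p.1)) p.2) = 0) ∧
      ¬ ∑ i ∈ Finset.range (f p.1), (n p.1 i : ℤ) * trE (G p.1 i) (xpw p.2) = 0 :=
    pAnd (pAnd (pNatLt (Primrec.const 0) snd) (pEq h1 (Primrec.const 0)))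
      (pNot (pEq h2 (Primrec.const 0)))
  exact (re_exists (R := fun (a : α) (k : ℕ) => (0 < k ∧ mtrace (b a) (mpow (b a)
      (nrm (b a) (b a) (B a)) k) = 0) ∧
      ¬ ∑ i ∈ Finset.range (f a), (n a i : ℤ) * trE (G a i) (xpw k) = 0)
      (re_of_primrec h3)).of_eq fun a => (not_trCode_iff _ _ _ _ _).symm

end pr

/-- the trace condition of reference data in terms of codes -/
theorem trC_iff {a b : ℕ} {A : Matrix (Fin a) (Fin a) ℕ} {B : Matrix (Fin b) (Fin b) ℕ}
    (ρ : Ref A B) (G : ℕ → List ℤ) (hG : ∀ i : Fin ρ.f, monP (G i) = ρ.g i) (BB : IM)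
    (hB : natMat b b BB = B) (n : Fin ρ.f → ℕ) (n' : ℕ → ℕ) (hn : ∀ i : Fin ρ.f, n i = n' i) :
    TrC ρ n ↔ TrCode ρ.f G n' b BB := by
  subst hB
  unfold TrC TrCode
  have h : ∀ k, ∑ i, (n i : ℤ) * Algebra.trace ℤ (Lam (ρ.g i)) (ρ.th i ^ k) =
      ∑ i ∈ Finset.range ρ.f, (n' i : ℤ) * trE (G i) (xpw k) := by
    intro k
    rw [Finset.sum_range]
    refine Finset.sum_congr rfl fun i _ => ?_
    rw [hn i]
    have h2 : ∀ g : ℤ[X], monP (G i) = g →
        Algebra.trace ℤ (AdjoinRoot g) (AdjoinRoot.root g ^ k) = trE (G i) (xpw k) := by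
      rintro g rfl
      exact trace_root_pow _ _
    exact congrArg _ (h2 _ (hG i))
  simp only [h]

/-- the trace condition of a coded reference datum and a coded type -/
theorem trC_codes {a b : ℕ} {A : Matrix (Fin a) (Fin a) ℕ} {B : Matrix (Fin b) (Fin b) ℕ}
    {ρ : Ref A B} {c : PD.RC} (hc : PD.Codes c ρ) {n : Fin ρ.f → ℕ} {ty : PD.TC}
    (hn : ∀ i : Fin ρ.f, n i = PD.tn ty i) {BB : IM} (hB : natMat b b BB = B) :
    TrC ρ n ↔ TrCode c.1.length (PD.cG c) (PD.tn ty) b BB := by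
  rw [hc.nf]
  exact trC_iff ρ (PD.cG c) hc.g BB hB n (PD.tn ty) hn

theorem re_not_trC {α : Type*} [Primcodable α] {c : α → PD.RC} {ty : α → PD.TC} {b : α → ℕ}
    {BB : α → IM} (hc : Primrec c) (hty : Primrec ty) (hb : Primrec b) (hB : Primrec BB) :
    REPred fun x => ¬ TrCode (c x).1.length (PD.cG (c x)) (PD.tn (ty x)) (b x) (BB x) :=
  re_not_trCode (f := fun x => (c x).1.length) (G := fun x i => PD.cG (c x) i)
    (n := fun x i => PD.tn (ty x) i) (Primrec.list_length.comp (fst.comp hc))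
    (PD.pCG (hc.comp fst) snd) (PD.pTn (hty.comp fst) snd) hb hB

end Pool.Agent.DEC.PTr
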