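import Pool.Agent.DEC.Core
import Pool.Agent.DEC.Pig

/-!
# DEC, P side: the unit condition of a semi-solution with bounded data
-/

set_option autoImplicit false

open Matrix Polynomial

namespace Pool.Agent.DEC.PUni

/-- the unit condition for `x = det Sig_j`, `y = det T_j` -/
def UCond (g : ℤ[X]) (Dl N : ℕ) (x y : Lam g) : Prop :=
  ∃ (F F' : Lam g) (L k : ℕ), F * F' = (Dl : Lam g) ^ 2 * AdjoinRoot.root g ^ (2 * L) ∧
    ∃ w, AdjoinRoot.root g ^ k * (F * x - AdjoinRoot.root g ^ L * (Dl : Lam g) * y) =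
      (N : Lam g) * w

theorem uni_iff {a b : ℕ} {A : Matrix (Fin a) (Fin a) ℕ} {B : Matrix (Fin b) (Fin b) ℕ}
    (ρ : Ref A B) {n : Fin ρ.f → ℕ} (deg : ∀ i, Fin (n i) → ℕ) (s : ρ.MSt n) (N : ℕ) :
    Uni ρ deg s N ↔ ∀ i j, Sat (ρ.shp deg i) j →
      UCond (ρ.g i) ρ.Dl N (gdet (SigM (ρ.shp deg i) (s i) j))
        (gdet (TM (ρ.shp deg i) (s i) j)) := Iff.rfl

/-- represented by a reduced polynomial with coefficients bounded by `B` -/
def Bd (g : ℤ[X]) (B : ℕ) (F : Lam g) : Prop :=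
  ∃ p : ℤ[X], p.degree < g.degree ∧ (∀ i, |p.coeff i| ≤ B) ∧ AdjoinRoot.mk g p = F

/-- the bounded unit condition -/
def UCondB (g : ℤ[X]) (Dl N B LB : ℕ) (x y : Lam g) : Prop :=
  ∃ (F F' : Lam g) (L : ℕ), Bd g B F ∧ Bd g B F' ∧ L ≤ LB ∧
    F * F' = (Dl : Lam g) ^ 2 * AdjoinRoot.root g ^ (2 * L) ∧
    ∃ w, AdjoinRoot.root g ^ (N ^ g.natDegree) *
      (F * x - AdjoinRoot.root g ^ L * (Dl : Lam g) * y) = (N : Lam g) * w

variable {g : ℤ[X]} {Dl N : ℕ} {x y x' y' : Lam g}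

theorem ucond_congr (hx : ∃ u, x' = x + (N : Lam g) * u) (hy : ∃ v, y' = y + (N : Lam g) * v)
    (h : UCond g Dl N x y) : UCond g Dl N x' y' := by
  obtain ⟨F, F', L, k, e, w, hw⟩ := h
  obtain ⟨u, rfl⟩ := hx
  obtain ⟨v, rfl⟩ := hy
  refine ⟨F, F', L, k, e, w + AdjoinRoot.root g ^ k * (F * u - AdjoinRoot.root g ^ L * Dl * v), ?_⟩
  linear_combination hw

theorem ucond_neg_left (h : UCond g Dl N x y) : UCond g Dl N (-x) y := by
  obtain ⟨F, F', L, k, e, w, hw⟩ := h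
  exact ⟨-F, -F', L, k, by rw [neg_mul_neg]; exact e, w, by rw [neg_mul_neg]; exact hw⟩

theorem ucond_neg_right (h : UCond g Dl N x y) : UCond g Dl N x (-y) := by
  obtain ⟨F, F', L, k, e, w, hw⟩ := h
  exact ⟨-F, -F', L, k, by rw [neg_mul_neg]; exact e, -w, by linear_combination -hw⟩

/-- signs do not matter -/
theorem ucond_sign (hx : x' = x ∨ x' = -x) (hy : y' = y ∨ y' = -y) :
    UCond g Dl N x y ↔ UCond g Dl N x' y' := by
  rcases hx with rfl | rfl <;> rcases hy with rfl | rfl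
  · exact Iff.rfl
  · exact ⟨ucond_neg_right, fun h => by simpa using ucond_neg_right h⟩
  · exact ⟨ucond_neg_left, fun h => by simpa using ucond_neg_left h⟩
  · exact ⟨fun h => ucond_neg_left (ucond_neg_right h),
      fun h => by simpa using ucond_neg_left (ucond_neg_right h)⟩

/-- the exponent of the root can be taken to be `N ^ deg g` -/
theorem kill_root (hg : g.Monic) (hN : 0 < N) (z : Lam g) {m : ℕ}
    (h : ∃ w, AdjoinRoot.root g ^ m * z = (N : Lam g) * w) :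
    ∃ w, AdjoinRoot.root g ^ (N ^ g.natDegree) * z = (N : Lam g) * w :=
  kill_pow (AdjoinRoot.powerBasis' hg).basis hN (AdjoinRoot.root g) z h

/-- the abstract form -/
theorem ucond_iff_of (hg : g.Monic) (hN : 0 < N) {B LB : ℕ}
    (HU : ∀ (F F' : Lam g) (L : ℕ), F * F' = (Dl : Lam g) ^ 2 * AdjoinRoot.root g ^ (2 * L) →
      ∃ (F1 F1' : Lam g) (L1 : ℕ), Bd g B F1 ∧ Bd g B F1' ∧ L1 ≤ LB ∧
        F1 * F1' = (Dl : Lam g) ^ 2 * AdjoinRoot.root g ^ (2 * L1) ∧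
        ∃ (k : ℕ) (w : Lam g), AdjoinRoot.root g ^ k *
          (AdjoinRoot.root g ^ L * F1 - AdjoinRoot.root g ^ L1 * F) = (N : Lam g) * w)
    (x y : Lam g) : UCond g Dl N x y ↔ UCondB g Dl N B LB x y := by
  constructor
  · rintro ⟨F, F', L, k, e, w, hw⟩
    obtain ⟨F1, F1', L1, b1, b1', hL1, e1, k1, w1, hw1⟩ := HU F F' L e
    refine ⟨F1, F1', L1, b1, b1', hL1, e1, kill_root hg hN _ (m := L + k + k1) ?_⟩
    refine ⟨AdjoinRoot.root g ^ k * w1 * x + AdjoinRoot.root g ^ (L1 + k1) * w, ?_⟩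
    linear_combination (AdjoinRoot.root g ^ k * x) * hw1 + (AdjoinRoot.root g ^ (L1 + k1)) * hw
  · rintro ⟨F, F', L, -, -, -, e, w, hw⟩
    exact ⟨F, F', L, _, e, w, hw⟩

end Pool.Agent.DEC.PUni
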