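import Pool.Agent.DEC.Core
import Pool.Agent.DEC.GDet
import Pool.Agent.DEC.PolyD

/-!
DEC project (MP_59dda0_an), computability layer: the unit condition with bounded data over codes.
-/

set_option autoImplicit false

namespace Pool.Agent.DEC.PUniC

open Primrec Polynomial Pool.Agent.DEC Pool.Agent.DEC.PPred Pool.Agent.DEC.PolyC
  Pool.Agent.DEC.GDet

/-! ### identities in `ℤ[x]/(g)` -/

section alg

variable (g : ℤ[X])

/-- `p p' = Dl ^ 2 θ ^ (2 L)` -/
theorem unit_eq_iff (p p' : ℤ[X]) (Dl L : ℕ) :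
    (AdjoinRoot.mk g p * AdjoinRoot.mk g p' =
      (Dl : Lam g) ^ 2 * AdjoinRoot.root g ^ (2 * L)) ↔
      g ∣ p * p' - C ((Dl : ℤ) ^ 2) * X ^ (2 * L) := by
  have h : AdjoinRoot.mk g (C (Dl : ℤ)) = (Dl : Lam g) := by
    rw [map_natCast C, map_natCast]
  rw [← AdjoinRoot.mk_eq_mk, map_mul, map_mul, map_pow C, map_pow, map_pow, AdjoinRoot.mk_X, h]

/-- the congruence of the unit condition -/
theorem unit_mod_iff (p x y : ℤ[X]) (Dl N L k : ℕ) :
    (∃ w : Lam g, AdjoinRoot.root g ^ k * (AdjoinRoot.mk g p * AdjoinRoot.mk g x -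
      AdjoinRoot.root g ^ L * (Dl : Lam g) * AdjoinRoot.mk g y) = (N : Lam g) * w) ↔
      ∃ h : ℤ[X], g ∣ X ^ k * (p * x - X ^ L * C (Dl : ℤ) * y) - C (N : ℤ) * h := by
  have h1 : AdjoinRoot.mk g (C (Dl : ℤ)) = (Dl : Lam g) := by
    rw [map_natCast C, map_natCast]
  have h2 : AdjoinRoot.mk g (C (N : ℤ)) = (N : Lam g) := by
    rw [map_natCast C, map_natCast]
  have key : ∀ h : ℤ[X], (g ∣ X ^ k * (p * x - X ^ L * C (Dl : ℤ) * y) - C (N : ℤ) * h) ↔
      AdjoinRoot.root g ^ k * (AdjoinRoot.mk g p * AdjoinRoot.mk g x -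
      AdjoinRoot.root g ^ L * (Dl : Lam g) * AdjoinRoot.mk g y) =
        (N : Lam g) * AdjoinRoot.mk g h := by
    intro h
    rw [← AdjoinRoot.mk_eq_mk, map_mul, map_pow, AdjoinRoot.mk_X, map_sub, map_mul, map_mul,
      map_mul, map_pow, AdjoinRoot.mk_X, h1, map_mul, h2]
  constructor
  · rintro ⟨w, hw⟩
    obtain ⟨h, rfl⟩ := AdjoinRoot.mk_surjective w
    exact ⟨h, (key h).2 hw⟩
  · rintro ⟨h, hh⟩
    exact ⟨_, (key h).1 hh⟩

end alg

/-- quantification over the polynomials of degree less than the degree of `monP G` with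
coefficients in `[-B, B]` -/
theorem exists_poly_iff (G : List ℤ) (B : ℕ) (Q : ℤ[X] → Prop) :
    (∃ p : ℤ[X], p.degree < (monP G).degree ∧ (∀ s, |p.coeff s| ≤ (B : ℤ)) ∧ Q p) ↔
      ∃ w ∈ vecs G.length B, Q (toP w) := by
  constructor
  · rintro ⟨p, hp, hc, hq⟩
    refine ⟨tabl G.length p.coeff, (mem_vecs _ _ _).2 ⟨tabl_length _ _, ?_⟩, ?_⟩
    · intro z hz
      unfold tabl at hz
      obtain ⟨i, -, rfl⟩ := List.mem_map.1 hz
      exact hc i
    · have h : toP (tabl G.length p.coeff) = p := by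
        ext i
        rw [coeff_tabl]
        split_ifs with hi
        · rfl
        · rw [monP_degree] at hp
          exact (coeff_eq_zero_of_degree_lt (hp.trans_le (by exact_mod_cast not_lt.1 hi))).symm
      rw [h]
      exact hq
  · rintro ⟨w, hw, hq⟩
    obtain ⟨hl, hc⟩ := (mem_vecs _ _ _).1 hw
    refine ⟨toP w, ?_, ?_, hq⟩
    · rw [monP_degree, ← hl]
      exact degree_toP_lt w
    · intro s
      rw [coeff_toP]
      by_cases hs : s < w.length
      · rw [List.getD_eq_getElem _ _ hs]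
        exact hc _ (List.getElem_mem _)
      · rw [getD_of_le (not_lt.1 hs)]
        simp

/-! ### the unit condition with bounded data -/

/-- the unit condition with bounded data -/
def UB (g : ℤ[X]) (Dl N B LB : ℕ) (x y : Lam g) : Prop :=
  ∃ p p' : ℤ[X], p.degree < g.degree ∧ p'.degree < g.degree ∧
    (∀ s, |p.coeff s| ≤ (B : ℤ)) ∧ (∀ s, |p'.coeff s| ≤ (B : ℤ)) ∧ ∃ L ≤ LB,
      AdjoinRoot.mk g p * AdjoinRoot.mk g p' =
        (Dl : Lam g) ^ 2 * AdjoinRoot.root g ^ (2 * L) ∧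
      ∃ w : Lam g, AdjoinRoot.root g ^ (N ^ g.natDegree) * (AdjoinRoot.mk g p * x -
        AdjoinRoot.root g ^ L * (Dl : Lam g) * y) = (N : Lam g) * w

theorem ub_iff (G : List ℤ) (Dl N B LB : ℕ) (x y : List ℤ) :
    UB (monP G) Dl N B LB (AdjoinRoot.mk (monP G) (toP x)) (AdjoinRoot.mk (monP G) (toP y)) ↔
      ∃ v ∈ vecs G.length B, ∃ v' ∈ vecs G.length B, ∃ L < LB + 1,
        (monP G ∣ toP (psub (pmul v v') (pmul (pcst ((Dl : ℤ) ^ 2)) (xpw (2 * L))))) ∧
        ∃ h : ℤ[X], monP G ∣ toP (pmul (xpw (N ^ G.length)) (psub (pmul v x)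
          (pmul (pmul (xpw L) (pcst (Dl : ℤ))) y))) - C (N : ℤ) * h := by
  simp only [toP_psub, toP_pmul, toP_xpw, toP_pcst]
  have h1 : UB (monP G) Dl N B LB (AdjoinRoot.mk (monP G) (toP x))
      (AdjoinRoot.mk (monP G) (toP y)) ↔
      ∃ p : ℤ[X], p.degree < (monP G).degree ∧ (∀ s, |p.coeff s| ≤ (B : ℤ)) ∧
        ∃ p' : ℤ[X], p'.degree < (monP G).degree ∧ (∀ s, |p'.coeff s| ≤ (B : ℤ)) ∧
        ∃ L < LB + 1, (monP G ∣ p * p' - C ((Dl : ℤ) ^ 2) * X ^ (2 * L)) ∧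
        ∃ h : ℤ[X], monP G ∣ X ^ (N ^ G.length) * (p * toP x - X ^ L * C (Dl : ℤ) * toP y) -
          C (N : ℤ) * h := by
    unfold UB
    rw [monP_natDegree]
    constructor
    · rintro ⟨p, p', a1, a2, a3, a4, L, hL, a5, a6⟩
      exact ⟨p, a1, a3, p', a2, a4, L, by omega, (unit_eq_iff _ _ _ _ _).1 a5,
        (unit_mod_iff _ _ _ _ _ _ _ _).1 a6⟩
    · rintro ⟨p, a1, a3, p', a2, a4, L, hL, a5, a6⟩
      exact ⟨p, p', a1, a2, a3, a4, L, by omega, (unit_eq_iff _ _ _ _ _).2 a5,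
        (unit_mod_iff _ _ _ _ _ _ _ _).2 a6⟩
  rw [h1, exists_poly_iff]
  refine exists_congr fun v => and_congr_right fun _ => ?_
  exact exists_poly_iff G B _

section pr

variable {α : Type*} [Primcodable α]

theorem pUB {G x y : α → List ℤ} {Dl N B LB : α → ℕ} (hG : Primrec G) (hx : Primrec x)
    (hy : Primrec y) (hD : Primrec Dl) (hN : Primrec N) (hB : Primrec B) (hL : Primrec LB) :
    PrimrecPred fun a => UB (monP (G a)) (Dl a) (N a) (B a) (LB a)
      (AdjoinRoot.mk (monP (G a)) (toP (x a))) (AdjoinRoot.mk (monP (G a)) (toP (y a))) := by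
  refine PrimrecPred.of_eq ?_ fun a => (ub_iff (G a) (Dl a) (N a) (B a) (LB a) (x a) (y a)).symm
  refine pEx (R := fun (a : α) (v : List ℤ) => ∃ v' ∈ vecs (G a).length (B a), ∃ L < LB a + 1,
        (monP (G a) ∣ toP (psub (pmul v v') (pmul (pcst ((Dl a : ℤ) ^ 2)) (xpw (2 * L))))) ∧
        ∃ h : ℤ[X], monP (G a) ∣ toP (pmul (xpw (N a ^ (G a).length)) (psub (pmul v (x a))
          (pmul (pmul (xpw L) (pcst (Dl a : ℤ))) (y a)))) - C (N a : ℤ) * h) ?_
    (primrec_vecs.comp (list_length.comp hG) hB)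
  refine pEx (R := fun (p : α × List ℤ) (v' : List ℤ) => ∃ L < LB p.1 + 1,
        (monP (G p.1) ∣ toP (psub (pmul p.2 v')
          (pmul (pcst ((Dl p.1 : ℤ) ^ 2)) (xpw (2 * L))))) ∧
        ∃ h : ℤ[X], monP (G p.1) ∣ toP (pmul (xpw (N p.1 ^ (G p.1).length))
          (psub (pmul p.2 (x p.1)) (pmul (pmul (xpw L) (pcst (Dl p.1 : ℤ))) (y p.1)))) -
            C (N p.1 : ℤ) * h) ?_
    (primrec_vecs.comp (list_length.comp (hG.comp fst)) (hB.comp fst))
  refine pExLt (R := fun (p : (α × List ℤ) × List ℤ) (L : ℕ) =>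
        (monP (G p.1.1) ∣ toP (psub (pmul p.1.2 p.2)
          (pmul (pcst ((Dl p.1.1 : ℤ) ^ 2)) (xpw (2 * L))))) ∧
        ∃ h : ℤ[X], monP (G p.1.1) ∣ toP (pmul (xpw (N p.1.1 ^ (G p.1.1).length))
          (psub (pmul p.1.2 (x p.1.1)) (pmul (pmul (xpw L) (pcst (Dl p.1.1 : ℤ))) (y p.1.1)))) -
            C (N p.1.1 : ℤ) * h) ?_ (Primrec.succ.comp (hL.comp (fst.comp fst)))
  have ha : Primrec fun q : ((α × List ℤ) × List ℤ) × ℕ => q.1.1.1 :=
    fst.comp (fst.comp fst)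
  have hv : Primrec fun q : ((α × List ℤ) × List ℤ) × ℕ => q.1.1.2 :=
    snd.comp (fst.comp fst)
  have hv' : Primrec fun q : ((α × List ℤ) × List ℤ) × ℕ => q.1.2 := snd.comp fst
  have hDz : Primrec fun q : ((α × List ℤ) × List ℤ) × ℕ => ((Dl q.1.1.1 : ℕ) : ℤ) :=
    primrec_natCast.comp (hD.comp ha)
  have hNz : Primrec fun q : ((α × List ℤ) × List ℤ) × ℕ => ((N q.1.1.1 : ℕ) : ℤ) :=
    primrec_natCast.comp (hN.comp ha)
  refine pAnd (pDvd (hG.comp ha) ?_) (pDvdMod (hG.comp ha) ?_ hNz)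
  · refine pPsub.comp (pPmul.comp hv hv') (pPmul.comp (pPcst.comp ?_) (pXpw.comp ?_))
    · exact pPow hDz (Primrec.const 2)
    · exact Primrec.nat_mul.comp (Primrec.const 2) snd
  · refine pPmul.comp (pXpw.comp ?_) (pPsub.comp (pPmul.comp hv (hx.comp ha))
      (pPmul.comp (pPmul.comp (pXpw.comp snd) (pPcst.comp hDz)) (hy.comp ha)))
    exact primrec_nat_pow.comp (hN.comp ha) (list_length.comp (hG.comp ha))

end pr

/-! ### the determinants of a state over `ℤ[x]/(g)` -/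

section gd

variable (g : ℤ[X])

/-- the state over `ℤ[x]/(g)` given by three codes of polynomial matrices -/
noncomputable def stL (r x z : ℕ) (C rho tau : List (List (List ℤ))) :
    RSt (Lam g) (Fin r) (Fin x) (Fin z) :=
  smap (AdjoinRoot.mk g) (stC CR.poly r x z C rho tau)

theorem val_cSigL (r x z : ℕ) (dl ll ml : List ℕ) (C rho tau : List (List (List ℤ))) (j : ℕ)
    [Fintype ({p : Fin r // j + 1 ≤ (shp r x z dl ll ml).deg p} ⊕
      {a : Fin x // j + 1 ≤ (shp r x z dl ll ml).lam a})]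
    [Fintype {q : Fin r // j ≤ (shp r x z dl ll ml).deg q}]
    [DecidableEq {q : Fin r // j ≤ (shp r x z dl ll ml).deg q}] :
    gdet (SigM (shp r x z dl ll ml) (stL g r x z C rho tau) j) =
        AdjoinRoot.mk g (toP (cSig CR.poly r x dl ll C rho j)) ∨
      gdet (SigM (shp r x z dl ll ml) (stL g r x z C rho tau) j) =
        - AdjoinRoot.mk g (toP (cSig CR.poly r x dl ll C rho j)) := by
  unfold stL
  rw [SigM_map, gdet_map]
  rcases val_cSig CR.poly r x z dl ll ml C rho tau j with h | h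
  · left
    change toP _ = _ at h
    rw [h]
  · right
    change toP _ = _ at h
    rw [h, map_neg, neg_neg]

theorem val_cTL (r x z : ℕ) (dl ll ml : List ℕ) (C rho tau : List (List (List ℤ))) (j : ℕ)
    [Fintype {b : Fin z // j + 1 ≤ (shp r x z dl ll ml).mu b}]
    [Fintype {q : Fin r // (shp r x z dl ll ml).deg q = j}]
    [DecidableEq {q : Fin r // (shp r x z dl ll ml).deg q = j}] :
    gdet (TM (shp r x z dl ll ml) (stL g r x z C rho tau) j) =
        AdjoinRoot.mk g (toP (cT CR.poly r z dl ml C tau j)) ∨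
      gdet (TM (shp r x z dl ll ml) (stL g r x z C rho tau) j) =
        - AdjoinRoot.mk g (toP (cT CR.poly r z dl ml C tau j)) := by
  unfold stL
  rw [TM_map, gdet_map]
  rcases val_cT CR.poly r x z dl ll ml C rho tau j with h | h
  · left
    change toP _ = _ at h
    rw [h]
  · right
    change toP _ = _ at h
    rw [h, map_neg, neg_neg]

end gd

end Pool.Agent.DEC.PUniC
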