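import Pool.Agent.DEC.PUniC
import Pool.Agent.DEC.PUni
import Pool.Agent.DEC.PDefs

/-!
DEC project (MP_59dda0_an), P side: the bounded unit condition of a coded state over codes.
-/

set_option autoImplicit false

open Matrix Polynomial

namespace Pool.Agent.DEC.PUniC2

open Primrec Pool.Agent.DEC Pool.Agent.DEC.PPred Pool.Agent.DEC.PolyC Pool.Agent.DEC.PD
  Pool.Agent.DEC.GDet Pool.Agent.DEC.PUniC Pool.Agent.DEC.PUni

section ub

variable {g : ℤ[X]} {Dl N B LB : ℕ} {x y x' y' : Lam g}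

theorem ucondB_iff_ub : UCondB g Dl N B LB x y ↔ UB g Dl N B LB x y := by
  constructor
  · rintro ⟨F, F', L, ⟨p, h1, h2, rfl⟩, ⟨p', h3, h4, rfl⟩, hL, h5, h6⟩
    exact ⟨p, p', h1, h3, h2, h4, L, hL, h5, h6⟩
  · rintro ⟨p, p', h1, h3, h2, h4, L, hL, h5, h6⟩
    exact ⟨_, _, L, ⟨p, h1, h2, rfl⟩, ⟨p', h3, h4, rfl⟩, hL, h5, h6⟩

theorem bd_neg {F : Lam g} (h : Bd g B F) : Bd g B (-F) := by
  obtain ⟨p, h1, h2, rfl⟩ := h
  exact ⟨-p, by rwa [degree_neg], fun i => by rw [coeff_neg, abs_neg]; exact h2 i, map_neg _ _⟩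

theorem ucondB_neg_left (h : UCondB g Dl N B LB x y) : UCondB g Dl N B LB (-x) y := by
  obtain ⟨F, F', L, b1, b2, hL, e, w, hw⟩ := h
  exact ⟨-F, -F', L, bd_neg b1, bd_neg b2, hL, by rw [neg_mul_neg]; exact e, w,
    by rw [neg_mul_neg]; exact hw⟩

theorem ucondB_neg_right (h : UCondB g Dl N B LB x y) : UCondB g Dl N B LB x (-y) := by
  obtain ⟨F, F', L, b1, b2, hL, e, w, hw⟩ := h
  exact ⟨-F, -F', L, bd_neg b1, bd_neg b2, hL, by rw [neg_mul_neg]; exact e, -w,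
    by linear_combination -hw⟩

/-- signs do not matter -/
theorem ucondB_sign (hx : x' = x ∨ x' = -x) (hy : y' = y ∨ y' = -y) :
    UCondB g Dl N B LB x y ↔ UCondB g Dl N B LB x' y' := by
  rcases hx with rfl | rfl <;> rcases hy with rfl | rfl
  · exact Iff.rfl
  · exact ⟨ucondB_neg_right, fun h => by simpa using ucondB_neg_right h⟩
  · exact ⟨ucondB_neg_left, fun h => by simpa using ucondB_neg_left h⟩
  · exact ⟨fun h => ucondB_neg_left (ucondB_neg_right h),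
      fun h => by simpa using ucondB_neg_left (ucondB_neg_right h)⟩

end ub

/-- the state of a code, two forms -/
theorem stOf_eq (g : ℤ[X]) (n x z : ℕ) (st : SC) (i : ℕ) :
    stOf g n x z st i = stL g n x z (sC st i) (sR st i) (sT st i) := rfl

/-- the code of `det Sig_j` of the factor `i` -/
noncomputable def sigC (c : RC) (ty : TC) (st : SC) (i j : ℕ) : List ℤ :=
  cSig CR.poly (tn ty i) (cLa c i).length (ty.getD i []) (cLa c i) (sC st i) (sR st i) j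

/-- the code of `det T_j` of the factor `i` -/
noncomputable def tauC (c : RC) (ty : TC) (st : SC) (i j : ℕ) : List ℤ :=
  cT CR.poly (tn ty i) (cMu c i).length (ty.getD i []) (cMu c i) (sC st i) (sT st i) j

/-- `Sat` for the factor `i` -/
def satC (c : RC) (ty : TC) (i j : ℕ) : Prop :=
  Sat (shp (tn ty i) (cLa c i).length (cMu c i).length (ty.getD i []) (cLa c i) (cMu c i)) j

/-- the unit condition over codes, with bounds `Bi i`, `Li i` -/
def UC (a : ℕ) (c : RC) (ty : TC) (st : SC) (N : ℕ) (Bi Li : ℕ → ℕ) : Prop :=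
  ∀ i < c.1.length, ∀ k < (cMu c i).length, satC c ty i ((cMu c i).getD k 0 - 1) →
    UB (monP (cG c i)) (cDl a c) N (Bi i) (Li i)
      (AdjoinRoot.mk (monP (cG c i)) (toP (sigC c ty st i ((cMu c i).getD k 0 - 1))))
      (AdjoinRoot.mk (monP (cG c i)) (toP (tauC c ty st i ((cMu c i).getD k 0 - 1))))

section main

variable {a b : ℕ} {A : Matrix (Fin a) (Fin a) ℕ} {B : Matrix (Fin b) (Fin b) ℕ}
  {ρ : Ref A B} {c : RC} {n : Fin ρ.f → ℕ} {ty : TC} {deg : ∀ i, Fin (n i) → ℕ}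

theorem shp_eq (hc : Codes c ρ) (hd : ∀ (i : Fin ρ.f) (q : Fin (n i)), td ty i q = deg i q)
    (i : Fin ρ.f) :
    ρ.shp deg i = shp (n i) (ρ.na i) (ρ.nb i) (ty.getD i []) (cLa c i) (cMu c i) := by
  unfold Ref.shp shp
  congr 1
  · funext q
    exact (hd i q).symm
  · funext k
    exact (hc.lam i k).symm
  · funext k
    exact (hc.mu i k).symm

theorem satC_iff (hc : Codes c ρ) (hn : ∀ i : Fin ρ.f, tn ty i = n i)
    (hd : ∀ (i : Fin ρ.f) (q : Fin (n i)), td ty i q = deg i q) (i : Fin ρ.f) (j : ℕ) :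
    Sat (ρ.shp deg i) j ↔ satC c ty i j := by
  unfold satC
  rw [sat_iff, hn i, hc.na i, hc.nb i, ← sat_iff, shp_eq hc hd]

theorem sig_eq (hc : Codes c ρ) (hn : ∀ i : Fin ρ.f, tn ty i = n i)
    (hd : ∀ (i : Fin ρ.f) (q : Fin (n i)), td ty i q = deg i q) (st : SC) (i : Fin ρ.f) (j : ℕ) :
    gdet (SigM (ρ.shp deg i) (stOf (ρ.g i) (n i) (ρ.na i) (ρ.nb i) st i) j) =
        AdjoinRoot.mk (ρ.g i) (toP (sigC c ty st i j)) ∨
      gdet (SigM (ρ.shp deg i) (stOf (ρ.g i) (n i) (ρ.na i) (ρ.nb i) st i) j) =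
        - AdjoinRoot.mk (ρ.g i) (toP (sigC c ty st i j)) := by
  unfold sigC
  rw [hn i, hc.na i, shp_eq hc hd i, stOf_eq]
  exact val_cSigL (ρ.g i) (n i) (ρ.na i) (ρ.nb i) (ty.getD i []) (cLa c i) (cMu c i) (sC st i)
    (sR st i) (sT st i) j

theorem tau_eq (hc : Codes c ρ) (hn : ∀ i : Fin ρ.f, tn ty i = n i)
    (hd : ∀ (i : Fin ρ.f) (q : Fin (n i)), td ty i q = deg i q) (st : SC) (i : Fin ρ.f) (j : ℕ) :
    gdet (TM (ρ.shp deg i) (stOf (ρ.g i) (n i) (ρ.na i) (ρ.nb i) st i) j) =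
        AdjoinRoot.mk (ρ.g i) (toP (tauC c ty st i j)) ∨
      gdet (TM (ρ.shp deg i) (stOf (ρ.g i) (n i) (ρ.na i) (ρ.nb i) st i) j) =
        - AdjoinRoot.mk (ρ.g i) (toP (tauC c ty st i j)) := by
  unfold tauC
  rw [hn i, hc.nb i, shp_eq hc hd i, stOf_eq]
  exact val_cTL (ρ.g i) (n i) (ρ.na i) (ρ.nb i) (ty.getD i []) (cLa c i) (cMu c i) (sC st i)
    (sR st i) (sT st i) j

theorem cDl_eq (hc : Codes c ρ) : cDl a c = ρ.Dl := by
  unfold cDl Ref.Dl cD Ref.D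
  rw [hc.Δ, hc.q]

/-- **The bounded unit condition over codes.** -/
theorem uni_codes (hc : Codes c ρ) (hn : ∀ i : Fin ρ.f, tn ty i = n i)
    (hd : ∀ (i : Fin ρ.f) (q : Fin (n i)), td ty i q = deg i q) (st : SC) (N : ℕ)
    (Bi Li : ℕ → ℕ) :
    (∀ (i : Fin ρ.f) (j : ℕ), Sat (ρ.shp deg i) j → UCondB (ρ.g i) ρ.Dl N (Bi i) (Li i)
      (gdet (SigM (ρ.shp deg i) (stOf (ρ.g i) (n i) (ρ.na i) (ρ.nb i) st i) j))
      (gdet (TM (ρ.shp deg i) (stOf (ρ.g i) (n i) (ρ.na i) (ρ.nb i) st i) j))) ↔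
      UC a c ty st N Bi Li := by
  have key : ∀ (i : Fin ρ.f) (j : ℕ), UCondB (ρ.g i) ρ.Dl N (Bi i) (Li i)
      (gdet (SigM (ρ.shp deg i) (stOf (ρ.g i) (n i) (ρ.na i) (ρ.nb i) st i) j))
      (gdet (TM (ρ.shp deg i) (stOf (ρ.g i) (n i) (ρ.na i) (ρ.nb i) st i) j)) ↔
      UB (monP (cG c i)) (cDl a c) N (Bi i) (Li i)
        (AdjoinRoot.mk (monP (cG c i)) (toP (sigC c ty st i j)))
        (AdjoinRoot.mk (monP (cG c i)) (toP (tauC c ty st i j))) := by
    intro i j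
    rw [cDl_eq hc, hc.g i, ← ucondB_iff_ub]
    refine (ucondB_sign ?_ ?_).symm
    · exact sig_eq hc hn hd st i j
    · exact tau_eq hc hn hd st i j
  unfold UC
  rw [hc.nf]
  constructor
  · intro h i hi k _ hsat
    exact (key ⟨i, hi⟩ _).1 (h ⟨i, hi⟩ _ ((satC_iff hc hn hd ⟨i, hi⟩ _).2 hsat))
  · intro h i j hsat
    rw [key i j]
    obtain ⟨-, -, k, hk, hj⟩ := (sat_iff _ _ _ _ _ _ _).1 ((satC_iff hc hn hd i j).1 hsat)
    have hj' : (cMu c i).getD k 0 - 1 = j := by rw [hj]; rfl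
    have h1 := h i i.2 k hk
    rw [hj'] at h1
    exact h1 ((satC_iff hc hn hd i j).1 hsat)

end main

/-! ### primitive recursiveness -/

section pr

variable {α : Type*} [Primcodable α]

theorem pTyG {ty : α → TC} {i : α → ℕ} (ht : Primrec ty) (hi : Primrec i) :
    Primrec fun x => (ty x).getD (i x) [] := (Primrec.list_getD ([] : List ℕ)).comp ht hi

theorem pSigC {c : α → RC} {ty : α → TC} {st : α → SC} {i j : α → ℕ} (hc : Primrec c)
    (ht : Primrec ty) (hst : Primrec st) (hi : Primrec i) (hj : Primrec j) :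
    Primrec fun x => sigC (c x) (ty x) (st x) (i x) (j x) :=
  pCSig CR.poly (pTn ht hi) (list_length.comp (pCLa hc hi)) (pTyG ht hi) (pCLa hc hi)
    (pSC hst hi) (pSR hst hi) hj

theorem pTauC {c : α → RC} {ty : α → TC} {st : α → SC} {i j : α → ℕ} (hc : Primrec c)
    (ht : Primrec ty) (hst : Primrec st) (hi : Primrec i) (hj : Primrec j) :
    Primrec fun x => tauC (c x) (ty x) (st x) (i x) (j x) :=
  pCT CR.poly (pTn ht hi) (list_length.comp (pCMu hc hi)) (pTyG ht hi) (pCMu hc hi)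
    (pSC hst hi) (pST hst hi) hj

theorem pSatC {c : α → RC} {ty : α → TC} {i j : α → ℕ} (hc : Primrec c) (ht : Primrec ty)
    (hi : Primrec i) (hj : Primrec j) :
    PrimrecPred fun x => satC (c x) (ty x) (i x) (j x) :=
  pSat (pTn ht hi) (list_length.comp (pCLa hc hi)) (list_length.comp (pCMu hc hi))
    (pTyG ht hi) (pCLa hc hi) (pCMu hc hi) hj

theorem pCD {a : α → ℕ} {c : α → RC} (ha : Primrec a) (hc : Primrec c) :
    Primrec fun x => cD (a x) (c x) :=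
  Primrec.nat_mul.comp (fst.comp (snd.comp hc)) (primrec_nat_pow.comp (snd.comp (snd.comp hc))
    (Primrec.nat_mul.comp ha (Primrec.succ.comp ha)))

theorem pCDl {a : α → ℕ} {c : α → RC} (ha : Primrec a) (hc : Primrec c) :
    Primrec fun x => cDl (a x) (c x) := primrec_nat_pow.comp (pCD ha hc) ha

theorem pUC {a N : α → ℕ} {c : α → RC} {ty : α → TC} {st : α → SC} {Bi Li : α → ℕ → ℕ}
    (ha : Primrec a) (hc : Primrec c) (ht : Primrec ty) (hst : Primrec st) (hN : Primrec N)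
    (hB : Primrec₂ Bi) (hL : Primrec₂ Li) :
    PrimrecPred fun x => UC (a x) (c x) (ty x) (st x) (N x) (Bi x) (Li x) := by
  unfold UC
  refine pAllLt (R := fun x i => ∀ k < (cMu (c x) i).length,
    satC (c x) (ty x) i ((cMu (c x) i).getD k 0 - 1) →
    UB (monP (cG (c x) i)) (cDl (a x) (c x)) (N x) (Bi x i) (Li x i)
      (AdjoinRoot.mk (monP (cG (c x) i))
        (toP (sigC (c x) (ty x) (st x) i ((cMu (c x) i).getD k 0 - 1))))
      (AdjoinRoot.mk (monP (cG (c x) i))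
        (toP (tauC (c x) (ty x) (st x) i ((cMu (c x) i).getD k 0 - 1))))) ?_
    (list_length.comp (fst.comp hc))
  refine pAllLt (R := fun (p : α × ℕ) k =>
    satC (c p.1) (ty p.1) p.2 ((cMu (c p.1) p.2).getD k 0 - 1) →
    UB (monP (cG (c p.1) p.2)) (cDl (a p.1) (c p.1)) (N p.1) (Bi p.1 p.2) (Li p.1 p.2)
      (AdjoinRoot.mk (monP (cG (c p.1) p.2))
        (toP (sigC (c p.1) (ty p.1) (st p.1) p.2 ((cMu (c p.1) p.2).getD k 0 - 1))))
      (AdjoinRoot.mk (monP (cG (c p.1) p.2))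
        (toP (tauC (c p.1) (ty p.1) (st p.1) p.2 ((cMu (c p.1) p.2).getD k 0 - 1))))) ?_
    (list_length.comp (pCMu (hc.comp fst) snd))
  have hx : Primrec fun q : (α × ℕ) × ℕ => q.1.1 := fst.comp fst
  have hi : Primrec fun q : (α × ℕ) × ℕ => q.1.2 := snd.comp fst
  have hj : Primrec fun q : (α × ℕ) × ℕ => (cMu (c q.1.1) q.1.2).getD q.2 0 - 1 :=
    Primrec.nat_sub.comp (PD.pNatGetD (pCMu (hc.comp hx) hi) snd) (Primrec.const 1)
  have h1 := pSatC (hc.comp hx) (ht.comp hx) hi hj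
  have h2 := pUB (pCG (hc.comp hx) hi) (pSigC (hc.comp hx) (ht.comp hx) (hst.comp hx) hi hj)
    (pTauC (hc.comp hx) (ht.comp hx) (hst.comp hx) hi hj) (pCDl (ha.comp hx) (hc.comp hx))
    (hN.comp hx) (hB.comp hx hi) (hL.comp hx hi)
  exact pImp h1 h2

end pr

end Pool.Agent.DEC.PUniC2
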