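import Pool.Agent.DEC.PUni
import Pool.Agent.DEC.UPoly

/-!
# DEC, P side: the unit condition of a semi-solution with explicitly bounded data (Theorem U)
-/

set_option autoImplicit false

open Matrix Polynomial

namespace Pool.Agent.DEC.PUni

variable {g : ℤ[X]} {Dl N : ℕ}

/-- the exponent of Theorem U -/
def LU (g : ℤ[X]) (Dl N : ℕ) : ℕ := UB.uL (UB.HB g) g.natDegree (g.coeff 0).natAbs Dl N

/-- the bound for the coefficients of Theorem U -/
def BU (g : ℤ[X]) (Dl N : ℕ) : ℕ := UB.uB (UB.HB g) g.natDegree (g.coeff 0).natAbs Dl N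

/-- the unit condition of a semi-solution can be checked with bounded data -/
theorem ucond_iff (hg : g.Monic) (hirr : Irreducible g) (h0 : g.coeff 0 ≠ 0) (hDl : 0 < Dl)
    (hN : 0 < N) (x y : Lam g) :
    UCond g Dl N x y ↔ UCondB g Dl N (BU g Dl N) (LU g Dl N) x y := by
  refine ucond_iff_of hg hN ?_ x y
  intro F F' L hF
  obtain ⟨p, p', d1, d2, b1, b2, e, hw⟩ := UB.units_ex hg hirr h0 (le_refl (UB.HB g)) hDl hN hF
  have hne : g ≠ 0 := hg.ne_zero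
  have hdeg : ∀ q : ℤ[X], q.natDegree < g.natDegree → q.degree < g.degree := fun q hq =>
    degree_lt_degree hq
  obtain ⟨w, hw⟩ := hw (N ^ g.natDegree) le_rfl
  exact ⟨AdjoinRoot.mk g p, AdjoinRoot.mk g p', LU g Dl N, ⟨p, hdeg p d1, b1, rfl⟩,
    ⟨p', hdeg p' d2, b2, rfl⟩, le_rfl, e, _, w, hw⟩

/-- the unit condition with the exponent of Theorem U -/
def UCondU (g : ℤ[X]) (Dl N : ℕ) (x y : Lam g) : Prop :=
  ∃ (F F' : Lam g), Bd g (BU g Dl N) F ∧ Bd g (BU g Dl N) F' ∧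
    F * F' = (Dl : Lam g) ^ 2 * AdjoinRoot.root g ^ (2 * LU g Dl N) ∧
    ∃ w, AdjoinRoot.root g ^ (N ^ g.natDegree) *
      (F * x - AdjoinRoot.root g ^ LU g Dl N * (Dl : Lam g) * y) = (N : Lam g) * w

/-- the form with a fixed exponent -/
theorem ucond_iff' (hg : g.Monic) (hirr : Irreducible g) (h0 : g.coeff 0 ≠ 0) (hDl : 0 < Dl)
    (hN : 0 < N) (x y : Lam g) : UCond g Dl N x y ↔ UCondU g Dl N x y := by
  constructor
  · rintro ⟨F, F', L, k, e, w, hw⟩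
    obtain ⟨p, p', d1, d2, b1, b2, e1, hw1⟩ :=
      UB.units_ex hg hirr h0 (le_refl (UB.HB g)) hDl hN e
    obtain ⟨w1, hw1⟩ := hw1 (N ^ g.natDegree) le_rfl
    have hdeg : ∀ q : ℤ[X], q.natDegree < g.natDegree → q.degree < g.degree := fun q hq =>
      degree_lt_degree hq
    refine ⟨AdjoinRoot.mk g p, AdjoinRoot.mk g p', ⟨p, hdeg p d1, b1, rfl⟩,
      ⟨p', hdeg p' d2, b2, rfl⟩, e1, kill_root hg hN _ (m := L + k + N ^ g.natDegree) ?_⟩
    refine ⟨AdjoinRoot.root g ^ k * w1 * x + AdjoinRoot.root g ^ (LU g Dl N + N ^ g.natDegree) * w,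
      ?_⟩
    have h1 := hw1
    have h2 := hw
    simp only [LU] at *
    linear_combination (AdjoinRoot.root g ^ k * x) * h1 +
      (AdjoinRoot.root g ^ (UB.uL (UB.HB g) g.natDegree (g.coeff 0).natAbs Dl N +
        N ^ g.natDegree)) * h2
  · rintro ⟨F, F', -, -, e, w, hw⟩
    exact ⟨F, F', _, _, e, w, hw⟩

section ref

variable {a b : ℕ} {A : Matrix (Fin a) (Fin a) ℕ} {B : Matrix (Fin b) (Fin b) ℕ}

theorem Dl_pos (ρ : Ref A B) : 0 < ρ.Dl :=
  pow_pos (Nat.mul_pos ρ.Δ_pos (pow_pos ρ.q_pos _)) _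

/-- the unit condition of `Semi` with bounded data -/
theorem uni_iff_bounded (ρ : Ref A B) {n : Fin ρ.f → ℕ} (deg : ∀ i, Fin (n i) → ℕ) (s : ρ.MSt n)
    (hN : 0 < N) :
    Uni ρ deg s N ↔ ∀ i j, Sat (ρ.shp deg i) j →
      UCondB (ρ.g i) ρ.Dl N (BU (ρ.g i) ρ.Dl N) (LU (ρ.g i) ρ.Dl N)
        (gdet (SigM (ρ.shp deg i) (s i) j)) (gdet (TM (ρ.shp deg i) (s i) j)) := by
  rw [uni_iff]
  refine forall_congr' fun i => forall_congr' fun j => imp_congr_right fun _ => ?_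
  exact ucond_iff (ρ.monic i) (ρ.irr i) (ρ.g0 i) (Dl_pos ρ) hN _ _

end ref

end Pool.Agent.DEC.PUni
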