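import Pool.Agent.DEC.PDefs
import Pool.Agent.DEC.Per

/-!
DEC project (MP_59dda0_an), P side: valid codes of reference data (definitions).
-/

set_option autoImplicit false

namespace Pool.Agent.DEC.PD

open Polynomial PolyC

/-- the identities of one side of a reference datum, on codes: `a` the size of the matrix with the
entries `M` and `Ma` the entries of its power with exponent `a`, `f` the number of factors,
`G i` the polynomials, `h i` the heights of the blocks, `P i`, `P' i` the maps -/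
structure SideC (a : ℕ) (M Ma : ℕ → ℕ → ℤ) (f : ℕ) (G : ℕ → List ℤ) (h : ℕ → List ℕ)
    (P P' : ℕ → IM) (Dl : ℕ) : Prop where
  pos : ∀ i < f, ∀ k < (h i).length, 0 < (h i).getD k 0
  x : ∀ i < f, ∀ k < (h i).length, ∀ t < (h i).getD k 0, ∀ s < (G i).length, ∀ r < a,
    (if s + 1 < (G i).length then ent (P i) (ix k t (s + 1)) r else
      - ∑ u ∈ Finset.range (G i).length, (G i).getD u 0 * ent (P i) (ix k t u) r) +
    (if t + 1 < (h i).getD k 0 then ent (P i) (ix k (t + 1) s) r else 0) =
      ∑ r' ∈ Finset.range a, ent (P i) (ix k t s) r' * M r' r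
  p : ∀ i < f, ∀ k < (h i).length, ∀ t < (h i).getD k 0, ∀ s < (G i).length,
    ∀ i' < f, ∀ k' < (h i').length, ∀ t' < (h i').getD k' 0, ∀ s' < (G i').length,
      ∑ r ∈ Finset.range a, ent (P i) (ix k t s) r * ent (P' i') r (ix k' t' s') =
        if i = i' ∧ k = k' ∧ t = t' ∧ s = s' then (Dl : ℤ) else 0
  sp : ∀ r < a, ∀ x < a, ∑ i ∈ Finset.range f, ∑ k ∈ Finset.range (h i).length,
    ∑ t ∈ Finset.range ((h i).getD k 0), ∑ s ∈ Finset.range (G i).length,
      (∑ r' ∈ Finset.range a, Ma r r' * ent (P' i) r' (ix k t s)) * ent (P i) (ix k t s) x =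
        (Dl : ℤ) * Ma r x

/-- the constant of the box lemma on codes -/
def qOfC (G : List ℤ) : ℕ :=
  Nat.factorial ((16 * G.length *
    (1 + ∑ i ∈ Finset.range G.length, (G.getD i 0).natAbs) ^ G.length) ^ G.length)

/-- the code `c` is a valid code of a reference datum for the matrices with the codes
`LA` (size `a`) and `LB` (size `b`) -/
structure Valid (a b : ℕ) (LA LB : IM) (c : RC) : Prop where
  irr : ∀ i < c.1.length, Irreducible (monP (cG c i))
  inj : ∀ i < c.1.length, ∀ j < i, cG c i ≠ cG c j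
  g0 : ∀ i < c.1.length, (cG c i).getD 0 0 ≠ 0
  Δ : 0 < c.2.1
  q : 0 < c.2.2
  hq : ∀ i < c.1.length, qOfC (cG c i) ∣ c.2.2
  V : SideC a (ent (nrm a a LA)) (ent (mpow a (nrm a a LA) a)) c.1.length (cG c) (cLa c) (cP c)
    (cP' c) c.2.1
  W : SideC b (ent (nrm b b LB)) (ent (mpow b (nrm b b LB) b)) c.1.length (cG c) (cMu c) (cQ c)
    (cQ' c) c.2.1

end Pool.Agent.DEC.PD
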