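import Pool.Agent.DEC.Mat
import Pool.Agent.DEC.Stmt

/-!
DEC project (MP_59dda0_an): from presentations of shifts of finite type to 0/1 matrices,
part 1: definitions, combinatorics, computability.
-/

set_option autoImplicit false

namespace Pool.Agent.DEC

open Primrec

section tools

variable {α β : Type*} [Primcodable α] [Primcodable β]

theorem pEx {l : α → List β} {R : α → β → Prop} (hl : Primrec l)
    (hR : PrimrecPred fun q : α × β => R q.1 q.2) : PrimrecPred fun a => ∃ b ∈ l a, R a b := by
  have h : PrimrecRel fun (b : β) (a : α) => R a b := hR.comp (Primrec.pair snd fst)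
  exact (h.exists_mem_list).comp hl Primrec.id

theorem pAll {l : α → List β} {R : α → β → Prop} (hl : Primrec l)
    (hR : PrimrecPred fun q : α × β => R q.1 q.2) : PrimrecPred fun a => ∀ b ∈ l a, R a b := by
  have h : PrimrecRel fun (b : β) (a : α) => R a b := hR.comp (Primrec.pair snd fst)
  exact (h.forall_mem_list).comp hl Primrec.id

theorem pFilter {l : α → List β} {R : α → β → Prop} [∀ a b, Decidable (R a b)] (hl : Primrec l)
    (hR : PrimrecPred fun q : α × β => R q.1 q.2) :
    Primrec fun a => (l a).filter fun b => R a b := by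
  have h : PrimrecRel fun (b : β) (a : α) => R a b := hR.comp (Primrec.pair snd fst)
  let _ : DecidableRel fun (b : β) (a : α) => R a b := fun b a => inferInstance
  exact (PrimrecRel.listFilter h).comp hl Primrec.id

end tools

/-- `w` occurs in `u`. -/
def occ (w u : List ℕ) : Prop :=
  ∃ i ∈ List.range (u.length + 1), i + w.length ≤ u.length ∧
    ∀ k ∈ List.range w.length, u.getD (i + k) 0 = w.getD k 0

/-- `v` can follow `u` (words of the same length). -/
def foll (u v : List ℕ) : Prop :=
  ∀ k ∈ List.range (u.length - 1), u.getD (k + 1) 0 = v.getD k 0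

instance (w u : List ℕ) : Decidable (occ w u) := by unfold occ; infer_instance

instance (u v : List ℕ) : Decidable (foll u v) := by unfold foll; infer_instance

theorem pOcc : PrimrecRel occ := by
  unfold occ
  refine pEx (l := fun p : List ℕ × List ℕ => List.range (p.2.length + 1))
    (R := fun (p : List ℕ × List ℕ) (i : ℕ) => i + p.1.length ≤ p.2.length ∧
      ∀ k ∈ List.range p.1.length, p.2.getD (i + k) 0 = p.1.getD k 0)
    (list_range.comp (Primrec.succ.comp (list_length.comp snd))) ?_
  refine PrimrecPred.and ?_ ?_
  · exact Primrec.nat_le.comp (Primrec.nat_add.comp snd (list_length.comp (fst.comp fst)))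
      (list_length.comp (snd.comp fst))
  · refine pAll (l := fun q : (List ℕ × List ℕ) × ℕ => List.range q.1.1.length)
      (R := fun (q : (List ℕ × List ℕ) × ℕ) (k : ℕ) => q.1.2.getD (q.2 + k) 0 = q.1.1.getD k 0)
      (list_range.comp (list_length.comp (fst.comp fst))) ?_
    exact Primrec.eq.comp
      ((Primrec.list_getD 0).comp (snd.comp (fst.comp fst))
        (Primrec.nat_add.comp (snd.comp fst) snd))
      ((Primrec.list_getD 0).comp (fst.comp (fst.comp fst)) snd)

theorem pFoll : PrimrecRel foll := by
  unfold foll
  refine pAll (l := fun p : List ℕ × List ℕ => List.range (p.1.length - 1))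
    (R := fun (p : List ℕ × List ℕ) (k : ℕ) => p.1.getD (k + 1) 0 = p.2.getD k 0)
    (list_range.comp (Primrec.nat_sub.comp (list_length.comp fst) (Primrec.const 1))) ?_
  exact Primrec.eq.comp
    ((Primrec.list_getD 0).comp (fst.comp fst) (Primrec.succ.comp snd))
    ((Primrec.list_getD 0).comp (snd.comp fst) snd)

/-- no word of `F` occurs in `u` -/
def alw (F : List (List ℕ)) (u : List ℕ) : Prop := ∀ w ∈ F, ¬ occ w u

instance (F : List (List ℕ)) (u : List ℕ) : Decidable (alw F u) := by unfold alw; infer_instance

theorem pAlw : PrimrecRel alw := by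
  unfold alw
  refine pAll (l := fun p : List (List ℕ) × List ℕ => p.1)
    (R := fun (p : List (List ℕ) × List ℕ) (w : List ℕ) => ¬ occ w p.2) fst ?_
  exact (pOcc.comp snd (snd.comp fst)).not

/-- the length of the windows: positive and at least the length of every word of `F` -/
def wlen (F : List (List ℕ)) : ℕ := (F.map List.length).sum + 1

theorem length_le_wlen {F : List (List ℕ)} {w : List ℕ} (hw : w ∈ F) : w.length ≤ wlen F := by
  have h : w.length ≤ (F.map List.length).sum :=
    List.single_le_sum (fun _ _ => Nat.zero_le _) _ (List.mem_map_of_mem hw)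
  unfold wlen
  omega

theorem wlen_pos (F : List (List ℕ)) : 0 < wlen F := Nat.succ_pos _

theorem pWlen : Primrec wlen :=
  Primrec.succ.comp (primrec_nat_sum.comp (Primrec.list_map (f := fun F : List (List ℕ) => F)
    (g := fun _ (w : List ℕ) => w.length) Primrec.id (list_length.comp snd)))

/-- all allowed windows -/
def V0 (P : Pres) : List (List ℕ) :=
  (words (List.range P.1) (wlen P.2)).filter fun u => alw P.2 u

theorem pV0 : Primrec V0 := by
  unfold V0
  refine pFilter (l := fun P : Pres => words (List.range P.1) (wlen P.2))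
    (R := fun (P : Pres) (u : List ℕ) => alw P.2 u) ?_ ?_
  · exact primrec_words.comp (list_range.comp fst) (pWlen.comp snd)
  · exact pAlw.comp (snd.comp fst) snd

/-- keep the windows which have a successor and a predecessor -/
def prune (W : List (List ℕ)) : List (List ℕ) :=
  W.filter fun v => (∃ w ∈ W, foll v w) ∧ (∃ w ∈ W, foll w v)

theorem pPrune : Primrec prune := by
  unfold prune
  refine pFilter (l := fun W : List (List ℕ) => W)
    (R := fun (W : List (List ℕ)) (v : List ℕ) => (∃ w ∈ W, foll v w) ∧ (∃ w ∈ W, foll w v))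
    Primrec.id ?_
  refine PrimrecPred.and ?_ ?_
  · exact pEx (l := fun q : List (List ℕ) × List ℕ => q.1)
      (R := fun (q : List (List ℕ) × List ℕ) (w : List ℕ) => foll q.2 w) fst
      (pFoll.comp (snd.comp fst) snd)
  · exact pEx (l := fun q : List (List ℕ) × List ℕ => q.1)
      (R := fun (q : List (List ℕ) × List ℕ) (w : List ℕ) => foll w q.2) fst
      (pFoll.comp snd (snd.comp fst))

/-- the essential windows -/
def VV (P : Pres) : List (List ℕ) := prune^[(V0 P).length] (V0 P)

theorem pVV : Primrec VV := by
  unfold VV
  exact Primrec.nat_iterate (f := fun P : Pres => (V0 P).length) (g := V0)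
    (h := fun (_ : Pres) (W : List (List ℕ)) => prune W) (list_length.comp pV0) pV0
    (pPrune.comp snd)

/-- the number of essential windows and the code of the transition matrix -/
def red (P : Pres) : ℕ × IM :=
  ((VV P).length, mk (VV P).length (VV P).length fun i j =>
    if foll ((VV P).getD i []) ((VV P).getD j []) then 1 else 0)

theorem pRed : Primrec red := by
  unfold red
  refine Primrec.pair (list_length.comp pVV) ?_
  refine pMk (list_length.comp pVV) (list_length.comp pVV) ?_
  refine Primrec.ite ?_ (Primrec.const 1) (Primrec.const 0)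
  exact pFoll.comp ((Primrec.list_getD []).comp (pVV.comp fst) (fst.comp snd))
    ((Primrec.list_getD []).comp (pVV.comp fst) (snd.comp snd))

/-! ### combinatorics of the pruning -/

theorem mem_prune {W : List (List ℕ)} {v : List ℕ} :
    v ∈ prune W ↔ v ∈ W ∧ (∃ w ∈ W, foll v w) ∧ (∃ w ∈ W, foll w v) := by
  unfold prune
  rw [List.mem_filter, decide_eq_true_iff]

theorem prune_eq_or (W : List (List ℕ)) : prune W = W ∨ (prune W).length < W.length := by
  rcases (List.length_filter_le (fun v => decide ((∃ w ∈ W, foll v w) ∧ (∃ w ∈ W, foll w v)))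
    W).lt_or_eq with h | h
  · exact Or.inr h
  · refine Or.inl ?_
    have := (List.length_filter_eq_length_iff (l := W)).1 h
    exact List.filter_eq_self.2 this

theorem iterate_prune (W : List (List ℕ)) (k : ℕ) :
    prune (prune^[k] W) = prune^[k] W ∨ (prune^[k] W).length + k ≤ W.length := by
  induction k with
  | zero => exact Or.inr le_rfl
  | succ k ih =>
    rw [Function.iterate_succ_apply']
    rcases ih with ih | ih
    · exact Or.inl (by rw [ih, ih])
    · rcases prune_eq_or (prune^[k] W) with h | h
      · exact Or.inl (by rw [h, h])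
      · exact Or.inr (by omega)

theorem prune_VV (P : Pres) : prune (VV P) = VV P := by
  unfold VV
  rcases iterate_prune (V0 P) (V0 P).length with h | h
  · exact h
  · have h0 : prune^[(V0 P).length] (V0 P) = [] := List.length_eq_zero_iff.1 (by omega)
    rw [h0]
    rfl

theorem exists_succ {P : Pres} {v : List ℕ} (hv : v ∈ VV P) : ∃ w ∈ VV P, foll v w := by
  rw [← prune_VV] at hv
  exact (mem_prune.1 hv).2.1

theorem exists_pred {P : Pres} {v : List ℕ} (hv : v ∈ VV P) : ∃ w ∈ VV P, foll w v := by
  rw [← prune_VV] at hv
  exact (mem_prune.1 hv).2.2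

theorem nodup_words {S : List ℕ} (hS : S.Nodup) (n : ℕ) : (words S n).Nodup := by
  induction n with
  | zero => simp [words_zero]
  | succ n ih =>
    rw [words_succ, List.nodup_flatMap]
    refine ⟨fun w _ => hS.map fun x y h => (List.cons.inj h).1, ?_⟩
    refine ih.imp ?_
    intro u v huv
    rw [Function.onFun, List.disjoint_left]
    intro z hz1 hz2
    obtain ⟨x, -, rfl⟩ := List.mem_map.1 hz1
    obtain ⟨y, -, h⟩ := List.mem_map.1 hz2
    exact huv (List.cons.inj h).2.symm

theorem nodup_VV (P : Pres) : (VV P).Nodup := by
  unfold VV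
  have h0 : (V0 P).Nodup := (nodup_words (List.nodup_range) _).filter _
  generalize (V0 P).length = k
  generalize hW : V0 P = W at h0
  clear hW
  induction k generalizing W with
  | zero => exact h0
  | succ k ih =>
    rw [Function.iterate_succ_apply]
    exact ih _ (h0.filter _)

theorem VV_sub {P : Pres} {v : List ℕ} (hv : v ∈ VV P) : v ∈ V0 P := by
  unfold VV at hv
  generalize (V0 P).length = k at hv
  generalize hW : V0 P = W at hv ⊢
  clear hW
  induction k generalizing W with
  | zero => exact hv
  | succ k ih =>
    rw [Function.iterate_succ_apply] at hv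
    exact (mem_prune.1 (ih _ hv)).1

theorem mem_V0 {P : Pres} {v : List ℕ} :
    v ∈ V0 P ↔ v.length = wlen P.2 ∧ (∀ x ∈ v, x < P.1) ∧ alw P.2 v := by
  unfold V0
  rw [List.mem_filter, decide_eq_true_iff, mem_words, and_assoc]
  simp only [List.mem_range]

/-- a set of windows in which every window has a successor and a predecessor consists of
essential windows -/
theorem mem_VV_of {P : Pres} (T : Set (List ℕ)) (h0 : ∀ v ∈ T, v ∈ V0 P)
    (h1 : ∀ v ∈ T, (∃ w ∈ T, foll v w) ∧ (∃ w ∈ T, foll w v)) {v : List ℕ} (hv : v ∈ T) :
    v ∈ VV P := by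
  unfold VV
  have key : ∀ (k : ℕ) (W : List (List ℕ)), (∀ v ∈ T, v ∈ W) → ∀ v ∈ T, v ∈ prune^[k] W := by
    intro k
    induction k with
    | zero => exact fun W h => h
    | succ k ih =>
      intro W h
      rw [Function.iterate_succ_apply]
      refine ih _ fun v hv => mem_prune.2 ⟨h v hv, ?_, ?_⟩
      · obtain ⟨w, hw, hf⟩ := (h1 v hv).1
        exact ⟨w, h w hw, hf⟩
      · obtain ⟨w, hw, hf⟩ := (h1 v hv).2
        exact ⟨w, h w hw, hf⟩
  exact key _ _ h0 v hv

end Pool.Agent.DEC
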