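import Pool.Agent.DEC.Red1
import Pool.Agent.FT.Defs

/-!
DEC project (MP_59dda0_an): from presentations of shifts of finite type to 0/1 matrices,
part 2: the conjugacy with the edge shift.
-/

set_option autoImplicit false

namespace Pool.Agent.DEC

open Pool.Agent.FT (Edge src tgt edgeShift)

/-- the natural matrix of a code -/
def natM (n : ℕ) (L : IM) : Matrix (Fin n) (Fin n) ℕ := Matrix.of fun i j => (ent L i j).toNat

section windows

variable (P : Pres)

/-- the window of `x` at `i` -/
def win (x : ℤ → Fin P.1) (i : ℤ) : List ℕ :=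
  List.ofFn fun k : Fin (wlen P.2) => (x (i + (k : ℕ)) : ℕ)

variable {P}

theorem win_length (x : ℤ → Fin P.1) (i : ℤ) : (win P x i).length = wlen P.2 := by
  simp [win]

theorem win_getD (x : ℤ → Fin P.1) (i : ℤ) {k : ℕ} (hk : k < wlen P.2) :
    (win P x i).getD k 0 = (x (i + k) : ℕ) := by
  rw [List.getD_eq_getElem _ _ (by rw [win_length]; exact hk)]
  simp [win]

theorem win_congr {x x' : ℤ → Fin P.1} {i i' : ℤ}
    (h : ∀ k : ℕ, k < wlen P.2 → x (i + k) = x' (i' + k)) : win P x i = win P x' i' := by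
  unfold win
  congr 1
  funext k
  rw [h k k.2]

theorem eq_win {x : ℤ → Fin P.1} {i : ℤ} {v : List ℕ} (hl : v.length = wlen P.2)
    (h : ∀ k : ℕ, k < wlen P.2 → (x (i + k) : ℕ) = v.getD k 0) : win P x i = v := by
  refine List.ext_getElem (by rw [win_length, hl]) fun k h1 h2 => ?_
  have h3 := win_getD x i (k := k) (by rwa [win_length] at h1)
  rw [h k (by rwa [win_length] at h1), List.getD_eq_getElem _ _ h1,
    List.getD_eq_getElem _ _ h2] at h3
  exact h3

theorem foll_win (x : ℤ → Fin P.1) (i : ℤ) : foll (win P x i) (win P x (i + 1)) := by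
  intro k hk
  rw [List.mem_range, win_length] at hk
  rw [win_getD x i (by omega), win_getD x (i + 1) (by omega)]
  congr 2
  push_cast
  ring

theorem win_mem_V0 {x : ℤ → Fin P.1} (hx : x ∈ sft P) (i : ℤ) : win P x i ∈ V0 P := by
  rw [mem_V0]
  refine ⟨win_length x i, ?_, ?_⟩
  · intro y hy
    obtain ⟨k, hk, rfl⟩ := List.getElem_of_mem hy
    simp [win]
  · rintro w hw ⟨j, -, h1, h2⟩
    rw [win_length] at h1
    refine hx w hw (i + j) fun k hk => ?_
    have h3 := h2 k (List.mem_range.2 hk)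
    rw [win_getD x i (by omega), List.getD_eq_getElem _ _ hk] at h3
    rw [← h3]
    congr 2
    push_cast
    ring

theorem mem_sft_of_win {x : ℤ → Fin P.1} (h : ∀ i, win P x i ∈ V0 P) : x ∈ sft P := by
  intro w hw i ho
  have h1 := (mem_V0.1 (h i)).2.2 w hw
  have hl := length_le_wlen hw
  refine h1 ⟨0, List.mem_range.2 (Nat.succ_pos _), by rw [win_length]; omega, fun k hk => ?_⟩
  rw [List.mem_range] at hk
  rw [win_getD x i (by omega), List.getD_eq_getElem _ _ hk, ← ho k hk]
  congr 2
  push_cast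
  ring

theorem win_mem_VV {x : ℤ → Fin P.1} (hx : x ∈ sft P) (i : ℤ) : win P x i ∈ VV P := by
  refine mem_VV_of (Set.range fun j => win P x j) ?_ ?_ ⟨i, rfl⟩
  · rintro _ ⟨j, rfl⟩
    exact win_mem_V0 hx j
  · rintro _ ⟨j, rfl⟩
    refine ⟨⟨win P x (j + 1), ⟨j + 1, rfl⟩, foll_win x j⟩, win P x (j - 1), ⟨j - 1, rfl⟩, ?_⟩
    have := foll_win x (j - 1)
    rwa [sub_add_cancel] at this

end windows

/-- the transition matrix of the essential windows -/
def AA (P : Pres) : Matrix (Fin (red P).1) (Fin (red P).1) ℕ := natM (red P).1 (red P).2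

/-- the window with index `i` -/
def vert (P : Pres) (i : Fin (red P).1) : List ℕ := (VV P)[(i : ℕ)]'i.2

theorem vert_mem (P : Pres) (i : Fin (red P).1) : vert P i ∈ VV P := List.getElem_mem _

theorem vert_length (P : Pres) (i : Fin (red P).1) : (vert P i).length = wlen P.2 :=
  (mem_V0.1 (VV_sub (vert_mem P i))).1

theorem vert_inj {P : Pres} {i j : Fin (red P).1} (h : vert P i = vert P j) : i = j :=
  Fin.ext ((nodup_VV P).getElem_inj_iff.1 h)

theorem exists_vert {P : Pres} {v : List ℕ} (hv : v ∈ VV P) : ∃ i, vert P i = v := by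
  obtain ⟨k, hk, rfl⟩ := List.getElem_of_mem hv
  exact ⟨⟨k, hk⟩, rfl⟩

theorem AA_apply (P : Pres) (i j : Fin (red P).1) :
    AA P i j = if foll (vert P i) (vert P j) then 1 else 0 := by
  have h1 : ((VV P).getD (i : ℕ) []) = vert P i := List.getD_eq_getElem _ _ i.2
  have h2 : ((VV P).getD (j : ℕ) []) = vert P j := List.getD_eq_getElem _ _ j.2
  have h3 : ent (red P).2 i j = if foll ((VV P).getD (i : ℕ) []) ((VV P).getD (j : ℕ) [])
      then 1 else 0 := ent_mk _ i.2 j.2
  unfold AA natM
  rw [Matrix.of_apply, h3, h1, h2]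
  split_ifs <;> rfl

theorem AA_pos {P : Pres} {i j : Fin (red P).1} (h : foll (vert P i) (vert P j)) :
    0 < AA P i j := by
  rw [AA_apply, if_pos h]
  exact one_pos

theorem foll_of_pos {P : Pres} {i j : Fin (red P).1} (h : 0 < AA P i j) :
    foll (vert P i) (vert P j) := by
  rw [AA_apply] at h
  by_contra hn
  rw [if_neg hn] at h
  exact lt_irrefl _ h

theorem AA_le (P : Pres) (i j : Fin (red P).1) : AA P i j ≤ 1 := by
  rw [AA_apply]
  split_ifs <;> simp

theorem edge_pos {n : ℕ} {A : Matrix (Fin n) (Fin n) ℕ} (e : Edge A) :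
    0 < A (src e) (tgt e) := lt_of_le_of_lt (Nat.zero_le _) e.2.2

theorem edge_ext {P : Pres} {e f : Edge (AA P)} (h1 : src e = src f) (h2 : tgt e = tgt f) :
    e = f := by
  obtain ⟨⟨i, j⟩, k⟩ := e
  obtain ⟨⟨i', j'⟩, k'⟩ := f
  change i = i' at h1
  change j = j' at h2
  subst h1
  subst h2
  congr 1
  have h0 : AA P i j ≤ 1 := AA_le P i j
  have hk : (k : ℕ) < AA P i j := k.2
  have hk' : (k' : ℕ) < AA P i j := k'.2
  ext
  omega

/-- the index of an essential window -/
noncomputable def idx {P : Pres} {v : List ℕ} (hv : v ∈ VV P) : Fin (red P).1 :=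
  Classical.choose (exists_vert hv)

theorem vert_idx {P : Pres} {v : List ℕ} (hv : v ∈ VV P) : vert P (idx hv) = v :=
  Classical.choose_spec (exists_vert hv)

/-- the edge from the window `v` to the window `w` -/
noncomputable def mkEdge {P : Pres} (i j : Fin (red P).1) (h : foll (vert P i) (vert P j)) :
    Edge (AA P) := ⟨(i, j), ⟨0, AA_pos h⟩⟩

/-- the conjugacy -/
noncomputable def Phi (P : Pres) (x : sft P) : edgeShift (AA P) :=
  ⟨fun i => mkEdge (idx (win_mem_VV x.2 i)) (idx (win_mem_VV x.2 (i + 1)))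
    (by rw [vert_idx, vert_idx]; exact foll_win _ _), fun _ => rfl⟩

theorem vert_src_Phi {P : Pres} (x : sft P) (i : ℤ) :
    vert P (src ((Phi P x).1 i)) = win P x.1 i := vert_idx (win_mem_VV x.2 i)

theorem src_Phi_eq {P : Pres} {x x' : sft P} {i i' : ℤ} (h : win P x.1 i = win P x'.1 i') :
    src ((Phi P x).1 i) = src ((Phi P x').1 i') :=
  vert_inj (by rw [vert_src_Phi, vert_src_Phi, h])

theorem vert_shift {P : Pres} {y : ℤ → Edge (AA P)} (hy : y ∈ edgeShift (AA P)) (i : ℤ) (k : ℕ) :
    ∀ m : ℕ, k + m < wlen P.2 →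
      (vert P (src (y (i + k)))).getD m 0 = (vert P (src (y i))).getD (k + m) 0 := by
  induction k with
  | zero => intro m _; simp
  | succ k ih =>
    intro m hm
    have h1 : foll (vert P (src (y (i + k)))) (vert P (src (y (i + (k + 1 : ℕ))))) := by
      have h2 : i + ((k + 1 : ℕ) : ℤ) = i + k + 1 := by push_cast; ring
      rw [h2, ← hy (i + k)]
      exact foll_of_pos (edge_pos _)
    have h3 := h1 m (by rw [List.mem_range, vert_length]; omega)
    rw [← h3, ih (m + 1) (by omega)]
    congr 1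
    omega

theorem vert_getD_lt {P : Pres} (i : Fin (red P).1) {k : ℕ} (hk : k < wlen P.2) :
    (vert P i).getD k 0 < P.1 := by
  have hk' : k < (vert P i).length := by rwa [vert_length]
  rw [List.getD_eq_getElem _ _ hk']
  exact (mem_V0.1 (VV_sub (vert_mem P i))).2.1 _ (List.getElem_mem _)

/-- the sequence of the first letters -/
def psi {P : Pres} (y : ℤ → Edge (AA P)) (i : ℤ) : Fin P.1 :=
  ⟨(vert P (src (y i))).getD 0 0, vert_getD_lt _ (wlen_pos _)⟩

theorem win_psi {P : Pres} {y : ℤ → Edge (AA P)} (hy : y ∈ edgeShift (AA P)) (i : ℤ) :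
    win P (psi y) i = vert P (src (y i)) := by
  refine eq_win (vert_length _ _) fun k hk => ?_
  have := vert_shift hy i k 0 (by omega)
  simpa [psi] using this

theorem psi_mem {P : Pres} {y : ℤ → Edge (AA P)} (hy : y ∈ edgeShift (AA P)) : psi y ∈ sft P :=
  mem_sft_of_win fun i => by rw [win_psi hy]; exact VV_sub (vert_mem _ _)

/-- the inverse of the conjugacy -/
def Psi (P : Pres) (y : edgeShift (AA P)) : sft P := ⟨psi y.1, psi_mem y.2⟩

theorem Psi_Phi {P : Pres} (x : sft P) : Psi P (Phi P x) = x := by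
  apply Subtype.ext
  funext i
  apply Fin.ext
  change (vert P (src ((Phi P x).1 i))).getD 0 0 = _
  rw [vert_src_Phi, win_getD _ _ (wlen_pos _)]
  simp

theorem src_Phi_Psi {P : Pres} (y : edgeShift (AA P)) (i : ℤ) :
    src ((Phi P (Psi P y)).1 i) = src (y.1 i) :=
  vert_inj (by rw [vert_src_Phi]; exact win_psi y.2 i)

theorem Phi_Psi {P : Pres} (y : edgeShift (AA P)) : Phi P (Psi P y) = y := by
  apply Subtype.ext
  funext i
  refine edge_ext (src_Phi_Psi y i) ?_
  rw [(Phi P (Psi P y)).2 i, y.2 i]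
  exact src_Phi_Psi y (i + 1)

/-! ### continuity -/

theorem continuous_of_window {α β : Type} [TopologicalSpace α] [DiscreteTopology α]
    [TopologicalSpace β] {X : Set (ℤ → α)} (f : X → β) (W : Finset ℤ)
    (h : ∀ x x' : X, (∀ i ∈ W, x'.1 i = x.1 i) → f x' = f x) : Continuous f := by
  rw [continuous_iff_continuousAt]
  intro x
  have h1 : {x' : X | ∀ i ∈ W, x'.1 i = x.1 i} ∈ nhds x := by
    refine IsOpen.mem_nhds ?_ (fun i _ => rfl)
    have h2 : {x' : X | ∀ i ∈ W, x'.1 i = x.1 i} = ⋂ i ∈ W, {x' : X | x'.1 i = x.1 i} := by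
      ext x'
      simp
    rw [h2]
    refine isOpen_biInter_finset fun i _ => ?_
    have h3 : Continuous fun x' : X => x'.1 i := (continuous_apply i).comp continuous_subtype_val
    exact (isOpen_discrete {x.1 i}).preimage h3
  refine (continuousAt_const (y := f x)).congr ?_
  filter_upwards [h1] with x' hx'
  exact (h x x' hx').symm

theorem isOpen_of_window {α : Type} [TopologicalSpace α] [DiscreteTopology α]
    (S : Set (ℤ → α)) (W : Finset ℤ)
    (h : ∀ x x' : ℤ → α, (∀ i ∈ W, x' i = x i) → x ∈ S → x' ∈ S) : IsOpen S := by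
  rw [isOpen_iff_mem_nhds]
  intro x hx
  have h1 : {x' : ℤ → α | ∀ i ∈ W, x' i = x i} ∈ nhds x := by
    refine IsOpen.mem_nhds ?_ (fun i _ => rfl)
    have h2 : {x' : ℤ → α | ∀ i ∈ W, x' i = x i} = ⋂ i ∈ W, {x' : ℤ → α | x' i = x i} := by
      ext x'
      simp
    rw [h2]
    refine isOpen_biInter_finset fun i _ => ?_
    have h3 : Continuous fun x' : ℤ → α => x' i := continuous_apply i
    exact (isOpen_discrete {x i}).preimage h3
  exact Filter.mem_of_superset h1 fun x' hx' => h x x' hx' hx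

theorem continuous_Phi (P : Pres) : Continuous (Phi P) := by
  refine Continuous.subtype_mk (continuous_pi fun i => ?_) _
  refine continuous_of_window (fun x : sft P => (Phi P x).1 i)
    ((Finset.range (wlen P.2 + 1)).image fun k : ℕ => i + k) ?_
  intro x x' h
  have h1 : ∀ k : ℕ, k < wlen P.2 + 1 → x'.1 (i + k) = x.1 (i + k) := fun k hk =>
    h _ (Finset.mem_image_of_mem _ (Finset.mem_range.2 hk))
  have h2 : win P x'.1 i = win P x.1 i := win_congr fun k hk => h1 k (by omega)
  have h3 : win P x'.1 (i + 1) = win P x.1 (i + 1) := win_congr fun k hk => by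
    have := h1 (k + 1) (by omega)
    have e : i + ((k + 1 : ℕ) : ℤ) = i + 1 + k := by push_cast; ring
    rwa [e] at this
  refine edge_ext (src_Phi_eq h2) ?_
  rw [(Phi P x').2 i, (Phi P x).2 i]
  exact src_Phi_eq h3

theorem continuous_Psi (P : Pres) : Continuous (Psi P) := by
  refine Continuous.subtype_mk (continuous_pi fun i => ?_) _
  refine continuous_of_window (fun y : edgeShift (AA P) => psi y.1 i) {i} ?_
  intro y y' h
  have h1 := h i (Finset.mem_singleton_self i)
  apply Fin.ext
  change (vert P (src (y'.1 i))).getD 0 0 = (vert P (src (y.1 i))).getD 0 0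
  rw [h1]

/-- the homeomorphism -/
noncomputable def conj (P : Pres) : sft P ≃ₜ edgeShift (AA P) where
  toFun := Phi P
  invFun := Psi P
  left_inv := Psi_Phi
  right_inv := Phi_Psi
  continuous_toFun := continuous_Phi P
  continuous_invFun := continuous_Psi P

theorem conj_commutes (P : Pres) (x x' : sft P) (h : x'.1 = shift x.1) :
    (conj P x').1 = shift (conj P x).1 := by
  funext i
  change (Phi P x').1 i = (Phi P x).1 (i + 1)
  have h1 : ∀ j, win P x'.1 j = win P x.1 (j + 1) := fun j => win_congr fun k _ => by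
    have e : j + 1 + (k : ℤ) = j + k + 1 := by ring
    rw [h, e]
    rfl
  refine edge_ext (src_Phi_eq (h1 i)) ?_
  rw [(Phi P x').2 i, (Phi P x).2 (i + 1)]
  exact src_Phi_eq (h1 (i + 1))

theorem shift_mem_edgeShift {n : ℕ} {A : Matrix (Fin n) (Fin n) ℕ} {y : ℤ → Edge A}
    (hy : y ∈ edgeShift A) : shift y ∈ edgeShift A := fun i => hy (i + 1)

theorem shift_mem_sft {P : Pres} {x : ℤ → Fin P.1} (hx : x ∈ sft P) : shift x ∈ sft P := by
  intro w hw i ho
  refine hx w hw (i + 1) fun k hk => ?_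
  rw [← ho k hk]
  change _ = (x (i + k + 1) : ℕ)
  congr 2
  ring

theorem conj_symm_commutes (P : Pres) (y y' : edgeShift (AA P)) (h : y'.1 = shift y.1) :
    ((conj P).symm y').1 = shift ((conj P).symm y).1 := by
  obtain ⟨x, rfl⟩ := (conj P).surjective y
  rw [Homeomorph.symm_apply_apply]
  have h1 := conj_commutes P x ⟨shift x.1, shift_mem_sft x.2⟩ rfl
  have h2 : y' = conj P ⟨shift x.1, shift_mem_sft x.2⟩ := Subtype.ext (h.trans h1.symm)
  rw [h2, Homeomorph.symm_apply_apply]

end Pool.Agent.DEC
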