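import Pool.Agent.DEC.Red2

/-!
DEC project (MP_59dda0_an): from presentations of shifts of finite type to 0/1 matrices,
part 3: empty shifts, mixing implies primitive, transport of finite-to-one factor codes.
-/

set_option autoImplicit false

namespace Pool.Agent.DEC

open Pool.Agent.FT (Edge src tgt edgeShift)

/-- every essential window lies on a bi-infinite path -/
theorem exists_path {P : Pres} (v : Fin (red P).1) :
    ∃ y ∈ edgeShift (AA P), src (y 0) = v := by
  have hs : ∀ i : Fin (red P).1, ∃ j, foll (vert P i) (vert P j) := fun i => by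
    obtain ⟨w, hw, hf⟩ := exists_succ (vert_mem P i)
    obtain ⟨j, rfl⟩ := exists_vert hw
    exact ⟨j, hf⟩
  have hp : ∀ i : Fin (red P).1, ∃ j, foll (vert P j) (vert P i) := fun i => by
    obtain ⟨w, hw, hf⟩ := exists_pred (vert_mem P i)
    obtain ⟨j, rfl⟩ := exists_vert hw
    exact ⟨j, hf⟩
  choose s hs using hs
  choose p hp using hp
  let z : ℤ → Fin (red P).1 := fun i => if 0 ≤ i then s^[i.toNat] v else p^[(-i).toNat] v
  have hz : ∀ i, foll (vert P (z i)) (vert P (z (i + 1))) := by
    intro i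
    rcases le_or_gt 0 i with h | h
    · have e1 : z i = s^[i.toNat] v := if_pos h
      have e2 : z (i + 1) = s (s^[i.toNat] v) := by
        have : (i + 1).toNat = i.toNat + 1 := by omega
        change (if 0 ≤ i + 1 then s^[(i + 1).toNat] v else p^[(-(i + 1)).toNat] v) = _
        rw [if_pos (by omega), this, Function.iterate_succ_apply']
      rw [e1, e2]
      exact hs _
    · have e1 : z i = p (p^[(-(i + 1)).toNat] v) := by
        have : (-i).toNat = (-(i + 1)).toNat + 1 := by omega
        change (if 0 ≤ i then s^[i.toNat] v else p^[(-i).toNat] v) = _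
        rw [if_neg (by omega), this, Function.iterate_succ_apply']
      have e2 : z (i + 1) = p^[(-(i + 1)).toNat] v := by
        change (if 0 ≤ i + 1 then s^[(i + 1).toNat] v else p^[(-(i + 1)).toNat] v) = _
        rcases eq_or_ne i (-1) with rfl | hne
        · simp
        · rw [if_neg (by omega)]
      rw [e1, e2]
      exact hp _
  refine ⟨fun i => mkEdge (z i) (z (i + 1)) (hz i), fun i => rfl, ?_⟩
  change z 0 = v
  simp [z]

theorem exists_point {P : Pres} (v : Fin (red P).1) : ∃ x ∈ sft P, win P x 0 = vert P v := by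
  obtain ⟨y, hy, h⟩ := exists_path v
  exact ⟨psi y, psi_mem hy, by rw [win_psi hy, h]⟩

theorem red_pos_iff (P : Pres) : 0 < (red P).1 ↔ (sft P).Nonempty := by
  constructor
  · intro h
    obtain ⟨x, hx, -⟩ := exists_point (⟨0, h⟩ : Fin (red P).1)
    exact ⟨x, hx⟩
  · rintro ⟨x, hx⟩
    obtain ⟨i, -⟩ := exists_vert (win_mem_VV hx 0)
    exact lt_of_le_of_lt (Nat.zero_le _) i.2

theorem pow_pos_of_path {n : ℕ} {A : Matrix (Fin n) (Fin n) ℕ} {y : ℤ → Edge A}
    (hy : y ∈ edgeShift A) (k : ℕ) : 0 < (A ^ k) (src (y 0)) (src (y k)) := by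
  induction k with
  | zero => simp
  | succ k ih =>
    rw [pow_succ, Matrix.mul_apply]
    refine Finset.sum_pos' (fun _ _ => Nat.zero_le _) ⟨src (y k), Finset.mem_univ _, ?_⟩
    refine Nat.mul_pos ih ?_
    have h := edge_pos (y k)
    rw [hy k] at h
    have e : ((k + 1 : ℕ) : ℤ) = k + 1 := by push_cast; ring
    rwa [e]

theorem shift_iterate {α : Type} (x : ℤ → α) (n : ℕ) (i : ℤ) : (shift^[n] x) i = x (i + n) := by
  induction n generalizing x with
  | zero => simp
  | succ n ih =>
    rw [Function.iterate_succ_apply, ih]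
    change x (i + n + 1) = _
    congr 1
    push_cast
    ring

theorem isOpen_win (P : Pres) (v : List ℕ) : IsOpen {x : ℤ → Fin P.1 | win P x 0 = v} := by
  refine isOpen_of_window _ ((Finset.range (wlen P.2)).image fun k : ℕ => (0 : ℤ) + k) ?_
  intro x x' h hx
  change win P x' 0 = v
  rw [← (hx : win P x 0 = v)]
  exact win_congr fun k hk => h _ (Finset.mem_image_of_mem _ (Finset.mem_range.2 hk))

/-- the matrix of a nonempty mixing shift is primitive -/
theorem primitive_of_mixing {P : Pres} (hP : IsMixing (sft P)) (h0 : 0 < (red P).1) :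
    FT.IsPrimitive (AA P) := by
  refine ⟨h0, ?_⟩
  have h1 : ∀ v w : Fin (red P).1, ∃ N : ℕ, ∀ n ≥ N, 0 < ((AA P) ^ n) v w := by
    intro v w
    obtain ⟨x, hx, hxv⟩ := exists_point v
    obtain ⟨x', hx', hxw⟩ := exists_point w
    obtain ⟨N, hN⟩ := hP {x | win P x 0 = vert P v} {x | win P x 0 = vert P w} (isOpen_win P _)
      (isOpen_win P _) ⟨x, hx, hxv⟩ ⟨x', hx', hxw⟩
    refine ⟨N, fun n hn => ?_⟩
    obtain ⟨_, ⟨z, ⟨hz, hzv⟩, rfl⟩, -, hzw⟩ := hN n hn
    have h2 := pow_pos_of_path (Phi P ⟨z, hz⟩).2 n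
    have h3 : src ((Phi P ⟨z, hz⟩).1 0) = v := vert_inj (by rw [vert_src_Phi]; exact hzv)
    have h4 : src ((Phi P ⟨z, hz⟩).1 n) = w := by
      refine vert_inj ?_
      rw [vert_src_Phi, ← (hzw : win P (shift^[n] z) 0 = vert P w)]
      refine win_congr fun k _ => ?_
      have e : (0 : ℤ) + k + n = n + k := by ring
      rw [shift_iterate, e]
    rwa [h3, h4] at h2
  choose N hN using h1
  refine ⟨(Finset.univ.sup fun v => Finset.univ.sup fun w => N v w) + 1, Nat.succ_pos _,
    fun v w => hN v w _ ?_⟩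
  have h5 : N v w ≤ Finset.univ.sup fun w => N v w :=
    Finset.le_sup (f := fun w => N v w) (Finset.mem_univ w)
  have h6 : (Finset.univ.sup fun w => N v w) ≤ Finset.univ.sup fun v =>
      Finset.univ.sup fun w => N v w :=
    Finset.le_sup (f := fun v => Finset.univ.sup fun w => N v w) (Finset.mem_univ v)
  exact (h5.trans h6).trans (Nat.le_succ _)

/-- transport of finite-to-one factor codes along conjugacies -/
theorem FiniteFactor.transport {α β γ δ : Type} [TopologicalSpace α] [TopologicalSpace β]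
    [TopologicalSpace γ] [TopologicalSpace δ] {X : Set (ℤ → α)} {Y : Set (ℤ → β)}
    {X' : Set (ℤ → γ)} {Y' : Set (ℤ → δ)} (e : X ≃ₜ X')
    (he : ∀ x x' : X', x'.1 = shift x.1 → (e.symm x').1 = shift (e.symm x).1)
    (f : Y ≃ₜ Y') (hf : ∀ y y' : Y, y'.1 = shift y.1 → (f y').1 = shift (f y).1)
    (h : FiniteFactor X Y) : FiniteFactor X' Y' := by
  obtain ⟨φ, hφ, hfin⟩ := h
  refine ⟨fun x => f (φ (e.symm x)), ⟨?_, ?_, ?_⟩, ?_⟩
  · exact f.continuous.comp (hφ.continuous.comp e.symm.continuous)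
  · exact f.surjective.comp (hφ.surjective.comp e.symm.surjective)
  · intro x x' hx
    exact hf _ _ (hφ.commutes _ _ (he _ _ hx))
  · intro y
    have h1 := (hfin (f.symm y)).image e
    refine h1.subset ?_
    intro x hx
    refine ⟨e.symm x, ?_, e.apply_symm_apply x⟩
    change φ (e.symm x) = f.symm y
    rw [← (hx : f (φ (e.symm x)) = y), f.symm_apply_apply]

theorem finiteFactor_iff_AA (P Q : Pres) :
    FiniteFactor (sft P) (sft Q) ↔ FiniteFactor (edgeShift (AA P)) (edgeShift (AA Q)) := by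
  constructor
  · exact FiniteFactor.transport (conj P) (conj_symm_commutes P) (conj Q) (conj_commutes Q)
  · intro h
    refine FiniteFactor.transport (conj P).symm ?_ (conj Q).symm (conj_symm_commutes Q) h
    intro x x' hx
    exact conj_commutes P x x' hx

/-- there is a finite-to-one factor code between edge shifts, in the terms of FT/Defs -/
theorem finiteFactor_edge_iff {n m : ℕ} (A : Matrix (Fin n) (Fin n) ℕ)
    (B : Matrix (Fin m) (Fin m) ℕ) :
    FiniteFactor (edgeShift A) (edgeShift B) ↔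
      ∃ φ : edgeShift A → edgeShift B, FT.IsFactorCode φ ∧ ∀ y, {x | φ x = y}.Finite := by
  constructor
  · rintro ⟨φ, hφ, hfin⟩
    exact ⟨φ, ⟨hφ.continuous, hφ.surjective, fun x x' h i =>
      congrFun (hφ.commutes x x' (funext h)) i⟩, hfin⟩
  · rintro ⟨φ, hφ, hfin⟩
    exact ⟨φ, ⟨hφ.continuous, hφ.surjective, fun x x' h => funext fun i =>
      hφ.commutes x x' (fun j => congrFun h j) i⟩, hfin⟩

/-! ### the empty shifts -/

theorem sft_empty {P : Pres} (h : (red P).1 = 0) : sft P = ∅ := by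
  rw [← Set.not_nonempty_iff_eq_empty, ← red_pos_iff]
  omega

theorem finiteFactor_of_empty {P Q : Pres} (hP : (red P).1 = 0) (hQ : (red Q).1 = 0) :
    FiniteFactor (sft P) (sft Q) := by
  have h1 := sft_empty hP
  have h2 := sft_empty hQ
  have : IsEmpty (sft P) := by rw [h1]; exact Set.isEmpty_coe_sort.2 rfl
  have : IsEmpty (sft Q) := by rw [h2]; exact Set.isEmpty_coe_sort.2 rfl
  refine ⟨fun x => isEmptyElim x, ⟨?_, ?_, ?_⟩, ?_⟩
  · exact continuous_of_const fun x => isEmptyElim x
  · exact fun y => isEmptyElim y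
  · exact fun x => isEmptyElim x
  · exact fun y => isEmptyElim y

theorem red_zero_iff_of_finiteFactor {P Q : Pres} (h : FiniteFactor (sft P) (sft Q)) :
    (red P).1 = 0 ↔ (red Q).1 = 0 := by
  obtain ⟨φ, hφ, -⟩ := h
  have h1 : (sft P).Nonempty ↔ (sft Q).Nonempty := by
    constructor
    · rintro ⟨x, hx⟩
      exact ⟨_, (φ ⟨x, hx⟩).2⟩
    · rintro ⟨y, hy⟩
      obtain ⟨x, -⟩ := hφ.surjective ⟨y, hy⟩
      exact ⟨_, x.2⟩
  rw [← red_pos_iff, ← red_pos_iff] at h1
  omega

end Pool.Agent.DEC
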