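import Pool.Agent.DEC.Red3
import Pool.Agent.DEC.Per

/-!
DEC project (MP_59dda0_an): a matrix which is not primitive has a certificate.
-/

set_option autoImplicit false

namespace Pool.Agent.DEC

open Primrec
open Pool.Agent.FT (IsPrimitive HasEntropy edgeShift)

theorem natM_eq (n : ℕ) (L : IM) : natM n L = natMat n n L := rfl

/-- the supports of two powers determine the supports of all later powers -/
theorem supp_add {n : ℕ} {A : Matrix (Fin n) (Fin n) ℕ} {p q : ℕ}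
    (h : ∀ i j, 0 < (A ^ p) i j ↔ 0 < (A ^ q) i j) (t : ℕ) (i j : Fin n) :
    0 < (A ^ (p + t)) i j ↔ 0 < (A ^ (q + t)) i j := by
  have key : ∀ {s : ℕ}, 0 < (A ^ (s + t)) i j ↔ ∃ l, 0 < (A ^ s) i l ∧ 0 < (A ^ t) l j := by
    intro s
    rw [pow_add, Matrix.mul_apply]
    constructor
    · intro h1
      obtain ⟨l, -, hl⟩ := Finset.exists_ne_zero_of_sum_ne_zero h1.ne'
      exact ⟨l, Nat.pos_of_ne_zero (left_ne_zero_of_mul hl),
        Nat.pos_of_ne_zero (right_ne_zero_of_mul hl)⟩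
    · rintro ⟨l, h1, h2⟩
      exact Finset.sum_pos' (fun _ _ => Nat.zero_le _) ⟨l, Finset.mem_univ _, Nat.mul_pos h1 h2⟩
  rw [key, key]
  exact exists_congr fun l => and_congr_left fun _ => h i l

theorem not_isPrimitive_iff {n : ℕ} (A : Matrix (Fin n) (Fin n) ℕ) :
    ¬ IsPrimitive A ↔ n = 0 ∨ ∃ p q : ℕ, (0 < p ∧ p < q) ∧
      (∀ i j, 0 < (A ^ p) i j ↔ 0 < (A ^ q) i j) ∧ ∃ i j, ¬ 0 < (A ^ p) i j := by
  classical
  constructor
  · intro h
    rcases Nat.eq_zero_or_pos n with h0 | h0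
    · exact Or.inl h0
    · refine Or.inr ?_
      have h1 : ∀ p, 0 < p → ∃ i j, ¬ 0 < (A ^ p) i j := by
        intro p hp
        by_contra hc
        push Not at hc
        exact h ⟨h0, p, hp, fun i j => by simpa using hc i j⟩
      obtain ⟨p, q, hne, hpq⟩ := Finite.exists_ne_map_eq_of_infinite
        (fun k : ℕ => (fun i j => decide (0 < (A ^ (k + 1)) i j) : Fin n → Fin n → Bool))
      have h2 : ∀ i j, 0 < (A ^ (p + 1)) i j ↔ 0 < (A ^ (q + 1)) i j := by
        intro i j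
        have := congrFun (congrFun hpq i) j
        exact decide_eq_decide.1 this
      rcases lt_or_gt_of_ne hne with hlt | hlt
      · exact ⟨p + 1, q + 1, ⟨by omega, by omega⟩, h2, h1 _ (by omega)⟩
      · exact ⟨q + 1, p + 1, ⟨by omega, by omega⟩, fun i j => (h2 i j).symm, h1 _ (by omega)⟩
  · rintro (h0 | ⟨p, q, ⟨hp, hlt⟩, h, i, j, hij⟩) ⟨hn, k, hk, hpos⟩
    · omega
    · obtain ⟨d, rfl⟩ : ∃ d, q = p + d := ⟨q - p, by omega⟩
      have h3 : ∀ (m : ℕ) (i j : Fin n), 0 < (A ^ p) i j ↔ 0 < (A ^ (p + m * d)) i j := by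
        intro m
        induction m with
        | zero => intro i j; simp
        | succ m ih =>
          intro i j
          have h4 := supp_add ih d i j
          have e : p + m * d + d = p + (m + 1) * d := by ring
          rw [e] at h4
          exact (h i j).trans h4
      refine hij ((h3 k i j).2 (pow_pos_of_le hk hpos ?_ i j))
      have : k * 1 ≤ k * d := Nat.mul_le_mul_left k (by omega)
      omega

section re

variable {α : Type*} [Primcodable α]

/-- not being primitive is r.e. -/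
theorem re_not_isPrimitive {n : α → ℕ} {A : α → IM} (hn : Computable n) (hA : Computable A) :
    REPred fun a => ¬ IsPrimitive (natMat (n a) (n a) (A a)) := by
  have h : REPred fun c : ℕ × IM => ¬ IsPrimitive (natMat c.1 c.1 c.2) := by
    have hE : ∀ {e : ((ℕ × IM) × (ℕ × ℕ)) × ℕ × ℕ → ℕ}, Primrec e →
        PrimrecPred fun r : ((ℕ × IM) × (ℕ × ℕ)) × ℕ × ℕ =>
          0 < ent (mpow r.1.1.1 (nrm r.1.1.1 r.1.1.1 r.1.1.2) (e r)) r.2.1 r.2.2 := by
      intro e he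
      refine primrec_int_lt.comp (Primrec.const 0) ?_
      have h1 : Primrec fun r : ((ℕ × IM) × (ℕ × ℕ)) × ℕ × ℕ => r.1.1.1 :=
        fst.comp (fst.comp fst)
      have h2 : Primrec fun r : ((ℕ × IM) × (ℕ × ℕ)) × ℕ × ℕ => r.1.1.2 :=
        snd.comp (fst.comp fst)
      exact pEnt (pMpow h1 (pNrm h1 h1 h2) he) (fst.comp snd) (snd.comp snd)
    have hp := hE (e := fun r => r.1.2.1) (fst.comp (snd.comp fst))
    have hq := hE (e := fun r => r.1.2.2) (snd.comp (snd.comp fst))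
    have h1 : PrimrecPred fun x : (ℕ × IM) × (ℕ × ℕ) =>
        (0 < x.2.1 ∧ x.2.1 < x.2.2) ∧
        (∀ i ∈ List.range x.1.1, ∀ j ∈ List.range x.1.1,
          ((0 < ent (mpow x.1.1 (nrm x.1.1 x.1.1 x.1.2) x.2.1) i j ∧
            0 < ent (mpow x.1.1 (nrm x.1.1 x.1.1 x.1.2) x.2.2) i j) ∨
          (¬ 0 < ent (mpow x.1.1 (nrm x.1.1 x.1.1 x.1.2) x.2.1) i j ∧
            ¬ 0 < ent (mpow x.1.1 (nrm x.1.1 x.1.1 x.1.2) x.2.2) i j))) ∧
        ∃ i ∈ List.range x.1.1, ∃ j ∈ List.range x.1.1,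
          ¬ 0 < ent (mpow x.1.1 (nrm x.1.1 x.1.1 x.1.2) x.2.1) i j := by
      refine PrimrecPred.and (PrimrecPred.and ?_ ?_) (PrimrecPred.and ?_ ?_)
      · exact Primrec.nat_lt.comp (Primrec.const 0) (fst.comp snd)
      · exact Primrec.nat_lt.comp (fst.comp snd) (snd.comp snd)
      · refine pAll (l := fun x : (ℕ × IM) × (ℕ × ℕ) => List.range x.1.1)
          (R := fun x i => ∀ j ∈ List.range x.1.1,
          ((0 < ent (mpow x.1.1 (nrm x.1.1 x.1.1 x.1.2) x.2.1) i j ∧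
            0 < ent (mpow x.1.1 (nrm x.1.1 x.1.1 x.1.2) x.2.2) i j) ∨
          (¬ 0 < ent (mpow x.1.1 (nrm x.1.1 x.1.1 x.1.2) x.2.1) i j ∧
            ¬ 0 < ent (mpow x.1.1 (nrm x.1.1 x.1.1 x.1.2) x.2.2) i j)))
          (list_range.comp (fst.comp fst)) ?_
        refine pAll (l := fun y : ((ℕ × IM) × (ℕ × ℕ)) × ℕ => List.range y.1.1.1)
          (R := fun y j =>
          ((0 < ent (mpow y.1.1.1 (nrm y.1.1.1 y.1.1.1 y.1.1.2) y.1.2.1) y.2 j ∧
            0 < ent (mpow y.1.1.1 (nrm y.1.1.1 y.1.1.1 y.1.1.2) y.1.2.2) y.2 j) ∨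
          (¬ 0 < ent (mpow y.1.1.1 (nrm y.1.1.1 y.1.1.1 y.1.1.2) y.1.2.1) y.2 j ∧
            ¬ 0 < ent (mpow y.1.1.1 (nrm y.1.1.1 y.1.1.1 y.1.1.2) y.1.2.2) y.2 j)))
          (list_range.comp (fst.comp (fst.comp fst))) ?_
        have hr : Primrec fun z : (((ℕ × IM) × (ℕ × ℕ)) × ℕ) × ℕ => (z.1.1, z.1.2, z.2) :=
          Primrec.pair (fst.comp fst) (Primrec.pair (snd.comp fst) snd)
        exact ((hp.comp hr).and (hq.comp hr)).or ((hp.comp hr).not.and (hq.comp hr).not)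
      · refine pEx (l := fun x : (ℕ × IM) × (ℕ × ℕ) => List.range x.1.1)
          (R := fun x i => ∃ j ∈ List.range x.1.1,
            ¬ 0 < ent (mpow x.1.1 (nrm x.1.1 x.1.1 x.1.2) x.2.1) i j)
          (list_range.comp (fst.comp fst)) ?_
        refine pEx (l := fun y : ((ℕ × IM) × (ℕ × ℕ)) × ℕ => List.range y.1.1.1)
          (R := fun y j =>
            ¬ 0 < ent (mpow y.1.1.1 (nrm y.1.1.1 y.1.1.1 y.1.1.2) y.1.2.1) y.2 j)
          (list_range.comp (fst.comp (fst.comp fst))) ?_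
        have hr : Primrec fun z : (((ℕ × IM) × (ℕ × ℕ)) × ℕ) × ℕ => (z.1.1, z.1.2, z.2) :=
          Primrec.pair (fst.comp fst) (Primrec.pair (snd.comp fst) snd)
        exact (hp.comp hr).not
    have h2 : REPred fun c : ℕ × IM => c.1 = 0 ∨ ∃ e : ℕ × ℕ, (0 < e.1 ∧ e.1 < e.2) ∧
        (∀ i ∈ List.range c.1, ∀ j ∈ List.range c.1,
          ((0 < ent (mpow c.1 (nrm c.1 c.1 c.2) e.1) i j ∧
            0 < ent (mpow c.1 (nrm c.1 c.1 c.2) e.2) i j) ∨
          (¬ 0 < ent (mpow c.1 (nrm c.1 c.1 c.2) e.1) i j ∧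
            ¬ 0 < ent (mpow c.1 (nrm c.1 c.1 c.2) e.2) i j))) ∧
        ∃ i ∈ List.range c.1, ∃ j ∈ List.range c.1,
          ¬ 0 < ent (mpow c.1 (nrm c.1 c.1 c.2) e.1) i j :=
      re_or (re_eq Computable.fst (Computable.const 0)) (re_exists (re_of_primrec h1))
    refine h2.of_eq fun c => ?_
    obtain ⟨m, L⟩ := c
    rw [not_isPrimitive_iff]
    have hk : ∀ (k : ℕ) (i j : Fin m), 0 < (natMat m m L ^ k) i j ↔
        0 < ent (mpow m (nrm m m L) k) i j := by
      intro k i j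
      rw [← natMat_pow]
      exact_mod_cast Iff.rfl
    refine or_congr_right ?_
    constructor
    · rintro ⟨⟨p, q⟩, h3, h4, i, hi, j, hj, h5⟩
      rw [List.mem_range] at hi hj
      refine ⟨p, q, h3, fun i j => ?_, ⟨i, hi⟩, ⟨j, hj⟩, fun h6 => h5 ((hk p _ _).1 h6)⟩
      rw [hk, hk]
      have := h4 i (List.mem_range.2 i.2) j (List.mem_range.2 j.2)
      dsimp only at this
      tauto
    · rintro ⟨p, q, h3, h4, i, j, h5⟩
      refine ⟨(p, q), h3, fun i hi j hj => ?_, i, List.mem_range.2 i.2, j,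
        List.mem_range.2 j.2, fun h6 => h5 ((hk p _ _).2 h6)⟩
      rw [List.mem_range] at hi hj
      have := h4 ⟨i, hi⟩ ⟨j, hj⟩
      rw [hk, hk] at this
      dsimp only at this ⊢
      tauto
  exact re_comp h (Computable.pair hn hA)

end re

end Pool.Agent.DEC
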