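import Pool.Agent.DEC.RedDefs
import Pool.Agent.FT.Defs

/-!
# DEC, reduction part A: from presentations to matrices (no computability)

Conjugacies; the window map of `sft P`; essential vertices; mixing gives primitivity.
-/

set_option autoImplicit false

namespace Pool.Agent.DEC

open Pool.Agent.FT

/-! ### conjugacies -/

/-- `Conj X Y`: a shift commuting homeomorphism -/
def Conj {α β : Type} [TopologicalSpace α] [TopologicalSpace β] (X : Set (ℤ → α))
    (Y : Set (ℤ → β)) : Prop :=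
  ∃ (φ : X → Y) (ψ : Y → X), Continuous φ ∧ Continuous ψ ∧ (∀ x, ψ (φ x) = x) ∧
    (∀ y, φ (ψ y) = y) ∧ (∀ x x' : X, x'.1 = shift x.1 → (φ x').1 = shift (φ x).1) ∧
    ∀ y y' : Y, y'.1 = shift y.1 → (ψ y').1 = shift (ψ y).1

section conj

variable {α β γ : Type} [TopologicalSpace α] [TopologicalSpace β] [TopologicalSpace γ]

theorem Conj.symm {X : Set (ℤ → α)} {Y : Set (ℤ → β)} (h : Conj X Y) : Conj Y X := by
  obtain ⟨φ, ψ, h1, h2, h3, h4, h5, h6⟩ := h
  exact ⟨ψ, φ, h2, h1, h4, h3, h6, h5⟩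

theorem Conj.refl (X : Set (ℤ → α)) : Conj X X :=
  ⟨id, id, continuous_id, continuous_id, fun _ => rfl, fun _ => rfl, fun _ _ h => h,
    fun _ _ h => h⟩

theorem Conj.trans {X : Set (ℤ → α)} {Y : Set (ℤ → β)} {Z : Set (ℤ → γ)} (h : Conj X Y)
    (h' : Conj Y Z) : Conj X Z := by
  obtain ⟨φ, ψ, h1, h2, h3, h4, h5, h6⟩ := h
  obtain ⟨φ', ψ', k1, k2, k3, k4, k5, k6⟩ := h'
  refine ⟨φ' ∘ φ, ψ ∘ ψ', k1.comp h1, h2.comp k2, fun x => ?_, fun y => ?_, fun x x' hx => ?_,
    fun y y' hy => ?_⟩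
  · show ψ (ψ' (φ' (φ x))) = x
    rw [k3, h3]
  · show φ' (φ (ψ (ψ' y))) = y
    rw [h4, k4]
  · exact k5 _ _ (h5 _ _ hx)
  · exact h6 _ _ (k6 _ _ hy)

/-- finite-to-one factor codes are transported -/
theorem FiniteFactor.conj_left {X : Set (ℤ → α)} {X' : Set (ℤ → β)} {Y : Set (ℤ → γ)}
    (h : Conj X X') (hf : FiniteFactor X Y) : FiniteFactor X' Y := by
  obtain ⟨φ, ψ, h1, h2, h3, h4, h5, h6⟩ := h
  obtain ⟨f, ⟨f1, f2, f3⟩, f4⟩ := hf
  refine ⟨f ∘ ψ, ⟨f1.comp h2, f2.comp fun x => ⟨φ x, h3 x⟩, fun x x' hx => f3 _ _ (h6 _ _ hx)⟩,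
    fun y => ?_⟩
  refine ((f4 y).image φ).subset fun x hx => ⟨ψ x, hx, h4 x⟩

theorem FiniteFactor.conj_right {X : Set (ℤ → α)} {Y : Set (ℤ → β)} {Y' : Set (ℤ → γ)}
    (h : Conj Y Y') (hf : FiniteFactor X Y) : FiniteFactor X Y' := by
  obtain ⟨φ, ψ, h1, h2, h3, h4, h5, h6⟩ := h
  obtain ⟨f, ⟨f1, f2, f3⟩, f4⟩ := hf
  have hs : Function.Surjective φ := fun y => ⟨ψ y, h4 y⟩
  refine ⟨φ ∘ f, ⟨h1.comp f1, hs.comp f2, fun x x' hx => h5 _ _ (f3 _ _ hx)⟩, fun y => ?_⟩
  refine (f4 (ψ y)).subset fun x hx => ?_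
  show f x = ψ y
  have : φ (f x) = y := hx
  rw [← this, h3]

theorem FiniteFactor.conj_iff {δ : Type} [TopologicalSpace δ] {X : Set (ℤ → α)}
    {X' : Set (ℤ → β)} {Y : Set (ℤ → γ)} {Y' : Set (ℤ → δ)} (h : Conj X X') (h' : Conj Y Y') :
    FiniteFactor X Y ↔ FiniteFactor X' Y' :=
  ⟨fun hf => (hf.conj_left h).conj_right h', fun hf => (hf.conj_left h.symm).conj_right h'.symm⟩

/-- the empty cases -/
theorem finiteFactor_of_empty {X : Set (ℤ → α)} {Y : Set (ℤ → β)} (hX : X = ∅) (hY : Y = ∅) :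
    FiniteFactor X Y := by
  subst hX hY
  exact ⟨fun x => absurd x.2 (Set.notMem_empty _), ⟨continuous_of_const fun x => absurd x.2
    (Set.notMem_empty _), fun y => absurd y.2 (Set.notMem_empty _), fun x => absurd x.2
    (Set.notMem_empty _)⟩, fun y => absurd y.2 (Set.notMem_empty _)⟩

theorem FiniteFactor.empty_iff {X : Set (ℤ → α)} {Y : Set (ℤ → β)} (h : FiniteFactor X Y) :
    X.Nonempty ↔ Y.Nonempty := by
  obtain ⟨f, hf, -⟩ := h
  constructor
  · rintro ⟨x, hx⟩
    exact ⟨(f ⟨x, hx⟩).1, (f ⟨x, hx⟩).2⟩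
  · rintro ⟨y, hy⟩
    obtain ⟨x, -⟩ := hf.surjective ⟨y, hy⟩
    exact ⟨x.1, x.2⟩

end conj

/-! ### vertex shifts -/

/-- the vertex shift of a relation -/
def vshift {V : Type} (T : V → V → Prop) : Set (ℤ → V) := {y | ∀ i, T (y i) (y (i + 1))}

section walk

variable {N : ℕ} (T : Fin N → Fin N → Prop)

/-- there is a path of length `k` from `v` -/
def Fwd (k : ℕ) (v : Fin N) : Prop := ∃ p : ℕ → Fin N, p 0 = v ∧ ∀ i < k, T (p i) (p (i + 1))

/-- a path of length `N` can be continued for ever -/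
theorem Fwd.inf {v : Fin N} (h : Fwd T N v) :
    ∃ q : ℕ → Fin N, q 0 = v ∧ ∀ i, T (q i) (q (i + 1)) := by
  obtain ⟨p, hp0, hp⟩ := h
  obtain ⟨i, j, hij, hpe⟩ : ∃ i j : ℕ, i < j ∧ j ≤ N ∧ p i = p j := by
    obtain ⟨x, y, hxy, he⟩ := Fintype.exists_ne_map_eq_of_card_lt (fun k : Fin (N + 1) => p k)
      (by rw [Fintype.card_fin, Fintype.card_fin]; exact Nat.lt_succ_self N)
    rcases Nat.lt_or_gt_of_ne (fun h => hxy (Fin.ext h)) with h | h
    · exact ⟨x, y, h, Nat.lt_succ_iff.1 y.2, he⟩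
    · exact ⟨y, x, h, Nat.lt_succ_iff.1 x.2, he.symm⟩
  obtain ⟨hjN, hpe⟩ := hpe
  have hd : 0 < j - i := by omega
  refine ⟨fun m => if m < i then p m else p (i + (m - i) % (j - i)), ?_, ?_⟩
  · show (if 0 < i then p 0 else p (i + (0 - i) % (j - i))) = v
    split_ifs with h0
    · exact hp0
    · have : i = 0 := by omega
      subst this
      rw [Nat.zero_sub, Nat.zero_mod]
      exact hp0
  · intro m
    show T (if m < i then p m else p (i + (m - i) % (j - i)))
      (if m + 1 < i then p (m + 1) else p (i + (m + 1 - i) % (j - i)))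
    rcases lt_trichotomy (m + 1) i with h | h | h
    · rw [if_pos (by omega), if_pos h]
      exact hp m (by omega)
    · rw [if_pos (by omega), if_neg (by omega)]
      have e : i + (m + 1 - i) % (j - i) = m + 1 := by
        rw [h, Nat.sub_self, Nat.zero_mod]
        omega
      rw [e]
      exact hp m (by omega)
    · rw [if_neg (by omega), if_neg (by omega)]
      set r := (m - i) % (j - i) with hr
      have hr1 : r < j - i := Nat.mod_lt _ hd
      have e1 : (m + 1 - i) % (j - i) = (r + 1) % (j - i) := by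
        rw [show m + 1 - i = m - i + 1 by omega, hr, Nat.mod_add_mod]
      rw [e1]
      rcases Nat.lt_or_ge (r + 1) (j - i) with h2 | h2
      · rw [Nat.mod_eq_of_lt h2]
        exact hp (i + r) (by omega)
      · have h3 : r + 1 = j - i := by omega
        rw [h3, Nat.mod_self, Nat.add_zero, hpe]
        have := hp (i + r) (by omega)
        rwa [show i + r + 1 = j by omega] at this

/-- essential vertices -/
def Ess (v : Fin N) : Prop := Fwd T N v ∧ Fwd (fun a b => T b a) N v

theorem ess_of_mem {y : ℤ → Fin N} (hy : y ∈ vshift T) (i : ℤ) : Ess T (y i) := by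
  refine ⟨⟨fun k => y (i + k), by simp, fun k _ => ?_⟩, ⟨fun k => y (i - k), by simp, fun k _ => ?_⟩⟩
  · have := hy (i + k)
    rwa [show i + (k : ℤ) + 1 = i + ((k + 1 : ℕ) : ℤ) by push_cast; ring] at this
  · show T (y (i - ((k + 1 : ℕ) : ℤ))) (y (i - k))
    have := hy (i - ((k + 1 : ℕ) : ℤ))
    rwa [show i - ((k + 1 : ℕ) : ℤ) + 1 = i - k by push_cast; ring] at this

theorem Ess.exists_mem {v : Fin N} (h : Ess T v) : ∃ y ∈ vshift T, y 0 = v := by
  obtain ⟨f, hf0, hf⟩ := h.1.inf
  obtain ⟨g, hg0, hg⟩ := h.2.inf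
  refine ⟨fun i => if 0 ≤ i then f i.toNat else g (-i).toNat, fun i => ?_, ?_⟩
  · show T (if 0 ≤ i then f i.toNat else g (-i).toNat)
      (if 0 ≤ i + 1 then f (i + 1).toNat else g (-(i + 1)).toNat)
    rcases lt_trichotomy (i + 1) 0 with h | h | h
    · rw [if_neg (by omega), if_neg (by omega)]
      have := hg (-(i + 1)).toNat
      rwa [show (-(i + 1)).toNat + 1 = (-i).toNat by omega] at this
    · rw [if_neg (by omega), if_pos (by omega), h]
      have := hg 0
      rw [hg0, ← hf0] at this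
      rwa [show (-i).toNat = 0 + 1 by omega]
    · rw [if_pos (by omega), if_pos (by omega)]
      have := hf i.toNat
      rwa [show (i + 1).toNat = i.toNat + 1 by omega]
  · show (if (0 : ℤ) ≤ 0 then f (0 : ℤ).toNat else g (-0 : ℤ).toNat) = v
    rw [if_pos le_rfl]
    exact hf0

end walk

/-! ### the vertex shift of a relation is an edge shift -/

theorem edge_ext {n : ℕ} {A : Matrix (Fin n) (Fin n) ℕ} (hA : ∀ i j, A i j ≤ 1) {e e' : Edge A}
    (h1 : src e = src e') (h2 : tgt e = tgt e') : e = e' := by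
  obtain ⟨⟨p, q⟩, c⟩ := e
  obtain ⟨⟨p', q'⟩, c'⟩ := e'
  have h1' : p = p' := h1
  have h2' : q = q' := h2
  subst h1' h2'
  have : c = c' := by
    apply Fin.ext
    have h := hA p q
    have hc : (c : ℕ) < A p q := c.2
    have hc' : (c' : ℕ) < A p q := c'.2
    omega
  rw [this]

/-- the vertex shift of a relation is the edge shift of its matrix over the essential vertices -/
theorem conj_vshift {V : Type} [TopologicalSpace V] [DiscreteTopology V] {T : V → V → Prop} {n : ℕ}
    {e : Fin n → V} (he : Function.Injective e)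
    (hr : ∀ y ∈ vshift T, ∀ i, y i ∈ Set.range e) {A : Matrix (Fin n) (Fin n) ℕ}
    (hA1 : ∀ i j, T (e i) (e j) → A i j = 1) (hA0 : ∀ i j, ¬ T (e i) (e j) → A i j = 0) :
    Conj (vshift T) (edgeShift A) := by
  classical
  have hA : ∀ i j, A i j ≤ 1 := fun i j => by
    by_cases h : T (e i) (e j)
    · rw [hA1 i j h]
    · rw [hA0 i j h]
      exact Nat.zero_le 1
  let D : Type := {p : V × V // T p.1 p.2 ∧ p.1 ∈ Set.range e ∧ p.2 ∈ Set.range e}
  have hF : ∀ p : D, ∃ c : Edge A, e (src c) = p.1.1 ∧ e (tgt c) = p.1.2 := by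
    rintro ⟨⟨p, q⟩, h, ⟨i, hi⟩, ⟨j, hj⟩⟩
    have hi' : e i = p := hi
    have hj' : e j = q := hj
    have h1 : A i j = 1 := hA1 i j (by rw [hi', hj']; exact h)
    exact ⟨⟨(i, j), ⟨0, by show 0 < A i j; omega⟩⟩, hi', hj'⟩
  choose F hF1 hF2 using hF
  have hTe : ∀ c : Edge A, T (e (src c)) (e (tgt c)) := by
    intro c
    by_contra h
    have h0 := hA0 _ _ h
    have := c.2.2
    have h0' : A c.1.1 c.1.2 = 0 := h0
    omega
  have hD : ∀ y ∈ vshift T, ∀ i : ℤ, T (y i) (y (i + 1)) ∧ y i ∈ Set.range e ∧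
      y (i + 1) ∈ Set.range e := fun y hy i => ⟨hy i, hr y hy i, hr y hy (i + 1)⟩
  let φ0 : vshift T → ℤ → Edge A := fun y i => F ⟨(y.1 i, y.1 (i + 1)), hD y.1 y.2 i⟩
  have hφ1 : ∀ y i, e (src (φ0 y i)) = y.1 i := fun y i => hF1 _
  have hφ2 : ∀ y i, e (tgt (φ0 y i)) = y.1 (i + 1) := fun y i => hF2 _
  have hφm : ∀ y, φ0 y ∈ edgeShift A := by
    intro y i
    apply he
    rw [hφ2, hφ1]
  let ψ0 : edgeShift A → ℤ → V := fun x i => e (src (x.1 i))
  have hψm : ∀ x, ψ0 x ∈ vshift T := by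
    intro x i
    show T (e (src (x.1 i))) (e (src (x.1 (i + 1))))
    rw [← x.2 i]
    exact hTe _
  refine ⟨fun y => ⟨φ0 y, hφm y⟩, fun x => ⟨ψ0 x, hψm x⟩, ?_, ?_, ?_, ?_, ?_, ?_⟩
  · refine Continuous.subtype_mk (continuous_pi fun i => ?_) _
    have h1 : Continuous F := continuous_of_discreteTopology
    refine h1.comp (Continuous.subtype_mk ?_ _)
    exact ((continuous_apply i).comp continuous_subtype_val).prodMk
      ((continuous_apply (i + 1)).comp continuous_subtype_val)
  · refine Continuous.subtype_mk (continuous_pi fun i => ?_) _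
    have h1 : Continuous fun c : Edge A => e (src c) := continuous_of_discreteTopology
    exact h1.comp ((continuous_apply i).comp continuous_subtype_val)
  · intro y
    apply Subtype.ext
    funext i
    exact hφ1 y i
  · intro x
    apply Subtype.ext
    funext i
    refine edge_ext hA (he ?_) (he ?_)
    · rw [hφ1]
    · rw [hφ2]
      show e (src (x.1 (i + 1))) = e (tgt (x.1 i))
      rw [x.2 i]
  · intro y y' h
    funext i
    refine edge_ext hA (he ?_) (he ?_)
    · show e (src (φ0 y' i)) = e (src (φ0 y (i + 1)))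
      rw [hφ1, hφ1, h]
      rfl
    · show e (tgt (φ0 y' i)) = e (tgt (φ0 y (i + 1)))
      rw [hφ2, hφ2, h]
      rfl
  · intro x x' h
    funext i
    show e (src (x'.1 i)) = e (src (x.1 (i + 1)))
    rw [h]
    rfl

/-! ### paths and powers -/

theorem pow_pos_of_path {n : ℕ} {A : Matrix (Fin n) (Fin n) ℕ} {q : ℕ → Fin n} :
    ∀ m : ℕ, (∀ k < m, 0 < A (q k) (q (k + 1))) → 0 < (A ^ m) (q 0) (q m) := by
  intro m
  induction m with
  | zero =>
    intro _
    rw [pow_zero, Matrix.one_apply_eq]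
    exact Nat.one_pos
  | succ m ih =>
    intro h
    rw [pow_succ, Matrix.mul_apply]
    refine lt_of_lt_of_le (Nat.mul_pos (ih fun k hk => h k (by omega)) (h m (by omega)))
      (Finset.single_le_sum (f := fun j => (A ^ m) (q 0) j * A j (q (m + 1)))
        (fun _ _ => Nat.zero_le _) (Finset.mem_univ (q m)))

/-! ### the lists of the definitions -/

theorem mem_fwl {N : ℕ} {R : ℕ → ℕ → Prop} [DecidableRel R] {S : ℕ → List ℕ}
    (h0 : S 0 = List.range N)
    (hs : ∀ k, S (k + 1) = (S k).filter fun u => decide (∃ v ∈ S k, R u v)) (k : ℕ) :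
    ∀ u, u ∈ S k ↔ ∃ h : u < N, Fwd (fun a b : Fin N => R a b) k ⟨u, h⟩ := by
  induction k with
  | zero =>
    intro u
    rw [h0, List.mem_range]
    exact ⟨fun h => ⟨h, fun _ => ⟨u, h⟩, rfl, fun i hi => absurd hi (Nat.not_lt_zero i)⟩,
      fun h => h.1⟩
  | succ k ih =>
    intro u
    rw [hs, List.mem_filter, decide_eq_true_iff, ih]
    constructor
    · rintro ⟨⟨h, -⟩, v, hv, hR⟩
      obtain ⟨hv1, p, hp0, hp⟩ := (ih v).1 hv
      refine ⟨h, fun i => Nat.casesOn i ⟨u, h⟩ p, rfl, fun i hi => ?_⟩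
      rcases i with _ | i
      · show R u (p 0)
        rw [hp0]
        exact hR
      · exact hp i (by omega)
    · rintro ⟨h, p, hp0, hp⟩
      refine ⟨⟨h, p, hp0, fun i hi => hp i (by omega)⟩, p 1, ?_, ?_⟩
      · refine (ih _).2 ⟨(p 1).2, fun i => p (i + 1), rfl, fun i hi => hp (i + 1) (by omega)⟩
      · have := hp 0 (by omega)
        rw [hp0] at this
        exact this

theorem nodup_fwl {N : ℕ} {R : ℕ → ℕ → Prop} [DecidableRel R] {S : ℕ → List ℕ}
    (h0 : S 0 = List.range N)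
    (hs : ∀ k, S (k + 1) = (S k).filter fun u => decide (∃ v ∈ S k, R u v)) (k : ℕ) :
    (S k).Nodup := by
  induction k with
  | zero =>
    rw [h0]
    exact List.nodup_range
  | succ k ih =>
    rw [hs]
    exact ih.filter _

/-- the transitions as a relation on the finite set of the words -/
def TP (P : Pres) (u v : Fin (wnum P)) : Prop := step P u v

theorem mem_fw (P : Pres) (k u : ℕ) :
    u ∈ fw P k ↔ ∃ h : u < wnum P, Fwd (TP P) k ⟨u, h⟩ :=
  mem_fwl (S := fw P) rfl (fun _ => rfl) k u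

theorem mem_bw (P : Pres) (k u : ℕ) :
    u ∈ bw P k ↔ ∃ h : u < wnum P, Fwd (fun a b => TP P b a) k ⟨u, h⟩ :=
  mem_fwl (R := fun a b => step P b a) (S := bw P) rfl (fun _ => rfl) k u

theorem nodup_ess (P : Pres) : (ess P).Nodup :=
  (nodup_fwl (R := step P) (S := fw P) rfl (fun _ => rfl) _).filter _

theorem mem_ess (P : Pres) (u : ℕ) : u ∈ ess P ↔ ∃ h : u < wnum P, Ess (TP P) ⟨u, h⟩ := by
  unfold ess
  rw [List.mem_filter, decide_eq_true_iff, mem_fw, mem_bw]
  exact ⟨fun ⟨⟨h, h1⟩, ⟨_, h2⟩⟩ => ⟨h, h1, h2⟩, fun ⟨h, h1, h2⟩ => ⟨⟨h, h1⟩, ⟨h, h2⟩⟩⟩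

/-- the essential word number `i` -/
def eW (P : Pres) (i : Fin (redN P)) : Fin (wnum P) :=
  ⟨(ess P)[(i : ℕ)]'i.2, ((mem_ess P _).1 (List.getElem_mem i.2)).1⟩

theorem eW_val (P : Pres) (i : Fin (redN P)) : ((eW P i : Fin (wnum P)) : ℕ) = (ess P).getD i 0 := by
  rw [List.getD_eq_getElem _ _ i.2]
  rfl

theorem eW_inj (P : Pres) : Function.Injective (eW P) := by
  intro i j h
  have h1 : (ess P)[(i : ℕ)]'i.2 = (ess P)[(j : ℕ)]'j.2 := congrArg Fin.val h
  exact Fin.ext ((nodup_ess P).getElem_inj_iff.1 h1)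

theorem eW_ess (P : Pres) (i : Fin (redN P)) : Ess (TP P) (eW P i) :=
  ((mem_ess P _).1 (List.getElem_mem i.2)).2

theorem mem_range_eW (P : Pres) (v : Fin (wnum P)) (h : Ess (TP P) v) : v ∈ Set.range (eW P) := by
  have h1 : (v : ℕ) ∈ ess P := (mem_ess P _).2 ⟨v.2, h⟩
  obtain ⟨i, hi, he⟩ := List.getElem_of_mem h1
  exact ⟨⟨i, hi⟩, Fin.ext he⟩

theorem conj_TP (P : Pres) : Conj (vshift (TP P)) (edgeShift (redM P)) := by
  refine conj_vshift (eW_inj P) (fun y hy i => mem_range_eW P _ (ess_of_mem _ hy i)) ?_ ?_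
  · intro i j h
    have h' : step P ((ess P).getD i 0) ((ess P).getD j 0) := by
      rw [← eW_val, ← eW_val]
      exact h
    show (if step P ((ess P).getD i 0) ((ess P).getD j 0) then 1 else 0) = 1
    rw [if_pos h']
  · intro i j h
    have h' : ¬ step P ((ess P).getD i 0) ((ess P).getD j 0) := by
      rw [← eW_val, ← eW_val]
      exact h
    show (if step P ((ess P).getD i 0) ((ess P).getD j 0) then 1 else 0) = 0
    rw [if_neg h']

/-! ### the window map -/

theorem one_le_wlen (P : Pres) : 1 ≤ wlen P := by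
  unfold wlen
  induction P.2 with
  | nil => exact le_rfl
  | cons w F ih => exact ih.trans (le_max_right _ _)

theorem length_le_wlen (P : Pres) {w : List ℕ} (hw : w ∈ P.2) : w.length ≤ wlen P := by
  obtain ⟨a, F⟩ := P
  unfold wlen
  dsimp only at hw ⊢
  induction F with
  | nil => cases hw
  | cons v F ih =>
    rcases List.mem_cons.1 hw with h | h
    · rw [h]
      exact le_max_left _ _
    · exact (ih h).trans (le_max_right _ _)

/-- the letter number `k` of a word -/
def let' (P : Pres) (u : Fin (wnum P)) (k : Fin (wlen P)) : Fin P.1 :=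
  finFunctionFinEquiv.symm u k

theorem let'_val (P : Pres) (u : Fin (wnum P)) (k : Fin (wlen P)) :
    ((let' P u k : Fin P.1) : ℕ) = letter P.1 u k := rfl

/-- the window of `x` at the place `i` -/
def win (P : Pres) (x : ℤ → Fin P.1) (i : ℤ) : Fin (wnum P) :=
  finFunctionFinEquiv fun k : Fin (wlen P) => x (i + (k : ℕ))

theorem let'_win (P : Pres) (x : ℤ → Fin P.1) (i : ℤ) (k : Fin (wlen P)) :
    let' P (win P x i) k = x (i + (k : ℕ)) := by
  unfold let' win
  exact congrFun (finFunctionFinEquiv.symm_apply_apply fun k : Fin (wlen P) => x (i + (k : ℕ))) k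

theorem letter_win (P : Pres) (x : ℤ → Fin P.1) (i : ℤ) {k : ℕ} (hk : k < wlen P) :
    letter P.1 (win P x i) k = x (i + k) := by
  have := congrArg Fin.val (let'_win P x i ⟨k, hk⟩)
  exact this

theorem word_ext (P : Pres) {u v : Fin (wnum P)}
    (h : ∀ k < wlen P, letter P.1 u k = letter P.1 v k) : u = v := by
  apply finFunctionFinEquiv.symm.injective
  funext k
  exact Fin.ext (h k k.2)

theorem win_mem (P : Pres) {x : ℤ → Fin P.1} (hx : x ∈ sft P) : win P x ∈ vshift (TP P) := by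
  have hg : ∀ i, good P (win P x i) := by
    intro i w hw j hj hjw hocc
    refine hx w hw (i + j) fun k hk => ?_
    have h1 := hocc k hk
    rw [letter_win P x i (by omega), List.getD_eq_getElem _ _ hk] at h1
    rw [← h1]
    push_cast
    rw [add_assoc]
  refine fun i => ⟨hg i, hg (i + 1), fun k hk => ?_⟩
  rw [letter_win P x i (by omega), letter_win P x (i + 1) (by omega)]
  congr 2
  push_cast
  ring

theorem letter_shift (P : Pres) {y : ℤ → Fin (wnum P)} (hy : y ∈ vshift (TP P)) :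
    ∀ (k : ℕ) (i : ℤ) (m : ℕ), k + m < wlen P →
      letter P.1 (y i) (m + k) = letter P.1 (y (i + k)) m := by
  intro k
  induction k with
  | zero =>
    intro i m _
    simp
  | succ k ih =>
    intro i m h
    have h1 := (hy i).2.2 (m + k) (by omega)
    rw [show m + (k + 1) = m + k + 1 by ring, h1, ih (i + 1) m (by omega)]
    congr 3
    push_cast
    ring

/-- the point of `sft P` of a point of the window shift -/
def unwin (P : Pres) (y : ℤ → Fin (wnum P)) (i : ℤ) : Fin P.1 :=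
  let' P (y i) ⟨0, one_le_wlen P⟩

theorem unwin_mem (P : Pres) {y : ℤ → Fin (wnum P)} (hy : y ∈ vshift (TP P)) :
    unwin P y ∈ sft P := by
  intro w hw i hocc
  have hl := length_le_wlen P hw
  refine (hy i).1 w hw 0 (one_le_wlen P) (by omega) fun k hk => ?_
  have h1 := hocc k hk
  rw [List.getD_eq_getElem _ _ hk, ← h1]
  have h2 := letter_shift P hy k i 0 (by omega)
  exact h2

theorem unwin_win (P : Pres) (x : ℤ → Fin P.1) : unwin P (win P x) = x := by
  funext i
  unfold unwin
  rw [let'_win]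
  simp

theorem win_unwin (P : Pres) {y : ℤ → Fin (wnum P)} (hy : y ∈ vshift (TP P)) :
    win P (unwin P y) = y := by
  funext i
  refine word_ext P fun k hk => ?_
  rw [letter_win P _ i hk]
  have h2 := letter_shift P hy k i 0 (by omega)
  rw [zero_add] at h2
  rw [h2]
  rfl

theorem continuous_win (P : Pres) (i : ℤ) : Continuous fun x : ℤ → Fin P.1 => win P x i := by
  have h1 : Continuous (finFunctionFinEquiv (m := P.1) (n := wlen P)) :=
    continuous_of_discreteTopology
  exact h1.comp (continuous_pi fun k => continuous_apply _)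

theorem conj_win (P : Pres) : Conj (sft P) (vshift (TP P)) := by
  refine ⟨fun x => ⟨win P x.1, win_mem P x.2⟩, fun y => ⟨unwin P y.1, unwin_mem P y.2⟩, ?_, ?_, ?_,
    ?_, ?_, ?_⟩
  · exact Continuous.subtype_mk (continuous_pi fun i => (continuous_win P i).comp
      continuous_subtype_val) _
  · refine Continuous.subtype_mk (continuous_pi fun i => ?_) _
    have h1 : Continuous fun u : Fin (wnum P) => let' P u ⟨0, one_le_wlen P⟩ :=
      continuous_of_discreteTopology
    exact h1.comp ((continuous_apply i).comp continuous_subtype_val)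
  · exact fun x => Subtype.ext (unwin_win P x.1)
  · exact fun y => Subtype.ext (win_unwin P y.2)
  · intro x x' h
    funext i
    show win P x'.1 i = win P x.1 (i + 1)
    rw [h]
    refine word_ext P fun k hk => ?_
    rw [letter_win P _ i hk, letter_win P _ _ hk]
    show (x.1 (i + k + 1) : ℕ) = x.1 (i + 1 + k)
    rw [add_right_comm]
  · intro y y' h
    funext i
    show unwin P y'.1 i = unwin P y.1 (i + 1)
    rw [h]
    rfl

/-! ### the main statements -/

/-- R1 + R2: a presentation gives the edge shift of its matrix -/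
theorem conj_redM (P : Pres) : Conj (sft P) (edgeShift (redM P)) :=
  (conj_win P).trans (conj_TP P)

/-- the window shift has a point through each essential word -/
theorem exists_point (P : Pres) (i : Fin (redN P)) : ∃ x ∈ sft P, win P x 0 = eW P i := by
  obtain ⟨y, hy, h0⟩ := (eW_ess P i).exists_mem
  refine ⟨unwin P y, unwin_mem P hy, ?_⟩
  rw [win_unwin P hy, h0]

theorem sft_nonempty_iff (P : Pres) : (sft P).Nonempty ↔ 0 < redN P := by
  constructor
  · rintro ⟨x, hx⟩
    obtain ⟨i, -⟩ := mem_range_eW P _ (ess_of_mem _ (win_mem P hx) 0)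
    exact i.pos
  · intro h
    obtain ⟨x, hx, -⟩ := exists_point P ⟨0, h⟩
    exact ⟨x, hx⟩

theorem sft_empty_iff (P : Pres) : sft P = ∅ ↔ redN P = 0 := by
  rw [← Set.not_nonempty_iff_eq_empty, sft_nonempty_iff]
  omega

theorem shift_iter {α : Type} (x : ℤ → α) (n : ℕ) (i : ℤ) : (shift^[n]) x i = x (i + n) := by
  induction n generalizing i with
  | zero => simp
  | succ n ih =>
    rw [Function.iterate_succ_apply']
    show (shift^[n]) x (i + 1) = _
    rw [ih]
    congr 1
    push_cast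
    ring

/-- R3: a nonempty mixing presentation has a primitive matrix -/
theorem isPrimitive_redM (P : Pres) (hm : IsMixing (sft P)) (h0 : 0 < redN P) :
    IsPrimitive (redM P) := by
  have hU : ∀ i : Fin (redN P), IsOpen {x : ℤ → Fin P.1 | win P x 0 = eW P i} := fun i =>
    (isOpen_discrete ({eW P i} : Set (Fin (wnum P)))).preimage (continuous_win P 0)
  have hne : ∀ i : Fin (redN P), (sft P ∩ {x : ℤ → Fin P.1 | win P x 0 = eW P i}).Nonempty := by
    intro i
    obtain ⟨x, hx, h⟩ := exists_point P i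
    exact ⟨x, hx, h⟩
  have key : ∀ i j : Fin (redN P), ∃ N : ℕ, ∀ m ≥ N, 0 < ((redM P) ^ m) i j := by
    intro i j
    obtain ⟨N, hN⟩ := hm _ _ (hU i) (hU j) (hne i) (hne j)
    refine ⟨N, fun m hmN => ?_⟩
    obtain ⟨z, ⟨x, ⟨hx, hxi⟩, hxz⟩, -, hz⟩ := hN m hmN
    have hy := win_mem P hx
    have hr : ∀ k : ℕ, ∃ q : Fin (redN P), eW P q = win P x k := fun k =>
      mem_range_eW P _ (ess_of_mem _ hy k)
    choose q hq using hr
    have hpos : ∀ k < m, 0 < redM P (q k) (q (k + 1)) := by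
      intro k _
      have h1 : step P (win P x k) (win P x ((k + 1 : ℕ) : ℤ)) := by
        have := hy k
        push_cast
        exact this
      rw [← hq, ← hq, eW_val, eW_val] at h1
      show 0 < (if step P ((ess P).getD (q k) 0) ((ess P).getD (q (k + 1)) 0) then 1 else 0)
      rw [if_pos h1]
      exact Nat.one_pos
    have h2 := pow_pos_of_path m hpos
    have e0 : q 0 = i := eW_inj P (by rw [hq]; exact hxi)
    have e1 : q m = j := by
      apply eW_inj P
      rw [hq]
      have hz' : win P z 0 = eW P j := hz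
      rw [← hz', ← hxz]
      refine word_ext P fun k hk => ?_
      rw [letter_win P _ _ hk, letter_win P _ _ hk, shift_iter]
      congr 2
      ring
    rwa [e0, e1] at h2
  choose K hK using key
  refine ⟨h0, (∑ i, ∑ j, K i j) + 1, Nat.succ_pos _, fun i j => hK i j _ ?_⟩
  have h1 : K i j ≤ ∑ j, K i j :=
    Finset.single_le_sum (f := fun j => K i j) (fun _ _ => Nat.zero_le _) (Finset.mem_univ j)
  have h2 : ∑ j, K i j ≤ ∑ i, ∑ j, K i j :=
    Finset.single_le_sum (f := fun i => ∑ j, K i j) (fun _ _ => Nat.zero_le _) (Finset.mem_univ i)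
  exact (h1.trans h2).trans (Nat.le_succ _)

/-- the reduction of the question -/
theorem finiteFactor_iff (P Q : Pres) :
    FiniteFactor (sft P) (sft Q) ↔ FiniteFactor (edgeShift (redM P)) (edgeShift (redM Q)) :=
  FiniteFactor.conj_iff (conj_redM P) (conj_redM Q)

/-- R4: the cases in which one of the shifts is empty -/
theorem finiteFactor_iff_of_zero (P Q : Pres) (h : redN P = 0 ∨ redN Q = 0) :
    FiniteFactor (sft P) (sft Q) ↔ redN P = 0 ∧ redN Q = 0 := by
  constructor
  · intro hf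
    have h1 := hf.empty_iff
    rw [sft_nonempty_iff, sft_nonempty_iff] at h1
    omega
  · rintro ⟨h1, h2⟩
    exact finiteFactor_of_empty ((sft_empty_iff P).2 h1) ((sft_empty_iff Q).2 h2)

end Pool.Agent.DEC
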