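import Pool.Agent.DEC.Stmt
import Pool.Agent.DEC.Mat
/-! DEC project (MP_59dda0_an): the matrix of a presentation, as a function on codes (common
definitions of RedA and RedB). -/

set_option autoImplicit false

namespace Pool.Agent.DEC

/-- the length of the windows: at least one and at least the length of each forbidden word -/
def wlen (P : Pres) : ℕ := P.2.foldr (fun w m => max w.length m) 1

/-- the number of the words of length `wlen P` -/
def wnum (P : Pres) : ℕ := P.1 ^ wlen P

/-- the letter number `k` of the word coded by `u` -/
def letter (a u k : ℕ) : ℕ := u / a ^ k % a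

/-- `w` occurs at the place `j` in the word coded by `u` -/
def occ (a u j : ℕ) (w : List ℕ) : Prop := ∀ k < w.length, letter a u (j + k) = w.getD k 0

instance (a u j : ℕ) (w : List ℕ) : Decidable (occ a u j w) := by
  unfold occ
  infer_instance

/-- no forbidden word occurs in the word coded by `u` -/
def good (P : Pres) (u : ℕ) : Prop :=
  ∀ w ∈ P.2, ∀ j < wlen P, j + w.length ≤ wlen P → ¬ occ P.1 u j w

instance (P : Pres) (u : ℕ) : Decidable (good P u) := by
  unfold good
  infer_instance

/-- the transitions of the window shift -/
def step (P : Pres) (u v : ℕ) : Prop :=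
  good P u ∧ good P v ∧ ∀ k < wlen P - 1, letter P.1 u (k + 1) = letter P.1 v k

instance (P : Pres) (u v : ℕ) : Decidable (step P u v) := by
  unfold step
  infer_instance

/-- the words from which there is a path of length `k` -/
def fw (P : Pres) (k : ℕ) : List ℕ :=
  Nat.rec (List.range (wnum P)) (fun _ S => S.filter fun u => decide (∃ v ∈ S, step P u v)) k

/-- the words to which there is a path of length `k` -/
def bw (P : Pres) (k : ℕ) : List ℕ :=
  Nat.rec (List.range (wnum P)) (fun _ S => S.filter fun u => decide (∃ v ∈ S, step P v u)) k

/-- the essential words -/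
def ess (P : Pres) : List ℕ := (fw P (wnum P)).filter fun u => decide (u ∈ bw P (wnum P))

/-- the number of the essential words -/
def redN (P : Pres) : ℕ := (ess P).length

/-- the code of the matrix of `P` -/
def redA (P : Pres) : IM :=
  mk (redN P) (redN P) fun i j => if step P ((ess P).getD i 0) ((ess P).getD j 0) then 1 else 0

/-- the matrix of `P` -/
def redM (P : Pres) : Matrix (Fin (redN P)) (Fin (redN P)) ℕ :=
  Matrix.of fun i j => if step P ((ess P).getD i 0) ((ess P).getD j 0) then 1 else 0

theorem toMat_redA (P : Pres) :
    toMat (redN P) (redN P) (redA P) = (redM P).map (Nat.cast : ℕ → ℤ) := by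
  unfold redA redM
  rw [toMat_mk]
  ext i j
  simp only [Matrix.of_apply, Matrix.map_apply]
  split_ifs <;> simp

end Pool.Agent.DEC
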