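import Mathlib

/-!
States: a parametrization of flags of subspaces of a direct sum of nilpotent blocks by matrices
with free entries.  `dec_general.md`, section 2.

`deg : I → ℕ` (basis of the graph), `lam : α → ℕ` (heights of the blocks of `V`),
`mu : β → ℕ` (heights of the blocks of `W`).
-/

set_option autoImplicit false

open Matrix

namespace Pool.Agent.DEC

/-- raw states: `C`, `rho`, `tau` -/
abbrev RSt (R I α β : Type) : Type := Matrix I I R × Matrix α I R × Matrix β I R

/-- degrees and heights -/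
structure Shp (I α β : Type) where
  deg : I → ℕ
  lam : α → ℕ
  mu : β → ℕ

section defs

variable {R I α β γ : Type}

/-- the support conditions of a state -/
structure IsSt [Zero R] (σ : Shp I α β) (s : RSt R I α β) : Prop where
  c : ∀ p q, σ.deg p ≤ σ.deg q → s.1 p q = 0
  rho : ∀ a q, σ.lam a ≤ σ.deg q → s.2.1 a q = 0
  tau : ∀ b q, σ.mu b ≤ σ.deg q → s.2.2 b q = 0

/-- coordinates of a sum of blocks of heights `h` -/
abbrev Blk (h : γ → ℕ) : Type := Σ c : γ, Fin (h c)

/-- the map with rows `f c * C ^ (h c - 1 - i)` -/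
def evM [CommRing R] [Fintype I] [DecidableEq I] (h : γ → ℕ) (f : Matrix γ I R)
    (C : Matrix I I R) : Matrix (Blk h) I R :=
  of fun ci q => (f * C ^ (h ci.1 - 1 - (ci.2 : ℕ))) ci.1 q

/-- the nilpotent endomorphism `y` of a sum of blocks -/
def yL [CommRing R] (h : γ → ℕ) : (Blk h → R) →ₗ[R] (Blk h → R) where
  toFun v := fun ci => if hi : 0 < (ci.2 : ℕ) then v ⟨ci.1, ⟨ci.2 - 1, by omega⟩⟩ else 0
  map_add' v w := by
    funext ci
    by_cases hi : 0 < (ci.2 : ℕ)
    · simp [hi]
    · simp [hi]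
  map_smul' r v := by
    funext ci
    by_cases hi : 0 < (ci.2 : ℕ)
    · simp [hi]
    · simp [hi]

variable [CommRing R] [Fintype I] [DecidableEq I]

/-- the map to `V` -/
def RM (σ : Shp I α β) (s : RSt R I α β) : Matrix (Blk σ.lam) I R := evM σ.lam s.2.1 s.1

/-- the map to `W` -/
def MM (σ : Shp I α β) (s : RSt R I α β) : Matrix (Blk σ.mu) I R := evM σ.mu s.2.2 s.1

/-- `Sig_j` -/
def SigM (σ : Shp I α β) (s : RSt R I α β) (j : ℕ) :
    Matrix ({p : I // j + 1 ≤ σ.deg p} ⊕ {a : α // j + 1 ≤ σ.lam a}) {q : I // j ≤ σ.deg q} R :=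
  fromRows (s.1.submatrix Subtype.val Subtype.val) (s.2.1.submatrix Subtype.val Subtype.val)

/-- `T_j` -/
def TM (σ : Shp I α β) (s : RSt R I α β) (j : ℕ) :
    Matrix {b : β // j + 1 ≤ σ.mu b} {q : I // σ.deg q = j} R :=
  of fun b q => (s.2.2 * s.1 ^ (σ.mu b.1 - 1 - j)) b.1 q.1

/-- base change -/
noncomputable def bc (s : RSt R I α β) (h : Matrix I I R) : RSt R I α β :=
  (h⁻¹ * s.1 * h, s.2.1 * h, s.2.2 * h)

/-- `h` preserves the degrees -/
def IsDg (σ : Shp I α β) (h : Matrix I I R) : Prop :=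
  ∀ p q, σ.deg p ≠ σ.deg q → h p q = 0

/-- scaling of the block `b` of `W` -/
def scT [DecidableEq β] (b : β) (f : R) (s : RSt R I α β) : RSt R I α β :=
  (s.1, s.2.1, of fun b' q => if b' = b then f * s.2.2 b' q else s.2.2 b' q)

/-- image of a state under a map of coefficients -/
def smap {R' : Type} (f : R → R') (s : RSt R I α β) : RSt R' I α β :=
  (s.1.map f, s.2.1.map f, s.2.2.map f)

/-- left invertible -/
def LInv {m n : Type} [Fintype m] [DecidableEq n] (M : Matrix m n R) : Prop :=
  ∃ Y : Matrix n m R, Y * M = 1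

/-- right invertible -/
def RInv {m n : Type} [Fintype n] [DecidableEq m] (M : Matrix m n R) : Prop :=
  ∃ Y : Matrix n m R, M * Y = 1

/-- the determinant of a matrix with equally many rows and columns (up to sign) -/
noncomputable def gdet {m n : Type} [Fintype m] [Fintype n] [DecidableEq n]
    (M : Matrix m n R) : R :=
  if h : Fintype.card n = Fintype.card m then
    (M.submatrix (Fintype.equivOfCardEq h) id).det else 0

/-- the level `j` (`k = j + 1`) is doubly saturated and carries a unit condition -/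
def Sat [Fintype α] [Fintype β] (σ : Shp I α β) (j : ℕ) : Prop :=
  Fintype.card {a : α // j + 1 ≤ σ.lam a} = Fintype.card {q : I // σ.deg q = j} ∧
  Fintype.card {b : β // j + 1 ≤ σ.mu b} = Fintype.card {q : I // σ.deg q = j} ∧
  ∃ b : β, σ.mu b = j + 1

end defs

end Pool.Agent.DEC
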