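import Pool.Agent.DEC.StateFrame
import Pool.Agent.DEC.State

/-!
# MP_59dda0_an, DEC, module ST5: from a `y`-stable graph to an integral state

`dec_general.md`, section 6 (a).
-/

set_option autoImplicit false
set_option linter.unusedSectionVars false

open Matrix

namespace Pool.Agent.DEC

section yL

variable {R γ : Type} [CommRing R]

theorem yL_apply (h : γ → ℕ) (v : Blk h → R) (ci : Blk h) :
    yL h v ci = if hi : 0 < (ci.2 : ℕ) then v ⟨ci.1, ⟨ci.2 - 1, by omega⟩⟩ else 0 := rfl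

theorem yL_pow_apply (h : γ → ℕ) (k : ℕ) (v : Blk h → R) (ci : Blk h) :
    ((yL h) ^ k) v ci =
      if hi : k ≤ (ci.2 : ℕ) then v ⟨ci.1, ⟨ci.2 - k, by omega⟩⟩ else 0 := by
  induction k generalizing ci with
  | zero => simp
  | succ k ih =>
    rw [pow_succ', Module.End.mul_apply, yL_apply]
    by_cases h0 : 0 < (ci.2 : ℕ)
    · rw [dif_pos h0, ih]
      by_cases h1 : k + 1 ≤ (ci.2 : ℕ)
      · rw [dif_pos h1, dif_pos (show k ≤ (ci.2 : ℕ) - 1 by omega)]
        congr 3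
        show (ci.2 : ℕ) - 1 - k = ci.2 - (k + 1)
        omega
      · rw [dif_neg h1, dif_neg (show ¬ k ≤ (ci.2 : ℕ) - 1 by omega)]
    · rw [dif_neg h0, dif_neg (by omega)]

end yL

section

variable {Λ K : Type} [CommRing Λ] [IsDomain Λ] [IsNoetherianRing Λ] [Field K] [Algebra Λ K]
  [IsFractionRing Λ K] {α β : Type} [Fintype α] [Fintype β]

/-- vectors with integral coordinates -/
def intL (Λ K : Type) [CommRing Λ] [Field K] [Algebra Λ K] (X Y : Type) :
    Submodule Λ ((X → K) × (Y → K)) where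
  carrier := {z | (∀ x, ∃ c : Λ, algebraMap Λ K c = z.1 x) ∧ ∀ x, ∃ c : Λ, algebraMap Λ K c = z.2 x}
  add_mem' := by
    rintro z w ⟨h1, h2⟩ ⟨h3, h4⟩
    refine ⟨fun x => ?_, fun x => ?_⟩
    · obtain ⟨c, hc⟩ := h1 x
      obtain ⟨c', hc'⟩ := h3 x
      exact ⟨c + c', by rw [map_add, hc, hc']; rfl⟩
    · obtain ⟨c, hc⟩ := h2 x
      obtain ⟨c', hc'⟩ := h4 x
      exact ⟨c + c', by rw [map_add, hc, hc']; rfl⟩
  zero_mem' := ⟨fun x => ⟨0, by rw [map_zero]; rfl⟩, fun x => ⟨0, by rw [map_zero]; rfl⟩⟩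
  smul_mem' := by
    rintro a z ⟨h1, h2⟩
    refine ⟨fun x => ?_, fun x => ?_⟩
    · obtain ⟨c, hc⟩ := h1 x
      exact ⟨a * c, by rw [map_mul, hc]; exact (Algebra.smul_def a (z.1 x)).symm⟩
    · obtain ⟨c, hc⟩ := h2 x
      exact ⟨a * c, by rw [map_mul, hc]; exact (Algebra.smul_def a (z.2 x)).symm⟩

theorem mem_intL {X Y : Type} {z : (X → K) × (Y → K)} :
    z ∈ intL Λ K X Y ↔
      (∀ x, ∃ c : Λ, algebraMap Λ K c = z.1 x) ∧ ∀ x, ∃ c : Λ, algebraMap Λ K c = z.2 x := Iff.rfl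

theorem intL_fg (X Y : Type) [Finite X] [Finite Y] : (intL Λ K X Y).FG := by
  classical
  have := Fintype.ofFinite X
  have := Fintype.ofFinite Y
  let f : ((X → Λ) × (Y → Λ)) →ₗ[Λ] ((X → K) × (Y → K)) :=
    { toFun := fun z => (fun x => algebraMap Λ K (z.1 x), fun x => algebraMap Λ K (z.2 x))
      map_add' := fun z w => by
        ext x
        · exact map_add _ _ _
        · exact map_add _ _ _
      map_smul' := fun a z => by
        ext x
        · show algebraMap Λ K (a * z.1 x) = a • algebraMap Λ K (z.1 x)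
          rw [map_mul, Algebra.smul_def]
        · show algebraMap Λ K (a * z.2 x) = a • algebraMap Λ K (z.2 x)
          rw [map_mul, Algebra.smul_def] }
  have h : intL Λ K X Y = LinearMap.range f := by
    ext z
    constructor
    · rintro ⟨h1, h2⟩
      choose c hc using h1
      choose c' hc' using h2
      exact ⟨(c, c'), Prod.ext (funext hc) (funext hc')⟩
    · rintro ⟨c, rfl⟩
      exact ⟨fun x => ⟨c.1 x, rfl⟩, fun x => ⟨c.2 x, rfl⟩⟩
  rw [h, LinearMap.range_eq_map]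
  exact Submodule.FG.map f Module.Finite.fg_top

/-- **ST5**: a `y`-stable subspace is the image of an integral state with good denominators -/
theorem exists_state_of_pow {lam : α → ℕ} {mu : β → ℕ} {Q n : Λ} (hQ : QPrin Λ Q) (hn : Q ∣ n)
    (hn0 : n ≠ 0) {e : ℕ} (E : Submodule K ((Blk lam → K) × (Blk mu → K)))
    (hE : ∀ z ∈ E, (yL lam z.1, yL mu z.2) ∈ E)
    (hpow : ∀ z ∈ E, ((yL lam) ^ e) z.1 = 0 ∧ ((yL mu) ^ e) z.2 = 0) :
    ∃ (N : ℕ) (deg : Fin N → ℕ) (s : RSt Λ (Fin N) α β),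
      IsSt ⟨deg, lam, mu⟩ s ∧ (∀ q, deg q < e) ∧ N = Module.finrank K E ∧
      (∀ z : Fin N → K, RM ⟨deg, lam, mu⟩ (smap (algebraMap Λ K) s) *ᵥ z = 0 →
        MM ⟨deg, lam, mu⟩ (smap (algebraMap Λ K) s) *ᵥ z = 0 → z = 0) ∧
      (∀ w, w ∈ E ↔ ∃ z : Fin N → K, w = (RM ⟨deg, lam, mu⟩ (smap (algebraMap Λ K) s) *ᵥ z,
        MM ⟨deg, lam, mu⟩ (smap (algebraMap Λ K) s) *ᵥ z)) ∧
      ∀ z : Fin N → K,
        (∀ x, ∃ c : Λ, algebraMap Λ K c =
          (RM ⟨deg, lam, mu⟩ (smap (algebraMap Λ K) s) *ᵥ z) x) →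
        (∀ x, ∃ c : Λ, algebraMap Λ K c =
          (MM ⟨deg, lam, mu⟩ (smap (algebraMap Λ K) s) *ᵥ z) x) →
        ∀ q, ∃ c : Λ, algebraMap Λ K c = algebraMap Λ K n ^ (N * (e + 1)) * z q := by
  classical
  let y : ((Blk lam → K) × (Blk mu → K)) →ₗ[K] ((Blk lam → K) × (Blk mu → K)) :=
    (yL lam).prodMap (yL mu)
  have hypow : ∀ (k : ℕ) (z : (Blk lam → K) × (Blk mu → K)),
      (y ^ k) z = (((yL lam) ^ k) z.1, ((yL mu) ^ k) z.2) := by
    intro k z
    induction k with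
    | zero => rfl
    | succ k ih => rw [pow_succ', Module.End.mul_apply, ih, pow_succ', pow_succ']; rfl
  have hLy : ∀ z ∈ intL Λ K (Blk lam) (Blk mu), y z ∈ intL Λ K (Blk lam) (Blk mu) := by
    rintro z ⟨h1, h2⟩
    refine ⟨fun x => ?_, fun x => ?_⟩
    · show ∃ c : Λ, algebraMap Λ K c = yL lam z.1 x
      rw [yL_apply]
      split_ifs with h
      · exact h1 _
      · exact ⟨0, map_zero _⟩
    · show ∃ c : Λ, algebraMap Λ K c = yL mu z.2 x
      rw [yL_apply]
      split_ifs with h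
      · exact h2 _
      · exact ⟨0, map_zero _⟩
  have hLs : ∀ z : (Blk lam → K) × (Blk mu → K), ∃ a : Λ, a ≠ 0 ∧
      a • z ∈ intL Λ K (Blk lam) (Blk mu) := by
    intro z
    obtain ⟨a, ha⟩ := IsLocalization.exist_integer_multiples_of_finite (nonZeroDivisors Λ)
      (fun x : Blk lam ⊕ Blk mu => Sum.elim z.1 z.2 x)
    refine ⟨a, nonZeroDivisors.coe_ne_zero a, fun x => ?_, fun x => ?_⟩
    · exact ha (Sum.inl x)
    · exact ha (Sum.inr x)
  have he : ∀ z ∈ E, (y ^ e) z = 0 := by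
    intro z hz
    rw [hypow, (hpow z hz).1, (hpow z hz).2]
    rfl
  obtain ⟨r, b, C, hbL, hbE, hind, hspan, hy, hC, hB⟩ := exists_state_frame (K := K) hQ hn hn0
    (intL_fg (Λ := Λ) (K := K) (Blk lam) (Blk mu)) hLy hLs hE e he
  -- reindexing
  let N : ℕ := Fintype.card (Σ j : Fin e, Fin (r j))
  have hN : ∑ j, r j = N := by
    show _ = Fintype.card (Σ j : Fin e, Fin (r j))
    rw [Fintype.card_sigma]
    simp
  let ε : Fin N ≃ (Σ j : Fin e, Fin (r j)) := (Fintype.equivFin _).symm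
  choose rh hrh using fun q => (mem_intL.1 (hbL q)).1
  choose ta hta using fun q => (mem_intL.1 (hbL q)).2
  let deg : Fin N → ℕ := fun q => (ε q).1
  let s : RSt Λ (Fin N) α β :=
    (of fun p q => C (ε p) (ε q),
     of fun a q => if h : 0 < lam a then rh (ε q) ⟨a, ⟨lam a - 1, by omega⟩⟩ else 0,
     of fun a q => if h : 0 < mu a then ta (ε q) ⟨a, ⟨mu a - 1, by omega⟩⟩ else 0)
  have hinj : Function.Injective (algebraMap Λ K) := FaithfulSMul.algebraMap_injective Λ K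
  -- support
  have hst : IsSt ⟨deg, lam, mu⟩ s := by
    refine ⟨?_, ?_, ?_⟩
    · intro p q hpq
      by_contra h
      have := hC _ _ h
      have h2 : ((ε q).1 : ℕ) < ((ε p).1 : ℕ) := this
      have h3 : ((ε p).1 : ℕ) ≤ ((ε q).1 : ℕ) := hpq
      omega
    · intro a q haq
      show (if h : 0 < lam a then rh (ε q) ⟨a, ⟨lam a - 1, by omega⟩⟩ else 0) = 0
      split_ifs with h
      · apply hinj
        rw [hrh, map_zero]
        obtain ⟨w, -, hw⟩ := hbE (ε q)
        rw [← hw, hypow]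
        show ((yL lam) ^ ((ε q).1 : ℕ)) w.1 _ = 0
        rw [yL_pow_apply, dif_neg]
        have h3 : lam a ≤ ((ε q).1 : ℕ) := haq
        show ¬ ((ε q).1 : ℕ) ≤ lam a - 1
        omega
      · rfl
    · intro a q haq
      show (if h : 0 < mu a then ta (ε q) ⟨a, ⟨mu a - 1, by omega⟩⟩ else 0) = 0
      split_ifs with h
      · apply hinj
        rw [hta, map_zero]
        obtain ⟨w, -, hw⟩ := hbE (ε q)
        rw [← hw, hypow]
        show ((yL mu) ^ ((ε q).1 : ℕ)) w.2 _ = 0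
        rw [yL_pow_apply, dif_neg]
        have h3 : mu a ≤ ((ε q).1 : ℕ) := haq
        show ¬ ((ε q).1 : ℕ) ≤ mu a - 1
        omega
      · rfl
  -- powers of `y` in the frame
  have hyk : ∀ (k : ℕ) (q : Fin N),
      (y ^ k) (b (ε q)) = ∑ p, (s.1 ^ k) p q • b (ε p) := by
    intro k
    induction k with
    | zero =>
      intro q
      rw [pow_zero, Module.End.one_apply, pow_zero, Finset.sum_eq_single q]
      · rw [one_apply_eq, one_smul]
      · intro p _ hp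
        rw [one_apply_ne hp, zero_smul]
      · intro h; exact absurd (Finset.mem_univ _) h
    | succ k ih =>
      intro q
      rw [pow_succ, Module.End.mul_apply, hy, map_sum]
      have h1 : ∀ p, (y ^ k) (C p (ε q) • b p) = ∑ p', (C p (ε q) * (s.1 ^ k) p' (ε.symm p)) •
          b (ε p') := by
        intro p
        rw [← algebraMap_smul K, map_smul, algebraMap_smul]
        have := ih (ε.symm p)
        rw [Equiv.apply_symm_apply] at this
        rw [this, Finset.smul_sum]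
        exact Finset.sum_congr rfl fun p' _ => smul_smul _ _ _
      simp only [h1]
      rw [Finset.sum_comm]
      refine Finset.sum_congr rfl fun p' _ => ?_
      rw [← Finset.sum_smul]
      congr 1
      rw [pow_succ, mul_apply, ← Equiv.sum_comp ε]
      refine Finset.sum_congr rfl fun p _ => ?_
      rw [Equiv.symm_apply_apply, mul_comm]
      rfl
  have hmapC : ∀ k : ℕ, (s.1.map (algebraMap Λ K)) ^ k = (s.1 ^ k).map (algebraMap Λ K) := by
    intro k
    exact (Matrix.map_pow _ (algebraMap Λ K) k).symm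
  have hRM : ∀ (x : Blk lam) (q : Fin N),
      RM ⟨deg, lam, mu⟩ (smap (algebraMap Λ K) s) x q = (b (ε q)).1 x := by
    intro x q
    obtain ⟨a, i⟩ := x
    have hi := i.2
    have h1 := congrArg (fun z : (Blk lam → K) × (Blk mu → K) =>
      z.1 ⟨a, ⟨lam a - 1, by omega⟩⟩) (hyk (lam a - 1 - i) q)
    simp only [hypow, Prod.fst_sum, Finset.sum_apply] at h1
    rw [yL_pow_apply, dif_pos (show lam a - 1 - (i : ℕ) ≤ lam a - 1 by omega)] at h1
    have h2 : (⟨a, ⟨lam a - 1 - (lam a - 1 - (i : ℕ)), by omega⟩⟩ : Blk lam) = ⟨a, i⟩ := by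
      congr 2
      omega
    have h3 : (b (ε q)).1 ⟨a, i⟩ = ∑ p, algebraMap Λ K ((s.1 ^ (lam a - 1 - (i : ℕ))) p q) *
        (b (ε p)).1 ⟨a, ⟨lam a - 1, by omega⟩⟩ := by
      rw [← h2]
      refine h1.trans (Finset.sum_congr rfl fun p _ => ?_)
      exact Algebra.smul_def _ _
    rw [h3]
    show ((smap (algebraMap Λ K) s).2.1 * (smap (algebraMap Λ K) s).1 ^ (lam a - 1 - (i : ℕ))) a q
      = _
    rw [mul_apply]
    refine Finset.sum_congr rfl fun p _ => ?_
    have h4 : (smap (algebraMap Λ K) s).2.1 a p = (b (ε p)).1 ⟨a, ⟨lam a - 1, by omega⟩⟩ := by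
      show algebraMap Λ K (if h : 0 < lam a then rh (ε p) ⟨a, ⟨lam a - 1, by omega⟩⟩ else 0) = _
      rw [dif_pos (by omega), hrh]
    have h5 : (smap (algebraMap Λ K) s).1 ^ (lam a - 1 - (i : ℕ)) =
        (s.1 ^ (lam a - 1 - (i : ℕ))).map (algebraMap Λ K) := hmapC _
    rw [h4, h5, map_apply, mul_comm]
  have hMM : ∀ (x : Blk mu) (q : Fin N),
      MM ⟨deg, lam, mu⟩ (smap (algebraMap Λ K) s) x q = (b (ε q)).2 x := by
    intro x q
    obtain ⟨a, i⟩ := x
    have hi := i.2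
    have h1 := congrArg (fun z : (Blk lam → K) × (Blk mu → K) =>
      z.2 ⟨a, ⟨mu a - 1, by omega⟩⟩) (hyk (mu a - 1 - i) q)
    simp only [hypow, Prod.snd_sum, Finset.sum_apply] at h1
    rw [yL_pow_apply, dif_pos (show mu a - 1 - (i : ℕ) ≤ mu a - 1 by omega)] at h1
    have h2 : (⟨a, ⟨mu a - 1 - (mu a - 1 - (i : ℕ)), by omega⟩⟩ : Blk mu) = ⟨a, i⟩ := by
      congr 2
      omega
    have h3 : (b (ε q)).2 ⟨a, i⟩ = ∑ p, algebraMap Λ K ((s.1 ^ (mu a - 1 - (i : ℕ))) p q) *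
        (b (ε p)).2 ⟨a, ⟨mu a - 1, by omega⟩⟩ := by
      rw [← h2]
      refine h1.trans (Finset.sum_congr rfl fun p _ => ?_)
      exact Algebra.smul_def _ _
    rw [h3]
    show ((smap (algebraMap Λ K) s).2.2 * (smap (algebraMap Λ K) s).1 ^ (mu a - 1 - (i : ℕ))) a q
      = _
    rw [mul_apply]
    refine Finset.sum_congr rfl fun p _ => ?_
    have h4 : (smap (algebraMap Λ K) s).2.2 a p = (b (ε p)).2 ⟨a, ⟨mu a - 1, by omega⟩⟩ := by
      show algebraMap Λ K (if h : 0 < mu a then ta (ε p) ⟨a, ⟨mu a - 1, by omega⟩⟩ else 0) = _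
      rw [dif_pos (by omega), hta]
    have h5 : (smap (algebraMap Λ K) s).1 ^ (mu a - 1 - (i : ℕ)) =
        (s.1 ^ (mu a - 1 - (i : ℕ))).map (algebraMap Λ K) := hmapC _
    rw [h4, h5, map_apply, mul_comm]
  have hPhi : ∀ z : Fin N → K, ((RM ⟨deg, lam, mu⟩ (smap (algebraMap Λ K) s) *ᵥ z,
      MM ⟨deg, lam, mu⟩ (smap (algebraMap Λ K) s) *ᵥ z) : (Blk lam → K) × (Blk mu → K)) =
      ∑ q, z q • b (ε q) := by
    intro z
    refine Prod.ext (funext fun x => ?_) (funext fun x => ?_)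
    · show (RM ⟨deg, lam, mu⟩ (smap (algebraMap Λ K) s) *ᵥ z) x = (∑ q, z q • b (ε q)).1 x
      rw [Prod.fst_sum, Finset.sum_apply]
      show ∑ q, RM ⟨deg, lam, mu⟩ (smap (algebraMap Λ K) s) x q * z q = _
      refine Finset.sum_congr rfl fun q _ => ?_
      rw [hRM, mul_comm]
      rfl
    · show (MM ⟨deg, lam, mu⟩ (smap (algebraMap Λ K) s) *ᵥ z) x = (∑ q, z q • b (ε q)).2 x
      rw [Prod.snd_sum, Finset.sum_apply]
      show ∑ q, MM ⟨deg, lam, mu⟩ (smap (algebraMap Λ K) s) x q * z q = _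
      refine Finset.sum_congr rfl fun q _ => ?_
      rw [hMM, mul_comm]
      rfl
  have hindε : LinearIndependent K (fun q => b (ε q)) := hind.comp ε ε.injective
  have hspanε : Submodule.span K (Set.range fun q => b (ε q)) = E := by
    rw [← hspan]
    congr 1
    exact ε.surjective.range_comp b
  refine ⟨N, deg, s, hst, fun q => (ε q).1.2, ?_, ?_, ?_, ?_⟩
  · have h1 := finrank_span_eq_card hindε
    rw [hspanε, Fintype.card_fin] at h1
    exact h1.symm
  · intro z h1 h2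
    have h3 := hPhi z
    rw [h1, h2] at h3
    funext q
    exact Fintype.linearIndependent_iff.1 hindε z h3.symm q
  · intro w
    constructor
    · intro hw
      rw [← hspanε, Submodule.mem_span_range_iff_exists_fun] at hw
      obtain ⟨z, hz⟩ := hw
      exact ⟨z, by rw [hPhi, hz]⟩
    · rintro ⟨z, rfl⟩
      rw [hPhi, ← hspanε, Submodule.mem_span_range_iff_exists_fun]
      exact ⟨z, rfl⟩
  · intro z h1 h2 q
    have hzE : (∑ q, z q • b (ε q)) ∈ E := by
      rw [← hspanε, Submodule.mem_span_range_iff_exists_fun]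
      exact ⟨z, rfl⟩
    have hzL : (∑ q, z q • b (ε q)) ∈ intL Λ K (Blk lam) (Blk mu) := by
      rw [← hPhi]
      exact ⟨h1, h2⟩
    obtain ⟨c, hc⟩ := hB _ hzE hzL
    rw [hN] at hc
    refine ⟨c (ε q), ?_⟩
    have h3 : ∑ q, (algebraMap Λ K n ^ (N * (e + 1)) * z q - algebraMap Λ K (c (ε q))) •
        b (ε q) = 0 := by
      simp only [sub_smul, Finset.sum_sub_distrib]
      rw [sub_eq_zero]
      have h4 : ∑ q, (algebraMap Λ K n ^ (N * (e + 1)) * z q) • b (ε q) =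
          n ^ (N * (e + 1)) • ∑ q, z q • b (ε q) := by
        rw [Finset.smul_sum]
        refine Finset.sum_congr rfl fun q _ => ?_
        rw [← algebraMap_smul K (n ^ (N * (e + 1))), smul_smul, map_pow]
      rw [h4, hc, ← Equiv.sum_comp ε]
      refine Finset.sum_congr rfl fun q _ => ?_
      rw [algebraMap_smul]
    have h5 := Fintype.linearIndependent_iff.1 hindε _ h3 q
    exact (sub_eq_zero.1 h5).symm

/-- **ST5** with bounded heights -/
theorem exists_state {lam : α → ℕ} {mu : β → ℕ} {Q n : Λ} (hQ : QPrin Λ Q) (hn : Q ∣ n)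
    (hn0 : n ≠ 0) {e : ℕ} (hlam : ∀ a, lam a ≤ e) (hmu : ∀ b, mu b ≤ e)
    (E : Submodule K ((Blk lam → K) × (Blk mu → K)))
    (hE : ∀ z ∈ E, (yL lam z.1, yL mu z.2) ∈ E) :
    ∃ (N : ℕ) (deg : Fin N → ℕ) (s : RSt Λ (Fin N) α β),
      IsSt ⟨deg, lam, mu⟩ s ∧ (∀ q, deg q < e) ∧ N = Module.finrank K E ∧
      (∀ z : Fin N → K, RM ⟨deg, lam, mu⟩ (smap (algebraMap Λ K) s) *ᵥ z = 0 →
        MM ⟨deg, lam, mu⟩ (smap (algebraMap Λ K) s) *ᵥ z = 0 → z = 0) ∧
      (∀ w, w ∈ E ↔ ∃ z : Fin N → K, w = (RM ⟨deg, lam, mu⟩ (smap (algebraMap Λ K) s) *ᵥ z,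
        MM ⟨deg, lam, mu⟩ (smap (algebraMap Λ K) s) *ᵥ z)) ∧
      ∀ z : Fin N → K,
        (∀ x, ∃ c : Λ, algebraMap Λ K c =
          (RM ⟨deg, lam, mu⟩ (smap (algebraMap Λ K) s) *ᵥ z) x) →
        (∀ x, ∃ c : Λ, algebraMap Λ K c =
          (MM ⟨deg, lam, mu⟩ (smap (algebraMap Λ K) s) *ᵥ z) x) →
        ∀ q, ∃ c : Λ, algebraMap Λ K c = algebraMap Λ K n ^ (N * (e + 1)) * z q := by
  refine exists_state_of_pow hQ hn hn0 E hE fun z _ => ⟨?_, ?_⟩
  · ext x
    show ((yL lam) ^ e) z.1 x = 0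
    rw [yL_pow_apply, dif_neg]
    have := x.2.2; have := hlam x.1; omega
  · ext x
    show ((yL mu) ^ e) z.2 x = 0
    rw [yL_pow_apply, dif_neg]
    have := x.2.2; have := hmu x.1; omega

end

end Pool.Agent.DEC
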