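import Pool.Agent.DEC.Core
import Pool.Agent.DEC.MF
import Pool.Agent.DEC.DenInst
import Pool.Agent.DEC.StateOf

/-!
# DEC: the rational form of a reference datum

For one half `(P, P')` of a reference datum (`Half`) and the fields `K i` of fractions of
`Lam (g i)`:
* `ioM` : the embedding of the integral vectors;
* `xE` : `x = θ + y` as a `ℚ`-linear automorphism;
* `PK : (∀ i, Blk (lam i) → K i) ≃ₗ[ℚ] evRange A` extends `P` and carries `x` to `A`;
* `GQ` : the dimension group in these coordinates, `lamT ⊆ GQ ⊆ Δ⁻¹ lamT`, `LFG`.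
-/

set_option autoImplicit false
set_option linter.unusedSectionVars false

open Matrix Polynomial
open Pool.Agent.FT (toQ evRange dimGroup evRange_inj pow_mem_evRange mem_evRange)

namespace Pool.Agent.DEC

namespace RefQ

/-- extension of an additive map to `ℚ` -/
theorem exists_ext {E L G : Type*} [AddCommGroup E] [Module ℚ E] [AddCommGroup L]
    [AddCommGroup G] [Module ℚ G] (ι : L →+ E) (hι : Function.Injective ι)
    (hden : ∀ v : E, ∃ m : ℕ, m ≠ 0 ∧ ∃ w, m • v = ι w) (φ : L →+ G) :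
    ∃ Φ : E →ₗ[ℚ] G, ∀ w, Φ (ι w) = φ w := by
  choose d hd num hnum using hden
  have key : ∀ (v : E) (m : ℕ) (w : L), m ≠ 0 → m • v = ι w →
      ((d v : ℚ))⁻¹ • φ (num v) = ((m : ℚ))⁻¹ • φ w := by
    intro v m w hm h
    have h1 : m • num v = d v • w := by
      apply hι
      rw [map_nsmul, map_nsmul, ← hnum, ← h, smul_comm]
    have h2 := congrArg φ h1
    rw [map_nsmul, map_nsmul, ← Nat.cast_smul_eq_nsmul ℚ, ← Nat.cast_smul_eq_nsmul ℚ] at h2
    have hm' : (m : ℚ) ≠ 0 := by exact_mod_cast hm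
    have hd' : (d v : ℚ) ≠ 0 := by exact_mod_cast hd v
    rw [inv_smul_eq_iff₀ hd', smul_comm, eq_inv_smul_iff₀ hm']
    exact h2
  have hadd : ∀ v w : E, ((d (v + w) : ℚ))⁻¹ • φ (num (v + w)) =
      ((d v : ℚ))⁻¹ • φ (num v) + ((d w : ℚ))⁻¹ • φ (num w) := by
    intro v w
    have hv' : (d v : ℚ) ≠ 0 := by exact_mod_cast hd v
    have hw' : (d w : ℚ) ≠ 0 := by exact_mod_cast hd w
    rw [key (v + w) (d v * d w) (d w • num v + d v • num w) (mul_ne_zero (hd v) (hd w)) (by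
      rw [map_add, map_nsmul, map_nsmul, ← hnum, ← hnum, smul_add, smul_smul, smul_smul,
        mul_comm (d w) (d v)])]
    rw [map_add, map_nsmul, map_nsmul, smul_add, ← Nat.cast_smul_eq_nsmul ℚ,
      ← Nat.cast_smul_eq_nsmul ℚ, smul_smul, smul_smul]
    congr 2
    · push_cast
      field_simp
    · push_cast
      field_simp
  refine ⟨(AddMonoidHom.mk' (fun v => ((d v : ℚ))⁻¹ • φ (num v)) hadd).toRatLinearMap, ?_⟩
  intro w
  change ((d (ι w) : ℚ))⁻¹ • φ (num (ι w)) = φ w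
  rw [key (ι w) 1 w one_ne_zero (one_smul _ _)]
  simp

theorem ext_rat {E L G : Type*} [AddCommGroup E] [Module ℚ E] [AddCommGroup L]
    [AddCommGroup G] [Module ℚ G] (ι : L → E)
    (hden : ∀ v : E, ∃ m : ℕ, m ≠ 0 ∧ ∃ w, m • v = ι w) {Φ Ψ : E →ₗ[ℚ] G}
    (h : ∀ w, Φ (ι w) = Ψ (ι w)) : Φ = Ψ := by
  ext v
  obtain ⟨m, hm, w, hw⟩ := hden v
  have h1 := h w
  rw [← hw, map_nsmul, map_nsmul] at h1
  exact nsmul_cancel hm h1

/-! ### the rings -/

theorem isDomain_lam {g : ℤ[X]} (h : Irreducible g) : IsDomain (Lam g) :=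
  AdjoinRoot.isDomain_of_prime h.prime

theorem root_ne {g : ℤ[X]} (hm : g.Monic) (hirr : Irreducible g) (h0 : g.coeff 0 ≠ 0) :
    AdjoinRoot.root g ≠ 0 := by
  intro h
  have h1 : AdjoinRoot.mk g X = 0 := by rw [AdjoinRoot.mk_X]; exact h
  rw [AdjoinRoot.mk_eq_zero] at h1
  have h2 : g ∣ X := h1
  have h3 : g.natDegree ≤ 1 := by
    have := Polynomial.natDegree_le_of_dvd h2 X_ne_zero
    simpa using this
  have h4 : g ≠ 1 := fun h => hirr.not_isUnit (h ▸ isUnit_one)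
  have h5 : g.natDegree = 1 := by
    rcases Nat.lt_or_ge g.natDegree 1 with h6 | h6
    · exfalso
      apply h4
      exact (Polynomial.Monic.natDegree_eq_zero hm).1 (by omega)
    · omega
  obtain ⟨q, hq⟩ := h2
  have h6 : (X : ℤ[X]).coeff 0 = g.coeff 0 * q.coeff 0 := by rw [hq, mul_coeff_zero]
  rw [coeff_X_zero] at h6
  have h7 : q.coeff 0 = 0 := by
    rcases mul_eq_zero.1 h6.symm with h8 | h8
    · exact absurd h8 h0
    · exact h8
  have h8 : q.natDegree = 0 := by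
    have hq0 : q ≠ 0 := by
      rintro rfl
      rw [mul_zero] at hq
      exact X_ne_zero hq
    have := congrArg natDegree hq
    rw [natDegree_X, natDegree_mul hm.ne_zero hq0, h5] at this
    omega
  have h9 : q = 0 := by
    rw [eq_C_of_natDegree_eq_zero h8, h7, C_0]
  rw [h9, mul_zero] at hq
  exact X_ne_zero hq

/-! ### integral vectors -/

section io

variable {f : ℕ} {g : Fin f → ℤ[X]} (K : Fin f → Type) [∀ i, Field (K i)]
  [∀ i, Algebra (Lam (g i)) (K i)]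

/-- the embedding of the integral vectors -/
noncomputable def ioM {na : Fin f → ℕ} (lam : ∀ i, Fin (na i) → ℕ) :
    (∀ i, Blk (lam i) → Lam (g i)) →+ (∀ i, Blk (lam i) → K i) where
  toFun w := fun i c => algebraMap (Lam (g i)) (K i) (w i c)
  map_zero' := by
    funext i c
    simp
  map_add' v w := by
    funext i c
    simp

variable {K}

theorem ioM_apply {na : Fin f → ℕ} {lam : ∀ i, Fin (na i) → ℕ}
    (w : ∀ i, Blk (lam i) → Lam (g i)) (i : Fin f) (c : Blk (lam i)) :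
    ioM K lam w i c = algebraMap (Lam (g i)) (K i) (w i c) := rfl

variable [∀ i, IsFractionRing (Lam (g i)) (K i)]

theorem ioM_injective {na : Fin f → ℕ} (lam : ∀ i, Fin (na i) → ℕ) :
    Function.Injective (ioM (g := g) K lam) := by
  intro v w h
  funext i c
  exact IsFractionRing.injective (Lam (g i)) (K i) (congrFun (congrFun h i) c)

theorem exists_den (hm : ∀ i, (g i).Monic) (hirr : ∀ i, Irreducible (g i)) {na : Fin f → ℕ}
    (lam : ∀ i, Fin (na i) → ℕ) (v : ∀ i, Blk (lam i) → K i) :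
    ∃ m : ℕ, m ≠ 0 ∧ ∃ w, m • v = ioM (g := g) K lam w := by
  have h1 : ∀ (i : Fin f) (c : Blk (lam i)), ∃ b : ℕ, b ≠ 0 ∧ ∃ a : Lam (g i),
      (b : K i) * v i c = algebraMap (Lam (g i)) (K i) a := by
    intro i c
    have := isDomain_lam (hirr i)
    have := (hm i).free_adjoinRoot
    have := (hm i).finite_adjoinRoot
    exact exists_nat_mul (Lam (g i)) (v i c)
  choose b hb a ha using h1
  refine ⟨∏ i, ∏ c, b i c, Finset.prod_ne_zero_iff.2 fun i _ => Finset.prod_ne_zero_iff.2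
    fun c _ => hb i c, ?_⟩
  have h2 : ∀ i c, ∃ e : ℕ, ∏ i, ∏ c, b i c = e * b i c := by
    intro i c
    obtain ⟨e, he⟩ := (Finset.dvd_prod_of_mem (b i) (Finset.mem_univ c)).trans
      (Finset.dvd_prod_of_mem (fun i => ∏ c, b i c) (Finset.mem_univ i))
    exact ⟨e, by rw [he, mul_comm]⟩
  choose e he using h2
  refine ⟨fun i c => (e i c : Lam (g i)) * a i c, ?_⟩
  funext i c
  rw [ioM_apply, map_mul, map_natCast, ← ha, ← mul_assoc, ← Nat.cast_mul, ← he]
  simp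

end io

/-! ### `x` is bijective -/

section xe

variable {F : Type} {K : F → Type} [∀ i, Field (K i)] [∀ i, Algebra ℚ (K i)] {γ : F → Type}

theorem xM_apply (θ : ∀ i, K i) (h : ∀ i, γ i → ℕ) (v : ∀ i, Blk (h i) → K i) (i : F)
    (c : Blk (h i)) : xM θ h v i c = θ i * v i c +
      if hi : 0 < (c.2 : ℕ) then v i ⟨c.1, ⟨c.2 - 1, by omega⟩⟩ else 0 := rfl

theorem xM_injective {θ : ∀ i, K i} (hθ : ∀ i, θ i ≠ 0) (h : ∀ i, γ i → ℕ) :
    Function.Injective (xM θ h) := by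
  rw [injective_iff_map_eq_zero]
  intro v hv
  funext i c
  obtain ⟨c, t, ht⟩ := c
  induction t with
  | zero =>
    have h1 := congrFun (congrFun hv i) ⟨c, ⟨0, ht⟩⟩
    rw [xM_apply, dif_neg (by simp), add_zero] at h1
    exact (mul_eq_zero.1 h1).resolve_left (hθ i)
  | succ t ih =>
    have h1 := congrFun (congrFun hv i) ⟨c, ⟨t + 1, ht⟩⟩
    rw [xM_apply, dif_pos (by simp)] at h1
    have h2 : v i ⟨c, ⟨t, by omega⟩⟩ = 0 := ih (by omega)
    have h3 : v i ⟨c, ⟨(⟨t + 1, ht⟩ : Fin (h i c)) - 1, by simp; omega⟩⟩ = 0 := h2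
    rw [h3, add_zero] at h1
    exact (mul_eq_zero.1 h1).resolve_left (hθ i)

/-- coordinates of a preimage under `x` -/
noncomputable def xInvC {K : Type} [Field K] (θ : K) {γ : Type} (h : γ → ℕ) (w : Blk h → K)
    (c : γ) : ∀ t : ℕ, t < h c → K
  | 0, ht => θ⁻¹ * w ⟨c, ⟨0, ht⟩⟩
  | t + 1, ht => θ⁻¹ * (w ⟨c, ⟨t + 1, ht⟩⟩ - xInvC θ h w c t (by omega))

theorem xM_surjective {θ : ∀ i, K i} (hθ : ∀ i, θ i ≠ 0) (h : ∀ i, γ i → ℕ) :
    Function.Surjective (xM θ h) := by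
  intro w
  refine ⟨fun i c => xInvC (θ i) (h i) (w i) c.1 c.2 c.2.2, ?_⟩
  funext i c
  obtain ⟨c, t, ht⟩ := c
  rw [xM_apply]
  cases t with
  | zero =>
    rw [dif_neg (by simp), add_zero]
    show θ i * ((θ i)⁻¹ * w i ⟨c, ⟨0, ht⟩⟩) = _
    rw [← mul_assoc, mul_inv_cancel₀ (hθ i), one_mul]
  | succ t =>
    rw [dif_pos (by simp)]
    show θ i * ((θ i)⁻¹ * (w i ⟨c, ⟨t + 1, ht⟩⟩ - xInvC (θ i) (h i) (w i) c t (by omega))) +
      xInvC (θ i) (h i) (w i) c t _ = _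
    rw [← mul_assoc, mul_inv_cancel₀ (hθ i), one_mul]
    ring

/-- `x = θ + y` as an automorphism -/
noncomputable def xE {θ : ∀ i, K i} (hθ : ∀ i, θ i ≠ 0) (h : ∀ i, γ i → ℕ) :
    (∀ i, Blk (h i) → K i) ≃ₗ[ℚ] (∀ i, Blk (h i) → K i) :=
  LinearEquiv.ofBijective (xM θ h) ⟨xM_injective hθ h, xM_surjective hθ h⟩

theorem xE_apply {θ : ∀ i, K i} (hθ : ∀ i, θ i ≠ 0) (h : ∀ i, γ i → ℕ)
    (v : ∀ i, Blk (h i) → K i) : xE hθ h v = xM θ h v := rfl

end xe

/-! ### one half of a reference datum -/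

/-- the vectors of rational numbers which are integral -/
def castV (a : ℕ) : (Fin a → ℤ) →+ (Fin a → ℚ) where
  toFun z := fun j => (z j : ℚ)
  map_zero' := by
    funext j
    simp
  map_add' v w := by
    funext j
    simp

theorem castV_injective (a : ℕ) : Function.Injective (castV a) := by
  intro v w h
  funext j
  have := congrFun h j
  exact Int.cast_injective this

theorem castV_den (a : ℕ) (v : Fin a → ℚ) : ∃ m : ℕ, m ≠ 0 ∧ ∃ w, m • v = castV a w := by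
  refine ⟨∏ j, (v j).den, Finset.prod_ne_zero_iff.2 fun j _ => (v j).den_nz, ?_⟩
  have h2 : ∀ j, ∃ e : ℕ, ∏ j, (v j).den = e * (v j).den := by
    intro j
    obtain ⟨e, he⟩ := Finset.dvd_prod_of_mem (fun j => (v j).den) (Finset.mem_univ j)
    exact ⟨e, by rw [he, mul_comm]⟩
  choose e he using h2
  refine ⟨fun j => (e j : ℤ) * (v j).num, ?_⟩
  funext j
  show (∏ j, (v j).den) • v j = (((e j : ℤ) * (v j).num : ℤ) : ℚ)
  rw [he j, nsmul_eq_mul]
  push_cast
  rw [mul_assoc, mul_comm ((v j).den : ℚ) (v j), Rat.mul_den_eq_num]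

theorem castV_vecMul {a : ℕ} (A : Matrix (Fin a) (Fin a) ℕ) (z : Fin a → ℤ) :
    castV a (z ᵥ* zM A) = castV a z ᵥ* toQ A := by
  funext j
  show ((∑ i, z i * zM A i j : ℤ) : ℚ) = ∑ i, (z i : ℚ) * toQ A i j
  push_cast
  refine Finset.sum_congr rfl fun i _ => ?_
  congr 1

theorem castV_vecMul_pow {a : ℕ} (A : Matrix (Fin a) (Fin a) ℕ) (z : Fin a → ℤ) (k : ℕ) :
    castV a (z ᵥ* zM A ^ k) = castV a z ᵥ* toQ A ^ k := by
  induction k with
  | zero => simp
  | succ k ih =>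
    rw [pow_succ, pow_succ, ← Matrix.vecMul_vecMul, ← Matrix.vecMul_vecMul, castV_vecMul, ih]

/-- one half of a reference datum -/
structure Half {a : ℕ} (A : Matrix (Fin a) (Fin a) ℕ) {f : ℕ} (g : Fin f → ℤ[X])
    {na : Fin f → ℕ} (lam : ∀ i, Fin (na i) → ℕ) (Δ : ℕ) where
  P : ∀ i, (Blk (lam i) → Lam (g i)) →ₗ[ℤ] (Fin a → ℤ)
  P' : ∀ i, (Fin a → ℤ) →ₗ[ℤ] (Blk (lam i) → Lam (g i))
  P_x : ∀ i v, P i (xL (AdjoinRoot.root (g i)) (lam i) v) = P i v ᵥ* zM A
  P_P : ∀ i v, P' i (P i v) = (Δ : ℤ) • v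
  P_ne : ∀ i j v, i ≠ j → P' j (P i v) = 0
  P_sp : ∀ v : Fin a → ℤ, ∑ i, P i (P' i (v ᵥ* zM A ^ a)) = (Δ : ℤ) • (v ᵥ* zM A ^ a)

section half

variable {a : ℕ} {A : Matrix (Fin a) (Fin a) ℕ} {f : ℕ} {g : Fin f → ℤ[X]}
    {na : Fin f → ℕ} {lam : ∀ i, Fin (na i) → ℕ} {Δ : ℕ} (H : Half A g lam Δ)

/-- the sum of the maps `P i` -/
noncomputable def Half.S : (∀ i, Blk (lam i) → Lam (g i)) →+ (Fin a → ℤ) where
  toFun w := ∑ i, H.P i (w i)
  map_zero' := by simp
  map_add' v w := by simp [Finset.sum_add_distrib]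

/-- the maps `P' i` together -/
noncomputable def Half.S' : (Fin a → ℤ) →+ (∀ i, Blk (lam i) → Lam (g i)) where
  toFun v := fun i => H.P' i v
  map_zero' := by
    funext i
    simp
  map_add' v w := by
    funext i
    simp

theorem Half.S'_S (w : ∀ i, Blk (lam i) → Lam (g i)) : H.S' (H.S w) = Δ • w := by
  funext i
  show H.P' i (∑ j, H.P j (w j)) = Δ • w i
  rw [map_sum, Finset.sum_eq_single i]
  · rw [H.P_P]
    simp
  · intro j _ hji
    exact H.P_ne j i (w j) hji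
  · intro h
    exact absurd (Finset.mem_univ i) h

theorem Half.S_S' (v : Fin a → ℤ) :
    H.S (H.S' (v ᵥ* zM A ^ a)) = Δ • (v ᵥ* zM A ^ a) := by
  have h := H.P_sp v
  rw [natCast_zsmul] at h
  exact h

variable (K : Fin f → Type) [∀ i, Field (K i)] [∀ i, Algebra ℚ (K i)]
  [∀ i, Algebra (Lam (g i)) (K i)] [∀ i, IsFractionRing (Lam (g i)) (K i)]

/-- the generators in the fields -/
noncomputable abbrev thK (g : Fin f → ℤ[X]) (K : Fin f → Type) [∀ i, Field (K i)]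
    [∀ i, Algebra (Lam (g i)) (K i)] (i : Fin f) : K i :=
  algebraMap (Lam (g i)) (K i) (AdjoinRoot.root (g i))

omit [∀ i, Algebra ℚ (K i)] in
theorem thK_ne (hm : ∀ i, (g i).Monic) (hirr : ∀ i, Irreducible (g i))
    (hg0 : ∀ i, (g i).coeff 0 ≠ 0) (i : Fin f) : thK g K i ≠ 0 := by
  rw [Ne, IsFractionRing.to_map_eq_zero_iff]
  exact root_ne (hm i) (hirr i) (hg0 i)

omit [∀ i, IsFractionRing (Lam (g i)) (K i)] in
theorem xM_ioM (w : ∀ i, Blk (lam i) → Lam (g i)) :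
    xM (thK g K) lam (ioM K lam w) =
      ioM K lam (fun i => xL (AdjoinRoot.root (g i)) (lam i) (w i)) := by
  funext i c
  rw [xM_apply, ioM_apply, ioM_apply]
  show _ = algebraMap (Lam (g i)) (K i) (AdjoinRoot.root (g i) * w i c +
    if hi : 0 < (c.2 : ℕ) then w i ⟨c.1, ⟨c.2 - 1, by omega⟩⟩ else 0)
  rw [map_add, map_mul]
  congr 1
  split_ifs with h
  · rfl
  · rw [map_zero]

/-- `P` over the fields -/
theorem Half.exists_PQ (hm : ∀ i, (g i).Monic) (hirr : ∀ i, Irreducible (g i)) :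
    ∃ Φ : (∀ i, Blk (lam i) → K i) →ₗ[ℚ] (Fin a → ℚ),
      ∀ w, Φ (ioM K lam w) = castV a (H.S w) :=
  exists_ext (ioM (g := g) K lam) (ioM_injective lam) (exists_den hm hirr lam)
    ((castV a).comp H.S)

omit [∀ i, IsFractionRing (Lam (g i)) (K i)] in
/-- `P'` over the fields -/
theorem Half.exists_PQ' :
    ∃ Φ : (Fin a → ℚ) →ₗ[ℚ] (∀ i, Blk (lam i) → K i),
      ∀ v, Φ (castV a v) = ioM K lam (H.S' v) :=
  exists_ext (castV a) (castV_injective a) (castV_den a) ((ioM K lam).comp H.S')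

/-- hypotheses on the polynomials -/
structure GP {f : ℕ} (g : Fin f → ℤ[X]) : Prop where
  m : ∀ i, (g i).Monic
  irr : ∀ i, Irreducible (g i)
  g0 : ∀ i, (g i).coeff 0 ≠ 0

variable (hg : GP g)

/-- `P` over the fields -/
noncomputable def Half.PQ : (∀ i, Blk (lam i) → K i) →ₗ[ℚ] (Fin a → ℚ) :=
  (H.exists_PQ K hg.m hg.irr).choose

theorem Half.PQ_io (w : ∀ i, Blk (lam i) → Lam (g i)) :
    H.PQ K hg (ioM K lam w) = castV a (H.S w) :=
  (H.exists_PQ K hg.m hg.irr).choose_spec w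

/-- `P'` over the fields -/
noncomputable def Half.PQ' : (Fin a → ℚ) →ₗ[ℚ] (∀ i, Blk (lam i) → K i) :=
  (H.exists_PQ' K).choose

theorem Half.PQ'_cast (v : Fin a → ℤ) : H.PQ' K (castV a v) = ioM K lam (H.S' v) :=
  (H.exists_PQ' K).choose_spec v

theorem Half.PQ_x (v : ∀ i, Blk (lam i) → K i) :
    H.PQ K hg (xM (thK g K) lam v) = H.PQ K hg v ᵥ* toQ A := by
  have h : (H.PQ K hg) ∘ₗ (xM (thK g K) lam) = (toQ A).vecMulLinear ∘ₗ (H.PQ K hg) := by
    apply ext_rat (ioM (g := g) K lam) (exists_den hg.m hg.irr lam)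
    intro w
    rw [LinearMap.comp_apply, LinearMap.comp_apply, xM_ioM, H.PQ_io, H.PQ_io]
    show _ = castV a (H.S w) ᵥ* toQ A
    rw [← castV_vecMul]
    congr 1
    show ∑ i, H.P i (xL (AdjoinRoot.root (g i)) (lam i) (w i)) = (∑ i, H.P i (w i)) ᵥ* zM A
    rw [Matrix.sum_vecMul]
    exact Finset.sum_congr rfl fun i _ => H.P_x i (w i)
  exact LinearMap.congr_fun h v

theorem Half.PQ'_PQ (v : ∀ i, Blk (lam i) → K i) :
    H.PQ' K (H.PQ K hg v) = (Δ : ℚ) • v := by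
  obtain ⟨m, hm0, w, hw⟩ := exists_den hg.m hg.irr lam v
  apply nsmul_cancel hm0
  rw [← map_nsmul, ← map_nsmul, hw, H.PQ_io, H.PQ'_cast, H.S'_S, map_nsmul, ← hw,
    Nat.cast_smul_eq_nsmul, smul_comm]

theorem Half.PQ_PQ' {v : Fin a → ℚ} (hv : v ∈ evRange A) :
    H.PQ K hg (H.PQ' K v) = (Δ : ℚ) • v := by
  obtain ⟨u, rfl⟩ := (mem_evRange A).1 hv
  have h : (H.PQ K hg) ∘ₗ (H.PQ' K) ∘ₗ (toQ A ^ a).vecMulLinear =
      (Δ : ℚ) • (toQ A ^ a).vecMulLinear := by
    apply ext_rat (castV a) (castV_den a)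
    intro w
    show H.PQ K hg (H.PQ' K (castV a w ᵥ* toQ A ^ a)) = (Δ : ℚ) • (castV a w ᵥ* toQ A ^ a)
    rw [← castV_vecMul_pow, H.PQ'_cast, H.PQ_io, H.S_S', map_nsmul, ← Nat.cast_smul_eq_nsmul ℚ]
  exact LinearMap.congr_fun h u

theorem Half.PQ_pow (v : ∀ i, Blk (lam i) → K i) (k : ℕ) :
    H.PQ K hg ((xM (thK g K) lam)^[k] v) = H.PQ K hg v ᵥ* toQ A ^ k := by
  induction k generalizing v with
  | zero => simp
  | succ k ih =>
    rw [Function.iterate_succ_apply, ih, H.PQ_x, Matrix.vecMul_vecMul, ← pow_succ']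

theorem Half.PQ_mem (v : ∀ i, Blk (lam i) → K i) : H.PQ K hg v ∈ evRange A := by
  have hs : Function.Surjective ((xM (thK g K) lam)^[a]) :=
    (xM_surjective (thK_ne K hg.m hg.irr hg.g0) lam).iterate a
  obtain ⟨v, rfl⟩ := hs v
  rw [H.PQ_pow]
  exact pow_mem_evRange A le_rfl _

variable (hΔ : 0 < Δ)

include hΔ in
theorem Half.PQ_injective : Function.Injective (H.PQ K hg) := by
  intro v w h
  have h1 := congrArg (H.PQ' K) h
  rw [H.PQ'_PQ, H.PQ'_PQ] at h1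
  exact smul_right_injective _ (by exact_mod_cast hΔ.ne' : (Δ : ℚ) ≠ 0) h1

/-- **the isomorphism with the eventual range** -/
noncomputable def Half.PE : (∀ i, Blk (lam i) → K i) ≃ₗ[ℚ] evRange A :=
  LinearEquiv.ofBijective ((H.PQ K hg).codRestrict (evRange A) (H.PQ_mem K hg)) (by
    constructor
    · intro v w h
      exact H.PQ_injective K hg hΔ (congrArg Subtype.val h)
    · rintro ⟨w, hw⟩
      refine ⟨(Δ : ℚ)⁻¹ • H.PQ' K w, Subtype.ext ?_⟩
      show H.PQ K hg ((Δ : ℚ)⁻¹ • H.PQ' K w) = w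
      rw [map_smul, H.PQ_PQ' K hg hw, smul_smul,
        inv_mul_cancel₀ (by exact_mod_cast hΔ.ne' : (Δ : ℚ) ≠ 0), one_smul])

theorem Half.PE_apply (v : ∀ i, Blk (lam i) → K i) :
    ((H.PE K hg hΔ v : evRange A) : Fin a → ℚ) = H.PQ K hg v := rfl

/-! ### the dimension group -/

/-- the dimension group as a subgroup -/
def dimAdd {a : ℕ} (A : Matrix (Fin a) (Fin a) ℕ) : AddSubgroup (Fin a → ℚ) where
  carrier := dimGroup A
  zero_mem' := ⟨(evRange A).zero_mem, 0, 0, by simp⟩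
  add_mem' := by
    rintro v w ⟨hv, k, z, hz⟩ ⟨hw, l, y, hy⟩
    have h1 : v ᵥ* toQ A ^ k = castV a z := funext hz
    have h2 : w ᵥ* toQ A ^ l = castV a y := funext hy
    refine ⟨(evRange A).add_mem hv hw, k + l, z ᵥ* zM A ^ l + y ᵥ* zM A ^ k, fun j => ?_⟩
    have h3 : (v + w) ᵥ* toQ A ^ (k + l) = castV a (z ᵥ* zM A ^ l + y ᵥ* zM A ^ k) := by
      rw [map_add, castV_vecMul_pow, castV_vecMul_pow, ← h1, ← h2, Matrix.vecMul_vecMul,
        Matrix.vecMul_vecMul, ← pow_add, ← pow_add, add_comm l k, Matrix.add_vecMul]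
    exact congrFun h3 j
  neg_mem' := by
    rintro v ⟨hv, k, z, hz⟩
    have h1 : v ᵥ* toQ A ^ k = castV a z := funext hz
    refine ⟨(evRange A).neg_mem hv, k, -z, fun j => ?_⟩
    have h3 : (-v) ᵥ* toQ A ^ k = castV a (-z) := by
      rw [map_neg, ← h1, Matrix.neg_vecMul]
    exact congrFun h3 j

theorem mem_dimAdd {a : ℕ} {A : Matrix (Fin a) (Fin a) ℕ} {v : Fin a → ℚ} :
    v ∈ dimAdd A ↔ v ∈ dimGroup A := Iff.rfl

/-- the dimension group in the coordinates -/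
noncomputable def Half.GQ : AddSubgroup (∀ i, Blk (lam i) → K i) :=
  (dimAdd A).comap (H.PQ K hg).toAddMonoidHom

theorem Half.mem_GQ {v : ∀ i, Blk (lam i) → K i} :
    v ∈ H.GQ K hg ↔ ∃ (k : ℕ) (z : Fin a → ℤ), H.PQ K hg v ᵥ* toQ A ^ k = castV a z := by
  constructor
  · rintro ⟨-, k, z, hz⟩
    exact ⟨k, z, funext hz⟩
  · rintro ⟨k, z, hz⟩
    exact ⟨H.PQ_mem K hg v, k, z, fun j => congrFun hz j⟩

omit [∀ i, Algebra ℚ (K i)] [∀ i, IsFractionRing (Lam (g i)) (K i)] in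
theorem mem_lamT {S K : Type} [CommRing S] [Field K] [Algebra S K] {θ : S} {x : K} :
    x ∈ lamT S K θ ↔ ∃ (h : ℕ) (s : S), algebraMap S K θ ^ h * x = algebraMap S K s := by
  constructor
  · rintro ⟨k, h, s, hs⟩
    exact ⟨h, s, by simpa using hs⟩
  · rintro ⟨h, s, hs⟩
    exact ⟨0, h, s, by simpa using hs⟩

/-- the rings `Lam (g i)[1/θ]` -/
noncomputable abbrev LT (g : Fin f → ℤ[X]) (K : Fin f → Type) [∀ i, Field (K i)]
    [∀ i, Algebra (Lam (g i)) (K i)] (i : Fin f) : Subring (K i) :=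
  lamT (Lam (g i)) (K i) (AdjoinRoot.root (g i))

omit [∀ i, Algebra ℚ (K i)] [∀ i, IsFractionRing (Lam (g i)) (K i)] in
theorem alg_mem_LT (i : Fin f) (s : Lam (g i)) : algebraMap (Lam (g i)) (K i) s ∈ LT g K i :=
  mem_lamT.2 ⟨0, s, by simp⟩

omit [∀ i, Algebra ℚ (K i)] in
theorem inv_mem_LT (i : Fin f) : (thK g K i)⁻¹ ∈ LT g K i := by
  by_cases h : thK g K i = 0
  · rw [h, _root_.inv_zero]
    exact (LT g K i).zero_mem
  · exact mem_lamT.2 ⟨1, 1, by rw [pow_one, map_one]; exact mul_inv_cancel₀ h⟩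

/-- `x w` in the ring implies `w` in the ring -/
theorem inR_of_xM {w : ∀ i, Blk (lam i) → K i} (h0 : ∀ i, thK g K i ≠ 0)
    (h : InR (LT g K) (xM (thK g K) lam w)) : InR (LT g K) w := by
  rintro i ⟨c, t, ht⟩
  induction t with
  | zero =>
    have h1 := h i ⟨c, ⟨0, ht⟩⟩
    rw [xM_apply, dif_neg (by simp), add_zero] at h1
    have h2 := (LT g K i).mul_mem (inv_mem_LT K i) h1
    rwa [← mul_assoc, inv_mul_cancel₀ (h0 i), one_mul] at h2
  | succ t ih =>
    have h1 := h i ⟨c, ⟨t + 1, ht⟩⟩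
    rw [xM_apply, dif_pos (by simp)] at h1
    have h3 : w i ⟨c, ⟨(⟨t + 1, ht⟩ : Fin (lam i c)) - 1, by simp; omega⟩⟩ ∈ LT g K i :=
      ih (by omega)
    have h4 := (LT g K i).sub_mem h1 h3
    rw [add_sub_cancel_right] at h4
    have h2 := (LT g K i).mul_mem (inv_mem_LT K i) h4
    rwa [← mul_assoc, inv_mul_cancel₀ (h0 i), one_mul] at h2

theorem inR_of_iter {w : ∀ i, Blk (lam i) → K i} (h0 : ∀ i, thK g K i ≠ 0) (k : ℕ)
    (h : InR (LT g K) ((xM (thK g K) lam)^[k] w)) : InR (LT g K) w := by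
  induction k generalizing w with
  | zero => exact h
  | succ k ih =>
    rw [Function.iterate_succ_apply] at h
    exact inR_of_xM K h0 (ih h)

omit [∀ i, Algebra ℚ (K i)] [∀ i, IsFractionRing (Lam (g i)) (K i)] in
theorem inR_io (w : ∀ i, Blk (lam i) → Lam (g i)) : InR (LT g K) (ioM K lam w) :=
  fun i c => alg_mem_LT K i (w i c)

/-- every vector over `Lam[1/θ]` becomes integral under a power of `x` -/
theorem exists_iter {v : ∀ i, Blk (lam i) → K i} (hv : InR (LT g K) v) :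
    ∃ (k : ℕ) (w : ∀ i, Blk (lam i) → Lam (g i)),
      (xM (thK g K) lam)^[k] v = ioM K lam w := by
  have key : ∀ i, ∀ c : Fin (na i), ∀ t : ℕ, ∃ k0 : ℕ, ∀ k, k0 ≤ k → ∀ (ht : t < lam i c),
      ∃ s : Lam (g i), (xM (thK g K) lam)^[k] v i ⟨c, ⟨t, ht⟩⟩ =
        algebraMap (Lam (g i)) (K i) s := by
    intro i c t
    induction t with
    | zero =>
      by_cases ht : 0 < lam i c
      · obtain ⟨h, s, hs⟩ := mem_lamT.1 (hv i ⟨c, ⟨0, ht⟩⟩)
        refine ⟨h, fun k hk _ => ?_⟩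
        obtain ⟨j, rfl⟩ := Nat.exists_eq_add_of_le hk
        have h1 : ∀ k, (xM (thK g K) lam)^[k] v i ⟨c, ⟨0, ht⟩⟩ =
            thK g K i ^ k * v i ⟨c, ⟨0, ht⟩⟩ := by
          intro k
          induction k with
          | zero => simp
          | succ k ih =>
            rw [Function.iterate_succ_apply', xM_apply, dif_neg (by simp), add_zero, ih,
              pow_succ']
            ring
        refine ⟨AdjoinRoot.root (g i) ^ j * s, ?_⟩
        rw [h1, map_mul, map_pow, ← hs, pow_add]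
        ring
      · exact ⟨0, fun k _ ht' => absurd ht' (by omega)⟩
    | succ t ih =>
      obtain ⟨k0, hk0⟩ := ih
      by_cases ht : t + 1 < lam i c
      · -- exponents of `θ` at the time `k0`
        have hw : InR (LT g K) ((xM (thK g K) lam)^[k0] v) := by
          have : ∀ k, InR (LT g K) ((xM (thK g K) lam)^[k] v) := by
            intro k
            induction k with
            | zero => exact hv
            | succ k ih =>
              rw [Function.iterate_succ_apply']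
              intro i c
              rw [xM_apply]
              refine (LT g K i).add_mem ((LT g K i).mul_mem (alg_mem_LT K i _) (ih i c)) ?_
              split_ifs with h
              · exact ih i _
              · exact (LT g K i).zero_mem
          exact this k0
        obtain ⟨h, s, hs⟩ := mem_lamT.1 (hw i ⟨c, ⟨t + 1, ht⟩⟩)
        have h1 : ∀ j, ∃ s : Lam (g i), thK g K i ^ (h - j) *
            (xM (thK g K) lam)^[k0 + j] v i ⟨c, ⟨t + 1, ht⟩⟩ =
              algebraMap (Lam (g i)) (K i) s := by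
          intro j
          induction j with
          | zero => exact ⟨s, hs⟩
          | succ j ihj =>
            obtain ⟨s, hs⟩ := ihj
            obtain ⟨r, hr⟩ := hk0 (k0 + j) (by omega) (by omega)
            have h2 : (xM (thK g K) lam)^[k0 + (j + 1)] v i ⟨c, ⟨t + 1, ht⟩⟩ =
                thK g K i * (xM (thK g K) lam)^[k0 + j] v i ⟨c, ⟨t + 1, ht⟩⟩ +
                  algebraMap (Lam (g i)) (K i) r := by
              rw [show k0 + (j + 1) = (k0 + j) + 1 by omega, Function.iterate_succ_apply',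
                xM_apply, dif_pos (by simp), ← hr]
              rfl
            rw [h2]
            by_cases hj : h - j = 0
            · rw [show h - (j + 1) = 0 by omega, pow_zero, one_mul]
              rw [hj, pow_zero, one_mul] at hs
              exact ⟨AdjoinRoot.root (g i) * s + r, by rw [map_add, map_mul, hs]⟩
            · refine ⟨s + AdjoinRoot.root (g i) ^ (h - (j + 1)) * r, ?_⟩
              rw [map_add, map_mul, map_pow, ← hs, show h - j = (h - (j + 1)) + 1 by omega,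
                pow_succ]
              ring
        refine ⟨k0 + h, fun k hk _ => ?_⟩
        obtain ⟨j, rfl⟩ := Nat.exists_eq_add_of_le hk
        obtain ⟨s, hs⟩ := h1 (h + j)
        rw [show h - (h + j) = 0 by omega, pow_zero, one_mul, ← add_assoc] at hs
        exact ⟨s, hs⟩
      · exact ⟨0, fun k _ ht' => absurd ht' ht⟩
  choose k0 hk0 using key
  obtain ⟨M, hM⟩ : ∃ M : ℕ, ∀ i (c : Blk (lam i)), k0 i c.1 c.2 ≤ M :=
    ⟨Finset.univ.sup fun i => Finset.univ.sup fun c : Blk (lam i) => k0 i c.1 c.2,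
      fun i c => (Finset.le_sup (f := fun c : Blk (lam i) => k0 i c.1 c.2)
        (Finset.mem_univ c)).trans
        (Finset.le_sup (f := fun i => Finset.univ.sup fun c : Blk (lam i) => k0 i c.1 c.2)
          (Finset.mem_univ i))⟩
  have h2 : ∀ i (c : Blk (lam i)), ∃ s : Lam (g i),
      (xM (thK g K) lam)^[M] v i c = algebraMap (Lam (g i)) (K i) s := by
    intro i c
    exact hk0 i c.1 c.2 M (hM i c) c.2.2
  choose w hw using h2
  exact ⟨M, w, by funext i c; exact hw i c⟩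

/-- lower bound of the sandwich -/
theorem Half.mem_GQ_of_inR {v : ∀ i, Blk (lam i) → K i} (hv : InR (LT g K) v) :
    v ∈ H.GQ K hg := by
  obtain ⟨k, w, hw⟩ := exists_iter K hv
  rw [H.mem_GQ]
  exact ⟨k, H.S w, by rw [← H.PQ_pow, hw, H.PQ_io]⟩

/-- upper bound of the sandwich -/
theorem Half.inR_of_mem_GQ {v : ∀ i, Blk (lam i) → K i} (hv : v ∈ H.GQ K hg) :
    InR (LT g K) (Δ • v) := by
  obtain ⟨k, z, hz⟩ := (H.mem_GQ K hg).1 hv
  apply inR_of_iter K (thK_ne K hg.m hg.irr hg.g0) k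
  have h1 := congrArg (H.PQ' K) hz
  rw [← H.PQ_pow, H.PQ'_PQ, H.PQ'_cast] at h1
  have h2 : ∀ (j : ℕ) (v : ∀ i, Blk (lam i) → K i),
      (xM (thK g K) lam)^[j] (Δ • v) = Δ • (xM (thK g K) lam)^[j] v := by
    intro j
    induction j with
    | zero => intro v; rfl
    | succ j ih =>
      intro v
      rw [Function.iterate_succ_apply, Function.iterate_succ_apply, map_nsmul, ih]
  rw [h2, ← Nat.cast_smul_eq_nsmul ℚ, h1]
  exact inR_io K _

theorem Half.inR_of_mem_GQ' {n : ℕ} (hn : Δ ∣ n) {v : ∀ i, Blk (lam i) → K i}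
    (hv : v ∈ H.GQ K hg) : InR (LT g K) (n ^ 1 • v) := by
  obtain ⟨e, rfl⟩ := hn
  intro i c
  have h1 := H.inR_of_mem_GQ K hg hv i c
  have h2 := (LT g K i).nsmul_mem h1 e
  have h3 : (((Δ * e) ^ 1 • v) i c : K i) = e • (Δ • v) i c := by
    rw [pow_one, mul_comm, mul_smul]
    rfl
  rw [h3]
  exact h2

/-- `x` as an automorphism of the coordinates -/
noncomputable abbrev xA (lam : ∀ i, Fin (na i) → ℕ) :
    (∀ i, Blk (lam i) → K i) ≃ₗ[ℚ] (∀ i, Blk (lam i) → K i) :=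
  xE (thK_ne K hg.m hg.irr hg.g0) lam

theorem Half.mem_GQ_x (v : ∀ i, Blk (lam i) → K i) :
    xA K hg lam v ∈ H.GQ K hg ↔ v ∈ H.GQ K hg := by
  rw [H.mem_GQ, H.mem_GQ, xE_apply, H.PQ_x]
  constructor
  · rintro ⟨k, z, hz⟩
    exact ⟨k + 1, z, by rw [← hz, Matrix.vecMul_vecMul, ← pow_succ']⟩
  · rintro ⟨k, z, hz⟩
    refine ⟨k, z ᵥ* zM A, ?_⟩
    rw [castV_vecMul, ← hz, Matrix.vecMul_vecMul, Matrix.vecMul_vecMul, ← pow_succ, ← pow_succ']

/-- the lattice of the vectors with integral image -/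
noncomputable def Half.G0 : AddSubgroup (∀ i, Blk (lam i) → K i) :=
  (castV a).range.comap (H.PQ K hg).toAddMonoidHom

theorem Half.mem_G0 {v : ∀ i, Blk (lam i) → K i} :
    v ∈ H.G0 K hg ↔ ∃ z, H.PQ K hg v = castV a z := by
  constructor
  · rintro ⟨z, hz⟩
    exact ⟨z, hz.symm⟩
  · rintro ⟨z, hz⟩
    exact ⟨z, hz.symm⟩

include hΔ in
theorem Half.G0_fg : (H.G0 K hg).FG := by
  let φ : (Fin a → ℤ) →ₗ[ℤ] (∀ i, Blk (lam i) → K i) :=
    (((H.PQ' K).toAddMonoidHom.comp ((DistribSMul.toAddMonoidHom (Fin a → ℚ)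
      ((Δ : ℚ)⁻¹)).comp (castV a)))).toIntLinearMap
  have h1 : IsNoetherian ℤ (LinearMap.range φ) := isNoetherian_of_fg_of_noetherian _
    (by rw [LinearMap.range_eq_map]; exact (Module.Finite.fg_top).map φ)
  let N : Submodule ℤ (∀ i, Blk (lam i) → K i) := AddSubgroup.toIntSubmodule (H.G0 K hg)
  have h2 : N ≤ LinearMap.range φ := by
    intro v hv
    obtain ⟨z, hz⟩ := (H.mem_G0 K hg).1 hv
    refine ⟨z, ?_⟩
    show H.PQ' K ((Δ : ℚ)⁻¹ • castV a z) = v
    rw [map_smul, ← hz, H.PQ'_PQ, smul_smul,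
      inv_mul_cancel₀ (by exact_mod_cast hΔ.ne' : (Δ : ℚ) ≠ 0), one_smul]
  have h3 : N.FG := isNoetherian_submodule.1 h1 N h2
  rw [Submodule.fg_iff_addSubgroup_fg] at h3
  exact h3

include hΔ in
theorem Half.lfg (n : ℕ) : LFG n (xA K hg lam) (locAt n (H.GQ K hg)) := by
  apply lfg_locAt (H.G0_fg K hg hΔ)
  · intro v
    rw [H.mem_GQ]
    have h1 : ∀ k : ℕ, (xA K hg lam)^[k] v = (xM (thK g K) lam)^[k] v := fun k => rfl
    constructor
    · rintro ⟨k, z, hz⟩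
      exact ⟨k, (H.mem_G0 K hg).2 ⟨z, by rw [h1, H.PQ_pow, hz]⟩⟩
    · rintro ⟨k, hk⟩
      obtain ⟨z, hz⟩ := (H.mem_G0 K hg).1 hk
      exact ⟨k, z, by rw [← H.PQ_pow, ← h1, hz]⟩
  · intro v hv
    obtain ⟨z, hz⟩ := (H.mem_G0 K hg).1 hv
    exact (H.mem_G0 K hg).2 ⟨z ᵥ* zM A, by rw [xE_apply, H.PQ_x, hz, castV_vecMul]⟩

end half

end RefQ

namespace Ref

open RefQ

variable {a b : ℕ} {A : Matrix (Fin a) (Fin a) ℕ} {B : Matrix (Fin b) (Fin b) ℕ} (ρ : Ref A B)

/-- the half of `A` -/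
noncomputable def hA : Half A ρ.g ρ.lam ρ.Δ := ⟨ρ.P, ρ.P', ρ.P_x, ρ.P_P, ρ.P_ne, ρ.P_sp⟩

/-- the half of `B` -/
noncomputable def hB : Half B ρ.g ρ.mu ρ.Δ := ⟨ρ.Q, ρ.Q', ρ.Q_x, ρ.Q_Q, ρ.Q_ne, ρ.Q_sp⟩

theorem gp : GP ρ.g := ⟨ρ.monic, ρ.irr, ρ.g0⟩

end Ref

end Pool.Agent.DEC
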