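import Pool.Agent.DEC.S2Int
import Pool.Agent.DEC.SUni

/-!
# MP_59dda0_an, DEC, block S2: an exact solution gives exact states and identities

From the matrices of `traceDim_iff` and a reference datum `ρ` to `Ids ρ deg s 0` and the trace
condition.
-/

set_option autoImplicit false
set_option linter.unusedSectionVars false

open Matrix Polynomial

namespace Pool.Agent.DEC.S2

variable {a b : ℕ} {A : Matrix (Fin a) (Fin a) ℕ} {B : Matrix (Fin b) (Fin b) ℕ}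

/-- the matrices of `traceDim_iff` -/
structure Sx (A : Matrix (Fin a) (Fin a) ℕ) (B : Matrix (Fin b) (Fin b) ℕ) where
  r : ℕ
  R : Matrix (Fin r) (Fin a) ℤ
  R' : Matrix (Fin a) (Fin r) ℤ
  X : Matrix (Fin r) (Fin r) ℤ
  m : Matrix (Fin r) (Fin b) ℤ
  T : Matrix (Fin b) (Fin r) ℤ
  l : ℕ
  hR : R * zM A = X * R
  hRR : R * R' = 1
  hm : m * zM B = X * m
  hT : T * m = zM B ^ l
  hX : X.det ≠ 0

/-- the graph lattice -/
def InP (S : Sx A B) (u : Fin a → ℤ) (t : Fin b → ℤ) : Prop :=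
  ∃ z : Fin S.r → ℤ, z ᵥ* S.R = u ∧ z ᵥ* S.m = t

variable {S : Sx A B} {u u' : Fin a → ℤ} {t t' : Fin b → ℤ}

theorem InP.eq (h : InP S u t) : (u ᵥ* S.R') ᵥ* S.R = u ∧ (u ᵥ* S.R') ᵥ* S.m = t := by
  obtain ⟨z, rfl, rfl⟩ := h
  have : (z ᵥ* S.R) ᵥ* S.R' = z := by rw [vecMul_vecMul, S.hRR, vecMul_one]
  rw [this]
  exact ⟨rfl, rfl⟩

theorem InP.add (h : InP S u t) (h' : InP S u' t') : InP S (u + u') (t + t') := by
  obtain ⟨z, rfl, rfl⟩ := h
  obtain ⟨z', rfl, rfl⟩ := h'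
  exact ⟨z + z', add_vecMul _ _ _, add_vecMul _ _ _⟩

theorem InP.smul (h : InP S u t) (c : ℤ) : InP S (c • u) (c • t) := by
  obtain ⟨z, rfl, rfl⟩ := h
  exact ⟨c • z, smul_vecMul _ _ _, smul_vecMul _ _ _⟩

theorem InP.zero : InP S 0 0 := ⟨0, zero_vecMul _, zero_vecMul _⟩

theorem InP.x (h : InP S u t) : InP S (u ᵥ* zM A) (t ᵥ* zM B) := by
  obtain ⟨z, rfl, rfl⟩ := h
  exact ⟨z ᵥ* S.X, by rw [vecMul_vecMul, ← S.hR, vecMul_vecMul],
    by rw [vecMul_vecMul, ← S.hm, vecMul_vecMul]⟩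

theorem InP.sat {c : ℤ} (hc : c ≠ 0) (h : InP S (c • u) (c • t)) : InP S u t := by
  obtain ⟨h1, h2⟩ := h.eq
  refine ⟨u ᵥ* S.R', ?_, ?_⟩
  · rw [smul_vecMul, smul_vecMul] at h1
    exact smul_right_injective _ hc h1
  · rw [smul_vecMul, smul_vecMul] at h2
    exact smul_right_injective _ hc h2

theorem InP.zero_right (h : InP S 0 t) : t = 0 := by
  have := h.eq.2
  rw [zero_vecMul, zero_vecMul] at this
  exact this.symm

theorem aeval_succ {M : Type} [Ring M] [Algebra ℤ M] (x : M) (n : ℤ) (k : ℕ) :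
    aeval x (C n * X ^ (k + 1)) = x * aeval x (C n * X ^ k) := by
  rw [show (C n * X ^ (k + 1) : ℤ[X]) = X * (C n * X ^ k) by ring, map_mul, aeval_X]

theorem aeval_succ' {M : Type} [Ring M] [Algebra ℤ M] (x : M) (n : ℤ) (k : ℕ) :
    aeval x (C n * X ^ (k + 1)) = aeval x (C n * X ^ k) * x := by
  rw [show (C n * X ^ (k + 1) : ℤ[X]) = (C n * X ^ k) * X by ring, map_mul, aeval_X]

theorem InP.poly (h : InP S u t) (F : ℤ[X]) :
    InP S (u ᵥ* aeval (zM A) F) (t ᵥ* aeval (zM B) F) := by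
  induction F using Polynomial.induction_on with
  | C n =>
    have e : ∀ {k : ℕ} (M : Matrix (Fin k) (Fin k) ℤ) (v : Fin k → ℤ),
        v ᵥ* aeval M (C n) = n • v := by
      intro k M v
      rw [aeval_C, Algebra.algebraMap_eq_smul_one, vecMul_smul, vecMul_one]
    rw [e, e]
    exact h.smul n
  | add p q hp hq =>
    rw [map_add, map_add, vecMul_add, vecMul_add]
    exact hp.add hq
  | monomial k n hk =>
    have e : ∀ {k' : ℕ} (M : Matrix (Fin k') (Fin k') ℤ) (v : Fin k' → ℤ),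
        v ᵥ* aeval M (C n * X ^ (k + 1)) = (v ᵥ* aeval M (C n * X ^ k)) ᵥ* M := by
      intro k' M v
      rw [aeval_succ', vecMul_vecMul]
    rw [e, e]
    exact hk.x

/-- polynomials in `x` on the blocks -/
theorem P_poly (ρ : Ref A B) (i : Fin ρ.f) (F : ℤ[X]) (v : Blk (ρ.lam i) → Lam (ρ.g i)) :
    ρ.P i (aeval ((xL (ρ.th i) (ρ.lam i)).restrictScalars ℤ) F v) =
      ρ.P i v ᵥ* aeval (zM A) F := by
  induction F using Polynomial.induction_on with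
  | C n =>
    rw [aeval_C, aeval_C, Module.algebraMap_end_apply, map_smul, Algebra.algebraMap_eq_smul_one,
      vecMul_smul, vecMul_one]
  | add p q hp hq =>
    rw [map_add, map_add, vecMul_add, LinearMap.add_apply, map_add, hp, hq]
  | monomial k n hk =>
    rw [aeval_succ, aeval_succ', Module.End.mul_apply, LinearMap.restrictScalars_apply, ρ.P_x,
      hk, vecMul_vecMul]

theorem Q_poly (ρ : Ref A B) (i : Fin ρ.f) (F : ℤ[X]) (v : Blk (ρ.mu i) → Lam (ρ.g i)) :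
    ρ.Q i (aeval ((xL (ρ.th i) (ρ.mu i)).restrictScalars ℤ) F v) =
      ρ.Q i v ᵥ* aeval (zM B) F := by
  induction F using Polynomial.induction_on with
  | C n =>
    rw [aeval_C, aeval_C, Module.algebraMap_end_apply, map_smul, Algebra.algebraMap_eq_smul_one,
      vecMul_smul, vecMul_one]
  | add p q hp hq =>
    rw [map_add, map_add, vecMul_add, LinearMap.add_apply, map_add, hp, hq]
  | monomial k n hk =>
    rw [aeval_succ, aeval_succ', Module.End.mul_apply, LinearMap.restrictScalars_apply, ρ.Q_x,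
      hk, vecMul_vecMul]

/-- the root as a polynomial in `x`, on all blocks of one factor -/
def HensH (ρ : Ref A B) : Prop :=
  ∀ i, ∃ (H : ℤ[X]) (c : ℤ), c ≠ 0 ∧
    (∀ v : Blk (ρ.lam i) → Lam (ρ.g i),
      aeval ((xL (ρ.th i) (ρ.lam i)).restrictScalars ℤ) H v = c • (ρ.th i • v)) ∧
    ∀ v : Blk (ρ.mu i) → Lam (ρ.g i),
      aeval ((xL (ρ.th i) (ρ.mu i)).restrictScalars ℤ) H v = c • (ρ.th i • v)

/-- the projections to the factors as polynomials in `x` -/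
def HensF (ρ : Ref A B) : Prop :=
  ∀ i, ∃ (F : ℤ[X]) (c : ℤ), c ≠ 0 ∧ ∀ j,
    (∀ v : Blk (ρ.lam j) → Lam (ρ.g j),
      aeval ((xL (ρ.th j) (ρ.lam j)).restrictScalars ℤ) F v = if j = i then c • v else 0) ∧
    ∀ v : Blk (ρ.mu j) → Lam (ρ.g j),
      aeval ((xL (ρ.th j) (ρ.mu j)).restrictScalars ℤ) F v = if j = i then c • v else 0

variable (ρ : Ref A B)

theorem smulZ_inj (i : Fin ρ.f) {Y : Type} {c : ℤ} (hc : c ≠ 0) {v w : Y → Lam (ρ.g i)}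
    (h : c • v = c • w) : v = w := by
  have := ρ.isDomain i
  have := ρ.charZero i
  funext x
  have h1 := congrFun h x
  rw [Pi.smul_apply, Pi.smul_apply, zsmul_eq_mul, zsmul_eq_mul] at h1
  exact mul_left_cancel₀ (by exact_mod_cast hc) h1

theorem Δ_ne : (ρ.Δ : ℤ) ≠ 0 := by exact_mod_cast ρ.Δ_pos.ne'

theorem Q_inj (i : Fin ρ.f) {w : Blk (ρ.mu i) → Lam (ρ.g i)} (h : ρ.Q i w = 0) : w = 0 := by
  apply smulZ_inj ρ i (Δ_ne ρ)
  rw [← ρ.Q_Q, h, map_zero, smul_zero]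

theorem P_inj (i : Fin ρ.f) {w : Blk (ρ.lam i) → Lam (ρ.g i)} (h : ρ.P i w = 0) : w = 0 := by
  apply smulZ_inj ρ i (Δ_ne ρ)
  rw [← ρ.P_P, h, map_zero, smul_zero]

theorem card_le (i : Fin ρ.f) : Fintype.card (Blk (ρ.lam i)) ≤ a := by
  classical
  have := ρ.isDomain i
  have := ρ.charZero i
  let f : (Blk (ρ.lam i) → ℤ) →ₗ[ℤ] (Fin a → ℤ) :=
    ρ.P i ∘ₗ LinearMap.compLeft (Algebra.linearMap ℤ (Lam (ρ.g i))) (Blk (ρ.lam i))
  have hf : Function.Injective f := by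
    rw [injective_iff_map_eq_zero]
    intro v hv
    have h1 := P_inj ρ i hv
    funext x
    have h2 := congrFun h1 x
    have h3 : ((v x : ℤ) : Lam (ρ.g i)) = 0 := h2
    exact_mod_cast h3
  have h := LinearMap.finrank_le_finrank_of_injective hf
  simpa using h

theorem lam_le (i : Fin ρ.f) (c : Fin (ρ.na i)) : ρ.lam i c ≤ a := by
  refine le_trans ?_ (card_le ρ i)
  rw [Fintype.card_sigma]
  have := Finset.single_le_sum (f := fun c => Fintype.card (Fin (ρ.lam i c)))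
    (fun _ _ => Nat.zero_le _) (Finset.mem_univ c)
  simpa using this

/-- `x` on vectors of the eventual range -/
theorem sp_of_pow {u : Fin a → ℤ} {c : ℤ} (hc : c ≠ 0) (v : Fin a → ℤ)
    (h : c • u = v ᵥ* zM A ^ a) : ∑ i, ρ.P i (ρ.P' i u) = (ρ.Δ : ℤ) • u := by
  have h1 := ρ.P_sp v
  rw [← h] at h1
  simp only [map_smul] at h1
  rw [← Finset.smul_sum, smul_comm] at h1
  exact smul_right_injective _ hc h1

theorem sq_of_pow {u : Fin b → ℤ} {c : ℤ} (hc : c ≠ 0) (v : Fin b → ℤ)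
    (h : c • u = v ᵥ* zM B ^ b) : ∑ i, ρ.Q i (ρ.Q' i u) = (ρ.Δ : ℤ) • u := by
  have h1 := ρ.Q_sp v
  rw [← h] at h1
  simp only [map_smul] at h1
  rw [← Finset.smul_sum, smul_comm] at h1
  exact smul_right_injective _ hc h1

theorem pow_R (S : Sx A B) (k : ℕ) : S.X ^ k * S.R = S.R * zM A ^ k := by
  induction k with
  | zero => simp
  | succ k ih => rw [pow_succ', pow_succ, Matrix.mul_assoc, ih, ← Matrix.mul_assoc, ← S.hR,
      Matrix.mul_assoc, ← pow_succ', pow_succ]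

theorem pow_m (S : Sx A B) (k : ℕ) : S.X ^ k * S.m = S.m * zM B ^ k := by
  induction k with
  | zero => simp
  | succ k ih => rw [pow_succ', pow_succ, Matrix.mul_assoc, ih, ← Matrix.mul_assoc, ← S.hm,
      Matrix.mul_assoc, ← pow_succ', pow_succ]

theorem spR (S : Sx A B) (z : Fin S.r → ℤ) :
    ∑ i, ρ.P i (ρ.P' i (z ᵥ* S.R)) = (ρ.Δ : ℤ) • (z ᵥ* S.R) := by
  refine sp_of_pow ρ (c := (S.X ^ a).det) (by rw [det_pow]; exact pow_ne_zero _ S.hX)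
    ((z ᵥ* (S.X ^ a).adjugate) ᵥ* S.R) ?_
  rw [vecMul_vecMul, vecMul_vecMul, ← pow_R, ← Matrix.mul_assoc, adjugate_mul, Matrix.smul_mul,
    Matrix.one_mul, vecMul_smul]

theorem spm (S : Sx A B) (z : Fin S.r → ℤ) :
    ∑ i, ρ.Q i (ρ.Q' i (z ᵥ* S.m)) = (ρ.Δ : ℤ) • (z ᵥ* S.m) := by
  refine sq_of_pow ρ (c := (S.X ^ b).det) (by rw [det_pow]; exact pow_ne_zero _ S.hX)
    ((z ᵥ* (S.X ^ b).adjugate) ᵥ* S.m) ?_
  rw [vecMul_vecMul, vecMul_vecMul, ← pow_m, ← Matrix.mul_assoc, adjugate_mul, Matrix.smul_mul,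
    Matrix.one_mul, vecMul_smul]

/-- the components of the graph are in the graph -/
theorem comp_mem (hF : HensF ρ) (S : Sx A B) (i : Fin ρ.f) (z : Fin S.r → ℤ) :
    InP S (ρ.P i (ρ.P' i (z ᵥ* S.R))) (ρ.Q i (ρ.Q' i (z ᵥ* S.m))) := by
  obtain ⟨F, c, hc, hj⟩ := hF i
  have h0 : InP S (z ᵥ* S.R) (z ᵥ* S.m) := ⟨z, rfl, rfl⟩
  have h1 := (h0.poly F).smul (ρ.Δ : ℤ)
  have e1 : c • ρ.P i (ρ.P' i (z ᵥ* S.R)) =
      (ρ.Δ : ℤ) • ((z ᵥ* S.R) ᵥ* aeval (zM A) F) := by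
    rw [← smul_vecMul, ← spR ρ S z, Matrix.sum_vecMul]
    simp only [← P_poly]
    rw [Finset.sum_eq_single i]
    · rw [(hj i).1, if_pos rfl, map_smul]
    · intro j _ hji
      rw [(hj j).1, if_neg hji, map_zero]
    · intro h; exact absurd (Finset.mem_univ i) h
  have e2 : c • ρ.Q i (ρ.Q' i (z ᵥ* S.m)) =
      (ρ.Δ : ℤ) • ((z ᵥ* S.m) ᵥ* aeval (zM B) F) := by
    rw [← smul_vecMul, ← spm ρ S z, Matrix.sum_vecMul]
    simp only [← Q_poly]
    rw [Finset.sum_eq_single i]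
    · rw [(hj i).2, if_pos rfl, map_smul]
    · intro j _ hji
      rw [(hj j).2, if_neg hji, map_zero]
    · intro h; exact absurd (Finset.mem_univ i) h
  rw [← e1, ← e2] at h1
  exact h1.sat hc

/-- `P'` is equivariant on the graph -/
theorem P'_x (S : Sx A B) (i : Fin ρ.f) (z : Fin S.r → ℤ) :
    ρ.P' i ((z ᵥ* S.R) ᵥ* zM A) = xL (ρ.th i) (ρ.lam i) (ρ.P' i (z ᵥ* S.R)) := by
  apply smulZ_inj ρ i (Δ_ne ρ)
  rw [← map_smul (ρ.P' i), ← smul_vecMul, ← spR ρ S z, Matrix.sum_vecMul, map_sum]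
  simp only [← ρ.P_x]
  rw [Finset.sum_eq_single i]
  · exact ρ.P_P i _
  · intro j _ hji
    exact ρ.P_ne j i _ hji
  · intro h; exact absurd (Finset.mem_univ i) h

/-- the lattice of one factor -/
def SS (hH : HensH ρ) (S : Sx A B) (i : Fin ρ.f) :
    Submodule (Lam (ρ.g i)) ((Blk (ρ.lam i) → Lam (ρ.g i)) × (Blk (ρ.mu i) → Lam (ρ.g i))) where
  carrier := {p | InP S (ρ.P i p.1) (ρ.Q i p.2)}
  add_mem' := by
    intro p q hp hq
    show InP S (ρ.P i (p.1 + q.1)) (ρ.Q i (p.2 + q.2))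
    rw [map_add, map_add]
    exact InP.add hp hq
  zero_mem' := by
    show InP S (ρ.P i 0) (ρ.Q i 0)
    rw [map_zero, map_zero]
    exact InP.zero
  smul_mem' := by
    intro c p hp
    obtain ⟨F, rfl⟩ := AdjoinRoot.mk_surjective c
    show InP S (ρ.P i (AdjoinRoot.mk (ρ.g i) F • p.1)) (ρ.Q i (AdjoinRoot.mk (ρ.g i) F • p.2))
    induction F using Polynomial.induction_on with
    | C n =>
      have e : ∀ {Y : Type} (v : Y → Lam (ρ.g i)), AdjoinRoot.mk (ρ.g i) (C n) • v = n • v := by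
        intro Y v
        rw [AdjoinRoot.mk_C]
        funext x
        rw [Pi.smul_apply, Pi.smul_apply, smul_eq_mul, zsmul_eq_mul]
        congr 1
      rw [e, e, map_smul, map_smul]
      exact InP.smul hp n
    | add F G hF hG =>
      rw [map_add, add_smul, add_smul, map_add, map_add]
      exact hF.add hG
    | monomial k n hk =>
      have e : ∀ {Y : Type} (v : Y → Lam (ρ.g i)),
          AdjoinRoot.mk (ρ.g i) (C n * X ^ (k + 1)) • v =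
            ρ.th i • (AdjoinRoot.mk (ρ.g i) (C n * X ^ k) • v) := by
        intro Y v
        rw [smul_smul]
        congr 1
        rw [pow_succ, ← mul_assoc, map_mul, AdjoinRoot.mk_X, mul_comm]
      rw [e, e]
      obtain ⟨H, c, hc, h1, h2⟩ := hH i
      have h3 := hk.poly H
      rw [← P_poly, ← Q_poly, h1, h2, map_zsmul (ρ.P i), map_zsmul (ρ.Q i)] at h3
      exact h3.sat hc

theorem mem_SS {hH : HensH ρ} {S : Sx A B} {i : Fin ρ.f}
    {p : (Blk (ρ.lam i) → Lam (ρ.g i)) × (Blk (ρ.mu i) → Lam (ρ.g i))} :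
    p ∈ SS ρ hH S i ↔ InP S (ρ.P i p.1) (ρ.Q i p.2) := Iff.rfl

/-- the states of one factor -/
theorem exists_state_factor (hH : HensH ρ) (S : Sx A B) (i : Fin ρ.f) :
    ∃ (N : ℕ) (deg : Fin N → ℕ) (s : RSt (Lam (ρ.g i)) (Fin N) (Fin (ρ.na i)) (Fin (ρ.nb i))),
      N ≤ a ∧ (∀ q, deg q < a) ∧ IsSt ⟨deg, ρ.lam i, ρ.mu i⟩ s ∧
      (∀ z : Fin N → Lam (ρ.g i), RM ⟨deg, ρ.lam i, ρ.mu i⟩ s *ᵥ z = 0 → z = 0) ∧
      (∀ z : Fin N → Lam (ρ.g i), InP S (ρ.P i (RM ⟨deg, ρ.lam i, ρ.mu i⟩ s *ᵥ z))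
        (ρ.Q i (MM ⟨deg, ρ.lam i, ρ.mu i⟩ s *ᵥ z))) ∧
      ∀ (v : Blk (ρ.lam i) → Lam (ρ.g i)) (w : Blk (ρ.mu i) → Lam (ρ.g i)),
        InP S (ρ.P i v) (ρ.Q i w) → ∃ z : Fin N → Lam (ρ.g i),
          RM ⟨deg, ρ.lam i, ρ.mu i⟩ s *ᵥ z = ((ρ.q ^ (a * (a + 1)) : ℕ) : ℤ) • v ∧
          MM ⟨deg, ρ.lam i, ρ.mu i⟩ s *ᵥ z = ((ρ.q ^ (a * (a + 1)) : ℕ) : ℤ) • w := by
  have := ρ.isDomain i
  have := ρ.free i
  have := ρ.finite i
  have := ρ.charZero i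
  have hnoeth : IsNoetherianRing (Lam (ρ.g i)) := inferInstance
  have hq0 : ((ρ.q : ℕ) : Lam (ρ.g i)) ≠ 0 := by exact_mod_cast ρ.q_pos.ne'
  obtain ⟨N, deg, s, hst, hdeg, hN, hinj, hmem, hB⟩ := exists_state_int (ρ.hq i) hq0 (e := a)
    (lam_le ρ i) (SS ρ hH S i) (by
      intro c z hc hz
      obtain ⟨c', k, hk, hck⟩ := normD_of_order (Lam (ρ.g i)) c hc
      have h1 := (SS ρ hH S i).smul_mem c' hz
      rw [smul_smul, mul_comm, hck] at h1
      have h2 : InP S (ρ.P i (((k : ℤ) : Lam (ρ.g i)) • z.1))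
        (ρ.Q i (((k : ℤ) : Lam (ρ.g i)) • z.2)) := h1
      have e : ∀ {Y : Type} (v : Y → Lam (ρ.g i)), ((k : ℤ) : Lam (ρ.g i)) • v = k • v := by
        intro Y v
        funext x
        rw [Pi.smul_apply, Pi.smul_apply, smul_eq_mul, zsmul_eq_mul]
      rw [e, e, map_smul, map_smul] at h2
      exact h2.sat hk) (by
      intro z hz
      have h1 : InP S (ρ.P i (xL (ρ.th i) (ρ.lam i) z.1)) (ρ.Q i (xL (ρ.th i) (ρ.mu i) z.2)) := by
        rw [ρ.P_x, ρ.Q_x]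
        exact InP.x hz
      have h2 : (xL (ρ.th i) (ρ.lam i) z.1, xL (ρ.th i) (ρ.mu i) z.2) ∈ SS ρ hH S i := h1
      have h3 := sub_mem h2 ((SS ρ hH S i).smul_mem (ρ.th i) hz)
      have h4 : ((xL (ρ.th i) (ρ.lam i) z.1, xL (ρ.th i) (ρ.mu i) z.2) - ρ.th i • z :
          (Blk (ρ.lam i) → Lam (ρ.g i)) × (Blk (ρ.mu i) → Lam (ρ.g i))) =
          (yL (ρ.lam i) z.1, yL (ρ.mu i) z.2) := by
        refine Prod.ext ?_ ?_
        · show xL (ρ.th i) (ρ.lam i) z.1 - ρ.th i • z.1 = yL (ρ.lam i) z.1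
          simp [xL]
        · show xL (ρ.th i) (ρ.mu i) z.2 - ρ.th i • z.2 = yL (ρ.mu i) z.2
          simp [xL]
      rw [h4] at h3
      exact h3) (by
      intro w hw
      have h1 : InP S (ρ.P i 0) (ρ.Q i w) := hw
      rw [map_zero] at h1
      exact Q_inj ρ i h1.zero_right)
  have hNa : N ≤ a := hN.trans (card_le ρ i)
  refine ⟨N, deg, s, hNa, hdeg, hst, hinj, fun z => hmem z, ?_⟩
  intro v w hvw
  obtain ⟨z, hz1, hz2⟩ := hB (v, w) hvw
  have e : ∀ {Y : Type} (v : Y → Lam (ρ.g i)),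
      ((ρ.q : ℕ) : Lam (ρ.g i)) ^ ((a - N) * (a + 1)) •
        (((ρ.q : ℕ) : Lam (ρ.g i)) ^ (N * (a + 1)) • v) =
      ((ρ.q ^ (a * (a + 1)) : ℕ) : ℤ) • v := by
    intro Y v
    rw [smul_smul, ← pow_add, ← Nat.add_mul, Nat.sub_add_cancel hNa]
    funext x
    rw [Pi.smul_apply, Pi.smul_apply, smul_eq_mul, zsmul_eq_mul]
    push_cast
    ring
  refine ⟨((ρ.q : ℕ) : Lam (ρ.g i)) ^ ((a - N) * (a + 1)) • z, ?_, ?_⟩
  · rw [mulVec_smul, hz1, e]
  · rw [mulVec_smul, hz2, e]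

/-- **S2**: exact states and identities -/
theorem exact_of_sx (hH : HensH ρ) (hF : HensF ρ) (S : Sx A B) :
    ∃ (n : Fin ρ.f → ℕ) (deg : ∀ i, Fin (n i) → ℕ) (s : ρ.MSt n),
      (∀ i, n i ≤ a) ∧ (∀ i k, deg i k < a) ∧ (∀ i, IsSt (ρ.shp deg i) (s i)) ∧
      Ids ρ deg s 0 ∧
      ∃ (L : (Fin S.r → ℤ) →ₗ[ℤ] ρ.Gam n) (H : ρ.Gam n →ₗ[ℤ] (Fin S.r → ℤ)),
        (∀ z, H (L z) = (ρ.D : ℤ) • z) ∧ (∀ z, L (H z) = (ρ.D : ℤ) • z) ∧
        ∀ z i, L (z ᵥ* S.X) i = ρ.th i • L z i + (s i).1 *ᵥ L z i := by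
  classical
  choose n deg s hn hdeg hst hinj hmem hB using exists_state_factor ρ hH S
  let q' : ℤ := ((ρ.q ^ (a * (a + 1)) : ℕ) : ℤ)
  have hqΔ : q' * (ρ.Δ : ℤ) = (ρ.D : ℤ) := by
    show ((ρ.q ^ (a * (a + 1)) : ℕ) : ℤ) * (ρ.Δ : ℤ) = ((ρ.Δ * ρ.q ^ (a * (a + 1)) : ℕ) : ℤ)
    push_cast
    ring
  -- the map `L`
  have hL : ∀ (z : Fin S.r → ℤ) (i : Fin ρ.f), ∃ ζ : Fin (n i) → Lam (ρ.g i),
      RM (ρ.shp deg i) (s i) *ᵥ ζ = q' • ρ.P' i (z ᵥ* S.R) ∧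
      MM (ρ.shp deg i) (s i) *ᵥ ζ = q' • ρ.Q' i (z ᵥ* S.m) := fun z i =>
    hB i _ _ (comp_mem ρ hF S i z)
  choose L0 hL1 hL2 using hL
  have hinj' : ∀ (i : Fin ρ.f) (ζ ζ' : Fin (n i) → Lam (ρ.g i)),
      RM (ρ.shp deg i) (s i) *ᵥ ζ = RM (ρ.shp deg i) (s i) *ᵥ ζ' → ζ = ζ' := by
    intro i ζ ζ' h
    rw [← sub_eq_zero]
    apply hinj i
    show RM (ρ.shp deg i) (s i) *ᵥ (ζ - ζ') = 0
    rw [mulVec_sub, h, sub_self]
  let L : (Fin S.r → ℤ) →ₗ[ℤ] ρ.Gam n :=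
    { toFun := fun z i => L0 z i
      map_add' := by
        intro z z'
        funext i
        apply hinj' i
        show _ = RM (ρ.shp deg i) (s i) *ᵥ (L0 z i + L0 z' i)
        rw [mulVec_add, hL1, hL1, hL1, add_vecMul, map_add, smul_add]
      map_smul' := by
        intro c z
        funext i
        apply hinj' i
        show _ = RM (ρ.shp deg i) (s i) *ᵥ (c • L0 z i)
        rw [mulVec_smul, hL1, hL1, smul_vecMul, map_smul, smul_comm] }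
  have hGA : ∀ z, ρ.GA deg s (L z) = (ρ.D : ℤ) • (z ᵥ* S.R) := by
    intro z
    show ∑ i, ρ.P i (RM (ρ.shp deg i) (s i) *ᵥ L0 z i) = _
    simp only [hL1, map_smul]
    rw [← Finset.smul_sum, spR, smul_smul, hqΔ]
  have hGB : ∀ z, ρ.GB deg s (L z) = (ρ.D : ℤ) • (z ᵥ* S.m) := by
    intro z
    show ∑ i, ρ.Q i (MM (ρ.shp deg i) (s i) *ᵥ L0 z i) = _
    simp only [hL2, map_smul]
    rw [← Finset.smul_sum, spm, smul_smul, hqΔ]
  have hP : ∀ z : ρ.Gam n, InP S (ρ.GA deg s z) (ρ.GB deg s z) := by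
    intro z
    show InP S (∑ i, ρ.P i (RM (ρ.shp deg i) (s i) *ᵥ z i))
      (∑ i, ρ.Q i (MM (ρ.shp deg i) (s i) *ᵥ z i))
    have : ∀ T : Finset (Fin ρ.f), InP S (∑ i ∈ T, ρ.P i (RM (ρ.shp deg i) (s i) *ᵥ z i))
        (∑ i ∈ T, ρ.Q i (MM (ρ.shp deg i) (s i) *ᵥ z i)) := by
      intro T
      induction T using Finset.induction_on with
      | empty => exact InP.zero
      | insert i T hi ih =>
        rw [Finset.sum_insert hi, Finset.sum_insert hi]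
        exact (hmem i (z i)).add ih
    exact this Finset.univ
  let H : ρ.Gam n →ₗ[ℤ] (Fin S.r → ℤ) :=
    { toFun := fun z => ρ.GA deg s z ᵥ* S.R'
      map_add' := by
        intro z z'
        have : ρ.GA deg s (z + z') = ρ.GA deg s z + ρ.GA deg s z' := by
          show ∑ i, ρ.P i (RM (ρ.shp deg i) (s i) *ᵥ (z i + z' i)) = _
          simp only [mulVec_add, map_add]
          rw [Finset.sum_add_distrib]
          rfl
        rw [this, add_vecMul]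
      map_smul' := by
        intro c z
        have : ρ.GA deg s (c • z) = c • ρ.GA deg s z := by
          show ∑ i, ρ.P i (RM (ρ.shp deg i) (s i) *ᵥ (c • z i)) = _
          simp only [mulVec_smul, map_smul]
          rw [← Finset.smul_sum]
          rfl
        rw [this, smul_vecMul]
        rfl }
  have hH1 : ∀ z, H (L z) = (ρ.D : ℤ) • z := by
    intro z
    show ρ.GA deg s (L z) ᵥ* S.R' = _
    rw [hGA, smul_vecMul, vecMul_vecMul, S.hRR, vecMul_one]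
  have hH2 : ∀ z, L (H z) = (ρ.D : ℤ) • z := by
    intro z
    funext i
    apply hinj' i
    show RM (ρ.shp deg i) (s i) *ᵥ (L0 (ρ.GA deg s z ᵥ* S.R') i) =
      RM (ρ.shp deg i) (s i) *ᵥ ((ρ.D : ℤ) • z i)
    rw [hL1, (hP z).eq.1, mulVec_smul, ← hqΔ, mul_smul]
    congr 1
    show ρ.P' i (∑ j, ρ.P j (RM (ρ.shp deg j) (s j) *ᵥ z j)) = _
    rw [map_sum, Finset.sum_eq_single i]
    · exact ρ.P_P i _
    · intro j _ hji
      exact ρ.P_ne j i _ hji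
    · intro h; exact absurd (Finset.mem_univ i) h
  refine ⟨n, deg, s, hn, hdeg, hst, ?_, L, H, hH1, hH2, ?_⟩
  · refine ⟨L ∘ₗ Matrix.vecMulLinear S.R', Matrix.vecMulLinear (S.R' * S.m),
      L ∘ₗ Matrix.vecMulLinear S.T, Matrix.vecMulLinear (S.T * S.R), S.l, ?_, ?_, ?_, ?_⟩
    · intro z
      refine ⟨0, ?_⟩
      rw [smul_zero, add_zero]
      exact hH2 z
    · intro z
      refine ⟨0, ?_⟩
      rw [smul_zero, add_zero]
      show ρ.GA deg s z ᵥ* (S.R' * S.m) = _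
      rw [← vecMul_vecMul]
      exact (hP z).eq.2
    · intro w
      refine ⟨0, ?_⟩
      rw [smul_zero, add_zero]
      show ρ.GA deg s (L (w ᵥ* S.T)) = (ρ.D : ℤ) • (w ᵥ* (S.T * S.R))
      rw [hGA, vecMul_vecMul]
    · intro w
      refine ⟨0, ?_⟩
      rw [smul_zero, add_zero]
      show ρ.GB deg s (L (w ᵥ* S.T)) = (ρ.D : ℤ) • (w ᵥ* zM B ^ S.l)
      rw [hGB, vecMul_vecMul, S.hT]
  · intro z i
    apply hinj' i
    show RM (ρ.shp deg i) (s i) *ᵥ (L0 (z ᵥ* S.X) i) =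
      RM (ρ.shp deg i) (s i) *ᵥ (ρ.th i • L0 z i + (s i).1 *ᵥ L0 z i)
    rw [hL1, mulVec_add, mulVec_smul, RM_equiv (hst i), hL1, vecMul_vecMul, ← S.hR,
      ← vecMul_vecMul, P'_x, xL]
    simp only [LinearMap.add_apply, LinearMap.smul_apply, LinearMap.id_apply, smul_add]
    rw [smul_comm q' (ρ.th i)]
    congr 1
    exact (map_zsmul (yL (ρ.lam i)) q' _).symm

/-- **soundness, exact form** -/
theorem sound_of (hH : HensH ρ) (hF : HensF ρ)
    (htr : ∀ {n : Fin ρ.f → ℕ} (deg : ∀ i, Fin (n i) → ℕ) (s : ρ.MSt n)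
      (_ : ∀ i, IsSt (ρ.shp deg i) (s i)) {r : ℕ} (X : Matrix (Fin r) (Fin r) ℤ) {D : ℤ}
      (_ : D ≠ 0) (L : (Fin r → ℤ) →ₗ[ℤ] ρ.Gam n) (H : ρ.Gam n →ₗ[ℤ] (Fin r → ℤ))
      (_ : ∀ z, H (L z) = D • z) (_ : ∀ z, L (H z) = D • z)
      (_ : ∀ z i, L (z ᵥ* X) i = ρ.th i • L z i + (s i).1 *ᵥ L z i)
      (_ : ∀ k, 0 < k → (B ^ k).trace = 0 → (X ^ k).trace = 0), TrC ρ n)
    (h : FT.TraceDimCondition A B) : Semi ρ 0 := by
  obtain ⟨r, R, R', X, m, T, l, h1, h2, h3, h4, h5, h6⟩ := (traceDim_iff A B).1 h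
  obtain ⟨n, deg, s, hn, hdeg, hst, hids, L, H, hH1, hH2, hX⟩ :=
    exact_of_sx ρ hH hF ⟨r, R, R', X, m, T, l, h1, h2, h3, h4, h5⟩
  refine ⟨n, deg, s, hn, hdeg, ?_, hst, hids, uni_of_ids ρ deg s hst hn hids⟩
  exact htr deg s hst X (by exact_mod_cast ρ.D_pos.ne') L H hH1 hH2 hX h6

end Pool.Agent.DEC.S2
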