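import Pool.Agent.DEC.S2Tr

/-!
Soundness: the exact integral identities from an isomorphism up to `D` between the lattice of a
solution and the lattice `Γ` of a state.
-/

set_option autoImplicit false

open Matrix Polynomial

namespace Pool.Agent.DEC

variable {a b : ℕ} {A : Matrix (Fin a) (Fin a) ℕ} {B : Matrix (Fin b) (Fin b) ℕ} (ρ : Ref A B)

/-- **the exact identities**: `L` and `H` are inverse to each other up to `D`, `RG = H R`,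
`mG = H m`, `R R' = 1`, `T m = B ^ l` -/
theorem ids_of_iso {n : Fin ρ.f → ℕ} (deg : ∀ i, Fin (n i) → ℕ) (s : ρ.MSt n) {r : ℕ}
    (R : Matrix (Fin r) (Fin a) ℤ) (R' : Matrix (Fin a) (Fin r) ℤ) (m : Matrix (Fin r) (Fin b) ℤ)
    (T : Matrix (Fin b) (Fin r) ℤ) (l : ℕ) (e1 : R * R' = 1) (e2 : T * m = zM B ^ l)
    (L : (Fin r → ℤ) →ₗ[ℤ] ρ.Gam n) (H : ρ.Gam n →ₗ[ℤ] (Fin r → ℤ))
    (h1 : ∀ z, H (L z) = (ρ.D : ℤ) • z) (h2 : ∀ z, L (H z) = (ρ.D : ℤ) • z)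
    (hA : ∀ z, ρ.GA deg s z = H z ᵥ* R) (hB : ∀ z, ρ.GB deg s z = H z ᵥ* m) :
    Ids ρ deg s 0 := by
  refine ⟨L ∘ₗ R'.vecMulLinear, (R' * m).vecMulLinear, L ∘ₗ T.vecMulLinear,
    (T * R).vecMulLinear, l, fun z => ⟨0, ?_⟩, fun z => ⟨0, ?_⟩, fun w => ⟨0, ?_⟩,
    fun w => ⟨0, ?_⟩⟩
  · rw [LinearMap.comp_apply, Matrix.vecMulLinear_apply, hA, Matrix.vecMul_vecMul, e1,
      Matrix.vecMul_one, h2]
    simp
  · rw [Matrix.vecMulLinear_apply, hA, hB, Matrix.vecMul_vecMul, ← Matrix.mul_assoc, e1,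
      Matrix.one_mul]
    simp
  · rw [hA, LinearMap.comp_apply, h1, Matrix.vecMulLinear_apply, Matrix.vecMulLinear_apply,
      Matrix.smul_vecMul, Matrix.vecMul_vecMul]
    simp
  · rw [hB, LinearMap.comp_apply, h1, Matrix.vecMulLinear_apply, Matrix.smul_vecMul,
      Matrix.vecMul_vecMul, e2]
    simp

/-- **exact semi-solution from the lattice isomorphism** -/
theorem semi_of_iso {n : Fin ρ.f → ℕ} (deg : ∀ i, Fin (n i) → ℕ) (s : ρ.MSt n)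
    (hn : ∀ i, n i ≤ a) (hdeg : ∀ i k, deg i k < a) (hst : ∀ i, IsSt (ρ.shp deg i) (s i)) {r : ℕ}
    (R : Matrix (Fin r) (Fin a) ℤ) (R' : Matrix (Fin a) (Fin r) ℤ)
    (X : Matrix (Fin r) (Fin r) ℤ) (m : Matrix (Fin r) (Fin b) ℤ)
    (T : Matrix (Fin b) (Fin r) ℤ) (l : ℕ) (e1 : R * R' = 1) (e2 : T * m = zM B ^ l)
    (e3 : ∀ k, 0 < k → (B ^ k).trace = 0 → (X ^ k).trace = 0)
    (L : (Fin r → ℤ) →ₗ[ℤ] ρ.Gam n) (H : ρ.Gam n →ₗ[ℤ] (Fin r → ℤ))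
    (h1 : ∀ z, H (L z) = (ρ.D : ℤ) • z) (h2 : ∀ z, L (H z) = (ρ.D : ℤ) • z)
    (hX : ∀ z i, L (z ᵥ* X) i = ρ.th i • L z i + (s i).1 *ᵥ L z i)
    (hA : ∀ z, ρ.GA deg s z = H z ᵥ* R) (hB : ∀ z, ρ.GB deg s z = H z ᵥ* m) :
    Semi ρ 0 := by
  have hids := ids_of_iso ρ deg s R R' m T l e1 e2 L H h1 h2 hA hB
  refine ⟨n, deg, s, hn, hdeg, ?_, hst, hids, uni_of_ids ρ deg s hst hn hids⟩
  exact trC_of_iso ρ deg s hst X (by exact_mod_cast ρ.D_pos.ne') L H h1 h2 hX e3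

end Pool.Agent.DEC
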