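import Pool.Agent.DEC.StateOf
import Pool.Agent.DEC.StateA

/-!
# MP_59dda0_an, DEC, block S2: integral states of a saturated lattice (one factor, no field)
-/

set_option autoImplicit false
set_option linter.unusedSectionVars false

open Matrix

namespace Pool.Agent.DEC.S2

section

variable {Λ K γ : Type} [CommRing Λ] [Field K] [Algebra Λ K]

/-- coordinatewise image -/
def cmap (K : Type) [Field K] [Algebra Λ K] {X : Type} (v : X → Λ) : X → K :=
  fun x => algebraMap Λ K (v x)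

theorem cmap_apply {X : Type} (v : X → Λ) (x : X) : cmap K v x = algebraMap Λ K (v x) := rfl

theorem cmap_add {X : Type} (v w : X → Λ) : cmap K (v + w) = cmap K v + cmap K w := by
  funext x; exact map_add _ _ _

theorem cmap_smul {X : Type} (c : Λ) (v : X → Λ) :
    cmap K (c • v) = algebraMap Λ K c • cmap K v := by
  funext x; exact map_mul _ _ _

theorem cmap_zero {X : Type} : cmap K (0 : X → Λ) = 0 := by
  funext x; exact map_zero _

theorem cmap_mulVec {X Y : Type} [Fintype Y] (M : Matrix X Y Λ) (z : Y → Λ) :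
    cmap K (M *ᵥ z) = M.map (algebraMap Λ K) *ᵥ cmap K z := by
  funext x
  show algebraMap Λ K (∑ y, M x y * z y) = ∑ y, algebraMap Λ K (M x y) * algebraMap Λ K (z y)
  rw [map_sum]
  exact Finset.sum_congr rfl fun y _ => map_mul _ _ _

theorem yL_cmap (h : γ → ℕ) (v : Blk h → Λ) : yL h (cmap K v) = cmap K (yL h v) := by
  funext ci
  rw [cmap_apply, yL_apply, yL_apply]
  split_ifs
  · rfl
  · rw [map_zero]

theorem yL_pow_cmap (h : γ → ℕ) (k : ℕ) (v : Blk h → Λ) :
    ((yL h) ^ k) (cmap K v) = cmap K (((yL h) ^ k) v) := by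
  induction k with
  | zero => rfl
  | succ k ih => rw [pow_succ', pow_succ', Module.End.mul_apply, Module.End.mul_apply, ih, yL_cmap]

end

variable {Λ : Type} [CommRing Λ] [IsDomain Λ] [IsNoetherianRing Λ] {α β : Type} [Fintype α]
  [Fintype β]

/-- the subspace spanned by a lattice -/
def spanK (K : Type) [Field K] [Algebra Λ K] [IsFractionRing Λ K] {X Y : Type}
    (S : Submodule Λ ((X → Λ) × (Y → Λ))) : Submodule K ((X → K) × (Y → K)) where
  carrier := {z | ∃ c : Λ, c ≠ 0 ∧ ∃ p ∈ S, algebraMap Λ K c • z = (cmap K p.1, cmap K p.2)}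
  add_mem' := by
    rintro z w ⟨c, hc, p, hp, h⟩ ⟨c', hc', p', hp', h'⟩
    refine ⟨c * c', mul_ne_zero hc hc', c' • p + c • p',
      add_mem (S.smul_mem _ hp) (S.smul_mem _ hp'), ?_⟩
    have e1 : cmap K (c' • p + c • p').1 =
        algebraMap Λ K c' • cmap K p.1 + algebraMap Λ K c • cmap K p'.1 := by
      show cmap K (c' • p.1 + c • p'.1) = _
      rw [cmap_add, cmap_smul, cmap_smul]
    have e2 : cmap K (c' • p + c • p').2 =
        algebraMap Λ K c' • cmap K p.2 + algebraMap Λ K c • cmap K p'.2 := by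
      show cmap K (c' • p.2 + c • p'.2) = _
      rw [cmap_add, cmap_smul, cmap_smul]
    rw [e1, e2, smul_add, map_mul]
    have h1 : (algebraMap Λ K c * algebraMap Λ K c') • z =
        algebraMap Λ K c' • (cmap K p.1, cmap K p.2) := by
      rw [mul_comm, mul_smul, h]
    have h2 : (algebraMap Λ K c * algebraMap Λ K c') • w =
        algebraMap Λ K c • (cmap K p'.1, cmap K p'.2) := by
      rw [mul_smul, h']
    rw [h1, h2]
    rfl
  zero_mem' := ⟨1, one_ne_zero, 0, zero_mem _, by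
    rw [smul_zero]
    exact (Prod.ext cmap_zero cmap_zero).symm⟩
  smul_mem' := by
    rintro k z ⟨c, hc, p, hp, h⟩
    obtain ⟨u, v, hv, huv⟩ := IsFractionRing.div_surjective (A := Λ) k
    have hv0 : (v : Λ) ≠ 0 := nonZeroDivisors.ne_zero hv
    have hv1 : algebraMap Λ K v ≠ 0 := fun h0 =>
      hv0 ((FaithfulSMul.algebraMap_injective Λ K) (by rw [h0, map_zero]))
    refine ⟨v * c, mul_ne_zero hv0 hc, u • p, S.smul_mem _ hp, ?_⟩
    have e1 : cmap K (u • p).1 = algebraMap Λ K u • cmap K p.1 := cmap_smul _ _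
    have e2 : cmap K (u • p).2 = algebraMap Λ K u • cmap K p.2 := cmap_smul _ _
    rw [e1, e2]
    have h1 : (algebraMap Λ K (v * c)) • k • z = algebraMap Λ K u • (algebraMap Λ K c • z) := by
      rw [smul_smul, smul_smul, map_mul, ← huv]
      congr 1
      field_simp
    rw [h1, h]
    rfl

/-- **integral states** -/
theorem exists_state_int {lam : α → ℕ} {mu : β → ℕ} {q : Λ} (hQ : QPrin Λ q) (hq0 : q ≠ 0)
    {e : ℕ} (hlam : ∀ a, lam a ≤ e) (S : Submodule Λ ((Blk lam → Λ) × (Blk mu → Λ)))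
    (hsat : ∀ (c : Λ) (z : (Blk lam → Λ) × (Blk mu → Λ)), c ≠ 0 → c • z ∈ S → z ∈ S)
    (hy : ∀ z ∈ S, (yL lam z.1, yL mu z.2) ∈ S)
    (hgr : ∀ w, ((0 : Blk lam → Λ), w) ∈ S → w = 0) :
    ∃ (N : ℕ) (deg : Fin N → ℕ) (s : RSt Λ (Fin N) α β),
      IsSt ⟨deg, lam, mu⟩ s ∧ (∀ q, deg q < e) ∧ N ≤ Fintype.card (Blk lam) ∧
      (∀ z : Fin N → Λ, RM ⟨deg, lam, mu⟩ s *ᵥ z = 0 → z = 0) ∧
      (∀ z : Fin N → Λ, (RM ⟨deg, lam, mu⟩ s *ᵥ z, MM ⟨deg, lam, mu⟩ s *ᵥ z) ∈ S) ∧
      ∀ p ∈ S, ∃ z : Fin N → Λ, RM ⟨deg, lam, mu⟩ s *ᵥ z = q ^ (N * (e + 1)) • p.1 ∧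
        MM ⟨deg, lam, mu⟩ s *ᵥ z = q ^ (N * (e + 1)) • p.2 := by
  classical
  let K := FractionRing Λ
  let E : Submodule K ((Blk lam → K) × (Blk mu → K)) := spanK K S
  have hinj : Function.Injective (algebraMap Λ K) := FaithfulSMul.algebraMap_injective Λ K
  have hcinj : ∀ {X : Type} {v w : X → Λ}, cmap K v = cmap K w → v = w := by
    intro X v w h
    funext x
    exact hinj (congrFun h x)
  have hpowS : ∀ (k : ℕ), ∀ p ∈ S, (((yL lam) ^ k) p.1, ((yL mu) ^ k) p.2) ∈ S := by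
    intro k
    induction k with
    | zero => intro p hp; exact hp
    | succ k ih =>
      intro p hp
      rw [pow_succ', pow_succ']
      exact hy _ (ih p hp)
  have hlam0 : ∀ v : Blk lam → Λ, ((yL lam) ^ e) v = 0 := by
    intro v
    funext x
    rw [yL_pow_apply, dif_neg]
    · rfl
    · have := x.2.2; have := hlam x.1; omega
  have hne : ∀ {c : Λ}, c ≠ 0 → algebraMap Λ K c ≠ 0 := fun hc h0 =>
    hc (hinj (by rw [h0, map_zero]))
  have hE : ∀ z ∈ E, (yL lam z.1, yL mu z.2) ∈ E := by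
    rintro z ⟨c, hc, p, hp, h⟩
    refine ⟨c, hc, _, hy p hp, ?_⟩
    have h1 : algebraMap Λ K c • z.1 = cmap K p.1 := congrArg Prod.fst h
    have h2 : algebraMap Λ K c • z.2 = cmap K p.2 := congrArg Prod.snd h
    refine Prod.ext ?_ ?_
    · show algebraMap Λ K c • yL lam z.1 = cmap K (yL lam p.1)
      rw [← map_smul, h1, yL_cmap]
    · show algebraMap Λ K c • yL mu z.2 = cmap K (yL mu p.2)
      rw [← map_smul, h2, yL_cmap]
  have hpow : ∀ z ∈ E, ((yL lam) ^ e) z.1 = 0 ∧ ((yL mu) ^ e) z.2 = 0 := by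
    rintro z ⟨c, hc, p, hp, h⟩
    have h1 : algebraMap Λ K c • z.1 = cmap K p.1 := congrArg Prod.fst h
    have h2 : algebraMap Λ K c • z.2 = cmap K p.2 := congrArg Prod.snd h
    have h3 := hpowS e p hp
    rw [hlam0] at h3
    have h4 := hgr _ h3
    constructor
    · have h5 : algebraMap Λ K c • ((yL lam) ^ e) z.1 = 0 := by
        rw [← map_smul, h1, yL_pow_cmap, hlam0, cmap_zero]
      exact (smul_eq_zero.1 h5).resolve_left (hne hc)
    · have h5 : algebraMap Λ K c • ((yL mu) ^ e) z.2 = 0 := by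
        rw [← map_smul, h2, yL_pow_cmap, h4, cmap_zero]
      exact (smul_eq_zero.1 h5).resolve_left (hne hc)
  obtain ⟨N, deg, s, hst, hdeg, hN, hΦ, hmem, hB⟩ := exists_state_of_pow hQ dvd_rfl hq0 E hE hpow
  have hRM : RM ⟨deg, lam, mu⟩ (smap (algebraMap Λ K) s) =
      (RM ⟨deg, lam, mu⟩ s).map (algebraMap Λ K) := RM_map (algebraMap Λ K) _ s
  have hMM : MM ⟨deg, lam, mu⟩ (smap (algebraMap Λ K) s) =
      (MM ⟨deg, lam, mu⟩ s).map (algebraMap Λ K) := MM_map (algebraMap Λ K) _ s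
  -- elements of the lattice
  have hSE : ∀ p ∈ S, (cmap K p.1, cmap K p.2) ∈ E := by
    intro p hp
    exact ⟨1, one_ne_zero, p, hp, by rw [map_one, one_smul]⟩
  have hES : ∀ p : (Blk lam → Λ) × (Blk mu → Λ), (cmap K p.1, cmap K p.2) ∈ E → p ∈ S := by
    rintro p ⟨c, hc, p', hp', h⟩
    have h1 : cmap K (c • p.1) = cmap K p'.1 := by
      rw [cmap_smul]; exact congrArg Prod.fst h
    have h2 : cmap K (c • p.2) = cmap K p'.2 := by
      rw [cmap_smul]; exact congrArg Prod.snd h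
    refine hsat c p hc ?_
    have : c • p = p' := Prod.ext (hcinj h1) (hcinj h2)
    rw [this]; exact hp'
  have hgraph : ∀ z : Fin N → K, RM ⟨deg, lam, mu⟩ (smap (algebraMap Λ K) s) *ᵥ z = 0 → z = 0 := by
    intro z hz
    have h1 := (hmem _).2 ⟨z, rfl⟩
    obtain ⟨c, hc, p, hp, h⟩ := h1
    have h2 : p.1 = 0 := by
      apply hcinj
      rw [cmap_zero]
      have := congrArg Prod.fst h
      simp only [Prod.smul_mk, hz, smul_zero] at this
      exact this.symm
    have h3 : p.2 = 0 := hgr _ (by rw [← h2]; exact hp)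
    apply hΦ z hz
    have := congrArg Prod.snd h
    simp only [Prod.smul_mk, h3, cmap_zero] at this
    exact (smul_eq_zero.1 this).resolve_left (hne hc)
  refine ⟨N, deg, s, hst, hdeg, ?_, ?_, ?_, ?_⟩
  · have h1 : Function.Injective
        (Matrix.mulVecLin (RM ⟨deg, lam, mu⟩ (smap (algebraMap Λ K) s))) := by
      rw [injective_iff_map_eq_zero]
      intro z hz
      exact hgraph z hz
    have h2 := LinearMap.finrank_le_finrank_of_injective h1
    simpa using h2
  · intro z hz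
    have h1 : RM ⟨deg, lam, mu⟩ (smap (algebraMap Λ K) s) *ᵥ cmap K z = 0 := by
      rw [hRM, ← cmap_mulVec, hz, cmap_zero]
    have h2 := hgraph _ h1
    exact hcinj (by rw [h2, cmap_zero])
  · intro z
    apply hES
    rw [hmem]
    exact ⟨cmap K z, by rw [hRM, hMM, ← cmap_mulVec, ← cmap_mulVec]⟩
  · intro p hp
    obtain ⟨z, hz⟩ := (hmem _).1 (hSE p hp)
    have hz1 : cmap K p.1 = RM ⟨deg, lam, mu⟩ (smap (algebraMap Λ K) s) *ᵥ z :=
      congrArg Prod.fst hz
    have hz2 : cmap K p.2 = MM ⟨deg, lam, mu⟩ (smap (algebraMap Λ K) s) *ᵥ z :=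
      congrArg Prod.snd hz
    have h1 := hB z (fun x => ⟨p.1 x, congrFun hz1 x⟩) (fun x => ⟨p.2 x, congrFun hz2 x⟩)
    choose c hc using h1
    have h2 : cmap K c = algebraMap Λ K (q ^ (N * (e + 1))) • z := by
      funext x
      rw [cmap_apply, hc, map_pow]
      rfl
    refine ⟨c, ?_, ?_⟩
    · apply hcinj
      rw [cmap_mulVec, h2, ← hRM, Matrix.mulVec_smul, ← hz1, cmap_smul]
    · apply hcinj
      rw [cmap_mulVec, h2, ← hMM, Matrix.mulVec_smul, ← hz2, cmap_smul]

end Pool.Agent.DEC.S2
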