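import Pool.Agent.DEC.Hens

/-!
Splitting: a subspace of `∏ V_i` over `ℚ` which is stable under `x = θ + y` is the product of
`K_i`-subspaces stable under `y`.
-/

set_option autoImplicit false
set_option linter.unusedSectionVars false

open Polynomial

namespace Pool.Agent.DEC.S2Split

open Hens

variable {ι : Type*} [Fintype ι] [DecidableEq ι] {K : ι → Type*} [∀ i, Field (K i)]
  [∀ i, Algebra ℚ (K i)] {V : ι → Type*} [∀ i, AddCommGroup (V i)] [∀ i, Module ℚ (V i)]
  [∀ i, Module (K i) (V i)] [∀ i, IsScalarTower ℚ (K i) (V i)]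

/-- `x = θ + y` on one factor -/
noncomputable def x1 (θ : ∀ i, K i) (y : ∀ i, Module.End (K i) (V i)) (i : ι) :
    Module.End ℚ (V i) :=
  ((θ i • (1 : Module.End (K i) (V i)) + y i).restrictScalars ℚ : Module.End ℚ (V i))

theorem x1_apply (θ : ∀ i, K i) (y : ∀ i, Module.End (K i) (V i)) (i : ι) (v : V i) :
    x1 θ y i v = θ i • v + y i v := rfl

/-- `x` on the product -/
noncomputable def xA (θ : ∀ i, K i) (y : ∀ i, Module.End (K i) (V i)) :
    Module.End ℚ (∀ i, V i) :=
  LinearMap.pi fun i => (x1 θ y i) ∘ₗ LinearMap.proj i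

theorem xA_apply (θ : ∀ i, K i) (y : ∀ i, Module.End (K i) (V i)) (v : ∀ i, V i) (i : ι) :
    xA θ y v i = θ i • v i + y i (v i) := rfl

theorem aeval_xA (θ : ∀ i, K i) (y : ∀ i, Module.End (K i) (V i)) (F : ℚ[X]) (v : ∀ i, V i)
    (i : ι) : (aeval (xA θ y) F) v i = (aeval (x1 θ y i) F) (v i) := by
  induction F using Polynomial.induction_on' generalizing v with
  | add p q hp hq =>
    rw [map_add, map_add, LinearMap.add_apply, LinearMap.add_apply, Pi.add_apply, hp, hq]
  | monomial n a =>
    have key : ∀ (n : ℕ) (v : ∀ i, V i), (xA θ y ^ n) v i = (x1 θ y i ^ n) (v i) := by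
      intro n
      induction n with
      | zero => intro v; rfl
      | succ n ih =>
        intro v
        rw [pow_succ, pow_succ, Module.End.mul_apply, Module.End.mul_apply, ih]
        rfl
    rw [aeval_monomial, aeval_monomial, Module.End.mul_apply, Module.End.mul_apply,
      Module.algebraMap_end_apply, Module.algebraMap_end_apply, Pi.smul_apply, key]

/-- **splitting** -/
theorem single_mem (θ : ∀ i, K i) (hint : ∀ i, IsIntegral ℚ (θ i))
    (hgen : ∀ i, Function.Surjective (aeval (θ i) : ℚ[X] → K i))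
    (hdis : ∀ i j, i ≠ j → minpoly ℚ (θ i) ≠ minpoly ℚ (θ j)) (y : ∀ i, Module.End (K i) (V i))
    {h : ℕ} (hy : ∀ i, y i ^ h = 0) (M : Submodule ℚ (∀ i, V i))
    (hM : ∀ v ∈ M, (fun i => θ i • v i + y i (v i)) ∈ M) {v : ∀ i, V i} (hv : v ∈ M) (i : ι)
    (c : K i) : Pi.single i (c • v i) ∈ M := by
  obtain ⟨F, hF⟩ := onto θ hint hgen hdis h (Pi.single i (C c))
  have hM' : ∀ (G : ℚ[X]), ∀ v ∈ M, (aeval (xA θ y) G) v ∈ M := by
    intro G
    induction G using Polynomial.induction_on' with
    | add p q hp hq =>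
      intro v hv
      rw [map_add, LinearMap.add_apply]
      exact M.add_mem (hp v hv) (hq v hv)
    | monomial n a =>
      intro v hv
      rw [aeval_monomial, Module.End.mul_apply, Module.algebraMap_end_apply]
      refine M.smul_mem _ ?_
      induction n with
      | zero => exact hv
      | succ n ih =>
        rw [pow_succ', Module.End.mul_apply]
        exact hM _ ih
  have h1 := hM' F v hv
  have h2 : (aeval (xA θ y) F) v = Pi.single i (c • v i) := by
    funext j
    rw [aeval_xA]
    have h3 : aeval (x1 θ y j) F = (aeval (y j) ((Pi.single i (C c) : ∀ i, (K i)[X]) j)).restrictScalars ℚ :=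
      aeval_op (θ j) (y j) (hy j) (hF j)
    rw [h3]
    by_cases hj : j = i
    · subst hj
      rw [Pi.single_eq_same, Pi.single_eq_same]
      simp
    · rw [Pi.single_eq_of_ne hj, Pi.single_eq_of_ne hj, map_zero]
      rfl
  rw [← h2]
  exact h1

end Pool.Agent.DEC.S2Split
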