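import Pool.Agent.DEC.SA

/-!
Lemma L (the approximation step): rows `c1` (index `S`), `c2` (index `T`), `t` (index `N`) of
length `S ⊕ D`.  The rows `c1, c2` generate, the rows `t, c1` are a unimodular system.
-/

open Topology Matrix

namespace Pool.Agent.DEC

set_option linter.unusedSectionVars false

variable {R A : Type*} [CommRing R] [CommRing A] [TopologicalSpace A] [IsTopologicalRing A]

theorem continuous_fromCols {m n1 n2 : Type*} :
    Continuous (fun z : Matrix m n1 A × Matrix m n2 A => fromCols z.1 z.2) := by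
  refine continuous_matrix ?_
  rintro i (j | j)
  · exact (continuous_fst.matrix_elem i j)
  · exact (continuous_snd.matrix_elem i j)

theorem map_fromCols {m n1 n2 : Type*} (ι : R →+* A) (X : Matrix m n1 R) (Y : Matrix m n2 R) :
    (fromCols X Y).map ι = fromCols (X.map ι) (Y.map ι) := by
  ext i (j | j) <;> rfl

theorem map_fromRows {m1 m2 n : Type*} (ι : R →+* A) (X : Matrix m1 n R) (Y : Matrix m2 n R) :
    (fromRows X Y).map ι = fromRows (X.map ι) (Y.map ι) := by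
  ext (i | i) j <;> rfl

variable {S N T D : Type*} [Fintype S] [DecidableEq S] [Fintype N] [DecidableEq N]
  [Fintype T] [DecidableEq T] [Fintype D] [DecidableEq D] {ι : R →+* A}

/-- approximate so that the second block becomes right invertible -/
theorem SAData.cols_right (h : SAData ι) (hc : Fintype.card N < Fintype.card D)
    (Y : Matrix N (S ⊕ D) A) {U : Set (Matrix N (S ⊕ D) A)} (hU : U ∈ 𝓝 Y) :
    ∃ (a : Matrix N S R) (b : Matrix N D R), (fromCols a b).map ι ∈ U ∧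
      ∃ X : Matrix D N R, b * X = 1 := by
  have hc0 : Continuous (fun z : Matrix N S A × Matrix N D A => fromCols z.1 z.2) :=
    continuous_fromCols
  have h0 : (fun z : Matrix N S A × Matrix N D A => fromCols z.1 z.2) ⁻¹' U
      ∈ 𝓝 (Y.toCols₁, Y.toCols₂) := by
    refine hc0.continuousAt.preimage_mem_nhds ?_
    simp only [fromCols_toCols]
    exact hU
  rw [nhds_prod_eq, Filter.mem_prod_iff] at h0
  obtain ⟨N0, hN0, N1, hN1, hNN⟩ := h0
  obtain ⟨a, ha⟩ := h.exists_mat hN0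
  obtain ⟨b, hb, X, hX⟩ := h.right_inv hc Y.toCols₂ hN1
  refine ⟨a, b, ?_, X, hX⟩
  rw [map_fromCols]
  exact hNN (Set.mk_mem_prod ha hb)

/-- approximate so that the second block becomes left invertible -/
theorem SAData.cols_left (h : SAData ι) (hc : Fintype.card D < Fintype.card T)
    (Y : Matrix T (S ⊕ D) A) {U : Set (Matrix T (S ⊕ D) A)} (hU : U ∈ 𝓝 Y) :
    ∃ (a : Matrix T S R) (b : Matrix T D R), (fromCols a b).map ι ∈ U ∧
      ∃ X : Matrix D T R, X * b = 1 := by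
  have hc0 : Continuous (fun z : Matrix T S A × Matrix T D A => fromCols z.1 z.2) :=
    continuous_fromCols
  have h0 : (fun z : Matrix T S A × Matrix T D A => fromCols z.1 z.2) ⁻¹' U
      ∈ 𝓝 (Y.toCols₁, Y.toCols₂) := by
    refine hc0.continuousAt.preimage_mem_nhds ?_
    simp only [fromCols_toCols]
    exact hU
  rw [nhds_prod_eq, Filter.mem_prod_iff] at h0
  obtain ⟨N0, hN0, N1, hN1, hNN⟩ := h0
  obtain ⟨a, ha⟩ := h.exists_mat hN0
  obtain ⟨b, hb, X, hX⟩ := h.left_inv hc Y.toCols₂ hN1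
  refine ⟨a, b, ?_, X, hX⟩
  rw [map_fromCols]
  exact hNN (Set.mk_mem_prod ha hb)

/-- `[a b; 1 0]` has a right inverse if `b` has one -/
theorem fromRows_right_inv (a : Matrix N S R) (b : Matrix N D R) (X : Matrix D N R)
    (hX : b * X = 1) : ∃ Y : Matrix (S ⊕ D) (N ⊕ S) R,
      fromRows (fromCols a b) (fromCols (1 : Matrix S S R) 0) * Y = 1 := by
  refine ⟨fromBlocks 0 1 X (-(X * a)), ?_⟩
  rw [fromRows_fromCols_eq_fromBlocks, fromBlocks_multiply, ← fromBlocks_one]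
  congr 1
  · rw [Matrix.mul_zero, zero_add, hX]
  · rw [Matrix.mul_one, Matrix.mul_neg, ← Matrix.mul_assoc, hX, Matrix.one_mul, add_neg_cancel]
  · simp
  · simp

/-- `[1 0; a b]` has a left inverse if `b` has one -/
theorem fromRows_left_inv (a : Matrix T S R) (b : Matrix T D R) (X : Matrix D T R)
    (hX : X * b = 1) : ∃ Y : Matrix (S ⊕ D) (S ⊕ T) R,
      Y * fromRows (fromCols (1 : Matrix S S R) 0) (fromCols a b) = 1 := by
  refine ⟨fromBlocks 1 0 (-(X * a)) X, ?_⟩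
  rw [fromRows_fromCols_eq_fromBlocks, fromBlocks_multiply, ← fromBlocks_one]
  congr 1
  · simp
  · simp
  · rw [Matrix.mul_one, neg_add_cancel]
  · rw [Matrix.mul_zero, zero_add, hX]

theorem nhds_mul_right {M C : Type*} [Fintype C] [DecidableEq C] {E F : Matrix C C A}
    (hEF : E * F = 1) (Y : Matrix M C A) {U : Set (Matrix M C A)} (hU : U ∈ 𝓝 Y) :
    (fun Z : Matrix M C A => Z * F) ⁻¹' U ∈ 𝓝 (Y * E) := by
  have hcont : Continuous (fun Z : Matrix M C A => Z * F) :=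
    Continuous.matrix_mul continuous_id continuous_const
  refine hcont.continuousAt.preimage_mem_nhds ?_
  rw [Matrix.mul_assoc, hEF, Matrix.mul_one]
  exact hU

theorem stdMat_inl : (stdMat (Sum.inl : S → S ⊕ D) : Matrix S (S ⊕ D) R)
    = fromCols (1 : Matrix S S R) 0 := by
  ext i (j | j)
  · simp [stdMat, Matrix.one_apply, Pi.single_apply, eq_comm]
  · simp [stdMat]

/-- the conditions: `c1, c2` generate and `t, c1` is a unimodular system -/
def Good (c1 : Matrix S (S ⊕ D) R) (c2 : Matrix T (S ⊕ D) R) (t : Matrix N (S ⊕ D) R) : Prop :=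
  (∃ Y : Matrix (S ⊕ D) (S ⊕ T) R, Y * fromRows c1 c2 = 1) ∧
    ∃ Y : Matrix (S ⊕ D) (N ⊕ S) R, fromRows t c1 * Y = 1

/-- Lemma L, strict case: `N < D < T`; no condition on the target at all. -/
theorem SAData.lemmaL_strict (h : SAData ι) (h1 : Fintype.card N < Fintype.card D)
    (h2 : Fintype.card D < Fintype.card T)
    (c1 : Matrix S (S ⊕ D) A) (c2 : Matrix T (S ⊕ D) A) (t : Matrix N (S ⊕ D) A)
    {U1 : Set (Matrix S (S ⊕ D) A)} (hU1 : U1 ∈ 𝓝 c1)
    {U2 : Set (Matrix T (S ⊕ D) A)} (hU2 : U2 ∈ 𝓝 c2)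
    {U3 : Set (Matrix N (S ⊕ D) A)} (hU3 : U3 ∈ 𝓝 t) :
    ∃ (d1 : Matrix S (S ⊕ D) R) (d2 : Matrix T (S ⊕ D) R) (s : Matrix N (S ⊕ D) R),
      d1.map ι ∈ U1 ∧ d2.map ι ∈ U2 ∧ s.map ι ∈ U3 ∧ Good d1 d2 s := by
  have hD : 0 < Fintype.card D := by omega
  obtain ⟨d0⟩ := Fintype.card_pos_iff.mp hD
  obtain ⟨d1, hd1, E, hE, hdE⟩ := h.sa1 (Function.Embedding.inl : S ↪ S ⊕ D) (Sum.inr d0)
    (fun i => by simp) c1 hU1
  have hdE' : d1 * E = fromCols (1 : Matrix S S R) 0 := by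
    rw [hdE]; exact stdMat_inl
  have hEu : IsUnit E.det := by rw [hE]; exact isUnit_one
  have hEE : E⁻¹ * E = 1 := Matrix.nonsing_inv_mul E hEu
  have hEE' : E * E⁻¹ = 1 := Matrix.mul_nonsing_inv E hEu
  have hEEm : E.map ι * (E⁻¹).map ι = 1 := by
    rw [← Matrix.map_mul, hEE', Matrix.map_one _ (map_zero ι) (map_one ι)]
  obtain ⟨a, b, hab, X, hX⟩ := h.cols_right h1 (t * E.map ι) (nhds_mul_right hEEm t hU3)
  obtain ⟨a', b', hab', X', hX'⟩ := h.cols_left h2 (c2 * E.map ι) (nhds_mul_right hEEm c2 hU2)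
  obtain ⟨Y, hY⟩ := fromRows_right_inv a b X hX
  obtain ⟨Y', hY'⟩ := fromRows_left_inv a' b' X' hX'
  refine ⟨d1, fromCols a' b' * E⁻¹, fromCols a b * E⁻¹, hd1, ?_, ?_, ⟨E * Y', ?_⟩, ⟨E * Y, ?_⟩⟩
  · rw [Matrix.map_mul]; exact hab'
  · rw [Matrix.map_mul]; exact hab
  · have e1 : fromRows d1 (fromCols a' b' * E⁻¹) = fromRows (fromCols 1 0) (fromCols a' b') * E⁻¹ := by
      rw [fromRows_mul, ← hdE', Matrix.mul_assoc, hEE', Matrix.mul_one]
    rw [e1, Matrix.mul_assoc, ← Matrix.mul_assoc Y', hY', Matrix.one_mul, hEE']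
  · have e1 : fromRows (fromCols a b * E⁻¹) d1 = fromRows (fromCols a b) (fromCols 1 0) * E⁻¹ := by
      rw [fromRows_mul, ← hdE', Matrix.mul_assoc d1, hEE', Matrix.mul_one]
    rw [e1, Matrix.mul_assoc, ← Matrix.mul_assoc E⁻¹, hEE, Matrix.one_mul, hY]

end Pool.Agent.DEC
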