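import Pool.Agent.DEC.SA

/-!
One step of the strong approximation, in matrix form.  `R` is the arithmetic ring, `K` the
topological field (for instance the field of fractions of `R` with the topology of the places above
`n`).  A frame (`r` columns) of a submodule of `R^k × R^g × R^n` is a triple of matrices; it is
split in `R^k × R^g` and onto `R^k × R^n`.
-/

open Topology Matrix

namespace Pool.Agent.DEC

set_option linter.unusedSectionVars false

section comp

variable {K : Type*} [Field K]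

/-- completion of right invertible matrices over a field: after column operations the matrix is
`(1, 0)` -/
theorem complete_field {a c : Type*} [Fintype a] [DecidableEq a] [Fintype c] [DecidableEq c]
    (X : Matrix a (a ⊕ c) K) (N : Matrix (a ⊕ c) a K) (hN : X * N = 1) :
    ∃ G : Matrix (a ⊕ c) (a ⊕ c) K, IsUnit G.det ∧ X * G = fromCols 1 0 := by
  have hs : Function.Surjective (Matrix.mulVecLin X) := by
    intro y
    refine ⟨N *ᵥ y, ?_⟩
    rw [mulVecLin_apply, mulVec_mulVec, hN, one_mulVec]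
  have h1 := LinearMap.finrank_range_add_finrank_ker (Matrix.mulVecLin X)
  rw [LinearMap.range_eq_top.2 hs, finrank_top, Module.finrank_pi, Module.finrank_pi,
    Fintype.card_sum] at h1
  have h2 : Module.finrank K (LinearMap.ker (Matrix.mulVecLin X)) = Fintype.card c := by omega
  obtain ⟨bc⟩ : Nonempty (Module.Basis c K (LinearMap.ker (Matrix.mulVecLin X))) :=
    ⟨(Module.finBasisOfFinrankEq K _ h2).reindex (Fintype.equivFin c).symm⟩
  obtain ⟨B, hB⟩ : ∃ B : Matrix (a ⊕ c) c K, ∀ i j, B i j = (bc j : a ⊕ c → K) i :=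
    ⟨Matrix.of fun i j => (bc j : a ⊕ c → K) i, fun _ _ => rfl⟩
  have hXB : X * B = 0 := by
    ext i j
    have h3 : Matrix.mulVecLin X (bc j : a ⊕ c → K) = 0 := (bc j).2
    rw [mulVecLin_apply] at h3
    have h4 : (X *ᵥ (bc j : a ⊕ c → K)) i = 0 := congrFun h3 i
    rw [mulVec, dotProduct] at h4
    rw [Matrix.zero_apply, Matrix.mul_apply, ← h4]
    exact Finset.sum_congr rfl fun l _ => by rw [hB]
  refine ⟨fromCols N B, ?_, ?_⟩
  · -- the columns are linearly independent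
    rw [← Matrix.isUnit_iff_isUnit_det, ← Matrix.mulVec_injective_iff_isUnit]
    have h3 : ∀ v, fromCols N B *ᵥ v = 0 → v = 0 := by
      intro v hv
      have e1 : fromCols N B *ᵥ v = N *ᵥ (v ∘ Sum.inl) + B *ᵥ (v ∘ Sum.inr) := by
        rw [← Sum.elim_comp_inl_inr v, fromCols_mulVec]
      rw [e1] at hv
      have e2 : v ∘ Sum.inl = 0 := by
        have e3 := congrArg (X *ᵥ ·) hv
        simp only [mulVec_add, mulVec_mulVec, hN, hXB, one_mulVec, zero_mulVec, add_zero,
          mulVec_zero] at e3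
        exact e3
      rw [e2, mulVec_zero, zero_add] at hv
      have e4 : ∑ j, v (Sum.inr j) • bc j = 0 := by
        apply Subtype.ext
        rw [AddSubmonoidClass.coe_finsetSum]
        funext i
        have e5 := congrFun hv i
        rw [mulVec, dotProduct] at e5
        rw [Finset.sum_apply]
        simp only [Submodule.coe_smul, Pi.smul_apply, smul_eq_mul, ZeroMemClass.coe_zero]
        rw [← e5]
        exact Finset.sum_congr rfl fun l _ => by rw [hB, Function.comp_apply, mul_comm]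
      have e6 := Fintype.linearIndependent_iff.1 bc.linearIndependent _ e4
      funext x
      rcases x with x | x
      · exact congrFun e2 x
      · exact e6 x
    intro v w hvw
    have h4 := h3 (v - w) (by rw [mulVec_sub]; exact sub_eq_zero.2 hvw)
    exact sub_eq_zero.1 h4
  · rw [mul_fromCols, hN, hXB]

end comp

section core

variable {R K : Type*} [CommRing R] [Field K] [TopologicalSpace K] [IsTopologicalRing K]

theorem map_one_submatrix (ι : R →+* K) {b k : Type*} [Fintype k] [DecidableEq k] (e : b → k) :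
    ((1 : Matrix k k R).submatrix e id).map ι = (1 : Matrix k k K).submatrix e id := by
  ext i j
  simp only [map_apply, submatrix_apply, id_eq, one_apply]
  split_ifs <;> simp

/-- a square matrix with a one sided inverse, normalised -/
theorem norm_sq {k b : Type*} [Fintype k] [DecidableEq k] [Fintype b] [DecidableEq b]
    (e : k ≃ b) (Y : Matrix b k K) (h : IsUnit (Y.submatrix e id).det) :
    Y * (Y.submatrix e id)⁻¹ = (1 : Matrix k k K).submatrix e.symm id := by
  have h1 : (Y.submatrix e id) * (Y.submatrix e id)⁻¹ = 1 := Matrix.mul_nonsing_inv _ h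
  have h2 : (Y * (Y.submatrix e id)⁻¹).submatrix e id = 1 := by
    rw [← h1]
    rfl
  rw [← h2]
  ext i j
  simp

/-- the core of the step, not all dimensions equal -/
theorem SAData.step_free {ι : R →+* K} (h : SAData ι) {k b n : Type*}
    [Fintype k] [DecidableEq k] [Fintype b] [DecidableEq b] [Fintype n] [DecidableEq n]
    (hnk : Fintype.card n ≤ Fintype.card k) (hkb : Fintype.card k ≤ Fintype.card b)
    (hnb : Fintype.card n < Fintype.card b)
    (Y2 : Matrix b k K) (Y3 : Matrix n k K) (N2 : Matrix k b K) (hN2 : N2 * Y2 = 1)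
    (N3 : Matrix k n K) (hN3 : Y3 * N3 = 1) :
    ∃ s : Matrix k k K, IsUnit s.det ∧
      ∀ U2 ∈ 𝓝 (Y2 * s), ∀ U3 ∈ 𝓝 (Y3 * s),
      ∃ (Z2 : Matrix b k R) (Z3 : Matrix n k R),
      (∃ N : Matrix k b R, N * Z2 = 1) ∧ (∃ N : Matrix k n R, Z3 * N = 1) ∧
      Z2.map ι ∈ U2 ∧ Z3.map ι ∈ U3 := by
  rcases hkb.lt_or_eq with hkb' | hkb'
  · rcases hnk.lt_or_eq with hnk' | hnk'
    · refine ⟨1, by simp, fun U2 hU2 U3 hU3 => ?_⟩
      obtain ⟨Z2, hZ2, N, hN⟩ := h.left_inv hkb' _ hU2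
      obtain ⟨Z3, hZ3, N', hN'⟩ := h.right_inv hnk' _ hU3
      exact ⟨Z2, Z3, ⟨N, hN⟩, ⟨N', hN'⟩, hZ2, hZ3⟩
    · obtain ⟨e⟩ : Nonempty (k ≃ n) := ⟨Fintype.equivOfCardEq hnk'.symm⟩
      have h1 : IsUnit (Y3.submatrix e id).det := by
        have h2 : Y3.submatrix e id * N3.submatrix id e = 1 := by
          have h3 : Y3.submatrix e id * N3.submatrix id e = (Y3 * N3).submatrix e e := rfl
          rw [h3, hN3]
          simp
        exact IsUnit.of_mul_eq_one _ (by rw [← det_mul, h2, det_one])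
      refine ⟨(Y3.submatrix e id)⁻¹, ?_, fun U2 hU2 U3 hU3 => ?_⟩
      · rw [Matrix.isUnit_nonsing_inv_det_iff]; exact h1
      obtain ⟨Z2, hZ2, N, hN⟩ := h.left_inv hkb' _ hU2
      refine ⟨Z2, (1 : Matrix k k R).submatrix e.symm id, ⟨N, hN⟩,
        ⟨(1 : Matrix k k R).submatrix id e.symm, ?_⟩, hZ2, ?_⟩
      · have h3 : (1 : Matrix k k R).submatrix e.symm id * (1 : Matrix k k R).submatrix id e.symm =
            ((1 : Matrix k k R) * 1).submatrix e.symm e.symm := rfl
        rw [h3, Matrix.one_mul]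
        simp
      · rw [map_one_submatrix, ← norm_sq e Y3 h1]
        exact mem_of_mem_nhds hU3
  · have hnk' : Fintype.card n < Fintype.card k := by omega
    obtain ⟨e⟩ : Nonempty (k ≃ b) := ⟨Fintype.equivOfCardEq hkb'⟩
    have h1 : IsUnit (Y2.submatrix e id).det := by
      have h2 : N2.submatrix id e * Y2.submatrix e id = 1 := by
        rw [submatrix_mul_equiv N2 Y2 id e id, hN2]
        simp
      exact IsUnit.of_mul_eq_one (N2.submatrix id e).det (by rw [mul_comm, ← det_mul, h2, det_one])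
    refine ⟨(Y2.submatrix e id)⁻¹, ?_, fun U2 hU2 U3 hU3 => ?_⟩
    · rw [Matrix.isUnit_nonsing_inv_det_iff]; exact h1
    obtain ⟨Z3, hZ3, N, hN⟩ := h.right_inv hnk' _ hU3
    refine ⟨(1 : Matrix k k R).submatrix e.symm id, Z3,
      ⟨(1 : Matrix k k R).submatrix id e.symm, ?_⟩, ⟨N, hN⟩, ?_, hZ3⟩
    · rw [submatrix_mul_equiv (1 : Matrix k k R) 1 id e.symm id, Matrix.one_mul]
      simp
    · rw [map_one_submatrix, ← norm_sq e Y2 h1]
      exact mem_of_mem_nhds hU2

theorem submatrix_cont {k n : Type*} (e : n → k) :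
    Continuous fun M : Matrix k k K => M.submatrix e id :=
  Continuous.matrix_submatrix continuous_id _ _

/-- the core of the step, all dimensions equal: a unit is needed -/
theorem SAData.step_unit {ι : R →+* K} (h : SAData ι) (hinv : InvCont K) {k b n : Type*}
    [Fintype k] [DecidableEq k] [Fintype b] [DecidableEq b] [Fintype n] [DecidableEq n]
    (e : k ≃ b) (e' : k ≃ n) (Y2 : Matrix b k K) (Y3 : Matrix n k K)
    (h2 : IsUnit (Y2.submatrix e id).det) (h3 : IsUnit (Y3.submatrix e' id).det) (ρ : K)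
    (hρ : (Y3.submatrix e' id).det = ρ * (Y2.submatrix e id).det) :
    ∃ s : Matrix k k K, IsUnit s.det ∧
      ∀ U2 ∈ 𝓝 (Y2 * s), ∀ U3 ∈ 𝓝 (Y3 * s), ∃ W ∈ 𝓝 ρ, ∀ u : R, IsUnit u → ι u ∈ W →
      ∃ (Z2 : Matrix b k R) (Z3 : Matrix n k R),
      (∃ N : Matrix k b R, N * Z2 = 1) ∧ (∃ N : Matrix k n R, Z3 * N = 1) ∧
      Z2.map ι ∈ U2 ∧ Z3.map ι ∈ U3 := by
  refine ⟨(Y2.submatrix e id)⁻¹, ?_, fun U2 hU2 U3 hU3 => ?_⟩
  · rw [Matrix.isUnit_nonsing_inv_det_iff]; exact h2
  have hZ : ∃ N : Matrix k b R, N * (1 : Matrix k k R).submatrix e.symm id = 1 := by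
    refine ⟨(1 : Matrix k k R).submatrix id e.symm, ?_⟩
    rw [submatrix_mul_equiv (1 : Matrix k k R) 1 id e.symm id, Matrix.one_mul]
    simp
  have hZ2 : ((1 : Matrix k k R).submatrix e.symm id).map ι ∈ U2 := by
    rw [map_one_submatrix, ← norm_sq e Y2 h2]
    exact mem_of_mem_nhds hU2
  rcases isEmpty_or_nonempty k with hk | hk
  · refine ⟨Set.univ, Filter.univ_mem, fun u _ _ => ⟨(1 : Matrix k k R).submatrix e.symm id, 0,
      hZ, ⟨0, ?_⟩, hZ2, ?_⟩⟩
    · have : IsEmpty n := e'.symm.isEmpty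
      exact Subsingleton.elim _ _
    · have : Subsingleton (Matrix n k K) := by
        have : IsEmpty n := e'.symm.isEmpty
        infer_instance
      rw [Subsingleton.elim ((0 : Matrix n k R).map ι) (Y3 * (Y2.submatrix e id)⁻¹)]
      exact mem_of_mem_nhds hU3
  obtain ⟨X, hX⟩ : ∃ X : Matrix k k K, X = (Y3 * (Y2.submatrix e id)⁻¹).submatrix e' id := ⟨_, rfl⟩
  have hXd : X.det = ρ := by
    have e1 : X = Y3.submatrix e' id * (Y2.submatrix e id)⁻¹ := hX
    rw [e1, det_mul, hρ, det_nonsing_inv, mul_assoc, Ring.mul_inverse_cancel _ h2, mul_one]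
  have hρu : IsUnit ρ := by
    rw [hρ] at h3
    exact isUnit_of_mul_isUnit_left h3
  have hXe : X.submatrix e'.symm id = Y3 * (Y2.submatrix e id)⁻¹ := by
    rw [hX]
    ext i j
    simp
  obtain ⟨W, hW, hW'⟩ := h.sa2' hinv X (by rw [hXd]; exact hρu)
    (U := (fun M : Matrix k k K => M.submatrix e'.symm id) ⁻¹' U3)
    ((submatrix_cont (K := K) e'.symm).continuousAt.preimage_mem_nhds (by rw [hXe]; exact hU3))
  refine ⟨W, by rw [← hXd]; exact hW, fun u hu huW => ?_⟩
  have hu0 : u ≠ 0 := by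
    rintro rfl
    have h4 := hu.map ι
    rw [map_zero] at h4
    exact not_isUnit_zero h4
  obtain ⟨M, hM, hMd⟩ := hW' u hu0 huW
  have hMu : IsUnit M.det := by rw [hMd]; exact hu
  refine ⟨(1 : Matrix k k R).submatrix e.symm id, M.submatrix e'.symm id, hZ,
    ⟨M⁻¹.submatrix id e'.symm, ?_⟩, hZ2, hM⟩
  have h5 : M.submatrix e'.symm id * M⁻¹.submatrix id e'.symm =
      (M * M⁻¹).submatrix e'.symm e'.symm := rfl
  rw [h5, Matrix.mul_nonsing_inv _ hMu]
  simp

/-- block form of the determinants -/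
theorem det_blk {a k b : Type*} [Fintype a] [DecidableEq a] [Fintype k] [DecidableEq k]
    (e : k ≃ b) (X1 : Matrix b a K) (X2 : Matrix b k K) :
    ((fromRows (fromCols (1 : Matrix a a K) (0 : Matrix a k K)) (fromCols X1 X2)).submatrix
      (Equiv.sumCongr (Equiv.refl a) e) id).det = (X2.submatrix e id).det := by
  have h1 : (fromRows (fromCols (1 : Matrix a a K) (0 : Matrix a k K))
      (fromCols X1 X2)).submatrix (Equiv.sumCongr (Equiv.refl a) e) id =
      fromBlocks 1 0 (X1.submatrix e id) (X2.submatrix e id) := by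
    ext i j
    rcases i with i | i <;> rcases j with j | j <;> rfl
  rw [h1, det_fromBlocks_zero₁₂, det_one, one_mul]

/-- lower right block of a left invertible matrix -/
theorem left_inv_blk {S : Type*} [CommRing S] {a k b : Type*} [Fintype a] [DecidableEq a]
    [Fintype k] [DecidableEq k] [Fintype b] [DecidableEq b]
    (X1 : Matrix b a S) (X2 : Matrix b k S) (N : Matrix (a ⊕ k) (a ⊕ b) S)
    (hN : N * fromRows (fromCols (1 : Matrix a a S) (0 : Matrix a k S)) (fromCols X1 X2) = 1) :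
    ∃ N' : Matrix k b S, N' * X2 = 1 := by
  refine ⟨N.toBlocks₂₂, ?_⟩
  have h1 : fromRows (fromCols (1 : Matrix a a S) (0 : Matrix a k S)) (fromCols X1 X2) =
      fromBlocks 1 0 X1 X2 := by
    ext i j
    rcases i with i | i <;> rcases j with j | j <;> rfl
  rw [h1, ← fromBlocks_toBlocks N, fromBlocks_multiply, ← fromBlocks_one] at hN
  have h2 := (fromBlocks_inj.1 hN).2.2.2
  rw [Matrix.mul_zero, zero_add] at h2
  exact h2

/-- lower right block of a right invertible matrix -/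
theorem right_inv_blk {S : Type*} [CommRing S] {a k n : Type*} [Fintype a] [DecidableEq a]
    [Fintype k] [DecidableEq k] [Fintype n] [DecidableEq n]
    (X1 : Matrix n a S) (X2 : Matrix n k S) (N : Matrix (a ⊕ k) (a ⊕ n) S)
    (hN : fromRows (fromCols (1 : Matrix a a S) (0 : Matrix a k S)) (fromCols X1 X2) * N = 1) :
    ∃ N' : Matrix k n S, X2 * N' = 1 := by
  refine ⟨N.toBlocks₂₂, ?_⟩
  have h1 : fromRows (fromCols (1 : Matrix a a S) (0 : Matrix a k S)) (fromCols X1 X2) =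
      fromBlocks 1 0 X1 X2 := by
    ext i j
    rcases i with i | i <;> rcases j with j | j <;> rfl
  rw [h1, ← fromBlocks_toBlocks N, fromBlocks_multiply, ← fromBlocks_one] at hN
  have h2 := (fromBlocks_inj.1 hN).2.2.2
  have h3 := (fromBlocks_inj.1 hN).2.1
  rw [Matrix.one_mul, Matrix.zero_mul, add_zero] at h3
  rw [h3, Matrix.mul_zero, zero_add] at h2
  exact h2

/-- assembling a left invertible matrix -/
theorem blk_left_inv {S : Type*} [CommRing S] {a k b : Type*} [Fintype a] [DecidableEq a]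
    [Fintype k] [DecidableEq k] [Fintype b] [DecidableEq b]
    (X1 : Matrix b a S) (X2 : Matrix b k S) (N : Matrix k b S) (hN : N * X2 = 1) :
    ∃ N' : Matrix (a ⊕ k) (a ⊕ b) S,
      N' * fromRows (fromCols (1 : Matrix a a S) (0 : Matrix a k S)) (fromCols X1 X2) = 1 := by
  refine ⟨fromBlocks 1 0 (-(N * X1)) N, ?_⟩
  have h1 : fromRows (fromCols (1 : Matrix a a S) (0 : Matrix a k S)) (fromCols X1 X2) =
      fromBlocks 1 0 X1 X2 := by
    ext i j
    rcases i with i | i <;> rcases j with j | j <;> rfl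
  rw [h1, fromBlocks_multiply, ← fromBlocks_one, hN]
  simp

/-- assembling a right invertible matrix -/
theorem blk_right_inv {S : Type*} [CommRing S] {a k n : Type*} [Fintype a] [DecidableEq a]
    [Fintype k] [DecidableEq k] [Fintype n] [DecidableEq n]
    (X1 : Matrix n a S) (X2 : Matrix n k S) (N : Matrix k n S) (hN : X2 * N = 1) :
    ∃ N' : Matrix (a ⊕ k) (a ⊕ n) S,
      fromRows (fromCols (1 : Matrix a a S) (0 : Matrix a k S)) (fromCols X1 X2) * N' = 1 := by
  refine ⟨fromBlocks 1 0 (-(N * X1)) N, ?_⟩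
  have h1 : fromRows (fromCols (1 : Matrix a a S) (0 : Matrix a k S)) (fromCols X1 X2) =
      fromBlocks 1 0 X1 X2 := by
    ext i j
    rcases i with i | i <;> rcases j with j | j <;> rfl
  have h2 : X2 * (N * X1) = X1 := by rw [← Matrix.mul_assoc, hN, Matrix.one_mul]
  rw [h1, fromBlocks_multiply, ← fromBlocks_one, hN]
  simp [Matrix.mul_neg, h2]

theorem card_le_of_inv {b k : Type*} [Fintype k] [DecidableEq k] [Fintype b]
    [DecidableEq b] (N : Matrix k b K) (X : Matrix b k K) (h : N * X = 1) :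
    Fintype.card k ≤ Fintype.card b := by
  have h1 : Function.Injective (Matrix.mulVecLin X) := by
    intro v w hvw
    have h2 := congrArg (N *ᵥ ·) hvw
    simpa [mulVecLin_apply, mulVec_mulVec, h] using h2
  have h3 := LinearMap.finrank_le_finrank_of_injective h1
  rwa [Module.finrank_pi, Module.finrank_pi] at h3

theorem fromCols_cont {a c g : Type*} :
    Continuous fun p : Matrix g a K × Matrix g c K => fromCols p.1 p.2 := by
  refine continuous_matrix fun i j => ?_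
  rcases j with j | j
  · exact continuous_fst.matrix_elem i j
  · exact continuous_snd.matrix_elem i j

theorem map_fromCols {S : Type*} [CommRing S] (ι : S →+* K) {a c g : Type*}
    (P : Matrix g a S) (Z : Matrix g c S) :
    (fromCols P Z).map ι = fromCols (P.map ι) (Z.map ι) := by
  ext i j
  rcases j with j | j <;> rfl

theorem cols_mul_diag {a c q : Type*} [Fintype a] [DecidableEq a] [Fintype c] [DecidableEq c]
    (s : Matrix c c K) (P : Matrix q a K) (Z : Matrix q c K) :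
    fromCols P Z * fromBlocks (1 : Matrix a a K) 0 0 s = fromCols P (Z * s) := by
  rw [fromCols_mul_fromBlocks]
  simp

/-- assembling the approximation -/
theorem SAData.asm {ι : R →+* K} (h : SAData ι) {a c g n : Type*}
    [Fintype a] [DecidableEq a] [Fintype c] [DecidableEq c] [Fintype g] [DecidableEq g]
    [Fintype n] [DecidableEq n]
    (X2 : Matrix a (a ⊕ c) K) (X1 : Matrix g (a ⊕ c) K) (Y : Matrix n (a ⊕ c) K)
    (G0 : Matrix (a ⊕ c) (a ⊕ c) K) (hG0 : IsUnit G0.det) (hX2 : X2 * G0 = fromCols 1 0)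
    (s : Matrix c c K) (hs : IsUnit s.det) :
    ∃ G : Matrix (a ⊕ c) (a ⊕ c) K, IsUnit G.det ∧ ∀ U ∈ 𝓝 (X2 * G, X1 * G, Y * G),
      ∃ V2 ∈ 𝓝 ((X1 * G0).toCols₂ * s), ∃ V3 ∈ 𝓝 ((Y * G0).toCols₂ * s),
      ∀ (Z2 : Matrix g c R) (Z3 : Matrix n c R),
      (∃ N : Matrix c g R, N * Z2 = 1) → (∃ N : Matrix c n R, Z3 * N = 1) →
      Z2.map ι ∈ V2 → Z3.map ι ∈ V3 →
      ∃ (M2 : Matrix a (a ⊕ c) R) (M1 : Matrix g (a ⊕ c) R) (T : Matrix n (a ⊕ c) R),
        (M2.map ι, M1.map ι, T.map ι) ∈ U ∧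
          (∃ N : Matrix (a ⊕ c) (a ⊕ g) R, N * fromRows M2 M1 = 1) ∧
          ∃ N : Matrix (a ⊕ c) (a ⊕ n) R, fromRows M2 T * N = 1 := by
  refine ⟨G0 * fromBlocks 1 0 0 s, ?_, ?_⟩
  · rw [det_mul, det_fromBlocks_zero₁₂, det_one, one_mul]
    exact hG0.mul hs
  have e2 : X2 * (G0 * fromBlocks 1 0 0 s) = fromCols 1 0 := by
    rw [← Matrix.mul_assoc, hX2, cols_mul_diag, Matrix.zero_mul]
  have e1 : X1 * (G0 * fromBlocks 1 0 0 s) =
      fromCols (X1 * G0).toCols₁ ((X1 * G0).toCols₂ * s) := by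
    rw [← Matrix.mul_assoc]
    conv_lhs => rw [← fromCols_toCols (X1 * G0)]
    rw [cols_mul_diag]
  have e3 : Y * (G0 * fromBlocks 1 0 0 s) =
      fromCols (Y * G0).toCols₁ ((Y * G0).toCols₂ * s) := by
    rw [← Matrix.mul_assoc]
    conv_lhs => rw [← fromCols_toCols (Y * G0)]
    rw [cols_mul_diag]
  intro U hU
  rw [e1, e2, e3] at hU
  obtain ⟨U2, hU2, U', hU', hUU⟩ := mem_nhds_prod_iff.1 hU
  obtain ⟨U1, hU1, U3, hU3, hUU'⟩ := mem_nhds_prod_iff.1 hU'
  have hc1 := (fromCols_cont (K := K) (a := a) (c := c) (g := g)).continuousAt.preimage_mem_nhds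
    (x := ((X1 * G0).toCols₁, (X1 * G0).toCols₂ * s)) hU1
  have hc3 := (fromCols_cont (K := K) (a := a) (c := c) (g := n)).continuousAt.preimage_mem_nhds
    (x := ((Y * G0).toCols₁, (Y * G0).toCols₂ * s)) hU3
  obtain ⟨V1, hV1, V2, hV2, hV⟩ := mem_nhds_prod_iff.1 hc1
  obtain ⟨V3, hV3, V4, hV4, hV'⟩ := mem_nhds_prod_iff.1 hc3
  refine ⟨V2, hV2, V4, hV4, ?_⟩
  rintro Z2 Z3 ⟨N2, hN2⟩ ⟨N3, hN3⟩ hZ2 hZ3
  obtain ⟨P1, hP1⟩ := h.exists_mat hV1
  obtain ⟨P3, hP3⟩ := h.exists_mat hV3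
  refine ⟨fromCols 1 0, fromCols P1 Z2, fromCols P3 Z3, ?_, blk_left_inv P1 Z2 N2 hN2,
    blk_right_inv P3 Z3 N3 hN3⟩
  refine hUU ⟨?_, hUU' ⟨?_, ?_⟩⟩
  · show (fromCols (1 : Matrix a a R) (0 : Matrix a c R)).map ι ∈ U2
    rw [map_fromCols]
    have e4 : (1 : Matrix a a R).map ι = 1 := Matrix.map_one ι (map_zero _) (map_one _)
    have e5 : (0 : Matrix a c R).map ι = 0 := Matrix.map_zero ι (map_zero _)
    rw [e4, e5]
    exact mem_of_mem_nhds hU2
  · show (fromCols P1 Z2).map ι ∈ U1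
    rw [map_fromCols]
    exact hV (Set.mk_mem_prod hP1 hZ2)
  · show (fromCols P3 Z3).map ι ∈ U3
    rw [map_fromCols]
    exact hV' (Set.mk_mem_prod hP3 hZ3)

/-- there is a frame over `R` in `U` which is split in `R^a × R^g` and onto `R^a × R^n` -/
def GoodIn (ι : R →+* K) {a g n r : Type*} [Fintype a] [DecidableEq a] [Fintype g]
    [DecidableEq g] [Fintype n] [DecidableEq n] [Fintype r] [DecidableEq r]
    (U : Set (Matrix a r K × Matrix g r K × Matrix n r K)) : Prop :=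
  ∃ (M2 : Matrix a r R) (M1 : Matrix g r R) (T : Matrix n r R),
    (M2.map ι, M1.map ι, T.map ι) ∈ U ∧
      (∃ N : Matrix r (a ⊕ g) R, N * fromRows M2 M1 = 1) ∧
      ∃ N : Matrix r (a ⊕ n) R, fromRows M2 T * N = 1

section sum

variable {a c g n : Type*} [Fintype a] [DecidableEq a] [Fintype c] [DecidableEq c] [Fintype g]
  [DecidableEq g] [Fintype n] [DecidableEq n]

theorem rows_mul_eq {q : Type*} (X2 : Matrix a (a ⊕ c) K) (G0 : Matrix (a ⊕ c) (a ⊕ c) K)
    (hX : X2 * G0 = fromCols 1 0) (Z : Matrix q (a ⊕ c) K) : fromRows X2 Z * G0 =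
      fromRows (fromCols 1 0) (fromCols (Z * G0).toCols₁ (Z * G0).toCols₂) := by
  rw [fromRows_mul, hX, fromCols_toCols]

/-- normalisation of the first rows -/
theorem sum_prep (X2 : Matrix a (a ⊕ c) K) (X1 : Matrix g (a ⊕ c) K) (Y : Matrix n (a ⊕ c) K)
    (NL : Matrix (a ⊕ c) (a ⊕ g) K) (hL : NL * fromRows X2 X1 = 1)
    (NR : Matrix (a ⊕ c) (a ⊕ n) K) (hR : fromRows X2 Y * NR = 1) :
    ∃ G0 : Matrix (a ⊕ c) (a ⊕ c) K, IsUnit G0.det ∧ X2 * G0 = fromCols 1 0 ∧
      (∃ N : Matrix c g K, N * (X1 * G0).toCols₂ = 1) ∧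
      (∃ N : Matrix c n K, (Y * G0).toCols₂ * N = 1) ∧
      (∀ e : c ≃ g, ((fromRows X2 X1).submatrix (Equiv.sumCongr (Equiv.refl a) e) id).det * G0.det
        = ((X1 * G0).toCols₂.submatrix e id).det) ∧
      (∀ e : c ≃ n, ((fromRows X2 Y).submatrix (Equiv.sumCongr (Equiv.refl a) e) id).det * G0.det
        = ((Y * G0).toCols₂.submatrix e id).det) := by
  have h1 : X2 * NR.submatrix id Sum.inl = 1 := by
    have h2 : (fromRows X2 Y * NR).toBlocks₁₁ = (1 : Matrix (a ⊕ n) (a ⊕ n) K).toBlocks₁₁ := by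
      rw [hR]
    rw [← fromBlocks_one, toBlocks_fromBlocks₁₁] at h2
    rw [← h2]
    rfl
  obtain ⟨G0, hG0, hX⟩ := complete_field X2 _ h1
  refine ⟨G0, hG0, hX, ?_, ?_, ?_, ?_⟩
  · refine left_inv_blk (X1 * G0).toCols₁ _ (G0⁻¹ * NL) ?_
    rw [← rows_mul_eq X2 G0 hX X1, Matrix.mul_assoc, ← Matrix.mul_assoc NL, hL, Matrix.one_mul,
      Matrix.nonsing_inv_mul _ hG0]
  · refine right_inv_blk (Y * G0).toCols₁ _ (G0⁻¹ * NR) ?_
    rw [← rows_mul_eq X2 G0 hX Y, Matrix.mul_assoc, ← Matrix.mul_assoc G0,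
      Matrix.mul_nonsing_inv _ hG0, Matrix.one_mul, hR]
  · intro e
    rw [← det_blk e (X1 * G0).toCols₁, ← rows_mul_eq X2 G0 hX X1, ← det_mul]
    rfl
  · intro e
    rw [← det_blk e (Y * G0).toCols₁, ← rows_mul_eq X2 G0 hX Y, ← det_mul]
    rfl

/-- the step, not all dimensions equal -/
theorem SAData.sum_free {ι : R →+* K} (h : SAData ι)
    (X2 : Matrix a (a ⊕ c) K) (X1 : Matrix g (a ⊕ c) K) (Y : Matrix n (a ⊕ c) K)
    (NL : Matrix (a ⊕ c) (a ⊕ g) K) (hL : NL * fromRows X2 X1 = 1)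
    (NR : Matrix (a ⊕ c) (a ⊕ n) K) (hR : fromRows X2 Y * NR = 1)
    (hng : Fintype.card n < Fintype.card g) :
    ∃ G : Matrix (a ⊕ c) (a ⊕ c) K, IsUnit G.det ∧ ∀ U ∈ 𝓝 (X2 * G, X1 * G, Y * G),
      GoodIn ι U := by
  obtain ⟨G0, hG0, hX, ⟨N2, hN2⟩, ⟨N3, hN3⟩, -, -⟩ := sum_prep X2 X1 Y NL hL NR hR
  have hcg := card_le_of_inv N2 _ hN2
  have hnc : Fintype.card n ≤ Fintype.card c := by
    refine card_le_of_inv (Y * G0).toCols₂ N3 hN3
  obtain ⟨s, hs, H⟩ := h.step_free hnc hcg hng _ _ N2 hN2 N3 hN3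
  obtain ⟨G, hG, H'⟩ := h.asm X2 X1 Y G0 hG0 hX s hs
  refine ⟨G, hG, fun U hU => ?_⟩
  obtain ⟨V2, hV2, V3, hV3, H''⟩ := H' U hU
  obtain ⟨Z2, Z3, hZ2, hZ3, k2, k3⟩ := H V2 hV2 V3 hV3
  exact H'' Z2 Z3 hZ2 hZ3 k2 k3

/-- the step, all dimensions equal -/
theorem SAData.sum_unit {ι : R →+* K} (h : SAData ι) (hinv : InvCont K)
    (X2 : Matrix a (a ⊕ c) K) (X1 : Matrix g (a ⊕ c) K) (Y : Matrix n (a ⊕ c) K)
    (NL : Matrix (a ⊕ c) (a ⊕ g) K) (hL : NL * fromRows X2 X1 = 1)
    (NR : Matrix (a ⊕ c) (a ⊕ n) K) (hR : fromRows X2 Y * NR = 1)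
    (e : c ≃ g) (e' : c ≃ n) (ρ : K)
    (hρ : ((fromRows X2 Y).submatrix (Equiv.sumCongr (Equiv.refl a) e') id).det =
      ρ * ((fromRows X2 X1).submatrix (Equiv.sumCongr (Equiv.refl a) e) id).det) :
    ∃ G : Matrix (a ⊕ c) (a ⊕ c) K, IsUnit G.det ∧ ∀ U ∈ 𝓝 (X2 * G, X1 * G, Y * G),
      ∃ W ∈ 𝓝 ρ, ∀ u : R, IsUnit u → ι u ∈ W → GoodIn ι U := by
  obtain ⟨G0, hG0, hX, ⟨N2, hN2⟩, ⟨N3, hN3⟩, h1, h2⟩ := sum_prep X2 X1 Y NL hL NR hR
  have k2 : IsUnit ((X1 * G0).toCols₂.submatrix e id).det := by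
    have k4 : N2.submatrix id e * (X1 * G0).toCols₂.submatrix e id = 1 := by
      rw [submatrix_mul_equiv N2 _ id e id, hN2]
      simp
    exact IsUnit.of_mul_eq_one (N2.submatrix id e).det (by rw [mul_comm, ← det_mul, k4, det_one])
  have k3 : IsUnit ((Y * G0).toCols₂.submatrix e' id).det := by
    have k4 : (Y * G0).toCols₂.submatrix e' id * N3.submatrix id e' =
        ((Y * G0).toCols₂ * N3).submatrix e' e' := rfl
    rw [hN3] at k4
    refine IsUnit.of_mul_eq_one (N3.submatrix id e').det ?_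
    rw [← det_mul, k4]
    simp
  obtain ⟨s, hs, H⟩ := h.step_unit hinv e e' _ _ k2 k3 ρ (by
    rw [← h1 e, ← h2 e', hρ, mul_assoc])
  obtain ⟨G, hG, H'⟩ := h.asm X2 X1 Y G0 hG0 hX s hs
  refine ⟨G, hG, fun U hU => ?_⟩
  obtain ⟨V2, hV2, V3, hV3, H''⟩ := H' U hU
  obtain ⟨W, hW, H3⟩ := H V2 hV2 V3 hV3
  refine ⟨W, hW, fun u hu huW => ?_⟩
  obtain ⟨Z2, Z3, hZ2, hZ3, k2, k3⟩ := H3 u hu huW
  exact H'' Z2 Z3 hZ2 hZ3 k2 k3

end sum

section gen

variable {a g n r : Type*} [Fintype a] [DecidableEq a] [Fintype g]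
  [DecidableEq g] [Fintype n] [DecidableEq n] [Fintype r] [DecidableEq r]

/-- reindexing the columns -/
theorem goodIn_reindex {c : Type*} [Fintype c] [DecidableEq c] {ι : R →+* K} (e : r ≃ a ⊕ c)
    {U : Set (Matrix a r K × Matrix g r K × Matrix n r K)}
    (h : GoodIn ι {p : Matrix a (a ⊕ c) K × Matrix g (a ⊕ c) K × Matrix n (a ⊕ c) K |
      (p.1.submatrix id e, p.2.1.submatrix id e, p.2.2.submatrix id e) ∈ U}) : GoodIn ι U := by
  obtain ⟨M2, M1, T, hU, ⟨N, hN⟩, ⟨N', hN'⟩⟩ := h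
  refine ⟨M2.submatrix id e, M1.submatrix id e, T.submatrix id e, hU,
    ⟨N.submatrix e id, ?_⟩, ⟨N'.submatrix e id, ?_⟩⟩
  · have h1 : fromRows (M2.submatrix id e) (M1.submatrix id e) =
        (fromRows M2 M1).submatrix id e := by
      ext i j
      rcases i with i | i <;> rfl
    have h2 : N.submatrix e id * (fromRows M2 M1).submatrix id e =
        (N * fromRows M2 M1).submatrix e e := rfl
    rw [h1, h2, hN]
    simp
  · have h1 : fromRows (M2.submatrix id e) (T.submatrix id e) =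
        (fromRows M2 T).submatrix id e := by
      ext i j
      rcases i with i | i <;> rfl
    rw [h1, submatrix_mul_equiv (fromRows M2 T) N' id e id, hN']
    simp

theorem nhds_reindex {c : Type*} (e : r ≃ a ⊕ c)
    {U : Set (Matrix a r K × Matrix g r K × Matrix n r K)}
    (X2 : Matrix a (a ⊕ c) K) (X1 : Matrix g (a ⊕ c) K) (Y : Matrix n (a ⊕ c) K)
    (hU : U ∈ 𝓝 (X2.submatrix id e, X1.submatrix id e, Y.submatrix id e)) :
    {p : Matrix a (a ⊕ c) K × Matrix g (a ⊕ c) K × Matrix n (a ⊕ c) K |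
      (p.1.submatrix id e, p.2.1.submatrix id e, p.2.2.submatrix id e) ∈ U} ∈ 𝓝 (X2, X1, Y) := by
  have hc : Continuous fun p : Matrix a (a ⊕ c) K × Matrix g (a ⊕ c) K × Matrix n (a ⊕ c) K =>
      (p.1.submatrix id e, p.2.1.submatrix id e, p.2.2.submatrix id e) := by
    refine (Continuous.matrix_submatrix continuous_fst _ _).prodMk
      ((Continuous.matrix_submatrix (continuous_fst.comp continuous_snd) _ _).prodMk
      (Continuous.matrix_submatrix (continuous_snd.comp continuous_snd) _ _))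
  exact hc.continuousAt.preimage_mem_nhds hU

theorem sub_mul_sub {q c : Type*} [Fintype c] [DecidableEq c] (e : r ≃ a ⊕ c) (X : Matrix q r K)
    (G : Matrix (a ⊕ c) (a ⊕ c) K) : X * G.submatrix e e =
      (X.submatrix id e.symm * G).submatrix id e := by
  have h1 : X = (X.submatrix id e.symm).submatrix id e := by
    ext i j
    simp
  conv_lhs => rw [h1]
  exact submatrix_mul_equiv (X.submatrix id e.symm) G id e e

theorem left_sub {q c : Type*} [Fintype c] [DecidableEq c] [Fintype q] [DecidableEq q]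
    (e : r ≃ a ⊕ c) (X2 : Matrix a r K)
    (X1 : Matrix q r K) (N : Matrix r (a ⊕ q) K) (h : N * fromRows X2 X1 = 1) :
    N.submatrix e.symm id * fromRows (X2.submatrix id e.symm) (X1.submatrix id e.symm) = 1 := by
  have h1 : fromRows (X2.submatrix id e.symm) (X1.submatrix id e.symm) =
      (fromRows X2 X1).submatrix id e.symm := by
    ext i j
    rcases i with i | i <;> rfl
  have h2 : N.submatrix e.symm id * (fromRows X2 X1).submatrix id e.symm =
      (N * fromRows X2 X1).submatrix e.symm e.symm := rfl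
  rw [h1, h2, h]
  simp

theorem right_sub {q c : Type*} [Fintype c] [DecidableEq c] [Fintype q] [DecidableEq q]
    (e : r ≃ a ⊕ c) (X2 : Matrix a r K)
    (Y : Matrix q r K) (N : Matrix r (a ⊕ q) K) (h : fromRows X2 Y * N = 1) :
    fromRows (X2.submatrix id e.symm) (Y.submatrix id e.symm) * N.submatrix e.symm id = 1 := by
  have h1 : fromRows (X2.submatrix id e.symm) (Y.submatrix id e.symm) =
      (fromRows X2 Y).submatrix id e.symm := by
    ext i j
    rcases i with i | i <;> rfl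
  rw [h1, submatrix_mul_equiv (fromRows X2 Y) N id e.symm id, h]
  simp

/-- **one step of the strong approximation**, not all dimensions equal -/
theorem SAData.sa3_free {ι : R →+* K} (h : SAData ι)
    (X2 : Matrix a r K) (X1 : Matrix g r K) (Y : Matrix n r K)
    (hL : ∃ N : Matrix r (a ⊕ g) K, N * fromRows X2 X1 = 1)
    (hR : ∃ N : Matrix r (a ⊕ n) K, fromRows X2 Y * N = 1)
    (hng : Fintype.card n < Fintype.card g) :
    ∃ G : Matrix r r K, IsUnit G.det ∧ ∀ U ∈ 𝓝 (X2 * G, X1 * G, Y * G), GoodIn ι U := by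
  obtain ⟨NL, hL⟩ := hL
  obtain ⟨NR, hR⟩ := hR
  have hcr : Fintype.card (a ⊕ n) ≤ Fintype.card r := card_le_of_inv (fromRows X2 Y) NR hR
  rw [Fintype.card_sum] at hcr
  obtain ⟨e⟩ : Nonempty (r ≃ a ⊕ Fin (Fintype.card r - Fintype.card a)) := by
    refine ⟨Fintype.equivOfCardEq ?_⟩
    rw [Fintype.card_sum, Fintype.card_fin]
    omega
  obtain ⟨G, hG, H⟩ := h.sum_free (X2.submatrix id e.symm) (X1.submatrix id e.symm)
    (Y.submatrix id e.symm) _ (left_sub e X2 X1 NL hL) _ (right_sub e X2 Y NR hR) hng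
  refine ⟨G.submatrix e e, ?_, fun U hU => ?_⟩
  · rw [det_submatrix_equiv_self]; exact hG
  rw [sub_mul_sub, sub_mul_sub, sub_mul_sub] at hU
  exact goodIn_reindex e (H _ (nhds_reindex e _ _ _ hU))

/-- **one step of the strong approximation**, all dimensions equal: the units near the quotient of
the two determinants can be used -/
theorem SAData.sa3_unit {ι : R →+* K} (h : SAData ι) (hinv : InvCont K)
    (X2 : Matrix a r K) (X1 : Matrix g r K) (Y : Matrix n r K)
    (hL : ∃ N : Matrix r (a ⊕ g) K, N * fromRows X2 X1 = 1)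
    (hR : ∃ N : Matrix r (a ⊕ n) K, fromRows X2 Y * N = 1)
    (e : r ≃ a ⊕ g) (e' : r ≃ a ⊕ n) (ρ : K)
    (hρ : ((fromRows X2 Y).submatrix e' id).det = ρ * ((fromRows X2 X1).submatrix e id).det) :
    ∃ G : Matrix r r K, IsUnit G.det ∧ ∀ U ∈ 𝓝 (X2 * G, X1 * G, Y * G),
      ∃ W ∈ 𝓝 ρ, ∀ u : R, IsUnit u → ι u ∈ W → GoodIn ι U := by
  obtain ⟨NL, hL⟩ := hL
  obtain ⟨NR, hR⟩ := hR
  obtain ⟨f⟩ : Nonempty (g ≃ n) := by
    have h1 := Fintype.card_congr e
    have h2 := Fintype.card_congr e'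
    rw [Fintype.card_sum] at h1 h2
    exact ⟨Fintype.equivOfCardEq (by omega)⟩
  obtain ⟨σ, hσ⟩ : ∃ σ : Equiv.Perm r,
      σ = e.trans ((Equiv.sumCongr (Equiv.refl a) f).trans e'.symm) := ⟨_, rfl⟩
  obtain ⟨s, hs⟩ : ∃ s : ℤ, s = ((Equiv.Perm.sign σ : ℤˣ) : ℤ) := ⟨_, rfl⟩
  have hss : s * s = 1 := by
    rw [hs, ← Units.val_mul, Int.units_mul_self, Units.val_one]
  have d1 : ((fromRows (X2.submatrix id e.symm) (X1.submatrix id e.symm)).submatrix
      (Equiv.sumCongr (Equiv.refl a) (Equiv.refl g)) id).det =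
      ((fromRows X2 X1).submatrix e id).det := by
    rw [← det_submatrix_equiv_self e.symm ((fromRows X2 X1).submatrix e id)]
    congr 1
    ext i j
    rcases i with i | i <;> simp
  have d2 : ((fromRows (X2.submatrix id e.symm) (Y.submatrix id e.symm)).submatrix
      (Equiv.sumCongr (Equiv.refl a) f) id).det =
      (s : K) * ((fromRows X2 Y).submatrix e' id).det := by
    rw [hs, ← det_permute, ← det_submatrix_equiv_self e.symm
      (((fromRows X2 Y).submatrix e' id).submatrix σ id)]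
    congr 1
    ext i j
    rw [hσ]
    rcases i with i | i <;> simp
  obtain ⟨G, hG, H⟩ := h.sum_unit hinv (X2.submatrix id e.symm) (X1.submatrix id e.symm)
    (Y.submatrix id e.symm) _ (left_sub e X2 X1 NL hL) _ (right_sub e X2 Y NR hR)
    (Equiv.refl g) f ((s : K) * ρ) (by rw [d1, d2, hρ, mul_assoc])
  refine ⟨G.submatrix e e, ?_, fun U hU => ?_⟩
  · rw [det_submatrix_equiv_self]; exact hG
  rw [sub_mul_sub, sub_mul_sub, sub_mul_sub] at hU
  obtain ⟨W, hW, H'⟩ := H _ (nhds_reindex e _ _ _ hU)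
  have hc : Continuous fun x : K => (s : K) * x := continuous_const.mul continuous_id
  refine ⟨(fun x : K => (s : K) * x) ⁻¹' W, hc.continuousAt.preimage_mem_nhds hW,
    fun u hu huW => ?_⟩
  refine goodIn_reindex e (H' ((s : R) * u) (IsUnit.mul ?_ hu) ?_)
  · refine IsUnit.of_mul_eq_one (s : R) ?_
    rw [← Int.cast_mul, hss, Int.cast_one]
  · rw [map_mul, map_intCast]
    exact huW

/-- **one step of the strong approximation**: if all dimensions are equal, the quotient of the two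
determinants is the image of a unit -/
theorem SAData.sa3 {ι : R →+* K} (h : SAData ι) (hinv : InvCont K)
    (X2 : Matrix a r K) (X1 : Matrix g r K) (Y : Matrix n r K)
    (hL : ∃ N : Matrix r (a ⊕ g) K, N * fromRows X2 X1 = 1)
    (hR : ∃ N : Matrix r (a ⊕ n) K, fromRows X2 Y * N = 1)
    (hD : Nonempty (r ≃ a ⊕ g) → Nonempty (r ≃ a ⊕ n) →
      ∃ (e : r ≃ a ⊕ g) (e' : r ≃ a ⊕ n) (u : R), IsUnit u ∧
        ((fromRows X2 Y).submatrix e' id).det =
          ι u * ((fromRows X2 X1).submatrix e id).det) :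
    ∃ G : Matrix r r K, IsUnit G.det ∧ ∀ U ∈ 𝓝 (X2 * G, X1 * G, Y * G), GoodIn ι U := by
  have c1 : Fintype.card r ≤ Fintype.card (a ⊕ g) := by
    obtain ⟨N, hN⟩ := hL
    exact card_le_of_inv N _ hN
  have c2 : Fintype.card (a ⊕ n) ≤ Fintype.card r := by
    obtain ⟨N, hN⟩ := hR
    exact card_le_of_inv (fromRows X2 Y) N hN
  rw [Fintype.card_sum] at c1 c2
  rcases lt_or_ge (Fintype.card n) (Fintype.card g) with hng | hng
  · exact h.sa3_free X2 X1 Y hL hR hng
  · have k1 : Nonempty (r ≃ a ⊕ g) :=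
      ⟨Fintype.equivOfCardEq (by rw [Fintype.card_sum]; omega)⟩
    have k2 : Nonempty (r ≃ a ⊕ n) :=
      ⟨Fintype.equivOfCardEq (by rw [Fintype.card_sum]; omega)⟩
    obtain ⟨e, e', u, hu, hd⟩ := hD k1 k2
    obtain ⟨G, hG, H⟩ := h.sa3_unit hinv X2 X1 Y hL hR e e' (ι u) hd
    refine ⟨G, hG, fun U hU => ?_⟩
    obtain ⟨W, hW, H'⟩ := H U hU
    exact H' u hu (mem_of_mem_nhds hW)

end gen

end core

end Pool.Agent.DEC
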