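import Pool.Agent.DEC.DenTop
import Pool.Agent.DEC.MF

/-!
The rings `locOT = S[1/θ, 1/n]` and `locDT = S[1/θ]` localised at the integers prime to `n`, for an
order `S` in its field of fractions `K`: fraction field, principal ideal property, the intersection
property (R2), the group `1 + n OO` (R4), and conditions which ensure that `n` is not a unit of
`S[1/θ]`.
-/

set_option autoImplicit false
set_option linter.unusedSectionVars false
set_option linter.unusedVariables false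
set_option linter.style.haveILetI false

namespace Pool.Agent.DEC

section generic

variable {K : Type} [Field K] {d : ℕ} {O D : Subring K}

/-- `1 + d ^ c D` is closed under multiplication -/
theorem Sm.one_mul {c : ℕ} {w w' : K} (hc : 1 ≤ c) (h : Sm d D c (w - 1)) (h' : Sm d D c (w' - 1)) :
    Sm d D c (w * w' - 1) := by
  have h1 : w' ∈ D := by
    obtain ⟨a, ha, hw⟩ := h'
    have : w' = 1 + (d : K) ^ c * a := by rw [← hw]; ring
    rw [this]
    exact D.add_mem D.one_mem (D.mul_mem (D.pow_mem (natCast_mem D d) c) ha)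
  have h2 := (h.mul_mem h1).add h'
  have h3 : (w - 1) * w' + (w' - 1) = w * w' - 1 := by ring
  rwa [h3] at h2

theorem Sm.mem_of_one {c : ℕ} {w : K} (h : Sm d D c (w - 1)) : w ∈ D := by
  obtain ⟨a, ha, hw⟩ := h
  have : w = 1 + (d : K) ^ c * a := by rw [← hw]; ring
  rw [this]
  exact D.add_mem D.one_mem (D.mul_mem (D.pow_mem (natCast_mem D d) c) ha)

theorem Sm.one_one (c : ℕ) : Sm d D c ((1 : K) - 1) := by
  rw [sub_self]; exact Sm.zero c

/-- elements of `1 + d ^ c D`, `c ≥ 1`, are invertible with inverse in `1 + d ^ c D` -/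
theorem Den.one_inv (h : Den d O D) {c : ℕ} (hc : 1 ≤ c) {w : K} (hw : Sm d D c (w - 1)) :
    w ≠ 0 ∧ w⁻¹ ∈ D ∧ Sm d D c (w⁻¹ - 1) := by
  obtain ⟨a, ha, hwa⟩ := hw
  obtain ⟨e, rfl⟩ : ∃ e, c = e + 1 := ⟨c - 1, by omega⟩
  have hw1 : w = 1 + (d : K) * ((d : K) ^ e * a) := by
    have : w = 1 + (d : K) ^ (e + 1) * a := by rw [← hwa]; ring
    rw [this]; ring
  obtain ⟨v, hv, hwv⟩ := h.jac ((d : K) ^ e * a) (D.mul_mem (D.pow_mem (natCast_mem D d) e) ha)
  rw [← hw1] at hwv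
  have hw0 : w ≠ 0 := by
    rintro rfl
    rw [zero_mul] at hwv
    exact zero_ne_one hwv
  have hinv : w⁻¹ = v := by
    rw [inv_eq_iff_eq_inv]
    exact eq_inv_of_mul_eq_one_left hwv
  refine ⟨hw0, by rw [hinv]; exact hv, ?_⟩
  rw [hinv]
  refine ⟨-(a * v), D.neg_mem (D.mul_mem ha hv), ?_⟩
  have h2 : v - 1 = -((w - 1) * v) := by
    have : w * v = 1 := hwv
    linear_combination this
  rw [h2, hwa]
  ring

theorem Den.one_div (h : Den d O D) {c : ℕ} (hc : 1 ≤ c) {w w' : K} (hw : Sm d D c (w - 1))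
    (hw' : Sm d D c (w' - 1)) : Sm d D c (w / w' - 1) := by
  rw [div_eq_mul_inv]
  exact Sm.one_mul hc hw (h.one_inv hc hw').2.2

/-- congruence of quotients: if `y` divides `d ^ e` in `D`, and `x = y mod d ^ (c + e)`, then
`x / y` lies in `1 + d ^ c D` -/
theorem Sm.div_sub_one {c e : ℕ} {x y y' : K} (hy : y ≠ 0) (hyy : y * y' = (d : K) ^ e)
    (hy' : y' ∈ D) (hd : (d : K) ≠ 0) (hx : Sm d D (c + e) (x - y)) : Sm d D c (x / y - 1) := by
  obtain ⟨a, ha, hxa⟩ := hx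
  refine ⟨a * y', D.mul_mem ha hy', ?_⟩
  have h1 : x / y - 1 = (x - y) / y := by
    rw [sub_div, div_self hy]
  rw [h1, hxa, div_eq_iff hy, pow_add]
  linear_combination (-(a * (d : K) ^ c)) * hyy

end generic

section order

variable {S K : Type} [CommRing S] [Field K] [Algebra S K] {n : ℕ} {θ : S}

theorem mem_locOT {x : K} : x ∈ locOT S K n θ ↔
    ∃ (k h : ℕ) (s : S), (n : K) ^ k * algebraMap S K θ ^ h * x = algebraMap S K s := Iff.rfl

theorem mem_locDT {x : K} : x ∈ locDT S K n θ ↔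
    ∃ m : ℕ, m ≠ 0 ∧ Nat.Coprime m n ∧ ∃ (h : ℕ) (s : S),
    (m : K) * algebraMap S K θ ^ h * x = algebraMap S K s := Iff.rfl

theorem algebraMap_mem_locOT (s : S) : algebraMap S K s ∈ locOT S K n θ := ⟨0, 0, s, by simp⟩

theorem algebraMap_mem_locDT (s : S) : algebraMap S K s ∈ locDT S K n θ :=
  ⟨1, one_ne_zero, Nat.coprime_one_left n, 0, s, by simp⟩

theorem mem_locOT_one {x : K} : x ∈ locOT S K 1 θ ↔
    ∃ (h : ℕ) (s : S), algebraMap S K θ ^ h * x = algebraMap S K s := by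
  rw [mem_locOT]
  constructor
  · rintro ⟨k, h, s, hs⟩
    exact ⟨h, s, by simpa using hs⟩
  · rintro ⟨h, s, hs⟩
    exact ⟨0, h, s, by simpa using hs⟩

theorem locOT_one_le_locOT : locOT S K 1 θ ≤ locOT S K n θ := by
  intro x hx
  obtain ⟨h, s, hs⟩ := mem_locOT_one.mp hx
  exact ⟨0, h, s, by simpa using hs⟩

theorem locOT_one_le_locDT : locOT S K 1 θ ≤ locDT S K n θ := by
  intro x hx
  obtain ⟨h, s, hs⟩ := mem_locOT_one.mp hx
  exact ⟨1, one_ne_zero, Nat.coprime_one_left n, h, s, by simpa using hs⟩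

theorem inv_nat_mem_locOT (hn : (n : K) ≠ 0) : (n : K)⁻¹ ∈ locOT S K n θ :=
  ⟨1, 0, 1, by simp [hn]⟩

theorem inv_theta_mem_locOT (hθ : algebraMap S K θ ≠ 0) :
    (algebraMap S K θ)⁻¹ ∈ locOT S K n θ :=
  ⟨0, 1, 1, by simp [hθ]⟩

theorem inv_theta_mem_locDT (hθ : algebraMap S K θ ≠ 0) :
    (algebraMap S K θ)⁻¹ ∈ locDT S K n θ :=
  ⟨1, one_ne_zero, Nat.coprime_one_left n, 1, 1, by simp [hθ]⟩

theorem inv_coprime_mem_locDT {m : ℕ} (hm : Nat.Coprime m n) (hmK : (m : K) ≠ 0) :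
    (m : K)⁻¹ ∈ locDT S K n θ :=
  ⟨m, by rintro rfl; simp at hmK, hm, 0, 1, by simp [hmK]⟩

/-- (R2): `n ^ c OO ∩ A = n ^ c S[1/θ]` -/
theorem locOT_inter_sm (hθ : algebraMap S K θ ≠ 0) (hn : (n : K) ≠ 0) {c : ℕ} {z : K}
    (hz : z ∈ locOT S K n θ) (hs : Sm n (locDT S K n θ) c z) :
    ∃ w ∈ locOT S K 1 θ, z = (n : K) ^ c * w := by
  obtain ⟨w, ⟨m, hm0, hmn, h, s, hw⟩, rfl⟩ := hs
  obtain ⟨k, e, t, ht⟩ := hz
  refine ⟨w, ?_, rfl⟩
  have hco : IsCoprime ((m : ℕ) : ℤ) (((n ^ (k + c) : ℕ)) : ℤ) :=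
    Nat.isCoprime_iff_coprime.mpr (Nat.Coprime.pow_right _ hmn)
  obtain ⟨x, y, hxy⟩ := hco
  have hxyK : (x : K) * (m : K) + (y : K) * (n : K) ^ (k + c) = 1 := by
    have := congrArg (Int.cast : ℤ → K) hxy
    push_cast at this
    exact this
  rw [mem_locOT_one]
  refine ⟨h + e, (x : S) * θ ^ e * s + (y : S) * θ ^ h * t, ?_⟩
  rw [map_add, map_mul, map_mul, map_mul, map_mul, map_intCast, map_intCast, map_pow, map_pow,
    ← hw, ← ht]
  have h1 : algebraMap S K θ ^ (h + e) * w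
      = ((x : K) * (m : K) + (y : K) * (n : K) ^ (k + c)) * (algebraMap S K θ ^ (h + e) * w) := by
    rw [hxyK, one_mul]
  rw [h1, pow_add, pow_add]
  ring

/-- (R2): `OO ∩ A = S[1/θ]` -/
theorem locOT_inter_locDT (hθ : algebraMap S K θ ≠ 0) (hn : (n : K) ≠ 0) {z : K}
    (hz : z ∈ locOT S K n θ) (hs : z ∈ locDT S K n θ) : z ∈ locOT S K 1 θ := by
  obtain ⟨w, hw, hzw⟩ := locOT_inter_sm hθ hn (c := 0) hz ⟨z, hs, by simp⟩
  rw [hzw, pow_zero, one_mul]
  exact hw

section dom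

variable [IsDomain S] [IsFractionRing S K]

theorem algebraMap_theta_ne_zero (hθ : θ ≠ 0) : algebraMap S K θ ≠ 0 := by
  rw [Ne, IsFractionRing.to_map_eq_zero_iff]
  exact hθ

variable (S K n θ)

/-- `K` is the field of fractions of `S[1/θ, 1/n]` -/
theorem locOT_isFractionRing : IsFractionRing (locOT S K n θ) K := by
  refine ⟨?_, ?_, ?_⟩
  · rintro ⟨y, hy⟩
    have : (y : K) ≠ 0 := by
      intro h0
      exact nonZeroDivisors.ne_zero hy (Subtype.ext h0)
    exact isUnit_iff_ne_zero.mpr this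
  · intro z
    obtain ⟨x, y, hy, rfl⟩ := IsFractionRing.div_surjective (A := S) z
    have hyK : algebraMap S K y ≠ 0 := by
      rw [Ne, IsFractionRing.to_map_eq_zero_iff]; exact nonZeroDivisors.ne_zero hy
    refine ⟨(⟨algebraMap S K x, algebraMap_mem_locOT x⟩,
      ⟨⟨algebraMap S K y, algebraMap_mem_locOT y⟩, ?_⟩), ?_⟩
    · rw [mem_nonZeroDivisors_iff_ne_zero]
      intro h0
      exact hyK (congrArg Subtype.val h0)
    · change algebraMap S K x / algebraMap S K y * algebraMap S K y = algebraMap S K x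
      field_simp
  · intro x y hxy
    refine ⟨1, ?_⟩
    have : (x : K) = (y : K) := hxy
    rw [Subtype.ext this]

variable {S K n θ}

theorem locO_le_locOT : locO S K n ≤ locOT S K n θ := by
  rintro x ⟨k, s, hs⟩
  exact ⟨k, 0, s, by simpa using hs⟩

theorem locD_le_locDT : locD S K n ≤ locDT S K n θ := by
  rintro x ⟨m, hm0, hm, s, hs⟩
  exact ⟨m, hm0, hm, 0, s, by simpa using hs⟩

/-- the principal ideal property passes from `S[1/n]` to `S[1/θ, 1/n]` -/
theorem locOT_pid (hθ : θ ≠ 0) (h : IsPrincipalIdealRing (locO S K n)) :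
    IsPrincipalIdealRing (locOT S K n θ) := by
  have hθK : algebraMap S K θ ≠ 0 := algebraMap_theta_ne_zero hθ
  refine ⟨fun I => ?_⟩
  set ι : locO S K n →+* locOT S K n θ := Subring.inclusion locO_le_locOT with hι
  obtain ⟨a, ha⟩ := (h.principal (I.comap ι)).principal
  refine ⟨⟨ι a, ?_⟩⟩
  apply le_antisymm
  · intro x hx
    obtain ⟨k, e, s, hs⟩ := x.2
    have hmem : algebraMap S K θ ^ e * (x : K) ∈ locO S K n := ⟨k, s, by rw [← hs]; ring⟩
    have hxI : (⟨algebraMap S K θ ^ e * (x : K), hmem⟩ : locO S K n) ∈ I.comap ι := by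
      rw [Ideal.mem_comap]
      have : ι ⟨algebraMap S K θ ^ e * (x : K), hmem⟩
          = (⟨algebraMap S K θ ^ e, (locOT S K n θ).pow_mem (algebraMap_mem_locOT θ) e⟩ :
            locOT S K n θ) * x := by
        apply Subtype.ext
        rfl
      rw [this]
      exact I.mul_mem_left _ hx
    rw [ha] at hxI
    obtain ⟨b, hb⟩ := Ideal.mem_span_singleton'.mp hxI
    have hb' : (b : K) * (a : K) = algebraMap S K θ ^ e * (x : K) := congrArg Subtype.val hb
    refine Ideal.mem_span_singleton'.mpr ⟨⟨(b : K) * ((algebraMap S K θ)⁻¹) ^ e,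
      (locOT S K n θ).mul_mem (locO_le_locOT b.2)
        ((locOT S K n θ).pow_mem (inv_theta_mem_locOT hθK) e)⟩, ?_⟩
    apply Subtype.ext
    change (b : K) * ((algebraMap S K θ)⁻¹) ^ e * (a : K) = (x : K)
    rw [mul_right_comm, hb', inv_pow]
    field_simp
  · rw [Ideal.submodule_span_eq, Ideal.span_singleton_le_iff_mem]
    have : a ∈ I.comap ι := by
      rw [ha]
      exact Submodule.mem_span_singleton_self a
    exact this

end dom

section ord

variable [IsDomain S] [IsFractionRing S K] [Module.Free ℤ S] [Module.Finite ℤ S]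

variable (S K) in
/-- `S[1/θ, 1/n]` is a principal ideal ring for all multiples `n` of some `M` -/
theorem exists_pid_locOT : ∃ M : ℕ, 0 < M ∧ ∀ n : ℕ, n ≠ 0 → M ∣ n → ∀ θ : S, θ ≠ 0 →
    IsPrincipalIdealRing (locOT S K n θ) := by
  obtain ⟨M, hM, h⟩ := exists_pid_locO S K
  exact ⟨M, hM, fun n hn hMn θ hθ => locOT_pid hθ (h n hn hMn)⟩

/-- if `n` has a divisor `m ≠ 1` prime to the norm of `θ`, then `n` is not a unit of `S[1/θ]` -/
theorem inv_notMem_of_coprime (hn : n ≠ 0) {m : ℕ} (hm1 : m ≠ 1) (hmn : m ∣ n)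
    (hco : IsCoprime (m : ℤ) (Algebra.norm ℤ θ)) : (n : K)⁻¹ ∉ locOT S K 1 θ := by
  intro hmem
  have hcz : CharZero K := charZeroK S K
  have hnK : (n : K) ≠ 0 := Nat.cast_ne_zero.mpr hn
  obtain ⟨h, s, hs⟩ := mem_locOT_one.mp hmem
  have h1 : algebraMap S K (θ ^ h) = algebraMap S K ((n : S) * s) := by
    rw [map_pow, map_mul, map_natCast, ← hs]
    field_simp
  have h2 : θ ^ h = (n : S) * s := IsFractionRing.injective S K h1
  have h3 := congrArg (Algebra.norm ℤ) h2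
  rw [map_pow, map_mul] at h3
  have h4 : Algebra.norm ℤ (n : S) = (n : ℤ) ^ Module.finrank ℤ S := by
    have := Algebra.norm_algebraMap_of_basis (Module.Free.chooseBasis ℤ S) (n : ℤ)
    rw [Module.finrank_eq_card_chooseBasisIndex]
    simpa using this
  have h5 : (n : ℤ) ∣ Algebra.norm ℤ θ ^ h := by
    rw [h3, h4]
    exact Dvd.dvd.mul_right (dvd_pow_self _ (Module.finrank_pos).ne') _
  have h6 : (m : ℤ) ∣ Algebra.norm ℤ θ ^ h := (Int.natCast_dvd_natCast.mpr hmn).trans h5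
  have h7 : IsCoprime (m : ℤ) (Algebra.norm ℤ θ ^ h) := hco.pow_right
  have h8 : IsUnit (m : ℤ) := h7.isUnit_of_dvd' dvd_rfl h6
  rw [Int.isUnit_iff] at h8
  rcases h8 with h8 | h8
  · exact hm1 (by exact_mod_cast h8)
  · omega

/-- sufficient condition: `1 + |N θ|` divides `n` -/
theorem inv_notMem_of_dvd (hn : n ≠ 0) (hθ : θ ≠ 0)
    (h : 1 + (Algebra.norm ℤ θ).natAbs ∣ n) : (n : K)⁻¹ ∉ locOT S K 1 θ := by
  refine inv_notMem_of_coprime hn (m := 1 + (Algebra.norm ℤ θ).natAbs) ?_ h ?_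
  · have : (Algebra.norm ℤ θ).natAbs ≠ 0 := Int.natAbs_ne_zero.mpr (norm_ne_zero' hθ)
    omega
  · rw [Int.isCoprime_iff_nat_coprime, Int.natAbs_natCast]
    simp

/-- sufficient condition: a prime `q` divides `n` but not `N θ` -/
theorem inv_notMem_of_prime (hn : n ≠ 0) {q : ℕ} (hq : q.Prime) (hqn : q ∣ n)
    (hqθ : ¬ (q : ℤ) ∣ Algebra.norm ℤ θ) : (n : K)⁻¹ ∉ locOT S K 1 θ := by
  refine inv_notMem_of_coprime hn hq.ne_one hqn ?_
  exact (Nat.prime_iff_prime_int.mp hq).coprime_iff_not_dvd.mpr hqθ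

end ord

end order

end Pool.Agent.DEC
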