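import Pool.Agent.DEC.Stmt

/-!
# Sanity checks for the statement of the decidability theorem (MP_59dda0_an)

Small facts which show that the definitions of `Pool.Agent.DEC.Stmt` mean what they should:
shifts of finite type are closed and shift invariant; full shifts and the golden mean shift are
mixing; the union of two fixed points is not mixing; the identity is a finite-to-one factor code;
addition of neighbours is a finite-to-one factor code of the full two-shift onto itself which is not
injective; the full two-shift has a factor code onto a point, but no finite-to-one one; a point has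
no factor code onto the full two-shift; a forbidden word with a letter outside the alphabet is
irrelevant; forbidding the empty word gives the empty shift.
-/

set_option autoImplicit false

namespace Pool.Agent.DEC.Sanity

open Set

theorem shift_iterate {α : Type} (n : ℕ) (x : ℤ → α) (i : ℤ) : (shift^[n] x) i = x (i + n) := by
  induction n generalizing i with
  | zero => simp
  | succ n ih =>
    rw [Function.iterate_succ_apply']
    show (shift^[n] x) (i + 1) = _
    rw [ih]
    congr 1
    push_cast
    ring

theorem occursAt_shift {a : ℕ} (w : List ℕ) (x : ℤ → Fin a) (i : ℤ) :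
    OccursAt w (shift x) i ↔ OccursAt w x (i + 1) := by
  unfold OccursAt shift
  refine forall_congr' fun k => forall_congr' fun h => ?_
  rw [show i + (k : ℤ) + 1 = i + 1 + k by ring]

/-- Shifts of finite type are shift invariant (in both directions). -/
theorem shift_mem {P : Pres} {x : ℤ → Fin P.1} : shift x ∈ sft P ↔ x ∈ sft P := by
  constructor
  · intro h w hw i ho
    refine h w hw (i - 1) ?_
    rw [occursAt_shift]
    simpa using ho
  · intro h w hw i ho
    exact h w hw (i + 1) ((occursAt_shift w x i).1 ho)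

/-- The shift is a homeomorphism of the full shift, in particular `shift '' sft P = sft P`. -/
theorem shift_image {P : Pres} : shift '' (sft P) = sft P := by
  ext x
  constructor
  · rintro ⟨y, hy, rfl⟩
    exact shift_mem.2 hy
  · intro hx
    refine ⟨fun i => x (i - 1), ?_, ?_⟩
    · rw [← shift_mem]
      convert hx using 1
      funext i
      simp [shift]
    · funext i
      simp [shift]

/-- Shifts of finite type are closed. -/
theorem isClosed_sft (P : Pres) : IsClosed (sft P) := by
  have h1 : sft P = ⋂ w ∈ P.2, ⋂ i : ℤ, {x | ¬ OccursAt w x i} := by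
    ext x
    simp [sft]
  rw [h1]
  refine isClosed_biInter fun w _ => isClosed_iInter fun i => ?_
  have h2 : {x : ℤ → Fin P.1 | OccursAt w x i} =
      ⋂ k : Fin w.length, (fun x : ℤ → Fin P.1 => x (i + (k : ℕ))) ⁻¹' {c | (c : ℕ) = w[k]} := by
    ext x
    simp only [OccursAt, mem_iInter, mem_preimage]
    exact ⟨fun h k => h k k.2, fun h k hk => h ⟨k, hk⟩⟩
  have h3 : IsOpen {x : ℤ → Fin P.1 | OccursAt w x i} := by
    rw [h2]
    exact isOpen_iInter_of_finite fun k => (isOpen_discrete _).preimage (continuous_apply _)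
  exact h3.isClosed_compl

/-- A neighbourhood of `x` contains all sequences that agree with `x` on a long window. -/
theorem exists_window {α : Type} [TopologicalSpace α] {U : Set (ℤ → α)} (hU : IsOpen U)
    {x : ℤ → α} (hx : x ∈ U) : ∃ m : ℕ, ∀ y : ℤ → α, (∀ i : ℤ, |i| ≤ m → y i = x i) → y ∈ U := by
  obtain ⟨I, u, h1, h2⟩ := isOpen_pi_iff.1 hU x hx
  refine ⟨I.sup Int.natAbs, fun y hy => h2 ?_⟩
  intro i hi
  have h3 : i.natAbs ≤ I.sup Int.natAbs := Finset.le_sup (f := Int.natAbs) hi
  have h4 : |i| ≤ ((I.sup Int.natAbs : ℕ) : ℤ) := by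
    rw [Int.abs_eq_natAbs]
    exact_mod_cast h3
  rw [hy i h4]
  exact (h1 i hi).2

/-- A shift in which long left and right parts can be glued across a gap `g` is mixing. -/
theorem isMixing_of_glue {P : Pres} (g : ℕ)
    (h : ∀ x ∈ sft P, ∀ y ∈ sft P, ∀ m : ℕ, ∀ n : ℕ, 2 * m + g ≤ n →
      ∃ z ∈ sft P, (∀ i : ℤ, i ≤ m → z i = x i) ∧ ∀ i : ℤ, -(m : ℤ) ≤ i → z (i + n) = y i) :
    IsMixing (sft P) := by
  rintro U V hU hV ⟨x, hxX, hxU⟩ ⟨y, hyX, hyV⟩
  obtain ⟨m, hm⟩ := exists_window hU hxU
  obtain ⟨k, hk⟩ := exists_window hV hyV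
  refine ⟨2 * (max m k) + g, fun n hn => ?_⟩
  obtain ⟨z, hzX, hz1, hz2⟩ := h x hxX y hyX (max m k) n hn
  have hmk : (m : ℤ) ≤ ((max m k : ℕ) : ℤ) := by exact_mod_cast le_max_left m k
  have hkk : (k : ℤ) ≤ ((max m k : ℕ) : ℤ) := by exact_mod_cast le_max_right m k
  have hsX : ∀ n : ℕ, shift^[n] z ∈ sft P := by
    intro n
    induction n with
    | zero => exact hzX
    | succ n ih =>
      rw [Function.iterate_succ_apply']
      exact shift_mem.2 ih
  refine ⟨shift^[n] z, ⟨z, ⟨hzX, hm z fun i hi => hz1 i ?_⟩, rfl⟩, hsX n, hk _ fun i hi => ?_⟩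
  · exact (le_abs_self i).trans (hi.trans hmk)
  · rw [shift_iterate]
    refine hz2 i ?_
    have := neg_abs_le i
    linarith

/-- Forbidden words with a letter outside the alphabet are irrelevant. -/
theorem sft_full {a : ℕ} {F : List (List ℕ)} (hF : ∀ w ∈ F, ∃ c ∈ w, a ≤ c) :
    sft (a, F) = univ := by
  refine eq_univ_of_forall fun x w hw i ho => ?_
  obtain ⟨c, hc, hac⟩ := hF w hw
  obtain ⟨k, hk, rfl⟩ := List.getElem_of_mem hc
  have h1 := ho k hk
  have h2 := (x (i + k)).2
  change ((x (i + k) : Fin a) : ℕ) < a at h2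
  omega

/-- Without forbidden words every sequence is allowed. -/
theorem sft_nil (a : ℕ) : sft (a, []) = univ := sft_full (by simp)

/-- Forbidding the empty word gives the empty shift. -/
theorem sft_empty_word (a : ℕ) (F : List (List ℕ)) : sft (a, [] :: F) = ∅ := by
  refine eq_empty_of_forall_notMem fun x hx => ?_
  exact hx [] (by simp) 0 (fun k hk => absurd hk (by simp))

/-- The empty shift is mixing under the literal definition. -/
theorem isMixing_empty (a : ℕ) (F : List (List ℕ)) : IsMixing (sft (a, [] :: F)) := by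
  intro U V _ _ h
  rw [sft_empty_word] at h
  simp at h

/-- Full shifts are mixing. -/
theorem isMixing_full {a : ℕ} : IsMixing (sft (a, [])) := by
  refine isMixing_of_glue 1 fun x _ y _ m n hn => ?_
  refine ⟨fun i => if i ≤ m then x i else y (i - n), ?_, fun i hi => if_pos hi, fun i hi => ?_⟩
  · rw [sft_nil]
    trivial
  · have h1 : ¬ (i + (n : ℤ) ≤ m) := by
      push_cast [← Int.natCast_add] at *
      omega
    simp only [if_neg h1]
    congr 1
    ring

/-- Membership in the golden mean shift. -/
theorem mem_golden {x : ℤ → Fin 2} :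
    x ∈ sft (2, [[1, 1]]) ↔ ∀ i : ℤ, x i = 1 → x (i + 1) ≠ 1 := by
  have h1 : ∀ i : ℤ, OccursAt [1, 1] x i ↔ x i = 1 ∧ x (i + 1) = 1 := by
    intro i
    constructor
    · intro h
      have h0 := h 0 (by simp)
      have h1 := h 1 (by simp)
      simp only [Nat.cast_zero, add_zero, List.getElem_cons_zero, Nat.cast_one,
        List.getElem_cons_succ] at h0 h1
      exact ⟨Fin.ext h0, Fin.ext h1⟩
    · rintro ⟨h0, h1⟩ k hk
      have hk2 : k < 2 := by simpa using hk
      interval_cases k
      · simp [h0]
      · simp [h1]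
  constructor
  · intro h i h2 h3
    exact h [1, 1] (by simp) i ((h1 i).2 ⟨h2, h3⟩)
  · intro h w hw i ho
    obtain rfl : w = [1, 1] := by simpa using hw
    obtain ⟨h2, h3⟩ := (h1 i).1 ho
    exact h i h2 h3

/-- The golden mean shift is mixing. -/
theorem isMixing_golden : IsMixing (sft (2, [[1, 1]])) := by
  refine isMixing_of_glue 2 fun x hx y hy m n hn => ?_
  have hx' := mem_golden.1 hx
  have hy' := mem_golden.1 hy
  refine ⟨fun i => if i ≤ m then x i else if i < (n : ℤ) - m then 0 else y (i - n), ?_,
    fun i hi => if_pos hi, fun i hi => ?_⟩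
  · refine mem_golden.2 fun i hi => ?_
    have hn' : 2 * (m : ℤ) + 2 ≤ n := by exact_mod_cast hn
    by_cases c1 : i ≤ m
    · simp only [if_pos c1] at hi
      by_cases c2 : i + 1 ≤ m
      · simp only [if_pos c2]
        exact hx' i hi
      · have c3 : i + 1 < (n : ℤ) - m := by omega
        simp only [if_neg c2, if_pos c3]
        decide
    · simp only [if_neg c1] at hi
      by_cases c2 : i < (n : ℤ) - m
      · simp only [if_pos c2] at hi
        exact absurd hi (by decide)
      · simp only [if_neg c2] at hi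
        have c3 : ¬ (i + 1 ≤ m) := by omega
        have c4 : ¬ (i + 1 < (n : ℤ) - m) := by omega
        simp only [if_neg c3, if_neg c4]
        have := hy' (i - n) hi
        rwa [show i - (n : ℤ) + 1 = i + 1 - n by ring] at this
  · have hn' : 2 * (m : ℤ) + 2 ≤ n := by exact_mod_cast hn
    have h1 : ¬ (i + (n : ℤ) ≤ m) := by omega
    have h2 : ¬ (i + (n : ℤ) < (n : ℤ) - m) := by omega
    simp only [if_neg h1, if_neg h2]
    congr 1
    ring

/-- The union of the two fixed points `0^∞` and `1^∞` is not mixing. -/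
theorem not_isMixing_two_points : ¬ IsMixing (sft (2, [[0, 1], [1, 0]])) := by
  have hconst : ∀ x ∈ sft (2, [[0, 1], [1, 0]]), ∀ i : ℤ, x (i + 1) = x i := by
    intro x hx i
    by_contra hne
    have key : ∀ c d : Fin 2, x i = c → x (i + 1) = d → OccursAt [(c : ℕ), (d : ℕ)] x i := by
      rintro c d h0 h1 k hk
      have hk2 : k < 2 := by simpa using hk
      interval_cases k
      · simp [h0]
      · simp [h1]
    have h01 : ∀ c : Fin 2, c = 0 ∨ c = 1 := by decide
    rcases h01 (x i) with h0 | h0 <;> rcases h01 (x (i + 1)) with h1 | h1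
    · exact hne (h1.trans h0.symm)
    · exact hx [0, 1] (by simp) i (key 0 1 h0 h1)
    · exact hx [1, 0] (by simp) i (key 1 0 h0 h1)
    · exact hne (h1.trans h0.symm)
  have hmem : ∀ c : Fin 2, (fun _ => c) ∈ sft (2, [[0, 1], [1, 0]]) := by
    intro c w hw i ho
    have hw' : w = [0, 1] ∨ w = [1, 0] := by simpa using hw
    rcases hw' with rfl | rfl
    · have h0 := ho 0 (by simp)
      have h1 := ho 1 (by simp)
      simp at h0 h1
      omega
    · have h0 := ho 0 (by simp)
      have h1 := ho 1 (by simp)
      simp at h0 h1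
      omega
  intro h
  have hop : ∀ c : Fin 2, IsOpen {x : ℤ → Fin 2 | x 0 = c} := fun c =>
    (isOpen_discrete ({c} : Set (Fin 2))).preimage
      (continuous_apply (A := fun _ : ℤ => Fin 2) (0 : ℤ))
  obtain ⟨N, hN⟩ := h {x | x 0 = 0} {x | x 0 = 1} (hop 0) (hop 1)
    ⟨fun _ => 0, hmem 0, rfl⟩ ⟨fun _ => 1, hmem 1, rfl⟩
  obtain ⟨y, ⟨x, ⟨hx, hx0⟩, rfl⟩, -, hy1⟩ := hN N le_rfl
  have hy1' : (shift^[N] x) 0 = 1 := hy1
  rw [shift_iterate] at hy1'
  have hall : ∀ n : ℕ, x (0 + n) = x 0 := by
    intro n
    induction n with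
    | zero => simp
    | succ n ih =>
      rw [← ih]
      have := hconst x hx (0 + n)
      push_cast
      rw [← add_assoc]
      exact this
  rw [hall N] at hy1'
  have hx0' : x 0 = 0 := hx0
  rw [hx0'] at hy1'
  exact absurd hy1' (by decide)

/-- The identity is a finite-to-one factor code. -/
theorem finiteFactor_refl (P : Pres) : FiniteFactor (sft P) (sft P) := by
  refine ⟨id, ⟨continuous_id, Function.surjective_id, fun x x' h => h⟩, fun y => ?_⟩
  simp

/-- Every factor code from the full two-shift onto a point has an infinite fibre: there is a factor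
code, but no finite-to-one factor code. -/
theorem factor_point :
    (∃ φ : sft (2, []) → sft (1, []), IsFactorCode φ) ∧
      ¬ FiniteFactor (sft (2, [])) (sft (1, [])) := by
  have hsub : ∀ y y' : ℤ → Fin 1, y = y' := fun y y' => funext fun i => Subsingleton.elim _ _
  constructor
  · refine ⟨fun _ => ⟨fun _ => 0, by rw [sft_nil]; trivial⟩, ⟨continuous_const, ?_, ?_⟩⟩
    · intro y
      exact ⟨⟨fun _ => 0, by rw [sft_nil]; trivial⟩, Subtype.ext (hsub _ _)⟩
    · intro x x' _
      exact hsub _ _
  · rintro ⟨φ, -, h⟩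
    have h1 := h ⟨fun _ => 0, by rw [sft_nil]; trivial⟩
    have h2 : {x : sft (2, []) | φ x = ⟨fun _ => 0, by rw [sft_nil]; trivial⟩} = univ :=
      eq_univ_of_forall fun x => Subtype.ext (hsub _ _)
    rw [h2, finite_univ_iff] at h1
    have h3 : Infinite (ℤ → Fin 2) := inferInstance
    refine h3.not_finite ?_
    refine Finite.of_injective (fun x : ℤ → Fin 2 => (⟨x, by rw [sft_nil]; trivial⟩ : sft (2, [])))
      fun x y hxy => ?_
    exact congrArg Subtype.val hxy

/-- There is no factor code from a point onto the full two-shift. -/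
theorem not_finiteFactor_point : ¬ FiniteFactor (sft (1, [])) (sft (2, [])) := by
  rintro ⟨φ, hφ, -⟩
  obtain ⟨x, hx⟩ := hφ.surjective ⟨fun _ => 0, by rw [sft_nil]; trivial⟩
  obtain ⟨x', hx'⟩ := hφ.surjective ⟨fun _ => 1, by rw [sft_nil]; trivial⟩
  have h1 : x = x' := Subtype.ext (funext fun i => Subsingleton.elim _ _)
  rw [h1, hx'] at hx
  have h2 := congrFun (congrArg Subtype.val hx) 0
  exact absurd h2 (by decide)

/-- Addition of neighbours: a finite-to-one factor code of the full two-shift onto itself which is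
not injective. -/
theorem add_neighbours :
    ∃ φ : sft (2, []) → sft (2, []), IsFactorCode φ ∧ (∀ y, {x | φ x = y}.Finite) ∧
      ¬ Function.Injective φ := by
  have hall : ∀ x : ℤ → Fin 2, x ∈ sft (2, []) := fun x => by rw [sft_nil]; trivial
  refine ⟨fun x => ⟨fun i => x.1 i + x.1 (i + 1), hall _⟩, ⟨?_, ?_, ?_⟩, ?_, ?_⟩
  · refine Continuous.subtype_mk (continuous_pi fun i => ?_) _
    exact ((continuous_apply i).comp continuous_subtype_val).add
      ((continuous_apply (i + 1)).comp continuous_subtype_val)
  · rintro ⟨y, hy⟩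
    have two : ∀ s : Fin 2, s + s = 0 := by decide
    refine ⟨⟨fun i => (∑ j ∈ Finset.Ico 0 i, y j) + ∑ j ∈ Finset.Ico i 0, y j, hall _⟩,
      Subtype.ext (funext fun i => ?_)⟩
    show ((∑ j ∈ Finset.Ico 0 i, y j) + ∑ j ∈ Finset.Ico i 0, y j) +
      ((∑ j ∈ Finset.Ico 0 (i + 1), y j) + ∑ j ∈ Finset.Ico (i + 1) 0, y j) = y i
    rcases le_or_gt 0 i with hi | hi
    · have h1 : Finset.Ico i 0 = ∅ := Finset.Ico_eq_empty (by omega)
      have h2 : Finset.Ico (i + 1) 0 = ∅ := Finset.Ico_eq_empty (by omega)
      have h3 : Finset.Ico 0 (i + 1) = insert i (Finset.Ico 0 i) := by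
        ext j
        simp only [Finset.mem_Ico, Finset.mem_insert]
        omega
      have h4 : i ∉ Finset.Ico 0 i := by simp
      rw [h1, h2, h3, Finset.sum_insert h4]
      simp only [Finset.sum_empty, add_zero]
      rw [add_comm (y i), ← add_assoc, two, zero_add]
    · have h1 : Finset.Ico 0 i = ∅ := Finset.Ico_eq_empty (by omega)
      have h2 : Finset.Ico 0 (i + 1) = ∅ := Finset.Ico_eq_empty (by omega)
      have h3 : Finset.Ico i 0 = insert i (Finset.Ico (i + 1) 0) := by
        ext j
        simp only [Finset.mem_Ico, Finset.mem_insert]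
        omega
      have h4 : i ∉ Finset.Ico (i + 1) 0 := by simp
      rw [h1, h2, h3, Finset.sum_insert h4]
      simp only [Finset.sum_empty, zero_add]
      rw [add_assoc, two, add_zero]
  · intro x x' h
    funext i
    show x'.1 i + x'.1 (i + 1) = x.1 (i + 1) + x.1 (i + 1 + 1)
    rw [h]
    rfl
  · intro y
    refine Finite.of_finite_image (f := fun x : sft (2, []) => x.1 0) (toFinite _) ?_
    rintro x hx x' hx' h0
    have h0' : x.1 0 = x'.1 0 := h0
    have cancel : ∀ a b c d : Fin 2, a + b = c + d → (a = c ↔ b = d) := by decide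
    have hstep : ∀ i : ℤ, x.1 i = x'.1 i ↔ x.1 (i + 1) = x'.1 (i + 1) := by
      intro i
      have h1 : x.1 i + x.1 (i + 1) = x'.1 i + x'.1 (i + 1) := by
        have e1 := congrFun (congrArg Subtype.val (hx : _ = y)) i
        have e2 := congrFun (congrArg Subtype.val (hx' : _ = y)) i
        exact e1.trans e2.symm
      exact cancel _ _ _ _ h1
    refine Subtype.ext (funext fun i => ?_)
    induction i using Int.induction_on with
    | zero => exact h0'
    | succ i ih => exact (hstep i).1 ih
    | pred i ih =>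
      refine (hstep _).2 ?_
      rw [sub_add_cancel]
      exact ih
  · intro hinj
    have h1 : (⟨fun _ => 0, hall _⟩ : sft (2, [])) = ⟨fun _ => 1, hall _⟩ := by
      apply hinj
      refine Subtype.ext (funext fun i => ?_)
      show (0 : Fin 2) + 0 = 1 + 1
      decide
    have h2 : (0 : Fin 2) = 1 := congrFun (congrArg Subtype.val h1) 0
    exact absurd h2 (by decide)

end Pool.Agent.DEC.Sanity
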