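import Mathlib

/-!
# DEC: solutions of the dimension condition between abstract modules
-/

set_option autoImplicit false

namespace Pool.Agent.DEC

section

variable {V W : Type} [AddCommGroup V] [Module ℚ V] [AddCommGroup W] [Module ℚ W]

/-- A solution for the endomorphisms `xV`, `xW` and the subsets `GV`, `GW`: an `xV`-stable
subspace `M` and an equivariant linear map `ψ : M → W` that maps `M ∩ GV` onto `GW`, such that the
traces of the powers `xV ^ k` on `M` vanish for the positive `k` in `Nz`. -/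
def Sol (xV : V →ₗ[ℚ] V) (xW : W →ₗ[ℚ] W) (GV : Set V) (GW : Set W) (Nz : ℕ → Prop) : Prop :=
  ∃ (M : Submodule ℚ V) (hM : ∀ v ∈ M, xV v ∈ M) (ψ : M →ₗ[ℚ] W),
    (∀ v : M, ψ ⟨xV v, hM v v.2⟩ = xW (ψ v)) ∧
    (∀ w, w ∈ GW ↔ ∃ v : M, (v : V) ∈ GV ∧ ψ v = w) ∧
    ∀ k : ℕ, 0 < k → Nz k → LinearMap.trace ℚ M ((xV.restrict hM) ^ k) = 0

end

end Pool.Agent.DEC
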