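import Pool.Agent.FTO.A0d
import Pool.Agent.FTO.A0e
import Pool.Agent.FT.Cond

/-!
# DEC: the dimension condition with traces in terms of integral matrices
-/

set_option autoImplicit false
set_option linter.unusedSectionVars false

open scoped BigOperators
open Matrix

namespace Pool.Agent.DEC

open Pool.Agent.FT Pool.Agent.FTO

/-- additivity of the trace -/
theorem trace_add {W V : Type} [AddCommGroup W] [Module ℚ W] [FiniteDimensional ℚ W]
    [AddCommGroup V] [Module ℚ V] [FiniteDimensional ℚ V] (f : Module.End ℚ W)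
    (f2 : Module.End ℚ V) (g : W →ₗ[ℚ] V) (hg : Function.Surjective g)
    (hgf : ∀ w, g (f w) = f2 (g w)) (fk : Module.End ℚ (LinearMap.ker g))
    (hfk : ∀ u, ((fk u : LinearMap.ker g) : W) = f u) :
    LinearMap.trace ℚ W f = LinearMap.trace ℚ _ fk + LinearMap.trace ℚ V f2 := by
  obtain ⟨s, hs⟩ := g.exists_rightInverse_of_surjective (LinearMap.range_eq_top.2 hg)
  have hs' : ∀ v, g (s v) = v := fun v => LinearMap.congr_fun hs v
  -- `W ≃ ker g × V`
  let e : (LinearMap.ker g × V) ≃ₗ[ℚ] W :=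
    LinearEquiv.ofBijective ((LinearMap.ker g).subtype.coprod s) ⟨by
      rw [injective_iff_map_eq_zero]
      rintro ⟨u, v⟩ h
      rw [LinearMap.coprod_apply] at h
      have h1 := congrArg g h
      rw [map_add, hs', map_zero] at h1
      have h2 : g u = 0 := u.2
      have h3 : v = 0 := by
        change g u + v = 0 at h1
        rwa [h2, zero_add] at h1
      subst h3
      rw [map_zero, add_zero] at h
      exact Prod.ext (Subtype.ext h) rfl, by
      intro w
      refine ⟨(⟨w - s (g w), ?_⟩, g w), ?_⟩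
      · rw [LinearMap.mem_ker, map_sub, hs', sub_self]
      · rw [LinearMap.coprod_apply]
        change w - s (g w) + s (g w) = w
        exact sub_add_cancel _ _⟩
  have he : ∀ p, e p = (p.1 : W) + s p.2 := fun p => rfl
  -- the off diagonal part
  let h : V →ₗ[ℚ] LinearMap.ker g := LinearMap.codRestrict _ (f ∘ₗ s - s ∘ₗ f2) (fun v => by
    rw [LinearMap.mem_ker, LinearMap.sub_apply, map_sub, LinearMap.comp_apply,
      LinearMap.comp_apply, hgf, hs', hs', sub_self])
  have hconj : e.symm.conj f = LinearMap.prodMap fk f2 +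
      (LinearMap.inl ℚ (LinearMap.ker g) V ∘ₗ (h ∘ₗ LinearMap.snd ℚ (LinearMap.ker g) V)) := by
    apply LinearMap.ext
    rintro ⟨u, v⟩
    rw [LinearEquiv.conj_apply_apply, LinearEquiv.symm_symm]
    apply e.injective
    rw [LinearEquiv.apply_symm_apply, he]
    simp only [LinearMap.add_apply, LinearMap.prodMap_apply, LinearMap.comp_apply,
      LinearMap.snd_apply, LinearMap.inl_apply, Prod.mk_add_mk, he, add_zero, map_add,
      Submodule.coe_add, hfk]
    have h1 : ((h v : LinearMap.ker g) : W) = f (s v) - s (f2 v) := rfl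
    rw [h1]
    abel
  have h1 : LinearMap.trace ℚ W f = LinearMap.trace ℚ _ (e.symm.conj f) :=
    (LinearMap.trace_conj' f e.symm).symm
  have h2 : LinearMap.trace ℚ (LinearMap.ker g × V)
      (LinearMap.inl ℚ (LinearMap.ker g) V ∘ₗ (h ∘ₗ LinearMap.snd ℚ (LinearMap.ker g) V)) = 0 := by
    rw [LinearMap.trace_comp_comm']
    have : (h ∘ₗ LinearMap.snd ℚ (LinearMap.ker g) V) ∘ₗ LinearMap.inl ℚ (LinearMap.ker g) V = 0 := by
      apply LinearMap.ext
      intro u
      simp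
    rw [this, map_zero]
  rw [h1, hconj, map_add, h2, add_zero, LinearMap.trace_prodMap']

/-- an integral matrix over `ℚ` -/
def zq {m n : Type} (M : Matrix m n ℤ) : Matrix m n ℚ := M.map (Int.cast : ℤ → ℚ)

theorem zq_mul {l m n : Type} [Fintype m] (M : Matrix l m ℤ) (N : Matrix m n ℤ) :
    zq (M * N) = zq M * zq N := by
  ext i j
  simp [zq, Matrix.mul_apply]

theorem zq_one {n : Type} [DecidableEq n] : zq (1 : Matrix n n ℤ) = 1 := by
  ext i j
  by_cases h : i = j <;> simp [zq, Matrix.one_apply, h]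

theorem zq_pow {n : Type} [Fintype n] [DecidableEq n] (M : Matrix n n ℤ) (k : ℕ) :
    zq (M ^ k) = zq M ^ k := by
  induction k with
  | zero => simp [zq_one]
  | succ k ih => rw [pow_succ, zq_mul, ih, pow_succ]

theorem zq_zM {n : ℕ} (A : Matrix (Fin n) (Fin n) ℕ) : zq (zM A) = toQ A := by
  ext i j
  simp [zq, zM, toQ]

theorem zq_vec {m n : Type} [Fintype m] (v : m → ℤ) (M : Matrix m n ℤ) :
    (fun j => ((v ᵥ* M) j : ℚ)) = (fun j => (v j : ℚ)) ᵥ* zq M := by
  funext j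
  simp [zq, Matrix.vecMul, dotProduct]

theorem zq_inj {m n : Type} {M N : Matrix m n ℤ} (h : zq M = zq N) : M = N := by
  ext i j
  have := congrFun (congrFun h i) j
  simpa [zq] using this

/-- integral certificates for the dimension condition with traces: `R` is a basis of a pure
sublattice, invariant under `A`, with matrix `X`; `m` is the map to `B` -/
structure IsCert {a b r : ℕ} (A : Matrix (Fin a) (Fin a) ℕ) (B : Matrix (Fin b) (Fin b) ℕ)
    (R : Matrix (Fin r) (Fin a) ℤ) (R' : Matrix (Fin a) (Fin r) ℤ) (X : Matrix (Fin r) (Fin r) ℤ)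
    (m : Matrix (Fin r) (Fin b) ℤ) (T : Matrix (Fin b) (Fin r) ℤ) (l : ℕ) : Prop where
  pure : R * R' = 1
  inv : R * zM A = X * R
  ne : X.det ≠ 0
  comm : X * m = m * zM B
  onto : T * m = zM B ^ l
  tr : ∀ n, 0 < n → (B ^ n).trace = 0 → (X ^ n).trace = 0

section forward

variable {a b : ℕ} {A : Matrix (Fin a) (Fin a) ℕ} {B : Matrix (Fin b) (Fin b) ℕ}

theorem exists_cert (h : TraceDimCondition A B) :
    ∃ (r : ℕ) (R : Matrix (Fin r) (Fin a) ℤ) (R' : Matrix (Fin a) (Fin r) ℤ)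
      (X : Matrix (Fin r) (Fin r) ℤ) (m : Matrix (Fin r) (Fin b) ℤ)
      (T : Matrix (Fin b) (Fin r) ℤ) (l : ℕ), IsCert A B R R' X m T l := by
  obtain ⟨W, U, hW, hU, ψ, hUW, hWe, hψ, hker, hdim, htr⟩ := h
  obtain ⟨r, X, g, bs, -, hli, hbW, hspan, hX, -⟩ := exists_rel_sub hW hWe
  obtain ⟨q, bs', -, hq1, hq2⟩ := exists_quot_basis (n := a) ⊤ W
  -- the basis
  set R : Matrix (Fin r) (Fin a) ℤ := of bs with hR
  have hRrow : ∀ i, R i = bs i := fun i => rfl
  have hcomb : ∀ {s : ℕ} (w : Fin s → ℤ) (M : Matrix (Fin s) (Fin a) ℤ),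
      ∑ j, w j • M j = w ᵥ* M := by
    intro s w M
    funext k
    rw [Finset.sum_apply, Matrix.vecMul, dotProduct]
    rfl
  -- right inverse
  have hdec : ∀ k : Fin a, ∃ (w' : Fin q → ℤ) (w : Fin r → ℤ),
      (Pi.single k 1 : Fin a → ℤ) = ∑ j, w' j • bs' j + ∑ j, w j • bs j := by
    intro k
    obtain ⟨w', hw'⟩ := hq1 (Pi.single k 1) (Submodule.mem_top)
    obtain ⟨w, hw⟩ := hspan _ hw'
    exact ⟨w', w, by rw [← hw]; abel⟩
  choose W' R0 hWR using hdec
  set R' : Matrix (Fin a) (Fin r) ℤ := of R0 with hR'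
  have hid : ∀ v : Fin a → ℤ, v = ∑ j, (v ᵥ* of W') j • bs' j + ∑ j, (v ᵥ* R') j • bs j := by
    intro v
    have h1 : v = ∑ k, v k • (Pi.single k 1 : Fin a → ℤ) := by
      funext j
      rw [Finset.sum_apply, Finset.sum_eq_single j]
      · simp
      · intro k _ hk
        simp [Pi.single_eq_of_ne hk.symm]
      · simp
    conv_lhs => rw [h1]
    simp only [hWR, smul_add, Finset.sum_add_distrib, Finset.smul_sum]
    congr 1
    · rw [Finset.sum_comm]
      refine Finset.sum_congr rfl fun j _ => ?_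
      simp only [Matrix.vecMul, dotProduct, Finset.sum_smul, mul_smul]
      rfl
    · rw [Finset.sum_comm]
      refine Finset.sum_congr rfl fun j _ => ?_
      simp only [Matrix.vecMul, dotProduct, Finset.sum_smul, mul_smul]
      rfl
  have hlatsum : ∀ w : Fin r → ℤ, ∑ j, w j • bs j ∈ lat W := fun w =>
    Submodule.sum_mem _ fun j _ => Submodule.smul_mem _ _ (hbW j)
  have hpure : R * R' = 1 := by
    refine Matrix.ext fun i j => ?_
    have h1 := hid (bs i)
    have h2 : ∑ j, (bs i ᵥ* of W') j • bs' j ∈ lat W := by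
      have h3 : ∑ j, (bs i ᵥ* of W') j • bs' j = bs i - ∑ j, (bs i ᵥ* R') j • bs j := by
        exact eq_sub_of_add_eq h1.symm
      rw [h3]
      exact Submodule.sub_mem _ (hbW i) (hlatsum _)
    have h3 := hq2 _ h2
    rw [h3] at h1
    simp only [Pi.zero_apply, zero_smul, Finset.sum_const_zero, zero_add] at h1
    have h4 : ∑ j, (bs i ᵥ* R' - Pi.single i 1 : Fin r → ℤ) j • bs j = 0 := by
      simp only [Pi.sub_apply, sub_smul, Finset.sum_sub_distrib]
      rw [← h1, Finset.sum_eq_single i]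
      · simp
      · intro k _ hk
        simp [Pi.single_eq_of_ne hk]
      · simp
    have h5 := Fintype.linearIndependent_iff.1 hli _ h4 j
    rw [Pi.sub_apply, sub_eq_zero, Pi.single_apply] at h5
    rw [Matrix.one_apply]
    change (bs i ᵥ* R') j = _
    rw [h5]
    simp only [eq_comm]
  have hinv : R * zM A = X * R := by
    refine Matrix.ext fun i j => ?_
    have h1 := congrFun (hX i) j
    change (bs i ᵥ* zM A) j = (X i ᵥ* R) j
    rw [h1, ← hcomb]
    rfl
  have hrow : ∀ v : Fin r → ℤ, (fun j => ((v ᵥ* R) j : ℚ)) ∈ W := by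
    intro v
    rw [← hcomb]
    exact hlatsum v
  -- determinant
  have hne : X.det ≠ 0 := by
    intro h0
    obtain ⟨v, hv0, hv⟩ := Matrix.exists_vecMul_eq_zero_iff.2 h0
    have h1 : (v ᵥ* R) ᵥ* zM A = 0 := by
      rw [Matrix.vecMul_vecMul, hinv, ← Matrix.vecMul_vecMul, hv, Matrix.zero_vecMul]
    have h2 : (fun j => ((v ᵥ* R) j : ℚ)) ᵥ* toQ A = 0 := by
      rw [← zq_zM, ← zq_vec, h1]
      funext j
      simp
    have h3 := evRange_inj A (hWe (hrow v)) (k := 1) (by rw [pow_one]; exact h2)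
    have h4 : v ᵥ* R = 0 := by
      funext j
      have := congrFun h3 j
      simpa using this
    rw [← hcomb] at h4
    have h5 := Fintype.linearIndependent_iff.1 hli v h4
    exact hv0 (funext h5)
  -- the map
  have hψG : ∀ i, ψ (fun j => (bs i j : ℚ)) ∈ dimGroup B := by
    intro i
    refine (hdim _).2 ⟨fun j => (bs i j : ℚ), hbW i, ⟨hWe (hbW i), 0, bs i, fun j => ?_⟩, rfl⟩
    rw [pow_zero, Matrix.vecMul_one]
  choose hψe kk hkk using hψG
  set K := ∑ i, kk i with hK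
  have hKi : ∀ i, kk i ≤ K := fun i => Finset.single_le_sum (f := kk) (fun _ _ => Nat.zero_le _)
    (Finset.mem_univ i)
  choose m0 hm0 using fun i => integral_up B (hKi i) (hkk i)
  set m : Matrix (Fin r) (Fin b) ℤ := of m0 with hm
  have hmrow : ∀ i, (fun j => (m i j : ℚ)) = ψ (fun j => (bs i j : ℚ)) ᵥ* toQ B ^ K := fun i =>
    (funext (hm0 i)).symm
  have hmv : ∀ v : Fin r → ℤ, (fun j => ((v ᵥ* m) j : ℚ)) =
      ψ (fun j => ((v ᵥ* R) j : ℚ)) ᵥ* toQ B ^ K := by
    intro v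
    have h1 : (fun j => ((v ᵥ* R) j : ℚ)) = ∑ i, (v i : ℚ) • fun j => (bs i j : ℚ) := by
      funext j
      rw [Finset.sum_apply, Matrix.vecMul, dotProduct]
      push_cast
      rfl
    rw [h1, map_sum, Matrix.sum_vecMul]
    funext j
    rw [Finset.sum_apply, Matrix.vecMul, dotProduct]
    push_cast
    refine Finset.sum_congr rfl fun i _ => ?_
    rw [map_smul, Matrix.smul_vecMul, ← hmrow]
    rfl
  have hcomm : X * m = m * zM B := by
    apply zq_inj
    refine Matrix.ext fun i j => ?_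
    have h1 := congrFun (hmv (X i)) j
    have h2 : X i ᵥ* R = bs i ᵥ* zM A := by
      rw [← hcomb]
      exact (hX i).symm
    rw [h2, zq_vec, zq_zM, hψ _ (hbW i)] at h1
    have h3 : (zq (m * zM B)) i j = ((fun j => (m i j : ℚ)) ᵥ* toQ B) j := by
      rw [zq_mul, zq_zM]
      rfl
    rw [h3, hmrow, Matrix.vecMul_vecMul, ← pow_succ, pow_succ', ← Matrix.vecMul_vecMul]
    exact h1
  -- surjectivity
  have hyj : ∀ j : Fin b, (Pi.single j (1 : ℚ)) ᵥ* toQ B ^ b ∈ dimGroup B := by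
    intro j
    refine ⟨mem_evRange_of_le B le_rfl _, 0, fun k => ((B ^ b) j k : ℕ), fun k => ?_⟩
    rw [pow_zero, Matrix.vecMul_one, Matrix.single_one_vecMul, ← qpow]
    simp [toQ, Matrix.row]
  choose w hwW hwG hwψ using fun j => (hdim _).1 (hyj j)
  choose hwe kw hkw using hwG
  set K' := ∑ i, kw i with hK'
  have hKi' : ∀ i, kw i ≤ K' := fun i => Finset.single_le_sum (f := kw)
    (fun _ _ => Nat.zero_le _) (Finset.mem_univ i)
  choose z hz using fun i => integral_up A (hKi' i) (hkw i)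
  have hzW : ∀ i, z i ∈ lat W := by
    intro i
    rw [mem_lat, ← funext (hz i)]
    exact inv_pow_mem A hW K' (hwW i)
  choose T0 hT0 using fun i => hspan _ (hzW i)
  have hψk : ∀ (k : ℕ) (v : Fin a → ℚ), v ∈ W → ψ (v ᵥ* toQ A ^ k) = ψ v ᵥ* toQ B ^ k := by
    intro k
    induction k with
    | zero => intro v _; rw [pow_zero, pow_zero, Matrix.vecMul_one, Matrix.vecMul_one]
    | succ k ih =>
      intro v hv
      rw [pow_succ, ← Matrix.vecMul_vecMul, hψ _ (inv_pow_mem A hW k hv), ih v hv,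
        Matrix.vecMul_vecMul, ← pow_succ]
  refine ⟨r, R, R', X, m, of T0, b + K' + K, hpure, hinv, hne, hcomm, ?_, ?_⟩
  · apply zq_inj
    refine Matrix.ext fun i j => ?_
    have h1 := congrFun (hmv (T0 i)) j
    have h2 : T0 i ᵥ* R = z i := by
      rw [← hcomb]
      exact (hT0 i).symm
    rw [h2, ← funext (hz i), hψk _ _ (hwW i), hwψ, Matrix.vecMul_vecMul, Matrix.vecMul_vecMul,
      ← pow_add, ← pow_add, Matrix.single_one_vecMul] at h1
    rw [zq_pow, zq_zM, add_assoc]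
    exact h1
  · intro n hn h0
    have h1 := (htr n hn h0).1
    rw [← trace_restr hW X bs hli hbW hspan hX n] at h1
    exact_mod_cast h1

end forward

section backward

variable {a b r : ℕ} {A : Matrix (Fin a) (Fin a) ℕ} {B : Matrix (Fin b) (Fin b) ℕ}
  {R : Matrix (Fin r) (Fin a) ℤ} {R' : Matrix (Fin a) (Fin r) ℤ} {X : Matrix (Fin r) (Fin r) ℤ}
  {m : Matrix (Fin r) (Fin b) ℤ} {T : Matrix (Fin b) (Fin r) ℤ} {l : ℕ}

theorem semiconj {n k : ℕ} {X : Matrix (Fin n) (Fin n) ℚ} {Y : Matrix (Fin k) (Fin k) ℚ}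
    {M : Matrix (Fin n) (Fin k) ℚ} (h : X * M = M * Y) (j : ℕ) : X ^ j * M = M * Y ^ j := by
  induction j with
  | zero => simp
  | succ j ih => rw [pow_succ, Matrix.mul_assoc, h, ← Matrix.mul_assoc, ih, Matrix.mul_assoc,
      ← pow_succ]

theorem traceDim_of_cert (h : IsCert A B R R' X m T l) : TraceDimCondition A B := by
  -- rational matrices
  have hpure : zq R * zq R' = 1 := by rw [← zq_mul, h.pure, zq_one]
  have hinv : zq R * toQ A = zq X * zq R := by rw [← zq_zM, ← zq_mul, h.inv, zq_mul]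
  have hcomm : zq X * zq m = zq m * toQ B := by rw [← zq_zM, ← zq_mul, h.comm, zq_mul]
  have honto : zq T * zq m = toQ B ^ l := by rw [← zq_zM, ← zq_pow, ← zq_mul, h.onto]
  have hdet : (zq X).det ≠ 0 := by
    have h1 : (zq X).det = ((X.det : ℤ) : ℚ) := by
      have := (Int.castRingHom ℚ).map_det X
      rw [RingHom.mapMatrix_apply] at this
      exact this.symm
    rw [h1]
    exact_mod_cast h.ne
  have hunit : ∀ k, IsUnit ((zq X) ^ k).det := fun k => by
    rw [Matrix.det_pow]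
    exact (isUnit_iff_ne_zero.2 hdet).pow k
  have hXR : ∀ k, zq X ^ k * zq R = zq R * toQ A ^ k := fun k => semiconj hinv.symm k
  have hXm : ∀ k, zq X ^ k * zq m = zq m * toQ B ^ k := fun k => semiconj hcomm k
  have hroot : ∀ (k : ℕ) (v : Fin r → ℚ), ∃ v', v' ᵥ* zq X ^ k = v := fun k v =>
    ⟨v ᵥ* (zq X ^ k)⁻¹, by rw [Matrix.vecMul_vecMul, Matrix.nonsing_inv_mul _ (hunit k),
      Matrix.vecMul_one]⟩
  -- the space
  set W : Submodule ℚ (Fin a → ℚ) := LinearMap.range (zq R).vecMulLinear with hW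
  have hmemW : ∀ w, w ∈ W ↔ ∃ v : Fin r → ℚ, v ᵥ* zq R = w := fun w => Iff.rfl
  have hWval : ∀ v : Fin r → ℚ, v ᵥ* zq R ∈ W := fun v => ⟨v, rfl⟩
  have hback : ∀ v : Fin r → ℚ, v ᵥ* zq R ᵥ* zq R' = v := fun v => by
    rw [Matrix.vecMul_vecMul, hpure, Matrix.vecMul_one]
  set ψ : (Fin a → ℚ) →ₗ[ℚ] (Fin b → ℚ) := (zq m).vecMulLinear ∘ₗ (zq R').vecMulLinear with hψ
  have hψv : ∀ v : Fin r → ℚ, ψ (v ᵥ* zq R) = v ᵥ* zq m := by
    intro v
    change v ᵥ* zq R ᵥ* zq R' ᵥ* zq m = _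
    rw [hback]
  set U : Submodule ℚ (Fin a → ℚ) := W ⊓ LinearMap.ker ψ with hU
  have hinvW : ∀ w ∈ W, w ᵥ* toQ A ∈ W := by
    rintro w ⟨v, rfl⟩
    refine ⟨v ᵥ* zq X, ?_⟩
    change v ᵥ* zq X ᵥ* zq R = v ᵥ* zq R ᵥ* toQ A
    rw [Matrix.vecMul_vecMul, Matrix.vecMul_vecMul, hinv]
  have hψA : ∀ w ∈ W, ψ (w ᵥ* toQ A) = ψ w ᵥ* toQ B := by
    rintro w ⟨v, rfl⟩
    have h1 : (v ᵥ* zq R) ᵥ* toQ A = (v ᵥ* zq X) ᵥ* zq R := by
      rw [Matrix.vecMul_vecMul, Matrix.vecMul_vecMul, hinv]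
    change ψ ((v ᵥ* zq R) ᵥ* toQ A) = ψ (v ᵥ* zq R) ᵥ* toQ B
    rw [h1, hψv, hψv, Matrix.vecMul_vecMul, Matrix.vecMul_vecMul, hcomm]
  have hinvU : ∀ w ∈ U, w ᵥ* toQ A ∈ U := by
    rintro w ⟨hw1, hw2⟩
    refine ⟨hinvW w hw1, ?_⟩
    change ψ (w ᵥ* toQ A) = 0
    rw [hψA w hw1]
    have : ψ w = 0 := hw2
    rw [this, Matrix.zero_vecMul]
  have hWe : W ≤ evRange A := by
    rintro w ⟨v, rfl⟩
    obtain ⟨v', hv'⟩ := hroot a v
    refine ⟨v' ᵥ* zq R, ?_⟩
    change (v' ᵥ* zq R) ᵥ* toQ A ^ a = v ᵥ* zq R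
    rw [Matrix.vecMul_vecMul, ← hXR, ← Matrix.vecMul_vecMul, hv']
  have hme : ∀ v : Fin r → ℚ, v ᵥ* zq m ∈ evRange B := by
    intro v
    obtain ⟨v', hv'⟩ := hroot b v
    refine ⟨v' ᵥ* zq m, ?_⟩
    change (v' ᵥ* zq m) ᵥ* toQ B ^ b = v ᵥ* zq m
    rw [Matrix.vecMul_vecMul, ← hXm, ← Matrix.vecMul_vecMul, hv']
  have honto' : ∀ y, y ∈ dimGroup B ↔ ∃ w ∈ W, w ∈ dimGroup A ∧ ψ w = y := by
    intro y
    constructor
    · rintro ⟨hye, n, z, hz⟩
      obtain ⟨v, hv⟩ := hroot (n + l) ((fun j => (z j : ℚ)) ᵥ* zq T)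
      have h1 : v ᵥ* zq m = y := by
        refine evRange_eq B (hme v) hye (n + l) ?_
        rw [Matrix.vecMul_vecMul, ← hXm, ← Matrix.vecMul_vecMul, hv, Matrix.vecMul_vecMul, honto,
          pow_add, ← Matrix.vecMul_vecMul, funext hz]
      refine ⟨v ᵥ* zq R, hWval v, ⟨hWe (hWval v), n + l, (z ᵥ* T) ᵥ* R, fun j => ?_⟩, ?_⟩
      · rw [Matrix.vecMul_vecMul, ← hXR, ← Matrix.vecMul_vecMul, hv, ← zq_vec, ← zq_vec]
      · rw [hψv, h1]
    · rintro ⟨w, ⟨v, rfl⟩, ⟨-, k, z, hz⟩, rfl⟩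
      change ψ (v ᵥ* zq R) ∈ dimGroup B
      rw [hψv]
      refine ⟨hme v, k, (z ᵥ* R') ᵥ* m, fun j => ?_⟩
      have h1 : v ᵥ* zq X ^ k = (fun j => ((z ᵥ* R') j : ℚ)) := by
        rw [zq_vec, ← funext hz]
        change _ = ((v ᵥ* zq R) ᵥ* toQ A ^ k) ᵥ* zq R'
        rw [Matrix.vecMul_vecMul v, ← hXR, ← Matrix.vecMul_vecMul v, hback]
      rw [Matrix.vecMul_vecMul, ← hXm, ← Matrix.vecMul_vecMul, h1, ← zq_vec]
  refine ⟨W, U, hinvW, hinvU, ψ, inf_le_left, hWe, hψA, fun w hw => ⟨fun h0 => ⟨hw, h0⟩,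
    fun h0 => h0.2⟩, honto', fun n hn h0 => ?_⟩
  -- traces
  have htW : LinearMap.trace ℚ W ((restr A W hinvW) ^ n) = 0 := by
    have hli : LinearIndependent ℤ (fun i => R i) := by
      rw [Fintype.linearIndependent_iff]
      intro g hg i
      have h1 : g ᵥ* R = 0 := by
        rw [← hg]
        funext k
        rw [Finset.sum_apply, Matrix.vecMul, dotProduct]
        rfl
      have h2 : g ᵥ* R ᵥ* R' = g := by rw [Matrix.vecMul_vecMul, h.pure, Matrix.vecMul_one]
      rw [← h2, h1, Matrix.zero_vecMul]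
      rfl
    have hb : ∀ i, R i ∈ lat W := by
      intro i
      refine ⟨Pi.single i 1, ?_⟩
      change Pi.single i 1 ᵥ* zq R = _
      rw [Matrix.single_one_vecMul]
      rfl
    have hcomb : ∀ w : Fin r → ℤ, ∑ j, w j • R j = w ᵥ* R := by
      intro w
      funext k
      rw [Finset.sum_apply, Matrix.vecMul, dotProduct]
      rfl
    have hspan : ∀ z ∈ lat W, ∃ w : Fin r → ℤ, z = ∑ j, w j • R j := by
      rintro z ⟨v, hv⟩
      refine ⟨z ᵥ* R', ?_⟩
      rw [hcomb]
      have h1 : (fun j => ((z ᵥ* R') j : ℚ)) = v := by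
        rw [zq_vec, ← hv]
        exact hback v
      funext j
      have h2 : (((z ᵥ* R' ᵥ* R) j : ℤ) : ℚ) = ((z j : ℤ) : ℚ) := by
        have h3 := congrFun (zq_vec (z ᵥ* R') R) j
        rw [h1] at h3
        rw [h3]
        exact congrFun hv j
      exact_mod_cast h2.symm
    have hA : ∀ i, R i ᵥ* zM A = ∑ j, X i j • R j := by
      intro i
      rw [hcomb]
      exact congrFun h.inv i
    rw [← trace_restr hinvW X (fun i => R i) hli hb hspan hA n, h.tr n hn h0]
    simp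
  refine ⟨htW, ?_⟩
  -- the kernel
  have hmemE : ∀ w : W, ψ (w : Fin a → ℚ) ∈ evRange B := by
    rintro ⟨w, ⟨v, rfl⟩⟩
    change ψ (v ᵥ* zq R) ∈ evRange B
    rw [hψv]
    exact hme v
  let g : W →ₗ[ℚ] evRange B := (ψ ∘ₗ W.subtype).codRestrict _ hmemE
  have hg : Function.Surjective g := by
    rintro ⟨y, ⟨v, rfl⟩⟩
    -- rows of `B ^ b` are in the dimension group
    have h1 : ∀ j, ∃ w ∈ W, ψ w = (Pi.single j (1 : ℚ)) ᵥ* toQ B ^ b := by
      intro j
      obtain ⟨w, hw, -, hw2⟩ := (honto' (Pi.single j (1 : ℚ) ᵥ* toQ B ^ b)).1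
        ⟨mem_evRange_of_le B le_rfl _, 0, fun k => ((B ^ b) j k : ℕ), fun k => by
          rw [pow_zero, Matrix.vecMul_one, Matrix.single_one_vecMul, ← qpow]
          simp [toQ, Matrix.row]⟩
      exact ⟨w, hw, hw2⟩
    choose w hw hw2 using h1
    refine ⟨⟨∑ j, v j • w j, Submodule.sum_mem _ fun j _ => Submodule.smul_mem _ _ (hw j)⟩, ?_⟩
    apply Subtype.ext
    change ψ (∑ j, v j • w j) = v ᵥ* toQ B ^ b
    rw [map_sum]
    simp only [map_smul, hw2]
    have h3 : v = ∑ j, v j • (Pi.single j 1 : Fin b → ℚ) := by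
      funext j
      rw [Finset.sum_apply, Finset.sum_eq_single j]
      · simp
      · intro k _ hk
        simp [Pi.single_eq_of_ne hk.symm]
      · simp
    conv_rhs => rw [h3]
    rw [Matrix.sum_vecMul]
    refine Finset.sum_congr rfl fun j _ => ?_
    rw [Matrix.smul_vecMul]
  have hinvE : ∀ w ∈ evRange B, w ᵥ* toQ B ∈ evRange B := fun w hw => evRange_inv B hw
  set f := restr A W hinvW with hf
  set f2 := restr B (evRange B) hinvE with hf2
  have hgf1 : ∀ w, g (f w) = f2 (g w) := by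
    intro w
    apply Subtype.ext
    exact hψA w w.2
  have hgf : ∀ (k : ℕ) (w : W), g ((f ^ k) w) = (f2 ^ k) (g w) := by
    intro k
    induction k with
    | zero => intro w; simp
    | succ k ih =>
      intro w
      rw [pow_succ, pow_succ, Module.End.mul_apply, Module.End.mul_apply, ih, hgf1]
  -- `ker g ≃ U`
  let e : LinearMap.ker g ≃ₗ[ℚ] U :=
    { toFun := fun u => ⟨((u : W) : Fin a → ℚ), (u : W).2, by
        have h1 : g u = 0 := u.2
        exact congrArg Subtype.val h1⟩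
      map_add' := fun _ _ => rfl
      map_smul' := fun _ _ => rfl
      invFun := fun u => ⟨⟨(u : Fin a → ℚ), u.2.1⟩, by
        rw [LinearMap.mem_ker]
        apply Subtype.ext
        exact u.2.2⟩
      left_inv := fun _ => rfl
      right_inv := fun _ => rfl }
  set fU := restr A U hinvU with hfU
  have hpowU : ∀ (k : ℕ) (u : U), (((fU ^ k) u : U) : Fin a → ℚ) = (u : Fin a → ℚ) ᵥ* toQ A ^ k := by
    intro k
    induction k with
    | zero => intro u; simp
    | succ k ih =>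
      intro u
      rw [pow_succ, Module.End.mul_apply, ih]
      change (u : Fin a → ℚ) ᵥ* toQ A ᵥ* toQ A ^ k = _
      rw [Matrix.vecMul_vecMul, ← pow_succ']
  have hpowW : ∀ (k : ℕ) (u : W), (((f ^ k) u : W) : Fin a → ℚ) = (u : Fin a → ℚ) ᵥ* toQ A ^ k := by
    intro k
    induction k with
    | zero => intro u; simp
    | succ k ih =>
      intro u
      rw [pow_succ, Module.End.mul_apply, ih]
      change (u : Fin a → ℚ) ᵥ* toQ A ᵥ* toQ A ^ k = _
      rw [Matrix.vecMul_vecMul, ← pow_succ']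
  have h1 := trace_add (f ^ n) (f2 ^ n) g hg (hgf n) (e.symm.conj (fU ^ n)) (by
    intro u
    apply Subtype.ext
    rw [hpowW]
    exact hpowU n (e u))
  have h7 : LinearMap.trace ℚ (LinearMap.ker g) (e.symm.conj (fU ^ n)) =
      LinearMap.trace ℚ U (fU ^ n) :=
    LinearMap.trace_conj' (R := ℚ) (M := U) (N := LinearMap.ker g) (fU ^ n) e.symm
  rw [htW, h7] at h1
  have h2 : LinearMap.trace ℚ (evRange B) (f2 ^ n) = 0 := by
    have h3 := trace_pow_eq ((toQ B).vecMulLinear : Module.End ℚ (Fin b → ℚ)) f2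
      (evRange B).subtype (Submodule.injective_subtype _) (fun w => rfl) b (fun v => by
        refine ⟨⟨v ᵥ* toQ B ^ b, mem_evRange_of_le B le_rfl v⟩, ?_⟩
        rw [vml_pow]
        rfl) n hn
    rw [← h3]
    have h4 : ((toQ B).vecMulLinear : Module.End ℚ (Fin b → ℚ)) ^ n = (toQ B ^ n).vecMulLinear := by
      apply LinearMap.ext
      intro v
      exact vml_pow B n v
    rw [h4]
    have h5 : LinearMap.trace ℚ (Fin b → ℚ) (toQ B ^ n).vecMulLinear = (toQ B ^ n).trace := by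
      have h8 : (toQ B ^ n).vecMulLinear = Matrix.toLin' (toQ B ^ n)ᵀ := by
        apply LinearMap.ext
        intro v
        rw [Matrix.toLin'_apply, Matrix.mulVec_transpose]
        rfl
      rw [h8, Matrix.trace_toLin'_eq, Matrix.trace_transpose]
    rw [h5, ← qpow]
    have h6 : (toQ (B ^ n)).trace = ((B ^ n).trace : ℚ) := by
      simp [toQ, Matrix.trace]
    rw [h6, h0, Nat.cast_zero]
  rw [h2, add_zero] at h1
  exact h1.symm

end backward

/-- **the dimension condition with traces is the existence of an integral certificate** -/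
theorem traceDim_iff_cert {a b : ℕ} (A : Matrix (Fin a) (Fin a) ℕ)
    (B : Matrix (Fin b) (Fin b) ℕ) : TraceDimCondition A B ↔
    ∃ (r : ℕ) (R : Matrix (Fin r) (Fin a) ℤ) (R' : Matrix (Fin a) (Fin r) ℤ)
      (X : Matrix (Fin r) (Fin r) ℤ) (m : Matrix (Fin r) (Fin b) ℤ)
      (T : Matrix (Fin b) (Fin r) ℤ) (l : ℕ), IsCert A B R R' X m T l :=
  ⟨exists_cert, fun ⟨_, _, _, _, _, _, _, h⟩ => traceDim_of_cert h⟩

end Pool.Agent.DEC
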