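import Pool.Agent.DEC.Sol
import Pool.Agent.DEC.YesForm

/-!
# DEC: the dimension condition with traces as a solution over transported modules
-/

set_option autoImplicit false
set_option linter.unusedSectionVars false

open scoped BigOperators
open Matrix

namespace Pool.Agent.DEC

open Pool.Agent.FT Pool.Agent.FTO

/-- the trace of `B ^ k` is the trace on the eventual range -/
theorem trace_evRange {b : ℕ} (B : Matrix (Fin b) (Fin b) ℕ)
    (hB : ∀ w ∈ evRange B, w ᵥ* toQ B ∈ evRange B) (n : ℕ) (hn : 0 < n) :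
    LinearMap.trace ℚ (evRange B) ((restr B (evRange B) hB) ^ n) = ((B ^ n).trace : ℚ) := by
  have h3 := trace_pow_eq ((toQ B).vecMulLinear : Module.End ℚ (Fin b → ℚ))
    (restr B (evRange B) hB) (evRange B).subtype (Submodule.injective_subtype _) (fun w => rfl) b
    (fun v => by
      refine ⟨⟨v ᵥ* toQ B ^ b, mem_evRange_of_le B le_rfl v⟩, ?_⟩
      rw [vml_pow]
      rfl) n hn
  rw [← h3]
  have h4 : ((toQ B).vecMulLinear : Module.End ℚ (Fin b → ℚ)) ^ n = (toQ B ^ n).vecMulLinear := by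
    apply LinearMap.ext
    intro v
    exact vml_pow B n v
  rw [h4]
  have h5 : LinearMap.trace ℚ (Fin b → ℚ) (toQ B ^ n).vecMulLinear = (toQ B ^ n).trace := by
    have h8 : (toQ B ^ n).vecMulLinear = Matrix.toLin' (toQ B ^ n)ᵀ := by
      apply LinearMap.ext
      intro v
      rw [Matrix.toLin'_apply, Matrix.mulVec_transpose]
      rfl
    rw [h8, Matrix.trace_toLin'_eq, Matrix.trace_transpose]
  rw [h5, ← qpow]
  simp [toQ, Matrix.trace]

/-- the image of a subspace of the eventual range lies in the eventual range -/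
theorem psi_mem {a b : ℕ} {A : Matrix (Fin a) (Fin a) ℕ} {B : Matrix (Fin b) (Fin b) ℕ}
    {W : Submodule ℚ (Fin a → ℚ)} (hWe : W ≤ evRange A) (ψ : (Fin a → ℚ) →ₗ[ℚ] (Fin b → ℚ))
    (hG : ∀ y, y ∈ dimGroup B ↔ ∃ w ∈ W, w ∈ dimGroup A ∧ ψ w = y) (w : Fin a → ℚ) (hw : w ∈ W) :
    ψ w ∈ evRange B := by
  -- a positive multiple is integral
  obtain ⟨N, hN⟩ := IsLocalization.exist_integer_multiples_of_finset (nonZeroDivisors ℤ)
    (Finset.univ.image w)
  have hN0 : ((N : ℤ) : ℚ) ≠ 0 := by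
    exact_mod_cast nonZeroDivisors.ne_zero N.2
  have h1 : ∀ j, ∃ z : ℤ, (((N : ℤ) : ℚ) • w) j = (z : ℚ) := by
    intro j
    obtain ⟨z, hz⟩ := hN (w j) (Finset.mem_image_of_mem _ (Finset.mem_univ j))
    refine ⟨z, ?_⟩
    rw [Pi.smul_apply, smul_eq_mul]
    have h2 : (algebraMap ℤ ℚ) z = (N : ℤ) • w j := hz
    rw [zsmul_eq_mul] at h2
    rw [← h2]
    rfl
  choose z hz using h1
  have h2 : ((N : ℤ) : ℚ) • w ∈ dimGroup A := by
    refine ⟨Submodule.smul_mem _ _ (hWe hw), 0, z, fun j => ?_⟩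
    rw [pow_zero, Matrix.vecMul_one]
    exact hz j
  have h3 : ψ (((N : ℤ) : ℚ) • w) ∈ dimGroup B :=
    (hG _).2 ⟨_, Submodule.smul_mem _ _ hw, h2, rfl⟩
  have h4 := Submodule.smul_mem (evRange B) (((N : ℤ) : ℚ)⁻¹) h3.1
  rw [map_smul, smul_smul, inv_mul_cancel₀ hN0, one_smul] at h4
  exact h4

/-- **transport**: the dimension condition with traces is the existence of a solution in
modules isomorphic to the eventual ranges -/
theorem traceDim_iff_sol {a b : ℕ} (A : Matrix (Fin a) (Fin a) ℕ) (B : Matrix (Fin b) (Fin b) ℕ)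
    {V W : Type} [AddCommGroup V] [Module ℚ V] [AddCommGroup W] [Module ℚ W]
    (xV : V →ₗ[ℚ] V) (xW : W →ₗ[ℚ] W) (P : V ≃ₗ[ℚ] evRange A) (Q : W ≃ₗ[ℚ] evRange B)
    (hP : ∀ v, (P (xV v) : Fin a → ℚ) = (P v : Fin a → ℚ) ᵥ* toQ A)
    (hQ : ∀ w, (Q (xW w) : Fin b → ℚ) = (Q w : Fin b → ℚ) ᵥ* toQ B) :
    TraceDimCondition A B ↔
      Sol xV xW {v | (P v : Fin a → ℚ) ∈ dimGroup A} {w | (Q w : Fin b → ℚ) ∈ dimGroup B}
        (fun k => (B ^ k).trace = 0) := by
  have : FiniteDimensional ℚ V := Module.Finite.equiv P.symm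
  have : FiniteDimensional ℚ W := Module.Finite.equiv Q.symm
  have hinvE : ∀ w ∈ evRange B, w ᵥ* toQ B ∈ evRange B := fun w hw => evRange_inv B hw
  constructor
  · rintro ⟨W0, U, hW0, hU, ψ, hUW, hWe, hψ, hker, hG, htr⟩
    let M : Submodule ℚ V := (W0.comap (evRange A).subtype).comap P.toLinearMap
    have hmem : ∀ v, v ∈ M ↔ (P v : Fin a → ℚ) ∈ W0 := fun v => Iff.rfl
    have hM : ∀ v ∈ M, xV v ∈ M := by
      intro v hv
      rw [hmem, hP]
      exact hW0 _ hv
    let ψ1 : M →ₗ[ℚ] evRange B :=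
      (ψ ∘ₗ (evRange A).subtype ∘ₗ P.toLinearMap ∘ₗ M.subtype).codRestrict _
        (fun v => psi_mem hWe ψ hG _ v.2)
    have hψ1 : ∀ v : M, (ψ1 v : Fin b → ℚ) = ψ (P (v : V) : Fin a → ℚ) := fun v => rfl
    refine ⟨M, hM, Q.symm.toLinearMap ∘ₗ ψ1, ?_, ?_, ?_⟩
    · intro v
      apply Q.injective
      change Q (Q.symm (ψ1 _)) = Q (xW (Q.symm (ψ1 v)))
      apply Subtype.ext
      rw [hQ, LinearEquiv.apply_symm_apply, LinearEquiv.apply_symm_apply, hψ1, hψ1]
      change ψ (P (xV (v : V)) : Fin a → ℚ) = _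
      rw [hP]
      exact hψ _ v.2
    · intro w
      rw [Set.mem_ofPred_eq, hG]
      constructor
      · rintro ⟨w0, hw0, hw1, hw2⟩
        refine ⟨⟨P.symm ⟨w0, hw1.1⟩, ?_⟩, ?_, ?_⟩
        · rw [hmem, LinearEquiv.apply_symm_apply]
          exact hw0
        · rw [Set.mem_ofPred_eq, LinearEquiv.apply_symm_apply]
          exact hw1
        · apply Q.injective
          change Q (Q.symm (ψ1 _)) = _
          rw [LinearEquiv.apply_symm_apply]
          apply Subtype.ext
          rw [hψ1, LinearEquiv.apply_symm_apply]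
          exact hw2
      · rintro ⟨v, hv, rfl⟩
        refine ⟨_, v.2, hv, ?_⟩
        change _ = ((Q (Q.symm (ψ1 v)) : evRange B) : Fin b → ℚ)
        rw [LinearEquiv.apply_symm_apply, hψ1]
        rfl
    · intro k hk h0
      have h1 := (htr k hk h0).1
      let e : M ≃ₗ[ℚ] W0 :=
        { toFun := fun v => ⟨(P (v : V) : Fin a → ℚ), v.2⟩
          map_add' := fun x y => by
            apply Subtype.ext
            change ((P ((x : V) + y) : evRange A) : Fin a → ℚ) = _
            rw [map_add]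
            rfl
          map_smul' := fun c x => by
            apply Subtype.ext
            change ((P (c • (x : V)) : evRange A) : Fin a → ℚ) = _
            rw [map_smul]
            rfl
          invFun := fun w => ⟨P.symm ⟨(w : Fin a → ℚ), hWe w.2⟩, by
            rw [hmem, LinearEquiv.apply_symm_apply]
            exact w.2⟩
          left_inv := fun v => by
            apply Subtype.ext
            change P.symm ⟨_, _⟩ = _
            apply P.injective
            rw [LinearEquiv.apply_symm_apply]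
          right_inv := fun w => by
            apply Subtype.ext
            change ((P (P.symm ⟨_, _⟩) : evRange A) : Fin a → ℚ) = _
            rw [LinearEquiv.apply_symm_apply] }
      have h2 : e.conj ((xV.restrict hM) ^ k) = (restr A W0 hW0) ^ k := by
        have h3 : e.conj (xV.restrict hM) = restr A W0 hW0 := by
          apply LinearMap.ext
          intro w
          obtain ⟨v, rfl⟩ := e.surjective w
          rw [LinearEquiv.conj_apply_apply, LinearEquiv.symm_apply_apply]
          apply Subtype.ext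
          change ((P (xV (v : V)) : evRange A) : Fin a → ℚ) = _
          rw [hP]
          rfl
        rw [← h3]
        exact map_pow e.conjRingEquiv _ k
      rw [← LinearMap.trace_conj' _ e, h2]
      exact h1
  · rintro ⟨M, hM, ψ, hψ, hG, htr⟩
    let ι : M →ₗ[ℚ] (Fin a → ℚ) := (evRange A).subtype ∘ₗ P.toLinearMap ∘ₗ M.subtype
    have hιv : ∀ v : M, ι v = (P (v : V) : Fin a → ℚ) := fun v => rfl
    have hι : Function.Injective ι := by
      intro v v' h
      apply Subtype.ext
      apply P.injective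
      exact Subtype.ext h
    obtain ⟨σ, hσ⟩ := ι.exists_leftInverse_of_injective (LinearMap.ker_eq_bot.2 hι)
    have hσ' : ∀ v, σ (ι v) = v := fun v => LinearMap.congr_fun hσ v
    let ψ1 : (Fin a → ℚ) →ₗ[ℚ] (Fin b → ℚ) := (evRange B).subtype ∘ₗ Q.toLinearMap ∘ₗ ψ ∘ₗ σ
    have hψ1 : ∀ v : M, ψ1 (ι v) = (Q (ψ v) : Fin b → ℚ) := by
      intro v
      change ((Q (ψ (σ (ι v))) : evRange B) : Fin b → ℚ) = _
      rw [hσ']
    set xM : Module.End ℚ M := xV.restrict hM with hxM
    have hxι : ∀ v : M, ι (xM v) = ι v ᵥ* toQ A := by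
      intro v
      change ((P (xV (v : V)) : evRange A) : Fin a → ℚ) = _
      rw [hP]
      rfl
    have hxψ : ∀ v : M, ψ (xM v) = xW (ψ v) := fun v => hψ v
    let W0 : Submodule ℚ (Fin a → ℚ) := LinearMap.range ι
    let U : Submodule ℚ (Fin a → ℚ) := (LinearMap.ker ψ).map ι
    have hUW : U ≤ W0 := by
      rintro _ ⟨v, -, rfl⟩
      exact ⟨v, rfl⟩
    have hWe : W0 ≤ evRange A := by
      rintro _ ⟨v, rfl⟩
      exact (P (v : V)).2
    have hW0 : ∀ w ∈ W0, w ᵥ* toQ A ∈ W0 := by
      rintro _ ⟨v, rfl⟩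
      exact ⟨xM v, hxι v⟩
    have hU : ∀ w ∈ U, w ᵥ* toQ A ∈ U := by
      rintro _ ⟨v, hv, rfl⟩
      refine ⟨xM v, ?_, hxι v⟩
      have h1 : ψ v = 0 := hv
      change ψ (xM v) = 0
      rw [hxψ, h1, map_zero]
    have hψA : ∀ w ∈ W0, ψ1 (w ᵥ* toQ A) = ψ1 w ᵥ* toQ B := by
      rintro _ ⟨v, rfl⟩
      rw [← hxι, hψ1, hψ1, hxψ, hQ]
    have hker : ∀ w ∈ W0, ψ1 w = 0 ↔ w ∈ U := by
      rintro _ ⟨v, rfl⟩
      rw [hψ1]
      constructor
      · intro h
        refine ⟨v, ?_, rfl⟩
        have h2 : Q (ψ v) = 0 := Subtype.ext h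
        exact Q.map_eq_zero_iff.1 h2
      · rintro ⟨v', hv', h⟩
        have h1 : v' = v := hι h
        subst h1
        have h2 : ψ v' = 0 := hv'
        rw [h2, map_zero]
        rfl
    have hG' : ∀ y, y ∈ dimGroup B ↔ ∃ w ∈ W0, w ∈ dimGroup A ∧ ψ1 w = y := by
      intro y
      constructor
      · intro hy
        have h1 : Q.symm ⟨y, hy.1⟩ ∈ {w | (Q w : Fin b → ℚ) ∈ dimGroup B} := by
          rw [Set.mem_ofPred_eq, LinearEquiv.apply_symm_apply]
          exact hy
        obtain ⟨v, hv, hv2⟩ := (hG _).1 h1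
        refine ⟨ι v, ⟨v, rfl⟩, hv, ?_⟩
        rw [hψ1, hv2, LinearEquiv.apply_symm_apply]
      · rintro ⟨_, ⟨v, rfl⟩, hv, rfl⟩
        rw [hψ1]
        exact (hG (ψ v)).2 ⟨v, hv, rfl⟩
    refine ⟨W0, U, hW0, hU, ψ1, hUW, hWe, hψA, hker, hG', fun k hk h0 => ?_⟩
    -- traces
    let e : M ≃ₗ[ℚ] W0 := LinearEquiv.ofInjective ι hι
    have hev : ∀ v, ((e v : W0) : Fin a → ℚ) = ι v := fun v => rfl
    have htW : LinearMap.trace ℚ W0 ((restr A W0 hW0) ^ k) = 0 := by
      have h3 : e.conj xM = restr A W0 hW0 := by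
        apply LinearMap.ext
        intro w
        obtain ⟨v, rfl⟩ := e.surjective w
        rw [LinearEquiv.conj_apply_apply, LinearEquiv.symm_apply_apply]
        apply Subtype.ext
        exact hxι v
      have h2 : e.conj (xM ^ k) = (restr A W0 hW0) ^ k := by
        rw [← h3]
        exact map_pow e.conjRingEquiv _ k
      rw [← h2, LinearMap.trace_conj']
      exact htr k hk h0
    refine ⟨htW, ?_⟩
    let g : W0 →ₗ[ℚ] evRange B := Q.toLinearMap ∘ₗ ψ ∘ₗ e.symm.toLinearMap
    have hgv : ∀ v, g (e v) = Q (ψ v) := by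
      intro v
      change Q (ψ (e.symm (e v))) = _
      rw [LinearEquiv.symm_apply_apply]
    have hψs : Function.Surjective ψ := by
      -- the range contains a multiple of everything
      intro w
      obtain ⟨N, hN⟩ := IsLocalization.exist_integer_multiples_of_finset (nonZeroDivisors ℤ)
        (Finset.univ.image (Q w : Fin b → ℚ))
      have hN0 : ((N : ℤ) : ℚ) ≠ 0 := by
        exact_mod_cast nonZeroDivisors.ne_zero N.2
      have h1 : ∀ j, ∃ z : ℤ, (((N : ℤ) : ℚ) • (Q w : Fin b → ℚ)) j = (z : ℚ) := by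
        intro j
        obtain ⟨z, hz⟩ := hN ((Q w : Fin b → ℚ) j)
          (Finset.mem_image_of_mem _ (Finset.mem_univ j))
        refine ⟨z, ?_⟩
        rw [Pi.smul_apply, smul_eq_mul]
        have h2 : (algebraMap ℤ ℚ) z = (N : ℤ) • (Q w : Fin b → ℚ) j := hz
        rw [zsmul_eq_mul] at h2
        rw [← h2]
        rfl
      choose z hz using h1
      have h2 : ((N : ℤ) : ℚ) • w ∈ {w | (Q w : Fin b → ℚ) ∈ dimGroup B} := by
        rw [Set.mem_ofPred_eq, map_smul]
        refine ⟨Submodule.smul_mem _ _ (Q w).2, 0, z, fun j => ?_⟩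
        rw [pow_zero, Matrix.vecMul_one]
        exact hz j
      obtain ⟨v, -, hv⟩ := (hG _).1 h2
      refine ⟨((N : ℤ) : ℚ)⁻¹ • v, ?_⟩
      rw [map_smul, hv, smul_smul, inv_mul_cancel₀ hN0, one_smul]
    have hg : Function.Surjective g := by
      intro y
      obtain ⟨v, hv⟩ := hψs (Q.symm y)
      refine ⟨e v, ?_⟩
      rw [hgv, hv, LinearEquiv.apply_symm_apply]
    set f := restr A W0 hW0 with hf
    set f2 := restr B (evRange B) hinvE with hf2
    have hgf1 : ∀ w, g (f w) = f2 (g w) := by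
      intro w
      obtain ⟨v, rfl⟩ := e.surjective w
      have h1 : f (e v) = e (xM v) := by
        apply Subtype.ext
        exact (hxι v).symm
      rw [h1, hgv, hgv, hxψ]
      apply Subtype.ext
      exact hQ _
    have hgf : ∀ (n : ℕ) (w : W0), g ((f ^ n) w) = (f2 ^ n) (g w) := by
      intro n
      induction n with
      | zero => intro w; simp
      | succ n ih =>
        intro w
        rw [pow_succ, pow_succ, Module.End.mul_apply, Module.End.mul_apply, ih, hgf1]
    have hkg : ∀ w : W0, g w = 0 ↔ (w : Fin a → ℚ) ∈ U := by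
      intro w
      obtain ⟨v, rfl⟩ := e.surjective w
      rw [hgv, hev, ← hker _ ⟨v, rfl⟩, hψ1]
      constructor
      · intro h
        rw [h]
        rfl
      · intro h
        exact Subtype.ext h
    let eU : LinearMap.ker g ≃ₗ[ℚ] U :=
      { toFun := fun u => ⟨((u : W0) : Fin a → ℚ), (hkg _).1 u.2⟩
        map_add' := fun _ _ => rfl
        map_smul' := fun _ _ => rfl
        invFun := fun u => ⟨⟨(u : Fin a → ℚ), hUW u.2⟩, (hkg _).2 u.2⟩
        left_inv := fun _ => rfl
        right_inv := fun _ => rfl }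
    set fU := restr A U hU with hfU
    have hpowU : ∀ (k : ℕ) (u : U),
        (((fU ^ k) u : U) : Fin a → ℚ) = (u : Fin a → ℚ) ᵥ* toQ A ^ k := by
      intro k
      induction k with
      | zero => intro u; simp
      | succ k ih =>
        intro u
        rw [pow_succ, Module.End.mul_apply, ih]
        change (u : Fin a → ℚ) ᵥ* toQ A ᵥ* toQ A ^ k = _
        rw [Matrix.vecMul_vecMul, ← pow_succ']
    have hpowW : ∀ (k : ℕ) (u : W0),
        (((f ^ k) u : W0) : Fin a → ℚ) = (u : Fin a → ℚ) ᵥ* toQ A ^ k := by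
      intro k
      induction k with
      | zero => intro u; simp
      | succ k ih =>
        intro u
        rw [pow_succ, Module.End.mul_apply, ih]
        change (u : Fin a → ℚ) ᵥ* toQ A ᵥ* toQ A ^ k = _
        rw [Matrix.vecMul_vecMul, ← pow_succ']
    have h1 := trace_add (f ^ k) (f2 ^ k) g hg (hgf k) (eU.symm.conj (fU ^ k)) (by
      intro u
      apply Subtype.ext
      rw [hpowW]
      exact hpowU k (eU u))
    have h7 : LinearMap.trace ℚ (LinearMap.ker g) (eU.symm.conj (fU ^ k)) =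
        LinearMap.trace ℚ U (fU ^ k) :=
      LinearMap.trace_conj' (R := ℚ) (M := U) (N := LinearMap.ker g) (fU ^ k) eU.symm
    rw [htW, h7, trace_evRange B hinvE k hk, h0, Nat.cast_zero, add_zero] at h1
    exact h1.symm

end Pool.Agent.DEC
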