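import Pool.Agent.DEC.State
import Pool.Agent.DEC.LG1

/-!
States over a subring `S` of a field `K`: if `RM` is injective up to `N` over `S` and `MM` is
surjective up to `N` over `S`, then the determinants of `T_j` and `Sig_j` divide a power of `N`
in `S` (`dec_general.md`, section 6, (c), (d)).
-/

set_option autoImplicit false
set_option linter.unusedSectionVars false

open Matrix

namespace Pool.Agent.DEC

section MIn

variable {K : Type} [Field K] {S : Subring K}

/-- all entries are in `S` -/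
def MIn {m n : Type} (S : Subring K) (M : Matrix m n K) : Prop := ∀ i j, M i j ∈ S

/-- all entries of the state are in `S` -/
structure StIn {I α β : Type} (S : Subring K) (s : RSt K I α β) : Prop where
  c : MIn S s.1
  rho : MIn S s.2.1
  tau : MIn S s.2.2

theorem MIn.mul {l m n : Type} [Fintype m] {M : Matrix l m K} {N : Matrix m n K}
    (hM : MIn S M) (hN : MIn S N) : MIn S (M * N) := by
  intro i j
  rw [Matrix.mul_apply]
  exact S.sum_mem fun k _ => S.mul_mem (hM i k) (hN k j)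

theorem MIn.one {m : Type} [DecidableEq m] : MIn S (1 : Matrix m m K) := by
  intro i j
  rw [Matrix.one_apply]
  split_ifs
  · exact S.one_mem
  · exact S.zero_mem

theorem MIn.pow {m : Type} [Fintype m] [DecidableEq m] {M : Matrix m m K}
    (hM : MIn S M) (k : ℕ) : MIn S (M ^ k) := by
  induction k with
  | zero => rw [pow_zero]; exact MIn.one
  | succ k ih => rw [pow_succ]; exact ih.mul hM

theorem MIn.submatrix {m n m' n' : Type} {M : Matrix m n K} (hM : MIn S M) (f : m' → m)
    (g : n' → n) : MIn S (M.submatrix f g) := fun i j => hM (f i) (g j)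

/-- a matrix over `S` -/
def MIn.lift {m n : Type} {M : Matrix m n K} (hM : MIn S M) : Matrix m n S :=
  of fun i j => ⟨M i j, hM i j⟩

theorem MIn.lift_map {m n : Type} {M : Matrix m n K} (hM : MIn S M) :
    hM.lift.map S.subtype = M := by
  ext i j
  rfl

theorem MIn.det {m : Type} [Fintype m] [DecidableEq m] {M : Matrix m m K}
    (hM : MIn S M) : M.det ∈ S := by
  have h : M.det = S.subtype hM.lift.det := by
    rw [RingHom.map_det, RingHom.mapMatrix_apply, hM.lift_map]
  rw [h]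
  exact (hM.lift.det).2

theorem MIn.gdet {m n : Type} [Fintype m] [Fintype n] [DecidableEq n] {M : Matrix m n K}
    (hM : MIn S M) : gdet M ∈ S := by
  unfold DEC.gdet
  split_ifs with h
  · exact (hM.submatrix _ _).det
  · exact S.zero_mem

/-- a right inverse up to `N` -/
theorem gdet_dvd_right {m n : Type} [Fintype m] [Fintype n] [DecidableEq m] [DecidableEq n]
    (hc : Fintype.card n = Fintype.card m) {M : Matrix m n K} {Y : Matrix n m K} {N : K}
    (hY : MIn S Y) (h : M * Y = N • (1 : Matrix m m K)) :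
    ∃ w ∈ S, gdet M * w = N ^ Fintype.card n := by
  unfold gdet
  rw [dif_pos hc]
  set e := Fintype.equivOfCardEq hc with he
  refine ⟨(Y.submatrix id e).det, (hY.submatrix _ _).det, ?_⟩
  rw [← det_mul]
  have h1 : M.submatrix (e : n → m) id * Y.submatrix id (e : n → m) = N • (1 : Matrix n n K) := by
    rw [← Matrix.submatrix_mul M Y (e : n → m) id (e : n → m) Function.bijective_id, h]
    ext i j
    simp only [Matrix.submatrix_apply, Matrix.smul_apply, Matrix.one_apply, smul_eq_mul,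
      EmbeddingLike.apply_eq_iff_eq]
  rw [h1, det_smul, det_one, mul_one]

/-- a left inverse up to `N` -/
theorem gdet_dvd_left {m n : Type} [Fintype m] [Fintype n] [DecidableEq m] [DecidableEq n]
    (hc : Fintype.card n = Fintype.card m) {M : Matrix m n K} {Y : Matrix n m K} {N : K}
    (hY : MIn S Y) (h : Y * M = N • (1 : Matrix n n K)) :
    ∃ w ∈ S, gdet M * w = N ^ Fintype.card n := by
  unfold gdet
  rw [dif_pos hc]
  set e := Fintype.equivOfCardEq hc with he
  refine ⟨(Y.submatrix id e).det, (hY.submatrix _ _).det, ?_⟩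
  rw [mul_comm, ← det_mul, ← Matrix.submatrix_mul Y M id (e : n → m) id e.bijective, h]
  rw [show (N • (1 : Matrix n n K)).submatrix id id = N • (1 : Matrix n n K) from rfl,
    det_smul, det_one, mul_one]

/-- injective up to `N` over `S`, square, injective over `K`: a left inverse up to `N` -/
theorem exists_left_of_inj {m n : Type} [Fintype m] [Fintype n] [DecidableEq m] [DecidableEq n]
    (hc : Fintype.card n = Fintype.card m) {M : Matrix m n K} {N : K}
    (hinj : ∀ z, M *ᵥ z = 0 → z = 0)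
    (hN : ∀ z : n → K, (∀ i, (M *ᵥ z) i ∈ S) → ∀ q, N * z q ∈ S) :
    ∃ Y : Matrix n m K, MIn S Y ∧ Y * M = N • (1 : Matrix n n K) := by
  set e := Fintype.equivOfCardEq hc with he
  have hu : IsUnit (M.submatrix (e : n → m) id) := by
    rw [← Matrix.mulVec_injective_iff_isUnit]
    intro z w hzw
    have h1 : M.submatrix (e : n → m) id *ᵥ (z - w) = 0 := by
      rw [Matrix.mulVec_sub, sub_eq_zero]
      exact hzw
    have h2 : M *ᵥ (z - w) = 0 := by
      funext i
      have h3 := congrFun h1 (e.symm i)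
      simpa [Matrix.mulVec, dotProduct] using h3
    exact sub_eq_zero.mp (hinj _ h2)
  obtain ⟨u, hu⟩ := hu
  set W : Matrix n n K := ↑(u⁻¹) with hW
  have hW1 : W * M.submatrix (e : n → m) id = 1 := by rw [← hu]; exact Units.inv_mul u
  have hW2 : M.submatrix (e : n → m) id * W = 1 := by rw [← hu]; exact Units.mul_inv u
  refine ⟨N • W.submatrix id e.symm, ?_, ?_⟩
  · intro q i
    have h1 : ∀ i', (M *ᵥ fun q => W q (e.symm i)) i' ∈ S := by
      intro i'
      have h2 := congrFun (congrFun hW2 (e.symm i')) (e.symm i)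
      rw [Matrix.mul_apply] at h2
      have h3 : (M *ᵥ fun q => W q (e.symm i)) i' = (1 : Matrix n n K) (e.symm i') (e.symm i) := by
        rw [← h2]
        simp [Matrix.mulVec, dotProduct]
      rw [h3]
      exact MIn.one _ _
    exact hN _ h1 q
  · rw [Matrix.smul_mul]
    congr 1
    rw [← hW1]
    ext p q
    simp only [Matrix.mul_apply, Matrix.submatrix_apply, id_eq]
    exact Fintype.sum_equiv e.symm _ _ fun i => by simp

/-- determinants of close matrices are close -/
theorem gdet_close {m n : Type} [Fintype m] [Fintype n] [DecidableEq n] {d c : ℕ}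
    {M M' : Matrix m n K} (hM : MIn S M) (h : ∀ i j, Sm d S c (M' i j - M i j)) :
    Sm d S c (gdet M' - gdet M) := by
  have key : ∀ {l : Type} [Fintype l] [DecidableEq l] (N N' : Matrix l l K), MIn S N →
      (∀ i j, Sm d S c (N' i j - N i j)) → Sm d S c (N'.det - N.det) := by
    intro l _ _ N N' hN hNN
    choose E hE hNE using hNN
    set ES : Matrix l l S := of fun i j => ⟨E i j, hE i j⟩ with hES
    set NS : Matrix l l S := hN.lift + ((d : S) ^ c) • ES with hNS
    have h2 : NS.map S.subtype = N' := by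
      ext i j
      have h3 : N' i j = N i j + (d : K) ^ c * E i j := by
        rw [← hNE i j]; ring
      rw [h3]
      simp only [hNS, hES, MIn.lift, Matrix.map_apply, Matrix.add_apply, Matrix.smul_apply,
        of_apply, Subring.subtype_apply, Subring.coe_add, smul_eq_mul, Subring.coe_mul,
        Subring.coe_pow, Subring.coe_natCast]
    have h5 : (Ideal.Quotient.mk (Ideal.span {(d : S) ^ c})).mapMatrix NS =
        (Ideal.Quotient.mk (Ideal.span {(d : S) ^ c})).mapMatrix hN.lift := by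
      ext i j
      rw [RingHom.mapMatrix_apply, RingHom.mapMatrix_apply, Matrix.map_apply, Matrix.map_apply,
        Ideal.Quotient.eq, Ideal.mem_span_singleton]
      refine ⟨ES i j, ?_⟩
      simp only [hNS, Matrix.add_apply, Matrix.smul_apply, smul_eq_mul]
      ring
    have h6 := congrArg Matrix.det h5
    rw [← RingHom.map_det, ← RingHom.map_det, Ideal.Quotient.eq, Ideal.mem_span_singleton] at h6
    obtain ⟨w, hw⟩ := h6
    have h7 := congrArg S.subtype hw
    rw [map_sub, map_mul, map_pow, RingHom.map_det, RingHom.map_det, RingHom.mapMatrix_apply,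
      RingHom.mapMatrix_apply, h2, hN.lift_map, map_natCast] at h7
    exact ⟨(w : K), w.2, h7⟩
  unfold gdet
  split_ifs with hc
  · exact key _ _ (hM.submatrix _ _) fun i j => h _ _
  · rw [sub_zero]; exact Sm.zero c

end MIn

section St

variable {K : Type} [Field K] {S : Subring K} {I α β : Type} [Fintype I] [DecidableEq I]
  {σ : Shp I α β} {s : RSt K I α β}

theorem sum_subtype_of_zero {J : Type} [Fintype J] {R : Type} [AddCommMonoid R] {P : J → Prop}
    [DecidablePred P] (f : J → R) (h : ∀ q, ¬ P q → f q = 0) :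
    ∑ q : {q // P q}, f q.1 = ∑ q, f q := by
  rw [← Finset.sum_subtype (Finset.univ.filter P) (by simp) f, Finset.sum_filter_of_ne]
  intro q _ hq
  by_contra hp
  exact hq (h q hp)

/-- `C ^ k` raises the degree by `k` -/
theorem IsSt.pow_zero_of {R : Type} [CommRing R] {s : RSt R I α β} (h : IsSt σ s) (k : ℕ) (p q : I)
    (hpq : σ.deg p < σ.deg q + k) : (s.1 ^ k) p q = 0 := by
  induction k generalizing p with
  | zero =>
    rw [pow_zero, Matrix.one_apply, if_neg]
    rintro rfl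
    omega
  | succ k ih =>
    rw [pow_succ', Matrix.mul_apply]
    refine Finset.sum_eq_zero fun r _ => ?_
    by_cases hr : σ.deg p ≤ σ.deg r
    · rw [h.c p r hr, zero_mul]
    · rw [ih r (by omega), mul_zero]

theorem IsSt.tau_pow {R : Type} [CommRing R] {s : RSt R I α β} (h : IsSt σ s) (k : ℕ) (b : β)
    (q : I) (hq : σ.mu b ≤ σ.deg q + k) : (s.2.2 * s.1 ^ k) b q = 0 := by
  rw [Matrix.mul_apply]
  refine Finset.sum_eq_zero fun r _ => ?_
  by_cases hr : σ.mu b ≤ σ.deg r
  · rw [h.tau b r hr, zero_mul]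
  · rw [h.pow_zero_of k r q (by omega), mul_zero]

theorem StIn.tm (hs : StIn S s) (j : ℕ) : MIn S (TM σ s j) := by
  intro b q
  exact (hs.tau.mul (hs.c.pow _)) b.1 q.1

theorem StIn.sigM (hs : StIn S s) (j : ℕ) : MIn S (SigM σ s j) := by
  rintro (p | a) q
  · exact hs.c p.1 q.1
  · exact hs.rho a.1 q.1

/-- if `m` is surjective up to `N` over `S`, so is each `T_j` -/
theorem exists_right_tm [DecidableEq β] (h : IsSt σ s) (hs : StIn S s) {N : K}
    (hY : ∃ Y : Matrix I (Blk σ.mu) K, MIn S Y ∧ MM σ s * Y = N • (1 : Matrix (Blk σ.mu) _ K))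
    (j : ℕ) : ∃ Y : Matrix {q : I // σ.deg q = j} {b : β // j + 1 ≤ σ.mu b} K,
      MIn S Y ∧ TM σ s j * Y = N • (1 : Matrix {b : β // j + 1 ≤ σ.mu b} _ K) := by
  obtain ⟨Y, hYS, hY⟩ := hY
  refine ⟨of fun q b => (s.1 ^ j * Y) q.1 ⟨b.1, ⟨0, by have := b.2; omega⟩⟩, ?_, ?_⟩
  · intro q b
    exact ((hs.c.pow j).mul hYS) q.1 _
  · ext b b'
    rw [Matrix.mul_apply]
    simp only [TM, of_apply]
    -- the full sum
    have h1 : ∑ q : {q : I // σ.deg q = j}, (s.2.2 * s.1 ^ (σ.mu b.1 - 1 - j)) b.1 q.1 *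
        (s.1 ^ j * Y) q.1 ⟨b'.1, ⟨0, by have := b'.2; omega⟩⟩ =
        ∑ q : I, (s.2.2 * s.1 ^ (σ.mu b.1 - 1 - j)) b.1 q *
        (s.1 ^ j * Y) q ⟨b'.1, ⟨0, by have := b'.2; omega⟩⟩ := by
      refine sum_subtype_of_zero (P := fun q : I => σ.deg q = j) (fun q : I =>
        (s.2.2 * s.1 ^ (σ.mu b.1 - 1 - j)) b.1 q *
        (s.1 ^ j * Y) q ⟨b'.1, ⟨0, by have := b'.2; omega⟩⟩) ?_
      intro q hq
      rcases lt_or_gt_of_ne hq with hq | hq
      · have h3 : (s.1 ^ j * Y) q ⟨b'.1, ⟨0, by have := b'.2; omega⟩⟩ = 0 := by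
          rw [Matrix.mul_apply]
          refine Finset.sum_eq_zero fun r _ => ?_
          rw [h.pow_zero_of j q r (by omega), zero_mul]
        rw [h3, mul_zero]
      · rw [h.tau_pow _ _ _ (by have := b.2; omega), zero_mul]
    rw [h1]
    have h2 : ∑ q : I, (s.2.2 * s.1 ^ (σ.mu b.1 - 1 - j)) b.1 q *
        (s.1 ^ j * Y) q ⟨b'.1, ⟨0, by have := b'.2; omega⟩⟩ =
        (MM σ s * Y) ⟨b.1, ⟨0, by have := b.2; omega⟩⟩ ⟨b'.1, ⟨0, by have := b'.2; omega⟩⟩ := by
      have h3 : ∑ q : I, (s.2.2 * s.1 ^ (σ.mu b.1 - 1 - j)) b.1 q *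
        (s.1 ^ j * Y) q ⟨b'.1, ⟨0, by have := b'.2; omega⟩⟩ =
        (s.2.2 * s.1 ^ (σ.mu b.1 - 1 - j) * (s.1 ^ j * Y)) b.1
          ⟨b'.1, ⟨0, by have := b'.2; omega⟩⟩ := by rw [Matrix.mul_apply]
      rw [h3, ← Matrix.mul_assoc, Matrix.mul_assoc s.2.2, ← pow_add,
        show σ.mu b.1 - 1 - j + j = σ.mu b.1 - 1 from by have := b.2; omega]
      rw [Matrix.mul_apply, Matrix.mul_apply]
      rfl
    rw [h2, hY]
    obtain ⟨b, hb0⟩ := b
    obtain ⟨b', hb0'⟩ := b'
    simp only [Matrix.smul_apply, Matrix.one_apply]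
    congr 1
    by_cases hb : b = b'
    · subst hb
      simp
    · rw [if_neg, if_neg]
      · rintro h1
        exact hb (congrArg Subtype.val h1)
      · rintro h1
        exact hb (congrArg Sigma.fst h1)

/-- extension by zero -/
def ext0 {J : Type} {R : Type} [Zero R] {P : J → Prop} [DecidablePred P] (z : {q // P q} → R) :
    J → R := fun q => if h : P q then z ⟨q, h⟩ else 0

theorem sum_ext0 {J : Type} [Fintype J] {R : Type} [CommRing R] {P : J → Prop} [DecidablePred P]
    (f : J → R) (z : {q // P q} → R) : ∑ q : J, f q * ext0 z q = ∑ q : {q // P q}, f q.1 * z q := by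
  rw [← sum_subtype_of_zero (P := P) (fun q => f q * ext0 z q)]
  · refine Finset.sum_congr rfl fun q _ => ?_
    simp only [ext0, q.2, dite_true, Subtype.coe_eta]
  · intro q hq
    simp only [ext0, hq, dite_false, mul_zero]

theorem IsSt.sig_c {R : Type} [CommRing R] {s : RSt R I α β} (h : IsSt σ s) (j : ℕ)
    (z : {q : I // j ≤ σ.deg q} → R) :
    s.1 *ᵥ ext0 z = ext0 (P := fun p : I => j + 1 ≤ σ.deg p)
      (fun p => (SigM σ s j *ᵥ z) (Sum.inl p)) := by
  funext p
  by_cases hp : j + 1 ≤ σ.deg p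
  · simp only [ext0, hp, dite_true]
    rw [Matrix.mulVec, dotProduct]
    exact sum_ext0 (fun q => s.1 p q) z
  · rw [Matrix.mulVec, dotProduct]
    rw [sum_ext0 (fun q => s.1 p q) z]
    simp only [ext0, hp, dite_false]
    refine Finset.sum_eq_zero fun q _ => ?_
    rw [h.c p q.1 (by have := q.2; omega), zero_mul]

theorem IsSt.sig_rho {R : Type} [CommRing R] {s : RSt R I α β} (h : IsSt σ s) (j : ℕ)
    (z : {q : I // j ≤ σ.deg q} → R) :
    s.2.1 *ᵥ ext0 z = ext0 (P := fun a : α => j + 1 ≤ σ.lam a)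
      (fun a => (SigM σ s j *ᵥ z) (Sum.inr a)) := by
  funext a
  by_cases hp : j + 1 ≤ σ.lam a
  · simp only [ext0, hp, dite_true]
    rw [Matrix.mulVec, dotProduct]
    exact sum_ext0 (fun q => s.2.1 a q) z
  · rw [Matrix.mulVec, dotProduct]
    rw [sum_ext0 (fun q => s.2.1 a q) z]
    simp only [ext0, hp, dite_false]
    refine Finset.sum_eq_zero fun q _ => ?_
    rw [h.rho a q.1 (by have := q.2; omega), zero_mul]

theorem RM_mulVec {R : Type} [CommRing R] (s : RSt R I α β) (z : I → R) (v : Blk σ.lam) :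
    (RM σ s *ᵥ z) v = if σ.lam v.1 - 1 - (v.2 : ℕ) = 0 then (s.2.1 *ᵥ z) v.1 else
      ((s.2.1 * s.1 ^ (σ.lam v.1 - 1 - (v.2 : ℕ) - 1)) *ᵥ (s.1 *ᵥ z)) v.1 := by
  have h1 : (RM σ s *ᵥ z) v = ((s.2.1 * s.1 ^ (σ.lam v.1 - 1 - (v.2 : ℕ))) *ᵥ z) v.1 := rfl
  rw [h1]
  split_ifs with h0
  · rw [h0, pow_zero, Matrix.mul_one]
  · rw [Matrix.mulVec_mulVec, Matrix.mul_assoc, ← pow_succ]
    congr 4
    omega

/-- if `R` is injective up to `N` over `S`, so is each `Sig_j` -/
theorem sigM_bound (h : IsSt σ s) (hs : StIn S s) {N : K}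
    (hN : ∀ z : I → K, (∀ v, (RM σ s *ᵥ z) v ∈ S) → ∀ q, N * z q ∈ S) (j : ℕ)
    (z : {q : I // j ≤ σ.deg q} → K) (hz : ∀ i, (SigM σ s j *ᵥ z) i ∈ S) (q) : N * z q ∈ S := by
  have h1 : ∀ v, (RM σ s *ᵥ ext0 z) v ∈ S := by
    intro v
    rw [RM_mulVec]
    split_ifs with h0
    · rw [h.sig_rho j z, ext0]
      split_ifs
      · exact hz _
      · exact S.zero_mem
    · rw [h.sig_c j z, Matrix.mulVec, dotProduct]
      refine S.sum_mem fun p _ => S.mul_mem ((hs.rho.mul (hs.c.pow _)) _ _) ?_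
      rw [ext0]
      split_ifs
      · exact hz _
      · exact S.zero_mem
  have h2 := hN _ h1 q.1
  simpa only [ext0, q.2, dite_true, Subtype.coe_eta] using h2

theorem sigM_inj {R : Type} [CommRing R] {s : RSt R I α β} (h : IsSt σ s)
    (hR : ∀ z : I → R, RM σ s *ᵥ z = 0 → z = 0) (j : ℕ)
    (z : {q : I // j ≤ σ.deg q} → R) (hz : SigM σ s j *ᵥ z = 0) : z = 0 := by
  have h1 : RM σ s *ᵥ ext0 z = 0 := by
    funext v
    rw [RM_mulVec]
    split_ifs with h0
    · rw [h.sig_rho j z, hz, ext0]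
      split_ifs <;> rfl
    · rw [h.sig_c j z, hz]
      have h2 : ext0 (P := fun p : I => j + 1 ≤ σ.deg p) (fun p =>
          (0 : {p : I // j + 1 ≤ σ.deg p} ⊕ {a : α // j + 1 ≤ σ.lam a} → R) (Sum.inl p)) =
          (0 : I → R) := by
        funext p
        rw [ext0]
        split_ifs <;> rfl
      rw [h2, Matrix.mulVec_zero]
      rfl
  have h2 := hR _ h1
  funext q
  have h3 := congrFun h2 q.1
  simp only [ext0, q.2, dite_true, Subtype.coe_eta] at h3
  exact h3

/-- **det T_j divides a power of `N` in `S`** -/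
theorem gdet_tm_dvd [Fintype β] [DecidableEq β] (h : IsSt σ s) (hs : StIn S s) {N : K}
    (hY : ∃ Y : Matrix I (Blk σ.mu) K, MIn S Y ∧ MM σ s * Y = N • (1 : Matrix (Blk σ.mu) _ K))
    (j : ℕ)
    (hc : Fintype.card {b : β // j + 1 ≤ σ.mu b} = Fintype.card {q : I // σ.deg q = j}) :
    ∃ w ∈ S, gdet (TM σ s j) * w = N ^ Fintype.card {q : I // σ.deg q = j} := by
  obtain ⟨Y, hYS, hY⟩ := exists_right_tm h hs hY j
  exact gdet_dvd_right hc.symm hYS hY

/-- **det Sig_j divides a power of `N` in `S`** -/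
theorem gdet_sigM_dvd [Fintype α] [DecidableEq α] (h : IsSt σ s) (hs : StIn S s) {N : K}
    (hR : ∀ z : I → K, RM σ s *ᵥ z = 0 → z = 0)
    (hN : ∀ z : I → K, (∀ v, (RM σ s *ᵥ z) v ∈ S) → ∀ q, N * z q ∈ S) (j : ℕ)
    (hc : Fintype.card {q : I // j ≤ σ.deg q} =
      Fintype.card ({p : I // j + 1 ≤ σ.deg p} ⊕ {a : α // j + 1 ≤ σ.lam a})) :
    ∃ w ∈ S, gdet (SigM σ s j) * w = N ^ Fintype.card {q : I // j ≤ σ.deg q} := by
  obtain ⟨Y, hYS, hY⟩ := exists_left_of_inj hc (sigM_inj h hR j)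
    (sigM_bound h hs hN j)
  exact gdet_dvd_left hc hYS hY

/-- products and powers of close matrices are close -/
theorem close_mul {l m n : Type} [Fintype m] {d c : ℕ} {M M' : Matrix l m K} {L L' : Matrix m n K}
    (hM' : MIn S M') (hL : MIn S L) (h1 : ∀ i j, Sm d S c (M' i j - M i j))
    (h2 : ∀ i j, Sm d S c (L' i j - L i j)) : ∀ i j, Sm d S c ((M' * L') i j - (M * L) i j) := by
  intro i j
  have h3 : (M' * L') i j - (M * L) i j =
      ∑ k, ((L' k j - L k j) * M' i k + (M' i k - M i k) * L k j) := by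
    rw [Matrix.mul_apply, Matrix.mul_apply, ← Finset.sum_sub_distrib]
    exact Finset.sum_congr rfl fun k _ => by ring
  rw [h3]
  exact Sm.sum fun k _ => ((h2 k j).mul_mem (hM' i k)).add ((h1 i k).mul_mem (hL k j))

theorem close_pow {m : Type} [Fintype m] [DecidableEq m] {d c : ℕ} {M M' : Matrix m m K}
    (hM : MIn S M) (hM' : MIn S M') (h1 : ∀ i j, Sm d S c (M' i j - M i j)) (k : ℕ) :
    ∀ i j, Sm d S c ((M' ^ k) i j - (M ^ k) i j) := by
  induction k with
  | zero =>
    intro i j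
    rw [pow_zero, pow_zero, sub_self]
    exact Sm.zero c
  | succ k ih =>
    rw [pow_succ, pow_succ]
    exact close_mul (hM'.pow k) hM ih h1

/-- the states are close -/
structure StCl (d : ℕ) (S : Subring K) (c : ℕ) (s' s : RSt K I α β) : Prop where
  cc : ∀ p q, Sm d S c (s'.1 p q - s.1 p q)
  rho : ∀ a q, Sm d S c (s'.2.1 a q - s.2.1 a q)
  tau : ∀ b q, Sm d S c (s'.2.2 b q - s.2.2 b q)

theorem StCl.rm {d c : ℕ} {s s' : RSt K I α β} (hs : StIn S s) (hs' : StIn S s')
    (h : StCl d S c s' s) (v q) : Sm d S c (RM σ s' v q - RM σ s v q) :=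
  close_mul hs'.rho (hs.c.pow _) h.rho (close_pow hs.c hs'.c h.cc _) v.1 q

theorem StCl.mm {d c : ℕ} {s s' : RSt K I α β} (hs : StIn S s) (hs' : StIn S s')
    (h : StCl d S c s' s) (v q) : Sm d S c (MM σ s' v q - MM σ s v q) :=
  close_mul hs'.tau (hs.c.pow _) h.tau (close_pow hs.c hs'.c h.cc _) v.1 q

theorem StCl.tm {d c : ℕ} {s s' : RSt K I α β} (hs : StIn S s) (hs' : StIn S s')
    (h : StCl d S c s' s) (j : ℕ) (v q) : Sm d S c (TM σ s' j v q - TM σ s j v q) :=
  close_mul hs'.tau (hs.c.pow _) h.tau (close_pow hs.c hs'.c h.cc _) v.1 q.1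

theorem StCl.sigM {d c : ℕ} {s s' : RSt K I α β}
    (h : StCl d S c s' s) (j : ℕ) (v q) : Sm d S c (SigM σ s' j v q - SigM σ s j v q) := by
  rcases v with p | a
  · exact h.cc p.1 q.1
  · exact h.rho a.1 q.1

/-- the quotient of close elements, one of which divides `d ^ k` in `S` -/
theorem quot_close {d c k : ℕ} {x x' w : K} (hw : w ∈ S) (hxw : x * w = (d : K) ^ k)
    (hd : (d : K) ≠ 0) (h : Sm d S (c + k) (x' - x)) : x ≠ 0 ∧ Sm d S c (x' / x - 1) := by
  have hx : x ≠ 0 := by
    rintro rfl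
    rw [zero_mul] at hxw
    exact pow_ne_zero k hd hxw.symm
  refine ⟨hx, ?_⟩
  obtain ⟨a, ha, hxa⟩ := h
  refine ⟨a * w, S.mul_mem ha hw, ?_⟩
  rw [div_sub_one hx, hxa, div_eq_iff hx]
  calc (d : K) ^ (c + k) * a = (d : K) ^ c * a * (d : K) ^ k := by rw [pow_add]; ring
    _ = (d : K) ^ c * a * (x * w) := by rw [hxw]
    _ = (d : K) ^ c * (a * w) * x := by ring

end St

end Pool.Agent.DEC
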