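import Pool.Agent.DEC.GoodFrame

/-!
# MP_59dda0_an, DEC, module ST5 (abstract form): an integral frame of a flag

`E` a `K`-subspace stable under the nilpotent operator `y`, `L` a lattice stable under `y`.
There is a basis `b` of `E`, graded by `deg`, integral, with `y b q = ∑ C p q b p`, `C` integral and
strictly increasing in the degree, and `n ^ l (E ∩ L) ⊆ ∑ R b q` with `l` explicit.
-/

set_option autoImplicit false
set_option linter.unusedSectionVars false

namespace Pool.Agent.DEC

section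

variable {R K Z : Type*} [CommRing R] [IsDomain R] [IsNoetherianRing R] [Field K] [Algebra R K]
  [IsFractionRing R K] [AddCommGroup Z] [Module K Z] [Module R Z] [IsScalarTower R K Z]

/-- the lattice part of the `j`-th step of the flag `y ^ j E` -/
def flagL (L : Submodule R Z) (y : Z →ₗ[K] Z) (E : Submodule K Z) (j : ℕ) : Submodule R Z :=
  ((E.map (y ^ j)).restrictScalars R) ⊓ L

variable {L : Submodule R Z} {y : Z →ₗ[K] Z} {E : Submodule K Z}

theorem mem_flagL {j : ℕ} {z : Z} : z ∈ flagL L y E j ↔ z ∈ E.map (y ^ j) ∧ z ∈ L := by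
  rw [flagL, Submodule.mem_inf, Submodule.restrictScalars_mem]

theorem map_pow_succ_le (hE : ∀ z ∈ E, y z ∈ E) (j : ℕ) :
    E.map (y ^ (j + 1)) ≤ E.map (y ^ j) := by
  rintro _ ⟨z, hz, rfl⟩
  exact ⟨y z, hE z hz, by rw [pow_succ, Module.End.mul_apply]⟩

theorem flagL_succ_le (hE : ∀ z ∈ E, y z ∈ E) (j : ℕ) : flagL L y E (j + 1) ≤ flagL L y E j := by
  intro z hz
  rw [mem_flagL] at hz ⊢
  exact ⟨map_pow_succ_le hE j hz.1, hz.2⟩

theorem y_mem_flagL (hL : ∀ z ∈ L, y z ∈ L) {j : ℕ} {z : Z} (hz : z ∈ flagL L y E j) :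
    y z ∈ flagL L y E (j + 1) := by
  rw [mem_flagL] at hz ⊢
  obtain ⟨⟨w, hw, rfl⟩, h⟩ := hz
  exact ⟨⟨w, hw, by rw [pow_succ', Module.End.mul_apply]⟩, hL _ h⟩

theorem smul_mem_flagL_iff {j : ℕ} {a : R} (ha : a ≠ 0) {z : Z} (hz : z ∈ L)
    (h : a • z ∈ flagL L y E j) : z ∈ flagL L y E j := by
  rw [mem_flagL] at h ⊢
  refine ⟨?_, hz⟩
  have h1 : algebraMap R K a ≠ 0 := fun h0 =>
    ha ((FaithfulSMul.algebraMap_injective R K) (by rw [h0, map_zero]))
  have h2 : z = (algebraMap R K a)⁻¹ • (a • z) := by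
    rw [← algebraMap_smul K a z, smul_smul, inv_mul_cancel₀ h1, one_smul]
  rw [h2]
  exact Submodule.smul_mem _ _ h.1

/-- one level -/
theorem exists_level {Q : R} (hQ : QPrin R Q) (hLfg : L.FG) (j : ℕ) :
    ∃ (r : ℕ) (b : Fin r → Z), (∀ l, b l ∈ flagL L y E j) ∧
      (∀ c : Fin r → R, ∑ l, c l • b l ∈ flagL L y E (j + 1) → c = 0) ∧
      ∀ z ∈ flagL L y E j, ∃ c : Fin r → R,
        Q ^ r • z - ∑ l, c l • b l ∈ flagL L y E (j + 1) := by
  have hnoeth : IsNoetherian R L := isNoetherian_of_fg_of_noetherian L hLfg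
  let F : Submodule R Z := flagL L y E j
  let G : Submodule R F := (flagL L y E (j + 1)).comap F.subtype
  have hFL : F ≤ L := fun z hz => (mem_flagL.1 hz).2
  have hF : IsNoetherian R F := isNoetherian_of_le hFL
  have hfin : Module.Finite R (F ⧸ G) := inferInstance
  have htf : Module.IsTorsionFree R (F ⧸ G) := by
    rw [Module.isTorsionFree_iff_smul_eq_zero]
    intro a z h
    obtain ⟨z, rfl⟩ := Submodule.Quotient.mk_surjective G z
    by_cases ha : a = 0
    · exact Or.inl ha
    · right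
      rw [← Submodule.Quotient.mk_smul, Submodule.Quotient.mk_eq_zero] at h
      rw [Submodule.Quotient.mk_eq_zero]
      exact smul_mem_flagL_iff ha (hFL z.2) h
  obtain ⟨r, b, hb, hz⟩ := good_frame hQ (F ⧸ G)
  choose b' hb' using fun i => Submodule.Quotient.mk_surjective G (b i)
  refine ⟨r, fun l => (b' l : Z), fun l => (b' l).2, ?_, ?_⟩
  · intro c hc
    funext i
    refine Fintype.linearIndependent_iff.1 hb c ?_ i
    have h1 : (∑ l, c l • b' l) ∈ G := by
      show ((∑ l, c l • b' l : F) : Z) ∈ flagL L y E (j + 1)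
      simpa using hc
    have h2 := (Submodule.Quotient.mk_eq_zero G).2 h1
    rw [← h2]
    rw [← Submodule.mkQ_apply, map_sum]
    refine Finset.sum_congr rfl fun l _ => ?_
    rw [map_smul, Submodule.mkQ_apply, hb']
  · intro z hzF
    obtain ⟨c, hc⟩ := hz (Submodule.Quotient.mk (⟨z, hzF⟩ : F))
    refine ⟨c, ?_⟩
    have h1 : (Submodule.Quotient.mk (Q ^ r • (⟨z, hzF⟩ : F) - ∑ l, c l • b' l) : F ⧸ G) = 0 := by
      rw [Submodule.Quotient.mk_sub, Submodule.Quotient.mk_smul, hc, sub_eq_zero]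
      rw [← Submodule.mkQ_apply, map_sum]
      refine Finset.sum_congr rfl fun l _ => ?_
      rw [map_smul, Submodule.mkQ_apply, hb']
    rw [Submodule.Quotient.mk_eq_zero] at h1
    have h2 : ((Q ^ r • (⟨z, hzF⟩ : F) - ∑ l, c l • b' l : F) : Z) ∈ flagL L y E (j + 1) := h1
    simpa using h2

/-- **ST5, abstract form** -/
theorem exists_state_frame {Q n : R} (hQ : QPrin R Q) (hn : Q ∣ n) (hn0 : n ≠ 0)
    (hLfg : L.FG) (hLy : ∀ z ∈ L, y z ∈ L) (hLs : ∀ z : Z, ∃ a : R, a ≠ 0 ∧ a • z ∈ L)
    (hE : ∀ z ∈ E, y z ∈ E) (e : ℕ) (he : ∀ z ∈ E, (y ^ e) z = 0) :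
    ∃ (r : Fin e → ℕ) (b : (Σ j, Fin (r j)) → Z)
      (C : Matrix (Σ j, Fin (r j)) (Σ j, Fin (r j)) R),
      (∀ q, b q ∈ L) ∧ (∀ q, b q ∈ E.map (y ^ (q.1 : ℕ))) ∧ LinearIndependent K b ∧
      Submodule.span K (Set.range b) = E ∧ (∀ q, y (b q) = ∑ p, C p q • b p) ∧
      (∀ p q, C p q ≠ 0 → q.1 < p.1) ∧
      ∀ z ∈ E, z ∈ L → ∃ c : (Σ j, Fin (r j)) → R,
        n ^ ((∑ j, r j) * (e + 1)) • z = ∑ q, c q • b q := by
  classical
  choose r b0 hb0 hindep hgen using fun j : ℕ => exists_level (L := L) (y := y) (E := E) hQ hLfg j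
  let I := Σ j : Fin e, Fin (r j)
  let F : ℕ := ∑ j : Fin e, r j
  let b : I → Z := fun q => b0 q.1 q.2
  have hbL : ∀ q : I, b q ∈ flagL L y E q.1 := fun q => hb0 q.1 q.2
  have htop : flagL L y E e = ⊥ := by
    rw [eq_bot_iff]
    intro z hz
    obtain ⟨⟨w, hw, rfl⟩, -⟩ := mem_flagL.1 hz
    rw [Submodule.mem_bot]
    exact he w hw
  have hmono : ∀ i j : ℕ, i ≤ j → flagL L y E j ≤ flagL L y E i := by
    intro i j hij
    induction hij with
    | refl => exact le_rfl
    | step h ih => exact (flagL_succ_le hE _).trans ih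
  -- sums
  have hsum : ∀ (c : I → R) (j : Fin e), (∀ q : I, q.1 < j → c q = 0) →
      ∑ q, c q • b q = ∑ l, c ⟨j, l⟩ • b0 j l + ∑ q : I, (if j < q.1 then c q else 0) • b q := by
    intro c j hc
    rw [Fintype.sum_sigma, Fintype.sum_sigma]
    rw [← Finset.add_sum_erase _ _ (Finset.mem_univ j)]
    rw [← Finset.add_sum_erase (f := fun i => ∑ l, (if j < i then c ⟨i, l⟩ else 0) • b ⟨i, l⟩) _
      (Finset.mem_univ j)]
    simp only [lt_irrefl, if_false, zero_smul, Finset.sum_const_zero, zero_add]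
    congr 1
    refine Finset.sum_congr rfl fun i hi => Finset.sum_congr rfl fun l _ => ?_
    have hij : i ≠ j := (Finset.mem_erase.1 hi).1
    rcases lt_or_gt_of_ne hij with h | h
    · rw [hc ⟨i, l⟩ h, if_neg (not_lt.2 h.le)]
    · rw [if_pos h]
  have htail : ∀ (c : I → R) (j : Fin e), ∑ q : I, (if j < q.1 then c q else 0) • b q ∈
      flagL L y E (j + 1) := by
    intro c j
    refine Submodule.sum_mem _ fun q _ => ?_
    split_ifs with h
    · exact Submodule.smul_mem _ _ (hmono _ _ h (hbL q))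
    · rw [zero_smul]; exact zero_mem _
  -- generation
  let s : ℕ → ℕ := fun j => ∑ i : Fin e, if j ≤ (i : ℕ) then r i else 0
  have hs : ∀ j : Fin e, s j = r j + s (j + 1) := by
    intro j
    show (∑ i : Fin e, if (j : ℕ) ≤ (i : ℕ) then r i else 0) =
      r j + ∑ i : Fin e, if (j : ℕ) + 1 ≤ (i : ℕ) then r i else 0
    rw [← Finset.add_sum_erase _ _ (Finset.mem_univ j)]
    rw [← Finset.add_sum_erase (f := fun i : Fin e => if (j : ℕ) + 1 ≤ (i : ℕ) then r i else 0) _
      (Finset.mem_univ j)]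
    rw [if_pos le_rfl, if_neg (by omega), zero_add]
    congr 1
    refine Finset.sum_congr rfl fun i hi => ?_
    have hij : i ≠ j := (Finset.mem_erase.1 hi).1
    have : (i : ℕ) ≠ j := fun h => hij (Fin.ext h)
    by_cases h : (j : ℕ) ≤ i
    · rw [if_pos h, if_pos (by omega)]
    · rw [if_neg h, if_neg (by omega)]
  obtain ⟨q0, hq0⟩ := hn
  have hgen' : ∀ (k j : ℕ), j + k = e → ∀ z ∈ flagL L y E j, ∃ c : I → R,
      (∀ q, c q ≠ 0 → j ≤ q.1) ∧ n ^ s j • z = ∑ q, c q • b q := by
    intro k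
    induction k with
    | zero =>
      intro j hj z hz
      have : j = e := by omega
      subst this
      rw [htop, Submodule.mem_bot] at hz
      exact ⟨0, fun q h => absurd rfl h, by simp [hz]⟩
    | succ k ih =>
      intro j hj z hz
      have hje : j < e := by omega
      obtain ⟨c, hc⟩ := hgen j z hz
      obtain ⟨c', hc'1, hc'2⟩ := ih (j + 1) (by omega) _ hc
      have hsj := hs ⟨j, hje⟩
      simp only at hsj
      refine ⟨fun q => (if h : q.1 = ⟨j, hje⟩ then
        n ^ s (j + 1) * q0 ^ r j * c (Fin.cast (by rw [h]) q.2) else 0) + q0 ^ r j * c' q, ?_, ?_⟩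
      · intro q hq
        by_contra hlt
        apply hq
        have h1 : ¬ q.1 = ⟨j, hje⟩ := by
          intro h; rw [h] at hlt; exact hlt le_rfl
        have h2 : c' q = 0 := by
          by_contra h
          have := hc'1 q h
          omega
        simp only [dif_neg h1, h2, mul_zero, add_zero]
      · simp only [add_smul, Finset.sum_add_distrib]
        have e1 : ∑ q : I, (if h : q.1 = (⟨j, hje⟩ : Fin e) then
            n ^ s (j + 1) * q0 ^ r j * c (Fin.cast (by rw [h]) q.2) else 0) • b q =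
            (n ^ s (j + 1) * q0 ^ r j) • ∑ l, c l • b0 j l := by
          rw [Fintype.sum_sigma, Finset.sum_eq_single (⟨j, hje⟩ : Fin e)]
          · rw [Finset.smul_sum]
            refine Finset.sum_congr rfl fun l _ => ?_
            rw [dif_pos rfl, mul_smul (_ * _)]
            rfl
          · intro i _ hi
            refine Finset.sum_eq_zero fun l _ => ?_
            rw [dif_neg (by exact hi), zero_smul]
          · intro h; exact absurd (Finset.mem_univ _) h
        have e2 : ∑ q : I, (q0 ^ r j * c' q) • b q = q0 ^ r j • ∑ q, c' q • b q := by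
          rw [Finset.smul_sum]
          exact Finset.sum_congr rfl fun q _ => mul_smul _ _ _
        rw [e1, e2, ← hc'2, hsj, pow_add, hq0]
        simp only [smul_sub, smul_smul]
        rw [mul_comm (q0 ^ r j) ((Q * q0) ^ s (j + 1)), add_sub_cancel]
        congr 1
        rw [mul_pow]
        ring
  have hs0 : s 0 = F := by
    show (∑ i : Fin e, if 0 ≤ (i : ℕ) then r i else 0) = ∑ j : Fin e, r j
    exact Finset.sum_congr rfl fun i _ => if_pos (Nat.zero_le _)
  have hsF : ∀ j, s j ≤ F := by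
    intro j
    refine Finset.sum_le_sum fun i _ => ?_
    split_ifs
    · exact le_rfl
    · exact Nat.zero_le _
  have hgenF : ∀ j : ℕ, j ≤ e → ∀ z ∈ flagL L y E j, ∃ c : I → R,
      (∀ q, c q ≠ 0 → j ≤ q.1) ∧ n ^ F • z = ∑ q, c q • b q := by
    intro j hj z hz
    obtain ⟨c, hc1, hc2⟩ := hgen' (e - j) j (by omega) z hz
    refine ⟨fun q => n ^ (F - s j) * c q, fun q hq => hc1 q (right_ne_zero_of_mul hq), ?_⟩
    have : n ^ F = n ^ (F - s j) * n ^ s j := by
      rw [← pow_add]; congr 1; have := hsF j; omega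
    rw [this, mul_smul, hc2, Finset.smul_sum]
    exact Finset.sum_congr rfl fun q _ => (mul_smul _ _ _).symm
  -- independence over `R`
  have hind : ∀ (k j : ℕ), j + k = e → ∀ c : I → R, (∀ q : I, (q.1 : ℕ) < j → c q = 0) →
      ∑ q, c q • b q = 0 → c = 0 := by
    intro k
    induction k with
    | zero =>
      intro j hj c hc _
      funext q
      exact hc q (by have := q.1.2; omega)
    | succ k ih =>
      intro j hj c hc h0
      have hje : j < e := by omega
      have h1 := hsum c ⟨j, hje⟩ (fun q hq => hc q hq)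
      rw [h0] at h1
      have h2 := htail c ⟨j, hje⟩
      have h3 : ∑ l, c ⟨⟨j, hje⟩, l⟩ • b0 j l ∈ flagL L y E (j + 1) := by
        have h4 : ∑ l, c ⟨⟨j, hje⟩, l⟩ • b0 j l =
            - ∑ q : I, (if (⟨j, hje⟩ : Fin e) < q.1 then c q else 0) • b q :=
          eq_neg_of_add_eq_zero_left h1.symm
        rw [h4]
        exact neg_mem h2
      have h5 := hindep j (fun l => c ⟨⟨j, hje⟩, l⟩) h3
      refine ih (j + 1) (by omega) c ?_ h0
      intro q hq
      rcases Nat.lt_or_ge (q.1 : ℕ) j with h | h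
      · exact hc q h
      · have hqj : (q.1 : ℕ) = j := by omega
        obtain ⟨i, l⟩ := q
        have hi : i = ⟨j, hje⟩ := Fin.ext hqj
        subst hi
        exact congrFun h5 l
  have hindR : LinearIndependent R b := by
    rw [Fintype.linearIndependent_iff]
    intro c hc q
    exact congrFun (hind e 0 (by omega) c (fun q hq => absurd hq (Nat.not_lt_zero _)) hc) q
  -- the scaled frame
  let b' : I → Z := fun q => n ^ (F * (e - q.1)) • b q
  have hC : ∀ q : I, ∃ c : I → R, (∀ p, c p ≠ 0 → (q.1 : ℕ) + 1 ≤ p.1) ∧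
      n ^ F • y (b q) = ∑ p, c p • b p := fun q =>
    hgenF (q.1 + 1) q.1.2 _ (y_mem_flagL hLy (hbL q))
  choose C0 hC01 hC02 using hC
  refine ⟨fun j => r j, b', fun p q => n ^ (F * (p.1 - q.1 - 1)) * C0 q p, ?_, ?_, ?_, ?_, ?_, ?_, ?_⟩
  · intro q
    exact Submodule.smul_mem _ _ (mem_flagL.1 (hbL q)).2
  · intro q
    show n ^ (F * (e - q.1)) • b q ∈ _
    rw [← algebraMap_smul K]
    exact Submodule.smul_mem _ _ (mem_flagL.1 (hbL q)).1
  · have h1 : LinearIndependent R b' := by
      rw [Fintype.linearIndependent_iff] at hindR ⊢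
      intro c hc q
      have h2 := hindR (fun q => c q * n ^ (F * (e - q.1))) (by
        rw [← hc]
        exact Finset.sum_congr rfl fun q _ => mul_smul _ _ _) q
      rcases mul_eq_zero.1 h2 with h | h
      · exact h
      · exact absurd h (pow_ne_zero _ hn0)
    exact (LinearIndependent.iff_fractionRing R K).1 h1
  · apply le_antisymm
    · rw [Submodule.span_le]
      rintro _ ⟨q, rfl⟩
      have h1 : b q ∈ E := by
        obtain ⟨w, hw, h⟩ := (mem_flagL.1 (hbL q)).1
        rw [← h]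
        have : ∀ k : ℕ, (y ^ k) w ∈ E := by
          intro k
          induction k with
          | zero => exact hw
          | succ k ih => rw [pow_succ', Module.End.mul_apply]; exact hE _ ih
        exact this _
      show n ^ (F * (e - q.1)) • b q ∈ E
      rw [← algebraMap_smul K]
      exact Submodule.smul_mem _ _ h1
    · intro z hz
      obtain ⟨a, ha, haz⟩ := hLs z
      obtain ⟨c, -, hc⟩ := hgenF 0 (Nat.zero_le _) (a • z) (mem_flagL.2 ⟨⟨a • z, by
        rw [← algebraMap_smul K]; exact Submodule.smul_mem _ _ hz, by simp⟩, haz⟩)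
      have h1 : algebraMap R K (n ^ F * a) ≠ 0 := fun h0 =>
        mul_ne_zero (pow_ne_zero _ hn0) ha
          ((FaithfulSMul.algebraMap_injective R K) (by rw [h0, map_zero]))
      have h2 : z = (algebraMap R K (n ^ F * a))⁻¹ • ∑ q, c q • b q := by
        rw [← hc, smul_smul, ← algebraMap_smul K (n ^ F * a) z, smul_smul, inv_mul_cancel₀ h1,
          one_smul]
      rw [h2]
      refine Submodule.smul_mem _ _ (Submodule.sum_mem _ fun q _ => ?_)
      have h3 : algebraMap R K (n ^ (F * (e - q.1))) ≠ 0 := fun h0 =>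
        pow_ne_zero _ hn0 ((FaithfulSMul.algebraMap_injective R K) (by rw [h0, map_zero]))
      have h4 : b q = (algebraMap R K (n ^ (F * (e - q.1))))⁻¹ • b' q := by
        show b q = (algebraMap R K (n ^ (F * (e - q.1))))⁻¹ • (n ^ (F * (e - q.1)) • b q)
        rw [← algebraMap_smul K (n ^ (F * (e - q.1))) (b q), smul_smul, inv_mul_cancel₀ h3,
          one_smul]
      rw [← algebraMap_smul K, h4]
      exact Submodule.smul_mem _ _ (Submodule.smul_mem _ _ (Submodule.subset_span ⟨q, rfl⟩))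
  · intro q
    show y (n ^ (F * (e - q.1)) • b q) = ∑ p, (n ^ (F * (p.1 - q.1 - 1)) * C0 q p) •
      (n ^ (F * (e - p.1)) • b p)
    have h1 : y (n ^ (F * (e - q.1)) • b q) = n ^ (F * (e - q.1 - 1)) • (n ^ F • y (b q)) := by
      rw [← algebraMap_smul K (n ^ (F * (e - q.1))), map_smul, algebraMap_smul, smul_smul,
        ← pow_add]
      congr 2
      have := q.1.2
      have h2 : e - (q.1 : ℕ) = (e - q.1 - 1) + 1 := by omega
      conv_lhs => rw [h2]
      ring
    rw [h1, hC02, Finset.smul_sum]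
    refine Finset.sum_congr rfl fun p _ => ?_
    by_cases hp : C0 q p = 0
    · rw [hp]; simp
    · have h2 := hC01 q p hp
      rw [smul_smul, smul_smul]
      congr 1
      rw [mul_assoc, mul_comm (C0 q p), ← mul_assoc, ← pow_add]
      congr 2
      have := p.1.2
      rw [← Nat.mul_add]
      congr 1
      omega
  · intro p q h
    have h1 := hC01 q p (right_ne_zero_of_mul h)
    exact h1
  · intro z hzE hzL
    obtain ⟨c, -, hc⟩ := hgenF 0 (Nat.zero_le _) z (mem_flagL.2 ⟨⟨z, hzE, by simp⟩, hzL⟩)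
    refine ⟨fun q => n ^ (F * q.1) * c q, ?_⟩
    have h1 : n ^ (F * (e + 1)) • z = n ^ (F * e) • (n ^ F • z) := by
      rw [smul_smul, ← pow_add]
      congr 2
    rw [show (∑ j : Fin e, (fun j : Fin e => r j) j) = F from rfl, h1, hc, Finset.smul_sum]
    refine Finset.sum_congr rfl fun q _ => ?_
    show _ = (n ^ (F * q.1) * c q) • (n ^ (F * (e - q.1)) • b q)
    rw [smul_smul, smul_smul]
    congr 1
    rw [mul_assoc, mul_comm (c q), ← mul_assoc, ← pow_add]
    congr 2
    have := q.1.2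
    rw [← Nat.mul_add]
    congr 1
    omega

end

end Pool.Agent.DEC
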