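import Pool.Agent.DEC.State
import Pool.Agent.DEC.SAStep

/-!
Block shapes of `Sig_j`, `T_j`, replacement of the columns of one degree, base change in one degree
(`dec_general.md`, sections 2 and 3).
-/

set_option autoImplicit false
set_option linter.unusedSectionVars false

open Matrix Topology

namespace Pool.Agent.DEC.StateSA

section supp

variable {R I α β γ : Type} [CommRing R] [Fintype I] [DecidableEq I]

/-- support of `f C ^ m` -/
theorem pow_supp {σ : Shp I α β} {C : Matrix I I R} (hC : ∀ p q, σ.deg p ≤ σ.deg q → C p q = 0)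
    {h : γ → ℕ} {f : Matrix γ I R} (hf : ∀ c q, h c ≤ σ.deg q → f c q = 0) (m : ℕ) (c : γ) (q : I)
    (hq : h c ≤ σ.deg q + m) : (f * C ^ m) c q = 0 := by
  induction m generalizing q with
  | zero =>
    rw [pow_zero, Matrix.mul_one]
    exact hf c q hq
  | succ m ih =>
    rw [pow_succ, ← Matrix.mul_assoc, Matrix.mul_apply]
    refine Finset.sum_eq_zero fun p _ => ?_
    by_cases hpq : σ.deg p ≤ σ.deg q
    · rw [hC p q hpq, mul_zero]
    · rw [ih p (by omega), zero_mul]

/-- `f C ^ m` at a column of degree at least `i` only depends on the columns of degree at least `i` -/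
theorem pow_congr {σ : Shp I α β} {C C' : Matrix I I R}
    (hC : ∀ p q, σ.deg p ≤ σ.deg q → C p q = 0)
    {f f' : Matrix γ I R} {i : ℕ} (h1 : ∀ p q, i ≤ σ.deg q → C p q = C' p q)
    (h2 : ∀ c q, i ≤ σ.deg q → f c q = f' c q) (m : ℕ) (c : γ) (q : I)
    (hq : i ≤ σ.deg q) : (f * C ^ m) c q = (f' * C' ^ m) c q := by
  induction m generalizing q with
  | zero =>
    rw [pow_zero, pow_zero, Matrix.mul_one, Matrix.mul_one]
    exact h2 c q hq
  | succ m ih =>
    rw [pow_succ, pow_succ, ← Matrix.mul_assoc, ← Matrix.mul_assoc, Matrix.mul_apply,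
      Matrix.mul_apply]
    refine Finset.sum_congr rfl fun p _ => ?_
    by_cases hpq : σ.deg p ≤ σ.deg q
    · rw [← h1 p q hq, hC p q hpq, mul_zero, mul_zero]
    · rw [ih p (by omega), h1 p q hq]

theorem TM_congr {σ : Shp I α β} {s s' : RSt R I α β} (hs : IsSt σ s) {i : ℕ}
    (h1 : ∀ p q, i ≤ σ.deg q → s.1 p q = s'.1 p q)
    (h3 : ∀ b q, i ≤ σ.deg q → s.2.2 b q = s'.2.2 b q) : TM σ s i = TM σ s' i := by
  ext b q
  exact pow_congr hs.c h1 h3 _ _ _ q.2.ge

theorem SigM_congr {σ : Shp I α β} {s s' : RSt R I α β} {i : ℕ}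
    (h1 : ∀ p q, i ≤ σ.deg q → s.1 p q = s'.1 p q)
    (h2 : ∀ a q, i ≤ σ.deg q → s.2.1 a q = s'.2.1 a q) : SigM σ s i = SigM σ s' i := by
  ext p q
  rcases p with p | a
  · exact h1 _ _ q.2
  · exact h2 _ _ q.2

end supp

/-! ### the index types -/

section idx

variable {I : Type}

/-- splitting off a level -/
def lvE (f : I → ℕ) (j : ℕ) : {q : I // j + 1 ≤ f q} ⊕ {q : I // f q = j} ≃ {q : I // j ≤ f q} where
  toFun := Sum.elim (fun q => ⟨q.1, by have := q.2; omega⟩) (fun q => ⟨q.1, q.2.ge⟩)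
  invFun q := if h : f q.1 = j then Sum.inr ⟨q.1, h⟩ else Sum.inl ⟨q.1, by have := q.2; omega⟩
  left_inv q := by
    rcases q with q | q
    · have h1 : f q.1 ≠ j := by have := q.2; omega
      simp [h1]
    · simp [q.2]
  right_inv q := by
    by_cases h : f q.1 = j
    · simp [h]
    · simp [h]

end idx

/-! ### block shapes -/

section blk

variable {R I α β : Type} [CommRing R] [Fintype I] [DecidableEq I]

/-- the rows of `Sig_j` -/
def rowE (σ : Shp I α β) (j : ℕ) :
    (({p : I // j + 1 + 1 ≤ σ.deg p} ⊕ {a : α // j + 1 + 1 ≤ σ.lam a}) ⊕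
      ({p : I // σ.deg p = j + 1} ⊕ {a : α // σ.lam a = j + 1})) ≃
      ({p : I // j + 1 ≤ σ.deg p} ⊕ {a : α // j + 1 ≤ σ.lam a}) :=
  (Equiv.sumSumSumComm _ _ _ _).trans (Equiv.sumCongr (lvE σ.deg (j + 1)) (lvE σ.lam (j + 1)))

/-- the upper right block of `Sig_j` -/
def xM (σ : Shp I α β) (s : RSt R I α β) (j : ℕ) :
    Matrix ({p : I // j + 1 + 1 ≤ σ.deg p} ⊕ {a : α // j + 1 + 1 ≤ σ.lam a})
      {q : I // σ.deg q = j} R :=
  fromRows (s.1.submatrix Subtype.val Subtype.val) (s.2.1.submatrix Subtype.val Subtype.val)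

/-- `D_j` -/
def dM (σ : Shp I α β) (s : RSt R I α β) (j : ℕ) :
    Matrix {p : I // σ.deg p = j + 1} {q : I // σ.deg q = j} R :=
  s.1.submatrix Subtype.val Subtype.val

/-- `rho'_j` -/
def rM (σ : Shp I α β) (s : RSt R I α β) (j : ℕ) :
    Matrix {a : α // σ.lam a = j + 1} {q : I // σ.deg q = j} R :=
  s.2.1.submatrix Subtype.val Subtype.val

/-- `t_j` -/
def tM (σ : Shp I α β) (s : RSt R I α β) (j : ℕ) :
    Matrix {b : β // σ.mu b = j + 1} {q : I // σ.deg q = j} R :=
  s.2.2.submatrix Subtype.val Subtype.val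

/-- the other rows of `tau` -/
def wM (σ : Shp I α β) (s : RSt R I α β) (j : ℕ) :
    Matrix {b : β // j + 1 + 1 ≤ σ.mu b} {q : I // σ.deg q = j} R :=
  s.2.2.submatrix Subtype.val Subtype.val

/-- block shape of `Sig_j` -/
theorem SigM_blk (σ : Shp I α β) {s : RSt R I α β} (hs : IsSt σ s) (j : ℕ) :
    (SigM σ s j).submatrix (rowE σ j) (lvE σ.deg j) =
      fromBlocks (SigM σ s (j + 1)) (xM σ s j) 0 (fromRows (dM σ s j) (rM σ s j)) := by
  ext p q
  rcases p with (p | a) | (p | a) <;> rcases q with q | q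
  · rfl
  · rfl
  · rfl
  · rfl
  · show s.1 p.1 q.1 = 0
    exact hs.c _ _ (by have := p.2; have := q.2; omega)
  · rfl
  · show s.2.1 a.1 q.1 = 0
    exact hs.rho _ _ (by have := a.2; have := q.2; omega)
  · rfl

/-- block shape of `T_j` -/
theorem TM_blk (σ : Shp I α β) {s : RSt R I α β} (hs : IsSt σ s) (j : ℕ) :
    (TM σ s j).submatrix ((Equiv.sumComm _ _).trans (lvE σ.mu (j + 1))) id =
      fromRows (tM σ s j) (TM σ s (j + 1) * dM σ s j) := by
  ext b q
  rcases b with b | b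
  · show (s.2.2 * s.1 ^ (σ.mu b.1 - 1 - j)) b.1 q.1 = s.2.2 b.1 q.1
    have h1 : σ.mu b.1 - 1 - j = 0 := by have := b.2; omega
    rw [h1, pow_zero, Matrix.mul_one]
  · show (s.2.2 * s.1 ^ (σ.mu b.1 - 1 - j)) b.1 q.1 =
      ∑ p : {p : I // σ.deg p = j + 1}, (s.2.2 * s.1 ^ (σ.mu b.1 - 1 - (j + 1))) b.1 p.1 *
        s.1 p.1 q.1
    have hb := b.2
    have h1 : σ.mu b.1 - 1 - j = σ.mu b.1 - 1 - (j + 1) + 1 := by omega
    rw [h1, pow_succ, ← Matrix.mul_assoc, Matrix.mul_apply,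
      ← Finset.sum_filter_add_sum_filter_not Finset.univ (fun p => σ.deg p = j + 1)]
    have h2 : ∑ p ∈ Finset.univ.filter (fun p => ¬ σ.deg p = j + 1),
        (s.2.2 * s.1 ^ (σ.mu b.1 - 1 - (j + 1))) b.1 p * s.1 p q.1 = 0 := by
      refine Finset.sum_eq_zero fun p hp => ?_
      have hp' := (Finset.mem_filter.1 hp).2
      by_cases hpq : σ.deg p ≤ σ.deg q.1
      · rw [hs.c _ _ hpq, mul_zero]
      · have hq := q.2
        rw [pow_supp hs.c hs.tau _ _ _ (by omega), zero_mul]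
    rw [h2, add_zero]
    exact Finset.sum_subtype _ (by simp) _

end blk

/-! ### base change in one degree -/

section bcj

variable {R I α β γ : Type} [CommRing R] [Fintype I] [DecidableEq I]

/-- block diagonal matrix, `G` in degree `j`, the identity in the other degrees -/
def dgE (f : I → ℕ) (j : ℕ) (G : Matrix {q : I // f q = j} {q : I // f q = j} R) : Matrix I I R :=
  (fromBlocks G 0 0 (1 : Matrix {q : I // ¬ f q = j} {q : I // ¬ f q = j} R)).submatrix
    (Equiv.sumCompl fun q => f q = j).symm (Equiv.sumCompl fun q => f q = j).symm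

theorem dgE_det (f : I → ℕ) (j : ℕ) (G : Matrix {q : I // f q = j} {q : I // f q = j} R) :
    (dgE f j G).det = G.det := by
  rw [dgE, det_submatrix_equiv_self, det_fromBlocks_zero₁₂, det_one, mul_one]

theorem dgE_mul (f : I → ℕ) (j : ℕ) (G G' : Matrix {q : I // f q = j} {q : I // f q = j} R) :
    dgE f j G * dgE f j G' = dgE f j (G * G') := by
  rw [dgE, dgE, dgE, submatrix_mul_equiv, fromBlocks_multiply]
  simp

theorem dgE_one (f : I → ℕ) (j : ℕ) :
    dgE f j (1 : Matrix {q : I // f q = j} {q : I // f q = j} R) = 1 := by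
  rw [dgE, fromBlocks_one, submatrix_one_equiv]

theorem dgE_in {f : I → ℕ} {j : ℕ} {G : Matrix {q : I // f q = j} {q : I // f q = j} R} {p q : I}
    (hp : f p = j) (hq : f q = j) : dgE f j G p q = G ⟨p, hp⟩ ⟨q, hq⟩ := by
  rw [dgE, submatrix_apply, Equiv.sumCompl_symm_apply_of_pos (p := fun q => f q = j) hp,
    Equiv.sumCompl_symm_apply_of_pos (p := fun q => f q = j) hq]
  rfl

theorem dgE_out {f : I → ℕ} {j : ℕ} {G : Matrix {q : I // f q = j} {q : I // f q = j} R} {p q : I}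
    (h : f p ≠ j ∨ f q ≠ j) : dgE f j G p q = (1 : Matrix I I R) p q := by
  rw [dgE, submatrix_apply, one_apply]
  by_cases hp : f p = j
  · have hq : f q ≠ j := h.resolve_left (not_not.2 hp)
    rw [Equiv.sumCompl_symm_apply_of_pos (p := fun q => f q = j) hp, Equiv.sumCompl_symm_apply_of_neg (p := fun q => f q = j) hq, if_neg]
    · rfl
    · rintro rfl; exact hq hp
  · rw [Equiv.sumCompl_symm_apply_of_neg (p := fun q => f q = j) hp]
    by_cases hq : f q = j
    · rw [Equiv.sumCompl_symm_apply_of_pos (p := fun q => f q = j) hq, if_neg]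
      · rfl
      · rintro rfl; exact hp hq
    · rw [Equiv.sumCompl_symm_apply_of_neg (p := fun q => f q = j) hq]
      show (1 : Matrix {q : I // ¬ f q = j} {q : I // ¬ f q = j} R) _ _ = _
      rw [one_apply]
      simp

theorem dgE_isDg (σ : Shp I α β) (j : ℕ)
    (G : Matrix {q : I // σ.deg q = j} {q : I // σ.deg q = j} R) : IsDg σ (dgE σ.deg j G) := by
  intro p q hpq
  rw [dgE_out, one_apply, if_neg]
  · rintro rfl; exact hpq rfl
  · by_contra h
    push Not at h
    exact hpq (h.1.trans h.2.symm)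

/-- right multiplication, columns of another degree -/
theorem mul_dgE_out {f : I → ℕ} {j : ℕ} {G : Matrix {q : I // f q = j} {q : I // f q = j} R}
    (M : Matrix γ I R) (c : γ) {q : I} (hq : f q ≠ j) : (M * dgE f j G) c q = M c q := by
  rw [Matrix.mul_apply, Finset.sum_eq_single q]
  · rw [dgE_out (Or.inl hq), one_apply_eq, mul_one]
  · intro p _ hp
    rw [dgE_out (Or.inr hq), one_apply_ne hp, mul_zero]
  · intro h; exact absurd (Finset.mem_univ _) h

/-- right multiplication, columns of degree `j` -/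
theorem mul_dgE_in {f : I → ℕ} {j : ℕ} {G : Matrix {q : I // f q = j} {q : I // f q = j} R}
    (M : Matrix γ I R) : (M * dgE f j G).submatrix id (Subtype.val : {q : I // f q = j} → I) =
      M.submatrix id Subtype.val * G := by
  ext c q
  show (M * dgE f j G) c q.1 = ∑ l : {q : I // f q = j}, M c l.1 * G l q
  rw [Matrix.mul_apply, ← Finset.sum_filter_add_sum_filter_not Finset.univ (fun p => f p = j)]
  have h2 : ∑ p ∈ Finset.univ.filter (fun p => ¬ f p = j), M c p * dgE f j G p q.1 = 0 := by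
    refine Finset.sum_eq_zero fun p hp => ?_
    have hp' := (Finset.mem_filter.1 hp).2
    rw [dgE_out (Or.inl hp'), one_apply_ne, mul_zero]
    rintro rfl; exact hp' q.2
  rw [h2, add_zero, Finset.sum_subtype (p := fun p => f p = j) _ (by simp)]
  refine Finset.sum_congr rfl fun l _ => ?_
  rw [dgE_in l.2 q.2]

/-- left multiplication, rows of another degree -/
theorem dgE_mul_out {f : I → ℕ} {j : ℕ} {G : Matrix {q : I // f q = j} {q : I // f q = j} R}
    (M : Matrix I γ R) (c : γ) {p : I} (hp : f p ≠ j) : (dgE f j G * M) p c = M p c := by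
  rw [Matrix.mul_apply, Finset.sum_eq_single p]
  · rw [dgE_out (Or.inl hp), one_apply_eq, one_mul]
  · intro q _ hq
    rw [dgE_out (Or.inl hp), one_apply_ne hq.symm, zero_mul]
  · intro h; exact absurd (Finset.mem_univ _) h

/-- left multiplication, rows of degree `j` on which the column vanishes -/
theorem dgE_mul_zero {f : I → ℕ} {j : ℕ} {G : Matrix {q : I // f q = j} {q : I // f q = j} R}
    (M : Matrix I γ R) (c : γ) (hM : ∀ p, f p = j → M p c = 0) {p : I} (hp : f p = j) :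
    (dgE f j G * M) p c = 0 := by
  rw [Matrix.mul_apply]
  refine Finset.sum_eq_zero fun q _ => ?_
  by_cases hq : f q = j
  · rw [hM q hq, mul_zero]
  · rw [dgE_out (Or.inr hq), one_apply_ne, zero_mul]
    rintro rfl; exact hq hp

theorem dgE_inv {f : I → ℕ} {j : ℕ} {G : Matrix {q : I // f q = j} {q : I // f q = j} R}
    (hG : IsUnit G.det) : (dgE f j G)⁻¹ = dgE f j G⁻¹ := by
  refine Matrix.inv_eq_right_inv ?_
  rw [dgE_mul, Matrix.mul_nonsing_inv _ hG, dgE_one]

variable {σ : Shp I α β} {s : RSt R I α β} {j : ℕ}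
  {G : Matrix {q : I // σ.deg q = j} {q : I // σ.deg q = j} R}

/-- the columns of higher degree do not change -/
theorem bc_c_gt (hs : IsSt σ s) (hG : IsUnit G.det) (p q : I) (hq : j < σ.deg q) :
    (bc s (dgE σ.deg j G)).1 p q = s.1 p q := by
  show ((dgE σ.deg j G)⁻¹ * s.1 * dgE σ.deg j G) p q = s.1 p q
  rw [dgE_inv hG, mul_dgE_out _ _ (by omega)]
  by_cases hp : σ.deg p = j
  · rw [dgE_mul_zero _ _ (fun p' hp' => hs.c _ _ (by omega)) hp, hs.c _ _ (by omega)]
  · rw [dgE_mul_out _ _ hp]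

theorem bc_rho_gt (a : α) (q : I) (hq : σ.deg q ≠ j) :
    (bc s (dgE σ.deg j G)).2.1 a q = s.2.1 a q := mul_dgE_out _ _ hq

theorem bc_tau_gt (b : β) (q : I) (hq : σ.deg q ≠ j) :
    (bc s (dgE σ.deg j G)).2.2 b q = s.2.2 b q := mul_dgE_out _ _ hq

/-- `C` in the columns of degree `j` after the base change -/
theorem bc_c_in (_hs : IsSt σ s) (hG : IsUnit G.det) (p : I) (q : {q : I // σ.deg q = j})
    (hp : j < σ.deg p) :
    (bc s (dgE σ.deg j G)).1 p q.1 = ∑ l : {q : I // σ.deg q = j}, s.1 p l.1 * G l q := by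
  show ((dgE σ.deg j G)⁻¹ * s.1 * dgE σ.deg j G) p q.1 = _
  rw [dgE_inv hG, Matrix.mul_assoc, dgE_mul_out _ _ (by omega)]
  exact congrFun (congrFun (mul_dgE_in (G := G) s.1) p) q

theorem bc_isSt (hs : IsSt σ s) (hG : IsUnit G.det) : IsSt σ (bc s (dgE σ.deg j G)) := by
  refine ⟨fun p q hpq => ?_, fun a q haq => ?_, fun b q hbq => ?_⟩
  · show ((dgE σ.deg j G)⁻¹ * s.1 * dgE σ.deg j G) p q = 0
    rw [dgE_inv hG, Matrix.mul_assoc]
    have h1 : ∀ p', σ.deg p' ≤ σ.deg q → (s.1 * dgE σ.deg j G) p' q = 0 := by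
      intro p' hp'
      by_cases hq : σ.deg q = j
      · have h2 := congrFun (congrFun (mul_dgE_in (G := G) s.1) p') ⟨q, hq⟩
        have h3 : (s.1 * dgE σ.deg j G) p' q =
          ∑ l : {q : I // σ.deg q = j}, s.1 p' l.1 * G l ⟨q, hq⟩ := h2
        rw [h3]
        refine Finset.sum_eq_zero fun l _ => ?_
        have hl := l.2
        rw [hs.c _ _ (by omega), zero_mul]
      · rw [mul_dgE_out _ _ hq]; exact hs.c _ _ hp'
    by_cases hp : σ.deg p = j
    · exact dgE_mul_zero _ _ (fun p' hp' => h1 p' (by omega)) hp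
    · rw [dgE_mul_out _ _ hp]; exact h1 p hpq
  · show (s.2.1 * dgE σ.deg j G) a q = 0
    by_cases hq : σ.deg q = j
    · have h2 := congrFun (congrFun (mul_dgE_in (G := G) s.2.1) a) ⟨q, hq⟩
      have h3 : (s.2.1 * dgE σ.deg j G) a q =
        ∑ l : {q : I // σ.deg q = j}, s.2.1 a l.1 * G l ⟨q, hq⟩ := h2
      rw [h3]
      refine Finset.sum_eq_zero fun l _ => ?_
      have hl := l.2
      rw [hs.rho _ _ (by omega), zero_mul]
    · rw [mul_dgE_out _ _ hq]; exact hs.rho _ _ haq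
  · show (s.2.2 * dgE σ.deg j G) b q = 0
    by_cases hq : σ.deg q = j
    · have h2 := congrFun (congrFun (mul_dgE_in (G := G) s.2.2) b) ⟨q, hq⟩
      have h3 : (s.2.2 * dgE σ.deg j G) b q =
        ∑ l : {q : I // σ.deg q = j}, s.2.2 b l.1 * G l ⟨q, hq⟩ := h2
      rw [h3]
      refine Finset.sum_eq_zero fun l _ => ?_
      have hl := l.2
      rw [hs.tau _ _ (by omega), zero_mul]
    · rw [mul_dgE_out _ _ hq]; exact hs.tau _ _ hbq

theorem xM_bc (hs : IsSt σ s) (hG : IsUnit G.det) :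
    xM σ (bc s (dgE σ.deg j G)) j = xM σ s j * G := by
  ext p q
  rcases p with p | a
  · exact bc_c_in hs hG p.1 q (by have := p.2; omega)
  · exact congrFun (congrFun (mul_dgE_in (G := G) s.2.1) a.1) q

theorem dM_bc (hs : IsSt σ s) (hG : IsUnit G.det) :
    dM σ (bc s (dgE σ.deg j G)) j = dM σ s j * G := by
  ext p q
  exact bc_c_in hs hG p.1 q (by have := p.2; omega)

theorem rM_bc : rM σ (bc s (dgE σ.deg j G)) j = rM σ s j * G := by
  ext a q
  exact congrFun (congrFun (mul_dgE_in (G := G) s.2.1) a.1) q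

theorem tM_bc : tM σ (bc s (dgE σ.deg j G)) j = tM σ s j * G := by
  ext b q
  exact congrFun (congrFun (mul_dgE_in (G := G) s.2.2) b.1) q

theorem wM_bc : wM σ (bc s (dgE σ.deg j G)) j = wM σ s j * G := by
  ext b q
  exact congrFun (congrFun (mul_dgE_in (G := G) s.2.2) b.1) q

end bcj

/-! ### replacing the columns of degree `j` -/

section rep

variable {R I α β γ : Type} [CommRing R] [Fintype I] [DecidableEq I]

/-- new columns of `C` -/
def mkC (σ : Shp I α β) (j : ℕ)
    (x : Matrix ({p : I // j + 1 + 1 ≤ σ.deg p} ⊕ {a : α // j + 1 + 1 ≤ σ.lam a})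
      {q : I // σ.deg q = j} R)
    (D : Matrix {p : I // σ.deg p = j + 1} {q : I // σ.deg q = j} R) :
    Matrix I {q : I // σ.deg q = j} R :=
  of fun p q => if h : σ.deg p = j + 1 then D ⟨p, h⟩ q else
    if h' : j + 1 + 1 ≤ σ.deg p then x (Sum.inl ⟨p, h'⟩) q else 0

/-- new columns of `rho` -/
def mkR (σ : Shp I α β) (j : ℕ)
    (x : Matrix ({p : I // j + 1 + 1 ≤ σ.deg p} ⊕ {a : α // j + 1 + 1 ≤ σ.lam a})
      {q : I // σ.deg q = j} R)
    (r : Matrix {a : α // σ.lam a = j + 1} {q : I // σ.deg q = j} R) :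
    Matrix α {q : I // σ.deg q = j} R :=
  of fun a q => if h : σ.lam a = j + 1 then r ⟨a, h⟩ q else
    if h' : j + 1 + 1 ≤ σ.lam a then x (Sum.inr ⟨a, h'⟩) q else 0

/-- new columns of `tau` -/
def mkT (σ : Shp I α β) (j : ℕ)
    (t : Matrix {b : β // σ.mu b = j + 1} {q : I // σ.deg q = j} R)
    (w : Matrix {b : β // j + 1 + 1 ≤ σ.mu b} {q : I // σ.deg q = j} R) :
    Matrix β {q : I // σ.deg q = j} R :=
  of fun b q => if h : σ.mu b = j + 1 then t ⟨b, h⟩ q else
    if h' : j + 1 + 1 ≤ σ.mu b then w ⟨b, h'⟩ q else 0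

/-- replace the columns of degree `j` -/
def rpl (f : I → ℕ) (j : ℕ) (M : Matrix γ I R) (N : Matrix γ {q : I // f q = j} R) :
    Matrix γ I R :=
  of fun c q => if h : f q = j then N c ⟨q, h⟩ else M c q

/-- the data of the columns of degree `j` -/
abbrev ColD (R : Type) {I α β : Type} (σ : Shp I α β) (j : ℕ) : Type :=
  (Matrix ({p : I // j + 1 + 1 ≤ σ.deg p} ⊕ {a : α // j + 1 + 1 ≤ σ.lam a})
      {q : I // σ.deg q = j} R ×
    Matrix {p : I // σ.deg p = j + 1} {q : I // σ.deg q = j} R ×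
    Matrix {a : α // σ.lam a = j + 1} {q : I // σ.deg q = j} R ×
    Matrix {b : β // σ.mu b = j + 1} {q : I // σ.deg q = j} R) ×
  Matrix {b : β // j + 1 + 1 ≤ σ.mu b} {q : I // σ.deg q = j} R

/-- the state with new columns of degree `j` -/
def rep (σ : Shp I α β) (j : ℕ) (s : RSt R I α β) (z : ColD R σ j) : RSt R I α β :=
  (rpl σ.deg j s.1 (mkC σ j z.1.1 z.1.2.1), rpl σ.deg j s.2.1 (mkR σ j z.1.1 z.1.2.2.1),
    rpl σ.deg j s.2.2 (mkT σ j z.1.2.2.2 z.2))

variable {σ : Shp I α β} {j : ℕ} {s : RSt R I α β} {z : ColD R σ j}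

theorem rpl_ne {f : I → ℕ} {M : Matrix γ I R} {N : Matrix γ {q : I // f q = j} R} (c : γ) {q : I}
    (hq : f q ≠ j) : rpl f j M N c q = M c q := dif_neg hq

theorem rpl_eq {f : I → ℕ} {M : Matrix γ I R} {N : Matrix γ {q : I // f q = j} R} (c : γ)
    (q : {q : I // f q = j}) : rpl f j M N c q.1 = N c q := dif_pos q.2

theorem rep_isSt (hs : IsSt σ s) : IsSt σ (rep σ j s z) := by
  refine ⟨fun p q hpq => ?_, fun a q haq => ?_, fun b q hbq => ?_⟩
  · by_cases hq : σ.deg q = j
    · show rpl σ.deg j s.1 (mkC σ j z.1.1 z.1.2.1) p q = 0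
      rw [rpl_eq p ⟨q, hq⟩]
      show (if h : σ.deg p = j + 1 then _ else if h' : j + 1 + 1 ≤ σ.deg p then _ else 0) = (0 : R)
      rw [dif_neg (by omega), dif_neg (by omega)]
    · exact (rpl_ne p hq).trans (hs.c p q hpq)
  · by_cases hq : σ.deg q = j
    · show rpl σ.deg j s.2.1 (mkR σ j z.1.1 z.1.2.2.1) a q = 0
      rw [rpl_eq a ⟨q, hq⟩]
      show (if h : σ.lam a = j + 1 then _ else if h' : j + 1 + 1 ≤ σ.lam a then _ else 0) = (0 : R)
      rw [dif_neg (by omega), dif_neg (by omega)]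
    · exact (rpl_ne a hq).trans (hs.rho a q haq)
  · by_cases hq : σ.deg q = j
    · show rpl σ.deg j s.2.2 (mkT σ j z.1.2.2.2 z.2) b q = 0
      rw [rpl_eq b ⟨q, hq⟩]
      show (if h : σ.mu b = j + 1 then _ else if h' : j + 1 + 1 ≤ σ.mu b then _ else 0) = (0 : R)
      rw [dif_neg (by omega), dif_neg (by omega)]
    · exact (rpl_ne b hq).trans (hs.tau b q hbq)

/-- the data of a state -/
def colD (σ : Shp I α β) (s : RSt R I α β) (j : ℕ) : ColD R σ j :=
  ((xM σ s j, dM σ s j, rM σ s j, tM σ s j), wM σ s j)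

theorem rep_self (hs : IsSt σ s) : rep σ j s (colD σ s j) = s := by
  refine Prod.ext ?_ (Prod.ext ?_ ?_)
  · ext p q
    by_cases hq : σ.deg q = j
    · show rpl σ.deg j s.1 (mkC σ j (xM σ s j) (dM σ s j)) p q = s.1 p q
      rw [rpl_eq p ⟨q, hq⟩]
      show (if h : σ.deg p = j + 1 then s.1 p q else
        if h' : j + 1 + 1 ≤ σ.deg p then s.1 p q else 0) = s.1 p q
      split_ifs with h1 h2
      · rfl
      · rfl
      · exact (hs.c p q (by omega)).symm
    · exact rpl_ne p hq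
  · ext a q
    by_cases hq : σ.deg q = j
    · show rpl σ.deg j s.2.1 (mkR σ j (xM σ s j) (rM σ s j)) a q = s.2.1 a q
      rw [rpl_eq a ⟨q, hq⟩]
      show (if h : σ.lam a = j + 1 then s.2.1 a q else
        if h' : j + 1 + 1 ≤ σ.lam a then s.2.1 a q else 0) = s.2.1 a q
      split_ifs with h1 h2
      · rfl
      · rfl
      · exact (hs.rho a q (by omega)).symm
    · exact rpl_ne a hq
  · ext b q
    by_cases hq : σ.deg q = j
    · show rpl σ.deg j s.2.2 (mkT σ j (tM σ s j) (wM σ s j)) b q = s.2.2 b q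
      rw [rpl_eq b ⟨q, hq⟩]
      show (if h : σ.mu b = j + 1 then s.2.2 b q else
        if h' : j + 1 + 1 ≤ σ.mu b then s.2.2 b q else 0) = s.2.2 b q
      split_ifs with h1 h2
      · rfl
      · rfl
      · exact (hs.tau b q (by omega)).symm
    · exact rpl_ne b hq

theorem xM_rep : xM σ (rep σ j s z) j = z.1.1 := by
  ext p q
  rcases p with p | a
  · have hp := p.2
    show rpl σ.deg j s.1 (mkC σ j z.1.1 z.1.2.1) p.1 q.1 = _
    rw [rpl_eq]
    show (if h : σ.deg p.1 = j + 1 then _ else if h' : j + 1 + 1 ≤ σ.deg p.1 then _ else (0 : R)) = _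
    rw [dif_neg (by omega), dif_pos hp]
  · have ha := a.2
    show rpl σ.deg j s.2.1 (mkR σ j z.1.1 z.1.2.2.1) a.1 q.1 = _
    rw [rpl_eq]
    show (if h : σ.lam a.1 = j + 1 then _ else if h' : j + 1 + 1 ≤ σ.lam a.1 then _ else (0 : R)) = _
    rw [dif_neg (by omega), dif_pos ha]

theorem dM_rep : dM σ (rep σ j s z) j = z.1.2.1 := by
  ext p q
  show rpl σ.deg j s.1 (mkC σ j z.1.1 z.1.2.1) p.1 q.1 = _
  rw [rpl_eq]
  exact dif_pos p.2

theorem rM_rep : rM σ (rep σ j s z) j = z.1.2.2.1 := by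
  ext a q
  show rpl σ.deg j s.2.1 (mkR σ j z.1.1 z.1.2.2.1) a.1 q.1 = _
  rw [rpl_eq]
  exact dif_pos a.2

theorem tM_rep : tM σ (rep σ j s z) j = z.1.2.2.2 := by
  ext b q
  show rpl σ.deg j s.2.2 (mkT σ j z.1.2.2.2 z.2) b.1 q.1 = _
  rw [rpl_eq]
  exact dif_pos b.2

end rep

/-- ring homomorphisms on the data -/
def mapD {R K I α β : Type} [CommRing R] [CommRing K] (ι : R →+* K) {σ : Shp I α β} {j : ℕ}
    (z : ColD R σ j) : ColD K σ j :=
  ((z.1.1.map ι, z.1.2.1.map ι, z.1.2.2.1.map ι, z.1.2.2.2.map ι), z.2.map ι)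

/-- `rep` and ring homomorphisms: if `s'` agrees with `s` in the other columns of degree at least
`j` -/
theorem rep_cont {K I α β : Type} [Field K] [TopologicalSpace K] [Fintype I] [DecidableEq I]
    (σ : Shp I α β) (j : ℕ) (s : RSt K I α β) : Continuous fun z : ColD K σ j => rep σ j s z := by
  refine Continuous.prodMk ?_ (Continuous.prodMk ?_ ?_)
  · refine continuous_matrix fun p q => ?_
    by_cases hq : σ.deg q = j
    · have h1 : ∀ z : ColD K σ j, rpl σ.deg j s.1 (mkC σ j z.1.1 z.1.2.1) p q =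
          mkC σ j z.1.1 z.1.2.1 p ⟨q, hq⟩ := fun z => rpl_eq p ⟨q, hq⟩
      simp only [h1]
      by_cases h2 : σ.deg p = j + 1
      · have h3 : ∀ z : ColD K σ j, mkC σ j z.1.1 z.1.2.1 p ⟨q, hq⟩ = z.1.2.1 ⟨p, h2⟩ ⟨q, hq⟩ :=
          fun z => dif_pos h2
        simp only [h3]
        exact (continuous_fst.comp (continuous_snd.comp continuous_fst)).matrix_elem _ _
      · by_cases h4 : j + 1 + 1 ≤ σ.deg p
        · have h3 : ∀ z : ColD K σ j, mkC σ j z.1.1 z.1.2.1 p ⟨q, hq⟩ =
              z.1.1 (Sum.inl ⟨p, h4⟩) ⟨q, hq⟩ := fun z => (dif_neg h2).trans (dif_pos h4)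
          simp only [h3]
          exact (continuous_fst.comp continuous_fst).matrix_elem _ _
        · have h3 : ∀ z : ColD K σ j, mkC σ j z.1.1 z.1.2.1 p ⟨q, hq⟩ = 0 :=
            fun z => (dif_neg h2).trans (dif_neg h4)
          simp only [h3]
          exact continuous_const
    · have h1 : ∀ z : ColD K σ j, rpl σ.deg j s.1 (mkC σ j z.1.1 z.1.2.1) p q = s.1 p q :=
        fun z => rpl_ne p hq
      simp only [h1]
      exact continuous_const
  · refine continuous_matrix fun a q => ?_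
    by_cases hq : σ.deg q = j
    · have h1 : ∀ z : ColD K σ j, rpl σ.deg j s.2.1 (mkR σ j z.1.1 z.1.2.2.1) a q =
          mkR σ j z.1.1 z.1.2.2.1 a ⟨q, hq⟩ := fun z => rpl_eq a ⟨q, hq⟩
      simp only [h1]
      by_cases h2 : σ.lam a = j + 1
      · have h3 : ∀ z : ColD K σ j, mkR σ j z.1.1 z.1.2.2.1 a ⟨q, hq⟩ =
            z.1.2.2.1 ⟨a, h2⟩ ⟨q, hq⟩ := fun z => dif_pos h2
        simp only [h3]
        exact (continuous_fst.comp (continuous_snd.comp (continuous_snd.comp
          continuous_fst))).matrix_elem _ _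
      · by_cases h4 : j + 1 + 1 ≤ σ.lam a
        · have h3 : ∀ z : ColD K σ j, mkR σ j z.1.1 z.1.2.2.1 a ⟨q, hq⟩ =
              z.1.1 (Sum.inr ⟨a, h4⟩) ⟨q, hq⟩ := fun z => (dif_neg h2).trans (dif_pos h4)
          simp only [h3]
          exact (continuous_fst.comp continuous_fst).matrix_elem _ _
        · have h3 : ∀ z : ColD K σ j, mkR σ j z.1.1 z.1.2.2.1 a ⟨q, hq⟩ = 0 :=
            fun z => (dif_neg h2).trans (dif_neg h4)
          simp only [h3]
          exact continuous_const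
    · have h1 : ∀ z : ColD K σ j, rpl σ.deg j s.2.1 (mkR σ j z.1.1 z.1.2.2.1) a q = s.2.1 a q :=
        fun z => rpl_ne a hq
      simp only [h1]
      exact continuous_const
  · refine continuous_matrix fun b q => ?_
    by_cases hq : σ.deg q = j
    · have h1 : ∀ z : ColD K σ j, rpl σ.deg j s.2.2 (mkT σ j z.1.2.2.2 z.2) b q =
          mkT σ j z.1.2.2.2 z.2 b ⟨q, hq⟩ := fun z => rpl_eq b ⟨q, hq⟩
      simp only [h1]
      by_cases h2 : σ.mu b = j + 1
      · have h3 : ∀ z : ColD K σ j, mkT σ j z.1.2.2.2 z.2 b ⟨q, hq⟩ =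
            z.1.2.2.2 ⟨b, h2⟩ ⟨q, hq⟩ := fun z => dif_pos h2
        simp only [h3]
        exact (continuous_snd.comp (continuous_snd.comp (continuous_snd.comp
          continuous_fst))).matrix_elem _ _
      · by_cases h4 : j + 1 + 1 ≤ σ.mu b
        · have h3 : ∀ z : ColD K σ j, mkT σ j z.1.2.2.2 z.2 b ⟨q, hq⟩ =
              z.2 ⟨b, h4⟩ ⟨q, hq⟩ := fun z => (dif_neg h2).trans (dif_pos h4)
          simp only [h3]
          exact continuous_snd.matrix_elem _ _
        · have h3 : ∀ z : ColD K σ j, mkT σ j z.1.2.2.2 z.2 b ⟨q, hq⟩ = 0 :=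
            fun z => (dif_neg h2).trans (dif_neg h4)
          simp only [h3]
          exact continuous_const
    · have h1 : ∀ z : ColD K σ j, rpl σ.deg j s.2.2 (mkT σ j z.1.2.2.2 z.2) b q = s.2.2 b q :=
        fun z => rpl_ne b hq
      simp only [h1]
      exact continuous_const

end Pool.Agent.DEC.StateSA
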