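import Mathlib

/-!
# DEC, module STD (1): the standard block

For an irreducible `p : ℚ[X]`, `K = ℚ[X]/(p)`, `θ` the root: the map `g ↦ g(θ + y) mod y^h`
induces a `ℚ`-linear bijection `ℚ[X]/(p^h) → K[y]/y^h = (Fin h → K)` carrying `X` to `θ + y`.
-/

namespace DECStd

open Polynomial

/-- Multiplication by `θ + y` on `K[y]/y^h = (Fin h → K)`. -/
def Tx {K : Type*} [CommRing K] (θ : K) {h : ℕ} (v : Fin h → K) : Fin h → K := fun t =>
  θ * v t + (if ht : (t : ℕ) = 0 then 0 else v ⟨(t : ℕ) - 1, by omega⟩)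

section block

variable (p : ℚ[X])

/-- The coefficients of `g(θ + y)`. -/
noncomputable def Psi (h : ℕ) : ℚ[X] →ₗ[ℚ] (Fin h → AdjoinRoot p) where
  toFun g := fun t =>
    (taylor (AdjoinRoot.root p) (g.map (algebraMap ℚ (AdjoinRoot p)))).coeff (t : ℕ)
  map_add' f g := by
    funext t
    simp [Polynomial.map_add]
  map_smul' c g := by
    funext t
    simp only [RingHom.id_apply, Pi.smul_apply, Polynomial.map_smul]
    rw [map_smul, coeff_smul, algebraMap_smul]

theorem Psi_X_mul (h : ℕ) (g : ℚ[X]) :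
    Psi p h (X * g) = Tx (AdjoinRoot.root p) (Psi p h g) := by
  funext t
  simp only [Psi, Tx, LinearMap.coe_mk, AddHom.coe_mk]
  rw [Polynomial.map_mul, taylor_mul, Polynomial.map_X, taylor_X, add_mul, coeff_add, coeff_C_mul,
    add_comm]
  congr 1
  obtain ⟨t, ht⟩ := t
  cases t with
  | zero => simp
  | succ t => simp [coeff_X_mul]

variable {p}

theorem pow_dvd_iff (hp : Irreducible p) (h : ℕ) (g : ℚ[X]) :
    p ^ h ∣ g ↔ (X - C (AdjoinRoot.root p)) ^ h ∣ g.map (algebraMap ℚ (AdjoinRoot p)) := by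
  set i : ℚ →+* AdjoinRoot p := algebraMap ℚ (AdjoinRoot p) with hi
  set θ := AdjoinRoot.root p with hθ
  have : Fact (Irreducible p) := ⟨hp⟩
  have hev : ∀ g : ℚ[X], (g.map i).eval θ = AdjoinRoot.mk p g := by
    intro g
    rw [eval_map]
    exact AdjoinRoot.aeval_eq g
  have hroot : (p.map i).IsRoot θ := by
    rw [IsRoot, hev, AdjoinRoot.mk_self]
  obtain ⟨q, hq⟩ := dvd_iff_isRoot.mpr hroot
  have hsep : (p.map i).Separable := (hp.separable).map
  have hcop : IsCoprime (X - C θ) q := by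
    rw [hq] at hsep
    exact hsep.isCoprime
  constructor
  · intro hd
    have h1 : (p ^ h).map i ∣ g.map i := Polynomial.map_dvd i hd
    refine dvd_trans ?_ h1
    rw [Polynomial.map_pow, hq, mul_pow]
    exact dvd_mul_right _ _
  · induction h generalizing g with
    | zero => intro _; simp
    | succ h ih =>
      intro hd
      have h0 : (X - C θ) ∣ g.map i := dvd_trans (dvd_pow_self _ (Nat.succ_ne_zero h)) hd
      have h1 : (g.map i).IsRoot θ := dvd_iff_isRoot.mp h0
      rw [IsRoot, hev, AdjoinRoot.mk_eq_zero] at h1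
      obtain ⟨g1, rfl⟩ := h1
      rw [Polynomial.map_mul, hq, pow_succ', mul_assoc] at hd
      have hne : (X - C θ) ≠ 0 := X_sub_C_ne_zero θ
      have h2 := (mul_dvd_mul_iff_left hne).mp hd
      have h3 : (X - C θ) ^ h ∣ g1.map i := (hcop.pow_left).dvd_of_dvd_mul_left h2
      rw [pow_succ']
      exact mul_dvd_mul_left _ (ih g1 h3)

theorem Psi_eq_zero_iff (hp : Irreducible p) (h : ℕ) (g : ℚ[X]) :
    Psi p h g = 0 ↔ p ^ h ∣ g := by
  rw [pow_dvd_iff hp]
  have h1 : Psi p h g = 0 ↔ X ^ h ∣ taylor (AdjoinRoot.root p)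
      (g.map (algebraMap ℚ (AdjoinRoot p))) := by
    rw [X_pow_dvd_iff]
    constructor
    · intro h0 d hd
      exact congrFun h0 ⟨d, hd⟩
    · intro h0
      funext t
      exact h0 t t.2
  rw [h1]
  have h2 : taylor (AdjoinRoot.root p) ((X - C (AdjoinRoot.root p)) ^ h) = X ^ h := by
    rw [taylor_pow, map_sub, taylor_X, taylor_C]
    simp
  constructor
  · rintro ⟨c, hc⟩
    refine ⟨taylor (-(AdjoinRoot.root p)) c, ?_⟩
    apply taylor_injective (AdjoinRoot.root p)
    rw [taylor_mul, h2, hc, taylor_taylor]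
    simp
  · rintro ⟨c, hc⟩
    rw [hc, taylor_mul, h2]
    exact dvd_mul_right _ _

/-- `ℚ[X]/(p^h) ≃ K[y]/y^h`. -/
theorem exists_block_equiv (hp : Irreducible p) (h : ℕ) :
    ∃ φ : (ℚ[X] ⧸ (Submodule.span ℚ[X] {p ^ h})) ≃ₗ[ℚ] (Fin h → AdjoinRoot p),
      ∀ g, φ ((X : ℚ[X]) • g) = Tx (AdjoinRoot.root p) (φ g) := by
  classical
  set S : Submodule ℚ[X] ℚ[X] := Submodule.span ℚ[X] {p ^ h} with hS
  have hp0 : p ≠ 0 := hp.ne_zero
  have hle : S.restrictScalars ℚ ≤ LinearMap.ker (Psi p h) := by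
    intro g hg
    rw [LinearMap.mem_ker, Psi_eq_zero_iff hp]
    rw [Submodule.restrictScalars_mem, hS] at hg
    exact Ideal.mem_span_singleton.mp hg
  let φ0 : (ℚ[X] ⧸ S) →ₗ[ℚ] (Fin h → AdjoinRoot p) :=
    (Submodule.liftQ (S.restrictScalars ℚ) (Psi p h) hle).comp
      (Submodule.Quotient.restrictScalarsEquiv ℚ S).symm.toLinearMap
  have hφ0 : ∀ g : ℚ[X], φ0 (Submodule.Quotient.mk g) = Psi p h g := by
    intro g
    simp only [φ0, LinearMap.comp_apply, LinearEquiv.coe_coe]
    rfl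
  have hinj : Function.Injective φ0 := by
    rw [injective_iff_map_eq_zero]
    intro g
    obtain ⟨g, rfl⟩ := Submodule.Quotient.mk_surjective _ g
    intro hg
    rw [hφ0, Psi_eq_zero_iff hp] at hg
    rw [Submodule.Quotient.mk_eq_zero, hS]
    exact Ideal.mem_span_singleton.mpr hg
  have hfin1 : Module.finrank ℚ (ℚ[X] ⧸ S) = h * p.natDegree := by
    have := finrank_quotient_span_eq_natDegree (f := p ^ h)
    rw [natDegree_pow] at this
    exact this
  have : FiniteDimensional ℚ (AdjoinRoot p) := (AdjoinRoot.powerBasis hp0).finite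
  have hfin2 : Module.finrank ℚ (Fin h → AdjoinRoot p) = h * p.natDegree := by
    rw [Module.finrank_pi_fintype]
    rw [Finset.sum_const, Finset.card_univ, Fintype.card_fin, smul_eq_mul]
    congr 1
    rw [(AdjoinRoot.powerBasis hp0).finrank, AdjoinRoot.powerBasis_dim]
  have : FiniteDimensional ℚ (ℚ[X] ⧸ S) :=
    FiniteDimensional.of_injective φ0 hinj
  have hbij : Function.Bijective φ0 :=
    ⟨hinj, (LinearMap.injective_iff_surjective_of_finrank_eq_finrank (hfin1.trans hfin2.symm)).mp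
      hinj⟩
  refine ⟨LinearEquiv.ofBijective φ0 hbij, ?_⟩
  intro g
  obtain ⟨g, rfl⟩ := Submodule.Quotient.mk_surjective _ g
  rw [LinearEquiv.ofBijective_apply, LinearEquiv.ofBijective_apply, ← Submodule.Quotient.mk_smul,
    hφ0, hφ0, smul_eq_mul, Psi_X_mul]

end block

end DECStd
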