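import Pool.Agent.DEC.Std1

/-!
# DEC, module STD (2): decomposition of a `ℚ[X]`-module into standard blocks
-/

namespace DECStd

open Polynomial

theorem exists_fiber_equiv {κ ι : Type} [Fintype κ] (j : κ → ι) :
    ∃ (na : ι → ℕ) (eq : (Σ i, Fin (na i)) ≃ κ), ∀ z, j (eq z) = z.1 := by
  classical
  refine ⟨fun i => Fintype.card {b : κ // j b = i},
    (Equiv.sigmaCongrRight fun i => (Fintype.equivFin {b : κ // j b = i}).symm).trans
      (Equiv.sigmaFiberEquiv j), ?_⟩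
  intro z
  exact ((Fintype.equivFin {b : κ // j b = z.1}).symm z.2).2

theorem pi_restrict {R ι κ : Type} [Ring R] (M : ι → Type) (N : κ → Type)
    [∀ i, AddCommGroup (M i)] [∀ i, Module R (M i)] [∀ b, AddCommGroup (N b)]
    [∀ b, Module R (N b)] (σ : κ → ι) (hσ : Function.Injective σ)
    (Q : ∀ b, M (σ b) ≃ₗ[R] N b) (hsub : ∀ i, (∀ b, σ b ≠ i) → ∀ v : M i, v = 0) :
    ∃ Θ : ((i : ι) → M i) ≃ₗ[R] ((b : κ) → N b), ∀ v b, Θ v b = Q b (v (σ b)) := by
  classical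
  let Θ : ((i : ι) → M i) →ₗ[R] ((b : κ) → N b) :=
    LinearMap.pi fun b => (Q b).toLinearMap.comp (LinearMap.proj (σ b))
  have hΘe : ∀ v b, Θ v b = Q b (v (σ b)) := fun v b => rfl
  have hΘ : Function.Bijective Θ := by
    constructor
    · rw [injective_iff_map_eq_zero]
      intro v hv
      funext i
      by_cases hi : ∃ b, σ b = i
      · obtain ⟨z, rfl⟩ := hi
        have h1 := congrFun hv z
        rw [hΘe, Pi.zero_apply] at h1
        exact (LinearEquiv.map_eq_zero_iff _).mp h1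
      · exact hsub i (fun b hb => hi ⟨b, hb⟩) _
    · intro w
      have hex : ∀ i : ι, ∃ v : M i, ∀ b, ∀ hb : σ b = i, Q b (hb ▸ v) = w b := by
        intro i
        by_cases hi : ∃ b, σ b = i
        · obtain ⟨z, rfl⟩ := hi
          refine ⟨(Q z).symm (w z), ?_⟩
          intro b hb
          obtain rfl := hσ hb
          exact LinearEquiv.apply_symm_apply _ _
        · exact ⟨0, fun b hb => absurd ⟨b, hb⟩ hi⟩
      choose v hv using hex
      refine ⟨v, ?_⟩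
      funext b
      rw [hΘe]
      exact hv _ b rfl
  exact ⟨LinearEquiv.ofBijective Θ hΘ, hΘe⟩

theorem transfer_x {E : Type} [AddCommGroup E] [Module ℚ E] (x : E →ₗ[ℚ] E) {κ : Type}
    (M K : κ → Type) [∀ b, AddCommGroup (M b)] [∀ b, Module ℚ (M b)] [∀ b, Module ℚ[X] (M b)]
    [∀ b, IsScalarTower ℚ ℚ[X] (M b)] [∀ b, AddCommGroup (K b)] [∀ b, Module ℚ (K b)]
    (Φ : Module.AEval' x ≃ₗ[ℚ[X]] ((b : κ) → M b)) (φ : ∀ b, M b ≃ₗ[ℚ] K b)
    (T : ∀ b, K b → K b) (hφ : ∀ b g, φ b ((X : ℚ[X]) • g) = T b (φ b g)) :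
    ∃ ψ : ((b : κ) → K b) ≃ₗ[ℚ] E, ∀ v, ψ (fun b => T b (v b)) = x (ψ v) := by
  let F : E ≃ₗ[ℚ] ((b : κ) → K b) :=
    (Module.AEval'.of x).trans ((Φ.restrictScalars ℚ).trans (LinearEquiv.piCongrRight φ))
  have hF : ∀ v b, F v b = φ b (Φ (Module.AEval'.of x v) b) := fun v b => rfl
  refine ⟨F.symm, ?_⟩
  intro v
  rw [LinearEquiv.symm_apply_eq]
  funext b
  have h1 : Module.AEval'.of x (x (F.symm v)) = (X : ℚ[X]) • Module.AEval'.of x (F.symm v) :=
    (Module.AEval'.X_smul_of x _).symm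
  rw [hF, h1, map_smul, Pi.smul_apply, hφ, ← hF, LinearEquiv.apply_symm_apply]

theorem exists_decomp {E : Type} [AddCommGroup E] [Module ℚ E] [FiniteDimensional ℚ E]
    (x : E →ₗ[ℚ] E) {ι : Type} [Fintype ι] (p : ι → ℚ[X]) (hirr : ∀ i, Irreducible (p i))
    (m : ℕ) (hkill : aeval x ((∏ i, p i) ^ m) = 0) :
    ∃ (na : ι → ℕ) (lam : (Σ i, Fin (na i)) → ℕ)
      (_ : ∀ b, 0 < lam b)
      (ψ : ((b : Σ i, Fin (na i)) → Fin (lam b) → AdjoinRoot (p b.1)) ≃ₗ[ℚ] E),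
      ∀ v, ψ (fun b => Tx (AdjoinRoot.root (p b.1)) (v b)) = x (ψ v) := by
  classical
  let N := Module.AEval' x
  set g : ℚ[X] := (∏ i, p i) ^ m with hg
  have hg0 : g ≠ 0 := pow_ne_zero _ (Finset.prod_ne_zero_iff.mpr fun i _ => (hirr i).ne_zero)
  have hkillN : ∀ z : N, g • z = 0 := by
    intro z
    have h1 : (Module.AEval'.of x).symm (g • z) = 0 := by
      rw [Module.AEval.of_symm_smul, hkill, zero_smul]
    exact (LinearEquiv.map_eq_zero_iff _).mp h1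
  have htor : Module.IsTorsion ℚ[X] N := by
    intro z
    exact ⟨⟨g, mem_nonZeroDivisors_of_ne_zero hg0⟩, hkillN z⟩
  obtain ⟨ι', hι', p', hp', e, ⟨Φ⟩⟩ := Module.equiv_directSum_of_isTorsion htor
  let Φ1 : N ≃ₗ[ℚ[X]] ((i : ι') → (ℚ[X] ⧸ (Submodule.span ℚ[X] {p' i ^ e i}))) :=
    Φ.trans (DirectSum.linearEquivFunOnFintype ℚ[X] ι' _)
  -- the powers divide `g`
  have hdvd : ∀ i, p' i ^ e i ∣ g := by
    intro i
    have h1 : g • (Submodule.Quotient.mk (1 : ℚ[X]) :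
        ℚ[X] ⧸ (Submodule.span ℚ[X] {p' i ^ e i})) = 0 := by
      have h2 := hkillN (Φ1.symm (Pi.single i (Submodule.Quotient.mk (1 : ℚ[X]))))
      have h3 := congrArg Φ1 h2
      rw [map_smul, LinearEquiv.apply_symm_apply, map_zero] at h3
      have h4 := congrFun h3 i
      rw [Pi.smul_apply, Pi.single_eq_same] at h4
      exact h4
    rw [← Submodule.Quotient.mk_smul, Submodule.Quotient.mk_eq_zero, smul_eq_mul, mul_one] at h1
    exact Ideal.mem_span_singleton.mp h1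
  have hassoc : ∀ i, 0 < e i → ∃ j : ι, Associated (p' i) (p j) := by
    intro i hi
    have h1 : p' i ∣ g := dvd_trans (dvd_pow_self _ hi.ne') (hdvd i)
    have hpr := (hp' i).prime
    have h2 : p' i ∣ ∏ j, p j := hpr.dvd_of_dvd_pow h1
    obtain ⟨j, -, hj⟩ := (hpr.dvd_finsetProd_iff _).mp h2
    exact ⟨j, (hp' i).associated_of_dvd (hirr j) hj⟩
  let κ0 := {i : ι' // 0 < e i}
  choose jx hjx using hassoc
  let jx0 : κ0 → ι := fun b => jx b.1 b.2
  obtain ⟨na, eq, heq⟩ := exists_fiber_equiv jx0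
  let lam : (Σ i, Fin (na i)) → ℕ := fun b => e (eq b).1
  have hspan : ∀ b : Σ i, Fin (na i),
      (Submodule.span ℚ[X] {p' (eq b).1 ^ e (eq b).1} : Submodule ℚ[X] ℚ[X]) =
      Submodule.span ℚ[X] {p b.1 ^ lam b} := by
    intro b
    have h1 := hjx (eq b).1 (eq b).2
    have h2 : jx (eq b).1 (eq b).2 = b.1 := heq b
    rw [h2] at h1
    exact Ideal.span_singleton_eq_span_singleton.mpr (h1.pow_pow)
  let Q1 : (b : Σ i, Fin (na i)) → (ℚ[X] ⧸ (Submodule.span ℚ[X] {p' (eq b).1 ^ e (eq b).1})) ≃ₗ[ℚ[X]]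
      (ℚ[X] ⧸ (Submodule.span ℚ[X] {p b.1 ^ lam b})) := fun b =>
    Submodule.quotEquivOfEq _ _ (hspan b)
  obtain ⟨Θ, hΘ⟩ := pi_restrict (R := ℚ[X]) (fun i => ℚ[X] ⧸ (Submodule.span ℚ[X] {p' i ^ e i}))
    (fun b : (Σ i, Fin (na i)) => ℚ[X] ⧸ (Submodule.span ℚ[X] {p b.1 ^ lam b}))
    (fun b => (eq b).1) (fun b b' h => eq.injective (Subtype.ext h)) Q1 (by
      intro i hi v
      have he : e i = 0 := by
        by_contra h0
        obtain ⟨z, hz⟩ := eq.surjective ⟨i, Nat.pos_of_ne_zero h0⟩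
        exact hi z (by rw [hz])
      obtain ⟨w, hw⟩ := Submodule.Quotient.mk_surjective _ v
      rw [← hw, Submodule.Quotient.mk_eq_zero, he, pow_zero]
      exact Ideal.mem_span_singleton.mpr (one_dvd _))
  choose φ hφ using fun b : (Σ i, Fin (na i)) => exists_block_equiv (hirr b.1) (lam b)
  obtain ⟨ψ, hψ⟩ := transfer_x x
    (fun b : (Σ i, Fin (na i)) => ℚ[X] ⧸ (Submodule.span ℚ[X] {p b.1 ^ lam b}))
    (fun b : (Σ i, Fin (na i)) => Fin (lam b) → AdjoinRoot (p b.1)) (Φ1.trans Θ) φ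
    (fun b v => Tx (AdjoinRoot.root (p b.1)) v) hφ
  exact ⟨na, lam, fun b => (eq b).2, ψ, hψ⟩

end DECStd
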