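import Mathlib

/-!
# DEC, module STD (3): the common list of irreducible factors and the eventual range
-/

set_option autoImplicit false

namespace DECStd

open Polynomial

theorem prod_dvd_pow {R : Type*} [CommMonoidWithZero R] (M : Multiset R) (c : R)
    (h : ∀ q ∈ M, q ∣ c) : M.prod ∣ c ^ (Multiset.card M) := by
  induction M using Multiset.induction_on with
  | empty => simp
  | cons a s ih =>
    rw [Multiset.prod_cons, Multiset.card_cons, pow_succ, mul_comm a]
    exact mul_dvd_mul (ih fun q hq => h q (Multiset.mem_cons_of_mem hq))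
      (h a (Multiset.mem_cons_self a s))

theorem normFactor_monic {P : ℤ[X]} (hP : P.Monic) {q : ℤ[X]}
    (hq : q ∈ UniqueFactorizationMonoid.normalizedFactors P) : q.Monic := by
  have h1 : q ∣ P := UniqueFactorizationMonoid.dvd_of_mem_normalizedFactors hq
  have h2 : normalize q = q := UniqueFactorizationMonoid.normalize_normalized_factor q hq
  obtain ⟨c, hc⟩ := h1
  have h3 : q.leadingCoeff * c.leadingCoeff = 1 := by
    rw [← leadingCoeff_mul, ← hc]
    exact hP
  have h4 : IsUnit q.leadingCoeff := IsUnit.of_mul_eq_one _ h3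
  have h5 : q.leadingCoeff = normalize q.leadingCoeff := by
    conv_lhs => rw [← h2]
    exact leadingCoeff_normalize q
  unfold Monic
  rw [h5]
  exact normalize_eq_one.mpr h4

theorem monic_irr_natDegree_pos {q : ℤ[X]} (hm : q.Monic) (hi : Irreducible q) :
    0 < q.natDegree := by
  rcases Nat.eq_zero_or_pos q.natDegree with h | h
  · exact absurd ((Polynomial.Monic.natDegree_eq_zero hm).mp h ▸ isUnit_one) hi.not_isUnit
  · exact h

theorem card_le_natDegree (M : Multiset ℤ[X]) (hM : ∀ q ∈ M, q.Monic ∧ 0 < q.natDegree) :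
    Multiset.card M ≤ M.prod.natDegree ∧ M.prod.Monic := by
  induction M using Multiset.induction_on with
  | empty => simp
  | cons a s ih =>
    obtain ⟨h1, h2⟩ := ih fun q hq => hM q (Multiset.mem_cons_of_mem hq)
    obtain ⟨h3, h4⟩ := hM a (Multiset.mem_cons_self a s)
    rw [Multiset.prod_cons, Multiset.card_cons, h3.natDegree_mul h2]
    exact ⟨by omega, h3.mul h2⟩

/-- the irreducible factors different from `X` of a monic integral polynomial -/
theorem exists_factors (g : ℤ[X]) (hg : g.Monic) :
    ∃ (f : ℕ) (p : Fin f → ℤ[X]), (∀ i, (p i).Monic) ∧ (∀ i, Irreducible (p i)) ∧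
      Function.Injective p ∧ (∀ i, (p i).coeff 0 ≠ 0) ∧
      ∀ h : ℤ[X], h.Monic → h ∣ g → h ∣ X ^ h.natDegree * (∏ i, p i) ^ h.natDegree := by
  classical
  let M : Multiset ℤ[X] := UniqueFactorizationMonoid.normalizedFactors g
  have hmon : ∀ q ∈ M, q.Monic := fun q hq => normFactor_monic hg hq
  have hirr : ∀ q ∈ M, Irreducible q := fun q hq =>
    UniqueFactorizationMonoid.irreducible_of_normalized_factor q hq
  let s : Finset ℤ[X] := M.toFinset.erase X
  let e := s.equivFin
  refine ⟨s.card, fun i => (e.symm i : ℤ[X]), ?_, ?_, ?_, ?_, ?_⟩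
  · intro i
    have := (e.symm i).2
    exact hmon _ (Multiset.mem_toFinset.mp (Finset.mem_of_mem_erase this))
  · intro i
    have := (e.symm i).2
    exact hirr _ (Multiset.mem_toFinset.mp (Finset.mem_of_mem_erase this))
  · intro i j hij
    exact e.symm.injective (Subtype.ext hij)
  · intro i h0
    have hm := (e.symm i).2
    have hM := Multiset.mem_toFinset.mp (Finset.mem_of_mem_erase hm)
    have h1 : (X : ℤ[X]) ∣ (e.symm i : ℤ[X]) := X_dvd_iff.mpr h0
    have h2 : Associated (X : ℤ[X]) (e.symm i : ℤ[X]) :=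
      (irreducible_X).associated_of_dvd (hirr _ hM) h1
    have h3 : (X : ℤ[X]) = (e.symm i : ℤ[X]) :=
      eq_of_monic_of_associated monic_X (hmon _ hM) h2
    exact (Finset.ne_of_mem_erase hm) h3.symm
  · intro h hh hhg
    have hprod : (∏ i : Fin s.card, (e.symm i : ℤ[X])) = ∏ q ∈ s, q := by
      rw [Fintype.prod_equiv e.symm (fun i => (e.symm i : ℤ[X])) (fun q : s => (q : ℤ[X]))
        (fun i => rfl)]
      exact Finset.prod_coe_sort s (fun q => q)
    let N : Multiset ℤ[X] := UniqueFactorizationMonoid.normalizedFactors h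
    have hNmon : ∀ q ∈ N, q.Monic := fun q hq => normFactor_monic hh hq
    have hNirr : ∀ q ∈ N, Irreducible q := fun q hq =>
      UniqueFactorizationMonoid.irreducible_of_normalized_factor q hq
    have hNM : ∀ q ∈ N, q ∈ M := by
      intro q hq
      have := (UniqueFactorizationMonoid.dvd_iff_normalizedFactors_le_normalizedFactors
        hh.ne_zero hg.ne_zero).mp hhg
      exact Multiset.mem_of_le this hq
    obtain ⟨hc1, hc2⟩ := card_le_natDegree N
      fun q hq => ⟨hNmon q hq, monic_irr_natDegree_pos (hNmon q hq) (hNirr q hq)⟩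
    have hNh : N.prod = h := eq_of_monic_of_associated hc2 hh
      (UniqueFactorizationMonoid.prod_normalizedFactors hh.ne_zero)
    rw [hprod, ← mul_pow]
    have h1 : N.prod ∣ (X * ∏ q ∈ s, q) ^ Multiset.card N := by
      refine prod_dvd_pow N _ fun q hq => ?_
      by_cases hX : q = X
      · rw [hX]; exact Dvd.intro _ rfl
      · refine dvd_mul_of_dvd_right (Finset.dvd_prod_of_mem (fun q => q) ?_) _
        exact Finset.mem_erase.mpr ⟨hX, Multiset.mem_toFinset.mpr (hNM q hq)⟩
    rw [hNh] at h1 hc1
    exact h1.trans (pow_dvd_pow _ hc1)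

/-- irreducible monic integral polynomials stay irreducible over `ℚ` -/
theorem irreducible_map {p : ℤ[X]} (hm : p.Monic) (hi : Irreducible p) :
    Irreducible (p.map (Int.castRingHom ℚ)) :=
  (hm.irreducible_iff_irreducible_map_fraction_map (K := ℚ)).mp hi

/-- distinct integral polynomials are distinct over `ℚ` -/
theorem map_injective_fam {f : ℕ} {p : Fin f → ℤ[X]} (hp : Function.Injective p) :
    Function.Injective fun i => (p i).map (Int.castRingHom ℚ) := by
  intro i j hij
  exact hp (Polynomial.map_injective _ (RingHom.injective_int (Int.castRingHom ℚ)) hij)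

/-- Fitting: on a space on which `x` is injective, a factor `X ^ m` of an annihilating
polynomial can be cancelled. -/
theorem aeval_eq_zero_of_mul {E : Type*} [AddCommGroup E] [Module ℚ E] (x : E →ₗ[ℚ] E)
    (hx : Function.Injective x) (m : ℕ) (G : ℚ[X]) (h : aeval x (X ^ m * G) = 0) :
    aeval x G = 0 := by
  ext v
  have h1 := LinearMap.congr_fun h v
  rw [map_mul, map_pow, aeval_X, Module.End.mul_apply, LinearMap.zero_apply] at h1
  have h2 : Function.Injective (x ^ m : E →ₗ[ℚ] E) := by
    rw [Module.End.coe_pow]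
    exact hx.iterate m
  have h3 : (x ^ m : E →ₗ[ℚ] E) (aeval x G v) = (x ^ m : E →ₗ[ℚ] E) 0 := by
    rw [h1, map_zero]
  rw [LinearMap.zero_apply]
  exact h2 h3

end DECStd
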