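import Mathlib

/-!
# DEC, module STD (3): clearing denominators
-/

namespace DECStd

open Matrix

theorem exists_clear {m n : Type} [Fintype m] [Fintype n] (M : Matrix m n ℚ) :
    ∃ k : ℕ, 0 < k ∧ ∃ M' : Matrix m n ℤ, M'.map (Int.castRingHom ℚ) = (k : ℚ) • M := by
  classical
  obtain ⟨b, hb⟩ := IsLocalization.exist_integer_multiples_of_finset (nonZeroDivisors ℤ)
    (Finset.univ.image fun ij : m × n => M ij.1 ij.2)
  have hb0 : (b : ℤ) ≠ 0 := nonZeroDivisors.coe_ne_zero b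
  have hk : 0 < (b : ℤ).natAbs := Int.natAbs_pos.mpr hb0
  refine ⟨(b : ℤ).natAbs, hk, ?_⟩
  have h1 : ∀ i j, ∃ z : ℤ, (z : ℚ) = (((b : ℤ).natAbs : ℕ) : ℚ) * M i j := by
    intro i j
    obtain ⟨z, hz⟩ := hb (M i j) (Finset.mem_image.mpr ⟨(i, j), Finset.mem_univ _, rfl⟩)
    have hz' : (z : ℚ) = ((b : ℤ) : ℚ) * M i j := by
      have h2 : ((b : ℤ) • (M i j : ℚ)) = ((b : ℤ) : ℚ) * M i j := zsmul_eq_mul _ _
      rw [← h2]
      exact hz
    rcases Int.natAbs_eq (b : ℤ) with h | h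
    · refine ⟨z, ?_⟩
      have h2 : ((b : ℤ) : ℚ) = ((((b : ℤ).natAbs : ℕ) : ℤ) : ℚ) := congrArg _ h
      rw [hz', h2, Int.cast_natCast]
    · refine ⟨-z, ?_⟩
      have h2 : ((b : ℤ) : ℚ) = ((-(((b : ℤ).natAbs : ℕ) : ℤ) : ℤ) : ℚ) := congrArg _ h
      rw [Int.cast_neg, hz', h2, Int.cast_neg, Int.cast_natCast]
      ring
  choose M' hM' using h1
  refine ⟨M', ?_⟩
  ext i j
  exact hM' i j

theorem smul_map_cast {m n : Type} (z : ℤ) (M : Matrix m n ℤ) :
    (z • M).map (Int.castRingHom ℚ) = (z : ℚ) • (M.map (Int.castRingHom ℚ)) := by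
  ext i j
  simp only [Matrix.map_apply, Matrix.smul_apply, smul_eq_mul, map_mul]
  rfl

/-- From a rational standard form to an integral one. -/
theorem exists_matform {ν σ : Type} [Fintype ν] [DecidableEq ν] [Fintype σ] [DecidableEq σ]
    (A : Matrix ν ν ℤ) (J : Matrix σ σ ℤ) (N : ℕ)
    (Q : (σ → ℚ) →ₗ[ℚ] (ν → ℚ)) (hinj : Function.Injective Q)
    (hQ : ∀ v, Q ((J.map (Int.castRingHom ℚ)) *ᵥ v) = (A.map (Int.castRingHom ℚ)) *ᵥ (Q v))
    (hran : ∀ v : ν → ℚ, ∃ w, Q w = ((A.map (Int.castRingHom ℚ)) ^ N) *ᵥ v) :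
    ∃ P : Matrix ν σ ℤ, A * P = P * J ∧ ∃ n0 : ℕ, 0 < n0 ∧ ∀ n : ℕ, n0 ∣ n →
      (∃ P' : Matrix σ ν ℤ, P' * P = (n : ℤ) • (1 : Matrix σ σ ℤ)) ∧
      ∃ P'' : Matrix σ ν ℤ, P * P'' = (n : ℤ) • A ^ N := by
  classical
  set c : ℤ →+* ℚ := Int.castRingHom ℚ with hc
  have hcinj : Function.Injective c := Int.cast_injective
  have hminj : ∀ {m n : Type} {M M' : Matrix m n ℤ}, M.map c = M'.map c → M = M' := by
    intro m n M M' h
    ext i j
    exact hcinj (congrFun (congrFun h i) j)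
  obtain ⟨L, hL⟩ := LinearMap.exists_leftInverse_of_injective Q (LinearMap.ker_eq_bot.mpr hinj)
  set PQ := LinearMap.toMatrix' Q with hPQ
  set LQ := LinearMap.toMatrix' L with hLQ
  have h1 : LQ * PQ = 1 := by
    rw [hLQ, hPQ, ← LinearMap.toMatrix'_comp, hL, LinearMap.toMatrix'_id]
  have hmul : ∀ v, PQ *ᵥ v = Q v := fun v => LinearMap.toMatrix'_mulVec Q v
  have h2 : (A.map c) * PQ = PQ * (J.map c) := by
    apply Matrix.toLin'.injective
    apply LinearMap.ext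
    intro v
    rw [Matrix.toLin'_apply, Matrix.toLin'_apply, ← Matrix.mulVec_mulVec, ← Matrix.mulVec_mulVec,
      hmul, hmul, hQ]
  have h3 : PQ * (LQ * (A.map c) ^ N) = (A.map c) ^ N := by
    apply Matrix.toLin'.injective
    apply LinearMap.ext
    intro v
    rw [Matrix.toLin'_apply, Matrix.toLin'_apply, ← Matrix.mulVec_mulVec, ← Matrix.mulVec_mulVec,
      hmul]
    obtain ⟨w, hw⟩ := hran v
    rw [← hw, hLQ, LinearMap.toMatrix'_mulVec]
    congr 1
    exact LinearMap.congr_fun hL w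
  obtain ⟨k1, hk1, P, hP⟩ := exists_clear PQ
  obtain ⟨k2, hk2, L1, hL1⟩ := exists_clear LQ
  obtain ⟨k3, hk3, L3, hL3⟩ := exists_clear (LQ * (A.map c) ^ N)
  refine ⟨P, ?_, k1 * k2 * k3, by positivity, ?_⟩
  · apply hminj
    rw [Matrix.map_mul, Matrix.map_mul, hP, Matrix.mul_smul, h2, Matrix.smul_mul]
  · rintro n ⟨t, rfl⟩
    constructor
    · refine ⟨((k3 * t : ℕ) : ℤ) • L1, ?_⟩
      apply hminj
      rw [Matrix.map_mul, hP]
      have e2 : (1 : Matrix σ σ ℤ).map c = 1 := by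
        rw [← RingHom.mapMatrix_apply c, map_one]
      rw [smul_map_cast, smul_map_cast, e2, hL1, Matrix.smul_mul, Matrix.smul_mul, Matrix.mul_smul, h1, smul_smul, smul_smul]
      congr 1
      push_cast
      ring
    · refine ⟨((k2 * t : ℕ) : ℤ) • L3, ?_⟩
      apply hminj
      rw [Matrix.map_mul, hP]
      have e2 : (A ^ N).map c = (A.map c) ^ N := by
        rw [← RingHom.mapMatrix_apply c, map_pow]
        rfl
      rw [smul_map_cast, smul_map_cast, e2, hL3, Matrix.smul_mul, Matrix.mul_smul, Matrix.mul_smul, h3, smul_smul, smul_smul]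
      congr 1
      push_cast
      ring

end DECStd
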