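import Pool.Agent.DEC.Std1

/-!
# DEC, module STD (4): integral coordinates on the standard blocks

`compM p` is the companion matrix (column `s` = coordinates of `θ ^ (s + 1)`).
-/

namespace DECStd

open Polynomial

/-- Entries of the companion matrix. -/
def compE (p : ℤ[X]) (s' s : ℕ) : ℤ :=
  if s + 1 < p.natDegree then (if s' = s + 1 then 1 else 0) else - p.coeff s'

/-- The companion matrix: column `s` holds the coordinates of `θ ^ (s + 1)`. -/
def compM (p : ℤ[X]) : Matrix (Fin p.natDegree) (Fin p.natDegree) ℤ :=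
  Matrix.of fun s' s => compE p s' s

section

variable {K : Type} [CommRing K] (p : ℤ[X]) (hp : p.Monic) (θ : K)
  (hθ : aeval θ p = 0)

include hp hθ in
theorem comp_root (s : Fin p.natDegree) :
    θ ^ ((s : ℕ) + 1) = ∑ s' : Fin p.natDegree, ((compE p s' s : ℤ) : K) * θ ^ (s' : ℕ) := by
  have hs := s.2
  by_cases h : (s : ℕ) + 1 < p.natDegree
  · rw [Finset.sum_eq_single (⟨(s : ℕ) + 1, h⟩ : Fin p.natDegree)]
    · simp [compE, h]
    · intro s' _ hne
      have hne' : (s' : ℕ) ≠ s + 1 := fun h0 => hne (Fin.ext h0)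
      simp [compE, h, hne']
    · intro h0
      exact absurd (Finset.mem_univ _) h0
  · have hd : (s : ℕ) + 1 = p.natDegree := by omega
    have h1 : aeval θ p = θ ^ p.natDegree +
        ∑ i ∈ Finset.range p.natDegree, ((p.coeff i : ℤ) : K) * θ ^ i := by
      conv_lhs => rw [hp.as_sum]
      simp [map_add, map_sum]
    rw [hθ] at h1
    rw [hd]
    have h2 : θ ^ p.natDegree = - ∑ i ∈ Finset.range p.natDegree, ((p.coeff i : ℤ) : K) * θ ^ i := by
      rw [eq_neg_iff_add_eq_zero]
      exact h1.symm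
    rw [h2, ← Fin.sum_univ_eq_sum_range (fun i => ((p.coeff i : ℤ) : K) * θ ^ i),
      ← Finset.sum_neg_distrib]
    refine Finset.sum_congr rfl fun s' _ => ?_
    simp [compE, h]

include hp hθ in
theorem comp_mul [Algebra ℚ K] (w : Fin p.natDegree → ℚ) :
    θ * ∑ s : Fin p.natDegree, w s • θ ^ (s : ℕ) =
      ∑ s : Fin p.natDegree,
        (((compM p).map (Int.castRingHom ℚ)).mulVec w) s • θ ^ (s : ℕ) := by
  rw [Finset.mul_sum]
  have h1 : ∀ s : Fin p.natDegree, θ * (w s • θ ^ (s : ℕ)) =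
      ∑ s' : Fin p.natDegree, (((compE p s' s : ℤ) : ℚ) * w s) • θ ^ (s' : ℕ) := by
    intro s
    rw [mul_smul_comm, ← pow_succ', comp_root p hp θ hθ s, Finset.smul_sum]
    refine Finset.sum_congr rfl fun s' _ => ?_
    rw [Algebra.smul_def, Algebra.smul_def, map_mul, map_intCast]
    ring
  simp_rw [h1]
  rw [Finset.sum_comm]
  refine Finset.sum_congr rfl fun s' _ => ?_
  rw [← Finset.sum_smul]
  rfl

end

/-- The coordinates `w ↦ ∑ w_s θ^s`. -/
theorem exists_coord (p : ℤ[X]) (hp : p.Monic) :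
    ∃ φ : (Fin p.natDegree → ℚ) ≃ₗ[ℚ] AdjoinRoot (p.map (Int.castRingHom ℚ)),
      (∀ w, φ w = ∑ s, w s • (AdjoinRoot.root (p.map (Int.castRingHom ℚ))) ^ (s : ℕ)) ∧
      ∀ w, φ (((compM p).map (Int.castRingHom ℚ)).mulVec w) =
        AdjoinRoot.root (p.map (Int.castRingHom ℚ)) * φ w := by
  set q := p.map (Int.castRingHom ℚ) with hq
  have hqm : q.Monic := hp.map _
  have hdeg : q.natDegree = p.natDegree := by
    rw [hq, natDegree_map_eq_of_injective (Int.castRingHom ℚ).injective_int]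
  let pb := AdjoinRoot.powerBasis' hqm
  have hdim : pb.dim = p.natDegree := hdeg
  let φ : (Fin p.natDegree → ℚ) ≃ₗ[ℚ] AdjoinRoot q :=
    (pb.basis.reindex (finCongr hdim)).equivFun.symm
  have hφ : ∀ w, φ w = ∑ s, w s • (AdjoinRoot.root q) ^ (s : ℕ) := by
    intro w
    rw [Module.Basis.equivFun_symm_apply]
    refine Finset.sum_congr rfl fun s _ => ?_
    congr 1
    rw [Module.Basis.reindex_apply, PowerBasis.coe_basis]
    rfl
  refine ⟨φ, hφ, ?_⟩
  intro w
  have hroot : aeval (AdjoinRoot.root q) p = 0 := by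
    have h1 : aeval (AdjoinRoot.root q) q = 0 := by
      rw [AdjoinRoot.aeval_eq, AdjoinRoot.mk_self]
    have h2 := aeval_map_algebraMap ℚ (AdjoinRoot.root q) p
    rw [← h2]
    exact h1
  rw [hφ, hφ]
  exact (comp_mul p hp (AdjoinRoot.root q) hroot w).symm

end DECStd
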