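import Pool.Agent.DEC.Std2
import Pool.Agent.DEC.Std3m
import Pool.Agent.DEC.Std4

/-!
# DEC, module STD (5): the standard form of an integral matrix

Blocks `b : κ` with label `ix b : ι`, height `lam b`; coordinates `(b, t, s)` stand for
`θ ^ s y ^ t e_b`; `stdJ` is the matrix of `x = θ + y`.
-/

namespace DECStd

open Polynomial Matrix

/-- Coordinates of the standard module. -/
abbrev SIx {ι κ : Type} (p : ι → ℤ[X]) (ix : κ → ι) (lam : κ → ℕ) : Type :=
  Σ b : κ, Fin (lam b) × Fin (p (ix b)).natDegree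

/-- The matrix of `x = θ + y` in the basis `θ ^ s y ^ t e_b`. -/
def stdJ {ι κ : Type} [DecidableEq κ] (p : ι → ℤ[X]) (ix : κ → ι) (lam : κ → ℕ) :
    Matrix (SIx p ix lam) (SIx p ix lam) ℤ := Matrix.of fun x y =>
  if x.1 = y.1 then
    (if (x.2.1 : ℕ) = y.2.1 then compE (p (ix y.1)) x.2.2 y.2.2 else 0) +
      (if (x.2.1 : ℕ) = y.2.1 + 1 ∧ (x.2.2 : ℕ) = y.2.2 then 1 else 0)
  else 0

theorem stdJ_mulVec {R ι κ : Type} [CommRing R] [Fintype κ] [DecidableEq κ] (p : ι → ℤ[X])
    (ix : κ → ι) (lam : κ → ℕ) (w : SIx p ix lam → R) (b : κ) (t : Fin (lam b))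
    (s : Fin (p (ix b)).natDegree) :
    (((stdJ p ix lam).map (Int.castRingHom R)) *ᵥ w) ⟨b, t, s⟩ =
        (((compM (p (ix b))).map (Int.castRingHom R)) *ᵥ (fun s => w ⟨b, t, s⟩)) s +
          (if ht : (t : ℕ) = 0 then 0 else w ⟨b, ⟨(t : ℕ) - 1, by omega⟩, s⟩) := by
  have h1 : (((stdJ p ix lam).map (Int.castRingHom R)) *ᵥ w) ⟨b, t, s⟩ =
      ∑ y : SIx p ix lam, ((stdJ p ix lam ⟨b, t, s⟩ y : ℤ) : R) * w y := rfl
  have h2 : ∀ y : SIx p ix lam, ((stdJ p ix lam ⟨b, t, s⟩ y : ℤ) : R) * w y =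
      (if b = y.1 then ((if (t : ℕ) = y.2.1 then
        ((compE (p (ix y.1)) s y.2.2 : ℤ) : R) * w y else 0) +
        (if (t : ℕ) = y.2.1 + 1 ∧ (s : ℕ) = y.2.2 then w y else 0)) else 0) := by
    intro y
    simp only [stdJ, Matrix.of_apply]
    split_ifs <;> simp [add_mul]
  rw [h1]
  simp_rw [h2]
  rw [Fintype.sum_sigma, Finset.sum_eq_single b]
  · simp only [if_true]
    rw [Fintype.sum_prod_type]
    simp only [Finset.sum_add_distrib]
    congr 1
    · rw [Finset.sum_eq_single t]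
      · simp only [if_true]
        rfl
      · intro t' _ ht'
        have : (t : ℕ) ≠ t' := fun h => ht' (Fin.ext h.symm)
        simp [this]
      · intro h
        exact absurd (Finset.mem_univ _) h
    · by_cases ht : (t : ℕ) = 0
      · rw [dif_pos ht]
        apply Finset.sum_eq_zero
        intro t' _
        apply Finset.sum_eq_zero
        intro s' _
        rw [if_neg]
        rintro ⟨h, -⟩
        omega
      · rw [dif_neg ht, Finset.sum_eq_single ⟨(t : ℕ) - 1, by omega⟩,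
          Finset.sum_eq_single s]
        · rw [if_pos]
          refine ⟨?_, rfl⟩
          show (t : ℕ) = (t : ℕ) - 1 + 1
          omega
        · intro s' _ hs'
          rw [if_neg]
          rintro ⟨-, h⟩
          exact hs' (Fin.ext h.symm)
        · intro h
          exact absurd (Finset.mem_univ _) h
        · intro t' _ ht'
          apply Finset.sum_eq_zero
          intro s' _
          rw [if_neg]
          rintro ⟨h, -⟩
          apply ht'
          apply Fin.ext
          show (t' : ℕ) = (t : ℕ) - 1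
          omega
        · intro h
          exact absurd (Finset.mem_univ _) h
  · intro b' _ hb'
    apply Finset.sum_eq_zero
    intro y _
    rw [if_neg (fun h => hb' h.symm)]
  · intro h
    exact absurd (Finset.mem_univ _) h

theorem exists_coord_V {ι κ : Type} [Fintype κ] [DecidableEq κ] (p : ι → ℤ[X])
    (hp : ∀ i, (p i).Monic) (ix : κ → ι) (lam : κ → ℕ) :
    ∃ Φ : (SIx p ix lam → ℚ) ≃ₗ[ℚ]
        ((b : κ) → Fin (lam b) → AdjoinRoot ((p (ix b)).map (Int.castRingHom ℚ))),
      (∀ w b t, Φ w b t = ∑ s : Fin (p (ix b)).natDegree,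
        w ⟨b, t, s⟩ • (AdjoinRoot.root ((p (ix b)).map (Int.castRingHom ℚ))) ^ (s : ℕ)) ∧
      ∀ w, Φ (((stdJ p ix lam).map (Int.castRingHom ℚ)) *ᵥ w) =
        fun b => Tx (AdjoinRoot.root ((p (ix b)).map (Int.castRingHom ℚ))) (Φ w b) := by
  classical
  choose φ hφ hφx using fun i => exists_coord (p i) (hp i)
  let e1 : (SIx p ix lam → ℚ) ≃ₗ[ℚ] ((b : κ) → Fin (lam b) → Fin (p (ix b)).natDegree → ℚ) :=
    { toFun := fun w b t s => w ⟨b, t, s⟩
      invFun := fun v x => v x.1 x.2.1 x.2.2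
      map_add' := fun _ _ => rfl
      map_smul' := fun _ _ => rfl
      left_inv := fun _ => rfl
      right_inv := fun _ => rfl }
  let Φ := e1.trans (LinearEquiv.piCongrRight fun b => LinearEquiv.piCongrRight fun _ : Fin (lam b) =>
    φ (ix b))
  have hΦ : ∀ w b t, Φ w b t = φ (ix b) (fun s => w ⟨b, t, s⟩) := fun _ _ _ => rfl
  refine ⟨Φ, ?_, ?_⟩
  · intro w b t
    rw [hΦ, hφ]
  · intro w
    funext b t
    have hJ := fun s => stdJ_mulVec p ix lam w b t s
    rw [hΦ]
    simp only [hJ]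
    show φ (ix b) ((((compM (p (ix b))).map (Int.castRingHom ℚ)) *ᵥ (fun s => w ⟨b, t, s⟩)) +
      fun s => (if ht : (t : ℕ) = 0 then 0 else w ⟨b, ⟨(t : ℕ) - 1, by omega⟩, s⟩)) = _
    rw [map_add, hφx]
    simp only [Tx]
    congr 1
    by_cases ht : (t : ℕ) = 0
    · simp only [ht, dif_pos]
      exact map_zero _
    · simp only [ht, dif_neg, not_false_eq_true]
      rfl

end DECStd
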