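import Pool.Agent.DEC.Std5

/-!
# DEC, module STD (6): existence of the integral standard form
-/

namespace DECStd

open Polynomial Matrix

/-- **Existence of the standard form** of `A` on the range of `A ^ N`. -/
theorem exists_std {ν ι : Type} [Fintype ν] [DecidableEq ν] [Fintype ι]
    [DecidableEq ι] (A : Matrix ν ν ℤ) (N : ℕ)
    (p : ι → ℤ[X]) (hp : ∀ i, (p i).Monic)
    (hirr : ∀ i, Irreducible ((p i).map (Int.castRingHom ℚ))) (m : ℕ)
    (hkill : aeval A ((∏ i, p i) ^ m) * A ^ N = 0) :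
    ∃ (na : ι → ℕ) (lam : (Σ i, Fin (na i)) → ℕ)
      (_ : ∀ b, 0 < lam b) (P : Matrix ν (SIx p Sigma.fst lam) ℤ),
      A * P = P * stdJ p Sigma.fst lam ∧ ∃ n0 : ℕ, 0 < n0 ∧ ∀ n : ℕ, n0 ∣ n →
        (∃ P' : Matrix (SIx p Sigma.fst lam) ν ℤ, P' * P = (n : ℤ) • 1) ∧
        ∃ P'' : Matrix (SIx p Sigma.fst lam) ν ℤ, P * P'' = (n : ℤ) • A ^ N := by
  classical
  set c : ℤ →+* ℚ := Int.castRingHom ℚ with hc
  set AQ : Matrix ν ν ℚ := A.map c with hAQ
  let E : Submodule ℚ (ν → ℚ) := LinearMap.range (Matrix.mulVecLin (AQ ^ N))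
  have hEst : ∀ v ∈ E, (Matrix.mulVecLin AQ) v ∈ E := by
    rintro _ ⟨w, rfl⟩
    refine ⟨AQ *ᵥ w, ?_⟩
    simp only [Matrix.mulVecLin_apply, Matrix.mulVec_mulVec]
    rw [← pow_succ, pow_succ']
  let x : E →ₗ[ℚ] E := (Matrix.mulVecLin AQ).restrict hEst
  have hxpow : ∀ (g : ℚ[X]) (v : E), ((aeval x g v : E) : ν → ℚ) = (aeval AQ g) *ᵥ (v : ν → ℚ) := by
    intro g v
    induction g using Polynomial.induction_on' with
    | add f g hf hg =>
      rw [map_add, map_add, LinearMap.add_apply, Submodule.coe_add, hf, hg, Matrix.add_mulVec]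
    | monomial k r =>
      rw [aeval_monomial, aeval_monomial]
      have h1 : ∀ k : ℕ, ∀ v : E, (((x ^ k) v : E) : ν → ℚ) = (AQ ^ k) *ᵥ (v : ν → ℚ) := by
        intro k
        induction k with
        | zero => intro v; simp
        | succ k ih =>
          intro v
          rw [pow_succ, Module.End.mul_apply, ih, pow_succ, ← Matrix.mulVec_mulVec]
          rfl
      rw [Module.End.mul_apply, Module.algebraMap_end_apply, Submodule.coe_smul, h1,
        ← Algebra.smul_def, Matrix.smul_mulVec]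
  have hkillQ : aeval AQ ((∏ i, (p i).map c) ^ m) * AQ ^ N = 0 := by
    have h1 : (∏ i, (p i).map c) ^ m = ((∏ i, p i) ^ m).map c := by
      rw [Polynomial.map_pow, Polynomial.map_prod]
    have h2 : ∀ g : ℤ[X], aeval AQ (g.map c) = (aeval A g).map c := by
      intro g
      induction g using Polynomial.induction_on' with
      | add f g hf hg =>
        rw [Polynomial.map_add, map_add, map_add, hf, hg]
        ext i j
        simp
      | monomial k r =>
        rw [Polynomial.map_monomial, aeval_monomial, aeval_monomial, ← Algebra.smul_def,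
          ← Algebra.smul_def, smul_map_cast, hAQ, ← RingHom.mapMatrix_apply c A, ← map_pow]
        rfl
    rw [h1, h2, hAQ, ← RingHom.mapMatrix_apply c A, ← map_pow, ← RingHom.mapMatrix_apply c,
      ← map_mul, hkill, map_zero]
  have hkx : aeval x ((∏ i, (p i).map c) ^ m) = 0 := by
    apply LinearMap.ext
    rintro ⟨_, w, rfl⟩
    apply Subtype.ext
    rw [hxpow]
    show (aeval AQ ((∏ i, (p i).map c) ^ m)) *ᵥ ((AQ ^ N) *ᵥ w) = 0
    rw [Matrix.mulVec_mulVec, hkillQ, Matrix.zero_mulVec]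
  obtain ⟨na, lam, hlam, ψ, hψ⟩ := exists_decomp x (fun i => (p i).map c) hirr m hkx
  obtain ⟨Φ, -, hΦ⟩ := exists_coord_V p hp (Sigma.fst : (Σ i, Fin (na i)) → ι) lam
  let Q : (SIx p Sigma.fst lam → ℚ) →ₗ[ℚ] (ν → ℚ) := E.subtype.comp (Φ.trans ψ).toLinearMap
  have hQ : ∀ v, Q v = (ψ (Φ v) : ν → ℚ) := fun v => rfl
  have hQinj : Function.Injective Q :=
    E.injective_subtype.comp (Φ.trans ψ).injective
  obtain ⟨P, hP, h⟩ := exists_matform A (stdJ p Sigma.fst lam) N Q hQinj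
    (by
      intro v
      rw [hQ, hΦ, hψ]
      rfl)
    (by
      intro v
      have hv : (AQ ^ N) *ᵥ v ∈ E := ⟨v, rfl⟩
      refine ⟨(Φ.trans ψ).symm ⟨_, hv⟩, ?_⟩
      show (((Φ.trans ψ) ((Φ.trans ψ).symm ⟨_, hv⟩) : E) : ν → ℚ) = _
      rw [LinearEquiv.apply_symm_apply])
  exact ⟨na, lam, hlam, P, hP, h⟩

end DECStd
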