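import Pool.Agent.DEC.Std6
import Pool.Agent.DEC.Core

/-!
# DEC, module STD (7): the standard form over `ℤ[θ]`, as in `Core.lean`
-/

namespace DECStd

open Polynomial Matrix Pool.Agent.DEC

/-- integral coordinates `w ↦ ∑ w_s θ^s` on `ℤ[θ]`. -/
theorem exists_coordZ (p : ℤ[X]) (hp : p.Monic) :
    ∃ φ : (Fin p.natDegree → ℤ) ≃ₗ[ℤ] AdjoinRoot p,
      ∀ w, φ ((compM p) *ᵥ w) = AdjoinRoot.root p * φ w := by
  let pb := AdjoinRoot.powerBasis' hp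
  let φ : (Fin p.natDegree → ℤ) ≃ₗ[ℤ] AdjoinRoot p := pb.basis.equivFun.symm
  have hφ : ∀ w, φ w = ∑ s : Fin p.natDegree, ((w s : ℤ) : AdjoinRoot p) *
      (AdjoinRoot.root p) ^ (s : ℕ) := by
    intro w
    have h1 : φ w = ∑ s, w s • pb.basis s := Module.Basis.equivFun_symm_apply _ _
    rw [h1]
    refine Finset.sum_congr rfl fun s _ => ?_
    rw [PowerBasis.coe_basis, zsmul_eq_mul]
    rfl
  refine ⟨φ, ?_⟩
  intro w
  have hroot : aeval (AdjoinRoot.root p) p = 0 := by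
    rw [AdjoinRoot.aeval_eq, AdjoinRoot.mk_self]
  rw [hφ, hφ, Finset.mul_sum]
  have h1 : ∀ s : Fin p.natDegree, AdjoinRoot.root p * (((w s : ℤ) : AdjoinRoot p) *
      (AdjoinRoot.root p) ^ (s : ℕ)) =
      ∑ s' : Fin p.natDegree, (((compE p s' s * w s : ℤ)) : AdjoinRoot p) *
        (AdjoinRoot.root p) ^ (s' : ℕ) := by
    intro s
    have h2 : AdjoinRoot.root p * (((w s : ℤ) : AdjoinRoot p) * (AdjoinRoot.root p) ^ (s : ℕ)) =
        ((w s : ℤ) : AdjoinRoot p) * (AdjoinRoot.root p) ^ ((s : ℕ) + 1) := by ring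
    rw [h2, comp_root p hp (AdjoinRoot.root p) hroot s, Finset.mul_sum]
    refine Finset.sum_congr rfl fun s' _ => ?_
    push_cast
    ring
  simp_rw [h1]
  rw [Finset.sum_comm]
  refine Finset.sum_congr rfl fun s' _ => ?_
  rw [← Finset.sum_mul, ← Int.cast_sum]
  rfl

/-- The standard module over `ℤ[θ]`. -/
abbrev BM {ι : Type} (p : ι → ℤ[X]) {na : ι → ℕ} (lam : (Σ i, Fin (na i)) → ℕ) : Type :=
  (i : ι) → Blk (fun c : Fin (na i) => lam ⟨i, c⟩) → Lam (p i)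

theorem exists_CZ {ι : Type} [Fintype ι] [DecidableEq ι] (p : ι → ℤ[X])
    (hp : ∀ i, (p i).Monic) {na : ι → ℕ} (lam : (Σ i, Fin (na i)) → ℕ) :
    ∃ CZ : (SIx p Sigma.fst lam → ℤ) ≃ₗ[ℤ] BM p lam,
      ∀ w, CZ (stdJ p Sigma.fst lam *ᵥ w) =
        fun i => xL (AdjoinRoot.root (p i)) (fun c : Fin (na i) => lam ⟨i, c⟩) (CZ w i) := by
  classical
  choose φ hφ using fun i => exists_coordZ (p i) (hp i)
  let e1 : (SIx p Sigma.fst lam → ℤ) ≃ₗ[ℤ] ((i : ι) → Blk (fun c : Fin (na i) => lam ⟨i, c⟩) →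
      Fin (p i).natDegree → ℤ) :=
    { toFun := fun w i z s => w ⟨⟨i, z.1⟩, z.2, s⟩
      invFun := fun v x => v x.1.1 ⟨x.1.2, x.2.1⟩ x.2.2
      map_add' := fun _ _ => rfl
      map_smul' := fun _ _ => rfl
      left_inv := fun _ => rfl
      right_inv := fun _ => rfl }
  let CZ : (SIx p Sigma.fst lam → ℤ) ≃ₗ[ℤ] BM p lam := e1.trans
    (LinearEquiv.piCongrRight fun i => LinearEquiv.piCongrRight
      fun _ : Blk (fun c : Fin (na i) => lam ⟨i, c⟩) => φ i)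
  have hCZ : ∀ w i z, CZ w i z = φ i (fun s => w ⟨⟨i, z.1⟩, z.2, s⟩) := fun _ _ _ => rfl
  refine ⟨CZ, ?_⟩
  intro w
  funext i z
  have hmap : ∀ {m n : Type} (M : Matrix m n ℤ), M.map (Int.castRingHom ℤ) = M := by
    intro m n M
    ext a b
    simp
  have h1 : ∀ s : Fin (p i).natDegree, (stdJ p Sigma.fst lam *ᵥ w) ⟨⟨i, z.1⟩, z.2, s⟩ =
      ((compM (p i)) *ᵥ (fun s => w ⟨⟨i, z.1⟩, z.2, s⟩)) s +
        (if ht : (z.2 : ℕ) = 0 then 0 else w ⟨⟨i, z.1⟩, ⟨(z.2 : ℕ) - 1, lt_of_le_of_lt (Nat.sub_le _ _) z.2.2⟩, s⟩) := by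
    intro s
    have h2 := stdJ_mulVec (R := ℤ) p Sigma.fst lam w ⟨i, z.1⟩ z.2 s
    rw [hmap, hmap] at h2
    exact h2
  rw [hCZ]
  simp only [h1]
  have h3 : φ i (((compM (p i)) *ᵥ (fun s => w ⟨⟨i, z.1⟩, z.2, s⟩)) +
      fun s => (if ht : (z.2 : ℕ) = 0 then 0 else w ⟨⟨i, z.1⟩, ⟨(z.2 : ℕ) - 1, lt_of_le_of_lt (Nat.sub_le _ _) z.2.2⟩, s⟩)) =
      AdjoinRoot.root (p i) * φ i (fun s => w ⟨⟨i, z.1⟩, z.2, s⟩) +
      φ i (fun s => (if ht : (z.2 : ℕ) = 0 then 0 else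
        w ⟨⟨i, z.1⟩, ⟨(z.2 : ℕ) - 1, lt_of_le_of_lt (Nat.sub_le _ _) z.2.2⟩, s⟩)) := by
    rw [map_add, hφ]
  refine h3.trans ?_
  rw [xL, LinearMap.add_apply, LinearMap.smul_apply, LinearMap.id_apply, Pi.add_apply,
    Pi.smul_apply, smul_eq_mul, hCZ]
  congr 1
  by_cases ht : (z.2 : ℕ) = 0
  · have h4 : (yL (fun c : Fin (na i) => lam ⟨i, c⟩) (CZ w i)) z = 0 := by
      simp [yL, ht]
    rw [h4]
    simp only [ht, dif_pos]
    exact map_zero _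
  · have h4 : (yL (fun c : Fin (na i) => lam ⟨i, c⟩) (CZ w i)) z =
        CZ w i ⟨z.1, ⟨(z.2 : ℕ) - 1, lt_of_le_of_lt (Nat.sub_le _ _) z.2.2⟩⟩ := by
      have : 0 < (z.2 : ℕ) := Nat.pos_of_ne_zero ht
      simp [yL, this]
    rw [h4, hCZ]
    simp only [ht, dif_neg, not_false_eq_true]

end DECStd
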