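import Pool.Agent.DEC.Std3
import Pool.Agent.DEC.Std7

/-!
# DEC, module STD (8): the standard form of one matrix, as in `Core.lean`
-/

namespace DECStd

open Polynomial Matrix Pool.Agent.DEC

theorem kill_of_dvd {a : ℕ} (M : Matrix (Fin a) (Fin a) ℤ) (h : ℤ[X]) (k : ℕ)
    (hdiv : M.charpoly ∣ X ^ k * h) : aeval M h * M ^ k = 0 := by
  have h1 : aeval M (X ^ k * h) = 0 := by
    obtain ⟨c, hc⟩ := hdiv
    rw [hc, map_mul, Matrix.aeval_self_charpoly, zero_mul]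
  rw [mul_comm, map_mul, map_pow, aeval_X] at h1
  exact h1

theorem exists_half {a f : ℕ} (A : Matrix (Fin a) (Fin a) ℤ) (g : Fin f → ℤ[X])
    (hg : ∀ i, (g i).Monic) (hirr : ∀ i, Irreducible (g i)) (m : ℕ)
    (hdiv : (Aᵀ).charpoly ∣ X ^ a * (∏ i, g i) ^ m) :
    ∃ (na : Fin f → ℕ) (lam : ∀ i, Fin (na i) → ℕ)
      (P : ∀ i, (Blk (lam i) → Lam (g i)) →ₗ[ℤ] (Fin a → ℤ)) (n0 : ℕ),
      (∀ i c, 0 < lam i c) ∧ 0 < n0 ∧
      (∀ i v, P i (xL (AdjoinRoot.root (g i)) (lam i) v) = P i v ᵥ* A) ∧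
      ∀ Δ : ℕ, 0 < Δ → n0 ∣ Δ → ∃ P' : ∀ i, (Fin a → ℤ) →ₗ[ℤ] (Blk (lam i) → Lam (g i)),
        (∀ i v, P' i (P i v) = (Δ : ℤ) • v) ∧
        (∀ i j v, i ≠ j → P' j (P i v) = 0) ∧
        (∀ v : Fin a → ℤ, ∑ i, P i (P' i (v ᵥ* A ^ a)) = (Δ : ℤ) • (v ᵥ* A ^ a)) := by
  classical
  have hkill := kill_of_dvd Aᵀ ((∏ i, g i) ^ m) a hdiv
  have hirrQ : ∀ i, Irreducible ((g i).map (Int.castRingHom ℚ)) := fun i =>
    irreducible_map (hg i) (hirr i)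
  obtain ⟨na, lam, hlam, PM, hPM, n0, hn0, hP⟩ := exists_std Aᵀ a g hg hirrQ m hkill
  obtain ⟨CZ, hCZ⟩ := exists_CZ g hg lam
  refine ⟨na, fun i c => lam ⟨i, c⟩, fun i => (Matrix.mulVecLin PM).comp
    (CZ.symm.toLinearMap.comp
      (LinearMap.single ℤ (fun i => Blk (fun c : Fin (na i) => lam ⟨i, c⟩) → Lam (g i)) i)), n0, fun i c => hlam _, hn0, ?_, ?_⟩
  · intro i v
    have h1 : CZ.symm (Pi.single i (xL (AdjoinRoot.root (g i)) (fun c => lam ⟨i, c⟩) v)) =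
        stdJ g Sigma.fst lam *ᵥ (CZ.symm (Pi.single i v)) := by
      rw [LinearEquiv.symm_apply_eq, hCZ, LinearEquiv.apply_symm_apply]
      funext j
      by_cases hj : j = i
      · subst hj
        rw [Pi.single_eq_same, Pi.single_eq_same]
      · rw [Pi.single_eq_of_ne hj, Pi.single_eq_of_ne hj, map_zero]
    show PM *ᵥ (CZ.symm (Pi.single i _)) = (PM *ᵥ (CZ.symm (Pi.single i v))) ᵥ* A
    rw [h1, Matrix.mulVec_mulVec, ← hPM, ← Matrix.mulVec_mulVec, Matrix.mulVec_transpose]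
  · intro Δ hΔ hdvd
    obtain ⟨⟨P', hP'⟩, P'', hP''⟩ := hP Δ hdvd
    have hΔ0 : (Δ : ℤ) ≠ 0 := by exact_mod_cast hΔ.ne'
    have hsp : PM * P' * (Aᵀ) ^ a = (Δ : ℤ) • (Aᵀ) ^ a := by
      have h1 : (Δ : ℤ) • (PM * P' * (Aᵀ) ^ a) = (Δ : ℤ) • ((Δ : ℤ) • (Aᵀ) ^ a) := by
        rw [← Matrix.mul_smul, ← hP'', Matrix.mul_assoc, ← Matrix.mul_assoc P', hP',
          Matrix.smul_mul, Matrix.one_mul, Matrix.mul_smul, hP'']
      exact smul_right_injective _ hΔ0 h1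
    have hcore : ∀ i v, P' *ᵥ (PM *ᵥ (CZ.symm (Pi.single i v))) =
        (Δ : ℤ) • CZ.symm (Pi.single i v) := by
      intro i v
      rw [Matrix.mulVec_mulVec, hP', Matrix.smul_mulVec, Matrix.one_mulVec]
    refine ⟨fun i => (LinearMap.proj i).comp (CZ.toLinearMap.comp (Matrix.mulVecLin P')),
      ?_, ?_, ?_⟩
    · intro i v
      show (CZ (P' *ᵥ (PM *ᵥ (CZ.symm (Pi.single i v))))) i = _
      rw [hcore, map_smul, LinearEquiv.apply_symm_apply, Pi.smul_apply, Pi.single_eq_same]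
    · intro i j v hij
      show (CZ (P' *ᵥ (PM *ᵥ (CZ.symm (Pi.single i v))))) j = _
      rw [hcore, map_smul, LinearEquiv.apply_symm_apply, Pi.smul_apply,
        Pi.single_eq_of_ne (Ne.symm hij), smul_zero]
    · intro v
      have h1 : v ᵥ* A ^ a = (Aᵀ) ^ a *ᵥ v := by
        rw [← Matrix.transpose_pow, Matrix.mulVec_transpose]
      rw [h1]
      set u : Fin a → ℤ := (Aᵀ) ^ a *ᵥ v with hu
      have h2 : ∑ i, PM *ᵥ (CZ.symm (Pi.single i ((CZ (P' *ᵥ u)) i))) = PM *ᵥ (P' *ᵥ u) := by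
        have h3 : ∑ i, PM *ᵥ (CZ.symm (Pi.single i ((CZ (P' *ᵥ u)) i))) =
            (Matrix.mulVecLin PM) (CZ.symm (∑ i, Pi.single i ((CZ (P' *ᵥ u)) i))) := by
          rw [map_sum, map_sum]
          rfl
        rw [h3, Finset.univ_sum_single, LinearEquiv.symm_apply_apply]
        rfl
      refine Eq.trans h2 ?_
      rw [hu, Matrix.mulVec_mulVec, Matrix.mulVec_mulVec, hsp, Matrix.smul_mulVec]

end DECStd
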