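import Pool.Agent.DEC.MF
import Pool.Agent.DEC.StateB
import Pool.Agent.DEC.StateC

/-!
# DEC, Theorem 1: the part away from `n` (helper23)

For a family of states with entries in `A_i = S_i[1/θ, 1/n]`, all `SigM` left invertible and all
`TM` right invertible over `A_i`: the map `R` is left invertible and `m (R⁻¹ V_A) = W_A`.
-/

set_option autoImplicit false
set_option linter.unusedSectionVars false

open Matrix

namespace Pool.Agent.DEC

section one

variable {S K : Type} [CommRing S] [Field K] [Algebra S K] {n : ℕ} {θ : S}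

theorem lamT_le_locOT : lamT S K θ ≤ locOT S K n θ := by
  rintro x ⟨k, h, s, hs⟩
  refine ⟨0, h, s, ?_⟩
  rw [← hs]
  simp

theorem inv_mem_locOT (hn : (n : K) ≠ 0) : (n : K)⁻¹ ∈ locOT S K n θ :=
  ⟨1, 0, 1, by rw [pow_one, pow_zero, mul_one, mul_inv_cancel₀ hn, map_one]⟩

theorem locOT_pow_mul {x : K} (hx : x ∈ locOT S K n θ) :
    ∃ k : ℕ, (n : K) ^ k * x ∈ lamT S K θ := by
  obtain ⟨k, h, s, hs⟩ := hx
  refine ⟨k, 0, h, s, ?_⟩
  rw [← hs]
  ring

theorem pow_mul_mem_iff (hn : (n : K) ≠ 0) (k : ℕ) (x : K) :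
    (n : K) ^ k * x ∈ locOT S K n θ ↔ x ∈ locOT S K n θ := by
  constructor
  · intro h
    have h1 := (locOT S K n θ).mul_mem ((locOT S K n θ).pow_mem (inv_mem_locOT (θ := θ) hn) k) h
    rwa [inv_pow, ← mul_assoc, inv_mul_cancel₀ (pow_ne_zero k hn), one_mul] at h1
  · intro h
    exact (locOT S K n θ).mul_mem (pow_mem (natCast_mem _ n) k) h

end one

section fam

variable {F : Type} [Fintype F] {S K : F → Type} [∀ i, CommRing (S i)]
  [∀ i, Field (K i)] [∀ i, Algebra ℚ (K i)] [∀ i, Algebra (S i) (K i)]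

/-- coordinates of elements of `G[1/n]` -/
theorem mem_away_iff {γ : F → Type} [∀ i, Fintype (γ i)] {h : ∀ i, γ i → ℕ} {n : ℕ} (hn : n ≠ 0)
    {θ : ∀ i, S i} {G : AddSubgroup (∀ i, Blk (h i) → K i)} {l1 : ℕ}
    (h1 : ∀ v, InR (fun i => lamT (S i) (K i) (θ i)) v → v ∈ G)
    (h2 : ∀ v ∈ G, InR (fun i => lamT (S i) (K i) (θ i)) (n ^ l1 • v))
    (v : ∀ i, Blk (h i) → K i) :
    v ∈ away n G ↔ InR (fun i => locOT (S i) (K i) n (θ i)) v := by
  have hnK : ∀ i, (n : K i) ≠ 0 := fun i => by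
    have : CharZero (K i) := algebraRat.charZero (K i)
    exact_mod_cast hn
  constructor
  · rintro ⟨k, hk⟩ i c
    have h3 := h2 _ hk i c
    have h4 : (n : K i) ^ (l1 + k) * v i c ∈ lamT (S i) (K i) (θ i) := by
      have e : (n ^ l1 • n ^ k • v) i c = (n : K i) ^ (l1 + k) * v i c := by
        show n ^ l1 • (n ^ k • v i c) = _
        rw [nsmul_eq_mul, nsmul_eq_mul]
        push_cast
        ring
      rwa [e] at h3
    exact (pow_mul_mem_iff (hnK i) _ _).1 (lamT_le_locOT h4)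
  · intro hv
    have h3 : ∀ i c, ∃ k : ℕ, (n : K i) ^ k * v i c ∈ lamT (S i) (K i) (θ i) :=
      fun i c => locOT_pow_mul (hv i c)
    choose f hf using h3
    have hmono : ∀ i (c : Blk (h i)) (k : ℕ), f i c ≤ k →
        (n : K i) ^ k * v i c ∈ lamT (S i) (K i) (θ i) := by
      intro i c k hk
      obtain ⟨e, rfl⟩ := Nat.exists_eq_add_of_le hk
      rw [pow_add, mul_comm ((n : K i) ^ f i c), mul_assoc]
      exact (lamT (S i) (K i) (θ i)).mul_mem (pow_mem (natCast_mem _ n) e) (hf i c)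
    refine ⟨Finset.univ.sup fun x : Σ i, Blk (h i) => f x.1 x.2, h1 _ fun i c => ?_⟩
    have e : ∀ k : ℕ, (n ^ k • v) i c = (n : K i) ^ k * v i c := by
      intro k
      show n ^ k • v i c = _
      rw [nsmul_eq_mul]
      push_cast
      ring
    rw [e]
    exact hmono i c _ (Finset.le_sup (f := fun x : Σ i, Blk (h i) => f x.1 x.2)
      (Finset.mem_univ (⟨i, c⟩ : Σ i, Blk (h i))))

end fam

section mat

variable {K : Type} [Field K] (D : Subring K)

theorem mulVec_mem {m n : Type} [Fintype n] (M : Matrix m n D) {v : n → K} (hv : ∀ j, v j ∈ D)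
    (i : m) : ((M.map D.subtype) *ᵥ v) i ∈ D :=
  sum_mem fun j _ => D.mul_mem (M i j).2 (hv j)

variable {D}

theorem mem_of_LInv {m n : Type} [Fintype m] [Fintype n] [DecidableEq n] {M : Matrix m n D}
    (hM : LInv M) {v : n → K} (hv : ∀ i, ((M.map D.subtype) *ᵥ v) i ∈ D) (j : n) : v j ∈ D := by
  obtain ⟨Y, hY⟩ := hM
  have h1 : (Y.map D.subtype) *ᵥ ((M.map D.subtype) *ᵥ v) = v := by
    rw [mulVec_mulVec, ← Matrix.map_mul, hY, Matrix.map_one _ (map_zero _) (map_one _), one_mulVec]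
  rw [← h1]
  exact mulVec_mem D Y hv j

theorem exists_of_RInv {m n : Type} [Fintype m] [Fintype n] [DecidableEq m] {M : Matrix m n D}
    (hM : RInv M) {w : m → K} (hw : ∀ i, w i ∈ D) :
    ∃ z : n → K, (∀ j, z j ∈ D) ∧ (M.map D.subtype) *ᵥ z = w := by
  obtain ⟨Y, hY⟩ := hM
  refine ⟨(Y.map D.subtype) *ᵥ w, mulVec_mem D Y hw, ?_⟩
  rw [mulVec_mulVec, ← Matrix.map_mul, hY, Matrix.map_one _ (map_zero _) (map_one _), one_mulVec]

theorem LInv.map {R R' : Type} [CommRing R] [CommRing R'] (f : R →+* R') {m n : Type} [Fintype m]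
    [DecidableEq n] {M : Matrix m n R} (hM : LInv M) : LInv (M.map f) := by
  obtain ⟨Y, hY⟩ := hM
  exact ⟨Y.map f, by rw [← Matrix.map_mul, hY, Matrix.map_one _ (map_zero _) (map_one _)]⟩

theorem RInv.map {R R' : Type} [CommRing R] [CommRing R'] (f : R →+* R') {m n : Type} [Fintype n]
    [DecidableEq m] {M : Matrix m n R} (hM : RInv M) : RInv (M.map f) := by
  obtain ⟨Y, hY⟩ := hM
  exact ⟨Y.map f, by rw [← Matrix.map_mul, hY, Matrix.map_one _ (map_zero _) (map_one _)]⟩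

end mat

section main

variable {F : Type} [Fintype F] {S K : F → Type} [∀ i, CommRing (S i)]
  [∀ i, Field (K i)] [∀ i, Algebra ℚ (K i)] [∀ i, Algebra (S i) (K i)]
  {I α β : F → Type} [∀ i, Fintype (I i)] [∀ i, DecidableEq (I i)] [∀ i, Fintype (α i)]
  [∀ i, DecidableEq (α i)] [∀ i, Fintype (β i)] [∀ i, DecidableEq (β i)]

/-- **the part away from `n`** -/
theorem loc_away {n : ℕ} (hn : n ≠ 0) {θ : ∀ i, S i} (σ : ∀ i, Shp (I i) (α i) (β i))
    {GV : AddSubgroup (∀ i, Blk (σ i).lam → K i)} {GW : AddSubgroup (∀ i, Blk (σ i).mu → K i)}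
    {l1 : ℕ}
    (hV1 : ∀ v, InR (fun i => lamT (S i) (K i) (θ i)) v → v ∈ GV)
    (hV2 : ∀ v ∈ GV, InR (fun i => lamT (S i) (K i) (θ i)) (n ^ l1 • v))
    (hW1 : ∀ v, InR (fun i => lamT (S i) (K i) (θ i)) v → v ∈ GW)
    (hW2 : ∀ v ∈ GW, InR (fun i => lamT (S i) (K i) (θ i)) (n ^ l1 • v))
    (t : ∀ i, RSt (locOT (S i) (K i) n (θ i)) (I i) (α i) (β i))
    (hR : ∀ i, LInv (RM (σ i) (t i))) (hM : ∀ i, RInv (MM (σ i) (t i)))
    {s : MSt K I α β} (hs : ∀ i, s i = smap (locOT (S i) (K i) n (θ i)).subtype (t i)) :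
    Loc (mR σ s) (mW σ s) (away n GV) (away n GW) := by
  have eR : ∀ z i, mR σ s z i = ((RM (σ i) (t i)).map (locOT (S i) (K i) n (θ i)).subtype) *ᵥ z i := by
    intro z i
    show RM (σ i) (s i) *ᵥ z i = _
    rw [hs i, RM_map]
  have eM : ∀ z i, mW σ s z i = ((MM (σ i) (t i)).map (locOT (S i) (K i) n (θ i)).subtype) *ᵥ z i := by
    intro z i
    show MM (σ i) (s i) *ᵥ z i = _
    rw [hs i, MM_map]
  refine ⟨fun z hz => ?_, fun y hy => ?_⟩
  · rw [mem_away_iff hn hV1 hV2] at hz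
    rw [mem_away_iff hn hW1 hW2]
    intro i c
    rw [eM]
    refine mulVec_mem _ _ (fun j => ?_) c
    refine mem_of_LInv (hR i) (fun a => ?_) j
    have := hz i a
    rwa [eR] at this
  · rw [mem_away_iff hn hW1 hW2] at hy
    have h1 : ∀ i, ∃ z : I i → K i, (∀ j, z j ∈ locOT (S i) (K i) n (θ i)) ∧
        ((MM (σ i) (t i)).map (locOT (S i) (K i) n (θ i)).subtype) *ᵥ z = y i :=
      fun i => exists_of_RInv (hM i) (hy i)
    choose z hz1 hz2 using h1
    refine ⟨z, ?_, ?_⟩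
    · rw [mem_away_iff hn hV1 hV2]
      intro i c
      rw [eR]
      exact mulVec_mem _ _ (hz1 i) c
    · funext i
      rw [eM, hz2]

/-- **the part away from `n`, from the levels** -/
theorem loc_away_of_levels {n : ℕ} (hn : n ≠ 0) {θ : ∀ i, S i} (σ : ∀ i, Shp (I i) (α i) (β i))
    (hmu : ∀ i b, 1 ≤ (σ i).mu b)
    {GV : AddSubgroup (∀ i, Blk (σ i).lam → K i)} {GW : AddSubgroup (∀ i, Blk (σ i).mu → K i)}
    {l1 : ℕ}
    (hV1 : ∀ v, InR (fun i => lamT (S i) (K i) (θ i)) v → v ∈ GV)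
    (hV2 : ∀ v ∈ GV, InR (fun i => lamT (S i) (K i) (θ i)) (n ^ l1 • v))
    (hW1 : ∀ v, InR (fun i => lamT (S i) (K i) (θ i)) v → v ∈ GW)
    (hW2 : ∀ v ∈ GW, InR (fun i => lamT (S i) (K i) (θ i)) (n ^ l1 • v))
    (t : ∀ i, RSt (locOT (S i) (K i) n (θ i)) (I i) (α i) (β i)) (ht : ∀ i, IsSt (σ i) (t i))
    (hR : ∀ i j, LInv (SigM (σ i) (t i) j)) (hM : ∀ i j, RInv (TM (σ i) (t i) j))
    {s : MSt K I α β} (hs : ∀ i, s i = smap (locOT (S i) (K i) n (θ i)).subtype (t i)) :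
    (∀ i, IsSt (σ i) (s i)) ∧ (∀ i, LInv (RM (σ i) (s i))) ∧ (∀ i, RInv (MM (σ i) (s i))) ∧
      Loc (mR σ s) (mW σ s) (away n GV) (away n GW) := by
  have h1 : ∀ i, LInv (RM (σ i) (t i)) := fun i => RM_left_of_SigM (ht i) (hR i)
  have h2 : ∀ i, RInv (MM (σ i) (t i)) := fun i => MM_right_of_TM (ht i) (hmu i) (hM i 0)
  refine ⟨fun i => ?_, fun i => ?_, fun i => ?_, loc_away hn σ hV1 hV2 hW1 hW2 t h1 h2 hs⟩
  · rw [hs i]
    exact (ht i).map _
  · rw [hs i, RM_map]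
    exact (h1 i).map _
  · rw [hs i, MM_map]
    exact (h2 i).map _

end main

end Pool.Agent.DEC
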