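import Pool.Agent.DEC.MF
import Pool.Agent.DEC.StateB
import Pool.Agent.DEC.StateC
import Pool.Agent.DEC.DenTop

/-! (U1) of `dec_general.md`: invertibility and the unit conditions are open. -/

set_option autoImplicit false
set_option linter.unusedSectionVars false

open Matrix Topology

namespace Pool.Agent.DEC

section one

variable {K X m I : Type} [Field K] [TopologicalSpace K] [IsTopologicalRing K] [T1Space K]
  [TopologicalSpace X] [Fintype m] [Fintype I] [DecidableEq I] [DecidableEq m]

theorem eventually_LInv {f : X → Matrix m I K} {x : X} (hf : ContinuousAt f x)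
    (h : LInv (f x)) : ∀ᶠ y in 𝓝 x, LInv (f y) := by
  obtain ⟨Y, hY⟩ := h
  have h1 : ContinuousAt (fun y => (Y * f y).det) x := by
    have h2 : Continuous (fun M : Matrix m I K => (Y * M).det) :=
      (Continuous.matrix_mul continuous_const continuous_id).matrix_det
    exact h2.continuousAt.comp hf
  have h3 : (Y * f x).det ≠ 0 := by rw [hY, det_one]; exact one_ne_zero
  filter_upwards [h1.eventually_ne h3] with y hy
  refine ⟨(Y * f y)⁻¹ * Y, ?_⟩
  rw [Matrix.mul_assoc]
  exact nonsing_inv_mul _ (isUnit_iff_ne_zero.mpr hy)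

theorem eventually_RInv {f : X → Matrix m I K} {x : X} (hf : ContinuousAt f x)
    (h : RInv (f x)) : ∀ᶠ y in 𝓝 x, RInv (f y) := by
  obtain ⟨Y, hY⟩ := h
  have h1 : ContinuousAt (fun y => (f y * Y).det) x := by
    have h2 : Continuous (fun M : Matrix m I K => (M * Y).det) :=
      (Continuous.matrix_mul continuous_id continuous_const).matrix_det
    exact h2.continuousAt.comp hf
  have h3 : (f x * Y).det ≠ 0 := by rw [hY, det_one]; exact one_ne_zero
  filter_upwards [h1.eventually_ne h3] with y hy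
  refine ⟨Y * (f y * Y)⁻¹, ?_⟩
  rw [← Matrix.mul_assoc]
  exact mul_nonsing_inv _ (isUnit_iff_ne_zero.mpr hy)

end one

section unit

variable {K X : Type} [Field K] [TopologicalSpace X] {d : ℕ} {O D : Subring K}

theorem eventually_unit (h : Den d O D) {c : ℕ} {T S : X → K} {x : X} {u w : K}
    (hT : letI := h.top; ContinuousAt T x) (hS : letI := h.top; ContinuousAt S x)
    (hS0 : S x ≠ 0) (hu : u ≠ 0) (hw : Sm d D c (w - 1)) (hx : T x = w * u * S x) :
    ∀ᶠ y in 𝓝 x, ∃ w', Sm d D c (w' - 1) ∧ T y = w' * u * S y := by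
  let _ := h.top
  have := h.isTopologicalRing
  have := h.t2
  have hne : u * S x ≠ 0 := mul_ne_zero hu hS0
  have h1 : ContinuousAt (fun y => u * S y) x := continuousAt_const.mul hS
  have h2 : ContinuousAt (fun y => T y * Ring.inverse (u * S y)) x :=
    hT.mul (ContinuousAt.comp (f := fun y => u * S y)
      (h.invCont (u * S x) (isUnit_iff_ne_zero.mpr hne)).2 h1)
  have h3 : T x * Ring.inverse (u * S x) = w := by
    rw [Ring.inverse_eq_inv', hx]
    field_simp
  have h4 : {z | Sm d D c (z - w)} ∈ 𝓝 (T x * Ring.inverse (u * S x)) := by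
    rw [h3, h.mem_nhds]
    exact ⟨c, fun z hz => hz⟩
  filter_upwards [h2.preimage_mem_nhds h4, h1.eventually_ne hne] with y hy hy0
  refine ⟨T y * Ring.inverse (u * S y), ?_, ?_⟩
  · have h5 := hy.add hw
    rwa [sub_add_sub_cancel] at h5
  · rw [Ring.inverse_eq_inv', mul_assoc, mul_assoc, inv_mul_cancel₀ hy0, mul_one]

end unit

section state

variable {K I α β : Type} [Field K] [Fintype I] [DecidableEq I] [Fintype α] [Fintype β]
  [DecidableEq α] [DecidableEq β] {d : ℕ} {O D : Subring K}

/-- openness of everything except LOC, one field -/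
theorem eventually_state (h : Den d O D) {c : ℕ} {σ : Shp I α β} {u : ℕ → K}
    (hu : ∀ j, Sat σ j → u j ≠ 0) {s : RSt K I α β} (hst : IsSt σ s)
    (hi : LInv (RM σ s)) (hs : RInv (MM σ s))
    (hw : ∀ j, Sat σ j → ∃ w, Sm d D c (w - 1) ∧
      gdet (TM σ s j) = w * u j * gdet (SigM σ s j)) :
    letI := h.top
    ∀ᶠ x in 𝓝 s, LInv (RM σ x) ∧ RInv (MM σ x) ∧ ∀ j, Sat σ j → ∃ w, Sm d D c (w - 1) ∧
      gdet (TM σ x j) = w * u j * gdet (SigM σ x j) := by
  let _ := h.top
  have := h.isTopologicalRing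
  have := h.t2
  have h1 : ∀ᶠ x in 𝓝 s, LInv (RM σ x) := eventually_LInv (continuous_RM σ).continuousAt hi
  have h2 : ∀ᶠ x in 𝓝 s, RInv (MM σ x) := eventually_RInv (continuous_MM σ).continuousAt hs
  have hfin : {j | Sat σ j}.Finite := by
    refine Set.Finite.subset (Set.finite_range fun b : β => σ.mu b - 1) ?_
    rintro j ⟨-, -, b, hb⟩
    exact ⟨b, by simp only []; omega⟩
  have h3 : ∀ᶠ x in 𝓝 s, ∀ j ∈ {j | Sat σ j}, ∃ w, Sm d D c (w - 1) ∧
      gdet (TM σ x j) = w * u j * gdet (SigM σ x j) := by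
    rw [Filter.eventually_all_finite hfin]
    intro j hj
    obtain ⟨w, hw1, hw2⟩ := hw j hj
    have hc1 : Continuous (fun x : RSt K I α β => gdet (TM σ x j)) :=
      continuous_gdet.comp (continuous_TM σ j)
    have hc2 : Continuous (fun x : RSt K I α β => gdet (SigM σ x j)) :=
      continuous_gdet.comp (continuous_SigM σ j)
    refine eventually_unit h hc1.continuousAt hc2.continuousAt ?_ (hu j hj) hw1 hw2
    exact (gdet_ne_zero_iff (card_SigM hj.1)).2 (SigM_LInv hst hi j)
  filter_upwards [h1, h2, h3] with x hx1 hx2 hx3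
  exact ⟨hx1, hx2, fun j hj => hx3 j hj⟩

end state

end Pool.Agent.DEC
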