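import Pool.Agent.DEC.Loc
import Pool.Agent.DEC.MatForm

/-!
# DEC, module TST (C2), abstract part

`E, V, W` vector spaces over `ℚ`, `jE : Γ → E` a lattice, `P : V → ℚ^a`, `Q : W → ℚ^b` injective
with `P (x v) = P v * A`, `Q (x w) = Q w * B`, and `R : E → V`, `m : E → W` equivariant maps which
are integral: `P (R (jE z)) = GA z`, `Q (m (jE z)) = GB z`.  The identities `Ids` of `Core.lean`
modulo `N`, `D n ∣ N`, give the condition localised at `n`.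
-/

set_option autoImplicit false
set_option linter.unusedSectionVars false

namespace Pool.Agent.DEC.Tst

open Matrix Pool.Agent.DEC
open Pool.Agent.FT (toQ)

section ni

variable {κ : Type*}

/-- the entries are in `ℤ_(n)` -/
def NI (n : ℕ) (v : κ → ℚ) : Prop := ∀ j, v j ∈ Zl n

theorem int_mem_Zl (n : ℕ) (z : ℤ) : (z : ℚ) ∈ Zl n := intCast_mem (Zl n) z

theorem NI.add {n : ℕ} {v w : κ → ℚ} (hv : NI n v) (hw : NI n w) : NI n (v + w) :=
  fun j => add_mem (hv j) (hw j)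

theorem NI.sub {n : ℕ} {v w : κ → ℚ} (hv : NI n v) (hw : NI n w) : NI n (v - w) :=
  fun j => sub_mem (hv j) (hw j)

theorem NI.smul {n : ℕ} {v : κ → ℚ} (hv : NI n v) {q : ℚ} (hq : q ∈ Zl n) : NI n (q • v) :=
  fun j => by
    rw [Pi.smul_apply, smul_eq_mul]
    exact mul_mem hq (hv j)

theorem inv_mem_Zl {n m : ℕ} (hm : m ≠ 0) (hmn : m.Coprime n) : (m : ℚ)⁻¹ ∈ Zl n :=
  ⟨m, hm, hmn, 1, by rw [mul_inv_cancel₀ (by exact_mod_cast hm)]; norm_num⟩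

/-- integral vectors -/
def cV {a : ℕ} (z : Fin a → ℤ) : Fin a → ℚ := fun j => (z j : ℚ)

theorem NI_cV {a : ℕ} (n : ℕ) (z : Fin a → ℤ) : NI n (cV z) := fun j => int_mem_Zl n (z j)

theorem cV_add {a : ℕ} (z w : Fin a → ℤ) : cV (z + w) = cV z + cV w := by
  funext j; simp [cV]

theorem cV_smul {a : ℕ} (c : ℤ) (z : Fin a → ℤ) : cV (c • z) = (c : ℚ) • cV z := by
  funext j; simp [cV]

theorem cV_vecMul {a : ℕ} (z : Fin a → ℤ) (A : Matrix (Fin a) (Fin a) ℕ) (k : ℕ) :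
    cV (z ᵥ* zM A ^ k) = cV z ᵥ* toQ A ^ k := by
  rw [toQ_eq, ← qM_pow]
  funext j
  simp only [cV, Matrix.vecMul, dotProduct, Matrix.map_apply]
  push_cast
  rfl

theorem NI.vecMul {a n : ℕ} {v : Fin a → ℚ} (hv : NI n v) (A : Matrix (Fin a) (Fin a) ℕ) (k : ℕ) :
    NI n (v ᵥ* toQ A ^ k) := fun j => by
  rw [toQ_eq, ← qM_pow]
  simp only [Matrix.vecMul, dotProduct]
  refine sum_mem fun i _ => mul_mem (hv i) ?_
  exact int_mem_Zl n ((zM A ^ k) i j)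

/-- a vector with entries in `ℤ_(n)` has a common denominator -/
theorem NI.exists_mul {n a : ℕ} {v : Fin a → ℚ} (hv : NI n v) :
    ∃ m : ℕ, m ≠ 0 ∧ m.Coprime n ∧ ∃ z : Fin a → ℤ, (m : ℚ) • v = cV z := by
  choose m hm hmn z hz using hv
  refine ⟨∏ j, m j, Finset.prod_ne_zero_iff.2 fun j _ => hm j,
    Nat.Coprime.prod_left fun j _ => hmn j, fun j => (∏ i ∈ Finset.univ.erase j, (m i : ℤ)) * z j,
    ?_⟩
  funext j
  rw [Pi.smul_apply, smul_eq_mul, ← Finset.mul_prod_erase _ _ (Finset.mem_univ j)]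
  simp only [cV]
  push_cast
  rw [← hz j]
  ring

end ni

section grp

variable {V : Type*} [AddCommGroup V] [Module ℚ V]

/-- a finitely generated subgroup which is `q`-divisible is zero -/
theorem eq_zero_of_div {q : ℕ} (hq : 2 ≤ q) {H : AddSubgroup V} (hH : H.FG)
    (h : ∀ v ∈ H, ∃ w ∈ H, v = q • w) : H = ⊥ := by
  obtain ⟨S, hS⟩ := hH
  let N : Submodule ℤ V := H.toIntSubmodule
  have hN : N.FG := by
    refine ⟨S, ?_⟩
    rw [← AddSubgroup.toIntSubmodule_closure, hS]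
  have h1 : N ≤ (Ideal.span {(q : ℤ)}) • N := by
    intro v hv
    obtain ⟨w, hw, rfl⟩ := h v hv
    rw [← natCast_zsmul]
    exact Submodule.smul_mem_smul (Ideal.mem_span_singleton_self _) hw
  obtain ⟨r, hr, hr2⟩ := Submodule.exists_sub_one_mem_and_smul_eq_zero_of_fg_of_le_smul
    (Ideal.span {(q : ℤ)}) N hN h1
  rw [Ideal.mem_span_singleton] at hr
  have hr0 : r ≠ 0 := by
    rintro rfl
    rw [zero_sub, dvd_neg] at hr
    have h3 : (q : ℤ) ≤ 1 := Int.le_of_dvd one_pos hr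
    omega
  rw [eq_bot_iff]
  intro v hv
  have h4 := hr2 v hv
  rw [← Int.cast_smul_eq_zsmul ℚ, smul_eq_zero] at h4
  rcases h4 with h4 | h4
  · exact absurd (by exact_mod_cast h4) hr0
  · exact h4

end grp

section lat

variable {E V W : Type*} [AddCommGroup E] [Module ℚ E] [AddCommGroup V] [Module ℚ V]
  [AddCommGroup W] [Module ℚ W] {Γ : Type*} [AddCommGroup Γ] {a b : ℕ}

/-- extension of an integral linear map -/
def ext (jE : Γ →+ E) (f : (Fin a → ℤ) →ₗ[ℤ] Γ) : (Fin a → ℚ) →ₗ[ℚ] E where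
  toFun v := ∑ j, v j • jE (f (Pi.single j 1))
  map_add' v w := by
    rw [← Finset.sum_add_distrib]
    exact Finset.sum_congr rfl fun j _ => by rw [Pi.add_apply, add_smul]
  map_smul' c v := by
    rw [RingHom.id_apply, Finset.smul_sum]
    exact Finset.sum_congr rfl fun j _ => by rw [Pi.smul_apply, smul_eq_mul, mul_smul]

theorem ext_apply (jE : Γ →+ E) (f : (Fin a → ℤ) →ₗ[ℤ] Γ) (v : Fin a → ℚ) :
    ext jE f v = ∑ j, v j • jE (f (Pi.single j 1)) := rfl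

theorem ext_cV (jE : Γ →+ E) (f : (Fin a → ℤ) →ₗ[ℤ] Γ) (z : Fin a → ℤ) :
    ext jE f (cV z) = jE (f z) := by
  have h1 : z = ∑ j, z j • (Pi.single j (1 : ℤ) : Fin a → ℤ) := by
    funext i
    rw [Finset.sum_apply]
    simp [Pi.single_apply]
  conv_rhs => rw [h1]
  rw [map_sum, map_sum, ext_apply]
  refine Finset.sum_congr rfl fun j _ => ?_
  rw [map_smul, map_zsmul, cV, Int.cast_smul_eq_zsmul ℚ]

theorem mem_rg (n : ℕ) (jE : Γ →+ E) (z : Γ) : jE z ∈ locAt n jE.range :=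
  le_locAt n jE.range ⟨z, rfl⟩

theorem ext_mem (jE : Γ →+ E) (f : (Fin a → ℤ) →ₗ[ℤ] Γ) {n : ℕ} {v : Fin a → ℚ} (hv : NI n v) :
    ext jE f v ∈ locAt n jE.range := by
  rw [ext_apply]
  exact sum_mem fun j _ => smul_locAt (hv j) (mem_rg n jE _)

/-- the dimension group, seen in `V` through `P : V → ℚ^a` -/
def GG (A : Matrix (Fin a) (Fin a) ℕ) (P : V →ₗ[ℚ] (Fin a → ℚ)) : AddSubgroup V where
  carrier := {v | ∃ k : ℕ, ∃ z : Fin a → ℤ, P v ᵥ* toQ A ^ k = cV z}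
  zero_mem' := ⟨0, 0, by rw [map_zero, zero_vecMul]; funext j; simp [cV]⟩
  add_mem' := by
    rintro v w ⟨k, z, hz⟩ ⟨k', z', hz'⟩
    refine ⟨k + k', z ᵥ* zM A ^ k' + z' ᵥ* zM A ^ k, ?_⟩
    rw [cV_add, cV_vecMul, cV_vecMul, ← hz, ← hz', map_add, add_vecMul, vecMul_vecMul,
      vecMul_vecMul, ← pow_add, ← pow_add, add_comm k' k]
  neg_mem' := by
    rintro v ⟨k, z, hz⟩
    refine ⟨k, -z, ?_⟩
    rw [map_neg, neg_vecMul, hz]
    funext j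
    simp [cV]

theorem mem_GG {A : Matrix (Fin a) (Fin a) ℕ} {P : V →ₗ[ℚ] (Fin a → ℚ)} {v : V} :
    v ∈ GG A P ↔ ∃ k : ℕ, ∃ z : Fin a → ℤ, P v ᵥ* toQ A ^ k = cV z := Iff.rfl

theorem mem_locAt_GG {n : ℕ} {A : Matrix (Fin a) (Fin a) ℕ} {P : V →ₗ[ℚ] (Fin a → ℚ)} {v : V} :
    v ∈ locAt n (GG A P) ↔ ∃ k : ℕ, NI n (P v ᵥ* toQ A ^ k) := by
  constructor
  · rintro ⟨m, hm, hmn, k, z, hz⟩
    refine ⟨k, fun j => ⟨m, hm, hmn, z j, ?_⟩⟩
    have h1 := congrFun hz j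
    rw [map_nsmul, ← Nat.cast_smul_eq_nsmul ℚ, smul_vecMul, Pi.smul_apply, smul_eq_mul] at h1
    exact h1
  · rintro ⟨k, hk⟩
    obtain ⟨m, hm, hmn, z, hz⟩ := hk.exists_mul
    refine ⟨m, hm, hmn, k, z, ?_⟩
    rw [← hz, map_nsmul, ← Nat.cast_smul_eq_nsmul ℚ, smul_vecMul]

variable {A : Matrix (Fin a) (Fin a) ℕ} {P : V →ₗ[ℚ] (Fin a → ℚ)} {xV : V ≃ₗ[ℚ] V}

theorem iter_P (hP : ∀ v, P (xV v) = P v ᵥ* toQ A) (k : ℕ) (v : V) :
    P ((xV^[k]) v) = P v ᵥ* toQ A ^ k := by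
  induction k generalizing v with
  | zero => simp
  | succ k ih => rw [Function.iterate_succ_apply, ih, hP, vecMul_vecMul, ← pow_succ']

theorem GG_stab (hP : ∀ v, P (xV v) = P v ᵥ* toQ A) {n : ℕ} (k : ℕ) (v : V) :
    (xV^[k]) v ∈ locAt n (GG A P) ↔ v ∈ locAt n (GG A P) := by
  rw [mem_locAt_GG, mem_locAt_GG]
  constructor
  · rintro ⟨l, hl⟩
    refine ⟨k + l, ?_⟩
    rwa [iter_P hP, vecMul_vecMul, ← pow_add] at hl
  · rintro ⟨l, hl⟩
    refine ⟨l, ?_⟩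
    rw [iter_P hP, vecMul_vecMul, ← pow_add, add_comm, pow_add, ← vecMul_vecMul]
    exact hl.vecMul A k

variable {jE : Γ →+ E} {R : E →ₗ[ℚ] V} {GA : Γ → Fin a → ℤ}

/-- **(i)** bounded denominators -/
theorem bound (hE : ∀ v : E, ∃ m : ℕ, m ≠ 0 ∧ m • v ∈ jE.range)
    (hGA : ∀ z, P (R (jE z)) = cV (GA z)) {n D N : ℕ} (hn : n ≠ 0) (hD : D ≠ 0) (hN : D * n ∣ N)
    {R' : (Fin a → ℤ) →ₗ[ℤ] Γ} (h : ∀ z, ∃ w, R' (GA z) = (D : ℤ) • z + (N : ℤ) • w)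
    {v : E} (hv : NI n (P (R v))) : D • v ∈ locAt n jE.range := by
  obtain ⟨N1, rfl⟩ := hN
  obtain ⟨k, hk⟩ := exists_pow_locAt (n := n) hE (D • v)
  induction k with
  | zero => rwa [pow_zero, one_smul] at hk
  | succ k ih =>
    apply ih
    obtain ⟨t, ht, htn, z, hz⟩ := hk
    obtain ⟨w, hw⟩ := h z
    have h1 : ext jE R' (P (R (jE z))) = (D : ℤ) • jE z + ((D * n * N1 : ℕ) : ℤ) • jE w := by
      rw [hGA, ext_cV, hw, map_add, map_zsmul, map_zsmul]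
    have h2 : (D * n) • (t • (n ^ k • ext jE R' (P (R v)))) =
        (D * n) • (t • (n ^ k • (D • v)) + N1 • jE w) := by
      have h3 : ext jE R' (P (R (jE z))) = (D * n) • (t • (n ^ k • ext jE R' (P (R v)))) := by
        rw [hz]
        simp only [map_nsmul, smul_smul]
        congr 1
        rw [pow_succ]
        ring
      rw [← h3, h1, hz]
      simp only [natCast_zsmul, smul_add, smul_smul]
      congr 2
      rw [pow_succ]
      ring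
    have h4 := nsmul_cancel (mul_ne_zero hD hn) h2
    have h5 : t • (n ^ k • (D • v)) ∈ locAt n jE.range := by
      have h6 : t • (n ^ k • (D • v)) = t • (n ^ k • ext jE R' (P (R v))) - N1 • jE w := by
        rw [h4]; abel
      rw [h6]
      exact sub_mem (nsmul_mem (nsmul_mem (ext_mem jE R' hv) _) _)
        (nsmul_mem (mem_rg n jE w) _)
    obtain ⟨t', ht', htn', h7⟩ := h5
    exact ⟨t' * t, mul_ne_zero ht' ht, Nat.Coprime.mul_left htn' htn, by rwa [mul_smul]⟩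

/-- `R` is injective -/
theorem inj (hΓ : jE.range.FG)
    (hE : ∀ v : E, ∃ m : ℕ, m ≠ 0 ∧ m • v ∈ jE.range)
    (hGA : ∀ z, P (R (jE z)) = cV (GA z)) {n D N : ℕ} (hn : 2 ≤ n) (hD : D ≠ 0) (hN : D * n ∣ N)
    {R' : (Fin a → ℤ) →ₗ[ℤ] Γ} (h : ∀ z, ∃ w, R' (GA z) = (D : ℤ) • z + (N : ℤ) • w) :
    Function.Injective R := by
  rw [injective_iff_map_eq_zero]
  let H : AddSubgroup E := jE.range ⊓ (LinearMap.ker R).toAddSubgroup
  have hH : H.FG := by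
    have h1 : (jE.range.toIntSubmodule).FG := by
      rw [Submodule.fg_iff_addSubgroup_fg, AddSubgroup.toIntSubmodule_toAddSubgroup]
      exact hΓ
    have h2 : (H.toIntSubmodule).FG := h1.of_le (fun v hv => hv.1)
    rw [Submodule.fg_iff_addSubgroup_fg, AddSubgroup.toIntSubmodule_toAddSubgroup] at h2
    exact h2
  have hdiv : ∀ v ∈ H, ∃ w ∈ H, v = n • w := by
    rintro _ ⟨⟨z, rfl⟩, hz⟩
    have hz' : R (jE z) = 0 := hz
    obtain ⟨w, hw⟩ := h z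
    have h2 : (0 : Γ) = (D : ℤ) • z + (N : ℤ) • w := by
      rw [← hw]
      have h3 : cV (GA z) = 0 := by rw [← hGA, hz', map_zero]
      have h4 : GA z = 0 := by
        funext j
        have := congrFun h3 j
        simpa [cV] using this
      rw [h4, map_zero]
    obtain ⟨N1, rfl⟩ := hN
    have h3 : D • jE z = D • (n • jE (-(N1 • w))) := by
      have h4 := congrArg jE h2
      rw [map_zero, map_add, map_zsmul, map_zsmul, natCast_zsmul, natCast_zsmul] at h4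
      rw [map_neg, map_nsmul]
      have h5 : D • jE z = -((D * n * N1) • jE w) := by
        rw [eq_neg_iff_add_eq_zero]; exact h4.symm
      rw [h5]
      simp only [smul_neg, smul_smul, mul_assoc]
    have h6 := nsmul_cancel hD h3
    refine ⟨jE (-(N1 • w)), ⟨⟨_, rfl⟩, ?_⟩, h6⟩
    show R (jE (-(N1 • w))) = 0
    apply nsmul_cancel (show n ≠ 0 by omega)
    rw [← map_nsmul, ← h6, smul_zero, hz']
  have hH0 := eq_zero_of_div hn hH hdiv
  intro v hv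
  obtain ⟨m, hm, hm2⟩ := hE v
  have h1 : m • v ∈ H := ⟨hm2, by
    show R (m • v) = 0
    rw [map_nsmul, hv, smul_zero]⟩
  rw [hH0, AddSubgroup.mem_bot] at h1
  apply nsmul_cancel hm
  rw [h1, smul_zero]

variable {B : Matrix (Fin b) (Fin b) ℕ} {Q : W →ₗ[ℚ] (Fin b → ℚ)} {xW : W ≃ₗ[ℚ] W}
  {m : E →ₗ[ℚ] W} {GB : Γ → Fin b → ℤ} {xE : E ≃ₗ[ℚ] E}

theorem iter_R (hR : ∀ z, R (xE z) = xV (R z)) (k : ℕ) (z : E) :
    R ((xE^[k]) z) = (xV^[k]) (R z) := by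
  induction k generalizing z with
  | zero => rfl
  | succ k ih => rw [Function.iterate_succ_apply, ih, hR, Function.iterate_succ_apply]

/-- **(ii)** `m (R⁻¹ U) ⊆ Y` -/
theorem loc_in (hE : ∀ v : E, ∃ m : ℕ, m ≠ 0 ∧ m • v ∈ jE.range)
    (hP : ∀ v, P (xV v) = P v ᵥ* toQ A) (hQ : ∀ w, Q (xW w) = Q w ᵥ* toQ B)
    (hR : ∀ z, R (xE z) = xV (R z)) (hm : ∀ z, m (xE z) = xW (m z))
    (hGA : ∀ z, P (R (jE z)) = cV (GA z)) (hGB : ∀ z, Q (m (jE z)) = cV (GB z))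
    {n D N : ℕ} (hn : n ≠ 0) (hD : D ≠ 0) (hN : D * n ∣ N)
    {R' : (Fin a → ℤ) →ₗ[ℤ] Γ} (h : ∀ z, ∃ w, R' (GA z) = (D : ℤ) • z + (N : ℤ) • w)
    {Ψ : (Fin a → ℤ) →ₗ[ℤ] (Fin b → ℤ)} (h' : ∀ z, ∃ w, Ψ (GA z) = GB z + (N : ℤ) • w)
    {v : E} (hv : R v ∈ locAt n (GG A P)) : m v ∈ locAt n (GG B Q) := by
  obtain ⟨k, hk⟩ := mem_locAt_GG.1 hv
  rw [← iter_P hP, ← iter_R hR] at hk
  set v' := (xE^[k]) v with hv'
  obtain ⟨t, ht, htn, z, hz⟩ := bound hE hGA hn hD hN h hk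
  rw [mem_locAt_GG]
  refine ⟨k, ?_⟩
  rw [← iter_P hQ, ← iter_R hm, ← hv']
  obtain ⟨w, hw⟩ := h' z
  let c : (Fin b → ℤ) →+ (Fin b → ℚ) :=
    { toFun := cV
      map_zero' := by funext j; simp [cV]
      map_add' := cV_add }
  have h1 : ext c Ψ (P (R (jE z))) = Q (m (jE z)) + (N : ℚ) • cV w := by
    rw [hGA, ext_cV, hw, hGB, map_add]
    show cV (GB z) + cV ((N : ℤ) • w) = _
    rw [cV_smul]
    push_cast
    rfl
  obtain ⟨N1, rfl⟩ := hN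
  have hD' : (D : ℚ) ≠ 0 := by exact_mod_cast hD
  have ht' : (t : ℚ) ≠ 0 := by exact_mod_cast ht
  have hz' : jE z = ((t : ℚ) * D) • v' := by
    rw [hz, ← Nat.cast_smul_eq_nsmul ℚ, ← Nat.cast_smul_eq_nsmul ℚ, smul_smul]
  have h2 : Q (m v') = ext c Ψ (P (R v')) - ((n : ℚ) * N1) • ((t : ℚ)⁻¹ • cV w) := by
    rw [hz'] at h1
    simp only [map_smul] at h1
    have h3 : ((t : ℚ) * D) • Q (m v') = ((t : ℚ) * D) • (ext c Ψ (P (R v')) -
        ((n : ℚ) * N1) • ((t : ℚ)⁻¹ • cV w)) := by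
      rw [smul_sub, h1, smul_smul, smul_smul]
      have h4 : (t : ℚ) * D * (n * N1) * (t : ℚ)⁻¹ = ((D * n * N1 : ℕ) : ℚ) := by
        push_cast
        field_simp
      rw [h4]
      abel
    exact smul_right_injective _ (mul_ne_zero ht' hD') h3
  rw [h2]
  refine NI.sub ?_ (((NI_cV n w).smul (inv_mem_Zl ht htn)).smul
    (mul_mem (nat_mem_Zl n n) (nat_mem_Zl n N1)))
  intro j
  have h5 : ext c Ψ (P (R v')) j = ∑ i, P (R v') i * (Ψ (Pi.single i 1) j : ℚ) := by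
    rw [ext_apply, Finset.sum_apply]
    rfl
  rw [h5]
  exact sum_mem fun i _ => mul_mem (hk i) (int_mem_Zl n _)

/-- **(iii)** `Y = m (R⁻¹ U) + n Y` -/
theorem onto_mod
    (hP : ∀ v, P (xV v) = P v ᵥ* toQ A) (hQ : ∀ w, Q (xW w) = Q w ᵥ* toQ B)
    (hR : ∀ z, R (xE z) = xV (R z)) (hm : ∀ z, m (xE z) = xW (m z))
    (hGA : ∀ z, P (R (jE z)) = cV (GA z)) (hGB : ∀ z, Q (m (jE z)) = cV (GB z))
    {n D N l : ℕ} (hn : n ≠ 0) (hD : D ≠ 0) (hN : D * n ∣ N)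
    {T : (Fin b → ℤ) →ₗ[ℤ] Γ} {T' : (Fin b → ℤ) →ₗ[ℤ] (Fin a → ℤ)}
    (h : ∀ w, ∃ u, GA (T w) = (D : ℤ) • T' w + (N : ℤ) • u)
    (h' : ∀ w, ∃ u, GB (T w) = (D : ℤ) • (w ᵥ* zM B ^ l) + (N : ℤ) • u)
    {y : W} (hy : y ∈ locAt n (GG B Q)) :
    ∃ w ∈ locAt n (GG B Q), y - n • w ∈ imU R m (locAt n (GG A P)) := by
  obtain ⟨k, hk⟩ := mem_locAt_GG.1 hy
  obtain ⟨t, ht, htn, z, hz⟩ := hk.exists_mul
  obtain ⟨u, hu⟩ := h z
  obtain ⟨u', hu'⟩ := h' z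
  obtain ⟨N1, rfl⟩ := hN
  have hD' : (D : ℚ) ≠ 0 := by exact_mod_cast hD
  have ht' : (t : ℚ) ≠ 0 := by exact_mod_cast ht
  have hn' : (n : ℚ) ≠ 0 := by exact_mod_cast hn
  set z1 : E := ((D : ℚ) * t)⁻¹ • jE (T z) with hz1
  have e1 : P (R z1) = (t : ℚ)⁻¹ • (cV (T' z) + ((n : ℚ) * N1) • cV u) := by
    rw [hz1, map_smul, map_smul, hGA, hu, cV_add, cV_smul, cV_smul, smul_add, smul_add,
      smul_smul, smul_smul, smul_smul]
    congr 2
    · push_cast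
      field_simp
    · push_cast
      field_simp
  have e2 : Q (m z1) = Q ((xW^[k + l]) y) + (n : ℚ) • (((N1 : ℚ) * (t : ℚ)⁻¹) • cV u') := by
    rw [hz1, map_smul, map_smul, hGB, hu', cV_add, cV_smul, cV_smul, cV_vecMul, ← hz, smul_add,
      smul_smul, smul_smul, iter_P hQ, pow_add, ← vecMul_vecMul, smul_smul, smul_vecMul,
      smul_smul]
    congr 1
    · have : ((D : ℚ) * t)⁻¹ * ((D : ℤ) : ℚ) * t = 1 := by
        push_cast
        field_simp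
      rw [this, one_smul]
    · congr 1
      push_cast
      field_simp
  set w2 : W := (n : ℚ)⁻¹ • (m z1 - (xW^[k + l]) y) with hw2
  have e3 : Q w2 = ((N1 : ℚ) * (t : ℚ)⁻¹) • cV u' := by
    rw [hw2, map_smul, map_sub, e2, add_sub_cancel_left, smul_smul, inv_mul_cancel₀ hn', one_smul]
  have e4 : w2 ∈ locAt n (GG B Q) := by
    rw [mem_locAt_GG]
    refine ⟨0, ?_⟩
    rw [pow_zero, vecMul_one, e3]
    exact (NI_cV n u').smul (mul_mem (nat_mem_Zl n N1) (inv_mem_Zl ht htn))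
  have e5 : R z1 ∈ locAt n (GG A P) := by
    rw [mem_locAt_GG]
    refine ⟨0, ?_⟩
    rw [pow_zero, vecMul_one, e1]
    exact ((NI_cV n (T' z)).add ((NI_cV n u).smul
      (mul_mem (nat_mem_Zl n n) (nat_mem_Zl n N1)))).smul (inv_mem_Zl ht htn)
  obtain ⟨zz, hzz⟩ := (xE.surjective.iterate (k + l)) z1
  obtain ⟨w0, hw0⟩ := (xW.surjective.iterate (k + l)) w2
  refine ⟨-w0, neg_mem ?_, zz, ?_, ?_⟩
  · rw [← GG_stab hQ (k + l), hw0]
    exact e4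
  · rw [← GG_stab hP (k + l), ← iter_R hR, hzz]
    exact e5
  · apply (xW.injective.iterate (k + l))
    have e6 : (xW^[k + l]) (y - n • (-w0)) = (xW^[k + l]) y + n • (xW^[k + l]) w0 := by
      rw [smul_neg, sub_neg_eq_add, iterate_map_add, iterate_map_nsmul]
    rw [← iter_R hm, hzz, e6, hw0, hw2, ← Nat.cast_smul_eq_nsmul ℚ, smul_smul,
      mul_inv_cancel₀ hn', one_smul]
    abel

theorem exists_den (v : V) : ∃ D : ℕ, D ≠ 0 ∧ D • v ∈ GG A P := by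
  refine ⟨∏ j, (P v j).den, Finset.prod_ne_zero_iff.2 fun j _ => (P v j).den_nz, 0,
    fun j => (∏ i ∈ Finset.univ.erase j, ((P v i).den : ℤ)) * (P v j).num, ?_⟩
  rw [pow_zero, vecMul_one, map_nsmul, ← Nat.cast_smul_eq_nsmul ℚ]
  funext j
  rw [Pi.smul_apply, smul_eq_mul, ← Finset.mul_prod_erase _ _ (Finset.mem_univ j)]
  simp only [cV]
  push_cast
  have h1 : ((P v j).den : ℚ) * P v j = (P v j).num := by
    rw [mul_comm]; exact Rat.mul_den_eq_num (P v j)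
  rw [← h1]
  ring

/-- the integral points of `W` -/
def GI (Q : W →ₗ[ℚ] (Fin b → ℚ)) : AddSubgroup W where
  carrier := {w | ∃ z : Fin b → ℤ, Q w = cV z}
  zero_mem' := ⟨0, by rw [map_zero]; funext j; simp [cV]⟩
  add_mem' := by
    rintro v w ⟨z, hz⟩ ⟨z', hz'⟩
    exact ⟨z + z', by rw [map_add, hz, hz', cV_add]⟩
  neg_mem' := by
    rintro v ⟨z, hz⟩
    exact ⟨-z, by rw [map_neg, hz]; funext j; simp [cV]⟩

theorem GI_fg (hQi : Function.Injective Q) : (GI Q).FG := by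
  let c : (Fin b → ℤ) →ₗ[ℤ] (Fin b → ℚ) :=
    { toFun := cV
      map_add' := cV_add
      map_smul' := fun r z => by
        rw [cV_smul, Int.cast_smul_eq_zsmul, RingHom.id_apply] }
  have h1 : (LinearMap.range c).FG := by
    rw [LinearMap.range_eq_map]
    exact Module.Finite.fg_top.map c
  let q : W →ₗ[ℤ] (Fin b → ℚ) := Q.toAddMonoidHom.toIntLinearMap
  have h2 : ((GI Q).toIntSubmodule.map q).FG := by
    apply h1.of_le
    rintro _ ⟨w, ⟨z, hz⟩, rfl⟩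
    exact ⟨z, hz.symm⟩
  have h3 : ((GI Q).toIntSubmodule).FG := Submodule.fg_of_fg_map_injective q hQi h2
  rw [Submodule.fg_iff_addSubgroup_fg, AddSubgroup.toIntSubmodule_toAddSubgroup] at h3
  exact h3

theorem lfg_GG (hQ : ∀ w, Q (xW w) = Q w ᵥ* toQ B) (hQi : Function.Injective Q) (n : ℕ) :
    LFG n xW (locAt n (GG B Q)) := by
  refine lfg_locAt (GI_fg hQi) (fun w => ?_) ?_
  · rw [mem_GG]
    constructor
    · rintro ⟨k, z, hz⟩
      exact ⟨k, z, by rw [iter_P hQ, hz]⟩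
    · rintro ⟨k, z, hz⟩
      exact ⟨k, z, by rw [← hz, iter_P hQ]⟩
  · rintro w ⟨z, hz⟩
    refine ⟨z ᵥ* zM B ^ 1, ?_⟩
    rw [cV_vecMul, hQ, hz, pow_one]

theorem locAt_div {n : ℕ} {U : AddSubgroup V} {m : ℕ} {w : V} (hm : m ≠ 0) (hmn : m.Coprime n)
    (h : m • w ∈ locAt n U) : w ∈ locAt n U := by
  obtain ⟨t, ht, htn, h⟩ := h
  exact ⟨t * m, mul_ne_zero ht hm, Nat.Coprime.mul_left htn hmn, by rwa [mul_smul]⟩

/-- **The condition localised at `n`** -/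
theorem loc_of_ids (hE : ∀ v : E, ∃ m : ℕ, m ≠ 0 ∧ m • v ∈ jE.range)
    (hP : ∀ v, P (xV v) = P v ᵥ* toQ A) (hQ : ∀ w, Q (xW w) = Q w ᵥ* toQ B)
    (hQi : Function.Injective Q)
    (hR : ∀ z, R (xE z) = xV (R z)) (hm : ∀ z, m (xE z) = xW (m z))
    (hGA : ∀ z, P (R (jE z)) = cV (GA z)) (hGB : ∀ z, Q (m (jE z)) = cV (GB z))
    {n D N l : ℕ} (hn : n ≠ 0) (hD : D ≠ 0) (hN : D * n ∣ N)
    {R' : (Fin a → ℤ) →ₗ[ℤ] Γ} {Ψ : (Fin a → ℤ) →ₗ[ℤ] (Fin b → ℤ)}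
    {T : (Fin b → ℤ) →ₗ[ℤ] Γ} {T' : (Fin b → ℤ) →ₗ[ℤ] (Fin a → ℤ)}
    (h1 : ∀ z, ∃ w, R' (GA z) = (D : ℤ) • z + (N : ℤ) • w)
    (h2 : ∀ z, ∃ w, Ψ (GA z) = GB z + (N : ℤ) • w)
    (h3 : ∀ w, ∃ u, GA (T w) = (D : ℤ) • T' w + (N : ℤ) • u)
    (h4 : ∀ w, ∃ u, GB (T w) = (D : ℤ) • (w ᵥ* zM B ^ l) + (N : ℤ) • u)
    (hs : Function.Surjective m) :
    Loc R m (locAt n (GG A P)) (locAt n (GG B Q)) := by
  refine ⟨fun z hz => loc_in hE hP hQ hR hm hGA hGB hn hD hN h1 h2 hz, ?_⟩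
  have hY := lfg_GG hQ hQi n
  have hdiv : ∀ (k : ℕ) (w : W), k ≠ 0 → k.Coprime n → k • w ∈ imU R m (locAt n (GG A P)) →
      w ∈ imU R m (locAt n (GG A P)) := by
    rintro k w hk hkn ⟨z, hz, hz2⟩
    refine ⟨(k : ℚ)⁻¹ • z, locAt_div hk hkn ?_, ?_⟩
    · rw [← map_nsmul, inv_nsmul hk]; exact hz
    · apply nsmul_cancel hk
      rw [← map_nsmul, inv_nsmul hk, hz2]
  have hst : ∀ w, xW w ∈ imU R m (locAt n (GG A P)) → w ∈ imU R m (locAt n (GG A P)) := by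
    rintro w ⟨z, hz, hz2⟩
    obtain ⟨z', rfl⟩ := xE.surjective z
    refine ⟨z', ?_, ?_⟩
    · rw [← GG_stab hP 1]
      rw [hR] at hz
      exact hz
    · apply xW.injective
      rw [← hm, hz2]
  have hpow : ∀ w ∈ locAt n (GG B Q), ∃ k : ℕ, n ^ k • w ∈ imU R m (locAt n (GG A P)) := by
    intro w _
    obtain ⟨z, rfl⟩ := hs w
    obtain ⟨k, hk⟩ := exists_pow_locAt (n := n) (G := GG A P) exists_den (R z)
    exact ⟨k, n ^ k • z, by rw [map_nsmul]; exact hk, map_nsmul m _ z⟩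
  obtain ⟨k, hk⟩ := hY.pow_mem hdiv hst hpow
  have hrep : ∀ j : ℕ, ∀ y ∈ locAt n (GG B Q), ∃ w ∈ locAt n (GG B Q),
      y - n ^ j • w ∈ imU R m (locAt n (GG A P)) := by
    intro j
    induction j with
    | zero =>
      intro y hy
      exact ⟨y, hy, by rw [pow_zero, one_smul, sub_self]; exact AddSubgroup.zero_mem _⟩
    | succ j ih =>
      intro y hy
      obtain ⟨w, hw, hw2⟩ := ih y hy
      obtain ⟨w', hw', hw3⟩ := onto_mod hP hQ hR hm hGA hGB hn hD hN h3 h4 hw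
      refine ⟨w', hw', ?_⟩
      have h5 : y - n ^ (j + 1) • w' = (y - n ^ j • w) + n ^ j • (w - n • w') := by
        rw [smul_sub, smul_smul, pow_succ]
        abel
      rw [h5]
      exact AddSubgroup.add_mem _ hw2 (AddSubgroup.nsmul_mem _ hw3 _)
  intro y hy
  obtain ⟨w, hw, hw2⟩ := hrep k y hy
  have h5 : y = (y - n ^ k • w) + n ^ k • w := by abel
  have h6 : y ∈ imU R m (locAt n (GG A P)) := by
    rw [h5]
    exact AddSubgroup.add_mem _ hw2 (hk w hw)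
  exact h6

/-- **`m` is surjective**: `jW : Λ → W` a lattice with an integral left inverse `Q'` of `Q`,
`q` prime to `g0`, `g0 ^ h Λ ⊆ x ^ l Λ`. -/
theorem surj_of_ids {Λ : Type*} [AddCommGroup Λ] {jW : Λ →+ W}
    (hW : ∀ v : W, ∃ m : ℕ, m ≠ 0 ∧ m • v ∈ jW.range) (hWfg : jW.range.FG)
    {Qs : Λ →ₗ[ℤ] (Fin b → ℤ)} {Q' : (Fin b → ℤ) →ₗ[ℤ] Λ} {Δ : ℕ} (hΔ : Δ ≠ 0)
    (hQs : ∀ w, Q' (Qs w) = (Δ : ℤ) • w)
    {xL : Λ → Λ} (hxL : ∀ w, Qs (xL w) = Qs w ᵥ* zM B)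
    {mL : Γ → Λ} (hmL : ∀ z, m (jE z) = jW (mL z)) (hGB : ∀ z, GB z = Qs (mL z))
    {n D N l q : ℕ} (hD : D ≠ 0) (hN : Δ * D * n ∣ N) (hq : 2 ≤ q) (hqn : q ∣ n)
    {g0 : ℤ} (hg0 : IsCoprime g0 q)
    (hx : ∀ w, ∃ (h : ℕ) (w' : Λ), xL^[l] w' = g0 ^ h • w)
    {T : (Fin b → ℤ) →ₗ[ℤ] Γ}
    (h4 : ∀ w, ∃ u, GB (T w) = (D : ℤ) • (w ᵥ* zM B ^ l) + (N : ℤ) • u) :
    Function.Surjective m := by
  classical
  obtain ⟨N1, rfl⟩ := hN
  obtain ⟨n', rfl⟩ := hqn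
  let S : Submodule ℚ W := LinearMap.range m
  let H : AddSubgroup (W ⧸ S) := jW.range.map S.mkQ.toAddMonoidHom
  have hH : H.FG := by
    obtain ⟨F, hF⟩ := hWfg
    refine ⟨F.image S.mkQ.toAddMonoidHom, ?_⟩
    rw [Finset.coe_image, ← AddMonoidHom.map_closure, hF]
  have hxl : ∀ (k : ℕ) (w : Λ), Qs (xL^[k] w) = Qs w ᵥ* zM B ^ k := by
    intro k
    induction k with
    | zero => intro w; simp
    | succ k ih =>
      intro w
      rw [Function.iterate_succ_apply, ih, hxL, vecMul_vecMul, ← pow_succ']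
  have hdiv : ∀ v ∈ H, ∃ w ∈ H, v = q • w := by
    rintro _ ⟨_, ⟨w, rfl⟩, rfl⟩
    obtain ⟨h, w', hw'⟩ := hx w
    obtain ⟨u, hu⟩ := h4 (Qs w')
    rw [← hxl, hw', map_smul, hGB] at hu
    have h5 := congrArg Q' hu
    rw [map_add, map_smul, map_smul, map_smul, hQs, hQs] at h5
    have h6 := congrArg (fun x => S.mkQ (jW x)) h5
    simp only [map_add, map_zsmul] at h6
    have h7 : S.mkQ (jW (mL (T (Qs w')))) = 0 := by
      rw [← hmL, Submodule.mkQ_apply, Submodule.Quotient.mk_eq_zero]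
      exact ⟨_, rfl⟩
    rw [h7, smul_zero] at h6
    set W1 := S.mkQ (jW w) with hW1
    set W2 := S.mkQ (jW (Q' u)) with hW2
    have h8 : g0 ^ h • W1 = -(((q * n' * N1 : ℕ) : ℤ) • W2) := by
      have h9 : (Δ * D) • (g0 ^ h • W1) = (Δ * D) • (-(((q * n' * N1 : ℕ) : ℤ) • W2)) := by
        rw [smul_neg, eq_neg_iff_add_eq_zero]
        rw [h6]
        simp only [← natCast_zsmul, smul_smul]
        push_cast
        congr 2 <;> ring
      exact nsmul_cancel (mul_ne_zero hΔ hD) h9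
    obtain ⟨α, β, hαβ⟩ := (hg0.pow_left : IsCoprime (g0 ^ h) (q : ℤ))
    have hm1 : W1 ∈ H := ⟨_, ⟨w, rfl⟩, rfl⟩
    have hm2 : W2 ∈ H := ⟨_, ⟨Q' u, rfl⟩, rfl⟩
    refine ⟨-((α * (n' * N1 : ℕ)) • W2) + β • W1, ?_, ?_⟩
    · exact add_mem (neg_mem (zsmul_mem hm2 _)) (zsmul_mem hm1 _)
    · show W1 = _
      have h9 : W1 = α • (g0 ^ h • W1) + (β * q) • W1 := by
        rw [smul_smul, ← add_smul, hαβ, one_smul]
      rw [h8] at h9
      conv_lhs => rw [h9]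
      rw [← natCast_zsmul _ q]
      push_cast
      module
  have hH0 := eq_zero_of_div hq hH hdiv
  intro w
  obtain ⟨k, hk, z, hz⟩ := hW w
  have h1 : S.mkQ (jW z) ∈ H := ⟨_, ⟨z, rfl⟩, rfl⟩
  rw [hH0, AddSubgroup.mem_bot, hz, Submodule.mkQ_apply, Submodule.Quotient.mk_eq_zero] at h1
  obtain ⟨e, he⟩ := h1
  refine ⟨(k : ℚ)⁻¹ • e, ?_⟩
  rw [map_smul, he, ← Nat.cast_smul_eq_nsmul ℚ, smul_smul, inv_mul_cancel₀ (by exact_mod_cast hk),
    one_smul]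

end lat

end Pool.Agent.DEC.Tst
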