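import Mathlib

/-!
# MP_59dda0_an, block U: the box lemma (pigeonhole)
-/

set_option autoImplicit false

namespace Pool.Agent.DEC

/-- a vector of a lattice with prescribed sizes of `d` linear forms -/
theorem exists_box {d : ℕ} (hd : 0 < d) (I : AddSubgroup (Fin d → ℤ)) (hI : I.index ≠ 0)
    (u : Fin d → (Fin d → ℤ) →+ ℝ) {R : ℝ} (hR : 0 < R)
    (hu : ∀ j i, |u j (Pi.single i 1)| ≤ R) (T : Fin d → ℝ) (hT : ∀ j, 0 < T j)
    (hprod : (I.index : ℝ) ≤ ∏ j, T j) :
    ∃ y ∈ I, y ≠ 0 ∧ ∀ j, |u j y| ≤ 8 * d * R * T j := by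
  classical
  have hdR : (0 : ℝ) < d := by exact_mod_cast hd
  -- the size of the box
  obtain ⟨X, hX1, hX⟩ : ∃ X : ℕ, 1 ≤ X ∧ ∀ j, 2 * T j ≤ X := by
    obtain ⟨B, hB⟩ := (Set.finite_range fun j => 2 * T j).bddAbove
    obtain ⟨X, hX⟩ := exists_nat_ge B
    refine ⟨X + 1, by omega, fun j => ?_⟩
    have := hB ⟨j, rfl⟩
    push_cast
    simp only at this
    linarith
  have hX0 : (0 : ℝ) < X := by exact_mod_cast hX1
  -- the vectors
  let w : (Fin d → Fin (X + 1)) → Fin d → ℤ := fun v i => (v i : ℕ)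
  have hw : ∀ v j, |u j (w v)| ≤ d * R * X := by
    intro v j
    have e1 : w v = ∑ i, (w v i) • (Pi.single i (1 : ℤ) : Fin d → ℤ) := by
      funext k
      rw [Finset.sum_apply, Finset.sum_eq_single k]
      · simp
      · intro b _ hb
        simp [Pi.single_eq_of_ne' hb]
      · intro h; exact absurd (Finset.mem_univ k) h
    rw [e1, map_sum]
    refine (Finset.abs_sum_le_sum_abs _ _).trans ?_
    have e2 : ∀ i ∈ (Finset.univ : Finset (Fin d)),
        |u j ((w v i) • (Pi.single i (1 : ℤ) : Fin d → ℤ))| ≤ R * X := by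
      intro i _
      rw [map_zsmul, zsmul_eq_mul, abs_mul]
      have h1 : |((w v i : ℤ) : ℝ)| ≤ X := by
        show |(((v i : ℕ) : ℤ) : ℝ)| ≤ X
        have h2 : (v i : ℕ) ≤ X := Nat.lt_succ_iff.1 (v i).2
        rw [Int.cast_natCast, abs_of_nonneg (Nat.cast_nonneg _)]
        exact_mod_cast h2
      calc |((w v i : ℤ) : ℝ)| * |u j (Pi.single i 1)| ≤ X * R :=
            mul_le_mul h1 (hu j i) (abs_nonneg _) hX0.le
        _ = R * X := mul_comm _ _
    refine (Finset.sum_le_sum e2).trans ?_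
    rw [Finset.sum_const, Finset.card_univ, Fintype.card_fin, nsmul_eq_mul]
    exact le_of_eq (by ring)
  -- the cells
  let L : Fin d → ℝ := fun j => 8 * d * R * T j
  have hL : ∀ j, 0 < L j := fun j => by
    have := hT j
    show 0 < 8 * d * R * T j
    positivity
  let n : Fin d → ℕ := fun j => ⌊(X : ℝ) / (4 * T j)⌋₊ + 1
  have hn : ∀ j, (n j : ℝ) ≤ X / T j := by
    intro j
    have h1 : (⌊(X : ℝ) / (4 * T j)⌋₊ : ℝ) ≤ X / (4 * T j) :=
      Nat.floor_le (by have := hT j; positivity)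
    have h2 : (1 : ℝ) ≤ 3 * (X / (4 * T j)) := by
      rw [← mul_div_assoc, le_div_iff₀ (by have := hT j; positivity)]
      have := hX j
      have := hT j
      linarith
    have h3 : (X : ℝ) / T j = 4 * (X / (4 * T j)) := by
      have := (hT j).ne'
      field_simp
    show ((⌊(X : ℝ) / (4 * T j)⌋₊ + 1 : ℕ) : ℝ) ≤ X / T j
    push_cast
    rw [h3]
    linarith
  have hcell : ∀ v j, ⌊(u j (w v) + d * R * X) / L j⌋₊ < n j := by
    intro v j
    show _ < ⌊(X : ℝ) / (4 * T j)⌋₊ + 1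
    rw [Nat.lt_succ_iff]
    refine Nat.floor_le_floor ?_
    have h1 := (abs_le.1 (hw v j)).2
    have hTj := hT j
    rw [div_le_div_iff₀ (hL j) (by positivity)]
    have h2 : u j (w v) + d * R * X ≤ 2 * (d * R * X) := by linarith
    calc (u j (w v) + d * R * X) * (4 * T j) ≤ 2 * (d * R * X) * (4 * T j) :=
          mul_le_mul_of_nonneg_right h2 (by positivity)
      _ = X * (8 * d * R * T j) := by ring
      _ = X * L j := rfl
  have : I.FiniteIndex := ⟨hI⟩
  have : Fintype ((Fin d → ℤ) ⧸ I) := AddSubgroup.fintypeQuotientOfFiniteIndex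
  let f : (Fin d → Fin (X + 1)) → ((Fin d → ℤ) ⧸ I) × ((j : Fin d) → Fin (n j)) := fun v =>
    (QuotientAddGroup.mk (w v), fun j => ⟨⌊(u j (w v) + d * R * X) / L j⌋₊, hcell v j⟩)
  have hcard : Fintype.card (((Fin d → ℤ) ⧸ I) × ((j : Fin d) → Fin (n j))) <
      Fintype.card (Fin d → Fin (X + 1)) := by
    rw [Fintype.card_prod, Fintype.card_pi, Fintype.card_fun, Fintype.card_fin, Fintype.card_fin]
    simp only [Fintype.card_fin]
    have e1 : Fintype.card ((Fin d → ℤ) ⧸ I) = I.index := by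
      rw [AddSubgroup.index_eq_card, Nat.card_eq_fintype_card]
    rw [e1]
    have h1 : ((I.index * ∏ j, n j : ℕ) : ℝ) ≤ (X : ℝ) ^ d := by
      push_cast
      have hP : 0 < ∏ j, T j := Finset.prod_pos fun j _ => hT j
      calc (I.index : ℝ) * ∏ j, (n j : ℝ) ≤ (∏ j, T j) * ∏ j, ((X : ℝ) / T j) := by
            refine mul_le_mul hprod (Finset.prod_le_prod (fun j _ => Nat.cast_nonneg _)
              fun j _ => hn j) (Finset.prod_nonneg fun j _ => Nat.cast_nonneg _) hP.le
        _ = ∏ j, (X : ℝ) := by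
            rw [← Finset.prod_mul_distrib]
            refine Finset.prod_congr rfl fun j _ => ?_
            exact mul_div_cancel₀ _ (hT j).ne'
        _ = (X : ℝ) ^ d := by rw [Finset.prod_const, Finset.card_univ, Fintype.card_fin]
    have h2 : I.index * ∏ j, n j ≤ X ^ d := by exact_mod_cast h1
    refine h2.trans_lt ?_
    exact Nat.pow_lt_pow_left (Nat.lt_succ_self X) hd.ne'
  obtain ⟨v, v', hne, hf⟩ := Fintype.exists_ne_map_eq_of_card_lt f hcard
  have hf1 : (QuotientAddGroup.mk (w v) : (Fin d → ℤ) ⧸ I) = QuotientAddGroup.mk (w v') :=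
    congrArg Prod.fst hf
  have hf2 : ∀ j, ⌊(u j (w v) + d * R * X) / L j⌋₊ = ⌊(u j (w v') + d * R * X) / L j⌋₊ := by
    intro j
    have := congrArg (fun p : ((Fin d → ℤ) ⧸ I) × ((j : Fin d) → Fin (n j)) =>
      ((p.2 j : Fin (n j)) : ℕ)) hf
    exact this
  refine ⟨-w v + w v', QuotientAddGroup.eq.1 hf1, ?_, ?_⟩
  · intro h0
    apply hne
    have h1 : w v = w v' := neg_add_eq_zero.1 h0
    funext i
    have h2 := congrFun h1 i
    have h3 : ((v i : ℕ) : ℤ) = ((v' i : ℕ) : ℤ) := h2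
    exact Fin.ext (by exact_mod_cast h3)
  · intro j
    have hnn : ∀ v : Fin d → Fin (X + 1), 0 ≤ (u j (w v) + d * R * X) / L j := fun v => by
      have := (abs_le.1 (hw v j)).1
      exact div_nonneg (by linarith) (hL j).le
    have a1 := Nat.floor_le (hnn v)
    have a2 := Nat.lt_floor_add_one ((u j (w v) + d * R * X) / L j)
    have b1 := Nat.floor_le (hnn v')
    have b2 := Nat.lt_floor_add_one ((u j (w v') + d * R * X) / L j)
    rw [hf2 j] at a1 a2
    have c1 : |(u j (w v') + d * R * X) / L j - (u j (w v) + d * R * X) / L j| ≤ 1 := by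
      rw [abs_le]; constructor <;> linarith
    have c2 : (u j (w v') + d * R * X) / L j - (u j (w v) + d * R * X) / L j =
        (u j (-w v + w v')) / L j := by
      rw [map_add, map_neg, ← sub_div]
      congr 1
      ring
    rw [c2, abs_div, abs_of_pos (hL j), div_le_one (hL j)] at c1
    exact c1

end Pool.Agent.DEC
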