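import Mathlib

/-! DEC project (MP_59dda0_an): cutting a walk in an abelian group modulo a subgroup. -/

namespace Pool.Agent.DEC

/-- A walk in an abelian group whose points lie in at most `P` classes modulo a subgroup `H` can be
replaced by a product of fewer than `P` steps, with the same end modulo `H`. -/
theorem cut_walk {G : Type*} [CommGroup G] (H : Subgroup G) (S : Set G) {C : Type*} [Fintype C]
    (m : ℕ) : ∀ (z : ℕ → G) (f : ℕ → C), (∀ k < m, z (k + 1) / z k ∈ S) →
      (∀ k k', k ≤ m → k' ≤ m → f k = f k' → z k / z k' ∈ H) →
      ∃ l : List G, l.length < Fintype.card C ∧ (∀ s ∈ l, s ∈ S) ∧ l.prod / (z m / z 0) ∈ H := by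
  induction m using Nat.strong_induction_on with
  | _ m ih =>
    intro z f hz hf
    by_cases hm : m < Fintype.card C
    · refine ⟨List.ofFn (fun k : Fin m => z (k + 1) / z k), ?_, ?_, ?_⟩
      · simpa using hm
      · intro s hs
        rw [List.mem_ofFn] at hs
        obtain ⟨k, rfl⟩ := hs
        exact hz k k.2
      · have : (List.ofFn (fun k : Fin m => z (k + 1) / z k)).prod = z m / z 0 := by
          rw [List.prod_ofFn, Fin.prod_univ_eq_prod_range (fun k => z (k + 1) / z k) m,
            Finset.prod_range_div]
        rw [this, div_self']
        exact H.one_mem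
    · push Not at hm
      obtain ⟨k, k', hkk, hk', hff⟩ : ∃ k k', k < k' ∧ k' ≤ m ∧ f k = f k' := by
        have hc : Fintype.card C < Fintype.card (Fin (m + 1)) := by
          rw [Fintype.card_fin]; omega
        obtain ⟨a, b, hab, hfab⟩ := Fintype.exists_ne_map_eq_of_card_lt
          (fun k : Fin (m + 1) => f k) hc
        rcases lt_or_gt_of_ne hab with h | h
        · exact ⟨a, b, h, Nat.lt_succ_iff.mp b.2, hfab⟩
        · exact ⟨b, a, h, Nat.lt_succ_iff.mp a.2, hfab.symm⟩
      have hh : z k / z k' ∈ H := hf k k' (by omega) hk' hff
      set δ := k' - k with hδ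
      have hδ0 : 0 < δ := by omega
      set z' : ℕ → G := fun j => if j ≤ k then z j else z (j + δ) * (z k / z k') with hz'
      set f' : ℕ → C := fun j => if j ≤ k then f j else f (j + δ) with hf'
      have hA : ∀ j < m - δ, z' (j + 1) / z' j ∈ S := by
        intro j hj
        simp only [hz']
        by_cases h1 : j + 1 ≤ k
        · rw [if_pos h1, if_pos (by omega)]
          exact hz j (by omega)
        · rw [if_neg h1]
          by_cases h2 : j ≤ k
          · rw [if_pos h2]
            have hjk : j = k := by omega
            subst hjk
            have : z (j + 1 + δ) * (z j / z k') / z j = z (k' + 1) / z k' := by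
              rw [show j + 1 + δ = k' + 1 by omega, mul_div_assoc, div_div_cancel_left,
                ← div_eq_mul_inv]
            rw [this]
            exact hz k' (by omega)
          · rw [if_neg h2, mul_div_mul_right_eq_div, show j + 1 + δ = (j + δ) + 1 by omega]
            exact hz (j + δ) (by omega)
      have hB : ∀ i j, i ≤ m - δ → j ≤ m - δ → f' i = f' j → z' i / z' j ∈ H := by
        intro i j hi hj hij
        simp only [hz', hf'] at hij ⊢
        by_cases h1 : i ≤ k <;> by_cases h2 : j ≤ k
        · rw [if_pos h1, if_pos h2] at hij ⊢
          exact hf i j (by omega) (by omega) hij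
        · rw [if_pos h1, if_neg h2] at hij ⊢
          rw [← div_div]
          exact H.div_mem (hf _ _ (by omega) (by omega) hij) hh
        · rw [if_neg h1, if_pos h2] at hij ⊢
          rw [mul_div_right_comm]
          exact H.mul_mem (hf _ _ (by omega) (by omega) hij) hh
        · rw [if_neg h1, if_neg h2] at hij ⊢
          rw [mul_div_mul_right_eq_div]
          exact hf _ _ (by omega) (by omega) hij
      obtain ⟨l, hl1, hl2, hl3⟩ := ih (m - δ) (by omega) z' f' hA hB
      refine ⟨l, hl1, hl2, ?_⟩
      simp only [hz', zero_le, if_true] at hl3
      by_cases hmk : m - δ ≤ k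
      · rw [if_pos hmk] at hl3
        have hk'm : k' = m := by omega
        have hkm : m - δ = k := by omega
        rw [hkm] at hl3
        subst hk'm
        have : l.prod / (z k' / z 0) = l.prod / (z k / z 0) * (z k / z k') := by
          rw [div_div_eq_mul_div, div_div_eq_mul_div, div_mul_div_cancel]
        rw [this]
        exact H.mul_mem hl3 hh
      · rw [if_neg hmk] at hl3
        have hmm : m - δ + δ = m := by omega
        rw [hmm] at hl3
        have : l.prod / (z m / z 0) = l.prod / (z m * (z k / z k') / z 0) * (z k / z k') := by
          have key : ∀ a x w c : G, a / (x / c) = a / (x * w / c) * w := by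
            intro a x w c
            rw [div_div_eq_mul_div, div_div_eq_mul_div, ← div_div, div_mul_cancel]
          exact key _ _ _ _
        rw [this]
        exact H.mul_mem hl3 hh

end Pool.Agent.DEC
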