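import Mathlib

/-!
# DEC, block U: walks in a commutative group modulo a subgroup
-/

set_option autoImplicit false

namespace Pool.Agent.DEC.UB

/-- A walk `z 0, ..., z m` with steps in `S` whose members of equal state are congruent modulo `H`
can be replaced by a product of at most `card α` elements of `S`. -/
theorem cut_walkA {G : Type*} [CommGroup G] (H : Subgroup G) (S : Set G) {α : Type*} [Fintype α]
    (m : ℕ) : ∀ (z : ℕ → G) (st : ℕ → α),
      (∀ i ≤ m, ∀ j ≤ m, st i = st j → z i / z j ∈ H) → (∀ i < m, z (i + 1) / z i ∈ S) →
      ∃ l : List G, l.length ≤ Fintype.card α ∧ (∀ s ∈ l, s ∈ S) ∧ l.prod / (z m / z 0) ∈ H := by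
  induction m using Nat.strong_induction_on with
  | _ m ih =>
  intro z st hst hstep
  by_cases hm : m < Fintype.card α
  · refine ⟨(List.range m).map fun i => z (i + 1) / z i, ?_, ?_, ?_⟩
    · rw [List.length_map, List.length_range]; exact hm.le
    · intro s hs
      rw [List.mem_map] at hs
      obtain ⟨i, hi, rfl⟩ := hs
      exact hstep i (List.mem_range.1 hi)
    · have h1 : ∀ k : ℕ, ((List.range k).map fun i => z (i + 1) / z i).prod = z k / z 0 := by
        intro k
        induction k with
        | zero => simp
        | succ k ih =>
          rw [List.range_succ, List.map_append, List.prod_append, ih]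
          simp
      rw [h1, div_self']
      exact H.one_mem
  · push Not at hm
    obtain ⟨i, j, hij, hj, hs⟩ : ∃ i j, i < j ∧ j ≤ m ∧ st i = st j := by
      by_contra hcon
      push Not at hcon
      have hinj : Function.Injective fun k : Fin (m + 1) => st k := by
        intro a b hab
        by_contra hne
        rcases lt_or_gt_of_ne (fun h => hne (Fin.ext h) : (a : ℕ) ≠ b) with h | h
        · exact hcon a b h (Nat.lt_succ_iff.1 b.2) hab
        · exact hcon b a h (Nat.lt_succ_iff.1 a.2) hab.symm
      have := Fintype.card_le_of_injective _ hinj
      rw [Fintype.card_fin] at this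
      omega
    have hz : z i / z j ∈ H := hst i (hij.le.trans hj) j hj hs
    -- the cut walk
    set e := j - i with he
    have he0 : 0 < e := by omega
    obtain ⟨l, hl1, hl2, hl3⟩ := ih (m - e) (by omega)
      (fun k => if k ≤ i then z k else z (k + e) * (z i / z j))
      (fun k => if k ≤ i then st k else st (k + e)) (by
        intro a ha b hb hab
        by_cases h1 : a ≤ i <;> by_cases h2 : b ≤ i <;> simp only [h1, h2, if_true, if_false] at hab ⊢
        · exact hst a (by omega) b (by omega) hab
        · have h3 := hst a (by omega) (b + e) (by omega) hab
          have h4 : z a / (z (b + e) * (z i / z j)) = (z a / z (b + e)) / (z i / z j) := by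
            rw [div_div]
          rw [h4]
          exact H.div_mem h3 hz
        · have h3 := hst (a + e) (by omega) b (by omega) hab
          have h4 : z (a + e) * (z i / z j) / z b = (z (a + e) / z b) * (z i / z j) := by
            rw [mul_div_right_comm]
          rw [h4]
          exact H.mul_mem h3 hz
        · have h3 := hst (a + e) (by omega) (b + e) (by omega) hab
          rw [mul_div_mul_right_eq_div]
          exact h3) (by
        intro k hk
        by_cases h1 : k + 1 ≤ i
        · have h2 : k ≤ i := by omega
          simp only [h1, h2, if_true]
          exact hstep k (by omega)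
        · by_cases h2 : k ≤ i
          · have h3 : k = i := by omega
            subst h3
            have h4 : ¬ (k + 1 ≤ k) := by omega
            simp only [h4, if_false, le_refl, if_true]
            have h5 := hstep j (by omega)
            have h6 : k + 1 + e = j + 1 := by omega
            rw [h6]
            have h7 : z (j + 1) * (z k / z j) / z k = z (j + 1) / z j := by
              rw [mul_div_assoc, div_div, mul_comm (z j), ← div_div, div_self', one_div,
                ← div_eq_mul_inv]
            rw [h7]
            exact h5
          · simp only [h1, h2, if_false]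
            rw [mul_div_mul_right_eq_div]
            have h3 : k + 1 + e = (k + e) + 1 := by omega
            rw [h3]
            exact hstep (k + e) (by omega))
    refine ⟨l, hl1, hl2, ?_⟩
    simp only [Nat.zero_le, if_true] at hl3
    by_cases h1 : m - e ≤ i
    · -- then `j = m`
      have h2 : m - e = i := by omega
      have h3 : j = m := by omega
      rw [h2] at hl3
      simp only [le_refl, if_true] at hl3
      have h4 : l.prod / (z m / z 0) = (l.prod / (z i / z 0)) * (z i / z j) := by
        rw [← h3, div_div_eq_mul_div, div_div_eq_mul_div]
        simp only [div_eq_mul_inv]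
        group
      rw [h4]
      exact H.mul_mem hl3 hz
    · simp only [h1, if_false] at hl3
      have h2 : m - e + e = m := by omega
      rw [h2] at hl3
      have h4 : l.prod / (z m / z 0) = (l.prod / (z m * (z i / z j) / z 0)) * (z i / z j) := by
        simp only [div_eq_mul_inv, mul_inv_rev, inv_inv]
        have : l.prod * (z 0 * (z j * (z i)⁻¹ * (z m)⁻¹)) * (z i * (z j)⁻¹) =
            l.prod * (z 0 * (z m)⁻¹) * (z i * (z i)⁻¹) * (z j * (z j)⁻¹) := by
          ac_rfl
        rw [this, mul_inv_cancel, mul_inv_cancel, mul_one, mul_one]
      rw [h4]
      exact H.mul_mem hl3 hz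

end Pool.Agent.DEC.UB
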