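import Pool.Agent.DEC.UWalk2

/-!
# DEC, block U: every element of `U_Dl` is congruent to one of bounded size
-/

set_option autoImplicit false
set_option linter.unusedSectionVars false

open scoped BigOperators

namespace Pool.Agent.DEC.UB

section LocA

variable {R : Type} [CommRing R] [IsDomain R] {K : Type} [Field K] [Algebra R K]
  [IsFractionRing R K] (th : R)

/-- `R[1/th]` -/
def locA (K : Type) [Field K] [Algebra R K] (th : R) : Subring K where
  carrier := {x | ∃ (l : ℕ) (y : R), (algebraMap R K th) ^ l * x = algebraMap R K y}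
  mul_mem' := by
    rintro x x' ⟨l, y, h⟩ ⟨l', y', h'⟩
    refine ⟨l + l', y * y', ?_⟩
    rw [map_mul, ← h, ← h', pow_add]
    ring
  one_mem' := ⟨0, 1, by simp⟩
  add_mem' := by
    rintro x x' ⟨l, y, h⟩ ⟨l', y', h'⟩
    refine ⟨l + l', th ^ l' * y + th ^ l * y', ?_⟩
    rw [map_add, map_mul, map_mul, map_pow, map_pow, ← h, ← h', pow_add]
    ring
  zero_mem' := ⟨0, 0, by simp⟩
  neg_mem' := by
    rintro x ⟨l, y, h⟩
    exact ⟨l, -y, by rw [map_neg, ← h]; ring⟩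

theorem mem_locA {th : R} {x : K} :
    x ∈ locA K th ↔ ∃ (l : ℕ) (y : R), (algebraMap R K th) ^ l * x = algebraMap R K y := Iff.rfl

theorem algebraMap_mem_locA (y : R) : algebraMap R K y ∈ locA K th := ⟨0, y, by simp⟩

/-- units congruent to `1` modulo `N` -/
def congU (K : Type) [Field K] [Algebra R K] (th : R) (N : ℕ) : Subgroup Kˣ where
  carrier := {h | (∃ x ∈ locA K th, (h : K) - 1 = N * x) ∧
    ∃ x ∈ locA K th, ((h⁻¹ : Kˣ) : K) - 1 = N * x}
  mul_mem' := by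
    rintro g h ⟨⟨x, hx, h1⟩, ⟨x', hx', h1'⟩⟩ ⟨⟨y, hy, h2⟩, ⟨y', hy', h2'⟩⟩
    have hN : (N : K) ∈ locA K th := natCast_mem (locA K th) N
    refine ⟨⟨x + (1 + N * x) * y, ?_, ?_⟩, ⟨y' + (1 + N * y') * x', ?_, ?_⟩⟩
    · exact (locA K th).add_mem hx ((locA K th).mul_mem ((locA K th).add_mem (locA K th).one_mem
        ((locA K th).mul_mem hN hx)) hy)
    · rw [Units.val_mul]
      have e1 : (g : K) = 1 + N * x := by rw [← h1]; ring
      have e2 : (h : K) = 1 + N * y := by rw [← h2]; ring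
      rw [e1, e2]
      ring
    · exact (locA K th).add_mem hy' ((locA K th).mul_mem ((locA K th).add_mem (locA K th).one_mem
        ((locA K th).mul_mem hN hy')) hx')
    · rw [mul_inv_rev, Units.val_mul]
      have e1 : ((g⁻¹ : Kˣ) : K) = 1 + N * x' := by rw [← h1']; ring
      have e2 : ((h⁻¹ : Kˣ) : K) = 1 + N * y' := by rw [← h2']; ring
      rw [e1, e2]
      ring
  one_mem' := ⟨⟨0, (locA K th).zero_mem, by simp⟩, ⟨0, (locA K th).zero_mem, by simp⟩⟩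
  inv_mem' := by
    rintro g ⟨h1, h2⟩
    exact ⟨h2, by rw [inv_inv]; exact h1⟩

theorem mem_congU {th : R} {N : ℕ} {h : Kˣ} : h ∈ congU K th N ↔
    (∃ x ∈ locA K th, (h : K) - 1 = N * x) ∧ ∃ x ∈ locA K th, ((h⁻¹ : Kˣ) : K) - 1 = N * x := Iff.rfl

end LocA

section Fin

variable {R : Type} [CommRing R] [IsDomain R] [Module.Free ℤ R] [Module.Finite ℤ R] {d : ℕ}
  (D : UD R d) {th : R} {Dl M : ℕ}

include D in
theorem card_quot (n : ℕ) (hn : 0 < n) :
    Nat.card (R ⧸ Ideal.span {(n : R)}) = n ^ d := by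
  have hne : (n : R) ≠ 0 := by
    intro h
    have h2 := congrArg (D.s ⟨0, D.dpos⟩) h
    rw [map_natCast, map_zero] at h2
    exact hn.ne' (by exact_mod_cast h2)
  rw [← idx_eq_card, idx_span hne, norm_natCast' D]

include D in
/-- membership with a bounded exponent -/
theorem mem_bounded (n : ℕ) (hn : 0 < n) {y : R} {k : ℕ} (hk : (n : R) ∣ th ^ k * y) :
    ∀ L, n ^ d ≤ L → (n : R) ∣ th ^ L * y := by
  classical
  let I : Ideal R := Ideal.span {(n : R)}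
  have hcard := card_quot D n hn
  have hfin : Finite (R ⧸ I) := Nat.finite_of_card_ne_zero (by rw [hcard]; positivity)
  have : Fintype (R ⧸ I) := Fintype.ofFinite _
  have hcard' : Fintype.card (R ⧸ I) = n ^ d := by rw [← Nat.card_eq_fintype_card, hcard]
  let f : ℕ → R ⧸ I := fun i => Ideal.Quotient.mk I (th ^ i * y)
  have hf0 : ∀ i, f i = 0 ↔ (n : R) ∣ th ^ i * y := fun i => by
    show Ideal.Quotient.mk I _ = 0 ↔ _
    rw [Ideal.Quotient.eq_zero_iff_mem, Ideal.mem_span_singleton]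
  have hfs : ∀ i j, f (i + j) = Ideal.Quotient.mk I (th ^ j) * f i := fun i j => by
    show Ideal.Quotient.mk I _ = _ * Ideal.Quotient.mk I _
    rw [← map_mul]
    congr 1
    ring
  have hmono : ∀ i j, i ≤ j → f i = 0 → f j = 0 := by
    intro i j hij h
    obtain ⟨t, rfl⟩ := Nat.exists_eq_add_of_le hij
    rw [hfs, h, mul_zero]
  have key : f (n ^ d) = 0 := by
    by_contra hne
    have hinj : Function.Injective fun i : Fin (n ^ d + 1) => f i := by
      intro a b hab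
      by_contra hne2
      have aux : ∀ a b : ℕ, a < b → b ≤ n ^ d → f a = f b → False := by
        intro a b hab hb hfab
        obtain ⟨t, rfl⟩ := Nat.exists_eq_add_of_le hab.le
        have ht : 0 < t := by omega
        have h1 : ∀ s : ℕ, f (a + s * t) = f a := by
          intro s
          induction s with
          | zero => simp
          | succ s ih =>
            have h2 : a + (s + 1) * t = (a + s * t) + t := by ring
            rw [h2, hfs, ih, ← hfs, ← hfab]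
        have h2 := (hf0 k).2 hk
        have h3 : f (a + k * t) = 0 := hmono k _ (by nlinarith) h2
        rw [h1] at h3
        exact hne (hmono a _ (by omega) h3)
      rcases lt_or_gt_of_ne (fun h => hne2 (Fin.ext h) : (a : ℕ) ≠ b) with h | h
      · exact aux a b h (Nat.lt_succ_iff.1 b.2) hab
      · exact aux b a h (Nat.lt_succ_iff.1 a.2) hab.symm
    have := Fintype.card_le_of_injective _ hinj
    rw [Fintype.card_fin, hcard'] at this
    omega
  intro L hL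
  exact (hf0 L).1 (hmono _ _ hL key)

/-- the bound for the exponent -/
def LBd (d D0 M P : ℕ) : ℕ := (D0 ^ P) ^ d + ((D0 * M) ^ (P * d)) ^ d

theorem units_aux (K : Type) [Field K] [Algebra R K] [IsFractionRing R K] (hth : th ≠ 0) (hDl : 0 < Dl) {Ht : ℝ} (h1 : 1 ≤ Ht)
    (hH : ∀ j, ‖D.s j th‖ ≤ Ht) (hM4 : Ht ^ (d - 1) ≤ M)
    (hM1 : (D.kap : ℝ) * (Algebra.norm ℤ th).natAbs * D.kap ^ (d - 1) ≤ M)
    (hM2 : (2 * D.kap : ℝ) * D.kap ^ (d - 1) ≤ M) (hM3 : (Dl ^ 2 : ℝ) * D.kap ^ (d - 1) ≤ M)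
    (N : ℕ) (hN : 0 < N) {b b' : R} {l : ℕ} (hb : b * b' = (Dl : R) ^ 2 * th ^ (2 * l)) :
    ∃ (F F' : R) (L : ℕ), F * F' = (Dl : R) ^ 2 * th ^ (2 * L) ∧
      L = LBd d (D.D0 th Dl) M ((N * (D.Q * Dl ^ 2)) ^ d) ∧
      (∀ j, ‖D.s j F‖ ≤ Ht ^ L * Dl * (D.D0 th Dl : ℝ) ^ ((N * (D.Q * Dl ^ 2)) ^ d) *
        ((D.D0 th Dl : ℝ) * M) ^ ((N * (D.Q * Dl ^ 2)) ^ d * d)) ∧
      (∀ j, ‖D.s j F'‖ ≤ Ht ^ L * Dl * (D.D0 th Dl : ℝ) ^ ((N * (D.Q * Dl ^ 2)) ^ d) *
        ((D.D0 th Dl : ℝ) * M) ^ ((N * (D.Q * Dl ^ 2)) ^ d * d)) ∧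
      ∃ (k : ℕ) (h : R), th ^ k * (th ^ l * F - th ^ L * b) = N * h := by
  classical
  set D0 := D.D0 th Dl with hD0
  set P := (N * (D.Q * Dl ^ 2)) ^ d with hP
  have hD0pos : 0 < D0 := Nat.mul_pos D.Q_pos (Nat.mul_pos hDl (natAbs_norm_pos hth))
  have hD01 : (1 : ℝ) ≤ D0 := by exact_mod_cast hD0pos
  have hMr : (1 : ℝ) ≤ M := (one_le_pow₀ h1).trans hM4
  have hcharz : ∀ n : ℕ, 0 < n → (n : R) ≠ 0 := by
    intro n hn h
    have h2 := congrArg (D.s ⟨0, D.dpos⟩) h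
    rw [map_natCast, map_zero] at h2
    exact hn.ne' (by exact_mod_cast h2)
  let ι : R →+* K := algebraMap R K
  have hι : Function.Injective ι := IsFractionRing.injective R K
  have hι0 : ∀ {y : R}, y ≠ 0 → ι y ≠ 0 := fun hy => (map_ne_zero_iff ι hι).2 hy
  have hnK : ∀ n : ℕ, 0 < n → (n : K) ≠ 0 := fun n hn => by
    have := hι0 (hcharz n hn)
    rwa [map_natCast] at this
  have hb0 : b ≠ 0 := by
    rintro rfl
    rw [zero_mul] at hb
    exact (mul_ne_zero (pow_ne_zero 2 (hcharz Dl hDl)) (pow_ne_zero _ hth)) hb.symm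
  -- the walk
  obtain ⟨m, z, hz0, hzm, hstep⟩ := exists_seq (walk D hth hDl h1 hH hM4 hM1 hM2 hM3 hb)
  have hgood : ∀ i ≤ m, Good D th Dl (z i) := by
    intro i hi
    rcases Nat.lt_or_ge i m with h | h
    · exact (hstep i h).1
    · have h2 : i = m := le_antisymm hi h
      rcases Nat.eq_zero_or_pos m with h3 | h3
      · rw [h2, hzm]
        refine ⟨hb0, 2 * l, (D.Q : R) * b', ?_⟩
        push_cast
        linear_combination (D.Q : R) * hb
      · have := (hstep (m - 1) (by omega)).2.1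
        rwa [Nat.sub_add_cancel h3, ← h2] at this
  let u : ℕ → Kˣ := fun i => if h : z i ≠ 0 then Units.mk0 (ι (z i)) (hι0 h) else 1
  have hu : ∀ i ≤ m, ((u i : Kˣ) : K) = ι (z i) := by
    intro i hi
    show (((if h : z i ≠ 0 then Units.mk0 (ι (z i)) (hι0 h) else 1 : Kˣ)) : K) = _
    rw [dif_pos (hgood i hi).1]
    rfl
  -- states
  let m0 : ℕ := N * (D.Q * Dl ^ 2)
  have hm0 : 0 < m0 := Nat.mul_pos hN (Nat.mul_pos D.Q_pos (pow_pos hDl 2))
  let I : Ideal R := Ideal.span {(m0 : R)}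
  have hcard := card_quot D m0 hm0
  have hfin : Finite (R ⧸ I) := Nat.finite_of_card_ne_zero (by rw [hcard]; positivity)
  let _ : Fintype (R ⧸ I) := Fintype.ofFinite _
  have hcard' : Fintype.card (R ⧸ I) = P := by rw [← Nat.card_eq_fintype_card, hcard]
  have hcong : ∀ i ≤ m, ∀ j ≤ m, (Ideal.Quotient.mk I (z i)) = Ideal.Quotient.mk I (z j) →
      ∃ x ∈ locA K th, ((u i / u j : Kˣ) : K) - 1 = N * x := by
    intro i hi j hj hij
    rw [Ideal.Quotient.eq, Ideal.mem_span_singleton] at hij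
    obtain ⟨w, hw⟩ := hij
    obtain ⟨hzj, lj, yj, hyj⟩ := hgood j hj
    refine ⟨ι (w * yj) / (ι th) ^ lj, ⟨lj, w * yj, ?_⟩, ?_⟩
    · rw [mul_div_cancel₀ _ (pow_ne_zero _ (hι0 hth))]
    · rw [Units.val_div_eq_div_val, hu i hi, hu j hj]
      have h3 : ι (z i) - ι (z j) = ι (m0 : R) * ι w := by rw [← map_sub, hw, map_mul]
      have h4 : ι (z j) * ι yj = ι th ^ lj * ((D.Q * Dl ^ 2 : ℕ) : K) := by
        rw [← map_mul, hyj, map_mul, map_pow, map_natCast]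
      have h5 := hι0 hzj
      have h6 : ι th ^ lj ≠ 0 := pow_ne_zero _ (hι0 hth)
      rw [map_natCast] at h3
      rw [map_mul, div_sub_one h5, h3, div_eq_iff h5]
      have h7 : (m0 : K) = N * ((D.Q * Dl ^ 2 : ℕ) : K) := by
        exact Nat.cast_mul _ _
      rw [h7]
      field_simp
      linear_combination (-(N : K) * ι w) * h4
  let S : Set Kˣ := {s | ∃ y : R, (D0 : K) * s = ι y ∧ ∀ j, ‖D.s j y‖ ≤ (D0 : ℝ) * M}
  obtain ⟨lst, hl1, hl2, hl3⟩ := cut_walkA (congU K th N) S (α := R ⧸ I) m u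
    (fun i => Ideal.Quotient.mk I (z i)) (fun i hi j hj hij => by
      refine ⟨hcong i hi j hj hij, ?_⟩
      have h3 := hcong j hj i hi hij.symm
      rwa [← inv_div (u i) (u j)] at h3) (fun i hi => by
      obtain ⟨-, -, y, hy, hyb⟩ := hstep i hi
      refine ⟨y, ?_, hyb⟩
      have h3 : (D0 : K) * ι (z (i + 1)) = ι y * ι (z i) := by
        rw [← map_mul, ← hy, map_mul, map_natCast]
      rw [Units.val_div_eq_div_val, hu _ hi, hu _ hi.le, ← mul_div_assoc,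
        div_eq_iff (hι0 (hgood i hi.le).1), h3])
  rw [hcard'] at hl1
  -- the product
  have hprod : ∀ ls : List Kˣ, (∀ s ∈ ls, s ∈ S) → ∃ Y : R, (D0 : K) ^ ls.length * (ls.prod : Kˣ) =
      ι Y ∧ ∀ j, ‖D.s j Y‖ ≤ ((D0 : ℝ) * M) ^ ls.length := by
    intro ls
    induction ls with
    | nil => intro _; exact ⟨1, by simp, fun j => by simp⟩
    | cons s ls ih =>
      intro hs
      obtain ⟨Y, hY, hYb⟩ := ih fun t ht => hs t (List.mem_cons_of_mem _ ht)
      obtain ⟨y, hy, hyb⟩ := hs s List.mem_cons_self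
      refine ⟨y * Y, ?_, fun j => ?_⟩
      · rw [List.length_cons, List.prod_cons, Units.val_mul, map_mul, ← hY, ← hy, pow_succ]
        ring
      · rw [map_mul, norm_mul, List.length_cons, pow_succ']
        exact mul_le_mul (hyb j) (hYb j) (norm_nonneg _) (by positivity)
  obtain ⟨Y, hY, hYb⟩ := hprod lst hl2
  set r := lst.length with hr
  set a' : Kˣ := lst.prod with ha'
  have hY0 : Y ≠ 0 := by
    rintro rfl
    rw [map_zero] at hY
    exact (mul_ne_zero (pow_ne_zero _ (hnK D0 hD0pos)) a'.ne_zero) hY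
  have hYb' : ∀ j, ‖D.s j Y‖ ≤ ((D0 : ℝ) * M) ^ P := fun j =>
    (hYb j).trans (pow_le_pow_right₀ (one_le_mul_of_one_le_of_one_le hD01 hMr) hl1)
  -- a
  obtain ⟨a, ha⟩ : ∃ a : Kˣ, a = u m / u 0 := ⟨_, rfl⟩
  rw [← ha] at hl3
  have haK : (a : K) * ((Dl : K) * ι th ^ l) = ι b := by
    rw [ha, Units.val_div_eq_div_val, hu m le_rfl, hu 0 (Nat.zero_le _), hzm, hz0, map_mul,
      map_natCast, map_pow, div_mul_cancel₀]
    exact mul_ne_zero (hnK Dl hDl) (pow_ne_zero _ (hι0 hth))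
  have hDlK := hnK Dl hDl
  have hthK := hι0 hth
  have hbK := hι0 hb0
  have hbb : ι b * ι b' = (Dl : K) ^ 2 * ι th ^ (2 * l) := by
    rw [← map_mul, hb, map_mul, map_pow, map_pow, map_natCast]
  obtain ⟨⟨x1, hx1, hh1⟩, ⟨x2, hx2, hh2⟩⟩ := hl3
  have ha0 : (a : K) ≠ 0 := a.ne_zero
  have ha0' : (a' : K) ≠ 0 := a'.ne_zero
  have e1 : (a' : K) / (a : K) - 1 = N * x1 := by
    rw [← hh1, Units.val_div_eq_div_val]
  have e2 : (a : K) / (a' : K) - 1 = N * x2 := by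
    rw [← hh2, inv_div, Units.val_div_eq_div_val]
  have hNA : (N : K) ∈ locA K th := natCast_mem (locA K th) N
  -- `Dl a'` and `Dl / a'` lie in `R[1/th]`
  have hA1 : (Dl : K) * a' ∈ locA K th := by
    have h3 : (Dl : K) * a ∈ locA K th := ⟨l, b, by rw [← haK]; ring⟩
    have h4 : (Dl : K) * a' = (Dl * a) * (1 + N * x1) := by
      rw [← e1]
      field_simp
      ring
    rw [h4]
    exact (locA K th).mul_mem h3 ((locA K th).add_mem (locA K th).one_mem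
      ((locA K th).mul_mem hNA hx1))
  have hA2 : (Dl : K) * ((a'⁻¹ : Kˣ) : K) ∈ locA K th := by
    have h3 : (Dl : K) * ((a⁻¹ : Kˣ) : K) ∈ locA K th := by
      refine ⟨l, b', ?_⟩
      rw [Units.val_inv_eq_inv_val]
      have h5 : ι b' * ι b = ((Dl : K) * ι th ^ l) * (Dl * ι th ^ l) := by
        rw [mul_comm, hbb]; ring
      rw [← haK] at h5
      have h6 : (Dl : K) * ι th ^ l ≠ 0 := mul_ne_zero hDlK (pow_ne_zero _ hthK)
      have h7 : ι b' * a = (Dl : K) * ι th ^ l := by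
        apply mul_right_cancel₀ h6
        rw [← h5]
        ring
      show ι th ^ l * (Dl * (a : K)⁻¹) = ι b'
      have h8 : ι th ^ l * (Dl * (a : K)⁻¹) = ((Dl : K) * ι th ^ l) * (a : K)⁻¹ := by ring
      rw [h8, ← h7, mul_assoc, mul_inv_cancel₀ ha0, mul_one]
    have h4 : (Dl : K) * ((a'⁻¹ : Kˣ) : K) = (Dl * ((a⁻¹ : Kˣ) : K)) * (1 + N * x2) := by
      rw [← e2, Units.val_inv_eq_inv_val, Units.val_inv_eq_inv_val]
      field_simp
      ring
    rw [h4]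
    exact (locA K th).mul_mem h3 ((locA K th).add_mem (locA K th).one_mem
      ((locA K th).mul_mem hNA hx2))
  -- bounded exponents
  have hbdd : ∀ (x : K), x ∈ locA K th → ∀ (n : ℕ), 0 < n → ∀ w : R, (n : K) * x = ι w →
      ∀ L, n ^ d ≤ L → ∃ F : R, ι th ^ L * x = ι F := by
    rintro x ⟨k, y, hxy⟩ n hn w hw L hL
    have h3 : (n : R) ∣ th ^ k * w := by
      refine ⟨y, hι ?_⟩
      rw [map_mul, map_pow, map_mul, map_natCast, ← hw, ← hxy]
      ring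
    obtain ⟨F, hF⟩ := mem_bounded D n hn h3 L hL
    refine ⟨F, ?_⟩
    have h4 := congrArg ι hF
    rw [map_mul, map_pow, map_mul, map_natCast, ← hw] at h4
    apply mul_left_cancel₀ (hnK n hn)
    rw [← h4]
    ring
  set L := LBd d D0 M P with hL
  have hL1 : (D0 ^ P) ^ d ≤ L := Nat.le_add_right _ _
  obtain ⟨F, hF⟩ := hbdd _ hA1 (D0 ^ P) (pow_pos hD0pos _) ((D0 : R) ^ (P - r) * Dl * Y) (by
    rw [map_mul, map_mul, map_pow, map_natCast, map_natCast, ← hY]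
    push_cast
    have h3 : (D0 : K) ^ P = (D0 : K) ^ (P - r) * (D0 : K) ^ r := by
      rw [← pow_add, Nat.sub_add_cancel hl1]
    rw [h3]
    ring) L hL1
  obtain ⟨Y', hY'⟩ := natAbs_norm_mem hY0
  have hNY : (Algebra.norm ℤ Y).natAbs ≤ (D0 * M) ^ (P * d) := by
    have h3 := D.abs_norm Y
    have h4 : ∏ j, ‖D.s j Y‖ ≤ ∏ _j : Fin d, ((D0 : ℝ) * M) ^ P :=
      Finset.prod_le_prod (fun i _ => norm_nonneg _) fun i _ => hYb' i
    rw [← h3, Finset.prod_const, Finset.card_univ, Fintype.card_fin, ← pow_mul] at h4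
    exact_mod_cast h4
  obtain ⟨F', hF'⟩ := hbdd _ hA2 (Algebra.norm ℤ Y).natAbs (natAbs_norm_pos hY0)
    ((D0 : R) ^ r * Dl * Y') (by
    have h3 := congrArg ι hY'
    rw [map_natCast, map_mul, ← hY] at h3
    rw [map_mul, map_mul, map_pow, map_natCast, map_natCast, h3, Units.val_inv_eq_inv_val]
    field_simp) L ((Nat.pow_le_pow_left hNY d).trans (Nat.le_add_left _ _))
  have hFF : F * F' = (Dl : R) ^ 2 * th ^ (2 * L) := by
    apply hι
    rw [map_mul, ← hF, ← hF', map_mul, map_pow, map_pow, map_natCast, Units.val_inv_eq_inv_val]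
    field_simp
    ring
  have hHt0 : 0 < Ht := by linarith
  -- relation between `F` and `Y`
  have hFY : (D0 : R) ^ r * F = th ^ L * Dl * Y := by
    apply hι
    rw [map_mul, map_mul, map_mul, map_pow, map_pow, map_natCast, map_natCast, ← hF, ← hY]
    ring
  have hYpos : ∀ j, 0 < ‖D.s j Y‖ := norm_s_ne_zero D hY0
  have hYlow : ∀ j, 1 ≤ ‖D.s j Y‖ * (((D0 : ℝ) * M) ^ P) ^ (d - 1) := by
    intro j
    have h3 := D.abs_norm Y
    rw [← Finset.mul_prod_erase Finset.univ _ (Finset.mem_univ j)] at h3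
    have h4 : ∏ i ∈ Finset.univ.erase j, ‖D.s i Y‖ ≤ (((D0 : ℝ) * M) ^ P) ^ (d - 1) := by
      calc ∏ i ∈ Finset.univ.erase j, ‖D.s i Y‖ ≤ ∏ i ∈ Finset.univ.erase j, ((D0 : ℝ) * M) ^ P :=
            Finset.prod_le_prod (fun i _ => norm_nonneg _) fun i _ => hYb' i
        _ = _ := by
          rw [Finset.prod_const, Finset.card_erase_of_mem (Finset.mem_univ j), Finset.card_univ,
            Fintype.card_fin]
    have h5 : (1 : ℝ) ≤ ((Algebra.norm ℤ Y).natAbs : ℝ) := by exact_mod_cast natAbs_norm_pos hY0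
    rw [h3] at h5
    exact h5.trans (mul_le_mul_of_nonneg_left h4 (norm_nonneg _))
  have hDM : (1 : ℝ) ≤ (D0 : ℝ) * M := one_le_mul_of_one_le_of_one_le hD01 hMr
  have hd1 : P * d = P + P * (d - 1) := by
    have := D.dpos
    obtain ⟨e, rfl⟩ := Nat.exists_eq_succ_of_ne_zero this.ne'
    simp [Nat.mul_succ, add_comm]
  have hD0P : (1 : ℝ) ≤ (D0 : ℝ) ^ P := one_le_pow₀ hD01
  have hnFY : ∀ j, (D0 : ℝ) ^ r * ‖D.s j F‖ = ‖D.s j th‖ ^ L * Dl * ‖D.s j Y‖ := by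
    intro j
    have h3 := congrArg (fun y => ‖D.s j y‖) hFY
    simpa only [map_mul, map_pow, map_natCast, norm_mul, norm_pow, Complex.norm_natCast] using h3
  refine ⟨F, F', L, hFF, rfl, fun j => ?_, fun j => ?_, ?_⟩
  · have h3 := hnFY j
    have h4 : (1 : ℝ) ≤ (D0 : ℝ) ^ r := one_le_pow₀ hD01
    have h5 : ‖D.s j F‖ ≤ ‖D.s j th‖ ^ L * Dl * ‖D.s j Y‖ := by
      rw [← h3]
      exact le_mul_of_one_le_left (norm_nonneg _) h4
    refine h5.trans ?_
    have h6 : ‖D.s j Y‖ ≤ ((D0 : ℝ) * M) ^ (P * d) :=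
      (hYb' j).trans (pow_le_pow_right₀ hDM (Nat.le_mul_of_pos_right _ D.dpos))
    calc ‖D.s j th‖ ^ L * Dl * ‖D.s j Y‖ ≤ Ht ^ L * Dl * ((D0 : ℝ) * M) ^ (P * d) := by
          gcongr
          exact hH j
      _ = Ht ^ L * Dl * 1 * ((D0 : ℝ) * M) ^ (P * d) := by ring
      _ ≤ _ := by gcongr
  · have h3 := congrArg (fun y => ‖D.s j y‖) hFF
    simp only [map_mul, map_pow, map_natCast, norm_mul, norm_pow, Complex.norm_natCast] at h3
    have h4 := hnFY j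
    have hth0 : 0 < ‖D.s j th‖ := norm_s_ne_zero D hth j
    have hDl0 : (0 : ℝ) < Dl := by exact_mod_cast hDl
    -- `‖F'‖ ‖Y‖ = ‖th‖^L Dl D0^r`
    have h5 : ‖D.s j F'‖ * ‖D.s j Y‖ = ‖D.s j th‖ ^ L * Dl * (D0 : ℝ) ^ r := by
      have h6 : ‖D.s j th‖ ^ L * Dl ≠ 0 := by positivity
      apply mul_left_cancel₀ h6
      calc ‖D.s j th‖ ^ L * Dl * (‖D.s j F'‖ * ‖D.s j Y‖) =
          (‖D.s j th‖ ^ L * Dl * ‖D.s j Y‖) * ‖D.s j F'‖ := by ring
        _ = (D0 : ℝ) ^ r * (‖D.s j F‖ * ‖D.s j F'‖) := by rw [← h4]; ring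
        _ = _ := by rw [h3]; ring
    have h6 : ‖D.s j F'‖ ≤ ‖D.s j th‖ ^ L * Dl * (D0 : ℝ) ^ r * (((D0 : ℝ) * M) ^ P) ^ (d - 1) := by
      rw [← h5]
      calc ‖D.s j F'‖ = ‖D.s j F'‖ * 1 := (mul_one _).symm
        _ ≤ ‖D.s j F'‖ * (‖D.s j Y‖ * (((D0 : ℝ) * M) ^ P) ^ (d - 1)) :=
            mul_le_mul_of_nonneg_left (hYlow j) (norm_nonneg _)
        _ = _ := by ring
    refine h6.trans ?_
    have h7 : (((D0 : ℝ) * M) ^ P) ^ (d - 1) ≤ ((D0 : ℝ) * M) ^ (P * d) := by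
      rw [← pow_mul]
      exact pow_le_pow_right₀ hDM (Nat.mul_le_mul_left _ (Nat.sub_le _ _))
    gcongr
    exact hH j
  · obtain ⟨k, y, hky⟩ := hx1
    refine ⟨k, th ^ L * b * y, hι ?_⟩
    have h3 : (a' : K) = a * (1 + N * x1) := by
      rw [← e1]
      field_simp
      ring
    rw [map_mul, map_sub, map_mul, map_mul, map_mul, map_mul, map_mul, map_pow, map_pow, map_pow,
      map_natCast, ← hF, ← hky, ← haK, h3]
    ring

/-- **Theorem U.** -/
theorem units_R (hth : th ≠ 0) (hDl : 0 < Dl) {Ht : ℝ} (h1 : 1 ≤ Ht)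
    (hH : ∀ j, ‖D.s j th‖ ≤ Ht) (hM4 : Ht ^ (d - 1) ≤ M)
    (hM1 : (D.kap : ℝ) * (Algebra.norm ℤ th).natAbs * D.kap ^ (d - 1) ≤ M)
    (hM2 : (2 * D.kap : ℝ) * D.kap ^ (d - 1) ≤ M) (hM3 : (Dl ^ 2 : ℝ) * D.kap ^ (d - 1) ≤ M)
    (N : ℕ) (hN : 0 < N) {b b' : R} {l : ℕ} (hb : b * b' = (Dl : R) ^ 2 * th ^ (2 * l)) :
    ∃ (F F' : R) (L : ℕ), F * F' = (Dl : R) ^ 2 * th ^ (2 * L) ∧
      L = LBd d (D.D0 th Dl) M ((N * (D.Q * Dl ^ 2)) ^ d) ∧
      (∀ j, ‖D.s j F‖ ≤ Ht ^ L * Dl * (D.D0 th Dl : ℝ) ^ ((N * (D.Q * Dl ^ 2)) ^ d) *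
        ((D.D0 th Dl : ℝ) * M) ^ ((N * (D.Q * Dl ^ 2)) ^ d * d)) ∧
      (∀ j, ‖D.s j F'‖ ≤ Ht ^ L * Dl * (D.D0 th Dl : ℝ) ^ ((N * (D.Q * Dl ^ 2)) ^ d) *
        ((D.D0 th Dl : ℝ) * M) ^ ((N * (D.Q * Dl ^ 2)) ^ d * d)) ∧
      ∃ (k : ℕ) (h : R), th ^ k * (th ^ l * F - th ^ L * b) = N * h :=
  units_aux D (FractionRing R) hth hDl h1 hH hM4 hM1 hM2 hM3 N hN hb

end Fin

end Pool.Agent.DEC.UB
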