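import Mathlib

/-! DEC project (MP_59dda0_an): a vector with real coordinates is bounded by the values of the
corresponding polynomial at the distinct roots of a monic polynomial with integer coefficients. -/

namespace Pool.Agent.DEC

open Polynomial Matrix Finset

/-- The monic polynomial of degree `d` with the `d` distinct roots `th j` is the nodal polynomial. -/
theorem uht_eq_nodal {g : ℤ[X]} (hg : g.Monic) {d : ℕ} (hd : g.natDegree = d) (th : Fin d → ℂ)
    (hth : Function.Injective th) (hroot : ∀ j, aeval (th j) g = 0) :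
    g.map (Int.castRingHom ℂ) = Lagrange.nodal Finset.univ th := by
  have hm : (g.map (Int.castRingHom ℂ)).Monic := hg.map _
  have hdvd : Lagrange.nodal Finset.univ th ∣ g.map (Int.castRingHom ℂ) := by
    unfold Lagrange.nodal
    refine Finset.prod_dvd_of_coprime ?_ ?_
    · intro i _ j _ hij
      exact Polynomial.pairwise_coprime_X_sub_C hth hij
    · intro i _
      rw [Polynomial.dvd_iff_isRoot, IsRoot.def, eval_map]
      have := hroot i
      rwa [aeval_def] at this
  refine (Polynomial.eq_of_monic_of_dvd_of_natDegree_le (Lagrange.nodal_monic) hm hdvd ?_)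
  rw [Lagrange.natDegree_nodal, hg.natDegree_map, hd]
  simp

/-- The norm of the square of the Vandermonde determinant as a product over all ordered pairs. -/
theorem uht_prod_pairs {d : ℕ} (th : Fin d → ℂ) :
    ∏ i : Fin d, ∏ j ∈ Finset.univ.erase i, ‖th i - th j‖ = ‖(vandermonde th).det‖ ^ 2 := by
  have h1 : ‖(vandermonde th).det‖ = ∏ i : Fin d, ∏ j ∈ Finset.Ioi i, ‖th i - th j‖ := by
    rw [det_vandermonde, norm_prod]
    refine Finset.prod_congr rfl fun i _ => ?_
    rw [norm_prod]
    exact Finset.prod_congr rfl fun j _ => norm_sub_rev _ _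
  have h2 : ‖(vandermonde th).det‖ = ∏ i : Fin d, ∏ j ∈ Finset.Iio i, ‖th i - th j‖ := by
    rw [h1]
    rw [Finset.prod_sigma', Finset.prod_sigma']
    refine Finset.prod_bij' (fun p _ => ⟨p.2, p.1⟩) (fun p _ => ⟨p.2, p.1⟩) ?_ ?_ ?_ ?_ ?_
    · rintro ⟨i, j⟩ h
      simpa using h
    · rintro ⟨i, j⟩ h
      simpa using h
    · rintro ⟨i, j⟩ h
      rfl
    · rintro ⟨i, j⟩ h
      rfl
    · rintro ⟨i, j⟩ h
      exact norm_sub_rev _ _
  rw [sq]
  nth_rewrite 1 [h1]
  rw [h2, ← Finset.prod_mul_distrib]
  refine Finset.prod_congr rfl fun i _ => ?_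
  rw [← Finset.prod_union]
  · refine Finset.prod_congr ?_ fun _ _ => rfl
    ext j
    simp only [Finset.mem_erase, Finset.mem_univ, and_true, Finset.mem_union, Finset.mem_Ioi,
      Finset.mem_Iio]
    constructor
    · intro h
      rcases lt_or_gt_of_ne h with h | h
      · exact Or.inr h
      · exact Or.inl h
    · rintro (h | h)
      · exact h.ne'
      · exact h.ne
  · rw [Finset.disjoint_left]
    intro j hj hj'
    simp only [Finset.mem_Ioi, Finset.mem_Iio] at hj hj'
    exact absurd hj (not_lt.mpr hj'.le)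

/-- The Vandermonde determinant of the roots has norm at least one. -/
theorem uht_one_le_det {g : ℤ[X]} (hg : g.Monic) {d : ℕ} (hd : g.natDegree = d) (th : Fin d → ℂ)
    (hth : Function.Injective th) (hroot : ∀ j, aeval (th j) g = 0) :
    1 ≤ ‖(vandermonde th).det‖ := by
  have hnod := uht_eq_nodal hg hd th hth hroot
  have hnd : (Lagrange.nodal Finset.univ th).natDegree = d := by
    rw [Lagrange.natDegree_nodal]; simp
  have hroots : (Lagrange.nodal Finset.univ th).roots = Finset.univ.val.map th := by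
    have h := Polynomial.roots_multiset_prod_X_sub_C (Finset.univ.val.map th)
    rw [Multiset.map_map] at h
    exact h
  have hsp : (Lagrange.nodal Finset.univ th).Splits := IsAlgClosed.splits _
  have hres := Polynomial.resultant_eq_prod_eval (Lagrange.nodal Finset.univ th)
    (derivative (Lagrange.nodal Finset.univ th)) d
    (by
      refine (natDegree_derivative_le _).trans ?_
      rw [hnd]; omega) hsp
  rw [hnd, Lagrange.nodal_monic.leadingCoeff, one_pow, one_mul, hroots] at hres
  have hev : ((Finset.univ.val.map th).map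
      (derivative (Lagrange.nodal Finset.univ th)).eval).prod =
      ∏ i : Fin d, ∏ j ∈ Finset.univ.erase i, (th i - th j) := by
    rw [Multiset.map_map]
    change ∏ i : Fin d, _ = _
    refine Finset.prod_congr rfl fun i _ => ?_
    rw [Function.comp_apply, Lagrange.eval_nodal_derivative_eval_node_eq (Finset.mem_univ i),
      Lagrange.eval_nodal]
  rw [hev] at hres
  have hmap : resultant (Lagrange.nodal Finset.univ th)
      (derivative (Lagrange.nodal Finset.univ th)) d d =
      ((resultant g (derivative g) d d : ℤ) : ℂ) := by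
    rw [← hnod, derivative_map, resultant_map_map]
    rfl
  rw [hmap] at hres
  have hsq : ‖((resultant g (derivative g) d d : ℤ) : ℂ)‖ = ‖(vandermonde th).det‖ ^ 2 := by
    rw [hres, ← uht_prod_pairs, norm_prod]
    exact Finset.prod_congr rfl fun i _ => norm_prod _ _
  have hdet0 : (vandermonde th).det ≠ 0 := det_vandermonde_ne_zero_iff.mpr hth
  have hne : resultant g (derivative g) d d ≠ 0 := by
    intro h0
    rw [h0] at hsq
    simp only [Int.cast_zero, norm_zero] at hsq
    have : ‖(vandermonde th).det‖ = 0 := by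
      exact pow_eq_zero_iff (two_ne_zero) |>.mp hsq.symm
    exact hdet0 (norm_eq_zero.mp this)
  have h1 : (1 : ℝ) ≤ ‖((resultant g (derivative g) d d : ℤ) : ℂ)‖ := by
    rw [Complex.norm_intCast]
    exact_mod_cast Int.one_le_abs hne
  rw [hsq] at h1
  by_contra hlt
  push Not at hlt
  have : ‖(vandermonde th).det‖ ^ 2 < 1 := by
    have h0 := norm_nonneg (vandermonde th).det
    nlinarith
  linarith

/-- Bound for a determinant with one column replaced. -/
theorem uht_det_le {d : ℕ} (th : Fin d → ℂ) {H : ℝ} (hH : 1 ≤ H) (hb : ∀ j, ‖th j‖ ≤ H) {M : ℝ}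
    (w : Fin d → ℂ) (hw : ∀ j, ‖w j‖ ≤ M) (i : Fin d) :
    ‖((vandermonde th).updateCol i w).det‖ ≤ d.factorial * H ^ (d * d) * M := by
  have hM0 : 0 ≤ M := (norm_nonneg _).trans (hw i)
  have hH0 : 0 ≤ H := zero_le_one.trans hH
  rw [det_apply]
  refine (norm_sum_le _ _).trans ?_
  have hterm : ∀ σ : Equiv.Perm (Fin d), ‖Equiv.Perm.sign σ •
      ∏ k, (vandermonde th).updateCol i w (σ k) k‖ ≤ H ^ (d * d) * M := by
    intro σ
    have hs : ‖Equiv.Perm.sign σ • ∏ k, (vandermonde th).updateCol i w (σ k) k‖ =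
        ‖∏ k, (vandermonde th).updateCol i w (σ k) k‖ := by
      rcases Int.units_eq_one_or (Equiv.Perm.sign σ) with h | h <;> rw [h] <;> simp
    rw [hs, norm_prod, ← Finset.mul_prod_erase Finset.univ _ (Finset.mem_univ i)]
    rw [updateCol_self, mul_comm]
    refine mul_le_mul ?_ (hw _) (norm_nonneg _) (by positivity)
    calc ∏ x ∈ Finset.univ.erase i, ‖(vandermonde th).updateCol i w (σ x) x‖
        ≤ ∏ x ∈ Finset.univ.erase i, H ^ d := by
          refine Finset.prod_le_prod (fun _ _ => norm_nonneg _) ?_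
          intro k hk
          rw [updateCol_ne (Finset.ne_of_mem_erase hk), vandermonde_apply, norm_pow]
          calc ‖th (σ k)‖ ^ (k : ℕ) ≤ H ^ (k : ℕ) := pow_le_pow_left₀ (norm_nonneg _) (hb _) _
            _ ≤ H ^ d := pow_le_pow_right₀ hH k.2.le
      _ = (H ^ d) ^ (Finset.univ.erase i).card := by rw [Finset.prod_const]
      _ ≤ (H ^ d) ^ d := by
          refine pow_le_pow_right₀ (one_le_pow₀ hH) ?_
          refine (Finset.card_erase_le).trans ?_
          simp
      _ = H ^ (d * d) := by rw [pow_mul]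
  calc ∑ σ : Equiv.Perm (Fin d), ‖Equiv.Perm.sign σ •
      ∏ k, (vandermonde th).updateCol i w (σ k) k‖
      ≤ ∑ _σ : Equiv.Perm (Fin d), H ^ (d * d) * M := Finset.sum_le_sum fun σ _ => hterm σ
    _ = d.factorial * H ^ (d * d) * M := by
        rw [Finset.sum_const, Finset.card_univ, Fintype.card_perm, Fintype.card_fin, nsmul_eq_mul,
          mul_assoc]

/-- A real vector whose polynomial has values of norm at most `M` at the roots of a monic
polynomial with integer coefficients (all roots distinct, of norm at most `H`) has coordinates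
bounded by `d! H ^ (d * d) M`. -/
theorem coord_bound {g : ℤ[X]} (hg : g.Monic) {d : ℕ} (hd : g.natDegree = d) (th : Fin d → ℂ)
    (hth : Function.Injective th) (hroot : ∀ j, aeval (th j) g = 0) {H : ℝ} (hH : 1 ≤ H)
    (hb : ∀ j, ‖th j‖ ≤ H) {M : ℝ} (c : Fin d → ℝ)
    (hM : ∀ j, ‖∑ i, (c i : ℂ) * th j ^ (i : ℕ)‖ ≤ M) :
    ∀ i, |c i| ≤ d.factorial * H ^ (d * d) * M := by
  intro i
  set V := vandermonde th with hV
  set cc : Fin d → ℂ := fun i => (c i : ℂ) with hcc
  have hw : ∀ j, (V *ᵥ cc) j = ∑ i, (c i : ℂ) * th j ^ (i : ℕ) := by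
    intro j
    rw [mulVec, dotProduct]
    refine Finset.sum_congr rfl fun k _ => ?_
    rw [hV, vandermonde_apply, mul_comm]
  have hcr : V.det * (c i : ℂ) = (V.updateCol i (V *ᵥ cc)).det := by
    have h1 : V.cramer (V *ᵥ cc) = V.det • cc := by
      rw [cramer_eq_adjugate_mulVec, mulVec_mulVec, adjugate_mul, smul_mulVec, one_mulVec]
    have h2 := congrFun h1 i
    rw [cramer_apply] at h2
    rw [h2, Pi.smul_apply, smul_eq_mul]
  have hle := uht_det_le th hH hb (V *ᵥ cc) (M := M) (fun j => by rw [hw]; exact hM j) i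
  rw [← hV, ← hcr, norm_mul, Complex.norm_real, Real.norm_eq_abs] at hle
  have h1 := uht_one_le_det hg hd th hth hroot
  rw [← hV] at h1
  calc |c i| = 1 * |c i| := (one_mul _).symm
    _ ≤ ‖V.det‖ * |c i| := mul_le_mul_of_nonneg_right h1 (abs_nonneg _)
    _ ≤ _ := hle

end Pool.Agent.DEC
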