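import Pool.Agent.DEC.UBox

/-!
# DEC, block U: index and norm, small elements of ideals
-/

set_option autoImplicit false
set_option linter.unusedSectionVars false

open scoped BigOperators

namespace Pool.Agent.DEC.UB

section Idx

variable {R : Type} [CommRing R] [IsDomain R] [Module.Free ℤ R] [Module.Finite ℤ R]

/-- index of an ideal -/
noncomputable def idx (I : Ideal R) : ℕ := (Submodule.toAddSubgroup I).index

theorem idx_eq_card (I : Ideal R) : idx I = Nat.card (R ⧸ I) := rfl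

theorem idx_span {y : R} (hy : y ≠ 0) : idx (Ideal.span {y}) = (Algebra.norm ℤ y).natAbs := by
  rw [idx_eq_card, Algebra.norm_apply]
  let b := Module.Free.chooseBasis ℤ R
  have h := Submodule.natAbs_det_equiv ((Ideal.span {y} : Ideal R).restrictScalars ℤ)
    (b.equiv (Ideal.basisSpanSingleton b hy) (Equiv.refl _))
  have h2 : Nat.card (R ⧸ (Ideal.span {y} : Ideal R).restrictScalars ℤ) =
      Nat.card (R ⧸ (Ideal.span {y} : Ideal R)) := rfl
  rw [← h2, ← h]
  congr
  refine b.ext fun i => ?_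
  have h3 := congrArg Subtype.val
    (Module.Basis.equiv_apply b i (Ideal.basisSpanSingleton b hy) (Equiv.refl _))
  rw [Equiv.refl_apply, Ideal.basisSpanSingleton_apply] at h3
  exact h3

theorem idx_le {I J : Ideal R} (h : I ≤ J) : idx J ∣ idx I :=
  AddSubgroup.index_dvd_of_le h

theorem norm_ne_zero' {y : R} (hy : y ≠ 0) : Algebra.norm ℤ y ≠ 0 :=
  Algebra.norm_ne_zero_iff.2 hy

theorem idx_ne_zero {I : Ideal R} {y : R} (hy : y ≠ 0) (hyI : y ∈ I) : idx I ≠ 0 := by
  intro h
  have h1 := idx_le ((Ideal.span_singleton_le_iff_mem I).2 hyI)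
  rw [h, zero_dvd_iff, idx_span hy] at h1
  exact norm_ne_zero' hy (Int.natAbs_eq_zero.1 h1)

/-- the index of `y I` -/
theorem idx_mul {y : R} (hy : y ≠ 0) (I : Ideal R) :
    idx (Ideal.span {y} * I) = idx I * (Algebra.norm ℤ y).natAbs := by
  have h1 := AddSubgroup.index_map_of_injective (Submodule.toAddSubgroup I)
    (f := AddMonoidHom.mulLeft y) (fun a b hab => mul_left_cancel₀ hy hab)
  have h2 : (Submodule.toAddSubgroup I).map (AddMonoidHom.mulLeft y) =
      Submodule.toAddSubgroup (Ideal.span {y} * I) := by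
    ext z
    rw [AddSubgroup.mem_map]
    constructor
    · rintro ⟨x, hx, rfl⟩
      exact Ideal.mul_mem_mul (Ideal.mem_span_singleton_self y) hx
    · intro hz
      obtain ⟨x, hx, rfl⟩ := Ideal.mem_span_singleton_mul.1 hz
      exact ⟨x, hx, rfl⟩
  have h3 : (AddMonoidHom.mulLeft y).range = Submodule.toAddSubgroup (Ideal.span {y}) := by
    ext z
    constructor
    · rintro ⟨x, rfl⟩
      exact Ideal.mem_span_singleton.2 ⟨x, rfl⟩
    · intro hz
      obtain ⟨x, rfl⟩ := Ideal.mem_span_singleton.1 hz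
      exact ⟨x, rfl⟩
  rw [h2, h3] at h1
  unfold idx
  rw [h1]
  congr 1
  exact idx_span hy

end Idx

/-- embeddings, a basis, bounds -/
structure UD (R : Type) [CommRing R] [IsDomain R] [Module.Free ℤ R] [Module.Finite ℤ R]
    (d : ℕ) where
  dpos : 0 < d
  s : Fin d → R →+* ℂ
  nrm : ∀ y : R, ((Algebra.norm ℤ y : ℤ) : ℂ) = ∏ j, s j y
  cj : Fin d → Fin d
  cj_spec : ∀ j y, s (cj j) y = starRingEnd ℂ (s j y)
  b : Module.Basis (Fin d) ℤ R
  B : ℝ
  one_le : 1 ≤ B
  bound : ∀ j i, ‖s j (b i)‖ ≤ B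
  kap : ℕ
  kap_ge : 16 * d * B ≤ kap

section Small

variable {R : Type} [CommRing R] [IsDomain R] [Module.Free ℤ R] [Module.Finite ℤ R] {d : ℕ}
  (D : UD R d)

theorem UD.kap_one_le : 1 ≤ (D.kap : ℝ) := by
  have h1 : (1 : ℝ) ≤ d := by exact_mod_cast D.dpos
  have h2 := D.one_le
  have h3 := D.kap_ge
  nlinarith

theorem UD.abs_norm (y : R) : ((Algebra.norm ℤ y).natAbs : ℝ) = ∏ j, ‖D.s j y‖ := by
  rw [← norm_prod, ← D.nrm, Complex.norm_intCast, Nat.cast_natAbs, Int.cast_abs]

/-- small elements of ideals -/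
theorem UD.exists_small (I : Ideal R) (hI : idx I ≠ 0) (T : Fin d → ℝ) (hT : ∀ j, 0 < T j)
    (hTc : ∀ j, T (D.cj j) = T j) (hprod : (idx I : ℝ) = ∏ j, T j) :
    ∃ y ∈ I, y ≠ 0 ∧ (∀ j, ‖D.s j y‖ ≤ D.kap * T j) ∧
      (∀ j, T j ≤ D.kap ^ (d - 1) * ‖D.s j y‖) ∧
      ∀ z ∈ I, ∃ x : R, ((D.kap ^ d).factorial : R) * z = y * x := by
  have hk1 := D.kap_one_le
  have hk0 : (0 : ℝ) < D.kap := by linarith
  -- the box
  let e : (Fin d → ℤ) ≃+ R := (D.b.equivFun.symm : (Fin d → ℤ) ≃ₗ[ℤ] R).toAddEquiv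
  let J : AddSubgroup (Fin d → ℤ) := (Submodule.toAddSubgroup I).comap e.toAddMonoidHom
  have hJ : J.index = idx I := AddSubgroup.index_comap_of_surjective _ e.surjective
  let u : Fin d → (Fin d → ℤ) →+ ℝ := fun j =>
    ((Complex.reAddGroupHom + Complex.imAddGroupHom).comp (D.s j).toAddMonoidHom).comp
      e.toAddMonoidHom
  have hu0 : ∀ j w, u j w = (D.s j (e w)).re + (D.s j (e w)).im := fun j w => rfl
  obtain ⟨w, hw, hw0, hwu⟩ := exists_box D.dpos J (by rw [hJ]; exact hI) u (R := 2 * D.B)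
    (by have := D.one_le; linarith) (by
      intro j i
      rw [hu0]
      have h1 : e (Pi.single i 1) = D.b i := by
        show D.b.equivFun.symm (Pi.single i 1) = D.b i
        rw [LinearEquiv.symm_apply_eq]
        funext k
        rw [Module.Basis.equivFun_self, Pi.single_apply]
        simp only [eq_comm]
      rw [h1]
      have h2 := Complex.abs_re_le_norm (D.s j (D.b i))
      have h3 := Complex.abs_im_le_norm (D.s j (D.b i))
      have h4 := D.bound j i
      have h5 := abs_add_le (D.s j (D.b i)).re (D.s j (D.b i)).im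
      linarith) T hT (by rw [hJ, hprod])
  set y : R := e w with hy
  have hyI : y ∈ I := hw
  have hy0 : y ≠ 0 := fun h => hw0 (e.injective (by rw [← hy, h, map_zero]))
  have hub : ∀ j, |(D.s j y).re + (D.s j y).im| ≤ D.kap * T j := by
    intro j
    have h1 := hwu j
    rw [hu0] at h1
    refine h1.trans ?_
    have h2 := mul_le_mul_of_nonneg_right D.kap_ge (hT j).le
    calc 8 * (d : ℝ) * (2 * D.B) * T j = 16 * d * D.B * T j := by ring
      _ ≤ _ := h2
  have hub' : ∀ j, |(D.s j y).re - (D.s j y).im| ≤ D.kap * T j := by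
    intro j
    have h1 := hub (D.cj j)
    rw [D.cj_spec, hTc] at h1
    simp only [Complex.conj_re, Complex.conj_im] at h1
    rwa [← sub_eq_add_neg] at h1
  have hup : ∀ j, ‖D.s j y‖ ≤ D.kap * T j := by
    intro j
    have h1 := hub j
    have h2 := hub' j
    have h3 : 0 ≤ D.kap * T j := mul_nonneg hk0.le (hT j).le
    rw [Complex.norm_def, Real.sqrt_le_left h3, Complex.normSq_apply]
    have h4 := sq_le_sq' (abs_le.1 h1).1 (abs_le.1 h1).2
    have h5 := sq_le_sq' (abs_le.1 h2).1 (abs_le.1 h2).2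
    nlinarith
  -- norms
  have hNy := D.abs_norm y
  have hle : Ideal.span {y} ≤ I := (Ideal.span_singleton_le_iff_mem I).2 hyI
  have hrel : (Submodule.toAddSubgroup (Ideal.span {y})).relIndex (Submodule.toAddSubgroup I) *
      idx I = (Algebra.norm ℤ y).natAbs := by
    rw [← idx_span hy0]
    exact AddSubgroup.relIndex_mul_index hle
  set q := (Submodule.toAddSubgroup (Ideal.span {y})).relIndex (Submodule.toAddSubgroup I) with hq
  have hN0 : (Algebra.norm ℤ y).natAbs ≠ 0 := Int.natAbs_ne_zero.2 (norm_ne_zero' hy0)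
  have hq0 : q ≠ 0 := by
    intro h
    rw [h, zero_mul] at hrel
    exact hN0 hrel.symm
  have hge : ∏ j, T j ≤ ∏ j, ‖D.s j y‖ := by
    rw [← hNy, ← hrel, ← hprod]
    push_cast
    have h1 : (1 : ℝ) ≤ q := by exact_mod_cast Nat.one_le_iff_ne_zero.2 hq0
    have h2 : (0 : ℝ) ≤ idx I := Nat.cast_nonneg _
    nlinarith
  have hTpos : 0 < ∏ j, T j := Finset.prod_pos fun j _ => hT j
  refine ⟨y, hyI, hy0, hup, fun j => ?_, fun z hz => ?_⟩
  · -- lower bounds
    rw [← Finset.mul_prod_erase Finset.univ T (Finset.mem_univ j),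
      ← Finset.mul_prod_erase Finset.univ (fun j => ‖D.s j y‖) (Finset.mem_univ j)] at hge
    have h1 : ∏ i ∈ Finset.univ.erase j, ‖D.s i y‖ ≤
        D.kap ^ (d - 1) * ∏ i ∈ Finset.univ.erase j, T i := by
      calc ∏ i ∈ Finset.univ.erase j, ‖D.s i y‖ ≤ ∏ i ∈ Finset.univ.erase j, D.kap * T i :=
            Finset.prod_le_prod (fun i _ => norm_nonneg _) fun i _ => hup i
        _ = _ := by
          rw [Finset.prod_mul_distrib, Finset.prod_const, Finset.card_erase_of_mem
            (Finset.mem_univ j), Finset.card_univ, Fintype.card_fin]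
    have hP : 0 < ∏ i ∈ Finset.univ.erase j, T i := Finset.prod_pos fun i _ => hT i
    have h2 : T j * ∏ i ∈ Finset.univ.erase j, T i ≤
        (D.kap ^ (d - 1) * ‖D.s j y‖) * ∏ i ∈ Finset.univ.erase j, T i := by
      refine hge.trans ?_
      have h3 := mul_le_mul_of_nonneg_left h1 (norm_nonneg (D.s j y))
      calc ‖D.s j y‖ * ∏ i ∈ Finset.univ.erase j, ‖D.s i y‖ ≤
          ‖D.s j y‖ * (D.kap ^ (d - 1) * ∏ i ∈ Finset.univ.erase j, T i) := h3
        _ = _ := by ring
    exact le_of_mul_le_mul_right h2 hP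
  · -- index
    have hqk : q ≤ D.kap ^ d := by
      have h1 : ∏ j, ‖D.s j y‖ ≤ ∏ j, D.kap * T j :=
        Finset.prod_le_prod (fun i _ => norm_nonneg _) fun i _ => hup i
      rw [Finset.prod_mul_distrib, Finset.prod_const, Finset.card_univ, Fintype.card_fin, ← hNy,
        ← hrel, ← hprod] at h1
      push_cast at h1
      have h2 : (0 : ℝ) < idx I := by rw [hprod]; exact hTpos
      have h3 := le_of_mul_le_mul_right h1 h2
      exact_mod_cast h3
    have h1 := AddSubgroup.nsmul_mem_of_relIndex_ne_zero_of_dvd (H := Submodule.toAddSubgroup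
      (Ideal.span {y})) (K := Submodule.toAddSubgroup I) hq0 (a := z) hz
      (n := (D.kap ^ d).factorial) fun m hm hmq => Nat.dvd_factorial hm (hmq.trans hqk)
    have h2 : (D.kap ^ d).factorial • z ∈ Ideal.span {y} := h1.1
    obtain ⟨x, hx⟩ := Ideal.mem_span_singleton.1 h2
    exact ⟨x, by rw [← hx, nsmul_eq_mul]⟩

end Small

end Pool.Agent.DEC.UB
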