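import Pool.Agent.DEC.UFin
import Pool.Agent.DEC.UHt

/-!
# DEC, block U: the instance for `ℤ[X] / (g)`
-/

set_option autoImplicit false
set_option linter.unusedSectionVars false

open scoped BigOperators
open Polynomial

namespace Pool.Agent.DEC.UB

section Det

variable {K : Type} [Field K] [IsAlgClosed K] {V : Type} [Fintype V] [DecidableEq V]

private theorem ui_det_sub (M : Matrix V V K) (μ : K) :
    (aeval M (X - C μ)).det = (M.charpoly.roots.map fun l => (X - C μ : K[X]).eval l).prod := by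
  have hs : M.charpoly.Splits := IsAlgClosed.splits _
  have hcard : Multiset.card M.charpoly.roots = Fintype.card V := by
    rw [← hs.natDegree_eq_card_roots, Matrix.charpoly_natDegree_eq_dim]
  have h1 : M.charpoly.eval μ = (M.charpoly.roots.map fun l => μ - l).prod := by
    rw [hs.eval_eq_prod_roots, (Matrix.charpoly_monic M).leadingCoeff, one_mul]
  rw [Matrix.eval_charpoly] at h1
  have h2 : aeval M (X - C μ) = -(Matrix.scalar V μ - M) := by
    rw [map_sub, aeval_X, aeval_C, neg_sub]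
    rfl
  rw [h2, Matrix.det_neg, h1, ← hcard, ← Multiset.card_map (fun l => μ - l),
    ← Multiset.prod_map_neg, Multiset.map_map]
  congr 1
  apply Multiset.map_congr rfl
  intro l _
  simp

/-- `det p(M) = ∏ p(λ)` -/
theorem det_aeval_roots (M : Matrix V V K) (p : K[X]) :
    (aeval M p).det = (M.charpoly.roots.map fun l => p.eval l).prod := by
  have hs : M.charpoly.Splits := IsAlgClosed.splits _
  have hcard : Multiset.card M.charpoly.roots = Fintype.card V := by
    rw [← hs.natDegree_eq_card_roots, Matrix.charpoly_natDegree_eq_dim]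
  have key : ∀ s : Multiset K,
      (aeval M ((s.map fun μ => (X - C μ : K[X])).prod)).det =
        (M.charpoly.roots.map fun l => ((s.map fun μ => (X - C μ : K[X])).prod).eval l).prod := by
    intro s
    induction s using Multiset.induction with
    | empty => simp
    | cons a s ih =>
      rw [Multiset.map_cons, Multiset.prod_cons, map_mul, Matrix.det_mul, ih, ui_det_sub,
        ← Multiset.prod_map_mul]
      congr 1
      apply Multiset.map_congr rfl
      intro l _
      rw [eval_mul]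
  rw [(IsAlgClosed.splits p).eq_prod_roots, map_mul, Matrix.det_mul, key, aeval_C]
  have h3 : (algebraMap K (Matrix V V K) p.leadingCoeff).det =
      (M.charpoly.roots.map fun _ => p.leadingCoeff).prod := by
    rw [Multiset.map_const', Multiset.prod_replicate, hcard, Matrix.algebraMap_eq_diagonal,
      Matrix.det_diagonal]
    simp
  rw [h3, ← Multiset.prod_map_mul]
  congr 1
  apply Multiset.map_congr rfl
  intro l _
  rw [eval_mul, eval_C]

end Det

section Inst

variable {g : ℤ[X]} (hg : g.Monic)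

/-- the matrix of the multiplication by the root has characteristic polynomial `g` -/
theorem charpoly_root (hg : g.Monic) [Nontrivial (AdjoinRoot g)] :
    (Algebra.leftMulMatrix (AdjoinRoot.powerBasis' hg).basis (AdjoinRoot.root g)).charpoly = g := by
  set pb := AdjoinRoot.powerBasis' hg with hpb
  set M := Algebra.leftMulMatrix pb.basis (AdjoinRoot.root g) with hM
  have h1 : aeval (AdjoinRoot.root g) M.charpoly = 0 := by
    apply Algebra.leftMulMatrix_injective pb.basis
    rw [map_zero, ← aeval_algHom_apply (Algebra.leftMulMatrix pb.basis), ← hM]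
    exact Matrix.aeval_self_charpoly M
  have h2 : g ∣ M.charpoly := by
    rw [← AdjoinRoot.mk_eq_zero, ← AdjoinRoot.aeval_eq]
    exact h1
  have h3 : M.charpoly.natDegree = g.natDegree := by
    rw [Matrix.charpoly_natDegree_eq_dim, Fintype.card_fin]
    rfl
  exact (Polynomial.eq_of_monic_of_dvd_of_natDegree_le hg (Matrix.charpoly_monic M) h2 h3.le)

/-- evaluation at a complex root -/
noncomputable def evR (g : ℤ[X]) (z : ℂ) (hz : eval₂ (Int.castRingHom ℂ) z g = 0) :
    AdjoinRoot g →+* ℂ :=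
  AdjoinRoot.lift (Int.castRingHom ℂ) z hz

theorem evR_mk {z : ℂ} (hz : eval₂ (Int.castRingHom ℂ) z g = 0) (p : ℤ[X]) :
    evR g z hz (AdjoinRoot.mk g p) = eval₂ (Int.castRingHom ℂ) z p := by
  unfold evR
  rw [AdjoinRoot.lift_mk]

theorem map_aeval_int {V : Type} [Fintype V] [DecidableEq V] (M : Matrix V V ℤ) (p : ℤ[X]) :
    (aeval M p).map (Int.castRingHom ℂ) =
      aeval (M.map (Int.castRingHom ℂ)) (p.map (Int.castRingHom ℂ)) := by
  have h1 : (aeval M p).map (Int.castRingHom ℂ) = (Int.castRingHom ℂ).mapMatrix (aeval M p) := rfl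
  rw [h1, aeval_def, hom_eval₂, aeval_def, eval₂_map]
  congr 1
  exact RingHom.ext_int _ _

/-- the norm is the product over the roots -/
theorem norm_eq_prod (hg : g.Monic) [Nontrivial (AdjoinRoot g)] (p : ℤ[X]) :
    ((Algebra.norm ℤ (AdjoinRoot.mk g p) : ℤ) : ℂ) =
      ((g.map (Int.castRingHom ℂ)).roots.map fun z => eval₂ (Int.castRingHom ℂ) z p).prod := by
  set pb := AdjoinRoot.powerBasis' hg with hpb
  set M := Algebra.leftMulMatrix pb.basis (AdjoinRoot.root g) with hM
  have h1 : Algebra.norm ℤ (AdjoinRoot.mk g p) = (aeval M p).det := by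
    rw [Algebra.norm_eq_matrix_det pb.basis, ← AdjoinRoot.aeval_eq, ← aeval_algHom_apply]
  have h2 : ((aeval M p).det : ℂ) = (aeval (M.map (Int.castRingHom ℂ)) (p.map (Int.castRingHom ℂ))).det := by
    have h3 : (((aeval M p).det : ℤ) : ℂ) = Int.castRingHom ℂ (aeval M p).det := rfl
    rw [h3, RingHom.map_det]
    congr 1
    exact map_aeval_int M p
  rw [h1, h2, det_aeval_roots, Matrix.charpoly_map, hM, charpoly_root hg]
  congr 1
  apply Multiset.map_congr rfl
  intro l _
  rw [eval_map]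

theorem natAbs_norm_root (hg : g.Monic) [Nontrivial (AdjoinRoot g)] :
    (Algebra.norm ℤ (AdjoinRoot.root g)).natAbs = (g.coeff 0).natAbs := by
  rw [Algebra.norm_eq_matrix_det (AdjoinRoot.powerBasis' hg).basis,
    Matrix.det_eq_sign_charpoly_coeff, charpoly_root hg, Int.natAbs_mul, Int.natAbs_pow]
  simp

/-- the height of `g` -/
def HB (g : ℤ[X]) : ℕ := 1 + ∑ i ∈ Finset.range g.natDegree, (g.coeff i).natAbs

theorem root_le_HB (hg : g.Monic) {z : ℂ} (hz : eval₂ (Int.castRingHom ℂ) z g = 0) :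
    ‖z‖ ≤ HB g := by
  by_contra hcon
  push Not at hcon
  have h1 : (1 : ℝ) ≤ HB g := by
    unfold HB
    push_cast
    have : (0 : ℝ) ≤ ∑ i ∈ Finset.range g.natDegree, ((g.coeff i).natAbs : ℝ) :=
      Finset.sum_nonneg fun i _ => Nat.cast_nonneg _
    linarith
  have hz1 : 1 < ‖z‖ := lt_of_le_of_lt h1 hcon
  have hd : g.natDegree ≠ 0 := by
    intro h
    rw [hg.natDegree_eq_zero.1 h] at hz
    simp at hz
  obtain ⟨e, he⟩ := Nat.exists_eq_succ_of_ne_zero hd
  rw [eval₂_eq_sum_range, Finset.sum_range_succ, hg.coeff_natDegree, map_one, one_mul] at hz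
  have h2 : z ^ g.natDegree = -∑ i ∈ Finset.range g.natDegree, (Int.castRingHom ℂ) (g.coeff i) * z ^ i :=
    eq_neg_of_add_eq_zero_right hz
  have h3 : ‖z‖ ^ g.natDegree ≤ (∑ i ∈ Finset.range g.natDegree, ((g.coeff i).natAbs : ℝ)) * ‖z‖ ^ e := by
    rw [← norm_pow, h2, norm_neg, Finset.sum_mul]
    refine (norm_sum_le _ _).trans (Finset.sum_le_sum fun i hi => ?_)
    rw [norm_mul, norm_pow]
    have h4 : ‖(Int.castRingHom ℂ) (g.coeff i)‖ = ((g.coeff i).natAbs : ℝ) := by
      rw [eq_intCast, Complex.norm_intCast, Nat.cast_natAbs, Int.cast_abs]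
    rw [h4]
    have hi' : i ≤ e := by
      have := Finset.mem_range.1 hi
      omega
    exact mul_le_mul_of_nonneg_left (pow_le_pow_right₀ hz1.le hi') (Nat.cast_nonneg _)
  rw [he, pow_succ, mul_comm (‖z‖ ^ e)] at h3
  have h5 : 0 < ‖z‖ ^ e := pow_pos (zero_lt_one.trans hz1) _
  have h6 := le_of_mul_le_mul_right h3 h5
  have h7 : (HB g : ℝ) = 1 + ∑ i ∈ Finset.range g.natDegree, ((g.coeff i).natAbs : ℝ) := by
    unfold HB
    push_cast
    rfl
  rw [he] at h7
  linarith

/-- separability over the complex numbers -/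
theorem nodup_roots_map (hg : g.Monic) (hirr : Irreducible g) :
    (g.map (Int.castRingHom ℂ)).roots.Nodup := by
  have h1 : Irreducible (g.map (Int.castRingHom ℚ)) :=
    (IsPrimitive.Int.irreducible_iff_irreducible_map_cast hg.isPrimitive).1 hirr
  have h2 : (g.map (Int.castRingHom ℚ)).Separable := h1.separable
  have h3 : ((g.map (Int.castRingHom ℚ)).map (algebraMap ℚ ℂ)).Separable := h2.map
  rw [Polynomial.map_map] at h3
  have h4 : (algebraMap ℚ ℂ).comp (Int.castRingHom ℚ) = Int.castRingHom ℂ := RingHom.ext_int _ _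
  rw [h4] at h3
  exact Polynomial.nodup_roots h3

theorem card_roots_map (hg : g.Monic) :
    Multiset.card (g.map (Int.castRingHom ℂ)).roots = g.natDegree := by
  have hs : (g.map (Int.castRingHom ℂ)).Splits := IsAlgClosed.splits _
  rw [← hs.natDegree_eq_card_roots, hg.natDegree_map]

theorem conj_eval₂ (p : ℤ[X]) (z : ℂ) :
    eval₂ (Int.castRingHom ℂ) (starRingEnd ℂ z) p = starRingEnd ℂ (eval₂ (Int.castRingHom ℂ) z p) := by
  rw [hom_eval₂]
  congr 1
  exact RingHom.ext_int _ _

/-- an enumeration of the roots -/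
theorem exists_enum (hg : g.Monic) (hirr : Irreducible g) :
    ∃ (th : Fin g.natDegree → ℂ) (cj : Fin g.natDegree → Fin g.natDegree),
      Function.Injective th ∧ (∀ j, eval₂ (Int.castRingHom ℂ) (th j) g = 0) ∧
      (∀ j, th (cj j) = starRingEnd ℂ (th j)) ∧
      (g.map (Int.castRingHom ℂ)).roots = Finset.univ.val.map th := by
  classical
  have hnd := nodup_roots_map hg hirr
  set S := (g.map (Int.castRingHom ℂ)).roots.toFinset with hS
  have hSc : S.card = g.natDegree := by
    rw [hS, Multiset.toFinset_card_of_nodup hnd, card_roots_map hg]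
  have hmem : ∀ z, z ∈ S ↔ eval₂ (Int.castRingHom ℂ) z g = 0 := by
    intro z
    rw [hS, Multiset.mem_toFinset, mem_roots ((hg.map _).ne_zero), IsRoot.def, eval_map]
  let e := S.equivFinOfCardEq hSc
  have hc : ∀ j, starRingEnd ℂ ((e.symm j : S) : ℂ) ∈ S := by
    intro j
    rw [hmem, conj_eval₂, (hmem _).1 (e.symm j).2, map_zero]
  refine ⟨fun j => (e.symm j : S), fun j => e ⟨starRingEnd ℂ ((e.symm j : S) : ℂ), hc j⟩, ?_, ?_, ?_, ?_⟩
  · exact Subtype.val_injective.comp e.symm.injective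
  · intro j
    exact (hmem _).1 (e.symm j).2
  · intro j
    simp
  · have h1 : (g.map (Int.castRingHom ℂ)).roots = S.val := by
      rw [hS, Multiset.toFinset_val, Multiset.dedup_eq_self.2 hnd]
    rw [h1]
    have h2 : Finset.univ.map ⟨fun j => ((e.symm j : S) : ℂ), Subtype.val_injective.comp e.symm.injective⟩ = S := by
      ext z
      simp only [Finset.mem_map, Finset.mem_univ, true_and, Function.Embedding.coeFn_mk]
      constructor
      · rintro ⟨j, rfl⟩
        exact (e.symm j).2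
      · intro hz
        exact ⟨e ⟨z, hz⟩, by simp⟩
    have h3 := congrArg Finset.val h2
    rw [Finset.map_val] at h3
    exact h3.symm

end Inst

section TheInst

variable (g : ℤ[X]) (hg : g.Monic) (hirr : Irreducible g)

include hg hirr in
theorem natDegree_pos' : 0 < g.natDegree := by
  rcases Nat.eq_zero_or_pos g.natDegree with h | h
  · exfalso
    rw [hg.natDegree_eq_zero.1 h] at hirr
    exact not_irreducible_one hirr
  · exact h

/-- the basis of the powers of the root, for the canonical structure of a group -/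
noncomputable def uBasis (hg : g.Monic) : Module.Basis (Fin g.natDegree) ℤ (AdjoinRoot g) :=
  Module.Basis.ofEquivFun
    (((AdjoinRoot.powerBasis' hg).basis.equivFun).toAddEquiv.toIntLinearEquiv)

theorem uBasis_apply (hg : g.Monic) (i : Fin g.natDegree) :
    uBasis g hg i = AdjoinRoot.mk g (X ^ (i : ℕ)) := by
  unfold uBasis
  rw [Module.Basis.coe_ofEquivFun]
  have h1 : (AdjoinRoot.powerBasis' hg).basis i = AdjoinRoot.mk g (X ^ (i : ℕ)) := by
    rw [PowerBasis.coe_basis, AdjoinRoot.powerBasis'_gen, map_pow]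
    rfl
  rw [← h1]
  apply (AdjoinRoot.powerBasis' hg).basis.equivFun.injective
  refine ((AdjoinRoot.powerBasis' hg).basis.equivFun.apply_symm_apply _).trans ?_
  ext j
  refine Eq.trans ?_ (Module.Basis.equivFun_self (AdjoinRoot.powerBasis' hg).basis i j).symm
  rw [Pi.single_apply]
  simp only [eq_comm]
  congr!

/-- the instance -/
noncomputable def uInst [IsDomain (AdjoinRoot g)] [Module.Free ℤ (AdjoinRoot g)]
    [Module.Finite ℤ (AdjoinRoot g)] (H : ℕ) (hH : HB g ≤ H) : UD (AdjoinRoot g) g.natDegree where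
  dpos := natDegree_pos' g hg hirr
  s j := evR g ((exists_enum hg hirr).choose j)
    ((exists_enum hg hirr).choose_spec.choose_spec.2.1 j)
  nrm := by
    intro y
    obtain ⟨p, rfl⟩ := AdjoinRoot.mk_surjective y
    have h1 := norm_eq_prod hg p
    rw [(exists_enum hg hirr).choose_spec.choose_spec.2.2.2, Multiset.map_map] at h1
    have h2 : (∏ j, evR g ((exists_enum hg hirr).choose j)
        ((exists_enum hg hirr).choose_spec.choose_spec.2.1 j) (AdjoinRoot.mk g p)) =
        (Multiset.map ((fun z => eval₂ (Int.castRingHom ℂ) z p) ∘ (exists_enum hg hirr).choose)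
          Finset.univ.val).prod := by
      apply Finset.prod_congr rfl
      intro j _
      rw [evR_mk]
      rfl
    rw [h2, ← h1]
    congr!
  cj := (exists_enum hg hirr).choose_spec.choose
  cj_spec := by
    intro j y
    obtain ⟨p, rfl⟩ := AdjoinRoot.mk_surjective y
    rw [evR_mk, evR_mk, (exists_enum hg hirr).choose_spec.choose_spec.2.2.1, conj_eval₂]
  b := uBasis g hg
  B := (H : ℝ) ^ g.natDegree
  one_le := by
    apply one_le_pow₀
    have h1 : 1 ≤ HB g := Nat.le_add_right _ _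
    exact_mod_cast h1.trans hH
  bound := by
    intro j i
    have h0 : (1 : ℝ) ≤ H := by
      have h1 : 1 ≤ HB g := Nat.le_add_right _ _
      exact_mod_cast h1.trans hH
    rw [uBasis_apply, evR_mk, eval₂_pow, eval₂_X, norm_pow]
    have h2 := root_le_HB hg ((exists_enum hg hirr).choose_spec.choose_spec.2.1 j)
    have h3 : (HB g : ℝ) ≤ H := by exact_mod_cast hH
    refine (pow_le_pow_left₀ (norm_nonneg _) (h2.trans h3) _).trans ?_
    exact pow_le_pow_right₀ h0 i.2.le
  kap := 16 * g.natDegree * H ^ g.natDegree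
  kap_ge := by
    push_cast
    exact le_rfl

include hirr in
theorem isDomain_root : IsDomain (AdjoinRoot g) := AdjoinRoot.isDomain_of_prime hirr.prime

include hg in
theorem free_root : Module.Free ℤ (AdjoinRoot g) := Module.Free.of_basis (uBasis g hg)

include hg in
theorem finite_root : Module.Finite ℤ (AdjoinRoot g) := Module.Finite.of_basis (uBasis g hg)

/-- an element is the class of a polynomial of small degree -/
theorem exists_rep (hg : g.Monic) (y : AdjoinRoot g) :
    ∃ c : Fin g.natDegree → ℤ, AdjoinRoot.mk g (∑ i, C (c i) * X ^ (i : ℕ)) = y := by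
  refine ⟨fun i => (uBasis g hg).repr y i, ?_⟩
  conv_rhs => rw [← (uBasis g hg).sum_repr y]
  rw [map_sum]
  apply Finset.sum_congr rfl
  intro i _
  rw [map_mul, uBasis_apply, zsmul_eq_mul]
  congr 1

end TheInst

section Poly

/-- the level -/
def uK (H d : ℕ) : ℕ := 16 * d * H ^ d

/-- the universal denominator -/
def uQ (H d : ℕ) : ℕ := ((uK H d) ^ d).factorial

/-- the denominator of the steps -/
def uD (H d g0 Dl : ℕ) : ℕ := uQ H d * (Dl * g0)

/-- the size of the steps -/
def uM (H d g0 Dl : ℕ) : ℕ :=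
  uK H d * g0 * uK H d ^ (d - 1) + 2 * uK H d * uK H d ^ (d - 1) + Dl ^ 2 * uK H d ^ (d - 1) + H ^ (d - 1)

/-- the number of the residues -/
def uP (H d Dl N : ℕ) : ℕ := (N * (uQ H d * Dl ^ 2)) ^ d

/-- the exponent -/
def uL (H d g0 Dl N : ℕ) : ℕ :=
  (uD H d g0 Dl ^ uP H d Dl N) ^ d + ((uD H d g0 Dl * uM H d g0 Dl) ^ (uP H d Dl N * d)) ^ d

/-- the bound of the coefficients -/
def uB (H d g0 Dl N : ℕ) : ℕ :=
  d.factorial * H ^ (d * d) * (H ^ uL H d g0 Dl N * Dl * uD H d g0 Dl ^ uP H d Dl N *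
    (uD H d g0 Dl * uM H d g0 Dl) ^ (uP H d Dl N * d))

variable {g : ℤ[X]}

/-- Theorem U for `ℤ[X] / (g)`: units with the denominator `Dl` are, modulo `N`, of the form
`F / (Dl θ ^ L)` with an explicit bound. -/
theorem units_mod (hg : g.Monic) (hirr : Irreducible g) (h0 : g.coeff 0 ≠ 0) {H : ℕ}
    (hH : HB g ≤ H) {Dl N : ℕ} (hDl : 0 < Dl) (hN : 0 < N)
    {b b' : AdjoinRoot g} {l : ℕ}
    (hb : b * b' = (Dl : AdjoinRoot g) ^ 2 * AdjoinRoot.root g ^ (2 * l)) :
    ∃ (c c' : Fin g.natDegree → ℤ),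
      (∀ i, |c i| ≤ uB H g.natDegree (g.coeff 0).natAbs Dl N) ∧
      (∀ i, |c' i| ≤ uB H g.natDegree (g.coeff 0).natAbs Dl N) ∧
      AdjoinRoot.mk g (∑ i, C (c i) * X ^ (i : ℕ)) * AdjoinRoot.mk g (∑ i, C (c' i) * X ^ (i : ℕ)) =
        (Dl : AdjoinRoot g) ^ 2 *
          AdjoinRoot.root g ^ (2 * uL H g.natDegree (g.coeff 0).natAbs Dl N) ∧
      ∀ K, N ^ g.natDegree ≤ K → ∃ h, AdjoinRoot.root g ^ K *
        (AdjoinRoot.root g ^ l * AdjoinRoot.mk g (∑ i, C (c i) * X ^ (i : ℕ)) -
          AdjoinRoot.root g ^ uL H g.natDegree (g.coeff 0).natAbs Dl N * b) = N * h := by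
  have hdom := isDomain_root g hirr
  have hfree := free_root g hg
  have hfin := finite_root g hg
  let D := uInst g hg hirr H hH
  have hH1 : 1 ≤ H := (Nat.le_add_right 1 _ : 1 ≤ HB g).trans hH
  have hkap : D.kap = uK H g.natDegree := rfl
  have hQ : D.Q = uQ H g.natDegree := rfl
  have hnorm : (@Algebra.norm ℤ (AdjoinRoot g) _ _ (Ring.toIntAlgebra _)
      (AdjoinRoot.root g)).natAbs = (g.coeff 0).natAbs := by
    rw [← natAbs_norm_root hg]
    congr!
  have hth : AdjoinRoot.root g ≠ 0 := by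
    intro h
    rw [h, Algebra.norm_zero] at hnorm
    exact h0 (Int.natAbs_eq_zero.1 hnorm.symm)
  have hroot : ∀ j, ‖D.s j (AdjoinRoot.root g)‖ ≤ (H : ℝ) := by
    intro j
    have h1 : D.s j (AdjoinRoot.root g) = (exists_enum hg hirr).choose j := by
      exact (evR_mk ((exists_enum hg hirr).choose_spec.choose_spec.2.1 j) X).trans (eval₂_X _ _)
    rw [h1]
    have h3 : (HB g : ℝ) ≤ H := by exact_mod_cast hH
    exact (root_le_HB hg ((exists_enum hg hirr).choose_spec.choose_spec.2.1 j)).trans h3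
  obtain ⟨F, F', L, h1, h2, h3, h4, k, h, h5⟩ := units_R D (th := AdjoinRoot.root g) (Dl := Dl)
    (M := uM H g.natDegree (g.coeff 0).natAbs Dl) hth hDl (Ht := (H : ℝ)) (by exact_mod_cast hH1) hroot
    (by
      have : H ^ (g.natDegree - 1) ≤ uM H g.natDegree (g.coeff 0).natAbs Dl := Nat.le_add_left _ _
      exact_mod_cast this)
    (by
      rw [hkap, hnorm]
      have : uK H g.natDegree * (g.coeff 0).natAbs * uK H g.natDegree ^ (g.natDegree - 1) ≤
          uM H g.natDegree (g.coeff 0).natAbs Dl := by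
        unfold uM
        omega
      exact_mod_cast this)
    (by
      rw [hkap]
      have : 2 * uK H g.natDegree * uK H g.natDegree ^ (g.natDegree - 1) ≤
          uM H g.natDegree (g.coeff 0).natAbs Dl := by
        unfold uM
        omega
      exact_mod_cast this)
    (by
      rw [hkap]
      have : Dl ^ 2 * uK H g.natDegree ^ (g.natDegree - 1) ≤
          uM H g.natDegree (g.coeff 0).natAbs Dl := by
        unfold uM
        omega
      exact_mod_cast this) N hN hb
  have hD0 : D.D0 (AdjoinRoot.root g) Dl = uD H g.natDegree (g.coeff 0).natAbs Dl := by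
    unfold UD.D0 uD
    rw [hnorm, hQ]
  rw [hD0, hQ] at h2 h3 h4
  have hL : L = uL H g.natDegree (g.coeff 0).natAbs Dl N := h2
  have hP : (N * (uQ H g.natDegree * Dl ^ 2)) ^ g.natDegree = uP H g.natDegree Dl N := rfl
  rw [hP] at h3 h4
  obtain ⟨c, hc⟩ := exists_rep g hg F
  obtain ⟨c', hc'⟩ := exists_rep g hg F'
  have hcoord : ∀ (c : Fin g.natDegree → ℤ) (F : AdjoinRoot g),
      AdjoinRoot.mk g (∑ i, C (c i) * X ^ (i : ℕ)) = F →
      (∀ j, ‖D.s j F‖ ≤ (H : ℝ) ^ L * Dl * (uD H g.natDegree (g.coeff 0).natAbs Dl : ℝ) ^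
        uP H g.natDegree Dl N * ((uD H g.natDegree (g.coeff 0).natAbs Dl : ℝ) *
          uM H g.natDegree (g.coeff 0).natAbs Dl) ^ (uP H g.natDegree Dl N * g.natDegree)) →
      ∀ i, |c i| ≤ uB H g.natDegree (g.coeff 0).natAbs Dl N := by
    intro c F hc hF i
    have h6 := coord_bound hg rfl (exists_enum hg hirr).choose
      (exists_enum hg hirr).choose_spec.choose_spec.1
      (exists_enum hg hirr).choose_spec.choose_spec.2.1 (H := (H : ℝ)) (by exact_mod_cast hH1)
      (fun j => (root_le_HB hg ((exists_enum hg hirr).choose_spec.choose_spec.2.1 j)).trans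
        (by exact_mod_cast hH)) (fun i => (c i : ℝ)) (M := (H : ℝ) ^ L * Dl *
          (uD H g.natDegree (g.coeff 0).natAbs Dl : ℝ) ^
        uP H g.natDegree Dl N * ((uD H g.natDegree (g.coeff 0).natAbs Dl : ℝ) *
          uM H g.natDegree (g.coeff 0).natAbs Dl) ^ (uP H g.natDegree Dl N * g.natDegree)) ?_ i
    · rw [hL] at h6
      have h7 : ((|c i| : ℤ) : ℝ) ≤ ((uB H g.natDegree (g.coeff 0).natAbs Dl N : ℕ) : ℝ) := by
        rw [Int.cast_abs]
        refine h6.trans (le_of_eq ?_)
        unfold uB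
        push_cast
        ring
      exact_mod_cast h7
    · intro j
      have h8 := hF j
      rw [← hc] at h8
      have h9 : D.s j (AdjoinRoot.mk g (∑ i, C (c i) * X ^ (i : ℕ))) =
          ∑ i, (((c i : ℤ) : ℝ) : ℂ) * (exists_enum hg hirr).choose j ^ (i : ℕ) := by
        refine (evR_mk ((exists_enum hg hirr).choose_spec.choose_spec.2.1 j) _).trans ?_
        rw [eval₂_finsetSum]
        apply Finset.sum_congr rfl
        intro i _
        rw [eval₂_mul, eval₂_C, eval₂_pow, eval₂_X]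
        simp
      rw [h9] at h8
      exact h8
  refine ⟨c, c', hcoord c F hc h3, hcoord c' F' hc' h4, ?_, ?_⟩
  · rw [hc, hc', h1, hL]
  · intro K hK
    rw [hc, ← hL]
    have h6 := mem_bounded D N hN (th := AdjoinRoot.root g)
      (y := AdjoinRoot.root g ^ l * F - AdjoinRoot.root g ^ L * b) (k := k) ⟨h, h5⟩ K hK
    obtain ⟨h', hh'⟩ := h6
    exact ⟨h', hh'⟩

/-- Theorem U in the form used for the determinants. -/
theorem units_det (hg : g.Monic) (hirr : Irreducible g) (h0 : g.coeff 0 ≠ 0) {H : ℕ}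
    (hH : HB g ≤ H) {Dl N : ℕ} (hDl : 0 < Dl) (hN : 0 < N)
    {σ τ G G' : AdjoinRoot g} {l : ℕ} (hσ : G * σ = Dl) (hτ : G' * τ = Dl * AdjoinRoot.root g ^ l) :
    ∃ (c c' : Fin g.natDegree → ℤ),
      (∀ i, |c i| ≤ uB H g.natDegree (g.coeff 0).natAbs Dl N) ∧
      (∀ i, |c' i| ≤ uB H g.natDegree (g.coeff 0).natAbs Dl N) ∧
      AdjoinRoot.mk g (∑ i, C (c i) * X ^ (i : ℕ)) * AdjoinRoot.mk g (∑ i, C (c' i) * X ^ (i : ℕ)) =
        (Dl : AdjoinRoot g) ^ 2 *
          AdjoinRoot.root g ^ (2 * uL H g.natDegree (g.coeff 0).natAbs Dl N) ∧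
      ∀ K, N ^ g.natDegree ≤ K → ∃ h, AdjoinRoot.root g ^ K *
        (AdjoinRoot.mk g (∑ i, C (c i) * X ^ (i : ℕ)) * σ -
          AdjoinRoot.root g ^ uL H g.natDegree (g.coeff 0).natAbs Dl N * Dl * τ) = N * h := by
  have hdom := isDomain_root g hirr
  have hfree := free_root g hg
  have hfin := finite_root g hg
  let D := uInst g hg hirr H hH
  have hb : (τ * G * AdjoinRoot.root g ^ l) * (σ * G') =
      (Dl : AdjoinRoot g) ^ 2 * AdjoinRoot.root g ^ (2 * l) := by
    have e : (τ * G * AdjoinRoot.root g ^ l) * (σ * G') =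
      (G * σ) * (G' * τ) * AdjoinRoot.root g ^ l := by ring
    rw [e, hσ, hτ]
    ring
  obtain ⟨c, c', h1, h2, h3, h4⟩ := units_mod hg hirr h0 hH hDl hN hb
  refine ⟨c, c', h1, h2, h3, ?_⟩
  intro K hK
  obtain ⟨h, hh⟩ := h4 (N ^ g.natDegree) le_rfl
  have h6 := mem_bounded D N hN (th := AdjoinRoot.root g)
    (y := AdjoinRoot.mk g (∑ i, C (c i) * X ^ (i : ℕ)) * σ -
          AdjoinRoot.root g ^ uL H g.natDegree (g.coeff 0).natAbs Dl N * Dl * τ)
    (k := N ^ g.natDegree + l) ⟨h * σ, by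
      rw [← mul_assoc, ← hh, ← hσ]
      ring⟩ K hK
  obtain ⟨h', hh'⟩ := h6
  exact ⟨h', hh'⟩

/-- Theorem U in polynomial form. -/
theorem units_poly (hg : g.Monic) (hirr : Irreducible g) (h0 : g.coeff 0 ≠ 0) {H : ℕ}
    (hH : HB g ≤ H) {Dl N : ℕ} (hDl : 0 < Dl) (hN : 0 < N)
    {S T G G' : ℤ[X]} {l : ℕ} (hσ : g ∣ G * S - C (Dl : ℤ)) (hτ : g ∣ G' * T - C (Dl : ℤ) * X ^ l) :
    ∃ (c c' : Fin g.natDegree → ℤ),
      (∀ i, |c i| ≤ uB H g.natDegree (g.coeff 0).natAbs Dl N) ∧
      (∀ i, |c' i| ≤ uB H g.natDegree (g.coeff 0).natAbs Dl N) ∧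
      g ∣ (∑ i, C (c i) * X ^ (i : ℕ)) * (∑ i, C (c' i) * X ^ (i : ℕ)) -
        C ((Dl : ℤ) ^ 2) * X ^ (2 * uL H g.natDegree (g.coeff 0).natAbs Dl N) ∧
      ∀ K, N ^ g.natDegree ≤ K → ∃ h : ℤ[X], g ∣ X ^ K * ((∑ i, C (c i) * X ^ (i : ℕ)) * S -
          C (Dl : ℤ) * X ^ uL H g.natDegree (g.coeff 0).natAbs Dl N * T) - C (N : ℤ) * h := by
  have e1 : AdjoinRoot.mk g G * AdjoinRoot.mk g S = (Dl : AdjoinRoot g) := by
    have h := AdjoinRoot.mk_eq_zero.2 hσ
    rw [map_sub, map_mul, sub_eq_zero] at h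
    rw [h]
    simp
  have e2 : AdjoinRoot.mk g G' * AdjoinRoot.mk g T = (Dl : AdjoinRoot g) * AdjoinRoot.root g ^ l := by
    have h := AdjoinRoot.mk_eq_zero.2 hτ
    rw [map_sub, map_mul, map_mul, sub_eq_zero, map_pow, AdjoinRoot.mk_X] at h
    rw [h]
    simp
  obtain ⟨c, c', h1, h2, h3, h4⟩ := units_det hg hirr h0 hH hDl hN e1 e2
  refine ⟨c, c', h1, h2, ?_, ?_⟩
  · rw [← AdjoinRoot.mk_eq_zero, map_sub, map_mul, h3]
    simp
  · intro K hK
    obtain ⟨h, hh⟩ := h4 K hK
    obtain ⟨p, rfl⟩ := AdjoinRoot.mk_surjective h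
    refine ⟨p, ?_⟩
    rw [← AdjoinRoot.mk_eq_zero, map_sub, map_mul, map_pow, AdjoinRoot.mk_X, map_sub, map_mul,
      map_mul, map_mul, map_pow, AdjoinRoot.mk_X, map_mul]
    rw [sub_eq_zero]
    refine Eq.trans ?_ (hh.trans ?_)
    · simp
      ring
    · simp

/-- every ideal of `ℤ[X] / (g)` is almost principal -/
theorem almost_principal_root (hg : g.Monic) (hirr : Irreducible g) {H : ℕ} (hH : HB g ≤ H)
    (I : Ideal (AdjoinRoot g)) (hI : I ≠ ⊥) :
    ∃ y ∈ I, y ≠ 0 ∧ ∀ z ∈ I, ∃ c : AdjoinRoot g, (uQ H g.natDegree : AdjoinRoot g) * z = c * y := by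
  have hdom := isDomain_root g hirr
  have hfree := free_root g hg
  have hfin := finite_root g hg
  exact (uInst g hg hirr H hH).almost_principal I hI

end Poly

end Pool.Agent.DEC.UB

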