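import Pool.Agent.DEC.UIdx

/-!
# DEC, block U: the walk from `Dl θ^l` to `b`
-/

set_option autoImplicit false
set_option linter.unusedSectionVars false

open scoped BigOperators

namespace Pool.Agent.DEC.UB

section Walk

variable {R : Type} [CommRing R] [IsDomain R] [Module.Free ℤ R] [Module.Finite ℤ R] {d : ℕ}
  (D : UD R d)

/-- the universal denominator -/
def UD.Q : ℕ := (D.kap ^ d).factorial

theorem UD.Q_pos : 0 < D.Q := Nat.factorial_pos _

/-- `y` is a reduced element of `I` for the weights `T` -/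
structure Red (I : Ideal R) (T : Fin d → ℝ) (y : R) : Prop where
  mem : y ∈ I
  ne : y ≠ 0
  up : ∀ j, ‖D.s j y‖ ≤ D.kap * T j
  low : ∀ j, T j ≤ D.kap ^ (d - 1) * ‖D.s j y‖
  dvd : ∀ z ∈ I, ∃ x : R, (D.Q : R) * z = y * x

theorem UD.exists_red (I : Ideal R) (hI : idx I ≠ 0) (T : Fin d → ℝ) (hT : ∀ j, 0 < T j)
    (hTc : ∀ j, T (D.cj j) = T j) (hprod : (idx I : ℝ) = ∏ j, T j) : ∃ y, Red D I T y := by
  obtain ⟨y, h1, h2, h3, h4, h5⟩ := D.exists_small I hI T hT hTc hprod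
  exact ⟨y, h1, h2, h3, h4, h5⟩

/-- every ideal is almost principal -/
theorem UD.almost_principal (I : Ideal R) (hI : I ≠ ⊥) :
    ∃ y ∈ I, y ≠ 0 ∧ ∀ z ∈ I, ∃ c : R, (D.Q : R) * z = c * y := by
  obtain ⟨y0, hy0, hy00⟩ := Submodule.exists_mem_ne_zero_of_ne_bot hI
  have hidx : idx I ≠ 0 := idx_ne_zero hy00 hy0
  have hidx' : (0 : ℝ) < idx I := by exact_mod_cast Nat.pos_of_ne_zero hidx
  have hprod : (idx I : ℝ) = ∏ _j : Fin d, (idx I : ℝ) ^ ((1 : ℝ) / d) := by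
    rw [Finset.prod_const, Finset.card_univ, Fintype.card_fin, ← Real.rpow_natCast,
      ← Real.rpow_mul hidx'.le, one_div, inv_mul_cancel₀ (by exact_mod_cast D.dpos.ne'),
      Real.rpow_one]
  obtain ⟨y, hy⟩ := D.exists_red I hidx (fun _ => (idx I : ℝ) ^ ((1 : ℝ) / d))
    (fun _ => Real.rpow_pos_of_pos hidx' _) (fun _ => rfl) hprod
  refine ⟨y, hy.mem, hy.ne, fun z hz => ?_⟩
  obtain ⟨x, hx⟩ := hy.dvd z hz
  exact ⟨x, by rw [hx, mul_comm]⟩

variable (th : R) (Dl M : ℕ)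

/-- elements whose inverse has a bounded denominator -/
def Good (z : R) : Prop := z ≠ 0 ∧ ∃ (l : ℕ) (y : R), z * y = th ^ l * (D.Q * Dl ^ 2 : ℕ)

/-- the common denominator of the steps -/
noncomputable def UD.D0 : ℕ := D.Q * (Dl * (Algebra.norm ℤ th).natAbs)

/-- a step of the walk -/
def Step (z z' : R) : Prop := Good D th Dl z ∧ Good D th Dl z' ∧
  ∃ y : R, (D.D0 th Dl : R) * z' = y * z ∧ ∀ j, ‖D.s j y‖ ≤ (D.D0 th Dl : ℝ) * M

variable {th Dl M}

theorem step_of_red {I : Ideal R} {T : Fin d → ℝ} {y y' : R} (h : Red D I T y)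
    (hT : ∀ j, 0 < T j) (hy' : y' ∈ I) {c : ℝ} (hc : 0 ≤ c)
    (hup : ∀ j, ‖D.s j y'‖ ≤ c * T j)
    (hM : c * D.kap ^ (d - 1) ≤ M) (hg : Good D th Dl y) (hg' : Good D th Dl y') :
    Step D th Dl M y y' := by
  refine ⟨hg, hg', ?_⟩
  obtain ⟨x, hx⟩ := h.dvd y' hy'
  refine ⟨((Dl * (Algebra.norm ℤ th).natAbs : ℕ) : R) * x, ?_, fun j => ?_⟩
  · unfold UD.D0
    push_cast
    linear_combination ((Dl : R) * ((Algebra.norm ℤ th).natAbs : R)) * hx
  · have h1 : D.s j y ≠ 0 := by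
      intro h0
      have h2 := h.low j
      rw [h0, norm_zero, mul_zero] at h2
      exact absurd (hT j) (not_lt.2 h2)
    have h1' : 0 < ‖D.s j y‖ := norm_pos_iff.2 h1
    have h2 := congrArg (fun z => ‖D.s j z‖) hx
    simp only [map_mul, norm_mul, map_natCast, Complex.norm_natCast] at h2
    rw [map_mul, norm_mul, map_natCast, Complex.norm_natCast]
    have h3 : ‖D.s j x‖ ≤ D.Q * M := by
      have h4 : ‖D.s j y'‖ ≤ M * ‖D.s j y‖ := by
        calc ‖D.s j y'‖ ≤ c * T j := hup j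
          _ ≤ c * (D.kap ^ (d - 1) * ‖D.s j y‖) := mul_le_mul_of_nonneg_left (h.low j) hc
          _ = (c * D.kap ^ (d - 1)) * ‖D.s j y‖ := by ring
          _ ≤ _ := mul_le_mul_of_nonneg_right hM (norm_nonneg _)
      have h5 : ‖D.s j y‖ * ‖D.s j x‖ ≤ ‖D.s j y‖ * (D.Q * M) := by
        rw [← h2]
        calc (D.Q : ℝ) * ‖D.s j y'‖ ≤ D.Q * (M * ‖D.s j y‖) :=
              mul_le_mul_of_nonneg_left h4 (Nat.cast_nonneg _)
          _ = _ := by ring
      exact le_of_mul_le_mul_left h5 h1'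
    unfold UD.D0
    push_cast
    calc (Dl : ℝ) * ((Algebra.norm ℤ th).natAbs : ℝ) * ‖D.s j x‖ ≤
        (Dl : ℝ) * ((Algebra.norm ℤ th).natAbs : ℝ) * (D.Q * M) :=
          mul_le_mul_of_nonneg_left h3 (by positivity)
      _ = _ := by ring

theorem natAbs_norm_mem {y : R} (hy : y ≠ 0) : ∃ x : R, ((Algebra.norm ℤ y).natAbs : R) = y * x := by
  have h1 : Nat.card (R ⧸ Ideal.span {y}) = (Algebra.norm ℤ y).natAbs := by
    rw [← idx_eq_card, idx_span hy]
  have h2 : (Nat.card (R ⧸ Ideal.span {y})) • (Ideal.Quotient.mk (Ideal.span {y}) (1 : R)) = 0 :=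
    card_nsmul_eq_zero'
  rw [h1, ← map_nsmul, Ideal.Quotient.eq_zero_iff_mem] at h2
  obtain ⟨x, hx⟩ := Ideal.mem_span_singleton.1 h2
  exact ⟨x, by rw [← hx, nsmul_eq_mul, mul_one]⟩

include D in
theorem norm_natCast' (n : ℕ) : (Algebra.norm ℤ (n : R)).natAbs = n ^ d := by
  have h1 : Module.finrank ℤ R = d := by
    rw [Module.finrank_eq_card_basis D.b, Fintype.card_fin]
  rw [Algebra.norm_natCast, h1, Int.natAbs_pow, Int.natAbs_natCast]

theorem good_of_mem {I : Ideal R} {k : ℕ} (hI : th ^ k ∈ I) {T : Fin d → ℝ} {y : R}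
    (h : Red D I T y) : Good D th Dl y := by
  obtain ⟨x, hx⟩ := h.dvd _ hI
  refine ⟨h.ne, k, x * (Dl ^ 2 : ℕ), ?_⟩
  push_cast
  linear_combination (-(Dl : R) ^ 2) * hx

theorem red_one : Red D ⊤ (fun _ => 1) 1 := by
  have h1 := D.kap_one_le
  refine ⟨Submodule.mem_top, one_ne_zero, fun j => ?_, fun j => ?_, fun z _ => ⟨D.Q * z, by ring⟩⟩
  · rw [map_one, norm_one, mul_one]
    exact h1
  · rw [map_one, norm_one, mul_one]
    exact one_le_pow₀ h1

theorem natAbs_norm_pos {y : R} (hy : y ≠ 0) : 1 ≤ (Algebra.norm ℤ y).natAbs :=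
  Nat.one_le_iff_ne_zero.2 (Int.natAbs_ne_zero.2 (norm_ne_zero' hy))

theorem walk_start (hth : th ≠ 0) (hDl : 0 < Dl) {Ht : ℝ} (h1 : 1 ≤ Ht)
    (hH : ∀ j, ‖D.s j th‖ ≤ Ht) (hM : Ht ^ (d - 1) ≤ M) (l : ℕ) :
    Relation.ReflTransGen (Step D th Dl M) (Dl * th ^ l) 1 := by
  have hM1 : (1 : ℝ) ≤ M := (one_le_pow₀ h1).trans hM
  have hcharz : (Dl : R) ≠ 0 := by
    intro h
    have h2 := congrArg (D.s ⟨0, D.dpos⟩) h
    rw [map_natCast, map_zero] at h2
    exact hDl.ne' (by exact_mod_cast h2)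
  have hgood : ∀ i : ℕ, Good D th Dl (Dl * th ^ i) := fun i => by
    refine ⟨mul_ne_zero hcharz (pow_ne_zero _ hth), i, (D.Q * Dl : ℕ), ?_⟩
    push_cast
    ring
  obtain ⟨x, hx⟩ := natAbs_norm_mem hth
  have hn0 := natAbs_norm_pos hth
  have hn0' : (1 : ℝ) ≤ ((Algebra.norm ℤ th).natAbs : ℝ) := by exact_mod_cast hn0
  have hxb : ∀ j, ‖D.s j x‖ ≤ Ht ^ (d - 1) := by
    intro j
    have h2 := congrArg (fun z => ‖D.s j z‖) hx
    simp only [map_mul, norm_mul, map_natCast, Complex.norm_natCast] at h2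
    rw [D.abs_norm, ← Finset.mul_prod_erase Finset.univ _ (Finset.mem_univ j)] at h2
    have h3 : ‖D.s j th‖ ≠ 0 := by
      intro h0
      have h4 := D.abs_norm th
      rw [← Finset.mul_prod_erase Finset.univ _ (Finset.mem_univ j), h0, zero_mul] at h4
      linarith
    have h4 := mul_left_cancel₀ h3 h2
    rw [← h4]
    calc ∏ i ∈ Finset.univ.erase j, ‖D.s i th‖ ≤ ∏ i ∈ Finset.univ.erase j, Ht :=
          Finset.prod_le_prod (fun i _ => norm_nonneg _) fun i _ => hH i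
      _ = _ := by
        rw [Finset.prod_const, Finset.card_erase_of_mem (Finset.mem_univ j), Finset.card_univ,
          Fintype.card_fin]
  induction l with
  | zero =>
    have hg1 : Good D th Dl 1 := ⟨one_ne_zero, 0, (D.Q * Dl ^ 2 : ℕ), by rw [pow_zero]⟩
    refine Relation.ReflTransGen.single ⟨hgood 0, hg1,
      ((D.Q * (Algebra.norm ℤ th).natAbs : ℕ) : R), ?_, fun j => ?_⟩
    · unfold UD.D0
      push_cast
      ring
    · rw [map_natCast, Complex.norm_natCast]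
      unfold UD.D0
      push_cast
      have h5 : (1 : ℝ) ≤ Dl := by exact_mod_cast hDl
      have h6 : (0 : ℝ) ≤ D.Q * ((Algebra.norm ℤ th).natAbs : ℝ) := by positivity
      have h7 : (1 : ℝ) ≤ Dl * M := one_le_mul_of_one_le_of_one_le h5 hM1
      calc (D.Q : ℝ) * ((Algebra.norm ℤ th).natAbs : ℝ) =
          D.Q * ((Algebra.norm ℤ th).natAbs : ℝ) * 1 := by rw [mul_one]
        _ ≤ D.Q * ((Algebra.norm ℤ th).natAbs : ℝ) * (Dl * M) := mul_le_mul_of_nonneg_left h7 h6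
        _ = _ := by ring
  | succ l ih =>
    refine Relation.ReflTransGen.head ⟨hgood (l + 1), hgood l, (D.Q * Dl : ℕ) * x, ?_, fun j => ?_⟩ ih
    · unfold UD.D0
      push_cast
      rw [hx]
      ring
    · rw [map_mul, norm_mul, map_natCast, Complex.norm_natCast]
      unfold UD.D0
      push_cast
      have h5 := (hxb j).trans hM
      calc (D.Q : ℝ) * Dl * ‖D.s j x‖ ≤ D.Q * Dl * M := mul_le_mul_of_nonneg_left h5 (by positivity)
        _ = (D.Q * Dl * 1) * M := by ring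
        _ ≤ (D.Q * Dl * ((Algebra.norm ℤ th).natAbs : ℝ)) * M := by
            gcongr
        _ = _ := by ring

/-- the ideal of the walk -/
def Ik (th b : R) (k : ℕ) : Ideal R := Ideal.span {b} ⊔ Ideal.span {th ^ k}

theorem th_mem_Ik (b : R) (k : ℕ) : th ^ k ∈ Ik th b k :=
  Ideal.mem_sup_right (Ideal.mem_span_singleton_self _)

theorem b_mem_Ik (b : R) (k : ℕ) : b ∈ Ik th b k :=
  Ideal.mem_sup_left (Ideal.mem_span_singleton_self _)

theorem Ik_le (b : R) (k : ℕ) : Ik th b (k + 1) ≤ Ik th b k := by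
  refine sup_le (le_sup_left) ?_
  rw [Ideal.span_singleton_le_iff_mem, pow_succ]
  exact Ideal.mul_mem_right _ _ (th_mem_Ik b k)

theorem mul_Ik_le (b : R) (k : ℕ) : Ideal.span {th} * Ik th b k ≤ Ik th b (k + 1) := by
  unfold Ik
  rw [Ideal.mul_sup]
  refine sup_le ?_ ?_
  · exact Ideal.mul_le_right.trans le_sup_left
  · rw [Ideal.span_singleton_mul_span_singleton, ← pow_succ']
    exact le_sup_right

theorem prod_const_rpow (hd : 0 < d) {x : ℝ} (hx : 0 ≤ x) :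
    ∏ _j : Fin d, x ^ ((1 : ℝ) / d) = x := by
  rw [Finset.prod_const, Finset.card_univ, Fintype.card_fin, ← Real.rpow_natCast, ← Real.rpow_mul hx,
    one_div, inv_mul_cancel₀ (by exact_mod_cast hd.ne'), Real.rpow_one]

theorem walk_phase1 (hth : th ≠ 0) (b : R)
    (hM : (D.kap : ℝ) * (Algebra.norm ℤ th).natAbs * D.kap ^ (d - 1) ≤ M) (k : ℕ) :
    ∃ y, Red D (Ik th b k) (fun _ => (idx (Ik th b k) : ℝ) ^ ((1 : ℝ) / d)) y ∧
      Relation.ReflTransGen (Step D th Dl M) 1 y := by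
  have hn0 : (1 : ℝ) ≤ ((Algebra.norm ℤ th).natAbs : ℝ) := by exact_mod_cast natAbs_norm_pos hth
  have hidx : ∀ k, idx (Ik th b k) ≠ 0 := fun k => idx_ne_zero (pow_ne_zero k hth) (th_mem_Ik b k)
  have hidx' : ∀ k, (0 : ℝ) < idx (Ik th b k) := fun k => by
    exact_mod_cast Nat.pos_of_ne_zero (hidx k)
  have hTpos : ∀ k, 0 < (idx (Ik th b k) : ℝ) ^ ((1 : ℝ) / d) := fun k => Real.rpow_pos_of_pos (hidx' k) _
  induction k with
  | zero =>
    have h0 : Ik th b 0 = ⊤ := by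
      rw [Ideal.eq_top_iff_one]
      have := th_mem_Ik (th := th) b 0
      rwa [pow_zero] at this
    refine ⟨1, ?_, Relation.ReflTransGen.refl⟩
    have h1 : idx (⊤ : Ideal R) = 1 := AddSubgroup.index_top
    rw [h0, h1, Nat.cast_one, Real.one_rpow]
    exact red_one D
  | succ k ih =>
    obtain ⟨y, hy, hw⟩ := ih
    obtain ⟨y', hy'⟩ := D.exists_red (Ik th b (k + 1)) (hidx _)
      (fun _ => (idx (Ik th b (k + 1)) : ℝ) ^ ((1 : ℝ) / d)) (fun _ => hTpos _) (fun _ => rfl)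
      (prod_const_rpow D.dpos (Nat.cast_nonneg _)).symm
    refine ⟨y', hy', hw.tail (step_of_red D hy (fun _ => hTpos _) (Ik_le b k hy'.mem)
      (c := D.kap * (Algebra.norm ℤ th).natAbs) (by positivity) (fun j => ?_) hM
      (good_of_mem D (th_mem_Ik b k) hy) (good_of_mem D (th_mem_Ik b (k + 1)) hy'))⟩
    refine (hy'.up j).trans ?_
    rw [mul_assoc]
    refine mul_le_mul_of_nonneg_left ?_ (Nat.cast_nonneg _)
    have h1 : (idx (Ik th b (k + 1)) : ℝ) ≤ (Algebra.norm ℤ th).natAbs * idx (Ik th b k) := by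
      have h2 := idx_le (mul_Ik_le (th := th) b k)
      rw [idx_mul hth] at h2
      have h3 := Nat.le_of_dvd (Nat.mul_pos (Nat.pos_of_ne_zero (hidx k)) (natAbs_norm_pos hth)) h2
      rw [mul_comm]
      exact_mod_cast h3
    calc (idx (Ik th b (k + 1)) : ℝ) ^ ((1 : ℝ) / d) ≤
        ((Algebra.norm ℤ th).natAbs * idx (Ik th b k) : ℝ) ^ ((1 : ℝ) / d) :=
          Real.rpow_le_rpow (Nat.cast_nonneg _) h1 (by positivity)
      _ = ((Algebra.norm ℤ th).natAbs : ℝ) ^ ((1 : ℝ) / d) * (idx (Ik th b k) : ℝ) ^ ((1 : ℝ) / d) :=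
          Real.mul_rpow (Nat.cast_nonneg _) (Nat.cast_nonneg _)
      _ ≤ _ := by
          refine mul_le_mul_of_nonneg_right ?_ (hTpos k).le
          calc ((Algebra.norm ℤ th).natAbs : ℝ) ^ ((1 : ℝ) / d) ≤
              ((Algebra.norm ℤ th).natAbs : ℝ) ^ (1 : ℝ) := by
                refine Real.rpow_le_rpow_of_exponent_le hn0 ?_
                rw [div_le_one (by exact_mod_cast D.dpos)]
                exact_mod_cast D.dpos
            _ = _ := Real.rpow_one _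

end Walk

end Pool.Agent.DEC.UB
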