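import Pool.Agent.DEC.UWalk
import Pool.Agent.DEC.UCutA

/-!
# DEC, block U: the second half of the walk
-/

set_option autoImplicit false
set_option linter.unusedSectionVars false

open scoped BigOperators

namespace Pool.Agent.DEC.UB

section Walk

variable {R : Type} [CommRing R] [IsDomain R] [Module.Free ℤ R] [Module.Finite ℤ R] {d : ℕ}
  (D : UD R d)

variable {th : R} {Dl M : ℕ}

theorem norm_s_ne_zero {y : R} (hy : y ≠ 0) (j : Fin d) : 0 < ‖D.s j y‖ := by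
  refine lt_of_le_of_ne (norm_nonneg _) fun h0 => ?_
  have h4 := D.abs_norm y
  rw [← Finset.mul_prod_erase Finset.univ _ (Finset.mem_univ j), ← h0, zero_mul] at h4
  have h5 := natAbs_norm_pos hy
  have h6 : (1 : ℝ) ≤ ((Algebra.norm ℤ y).natAbs : ℝ) := by exact_mod_cast h5
  linarith

/-- the second phase: the weights move -/
theorem walk_phase2 {I : Ideal R} (hI : idx I ≠ 0) {k : ℕ} (hk : th ^ k ∈ I)
    (hM : (2 * D.kap : ℝ) * D.kap ^ (d - 1) ≤ M) (t : Fin d → ℝ) (ht : ∀ j, 0 < t j)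
    (htc : ∀ j, t (D.cj j) = t j) (htp : ∏ j, t j = 1) (n : ℕ) (hn : 0 < n)
    (htn : ∀ j, t j ≤ 2 ^ n) {y : R}
    (hy : Red D I (fun _ => (idx I : ℝ) ^ ((1 : ℝ) / d)) y)
    (hw : Relation.ReflTransGen (Step D th Dl M) 1 y) (i : ℕ) :
    ∃ y', Red D I (fun j => (idx I : ℝ) ^ ((1 : ℝ) / d) * t j ^ ((i : ℝ) / n)) y' ∧
      Relation.ReflTransGen (Step D th Dl M) 1 y' := by
  have hidx' : (0 : ℝ) < idx I := by exact_mod_cast Nat.pos_of_ne_zero hI
  have hT0 : 0 < (idx I : ℝ) ^ ((1 : ℝ) / d) := Real.rpow_pos_of_pos hidx' _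
  have hTpos : ∀ (i : ℕ) (j : Fin d), 0 < (idx I : ℝ) ^ ((1 : ℝ) / d) * t j ^ ((i : ℝ) / n) :=
    fun i j => mul_pos hT0 (Real.rpow_pos_of_pos (ht j) _)
  induction i with
  | zero =>
    refine ⟨y, ?_, hw⟩
    have h1 : (fun j => (idx I : ℝ) ^ ((1 : ℝ) / d) * t j ^ (((0 : ℕ) : ℝ) / n)) =
        fun _ => (idx I : ℝ) ^ ((1 : ℝ) / d) := by
      funext j
      rw [Nat.cast_zero, zero_div, Real.rpow_zero, mul_one]
    rw [h1]
    exact hy
  | succ i ih =>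
    obtain ⟨y1, hy1, hw1⟩ := ih
    obtain ⟨y', hy'⟩ := D.exists_red I hI
      (fun j => (idx I : ℝ) ^ ((1 : ℝ) / d) * t j ^ (((i + 1 : ℕ) : ℝ) / n)) (hTpos _)
      (fun j => by rw [htc]) (by
        rw [Finset.prod_mul_distrib, prod_const_rpow D.dpos hidx'.le,
          Real.finsetProd_rpow _ _ fun j _ => (ht j).le, htp, Real.one_rpow, mul_one])
    refine ⟨y', hy', hw1.tail (step_of_red D hy1 (hTpos i) hy'.mem (c := 2 * D.kap) (by positivity)
      (fun j => ?_) hM (good_of_mem D hk hy1) (good_of_mem D hk hy'))⟩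
    refine (hy'.up j).trans ?_
    have h1 : t j ^ (((i + 1 : ℕ) : ℝ) / n) ≤ 2 * t j ^ ((i : ℝ) / n) := by
      have h2 : ((i + 1 : ℕ) : ℝ) / n = (1 : ℝ) / n + (i : ℝ) / n := by push_cast; ring
      rw [h2, Real.rpow_add (ht j)]
      refine mul_le_mul_of_nonneg_right ?_ (Real.rpow_nonneg (ht j).le _)
      calc t j ^ ((1 : ℝ) / n) ≤ ((2 : ℝ) ^ n) ^ ((1 : ℝ) / n) :=
            Real.rpow_le_rpow (ht j).le (htn j) (by positivity)
        _ = 2 := by
          rw [one_div]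
          exact Real.pow_rpow_inv_natCast (by norm_num) hn.ne'
    calc (D.kap : ℝ) * ((idx I : ℝ) ^ ((1 : ℝ) / d) * t j ^ (((i + 1 : ℕ) : ℝ) / n)) ≤
        D.kap * ((idx I : ℝ) ^ ((1 : ℝ) / d) * (2 * t j ^ ((i : ℝ) / n))) := by
          gcongr
      _ = _ := by ring

/-- the whole walk -/
theorem walk (hth : th ≠ 0) (hDl : 0 < Dl) {Ht : ℝ} (h1 : 1 ≤ Ht)
    (hH : ∀ j, ‖D.s j th‖ ≤ Ht) (hM4 : Ht ^ (d - 1) ≤ M)
    (hM1 : (D.kap : ℝ) * (Algebra.norm ℤ th).natAbs * D.kap ^ (d - 1) ≤ M)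
    (hM2 : (2 * D.kap : ℝ) * D.kap ^ (d - 1) ≤ M) (hM3 : (Dl ^ 2 : ℝ) * D.kap ^ (d - 1) ≤ M)
    {b b' : R} {l : ℕ} (hb : b * b' = (Dl : R) ^ 2 * th ^ (2 * l)) :
    Relation.ReflTransGen (Step D th Dl M) (Dl * th ^ l) b := by
  have hcharz : (Dl : R) ≠ 0 := by
    intro h
    have h2 := congrArg (D.s ⟨0, D.dpos⟩) h
    rw [map_natCast, map_zero] at h2
    exact hDl.ne' (by exact_mod_cast h2)
  have hb0 : b ≠ 0 := by
    rintro rfl
    rw [zero_mul] at hb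
    exact (mul_ne_zero (pow_ne_zero 2 hcharz) (pow_ne_zero _ hth)) hb.symm
  refine (walk_start D hth hDl h1 hH hM4 l).trans ?_
  obtain ⟨y, hy, hw⟩ := walk_phase1 D (Dl := Dl) hth b hM1 (2 * l)
  set I := Ik th b (2 * l) with hI
  have hidx : idx I ≠ 0 := idx_ne_zero (pow_ne_zero _ hth) (th_mem_Ik b _)
  have hidx' : (0 : ℝ) < idx I := by exact_mod_cast Nat.pos_of_ne_zero hidx
  -- weights
  have hNb : (0 : ℝ) < ((Algebra.norm ℤ b).natAbs : ℝ) := by
    exact_mod_cast natAbs_norm_pos hb0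
  set nb : ℝ := ((Algebra.norm ℤ b).natAbs : ℝ) ^ ((1 : ℝ) / d) with hnb
  have hnb0 : 0 < nb := Real.rpow_pos_of_pos hNb _
  let t : Fin d → ℝ := fun j => ‖D.s j b‖ / nb
  have ht : ∀ j, 0 < t j := fun j => div_pos (norm_s_ne_zero D hb0 j) hnb0
  have htc : ∀ j, t (D.cj j) = t j := fun j => by
    show ‖D.s (D.cj j) b‖ / nb = ‖D.s j b‖ / nb
    rw [D.cj_spec, RCLike.norm_conj]
  have htp : ∏ j, t j = 1 := by
    show ∏ j, ‖D.s j b‖ / nb = 1
    rw [Finset.prod_div_distrib, ← D.abs_norm, hnb, prod_const_rpow D.dpos hNb.le,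
      div_self hNb.ne']
  obtain ⟨n, hn0, hn⟩ : ∃ n : ℕ, 0 < n ∧ ∀ j, t j ≤ 2 ^ n := by
    have h3 : ∀ j, ∃ n : ℕ, ∀ m ≥ n, t j ≤ 2 ^ m := fun j => by
      obtain ⟨n, hn⟩ := pow_unbounded_of_one_lt (t j) (one_lt_two)
      exact ⟨n, fun m hm => hn.le.trans (pow_le_pow_right₀ one_le_two hm)⟩
    choose n hn using h3
    refine ⟨∑ j, n j + 1, Nat.succ_pos _, fun j => hn j _ ?_⟩
    have := Finset.single_le_sum (f := n) (fun _ _ => Nat.zero_le _) (Finset.mem_univ j)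
    omega
  obtain ⟨y2, hy2, hw2⟩ := walk_phase2 D (th := th) (Dl := Dl) hidx (th_mem_Ik b (2 * l)) hM2 t ht
    htc htp n hn0 hn hy hw n
  have hnn : ((n : ℝ) / n) = 1 := div_self (by exact_mod_cast hn0.ne')
  rw [hnn] at hy2
  simp only [Real.rpow_one] at hy2
  have hT0 : 0 < (idx I : ℝ) ^ ((1 : ℝ) / d) := Real.rpow_pos_of_pos hidx' _
  refine hw2.tail (step_of_red D hy2 (fun j => mul_pos hT0 (ht j)) (b_mem_Ik b (2 * l))
    (c := (Dl ^ 2 : ℝ)) (by positivity) (fun j => ?_) hM3 (good_of_mem D (th_mem_Ik b (2 * l)) hy2)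
    ⟨hb0, 2 * l, (D.Q : R) * b', ?_⟩)
  · -- size of b
    have h3 : ((Algebra.norm ℤ b).natAbs : ℝ) ≤ (Dl ^ 2 : ℝ) ^ d * idx I := by
      have h4 : Ideal.span {((Dl ^ 2 : ℕ) : R)} * I ≤ Ideal.span {b} := by
        rw [hI, Ik, Ideal.mul_sup]
        refine sup_le Ideal.mul_le_right ?_
        rw [Ideal.span_singleton_mul_span_singleton, Ideal.span_singleton_le_iff_mem,
          Ideal.mem_span_singleton]
        refine ⟨b', ?_⟩
        rw [hb]
        push_cast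
        ring
      have h5 := idx_le h4
      have hne : ((Dl ^ 2 : ℕ) : R) ≠ 0 := by
        push_cast
        exact pow_ne_zero 2 hcharz
      rw [idx_mul hne, idx_span hb0, norm_natCast' D] at h5
      have h6 := Nat.le_of_dvd (Nat.mul_pos (Nat.pos_of_ne_zero hidx)
        (pow_pos (pow_pos hDl 2) d)) h5
      have h7 : ((Algebra.norm ℤ b).natAbs : ℝ) ≤ ((idx I * (Dl ^ 2) ^ d : ℕ) : ℝ) := by
        exact_mod_cast h6
      refine h7.trans (le_of_eq ?_)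
      push_cast
      ring
    have h4 : nb ≤ (Dl ^ 2 : ℝ) * (idx I : ℝ) ^ ((1 : ℝ) / d) := by
      calc nb ≤ ((Dl ^ 2 : ℝ) ^ d * idx I) ^ ((1 : ℝ) / d) :=
            Real.rpow_le_rpow hNb.le h3 (by positivity)
        _ = ((Dl ^ 2 : ℝ) ^ d) ^ ((1 : ℝ) / d) * (idx I : ℝ) ^ ((1 : ℝ) / d) :=
            Real.mul_rpow (by positivity) hidx'.le
        _ = _ := by
            rw [one_div, Real.pow_rpow_inv_natCast (by positivity) D.dpos.ne']
    have h5 : ‖D.s j b‖ = nb * t j := by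
      show ‖D.s j b‖ = nb * (‖D.s j b‖ / nb)
      rw [mul_div_cancel₀ _ hnb0.ne']
    rw [h5]
    calc nb * t j ≤ ((Dl ^ 2 : ℝ) * (idx I : ℝ) ^ ((1 : ℝ) / d)) * t j :=
          mul_le_mul_of_nonneg_right h4 (ht j).le
      _ = _ := by ring
  · push_cast
    linear_combination (D.Q : R) * hb

end Walk

theorem exists_seq {α : Type*} {r : α → α → Prop} {a b : α} (h : Relation.ReflTransGen r a b) :
    ∃ (m : ℕ) (z : ℕ → α), z 0 = a ∧ z m = b ∧ ∀ i < m, r (z i) (z (i + 1)) := by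
  induction h with
  | refl => exact ⟨0, fun _ => a, rfl, rfl, fun i hi => absurd hi (Nat.not_lt_zero _)⟩
  | @tail b c _ hbc ih =>
    obtain ⟨m, z, h0, hm, hs⟩ := ih
    refine ⟨m + 1, fun i => if i ≤ m then z i else c, ?_, ?_, fun i hi => ?_⟩
    · simp [h0]
    · simp
    · by_cases h1 : i + 1 ≤ m
      · simp only [h1, (by omega : i ≤ m), if_true]
        exact hs i (by omega)
      · have h2 : i = m := by omega
        subst h2
        simp only [le_refl, if_true, h1, if_false, hm]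
        exact hbc

end Pool.Agent.DEC.UB
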